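import Mathlib

/-!
# Mixed block: algebraic independence of the transcendental part
-/

set_option autoImplicit false

namespace Pool.Agent.Work.MP_8da9ea_nt.MX.AlgC

/-- If `m + 2m'` numbers chosen among `2m + 3m'` numbers, of which `m + m'` are algebraic, are algebraically
independent, then the remaining `m + 2m'` numbers are. -/
theorem core {m m' : ℕ} (a₁ e : Fin m → ℂ) (a₂ y z : Fin m' → ℂ)
    (h₁ : ∀ j, IsAlgebraic ℚ (a₁ j)) (h₂ : ∀ j, IsAlgebraic ℚ (a₂ j))
    (s : Fin (m + 2 * m') → (Fin m ⊕ Fin m) ⊕ (Fin m' ⊕ Fin m' ⊕ Fin m'))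
    (hs : AlgebraicIndependent ℚ (fun i =>
      Sum.elim (Sum.elim a₁ e) (Sum.elim a₂ (Sum.elim y z)) (s i))) :
    AlgebraicIndependent ℚ (Sum.elim e (Sum.elim y z)) := by
  classical
  have key : ∀ i, ∃ q : Fin m ⊕ (Fin m' ⊕ Fin m'),
      s i = Sum.elim (fun j => Sum.inl (Sum.inr j))
        (Sum.elim (fun j => Sum.inr (Sum.inr (Sum.inl j)))
          (fun j => Sum.inr (Sum.inr (Sum.inr j)))) q := by
    intro i
    have h3 := hs.transcendental i
    rcases h4 : s i with (j | j) | j | j | j
    · rw [h4] at h3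
      exact absurd (h₁ j) h3
    · exact ⟨Sum.inl j, rfl⟩
    · rw [h4] at h3
      exact absurd (h₂ j) h3
    · exact ⟨Sum.inr (Sum.inl j), rfl⟩
    · exact ⟨Sum.inr (Sum.inr j), rfl⟩
  choose f hf using key
  have h5 : ∀ i, Sum.elim (Sum.elim a₁ e) (Sum.elim a₂ (Sum.elim y z)) (s i) =
      Sum.elim e (Sum.elim y z) (f i) := by
    intro i
    rw [hf i]
    rcases f i with j | j | j <;> rfl
  have h6 : AlgebraicIndependent ℚ (fun i => Sum.elim e (Sum.elim y z) (f i)) := by
    have : (fun i => Sum.elim (Sum.elim a₁ e) (Sum.elim a₂ (Sum.elim y z)) (s i)) =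
        fun i => Sum.elim e (Sum.elim y z) (f i) := funext h5
    rwa [this] at hs
  have h7 : Function.Injective f := by
    intro i j hij
    apply h6.injective
    show Sum.elim e (Sum.elim y z) (f i) = Sum.elim e (Sum.elim y z) (f j)
    rw [hij]
  have h8 : Function.Bijective f := by
    refine (Fintype.bijective_iff_injective_and_card f).2 ⟨h7, ?_⟩
    simp only [Fintype.card_fin, Fintype.card_sum]
    ring
  let g := Equiv.ofBijective f h8
  have h9 := h6.comp g.symm g.symm.injective
  have h10 : (fun i => Sum.elim e (Sum.elim y z) (f i)) ∘ g.symm = Sum.elim e (Sum.elim y z) := by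
    funext q
    show Sum.elim e (Sum.elim y z) (f (g.symm q)) = _
    have : f (g.symm q) = q := g.apply_symm_apply q
    rw [this]
  rwa [h10] at h9

end Pool.Agent.Work.MP_8da9ea_nt.MX.AlgC
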