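import Pool.Agent.Work.MP_8da9ea_nt.MX.FinalA
import Pool.Agent.Work.MP_8da9ea_nt.CH.Asm

/-!
# Mixed block: the final theorem with the unconditional case of complex multiplication
-/

set_option autoImplicit false

namespace Pool.Agent.Work.MP_8da9ea_nt.MX

open MvPolynomial Pool.Agent.Work.MP_327059_nt.GL Pool.Agent.Work.MP_8da9ea_nt.S
  Pool.Agent.Work.MP_8da9ea_nt.EB EB.Final

open Pool.Agent.ED in
/-- the final theorem, from the items -/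
theorem final_mb (hN : S_Norm) (hM : S_MainS) (hR : S_MixRankF) (hZ : S_FinalZF) (hB : S_AbsF)
    (hT : S_TorRank2) (hK : S_KillMore) (hF : S_FTpol) :
    ∀ Q m m' κ : ℕ, ∃ n₀ : ℕ, ∀ (b : Fin m → ℂ) (b' : Fin m' → ℂ), FT Q (Fin.append b b') →
      LinearIndependent ℚ b → TrLe κ (Fin.append b b') →
      ∀ n : ℕ, n₀ ≤ n → ∀ x : Fin n → ℂ, LinearIndependent ℚ x →
      ∃ P : MvPolynomial (Fin n) ℂ, P ≠ 0 ∧ P.totalDegree ≤ m ∧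
      ∀ ω₁ ω₂ : ℂ, ∃ P₁ : MvPolynomial (Fin n) ℂ, P₁ ≠ 0 ∧ P₁.totalDegree ≤ 2 * m + 4 * m' ∧
      ∀ w : Fin n → ℚ, MvPolynomial.eval (fun i => (w i : ℂ)) P ≠ 0 →
      ∀ z : ℂ, z = ∑ i, (w i : ℂ) * x i →
        Sch b z ∧
        (LatOK ω₁ ω₂ b' → MvPolynomial.eval (fun i => (w i : ℂ)) P₁ ≠ 0 →
          IsAlgebraic ℚ (60 * gk 4 ω₁ ω₂) → IsAlgebraic ℚ (140 * gk 6 ω₁ ω₂) →
          (∀ j, ∀ a c : ℤ, b' j * z ≠ (a : ℂ) * ω₁ + (c : ℂ) * ω₂) ∧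
          (∃ s : Fin (m + 2 * m') → (Fin m ⊕ Fin m) ⊕ (Fin m' ⊕ Fin m' ⊕ Fin m'),
            AlgebraicIndependent ℚ (fun i =>
              Sum.elim (Sum.elim (fun j => b j * z) (fun j => Complex.exp (b j * z)))
                (Sum.elim (fun j => b' j * z) (Sum.elim (fun j => wp ω₁ ω₂ (b' j * z))
                  (fun j => zt ω₁ ω₂ (b' j * z)))) (s i))) ∧
          ((∀ j, IsAlgebraic ℚ (b j * z)) → (∀ j, IsAlgebraic ℚ (b' j * z)) →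
            AlgebraicIndependent ℚ (Sum.elim (fun j => Complex.exp (b j * z))
              (Sum.elim (fun j => wp ω₁ ω₂ (b' j * z)) (fun j => zt ω₁ ω₂ (b' j * z)))))) ∧
        ∀ r r' N : ℕ, (0 < r → r + N + κ + 1 ≤ m) →
          (0 < r' → LatOK ω₁ ω₂ b' ∧ MvPolynomial.eval (fun i => (w i : ℂ)) P₁ ≠ 0 ∧
            r' + N + κ + 1 ≤ m' ∧
            (0 < r → r + 2 * r' + N + κ + 1 ≤ m ∨ IsAlgebraic ℚ (60 * gk 4 ω₁ ω₂) ∧
              IsAlgebraic ℚ (140 * gk 6 ω₁ ω₂))) →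
          ∀ (s k : ℕ) (t : Fin s → ℂ) (p : Fin k → ℂ), ¬ HasTrdeg (bigField ω₁ ω₂ t p) (N + 1) →
          ∃ P' : MvPolynomial (Fin r × Fin m ⊕ Fin r' × Fin m') ℂ, P' ≠ 0 ∧
            P'.IsHomogeneous (r + 2 * r') ∧
          ∀ (c : Fin r → Fin m → ℚ) (c' : Fin r' → Fin m' → ℚ),
            MvPolynomial.eval (Sum.elim (fun q => (c q.1 q.2 : ℂ))
              (fun q => (c' q.1 q.2 : ℂ))) P' ≠ 0 →
          ∀ (u : Fin r → ℂ) (v : Fin r' → ℂ), (∀ i, u i = (∑ j, (c i j : ℂ) * b j) * z) →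
            (∀ i, v i = (∑ j, (c' i j : ℂ) * b' j) * z) →
            (∀ i, ∀ a b : ℤ, v i ≠ (a : ℂ) * ω₁ + (b : ℂ) * ω₂) ∧
            (∀ d, HasTrdeg (bigField ω₁ ω₂ t p) d →
              HasTrdeg (bigField ω₁ ω₂ (Fin.append t u) (Fin.append p v)) (d + r + 2 * r')) ∧
            (Q1 ω₁ ω₂ t p → Q1 ω₁ ω₂ (Fin.append t u) (Fin.append p v)) ∧
            (s = 0 → k = 0 → (ω₂ / ω₁).im ≠ 0 → IsCM ω₁ ω₂ → IsAlgebraic ℚ (jInv ω₁ ω₂) →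
              Q1 ω₁ ω₂ (Fin.append t u) (Fin.append p v)) := by
  intro Q m m' κ
  obtain ⟨n₀, hn₀⟩ := final_ma hN hM hR hZ hB hT hK hF Q m m' κ
  refine ⟨n₀, fun b b' hFT hb hκ n hn x hx => ?_⟩
  obtain ⟨P, hP, hPd, hPw⟩ := hn₀ b b' hFT hb hκ n hn x hx
  refine ⟨P, hP, hPd, fun ω₁ ω₂ => ?_⟩
  obtain ⟨P₁, hP₁, hP₁d, hP₁w⟩ := hPw ω₁ ω₂
  refine ⟨P₁, hP₁, hP₁d, fun w hw z hz => ?_⟩
  obtain ⟨h1, h2, h3⟩ := hP₁w w hw z hz
  refine ⟨h1, h2, fun r r' N hr hr' s k t p hNN => ?_⟩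
  obtain ⟨P', hP', hPh, hPc⟩ := h3 r r' N hr hr' s k t p hNN
  refine ⟨P', hP', hPh, fun c c' hc u v hu hv => ?_⟩
  obtain ⟨i1, i2, i3⟩ := hPc c c' hc u v hu hv
  refine ⟨i1, i2, i3, ?_⟩
  intro hs hk him hcm hj
  subst hs
  subst hk
  apply i3
  have h1 : ω₁ ≠ 0 := by
    rintro rfl
    simp at him
  refine CH.x_BaseCM ω₁ ω₂ ?_ hj hcm _ _
  rw [LinearIndependent.pair_iff]
  intro a b h
  have h2 : (a : ℂ) + (b : ℂ) * (ω₂ / ω₁) = 0 := by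
    have h3 : ω₁ * ((a : ℂ) + (b : ℂ) * (ω₂ / ω₁)) = 0 := by
      have h4 : (a : ℂ) * ω₁ + (b : ℂ) * ω₂ = 0 := by
        simpa only [Complex.real_smul] using h
      rw [← h4]
      field_simp
    exact (mul_eq_zero.1 h3).resolve_left h1
  have h5 := congrArg Complex.im h2
  simp only [Complex.add_im, Complex.ofReal_im, Complex.re_ofReal_mul, Complex.im_ofReal_mul,
    Complex.zero_im, zero_add] at h5
  have hb : b = 0 := (mul_eq_zero.1 h5).resolve_right him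
  subst hb
  have h6 := congrArg Complex.re h2
  simp at h6
  exact ⟨h6, rfl⟩

end Pool.Agent.Work.MP_8da9ea_nt.MX
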