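import Pool.Agent.Work.MP_8da9ea_nt.MX.StmtsG
import Pool.Agent.Work.MP_8da9ea_nt.EB.I_Kf
import Pool.Agent.Work.MP_8da9ea_nt.EB.I_LamAdd
import Pool.Agent.Work.MP_8da9ea_nt.EB.I_LamMul
import Pool.Agent.Work.MP_8da9ea_nt.EB.I_LamZero

/-!
# Mixed block, item AKM: the mixed theorem of Ax, span form
-/

set_option autoImplicit false

namespace Pool.Agent.Work.MP_8da9ea_nt.MX

open MvPolynomial Pool.Agent.Work.MP_327059_nt.GL Pool.Agent.Work.MP_8da9ea_nt.S
  Pool.Agent.Work.MP_8da9ea_nt.EB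

namespace I_AKM

/-- A subfamily which is a basis modulo a subspace. -/
theorem decomp {k V P : Type} [Field k] [AddCommGroup V] [Module k V] (S : Submodule k V)
    [Fintype P] (u : P → V) : ∃ (κ : Type) (_ : Fintype κ) (a : κ → P) (r : P → κ → k),
      (∀ p, u p - ∑ q, r p q • u (a q) ∈ S) ∧ ∀ c : κ → k, ∑ q, c q • u (a q) ∈ S → c = 0 := by
  obtain ⟨κ, a, ha, hs, hl⟩ := exists_linearIndependent' k (fun p => S.mkQ (u p))
  have hfin : Finite κ := Finite.of_injective a ha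
  let _ : Fintype κ := Fintype.ofFinite κ
  have hker : ∀ x : V, S.mkQ x = 0 ↔ x ∈ S := fun x => Submodule.Quotient.mk_eq_zero S
  have hm : ∀ p, ∃ c : κ → k, ∑ q, c q • S.mkQ (u (a q)) = S.mkQ (u p) := by
    intro p
    have h1 : S.mkQ (u p) ∈ Submodule.span k (Set.range fun p => S.mkQ (u p)) :=
      Submodule.subset_span ⟨p, rfl⟩
    rw [← hs] at h1
    exact (Submodule.mem_span_range_iff_exists_fun k).mp h1
  choose r hr using hm
  refine ⟨κ, inferInstance, a, r, ?_, ?_⟩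
  · intro p
    apply (hker _).mp
    rw [map_sub, map_sum, sub_eq_zero, ← hr p]
    exact Finset.sum_congr rfl fun q _ => (map_smul _ _ _).symm
  · intro c hc
    rw [← hker, map_sum] at hc
    funext q
    refine Fintype.linearIndependent_iff.mp hl c ?_ q
    rw [← hc]
    exact Finset.sum_congr rfl fun q _ => (map_smul _ _ _).symm

theorem th_add (δ : Derivation ℚ ℂ ℂ) (x y : ℂ) : FR.th δ (x + y) = FR.th δ x + FR.th δ y := by
  unfold FR.th
  have hx := Complex.exp_ne_zero x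
  have hy := Complex.exp_ne_zero y
  rw [Complex.exp_add, Derivation.leibniz, smul_eq_mul, smul_eq_mul]
  field_simp
  ring

/-- `th` as a homomorphism. -/
noncomputable def thH (δ : Derivation ℚ ℂ ℂ) : ℂ →+ ℂ :=
  AddMonoidHom.mk' (FR.th δ) (th_add δ)

theorem th_sum {κ : Type} [Fintype κ] (δ : Derivation ℚ ℂ ℂ) (q : κ → ℚ) (b : κ → ℂ) :
    FR.th δ (∑ i, (q i : ℂ) * b i) = ∑ i, (q i : ℂ) * FR.th δ (b i) := by
  have h := map_sum (thH δ) (fun i => (q i : ℂ) * b i) Finset.univ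
  refine h.trans (Finset.sum_congr rfl fun i _ => ?_)
  have h2 := map_rat_smul (thH δ) (q i) (b i)
  rw [Rat.smul_def, Rat.smul_def] at h2
  exact h2

theorem alg_mem {E : IntermediateField ℚ ℂ} (hE : ACl E) {x : ℂ} (hx : IsAlgebraic ℚ x) :
    x ∈ E := hE x (hx.tower_top E)

/-- The `ℚ`-space of the logarithms of elements of `E`. -/
noncomputable def SE {E : IntermediateField ℚ ℂ} (hE : ACl E) : Submodule ℚ ℂ where
  carrier := {x | Complex.exp x ∈ E}
  add_mem' {a b} ha hb := by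
    show Complex.exp (a + b) ∈ E
    rw [Complex.exp_add]
    exact mul_mem ha hb
  zero_mem' := by
    show Complex.exp 0 ∈ E
    rw [Complex.exp_zero]
    exact one_mem _
  smul_mem' q x hx := by
    show Complex.exp (q • x) ∈ E
    apply hE
    have hd : q.den ≠ 0 := q.den_nz
    have h1 : Complex.exp (q • x) ^ q.den = Complex.exp x ^ q.num := by
      rw [← Complex.exp_nat_mul, ← Complex.exp_int_mul, Rat.smul_def]
      congr 1
      have h2 : (q : ℂ) * (q.den : ℂ) = (q.num : ℂ) := by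
        have := Rat.mul_den_eq_num q
        exact_mod_cast this
      linear_combination x * h2
    have h3 : Complex.exp x ^ q.num ∈ E := zpow_mem hx _
    have h4 : IsAlgebraic E (Complex.exp (q • x) ^ q.den) := by
      rw [h1]
      exact isAlgebraic_algebraMap (⟨_, h3⟩ : E)
    exact IsAlgebraic.of_pow (Nat.pos_of_ne_zero hd) h4

theorem zero_mem_Lam (τ : ℂ) : (0 : ℂ) ∈ Lam τ := by
  rw [mem_Lam]
  exact ⟨0, 0, by simp⟩

theorem lam_zero (τ μ : ℂ) (δ : Derivation ℚ ℂ ℂ) : lam τ μ δ 0 = 0 := by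
  unfold lam
  rw [if_pos (zero_mem_Lam τ)]

/-- The space of the points defined over `E`. -/
noncomputable def SL {τ μ : ℂ} (hN : Nrm τ μ) (E : IntermediateField ℚ ℂ) :
    Submodule (kf τ) ℂ where
  carrier := {x | ∀ δ ∈ DK E, lam τ μ δ x = 0}
  add_mem' {a b} ha hb δ hδ := by
    rw [LamAdd_pf τ μ hN, ha δ hδ, hb δ hδ, add_zero]
  zero_mem' δ _ := lam_zero τ μ δ
  smul_mem' g x hx δ hδ := by
    have hg : IsE τ (g : ℂ) := ((Kf_pf τ hN.im).2.1 g).mp g.2
    show lam τ μ δ ((g : ℂ) * x) = 0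
    rw [LamMul_pf LamAdd_pf Kf_pf CD.prf_Sum τ μ hN δ g x hg, hx δ hδ, mul_zero]

theorem swap {P κ : Type} [Fintype P] [Fintype κ] (c : P → ℂ) (q : P → κ → ℂ) (x : κ → ℂ) :
    ∑ i, (∑ j, c j * q j i) * x i = ∑ j, c j * ∑ i, q j i * x i := by
  simp only [Finset.sum_mul, Finset.mul_sum]
  rw [Finset.sum_comm]
  refine Finset.sum_congr rfl fun j _ => Finset.sum_congr rfl fun i _ => ?_
  ring

/-- The vector `e_p - ∑ r_q e_{a q}`. -/
noncomputable def vecP {P κ : Type} [Fintype κ] (a : κ → P) (p : P) (r : κ → ℂ) : P → ℂ :=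
  open Classical in fun x => (if x = p then 1 else 0) - ∑ q, r q * (if x = a q then 1 else 0)

theorem vecP_sum {P κ : Type} [Fintype P] [Fintype κ] (a : κ → P) (p : P) (r : κ → ℂ)
    (u : P → ℂ) : ∑ x, vecP a p r x * u x = u p - ∑ q, r q * u (a q) := by
  classical
  unfold vecP
  simp only [sub_mul, Finset.sum_sub_distrib, ite_mul, one_mul, zero_mul, Finset.sum_mul]
  rw [Finset.sum_ite_eq' Finset.univ p u, if_pos (Finset.mem_univ p), Finset.sum_comm]
  congr 1
  refine Finset.sum_congr rfl fun q _ => ?_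
  rw [Finset.sum_eq_single (a q)]
  · simp
  · intro x _ hx
    simp [hx]
  · intro h
    exact absurd (Finset.mem_univ _) h

theorem vecP_mem {P κ : Type} [Fintype κ] (k : IntermediateField ℚ ℂ) (a : κ → P) (p : P)
    (r : κ → ℂ) (hr : ∀ q, r q ∈ k) (x : P) : vecP a p r x ∈ k := by
  classical
  unfold vecP
  refine sub_mem ?_ (sum_mem fun q _ => mul_mem (hr q) ?_)
  · split_ifs
    · exact one_mem _
    · exact zero_mem _
  · split_ifs
    · exact one_mem _
    · exact zero_mem _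

theorem vecP_conj {P κ : Type} [Fintype κ] (a : κ → P) (p : P) (r : κ → ℂ) (x : P) :
    vecP a p (fun q => (starRingEnd ℂ) (r q)) x = (starRingEnd ℂ) (vecP a p r x) := by
  classical
  unfold vecP
  rw [map_sub, map_sum]
  congr 1
  · split_ifs <;> simp
  · refine Finset.sum_congr rfl fun q _ => ?_
    rw [map_mul]
    congr 1
    split_ifs <;> simp

theorem span_of {P κ : Type} [Fintype P] [Fintype κ] (c : P → ℂ) (a : κ → P) (r : P → κ → ℂ)
    (hA : ∀ q, ∑ p, c p * r p q = 0) (S : Set (P → ℂ)) (hS : ∀ p, vecP a p (r p) ∈ S) :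
    c ∈ Submodule.span ℂ S := by
  classical
  have h : c = ∑ p, c p • vecP a p (r p) := by
    funext x
    rw [Finset.sum_apply]
    simp only [Pi.smul_apply, smul_eq_mul, vecP, mul_sub, Finset.sum_sub_distrib, mul_ite,
      mul_one, mul_zero]
    rw [Finset.sum_ite_eq Finset.univ x c, if_pos (Finset.mem_univ x)]
    have h2 : ∑ p, c p * ∑ q, (if x = a q then r p q else 0) =
        ∑ q, (∑ p, c p * r p q) * (if x = a q then 1 else 0) := by
      rw [swap]
      refine Finset.sum_congr rfl fun p _ => ?_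
      congr 1
      refine Finset.sum_congr rfl fun q _ => ?_
      split_ifs <;> simp
    rw [h2]
    simp only [hA, zero_mul, Finset.sum_const_zero, sub_zero]
  rw [h]
  exact Submodule.sum_mem _ fun p _ => Submodule.smul_mem _ _ (Submodule.subset_span (hS p))

end I_AKM

open I_AKM in
/-- **[G6]** -/
theorem AKM_pf (h1 : S_EtaAddC) (h2 : FR.S_MixAx) : S_AKM := by
  classical
  intro τ μ α hN hα E hc hE P _ u w c1 c2 c3 hc1 hc2 hc3 T hrel
  have hKf := Kf_pf τ hN.im
  have hLM := LamMul_pf LamAdd_pf Kf_pf CD.prf_Sum τ μ hN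
  have hLZ := LamZero_pf τ μ hN E hE
  obtain ⟨κ, _, a, r, hr, hi⟩ := decomp (SE hE) u
  obtain ⟨κ', _, a', g, hg, hi'⟩ := decomp (SL hN E) w
  have hgE : ∀ g : kf τ, (g : ℂ) ∈ E := fun g => alg_mem hE (hKf.1 _ ((hKf.2.1 g).mp g.2))
  have hcE : ∀ g : kf τ, (starRingEnd ℂ) (g : ℂ) ∈ E := by
    intro g
    have h3 := hKf.1 _ ((hKf.2.1 g).mp g.2)
    exact alg_mem hE (h3.algHom (starRingEnd ℂ).toRatAlgHom)
  have hαE : α ∈ E := alg_mem hE hα.1
  -- the decompositions
  have e1 : ∀ δ ∈ DK E, ∀ p, FR.th δ (u p) = ∑ q, (r p q : ℂ) * FR.th δ (u (a q)) := by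
    intro δ hδ j
    have h3 : u j = ∑ i, (r j i : ℂ) * u (a i) + (u j - ∑ i, r j i • u (a i)) := by
      have h4 : ∑ i, r j i • u (a i) = ∑ i, (r j i : ℂ) * u (a i) :=
        Finset.sum_congr rfl fun i _ => Rat.smul_def _ _
      rw [h4]
      ring
    have h5 : FR.th δ (u j - ∑ i, r j i • u (a i)) = 0 := by
      unfold FR.th
      rw [hδ _ (hr j), zero_div]
    conv_lhs => rw [h3]
    rw [th_add, th_sum, h5, add_zero]
  have hv : ∀ j, w j = ∑ i, (g j i : ℂ) * w (a' i) + (w j - ∑ i, g j i • w (a' i)) := by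
    intro j
    have h4 : ∑ i, g j i • w (a' i) = ∑ i, (g j i : ℂ) * w (a' i) :=
      Finset.sum_congr rfl fun i _ => rfl
    rw [h4]
    ring
  have e2 : ∀ δ ∈ DK E, ∀ j, lam τ μ δ (w j) = ∑ i, (g j i : ℂ) * lam τ μ δ (w (a' i)) := by
    intro δ hδ j
    conv_lhs => rw [hv j]
    rw [LamAdd_pf τ μ hN, hg j δ hδ, add_zero]
    have h3 := map_sum (AddMonoidHom.mk' (lam τ μ δ) (LamAdd_pf τ μ hN δ))
      (fun i => (g j i : ℂ) * w (a' i)) Finset.univ
    refine h3.trans (Finset.sum_congr rfl fun i _ => ?_)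
    exact hLM δ (g j i) (w (a' i)) ((hKf.2.1 _).mp (g j i).2)
  -- the corrected form
  have hTadd : ∀ (δ : Derivation ℚ ℂ ℂ) (x y : ℂ),
      etT τ μ α δ (x + y) = etT τ μ α δ x + etT τ μ α δ y := by
    intro δ x y
    unfold etT
    rw [h1 τ μ hN, LamAdd_pf τ μ hN, add_div, map_add]
    ring
  let zz : P → ℂ := fun j =>
    (if w j - ∑ i, g j i • w (a' i) ∈ Lam τ then μ * qp τ (w j - ∑ i, g j i • w (a' i))
      else ze τ μ (w j - ∑ i, g j i • w (a' i))) - α * ((w j - ∑ i, g j i • w (a' i)) / μ)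
  have hzz : ∀ δ ∈ DK E, ∀ j, etT τ μ α δ (w j - ∑ i, g j i • w (a' i)) = δ (zz j) := by
    intro δ hδ j
    have h3 := hg j δ hδ
    have h4 : δ (α * ((w j - ∑ i, g j i • w (a' i)) / μ)) =
        α * δ ((w j - ∑ i, g j i • w (a' i)) / μ) := by
      rw [Derivation.leibniz, hδ _ hαE, smul_zero, add_zero, smul_eq_mul]
    show etT τ μ α δ (w j - ∑ i, g j i • w (a' i)) = δ (_ - _)
    rw [map_sub, h4]
    unfold etT etC
    rw [h3]
    split_ifs with h5
    · ring
    · unfold etf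
      rw [if_neg h5, h3]
      ring
  have e3 : ∀ δ ∈ DK E, ∀ j, etT τ μ α δ (w j) =
      ∑ i, (starRingEnd ℂ) (g j i : ℂ) * etT τ μ α δ (w (a' i)) + δ (zz j) := by
    intro δ hδ j
    conv_lhs => rw [hv j]
    rw [hTadd, hzz δ hδ j]
    congr 1
    have h3 := map_sum (AddMonoidHom.mk' (etT τ μ α δ) (hTadd δ))
      (fun i => (g j i : ℂ) * w (a' i)) Finset.univ
    refine h3.trans (Finset.sum_congr rfl fun i _ => ?_)
    exact hα.2 (g j i) ((hKf.2.1 _).mp (g j i).2) δ (w (a' i))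
  have hnl : ∀ i, w (a' i) ∉ Lam τ := by
    intro i hi2
    have h3 := hi' (Pi.single i 1) (by
      rw [Finset.sum_eq_single i]
      · rw [Pi.single_eq_same, one_smul]
        intro δ _
        unfold lam
        rw [if_pos hi2]
      · intro j _ hj
        rw [Pi.single_eq_of_ne hj, zero_smul]
      · intro h
        exact absurd (Finset.mem_univ _) h)
    have h4 := congrFun h3 i
    rw [Pi.single_eq_same] at h4
    exact one_ne_zero h4
  have e4 : ∀ (δ : Derivation ℚ ℂ ℂ) (i), etT τ μ α δ (w (a' i)) =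
      etf τ μ δ (w (a' i)) + α * lam τ μ δ (w (a' i)) - α * δ (w (a' i) / μ) := by
    intro δ i
    unfold etT etC
    rw [if_neg (hnl i)]
    ring
  -- the coefficients
  set A : κ → ℂ := fun i => ∑ j, c1 j * (r j i : ℂ) with hA
  set B : κ' → ℂ := fun i => ∑ j, c2 j * (g j i : ℂ) with hB
  set C : κ' → ℂ := fun i => ∑ j, c3 j * (starRingEnd ℂ) (g j i : ℂ) with hC
  have hAE : ∀ i, A i ∈ E := fun i => sum_mem fun j _ =>
    mul_mem (hc1 _) (SubfieldClass.ratCast_mem E _)
  have hCE : ∀ i, C i ∈ E := fun i => sum_mem fun j _ => mul_mem (hc3 _) (hcE _)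
  have hBE : ∀ i, B i ∈ E := fun i => sum_mem fun j _ => mul_mem (hc2 _) (hgE _)
  set T' : ℂ := T - ∑ j, c3 j * zz j + ∑ i, C i * (α * (w (a' i) / μ)) with hT
  have hmain : ∀ δ ∈ DK E, ∑ i, A i * FR.th δ (u (a i)) +
      ∑ i, (B i + α * C i) * lam τ μ δ (w (a' i)) +
      ∑ i, C i * etf τ μ δ (w (a' i)) = δ T' := by
    intro δ hδ
    have h3 := hrel δ hδ
    have h4 : δ T' = δ T - ∑ j, c3 j * δ (zz j) + ∑ i, C i * (α * δ (w (a' i) / μ)) := by
      rw [hT, map_add, map_sub, map_sum, map_sum]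
      congr 1
      · congr 1
        refine Finset.sum_congr rfl fun j _ => ?_
        rw [Derivation.leibniz, hδ _ (hc3 j), smul_zero, add_zero, smul_eq_mul]
      · refine Finset.sum_congr rfl fun i _ => ?_
        rw [Derivation.leibniz, hδ _ (hCE i), smul_zero, add_zero, smul_eq_mul,
          Derivation.leibniz, hδ _ hαE, smul_zero, add_zero, smul_eq_mul]
    have h5 : ∑ i, A i * FR.th δ (u (a i)) = ∑ p, c1 p * FR.th δ (u p) := by
      rw [hA, swap]
      exact Finset.sum_congr rfl fun p _ => by rw [e1 δ hδ p]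
    have h6 : ∑ i, B i * lam τ μ δ (w (a' i)) = ∑ p, c2 p * lam τ μ δ (w p) := by
      rw [hB, swap]
      exact Finset.sum_congr rfl fun p _ => by rw [e2 δ hδ p]
    have h7 : ∑ i, C i * etT τ μ α δ (w (a' i)) + ∑ j, c3 j * δ (zz j) =
        ∑ p, c3 p * etT τ μ α δ (w p) := by
      rw [hC, swap, ← Finset.sum_add_distrib]
      refine Finset.sum_congr rfl fun p _ => ?_
      rw [e3 δ hδ p]
      ring
    have h8 : ∑ i, C i * etT τ μ α δ (w (a' i)) = ∑ i, C i * etf τ μ δ (w (a' i)) +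
        ∑ i, (α * C i) * lam τ μ δ (w (a' i)) - ∑ i, C i * (α * δ (w (a' i) / μ)) := by
      rw [← Finset.sum_add_distrib, ← Finset.sum_sub_distrib]
      refine Finset.sum_congr rfl fun i _ => ?_
      rw [e4 δ i]
      ring
    have h9 : ∑ i, (B i + α * C i) * lam τ μ δ (w (a' i)) =
        ∑ i, B i * lam τ μ δ (w (a' i)) + ∑ i, (α * C i) * lam τ μ δ (w (a' i)) := by
      rw [← Finset.sum_add_distrib]
      exact Finset.sum_congr rfl fun i _ => by ring
    rw [h4, h9, h5, h6, ← h3, ← h7, h8]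
    ring
  obtain ⟨zA, zB, zC⟩ := h2 τ μ E hc hE κ κ' (fun _ =>
    { im := hN.im
      mu := hN.mu
      g2 := alg_mem hE hN.g2
      g3 := alg_mem hE hN.g3 }) (fun i => u (a i)) (fun i => w (a' i)) (by
      intro c hc
      apply hi c
      have h3 : ∑ i, c i • u (a i) = ∑ i, (c i : ℂ) * u (a i) :=
        Finset.sum_congr rfl fun i _ => Rat.smul_def _ _
      show Complex.exp (∑ i, c i • u (a i)) ∈ E
      rw [h3]
      exact hc) (by
      intro c hc hmem
      have h3 := hi' (fun i => ⟨c i, (hKf.2.1 _).mpr (hc i)⟩) (by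
        intro δ hδ
        exact ((hLZ _).mpr hmem) δ hδ)
      funext i
      have h4 := congrFun h3 i
      exact congrArg (fun x : kf τ => (x : ℂ)) h4) A (fun i => B i + α * C i) C hAE
      (fun i => add_mem (hBE i) (mul_mem hαE (hCE i))) hCE T' hmain
  have hC0 : ∀ i, C i = 0 := fun i => congrFun zC i
  have hA0 : ∀ i, A i = 0 := fun i => congrFun zA i
  have hB0 : ∀ i, B i = 0 := by
    intro i
    have h3 := congrFun zB i
    simp only [hC0 i, mul_zero, add_zero, Pi.zero_apply] at h3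
    exact h3
  have hmemL : ∀ p, (w p - ∑ q, (g p q : ℂ) * w (a' q) ∈ Lam τ ∨
      xe τ μ (w p - ∑ q, (g p q : ℂ) * w (a' q)) ∈ E) := by
    intro p
    exact (hLZ _).mp (hg p)
  refine ⟨?_, ?_, ?_⟩
  · refine span_of c1 a (fun p q => (r p q : ℂ)) hA0 _ fun p => ⟨?_, ?_⟩
    · exact vecP_mem kQ a p _ fun q => SubfieldClass.ratCast_mem _ _
    · rw [vecP_sum]
      have h3 : ∑ q, (r p q : ℂ) * u (a q) = ∑ q, r p q • u (a q) :=
        Finset.sum_congr rfl fun i _ => (Rat.smul_def _ _).symm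
      rw [h3]
      exact hr p
  · refine span_of c2 a' (fun p q => (g p q : ℂ)) hB0 _ fun p => ⟨?_, ?_⟩
    · exact vecP_mem (kf τ) a' p _ fun q => (g p q).2
    · rw [vecP_sum]
      exact hmemL p
  · refine span_of c3 a' (fun p q => (starRingEnd ℂ) (g p q : ℂ)) hC0 _ fun p =>
      ⟨vecP a' p (fun q => (g p q : ℂ)), ?_, ?_, ?_⟩
    · exact fun x => vecP_conj a' p (fun q => (g p q : ℂ)) x
    · exact vecP_mem (kf τ) a' p _ fun q => (g p q).2
    · rw [vecP_sum]
      exact hmemL p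

end Pool.Agent.Work.MP_8da9ea_nt.MX
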