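import Pool.Agent.Work.MP_8da9ea_nt.MX.StmtsR
import Pool.Agent.Work.MP_8da9ea_nt.EB.Final

/-!
# Mixed block, R4: the absolute statements at a point
-/

set_option autoImplicit false

namespace Pool.Agent.Work.MP_8da9ea_nt.MX

open MvPolynomial Pool.Agent.Work.MP_327059_nt.GL Pool.Agent.Work.MP_8da9ea_nt.S
  Pool.Agent.Work.MP_8da9ea_nt.EB

namespace I_AbsM

open Pool.Agent.ED

/-- the general absolute statement: forms expressed by the differentials of the numbers `F` -/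
theorem absGen {m κ₀ : ℕ} {J : Type} [Fintype J] (b : Fin m → ℂ) (sb : Fin κ₀ → Fin m)
    (hind : AlgebraicIndependent ℚ (fun i => b (sb i))) (F : J → ℂ)
    (om : Derivation ℚ ℂ ℂ →ₗ[ℂ] (J → ℂ)) (D : (J → ℂ) →ₗ[ℂ] (J → ℂ))
    (hD : ∀ δ, om δ = D (fun j => δ (F j))) (N : ℕ)
    (hr : N ≤ κ₀ + Module.finrank ℂ ((TT b).map om)) :
    ∃ s : Fin N → Fin m ⊕ J, AlgebraicIndependent ℚ (fun i => Sum.elim b F (s i)) := by
  classical
  set K₀ := IntermediateField.adjoin ℚ (Set.range fun i => b (sb i)) with hK₀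
  obtain ⟨s, hs, hcard⟩ := exists_finset_rank (K := K₀) F
  have hle : (TT b).map om ≤ (Submodule.span ℂ
      (Set.range fun X : Derivation K₀ ℂ ℂ => fun i => X (F i))).map D := by
    rintro _ ⟨δ, hδ, rfl⟩
    have hδK : ∀ x ∈ K₀, δ x = 0 := by
      refine der_zero_adjoin _ δ ?_
      rintro _ ⟨i, rfl⟩
      exact hδ (sb i)
    exact ⟨fun j => δ (F j), Submodule.subset_span ⟨derL K₀ δ hδK, rfl⟩, (hD δ).symm⟩
  have h1 : Module.finrank ℂ ((TT b).map om) ≤ s.card := by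
    rw [← hcard]
    exact (Submodule.finrank_mono hle).trans (Submodule.finrank_map_le D _)
  have h2 : AlgebraicIndependent ℚ
      (Sum.elim (fun i : s => F i) (fun i => b (sb i))) := by
    refine hind.sumElim_of_tower (S := K₀) ?_ hs
    rintro _ ⟨j, rfl⟩
    exact ⟨⟨b (sb j), IntermediateField.subset_adjoin _ _ ⟨j, rfl⟩⟩, rfl⟩
  have h3 : Fintype.card (Fin N) ≤ Fintype.card (s ⊕ Fin κ₀) := by
    rw [Fintype.card_sum, Fintype.card_fin, Fintype.card_fin, Fintype.card_coe]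
    omega
  obtain ⟨e⟩ := Function.Embedding.nonempty_of_card_le h3
  refine ⟨fun i => Sum.elim (fun j : s => Sum.inr (j : J)) (fun j => Sum.inl (sb j)) (e i), ?_⟩
  have h4 := h2.comp _ e.injective
  have h5 : (fun i => Sum.elim b F (Sum.elim (fun j : s => Sum.inr (j : J))
      (fun j => Sum.inl (sb j)) (e i))) = Sum.elim (fun i : s => F i) (fun i => b (sb i)) ∘ e := by
    funext i
    simp only [Function.comp_apply]
    rcases e i with j | j <;> rfl
  rw [h5]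
  exact h4

theorem xe_eq {ω₁ ω₂ τ μ : ℂ} (hω : ω₂ = ω₁ * τ ∨ ω₂ = -(ω₁ * τ)) (h1 : ω₁ ≠ 0)
    (hμ : μ = ω₁⁻¹) (y : ℂ) : xe τ μ (μ * y) = wp ω₁ ω₂ y := by
  have h2 : wp ω₁ ω₂ y = wp (ω₁ * 1) (ω₁ * τ) (ω₁ * (μ * y)) := by
    have h3 : ω₁ * (μ * y) = y := by
      rw [hμ]
      field_simp
    rw [h3, mul_one]
    rcases hω with h | h
    · rw [h]
    · rw [h, wp_N]
  rw [h2, wp_smul h1]
  unfold xe
  rw [hμ, inv_pow]

theorem ze_eq {ω₁ ω₂ τ μ : ℂ} (hω : ω₂ = ω₁ * τ ∨ ω₂ = -(ω₁ * τ)) (h1 : ω₁ ≠ 0)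
    (hμ : μ = ω₁⁻¹) (y : ℂ) : ze τ μ (μ * y) = zt ω₁ ω₂ y := by
  have h2 : zt ω₁ ω₂ y = zt (ω₁ * 1) (ω₁ * τ) (ω₁ * (μ * y)) := by
    have h3 : ω₁ * (μ * y) = y := by
      rw [hμ]
      field_simp
    rw [h3, mul_one]
    rcases hω with h | h
    · rw [h]
    · rw [h, zt_N]
  rw [h2, zt_smul h1]
  unfold ze
  rw [hμ]

end I_AbsM

open I_AbsM in
theorem AbsM_pf : S_AbsM := by
  classical
  intro m κ₀ b z ω₁ ω₂ τ μ sb hind _ _ hω h1 hμ hL hA hB
  have hX : ∀ j, wp ω₁ ω₂ (b j * z) = xe τ μ (μ * (b j * z)) := fun j => (xe_eq hω h1 hμ _).symm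
  have hZ : ∀ j, zt ω₁ ω₂ (b j * z) = ze τ μ (μ * (b j * z)) := fun j => (ze_eq hω h1 hμ _).symm
  constructor
  · let D : (Option (Fin m ⊕ Fin m) → ℂ) →ₗ[ℂ] (Option (Fin m ⊕ Fin m) → ℂ) :=
      LinearMap.pi fun o => o.elim (LinearMap.proj none) (Sum.elim
        (fun j => (Complex.exp (b j * z))⁻¹ • LinearMap.proj (some (Sum.inl j)))
        (fun j => (ye τ μ (μ * (b j * z)))⁻¹ • LinearMap.proj (some (Sum.inr j))))
    refine absGen b sb hind _ (fam (mixA τ μ b z)) D ?_ _ hA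
    intro δ
    funext o
    rcases o with _ | j | j
    · rfl
    · change FR.th δ (b j * z) = (Complex.exp (b j * z))⁻¹ • δ (Complex.exp (b j * z))
      unfold FR.th
      rw [div_eq_mul_inv, mul_comm, smul_eq_mul]
    · change lam τ μ δ (μ * (b j * z)) = (ye τ μ (μ * (b j * z)))⁻¹ • δ (wp ω₁ ω₂ (b j * z))
      rw [hX]
      unfold lam
      rw [if_neg (hL j), div_eq_mul_inv, mul_comm, smul_eq_mul]
  · let D : (Option (Fin m ⊕ (Fin m ⊕ Fin m)) → ℂ) →ₗ[ℂ]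
        (Option (Fin m ⊕ (Fin m ⊕ Fin m)) → ℂ) :=
      LinearMap.pi fun o => o.elim (LinearMap.proj none) (Sum.elim
        (fun j => (Complex.exp (b j * z))⁻¹ • LinearMap.proj (some (Sum.inl j)))
        (Sum.elim
          (fun j => (ye τ μ (μ * (b j * z)))⁻¹ • LinearMap.proj (some (Sum.inr (Sum.inl j))))
          (fun j => LinearMap.proj (some (Sum.inr (Sum.inr j))) +
            (xe τ μ (μ * (b j * z)) * (ye τ μ (μ * (b j * z)))⁻¹) •
              LinearMap.proj (some (Sum.inr (Sum.inl j))))))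
    have h5 : (if m = 1 then 3 else 5 * m / 2) ≤
        κ₀ + Module.finrank ℂ ((TT b).map (fam (mixB τ μ b z))) := by
      refine le_trans ?_ hB
      unfold tgt
      rw [if_pos rfl]
      split_ifs
      · exact le_refl _
      · omega
    refine absGen b sb hind _ (fam (mixB τ μ b z)) D ?_ _ h5
    intro δ
    funext o
    rcases o with _ | j | j | j
    · rfl
    · change FR.th δ (b j * z) = (Complex.exp (b j * z))⁻¹ • δ (Complex.exp (b j * z))
      unfold FR.th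
      rw [div_eq_mul_inv, mul_comm, smul_eq_mul]
    · change lam τ μ δ (μ * (b j * z)) = (ye τ μ (μ * (b j * z)))⁻¹ • δ (wp ω₁ ω₂ (b j * z))
      rw [hX]
      unfold lam
      rw [if_neg (hL j), div_eq_mul_inv, mul_comm, smul_eq_mul]
    · change etf τ μ δ (μ * (b j * z)) = δ (zt ω₁ ω₂ (b j * z)) +
        (xe τ μ (μ * (b j * z)) * (ye τ μ (μ * (b j * z)))⁻¹) • δ (wp ω₁ ω₂ (b j * z))
      rw [hX, hZ]
      unfold etf lam
      rw [if_neg (hL j), if_neg (hL j), smul_eq_mul]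
      ring

end Pool.Agent.Work.MP_8da9ea_nt.MX
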