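import Pool.Agent.Work.MP_8da9ea_nt.MX.StmtsF
import Pool.Agent.Work.MP_8da9ea_nt.MX.I_AbsM

/-!
# Mixed block, lossless version, F7: the absolute statement at a point
-/

set_option autoImplicit false

namespace Pool.Agent.Work.MP_8da9ea_nt.MX

open MvPolynomial Pool.Agent.Work.MP_327059_nt.GL Pool.Agent.Work.MP_8da9ea_nt.S
  Pool.Agent.Work.MP_8da9ea_nt.EB

open I_AbsM in
theorem AbsF_pf : S_AbsF := by
  classical
  intro m m' κ₀ b b' z ω₁ ω₂ τ μ sb hind _ _ hω h1 hμ hL hB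
  have hX : ∀ j, wp ω₁ ω₂ (b' j * z) = xe τ μ (μ * (b' j * z)) :=
    fun j => (xe_eq hω h1 hμ _).symm
  have hZ : ∀ j, zt ω₁ ω₂ (b' j * z) = ze τ μ (μ * (b' j * z)) :=
    fun j => (ze_eq hω h1 hμ _).symm
  let D : (Option (Fin m ⊕ (Fin m' ⊕ Fin m')) → ℂ) →ₗ[ℂ]
      (Option (Fin m ⊕ (Fin m' ⊕ Fin m')) → ℂ) :=
    LinearMap.pi fun o => o.elim (LinearMap.proj none) (Sum.elim
      (fun j => (Complex.exp (b j * z))⁻¹ • LinearMap.proj (some (Sum.inl j)))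
      (Sum.elim
        (fun j => (ye τ μ (μ * (b' j * z)))⁻¹ • LinearMap.proj (some (Sum.inr (Sum.inl j))))
        (fun j => LinearMap.proj (some (Sum.inr (Sum.inr j))) +
          (xe τ μ (μ * (b' j * z)) * (ye τ μ (μ * (b' j * z)))⁻¹) •
            LinearMap.proj (some (Sum.inr (Sum.inl j))))))
  have h5 : m + 2 * m' ≤
      κ₀ + Module.finrank ℂ ((TT (Fin.append b b')).map (fam (mixB2 τ μ b b' z))) := hB
  refine absGen (Fin.append b b') sb hind _ (fam (mixB2 τ μ b b' z)) D ?_ _ h5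
  intro δ
  funext o
  rcases o with _ | j | j | j
  · rfl
  · change FR.th δ (b j * z) = (Complex.exp (b j * z))⁻¹ • δ (Complex.exp (b j * z))
    unfold FR.th
    rw [div_eq_mul_inv, mul_comm, smul_eq_mul]
  · change lam τ μ δ (μ * (b' j * z)) = (ye τ μ (μ * (b' j * z)))⁻¹ • δ (wp ω₁ ω₂ (b' j * z))
    rw [hX]
    unfold lam
    rw [if_neg (hL j), div_eq_mul_inv, mul_comm, smul_eq_mul]
  · change etf τ μ δ (μ * (b' j * z)) = δ (zt ω₁ ω₂ (b' j * z)) +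
      (xe τ μ (μ * (b' j * z)) * (ye τ μ (μ * (b' j * z)))⁻¹) • δ (wp ω₁ ω₂ (b' j * z))
    rw [hX, hZ]
    unfold etf lam
    rw [if_neg (hL j), if_neg (hL j), smul_eq_mul]
    ring

end Pool.Agent.Work.MP_8da9ea_nt.MX
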