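import Pool.Agent.Work.MP_8da9ea_nt.MX.StmtsG
import Pool.Agent.Work.MP_8da9ea_nt.EB.I_AxOutE
import Pool.Agent.Work.MP_8da9ea_nt.EB.I_LamAdd
import Pool.Agent.Work.MP_8da9ea_nt.EB.I_LamMul
import Pool.Agent.Work.MP_8da9ea_nt.EB.I_LamZero
import Pool.Agent.Work.MP_8da9ea_nt.EB.I_Kf

/-!
# Mixed block, item AxOutM: the output of the argument of Ax type
-/

set_option autoImplicit false

namespace Pool.Agent.Work.MP_8da9ea_nt.MX

open MvPolynomial Pool.Agent.Work.MP_327059_nt.GL Pool.Agent.Work.MP_8da9ea_nt.S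
  Pool.Agent.Work.MP_8da9ea_nt.EB Pool.Agent.ED

namespace I_AxOutM

/-! ## The field of constants -/

/-- the constants -/
noncomputable def EE {J : Type} (L : Submodule ℂ (Derivation ℚ ℂ ℂ))
    (φ : Derivation ℚ ℂ ℂ →ₗ[ℂ] (J → ℂ)) : IntermediateField ℚ ℂ where
  carrier := {c | ∀ δ ∈ L, φ δ = 0 → δ c = 0}
  mul_mem' := by
    intro a b ha hb δ hδ ho
    rw [Derivation.leibniz, ha δ hδ ho, hb δ hδ ho, smul_zero, smul_zero, add_zero]
  one_mem' := by
    intro δ _ _
    exact δ.map_one_eq_zero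
  add_mem' := by
    intro a b ha hb δ hδ ho
    rw [map_add, ha δ hδ ho, hb δ hδ ho, add_zero]
  zero_mem' := by
    intro δ _ _
    exact map_zero δ
  algebraMap_mem' := by
    intro r δ _ _
    exact δ.map_algebraMap r
  inv_mem' := by
    intro a ha δ hδ ho
    rw [Derivation.leibniz_inv, ha δ hδ ho, smul_zero]

theorem mem_EE {J : Type} (L : Submodule ℂ (Derivation ℚ ℂ ℂ))
    (φ : Derivation ℚ ℂ ℂ →ₗ[ℂ] (J → ℂ)) (c : ℂ) :
    c ∈ EE L φ ↔ ∀ δ ∈ L, φ δ = 0 → δ c = 0 := Iff.rfl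

theorem acl {J : Type} (L : Submodule ℂ (Derivation ℚ ℂ ℂ))
    (φ : Derivation ℚ ℂ ℂ →ₗ[ℂ] (J → ℂ)) : ACl (EE L φ) := by
  intro x hx δ hδ ho
  exact der_zero_alg (EE L φ) δ (fun s hs => hs δ hδ ho) x hx

theorem mem_of_DK {J : Type} (L : Submodule ℂ (Derivation ℚ ℂ ℂ))
    (φ : Derivation ℚ ℂ ℂ →ₗ[ℂ] (J → ℂ)) {c : ℂ} (h : ∀ δ ∈ DK (EE L φ), δ c = 0) :
    c ∈ EE L φ := fun δ hδ ho => h δ fun z hz => hz δ hδ ho

/-- the rank argument -/
theorem rank_arg {J : Type} [Fintype J] {k r : ℕ} (L : Submodule ℂ (Derivation ℚ ℂ ℂ))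
    (φ : Derivation ℚ ℂ ℂ →ₗ[ℂ] (J → ℂ)) (f : Fin k → ℂ) (hfE : ∀ t, f t ∈ EE L φ)
    (δ : Fin k → Derivation ℚ ℂ ℂ) (hδL : ∀ s, δ s ∈ L)
    (hδf : ∀ s t, δ s (f t) = if t = s then 1 else 0)
    (δ' : Fin r → Derivation ℚ ℂ ℂ) (hδ'L : ∀ s, δ' s ∈ L)
    (hδ'f : ∀ s t, δ' s (f t) = 0) (hli : LinearIndependent ℂ (fun s => φ (δ' s))) :
    k + r ≤ Module.finrank ℂ (L.map φ) := by
  classical
  let g : Fin k ⊕ Fin r → Derivation ℚ ℂ ℂ := Sum.elim δ δ'
  have hgL : ∀ s, g s ∈ L := by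
    rintro (s | c)
    · exact hδL s
    · exact hδ'L c
  have hli2 : LinearIndependent ℂ (fun s => φ (g s)) := by
    rw [Fintype.linearIndependent_iff]
    intro c hc
    have hD0 : φ (∑ s, c s • g s) = 0 := by
      rw [map_sum]
      simp only [map_smul]
      exact hc
    have hDL : (∑ s, c s • g s) ∈ L :=
      Submodule.sum_mem _ fun s _ => Submodule.smul_mem _ _ (hgL s)
    have hinl : ∀ t : Fin k, c (Sum.inl t) = 0 := by
      intro t
      have e1 : (∑ s, c s • g s) (f t) = 0 := hfE t _ hDL hD0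
      have e2 : (∑ s, c s • g s) (f t) = ∑ s, c s * (g s) (f t) := by
        rw [← Derivation.coeFnAddMonoidHom_apply, map_sum, Finset.sum_apply]
        rfl
      rw [e2, Fintype.sum_sum_type] at e1
      have e3 : ∑ s : Fin r, c (Sum.inr s) * (g (Sum.inr s)) (f t) = 0 := by
        refine Finset.sum_eq_zero fun s _ => ?_
        have : g (Sum.inr s) (f t) = 0 := hδ'f s t
        rw [this, mul_zero]
      have e4 : ∑ s : Fin k, c (Sum.inl s) * (g (Sum.inl s)) (f t) = c (Sum.inl t) := by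
        rw [Finset.sum_eq_single t]
        · have : g (Sum.inl t) (f t) = 1 := by
            change δ t (f t) = 1
            rw [hδf, if_pos rfl]
          rw [this, mul_one]
        · intro s _ hs
          have : g (Sum.inl s) (f t) = 0 := by
            change δ s (f t) = 0
            rw [hδf, if_neg (Ne.symm hs)]
          rw [this, mul_zero]
        · intro h
          exact absurd (Finset.mem_univ t) h
      rw [e3, e4, add_zero] at e1
      exact e1
    have hinr : ∀ s : Fin r, c (Sum.inr s) = 0 := by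
      refine Fintype.linearIndependent_iff.1 hli (fun s => c (Sum.inr s)) ?_
      rw [Fintype.sum_sum_type] at hc
      have e3 : ∑ s : Fin k, c (Sum.inl s) • φ (g (Sum.inl s)) = 0 :=
        Finset.sum_eq_zero fun s _ => by rw [hinl s, zero_smul]
      rw [e3, zero_add] at hc
      exact hc
    rintro (t | s)
    · exact hinl t
    · exact hinr s
  have hli' : LinearIndependent ℂ (fun s => (⟨φ (g s), ⟨g s, hgL s, rfl⟩⟩ : L.map φ)) :=
    LinearIndependent.of_comp (Submodule.subtype _) hli2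
  have hcard := hli'.fintype_card_le_finrank
  rw [Fintype.card_sum, Fintype.card_fin, Fintype.card_fin] at hcard
  exact hcard

/-- the field of constants is countable -/
theorem countable_EE {J : Type} [Fintype J] (L : Submodule ℂ (Derivation ℚ ℂ ℂ))
    (φ : Derivation ℚ ℂ ℂ →ₗ[ℂ] (J → ℂ)) (F : Set ℂ) (hF : F.Countable)
    (hL : ∀ δ : Derivation ℚ ℂ ℂ, (∀ z ∈ F, δ z = 0) → δ ∈ L) : Countable (EE L φ) := by
  classical
  let P : ℕ → Prop := fun k => ∃ f : Fin k → ℂ, (∀ t, f t ∈ EE L φ) ∧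
    AlgebraicIndependent (IntermediateField.adjoin ℚ F) f
  have hP0 : P 0 := ⟨Fin.elim0, fun t => Fin.elim0 t, algebraicIndependent_empty_type_iff.2
    (algebraMap (IntermediateField.adjoin ℚ F) ℂ).injective⟩
  have hPm : ∀ k, P k → k ≤ Fintype.card J := by
    rintro k ⟨f, hfE, hf⟩
    choose δ hδ hδf using fun s => EB.I_AxOutE.dual f hf s
    have h1 := rank_arg (r := 0) L φ f hfE δ (fun s => hL _ (hδ s)) hδf (fun t => Fin.elim0 t)
      (fun t => Fin.elim0 t) (fun t => Fin.elim0 t) linearIndependent_empty_type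
    have h2 : Module.finrank ℂ (L.map φ) ≤ Fintype.card J := by
      have := Submodule.finrank_le (L.map φ)
      rwa [Module.finrank_fintype_fun_eq_card] at this
    omega
  obtain ⟨k, hPk, hmax⟩ : ∃ k, P k ∧ ¬ P (k + 1) := by
    refine ⟨Nat.findGreatest P (Fintype.card J), Nat.findGreatest_spec (Nat.zero_le _) hP0, ?_⟩
    intro h6
    have h7 := hPm _ h6
    exact absurd (Nat.le_findGreatest h7 h6) (by omega)
  obtain ⟨f, hfE, hf⟩ := hPk
  have hcF := EB.I_AxOutE.countable_adj F hF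
  have hcR : Countable (Algebra.adjoin (IntermediateField.adjoin ℚ F) (Set.range f)) := by
    rw [← Cardinal.mk_le_aleph0_iff]
    refine (Algebra.cardinalMk_adjoin_le _ (Set.range f)).trans ?_
    refine sup_le (sup_le ?_ ?_) le_rfl
    · exact Cardinal.mk_le_aleph0_iff.2 inferInstance
    · exact Cardinal.mk_le_aleph0_iff.2 (Set.finite_range f).countable.to_subtype
  have hcount := Algebraic.countable
    (Algebra.adjoin (IntermediateField.adjoin ℚ F) (Set.range f)) ℂ
  refine Set.Countable.to_subtype (hcount.mono ?_)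
  intro e he
  by_contra hne
  apply hmax
  have h7 := (hf.option_iff_transcendental e).2 hne
  refine ⟨fun t => (finSuccEquiv k t).elim e f, ?_, ?_⟩
  · intro t
    refine Fin.cases ?_ (fun t => ?_) t
    · change (finSuccEquiv k 0).elim e f ∈ EE L φ
      rw [finSuccEquiv_zero]
      exact he
    · change (finSuccEquiv k t.succ).elim e f ∈ EE L φ
      rw [finSuccEquiv_succ]
      exact hfE t
  · exact h7.comp (finSuccEquiv k) (finSuccEquiv k).injective

/-! ## Linear algebra -/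

/-- Adding up the dimensions. -/
theorem lin_alg {m : ℕ} (S : Submodule ℂ (J3 m → ℂ)) (A₁ A₂ : Submodule ℂ (Fin m → ℂ))
    (A₃ : Submodule ℂ (Option (Fin m) → ℂ))
    (h12 : ∀ a₁ ∈ A₁, ∀ a₂ ∈ A₂,
      (fun o : J3 m => o.elim (0 : ℂ) (Sum.elim a₁ (Sum.elim a₂ fun _ => 0))) ∈ S)
    (h3 : ∀ a₃ ∈ A₃, ∃ s ∈ S, s none = a₃ none ∧
      ∀ j, s (some (Sum.inr (Sum.inr j))) = a₃ (some j)) :
    Module.finrank ℂ A₁ + Module.finrank ℂ A₂ + Module.finrank ℂ A₃ ≤ Module.finrank ℂ S := by
  let π : (J3 m → ℂ) →ₗ[ℂ] (Option (Fin m) → ℂ) := LinearMap.funLeft ℂ ℂ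
    (fun o : Option (Fin m) => o.elim (none : J3 m) (fun j => some (Sum.inr (Sum.inr j))))
  let g : S →ₗ[ℂ] (Option (Fin m) → ℂ) := π.comp S.subtype
  have hr : A₃ ≤ LinearMap.range g := by
    intro a ha
    obtain ⟨s, hs, h0, hj⟩ := h3 a ha
    refine ⟨⟨s, hs⟩, ?_⟩
    funext o
    rcases o with _ | j
    · exact h0
    · exact hj j
  let ι₀ : (A₁ × A₂) →ₗ[ℂ] (J3 m → ℂ) :=
    { toFun := fun p o => o.elim (0 : ℂ) (Sum.elim (p.1 : Fin m → ℂ)
        (Sum.elim (p.2 : Fin m → ℂ) fun _ => 0))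
      map_add' := by
        intro p q
        funext o
        rcases o with _ | j | j | j
        · exact (add_zero (0 : ℂ)).symm
        · rfl
        · rfl
        · exact (add_zero (0 : ℂ)).symm
      map_smul' := by
        intro c p
        funext o
        rcases o with _ | j | j | j
        · exact (mul_zero c).symm
        · rfl
        · rfl
        · exact (mul_zero c).symm }
  have hι₀ : ∀ p, ι₀ p ∈ S := fun p => h12 p.1 p.1.2 p.2 p.2.2
  let ι₁ : (A₁ × A₂) →ₗ[ℂ] S := ι₀.codRestrict S hι₀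
  have hι₁ : ∀ p, ι₁ p ∈ LinearMap.ker g := by
    intro p
    rw [LinearMap.mem_ker]
    funext o
    rcases o with _ | j
    · rfl
    · rfl
  let ι₂ : (A₁ × A₂) →ₗ[ℂ] LinearMap.ker g := ι₁.codRestrict _ hι₁
  have hinj : Function.Injective ι₂ := by
    intro p q h
    have h6 : ι₀ p = ι₀ q := congrArg (fun z : LinearMap.ker g => ((z : S) : J3 m → ℂ)) h
    refine Prod.ext (Subtype.ext (funext fun j => ?_)) (Subtype.ext (funext fun j => ?_))
    · exact congrFun h6 (some (Sum.inl j))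
    · exact congrFun h6 (some (Sum.inr (Sum.inl j)))
  have e1 : Module.finrank ℂ A₁ + Module.finrank ℂ A₂ ≤ Module.finrank ℂ (LinearMap.ker g) := by
    rw [← Module.finrank_prod]
    exact LinearMap.finrank_le_finrank_of_injective hinj
  have e2 : Module.finrank ℂ A₃ ≤ Module.finrank ℂ (LinearMap.range g) :=
    Submodule.finrank_mono hr
  have e3 := LinearMap.finrank_range_add_finrank_ker g
  omega

/-- A linear functional vanishing on a set vanishes on its span. -/
theorem span_zero {P : Type} [Fintype P] {S : Set (P → ℂ)} {c : P → ℂ}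
    (hc : c ∈ Submodule.span ℂ S) (β : P → ℂ) (h : ∀ g ∈ S, ∑ p, g p * β p = 0) :
    ∑ p, c p * β p = 0 := by
  induction hc using Submodule.span_induction with
  | mem g hg => exact h g hg
  | zero => simp
  | add a b _ _ ha hb =>
    simp only [Pi.add_apply, add_mul, Finset.sum_add_distrib, ha, hb, add_zero]
  | smul r a _ ha =>
    simp only [Pi.smul_apply, smul_eq_mul, mul_assoc]
    rw [← Finset.mul_sum, ha, mul_zero]

/-- The sum over all forms. -/
theorem sum_J3 {n m : ℕ} (F : Fin n → J3 m → ℂ) :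
    ∑ i, ∑ o, F i o = ∑ i, F i none + ∑ p : Fin n × Fin m, F p.1 (some (Sum.inl p.2)) +
      ∑ p : Fin n × Fin m, F p.1 (some (Sum.inr (Sum.inl p.2))) +
      ∑ p : Fin n × Fin m, F p.1 (some (Sum.inr (Sum.inr p.2))) := by
  rw [Fintype.sum_prod_type, Fintype.sum_prod_type, Fintype.sum_prod_type,
    ← Finset.sum_add_distrib, ← Finset.sum_add_distrib, ← Finset.sum_add_distrib]
  refine Finset.sum_congr rfl fun i _ => ?_
  rw [Fintype.sum_option, Fintype.sum_sum_type, Fintype.sum_sum_type]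
  ring

/-! ## The points and the toric forms -/

section

variable {k : IntermediateField ℚ ℂ} {n m : ℕ} (b : Fin m → ℂ) (x : Fin n → ℂ)

theorem ptG_add (ξ η : Fin n → Fin m → k) :
    ptG b x (ξ + η) = ptG b x ξ + ptG b x η := by
  unfold ptG
  rw [← Finset.sum_add_distrib]
  refine Finset.sum_congr rfl fun i _ => ?_
  rw [← Finset.sum_add_distrib]
  refine Finset.sum_congr rfl fun j _ => ?_
  rw [Pi.add_apply, Pi.add_apply]
  push_cast
  ring

theorem ptG_smul (r : k) (ξ : Fin n → Fin m → k) :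
    ptG b x (r • ξ) = (r : ℂ) * ptG b x ξ := by
  unfold ptG
  rw [Finset.mul_sum]
  refine Finset.sum_congr rfl fun i _ => ?_
  rw [Finset.mul_sum]
  refine Finset.sum_congr rfl fun j _ => ?_
  rw [Pi.smul_apply, Pi.smul_apply, smul_eq_mul]
  push_cast
  ring

theorem ptG_zero : ptG b x (0 : Fin n → Fin m → k) = 0 := by
  have h := ptG_smul b x (0 : k) (0 : Fin n → Fin m → k)
  rw [zero_smul] at h
  rw [h]
  push_cast
  ring

theorem ptG_eq (g : Fin n × Fin m → ℂ) (hg : ∀ p, g p ∈ k) :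
    ptG b x (fun i j => (⟨g (i, j), hg (i, j)⟩ : k)) = ∑ p, g p * (b p.2 * x p.1) := by
  rw [Fintype.sum_prod_type]
  rfl

theorem ptG_eq' (μ : ℂ) (g : Fin n × Fin m → ℂ) (hg : ∀ p, g p ∈ k) :
    μ * ptG b x (fun i j => (⟨g (i, j), hg (i, j)⟩ : k)) =
      ∑ p, g p * (μ * (b p.2 * x p.1)) := by
  rw [ptG_eq, Finset.mul_sum]
  exact Finset.sum_congr rfl fun p _ => by ring

end

theorem th_add (δ : Derivation ℚ ℂ ℂ) (u v : ℂ) :
    FR.th δ (u + v) = FR.th δ u + FR.th δ v := by
  unfold FR.th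
  rw [Complex.exp_add, Derivation.leibniz, smul_eq_mul, smul_eq_mul]
  have h1 := Complex.exp_ne_zero u
  have h2 := Complex.exp_ne_zero v
  field_simp
  ring

theorem th_rat (δ : Derivation ℚ ℂ ℂ) (q : ℚ) (u : ℂ) :
    FR.th δ ((q : ℂ) * u) = (q : ℂ) * FR.th δ u := by
  have h := map_rat_smul (AddMonoidHom.mk' (fun u => FR.th δ u) (th_add δ)) q u
  rw [Rat.smul_def, Rat.smul_def] at h
  exact h

theorem th_kQ (δ : Derivation ℚ ℂ ℂ) (r : kQ) (u : ℂ) :
    FR.th δ ((r : ℂ) * u) = (r : ℂ) * FR.th δ u := by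
  obtain ⟨q, hq⟩ := IntermediateField.mem_bot.1 r.2
  rw [eq_ratCast] at hq
  rw [← hq]
  exact th_rat δ q u

theorem th_zero (δ : Derivation ℚ ℂ ℂ) : FR.th δ 0 = 0 := by
  have h := th_rat δ 0 0
  rw [Rat.cast_zero, zero_mul, zero_mul] at h
  exact h

theorem th_iff (δ : Derivation ℚ ℂ ℂ) (u : ℂ) : FR.th δ u = 0 ↔ δ (Complex.exp u) = 0 := by
  unfold FR.th
  rw [div_eq_zero_iff]
  exact ⟨fun h => h.resolve_right (Complex.exp_ne_zero _), Or.inl⟩

end I_AxOutM

open I_AxOutM in
theorem AxOutM_pf (h1 : S_ImgC) (h2 : S_AKM) (h4 : S_FOclosed) : S_AxOutM := by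
  classical
  intro f τ μ α hN hα n m b x v
  have hLM : S_LamMul := LamMul_pf LamAdd_pf Kf_pf CD.prf_Sum
  obtain ⟨hk1, hk2, hk3, hk4⟩ := Kf_pf τ hN.im
  set T : Submodule ℂ (Derivation ℚ ℂ ℂ) := TT v ⊓ TT b with hT
  set L : Derivation ℚ ℂ ℂ →ₗ[ℂ] (J3 m → ℂ) :=
    (mvJ v).comp (LinearMap.pi fun i => fam (FO f τ μ α b (x i))) with hL
  have hLap : ∀ δ o, L δ o = ∑ i, v i * FO f τ μ α b (x i) o δ := fun δ o => rfl
  set E := EE T L with hE
  have hTF : ∀ δ : Derivation ℚ ℂ ℂ, (∀ z ∈ Set.range v ∪ Set.range b, δ z = 0) → δ ∈ T :=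
    fun δ hδ => ⟨fun i => hδ _ (Or.inl ⟨i, rfl⟩), fun i => hδ _ (Or.inr ⟨i, rfl⟩)⟩
  have hEc : Countable E := countable_EE T _ (Set.range v ∪ Set.range b)
    ((Set.finite_range v).countable.union (Set.finite_range b).countable) hTF
  have hEa : ACl E := acl T _
  have hvE : ∀ i, v i ∈ E := fun i D hD _ => hD.1 i
  have hbE : ∀ i, b i ∈ E := fun i D hD _ => hD.2 i
  have hDKT : DK E ≤ T := fun δ hδ => ⟨fun i => hδ _ (hvE i), fun i => hδ _ (hbE i)⟩
  have hTb : ∀ D ∈ T, ∀ δ ∈ T, ⁅D, δ⁆ ∈ T := by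
    intro D hD δ hδ
    refine ⟨fun i => ?_, fun i => ?_⟩
    · rw [Derivation.commutator_apply, hD.1 i, hδ.1 i, map_zero, map_zero, sub_zero]
    · rw [Derivation.commutator_apply, hD.2 i, hδ.2 i, map_zero, map_zero, sub_zero]
  have hlam0 : ∀ δ, lam τ μ δ 0 = 0 := by
    intro δ
    have e1 := LamAdd_pf τ μ hN δ 0 0
    rw [add_zero] at e1
    have e2 : lam τ μ δ 0 + 0 = lam τ μ δ 0 + lam τ μ δ 0 := by rw [add_zero]; exact e1
    exact (add_left_cancel e2).symm
  let G₁ : Submodule kQ (Fin n → Fin m → kQ) :=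
    { carrier := {ξ | ∀ δ ∈ DK E, FR.th δ (ptG b x ξ) = 0}
      add_mem' := by
        intro a c ha hc δ hδ
        rw [ptG_add, th_add, ha δ hδ, hc δ hδ, add_zero]
      zero_mem' := by
        intro δ _
        rw [ptG_zero, th_zero]
      smul_mem' := by
        intro r a ha δ hδ
        rw [ptG_smul, th_kQ, ha δ hδ, mul_zero] }
  let G₂ : Submodule (kf τ) (Fin n → Fin m → kf τ) :=
    { carrier := {ξ | ∀ δ ∈ DK E, lam τ μ δ (μ * ptG b x ξ) = 0}
      add_mem' := by
        intro a c ha hc δ hδ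
        rw [ptG_add, mul_add, LamAdd_pf τ μ hN, ha δ hδ, hc δ hδ, add_zero]
      zero_mem' := by
        intro δ _
        rw [ptG_zero, mul_zero, hlam0]
      smul_mem' := by
        intro r a ha δ hδ
        rw [ptG_smul, mul_left_comm, hLM τ μ hN δ _ _ ((hk2 _).1 r.2), ha δ hδ, mul_zero] }
  have hGVE : GV τ μ b x G₁ G₂ ⊆ E := by
    rintro y (⟨ξ, hξ, rfl⟩ | ⟨ξ, hξ, hnl, rfl⟩)
    · exact mem_of_DK T L fun δ hδ => (th_iff δ _).1 (hξ δ hδ)
    · rcases (LamZero_pf τ μ hN E hEa _).1 (fun δ hδ => hξ δ hδ) with h6 | h6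
      · exact absurd h6 hnl
      · exact h6
  -- the image of the derivations killing `E`
  have hcl : ∀ β : Fin n → J3 m → ℂ, (∀ i, β i none = 0) →
      (fun i j => β i (some (Sum.inl j))) ∈ annK G₁ →
      (fun i j => β i (some (Sum.inr (Sum.inl j)))) ∈ annK G₂ →
      (fun i j => β i (some (Sum.inr (Sum.inr j)))) ∈ annB G₂ →
      (f = false → ∀ i j, β i (some (Sum.inr (Sum.inr j))) = 0) →
      ∃ δ ∈ DK E, L δ = mvJ v β := by
    intro β hβ0 hβ1 hβ2 hβ3 hβf
    obtain ⟨δ, hδ, hd⟩ := h1 n (J3 m) T hTb (fun i o => FO f τ μ α b (x i) o)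
      (fun i o D _ δ _ => h4 f τ μ α hN hα m b o (x i) D δ)
      v (fun δ hδ i => hδ.1 i) E hDKT
      (fun c => ⟨fun hc δ hδ ho => hc δ hδ (funext ho),
        fun hc δ hδ ho => hc δ hδ fun o => congrFun ho o⟩) β (by
        intro c hc hrel
        have key := h2 τ μ α hN hα E hEc hEa (Fin n × Fin m) (fun p => b p.2 * x p.1)
          (fun p => μ * (b p.2 * x p.1))
          (fun p => c p.1 (some (Sum.inl p.2))) (fun p => c p.1 (some (Sum.inr (Sum.inl p.2))))
          (fun p => if f then c p.1 (some (Sum.inr (Sum.inr p.2))) else 0)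
          (fun p => hc _ _) (fun p => hc _ _)
          (fun p => by
            split_ifs
            · exact hc _ _
            · exact E.zero_mem)
          (-∑ i, c i none * x i) (by
            intro δ hδ
            have h6 := hrel δ hδ
            rw [sum_J3] at h6
            have h7 : δ (-∑ i, c i none * x i) = -∑ i, c i none * δ (x i) := by
              rw [map_neg, map_sum]
              congr 1
              refine Finset.sum_congr rfl fun i _ => ?_
              rw [Derivation.leibniz, hδ _ (hc i none), smul_zero, add_zero, smul_eq_mul]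
            rw [h7]
            have h8 : ∑ i, c i none * FO f τ μ α b (x i) none δ =
                ∑ i, c i none * δ (x i) := rfl
            have h9 : ∑ p : Fin n × Fin m, c p.1 (some (Sum.inr (Sum.inr p.2))) *
                FO f τ μ α b (x p.1) (some (Sum.inr (Sum.inr p.2))) δ =
                ∑ p : Fin n × Fin m, (if f then c p.1 (some (Sum.inr (Sum.inr p.2))) else 0) *
                  etT τ μ α δ (μ * (b p.2 * x p.1)) := by
              refine Finset.sum_congr rfl fun p _ => ?_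
              cases f
              · change c p.1 (some (Sum.inr (Sum.inr p.2))) * 0 = (0 : ℂ) * _
                rw [mul_zero, zero_mul]
              · rfl
            have h10 : ∑ p : Fin n × Fin m, c p.1 (some (Sum.inl p.2)) *
                FO f τ μ α b (x p.1) (some (Sum.inl p.2)) δ =
                ∑ p : Fin n × Fin m, c p.1 (some (Sum.inl p.2)) *
                  FR.th δ (b p.2 * x p.1) := rfl
            have h11 : ∑ p : Fin n × Fin m, c p.1 (some (Sum.inr (Sum.inl p.2))) *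
                FO f τ μ α b (x p.1) (some (Sum.inr (Sum.inl p.2))) δ =
                ∑ p : Fin n × Fin m, c p.1 (some (Sum.inr (Sum.inl p.2))) *
                  lam τ μ δ (μ * (b p.2 * x p.1)) := rfl
            rw [h8, h9, h10, h11] at h6
            linear_combination h6)
        obtain ⟨k1, k2, k3⟩ := key
        rw [sum_J3]
        have e0 : ∑ i, c i none * β i none = 0 :=
          Finset.sum_eq_zero fun i _ => by rw [hβ0, mul_zero]
        have e1 : ∑ p : Fin n × Fin m, c p.1 (some (Sum.inl p.2)) *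
            β p.1 (some (Sum.inl p.2)) = 0 := by
          refine span_zero k1 (fun p => β p.1 (some (Sum.inl p.2))) ?_
          rintro g ⟨hg, hgE⟩
          have h6 := hβ1 (fun i j => ⟨g (i, j), hg (i, j)⟩) (by
            intro δ hδ
            rw [th_iff, ptG_eq b x g hg]
            exact hδ _ hgE)
          rw [Fintype.sum_prod_type]
          exact h6
        have e2 : ∑ p : Fin n × Fin m, c p.1 (some (Sum.inr (Sum.inl p.2))) *
            β p.1 (some (Sum.inr (Sum.inl p.2))) = 0 := by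
          refine span_zero k2 (fun p => β p.1 (some (Sum.inr (Sum.inl p.2)))) ?_
          rintro g ⟨hg, hgE⟩
          have h6 := hβ2 (fun i j => ⟨g (i, j), hg (i, j)⟩) (by
            intro δ hδ
            rw [ptG_eq' b x μ g hg]
            exact (LamZero_pf τ μ hN E hEa _).2 hgE δ hδ)
          rw [Fintype.sum_prod_type]
          exact h6
        have e3 : ∑ p : Fin n × Fin m, c p.1 (some (Sum.inr (Sum.inr p.2))) *
            β p.1 (some (Sum.inr (Sum.inr p.2))) = 0 := by
          cases hf : f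
          · exact Finset.sum_eq_zero fun p _ => by rw [hβf hf, mul_zero]
          · have h5 := span_zero k3 (fun p => β p.1 (some (Sum.inr (Sum.inr p.2)))) (by
              rintro g ⟨g', hgg, hg, hgE⟩
              have h6 := hβ3 (fun i j => ⟨g' (i, j), hg (i, j)⟩) (by
                intro δ hδ
                rw [ptG_eq' b x μ g' hg]
                exact (LamZero_pf τ μ hN E hEa _).2 hgE δ hδ)
              rw [Fintype.sum_prod_type]
              simp only [hgg]
              exact h6)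
            simp only [hf, if_true] at h5
            exact h5
        rw [e0, e1, e2, e3]
        ring)
    exact ⟨δ, hδ, funext fun o => hd o⟩
  refine ⟨G₁, G₂, ?_⟩
  intro E₀ hE₀a hbE₀ hGV hE₀alg k h hh hind
  have hE₀E : E₀ ≤ E := by
    intro c hc δ hδ ho
    refine der_zero_alg _ δ (fun s hs => ?_) c (hE₀alg c hc)
    have h6 : IntermediateField.adjoin ℚ (Set.range v ∪ Set.range b ∪ GV τ μ b x G₁ G₂) ≤ E := by
      rw [IntermediateField.adjoin_le_iff]
      rintro z ((⟨i, rfl⟩ | ⟨i, rfl⟩) | hz)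
      · exact hvE i
      · exact hbE i
      · exact hGVE hz
    exact h6 hs δ hδ ho
  set T₁ : Submodule ℂ (Derivation ℚ ℂ ℂ) := DK E₀ ⊓ TT v with hT₁
  have hT₁T : T₁ ≤ T := fun δ hδ => ⟨hδ.2, fun j => hδ.1 _ (hbE₀ j)⟩
  have hDKT₁ : DK E ≤ T₁ := fun δ hδ => ⟨fun z hz => hδ z (hE₀E hz), fun i => hδ _ (hvE i)⟩
  have hla := lin_alg (T₁.map L) ((annK G₁).map (mv v)) ((annK G₂).map (mv v))
    (((T₁.map (LinearMap.pi fun i => fam (FA f τ μ α b (x i)))) ⊔ annF f G₂).map (mvJ v)) (by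
      rintro _ ⟨β1, hβ1, rfl⟩ _ ⟨β2, hβ2, rfl⟩
      obtain ⟨δ, hδ, hd⟩ := hcl (fun i o => o.elim 0 (Sum.elim (β1 i) (Sum.elim (β2 i)
        fun _ => 0))) (fun _ => rfl) hβ1 hβ2 (annB G₂).zero_mem (fun _ _ _ => rfl)
      refine ⟨δ, hDKT₁ hδ, ?_⟩
      rw [hd]
      funext o
      rcases o with _ | j | j | j
      · change ∑ i, v i * (0 : ℂ) = 0
        exact Finset.sum_eq_zero fun i _ => mul_zero _
      · rfl
      · rfl
      · change ∑ i, v i * (0 : ℂ) = 0
        exact Finset.sum_eq_zero fun i _ => mul_zero _) (by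
      rintro _ ⟨y, hy, rfl⟩
      obtain ⟨_, ⟨δ₁, hδ₁, rfl⟩, y₂, hy₂, rfl⟩ := Submodule.mem_sup.1 hy
      obtain ⟨δ₂, hδ₂, hd⟩ := hcl (fun i o => o.elim 0 (Sum.elim (fun _ => 0)
        (Sum.elim (fun _ => 0) fun j => y₂ i (some j)))) (fun _ => rfl) (annK G₁).zero_mem
        (annK G₂).zero_mem hy₂.2.2 (fun h6 i j => by
          have h7 := hy₂.2.1 h6
          change y₂ i (some j) = 0
          rw [h7]
          rfl)
      refine ⟨L δ₁ + L δ₂, (T₁.map L).add_mem ⟨δ₁, hδ₁, rfl⟩ ⟨δ₂, hDKT₁ hδ₂, rfl⟩, ?_, ?_⟩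
      · rw [map_add, hd, Pi.add_apply, Pi.add_apply]
        congr 1
        change ∑ i, v i * (0 : ℂ) = ∑ i, v i * y₂ i none
        exact Finset.sum_congr rfl fun i _ => by rw [hy₂.1 i]
      · intro j
        rw [map_add, hd, Pi.add_apply, Pi.add_apply]
        rfl)
  choose δ hδ hδf using fun s => EB.I_AxOutE.dual h hind s
  let B := Module.finBasis ℂ (T₁.map L)
  have hB : ∀ c : Fin (Module.finrank ℂ (T₁.map L)), ∃ δ' ∈ T₁, L δ' = (B c : J3 m → ℂ) := by
    intro c
    obtain ⟨δ', h6, h7⟩ := (B c).2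
    exact ⟨δ', h6, h7⟩
  choose δ' hδ'E hδ'o using hB
  have hfin := rank_arg T L h (fun t => hGVE (hh t)) δ (fun s => hTF _ (hδ s)) hδf δ'
    (fun s => hT₁T (hδ'E s)) (fun s t => (hδ'E s).1 _ (hGV (hh t))) (by
      have h6 : (fun s => L (δ' s)) = fun s => (B s : J3 m → ℂ) := by
        funext s
        exact hδ'o s
      rw [h6]
      exact B.linearIndependent.map' (Submodule.subtype _) (Submodule.ker_subtype _))
  have hrk : rkM f τ μ α b x v = Module.finrank ℂ (T.map L) := rfl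
  rw [hrk]
  unfold ugK
  omega

end Pool.Agent.Work.MP_8da9ea_nt.MX
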