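import Pool.Agent.Work.MP_8da9ea_nt.MX.StmtsH
import Pool.Agent.Work.MP_8da9ea_nt.MX.I_AxOutM

/-!
# Mixed block, item AxOutM2: the output of the argument of Ax type, separate tuples
-/

set_option autoImplicit false

namespace Pool.Agent.Work.MP_8da9ea_nt.MX

open MvPolynomial Pool.Agent.Work.MP_327059_nt.GL Pool.Agent.Work.MP_8da9ea_nt.S
  Pool.Agent.Work.MP_8da9ea_nt.EB Pool.Agent.ED

namespace I_AxOutM2

/-- Adding up the dimensions. -/
theorem lin_alg {m m' : ℕ} (S : Submodule ℂ (J4 m m' → ℂ)) (A₁ : Submodule ℂ (Fin m → ℂ))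
    (A₂ : Submodule ℂ (Fin m' → ℂ)) (A₃ : Submodule ℂ (Option (Fin m') → ℂ))
    (h12 : ∀ a₁ ∈ A₁, ∀ a₂ ∈ A₂,
      (fun o : J4 m m' => o.elim (0 : ℂ) (Sum.elim a₁ (Sum.elim a₂ fun _ => 0))) ∈ S)
    (h3 : ∀ a₃ ∈ A₃, ∃ s ∈ S, s none = a₃ none ∧
      ∀ j, s (some (Sum.inr (Sum.inr j))) = a₃ (some j)) :
    Module.finrank ℂ A₁ + Module.finrank ℂ A₂ + Module.finrank ℂ A₃ ≤ Module.finrank ℂ S := by
  let π : (J4 m m' → ℂ) →ₗ[ℂ] (Option (Fin m') → ℂ) := LinearMap.funLeft ℂ ℂ
    (fun o : Option (Fin m') => o.elim (none : J4 m m') (fun j => some (Sum.inr (Sum.inr j))))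
  let g : S →ₗ[ℂ] (Option (Fin m') → ℂ) := π.comp S.subtype
  have hr : A₃ ≤ LinearMap.range g := by
    intro a ha
    obtain ⟨s, hs, h0, hj⟩ := h3 a ha
    refine ⟨⟨s, hs⟩, ?_⟩
    funext o
    rcases o with _ | j
    · exact h0
    · exact hj j
  let ι₀ : (A₁ × A₂) →ₗ[ℂ] (J4 m m' → ℂ) :=
    { toFun := fun p o => o.elim (0 : ℂ) (Sum.elim (p.1 : Fin m → ℂ)
        (Sum.elim (p.2 : Fin m' → ℂ) fun _ => 0))
      map_add' := by
        intro p q
        funext o
        rcases o with _ | j | j | j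
        · exact (add_zero (0 : ℂ)).symm
        · rfl
        · rfl
        · exact (add_zero (0 : ℂ)).symm
      map_smul' := by
        intro c p
        funext o
        rcases o with _ | j | j | j
        · exact (mul_zero c).symm
        · rfl
        · rfl
        · exact (mul_zero c).symm }
  have hι₀ : ∀ p, ι₀ p ∈ S := fun p => h12 p.1 p.1.2 p.2 p.2.2
  let ι₁ : (A₁ × A₂) →ₗ[ℂ] S := ι₀.codRestrict S hι₀
  have hι₁ : ∀ p, ι₁ p ∈ LinearMap.ker g := by
    intro p
    rw [LinearMap.mem_ker]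
    funext o
    rcases o with _ | j
    · rfl
    · rfl
  let ι₂ : (A₁ × A₂) →ₗ[ℂ] LinearMap.ker g := ι₁.codRestrict _ hι₁
  have hinj : Function.Injective ι₂ := by
    intro p q h
    have h6 : ι₀ p = ι₀ q := congrArg (fun z : LinearMap.ker g => ((z : S) : J4 m m' → ℂ)) h
    refine Prod.ext (Subtype.ext (funext fun j => ?_)) (Subtype.ext (funext fun j => ?_))
    · exact congrFun h6 (some (Sum.inl j))
    · exact congrFun h6 (some (Sum.inr (Sum.inl j)))
  have e1 : Module.finrank ℂ A₁ + Module.finrank ℂ A₂ ≤ Module.finrank ℂ (LinearMap.ker g) := by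
    rw [← Module.finrank_prod]
    exact LinearMap.finrank_le_finrank_of_injective hinj
  have e2 : Module.finrank ℂ A₃ ≤ Module.finrank ℂ (LinearMap.range g) :=
    Submodule.finrank_mono hr
  have e3 := LinearMap.finrank_range_add_finrank_ker g
  omega

/-- The sum over all forms. -/
theorem sum_J4 {n m m' : ℕ} (F : Fin n → J4 m m' → ℂ) :
    ∑ i, ∑ o, F i o = ∑ i, F i none + ∑ p : Fin n × Fin m, F p.1 (some (Sum.inl p.2)) +
      ∑ p : Fin n × Fin m', F p.1 (some (Sum.inr (Sum.inl p.2))) +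
      ∑ p : Fin n × Fin m', F p.1 (some (Sum.inr (Sum.inr p.2))) := by
  rw [Fintype.sum_prod_type, Fintype.sum_prod_type, Fintype.sum_prod_type,
    ← Finset.sum_add_distrib, ← Finset.sum_add_distrib, ← Finset.sum_add_distrib]
  refine Finset.sum_congr rfl fun i _ => ?_
  rw [Fintype.sum_option, Fintype.sum_sum_type, Fintype.sum_sum_type]
  ring

/-- The theorem of Ax with separate index sets. -/
theorem akm2 (h2 : S_AKM) (τ μ α : ℂ) (hN : Nrm τ μ) (hα : Alp τ μ α)
    (E : IntermediateField ℚ ℂ) (hEc : Countable E) (hEa : ACl E) (P P' : Type) [Fintype P]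
    [Fintype P'] (u c1 : P → ℂ) (w c2 c3 : P' → ℂ) (hc1 : ∀ p, c1 p ∈ E) (hc2 : ∀ p, c2 p ∈ E)
    (hc3 : ∀ p, c3 p ∈ E) (T : ℂ)
    (h : ∀ δ ∈ DK E, ∑ p, c1 p * FR.th δ (u p) + ∑ p, c2 p * lam τ μ δ (w p) +
      ∑ p, c3 p * etT τ μ α δ (w p) = δ T) :
    c1 ∈ Submodule.span ℂ {g : P → ℂ | (∀ p, g p ∈ kQ) ∧ Complex.exp (∑ p, g p * u p) ∈ E} ∧
    c2 ∈ Submodule.span ℂ {g : P' → ℂ | (∀ p, g p ∈ kf τ) ∧
      (∑ p, g p * w p ∈ Lam τ ∨ xe τ μ (∑ p, g p * w p) ∈ E)} ∧
    c3 ∈ Submodule.span ℂ {g : P' → ℂ | ∃ g' : P' → ℂ, (∀ p, g p = (starRingEnd ℂ) (g' p)) ∧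
      (∀ p, g' p ∈ kf τ) ∧
      (∑ p, g' p * w p ∈ Lam τ ∨ xe τ μ (∑ p, g' p * w p) ∈ E)} := by
  obtain ⟨k1, k2, k3⟩ := h2 τ μ α hN hα E hEc hEa (P ⊕ P') (Sum.elim u fun _ => 0)
    (Sum.elim (fun _ => 0) w) (Sum.elim c1 fun _ => 0) (Sum.elim (fun _ => 0) c2)
    (Sum.elim (fun _ => 0) c3)
    (by
      rintro (p | p)
      · exact hc1 p
      · exact E.zero_mem)
    (by
      rintro (p | p)
      · exact E.zero_mem
      · exact hc2 p)
    (by
      rintro (p | p)
      · exact E.zero_mem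
      · exact hc3 p) T (by
      intro δ hδ
      rw [← h δ hδ, Fintype.sum_sum_type, Fintype.sum_sum_type, Fintype.sum_sum_type]
      simp only [Sum.elim_inl, Sum.elim_inr, zero_mul, Finset.sum_const_zero, add_zero, zero_add])
  have hl : ∀ g : P ⊕ P' → ℂ, ∑ p, g p * (Sum.elim u (fun _ => 0) : P ⊕ P' → ℂ) p =
      ∑ p, g (Sum.inl p) * u p := by
    intro g
    rw [Fintype.sum_sum_type]
    simp only [Sum.elim_inl, Sum.elim_inr, mul_zero, Finset.sum_const_zero, add_zero]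
  have hr : ∀ g : P ⊕ P' → ℂ, ∑ p, g p * (Sum.elim (fun _ => 0) w : P ⊕ P' → ℂ) p =
      ∑ p, g (Sum.inr p) * w p := by
    intro g
    rw [Fintype.sum_sum_type]
    simp only [Sum.elim_inl, Sum.elim_inr, mul_zero, Finset.sum_const_zero, zero_add]
  refine ⟨?_, ?_, ?_⟩
  · have h1 : (LinearMap.funLeft ℂ ℂ (Sum.inl : P → P ⊕ P'))
        (Sum.elim c1 (fun _ => 0) : P ⊕ P' → ℂ) ∈ _ := Submodule.mem_map_of_mem k1
    rw [Submodule.map_span] at h1
    refine Submodule.span_mono ?_ h1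
    rintro _ ⟨g, ⟨hg, hgE⟩, rfl⟩
    rw [hl] at hgE
    exact ⟨fun p => hg _, hgE⟩
  · have h1 : (LinearMap.funLeft ℂ ℂ (Sum.inr : P' → P ⊕ P'))
        (Sum.elim (fun _ => 0) c2 : P ⊕ P' → ℂ) ∈ _ := Submodule.mem_map_of_mem k2
    rw [Submodule.map_span] at h1
    refine Submodule.span_mono ?_ h1
    rintro _ ⟨g, ⟨hg, hgE⟩, rfl⟩
    rw [hr] at hgE
    exact ⟨fun p => hg _, hgE⟩
  · have h1 : (LinearMap.funLeft ℂ ℂ (Sum.inr : P' → P ⊕ P'))
        (Sum.elim (fun _ => 0) c3 : P ⊕ P' → ℂ) ∈ _ := Submodule.mem_map_of_mem k3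
    rw [Submodule.map_span] at h1
    refine Submodule.span_mono ?_ h1
    rintro _ ⟨g, ⟨g', hgg, hg, hgE⟩, rfl⟩
    rw [hr] at hgE
    exact ⟨fun p => g' (Sum.inr p), fun p => hgg _, fun p => hg _, hgE⟩

end I_AxOutM2

open I_AxOutM I_AxOutM2 in
theorem AxOutM2_pf (h1 : S_ImgC) (h2 : S_AKM) (h4 : S_FOclosed) : S_AxOutM2 := by
  classical
  intro f τ μ α hN hα n m m' b b' x v
  have hLM : S_LamMul := LamMul_pf LamAdd_pf Kf_pf CD.prf_Sum
  obtain ⟨hk1, hk2, hk3, hk4⟩ := Kf_pf τ hN.im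
  set T : Submodule ℂ (Derivation ℚ ℂ ℂ) := TT v ⊓ TT (Fin.append b b') with hT
  set L : Derivation ℚ ℂ ℂ →ₗ[ℂ] (J4 m m' → ℂ) :=
    (mvJ v).comp (LinearMap.pi fun i => fam (FO2 f τ μ α b b' (x i))) with hL
  have hLap : ∀ δ o, L δ o = ∑ i, v i * FO2 f τ μ α b b' (x i) o δ := fun δ o => rfl
  set E := EE T L with hE
  have hTF : ∀ δ : Derivation ℚ ℂ ℂ, (∀ z ∈ Set.range v ∪ Set.range (Fin.append b b'), δ z = 0) → δ ∈ T :=
    fun δ hδ => ⟨fun i => hδ _ (Or.inl ⟨i, rfl⟩), fun i => hδ _ (Or.inr ⟨i, rfl⟩)⟩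
  have hEc : Countable E := countable_EE T _ (Set.range v ∪ Set.range (Fin.append b b'))
    ((Set.finite_range v).countable.union (Set.finite_range (Fin.append b b')).countable) hTF
  have hEa : ACl E := acl T _
  have hvE : ∀ i, v i ∈ E := fun i D hD _ => hD.1 i
  have hbE : ∀ i, Fin.append b b' i ∈ E := fun i D hD _ => hD.2 i
  have hDKT : DK E ≤ T := fun δ hδ => ⟨fun i => hδ _ (hvE i), fun i => hδ _ (hbE i)⟩
  have hTb : ∀ D ∈ T, ∀ δ ∈ T, ⁅D, δ⁆ ∈ T := by
    intro D hD δ hδ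
    refine ⟨fun i => ?_, fun i => ?_⟩
    · rw [Derivation.commutator_apply, hD.1 i, hδ.1 i, map_zero, map_zero, sub_zero]
    · rw [Derivation.commutator_apply, hD.2 i, hδ.2 i, map_zero, map_zero, sub_zero]
  have hlam0 : ∀ δ, lam τ μ δ 0 = 0 := by
    intro δ
    have e1 := LamAdd_pf τ μ hN δ 0 0
    rw [add_zero] at e1
    have e2 : lam τ μ δ 0 + 0 = lam τ μ δ 0 + lam τ μ δ 0 := by rw [add_zero]; exact e1
    exact (add_left_cancel e2).symm
  let G₁ : Submodule kQ (Fin n → Fin m → kQ) :=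
    { carrier := {ξ | ∀ δ ∈ DK E, FR.th δ (ptG b x ξ) = 0}
      add_mem' := by
        intro a c ha hc δ hδ
        rw [ptG_add, th_add, ha δ hδ, hc δ hδ, add_zero]
      zero_mem' := by
        intro δ _
        rw [ptG_zero, th_zero]
      smul_mem' := by
        intro r a ha δ hδ
        rw [ptG_smul, th_kQ, ha δ hδ, mul_zero] }
  let G₂ : Submodule (kf τ) (Fin n → Fin m' → kf τ) :=
    { carrier := {ξ | ∀ δ ∈ DK E, lam τ μ δ (μ * ptG b' x ξ) = 0}
      add_mem' := by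
        intro a c ha hc δ hδ
        rw [ptG_add, mul_add, LamAdd_pf τ μ hN, ha δ hδ, hc δ hδ, add_zero]
      zero_mem' := by
        intro δ _
        rw [ptG_zero, mul_zero, hlam0]
      smul_mem' := by
        intro r a ha δ hδ
        rw [ptG_smul, mul_left_comm, hLM τ μ hN δ _ _ ((hk2 _).1 r.2), ha δ hδ, mul_zero] }
  have hGVE : GV2 τ μ b b' x G₁ G₂ ⊆ E := by
    rintro y (⟨ξ, hξ, rfl⟩ | ⟨ξ, hξ, hnl, rfl⟩)
    · exact mem_of_DK T L fun δ hδ => (th_iff δ _).1 (hξ δ hδ)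
    · rcases (LamZero_pf τ μ hN E hEa _).1 (fun δ hδ => hξ δ hδ) with h6 | h6
      · exact absurd h6 hnl
      · exact h6
  -- the image of the derivations killing `E`
  have hcl : ∀ β : Fin n → J4 m m' → ℂ, (∀ i, β i none = 0) →
      (fun i j => β i (some (Sum.inl j))) ∈ annK G₁ →
      (fun i j => β i (some (Sum.inr (Sum.inl j)))) ∈ annK G₂ →
      (fun i j => β i (some (Sum.inr (Sum.inr j)))) ∈ annB G₂ →
      (f = false → ∀ i j, β i (some (Sum.inr (Sum.inr j))) = 0) →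
      ∃ δ ∈ DK E, L δ = mvJ v β := by
    intro β hβ0 hβ1 hβ2 hβ3 hβf
    obtain ⟨δ, hδ, hd⟩ := h1 n (J4 m m') T hTb (fun i o => FO2 f τ μ α b b' (x i) o)
      (fun i o D _ δ _ => FO2_closed h4 f hN hα b b' o (x i) D δ)
      v (fun δ hδ i => hδ.1 i) E hDKT
      (fun c => ⟨fun hc δ hδ ho => hc δ hδ (funext ho),
        fun hc δ hδ ho => hc δ hδ fun o => congrFun ho o⟩) β (by
        intro c hc hrel
        have key := akm2 h2 τ μ α hN hα E hEc hEa (Fin n × Fin m) (Fin n × Fin m')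
          (fun p => b p.2 * x p.1) (fun p => c p.1 (some (Sum.inl p.2)))
          (fun p => μ * (b' p.2 * x p.1)) (fun p => c p.1 (some (Sum.inr (Sum.inl p.2))))
          (fun p => if f then c p.1 (some (Sum.inr (Sum.inr p.2))) else 0)
          (fun p => hc _ _) (fun p => hc _ _)
          (fun p => by
            split_ifs
            · exact hc _ _
            · exact E.zero_mem)
          (-∑ i, c i none * x i) (by
            intro δ hδ
            have h6 := hrel δ hδ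
            rw [sum_J4] at h6
            have h7 : δ (-∑ i, c i none * x i) = -∑ i, c i none * δ (x i) := by
              rw [map_neg, map_sum]
              congr 1
              refine Finset.sum_congr rfl fun i _ => ?_
              rw [Derivation.leibniz, hδ _ (hc i none), smul_zero, add_zero, smul_eq_mul]
            rw [h7]
            have h8 : ∑ i, c i none * FO2 f τ μ α b b' (x i) none δ =
                ∑ i, c i none * δ (x i) := rfl
            have h9 : ∑ p : Fin n × Fin m', c p.1 (some (Sum.inr (Sum.inr p.2))) *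
                FO2 f τ μ α b b' (x p.1) (some (Sum.inr (Sum.inr p.2))) δ =
                ∑ p : Fin n × Fin m', (if f then c p.1 (some (Sum.inr (Sum.inr p.2))) else 0) *
                  etT τ μ α δ (μ * (b' p.2 * x p.1)) := by
              refine Finset.sum_congr rfl fun p _ => ?_
              cases f
              · change c p.1 (some (Sum.inr (Sum.inr p.2))) * 0 = (0 : ℂ) * _
                rw [mul_zero, zero_mul]
              · rfl
            have h10 : ∑ p : Fin n × Fin m, c p.1 (some (Sum.inl p.2)) *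
                FO2 f τ μ α b b' (x p.1) (some (Sum.inl p.2)) δ =
                ∑ p : Fin n × Fin m, c p.1 (some (Sum.inl p.2)) *
                  FR.th δ (b p.2 * x p.1) := rfl
            have h11 : ∑ p : Fin n × Fin m', c p.1 (some (Sum.inr (Sum.inl p.2))) *
                FO2 f τ μ α b b' (x p.1) (some (Sum.inr (Sum.inl p.2))) δ =
                ∑ p : Fin n × Fin m', c p.1 (some (Sum.inr (Sum.inl p.2))) *
                  lam τ μ δ (μ * (b' p.2 * x p.1)) := rfl
            rw [h8, h9, h10, h11] at h6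
            linear_combination h6)
        obtain ⟨k1, k2, k3⟩ := key
        rw [sum_J4]
        have e0 : ∑ i, c i none * β i none = 0 :=
          Finset.sum_eq_zero fun i _ => by rw [hβ0, mul_zero]
        have e1 : ∑ p : Fin n × Fin m, c p.1 (some (Sum.inl p.2)) *
            β p.1 (some (Sum.inl p.2)) = 0 := by
          refine span_zero k1 (fun p => β p.1 (some (Sum.inl p.2))) ?_
          rintro g ⟨hg, hgE⟩
          have h6 := hβ1 (fun i j => ⟨g (i, j), hg (i, j)⟩) (by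
            intro δ hδ
            rw [th_iff, ptG_eq b x g hg]
            exact hδ _ hgE)
          rw [Fintype.sum_prod_type]
          exact h6
        have e2 : ∑ p : Fin n × Fin m', c p.1 (some (Sum.inr (Sum.inl p.2))) *
            β p.1 (some (Sum.inr (Sum.inl p.2))) = 0 := by
          refine span_zero k2 (fun p => β p.1 (some (Sum.inr (Sum.inl p.2)))) ?_
          rintro g ⟨hg, hgE⟩
          have h6 := hβ2 (fun i j => ⟨g (i, j), hg (i, j)⟩) (by
            intro δ hδ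
            rw [ptG_eq' b' x μ g hg]
            exact (LamZero_pf τ μ hN E hEa _).2 hgE δ hδ)
          rw [Fintype.sum_prod_type]
          exact h6
        have e3 : ∑ p : Fin n × Fin m', c p.1 (some (Sum.inr (Sum.inr p.2))) *
            β p.1 (some (Sum.inr (Sum.inr p.2))) = 0 := by
          cases hf : f
          · exact Finset.sum_eq_zero fun p _ => by rw [hβf hf, mul_zero]
          · have h5 := span_zero k3 (fun p => β p.1 (some (Sum.inr (Sum.inr p.2)))) (by
              rintro g ⟨g', hgg, hg, hgE⟩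
              have h6 := hβ3 (fun i j => ⟨g' (i, j), hg (i, j)⟩) (by
                intro δ hδ
                rw [ptG_eq' b' x μ g' hg]
                exact (LamZero_pf τ μ hN E hEa _).2 hgE δ hδ)
              rw [Fintype.sum_prod_type]
              simp only [hgg]
              exact h6)
            simp only [hf, if_true] at h5
            exact h5
        rw [e0, e1, e2, e3]
        ring)
    exact ⟨δ, hδ, funext fun o => hd o⟩
  refine ⟨G₁, G₂, ?_⟩
  intro E₀ hE₀a hbE₀ hbE₀' hGV hE₀alg k h hh hind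
  have hE₀E : E₀ ≤ E := by
    intro c hc δ hδ ho
    refine der_zero_alg _ δ (fun s hs => ?_) c (hE₀alg c hc)
    have h6 : IntermediateField.adjoin ℚ (Set.range v ∪ Set.range (Fin.append b b') ∪ GV2 τ μ b b' x G₁ G₂) ≤ E := by
      rw [IntermediateField.adjoin_le_iff]
      rintro z ((⟨i, rfl⟩ | ⟨i, rfl⟩) | hz)
      · exact hvE i
      · exact hbE i
      · exact hGVE hz
    exact h6 hs δ hδ ho
  set T₁ : Submodule ℂ (Derivation ℚ ℂ ℂ) := DK E₀ ⊓ TT v with hT₁
  have hbb : ∀ j, Fin.append b b' j ∈ E₀ := by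
    intro j
    refine Fin.addCases (fun j => ?_) (fun j => ?_) j
    · rw [Fin.append_left]
      exact hbE₀ j
    · rw [Fin.append_right]
      exact hbE₀' j
  have hT₁T : T₁ ≤ T := fun δ hδ => ⟨hδ.2, fun j => hδ.1 _ (hbb j)⟩
  have hDKT₁ : DK E ≤ T₁ := fun δ hδ => ⟨fun z hz => hδ z (hE₀E hz), fun i => hδ _ (hvE i)⟩
  have hla := I_AxOutM2.lin_alg (T₁.map L) ((annK G₁).map (mv v)) ((annK G₂).map (mv v))
    (((T₁.map (LinearMap.pi fun i => fam (FA f τ μ α b' (x i)))) ⊔ annF f G₂).map (mvJ v)) (by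
      rintro _ ⟨β1, hβ1, rfl⟩ _ ⟨β2, hβ2, rfl⟩
      obtain ⟨δ, hδ, hd⟩ := hcl (fun i o => o.elim 0 (Sum.elim (β1 i) (Sum.elim (β2 i)
        fun _ => 0))) (fun _ => rfl) hβ1 hβ2 (annB G₂).zero_mem (fun _ _ _ => rfl)
      refine ⟨δ, hDKT₁ hδ, ?_⟩
      rw [hd]
      funext o
      rcases o with _ | j | j | j
      · change ∑ i, v i * (0 : ℂ) = 0
        exact Finset.sum_eq_zero fun i _ => mul_zero _
      · rfl
      · rfl
      · change ∑ i, v i * (0 : ℂ) = 0
        exact Finset.sum_eq_zero fun i _ => mul_zero _) (by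
      rintro _ ⟨y, hy, rfl⟩
      obtain ⟨_, ⟨δ₁, hδ₁, rfl⟩, y₂, hy₂, rfl⟩ := Submodule.mem_sup.1 hy
      obtain ⟨δ₂, hδ₂, hd⟩ := hcl (fun i o => o.elim 0 (Sum.elim (fun _ => 0)
        (Sum.elim (fun _ => 0) fun j => y₂ i (some j)))) (fun _ => rfl) (annK G₁).zero_mem
        (annK G₂).zero_mem hy₂.2.2 (fun h6 i j => by
          have h7 := hy₂.2.1 h6
          change y₂ i (some j) = 0
          rw [h7]
          rfl)
      refine ⟨L δ₁ + L δ₂, (T₁.map L).add_mem ⟨δ₁, hδ₁, rfl⟩ ⟨δ₂, hDKT₁ hδ₂, rfl⟩, ?_, ?_⟩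
      · rw [map_add, hd, Pi.add_apply, Pi.add_apply]
        congr 1
        change ∑ i, v i * (0 : ℂ) = ∑ i, v i * y₂ i none
        exact Finset.sum_congr rfl fun i _ => by rw [hy₂.1 i]
      · intro j
        rw [map_add, hd, Pi.add_apply, Pi.add_apply]
        rfl)
  choose δ hδ hδf using fun s => EB.I_AxOutE.dual h hind s
  let B := Module.finBasis ℂ (T₁.map L)
  have hB : ∀ c : Fin (Module.finrank ℂ (T₁.map L)), ∃ δ' ∈ T₁, L δ' = (B c : J4 m m' → ℂ) := by
    intro c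
    obtain ⟨δ', h6, h7⟩ := (B c).2
    exact ⟨δ', h6, h7⟩
  choose δ' hδ'E hδ'o using hB
  have hfin := rank_arg T L h (fun t => hGVE (hh t)) δ (fun s => hTF _ (hδ s)) hδf δ'
    (fun s => hT₁T (hδ'E s)) (fun s t => (hδ'E s).1 _ (hGV (hh t))) (by
      have h6 : (fun s => L (δ' s)) = fun s => (B s : J4 m m' → ℂ) := by
        funext s
        exact hδ'o s
      rw [h6]
      exact B.linearIndependent.map' (Submodule.subtype _) (Submodule.ker_subtype _))
  have hrk : rkM2 f τ μ α b b' x v = Module.finrank ℂ (T.map L) := rfl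
  rw [hrk]
  unfold ugK
  omega

end Pool.Agent.Work.MP_8da9ea_nt.MX
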