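import Pool.Agent.Work.MP_8da9ea_nt.MX.StmtsG
import Pool.Agent.Work.MP_8da9ea_nt.Der
import Pool.Agent.Work.MP_327059_nt.Bd.B10

/-!
# Mixed block, item G11 (Rat): rationality of the space of values of the additive forms
-/

set_option autoImplicit false

namespace Pool.Agent.Work.MP_8da9ea_nt.MX

open MvPolynomial Pool.Agent.Work.MP_327059_nt.GL Pool.Agent.Work.MP_8da9ea_nt.S
  Pool.Agent.Work.MP_8da9ea_nt.EB Pool.Agent.ED

namespace I_Rat

/-- dual derivations over an intermediate field -/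
theorem dual {k : ℕ} {F : IntermediateField ℚ ℂ} (f : Fin k → ℂ)
    (hf : AlgebraicIndependent F f) (s : Fin k) :
    ∃ δ : Derivation ℚ ℂ ℂ, δ ∈ DK F ∧ ∀ t, δ (f t) = if t = s then 1 else 0 := by
  obtain ⟨X, hX⟩ := exists_derivation hf (fun t => if t = s then (1 : ℂ) else 0)
  refine ⟨X.restrictScalars ℚ, ?_, hX⟩
  intro z hz
  exact X.map_algebraMap (⟨z, hz⟩ : F)

/-- an element killed by all derivations killing `F` is in `F` -/
theorem mem_of_killed {F : IntermediateField ℚ ℂ} (hF : ACl F) (c : ℂ)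
    (hc : ∀ D ∈ DK F, D c = 0) : c ∈ F := by
  by_contra hcon
  have htr : Transcendental F c := fun h => hcon (hF c h)
  have hai : AlgebraicIndependent F (fun _ : Fin 1 => c) := by
    rw [algebraicIndependent_unique_type_iff]
    exact htr
  obtain ⟨δ, h1, h2⟩ := dual (F := F) (fun _ : Fin 1 => c) hai 0
  have h3 := h2 0
  rw [if_pos rfl] at h3
  rw [hc δ h1] at h3
  exact zero_ne_one h3

theorem FA_closed (h1 : S_FOclosed) (f : Bool) (τ μ α : ℂ) (hN : Nrm τ μ) (hA : Alp τ μ α) (m : ℕ)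
    (b : Fin m → ℂ) (o : Option (Fin m)) (y : ℂ) (D δ : Derivation ℚ ℂ ℂ) :
    D (FA f τ μ α b y o δ) - δ (FA f τ μ α b y o D) = FA f τ μ α b y o ⁅D, δ⁆ := by
  cases o with
  | none => exact h1 f τ μ α hN hA m b none y D δ
  | some j => exact h1 f τ μ α hN hA m b (some (Sum.inr (Sum.inr j))) y D δ

theorem bracket_mem (E : IntermediateField ℚ ℂ) (D δ : Derivation ℚ ℂ ℂ) (hD : D ∈ DK E)
    (hδ : δ ∈ DK E) : ⁅D, δ⁆ ∈ DK E := by
  intro x hx
  rw [Derivation.commutator_apply, hδ x hx, hD x hx, map_zero, map_zero, sub_zero]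

theorem DK_mono (E F : IntermediateField ℚ ℂ) (h : E ≤ F) : DK F ≤ DK E :=
  fun _ hδ x hx => hδ x (h hx)

end I_Rat

open I_Rat in
theorem Rat_pf (h1 : S_FOclosed) : S_Rat := by
  intro f τ μ α hN hA n m b x v E₀ F hF hEF hv hFA
  refine ⟨?_, ?_⟩
  · -- first equality
    apply le_antisymm
    · exact Submodule.map_mono inf_le_left
    · rintro s ⟨δ, hδ, rfl⟩
      choose D hD1 hD2 using fun t => dual (F := F) v hv t
      refine ⟨δ - ∑ t, δ (v t) • D t, ⟨?_, ?_⟩, ?_⟩
      · exact Submodule.sub_mem _ hδ (Submodule.sum_mem _ fun t _ =>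
          Submodule.smul_mem _ _ (DK_mono E₀ F hEF (hD1 t)))
      · intro i
        have e2 : (∑ t, δ (v t) • D t) (v i) = ∑ t, δ (v t) * (D t) (v i) := by
          rw [← Derivation.coeFnAddMonoidHom_apply, map_sum, Finset.sum_apply]
          rfl
        rw [Derivation.sub_apply, e2, Finset.sum_eq_single i]
        · rw [hD2 i i, if_pos rfl, mul_one, sub_self]
        · intro t _ ht
          rw [hD2 t i, if_neg (Ne.symm ht), mul_zero]
        · intro h
          exact absurd (Finset.mem_univ i) h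
      · rw [map_sub, map_sum]
        have : ∀ t, (LinearMap.pi fun i => fam (FA f τ μ α b (x i))) (D t) = 0 := by
          intro t
          funext i o
          exact hFA (D t) (hD1 t) i o
        rw [Finset.sum_eq_zero, sub_zero]
        intro t _
        rw [map_smul, this t, smul_zero]
  · -- rationality
    classical
    let N := Fintype.card (Fin n × Option (Fin m))
    let e : Fin n × Option (Fin m) ≃ Fin N := Fintype.equivFin _
    let R : (Fin N → ℂ) →ₗ[ℂ] (Fin n → Option (Fin m) → ℂ) :=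
      { toFun := fun a i o => a (e (i, o))
        map_add' := fun _ _ => rfl
        map_smul' := fun _ _ => rfl }
    let S₀ := (DK E₀).map (LinearMap.pi fun i => fam (FA f τ μ α b (x i)))
    have hst : ∀ D ∈ (DK F : Set (Derivation ℚ ℂ ℂ)), ∀ a ∈ S₀.comap R,
        (fun j => D (a j)) ∈ S₀.comap R := by
      rintro D hD a ⟨δ, hδ, hδa⟩
      refine ⟨⁅D, δ⁆, bracket_mem E₀ D δ (DK_mono E₀ F hEF hD) hδ, ?_⟩
      funext i o
      have h2 : a (e (i, o)) = FA f τ μ α b (x i) o δ := by
        have := congrFun (congrFun hδa i) o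
        exact this.symm
      have h3 := FA_closed h1 f τ μ α hN hA m b o (x i) D δ
      rw [hFA D hD i o, map_zero, sub_zero] at h3
      change FA f τ μ α b (x i) o ⁅D, δ⁆ = D (a (e (i, o)))
      rw [h2, h3]
    intro s hs
    let a : Fin N → ℂ := fun j => s (e.symm j).1 (e.symm j).2
    have hRa : R a = s := by
      funext i o
      change s (e.symm (e (i, o))).1 (e.symm (e (i, o))).2 = s i o
      rw [Equiv.symm_apply_apply]
    have ha : a ∈ S₀.comap R := by
      change R a ∈ S₀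
      rw [hRa]
      exact hs
    have h4 := pr_Stab N (S₀.comap R) (DK F : Set (Derivation ℚ ℂ ℂ)) hst a ha
    have h5 : R a ∈ (Submodule.span ℂ {e : Fin N → ℂ | e ∈ S₀.comap R ∧
        ∀ j, ∀ D ∈ (DK F : Set (Derivation ℚ ℂ ℂ)), D (e j) = 0}).map R := ⟨a, h4, rfl⟩
    rw [hRa, Submodule.map_span] at h5
    refine Submodule.span_mono ?_ h5
    rintro _ ⟨c, ⟨hc1, hc2⟩, rfl⟩
    exact ⟨hc1, fun i o => mem_of_killed hF _ fun D hD => hc2 (e (i, o)) D hD⟩

end Pool.Agent.Work.MP_8da9ea_nt.MX
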