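import Pool.Agent.Work.MP_8da9ea_nt.MX.StmtsF
import Pool.Agent.Work.MP_8da9ea_nt.MX.I_Rat
import Pool.Agent.Work.MP_8da9ea_nt.FR.I_EField
import Pool.Agent.Work.MP_327059_nt.Bd.B01

/-!
# Mixed block, item H5' (HilbW): uniform Hilbert function
-/

set_option autoImplicit false

namespace Pool.Agent.Work.MP_8da9ea_nt.MX

open MvPolynomial Pool.Agent.Work.MP_327059_nt.GL Pool.Agent.Work.MP_8da9ea_nt.S
  Pool.Agent.Work.MP_8da9ea_nt.EB

namespace I_HilbW

lemma countable_adj (S : Set ℂ) (hS : S.Countable) :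
    Countable (IntermediateField.adjoin ℚ S) := by
  rw [← Cardinal.mk_le_aleph0_iff]
  refine (IntermediateField.cardinalMk_adjoin_le ℚ S).trans ?_
  refine sup_le (sup_le ?_ ?_) le_rfl
  · exact Cardinal.mk_le_aleph0_iff.2 inferInstance
  · exact Cardinal.mk_le_aleph0_iff.2 hS.to_subtype

/-- a generic point -/
lemma exists_v (F : IntermediateField ℚ ℂ) (hF : Countable F) (n : ℕ) :
    ∃ v : Fin n → ℂ, AlgebraicIndependent F v := by
  obtain ⟨v, hv, -⟩ := pr_DenseK (Fin n) (F : Set ℂ) (Set.countable_coe_iff.1 hF) (fun _ => 0) 1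
    one_pos
  rw [IntermediateField.adjoin_self] at hv
  exact ⟨v, hv⟩

/-- rank and kernel -/
lemma rank_ker {M : Type} [AddCommGroup M] [Module ℂ M] {a b : ℕ} (Φ : M →ₗ[ℂ] (Fin a → ℂ))
    (T : M →ₗ[ℂ] (Fin b → ℂ)) (P : Submodule ℂ M) :
    Module.finrank ℂ (P.map Φ) ≤ b + Module.finrank ℂ ((P ⊓ LinearMap.ker T).map Φ) := by
  set W : Submodule ℂ ((Fin a → ℂ) × (Fin b → ℂ)) := P.map (Φ.prod T) with hW
  let π : W →ₗ[ℂ] (Fin b → ℂ) := (LinearMap.snd ℂ _ _).comp W.subtype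
  have h1 : Module.finrank ℂ (P.map Φ) ≤ Module.finrank ℂ W := by
    have : P.map Φ = W.map (LinearMap.fst ℂ (Fin a → ℂ) (Fin b → ℂ)) := by
      rw [hW, ← Submodule.map_comp, LinearMap.fst_prod]
    rw [this]
    exact Submodule.finrank_map_le _ _
  have h2 := LinearMap.finrank_range_add_finrank_ker π
  have h3 : Module.finrank ℂ (LinearMap.range π) ≤ b := by
    have := Submodule.finrank_le (LinearMap.range π)
    rwa [Module.finrank_fin_fun] at this
  have h4 : Module.finrank ℂ (LinearMap.ker π) ≤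
      Module.finrank ℂ ((P ⊓ LinearMap.ker T).map Φ) := by
    let ψ : LinearMap.ker π →ₗ[ℂ] ((P ⊓ LinearMap.ker T).map Φ) :=
      LinearMap.codRestrict _ ((LinearMap.fst ℂ _ _).comp (W.subtype.comp (LinearMap.ker π).subtype))
        (by
          rintro ⟨⟨w, hw⟩, hk⟩
          obtain ⟨m, hm, rfl⟩ := hw
          have hk' : T m = 0 := hk
          exact ⟨m, ⟨hm, hk'⟩, rfl⟩)
    refine LinearMap.finrank_le_finrank_of_injective (f := ψ) ?_
    rintro ⟨⟨w, hw⟩, hk⟩ ⟨⟨w', hw'⟩, hk'⟩ h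
    have e1 : w.1 = w'.1 := congrArg Subtype.val h
    have e2 : w.2 = 0 := hk
    have e3 : w'.2 = 0 := hk'
    have e4 : w = w' := Prod.ext e1 (e2.trans e3.symm)
    subst e4
    rfl
  omega

/-- the transcendence degree over `ℚ(v)` -/
lemma noInd (h3 : S_RkV) (E : IntermediateField ℚ ℂ) {σ κ : Type} [Fintype κ]
    {n e r : ℕ} (θ : σ → ℂ) (A : Fin n → κ → ℂ) (hE : TrE E e) (hθ : ∀ i, θ i ∈ E)
    (hr : ∀ w : Fin n → ℚ, rkD E (cQ w A) ≤ r) (v : Fin n → ℂ) (s : Fin (e + r + 1) → σ ⊕ κ) :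
    ¬ AlgebraicIndependent (IntermediateField.adjoin ℚ (Set.range v))
      (fun i => Sum.elim θ (cC v A) (s i)) := by
  classical
  intro hind
  set f : Fin (e + r + 1) → ℂ := fun i => Sum.elim θ (cC v A) (s i) with hf
  set k := IntermediateField.adjoin ℚ (Set.range v) with hk
  obtain ⟨e', ξ, he', -, hξ⟩ := FR.I_EField.basis E e hE
  let Φ : Derivation ℚ ℂ ℂ →ₗ[ℂ] (Fin (e + r + 1) → ℂ) := fam fun j => dL (f j)
  let T : Derivation ℚ ℂ ℂ →ₗ[ℂ] (Fin e' → ℂ) := fam fun j => dL (ξ j)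
  -- the image is everything
  have h1 : (TT v).map Φ = ⊤ := by
    rw [eq_top_iff]
    intro c _
    have hc : c = ∑ i, c i • (Pi.single i (1 : ℂ) : Fin (e + r + 1) → ℂ) := by
      funext j
      rw [Finset.sum_apply, Finset.sum_eq_single j]
      · simp
      · intro i _ hij
        rw [Pi.smul_apply, Pi.single_eq_of_ne (Ne.symm hij), smul_zero]
      · intro h
        exact absurd (Finset.mem_univ j) h
    rw [hc]
    refine Submodule.sum_mem _ fun i _ => Submodule.smul_mem _ _ ?_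
    obtain ⟨δ, hδ, hδf⟩ := I_Rat.dual f hind i
    refine ⟨δ, fun j => hδ _ (IntermediateField.subset_adjoin ℚ _ ⟨j, rfl⟩), ?_⟩
    funext j
    change δ (f j) = _
    rw [hδf j, Pi.single_apply]
  have h2 := rank_ker Φ T (TT v)
  rw [h1, finrank_top, Module.finrank_fin_fun] at h2
  -- the kernel
  let L : (κ → ℂ) →ₗ[ℂ] (Fin (e + r + 1) → ℂ) :=
    LinearMap.pi fun j => Sum.elim (fun _ => (0 : (κ → ℂ) →ₗ[ℂ] ℂ)) (fun l => LinearMap.proj l) (s j)
  have h4 : (TT v ⊓ LinearMap.ker T).map Φ ≤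
      ((DK E ⊓ TT v).map (fam fun l => dL (cC v A l))).map L := by
    rintro _ ⟨δ, ⟨hδv, hδT⟩, rfl⟩
    have hδE : δ ∈ DK E := by
      have h5 : ∀ i, δ (ξ i) = 0 := fun i => congrFun hδT i
      exact fun x hx => FR.I_EField.der_clos ξ δ h5 x (hξ x hx)
    refine ⟨fun l => δ (cC v A l), ⟨δ, ⟨hδE, hδv⟩, rfl⟩, ?_⟩
    funext j
    change (Sum.elim (fun _ => (0 : (κ → ℂ) →ₗ[ℂ] ℂ)) (fun l => LinearMap.proj l) (s j))
      (fun l => δ (cC v A l)) = δ (f j)
    rw [hf]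
    simp only
    rcases s j with i | l
    · change (0 : ℂ) = δ (θ i)
      rw [hδE _ (hθ i)]
    · rfl
  have h5 := (Submodule.finrank_mono h4).trans (Submodule.finrank_map_le L _)
  have h6 := h3 E n κ A r hr v
  omega

end I_HilbW

open I_HilbW in
theorem HilbW_pf (h1 : S_HilbF) (h2 : S_SemiF) (h3 : S_RkV) : S_HilbW := by
  intro E _ σ κ _ _ n e r θ A hE hθ hr
  obtain ⟨v, hv⟩ := exists_v (IntermediateField.adjoin ℚ (Set.range θ ∪
    Set.range fun q : Fin n × κ => A q.1 q.2))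
    (countable_adj _ ((Set.finite_range _).countable.union (Set.finite_range _).countable)) n
  obtain ⟨C, hC, hD⟩ := h1 (IntermediateField.adjoin ℚ (Set.range v)) (σ ⊕ κ)
    (Sum.elim θ (cC v A)) (e + r) (noInd h3 E θ A hE hθ hr v)
  exact ⟨C, hC, fun D w => (h2 σ κ n θ A v hv D w (hD D).1).trans (hD D).2⟩

end Pool.Agent.Work.MP_8da9ea_nt.MX
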