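import Pool.Agent.Work.MP_8da9ea_nt.MX.StmtsG
import Pool.Agent.Work.RW.Rank

/-!
# Mixed block, item SC1 (semicontinuity)
-/

set_option autoImplicit false

namespace Pool.Agent.Work.MP_8da9ea_nt.MX

open MvPolynomial Pool.Agent.Work.MP_327059_nt.GL Pool.Agent.Work.MP_8da9ea_nt.S
  Pool.Agent.Work.MP_8da9ea_nt.EB

namespace I_SC1

/-- Independent rows have a nonzero minor. -/
lemma minor_of_li {J : Type} [Fintype J] {r : ℕ} (g : Fin r → J → ℂ) (hg : LinearIndependent ℂ g) :
    ∃ e : Fin r → J, (Matrix.of fun a b => g a (e b)).det ≠ 0 := by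
  classical
  let φ := Fintype.equivFin J
  let B : Matrix (Fin r) (Fin (Fintype.card J)) ℂ := Matrix.of fun a t => g a (φ.symm t)
  have hB1 : LinearIndependent ℂ B.row := by
    have h1 := hg.map' (LinearMap.funLeft ℂ ℂ φ.symm)
      (LinearMap.ker_eq_bot.2 (LinearMap.funLeft_injective_of_surjective ℂ ℂ _ φ.symm.surjective))
    exact h1
  have hB : B.rank = r := by
    rw [hB1.rank_matrix, Fintype.card_fin]
  obtain ⟨f, hf⟩ := Pool.Agent.RW.exists_rows B.transpose (p := r)
    (by rw [Matrix.rank_transpose, hB])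
  refine ⟨fun b => φ.symm (f b), ?_⟩
  have h5 : IsUnit ((Matrix.of fun a b => g a (φ.symm (f b)) :
      Matrix (Fin r) (Fin r) ℂ).transpose) := by
    rw [← Matrix.linearIndependent_rows_iff_isUnit]
    exact hf
  rw [Matrix.isUnit_transpose, Matrix.isUnit_iff_isUnit_det] at h5
  exact h5.ne_zero

/-- A nonzero minor gives independence. -/
lemma li_of_minor {J : Type} {r : ℕ} (g : Fin r → J → ℂ) (e : Fin r → J)
    (h : (Matrix.of fun a b => g a (e b)).det ≠ 0) : LinearIndependent ℂ g := by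
  have h1 : IsUnit (Matrix.of fun a b => g a (e b) : Matrix (Fin r) (Fin r) ℂ) := by
    rw [Matrix.isUnit_iff_isUnit_det]
    exact isUnit_iff_ne_zero.2 h
  rw [← Matrix.linearIndependent_rows_iff_isUnit] at h1
  exact LinearIndependent.of_comp (LinearMap.funLeft ℂ ℂ e) h1

lemma mvJ_apply {n : ℕ} {J : Type} (v : Fin n → ℂ) (β : Fin n → J → ℂ) (j : J) :
    mvJ v β j = ∑ i, v i * β i j := rfl

/-- Genericity. -/
lemma gen (F : IntermediateField ℚ ℂ) (n : ℕ) (J : Type) [Fintype J]
    (S : Submodule ℂ (Fin n → J → ℂ)) (hS : RatF F S) (v : Fin n → ℂ)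
    (hv : AlgebraicIndependent F v) (v' : Fin n → ℂ) :
    Module.finrank ℂ (S.map (mvJ v')) ≤ Module.finrank ℂ (S.map (mvJ v)) := by
  classical
  obtain ⟨T, hT⟩ : ∃ T : Set (Fin n → J → ℂ), T = {s | s ∈ S ∧ ∀ i j, s i j ∈ F} := ⟨_, rfl⟩
  have hspan : S.map (mvJ v') = Submodule.span ℂ (mvJ v' '' T) := by
    rw [← Submodule.map_span]
    apply le_antisymm
    · exact Submodule.map_mono (by rw [hT]; exact hS)
    · apply Submodule.map_mono
      rw [Submodule.span_le, hT]
      exact fun s hs => hs.1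
  obtain ⟨g, h1, -, h3⟩ := Submodule.exists_fun_fin_finrank_span_eq ℂ (mvJ v' '' T)
  choose s hsT hsg using h1
  obtain ⟨e, he⟩ := minor_of_li g h3
  have hsF : ∀ a i j, s a i j ∈ F := fun a i j => by
    have := hsT a
    rw [hT] at this
    exact this.2 i j
  have hsS : ∀ a, s a ∈ S := fun a => by
    have := hsT a
    rw [hT] at this
    exact this.1
  let P : Matrix (Fin (Module.finrank ℂ (Submodule.span ℂ (mvJ v' '' T))))
      (Fin (Module.finrank ℂ (Submodule.span ℂ (mvJ v' '' T)))) (MvPolynomial (Fin n) F) :=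
    Matrix.of fun a b => ∑ i, X i * C (⟨s a i (e b), hsF a i (e b)⟩ : F)
  have hP : ∀ u : Fin n → ℂ, (Matrix.of fun a b => mvJ u (s a) (e b)).det = aeval u P.det := by
    intro u
    rw [AlgHom.map_det]
    congr 1
    ext a b
    simp only [P, Matrix.of_apply, AlgHom.mapMatrix_apply, Matrix.map_apply, map_sum, map_mul,
      aeval_X, algHom_C, mvJ_apply]
    rfl
  have hg : (Matrix.of fun a b => g a (e b)) = Matrix.of fun a b => mvJ v' (s a) (e b) := by
    ext a b
    simp only [Matrix.of_apply, hsg]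
  rw [hg, hP] at he
  have h4 : aeval v P.det ≠ 0 := by
    intro h0
    apply he
    have h5 : P.det = 0 := by
      apply (injective_iff_map_eq_zero (aeval v : MvPolynomial (Fin n) F →ₐ[F] ℂ)).1 hv
      exact h0
    rw [h5, map_zero]
  rw [← hP] at h4
  have h6 := li_of_minor (fun a => mvJ v (s a)) e h4
  have h7 : LinearIndependent ℂ (fun a => (⟨mvJ v (s a), Submodule.mem_map_of_mem (hsS a)⟩ :
      S.map (mvJ v))) :=
    LinearIndependent.of_comp (Submodule.subtype _) h6
  have h8 := h7.fintype_card_le_finrank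
  rw [Fintype.card_fin] at h8
  rw [hspan]
  exact h8

/-- A pencil of matrices with invertible leading coefficient. -/
lemma pencil {r : ℕ} (A B : Matrix (Fin r) (Fin r) ℂ) (hB : B.det ≠ 0) :
    ∃ s : ℂ, (A + s • B).det ≠ 0 := by
  have hu : IsUnit B.det := isUnit_iff_ne_zero.2 hB
  have hc : (-(A * B⁻¹)).charpoly ≠ 0 := (Matrix.charpoly_monic _).ne_zero
  obtain ⟨s, hs⟩ : ∃ s : ℂ, (-(A * B⁻¹)).charpoly.eval s ≠ 0 := by
    by_contra hcon
    push Not at hcon
    apply hc
    apply Polynomial.funext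
    intro x
    rw [hcon x, Polynomial.eval_zero]
  refine ⟨s, ?_⟩
  rw [Matrix.eval_charpoly] at hs
  have h1 : A + s • B = (Matrix.scalar (Fin r) s - (-(A * B⁻¹))) * B := by
    rw [sub_neg_eq_add, add_mul, Matrix.mul_assoc, Matrix.nonsing_inv_mul B hu, Matrix.mul_one,
      add_comm]
    congr 1
    rw [Matrix.scalar_apply, ← Matrix.smul_one_eq_diagonal, Matrix.smul_mul, Matrix.one_mul]
  rw [h1, Matrix.det_mul]
  exact mul_ne_zero hs hB

end I_SC1

open I_SC1

theorem SC1_pf : S_SC1 := by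
  classical
  intro F n J _ S₀ S₁ hS₀ hS₁ v hv v₀ w D hD
  have hS : RatF F (S₀ ⊔ S₁) := by
    apply sup_le
    · refine hS₀.trans (Submodule.span_mono ?_)
      rintro s ⟨h1, h2⟩
      exact ⟨Submodule.mem_sup_left h1, h2⟩
    · refine hS₁.trans (Submodule.span_mono ?_)
      rintro s ⟨h1, h2⟩
      exact ⟨Submodule.mem_sup_right h1, h2⟩
  obtain ⟨U, hU⟩ : ∃ U : Set (J → ℂ), U = (S₀.map (mvJ w) : Set (J → ℂ)) ∪ (D : Set (J → ℂ)) :=
    ⟨_, rfl⟩
  have hspan : S₀.map (mvJ w) ⊔ D = Submodule.span ℂ U := by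
    rw [hU, Submodule.span_union, Submodule.span_eq, Submodule.span_eq]
  obtain ⟨g, h1, -, h3⟩ := Submodule.exists_fun_fin_finrank_span_eq ℂ U
  rw [hspan]
  -- the two types of vectors
  have hkey : ∀ a, ∃ c : J → ℂ, ∀ s : ℂ, c + s • g a ∈
      (S₀ ⊔ S₁).map (mvJ fun i => v₀ i + s * w i) := by
    intro a
    have h2 := h1 a
    rw [hU] at h2
    rcases h2 with h2 | h2
    · obtain ⟨σ, hσ, hσg⟩ := h2
      refine ⟨mvJ v₀ σ, fun s => ?_⟩
      refine ⟨σ, Submodule.mem_sup_left hσ, ?_⟩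
      rw [← hσg]
      funext j
      simp only [mvJ_apply, Pi.add_apply, Pi.smul_apply, smul_eq_mul]
      rw [Finset.mul_sum, ← Finset.sum_add_distrib]
      exact Finset.sum_congr rfl fun i _ => by ring
    · refine ⟨0, fun s => ?_⟩
      rw [zero_add]
      have h4 : s • g a ∈ S₁.map (mvJ fun i => v₀ i + s * w i) := by
        rw [hD s]
        exact D.smul_mem s h2
      exact Submodule.map_mono le_sup_right h4
  choose c hc using hkey
  obtain ⟨e, he⟩ := minor_of_li g h3
  obtain ⟨s, hs⟩ := pencil (Matrix.of fun a b => c a (e b)) (Matrix.of fun a b => g a (e b)) he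
  have h5 : LinearIndependent ℂ (fun a => c a + s • g a) := by
    apply li_of_minor _ e
    have h6 : (Matrix.of fun a b => (c a + s • g a) (e b)) =
        (Matrix.of fun a b => c a (e b)) + s • (Matrix.of fun a b => g a (e b)) := by
      ext a b
      simp only [Matrix.of_apply, Matrix.add_apply, Matrix.smul_apply, Pi.add_apply, Pi.smul_apply]
    rw [h6]
    exact hs
  have h7 : LinearIndependent ℂ (fun a => (⟨c a + s • g a, hc a s⟩ :
      (S₀ ⊔ S₁).map (mvJ fun i => v₀ i + s * w i))) :=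
    LinearIndependent.of_comp (Submodule.subtype _) h5
  have h8 := h7.fintype_card_le_finrank
  rw [Fintype.card_fin] at h8
  exact h8.trans (gen F n J _ hS v hv _)

end Pool.Agent.Work.MP_8da9ea_nt.MX
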