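import Pool.Agent.Work.MP_8da9ea_nt.MX.I_Rat
import Pool.Agent.Work.MP_8da9ea_nt.FR.I_EField
import Pool.Agent.Work.MP_8da9ea_nt.FR.I_Pert

/-!
# Mixed block, item G12 (Tan): subspaces of small rank
-/

set_option autoImplicit false

namespace Pool.Agent.Work.MP_8da9ea_nt.MX

open MvPolynomial Pool.Agent.Work.MP_327059_nt.GL Pool.Agent.Work.MP_8da9ea_nt.S
  Pool.Agent.Work.MP_8da9ea_nt.EB Pool.Agent.ED

namespace I_Tan

open I_Rat

/-- the space of the vectors `δ a` -/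
noncomputable def Im (E : IntermediateField ℚ ℂ) {κ : Type} (a : κ → ℂ) : Submodule ℂ (κ → ℂ) :=
  (DK E).map (fam fun l => dL (a l))

theorem mem_Im {E : IntermediateField ℚ ℂ} {κ : Type} {a v : κ → ℂ} :
    v ∈ Im E a ↔ ∃ δ ∈ DK E, (fun l => δ (a l)) = v := Iff.rfl

theorem in_Im {E : IntermediateField ℚ ℂ} {κ : Type} (a : κ → ℂ) {δ : Derivation ℚ ℂ ℂ}
    (hδ : δ ∈ DK E) : (fun l => δ (a l)) ∈ Im E a := ⟨δ, hδ, rfl⟩

/-- the algebraic closure of `E(a)` -/
noncomputable def FCl (E : IntermediateField ℚ ℂ) {κ : Type} (a : κ → ℂ) : IntermediateField ℚ ℂ :=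
  FR.I_EField.clos (Sum.elim (fun e : E => (e : ℂ)) a)

theorem FCl_acl (E : IntermediateField ℚ ℂ) {κ : Type} (a : κ → ℂ) : ACl (FCl E a) :=
  FR.I_EField.clos_acl _

theorem le_FCl (E : IntermediateField ℚ ℂ) {κ : Type} (a : κ → ℂ) : E ≤ FCl E a := by
  intro x hx
  exact FR.I_EField.self_mem (Sum.elim (fun e : E => (e : ℂ)) a) (Sum.inl ⟨x, hx⟩)

theorem mem_FCl (E : IntermediateField ℚ ℂ) {κ : Type} (a : κ → ℂ) (l : κ) : a l ∈ FCl E a :=
  FR.I_EField.self_mem (Sum.elim (fun e : E => (e : ℂ)) a) (Sum.inr l)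

theorem der_FCl {E : IntermediateField ℚ ℂ} {κ : Type} {a : κ → ℂ} {δ : Derivation ℚ ℂ ℂ} :
    δ ∈ DK (FCl E a) ↔ δ ∈ DK E ∧ ∀ l, δ (a l) = 0 := by
  constructor
  · intro h
    exact ⟨fun x hx => h x (le_FCl E a hx), fun l => h _ (mem_FCl E a l)⟩
  · rintro ⟨h1, h2⟩
    apply FR.I_EField.der_clos
    rintro (e | l)
    · exact h1 _ e.2
    · exact h2 l

/-- coordinates -/
theorem coord {κ : Type} [Fintype κ] (I : Submodule ℂ (κ → ℂ)) :
    ∃ (d : ℕ) (S : Fin d → κ), d ≤ Module.finrank ℂ I ∧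
      ∀ v ∈ I, (∀ i, v (S i) = 0) → v = 0 := by
  classical
  let f : κ → Module.Dual ℂ I := fun l => (LinearMap.proj l).comp I.subtype
  obtain ⟨κ', s, hs, hspan, hli⟩ := exists_linearIndependent' ℂ f
  have hfin : Finite κ' := Finite.of_injective s hs
  have hft : Fintype κ' := Fintype.ofFinite κ'
  have hcard : Fintype.card κ' ≤ Module.finrank ℂ I := by
    have := hli.fintype_card_le_finrank
    rwa [Subspace.dual_finrank_eq] at this
  refine ⟨Fintype.card κ', fun i => s ((Fintype.equivFin κ').symm i), hcard, ?_⟩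
  intro v hv h0
  funext l
  have h1 : f l ∈ Submodule.span ℂ (Set.range (f ∘ s)) := by
    rw [hspan]
    exact Submodule.subset_span ⟨l, rfl⟩
  have h2 : Submodule.span ℂ (Set.range (f ∘ s)) ≤
      LinearMap.ker (Module.Dual.eval ℂ I ⟨v, hv⟩) := by
    rw [Submodule.span_le]
    rintro _ ⟨i, rfl⟩
    rw [SetLike.mem_coe, LinearMap.mem_ker]
    have := h0 (Fintype.equivFin κ' i)
    simp only [Equiv.symm_apply_apply] at this
    exact this
  exact LinearMap.mem_ker.1 (h2 h1)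

/-- the transcendence degree of `FCl E a` -/
theorem tr_FCl {E : IntermediateField ℚ ℂ} {κ : Type} [Fintype κ] (a : κ → ℂ) (e : ℕ)
    (he : TrE E e) : TrE (FCl E a) (e + rkD E a) := by
  obtain ⟨r, f, hr, hfE, hE⟩ := FR.I_EField.basis E e he
  obtain ⟨d, S, hd, hS⟩ := coord (Im E a)
  let y : Fin r ⊕ Fin d → ℂ := Sum.elim f (fun i => a (S i))
  have h1 : FCl E (fun i => a (S i)) ≤ FR.I_EField.clos y := by
    intro x hx
    refine FR.I_EField.clos_mono _ _ ?_ x hx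
    rintro (e | i)
    · exact FR.I_EField.clos_mono f y (fun i => FR.I_EField.self_mem y (Sum.inl i)) _ (hE _ e.2)
    · exact FR.I_EField.self_mem y (Sum.inr i)
  have h2 : FCl E a ≤ FCl E (fun i => a (S i)) := by
    intro x hx
    refine mem_of_killed (FCl_acl _ _) x fun D hD => ?_
    obtain ⟨hD1, hD2⟩ := der_FCl.1 hD
    have h3 : (fun l => D (a l)) = 0 := hS _ (in_Im a hD1) hD2
    exact (der_FCl.2 ⟨hD1, fun l => congrFun h3 l⟩) x hx
  rintro ⟨x, hx, hind⟩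
  have h3 := pr_TrCount (Fin (e + rkD E a + 1)) (Fin r ⊕ Fin d) x y hind
    (fun i => (FR.I_EField.mem_clos y _).1 (h1 (h2 (hx i))))
  simp only [Fintype.card_fin, Fintype.card_sum] at h3
  have h4 : d ≤ rkD E a := hd
  omega

/-- the annihilator -/
def Ann {κ : Type} [Fintype κ] (I : Submodule ℂ (κ → ℂ)) : Submodule ℂ (κ → ℂ) where
  carrier := {c | ∀ v ∈ I, ∑ l, c l * v l = 0}
  add_mem' {a b} ha hb v hv := by
    simp only [Pi.add_apply, add_mul, Finset.sum_add_distrib, ha v hv, hb v hv, add_zero]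
  zero_mem' v _ := by simp
  smul_mem' c a ha v hv := by
    have h2 : ∑ l, (c • a) l * v l = c * ∑ l, a l * v l := by
      rw [Finset.mul_sum]
      refine Finset.sum_congr rfl fun l _ => ?_
      simp only [Pi.smul_apply, smul_eq_mul]
      ring
    rw [h2, ha v hv, mul_zero]

theorem finrank_Ann {κ : Type} [Fintype κ] (I : Submodule ℂ (κ → ℂ)) :
    Module.finrank ℂ I + Module.finrank ℂ (Ann I) = Fintype.card κ := by
  classical
  have h1 : (Ann I).map (dotProductEquiv ℂ κ : (κ → ℂ) →ₗ[ℂ] Module.Dual ℂ (κ → ℂ)) =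
      I.dualAnnihilator := by
    ext φ
    rw [Submodule.mem_dualAnnihilator]
    constructor
    · rintro ⟨c, hc, rfl⟩ v hv
      exact hc v hv
    · intro h
      refine ⟨(dotProductEquiv ℂ κ).symm φ, ?_, ?_⟩
      · intro v hv
        have h2 := h v hv
        rw [← LinearEquiv.apply_symm_apply (dotProductEquiv ℂ κ) φ] at h2
        exact h2
      · exact LinearEquiv.apply_symm_apply (dotProductEquiv ℂ κ) φ
  rw [← LinearEquiv.finrank_map_eq (dotProductEquiv ℂ κ) (Ann I), h1,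
    Subspace.finrank_add_finrank_dualAnnihilator_eq, Module.finrank_fintype_fun_eq_card]

theorem stab {E : IntermediateField ℚ ℂ} {κ : Type} [Fintype κ] (a : κ → ℂ)
    {D : Derivation ℚ ℂ ℂ} (hD : D ∈ DK (FCl E a)) {c : κ → ℂ} (hc : c ∈ Ann (Im E a)) :
    (fun l => D (c l)) ∈ Ann (Im E a) := by
  obtain ⟨hD1, hD2⟩ := der_FCl.1 hD
  rintro _ ⟨δ, hδ, rfl⟩
  have h1 : ∑ l, c l * δ (a l) = 0 := hc _ (in_Im a hδ)
  have h2 : ∑ l, c l * ⁅D, δ⁆ (a l) = 0 := hc _ (in_Im a (bracket_mem E D δ hD1 hδ))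
  have h3 := congrArg D h1
  rw [map_zero, map_sum] at h3
  have h4 : ∀ l, D (c l * δ (a l)) = c l * ⁅D, δ⁆ (a l) + D (c l) * δ (a l) := by
    intro l
    rw [Derivation.leibniz, Derivation.commutator_apply, hD2 l, map_zero, sub_zero,
      smul_eq_mul, smul_eq_mul]
    ring
  rw [Finset.sum_congr rfl fun l _ => h4 l, Finset.sum_add_distrib, h2, zero_add] at h3
  exact h3

/-- a stable space is spanned by vectors with coordinates in `F` -/
theorem ratl {F : IntermediateField ℚ ℂ} (hF : ACl F) {κ : Type} [Fintype κ]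
    (R : Submodule ℂ (κ → ℂ)) (hR : ∀ D ∈ DK F, ∀ c ∈ R, (fun l => D (c l)) ∈ R) :
    Submodule.span ℂ {c : κ → ℂ | c ∈ R ∧ ∀ l, c l ∈ F} = R := by
  classical
  apply le_antisymm
  · rw [Submodule.span_le]
    exact fun c hc => hc.1
  · let e : κ ≃ Fin (Fintype.card κ) := Fintype.equivFin κ
    let φ : (Fin (Fintype.card κ) → ℂ) →ₗ[ℂ] (κ → ℂ) := LinearMap.funLeft ℂ ℂ e
    intro s hs
    have hst : ∀ D ∈ (DK F : Set (Derivation ℚ ℂ ℂ)), ∀ a ∈ R.comap φ,
        (fun j => D (a j)) ∈ R.comap φ := by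
      intro D hD a ha
      exact hR D hD _ ha
    have hφ : φ (fun j => s (e.symm j)) = s := by
      funext l
      change s (e.symm (e l)) = s l
      rw [Equiv.symm_apply_apply]
    have ha : (fun j => s (e.symm j)) ∈ R.comap φ := by
      rw [Submodule.mem_comap, hφ]
      exact hs
    have h4 := pr_Stab _ (R.comap φ) (DK F : Set (Derivation ℚ ℂ ℂ)) hst _ ha
    have h5 : φ (fun j => s (e.symm j)) ∈ (Submodule.span ℂ {c : Fin (Fintype.card κ) → ℂ |
        c ∈ R.comap φ ∧ ∀ j, ∀ D ∈ (DK F : Set (Derivation ℚ ℂ ℂ)), D (c j) = 0}).map φ :=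
      ⟨_, h4, rfl⟩
    rw [hφ, Submodule.map_span] at h5
    refine Submodule.span_mono ?_ h5
    rintro _ ⟨c, ⟨hc1, hc2⟩, rfl⟩
    exact ⟨hc1, fun l => mem_of_killed hF _ fun D hD => hc2 (e l) D hD⟩

/-- independent vectors with coordinates in `F` of a stable space -/
theorem ind_vec {F : IntermediateField ℚ ℂ} (hF : ACl F) {κ : Type} [Fintype κ]
    (R : Submodule ℂ (κ → ℂ)) (hR : ∀ D ∈ DK F, ∀ c ∈ R, (fun l => D (c l)) ∈ R) :
    ∃ c : Fin (Module.finrank ℂ R) → κ → ℂ, (∀ i, c i ∈ R) ∧ (∀ i l, c i l ∈ F) ∧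
      LinearIndependent ℂ c := by
  have h := Submodule.exists_fun_fin_finrank_span_eq ℂ {c : κ → ℂ | c ∈ R ∧ ∀ l, c l ∈ F}
  rw [ratl hF R hR] at h
  obtain ⟨f, h1, -, h3⟩ := h
  exact ⟨f, fun i => (h1 i).1, fun i => (h1 i).2, h3⟩

/-- the point `∑ w_i A_i` -/
def Aw {n : ℕ} {κ : Type} (A : Fin n → κ → ℂ) (w : Fin n → ℚ) : κ → ℂ :=
  fun l => ∑ i, (w i : ℂ) * A i l

theorem der_Aw {n : ℕ} {κ : Type} (A : Fin n → κ → ℂ) (w : Fin n → ℚ) (δ : Derivation ℚ ℂ ℂ)
    (l : κ) : δ (Aw A w l) = ∑ i, (w i : ℂ) * δ (A i l) := by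
  unfold Aw
  rw [map_sum]
  refine Finset.sum_congr rfl fun i _ => ?_
  have h1 : (w i : ℂ) * A i l = w i • A i l := (Rat.smul_def _ _).symm
  rw [h1, Derivation.map_smul, Rat.smul_def]

theorem Aw_add {n : ℕ} {κ : Type} (A : Fin n → κ → ℂ) (w w' : Fin n → ℚ) :
    Aw A (w + w') = fun l => Aw A w l + Aw A w' l := by
  funext l
  simp only [Aw, Pi.add_apply, Rat.cast_add, add_mul, Finset.sum_add_distrib]

theorem Aw_single {n : ℕ} {κ : Type} (A : Fin n → κ → ℂ) (i : Fin n) :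
    Aw A (Pi.single i 1) = A i := by
  classical
  funext l
  unfold Aw
  rw [Finset.sum_eq_single i]
  · simp
  · intro j _ hj
    rw [Pi.single_eq_of_ne hj]
    simp
  · intro h
    exact absurd (Finset.mem_univ i) h

/-- the forms at `w` -/
noncomputable def om (E : IntermediateField ℚ ℂ) {n : ℕ} {κ : Type} (A : Fin n → κ → ℂ)
    (w : Fin n → ℚ) : DK E →ₗ[ℂ] (κ → ℂ) := (fam fun l => dL (Aw A w l)).comp (DK E).subtype

theorem range_om (E : IntermediateField ℚ ℂ) {n : ℕ} {κ : Type} (A : Fin n → κ → ℂ)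
    (w : Fin n → ℚ) : LinearMap.range (om E A w) = Im E (Aw A w) := by
  unfold om Im
  rw [LinearMap.range_comp, Submodule.range_subtype]

/-- perturbation at a point of maximal rank -/
theorem pert {E : IntermediateField ℚ ℂ} {n : ℕ} {κ : Type} [Fintype κ] (A : Fin n → κ → ℂ)
    (z : Fin n → ℚ) (hz : ∀ w, rkD E (Aw A w) ≤ rkD E (Aw A z)) {c : κ → ℂ}
    (hc : c ∈ Ann (Im E (Aw A z))) (w : Fin n → ℚ) {δ : Derivation ℚ ℂ ℂ}
    (hδ : δ ∈ DK (FCl E (Aw A z))) : ∑ l, c l * δ (Aw A w l) = 0 := by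
  obtain ⟨h1, h2⟩ := der_FCl.1 hδ
  refine FR.Pert_pf (DK E) (Fin n → ℚ) κ (om E A) ?_ ?_ z ?_ c ?_ w ⟨δ, h1⟩ ?_
  · intro w w'
    ext δ l
    change δ.1 (Aw A (w + w') l) = δ.1 (Aw A w l) + δ.1 (Aw A w' l)
    rw [Aw_add, map_add]
  · intro q w
    ext δ l
    change δ.1 (Aw A (q • w) l) = (q : ℂ) * δ.1 (Aw A w l)
    rw [der_Aw, der_Aw, Finset.mul_sum]
    refine Finset.sum_congr rfl fun i _ => ?_
    simp only [Pi.smul_apply, smul_eq_mul, Rat.cast_mul]
    ring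
  · intro w
    rw [range_om, range_om]
    exact hz w
  · intro δ
    exact hc _ (in_Im _ δ.2)
  · funext l
    exact h2 l

/-- the space is the line spanned by `a₁` -/
def Ln (E : IntermediateField ℚ ℂ) {κ : Type} (a a₁ : κ → ℂ) : Prop :=
  a₁ ∈ Im E a ∧ ∀ v ∈ Im E a, ∃ t : ℂ, v = t • a₁

theorem ln_of {E : IntermediateField ℚ ℂ} {κ : Type} [Fintype κ] {a a₁ : κ → ℂ}
    (h : rkD E a ≤ 1) (h0 : a₁ ≠ 0) (h1 : a₁ ∈ Im E a) : Ln E a a₁ := by
  refine ⟨h1, fun v hv => ?_⟩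
  have h2 : Module.finrank ℂ (Im E a) = 1 := by
    apply le_antisymm h
    rw [Nat.one_le_iff_ne_zero]
    intro h3
    have h4 : Im E a = ⊥ := (Submodule.finrank_eq_zero (R := ℂ) (M := κ → ℂ)).1 h3
    rw [h4, Submodule.mem_bot] at h1
    exact h0 h1
  obtain ⟨t, ht⟩ := (finrank_eq_one_iff_of_nonzero' (⟨a₁, h1⟩ : Im E a)
    (fun h => h0 (congrArg Subtype.val h))).1 h2 ⟨v, hv⟩
  exact ⟨t, (congrArg Subtype.val ht).symm⟩

theorem ln_mul {E : IntermediateField ℚ ℂ} {κ : Type} {a a₁ : κ → ℂ} (h : Ln E a a₁) {l₀ : κ}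
    (h0 : a₁ l₀ = 1) {δ : Derivation ℚ ℂ ℂ} (hδ : δ ∈ DK E) (l : κ) :
    δ (a l) = a₁ l * δ (a l₀) := by
  obtain ⟨t, ht⟩ := h.2 _ (in_Im a hδ)
  have h1 : δ (a l) = t * a₁ l := congrFun ht l
  have h2 : δ (a l₀) = t * a₁ l₀ := congrFun ht l₀
  rw [h1, h2, h0]
  ring

theorem ln_der {E : IntermediateField ℚ ℂ} {κ : Type} {a a₁ : κ → ℂ} (h : Ln E a a₁) {l₀ : κ}
    (h0 : a₁ l₀ = 1) {D : Derivation ℚ ℂ ℂ} (hD : D ∈ DK (FCl E a)) (l : κ) : D (a₁ l) = 0 := by
  obtain ⟨hD1, hD2⟩ := der_FCl.1 hD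
  obtain ⟨δ, hδ, hδa⟩ := h.1
  have h1 : ∀ l, a₁ l = δ (a l) := fun l => (congrFun hδa l).symm
  have h2 : ∀ l, D (a₁ l) = ⁅D, δ⁆ (a l) := by
    intro l
    rw [h1, Derivation.commutator_apply, hD2 l, map_zero, sub_zero]
  have h3 := ln_mul h h0 (bracket_mem E D δ hD1 hδ) l
  rw [h2 l, h3, ← h2 l₀, h0, Derivation.map_one_eq_zero, mul_zero]

/-- derivations killing `a₁ l ∉ E` kill `a` -/
theorem ln_kill {E : IntermediateField ℚ ℂ} (hE : ACl E) {κ : Type} {a a₁ : κ → ℂ}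
    (h : Ln E a a₁) {l₀ : κ} (h0 : a₁ l₀ = 1) {l : κ} (hl : a₁ l ∉ E) {D : Derivation ℚ ℂ ℂ}
    (hD : D ∈ DK E) (hDl : D (a₁ l) = 0) (l' : κ) : D (a l') = 0 := by
  obtain ⟨δ, hδ, hδl⟩ : ∃ δ ∈ DK E, δ (a₁ l) ≠ 0 := by
    by_contra hcon
    push Not at hcon
    exact hl (mem_of_killed hE _ hcon)
  have h1 : δ (a l₀) • D - D (a l₀) • δ ∈ DK (FCl E a) := by
    refine der_FCl.2 ⟨Submodule.sub_mem _ (Submodule.smul_mem _ _ hD)
      (Submodule.smul_mem _ _ hδ), fun l => ?_⟩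
    rw [Derivation.sub_apply, Derivation.smul_apply, Derivation.smul_apply, smul_eq_mul,
      smul_eq_mul, ln_mul h h0 hD l, ln_mul h h0 hδ l]
    ring
  have h2 := ln_der h h0 h1 l
  rw [Derivation.sub_apply, Derivation.smul_apply, Derivation.smul_apply, smul_eq_mul,
    smul_eq_mul, hDl, mul_zero, zero_sub, neg_eq_zero] at h2
  rw [ln_mul h h0 hD l', (mul_eq_zero.1 h2).resolve_right hδl, mul_zero]

/-- unit vectors corrected at one coordinate -/
noncomputable def cv {κ : Type} (a₁ : κ → ℂ) (l₀ l : κ) : κ → ℂ :=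
  open Classical in fun j => (if j = l then 1 else 0) - a₁ l * (if j = l₀ then 1 else 0)

theorem cv_sum {κ : Type} [Fintype κ] (a₁ : κ → ℂ) (l₀ l : κ) (v : κ → ℂ) :
    ∑ j, cv a₁ l₀ l j * v j = v l - a₁ l * v l₀ := by
  classical
  unfold cv
  have h1 : ∀ j, ((if j = l then (1 : ℂ) else 0) - a₁ l * (if j = l₀ then 1 else 0)) * v j =
      (if j = l then v j else 0) - a₁ l * (if j = l₀ then v j else 0) := by
    intro j
    split_ifs <;> ring
  rw [Finset.sum_congr rfl fun j _ => h1 j, Finset.sum_sub_distrib, ← Finset.mul_sum,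
    Finset.sum_ite_eq' Finset.univ l, Finset.sum_ite_eq' Finset.univ l₀, if_pos (Finset.mem_univ _),
    if_pos (Finset.mem_univ _)]

end I_Tan

open I_Tan I_Rat in
theorem Tan_pf : S_Tan := by
  classical
  intro E hE n κ _ A r hr
  have hr' : ∀ w, rkD E (Aw A w) ≤ r := hr
  by_cases h1 : psi (Fintype.card κ) ≤ r
  · exact ⟨E, 0, 0, Fin.elim0, hE, le_rfl, fun e he => he, fun l => l.elim0,
      linearIndependent_empty_type, fun l => l.elim0, by omega⟩
  obtain ⟨z, hz⟩ : ∃ z, ∀ w, rkD E (Aw A w) ≤ rkD E (Aw A z) := by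
    obtain ⟨z, -, hz⟩ := (measure fun w => r - rkD E (Aw A w)).wf.has_min Set.univ ⟨0, trivial⟩
    refine ⟨z, fun w => ?_⟩
    have h2 : ¬ (r - rkD E (Aw A w) < r - rkD E (Aw A z)) := hz w trivial
    have h3 := hr' w
    have h4 := hr' z
    omega
  have hs : rkD E (Aw A z) ≤ r := hr' z
  obtain ⟨c, hcR, hcF, hcI⟩ := ind_vec (FCl_acl E (Aw A z)) (Ann (Im E (Aw A z)))
    (fun D hD c hc => stab _ hD hc)
  have hcard : rkD E (Aw A z) + Module.finrank ℂ (Ann (Im E (Aw A z))) = Fintype.card κ :=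
    finrank_Ann _
  by_cases h2 : psi (Fintype.card κ) + 2 * rkD E (Aw A z) ≤ Fintype.card κ + r
  · refine ⟨FCl E (Aw A z), _, rkD E (Aw A z), c, FCl_acl _ _, le_FCl _ _, fun e he => tr_FCl _ e he,
      hcF, hcI, ?_, by omega⟩
    intro l i
    refine mem_of_killed (FCl_acl _ _) _ fun D hD => ?_
    have h3 := pert A z hz (hcR l) (Pi.single i 1) hD
    rw [Aw_single] at h3
    rw [map_sum, ← h3]
    refine Finset.sum_congr rfl fun j _ => ?_
    rw [Derivation.leibniz, hD _ (hcF l j), smul_zero, add_zero, smul_eq_mul]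
  have hs1 : rkD E (Aw A z) = 1 := by
    unfold psi at h1 h2
    split_ifs at h1 h2 <;> omega
  -- case A
  by_cases hA : ∀ i l, A i l ∈ FCl E (Aw A z)
  · refine ⟨FCl E (Aw A z), Fintype.card κ, 1,
      fun l => Pi.single ((Fintype.equivFin κ).symm l) 1, FCl_acl _ _, le_FCl _ _,
      fun e he => hs1 ▸ tr_FCl _ e he, ?_, ?_, ?_, ?_⟩
    · intro l j
      change (Pi.single ((Fintype.equivFin κ).symm l) 1 : κ → ℂ) j ∈ _
      by_cases h : j = (Fintype.equivFin κ).symm l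
      · rw [h, Pi.single_eq_same]
        exact one_mem _
      · rw [Pi.single_eq_of_ne h]
        exact zero_mem _
    · have h3 := (Pi.basisFun ℂ κ).linearIndependent.comp _ (Fintype.equivFin κ).symm.injective
      convert h3 using 1
      funext l
      simp
    · intro l i
      refine sum_mem fun j _ => mul_mem ?_ (hA i j)
      change (Pi.single ((Fintype.equivFin κ).symm l) 1 : κ → ℂ) j ∈ _
      by_cases h : j = (Fintype.equivFin κ).symm l
      · rw [h, Pi.single_eq_same]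
        exact one_mem _
      · rw [Pi.single_eq_of_ne h]
        exact zero_mem _
    · unfold psi
      split_ifs <;> omega
  -- case B
  push Not at hA
  obtain ⟨i₁, l₁, hi₁⟩ := hA
  obtain ⟨a₁, l₀, h0, hL⟩ : ∃ (a₁ : κ → ℂ) (l₀ : κ), a₁ l₀ = 1 ∧ Ln E (Aw A z) a₁ := by
    obtain ⟨a, ha, -⟩ := (finrank_eq_one_iff' (K := ℂ) (V := Im E (Aw A z))).1 hs1
    have ha' : a.1 ≠ 0 := fun h => ha (Subtype.ext h)
    obtain ⟨l₀, hl₀⟩ := Function.ne_iff.1 ha'
    have hl₀' : a.1 l₀ ≠ 0 := hl₀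
    refine ⟨(a.1 l₀)⁻¹ • a.1, l₀, inv_mul_cancel₀ hl₀', ln_of hs1.le ?_
      (Submodule.smul_mem _ _ a.2)⟩
    intro h
    have h3 : (a.1 l₀)⁻¹ * a.1 l₀ = 0 := congrFun h l₀
    rw [inv_mul_cancel₀ hl₀'] at h3
    exact one_ne_zero h3
  have ha₁ : a₁ ≠ 0 := by
    intro h
    rw [h] at h0
    exact zero_ne_one h0
  have hcv : ∀ l, cv a₁ l₀ l ∈ Ann (Im E (Aw A z)) := by
    intro l v hv
    obtain ⟨t, rfl⟩ := hL.2 v hv
    rw [cv_sum, Pi.smul_apply, Pi.smul_apply, h0, smul_eq_mul, smul_eq_mul]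
    ring
  -- the spaces at `z + w`
  have hzw : ∀ w l, Aw A w l ∉ FCl E (Aw A z) → Ln E (Aw A (z + w)) a₁ := by
    intro w l hl
    obtain ⟨D, hD, hDl⟩ : ∃ D ∈ DK (FCl E (Aw A z)), D (Aw A w l) ≠ 0 := by
      by_contra hcon
      push Not at hcon
      exact hl (mem_of_killed (FCl_acl _ _) _ hcon)
    obtain ⟨hD1, hD2⟩ := der_FCl.1 hD
    have h3 : ∀ l, D (Aw A w l) = a₁ l * D (Aw A w l₀) := by
      intro l
      have h4 := pert A z hz (hcv l) w hD
      rw [cv_sum a₁ l₀ l fun l => D (Aw A w l)] at h4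
      exact sub_eq_zero.1 h4
    have h5 : D (Aw A w l₀) ≠ 0 := by
      intro h
      rw [h3 l, h, mul_zero] at hDl
      exact hDl rfl
    refine ln_of (hs1 ▸ hz (z + w)) ha₁ ?_
    have h6 : a₁ = (D (Aw A w l₀))⁻¹ • fun l => D (Aw A (z + w) l) := by
      funext l
      rw [Pi.smul_apply, smul_eq_mul]
      have h7 : D (Aw A (z + w) l) = a₁ l * D (Aw A w l₀) := by
        rw [Aw_add, map_add, hD2, zero_add, h3]
      rw [h7]
      field_simp
    rw [h6]
    exact Submodule.smul_mem _ _ (in_Im _ hD1)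
  have hw : ∀ w l, Aw A w l ∉ FCl E (Aw A z) → ∀ δ ∈ DK E, ∀ l,
      δ (Aw A w l) = a₁ l * δ (Aw A w l₀) := by
    intro w l hl δ hδ l'
    have h3 := ln_mul (hzw w l hl) h0 hδ l'
    have h4 := ln_mul hL h0 hδ l'
    rw [Aw_add, map_add, map_add, h4] at h3
    linear_combination h3
  have hsing : Aw A (Pi.single i₁ 1) l₁ ∉ FCl E (Aw A z) := by
    rw [Aw_single]
    exact hi₁
  have hall : ∀ i, ∀ δ ∈ DK E, ∀ l, δ (A i l) = a₁ l * δ (A i l₀) := by
    intro i δ hδ l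
    by_cases h : ∃ l, A i l ∉ FCl E (Aw A z)
    · obtain ⟨l', hl'⟩ := h
      have h3 := hw (Pi.single i 1) l' (by rw [Aw_single]; exact hl') δ hδ l
      rwa [Aw_single] at h3
    · push Not at h
      have h3 : Aw A (Pi.single i 1 + Pi.single i₁ 1) l₁ ∉ FCl E (Aw A z) := by
        rw [Aw_add, Aw_single, Aw_single]
        intro h4
        exact hi₁ ((add_mem_cancel_left (h l₁)).1 h4)
      have h4 := hw _ l₁ h3 δ hδ l
      have h5 := hw _ l₁ hsing δ hδ l
      rw [Aw_add, Aw_single, Aw_single, map_add, map_add] at h4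
      rw [Aw_single] at h5
      linear_combination h4 - h5
  have ha₁E : ∀ l, a₁ l ∈ E := by
    intro l
    by_contra hl
    obtain ⟨D, hD, hDl⟩ : ∃ D ∈ DK (FCl E (Aw A z)), D (A i₁ l₁) ≠ 0 := by
      by_contra hcon
      push Not at hcon
      exact hi₁ (mem_of_killed (FCl_acl _ _) _ hcon)
    obtain ⟨hD1, hD2⟩ := der_FCl.1 hD
    have h3 := ln_kill hE (hzw _ l₁ hsing) h0 hl hD1 (ln_der hL h0 hD l) l₁
    rw [Aw_add, map_add, hD2, zero_add, Aw_single] at h3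
    exact hDl h3
  have hcard' : Fintype.card {l // l ≠ l₀} + 1 = Fintype.card κ := by
    rw [← Fintype.card_congr (Equiv.optionSubtypeNe l₀), Fintype.card_option]
  let eq := (Fintype.equivFin {l // l ≠ l₀}).symm
  refine ⟨E, Fintype.card {l // l ≠ l₀}, 0, fun l => cv a₁ l₀ (eq l).1, hE, le_rfl,
    fun e he => he, ?_, ?_, ?_, ?_⟩
  · intro l j
    show (if j = (eq l).1 then (1 : ℂ) else 0) - a₁ (eq l).1 * (if j = l₀ then 1 else 0) ∈ E
    refine sub_mem ?_ (mul_mem (ha₁E _) ?_)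
    · split_ifs
      · exact one_mem _
      · exact zero_mem _
    · split_ifs
      · exact one_mem _
      · exact zero_mem _
  · rw [Fintype.linearIndependent_iff]
    intro g hg l
    have h3 := congrFun hg (eq l).1
    rw [Finset.sum_apply, Finset.sum_eq_single l] at h3
    · have h4 : cv a₁ l₀ (eq l).1 (eq l).1 = 1 := by
        unfold cv
        rw [if_pos rfl, if_neg (eq l).2]
        ring
      rw [Pi.smul_apply, h4, smul_eq_mul, mul_one] at h3
      exact h3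
    · intro j _ hj
      have h4 : cv a₁ l₀ (eq j).1 (eq l).1 = 0 := by
        unfold cv
        rw [if_neg, if_neg (eq l).2]
        · ring
        · intro h
          exact hj (eq.injective (Subtype.ext h)).symm
      rw [Pi.smul_apply, h4, smul_zero]
    · intro h
      exact absurd (Finset.mem_univ l) h
  · intro l i
    rw [cv_sum]
    refine mem_of_killed hE _ fun δ hδ => ?_
    rw [map_sub, Derivation.leibniz, hδ _ (ha₁E _), smul_zero, add_zero, smul_eq_mul,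
      ← hall i δ hδ, sub_self]
  · unfold psi
    split_ifs <;> omega

end Pool.Agent.Work.MP_8da9ea_nt.MX
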