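import Pool.Agent.Work.MP_8da9ea_nt.MX.StmtsF
import Pool.Agent.Work.MP_8da9ea_nt.MX.I_Tan
import Pool.Agent.Work.MP_8da9ea_nt.MX.I_SC1

/-!
# Mixed block, item L5 (LL): the lossless lemma
-/

set_option autoImplicit false

namespace Pool.Agent.Work.MP_8da9ea_nt.MX

open MvPolynomial Pool.Agent.Work.MP_327059_nt.GL Pool.Agent.Work.MP_8da9ea_nt.S
  Pool.Agent.Work.MP_8da9ea_nt.EB

namespace I_LL

open I_Tan I_SC1

theorem clos_cnt' {ι : Type} [Countable ι] (y : ι → ℂ) : Countable (FR.I_EField.clos y) := by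
  have h := EB.I_AxOutE.countable_adj (Set.range y) (Set.countable_range y)
  have hcount := Algebraic.countable (IntermediateField.adjoin ℚ (Set.range y)) ℂ
  refine Set.Countable.to_subtype (hcount.mono ?_)
  intro e he
  exact (FR.I_EField.mem_clos y e).1 he

theorem FCl_cnt (E : IntermediateField ℚ ℂ) (hE : Countable E) {κ : Type} [Countable κ]
    (a : κ → ℂ) : Countable (FCl E a) := clos_cnt' _

theorem rkD_mono {E K : IntermediateField ℚ ℂ} (h : E ≤ K) {J : Type} [Fintype J] (a : J → ℂ) :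
    rkD K a ≤ rkD E a := by
  unfold rkD
  apply Submodule.finrank_mono
  apply Submodule.map_mono
  intro δ hδ x hx
  exact hδ x (h hx)

/-- The rank does not increase under specialisation. -/
theorem rk_spec (K : IntermediateField ℚ ℂ) (n : ℕ) (κ : Type) [Fintype κ] (A : Fin n → κ → ℂ)
    (hA : ∀ i l, A i l ∈ K) (y y₀ : Fin n × κ → ℂ)
    (hy : ∀ P : MvPolynomial (Fin n × κ) K, aeval y P = 0 → aeval y₀ P = 0) :
    Module.finrank ℂ (Submodule.span ℂ (Set.range fun i l => A i l - y₀ (i, l))) ≤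
      Module.finrank ℂ (Submodule.span ℂ (Set.range fun i l => A i l - y (i, l))) := by
  classical
  obtain ⟨g, h1, -, h3⟩ := Submodule.exists_fun_fin_finrank_span_eq ℂ
    (Set.range fun i l => A i l - y₀ (i, l))
  choose s hs using h1
  obtain ⟨e, he⟩ := minor_of_li g h3
  let P : Matrix (Fin (Module.finrank ℂ (Submodule.span ℂ (Set.range fun i l => A i l - y₀ (i, l)))))
      (Fin (Module.finrank ℂ (Submodule.span ℂ (Set.range fun i l => A i l - y₀ (i, l)))))
      (MvPolynomial (Fin n × κ) K) :=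
    Matrix.of fun a b => C (⟨A (s a) (e b), hA _ _⟩ : K) - X (s a, e b)
  have hP : ∀ u : Fin n × κ → ℂ, (Matrix.of fun a b => A (s a) (e b) - u (s a, e b)).det =
      aeval u P.det := by
    intro u
    rw [AlgHom.map_det]
    congr 1
    ext a b
    simp only [P, Matrix.of_apply, AlgHom.mapMatrix_apply, Matrix.map_apply, map_sub,
      aeval_X, algHom_C]
    rfl
  have hg : (Matrix.of fun a b => g a (e b)) = Matrix.of fun a b => A (s a) (e b) - y₀ (s a, e b) := by
    ext a b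
    simp only [Matrix.of_apply, ← hs]
  rw [hg, hP] at he
  have h4 : aeval y P.det ≠ 0 := fun h0 => he (hy _ h0)
  rw [← hP] at h4
  have h6 := li_of_minor (fun a l => A (s a) l - y (s a, l)) e h4
  have h7 : LinearIndependent ℂ (fun a => (⟨fun l => A (s a) l - y (s a, l),
      Submodule.subset_span ⟨s a, rfl⟩⟩ :
      Submodule.span ℂ (Set.range fun i l => A i l - y (i, l)))) :=
    LinearIndependent.of_comp (Submodule.subtype _) h6
  have h8 := h7.fintype_card_le_finrank
  rwa [Fintype.card_fin] at h8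

end I_LL

open I_LL I_Tan in
/-- **L5** -/
theorem LL_pf (h1 : S_CntL) (h2 : S_SpzF) : S_LL := by
  classical
  intro E hE hEc n κ _ A r hr
  obtain ⟨a, ha⟩ : ∃ a : Fin n × κ → ℂ, a = fun q => A q.1 q.2 := ⟨_, rfl⟩
  obtain ⟨K, hK⟩ : ∃ K, K = FCl E a := ⟨_, rfl⟩
  have hKa : ACl K := by rw [hK]; exact FCl_acl E a
  have hKc : Countable K := by rw [hK]; exact FCl_cnt E hEc a
  have hEK : E ≤ K := by rw [hK]; exact le_FCl E a
  have hAK : ∀ i l, A i l ∈ K := fun i l => by
    rw [hK]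
    have := mem_FCl E a (i, l)
    rw [ha] at this ⊢
    exact this
  obtain ⟨y, hy1, hy2⟩ := h1 E K hE hKa hKc hEK n κ A r hAK hr
  obtain ⟨d₀, hd₀⟩ : ∃ d₀, rkD E (fun q : Fin n × κ => y q.1 q.2) =
      rkD K (fun q : Fin n × κ => y q.1 q.2) + d₀ :=
    Nat.exists_eq_add_of_le (rkD_mono hEK _)
  obtain ⟨y₀, hy₀, hrk⟩ := h2 E K hE hKa hEK (Fin n × κ) (fun q : Fin n × κ => y q.1 q.2) d₀
    hd₀.le
  have hrs := rk_spec K n κ A hAK (fun q : Fin n × κ => y q.1 q.2) y₀ hy₀
  obtain ⟨S, hS⟩ : ∃ S, S = Submodule.span ℂ (Set.range fun i l => A i l - y₀ (i, l)) := ⟨_, rfl⟩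
  rw [← hS] at hrs
  let b := Module.finBasis ℂ S
  have hmem : ∀ i, (fun l => A i l - y₀ (i, l)) ∈ S := fun i => by
    rw [hS]
    exact Submodule.subset_span ⟨i, rfl⟩
  refine ⟨FCl E y₀, rkD E y₀, Module.finrank ℂ S, fun i l => y₀ (i, l),
    fun k => (b k : κ → ℂ), fun i k => b.repr ⟨_, hmem i⟩ k, FCl_acl E y₀, le_FCl E y₀,
    fun e he => tr_FCl y₀ e he, fun i l => mem_FCl E y₀ (i, l), ?_, ?_⟩
  · intro i l
    have h3 := b.sum_repr ⟨_, hmem i⟩
    have h4 := congrArg (fun v : S => (v : κ → ℂ) l) h3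
    simp only [Submodule.coe_sum, Submodule.coe_smul, Finset.sum_apply, Pi.smul_apply,
      smul_eq_mul] at h4
    rw [h4]
    ring
  · have e1 : Module.finrank ℂ S ≤
        Module.finrank ℂ (Submodule.span ℂ (Set.range fun i => A i - y i)) := hrs
    omega

end Pool.Agent.Work.MP_8da9ea_nt.MX
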