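import Pool.Agent.Work.MP_8da9ea_nt.MX.StmtsF
import Pool.Agent.Work.MP_8da9ea_nt.MX.I_Tan

/-!
# Mixed block, part L, item L2 (SpzF): specialisation with control of the transcendence degree
-/

set_option autoImplicit false

namespace Pool.Agent.Work.MP_8da9ea_nt.MX

open MvPolynomial Pool.Agent.Work.MP_327059_nt.GL Pool.Agent.Work.MP_8da9ea_nt.S
  Pool.Agent.Work.MP_8da9ea_nt.EB Pool.Agent.ED

namespace I_SpzF

/-- Homomorphisms to `ℂ` extend to integral extensions. -/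
theorem ext_hom {R C : Type} [CommRing R] [CommRing C] [IsDomain C] [Algebra R C]
    [Algebra.IsIntegral R C]
    (hinj : Function.Injective (algebraMap R C)) (φ₀ : R →+* ℂ) :
    ∃ φ : C →+* ℂ, ∀ r, φ (algebraMap R C r) = φ₀ r := by
  let P : Ideal R := RingHom.ker φ₀
  have hP : P.IsPrime := RingHom.ker_isPrime φ₀
  obtain ⟨Q, hQ, hQP⟩ := Ideal.exists_ideal_over_prime_of_isIntegral_of_isDomain (S := C) P (by
    rw [(RingHom.injective_iff_ker_eq_bot _).1 hinj]
    exact bot_le)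
  have : Q.LiesOver P := ⟨hQP.symm⟩
  let ψ : R ⧸ P →+* ℂ := Ideal.Quotient.lift P φ₀ (fun a ha => ha)
  have hψ : Function.Injective ψ := by
    rw [injective_iff_map_eq_zero]
    intro x hx
    obtain ⟨r, rfl⟩ := Ideal.Quotient.mk_surjective x
    rw [Ideal.Quotient.lift_mk] at hx
    exact Ideal.Quotient.eq_zero_iff_mem.2 hx
  letI : Algebra (R ⧸ P) ℂ := ψ.toAlgebra
  have : FaithfulSMul (R ⧸ P) ℂ := (faithfulSMul_iff_algebraMap_injective _ _).2 hψ
  have : Module.IsTorsionFree (R ⧸ P) ℂ := inferInstance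
  have : FaithfulSMul (R ⧸ P) (C ⧸ Q) := inferInstance
  have : Module.IsTorsionFree (R ⧸ P) (C ⧸ Q) := inferInstance
  let f : C ⧸ Q →ₐ[R ⧸ P] ℂ := IsAlgClosed.lift
  refine ⟨(f : C ⧸ Q →+* ℂ).comp (Ideal.Quotient.mk Q), fun r => ?_⟩
  have h1 : f (algebraMap (R ⧸ P) (C ⧸ Q) (Ideal.Quotient.mk P r)) =
      algebraMap (R ⧸ P) ℂ (Ideal.Quotient.mk P r) := f.commutes _
  exact h1

/-- Specialisation at integral points. -/
theorem sp {K : Type} [Field K] [CharZero K] [Algebra K ℂ] {ι κ : Type} [Finite ι] [Fintype κ]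
    (ξ : ι → ℂ) (hξ : AlgebraicIndependent K ξ) (t : κ → ℂ)
    (ht : ∀ j, IsAlgebraic (Algebra.adjoin K (Set.range ξ)) (t j)) :
    ∃ (C : Subalgebra K ℂ) (φ : C →ₐ[K] ℂ) (n : ι → ℕ),
      (∀ i, ∃ h : ξ i ∈ C, φ ⟨ξ i, h⟩ = n i) ∧ ∀ j, t j ∈ C := by
  classical
  choose a ha0 hai using fun j => (ht j).exists_integral_multiple
  -- the point
  have ha' : ∏ j, hξ.aevalEquiv.symm (a j) ≠ 0 := by
    rw [Finset.prod_ne_zero_iff]
    intro j _ h
    exact ha0 j ((map_eq_zero_iff _ hξ.aevalEquiv.symm.injective).1 h)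
  obtain ⟨n, hn⟩ : ∃ n : ι → ℕ, eval (fun i => (n i : K)) (∏ j, hξ.aevalEquiv.symm (a j)) ≠ 0 := by
    by_contra hcon
    push Not at hcon
    apply ha'
    refine MvPolynomial.funext_set (fun _ => Set.range ((↑) : ℕ → K)) ?_ ?_
    · intro _
      exact Set.infinite_range_of_injective Nat.cast_injective
    · intro x hx
      choose n hn using fun i => hx i (Set.mem_univ i)
      have h1 := hcon n
      rw [map_zero]
      have h2 : (fun i => (n i : K)) = x := funext hn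
      rw [h2] at h1
      exact h1
  let R₀ := Algebra.adjoin K (Set.range ξ)
  let ev : R₀ →ₐ[K] ℂ :=
    (aeval (fun i => ((n i : ℕ) : ℂ))).comp (hξ.aevalEquiv.symm : R₀ →ₐ[K] MvPolynomial ι K)
  have hev : ∀ j, ev (a j) ≠ 0 := by
    intro j hj
    apply hn
    rw [map_prod]
    refine Finset.prod_eq_zero (Finset.mem_univ j) ?_
    have h1 : aeval (fun i => ((n i : ℕ) : ℂ)) (hξ.aevalEquiv.symm (a j)) = 0 := hj
    have h2 : (fun i => ((n i : ℕ) : ℂ)) = fun i => algebraMap K ℂ (n i) := by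
      funext i
      rw [map_natCast]
    rw [h2, ← Function.comp_def, aeval_algebraMap_apply] at h1
    exact (map_eq_zero_iff _ (algebraMap K ℂ).injective).1 h1
  have hevξ : ∀ (i : ι) (h : ξ i ∈ R₀), ev ⟨ξ i, h⟩ = n i := by
    intro i h
    have h1 : hξ.aevalEquiv.symm ⟨ξ i, h⟩ = X i := by
      rw [AlgEquiv.symm_apply_eq]
      apply Subtype.ext
      have h2 := hξ.algebraMap_aevalEquiv (X i)
      rw [aeval_X] at h2
      exact h2.symm
    change aeval (fun i => ((n i : ℕ) : ℂ)) (hξ.aevalEquiv.symm ⟨ξ i, h⟩) = n i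
    rw [h1, aeval_X]
  -- the local ring
  let M : Submonoid R₀ := (nonZeroDivisors ℂ).comap (ev : R₀ →+* ℂ)
  have hM : ∀ y : M, ev y ≠ 0 := fun y => mem_nonZeroDivisors_iff_ne_zero.1 y.2
  have hθ : ∀ y : M, IsUnit (algebraMap R₀ ℂ y) := by
    intro y
    rw [isUnit_iff_ne_zero]
    intro h
    apply hM y
    have h1 : (y : R₀) = 0 := Subtype.ext h
    rw [h1, map_zero]
  have hev' : ∀ y : M, IsUnit ((ev : R₀ →+* ℂ) y) := fun y => isUnit_iff_ne_zero.2 (hM y)
  let L := Localization M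
  let θ' : L →+* ℂ := IsLocalization.lift hθ
  let ev' : L →+* ℂ := IsLocalization.lift hev'
  have hθ' : Function.Injective θ' := by
    rw [injective_iff_map_eq_zero]
    intro x hx
    obtain ⟨r, m, rfl⟩ := IsLocalization.exists_mk'_eq M x
    rw [IsLocalization.lift_mk'_spec] at hx
    rw [mul_zero] at hx
    have h1 : r = 0 := Subtype.ext hx
    rw [h1, IsLocalization.mk'_zero]
  letI : Algebra L ℂ := θ'.toAlgebra
  have : IsScalarTower R₀ L ℂ := by
    refine ⟨fun x y z => ?_⟩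
    have h1 : θ' (algebraMap R₀ L x) = algebraMap R₀ ℂ x := IsLocalization.lift_eq hθ x
    have h2 : x • y = algebraMap R₀ L x * y := Algebra.smul_def x y
    have h3 : ∀ (l : L) (w : ℂ), l • w = θ' l * w := fun l w => rfl
    rw [h2, h3, h3, map_mul, h1, mul_assoc]
    rfl
  have hKL : ∀ k : K, algebraMap K ℂ k = algebraMap L ℂ (algebraMap K L k) := by
    intro k
    rw [IsScalarTower.algebraMap_apply K R₀ L]
    have h1 : θ' (algebraMap R₀ L (algebraMap K R₀ k)) = algebraMap R₀ ℂ (algebraMap K R₀ k) :=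
      IsLocalization.lift_eq hθ _
    exact h1.symm
  have : IsScalarTower K L ℂ := IsScalarTower.of_algebraMap_eq hKL
  have hinj : Function.Injective (algebraMap L (integralClosure L ℂ)) := by
    intro x y h
    exact hθ' (congrArg Subtype.val h)
  obtain ⟨φ, hφ⟩ := ext_hom (R := L) (C := integralClosure L ℂ) hinj ev'
  have hcom : ∀ k : K, φ (algebraMap K (integralClosure L ℂ) k) = algebraMap K ℂ k := by
    intro k
    rw [IsScalarTower.algebraMap_apply K L (integralClosure L ℂ), hφ,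
      IsScalarTower.algebraMap_apply K R₀ L]
    have h1 : ev' (algebraMap R₀ L (algebraMap K R₀ k)) = ev (algebraMap K R₀ k) :=
      IsLocalization.lift_eq hev' _
    rw [h1]
    exact ev.commutes k
  refine ⟨(integralClosure L ℂ).restrictScalars K, { φ with commutes' := hcom }, n, ?_, ?_⟩
  · intro i
    have h0 : ξ i ∈ R₀ := Algebra.subset_adjoin ⟨i, rfl⟩
    have h1 : algebraMap L ℂ (algebraMap R₀ L ⟨ξ i, h0⟩) = ξ i := by
      rw [← IsScalarTower.algebraMap_apply R₀ L ℂ]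
      rfl
    have h2 : ξ i ∈ integralClosure L ℂ := by
      rw [← h1]
      exact isIntegral_algebraMap
    refine ⟨h2, ?_⟩
    have h3 : (⟨ξ i, h2⟩ : integralClosure L ℂ) =
        algebraMap L (integralClosure L ℂ) (algebraMap R₀ L ⟨ξ i, h0⟩) := Subtype.ext h1.symm
    change φ ⟨ξ i, h2⟩ = n i
    rw [h3, hφ]
    have h4 : ev' (algebraMap R₀ L ⟨ξ i, h0⟩) = ev ⟨ξ i, h0⟩ := IsLocalization.lift_eq hev' _
    rw [h4, hevξ]
  · intro j
    change IsIntegral L (t j)
    have hj : a j ∈ M := mem_nonZeroDivisors_iff_ne_zero.2 (hev j)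
    have h1 : IsIntegral L (a j • t j) := (hai j).tower_top
    have h2 : t j = algebraMap L ℂ (IsLocalization.mk' L 1 (⟨a j, hj⟩ : M)) * (a j • t j) := by
      have h3 : algebraMap L ℂ (IsLocalization.mk' L 1 (⟨a j, hj⟩ : M)) *
          algebraMap R₀ ℂ (a j) = 1 := by
        rw [IsScalarTower.algebraMap_apply R₀ L ℂ, ← map_mul,
          IsLocalization.mk'_spec L 1 (⟨a j, hj⟩ : M), map_one, map_one]
      rw [Algebra.smul_def, ← mul_assoc, h3, one_mul]
    rw [h2]
    exact isIntegral_algebraMap.mul h1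

open I_Rat I_Tan

/-- Algebraicity from derivations. -/
theorem alg_of {F : IntermediateField ℚ ℂ} {ι : Type} (ξ : ι → ℂ)
    (hξ : AlgebraicIndependent F ξ) (x : ℂ)
    (hx : ∀ δ ∈ DK F, (∀ i, δ (ξ i) = 0) → δ x = 0) :
    IsAlgebraic (Algebra.adjoin F (Set.range ξ)) x := by
  classical
  by_contra h
  have h1 := (hξ.option_iff_transcendental x).2 h
  obtain ⟨X, hX⟩ := exists_derivation h1 (fun o => if o = none then (1 : ℂ) else 0)
  have h2 : X.restrictScalars ℚ ∈ DK F := fun z hz => X.map_algebraMap (⟨z, hz⟩ : F)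
  have h3 : X x = 0 := hx _ h2 fun i => by
    have h4 := hX (some i)
    simp only [reduceCtorEq, if_false] at h4
    exact h4
  have h5 := hX none
  rw [if_pos rfl] at h5
  have h6 : X x = 1 := h5
  rw [h3] at h6
  exact zero_ne_one h6

/-- Independence from derivations. -/
theorem ind_of {F : IntermediateField ℚ ℂ} {ι : Type} [Fintype ι] (ξ : ι → ℂ)
    (h : ∀ c : ι → ℂ, ∃ δ ∈ DK F, ∀ i, δ (ξ i) = c i) : AlgebraicIndependent F ξ := by
  classical
  choose δ hδ hδ' using fun o : ι => h (Pi.single o 1)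
  refine TG.rel_jac F ξ δ hδ ?_
  have h1 : (Matrix.of fun o o' => δ o (ξ o')) = 1 := by
    ext o o'
    rw [Matrix.of_apply, hδ', Matrix.one_apply, Pi.single_apply]
    simp only [eq_comm]
  rw [h1, Matrix.det_one]
  exact one_ne_zero

/-- Coordinates of a subspace. -/
theorem coord2 {κ : Type} [Fintype κ] (I : Submodule ℂ (κ → ℂ)) :
    ∃ (d : ℕ) (S : Fin d → κ), d = Module.finrank ℂ I ∧
      (∀ v ∈ I, (∀ i, v (S i) = 0) → v = 0) ∧ ∀ c : Fin d → ℂ, ∃ v ∈ I, ∀ i, v (S i) = c i := by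
  obtain ⟨d, S, hd, hS⟩ := I_Tan.coord I
  let ρ : I →ₗ[ℂ] (Fin d → ℂ) := (LinearMap.funLeft ℂ ℂ S).comp I.subtype
  have hρ : Function.Injective ρ := by
    rw [injective_iff_map_eq_zero]
    intro v hv
    exact Subtype.ext (hS v.1 v.2 fun i => congrFun hv i)
  have h1 := LinearMap.finrank_le_finrank_of_injective hρ
  rw [Module.finrank_fin_fun] at h1
  have h2 : d = Module.finrank ℂ I := le_antisymm hd h1
  have h3 : Function.Surjective ρ := (LinearMap.injective_iff_surjective_of_finrank_eq_finrank (by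
    rw [Module.finrank_fin_fun, h2])).1 hρ
  refine ⟨d, S, h2, hS, fun c => ?_⟩
  obtain ⟨v, hv⟩ := h3 c
  exact ⟨v.1, v.2, fun i => congrFun hv i⟩

end I_SpzF

open I_SpzF I_Rat I_Tan in
/-- **L2** -/
theorem SpzF_pf : S_SpzF := by
  classical
  intro E K hE hK hEK J _ y d hd
  obtain ⟨h, S, hh, hS0, hS1⟩ := coord2 (Im K y)
  -- the vectors of `Im E y` vanishing at the places `S`
  have hIm : Im K y ≤ Im E y := Submodule.map_mono (DK_mono E K hEK)
  let ρ : Im E y →ₗ[ℂ] (Fin h → ℂ) := (LinearMap.funLeft ℂ ℂ S).comp (Im E y).subtype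
  have hρ : LinearMap.range ρ = ⊤ := by
    rw [LinearMap.range_eq_top]
    intro c
    obtain ⟨v, hv, hvc⟩ := hS1 c
    exact ⟨⟨v, hIm hv⟩, funext hvc⟩
  let N : Submodule ℂ (J → ℂ) := (LinearMap.ker ρ).map (Im E y).subtype
  have hN : Module.finrank ℂ N ≤ d := by
    have h1 := LinearMap.finrank_range_add_finrank_ker ρ
    rw [hρ, finrank_top, Module.finrank_fin_fun] at h1
    have h2 : Module.finrank ℂ N = Module.finrank ℂ (LinearMap.ker ρ) :=
      Submodule.finrank_map_subtype_eq _ _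
    have h3 : Module.finrank ℂ (Im E y) ≤ Module.finrank ℂ (Im K y) + d := hd
    omega
  have hNm : ∀ v, v ∈ N ↔ v ∈ Im E y ∧ ∀ i, v (S i) = 0 := by
    intro v
    constructor
    · rintro ⟨w, hw, rfl⟩
      exact ⟨w.2, fun i => congrFun (LinearMap.mem_ker.1 hw) i⟩
    · rintro ⟨h1, h2⟩
      exact ⟨⟨v, h1⟩, LinearMap.mem_ker.2 (funext h2), rfl⟩
  obtain ⟨d', S', hd', hN0, hN1⟩ := coord2 N
  let ξ : Fin h → ℂ := fun i => y (S i)
  let ζ : Fin h ⊕ Fin d' → ℂ := Sum.elim ξ (fun i => y (S' i))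
  have hξ : AlgebraicIndependent K ξ := by
    refine ind_of ξ fun c => ?_
    obtain ⟨v, ⟨δ, hδ, rfl⟩, hv⟩ := hS1 c
    exact ⟨δ, hδ, hv⟩
  have hζ : AlgebraicIndependent E ζ := by
    refine ind_of ζ fun c => ?_
    obtain ⟨v, hvI, hv⟩ := hS1 (fun i => c (Sum.inl i))
    obtain ⟨δ₁, hδ₁, hv₁⟩ := hIm hvI
    obtain ⟨w, hwN, hw⟩ := hN1 (fun i => c (Sum.inr i) - v (S' i))
    obtain ⟨hwI, hw0⟩ := (hNm w).1 hwN
    obtain ⟨δ₂, hδ₂, hv₂⟩ := hwI
    have e1 : ∀ j, δ₁ (y j) = v j := fun j => congrFun hv₁ j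
    have e2 : ∀ j, δ₂ (y j) = w j := fun j => congrFun hv₂ j
    refine ⟨δ₁ + δ₂, Submodule.add_mem _ hδ₁ hδ₂, ?_⟩
    rintro (i | i)
    · change (δ₁ + δ₂) (y (S i)) = _
      rw [Derivation.add_apply, e1, e2, hv, hw0, add_zero]
    · change (δ₁ + δ₂) (y (S' i)) = _
      rw [Derivation.add_apply, e1, e2, hw]
      ring
  have hKy : ∀ j, ∀ δ ∈ DK K, (∀ i, δ (ξ i) = 0) → δ (y j) = 0 := by
    intro j δ hδ h0
    exact congrFun (hS0 _ (in_Im y hδ) h0) j
  have hEy : ∀ j, ∀ δ ∈ DK E, (∀ o, δ (ζ o) = 0) → δ (y j) = 0 := by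
    intro j δ hδ h0
    exact congrFun (hN0 _ ((hNm _).2 ⟨in_Im y hδ, fun i => h0 (Sum.inl i)⟩)
      (fun i => h0 (Sum.inr i))) j
  -- everything is algebraic over `K(ξ)`
  have hmem : ∀ j, y j ∈ FCl K ξ := by
    intro j
    refine mem_of_killed (FCl_acl _ _) _ fun δ hδ => ?_
    obtain ⟨h1, h2⟩ := der_FCl.1 hδ
    exact hKy j δ h1 h2
  have hBG : ∀ b ∈ Algebra.adjoin E (Set.range ζ), b ∈ FCl K ξ := by
    intro b hb
    induction hb using Algebra.adjoin_induction with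
    | mem x hx =>
      obtain ⟨o, rfl⟩ := hx
      rcases o with i | i
      · exact hmem _
      · exact hmem _
    | algebraMap r => exact le_FCl K ξ (hEK r.2)
    | add x z _ _ hx hz => exact add_mem hx hz
    | mul x z _ _ hx hz => exact mul_mem hx hz
  choose p hp0 hp using fun j => alg_of ζ hζ (y j) (hEy j)
  let q : J → ℂ := fun j => ((p j).leadingCoeff : ℂ)
  have hq0 : ∀ j, q j ≠ 0 := by
    intro j hj
    exact hp0 j (Polynomial.leadingCoeff_eq_zero.1 (Subtype.ext hj))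
  have hqG : ∀ j, q j ∈ FCl K ξ := fun j => hBG _ (p j).leadingCoeff.2
  let t : J ⊕ J → ℂ := Sum.elim y (fun j => (q j)⁻¹)
  have ht : ∀ o, IsAlgebraic (Algebra.adjoin K (Set.range ξ)) (t o) := by
    intro o
    refine alg_of ξ hξ (t o) fun δ hδ h0 => ?_
    have h1 : δ ∈ DK (FCl K ξ) := der_FCl.2 ⟨hδ, h0⟩
    rcases o with j | j
    · exact h1 _ (hmem j)
    · exact h1 _ (inv_mem (hqG j))
  obtain ⟨C, φ, n, hn, htC⟩ := sp ξ hξ t ht
  have hyC : ∀ j, y j ∈ C := fun j => htC (Sum.inl j)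
  have hqC : ∀ j, (q j)⁻¹ ∈ C := fun j => htC (Sum.inr j)
  let y₀ : J → ℂ := fun j => φ ⟨y j, hyC j⟩
  refine ⟨y₀, ?_, ?_⟩
  · intro P hP
    have h1 : aeval (fun j => (⟨y j, hyC j⟩ : C)) P = 0 := by
      apply Subtype.ext
      have h2 := comp_aeval_apply (fun j => (⟨y j, hyC j⟩ : C)) C.val P
      rw [ZeroMemClass.coe_zero]
      exact h2.trans hP
    have h3 := comp_aeval_apply (fun j => (⟨y j, hyC j⟩ : C)) φ P
    rw [h1, map_zero] at h3
    exact h3.symm
  -- the subring `B`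
  have hBC : ∀ b ∈ Algebra.adjoin E (Set.range ζ), b ∈ C := by
    intro b hb
    induction hb using Algebra.adjoin_induction with
    | mem x hx =>
      obtain ⟨o, rfl⟩ := hx
      rcases o with i | i
      · exact hyC _
      · exact hyC _
    | algebraMap r => exact C.algebraMap_mem (⟨r, hEK r.2⟩ : K)
    | add x z _ _ hx hz => exact add_mem hx hz
    | mul x z _ _ hx hz => exact mul_mem hx hz
  let G₀ : IntermediateField ℚ ℂ := FCl E (fun i => y₀ (S' i))
  have hBG₀ : ∀ b (hb : b ∈ Algebra.adjoin E (Set.range ζ)), φ ⟨b, hBC b hb⟩ ∈ G₀ := by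
    intro b hb
    induction hb using Algebra.adjoin_induction with
    | mem x hx =>
      obtain ⟨o, rfl⟩ := hx
      rcases o with i | i
      · obtain ⟨h1, h2⟩ := hn i
        have h3 : φ ⟨ζ (Sum.inl i), hBC _ (Algebra.subset_adjoin ⟨Sum.inl i, rfl⟩)⟩ = n i := h2
        rw [h3]
        exact natCast_mem _ _
      · exact mem_FCl E (fun i => y₀ (S' i)) i
    | algebraMap r =>
      have h1 : φ (algebraMap K C ⟨r, hEK r.2⟩) = r := φ.commutes _
      have h2 : φ ⟨algebraMap E ℂ r, hBC _ (Subalgebra.algebraMap_mem _ r)⟩ = r := h1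
      rw [h2]
      exact le_FCl _ _ r.2
    | add x z hx' hz' hx hz =>
      have h1 : (⟨x + z, hBC _ (add_mem hx' hz')⟩ : C) = ⟨x, hBC _ hx'⟩ + ⟨z, hBC _ hz'⟩ := rfl
      rw [h1, map_add]
      exact add_mem hx hz
    | mul x z hx' hz' hx hz =>
      have h1 : (⟨x * z, hBC _ (mul_mem hx' hz')⟩ : C) = ⟨x, hBC _ hx'⟩ * ⟨z, hBC _ hz'⟩ := rfl
      rw [h1, map_mul]
      exact mul_mem hx hz
  let ι₀ : Algebra.adjoin E (Set.range ζ) →+* C :=
    { toFun := fun b => ⟨b.1, hBC _ b.2⟩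
      map_one' := rfl
      map_mul' := fun _ _ => rfl
      map_zero' := rfl
      map_add' := fun _ _ => rfl }
  let ψ : Algebra.adjoin E (Set.range ζ) →+* G₀ :=
    { toFun := fun b => ⟨φ (ι₀ b), hBG₀ _ b.2⟩
      map_one' := Subtype.ext (by
        change φ (ι₀ 1) = 1
        rw [map_one, map_one])
      map_mul' := fun a b => Subtype.ext (by
        change φ (ι₀ (a * b)) = φ (ι₀ a) * φ (ι₀ b)
        rw [map_mul, map_mul])
      map_zero' := Subtype.ext (by
        change φ (ι₀ 0) = 0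
        rw [map_zero, map_zero])
      map_add' := fun a b => Subtype.ext (by
        change φ (ι₀ (a + b)) = φ (ι₀ a) + φ (ι₀ b)
        rw [map_add, map_add]) }
  have hy₀ : ∀ j, y₀ j ∈ G₀ := by
    intro j
    refine FCl_acl E _ (y₀ j) ⟨(p j).map ψ, ?_, ?_⟩
    · intro h0
      have h1 := congrArg (fun f => Polynomial.coeff f (p j).natDegree) h0
      simp only [Polynomial.coeff_map, Polynomial.coeff_natDegree, Polynomial.coeff_zero] at h1
      have h2 : φ (ι₀ (p j).leadingCoeff) = 0 := congrArg Subtype.val h1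
      have h3 : ι₀ (p j).leadingCoeff * ⟨(q j)⁻¹, hqC j⟩ = 1 := by
        apply Subtype.ext
        change q j * (q j)⁻¹ = 1
        exact mul_inv_cancel₀ (hq0 j)
      have h4 := congrArg φ h3
      rw [map_mul, h2, zero_mul, map_one] at h4
      exact zero_ne_one h4
    · have h1 : Polynomial.eval₂ ι₀ (⟨y j, hyC j⟩ : C) (p j) = 0 := by
        apply Subtype.ext
        have h2 := Polynomial.hom_eval₂ (p j) ι₀ (C.val : C →+* ℂ) (⟨y j, hyC j⟩ : C)
        exact h2.trans (hp j)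
      have h3 := Polynomial.hom_eval₂ (p j) ι₀ (φ : C →+* ℂ) (⟨y j, hyC j⟩ : C)
      rw [h1, map_zero] at h3
      rw [Polynomial.aeval_def, Polynomial.eval₂_map]
      exact h3.symm
  -- the rank
  have hker : ∀ v ∈ Im E y₀, (∀ i, v (S' i) = 0) → v = 0 := by
    rintro _ ⟨δ, hδ, rfl⟩ h0
    funext j
    exact (der_FCl.2 ⟨hδ, h0⟩ : δ ∈ DK G₀) _ (hy₀ j)
  let σ : Im E y₀ →ₗ[ℂ] (Fin d' → ℂ) := (LinearMap.funLeft ℂ ℂ S').comp (Im E y₀).subtype
  have hσ : Function.Injective σ := by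
    rw [injective_iff_map_eq_zero]
    intro v hv
    exact Subtype.ext (hker v.1 v.2 fun i => congrFun hv i)
  have h1 := LinearMap.finrank_le_finrank_of_injective hσ
  rw [Module.finrank_fin_fun] at h1
  have h2 : rkD E y₀ = Module.finrank ℂ (Im E y₀) := rfl
  omega

end Pool.Agent.Work.MP_8da9ea_nt.MX
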