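import Pool.Agent.Work.MP_8da9ea_nt.MX.StmtsF
import Pool.Agent.Work.MP_8da9ea_nt.MX.I_Tan
import Pool.Agent.Work.MP_8da9ea_nt.MX.I_LL
import Pool.Agent.Work.MP_8da9ea_nt.MX.I_SpzF
import Pool.Agent.Work.MP_8da9ea_nt.MX.I_HilbW

/-!
# Mixed block, part L, item L4 (CntL): counting
-/

set_option autoImplicit false

namespace Pool.Agent.Work.MP_8da9ea_nt.MX

open MvPolynomial Pool.Agent.Work.MP_327059_nt.GL Pool.Agent.Work.MP_8da9ea_nt.S
  Pool.Agent.Work.MP_8da9ea_nt.EB Pool.Agent.ED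

namespace I_CntL

open I_Tan I_Rat I_SpzF

/-- derivations with prescribed values -/
theorem der_of {F : IntermediateField ℚ ℂ} {ι : Type} {f : ι → ℂ}
    (hf : AlgebraicIndependent F f) (c : ι → ℂ) :
    ∃ δ ∈ DK F, ∀ i, δ (f i) = c i := by
  obtain ⟨X, hX⟩ := exists_derivation hf c
  exact ⟨X.restrictScalars ℚ, fun z hz => X.map_algebraMap (⟨z, hz⟩ : F), hX⟩

/-- independent coordinates give a lower bound for the rank -/
theorem le_rkD {F : IntermediateField ℚ ℂ} {J : Type} [Fintype J] (a : J → ℂ) {d : ℕ}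
    (s : Fin d → J) (h : AlgebraicIndependent F fun i => a (s i)) : d ≤ rkD F a := by
  classical
  let ρ : Im F a →ₗ[ℂ] (Fin d → ℂ) := (LinearMap.funLeft ℂ ℂ s).comp (Im F a).subtype
  have hρ : Function.Surjective ρ := by
    intro c
    obtain ⟨δ, hδ, hc⟩ := der_of h c
    exact ⟨⟨_, in_Im a hδ⟩, funext hc⟩
  have h1 := LinearMap.finrank_le_finrank_of_surjective hρ
  rwa [Module.finrank_fin_fun] at h1

/-- independent coordinates -/
theorem exists_ind (F : IntermediateField ℚ ℂ) {J : Type} [Fintype J] (a : J → ℂ) :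
    ∃ s : Fin (rkD F a) → J, AlgebraicIndependent F fun i => a (s i) := by
  obtain ⟨d, S, hd, -, hS⟩ := coord2 (Im F a)
  have hd' : d = rkD F a := hd
  subst hd'
  refine ⟨S, ind_of _ fun c => ?_⟩
  obtain ⟨v, ⟨δ, hδ, rfl⟩, hv⟩ := hS c
  exact ⟨δ, hδ, hv⟩

/-- independence only depends on the relations -/
theorem ind_copy {F : IntermediateField ℚ ℂ} {J : Type} (a a' : J → ℂ)
    (h : ∀ P : MvPolynomial J F, aeval a P = 0 ↔ aeval a' P = 0) {d : ℕ} (s : Fin d → J)
    (hs : AlgebraicIndependent F fun i => a (s i)) :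
    AlgebraicIndependent F fun i => a' (s i) := by
  rw [algebraicIndependent_iff] at hs ⊢
  intro P hP
  refine hs P ?_
  have e : ∀ b : J → ℂ, aeval (fun i => b (s i)) P = aeval b (rename s P) := fun b => by
    rw [aeval_rename]
    rfl
  rw [e] at hP ⊢
  exact (h _).2 hP

theorem rkD_copy_le {F : IntermediateField ℚ ℂ} {J : Type} [Fintype J] (a a' : J → ℂ)
    (h : ∀ P : MvPolynomial J F, aeval a P = 0 ↔ aeval a' P = 0) : rkD F a ≤ rkD F a' := by
  obtain ⟨s, hs⟩ := exists_ind F a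
  exact le_rkD a' s (ind_copy a a' h s hs)

theorem rkD_copy {F : IntermediateField ℚ ℂ} {J : Type} [Fintype J] (a a' : J → ℂ)
    (h : ∀ P : MvPolynomial J F, aeval a P = 0 ↔ aeval a' P = 0) : rkD F a' = rkD F a :=
  le_antisymm (rkD_copy_le a' a fun P => (h P).symm) (rkD_copy_le a a' h)

/-- relations over a smaller field -/
theorem rel_mono {E F : IntermediateField ℚ ℂ} (hEF : E ≤ F) {J : Type} (a a' : J → ℂ)
    (h : ∀ P : MvPolynomial J F, aeval a P = 0 ↔ aeval a' P = 0) (P : MvPolynomial J E) :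
    aeval a P = 0 ↔ aeval a' P = 0 := by
  have e : ∀ b : J → ℂ, aeval b P =
      aeval b (MvPolynomial.map (IntermediateField.inclusion hEF).toRingHom P) := fun b => by
    rw [MvPolynomial.aeval_def, MvPolynomial.aeval_def, MvPolynomial.eval₂_map]
    rfl
  rw [e, e]
  exact h _

/-- The span of the rows. -/
theorem ker_dim {n : ℕ} {κ : Type} [Fintype κ] (B : Fin n → κ → ℂ) :
    Module.finrank ℂ (LinearMap.ker (Fintype.linearCombination ℂ B)) +
      Module.finrank ℂ (Submodule.span ℂ (Set.range B)) = n := by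
  have h1 := LinearMap.finrank_range_add_finrank_ker (Fintype.linearCombination ℂ B)
  rw [Fintype.range_linearCombination, Module.finrank_fin_fun] at h1
  omega

/-- (b) -/
theorem partB (E K : IntermediateField ℚ ℂ) (hEK : E ≤ K) (n : ℕ) (κ : Type) [Fintype κ]
    (A : Fin n → κ → ℂ) (r : ℕ) (hA : ∀ i l, A i l ∈ K) (v : Fin n → ℂ)
    (hv : AlgebraicIndependent K v)
    (h2 : Module.finrank ℂ ((DK E ⊓ TT v).map (fam fun l => dL (cC v A l))) ≤ r) :
    rkD E (fun q : Fin n × κ => A q.1 q.2) ≤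
      rkD (FCl E (Sum.elim v (cC v A))) (fun q : Fin n × κ => A q.1 q.2) + r := by
  classical
  obtain ⟨a, ha⟩ : ∃ a : Fin n × κ → ℂ, a = fun q => A q.1 q.2 := ⟨_, rfl⟩
  rw [← ha]
  -- the linear map `u ↦ ∑ v_i u_il`
  let T : (Fin n × κ → ℂ) →ₗ[ℂ] (κ → ℂ) :=
    { toFun := fun u l => ∑ i, v i * u (i, l)
      map_add' := fun u w => by
        funext l
        simp only [Pi.add_apply, mul_add, Finset.sum_add_distrib]
      map_smul' := fun c u => by
        funext l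
        simp only [Pi.smul_apply, smul_eq_mul, RingHom.id_apply]
        rw [Finset.mul_sum]
        exact Finset.sum_congr rfl fun i _ => by ring }
  have hT : ∀ δ : Derivation ℚ ℂ ℂ, (∀ i, δ (v i) = 0) →
      T (fun q => δ (a q)) = fun l => δ (cC v A l) := by
    intro δ hδ
    funext l
    change ∑ i, v i * δ (a (i, l)) = δ (∑ i, v i * A i l)
    rw [map_sum]
    refine Finset.sum_congr rfl fun i _ => ?_
    rw [Derivation.leibniz, hδ i, ha]
    simp only [smul_eq_mul, mul_zero, add_zero]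
  have hlift : ∀ u ∈ Im E a, ∃ δ ∈ DK E, (∀ i, δ (v i) = 0) ∧ (fun q => δ (a q)) = u := by
    rintro u ⟨δ₀, hδ₀, rfl⟩
    obtain ⟨δ₁, hδ₁, h1⟩ := der_of hv (fun i => - δ₀ (v i))
    refine ⟨δ₀ + δ₁, Submodule.add_mem _ hδ₀ (DK_mono E K hEK hδ₁), fun i => ?_, ?_⟩
    · rw [Derivation.add_apply, h1, add_neg_cancel]
    · funext q
      rw [Derivation.add_apply]
      have h2 : δ₁ (a q) = 0 := by
        rw [ha]
        exact hδ₁ _ (hA _ _)
      rw [h2, add_zero]
      rfl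
  let ρ : Im E a →ₗ[ℂ] (κ → ℂ) := T.comp (Im E a).subtype
  have h3 := LinearMap.finrank_range_add_finrank_ker ρ
  have h4 : Module.finrank ℂ (LinearMap.range ρ) ≤ r := by
    refine le_trans (Submodule.finrank_mono ?_) h2
    rintro _ ⟨⟨u, hu⟩, rfl⟩
    obtain ⟨δ, hδ, hδv, rfl⟩ := hlift u hu
    refine ⟨δ, ⟨hδ, hδv⟩, ?_⟩
    exact (hT δ hδv).symm
  have h5 : Module.finrank ℂ (LinearMap.ker ρ) ≤ rkD (FCl E (Sum.elim v (cC v A))) a := by
    let ψ : LinearMap.ker ρ →ₗ[ℂ] Im (FCl E (Sum.elim v (cC v A))) a :=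
      LinearMap.codRestrict _ ((Im E a).subtype.comp (LinearMap.ker ρ).subtype) (by
        rintro ⟨⟨u, hu⟩, hk⟩
        obtain ⟨δ, hδ, hδv, rfl⟩ := hlift u hu
        have hk' : T (fun q => δ (a q)) = 0 := hk
        rw [hT δ hδv] at hk'
        refine in_Im a (der_FCl.2 ⟨hδ, ?_⟩)
        rintro (i | l)
        · exact hδv i
        · exact congrFun hk' l)
    refine LinearMap.finrank_le_finrank_of_injective (f := ψ) ?_
    intro x y hxy
    have h7 : x.1.1 = y.1.1 := congrArg (fun w => w.1) hxy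
    exact Subtype.ext (Subtype.ext h7)
  have h6 : rkD E a = Module.finrank ℂ (Im E a) := rfl
  omega

/-- (c) -/
theorem partC (K : IntermediateField ℚ ℂ) (n : ℕ) (κ : Type) [Fintype κ]
    (A : Fin n → κ → ℂ) (hA : ∀ i l, A i l ∈ K) (v : Fin n → ℂ)
    (hv : AlgebraicIndependent K v) (y : Fin n × κ → ℂ)
    (hy : ∀ l, ∑ i, v i * (A i l - y (i, l)) = 0) :
    rkD (FCl K v) y + Module.finrank ℂ (Submodule.span ℂ (Set.range fun i l => A i l - y (i, l))) ≤
      rkD K y := by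
  classical
  obtain ⟨z, hz⟩ : ∃ z : Fin n ⊕ (Fin n × κ) → ℂ, z = Sum.elim v y := ⟨_, rfl⟩
  let p₁ : Im K z →ₗ[ℂ] (Fin n → ℂ) := (LinearMap.funLeft ℂ ℂ Sum.inl).comp (Im K z).subtype
  let p₂ : Im K z →ₗ[ℂ] (Fin n × κ → ℂ) :=
    (LinearMap.funLeft ℂ ℂ Sum.inr).comp (Im K z).subtype
  have e1 : ∀ (δ : Derivation ℚ ℂ ℂ) i, δ (z (Sum.inl i)) = δ (v i) := fun δ i => by rw [hz]; rfl
  have e2 : ∀ (δ : Derivation ℚ ℂ ℂ) q, δ (z (Sum.inr q)) = δ (y q) := fun δ i => by rw [hz]; rfl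
  have h1 := LinearMap.finrank_range_add_finrank_ker p₁
  have h2 := LinearMap.finrank_range_add_finrank_ker p₂
  have h3 : Module.finrank ℂ (LinearMap.range p₁) = n := by
    have : LinearMap.range p₁ = ⊤ := by
      rw [LinearMap.range_eq_top]
      intro c
      obtain ⟨δ, hδ, hc⟩ := der_of hv c
      exact ⟨⟨_, in_Im z hδ⟩, funext fun i => (e1 δ i).trans (hc i)⟩
    rw [this, finrank_top, Module.finrank_fin_fun]
  have h4 : Module.finrank ℂ (Im (FCl K v) y) ≤ Module.finrank ℂ (LinearMap.ker p₁) := by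
    let W : Submodule ℂ (Fin n ⊕ (Fin n × κ) → ℂ) := (LinearMap.ker p₁).map (Im K z).subtype
    have hW : Module.finrank ℂ W = Module.finrank ℂ (LinearMap.ker p₁) :=
      Submodule.finrank_map_subtype_eq _ _
    have hle : Im (FCl K v) y ≤ W.map (LinearMap.funLeft ℂ ℂ Sum.inr) := by
      rintro _ ⟨δ, hδ, rfl⟩
      obtain ⟨hδ1, hδ2⟩ := der_FCl.1 hδ
      refine ⟨fun o => δ (z o), ⟨⟨_, in_Im z hδ1⟩, ?_, rfl⟩, ?_⟩
      · exact LinearMap.mem_ker.2 (funext fun i => (e1 δ i).trans (hδ2 i))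
      · funext q
        exact e2 δ q
    calc Module.finrank ℂ (Im (FCl K v) y)
        ≤ Module.finrank ℂ (W.map (LinearMap.funLeft ℂ ℂ Sum.inr)) := Submodule.finrank_mono hle
      _ ≤ Module.finrank ℂ W := Submodule.finrank_map_le _ _
      _ = _ := hW
  have h5 : Module.finrank ℂ (LinearMap.range p₂) ≤ Module.finrank ℂ (Im K y) := by
    apply Submodule.finrank_mono
    rintro _ ⟨⟨_, ⟨δ, hδ, rfl⟩⟩, rfl⟩
    exact ⟨δ, hδ, funext fun q => (e2 δ q).symm⟩
  have h6 : Module.finrank ℂ (LinearMap.ker p₂) ≤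
      Module.finrank ℂ (LinearMap.ker
        (Fintype.linearCombination ℂ (fun i l => A i l - y (i, l) : Fin n → κ → ℂ))) := by
    let ψ : LinearMap.ker p₂ →ₗ[ℂ] LinearMap.ker
        (Fintype.linearCombination ℂ (fun i l => A i l - y (i, l) : Fin n → κ → ℂ)) :=
      LinearMap.codRestrict _ (p₁.comp (LinearMap.ker p₂).subtype) (by
        rintro ⟨⟨_, ⟨δ, hδ, rfl⟩⟩, hk⟩
        have hk' : ∀ q, δ (y q) = 0 := fun q => (e2 δ q).symm.trans (congrFun hk q)
        rw [LinearMap.mem_ker, Fintype.linearCombination_apply]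
        funext l
        have h7 := congrArg δ (hy l)
        rw [map_sum, map_zero] at h7
        rw [Finset.sum_apply, Pi.zero_apply, ← h7]
        refine Finset.sum_congr rfl fun i _ => ?_
        rw [Derivation.leibniz, map_sub, hδ _ (hA i l), hk', sub_zero, smul_zero, zero_add,
          smul_eq_mul, Pi.smul_apply, smul_eq_mul, mul_comm]
        change _ * δ (z (Sum.inl i)) = _
        rw [e1])
    refine LinearMap.finrank_le_finrank_of_injective (f := ψ) ?_
    rintro ⟨⟨u, hu⟩, hk⟩ ⟨⟨w, hw⟩, hk'⟩ h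
    apply Subtype.ext
    apply Subtype.ext
    funext o
    have h8 : p₁ ⟨u, hu⟩ = p₁ ⟨w, hw⟩ := congrArg Subtype.val h
    have h9 : p₂ ⟨u, hu⟩ = p₂ ⟨w, hw⟩ := (LinearMap.mem_ker.1 hk).trans (LinearMap.mem_ker.1 hk').symm
    rcases o with i | q
    · exact congrFun h8 i
    · exact congrFun h9 q
  have h7 := ker_dim (fun i l => A i l - y (i, l) : Fin n → κ → ℂ)
  have h8 : rkD (FCl K v) y = Module.finrank ℂ (Im (FCl K v) y) := rfl
  have h9 : rkD K y = Module.finrank ℂ (Im K y) := rfl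
  omega

end I_CntL

open I_CntL I_Tan I_LL in
/-- **L4** -/
theorem CntL_pf (h1 : S_CopyF) (h2 : S_RkV) : S_CntL := by
  classical
  intro E K hE hK hKc hEK n κ _ A r hA hr
  obtain ⟨v, hv⟩ := I_HilbW.exists_v K hKc n
  obtain ⟨a, ha⟩ : ∃ a : Fin n × κ → ℂ, a = fun q => A q.1 q.2 := ⟨_, rfl⟩
  obtain ⟨Kv, hKv⟩ : ∃ Kv, Kv = FCl E (Sum.elim v (cC v A)) := ⟨_, rfl⟩
  obtain ⟨L, hL⟩ : ∃ L, L = FCl K v := ⟨_, rfl⟩
  have hLc : Countable L := by rw [hL]; exact FCl_cnt K hKc v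
  have hKL : K ≤ L := by rw [hL]; exact le_FCl K v
  have hvL : ∀ i, v i ∈ L := fun i => by rw [hL]; exact mem_FCl K v i
  have hcL : ∀ l, cC v A l ∈ L := fun l =>
    sum_mem fun i _ => mul_mem (hvL i) (hKL (hA i l))
  have hle : Kv ≤ L := by
    intro x hx
    refine I_Rat.mem_of_killed (by rw [hL]; exact FCl_acl K v) x fun δ hδ => ?_
    rw [hKv] at hx
    refine (der_FCl.2 ⟨fun w hw => hδ w (hKL (hEK hw)), ?_⟩ :
      δ ∈ DK (FCl E (Sum.elim v (cC v A)))) x hx
    rintro (i | l)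
    · exact hδ _ (hvL i)
    · exact hδ _ (hcL l)
  obtain ⟨y, hy1, hy2⟩ := h1 Kv L hLc hle (Fin n × κ) a
  have hEKv : E ≤ Kv := by rw [hKv]; exact le_FCl E _
  have hvK : ∀ i, v i ∈ Kv := fun i => by
    rw [hKv]
    exact mem_FCl E (Sum.elim v (cC v A)) (Sum.inl i)
  have hcK : ∀ l, cC v A l ∈ Kv := fun l => by
    rw [hKv]
    exact mem_FCl E (Sum.elim v (cC v A)) (Sum.inr l)
  -- (a)
  have hD : rkD E y = rkD E a := rkD_copy a y fun P => rel_mono hEKv a y hy1 P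
  have hrel : ∀ l, ∑ i, v i * (A i l - y (i, l)) = 0 := by
    intro l
    let P : MvPolynomial (Fin n × κ) Kv :=
      ∑ i, C (⟨v i, hvK i⟩ : Kv) * X (i, l) - C (⟨cC v A l, hcK l⟩ : Kv)
    have hP : ∀ b : Fin n × κ → ℂ, aeval b P = ∑ i, v i * b (i, l) - cC v A l := by
      intro b
      simp only [P, map_sub, map_sum, map_mul, aeval_X, algHom_C]
      rfl
    have h3 : aeval a P = 0 := by
      rw [hP, ha]
      exact sub_self _
    have h4 := (hy1 P).1 h3
    rw [hP] at h4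
    simp only [mul_sub, Finset.sum_sub_distrib]
    rw [sub_eq_zero] at h4 ⊢
    exact h4.symm
  -- (b)
  have hb := partB E K hEK n κ A r hA v hv (h2 E n κ A r hr v)
  rw [← ha, ← hKv] at hb
  obtain ⟨s, hs⟩ := exists_ind Kv a
  have hg : rkD Kv a ≤ rkD L y := le_rkD y s (hy2 _ s hs)
  -- (c)
  have hc := partC K n κ A hA v hv y hrel
  rw [← hL] at hc
  refine ⟨fun i l => y (i, l), ?_, ?_⟩
  · rw [← ha]
    exact hD
  · rw [← ha]
    change rkD E a + Module.finrank ℂ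
      (Submodule.span ℂ (Set.range fun i l => A i l - y (i, l))) ≤ rkD K y + r
    omega

end Pool.Agent.Work.MP_8da9ea_nt.MX
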