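import Pool.Agent.Work.MP_8da9ea_nt.MX.StmtsF

/-!
# Item CopyF: free copy of a tuple
-/

set_option autoImplicit false

namespace Pool.Agent.Work.MP_8da9ea_nt.MX

open MvPolynomial Pool.Agent.Work.MP_327059_nt.GL Pool.Agent.Work.MP_8da9ea_nt.S
  Pool.Agent.Work.MP_8da9ea_nt.EB

namespace I_CopyF

open AlgebraicIndependent

/-- Equal relations give equal independent subfamilies. -/
theorem indep_iff (K : IntermediateField ℚ ℂ) {J ι : Type} (a a' : J → ℂ)
    (h : ∀ P : MvPolynomial J K, aeval a P = 0 ↔ aeval a' P = 0) (t : ι → J) :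
    AlgebraicIndependent K (fun i => a (t i)) ↔ AlgebraicIndependent K (fun i => a' (t i)) := by
  have h1 : ∀ (b : J → ℂ) (p : MvPolynomial ι K),
      aeval (fun i => b (t i)) p = aeval b (rename t p) := by
    intro b p
    rw [aeval_rename]
    rfl
  simp only [algebraicIndependent_iff, h1]
  constructor
  · intro H p hp
    exact H p ((h _).mpr hp)
  · intro H p hp
    exact H p ((h _).mp hp)

/-- The embedding of `K(a)`. -/
theorem exists_copy (K : IntermediateField ℚ ℂ) {J : Type} (a : J → ℂ) (I : Set ℂ)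
    (hI : AlgebraicIndepOn K id I) (hIa : I ⊆ Set.range a)
    (halg : ∀ j, IsAlgebraic (Algebra.adjoin K I) (a j)) (ξ : I → ℂ)
    (hξ : AlgebraicIndependent K ξ) :
    ∃ a' : J → ℂ, (∀ P : MvPolynomial J K, aeval a P = 0 ↔ aeval a' P = 0) ∧
      ∀ (x : I) (j : J), a j = x → a' j = ξ x := by
  have hI' : AlgebraicIndependent K (fun x : I => (x : ℂ)) := hI
  let A₀ : IntermediateField K ℂ := IntermediateField.adjoin K (Set.range fun x : I => (x : ℂ))
  let f : A₀ →ₐ[K] ℂ := (IntermediateField.adjoin K (Set.range ξ)).val.comp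
    (hξ.aevalEquivField.toAlgHom.comp hI'.aevalEquivField.symm.toAlgHom)
  have hf : ∀ (x : I) (hx : (x : ℂ) ∈ A₀), f ⟨(x : ℂ), hx⟩ = ξ x := by
    intro x hx
    have h1 : hI'.aevalEquivField.symm ⟨(x : ℂ), hx⟩ = algebraMap _ _ (X x : MvPolynomial I K) := by
      rw [AlgEquiv.symm_apply_eq]
      apply Subtype.ext
      rw [aevalEquivField_algebraMap_apply_coe, aeval_X]
    change ((hξ.aevalEquivField (hI'.aevalEquivField.symm ⟨(x : ℂ), hx⟩) :
      IntermediateField.adjoin K (Set.range ξ)) : ℂ) = ξ x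
    rw [h1, aevalEquivField_algebraMap_apply_coe, aeval_X]
  have hint : ∀ s ∈ Set.range a, IsIntegral A₀ s ∧
      ((minpoly A₀ s).map f.toRingHom).Splits := by
    rintro s ⟨j, rfl⟩
    refine ⟨?_, IsAlgClosed.splits _⟩
    rw [← isAlgebraic_iff_isIntegral]
    have hsub : Algebra.adjoin K I ≤ A₀.toSubalgebra := by
      apply Algebra.adjoin_le
      intro x hx
      exact IntermediateField.subset_adjoin K _ ⟨⟨x, hx⟩, rfl⟩
    exact (halg j).ringHom_of_comp_eq (Subalgebra.inclusion hsub).toRingHom (RingHom.id ℂ)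
      (Subalgebra.inclusion_injective hsub) rfl
  obtain ⟨φ, hφ⟩ := IntermediateField.exists_algHom_adjoin_of_splits' f hint
  have hmem : ∀ j, a j ∈ IntermediateField.adjoin A₀ (Set.range a) := fun j =>
    IntermediateField.subset_adjoin _ _ ⟨j, rfl⟩
  have htow : IsScalarTower K (IntermediateField.adjoin A₀ (Set.range a)) ℂ :=
    IsScalarTower.of_algebraMap_eq fun _ => rfl
  refine ⟨fun j => φ ⟨a j, hmem j⟩, fun P => ?_, fun x j hj => ?_⟩
  · have h1 : aeval a P = ((aeval (fun j => (⟨a j, hmem j⟩ :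
        IntermediateField.adjoin A₀ (Set.range a))) P :
        IntermediateField.adjoin A₀ (Set.range a)) : ℂ) := by
      have := (MvPolynomial.aeval_algebraMap_apply (A := IntermediateField.adjoin A₀ (Set.range a))
        ℂ (fun j => (⟨a j, hmem j⟩ : IntermediateField.adjoin A₀ (Set.range a))) P)
      exact this
    have h2 : aeval (fun j => φ ⟨a j, hmem j⟩) P = φ (aeval (fun j => (⟨a j, hmem j⟩ :
        IntermediateField.adjoin A₀ (Set.range a))) P) := by
      rw [← AlgHom.comp_apply, MvPolynomial.comp_aeval]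
    rw [h1, h2]
    constructor
    · intro h
      rw [show (aeval (fun j => (⟨a j, hmem j⟩ :
        IntermediateField.adjoin A₀ (Set.range a))) P) = 0 from Subtype.ext h, map_zero]
    · intro h
      have h3 := (map_eq_zero_iff φ φ.toRingHom.injective).mp h
      rw [h3]
      rfl
  · have hx : (x : ℂ) ∈ A₀ := IntermediateField.subset_adjoin K _ ⟨x, rfl⟩
    have h1 := congrArg (fun g => g ⟨(x : ℂ), hx⟩) hφ
    have h2 : φ ⟨a j, hmem j⟩ = f ⟨(x : ℂ), hx⟩ := by
      rw [← h1]
      change φ _ = φ _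
      congr 1
      exact Subtype.ext hj
    rw [← hf x hx, ← h2]

/-- Algebraicity over a larger field. -/
theorem alg_up (K L : IntermediateField ℚ ℂ) (hKL : K ≤ L) (S : Set ℂ) {x : ℂ}
    (h : IsAlgebraic (Algebra.adjoin K S) x) : IsAlgebraic (Algebra.adjoin L S) x := by
  have hmem : ∀ y ∈ Algebra.adjoin K S, y ∈ Algebra.adjoin L S := by
    intro y hy
    induction hy using Algebra.adjoin_induction with
    | mem x hx => exact Algebra.subset_adjoin hx
    | algebraMap r => exact (Algebra.adjoin L S).algebraMap_mem ⟨(r : ℂ), hKL r.2⟩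
    | add x y _ _ hx hy => exact add_mem hx hy
    | mul x y _ _ hx hy => exact mul_mem hx hy
  let g : Algebra.adjoin K S →+* Algebra.adjoin L S :=
    RingHom.codRestrict (Algebra.adjoin K S).val.toRingHom (Algebra.adjoin L S)
      (fun y => hmem y y.2)
  refine h.ringHom_of_comp_eq g (RingHom.id ℂ) ?_ ?_
  · intro y z hyz
    exact Subtype.ext (congrArg (fun w : Algebra.adjoin L S => (w : ℂ)) hyz)
  · ext y
    rfl

theorem indep_down (K L : IntermediateField ℚ ℂ) (hKL : K ≤ L) {ι : Type} (x : ι → ℂ)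
    (h : AlgebraicIndependent L x) : AlgebraicIndependent K x := by
  let _ : Algebra K L := (IntermediateField.inclusion hKL).toRingHom.toAlgebra
  have : IsScalarTower K L ℂ := IsScalarTower.of_algebraMap_eq fun _ => rfl
  exact h.restrictScalars (fun y z hyz =>
    Subtype.ext (congrArg (fun w : L => (w : ℂ)) hyz))

end I_CopyF

open I_CopyF AlgebraicIndependent in
theorem CopyF_pf : S_CopyF := by
  intro K L hL hKL J _ a
  obtain ⟨I, hIb⟩ := (matroid K ℂ).exists_isBasis (Set.range a)
  obtain ⟨hI1, hI2, hI3⟩ := matroid_isBasis_iff.mp hIb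
  have hIfin : I.Finite := (Set.finite_range a).subset hI2
  have : Finite I := hIfin.to_subtype
  obtain ⟨ξ, hξ, -⟩ := DenseK_main L I (fun _ => 0) 1 one_pos
  have hξK := indep_down K L hKL ξ hξ
  obtain ⟨a', ha', hξa⟩ := exists_copy K a I hI1 hI2 (fun j => hI3 _ ⟨j, rfl⟩) ξ hξK
  refine ⟨a', ha', fun k s hs => ?_⟩
  have hT : (matroid K ℂ).Indep (Set.range fun i => a (s i)) := by
    rw [matroid_indep_iff]
    exact hs.coe_range
  obtain ⟨I₁, hI₁b, hT1⟩ := hT.subset_isBasis_of_subset
    (X := Set.range a) (by rintro _ ⟨i, rfl⟩; exact ⟨_, rfl⟩)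
  obtain ⟨hJ1, hJ2, hJ3⟩ := matroid_isBasis_iff.mp hI₁b
  have hcard : I₁.encard = I.encard := hI₁b.encard_eq_encard hIb
  choose t₁ ht₁ using fun x : I₁ => hJ2 x.2
  have hJ1' : AlgebraicIndependent K (fun x : I₁ => a (t₁ x)) := by
    have : (fun x : I₁ => a (t₁ x)) = fun x : I₁ => (x : ℂ) := funext ht₁
    rw [this]
    exact hJ1
  have hJ1'' : AlgebraicIndependent K (fun x : I₁ => a' (t₁ x)) := (indep_iff K a a' ha' t₁).mp hJ1'
  have hinj : Function.Injective (fun x : I₁ => a' (t₁ x)) := hJ1''.injective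
  set R₁ : Set ℂ := Set.range fun x : I₁ => a' (t₁ x) with hR₁
  -- all `a' j` are algebraic over `L(R₁)`
  have halg : ∀ j, IsAlgebraic (Algebra.adjoin L R₁) (a' j) := by
    intro j
    apply alg_up K L hKL
    by_contra hj
    have h1 := (hJ1''.option_iff_transcendental (a' j)).mpr hj
    have h2 : (fun o : Option I₁ => o.elim (a' j) fun x => a' (t₁ x)) =
        fun o : Option I₁ => a' (o.elim j t₁) := by
      funext o
      cases o <;> rfl
    rw [h2, ← indep_iff K a a' ha'] at h1
    have h3 : (fun o : Option I₁ => a (o.elim j t₁)) =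
        fun o : Option I₁ => o.elim (a j) fun x => a (t₁ x) := by
      funext o
      cases o <;> rfl
    rw [h3, hJ1'.option_iff_transcendental] at h1
    apply h1
    have h4 : (fun x : I₁ => a (t₁ x)) = fun x : I₁ => (x : ℂ) := funext ht₁
    rw [h4, Subtype.range_coe_subtype]
    exact hJ3 _ ⟨j, rfl⟩
  -- ranks over `L`
  have hξI : (matroid L ℂ).Indep (Set.range ξ) := by
    rw [matroid_indep_iff]
    exact hξ.coe_range
  have hsub : Set.range ξ ⊆ (matroid L ℂ).closure R₁ := by
    rintro _ ⟨x, rfl⟩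
    obtain ⟨j, hj⟩ := hI2 x.2
    rw [matroid_closure_eq, ← hξa x j hj, SetLike.mem_coe, Subalgebra.mem_algebraicClosure]
    exact halg j
  have h1 : (Set.range ξ).encard ≤ (matroid L ℂ).eRk R₁ := by
    rw [← (matroid L ℂ).eRk_closure_eq]
    exact hξI.encard_le_eRk_of_subset hsub
  have h2 : (Set.range ξ).encard = I.encard := by
    rw [← Set.image_univ, hξ.injective.encard_image, Set.encard_univ]
    rfl
  have h3 : R₁.encard = I.encard := by
    rw [← hcard, hR₁, ← Set.image_univ, hinj.encard_image, Set.encard_univ]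
    rfl
  have hRfin : R₁.Finite := by
    rw [← Set.encard_ne_top_iff, h3]
    exact Set.encard_ne_top_iff.mpr hIfin
  have hind : (matroid L ℂ).Indep R₁ := by
    rw [Matroid.indep_iff_eRk_eq_encard_of_finite hRfin]
    refine le_antisymm ((matroid L ℂ).eRk_le_encard _) ?_
    rw [h3, ← h2]
    exact h1
  have hind' : AlgebraicIndependent L (fun x : I₁ => a' (t₁ x)) :=
    (algebraicIndependent_subtype_range hinj).mp hind
  have hmem : ∀ i, a (s i) ∈ I₁ := fun i => hT1 ⟨i, rfl⟩
  have hsi : Function.Injective (fun i => (⟨a (s i), hmem i⟩ : I₁)) := by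
    intro i i' h
    exact hs.injective (congrArg (fun w : I₁ => (w : ℂ)) h)
  have hfin := hind'.comp _ hsi
  have heq : (fun i => a' (s i)) = (fun x : I₁ => a' (t₁ x)) ∘ fun i => (⟨a (s i), hmem i⟩ : I₁) := by
    funext i
    have h5 : a (s i) = a (t₁ ⟨a (s i), hmem i⟩) := (ht₁ ⟨a (s i), hmem i⟩).symm
    have h6 := (ha' (X (s i) - X (t₁ ⟨a (s i), hmem i⟩))).mp (by simp only [map_sub, aeval_X]; rw [← h5, sub_self])
    simp only [map_sub, aeval_X] at h6
    exact sub_eq_zero.mp h6
  rw [heq]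
  exact hfin

end Pool.Agent.Work.MP_8da9ea_nt.MX
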