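import Pool.Agent.Work.MP_8da9ea_nt.MX.StmtsT
import Pool.Agent.Work.MP_8da9ea_nt.EB.I_CritE
import Pool.Agent.Work.MP_8da9ea_nt.EB.I_LocInv
import Pool.Agent.Work.MP_327059_nt.GL.Asm

/-!
# Mixed block, item T7: the criterion step
-/

set_option autoImplicit false

namespace Pool.Agent.Work.MP_8da9ea_nt.MX

open MvPolynomial Metric Filter Topology Pool.Agent.Work.MP_327059_nt.GL
  Pool.Agent.Work.MP_8da9ea_nt.S Pool.Agent.Work.MP_8da9ea_nt.EB

namespace I_CritM

/-- Uniform constants for finitely many conditions. -/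
lemma unif {α : Type} [Finite α] (Q : α → ℝ → ℝ → Prop)
    (hm : ∀ a C C' η η', C ≤ C' → 0 < η' → η' ≤ η → Q a C η → Q a C' η')
    (h : ∀ a, ∃ C η, 0 < η ∧ Q a C η) : ∃ C η, 1 ≤ C ∧ 0 < η ∧ ∀ a, Q a C η := by
  have h1 : ∀ a, ∀ᶠ C : ℝ in atTop, ∀ᶠ η : ℝ in 𝓝[>] 0, Q a C η := by
    intro a
    obtain ⟨C, η, hη, hQ⟩ := h a
    filter_upwards [eventually_ge_atTop C] with C' hC'
    have h2 : ∀ᶠ η' : ℝ in 𝓝[>] 0, η' ∈ Set.Ioc 0 η := Ioc_mem_nhdsGT hη
    filter_upwards [h2] with η' hη'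
    exact hm a C C' η η' hC' hη'.1 hη'.2 hQ
  have h2 : ∀ᶠ C : ℝ in atTop, ∀ a, ∀ᶠ η : ℝ in 𝓝[>] 0, Q a C η := eventually_all.2 h1
  obtain ⟨C, hC, hC1⟩ := (h2.and (eventually_ge_atTop 1)).exists
  have h3 : ∀ᶠ η : ℝ in 𝓝[>] 0, ∀ a, Q a C η := eventually_all.2 hC
  obtain ⟨η, hη, hη0⟩ := (h3.and self_mem_nhdsWithin).exists
  exact ⟨C, η, hC1, hη0, hη⟩

/-- local Lipschitz bound for `Z` -/
lemma lipZ {τ μ : ℂ} (hτ : 0 < τ.im) {u₀ : ℂ} (hu : u₀ ∉ Lam τ) : ∃ L r : ℝ, 0 ≤ L ∧ 0 < r ∧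
    ∀ v, ‖v - u₀‖ ≤ r → ‖ze τ μ v - ze τ μ u₀‖ ≤ L * ‖v - u₀‖ := by
  have h1 : HasDerivAt (fun z => ze τ μ z) (μ * (-wp 1 τ u₀)) u₀ :=
    (hasDerivAt_zt_z hτ hu).const_mul μ
  have h2 := h1.isBigO_sub
  rw [Asymptotics.isBigO_iff'] at h2
  obtain ⟨L, hL, h2⟩ := h2
  obtain ⟨r, hr, h3⟩ := Metric.eventually_nhds_iff_ball.1 h2
  refine ⟨L, r / 2, hL.le, by positivity, fun v hv => ?_⟩
  refine h3 v ?_
  rw [mem_ball, dist_eq_norm]
  linarith

/-- local logarithm -/
lemma lipE (u₀ : ℂ) : ∃ L r : ℝ, 0 ≤ L ∧ 0 < r ∧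
    ∀ y, ‖y - Complex.exp u₀‖ ≤ r → ∃ v, Complex.exp v = y ∧
      ‖v - u₀‖ ≤ L * ‖y - Complex.exp u₀‖ := by
  have he : 0 < ‖Complex.exp u₀‖ := norm_pos_iff.2 (Complex.exp_ne_zero _)
  refine ⟨3 / 2 / ‖Complex.exp u₀‖, ‖Complex.exp u₀‖ / 2, by positivity, by positivity, ?_⟩
  intro y hy
  set w : ℂ := (y - Complex.exp u₀) / Complex.exp u₀ with hw
  have hwn : ‖w‖ = ‖y - Complex.exp u₀‖ / ‖Complex.exp u₀‖ := by rw [hw, norm_div]
  have hw2 : ‖w‖ ≤ 1 / 2 := by
    rw [hwn, div_le_iff₀ he]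
    linarith
  have h1w : (1 : ℂ) + w ≠ 0 := by
    intro h0
    have : w = -1 := by linear_combination h0
    rw [this, norm_neg, norm_one] at hw2
    norm_num at hw2
  refine ⟨u₀ + Complex.log (1 + w), ?_, ?_⟩
  · rw [Complex.exp_add, Complex.exp_log h1w, hw]
    have := Complex.exp_ne_zero u₀
    field_simp
    ring
  · have h2 := Complex.norm_log_one_add_half_le_self hw2
    rw [add_sub_cancel_left]
    refine h2.trans (le_of_eq ?_)
    rw [hwn]
    ring

section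

variable {ι : Type} [Fintype ι]

lemma pcI_mul {n : ℕ} (b : ι → ℂ) (x : Fin n → ℂ) (s : Fin n → ℤ) (j : ι) :
    pcI (fun i j => b j * x i) s j = b j * cmb s x := by
  unfold pcI cmb
  rw [Finset.mul_sum]
  refine Finset.sum_congr rfl fun i _ => ?_
  ring

/-- Small multiples of points close to the given ones are not lattice points. -/
lemma near_good {τ : ℂ} (hτ : 0 < τ.im) {n : ℕ} {ty : ι → Ty} {b : ι → ℂ} {x : Fin n → ℂ}
    (hNT : NTM τ ty b x) (K : ℕ) : ∃ η : ℝ, 0 < η ∧ ∀ u : Fin n → ι → ℂ,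
      (∀ i j, ‖u i j - b j * x i‖ ≤ η) → ∀ s : Fin n → ℤ, s ≠ 0 → (∀ i, |s i| ≤ (K : ℤ)) →
        ∀ j, ty j = Ty.ell → pcI u s j ∉ Lam τ := by
  have hev : ∀ᶠ u : Fin n → ι → ℂ in 𝓝 (fun i j => b j * x i),
      ∀ s ∈ {s : Fin n → ℤ | s ≠ 0 ∧ ∀ i, |s i| ≤ (K : ℤ)}, ∀ j ∈ {j : ι | ty j = Ty.ell},
        pcI u s j ∉ Lam τ := by
    have hfin : {s : Fin n → ℤ | s ≠ 0 ∧ ∀ i, |s i| ≤ (K : ℤ)}.Finite := by
      refine (Set.finite_Icc (fun _ : Fin n => -(K : ℤ)) (fun _ => (K : ℤ))).subset ?_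
      rintro s ⟨_, hs⟩
      constructor
      · intro i; exact (abs_le.1 (hs i)).1
      · intro i; exact (abs_le.1 (hs i)).2
    rw [Filter.eventually_all_finite hfin]
    intro s hs
    rw [Filter.eventually_all_finite (Set.toFinite _)]
    intro j hj
    have hc : Continuous (fun u : Fin n → ι → ℂ => pcI u s j) := by
      unfold pcI
      fun_prop
    have h0 : pcI (fun i j => b j * x i) s j ∈ (Lam τ)ᶜ := by
      rw [pcI_mul]
      exact hNT s hs.1 j hj
    exact hc.continuousAt.eventually ((Lam_compl_open hτ).mem_nhds h0)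
  obtain ⟨ε, hε, hball⟩ := Metric.eventually_nhds_iff_ball.1 hev
  refine ⟨ε / 2, by positivity, ?_⟩
  intro u hu s hs0 hs j hj
  refine hball u ?_ s ⟨hs0, hs⟩ j hj
  rw [mem_ball]
  refine lt_of_le_of_lt ?_ (half_lt_self hε)
  rw [dist_pi_le_iff (by positivity)]
  intro i
  rw [dist_pi_le_iff (by positivity)]
  intro j
  rw [dist_eq_norm]
  exact hu i j

/-- A polynomial from the coefficients. -/
lemma mkF {W : ℕ} (hW : 1 ≤ W) (r : (ι → Fin W) → ℂ) (hr : r ≠ 0) :
    ∃ F : MvPolynomial ι ℂ, F ≠ 0 ∧ (∀ j, F.degreeOf j < W) ∧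
      ∀ v : ι → ℂ, eval v F = (open Classical in ∑ a : ι → Fin W, r a * ∏ j, (v j) ^ (a j : ℕ)) := by
  classical
  set D : (ι → Fin W) → (ι →₀ ℕ) := fun a => Finsupp.equivFunOnFinite.symm (fun j => (a j : ℕ))
    with hD
  have hDinj : Function.Injective D := by
    intro a a' h
    funext j
    have := DFunLike.congr_fun h j
    simp only [hD, Finsupp.equivFunOnFinite_symm_apply_apply] at this
    exact Fin.ext this
  set F : MvPolynomial ι ℂ := ∑ a : ι → Fin W, monomial (D a) (r a) with hF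
  have hco : ∀ d, F.coeff d = ∑ a : ι → Fin W, if D a = d then r a else 0 := by
    intro d
    rw [hF, coeff_sum]
    refine Finset.sum_congr rfl fun a _ => ?_
    rw [coeff_monomial]
  refine ⟨F, ?_, ?_, ?_⟩
  · obtain ⟨a, ha⟩ := Function.ne_iff.1 hr
    intro h0
    have h1 : F.coeff (D a) = r a := by
      rw [hco, Finset.sum_eq_single a]
      · simp
      · intro a' _ hne
        rw [if_neg (fun h => hne (hDinj h))]
      · intro h; exact absurd (Finset.mem_univ a) h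
    rw [h0, coeff_zero] at h1
    exact ha h1.symm
  · intro j
    rw [degreeOf_lt_iff (by omega)]
    intro d hd
    rw [mem_support_iff, hco] at hd
    obtain ⟨a, _, ha⟩ := Finset.exists_ne_zero_of_sum_ne_zero hd
    have hda : D a = d := by
      by_contra hne
      exact ha (if_neg hne)
    rw [← hda]
    simp only [hD, Finsupp.equivFunOnFinite_symm_apply_apply]
    exact (a j).isLt
  · intro v
    rw [hF, map_sum]
    refine Finset.sum_congr rfl fun a _ => ?_
    rw [eval_monomial, Finsupp.prod_fintype _ _ (by simp)]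
    simp only [hD, Finsupp.equivFunOnFinite_symm_apply_apply]

/-- The curve equation. -/
noncomputable def EQ {n : ℕ} (i : Fin n) (j : ι) : MvPolynomial (VM n ι) ℤ :=
  X (Sum.inr (Sum.inr (i, j, true))) ^ 2 - 4 * X (Sum.inr (Sum.inr (i, j, false))) ^ 3 +
    X (Sum.inl 0) * X (Sum.inr (Sum.inr (i, j, false))) + X (Sum.inl 1)

lemma EQ_aeval {n : ℕ} (i : Fin n) (j : ι) (θ : VM n ι → ℂ) :
    aeval θ (EQ i j) = θ (Sum.inr (Sum.inr (i, j, true))) ^ 2 -
      4 * θ (Sum.inr (Sum.inr (i, j, false))) ^ 3 +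
      θ (Sum.inl 0) * θ (Sum.inr (Sum.inr (i, j, false))) + θ (Sum.inl 1) := by
  unfold EQ
  simp

lemma pt0 (τ μ : ℂ) {n : ℕ} (ty : ι → Ty) (b : ι → ℂ) (c : ι → ι → ℂ) (u : Fin n → ι → ℂ) :
    ptM τ μ ty b c u (Sum.inl 0) = μ ^ 4 * gg2 τ := by simp [ptM]

lemma pt1 (τ μ : ℂ) {n : ℕ} (ty : ι → Ty) (b : ι → ℂ) (c : ι → ι → ℂ) (u : Fin n → ι → ℂ) :
    ptM τ μ ty b c u (Sum.inl 1) = μ ^ 6 * gg3 τ := by simp [ptM]

lemma ptx (τ μ : ℂ) {n : ℕ} (ty : ι → Ty) (b : ι → ℂ) (c : ι → ι → ℂ) (u : Fin n → ι → ℂ)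
    (i : Fin n) (j : ι) :
    ptM τ μ ty b c u (Sum.inr (Sum.inr (i, j, false))) = PN τ μ ty c (u i) j := by simp [ptM]

lemma pty (τ μ : ℂ) {n : ℕ} (ty : ι → Ty) (b : ι → ℂ) (c : ι → ι → ℂ) (u : Fin n → ι → ℂ)
    (i : Fin n) (j : ι) :
    ptM τ μ ty b c u (Sum.inr (Sum.inr (i, j, true))) =
      if ty j = Ty.ell then ye τ μ (u i j) else 0 := by simp [ptM]

open Classical in
lemma ptc (τ μ : ℂ) {n : ℕ} (ty : ι → Ty) (b : ι → ℂ) (c : ι → ι → ℂ) (u : Fin n → ι → ℂ)
    (i j : ι) :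
    ptM τ μ ty b c u (Sum.inr (Sum.inl (i, j))) =
      if ty i = Ty.add ∧ ty j = Ty.ell then c i j else
        if i = j ∧ ty i = Ty.add then b i else 0 := by simp [ptM]

lemma ptc_ae (τ μ : ℂ) {n : ℕ} (ty : ι → Ty) (b : ι → ℂ) (c : ι → ι → ℂ) (u : Fin n → ι → ℂ)
    {i j : ι} (hi : ty i = Ty.add) (hj : ty j = Ty.ell) :
    ptM τ μ ty b c u (Sum.inr (Sum.inl (i, j))) = c i j := by
  rw [ptc, if_pos ⟨hi, hj⟩]

/-- Elliptic coordinates close to the true ones. -/
lemma ellPt {τ μ : ℂ} (hN : Nrm τ μ) {u₀ : ℂ} (hu : u₀ ∉ Lam τ) (hy : wpd τ u₀ ≠ 0) :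
    ∃ C η : ℝ, 0 < η ∧ ∀ (x' y' : ℂ) (ε : ℝ), ε ≤ η → ‖x' - xe τ μ u₀‖ ≤ ε →
      ‖y' - ye τ μ u₀‖ ≤ ε → y' ^ 2 - 4 * x' ^ 3 + (μ ^ 4 * gg2 τ) * x' + μ ^ 6 * gg3 τ = 0 →
      ∃ u, xe τ μ u = x' ∧ ye τ μ u = y' ∧ ‖u - u₀‖ ≤ C * ε ∧
        ‖ze τ μ u - ze τ μ u₀‖ ≤ C * ε := by
  obtain ⟨CL, eL, hCL, heL, hLo⟩ := LocInv_pf τ hN.im u₀ hu hy
  obtain ⟨L, r, hL, hr, hLip⟩ := lipZ (μ := μ) hN.im hu
  have hμ : 0 < ‖μ‖ := norm_pos_iff.2 hN.mu
  set κ : ℝ := 1 / ‖μ‖ ^ 2 + 1 / ‖μ‖ ^ 3 with hκ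
  have hκ2 : 1 / ‖μ‖ ^ 2 ≤ κ := by
    have : 0 < 1 / ‖μ‖ ^ 3 := by positivity
    linarith
  have hκ3 : 1 / ‖μ‖ ^ 3 ≤ κ := by
    have : 0 < 1 / ‖μ‖ ^ 2 := by positivity
    linarith
  have hκ0 : 0 < κ := by positivity
  have hCκ : 0 < CL * κ := by positivity
  refine ⟨(1 + L) * (CL * κ), min (eL / κ) (r / (CL * κ)), by positivity, ?_⟩
  intro x' y' ε hε hx hyy heq
  have hε0 : 0 ≤ ε := (norm_nonneg _).trans hx
  have he1 : κ * ε ≤ eL := by
    have := hε.trans (min_le_left _ _)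
    rwa [le_div_iff₀ hκ0, mul_comm] at this
  have he2 : CL * κ * ε ≤ r := by
    have := hε.trans (min_le_right _ _)
    rwa [le_div_iff₀ hCκ, mul_comm] at this
  have hxc : ‖x' / μ ^ 2 - wp 1 τ u₀‖ ≤ κ * ε := by
    have h2 : x' / μ ^ 2 - wp 1 τ u₀ = (x' - xe τ μ u₀) / μ ^ 2 := by
      unfold xe
      have := hN.mu
      field_simp
    rw [h2, norm_div, norm_pow]
    calc ‖x' - xe τ μ u₀‖ / ‖μ‖ ^ 2 ≤ ε / ‖μ‖ ^ 2 := by gcongr
      _ = 1 / ‖μ‖ ^ 2 * ε := by ring
      _ ≤ κ * ε := mul_le_mul_of_nonneg_right hκ2 hε0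
  have hyc : ‖y' / μ ^ 3 - wpd τ u₀‖ ≤ κ * ε := by
    have h2 : y' / μ ^ 3 - wpd τ u₀ = (y' - ye τ μ u₀) / μ ^ 3 := by
      unfold ye
      have := hN.mu
      field_simp
    rw [h2, norm_div, norm_pow]
    calc ‖y' - ye τ μ u₀‖ / ‖μ‖ ^ 3 ≤ ε / ‖μ‖ ^ 3 := by gcongr
      _ = 1 / ‖μ‖ ^ 3 * ε := by ring
      _ ≤ κ * ε := mul_le_mul_of_nonneg_right hκ3 hε0
  obtain ⟨u, -, hux, huy, huc⟩ := hLo (x' / μ ^ 2) (y' / μ ^ 3) (hxc.trans he1) (hyc.trans he1)
    (by
      have := hN.mu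
      field_simp
      linear_combination heq)
  have huc' : ‖u - u₀‖ ≤ CL * κ * ε := by
    refine huc.trans ?_
    rw [mul_assoc]
    exact mul_le_mul_of_nonneg_left hxc (by linarith)
  refine ⟨u, ?_, ?_, ?_, ?_⟩
  · unfold xe
    rw [hux]
    have := hN.mu
    field_simp
  · unfold ye
    rw [huy]
    have := hN.mu
    field_simp
  · refine huc'.trans ?_
    apply mul_le_mul_of_nonneg_right _ hε0
    nlinarith
  · refine (hLip u (huc'.trans he2)).trans ?_
    calc L * ‖u - u₀‖ ≤ L * (CL * κ * ε) := mul_le_mul_of_nonneg_left huc' hL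
      _ ≤ (1 + L) * (CL * κ) * ε := by
        have : 0 ≤ CL * κ * ε := by positivity
        nlinarith

/-- The points close to the given point satisfying the equations come from complex numbers. -/
lemma lift {τ μ : ℂ} {n : ℕ} {ty : ι → Ty} {i₀ : Option ι} {π : ι → ι} {b : ι → ℂ}
    {c : ι → ι → ℂ} {x : Fin n → ℂ} (hN : Nrm τ μ) (hE : EchC ty i₀ π c) (hNT : NTM τ ty b x) :
    ∃ (S : Finset (MvPolynomial (VM n ι) ℤ)) (C η : ℝ), 1 ≤ C ∧ 0 < η ∧
      (∀ P ∈ S, aeval (ptM τ μ ty b c (fun i j => b j * x i)) P = 0) ∧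
      ∀ (θ' : VM n ι → ℂ) (ε : ℝ), ε ≤ η → (∀ P ∈ S, aeval θ' P = 0) →
        (∀ v, ‖θ' v - ptM τ μ ty b c (fun i j => b j * x i) v‖ ≤ ε) →
        ∃ (u : Fin n → ι → ℂ) (b' : ι → ℂ) (c' : ι → ι → ℂ), ptM τ μ ty b' c' u = θ' ∧
          EchC ty i₀ π c' ∧ ∀ i j, ‖u i j - b j * x i‖ ≤ C * ε := by
  classical
  set θ : VM n ι → ℂ := ptM τ μ ty b c (fun i j => b j * x i) with hθ
  have hx : ∀ i j, ty j = Ty.ell → b j * x i ∉ Lam τ := by
    intro i j hj
    have h1 : (Pi.single i 1 : Fin n → ℤ) ≠ 0 := by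
      intro h
      have := congrFun h i
      simp at this
    have h2 := hNT _ h1 j hj
    have h3 : cmb (Pi.single i 1 : Fin n → ℤ) x = x i := by
      unfold cmb
      rw [Finset.sum_eq_single i]
      · simp
      · intro k _ hk; simp [Pi.single_eq_of_ne hk]
      · intro h; exact absurd (Finset.mem_univ i) h
    rwa [h3] at h2
  have hx2 : ∀ i j, ty j = Ty.ell → b j * x i + b j * x i ∉ Lam τ := by
    intro i j hj
    have h1 : (Pi.single i 2 : Fin n → ℤ) ≠ 0 := by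
      intro h
      have := congrFun h i
      simp at this
    have h2 := hNT _ h1 j hj
    have h3 : b j * cmb (Pi.single i 2 : Fin n → ℤ) x = b j * x i + b j * x i := by
      unfold cmb
      rw [Finset.sum_eq_single i]
      · simp; ring
      · intro k _ hk; simp [Pi.single_eq_of_ne hk]
      · intro h; exact absurd (Finset.mem_univ i) h
    rwa [h3] at h2
  obtain ⟨f2, hf20, hf2a, e2, he2, hf2⟩ := CritE.isol hN.g2
  obtain ⟨f3, hf30, hf3a, e3, he3, hf3⟩ := CritE.isol hN.g3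
  set q2 : MvPolynomial (VM n ι) ℤ := Polynomial.aeval (X (Sum.inl 0)) f2 with hq2
  set q3 : MvPolynomial (VM n ι) ℤ := Polynomial.aeval (X (Sum.inl 1)) f3 with hq3
  have hq2a : ∀ θ : VM n ι → ℂ, aeval θ q2 = Polynomial.aeval (θ (Sum.inl 0)) f2 := by
    intro θ
    rw [hq2, ← Polynomial.aeval_algHom_apply, aeval_X]
  have hq3a : ∀ θ : VM n ι → ℂ, aeval θ q3 = Polynomial.aeval (θ (Sum.inl 1)) f3 := by
    intro θ
    rw [hq3, ← Polynomial.aeval_algHom_apply, aeval_X]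
  -- uniform constants
  obtain ⟨C, η, hC1, hη0, hCE⟩ := unif (α := Fin n × ι) (fun a C η => ∀ (x' y' : ℂ) (ε : ℝ), ε ≤ η →
    (ty a.2 = Ty.ell → ‖x' - xe τ μ (b a.2 * x a.1)‖ ≤ ε → ‖y' - ye τ μ (b a.2 * x a.1)‖ ≤ ε →
      y' ^ 2 - 4 * x' ^ 3 + (μ ^ 4 * gg2 τ) * x' + μ ^ 6 * gg3 τ = 0 →
      ∃ u, xe τ μ u = x' ∧ ye τ μ u = y' ∧ ‖u - b a.2 * x a.1‖ ≤ C * ε ∧
        ‖ze τ μ u - ze τ μ (b a.2 * x a.1)‖ ≤ C * ε) ∧
    (‖x' - Complex.exp (b a.2 * x a.1)‖ ≤ ε → ∃ u, Complex.exp u = x' ∧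
      ‖u - b a.2 * x a.1‖ ≤ C * ε)) (by
      intro a C C' η η' hCC hη' hηη hQ x' y' ε hε
      refine ⟨fun ha hx hy heq => ?_, fun hx => ?_⟩
      · have hε0 : 0 ≤ ε := (norm_nonneg _).trans hx
        obtain ⟨u, h1, h2, h3, h4⟩ := (hQ x' y' ε (hε.trans hηη)).1 ha hx hy heq
        have h5 : C * ε ≤ C' * ε := mul_le_mul_of_nonneg_right hCC hε0
        exact ⟨u, h1, h2, h3.trans h5, h4.trans h5⟩
      · have hε0 : 0 ≤ ε := (norm_nonneg _).trans hx
        obtain ⟨u, h1, h2⟩ := (hQ x' y' ε (hε.trans hηη)).2 hx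
        exact ⟨u, h1, h2.trans (mul_le_mul_of_nonneg_right hCC hε0)⟩) (by
      intro a
      obtain ⟨L, r, hL, hr, hLr⟩ := lipE (b a.2 * x a.1)
      by_cases ha : ty a.2 = Ty.ell
      · obtain ⟨C, η, hη, hQ⟩ := ellPt hN (hx a.1 a.2 ha)
          (CritE.wpd_ne hN.im (hx a.1 a.2 ha) (hx2 a.1 a.2 ha))
        refine ⟨max C L, min η r, lt_min hη hr, fun x' y' ε hε => ⟨fun _ h1 h2 h3 => ?_,
          fun h1 => ?_⟩⟩
        · have hε0 : 0 ≤ ε := (norm_nonneg _).trans h1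
          obtain ⟨u, g1, g2, g3, g4⟩ := hQ x' y' ε (hε.trans (min_le_left _ _)) h1 h2 h3
          have h5 : C * ε ≤ max C L * ε := mul_le_mul_of_nonneg_right (le_max_left _ _) hε0
          exact ⟨u, g1, g2, g3.trans h5, g4.trans h5⟩
        · have hε0 : 0 ≤ ε := (norm_nonneg _).trans h1
          obtain ⟨v, g1, g2⟩ := hLr x' (h1.trans (hε.trans (min_le_right _ _)))
          refine ⟨v, g1, g2.trans ?_⟩
          calc L * ‖x' - Complex.exp (b a.2 * x a.1)‖ ≤ L * ε := mul_le_mul_of_nonneg_left h1 hL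
            _ ≤ max C L * ε := mul_le_mul_of_nonneg_right (le_max_right _ _) hε0
      · refine ⟨L, r, hr, fun x' y' ε hε => ⟨fun h => absurd h ha, fun h1 => ?_⟩⟩
        obtain ⟨v, g1, g2⟩ := hLr x' (h1.trans hε)
        exact ⟨v, g1, g2.trans (mul_le_mul_of_nonneg_left h1 hL)⟩)
  set Z₀ : ℝ := ∑ i, ∑ l, ‖ze τ μ (b l * x i)‖ with hZ₀
  have hZ₀l : ∀ i l, ‖ze τ μ (b l * x i)‖ ≤ Z₀ := fun i l =>
    (Finset.single_le_sum (f := fun l => ‖ze τ μ (b l * x i)‖) (fun _ _ => norm_nonneg _)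
      (Finset.mem_univ l)).trans
      (Finset.single_le_sum (f := fun i => ∑ l, ‖ze τ μ (b l * x i)‖)
        (fun _ _ => Finset.sum_nonneg fun _ _ => norm_nonneg _) (Finset.mem_univ i))
  have hZ₀0 : 0 ≤ Z₀ := Finset.sum_nonneg fun _ _ => Finset.sum_nonneg fun _ _ => norm_nonneg _
  set C₀ : ℝ := ∑ i, ∑ l, ‖c i l‖ with hC₀
  have hC₀l : ∀ i l, ‖c i l‖ ≤ C₀ := fun i l =>
    (Finset.single_le_sum (f := fun l => ‖c i l‖) (fun _ _ => norm_nonneg _)
      (Finset.mem_univ l)).trans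
      (Finset.single_le_sum (f := fun i => ∑ l, ‖c i l‖)
        (fun _ _ => Finset.sum_nonneg fun _ _ => norm_nonneg _) (Finset.mem_univ i))
  have hC₀0 : 0 ≤ C₀ := Finset.sum_nonneg fun _ _ => Finset.sum_nonneg fun _ _ => norm_nonneg _
  -- the equations
  set S : Finset (MvPolynomial (VM n ι) ℤ) := {q2, q3} ∪
    (Finset.univ.filter (fun ij : Fin n × ι => ty ij.2 = Ty.ell)).image (fun ij => EQ ij.1 ij.2) ∪
    (Finset.univ.filter (fun v : VM n ι => θ v = 0)).image (fun v => X v) ∪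
    (Finset.univ.filter (fun v : VM n ι => θ v = 1)).image (fun v => X v - 1) with hS
  refine ⟨S, 1 + C + Fintype.card ι * (Z₀ + C + C₀ * C), min (min η 1) (min e2 e3), ?_,
    lt_min (lt_min hη0 one_pos) (lt_min he2 he3), ?_, ?_⟩
  · have : 0 ≤ Fintype.card ι * (Z₀ + C + C₀ * C) := by positivity
    linarith
  · intro P hP
    rw [hS, Finset.mem_union, Finset.mem_union, Finset.mem_union, Finset.mem_insert,
      Finset.mem_singleton, Finset.mem_image, Finset.mem_image, Finset.mem_image] at hP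
    rcases hP with (((h | h) | ⟨⟨i, j⟩, hj, h⟩) | ⟨v, hv, h⟩) | ⟨v, hv, h⟩
    · rw [h, hq2a, hθ, pt0, hf2a]
    · rw [h, hq3a, hθ, pt1, hf3a]
    · have hj' : ty j = Ty.ell := (Finset.mem_filter.1 hj).2
      rw [← h, EQ_aeval, hθ, pt0, pt1, ptx, pty, if_pos hj']
      simp only [PN, hj']
      unfold xe ye
      have := wpd_sq hN.im (hx i j hj')
      linear_combination μ ^ 6 * this
    · rw [← h, aeval_X]
      exact (Finset.mem_filter.1 hv).2
    · rw [← h, map_sub, aeval_X, map_one, (Finset.mem_filter.1 hv).2, sub_self]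
  · intro θ' ε hε hSz hcl
    have hε1 : ε ≤ η := hε.trans ((min_le_left _ _).trans (min_le_left _ _))
    have hε2 : ε ≤ 1 := hε.trans ((min_le_left _ _).trans (min_le_right _ _))
    have hε3 : ε ≤ e2 := hε.trans ((min_le_right _ _).trans (min_le_left _ _))
    have hε4 : ε ≤ e3 := hε.trans ((min_le_right _ _).trans (min_le_right _ _))
    have hε0 : 0 ≤ ε := (norm_nonneg _).trans (hcl (Sum.inl 0))
    have hP : ∀ P, (((P = q2 ∨ P = q3) ∨ (∃ i j, ty j = Ty.ell ∧ EQ i j = P)) ∨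
        (∃ v, θ v = 0 ∧ X v = P)) ∨ (∃ v, θ v = 1 ∧ X v - 1 = P) → aeval θ' P = 0 := by
      intro P hP
      apply hSz
      rw [hS, Finset.mem_union, Finset.mem_union, Finset.mem_union, Finset.mem_insert,
        Finset.mem_singleton, Finset.mem_image, Finset.mem_image, Finset.mem_image]
      rcases hP with (((h | h) | ⟨i, j, hj, h⟩) | ⟨v, hv, h⟩) | ⟨v, hv, h⟩
      · exact Or.inl (Or.inl (Or.inl (Or.inl h)))
      · exact Or.inl (Or.inl (Or.inl (Or.inr h)))
      · exact Or.inl (Or.inl (Or.inr ⟨(i, j), Finset.mem_filter.2 ⟨Finset.mem_univ _, hj⟩, h⟩))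
      · exact Or.inl (Or.inr ⟨v, Finset.mem_filter.2 ⟨Finset.mem_univ _, hv⟩, h⟩)
      · exact Or.inr ⟨v, Finset.mem_filter.2 ⟨Finset.mem_univ _, hv⟩, h⟩
    have hz0 : ∀ v, θ v = 0 → θ' v = 0 := by
      intro v hv
      have := hP _ (Or.inl (Or.inr ⟨v, hv, rfl⟩))
      rwa [aeval_X] at this
    have hz1 : ∀ v, θ v = 1 → θ' v = 1 := by
      intro v hv
      have := hP _ (Or.inr ⟨v, hv, rfl⟩)
      rw [map_sub, aeval_X, map_one] at this
      exact sub_eq_zero.1 this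
    have g2 : θ' (Sum.inl 0) = μ ^ 4 * gg2 τ := by
      apply hf2
      · have := hcl (Sum.inl 0)
        rw [hθ, pt0] at this
        linarith
      · rw [← hq2a]
        exact hP _ (Or.inl (Or.inl (Or.inl (Or.inl rfl))))
    have g3 : θ' (Sum.inl 1) = μ ^ 6 * gg3 τ := by
      apply hf3
      · have := hcl (Sum.inl 1)
        rw [hθ, pt1] at this
        linarith
      · rw [← hq3a]
        exact hP _ (Or.inl (Or.inl (Or.inl (Or.inr rfl))))
    have hE' : ∀ i j, ∃ u, ty j = Ty.ell → xe τ μ u = θ' (Sum.inr (Sum.inr (i, j, false))) ∧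
        ye τ μ u = θ' (Sum.inr (Sum.inr (i, j, true))) ∧ ‖u - b j * x i‖ ≤ C * ε ∧
        ‖ze τ μ u - ze τ μ (b j * x i)‖ ≤ C * ε := by
      intro i j
      by_cases hj : ty j = Ty.ell
      · have h1 := hcl (Sum.inr (Sum.inr (i, j, false)))
        have h2 := hcl (Sum.inr (Sum.inr (i, j, true)))
        have h3 := hP _ (Or.inl (Or.inl (Or.inr ⟨i, j, hj, rfl⟩)))
        rw [hθ, ptx] at h1
        rw [hθ, pty, if_pos hj] at h2
        simp only [PN, hj] at h1
        rw [EQ_aeval, g2, g3] at h3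
        obtain ⟨u, hu⟩ := (hCE (i, j) _ _ ε hε1).1 hj h1 h2 h3
        exact ⟨u, fun _ => hu⟩
      · exact ⟨0, fun h => absurd h hj⟩
    choose uE huE using hE'
    have hM' : ∀ i j, ∃ u, ty j = Ty.mul → Complex.exp u = θ' (Sum.inr (Sum.inr (i, j, false))) ∧
        ‖u - b j * x i‖ ≤ C * ε := by
      intro i j
      by_cases hj : ty j = Ty.mul
      · have h1 := hcl (Sum.inr (Sum.inr (i, j, false)))
        rw [hθ, ptx] at h1
        simp only [PN, hj] at h1
        obtain ⟨u, hu⟩ := (hCE (i, j) _ 0 ε hε1).2 h1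
        exact ⟨u, fun _ => hu⟩
      · exact ⟨0, fun h => absurd h hj⟩
    choose uM huM using hM'
    set c' : ι → ι → ℂ := fun i j => θ' (Sum.inr (Sum.inl (i, j))) with hc'
    set b' : ι → ℂ := fun i => θ' (Sum.inr (Sum.inl (i, i))) with hb'
    set u : Fin n → ι → ℂ := fun i j => if ty j = Ty.ell then uE i j else
      if ty j = Ty.mul then uM i j else θ' (Sum.inr (Sum.inr (i, j, false))) -
        ∑ l, (if ty l = Ty.ell then c' j l * ze τ μ (uE i l) else 0) with hu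
    have hue : ∀ i j, ty j = Ty.ell → u i j = uE i j := fun i j hj => by
      rw [hu]; simp only; rw [if_pos hj]
    have hum : ∀ i j, ty j = Ty.mul → u i j = uM i j := fun i j hj => by
      rw [hu]; simp only; rw [if_neg (by rw [hj]; decide), if_pos hj]
    have hua : ∀ i j, ty j = Ty.add → u i j = θ' (Sum.inr (Sum.inr (i, j, false))) -
        ∑ l, (if ty l = Ty.ell then c' j l * ze τ μ (uE i l) else 0) := fun i j hj => by
      rw [hu]; simp only; rw [if_neg (by rw [hj]; decide), if_neg (by rw [hj]; decide)]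
    refine ⟨u, b', c', ?_, ?_, ?_⟩
    · funext v
      rcases v with q | ⟨i, j⟩ | ⟨i, j, f⟩
      · fin_cases q
        · exact (pt0 τ μ ty b' c' u).trans g2.symm
        · exact (pt1 τ μ ty b' c' u).trans g3.symm
      · rw [ptc]
        by_cases h1 : ty i = Ty.add ∧ ty j = Ty.ell
        · rw [if_pos h1]
        · rw [if_neg h1]
          by_cases h2 : i = j ∧ ty i = Ty.add
          · rw [if_pos h2, hb']
            simp only
            rw [← h2.1]
          · rw [if_neg h2]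
            refine (hz0 _ ?_).symm
            rw [hθ, ptc, if_neg h1, if_neg h2]
      · cases f
        · rw [ptx]
          rcases hj : ty j with _ | _ | _
          · simp only [PN, hj]
            rw [hua i j hj]
            have : ∀ l, (if ty l = Ty.ell then c' j l * ze τ μ (u i l) else 0) =
                (if ty l = Ty.ell then c' j l * ze τ μ (uE i l) else 0) := fun l => by
              by_cases hl : ty l = Ty.ell
              · rw [if_pos hl, if_pos hl, hue i l hl]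
              · rw [if_neg hl, if_neg hl]
            simp only [this]
            ring
          · simp only [PN, hj]
            rw [hum i j hj]
            exact (huM i j hj).1
          · simp only [PN, hj]
            rw [hue i j hj]
            exact (huE i j hj).1
        · rw [pty]
          by_cases hj : ty j = Ty.ell
          · rw [if_pos hj, hue i j hj]
            exact (huE i j hj).2.1
          · rw [if_neg hj]
            refine (hz0 _ ?_).symm
            rw [hθ, pty, if_neg hj]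
    · refine ⟨fun i hi => ⟨(hE.1 i hi).1, fun j hj => ?_⟩, fun i hi hii => ⟨(hE.2 i hi hii).1,
        fun i' hi' => ?_⟩⟩
      · refine hz0 _ ?_
        rw [hθ, ptc_ae _ _ _ _ _ _ (hE.1 i hi).1 hj]
        exact (hE.1 i hi).2 j hj
      · have h1 := (hE.2 i hi hii).2 i' hi'
        have h2 : θ (Sum.inr (Sum.inl (i', π i))) = c i' (π i) := by
          rw [hθ, ptc_ae _ _ _ _ _ _ hi' (hE.2 i hi hii).1]
        by_cases h3 : i' = i
        · rw [if_pos h3] at h1 ⊢
          exact hz1 _ (h2.trans h1)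
        · rw [if_neg h3] at h1 ⊢
          exact hz0 _ (h2.trans h1)
    · intro i j
      have hA : 0 ≤ Fintype.card ι * (Z₀ + C + C₀ * C) := by positivity
      have hCε : C * ε ≤ (1 + C + Fintype.card ι * (Z₀ + C + C₀ * C)) * ε :=
        mul_le_mul_of_nonneg_right (by linarith) hε0
      rcases hj : ty j with _ | _ | _
      · rw [hua i j hj]
        have h1 := hcl (Sum.inr (Sum.inr (i, j, false)))
        rw [hθ, ptx] at h1
        simp only [PN, hj] at h1
        have h2 : θ' (Sum.inr (Sum.inr (i, j, false))) -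
            ∑ l, (if ty l = Ty.ell then c' j l * ze τ μ (uE i l) else 0) - b j * x i =
            (θ' (Sum.inr (Sum.inr (i, j, false))) - (b j * x i +
              ∑ l, (if ty l = Ty.ell then c j l * ze τ μ (b l * x i) else 0))) -
            ∑ l, ((if ty l = Ty.ell then c' j l * ze τ μ (uE i l) else 0) -
              (if ty l = Ty.ell then c j l * ze τ μ (b l * x i) else 0)) := by
          rw [Finset.sum_sub_distrib]
          ring
        rw [h2]
        have h3 : ∀ l, ‖(if ty l = Ty.ell then c' j l * ze τ μ (uE i l) else 0) -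
              (if ty l = Ty.ell then c j l * ze τ μ (b l * x i) else 0)‖ ≤
              (Z₀ + C + C₀ * C) * ε := by
          intro l
          by_cases hl : ty l = Ty.ell
          · rw [if_pos hl, if_pos hl]
            have h4 := hcl (Sum.inr (Sum.inl (j, l)))
            rw [hθ, ptc_ae _ _ _ _ _ _ hj hl] at h4
            have h5 := (huE i l hl).2.2.2
            have h6 : ‖ze τ μ (uE i l)‖ ≤ Z₀ + C := by
              calc ‖ze τ μ (uE i l)‖ = ‖ze τ μ (b l * x i) +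
                    (ze τ μ (uE i l) - ze τ μ (b l * x i))‖ := by congr 1; ring
                _ ≤ ‖ze τ μ (b l * x i)‖ + ‖ze τ μ (uE i l) - ze τ μ (b l * x i)‖ :=
                  norm_add_le _ _
                _ ≤ Z₀ + C * ε := add_le_add (hZ₀l i l) h5
                _ ≤ Z₀ + C := by nlinarith
            calc ‖c' j l * ze τ μ (uE i l) - c j l * ze τ μ (b l * x i)‖
                = ‖(c' j l - c j l) * ze τ μ (uE i l) +
                    c j l * (ze τ μ (uE i l) - ze τ μ (b l * x i))‖ := by congr 1; ring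
              _ ≤ ‖(c' j l - c j l) * ze τ μ (uE i l)‖ +
                    ‖c j l * (ze τ μ (uE i l) - ze τ μ (b l * x i))‖ := norm_add_le _ _
              _ = ‖c' j l - c j l‖ * ‖ze τ μ (uE i l)‖ +
                    ‖c j l‖ * ‖ze τ μ (uE i l) - ze τ μ (b l * x i)‖ := by
                  rw [norm_mul, norm_mul]
              _ ≤ ε * (Z₀ + C) + C₀ * (C * ε) := by
                  refine add_le_add ?_ ?_
                  · exact mul_le_mul h4 h6 (norm_nonneg _) hε0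
                  · exact mul_le_mul (hC₀l j l) h5 (norm_nonneg _) hC₀0
              _ = (Z₀ + C + C₀ * C) * ε := by ring
          · rw [if_neg hl, if_neg hl, sub_zero, norm_zero]
            positivity
        calc ‖(θ' (Sum.inr (Sum.inr (i, j, false))) - (b j * x i +
              ∑ l, (if ty l = Ty.ell then c j l * ze τ μ (b l * x i) else 0))) -
            ∑ l, ((if ty l = Ty.ell then c' j l * ze τ μ (uE i l) else 0) -
              (if ty l = Ty.ell then c j l * ze τ μ (b l * x i) else 0))‖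
            ≤ ‖θ' (Sum.inr (Sum.inr (i, j, false))) - (b j * x i +
              ∑ l, (if ty l = Ty.ell then c j l * ze τ μ (b l * x i) else 0))‖ +
            ‖∑ l, ((if ty l = Ty.ell then c' j l * ze τ μ (uE i l) else 0) -
              (if ty l = Ty.ell then c j l * ze τ μ (b l * x i) else 0))‖ := norm_sub_le _ _
          _ ≤ ε + ∑ _l : ι, (Z₀ + C + C₀ * C) * ε :=
              add_le_add h1 (norm_sum_le_of_le _ fun l _ => h3 l)
          _ = (1 + Fintype.card ι * (Z₀ + C + C₀ * C)) * ε := by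
              rw [Finset.sum_const, Finset.card_univ, nsmul_eq_mul]
              ring
          _ ≤ (1 + C + Fintype.card ι * (Z₀ + C + C₀ * C)) * ε :=
              mul_le_mul_of_nonneg_right (by linarith) hε0
      · rw [hum i j hj]
        exact (huM i j hj).2.trans hCε
      · rw [hue i j hj]
        exact (huE i j hj).2.2.1.trans hCε

/-- The additive coordinate of a combination of the points. -/
lemma coord_add (τ μ : ℂ) {n : ℕ} (ty : ι → Ty) (b : ι → ℂ) (c : ι → ι → ℂ)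
    (u : Fin n → ι → ℂ) (s : Fin n → ℤ) (i : ι) (hi : ty i = Ty.add) :
    ∑ k, (s k : ℂ) * ptM τ μ ty b c u (Sum.inr (Sum.inr (k, i, false))) +
      ∑ j, (if ty j = Ty.ell then ptM τ μ ty b c u (Sum.inr (Sum.inl (i, j))) *
        cor τ μ u s j else 0) =
    pcI u s i + ∑ j, (if ty j = Ty.ell then c i j * ze τ μ (pcI u s j) else 0) := by
  have h1 : ∀ k, ptM τ μ ty b c u (Sum.inr (Sum.inr (k, i, false))) =
      u k i + ∑ j, (if ty j = Ty.ell then c i j * ze τ μ (u k j) else 0) := by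
    intro k
    rw [ptx]
    simp only [PN, hi]
  simp only [h1]
  have h2 : ∀ j, (if ty j = Ty.ell then ptM τ μ ty b c u (Sum.inr (Sum.inl (i, j))) *
        cor τ μ u s j else 0) = (if ty j = Ty.ell then c i j * ze τ μ (pcI u s j) else 0) -
        ∑ k, (s k : ℂ) * (if ty j = Ty.ell then c i j * ze τ μ (u k j) else 0) := by
    intro j
    by_cases hj : ty j = Ty.ell
    · simp only [if_pos hj]
      rw [ptc_ae _ _ _ _ _ _ hi hj]
      unfold cor
      rw [mul_sub, Finset.mul_sum]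
      congr 1
      refine Finset.sum_congr rfl fun k _ => ?_
      ring
    · simp only [if_neg hj]
      simp
  simp only [h2]
  rw [Finset.sum_sub_distrib, Finset.sum_comm]
  simp only [mul_add, Finset.sum_add_distrib, Finset.mul_sum]
  unfold pcI
  ring

/-- The multiplicative coordinate of a combination of the points. -/
lemma coord_mul (τ μ : ℂ) {n : ℕ} (ty : ι → Ty) (b : ι → ℂ) (c : ι → ι → ℂ)
    (u : Fin n → ι → ℂ) (s : Fin n → ℤ) (hs : ∀ k, 0 ≤ s k) (i : ι) (hi : ty i = Ty.mul) :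
    ∏ k, ptM τ μ ty b c u (Sum.inr (Sum.inr (k, i, false))) ^ (s k).toNat =
      Complex.exp (pcI u s i) := by
  unfold pcI
  rw [Complex.exp_sum]
  refine Finset.prod_congr rfl fun k _ => ?_
  rw [ptx]
  simp only [PN, hi]
  rw [← Complex.exp_nat_mul]
  congr 1
  have h1 : ((s k).toNat : ℤ) = s k := Int.toNat_of_nonneg (hs k)
  have h2 : ((s k).toNat : ℂ) = (s k : ℂ) := by exact_mod_cast h1
  rw [h2]

/-- The value of the polynomial of the auxiliary function. -/
lemma valPEM (hPE : S_PEMval) {τ μ : ℂ} {n G : ℕ} (ty : ι → Ty) (b : ι → ℂ) (c : ι → ι → ℂ)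
    (u : Fin n → ι → ℂ) (W : ℕ) (p : (Fin G → ι → Fin W) → ℤ) (s : Fin G → Fin n → ℤ)
    (V : Fin G → ι → Qua n ι) (hs : ∀ r i, 0 ≤ s r i)
    (hV : ∀ r j, ty j = Ty.ell →
      ValQ τ μ (ptM τ μ ty b c u) (pcI u (s r) j) (cor τ μ u (s r) j) (V r j)) :
    aeval (ptM τ μ ty b c u) (PEM ty p s V) =
      (∏ r, ∏ j, (if ty j = Ty.ell then
        aeval (ptM τ μ ty b c u) (V r j).Z ^ (Fintype.card ι * W) else 1)) *
      (open Classical in ∑ x : Fin G → ι → Fin W, (p x : ℂ) *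
        ∏ r, ∏ i, PN τ μ ty c (pcI u (s r)) i ^ (x r i : ℕ)) := by
  classical
  obtain ⟨C, -, h⟩ := hPE ι n G
  rw [((h ty W p s V hs).1 τ μ (ptM τ μ ty b c u) (fun r j => pcI u (s r) j)
    (fun r j => cor τ μ u (s r) j) hV)]
  congr 1
  refine Finset.sum_congr rfl fun x _ => ?_
  congr 1
  refine Finset.prod_congr rfl fun r _ => ?_
  refine Finset.prod_congr rfl fun i _ => ?_
  congr 1
  rcases hi : ty i with _ | _ | _
  · simp only [PN, hi]
    exact coord_add τ μ ty b c u (s r) i hi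
  · simp only [PN, hi]
    exact coord_mul τ μ ty b c u (s r) (hs r) i hi
  · simp only [PN, hi]

/-- The values at the true point. -/
lemma true_bd {τ μ : ℂ} {n G W : ℕ} {ty : ι → Ty} {b : ι → ℂ} {c : ι → ι → ℂ} {x : Fin n → ℂ}
    {C2 h : ℝ} (hh : 0 ≤ h) (hC2 : 0 ≤ C2)
    (hZ : ∀ (z r : ℂ) (h : ℝ) (V : Qua n ι), 0 ≤ h →
      ValQ τ μ (ptM τ μ ty b c (fun i j => b j * x i)) z r V → SizQ h V →
      ‖aeval (ptM τ μ ty b c (fun i j => b j * x i)) V.Z‖ ≤
        Real.exp (C2 * (h + 1)) * d1 τ z ^ 2)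
    (hPE : S_PEMval) (p : (Fin G → ι → Fin W) → ℤ) (s : Fin G → Fin n → ℤ)
    (V : Fin G → ι → Qua n ι) (hs : ∀ r i, 0 ≤ s r i)
    (hV : ∀ r j, ty j = Ty.ell → ValQ τ μ (ptM τ μ ty b c (fun i j => b j * x i))
      (b j * cmb (s r) x) (cor τ μ (fun i j => b j * x i) (s r) j) (V r j))
    (hS : ∀ r j, ty j = Ty.ell → SizQ h (V r j)) :
    ‖aeval (ptM τ μ ty b c (fun i j => b j * x i)) (PEM ty p s V)‖ ≤
      Real.exp (G * Fintype.card ι * (Fintype.card ι * W) * (C2 * (h + 1))) *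
      (‖AFM τ μ ty b c p (fun r => cmb (s r) x)‖ *
        ∏ r, dd τ ty b (2 * (Fintype.card ι * W)) (cmb (s r) x)) := by
  classical
  rw [valPEM hPE ty b c (fun i j => b j * x i) W p s V hs (fun r j hj => by
    rw [pcI_mul]
    exact hV r j hj)]
  have hAF : (∑ y : Fin G → ι → Fin W, (p y : ℂ) *
        ∏ r, ∏ i, PN τ μ ty c (pcI (fun i j => b j * x i) (s r)) i ^ (y r i : ℕ)) =
      AFM τ μ ty b c p (fun r => cmb (s r) x) := by
    unfold AFM
    have h1 : ∀ r, pcI (fun i j => b j * x i) (s r) = fun j => b j * cmb (s r) x := fun r => by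
      funext j
      exact pcI_mul b x (s r) j
    simp only [h1]
  rw [hAF, norm_mul, norm_prod]
  set N : ℕ := Fintype.card ι with hN
  have h1 : ∏ r, ‖∏ j, (if ty j = Ty.ell then
        aeval (ptM τ μ ty b c (fun i j => b j * x i)) (V r j).Z ^ (N * W) else 1)‖ ≤
      Real.exp (G * N * (N * W) * (C2 * (h + 1))) * ∏ r, dd τ ty b (2 * (N * W)) (cmb (s r) x) := by
    calc ∏ r, ‖∏ j, (if ty j = Ty.ell then
        aeval (ptM τ μ ty b c (fun i j => b j * x i)) (V r j).Z ^ (N * W) else 1)‖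
        ≤ ∏ r, (Real.exp (N * (N * W) * (C2 * (h + 1))) *
            dd τ ty b (2 * (N * W)) (cmb (s r) x)) := by
          refine Finset.prod_le_prod (fun r _ => norm_nonneg _) fun r _ => ?_
          rw [norm_prod]
          have h2 : Real.exp (N * (N * W) * (C2 * (h + 1))) *
              dd τ ty b (2 * (N * W)) (cmb (s r) x) =
              ∏ j, (Real.exp ((N * W) * (C2 * (h + 1))) *
                (if ty j = Ty.ell then d1 τ (b j * cmb (s r) x) ^ (2 * (N * W)) else 1)) := by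
            rw [Finset.prod_mul_distrib, Finset.prod_const, Finset.card_univ, ← hN,
              ← Real.exp_nat_mul]
            unfold dd
            congr 2
            ring
          rw [h2]
          refine Finset.prod_le_prod (fun j _ => norm_nonneg _) fun j _ => ?_
          by_cases hj : ty j = Ty.ell
          · rw [if_pos hj, if_pos hj, norm_pow]
            calc ‖aeval (ptM τ μ ty b c (fun i j => b j * x i)) (V r j).Z‖ ^ (N * W)
                ≤ (Real.exp (C2 * (h + 1)) * d1 τ (b j * cmb (s r) x) ^ 2) ^ (N * W) :=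
                  pow_le_pow_left₀ (norm_nonneg _) (hZ _ _ h _ hh (hV r j hj) (hS r j hj)) _
              _ = _ := by
                  rw [mul_pow, ← Real.exp_nat_mul, ← pow_mul]
                  push_cast
                  rfl
          · rw [if_neg hj, if_neg hj, norm_one, mul_one]
            apply Real.one_le_exp
            positivity
      _ = _ := by
          rw [Finset.prod_mul_distrib, Finset.prod_const, Finset.card_univ, Fintype.card_fin,
            ← Real.exp_nat_mul]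
          congr 2
          ring
  have hdd : 0 ≤ ∏ r, dd τ ty b (2 * (N * W)) (cmb (s r) x) := by
    refine Finset.prod_nonneg fun r _ => Finset.prod_nonneg fun j _ => ?_
    by_cases hj : ty j = Ty.ell
    · rw [if_pos hj]
      apply pow_nonneg
      unfold d1
      exact le_min zero_le_one Metric.infDist_nonneg
    · rw [if_neg hj]
      exact zero_le_one
  calc (∏ r, ‖∏ j, (if ty j = Ty.ell then
        aeval (ptM τ μ ty b c (fun i j => b j * x i)) (V r j).Z ^ (N * W) else 1)‖) *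
        ‖AFM τ μ ty b c p (fun r => cmb (s r) x)‖
      ≤ (Real.exp (G * N * (N * W) * (C2 * (h + 1))) *
          ∏ r, dd τ ty b (2 * (N * W)) (cmb (s r) x)) *
          ‖AFM τ μ ty b c p (fun r => cmb (s r) x)‖ :=
        mul_le_mul_of_nonneg_right h1 (norm_nonneg _)
    _ = _ := by ring

end

end I_CritM

open I_CritM in
/-- **T7** (criterion step). -/
theorem CritM_pf (h1 : S_TreeQ) (h2 : S_TrueQ) (h3 : S_ZUpQ) (h4 : S_PEMval) : S_CritM := by
  classical
  intro ι _ n G k hn hG τ μ ty i₀ π b c x hN hE hNT hθ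
  set θ : VM n ι → ℂ := ptM τ μ ty b c (fun i j => b j * x i) with hθdef
  obtain ⟨C0, hC01, hC0⟩ := x_Crit (VM n ι) k θ hθ
  obtain ⟨C1, K1, hC11, hT1⟩ := h1 ι n hn
  obtain ⟨C2, hC21, hC2⟩ := h3 ι τ μ hN.im hN.mu n θ
  obtain ⟨C4, hC41, hC4⟩ := h4 ι n G
  obtain ⟨S, C3, η, hC31, hη0, hSv, hlift⟩ := lift (b := b) (x := x) hN hE hNT
  obtain ⟨η4, hη4, hgood⟩ := near_good hN.im hNT K1
  obtain ⟨KS, hKS⟩ := CritE.fin_bd S
  set m : ℕ := Fintype.card ι with hm
  set K : ℝ := C4 * (C1 + 4) with hK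
  have hK1 : 1 ≤ K := by nlinarith
  set A : ℝ := G * m * m * (C2 * (C1 + 1)) with hA
  have hA0 : 0 ≤ A := by positivity
  have hB0 : 0 ≤ 4 * C0 * (2 * K) ^ (k + 1) := by positivity
  set C : ℝ := 2 * A + 4 * C0 * (2 * K) ^ (k + 1) + 1 with hC
  have hC1' : 1 ≤ C := by linarith
  refine ⟨C, ⌈1 + KS + 1 / η + 1 / η4 + C3⌉₊, hC1', ?_⟩
  intro T hT W h U hW hh hU p hp0 hpb hsm
  have hTr1 : 1 + KS + 1 / η + 1 / η4 + C3 ≤ (T : ℝ) := (Nat.le_ceil _).trans (by exact_mod_cast hT)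
  have hKS0 : (0 : ℝ) ≤ KS := Nat.cast_nonneg _
  have hη' : 0 < 1 / η := by positivity
  have hη4' : 0 < 1 / η4 := by positivity
  have hT1r : (1 : ℝ) ≤ T := by linarith
  have hT1n : 1 ≤ T := by exact_mod_cast hT1r
  have hWr : (1 : ℝ) ≤ W := by exact_mod_cast hW
  have hT11 : (1 : ℝ) ≤ (T : ℝ) ^ 11 := one_le_pow₀ hT1r
  have hT10 : (1 : ℝ) ≤ (T : ℝ) ^ 10 := one_le_pow₀ hT1r
  have hTT : (T : ℝ) ≤ (T : ℝ) ^ 11 := by
    calc (T : ℝ) = (T : ℝ) ^ 1 := (pow_one _).symm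
      _ ≤ (T : ℝ) ^ 11 := pow_le_pow_right₀ hT1r (by norm_num)
  have hTT10 : (T : ℝ) ^ 10 ≤ (T : ℝ) ^ 11 := pow_le_pow_right₀ hT1r (by norm_num)
  have hWT : (T : ℝ) ^ 11 ≤ W * (T : ℝ) ^ 11 := by nlinarith
  set N : ℝ := W * (T : ℝ) ^ 11 + h with hNN
  have hTN : (T : ℝ) ≤ N := by linarith
  have hN1 : 1 ≤ N := by linarith
  have hN0 : 0 < N := by linarith
  have hNp : 1 ≤ N ^ (k + 1) := one_le_pow₀ hN1
  have hNNp : N ≤ N ^ (k + 1) := by
    calc N = N ^ 1 := (pow_one _).symm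
      _ ≤ N ^ (k + 1) := pow_le_pow_right₀ hN1 (by omega)
  set X : ℕ := ⌈K * N⌉₊ with hX
  have hXlo : K * N ≤ X := Nat.le_ceil _
  have hKN : 1 ≤ K * N := by nlinarith
  have hXhi : (X : ℝ) ≤ 2 * K * N := by
    have := (Nat.ceil_lt_add_one (a := K * N) (by linarith)).le
    linarith
  have hNX : N ≤ X := by nlinarith
  have hX1r : (1 : ℝ) ≤ X := by linarith
  have hX1 : 1 ≤ X := by exact_mod_cast hX1r
  have hX0 : (0 : ℝ) < X := by linarith
  have hU0 : 0 < U := by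
    have : 0 < C * N ^ (k + 1) := by positivity
    linarith
  have hCr : C0 * (X : ℝ) ^ (k + 1) ≤ U / 2 := by
    have h1 : (X : ℝ) ^ (k + 1) ≤ (2 * K * N) ^ (k + 1) := pow_le_pow_left₀ hX0.le hXhi _
    rw [mul_pow] at h1
    have h2 : C0 * (X : ℝ) ^ (k + 1) ≤ C0 * ((2 * K) ^ (k + 1) * N ^ (k + 1)) :=
      mul_le_mul_of_nonneg_left h1 (by linarith)
    have h3 : 4 * C0 * (2 * K) ^ (k + 1) * N ^ (k + 1) ≤ C * N ^ (k + 1) := by
      apply mul_le_mul_of_nonneg_right _ (by linarith)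
      linarith
    have h4 : 0 ≤ C0 * ((2 * K) ^ (k + 1) * N ^ (k + 1)) := by positivity
    have h5 : 4 * C0 * (2 * K) ^ (k + 1) * N ^ (k + 1) =
        4 * (C0 * ((2 * K) ^ (k + 1) * N ^ (k + 1))) := by ring
    rw [h5] at h3
    linarith
  -- the set of polynomials
  let PP : Set (MvPolynomial (VM n ι) ℤ) := {P | P ∈ S ∨
    ∃ (s : Fin G → Fin n → ℤ) (V : Fin G → ι → Qua n ι),
      (∀ r, s r ≠ 0 ∧ ∀ i, 0 ≤ s r i ∧ s r i ≤ (T : ℤ)) ∧
      (∀ r j, ty j = Ty.ell → VQ j (s r) (V r j)) ∧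
      (∀ r j, ty j = Ty.ell → SizQ (C1 * T ^ 10) (V r j)) ∧ P = PEM ty p s V}
  have hh1 : (0 : ℝ) ≤ C1 * (T : ℝ) ^ 10 := by positivity
  have h5 : C1 * (T : ℝ) ^ 10 + 1 ≤ (C1 + 1) * (T : ℝ) ^ 11 := by nlinarith
  have h5a : C1 * (T : ℝ) ^ 10 + T + 1 ≤ (C1 + 2) * (T : ℝ) ^ 11 := by nlinarith
  have hPP : ∀ P ∈ PP, P.totalDegree ≤ X ∧ len P ≤ Real.exp X ∧
      ‖aeval θ P‖ ≤ Real.exp (-(U / 2)) := by
    intro P hP
    rcases hP with hP | ⟨s, V, hs, hVP, hVs, rfl⟩
    · obtain ⟨h1, h2⟩ := hKS P hP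
      have h3 : (KS : ℝ) ≤ X := by linarith
      refine ⟨h1.trans (by exact_mod_cast h3), h2.trans (Real.exp_le_exp.2 h3), ?_⟩
      rw [hSv P hP, norm_zero]
      exact (Real.exp_pos _).le
    · have hs0 : ∀ r i, 0 ≤ s r i := fun r i => ((hs r).2 i).1
      have hval : ∀ r j, ty j = Ty.ell → ValQ τ μ θ (b j * cmb (s r) x)
          (cor τ μ (fun i j => b j * x i) (s r) j) (V r j) := fun r j hj =>
        h2 ι τ μ hN.im hN.mu n ty b c x hNT j hj (s r) (V r j) (hVP r j hj)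
      have hsz := (hC4 ty W p s V hs0).2 (C1 * T ^ 10) h T hh1 (by linarith)
        (fun r i => ((hs r).2 i).2) hVs hpb
      have h6 : (W : ℝ) * (C1 * (T : ℝ) ^ 10 + T + 1) ≤ (C1 + 2) * (W * (T : ℝ) ^ 11) := by
        nlinarith
      have h7 : C4 * (W * (C1 * (T : ℝ) ^ 10 + T + 1) + h + 1) ≤ X := by
        refine le_trans ?_ hXlo
        rw [hK, mul_assoc]
        apply mul_le_mul_of_nonneg_left _ (by linarith)
        rw [hNN]
        have h8 : 0 ≤ W * (T : ℝ) ^ 11 := by positivity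
        nlinarith
      refine ⟨?_, ?_, ?_⟩
      · have := hsz.1.trans h7
        exact_mod_cast this
      · exact hsz.2.trans (Real.exp_le_exp.2 h7)
      · refine (true_bd hh1 (by linarith) hC2 h4 p s V hs0 hval hVs).trans ?_
        have h9 := hsm s hs
        rw [← hm]
        calc Real.exp (G * m * (m * W) * (C2 * (C1 * (T : ℝ) ^ 10 + 1))) *
              (‖AFM τ μ ty b c p (fun r => cmb (s r) x)‖ *
                ∏ r, dd τ ty b (2 * (m * W)) (cmb (s r) x))
            ≤ Real.exp (G * m * (m * W) * (C2 * (C1 * (T : ℝ) ^ 10 + 1))) * Real.exp (-U) :=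
              mul_le_mul_of_nonneg_left h9 (Real.exp_pos _).le
          _ = Real.exp (G * m * (m * W) * (C2 * (C1 * (T : ℝ) ^ 10 + 1)) + -U) := by
              rw [Real.exp_add]
          _ ≤ Real.exp (-(U / 2)) := by
              apply Real.exp_le_exp.2
              have h10 : (G : ℝ) * m * (m * W) * (C2 * (C1 * (T : ℝ) ^ 10 + 1)) ≤ A * N := by
                have h11 : (W : ℝ) * (T : ℝ) ^ 11 ≤ N := by linarith
                calc (G : ℝ) * m * (m * W) * (C2 * (C1 * (T : ℝ) ^ 10 + 1))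
                    = (G * m * m * C2) * (W * (C1 * (T : ℝ) ^ 10 + 1)) := by ring
                  _ ≤ (G * m * m * C2) * (W * ((C1 + 1) * (T : ℝ) ^ 11)) := by
                      apply mul_le_mul_of_nonneg_left _ (by positivity)
                      exact mul_le_mul_of_nonneg_left h5 (by positivity)
                  _ = A * (W * (T : ℝ) ^ 11) := by rw [hA]; ring
                  _ ≤ A * N := mul_le_mul_of_nonneg_left h11 hA0
              have h12 : A * N ≤ A * N ^ (k + 1) :=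
                mul_le_mul_of_nonneg_left hNNp hA0
              have h13 : 2 * A * N ^ (k + 1) ≤ C * N ^ (k + 1) := by
                apply mul_le_mul_of_nonneg_right _ (by linarith)
                linarith
              have h14 : 2 * A * N ^ (k + 1) = 2 * (A * N ^ (k + 1)) := by ring
              rw [h14] at h13
              linarith
  obtain ⟨θ', hz, hclose⟩ := hC0 X (U / 2) hX1 hCr PP hPP
  -- the size of the error
  set R : ℝ := (U / 2) / (C0 * (X : ℝ) ^ k) with hR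
  have hRe : -(U / 2) / (C0 * (X : ℝ) ^ k) = -R := by rw [hR, neg_div]
  rw [hRe] at hclose
  have hNm : 0 < N ^ k := by positivity
  have hXm : 0 < (X : ℝ) ^ k := by positivity
  have hC0p : 0 < C0 := by linarith
  have hCp : 0 < C := by linarith
  set Q : ℝ := U / N ^ k with hQ
  have hQC : N ≤ Q / C := by
    rw [le_div_iff₀ hCp, hQ, le_div_iff₀ hNm]
    rw [pow_succ] at hU
    linarith
  have hRQ : 2 * (Q / C) ≤ R := by
    rw [hR, le_div_iff₀ (by positivity), hQ]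
    have h1 : (X : ℝ) ^ k ≤ (2 * K) ^ k * N ^ k := by
      rw [← mul_pow]
      exact pow_le_pow_left₀ hX0.le hXhi _
    have h2 : (2 * K) ^ k ≤ (2 * K) ^ (k + 1) := pow_le_pow_right₀ (by linarith) (by omega)
    have h3 : 4 * C0 * (2 * K) ^ k ≤ C := by
      have : 4 * C0 * (2 * K) ^ k ≤ 4 * C0 * (2 * K) ^ (k + 1) :=
        mul_le_mul_of_nonneg_left h2 (by linarith)
      linarith
    have h4 : C0 * (X : ℝ) ^ k ≤ C0 * ((2 * K) ^ k * N ^ k) :=
      mul_le_mul_of_nonneg_left h1 hC0p.le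
    have h5 : 4 * (C0 * (X : ℝ) ^ k) ≤ C * N ^ k := by
      calc 4 * (C0 * (X : ℝ) ^ k) ≤ 4 * (C0 * ((2 * K) ^ k * N ^ k)) := by
            linarith
        _ = (4 * C0 * (2 * K) ^ k) * N ^ k := by ring
        _ ≤ C * N ^ k := mul_le_mul_of_nonneg_right h3 hNm.le
    have h6 : 2 * (U / N ^ k / C) * (C0 * (X : ℝ) ^ k) =
        (U / 2) * ((4 * (C0 * (X : ℝ) ^ k)) / (C * N ^ k)) := by
      field_simp
      ring
    rw [h6]
    have h7 : (4 * (C0 * (X : ℝ) ^ k)) / (C * N ^ k) ≤ 1 :=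
      (div_le_one (by positivity)).2 h5
    calc (U / 2) * ((4 * (C0 * (X : ℝ) ^ k)) / (C * N ^ k)) ≤ (U / 2) * 1 :=
          mul_le_mul_of_nonneg_left h7 (by linarith)
      _ = U / 2 := mul_one _
  have hε1 : Real.exp (-R) ≤ η := by
    have h1 : Real.exp (-R) ≤ Real.exp (-(T : ℝ)) := Real.exp_le_exp.2 (by linarith)
    exact h1.trans (CritE.small hη0 (by linarith))
  have hε2 : C3 * Real.exp (-R) ≤ Real.exp (-(Q / C)) := by
    have h1 : C3 ≤ Real.exp T := by
      have := Real.add_one_le_exp (T : ℝ)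
      linarith
    calc C3 * Real.exp (-R) ≤ Real.exp T * Real.exp (-R) :=
          mul_le_mul_of_nonneg_right h1 (Real.exp_pos _).le
      _ = Real.exp (T + -R) := by rw [Real.exp_add]
      _ ≤ Real.exp (-(Q / C)) := Real.exp_le_exp.2 (by linarith)
  obtain ⟨u, b', c', hu, hEc, huc⟩ := hlift θ' (Real.exp (-R)) hε1
    (fun P hP => hz P (Or.inl hP)) hclose
  have huc2 : ∀ i j, ‖u i j - b j * x i‖ ≤ Real.exp (-(Q / C)) := fun i j =>
    (huc i j).trans hε2
  have huc4 : ∀ i j, ‖u i j - b j * x i‖ ≤ η4 := by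
    intro i j
    refine (huc2 i j).trans ?_
    have h1 : Real.exp (-(Q / C)) ≤ Real.exp (-(T : ℝ)) := Real.exp_le_exp.2 (by linarith)
    exact h1.trans (CritE.small hη4 (by linarith))
  have hgd := hgood u huc4
  -- the tensor argument
  have hpC : (fun a => (p a : ℂ)) ≠ 0 := by
    intro h0
    apply hp0
    funext a
    have := congrFun h0 a
    simpa using this
  obtain ⟨r, hr0, hr⟩ := x_Tensor (ι → Fin W)
    {s : Fin n → ℤ // s ≠ 0 ∧ (∀ i, 0 ≤ s i ∧ s i ≤ (T : ℤ)) ∧ Gd τ ty (pcI u s)} G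
    (fun a s => ∏ j, PN τ μ ty c' (pcI u s.1) j ^ (a j : ℕ)) (fun a => (p a : ℂ)) hpC (by
      intro y
      have hV : ∀ r j, ∃ V : Qua n ι, ty j = Ty.ell → (VQ j (y r).1 V ∧
          ValQ τ μ (ptM τ μ ty b' c' u) (pcI u (y r).1 j) (cor τ μ u (y r).1 j) V ∧
          SizQ (C1 * T ^ 10) V) := by
        intro r j
        by_cases hj : ty j = Ty.ell
        · obtain ⟨V, hV⟩ := hT1 τ μ hN.im hN.mu ty b' c' j hj u
            (fun s hs hsK => hgd s hs hsK j hj) T (y r).1 hT1n (by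
              intro i
              obtain ⟨h1, h2⟩ := (y r).2.2.1 i
              rw [abs_of_nonneg h1]
              exact h2) ((y r).2.2.2 j hj)
          exact ⟨V, fun _ => hV⟩
        · exact ⟨⟨0, 0, 0, 0⟩, fun h => absurd h hj⟩
      choose V hV using hV
      have h0 : aeval θ' (PEM ty p (fun r => (y r).1) V) = 0 := by
        apply hz
        exact Or.inr ⟨fun r => (y r).1, V, fun r => ⟨(y r).2.1, (y r).2.2.1⟩,
          fun r j hj => (hV r j hj).1, fun r j hj => (hV r j hj).2.2, rfl⟩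
      rw [← hu, valPEM h4 ty b' c' u W p (fun r => (y r).1) V
        (fun r i => ((y r).2.2.1 i).1) (fun r j hj => (hV r j hj).2.1)] at h0
      rcases mul_eq_zero.1 h0 with h1 | h1
      · exfalso
        rw [Finset.prod_eq_zero_iff] at h1
        obtain ⟨r, _, h1⟩ := h1
        rw [Finset.prod_eq_zero_iff] at h1
        obtain ⟨j, _, h1⟩ := h1
        by_cases hj : ty j = Ty.ell
        · rw [if_pos hj] at h1
          exact (pow_ne_zero _ (hV r j hj).2.1.z0) h1
        · rw [if_neg hj] at h1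
          exact one_ne_zero h1
      · exact h1)
  obtain ⟨F, hF0, hFd, hFv⟩ := mkF hW r hr0
  refine ⟨u, c', F, ?_, hEc, hF0, hFd, ?_⟩
  · intro i j
    refine (huc2 i j).trans (le_of_eq ?_)
    congr 1
    rw [hQ]
    field_simp
  · intro s hs0 hs hsL
    rw [hFv]
    exact hr ⟨s, hs0, hs, hsL⟩

end Pool.Agent.Work.MP_8da9ea_nt.MX
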