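import Pool.Agent.Work.MP_8da9ea_nt.MX.StmtsF
import Pool.Agent.Work.MP_8da9ea_nt.MX.I_CritM

/-!
# Mixed block, item N3: the criterion step, lossless version
-/

set_option autoImplicit false

namespace Pool.Agent.Work.MP_8da9ea_nt.MX

open MvPolynomial Metric Filter Topology Pool.Agent.Work.MP_327059_nt.GL
  Pool.Agent.Work.MP_8da9ea_nt.S Pool.Agent.Work.MP_8da9ea_nt.EB

namespace I_CritF

open I_CritM hiding lift true_bd

section

variable {ι : Type} [Fintype ι]

lemma nt1 {τ : ℂ} {n : ℕ} {ty : ι → Ty} {b : ι → ℂ} {x : Fin n → ℂ} (hNT : NTM τ ty b x) :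
    ∀ i j, ty j = Ty.ell → b j * x i ∉ Lam τ := by
  intro i j hj
  have h1 : (Pi.single i 1 : Fin n → ℤ) ≠ 0 := by
    intro h
    have := congrFun h i
    simp at this
  have h2 := hNT _ h1 j hj
  have h3 : cmb (Pi.single i 1 : Fin n → ℤ) x = x i := by
    unfold cmb
    rw [Finset.sum_eq_single i]
    · simp
    · intro k _ hk; simp [Pi.single_eq_of_ne hk]
    · intro h; exact absurd (Finset.mem_univ i) h
  rwa [h3] at h2

lemma nt2 {τ : ℂ} {n : ℕ} {ty : ι → Ty} {b : ι → ℂ} {x : Fin n → ℂ} (hNT : NTM τ ty b x) :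
    ∀ i j, ty j = Ty.ell → b j * x i + b j * x i ∉ Lam τ := by
  intro i j hj
  have h1 : (Pi.single i 2 : Fin n → ℤ) ≠ 0 := by
    intro h
    have := congrFun h i
    simp at this
  have h2 := hNT _ h1 j hj
  have h3 : b j * cmb (Pi.single i 2 : Fin n → ℤ) x = b j * x i + b j * x i := by
    unfold cmb
    rw [Finset.sum_eq_single i]
    · simp; ring
    · intro k _ hk; simp [Pi.single_eq_of_ne hk]
    · intro h; exact absurd (Finset.mem_univ i) h
  rwa [h3] at h2

lemma pcI_ell {n : ℕ} {ty : ι → Ty} {b : ι → ℂ} {x : Fin n → ℂ} {u₀ : Fin n → ι → ℂ}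
    (hu : ∀ i j, ty j = Ty.ell → u₀ i j = b j * x i) (s : Fin n → ℤ) (j : ι) (hj : ty j = Ty.ell) :
    pcI u₀ s j = b j * cmb s x := by
  rw [← pcI_mul b x s j]
  unfold pcI
  refine Finset.sum_congr rfl fun i _ => ?_
  rw [hu i j hj]

/-- Small multiples of points close to the given ones are not lattice points. -/
lemma near_goodF {τ : ℂ} (hτ : 0 < τ.im) {n : ℕ} {ty : ι → Ty} {b : ι → ℂ} {x : Fin n → ℂ}
    (hNT : NTM τ ty b x) {u₀ : Fin n → ι → ℂ} (hu₀ : ∀ i j, ty j = Ty.ell → u₀ i j = b j * x i)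
    (K : ℕ) : ∃ η : ℝ, 0 < η ∧ ∀ u : Fin n → ι → ℂ,
      (∀ i j, ‖u i j - u₀ i j‖ ≤ η) → ∀ s : Fin n → ℤ, s ≠ 0 → (∀ i, |s i| ≤ (K : ℤ)) →
        ∀ j, ty j = Ty.ell → pcI u s j ∉ Lam τ := by
  classical
  obtain ⟨η, hη, h⟩ := near_good hτ hNT K
  refine ⟨η, hη, fun u hu s hs hsK j hj => ?_⟩
  have h1 := h (fun i j => if ty j = Ty.ell then u i j else b j * x i) (fun i j => by
    by_cases hj : ty j = Ty.ell
    · simp only [if_pos hj]
      rw [← hu₀ i j hj]
      exact hu i j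
    · simp only [if_neg hj]
      rw [sub_self, norm_zero]
      exact hη.le) s hs hsK j hj
  have h2 : pcI (fun i j => if ty j = Ty.ell then u i j else b j * x i) s j = pcI u s j := by
    unfold pcI
    refine Finset.sum_congr rfl fun i _ => ?_
    simp only [if_pos hj]
  rwa [h2] at h1

/-- The quadruples only involve the coordinates `(k, j, _)`. -/
lemma VQ_congr {n : ℕ} {j : ι} {s : Fin n → ℤ} {V : Qua n ι} (hV : VQ j s V) {θ₁ θ₂ : VM n ι → ℂ}
    (h : ∀ (k : Fin n) (f : Bool), θ₁ (Sum.inr (Sum.inr (k, j, f))) =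
      θ₂ (Sum.inr (Sum.inr (k, j, f)))) :
    aeval θ₁ V.A = aeval θ₂ V.A ∧ aeval θ₁ V.B = aeval θ₂ V.B ∧ aeval θ₁ V.Z = aeval θ₂ V.Z ∧
      aeval θ₁ V.N = aeval θ₂ V.N := by
  induction hV with
  | base i =>
    refine ⟨?_, ?_, ?_, ?_⟩
    · simp only [baseQ, aeval_X]; exact h i false
    · simp only [baseQ, aeval_X]; exact h i true
    · simp only [baseQ, map_one]
    · simp only [baseQ, map_zero]
  | neg s V _ ih =>
    obtain ⟨a, b, z, n⟩ := ih
    refine ⟨?_, ?_, ?_, ?_⟩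
    · simp only [negQ]; exact a
    · simp only [negQ, map_neg]; rw [b]
    · simp only [negQ]; exact z
    · simp only [negQ, map_neg]; rw [n]
  | add s t V W _ _ _ _ ihV ihW =>
    obtain ⟨a, b, z, n⟩ := ihV
    obtain ⟨a', b', z', n'⟩ := ihW
    refine ⟨?_, ?_, ?_, ?_⟩ <;>
    · simp only [addQ, map_mul, map_sub, map_add, map_pow, a, b, z, n, a', b', z', n', map_ofNat]

/-- The values at the true point with other additive coordinates. -/
lemma valF_of {τ μ : ℂ} {n : ℕ} {ty : ι → Ty} {b b₁ b₀ : ι → ℂ} {c : ι → ι → ℂ} {x : Fin n → ℂ}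
    {u₀ : Fin n → ι → ℂ} (hu : ∀ i j, ty j = Ty.ell → u₀ i j = b j * x i) {j : ι}
    (hj : ty j = Ty.ell) {s : Fin n → ℤ} {V : Qua n ι} (hV : VQ j s V)
    (h : ValQ τ μ (ptM τ μ ty b₁ c (fun i j => b j * x i)) (b j * cmb s x)
      (cor τ μ (fun i j => b j * x i) s j) V) :
    ValQ τ μ (ptM τ μ ty b₀ c u₀) (b j * cmb s x) (cor τ μ u₀ s j) V := by
  have h0 : ∀ (k : Fin n) (f : Bool), ptM τ μ ty b₀ c u₀ (Sum.inr (Sum.inr (k, j, f))) =
      ptM τ μ ty b₁ c (fun i j => b j * x i) (Sum.inr (Sum.inr (k, j, f))) := by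
    intro k f
    cases f
    · rw [ptx, ptx]
      simp only [PN, hj]
      rw [hu k j hj]
    · rw [pty, pty, if_pos hj, if_pos hj, hu k j hj]
  obtain ⟨a, b', z, n'⟩ := VQ_congr hV h0
  have hc : cor τ μ u₀ s j = cor τ μ (fun i j => b j * x i) s j := by
    unfold cor
    rw [pcI_ell hu s j hj, pcI_mul]
    congr 1
    refine Finset.sum_congr rfl fun i _ => ?_
    rw [hu i j hj]
  refine ⟨h.nl, ?_, ?_, ?_, ?_⟩
  · rw [z]; exact h.z0
  · rw [a, z]; exact h.a
  · rw [b', z]; exact h.b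
  · rw [n', z, hc]; exact h.n

/-- The points close to the given point satisfying the equations come from complex numbers. -/
lemma lift {τ μ : ℂ} {n : ℕ} {ty : ι → Ty} {i₀ : Option ι} {π : ι → ι} {b : ι → ℂ}
    {c : ι → ι → ℂ} {u₀ : Fin n → ι → ℂ} (hN : Nrm τ μ) (hE : EchC ty i₀ π c)
    (hx : ∀ i j, ty j = Ty.ell → u₀ i j ∉ Lam τ)
    (hx2 : ∀ i j, ty j = Ty.ell → u₀ i j + u₀ i j ∉ Lam τ) :
    ∃ (S : Finset (MvPolynomial (VM n ι) ℤ)) (C η : ℝ), 1 ≤ C ∧ 0 < η ∧
      (∀ P ∈ S, aeval (ptM τ μ ty b c u₀) P = 0) ∧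
      ∀ (θ' : VM n ι → ℂ) (ε : ℝ), ε ≤ η → (∀ P ∈ S, aeval θ' P = 0) →
        (∀ v, ‖θ' v - ptM τ μ ty b c u₀ v‖ ≤ ε) →
        ∃ (u : Fin n → ι → ℂ) (b' : ι → ℂ) (c' : ι → ι → ℂ), ptM τ μ ty b' c' u = θ' ∧
          EchC ty i₀ π c' ∧ ∀ i j, ‖u i j - u₀ i j‖ ≤ C * ε := by
  classical
  set θ : VM n ι → ℂ := ptM τ μ ty b c u₀ with hθ
  obtain ⟨f2, hf20, hf2a, e2, he2, hf2⟩ := CritE.isol hN.g2
  obtain ⟨f3, hf30, hf3a, e3, he3, hf3⟩ := CritE.isol hN.g3
  set q2 : MvPolynomial (VM n ι) ℤ := Polynomial.aeval (X (Sum.inl 0)) f2 with hq2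
  set q3 : MvPolynomial (VM n ι) ℤ := Polynomial.aeval (X (Sum.inl 1)) f3 with hq3
  have hq2a : ∀ θ : VM n ι → ℂ, aeval θ q2 = Polynomial.aeval (θ (Sum.inl 0)) f2 := by
    intro θ
    rw [hq2, ← Polynomial.aeval_algHom_apply, aeval_X]
  have hq3a : ∀ θ : VM n ι → ℂ, aeval θ q3 = Polynomial.aeval (θ (Sum.inl 1)) f3 := by
    intro θ
    rw [hq3, ← Polynomial.aeval_algHom_apply, aeval_X]
  -- uniform constants
  obtain ⟨C, η, hC1, hη0, hCE⟩ := unif (α := Fin n × ι) (fun a C η => ∀ (x' y' : ℂ) (ε : ℝ), ε ≤ η →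
    (ty a.2 = Ty.ell → ‖x' - xe τ μ (u₀ a.1 a.2)‖ ≤ ε → ‖y' - ye τ μ (u₀ a.1 a.2)‖ ≤ ε →
      y' ^ 2 - 4 * x' ^ 3 + (μ ^ 4 * gg2 τ) * x' + μ ^ 6 * gg3 τ = 0 →
      ∃ u, xe τ μ u = x' ∧ ye τ μ u = y' ∧ ‖u - u₀ a.1 a.2‖ ≤ C * ε ∧
        ‖ze τ μ u - ze τ μ (u₀ a.1 a.2)‖ ≤ C * ε) ∧
    (‖x' - Complex.exp (u₀ a.1 a.2)‖ ≤ ε → ∃ u, Complex.exp u = x' ∧
      ‖u - u₀ a.1 a.2‖ ≤ C * ε)) (by
      intro a C C' η η' hCC hη' hηη hQ x' y' ε hε
      refine ⟨fun ha hx hy heq => ?_, fun hx => ?_⟩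
      · have hε0 : 0 ≤ ε := (norm_nonneg _).trans hx
        obtain ⟨u, h1, h2, h3, h4⟩ := (hQ x' y' ε (hε.trans hηη)).1 ha hx hy heq
        have h5 : C * ε ≤ C' * ε := mul_le_mul_of_nonneg_right hCC hε0
        exact ⟨u, h1, h2, h3.trans h5, h4.trans h5⟩
      · have hε0 : 0 ≤ ε := (norm_nonneg _).trans hx
        obtain ⟨u, h1, h2⟩ := (hQ x' y' ε (hε.trans hηη)).2 hx
        exact ⟨u, h1, h2.trans (mul_le_mul_of_nonneg_right hCC hε0)⟩) (by
      intro a
      obtain ⟨L, r, hL, hr, hLr⟩ := lipE (u₀ a.1 a.2)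
      by_cases ha : ty a.2 = Ty.ell
      · obtain ⟨C, η, hη, hQ⟩ := ellPt hN (hx a.1 a.2 ha)
          (CritE.wpd_ne hN.im (hx a.1 a.2 ha) (hx2 a.1 a.2 ha))
        refine ⟨max C L, min η r, lt_min hη hr, fun x' y' ε hε => ⟨fun _ h1 h2 h3 => ?_,
          fun h1 => ?_⟩⟩
        · have hε0 : 0 ≤ ε := (norm_nonneg _).trans h1
          obtain ⟨u, g1, g2, g3, g4⟩ := hQ x' y' ε (hε.trans (min_le_left _ _)) h1 h2 h3
          have h5 : C * ε ≤ max C L * ε := mul_le_mul_of_nonneg_right (le_max_left _ _) hε0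
          exact ⟨u, g1, g2, g3.trans h5, g4.trans h5⟩
        · have hε0 : 0 ≤ ε := (norm_nonneg _).trans h1
          obtain ⟨v, g1, g2⟩ := hLr x' (h1.trans (hε.trans (min_le_right _ _)))
          refine ⟨v, g1, g2.trans ?_⟩
          calc L * ‖x' - Complex.exp (u₀ a.1 a.2)‖ ≤ L * ε := mul_le_mul_of_nonneg_left h1 hL
            _ ≤ max C L * ε := mul_le_mul_of_nonneg_right (le_max_right _ _) hε0
      · refine ⟨L, r, hr, fun x' y' ε hε => ⟨fun h => absurd h ha, fun h1 => ?_⟩⟩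
        obtain ⟨v, g1, g2⟩ := hLr x' (h1.trans hε)
        exact ⟨v, g1, g2.trans (mul_le_mul_of_nonneg_left h1 hL)⟩)
  set Z₀ : ℝ := ∑ i, ∑ l, ‖ze τ μ (u₀ i l)‖ with hZ₀
  have hZ₀l : ∀ i l, ‖ze τ μ (u₀ i l)‖ ≤ Z₀ := fun i l =>
    (Finset.single_le_sum (f := fun l => ‖ze τ μ (u₀ i l)‖) (fun _ _ => norm_nonneg _)
      (Finset.mem_univ l)).trans
      (Finset.single_le_sum (f := fun i => ∑ l, ‖ze τ μ (u₀ i l)‖)
        (fun _ _ => Finset.sum_nonneg fun _ _ => norm_nonneg _) (Finset.mem_univ i))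
  have hZ₀0 : 0 ≤ Z₀ := Finset.sum_nonneg fun _ _ => Finset.sum_nonneg fun _ _ => norm_nonneg _
  set C₀ : ℝ := ∑ i, ∑ l, ‖c i l‖ with hC₀
  have hC₀l : ∀ i l, ‖c i l‖ ≤ C₀ := fun i l =>
    (Finset.single_le_sum (f := fun l => ‖c i l‖) (fun _ _ => norm_nonneg _)
      (Finset.mem_univ l)).trans
      (Finset.single_le_sum (f := fun i => ∑ l, ‖c i l‖)
        (fun _ _ => Finset.sum_nonneg fun _ _ => norm_nonneg _) (Finset.mem_univ i))
  have hC₀0 : 0 ≤ C₀ := Finset.sum_nonneg fun _ _ => Finset.sum_nonneg fun _ _ => norm_nonneg _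
  -- the equations
  set S : Finset (MvPolynomial (VM n ι) ℤ) := {q2, q3} ∪
    (Finset.univ.filter (fun ij : Fin n × ι => ty ij.2 = Ty.ell)).image (fun ij => EQ ij.1 ij.2) ∪
    (Finset.univ.filter (fun v : VM n ι => θ v = 0)).image (fun v => X v) ∪
    (Finset.univ.filter (fun v : VM n ι => θ v = 1)).image (fun v => X v - 1) with hS
  refine ⟨S, 1 + C + Fintype.card ι * (Z₀ + C + C₀ * C), min (min η 1) (min e2 e3), ?_,
    lt_min (lt_min hη0 one_pos) (lt_min he2 he3), ?_, ?_⟩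
  · have : 0 ≤ Fintype.card ι * (Z₀ + C + C₀ * C) := by positivity
    linarith
  · intro P hP
    rw [hS, Finset.mem_union, Finset.mem_union, Finset.mem_union, Finset.mem_insert,
      Finset.mem_singleton, Finset.mem_image, Finset.mem_image, Finset.mem_image] at hP
    rcases hP with (((h | h) | ⟨⟨i, j⟩, hj, h⟩) | ⟨v, hv, h⟩) | ⟨v, hv, h⟩
    · rw [h, hq2a, hθ, pt0, hf2a]
    · rw [h, hq3a, hθ, pt1, hf3a]
    · have hj' : ty j = Ty.ell := (Finset.mem_filter.1 hj).2
      rw [← h, EQ_aeval, hθ, pt0, pt1, ptx, pty, if_pos hj']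
      simp only [PN, hj']
      unfold xe ye
      have := wpd_sq hN.im (hx i j hj')
      linear_combination μ ^ 6 * this
    · rw [← h, aeval_X]
      exact (Finset.mem_filter.1 hv).2
    · rw [← h, map_sub, aeval_X, map_one, (Finset.mem_filter.1 hv).2, sub_self]
  · intro θ' ε hε hSz hcl
    have hε1 : ε ≤ η := hε.trans ((min_le_left _ _).trans (min_le_left _ _))
    have hε2 : ε ≤ 1 := hε.trans ((min_le_left _ _).trans (min_le_right _ _))
    have hε3 : ε ≤ e2 := hε.trans ((min_le_right _ _).trans (min_le_left _ _))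
    have hε4 : ε ≤ e3 := hε.trans ((min_le_right _ _).trans (min_le_right _ _))
    have hε0 : 0 ≤ ε := (norm_nonneg _).trans (hcl (Sum.inl 0))
    have hP : ∀ P, (((P = q2 ∨ P = q3) ∨ (∃ i j, ty j = Ty.ell ∧ EQ i j = P)) ∨
        (∃ v, θ v = 0 ∧ X v = P)) ∨ (∃ v, θ v = 1 ∧ X v - 1 = P) → aeval θ' P = 0 := by
      intro P hP
      apply hSz
      rw [hS, Finset.mem_union, Finset.mem_union, Finset.mem_union, Finset.mem_insert,
        Finset.mem_singleton, Finset.mem_image, Finset.mem_image, Finset.mem_image]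
      rcases hP with (((h | h) | ⟨i, j, hj, h⟩) | ⟨v, hv, h⟩) | ⟨v, hv, h⟩
      · exact Or.inl (Or.inl (Or.inl (Or.inl h)))
      · exact Or.inl (Or.inl (Or.inl (Or.inr h)))
      · exact Or.inl (Or.inl (Or.inr ⟨(i, j), Finset.mem_filter.2 ⟨Finset.mem_univ _, hj⟩, h⟩))
      · exact Or.inl (Or.inr ⟨v, Finset.mem_filter.2 ⟨Finset.mem_univ _, hv⟩, h⟩)
      · exact Or.inr ⟨v, Finset.mem_filter.2 ⟨Finset.mem_univ _, hv⟩, h⟩
    have hz0 : ∀ v, θ v = 0 → θ' v = 0 := by
      intro v hv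
      have := hP _ (Or.inl (Or.inr ⟨v, hv, rfl⟩))
      rwa [aeval_X] at this
    have hz1 : ∀ v, θ v = 1 → θ' v = 1 := by
      intro v hv
      have := hP _ (Or.inr ⟨v, hv, rfl⟩)
      rw [map_sub, aeval_X, map_one] at this
      exact sub_eq_zero.1 this
    have g2 : θ' (Sum.inl 0) = μ ^ 4 * gg2 τ := by
      apply hf2
      · have := hcl (Sum.inl 0)
        rw [hθ, pt0] at this
        linarith
      · rw [← hq2a]
        exact hP _ (Or.inl (Or.inl (Or.inl (Or.inl rfl))))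
    have g3 : θ' (Sum.inl 1) = μ ^ 6 * gg3 τ := by
      apply hf3
      · have := hcl (Sum.inl 1)
        rw [hθ, pt1] at this
        linarith
      · rw [← hq3a]
        exact hP _ (Or.inl (Or.inl (Or.inl (Or.inr rfl))))
    have hE' : ∀ i j, ∃ u, ty j = Ty.ell → xe τ μ u = θ' (Sum.inr (Sum.inr (i, j, false))) ∧
        ye τ μ u = θ' (Sum.inr (Sum.inr (i, j, true))) ∧ ‖u - u₀ i j‖ ≤ C * ε ∧
        ‖ze τ μ u - ze τ μ (u₀ i j)‖ ≤ C * ε := by
      intro i j
      by_cases hj : ty j = Ty.ell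
      · have h1 := hcl (Sum.inr (Sum.inr (i, j, false)))
        have h2 := hcl (Sum.inr (Sum.inr (i, j, true)))
        have h3 := hP _ (Or.inl (Or.inl (Or.inr ⟨i, j, hj, rfl⟩)))
        rw [hθ, ptx] at h1
        rw [hθ, pty, if_pos hj] at h2
        simp only [PN, hj] at h1
        rw [EQ_aeval, g2, g3] at h3
        obtain ⟨u, hu⟩ := (hCE (i, j) _ _ ε hε1).1 hj h1 h2 h3
        exact ⟨u, fun _ => hu⟩
      · exact ⟨0, fun h => absurd h hj⟩
    choose uE huE using hE'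
    have hM' : ∀ i j, ∃ u, ty j = Ty.mul → Complex.exp u = θ' (Sum.inr (Sum.inr (i, j, false))) ∧
        ‖u - u₀ i j‖ ≤ C * ε := by
      intro i j
      by_cases hj : ty j = Ty.mul
      · have h1 := hcl (Sum.inr (Sum.inr (i, j, false)))
        rw [hθ, ptx] at h1
        simp only [PN, hj] at h1
        obtain ⟨u, hu⟩ := (hCE (i, j) _ 0 ε hε1).2 h1
        exact ⟨u, fun _ => hu⟩
      · exact ⟨0, fun h => absurd h hj⟩
    choose uM huM using hM'
    set c' : ι → ι → ℂ := fun i j => θ' (Sum.inr (Sum.inl (i, j))) with hc'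
    set b' : ι → ℂ := fun i => θ' (Sum.inr (Sum.inl (i, i))) with hb'
    set u : Fin n → ι → ℂ := fun i j => if ty j = Ty.ell then uE i j else
      if ty j = Ty.mul then uM i j else θ' (Sum.inr (Sum.inr (i, j, false))) -
        ∑ l, (if ty l = Ty.ell then c' j l * ze τ μ (uE i l) else 0) with hu
    have hue : ∀ i j, ty j = Ty.ell → u i j = uE i j := fun i j hj => by
      rw [hu]; simp only; rw [if_pos hj]
    have hum : ∀ i j, ty j = Ty.mul → u i j = uM i j := fun i j hj => by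
      rw [hu]; simp only; rw [if_neg (by rw [hj]; decide), if_pos hj]
    have hua : ∀ i j, ty j = Ty.add → u i j = θ' (Sum.inr (Sum.inr (i, j, false))) -
        ∑ l, (if ty l = Ty.ell then c' j l * ze τ μ (uE i l) else 0) := fun i j hj => by
      rw [hu]; simp only; rw [if_neg (by rw [hj]; decide), if_neg (by rw [hj]; decide)]
    refine ⟨u, b', c', ?_, ?_, ?_⟩
    · funext v
      rcases v with q | ⟨i, j⟩ | ⟨i, j, f⟩
      · fin_cases q
        · exact (pt0 τ μ ty b' c' u).trans g2.symm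
        · exact (pt1 τ μ ty b' c' u).trans g3.symm
      · rw [ptc]
        by_cases h1 : ty i = Ty.add ∧ ty j = Ty.ell
        · rw [if_pos h1]
        · rw [if_neg h1]
          by_cases h2 : i = j ∧ ty i = Ty.add
          · rw [if_pos h2, hb']
            simp only
            rw [← h2.1]
          · rw [if_neg h2]
            refine (hz0 _ ?_).symm
            rw [hθ, ptc, if_neg h1, if_neg h2]
      · cases f
        · rw [ptx]
          rcases hj : ty j with _ | _ | _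
          · simp only [PN, hj]
            rw [hua i j hj]
            have : ∀ l, (if ty l = Ty.ell then c' j l * ze τ μ (u i l) else 0) =
                (if ty l = Ty.ell then c' j l * ze τ μ (uE i l) else 0) := fun l => by
              by_cases hl : ty l = Ty.ell
              · rw [if_pos hl, if_pos hl, hue i l hl]
              · rw [if_neg hl, if_neg hl]
            simp only [this]
            ring
          · simp only [PN, hj]
            rw [hum i j hj]
            exact (huM i j hj).1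
          · simp only [PN, hj]
            rw [hue i j hj]
            exact (huE i j hj).1
        · rw [pty]
          by_cases hj : ty j = Ty.ell
          · rw [if_pos hj, hue i j hj]
            exact (huE i j hj).2.1
          · rw [if_neg hj]
            refine (hz0 _ ?_).symm
            rw [hθ, pty, if_neg hj]
    · refine ⟨fun i hi => ⟨(hE.1 i hi).1, fun j hj => ?_⟩, fun i hi hii => ⟨(hE.2 i hi hii).1,
        fun i' hi' => ?_⟩⟩
      · refine hz0 _ ?_
        rw [hθ, ptc_ae _ _ _ _ _ _ (hE.1 i hi).1 hj]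
        exact (hE.1 i hi).2 j hj
      · have h1 := (hE.2 i hi hii).2 i' hi'
        have h2 : θ (Sum.inr (Sum.inl (i', π i))) = c i' (π i) := by
          rw [hθ, ptc_ae _ _ _ _ _ _ hi' (hE.2 i hi hii).1]
        by_cases h3 : i' = i
        · rw [if_pos h3] at h1 ⊢
          exact hz1 _ (h2.trans h1)
        · rw [if_neg h3] at h1 ⊢
          exact hz0 _ (h2.trans h1)
    · intro i j
      have hA : 0 ≤ Fintype.card ι * (Z₀ + C + C₀ * C) := by positivity
      have hCε : C * ε ≤ (1 + C + Fintype.card ι * (Z₀ + C + C₀ * C)) * ε :=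
        mul_le_mul_of_nonneg_right (by linarith) hε0
      rcases hj : ty j with _ | _ | _
      · rw [hua i j hj]
        have h1 := hcl (Sum.inr (Sum.inr (i, j, false)))
        rw [hθ, ptx] at h1
        simp only [PN, hj] at h1
        have h2 : θ' (Sum.inr (Sum.inr (i, j, false))) -
            ∑ l, (if ty l = Ty.ell then c' j l * ze τ μ (uE i l) else 0) - u₀ i j =
            (θ' (Sum.inr (Sum.inr (i, j, false))) - (u₀ i j +
              ∑ l, (if ty l = Ty.ell then c j l * ze τ μ (u₀ i l) else 0))) -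
            ∑ l, ((if ty l = Ty.ell then c' j l * ze τ μ (uE i l) else 0) -
              (if ty l = Ty.ell then c j l * ze τ μ (u₀ i l) else 0)) := by
          rw [Finset.sum_sub_distrib]
          ring
        rw [h2]
        have h3 : ∀ l, ‖(if ty l = Ty.ell then c' j l * ze τ μ (uE i l) else 0) -
              (if ty l = Ty.ell then c j l * ze τ μ (u₀ i l) else 0)‖ ≤
              (Z₀ + C + C₀ * C) * ε := by
          intro l
          by_cases hl : ty l = Ty.ell
          · rw [if_pos hl, if_pos hl]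
            have h4 := hcl (Sum.inr (Sum.inl (j, l)))
            rw [hθ, ptc_ae _ _ _ _ _ _ hj hl] at h4
            have h5 := (huE i l hl).2.2.2
            have h6 : ‖ze τ μ (uE i l)‖ ≤ Z₀ + C := by
              calc ‖ze τ μ (uE i l)‖ = ‖ze τ μ (u₀ i l) +
                    (ze τ μ (uE i l) - ze τ μ (u₀ i l))‖ := by congr 1; ring
                _ ≤ ‖ze τ μ (u₀ i l)‖ + ‖ze τ μ (uE i l) - ze τ μ (u₀ i l)‖ :=
                  norm_add_le _ _
                _ ≤ Z₀ + C * ε := add_le_add (hZ₀l i l) h5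
                _ ≤ Z₀ + C := by nlinarith
            calc ‖c' j l * ze τ μ (uE i l) - c j l * ze τ μ (u₀ i l)‖
                = ‖(c' j l - c j l) * ze τ μ (uE i l) +
                    c j l * (ze τ μ (uE i l) - ze τ μ (u₀ i l))‖ := by congr 1; ring
              _ ≤ ‖(c' j l - c j l) * ze τ μ (uE i l)‖ +
                    ‖c j l * (ze τ μ (uE i l) - ze τ μ (u₀ i l))‖ := norm_add_le _ _
              _ = ‖c' j l - c j l‖ * ‖ze τ μ (uE i l)‖ +
                    ‖c j l‖ * ‖ze τ μ (uE i l) - ze τ μ (u₀ i l)‖ := by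
                  rw [norm_mul, norm_mul]
              _ ≤ ε * (Z₀ + C) + C₀ * (C * ε) := by
                  refine add_le_add ?_ ?_
                  · exact mul_le_mul h4 h6 (norm_nonneg _) hε0
                  · exact mul_le_mul (hC₀l j l) h5 (norm_nonneg _) hC₀0
              _ = (Z₀ + C + C₀ * C) * ε := by ring
          · rw [if_neg hl, if_neg hl, sub_zero, norm_zero]
            positivity
        calc ‖(θ' (Sum.inr (Sum.inr (i, j, false))) - (u₀ i j +
              ∑ l, (if ty l = Ty.ell then c j l * ze τ μ (u₀ i l) else 0))) -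
            ∑ l, ((if ty l = Ty.ell then c' j l * ze τ μ (uE i l) else 0) -
              (if ty l = Ty.ell then c j l * ze τ μ (u₀ i l) else 0))‖
            ≤ ‖θ' (Sum.inr (Sum.inr (i, j, false))) - (u₀ i j +
              ∑ l, (if ty l = Ty.ell then c j l * ze τ μ (u₀ i l) else 0))‖ +
            ‖∑ l, ((if ty l = Ty.ell then c' j l * ze τ μ (uE i l) else 0) -
              (if ty l = Ty.ell then c j l * ze τ μ (u₀ i l) else 0))‖ := norm_sub_le _ _
          _ ≤ ε + ∑ _l : ι, (Z₀ + C + C₀ * C) * ε :=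
              add_le_add h1 (norm_sum_le_of_le _ fun l _ => h3 l)
          _ = (1 + Fintype.card ι * (Z₀ + C + C₀ * C)) * ε := by
              rw [Finset.sum_const, Finset.card_univ, nsmul_eq_mul]
              ring
          _ ≤ (1 + C + Fintype.card ι * (Z₀ + C + C₀ * C)) * ε :=
              mul_le_mul_of_nonneg_right (by linarith) hε0
      · rw [hum i j hj]
        exact (huM i j hj).2.trans hCε
      · rw [hue i j hj]
        exact (huE i j hj).2.2.1.trans hCε

/-- The values at the true point. -/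
lemma true_bd {τ μ : ℂ} {n G W : ℕ} {ty : ι → Ty} {b b₀ : ι → ℂ} {c : ι → ι → ℂ} {x : Fin n → ℂ}
    {u₀ : Fin n → ι → ℂ} {C2 h : ℝ} (hh : 0 ≤ h) (hC2 : 0 ≤ C2)
    (hZ : ∀ (z r : ℂ) (h : ℝ) (V : Qua n ι), 0 ≤ h →
      ValQ τ μ (ptM τ μ ty b₀ c u₀) z r V → SizQ h V →
      ‖aeval (ptM τ μ ty b₀ c u₀) V.Z‖ ≤
        Real.exp (C2 * (h + 1)) * d1 τ z ^ 2)
    (hPE : S_PEMval) (p : (Fin G → ι → Fin W) → ℤ) (s : Fin G → Fin n → ℤ)
    (V : Fin G → ι → Qua n ι) (hs : ∀ r i, 0 ≤ s r i)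
    (hpc : ∀ r j, ty j = Ty.ell → pcI u₀ (s r) j = b j * cmb (s r) x)
    (hV : ∀ r j, ty j = Ty.ell → ValQ τ μ (ptM τ μ ty b₀ c u₀)
      (b j * cmb (s r) x) (cor τ μ u₀ (s r) j) (V r j))
    (hS : ∀ r j, ty j = Ty.ell → SizQ h (V r j)) :
    ‖aeval (ptM τ μ ty b₀ c u₀) (PEM ty p s V)‖ ≤
      Real.exp (G * Fintype.card ι * (Fintype.card ι * W) * (C2 * (h + 1))) *
      (‖AFv p (fun r => PN τ μ ty c (pcI u₀ (s r)))‖ *
        ∏ r, dd τ ty b (2 * (Fintype.card ι * W)) (cmb (s r) x)) := by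
  classical
  rw [valPEM hPE ty b₀ c u₀ W p s V hs (fun r j hj => by
    rw [hpc r j hj]
    exact hV r j hj)]
  have hAF : (∑ y : Fin G → ι → Fin W, (p y : ℂ) *
        ∏ r, ∏ i, PN τ μ ty c (pcI u₀ (s r)) i ^ (y r i : ℕ)) =
      AFv p (fun r => PN τ μ ty c (pcI u₀ (s r))) := by
    unfold AFv
    rfl
  rw [hAF, norm_mul, norm_prod]
  set N : ℕ := Fintype.card ι with hN
  have h1 : ∏ r, ‖∏ j, (if ty j = Ty.ell then
        aeval (ptM τ μ ty b₀ c u₀) (V r j).Z ^ (N * W) else 1)‖ ≤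
      Real.exp (G * N * (N * W) * (C2 * (h + 1))) * ∏ r, dd τ ty b (2 * (N * W)) (cmb (s r) x) := by
    calc ∏ r, ‖∏ j, (if ty j = Ty.ell then
        aeval (ptM τ μ ty b₀ c u₀) (V r j).Z ^ (N * W) else 1)‖
        ≤ ∏ r, (Real.exp (N * (N * W) * (C2 * (h + 1))) *
            dd τ ty b (2 * (N * W)) (cmb (s r) x)) := by
          refine Finset.prod_le_prod (fun r _ => norm_nonneg _) fun r _ => ?_
          rw [norm_prod]
          have h2 : Real.exp (N * (N * W) * (C2 * (h + 1))) *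
              dd τ ty b (2 * (N * W)) (cmb (s r) x) =
              ∏ j, (Real.exp ((N * W) * (C2 * (h + 1))) *
                (if ty j = Ty.ell then d1 τ (b j * cmb (s r) x) ^ (2 * (N * W)) else 1)) := by
            rw [Finset.prod_mul_distrib, Finset.prod_const, Finset.card_univ, ← hN,
              ← Real.exp_nat_mul]
            unfold dd
            congr 2
            ring
          rw [h2]
          refine Finset.prod_le_prod (fun j _ => norm_nonneg _) fun j _ => ?_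
          by_cases hj : ty j = Ty.ell
          · rw [if_pos hj, if_pos hj, norm_pow]
            calc ‖aeval (ptM τ μ ty b₀ c u₀) (V r j).Z‖ ^ (N * W)
                ≤ (Real.exp (C2 * (h + 1)) * d1 τ (b j * cmb (s r) x) ^ 2) ^ (N * W) :=
                  pow_le_pow_left₀ (norm_nonneg _) (hZ _ _ h _ hh (hV r j hj) (hS r j hj)) _
              _ = _ := by
                  rw [mul_pow, ← Real.exp_nat_mul, ← pow_mul]
                  push_cast
                  rfl
          · rw [if_neg hj, if_neg hj, norm_one, mul_one]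
            apply Real.one_le_exp
            positivity
      _ = _ := by
          rw [Finset.prod_mul_distrib, Finset.prod_const, Finset.card_univ, Fintype.card_fin,
            ← Real.exp_nat_mul]
          congr 2
          ring
  have hdd : 0 ≤ ∏ r, dd τ ty b (2 * (N * W)) (cmb (s r) x) := by
    refine Finset.prod_nonneg fun r _ => Finset.prod_nonneg fun j _ => ?_
    by_cases hj : ty j = Ty.ell
    · rw [if_pos hj]
      apply pow_nonneg
      unfold d1
      exact le_min zero_le_one Metric.infDist_nonneg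
    · rw [if_neg hj]
      exact zero_le_one
  calc (∏ r, ‖∏ j, (if ty j = Ty.ell then
        aeval (ptM τ μ ty b₀ c u₀) (V r j).Z ^ (N * W) else 1)‖) *
        ‖AFv p (fun r => PN τ μ ty c (pcI u₀ (s r)))‖
      ≤ (Real.exp (G * N * (N * W) * (C2 * (h + 1))) *
          ∏ r, dd τ ty b (2 * (N * W)) (cmb (s r) x)) *
          ‖AFv p (fun r => PN τ μ ty c (pcI u₀ (s r)))‖ :=
        mul_le_mul_of_nonneg_right h1 (norm_nonneg _)
    _ = _ := by ring

end

end I_CritF

open I_CritF in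
open I_CritM hiding lift true_bd in
/-- **N3** (criterion step). -/
theorem CritF_pf (h1 : S_TreeQ) (h2 : S_TrueQ) (h3 : S_ZUpQ) (h4 : S_PEMval) : S_CritF := by
  classical
  intro ι _ n G k hn hG τ μ ty i₀ π b c x u₀ hN hE hNT hu₀ hθ
  have hu₀e : ∀ i j, ty j = Ty.ell → u₀ i j = b j * x i := fun i j hj =>
    hu₀ i j (by rw [hj]; decide)
  have hpc : ∀ s : Fin n → ℤ, ∀ j, ty j = Ty.ell → pcI u₀ s j = b j * cmb s x :=
    fun s j hj => pcI_ell hu₀e s j hj
  have hx1 : ∀ i j, ty j = Ty.ell → u₀ i j ∉ Lam τ := fun i j hj => by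
    rw [hu₀e i j hj]
    exact nt1 hNT i j hj
  have hx2 : ∀ i j, ty j = Ty.ell → u₀ i j + u₀ i j ∉ Lam τ := fun i j hj => by
    rw [hu₀e i j hj]
    exact nt2 hNT i j hj
  set θ : VM n ι → ℂ := ptM τ μ ty (fun _ => 0) c u₀ with hθdef
  obtain ⟨C0, hC01, hC0⟩ := x_Crit (VM n ι) k θ hθ
  obtain ⟨C1, K1, hC11, hT1⟩ := h1 ι n hn
  obtain ⟨C2, hC21, hC2⟩ := h3 ι τ μ hN.im hN.mu n θ
  obtain ⟨C4, hC41, hC4⟩ := h4 ι n G
  obtain ⟨S, C3, η, hC31, hη0, hSv, hlift⟩ := I_CritF.lift (b := fun _ => 0) (u₀ := u₀) hN hE hx1 hx2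
  obtain ⟨η4, hη4, hgood⟩ := near_goodF hN.im hNT hu₀e K1
  obtain ⟨KS, hKS⟩ := CritE.fin_bd S
  set m : ℕ := Fintype.card ι with hm
  set K : ℝ := C4 * (C1 + 4) with hK
  have hK1 : 1 ≤ K := by nlinarith
  set A : ℝ := G * m * m * (C2 * (C1 + 1)) with hA
  have hA0 : 0 ≤ A := by positivity
  have hB0 : 0 ≤ 4 * C0 * (2 * K) ^ (k + 1) := by positivity
  set C : ℝ := 2 * A + 4 * C0 * (2 * K) ^ (k + 1) + 1 with hC
  have hC1' : 1 ≤ C := by linarith
  refine ⟨C, ⌈1 + KS + 1 / η + 1 / η4 + C3⌉₊, hC1', ?_⟩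
  intro T hT AA hAA W h U hW hh hU p hp0 hpb hsm
  have hTr1 : 1 + KS + 1 / η + 1 / η4 + C3 ≤ (T : ℝ) := (Nat.le_ceil _).trans (by exact_mod_cast hT)
  have hKS0 : (0 : ℝ) ≤ KS := Nat.cast_nonneg _
  have hη' : 0 < 1 / η := by positivity
  have hη4' : 0 < 1 / η4 := by positivity
  have hT1r : (1 : ℝ) ≤ T := by linarith
  have hT1n : 1 ≤ T := by exact_mod_cast hT1r
  have hWr : (1 : ℝ) ≤ W := by exact_mod_cast hW
  have hT11 : (1 : ℝ) ≤ (T : ℝ) ^ 11 := one_le_pow₀ hT1r
  have hT10 : (1 : ℝ) ≤ (T : ℝ) ^ 10 := one_le_pow₀ hT1r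
  have hTT : (T : ℝ) ≤ (T : ℝ) ^ 11 := by
    calc (T : ℝ) = (T : ℝ) ^ 1 := (pow_one _).symm
      _ ≤ (T : ℝ) ^ 11 := pow_le_pow_right₀ hT1r (by norm_num)
  have hTT10 : (T : ℝ) ^ 10 ≤ (T : ℝ) ^ 11 := pow_le_pow_right₀ hT1r (by norm_num)
  have hWT : (T : ℝ) ^ 11 ≤ W * (T : ℝ) ^ 11 := by nlinarith
  set N : ℝ := W * (T : ℝ) ^ 11 + h with hNN
  have hTN : (T : ℝ) ≤ N := by linarith
  have hN1 : 1 ≤ N := by linarith
  have hN0 : 0 < N := by linarith
  have hNp : 1 ≤ N ^ (k + 1) := one_le_pow₀ hN1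
  have hNNp : N ≤ N ^ (k + 1) := by
    calc N = N ^ 1 := (pow_one _).symm
      _ ≤ N ^ (k + 1) := pow_le_pow_right₀ hN1 (by omega)
  set X : ℕ := ⌈K * N⌉₊ with hX
  have hXlo : K * N ≤ X := Nat.le_ceil _
  have hKN : 1 ≤ K * N := by nlinarith
  have hXhi : (X : ℝ) ≤ 2 * K * N := by
    have := (Nat.ceil_lt_add_one (a := K * N) (by linarith)).le
    linarith
  have hNX : N ≤ X := by nlinarith
  have hX1r : (1 : ℝ) ≤ X := by linarith
  have hX1 : 1 ≤ X := by exact_mod_cast hX1r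
  have hX0 : (0 : ℝ) < X := by linarith
  have hU0 : 0 < U := by
    have : 0 < C * N ^ (k + 1) := by positivity
    linarith
  have hCr : C0 * (X : ℝ) ^ (k + 1) ≤ U / 2 := by
    have h1 : (X : ℝ) ^ (k + 1) ≤ (2 * K * N) ^ (k + 1) := pow_le_pow_left₀ hX0.le hXhi _
    rw [mul_pow] at h1
    have h2 : C0 * (X : ℝ) ^ (k + 1) ≤ C0 * ((2 * K) ^ (k + 1) * N ^ (k + 1)) :=
      mul_le_mul_of_nonneg_left h1 (by linarith)
    have h3 : 4 * C0 * (2 * K) ^ (k + 1) * N ^ (k + 1) ≤ C * N ^ (k + 1) := by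
      apply mul_le_mul_of_nonneg_right _ (by linarith)
      linarith
    have h4 : 0 ≤ C0 * ((2 * K) ^ (k + 1) * N ^ (k + 1)) := by positivity
    have h5 : 4 * C0 * (2 * K) ^ (k + 1) * N ^ (k + 1) =
        4 * (C0 * ((2 * K) ^ (k + 1) * N ^ (k + 1))) := by ring
    rw [h5] at h3
    linarith
  -- the set of polynomials
  let PP : Set (MvPolynomial (VM n ι) ℤ) := {P | P ∈ S ∨
    ∃ (s : Fin G → Fin n → ℤ) (V : Fin G → ι → Qua n ι),
      (∀ r, s r ∈ AA) ∧
      (∀ r j, ty j = Ty.ell → VQ j (s r) (V r j)) ∧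
      (∀ r j, ty j = Ty.ell → SizQ (C1 * T ^ 10) (V r j)) ∧ P = PEM ty p s V}
  have hh1 : (0 : ℝ) ≤ C1 * (T : ℝ) ^ 10 := by positivity
  have h5 : C1 * (T : ℝ) ^ 10 + 1 ≤ (C1 + 1) * (T : ℝ) ^ 11 := by nlinarith
  have h5a : C1 * (T : ℝ) ^ 10 + T + 1 ≤ (C1 + 2) * (T : ℝ) ^ 11 := by nlinarith
  have hPP : ∀ P ∈ PP, P.totalDegree ≤ X ∧ len P ≤ Real.exp X ∧
      ‖aeval θ P‖ ≤ Real.exp (-(U / 2)) := by
    intro P hP
    rcases hP with hP | ⟨s, V, hs, hVP, hVs, rfl⟩
    · obtain ⟨h1, h2⟩ := hKS P hP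
      have h3 : (KS : ℝ) ≤ X := by linarith
      refine ⟨h1.trans (by exact_mod_cast h3), h2.trans (Real.exp_le_exp.2 h3), ?_⟩
      rw [hSv P hP, norm_zero]
      exact (Real.exp_pos _).le
    · have hs0 : ∀ r i, 0 ≤ s r i := fun r i => ((hAA _ (hs r)).2 i).1
      have hval : ∀ r j, ty j = Ty.ell → ValQ τ μ θ (b j * cmb (s r) x)
          (cor τ μ u₀ (s r) j) (V r j) := fun r j hj =>
        valF_of hu₀e hj (hVP r j hj)
          (h2 ι τ μ hN.im hN.mu n ty b c x hNT j hj (s r) (V r j) (hVP r j hj))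
      have hsz := (hC4 ty W p s V hs0).2 (C1 * T ^ 10) h T hh1 (by linarith)
        (fun r i => ((hAA _ (hs r)).2 i).2) hVs hpb
      have h6 : (W : ℝ) * (C1 * (T : ℝ) ^ 10 + T + 1) ≤ (C1 + 2) * (W * (T : ℝ) ^ 11) := by
        nlinarith
      have h7 : C4 * (W * (C1 * (T : ℝ) ^ 10 + T + 1) + h + 1) ≤ X := by
        refine le_trans ?_ hXlo
        rw [hK, mul_assoc]
        apply mul_le_mul_of_nonneg_left _ (by linarith)
        rw [hNN]
        have h8 : 0 ≤ W * (T : ℝ) ^ 11 := by positivity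
        nlinarith
      refine ⟨?_, ?_, ?_⟩
      · have := hsz.1.trans h7
        exact_mod_cast this
      · exact hsz.2.trans (Real.exp_le_exp.2 h7)
      · refine (I_CritF.true_bd hh1 (by linarith) hC2 h4 p s V hs0
          (fun r j hj => hpc (s r) j hj) hval hVs).trans ?_
        have h9 := hsm s hs
        rw [← hm]
        calc Real.exp (G * m * (m * W) * (C2 * (C1 * (T : ℝ) ^ 10 + 1))) *
              (‖AFv p (fun r => PN τ μ ty c (pcI u₀ (s r)))‖ *
                ∏ r, dd τ ty b (2 * (m * W)) (cmb (s r) x))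
            ≤ Real.exp (G * m * (m * W) * (C2 * (C1 * (T : ℝ) ^ 10 + 1))) * Real.exp (-U) :=
              mul_le_mul_of_nonneg_left h9 (Real.exp_pos _).le
          _ = Real.exp (G * m * (m * W) * (C2 * (C1 * (T : ℝ) ^ 10 + 1)) + -U) := by
              rw [Real.exp_add]
          _ ≤ Real.exp (-(U / 2)) := by
              apply Real.exp_le_exp.2
              have h10 : (G : ℝ) * m * (m * W) * (C2 * (C1 * (T : ℝ) ^ 10 + 1)) ≤ A * N := by
                have h11 : (W : ℝ) * (T : ℝ) ^ 11 ≤ N := by linarith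
                calc (G : ℝ) * m * (m * W) * (C2 * (C1 * (T : ℝ) ^ 10 + 1))
                    = (G * m * m * C2) * (W * (C1 * (T : ℝ) ^ 10 + 1)) := by ring
                  _ ≤ (G * m * m * C2) * (W * ((C1 + 1) * (T : ℝ) ^ 11)) := by
                      apply mul_le_mul_of_nonneg_left _ (by positivity)
                      exact mul_le_mul_of_nonneg_left h5 (by positivity)
                  _ = A * (W * (T : ℝ) ^ 11) := by rw [hA]; ring
                  _ ≤ A * N := mul_le_mul_of_nonneg_left h11 hA0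
              have h12 : A * N ≤ A * N ^ (k + 1) :=
                mul_le_mul_of_nonneg_left hNNp hA0
              have h13 : 2 * A * N ^ (k + 1) ≤ C * N ^ (k + 1) := by
                apply mul_le_mul_of_nonneg_right _ (by linarith)
                linarith
              have h14 : 2 * A * N ^ (k + 1) = 2 * (A * N ^ (k + 1)) := by ring
              rw [h14] at h13
              linarith
  obtain ⟨θ', hz, hclose⟩ := hC0 X (U / 2) hX1 hCr PP hPP
  -- the size of the error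
  set R : ℝ := (U / 2) / (C0 * (X : ℝ) ^ k) with hR
  have hRe : -(U / 2) / (C0 * (X : ℝ) ^ k) = -R := by rw [hR, neg_div]
  rw [hRe] at hclose
  have hNm : 0 < N ^ k := by positivity
  have hXm : 0 < (X : ℝ) ^ k := by positivity
  have hC0p : 0 < C0 := by linarith
  have hCp : 0 < C := by linarith
  set Q : ℝ := U / N ^ k with hQ
  have hQC : N ≤ Q / C := by
    rw [le_div_iff₀ hCp, hQ, le_div_iff₀ hNm]
    rw [pow_succ] at hU
    linarith
  have hRQ : 2 * (Q / C) ≤ R := by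
    rw [hR, le_div_iff₀ (by positivity), hQ]
    have h1 : (X : ℝ) ^ k ≤ (2 * K) ^ k * N ^ k := by
      rw [← mul_pow]
      exact pow_le_pow_left₀ hX0.le hXhi _
    have h2 : (2 * K) ^ k ≤ (2 * K) ^ (k + 1) := pow_le_pow_right₀ (by linarith) (by omega)
    have h3 : 4 * C0 * (2 * K) ^ k ≤ C := by
      have : 4 * C0 * (2 * K) ^ k ≤ 4 * C0 * (2 * K) ^ (k + 1) :=
        mul_le_mul_of_nonneg_left h2 (by linarith)
      linarith
    have h4 : C0 * (X : ℝ) ^ k ≤ C0 * ((2 * K) ^ k * N ^ k) :=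
      mul_le_mul_of_nonneg_left h1 hC0p.le
    have h5 : 4 * (C0 * (X : ℝ) ^ k) ≤ C * N ^ k := by
      calc 4 * (C0 * (X : ℝ) ^ k) ≤ 4 * (C0 * ((2 * K) ^ k * N ^ k)) := by
            linarith
        _ = (4 * C0 * (2 * K) ^ k) * N ^ k := by ring
        _ ≤ C * N ^ k := mul_le_mul_of_nonneg_right h3 hNm.le
    have h6 : 2 * (U / N ^ k / C) * (C0 * (X : ℝ) ^ k) =
        (U / 2) * ((4 * (C0 * (X : ℝ) ^ k)) / (C * N ^ k)) := by
      field_simp
      ring
    rw [h6]
    have h7 : (4 * (C0 * (X : ℝ) ^ k)) / (C * N ^ k) ≤ 1 :=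
      (div_le_one (by positivity)).2 h5
    calc (U / 2) * ((4 * (C0 * (X : ℝ) ^ k)) / (C * N ^ k)) ≤ (U / 2) * 1 :=
          mul_le_mul_of_nonneg_left h7 (by linarith)
      _ = U / 2 := mul_one _
  have hε1 : Real.exp (-R) ≤ η := by
    have h1 : Real.exp (-R) ≤ Real.exp (-(T : ℝ)) := Real.exp_le_exp.2 (by linarith)
    exact h1.trans (CritE.small hη0 (by linarith))
  have hε2 : C3 * Real.exp (-R) ≤ Real.exp (-(Q / C)) := by
    have h1 : C3 ≤ Real.exp T := by
      have := Real.add_one_le_exp (T : ℝ)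
      linarith
    calc C3 * Real.exp (-R) ≤ Real.exp T * Real.exp (-R) :=
          mul_le_mul_of_nonneg_right h1 (Real.exp_pos _).le
      _ = Real.exp (T + -R) := by rw [Real.exp_add]
      _ ≤ Real.exp (-(Q / C)) := Real.exp_le_exp.2 (by linarith)
  obtain ⟨u, b', c', hu, hEc, huc⟩ := hlift θ' (Real.exp (-R)) hε1
    (fun P hP => hz P (Or.inl hP)) hclose
  have huc2 : ∀ i j, ‖u i j - u₀ i j‖ ≤ Real.exp (-(Q / C)) := fun i j =>
    (huc i j).trans hε2
  have huc4 : ∀ i j, ‖u i j - u₀ i j‖ ≤ η4 := by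
    intro i j
    refine (huc2 i j).trans ?_
    have h1 : Real.exp (-(Q / C)) ≤ Real.exp (-(T : ℝ)) := Real.exp_le_exp.2 (by linarith)
    exact h1.trans (CritE.small hη4 (by linarith))
  have hgd := hgood u huc4
  -- the tensor argument
  have hpC : (fun a => (p a : ℂ)) ≠ 0 := by
    intro h0
    apply hp0
    funext a
    have := congrFun h0 a
    simpa using this
  obtain ⟨r, hr0, hr⟩ := x_Tensor (ι → Fin W)
    {s : Fin n → ℤ // s ∈ AA ∧ Gd τ ty (pcI u s)} G
    (fun a s => ∏ j, PN τ μ ty c' (pcI u s.1) j ^ (a j : ℕ)) (fun a => (p a : ℂ)) hpC (by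
      intro y
      have hV : ∀ r j, ∃ V : Qua n ι, ty j = Ty.ell → (VQ j (y r).1 V ∧
          ValQ τ μ (ptM τ μ ty b' c' u) (pcI u (y r).1 j) (cor τ μ u (y r).1 j) V ∧
          SizQ (C1 * T ^ 10) V) := by
        intro r j
        by_cases hj : ty j = Ty.ell
        · obtain ⟨V, hV⟩ := hT1 τ μ hN.im hN.mu ty b' c' j hj u
            (fun s hs hsK => hgd s hs hsK j hj) T (y r).1 hT1n (by
              intro i
              obtain ⟨h1, h2⟩ := (hAA _ (y r).2.1).2 i
              rw [abs_of_nonneg h1]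
              exact h2) ((y r).2.2 j hj)
          exact ⟨V, fun _ => hV⟩
        · exact ⟨⟨0, 0, 0, 0⟩, fun h => absurd h hj⟩
      choose V hV using hV
      have h0 : aeval θ' (PEM ty p (fun r => (y r).1) V) = 0 := by
        apply hz
        exact Or.inr ⟨fun r => (y r).1, V, fun r => (y r).2.1,
          fun r j hj => (hV r j hj).1, fun r j hj => (hV r j hj).2.2, rfl⟩
      rw [← hu, valPEM h4 ty b' c' u W p (fun r => (y r).1) V
        (fun r i => ((hAA _ (y r).2.1).2 i).1) (fun r j hj => (hV r j hj).2.1)] at h0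
      rcases mul_eq_zero.1 h0 with h1 | h1
      · exfalso
        rw [Finset.prod_eq_zero_iff] at h1
        obtain ⟨r, _, h1⟩ := h1
        rw [Finset.prod_eq_zero_iff] at h1
        obtain ⟨j, _, h1⟩ := h1
        by_cases hj : ty j = Ty.ell
        · rw [if_pos hj] at h1
          exact (pow_ne_zero _ (hV r j hj).2.1.z0) h1
        · rw [if_neg hj] at h1
          exact one_ne_zero h1
      · exact h1)
  obtain ⟨F, hF0, hFd, hFv⟩ := mkF hW r hr0
  refine ⟨u, c', F, ?_, hEc, hF0, hFd, ?_⟩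
  · intro i j
    refine (huc2 i j).trans (le_of_eq ?_)
    congr 1
    rw [hQ]
    field_simp
  · intro s hs hsL
    rw [hFv]
    exact hr ⟨s, hs, hsL⟩

end Pool.Agent.Work.MP_8da9ea_nt.MX
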