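import Pool.Agent.Work.MP_8da9ea_nt.MX.StmtsG
import Pool.Agent.Work.MP_8da9ea_nt.EB.I_LamAdd
import Pool.Agent.Work.MP_8da9ea_nt.EB.I_LamMul
import Pool.Agent.Work.MP_8da9ea_nt.EB.I_Kf
import Pool.Agent.Work.MP_8da9ea_nt.CD.Sum

/-!
# Mixed block, item G3: the form `η̃`
-/

set_option autoImplicit false

namespace Pool.Agent.Work.MP_8da9ea_nt.MX

open MvPolynomial Pool.Agent.Work.MP_327059_nt.GL Pool.Agent.Work.MP_8da9ea_nt.S
  Pool.Agent.Work.MP_8da9ea_nt.EB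

namespace I_EtT

/-- The form `η̃` as an additive map of the point. -/
noncomputable def E (h1 : S_EtaAddC) {τ μ : ℂ} (hN : Nrm τ μ) (α : ℂ) (δ : Derivation ℚ ℂ ℂ) :
    ℂ →+ ℂ :=
  AddMonoidHom.mk' (etT τ μ α δ) (by
    intro u v
    unfold etT
    rw [h1 τ μ hN δ u v, LamAdd_pf τ μ hN δ u v, add_div, map_add]
    ring)

lemma rat_mul (h1 : S_EtaAddC) {τ μ : ℂ} (hN : Nrm τ μ) (α : ℂ) (δ : Derivation ℚ ℂ ℂ) (r : ℚ)
    (u : ℂ) : etT τ μ α δ ((r : ℂ) * u) = (r : ℂ) * etT τ μ α δ u := by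
  have h := map_rat_smul (E h1 hN α δ) r u
  rw [Rat.smul_def, Rat.smul_def] at h
  exact h

lemma add (h1 : S_EtaAddC) {τ μ : ℂ} (hN : Nrm τ μ) (α : ℂ) (δ : Derivation ℚ ℂ ℂ) (u v : ℂ) :
    etT τ μ α δ (u + v) = etT τ μ α δ u + etT τ μ α δ v := (E h1 hN α δ).map_add u v

lemma conj_alg {x : ℂ} (h : IsAlgebraic ℚ x) : IsAlgebraic ℚ ((starRingEnd ℂ) x) :=
  h.algHom (RingHom.toRatAlgHom (starRingEnd ℂ))

lemma conj_rat (r : ℚ) : (starRingEnd ℂ) (r : ℂ) = r := map_ratCast _ r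

/-- The endomorphisms are integral combinations. -/
lemma ends {τ g : ℂ} (h : IsE τ g) : ∃ N a b : ℤ, N ≠ 0 ∧ (N : ℂ) * g = a + b * τ := by
  obtain ⟨N, hN, h1, -⟩ := h
  obtain ⟨a, b, hab⟩ := mem_Lam.1 h1
  exact ⟨N, a, b, hN, by rw [hab]⟩

end I_EtT

open I_EtT in
theorem EtT_pf (h1 : S_EtaAddC) (h2 : S_EtaMulC) : S_EtT := by
  intro τ μ hN
  have hτ := hN.im
  by_cases hr : ∀ g : ℂ, IsE τ g → g.im = 0
  · refine ⟨0, isAlgebraic_zero, fun g hg δ u => ?_⟩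
    obtain ⟨N, a, b, hN0, hab⟩ := ends hg
    have him := congrArg Complex.im hab
    have hgim := hr g hg
    have hb : (b : ℝ) * τ.im = 0 := by
      simpa [hgim] using him.symm
    have hb0 : (b : ℝ) = 0 := by
      rcases mul_eq_zero.1 hb with h | h
      · exact h
      · exact absurd h hτ.ne'
    have hb1 : b = 0 := by exact_mod_cast hb0
    have hNc : (N : ℂ) ≠ 0 := by exact_mod_cast hN0
    have hg2 : g = ((a / N : ℚ) : ℂ) := by
      push_cast
      rw [eq_div_iff hNc, mul_comm, hab, hb1]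
      simp
    rw [hg2, rat_mul h1 hN, conj_rat]
  · push Not at hr
    obtain ⟨g₀, hg₀, him₀⟩ := hr
    obtain ⟨s₀, hs₀, hmul⟩ := h2 τ μ hN g₀ hg₀
    have hga : IsAlgebraic ℚ g₀ := (Kf_pf τ hτ).1 g₀ hg₀
    have hne : (starRingEnd ℂ) g₀ - g₀ ≠ 0 := by
      intro h
      have := congrArg Complex.im h
      simp only [Complex.sub_im, Complex.conj_im, Complex.zero_im] at this
      apply him₀
      linarith
    set α : ℂ := s₀ / ((starRingEnd ℂ) g₀ - g₀) with hα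
    have hαm : α * ((starRingEnd ℂ) g₀ - g₀) = s₀ := div_mul_cancel₀ _ hne
    have halg : IsAlgebraic ℚ α := by
      rw [hα, div_eq_mul_inv]
      exact hs₀.mul (((conj_alg hga).sub hga).inv)
    have hg0 : ∀ (δ : Derivation ℚ ℂ ℂ) (u : ℂ),
        etT τ μ α δ (g₀ * u) = (starRingEnd ℂ) g₀ * etT τ μ α δ u := by
      intro δ u
      have hl : lam τ μ δ (g₀ * u) = g₀ * lam τ μ δ u :=
        LamMul_pf LamAdd_pf Kf_pf CD.prf_Sum τ μ hN δ g₀ u hg₀
      have hd : δ (g₀ * u / μ) = g₀ * δ (u / μ) := by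
        have e : g₀ * u / μ = g₀ * (u / μ) := by ring
        rw [e, Derivation.leibniz, EB.I_LamMul.der_alg δ hga, smul_zero, add_zero, smul_eq_mul]
      unfold etT
      rw [hmul δ u, hl, hd]
      linear_combination -(lam τ μ δ u - δ (u / μ)) * hαm
    refine ⟨α, halg, fun g hg δ u => ?_⟩
    obtain ⟨N, a, b, hN0, hab⟩ := ends hg
    obtain ⟨M, c, d, hM0, hcd⟩ := ends hg₀
    have hNc : (N : ℂ) ≠ 0 := by exact_mod_cast hN0
    have hMc : (M : ℂ) ≠ 0 := by exact_mod_cast hM0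
    have hd0 : d ≠ 0 := by
      rintro rfl
      have h := congrArg Complex.im hcd
      have h3 : (M : ℝ) * g₀.im = 0 := by
        simpa using h
      rcases mul_eq_zero.1 h3 with h4 | h4
      · exact hM0 (by exact_mod_cast h4)
      · exact him₀ h4
    have hdc : (d : ℂ) ≠ 0 := by exact_mod_cast hd0
    have hg2 : g = ((((a : ℚ) - b * c / d) / N : ℚ) : ℂ) + (((b : ℚ) * M / d / N : ℚ) : ℂ) * g₀ := by
      push_cast
      field_simp
      have e1 : g * N * d = (a + b * τ) * d := by rw [← hab]; ring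
      have e2 : (M : ℂ) * g₀ * b = (c + d * τ) * b := by rw [hcd]
      linear_combination e1 - e2
    set p : ℚ := ((a : ℚ) - b * c / d) / N
    set q : ℚ := (b : ℚ) * M / d / N
    have e3 : g * u = (p : ℂ) * u + (q : ℂ) * (g₀ * u) := by rw [hg2]; ring
    rw [e3, add h1 hN, rat_mul h1 hN, rat_mul h1 hN, hg0, hg2, map_add, map_mul, conj_rat, conj_rat]
    ring

end Pool.Agent.Work.MP_8da9ea_nt.MX
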