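import Pool.Agent.Work.MP_8da9ea_nt.MX.StmtsG
import Pool.Agent.Work.MP_8da9ea_nt.EC.I_EtaMul
import Pool.Agent.Work.MP_8da9ea_nt.EB.I_EtaAdd
import Pool.Agent.Work.MP_8da9ea_nt.EB.I_LamAdd
import Pool.Agent.Work.MP_8da9ea_nt.EB.I_LamMul
import Pool.Agent.Work.MP_8da9ea_nt.EB.I_LamZero
import Pool.Agent.Work.MP_8da9ea_nt.EB.I_Kf

/-!
# Mixed block, item EtaMulC: the corrected form of the second kind and endomorphisms
-/

set_option autoImplicit false

namespace Pool.Agent.Work.MP_8da9ea_nt.MX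

open MvPolynomial Pool.Agent.Work.MP_327059_nt.GL Pool.Agent.Work.MP_8da9ea_nt.S
  Pool.Agent.Work.MP_8da9ea_nt.EB

namespace I_EtaMulC

lemma etC_of {τ μ : ℂ} (δ : Derivation ℚ ℂ ℂ) {u : ℂ} (hu : u ∉ Lam τ) :
    etC τ μ δ u = δ (ze τ μ u) + xe τ μ u * lam τ μ δ u := by
  unfold etC
  rw [if_neg hu, EC.I_EtaMul.etf_not δ hu]

/-- The field of algebraic numbers. -/
lemma acl_alg : ACl (algebraicClosure ℚ ℂ) := by
  intro x hx
  rw [mem_algebraicClosure_iff]
  haveI : Algebra.IsAlgebraic ℚ (algebraicClosure ℚ ℂ) := algebraicClosure.isAlgebraic ℚ ℂ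
  exact IsAlgebraic.restrictScalars ℚ hx

/-- `X` of a torsion point is algebraic. -/
lemma xe_tor {τ μ : ℂ} (hN : Nrm τ μ) {n : ℕ} {z : ℂ} (hn : 0 < n) (hz : (n : ℂ) * z ∈ Lam τ)
    (hz0 : z ∉ Lam τ) : IsAlgebraic ℚ (xe τ μ z) := by
  have h := (LamZero_pf τ μ hN (algebraicClosure ℚ ℂ) acl_alg z).1 fun δ _ =>
    EB.I_LamMul.lam_tor LamAdd_pf hN δ hn hz
  rcases h with h | h
  · exact absurd h hz0
  · exact mem_algebraicClosure_iff.1 h

/-- The two constants: `c₁ = -c`. -/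
lemma c1_eq {τ g c c₁ c₀ : ℂ} (hτ : 0 < τ.im) (hg : CD.IsInt τ g) {W : Finset ℂ}
    (hW : ∀ w ∈ W, g * w ∈ Lam τ)
    (h : ∀ z : ℂ, g * z ∉ Lam τ → g ^ 2 * wp 1 τ (g * z) = ∑ w ∈ W, wp 1 τ (z + w) + c)
    (h' : ∀ z : ℂ, g * z ∉ Lam τ →
      g * zt 1 τ (g * z) = ∑ w ∈ W, zt 1 τ (z + w) + c₁ * z + c₀)
    {z : ℂ} (hz : g * z ∉ Lam τ) : c₁ = -c := by
  have hopen : IsOpen {z : ℂ | g * z ∉ Lam τ} :=
    (Lam_compl_open hτ).preimage (continuous_const.mul continuous_id)
  have hgd : HasDerivAt (fun z : ℂ => g * z) g z := by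
    simpa using (hasDerivAt_id z).const_mul g
  have d1 : HasDerivAt (fun z => g * zt 1 τ (g * z)) (g * (-wp 1 τ (g * z) * g)) z :=
    (HasDerivAt.comp (h₂ := fun z => zt 1 τ z) z (hasDerivAt_zt_z hτ hz) hgd).const_mul g
  have d2 : HasDerivAt (fun z => ∑ w ∈ W, zt 1 τ (z + w) + c₁ * z + c₀)
      (∑ w ∈ W, -wp 1 τ (z + w) + c₁) z := by
    refine HasDerivAt.add_const c₀ (HasDerivAt.add (HasDerivAt.fun_sum fun w hw => ?_) ?_)
    · refine (hasDerivAt_zt_z hτ fun h => hz ?_).comp_add_const z w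
      have h1 : g * z = g * (z + w) - g * w := by ring
      rw [h1]
      exact CD.Sum_sub (CD.Sum_mul hg h) (hW w hw)
    · simpa using (hasDerivAt_id z).const_mul c₁
  have e : (fun z => g * zt 1 τ (g * z)) =ᶠ[nhds z]
      fun z => ∑ w ∈ W, zt 1 τ (z + w) + c₁ * z + c₀ := by
    filter_upwards [hopen.mem_nhds hz] with y hy
    exact h' y hy
  have h2 := (d1.congr_of_eventuallyEq e.symm).unique d2
  have h3 := h z hz
  rw [Finset.sum_neg_distrib] at h2
  linear_combination -h3 - h2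

lemma etC_nat (h1 : S_EtaAddC) {τ μ : ℂ} (hN : Nrm τ μ) (δ : Derivation ℚ ℂ ℂ) (n : ℤ) (u : ℂ) :
    etC τ μ δ ((n : ℂ) * u) = (n : ℂ) * etC τ μ δ u := by
  have h := map_zsmul (AddMonoidHom.mk' (etC τ μ δ) (h1 τ μ hN δ)) n u
  simpa [zsmul_eq_mul] using h

/-- The number of points in the kernel. -/
lemma card_eq {τ g c₁ c₀ : ℂ} (hτ : 0 < τ.im) (hg : CD.IsInt τ g) (hg0 : g ≠ 0) {W : Finset ℂ}
    (h : ∀ z : ℂ, g * z ∉ Lam τ →
      g * zt 1 τ (g * z) = ∑ w ∈ W, zt 1 τ (z + w) + c₁ * z + c₀) :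
    (W.card : ℂ) = (starRingEnd ℂ) g * g := by
  obtain ⟨n, z, hn, hnz, hgz⟩ := CD.Mul_exists_tor hτ hg.1 hg0
  obtain ⟨a, b, hab⟩ := mem_Lam.1 hg.1
  obtain ⟨c, d, hcd⟩ := mem_Lam.1 hg.2
  have hz1 : g * (z + 1) ∉ Lam τ := by
    intro h1
    refine hgz ?_
    have e : g * z = g * (z + 1) - g := by ring
    rw [e]
    exact CD.Sum_sub h1 hg.1
  have hz2 : g * (z + τ) ∉ Lam τ := by
    intro h1
    refine hgz ?_
    have e : g * z = g * (z + τ) - g * τ := by ring
    rw [e]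
    exact CD.Sum_sub h1 hg.2
  have e0 := h z hgz
  have e1 := h (z + 1) hz1
  have e2 := h (z + τ) hz2
  have s1 : ∑ w ∈ W, zt 1 τ (z + 1 + w) = ∑ w ∈ W, zt 1 τ (z + w) + W.card * et τ := by
    have t1 : ∀ w ∈ W, zt 1 τ (z + 1 + w) = zt 1 τ (z + w) + et τ := by
      intro w _
      have := zt_add_lp hτ (z + w) 1 0
      push_cast at this
      rw [show z + 1 + w = z + w + (1 + 0 * τ) by ring, this]
      ring
    rw [Finset.sum_congr rfl t1, Finset.sum_add_distrib, Finset.sum_const, nsmul_eq_mul]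
  have s2 : ∑ w ∈ W, zt 1 τ (z + τ + w) =
      ∑ w ∈ W, zt 1 τ (z + w) + W.card * (et τ * τ - kap) := by
    have t1 : ∀ w ∈ W, zt 1 τ (z + τ + w) = zt 1 τ (z + w) + (et τ * τ - kap) := by
      intro w _
      have := zt_add_lp hτ (z + w) 0 1
      push_cast at this
      rw [show z + τ + w = z + w + (0 + 1 * τ) by ring, this]
      unfold kap
      ring
    rw [Finset.sum_congr rfl t1, Finset.sum_add_distrib, Finset.sum_const, nsmul_eq_mul]
  have g1 : zt 1 τ (g * (z + 1)) = zt 1 τ (g * z) + et τ * g - kap * b := by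
    have := zt_add_lp hτ (g * z) a b
    rw [← hab] at this
    rw [show g * (z + 1) = g * z + g by ring, this]
    unfold kap
    ring
  have g2 : zt 1 τ (g * (z + τ)) = zt 1 τ (g * z) + et τ * (g * τ) - kap * d := by
    have := zt_add_lp hτ (g * z) c d
    rw [← hcd] at this
    rw [show g * (z + τ) = g * z + g * τ by ring, this]
    unfold kap
    ring
  rw [g1, s1] at e1
  rw [g2, s2] at e2
  have hk : (kap : ℂ) ≠ 0 := kap_ne_zero
  have key : kap * (W.card : ℂ) = kap * (((d : ℂ) - b * τ) * g) := by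
    linear_combination τ * e0 - e0 - τ * e1 + e2
  have hcard := mul_left_cancel₀ hk key
  rw [hcard]
  congr 1
  -- the conjugate
  have hq : (b : ℂ) * τ ^ 2 + (a - d) * τ - c = 0 := by
    rw [hab] at hcd
    linear_combination hcd
  have hre := congrArg Complex.re hq
  have him := congrArg Complex.im hq
  have him' : τ.im * (2 * b * τ.re + (a - d)) = 0 := by
    simp [pow_two] at him
    linear_combination him
  have h2 : 2 * b * τ.re + ((a : ℝ) - d) = 0 := by
    rcases mul_eq_zero.1 him' with h3 | h3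
    · exact absurd h3 hτ.ne'
    · exact h3
  rw [hab]
  apply Complex.ext
  · simp
    linarith
  · simp

/-- Integral endomorphisms. -/
lemma end_case (h1 : S_EtaAddC) {τ μ : ℂ} (hN : Nrm τ μ) {g : ℂ} (hg : CD.IsInt τ g) :
    ∃ s : ℂ, IsAlgebraic ℚ s ∧ ∀ (δ : Derivation ℚ ℂ ℂ) (u : ℂ), etC τ μ δ (g * u) =
      (starRingEnd ℂ) g * etC τ μ δ u + s * (lam τ μ δ u - δ (u / μ)) := by
  have hAdd : S_LamAdd := LamAdd_pf
  have hMul : S_LamMul := LamMul_pf LamAdd_pf Kf_pf CD.prf_Sum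
  have hμ : μ ≠ 0 := hN.mu
  by_cases hg0 : g = 0
  · refine ⟨0, isAlgebraic_zero, fun δ u => ?_⟩
    have h2 := h1 τ μ hN δ 0 0
    rw [add_zero] at h2
    have h3 : etC τ μ δ 0 = 0 := by linear_combination -h2
    rw [hg0, zero_mul, h3, map_zero, zero_mul, zero_mul, add_zero]
  have hgE : IsE τ g := ⟨1, one_ne_zero, by simpa using hg.1, by simpa using hg.2⟩
  have hga : IsAlgebraic ℚ g := (Kf_pf τ hN.im).1 g hgE
  obtain ⟨W, c, c₁, c₀, hW, hz⟩ := CD.prf_Sum τ hN.im g hg hg0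
  have hcard := card_eq hN.im hg hg0 (fun z h => (hz z h).2)
  -- no poles
  have hnot : ∀ z : ℂ, g * z ∉ Lam τ → ∀ w ∈ W, z + w ∉ Lam τ := by
    intro z hgz w hw h
    refine hgz ?_
    have h1 := CD.Sum_sub (CD.Sum_mul hg h) (hW w hw).1
    have e : g * (z + w) - g * w = g * z := by ring
    rwa [e] at h1
  obtain ⟨n, z, hn, hz0, hnz, hgz, hg2z⟩ := EC.I_EtaMul.small hN.im hg hg0
  have hc1 : c₁ = -c := c1_eq hN.im hg (fun w hw => (hW w hw).1) (fun z h => (hz z h).1)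
    (fun z h => (hz z h).2) hgz
  -- the constant is algebraic
  have hsa : IsAlgebraic ℚ (μ ^ 2 * c) := by
    have h3 := (hz z hgz).1
    have hgz' : (n : ℂ) * (g * z) ∈ Lam τ := by
      have e : (n : ℂ) * (g * z) = g * (n * z) := by ring
      rw [e]
      exact CD.Sum_mul hg hnz
    have h4 := xe_tor hN hn hgz' hgz
    have h5 : ∀ w ∈ W, IsAlgebraic ℚ (xe τ μ (z + w)) := by
      intro w hw
      obtain ⟨n', hn', hnw'⟩ := (hW w hw).2
      refine xe_tor hN (n := n * n') (Nat.mul_pos hn hn') ?_ (hnot z hgz w hw)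
      have e : ((n * n' : ℕ) : ℂ) * (z + w) =
          (n' : ℤ) * ((n : ℂ) * z) + (n : ℤ) * ((n' : ℂ) * w) := by
        push_cast
        ring
      rw [e]
      exact CD.Sum_add (CD.Sum_int _ hnz) (CD.Sum_int _ hnw')
    have e : μ ^ 2 * c = g ^ 2 * xe τ μ (g * z) - ∑ w ∈ W, xe τ μ (z + w) := by
      unfold xe
      rw [← Finset.mul_sum]
      linear_combination -μ ^ 2 * h3
    rw [← mem_algebraicClosure_iff] at hga h4 ⊢
    rw [e]
    exact sub_mem (mul_mem (pow_mem hga 2) h4)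
      (sum_mem fun w hw => mem_algebraicClosure_iff.2 (h5 w hw))
  set s : ℂ := μ ^ 2 * c with hs
  refine ⟨s / g, ?_, fun δ u => ?_⟩
  · rw [← mem_algebraicClosure_iff] at hga hsa ⊢
    exact div_mem hsa hga
  have hδs : δ s = 0 := I_EtaAdd.der_alg δ hsa
  have hδg : δ g = 0 := I_EtaAdd.der_alg δ hga
  have hAddC := h1 τ μ hN δ
  have hlg : ∀ u, lam τ μ δ (g * u) = g * lam τ μ δ u := fun u => hMul τ μ hN δ g u hgE
  -- the defect
  set G : ℂ → ℂ := fun u => g * etC τ μ δ (g * u) - (starRingEnd ℂ) g * g * etC τ μ δ u -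
    s * (lam τ μ δ u - δ (u / μ)) with hG
  have hGadd : ∀ u v, G (u + v) = G u + G v := by
    intro u v
    simp only [hG]
    rw [mul_add, hAddC, hAddC, hAdd τ μ hN δ, add_div, map_add]
    ring
  set C : ℂ := ∑ w ∈ W, etC τ μ δ w + δ (μ * c₀) with hC
  have hconst : ∀ u, g * u ∉ Lam τ → G u = C := by
    intro u hgu
    have hx : g ^ 2 * xe τ μ (g * u) = ∑ w ∈ W, xe τ μ (u + w) + s := by
      have h1 := (hz u hgu).1
      rw [hs]
      unfold xe
      rw [← Finset.mul_sum]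
      linear_combination μ ^ 2 * h1
    have hzz : g * ze τ μ (g * u) = ∑ w ∈ W, ze τ μ (u + w) + (-(s * (u / μ)) + μ * c₀) := by
      have h1 := (hz u hgu).2
      have e : s * (u / μ) = μ * c * u := by
        rw [hs]
        field_simp
      rw [e]
      unfold ze
      rw [← Finset.mul_sum]
      rw [hc1] at h1
      linear_combination μ * h1
    have hd : g * δ (ze τ μ (g * u)) = ∑ w ∈ W, δ (ze τ μ (u + w)) +
        (-(s * δ (u / μ)) + δ (μ * c₀)) := by
      have h1 := congrArg δ hzz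
      have h2 : δ (-(s * (u / μ)) + μ * c₀) = -(s * δ (u / μ)) + δ (μ * c₀) := by
        rw [map_add, map_neg, Derivation.leibniz δ s (u / μ), hδs, smul_zero, add_zero,
          smul_eq_mul]
      rw [Derivation.leibniz, hδg, smul_zero, add_zero, smul_eq_mul, map_add, h2,
        map_sum] at h1
      exact h1
    have hlw : ∀ w ∈ W, lam τ μ δ (u + w) = lam τ μ δ u := by
      intro w hw
      obtain ⟨n', hn', hnw'⟩ := (hW w hw).2
      rw [hAdd τ μ hN δ u w, EB.I_LamMul.lam_tor hAdd hN δ hn' hnw', add_zero]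
    have hs' : ∑ w ∈ W, δ (ze τ μ (u + w)) =
        W.card * etC τ μ δ u + ∑ w ∈ W, etC τ μ δ w -
          (∑ w ∈ W, xe τ μ (u + w)) * lam τ μ δ u := by
      have h1 : ∀ w ∈ W, δ (ze τ μ (u + w)) =
          etC τ μ δ u + etC τ μ δ w - xe τ μ (u + w) * lam τ μ δ u := by
        intro w hw
        have h2 := etC_of (μ := μ) δ (hnot u hgu w hw)
        rw [hAddC, hlw w hw] at h2
        linear_combination -h2
      rw [Finset.sum_congr rfl h1, Finset.sum_sub_distrib, Finset.sum_add_distrib,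
        Finset.sum_const, nsmul_eq_mul, ← Finset.sum_mul]
    have hf := etC_of (μ := μ) δ hgu
    rw [hlg] at hf
    simp only [hG, hC]
    rw [hf, ← hcard]
    rw [hs'] at hd
    linear_combination hd + lam τ μ δ u * hx
  have hC0 : C = 0 := by
    have e1 := hconst z hgz
    have e2 := hconst (2 * z) hg2z
    rw [two_mul, hGadd, e1] at e2
    linear_combination e2
  have hG0 : G u = 0 := by
    by_cases hgu : g * u ∈ Lam τ
    · have h2 : g * (u + z) ∉ Lam τ := by
        intro h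
        refine hgz ?_
        have e : g * z = g * (u + z) - g * u := by ring
        rw [e]
        exact CD.Sum_sub h hgu
      have h3 := hconst (u + z) h2
      rw [hGadd, hconst z hgz] at h3
      linear_combination h3
    · rw [hconst u hgu, hC0]
  simp only [hG] at hG0
  have key : g * etC τ μ δ (g * u) =
      g * ((starRingEnd ℂ) g * etC τ μ δ u + s / g * (lam τ μ δ u - δ (u / μ))) := by
    field_simp
    linear_combination hG0
  exact mul_left_cancel₀ hg0 key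

end I_EtaMulC

open I_EtaMulC in
/-- G2: the corrected form of the second kind and endomorphisms. -/
theorem EtaMulC_pf (h1 : S_EtaAddC) : S_EtaMulC := by
  intro τ μ hN g hg
  obtain ⟨n, hn, hn1, hn2⟩ := hg
  have hint : CD.IsInt τ ((n : ℂ) * g) := ⟨hn1, hn2⟩
  have hn0 : (n : ℂ) ≠ 0 := by exact_mod_cast hn
  obtain ⟨s, hs, h⟩ := end_case h1 hN hint
  refine ⟨s / n, ?_, fun δ u => ?_⟩
  · rw [← mem_algebraicClosure_iff] at hs ⊢
    exact div_mem hs (intCast_mem _ n)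
  have h6 := h δ u
  rw [mul_assoc, etC_nat h1 hN δ n (g * u), map_mul] at h6
  have hc : (starRingEnd ℂ) (n : ℂ) = n := by simp
  rw [hc] at h6
  apply mul_left_cancel₀ hn0
  rw [h6]
  field_simp

end Pool.Agent.Work.MP_8da9ea_nt.MX
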