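import Pool.Agent.Work.MP_8da9ea_nt.MX.StmtsF
import Pool.Agent.Work.MP_8da9ea_nt.Bd.B04

/-!
# Mixed block, lossless version: item FFrank (Siegel's lemma with rank)
-/

set_option autoImplicit false

namespace Pool.Agent.Work.MP_8da9ea_nt.MX

open MvPolynomial Pool.Agent.Work.MP_327059_nt.GL Pool.Agent.Work.MP_8da9ea_nt.S
  Pool.Agent.Work.MP_8da9ea_nt.EB

namespace I_FFrank

/-- The linear system over `ℤ` equivalent to the relation `∑ p_l P_l(θ) = 0`. -/
theorem mat (σ : Type) [Fintype σ] (θ : σ → ℂ) : ∃ C : ℕ, 1 ≤ C ∧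
    ∀ (Λ : Type) [Fintype Λ] (D : ℕ) (H : ℝ) (P : Λ → MvPolynomial σ ℤ), 1 ≤ H →
      (∀ l, (P l).totalDegree ≤ D) → (∀ l, len (P l) ≤ H) →
      ∃ (α : Type) (_ : Fintype α) (B : Matrix α Λ ℤ),
        (∀ t l, |(B t l : ℝ)| ≤ H * (C : ℝ) ^ (D + 1)) ∧
        ∀ p : Λ → ℤ, B.mulVec p = 0 ↔ ∑ l, (p l : ℂ) * aeval θ (P l) = 0 := by
  classical
  obtain ⟨r, s, hs, halg⟩ := pr_TrBasis σ θ
  set th : Fin r → ℂ := fun i => θ (s i) with hth
  obtain ⟨g, v, K, _, ι, N, hg, hv, hι, hN, hmul⟩ := FF_setup th θ halg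
  choose y hy using hι
  obtain ⟨q, hq, hA⟩ := FF_common th (fun t : σ × Fin g × Fin g => N (y t.1) t.2.1 t.2.2)
    (fun t => hN _ _ _)
  choose A hA using hA
  -- constants
  obtain ⟨a, ha1, ha2⟩ : ∃ a : ℕ, q.totalDegree ≤ a ∧ ∀ t, (A t).totalDegree ≤ a := by
    refine ⟨q.totalDegree + ∑ t, (A t).totalDegree, by omega, fun t => ?_⟩
    have := Finset.single_le_sum (f := fun t => (A t).totalDegree) (fun _ _ => Nat.zero_le _)
      (Finset.mem_univ t)
    omega
  obtain ⟨c, hc1, hc2, hc3⟩ : ∃ c : ℝ, 1 ≤ c ∧ len q ≤ c ∧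
      ∀ i j, ∑ k, len (A (i, j, k)) ≤ c := by
    have h0 : 0 ≤ ∑ i, ∑ j, ∑ k, len (A (i, j, k)) :=
      Finset.sum_nonneg fun _ _ => Finset.sum_nonneg fun _ _ => Finset.sum_nonneg fun _ _ =>
        Val_len_nonneg _
    have h1 := Val_len_nonneg q
    refine ⟨1 + len q + ∑ i, ∑ j, ∑ k, len (A (i, j, k)), by linarith, by linarith, ?_⟩
    intro i j
    have h2 : ∑ k, len (A (i, j, k)) ≤ ∑ j, ∑ k, len (A (i, j, k)) :=
      Finset.single_le_sum (f := fun j => ∑ k, len (A (i, j, k)))
        (fun _ _ => Finset.sum_nonneg fun _ _ => Val_len_nonneg _) (Finset.mem_univ j)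
    have h3 : ∑ j, ∑ k, len (A (i, j, k)) ≤ ∑ i, ∑ j, ∑ k, len (A (i, j, k)) :=
      Finset.single_le_sum (f := fun i => ∑ j, ∑ k, len (A (i, j, k)))
        (fun _ _ => Finset.sum_nonneg fun _ _ => Finset.sum_nonneg fun _ _ => Val_len_nonneg _)
        (Finset.mem_univ i)
    linarith
  have hvar : ∀ i, FF_Val th ι N q a c 1 1 (θ i) := by
    intro i
    refine ⟨zero_le_one, y i, hy i, fun j k => A (i, j, k), fun j k => ?_, fun j k => ?_,
      fun j => ?_⟩
    · rw [pow_one]
      exact hA (i, j, k)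
    · rw [mul_one]
      exact ha2 _
    · rw [pow_one, one_mul]
      exact hc3 i j
  obtain ⟨C, hC1, hCc⟩ : ∃ C : ℕ, 1 ≤ C ∧ c ≤ C := by
    refine ⟨1 + ⌈c⌉₊, by omega, ?_⟩
    have h1 : c ≤ (⌈c⌉₊ : ℝ) := Nat.le_ceil c
    push_cast
    linarith
  refine ⟨C, hC1, ?_⟩
  intro Λ _ D H P hH hPD hPH
  have hval := fun l => FF_poly θ hc1 hc2 ha1 hvar (P l) (hPD l)
  choose hl0 Y hY M hM1 hM2 hM3 using hval
  have hc0 : 0 ≤ c := by linarith
  have hlenM : ∀ l j k, len (M l j k) ≤ H * c ^ D := by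
    intro l j k
    have h1 : len (M l j k) ≤ ∑ k, len (M l j k) :=
      Finset.single_le_sum (f := fun k => len (M l j k)) (fun _ _ => Val_len_nonneg _)
        (Finset.mem_univ k)
    exact h1.trans ((hM3 l j).trans (mul_le_mul_of_nonneg_right (hPH l) (pow_nonneg hc0 _)))
  have hcC : H * c ^ D ≤ H * (C : ℝ) ^ (D + 1) := by
    refine mul_le_mul_of_nonneg_left ?_ (by linarith)
    have hC1' : (1 : ℝ) ≤ C := by exact_mod_cast hC1
    calc c ^ D ≤ (C : ℝ) ^ D := pow_le_pow_left₀ hc0 hCc _
      _ ≤ (C : ℝ) ^ (D + 1) := pow_le_pow_right₀ hC1' (Nat.le_succ D)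
  -- the linear system
  refine ⟨Fin g × Fin g × (Fin r → Fin (a * D + 1)), inferInstance,
    fun t l => (M l t.1 t.2.1).coeff (Finsupp.equivFunOnFinite.symm fun i => (t.2.2 i : ℕ)),
    fun t l => (FF_coeff _ _).trans ((hlenM l t.1 t.2.1).trans hcC), ?_⟩
  intro p
  set B : Matrix (Fin g × Fin g × (Fin r → Fin (a * D + 1))) Λ ℤ :=
    fun t l => (M l t.1 t.2.1).coeff (Finsupp.equivFunOnFinite.symm fun i => (t.2.2 i : ℕ)) with hB
  have hBmul : ∀ t, (B.mulVec p) t = ∑ l, (M l t.1 t.2.1).coeff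
      (Finsupp.equivFunOnFinite.symm fun i => (t.2.2 i : ℕ)) * p l := fun t => rfl
  set z : K := ∑ l, (p l : K) * Y l with hz
  have hzι : ι z = ∑ l, (p l : ℂ) * aeval θ (P l) := by
    rw [hz, map_sum]
    refine Finset.sum_congr rfl ?_
    intro l _
    rw [map_mul, map_intCast, hY]
  have hNz : ∀ j k, aeval th q ^ D * N z j k =
      aeval th (∑ l, MvPolynomial.C (p l) * M l j k) := by
    intro j k
    have h2 : N z j k = ∑ l, (p l : ℂ) * N (Y l) j k := by
      rw [hz, map_sum, Matrix.sum_apply]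
      refine Finset.sum_congr rfl ?_
      intro l _
      rw [map_mul, map_intCast]
      have h3 : ((p l : ℤ) : Matrix (Fin g) (Fin g) ℂ) * N (Y l) =
          (p l : ℤ) • N (Y l) := by
        rw [zsmul_eq_mul]
      rw [h3, Matrix.smul_apply, zsmul_eq_mul]
    rw [h2, Finset.mul_sum, map_sum]
    refine Finset.sum_congr rfl ?_
    intro l _
    rw [map_mul, FF_aC, ← hM1 l j k]
    ring
  constructor
  · intro hp1
    -- the matrix of the sum vanishes
    have hzero : ∀ j k, ∑ l, MvPolynomial.C (p l) * M l j k = 0 := by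
      intro j k
      ext e
      rw [MvPolynomial.coeff_sum, MvPolynomial.coeff_zero]
      simp only [MvPolynomial.coeff_C_mul]
      by_cases he : ∀ i, e i < a * D + 1
      · have h1 := congrFun hp1 (j, k, fun i => ⟨e i, he i⟩)
        have h2 : (Finsupp.equivFunOnFinite.symm
            fun i : Fin r => (((⟨e i, he i⟩ : Fin (a * D + 1)) : ℕ))) = e := by
          ext i
          rfl
        rw [hBmul, Pi.zero_apply] at h1
        simp only [h2] at h1
        rw [← h1]
        exact Finset.sum_congr rfl fun l _ => mul_comm _ _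
      · push Not at he
        obtain ⟨i, hi⟩ := he
        refine Finset.sum_eq_zero ?_
        intro l _
        have h4 : (M l j k).coeff e = 0 := by
          by_contra h5
          have h6 : e ∈ (M l j k).support := mem_support_iff.2 h5
          have h7 := (MvPolynomial.le_totalDegree h6).trans (hM2 l j k)
          have h8 : e i ≤ e.sum fun _ n => n := by
            by_cases hei : e i = 0
            · rw [hei]; exact Nat.zero_le _
            · exact Finset.single_le_sum (f := fun i => e i) (fun _ _ => Nat.zero_le _)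
                (Finsupp.mem_support_iff.2 hei)
          omega
        rw [h4, mul_zero]
    have hN0 : N z = 0 := by
      ext j k
      have h1 := hNz j k
      rw [hzero, map_zero] at h1
      exact (mul_eq_zero.1 h1).resolve_left (pow_ne_zero _ hq)
    rw [← hzι]
    have h1 := hmul z ⟨0, hg⟩
    rw [hN0] at h1
    simp only [Matrix.zero_apply, mul_zero, Finset.sum_const_zero] at h1
    exact (mul_eq_zero.1 h1.symm).resolve_right (hv _)
  · intro hp
    rw [← hzι] at hp
    have hz0 : z = 0 := (map_eq_zero ι).1 hp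
    have hinj : Function.Injective (aeval th : MvPolynomial (Fin r) ℤ →ₐ[ℤ] ℂ) := by
      have : AlgebraicIndependent ℤ th := hs.restrictScalars (R := ℤ) (by
        exact (algebraMap ℤ ℚ).injective_int)
      exact this
    have hzero : ∀ j k, ∑ l, MvPolynomial.C (p l) * M l j k = 0 := by
      intro j k
      apply hinj
      rw [← hNz j k, hz0, map_zero, map_zero, Matrix.zero_apply, mul_zero]
    funext t
    rw [hBmul, Pi.zero_apply]
    have h1 := congrArg (MvPolynomial.coeff (Finsupp.equivFunOnFinite.symm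
      fun i => (t.2.2 i : ℕ))) (hzero t.1 t.2.1)
    rw [MvPolynomial.coeff_sum, MvPolynomial.coeff_zero] at h1
    simp only [MvPolynomial.coeff_C_mul] at h1
    rw [← h1]
    exact Finset.sum_congr rfl fun l _ => mul_comm _ _

/-- A nonzero multiple of a rational vector is integral. -/
theorem clear {Λ : Type} [Fintype Λ] (w : Λ → ℚ) : ∃ (m : ℤ) (p : Λ → ℤ), m ≠ 0 ∧
    ∀ l, (p l : ℚ) = m * w l := by
  classical
  refine ⟨∏ l, ((w l).den : ℤ), fun l => (w l).num * ∏ k ∈ Finset.univ.erase l, ((w k).den : ℤ),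
    ?_, ?_⟩
  · exact Finset.prod_ne_zero_iff.2 fun l _ => by exact_mod_cast (w l).den_ne_zero
  · intro l
    rw [← Finset.mul_prod_erase Finset.univ _ (Finset.mem_univ l)]
    push_cast
    have h : (w l) * ((w l).den : ℚ) = (w l).num := Rat.mul_den_eq_num (w l)
    rw [← h]
    ring

end I_FFrank

open I_FFrank in
theorem FFrank_pf : S_FFrank := by
  classical
  intro σ _ θ
  obtain ⟨C, hC1, hC⟩ := mat σ θ
  refine ⟨C, hC1, ?_⟩
  intro Λ _ D H P hH hD hlen hcard hrk
  obtain ⟨α, _, B, hB1, hB2⟩ := hC Λ D H P hH hD hlen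
  have hHC : (1 : ℝ) ≤ H * (C : ℝ) ^ (D + 1) := by
    have hC1' : (1 : ℝ) ≤ C := by exact_mod_cast hC1
    exact one_le_mul_of_one_le_of_one_le hH (one_le_pow₀ hC1')
  -- over the rationals
  set Bq : Matrix α Λ ℚ := B.map (Int.cast : ℤ → ℚ) with hBq
  set S : (Λ → ℚ) →ₗ[ℚ] ℂ := Fintype.linearCombination ℚ (fun l => aeval θ (P l)) with hS
  have hSa : ∀ w : Λ → ℚ, S w = ∑ l, (w l : ℂ) * aeval θ (P l) := by
    intro w
    rw [hS, Fintype.linearCombination_apply]
    refine Finset.sum_congr rfl fun l _ => ?_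
    rw [Algebra.smul_def]
    rfl
  have hBqa : ∀ (w : Λ → ℚ) t, (Bq.mulVec w) t = ∑ l, (B t l : ℚ) * w l := fun w t => rfl
  have hker : LinearMap.ker Bq.mulVecLin = LinearMap.ker S := by
    ext w
    rw [LinearMap.mem_ker, LinearMap.mem_ker, Matrix.mulVecLin_apply]
    obtain ⟨m, p, hm, hp⟩ := clear w
    have hmq : (m : ℚ) ≠ 0 := by exact_mod_cast hm
    have hmc : (m : ℂ) ≠ 0 := by exact_mod_cast hm
    have e1 : Bq.mulVec w = 0 ↔ B.mulVec p = 0 := by
      constructor
      · intro h
        funext t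
        have h1 := congrFun h t
        rw [hBqa, Pi.zero_apply] at h1
        have h2 : ((B.mulVec p t : ℤ) : ℚ) = m * ∑ l, (B t l : ℚ) * w l := by
          rw [Finset.mul_sum]
          show ((∑ l, B t l * p l : ℤ) : ℚ) = _
          push_cast
          refine Finset.sum_congr rfl fun l _ => ?_
          rw [hp l]; ring
        rw [h1, mul_zero] at h2
        exact_mod_cast h2
      · intro h
        funext t
        have h1 := congrFun h t
        have h2 : ((B.mulVec p t : ℤ) : ℚ) = m * ∑ l, (B t l : ℚ) * w l := by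
          rw [Finset.mul_sum]
          show ((∑ l, B t l * p l : ℤ) : ℚ) = _
          push_cast
          refine Finset.sum_congr rfl fun l _ => ?_
          rw [hp l]; ring
        rw [h1] at h2
        rw [hBqa, Pi.zero_apply]
        have h3 : (m : ℚ) * ∑ l, (B t l : ℚ) * w l = 0 := by
          rw [← h2]; simp
        exact (mul_eq_zero.1 h3).resolve_left hmq
    have e2 : ∑ l, (p l : ℂ) * aeval θ (P l) = m * S w := by
      rw [hSa, Finset.mul_sum]
      refine Finset.sum_congr rfl fun l _ => ?_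
      have h : (p l : ℂ) = m * (w l : ℂ) := by
        have := congrArg (Rat.cast : ℚ → ℂ) (hp l)
        push_cast at this
        exact this
      rw [h]; ring
    rw [e1, hB2 p, e2]
    constructor
    · intro h
      exact (mul_eq_zero.1 h).resolve_left hmc
    · intro h
      rw [h, mul_zero]
  have hrank : Module.finrank ℚ (Submodule.span ℚ (Set.range Bq.row)) =
      Module.finrank ℚ (Submodule.span ℚ (Set.range fun l => aeval θ (P l))) := by
    rw [← Matrix.rank_eq_finrank_span_row, ← Fintype.range_linearCombination ℚ, ← hS, Matrix.rank]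
    have h1 := LinearMap.finrank_range_add_finrank_ker Bq.mulVecLin
    have h2 := LinearMap.finrank_range_add_finrank_ker S
    rw [hker] at h1
    omega
  -- independent rows
  obtain ⟨κ, a, ha, hsp, hli⟩ := exists_linearIndependent' ℚ Bq.row
  have : Finite κ := Finite.of_injective a ha
  have : Fintype κ := Fintype.ofFinite κ
  have hκ : 2 * Fintype.card κ ≤ Fintype.card Λ := by
    have h1 := finrank_span_eq_card hli
    rw [hsp, hrank] at h1
    omega
  by_cases hκ0 : Fintype.card κ = 0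
  · -- no equation
    have hemp : IsEmpty κ := Fintype.card_eq_zero_iff.1 hκ0
    have hall : ∀ t, Bq.row t = 0 := by
      intro t
      have h1 : Bq.row t ∈ Submodule.span ℚ (Set.range Bq.row) :=
        Submodule.subset_span ⟨t, rfl⟩
      rw [← hsp, Set.range_eq_empty, Submodule.span_empty, Submodule.mem_bot] at h1
      exact h1
    have : Nonempty Λ := Fintype.card_pos_iff.1 (by omega)
    refine ⟨fun _ => 1, ?_, ?_, ?_⟩
    · intro h
      have := congrFun h (Classical.arbitrary Λ)
      simp at this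
    · intro l
      have h1 : (1 : ℝ) ≤ Fintype.card Λ := by exact_mod_cast hcard
      simpa using one_le_mul_of_one_le_of_one_le h1 hHC
    · rw [← hB2]
      funext t
      show ∑ l, B t l * 1 = 0
      refine Finset.sum_eq_zero fun l _ => ?_
      have h1 := congrFun (hall t) l
      have h2 : ((B t l : ℤ) : ℚ) = 0 := h1
      have h3 : B t l = 0 := by exact_mod_cast h2
      rw [h3, zero_mul]
  · obtain ⟨p, hp0, hp1, hp2⟩ := FF_siegel (B.submatrix a id) (H * (C : ℝ) ^ (D + 1)) hHC
      (fun i j => hB1 _ _) (Nat.pos_of_ne_zero hκ0) hκ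
    refine ⟨p, hp0, hp2, ?_⟩
    rw [← hB2]
    -- the linear functional
    let L : (Λ → ℚ) →ₗ[ℚ] ℚ := Fintype.linearCombination ℚ (fun l => (p l : ℚ))
    have hL : ∀ w, L w = ∑ l, w l * (p l : ℚ) := fun w => by
      show Fintype.linearCombination ℚ (fun l => (p l : ℚ)) w = _
      rw [Fintype.linearCombination_apply]
      rfl
    have hle : Submodule.span ℚ (Set.range Bq.row) ≤ LinearMap.ker L := by
      rw [← hsp, Submodule.span_le]
      rintro _ ⟨k, rfl⟩
      show L (Bq.row (a k)) = 0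
      rw [hL]
      have h1 := congrFun hp1 k
      have h2 : ((((B.submatrix a id).mulVec p) k : ℤ) : ℚ) = ∑ l, (B (a k) l : ℚ) * (p l : ℚ) := by
        show ((∑ l, B (a k) l * p l : ℤ) : ℚ) = _
        push_cast
        rfl
      rw [h1] at h2
      have h3 : ∑ l, (B (a k) l : ℚ) * (p l : ℚ) = 0 := by rw [← h2]; simp
      exact h3
    funext t
    have h1 : L (Bq.row t) = 0 := hle (Submodule.subset_span ⟨t, rfl⟩)
    rw [hL] at h1
    have h2 : ((B.mulVec p t : ℤ) : ℚ) = ∑ l, Bq.row t l * (p l : ℚ) := by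
      show ((∑ l, B t l * p l : ℤ) : ℚ) = _
      push_cast
      rfl
    rw [h1] at h2
    exact_mod_cast h2

end Pool.Agent.Work.MP_8da9ea_nt.MX
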