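import Pool.Agent.Work.MP_8da9ea_nt.MX.StmtsG
import Pool.Agent.Work.MP_8da9ea_nt.EB.I_LamAdd

/-!
# Mixed block, item G4 (FOadd): additivity of all forms
-/

set_option autoImplicit false

namespace Pool.Agent.Work.MP_8da9ea_nt.MX

open MvPolynomial Pool.Agent.Work.MP_327059_nt.GL Pool.Agent.Work.MP_8da9ea_nt.S
  Pool.Agent.Work.MP_8da9ea_nt.EB

namespace I_FOadd

/-- the multiplicative form is additive -/
theorem th_add (δ : Derivation ℚ ℂ ℂ) (a b : ℂ) : FR.th δ (a + b) = FR.th δ a + FR.th δ b := by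
  unfold FR.th
  rw [Complex.exp_add, Derivation.leibniz, smul_eq_mul, smul_eq_mul]
  have ha := Complex.exp_ne_zero a
  have hb := Complex.exp_ne_zero b
  field_simp
  ring

/-- the corrected form of the second kind is additive -/
theorem etT_add (h1 : S_EtaAddC) {τ μ : ℂ} (h : Nrm τ μ) (α : ℂ) (δ : Derivation ℚ ℂ ℂ) (a b : ℂ) :
    etT τ μ α δ (a + b) = etT τ μ α δ a + etT τ μ α δ b := by
  unfold etT
  rw [h1 τ μ h δ a b, LamAdd_pf τ μ h δ a b, add_div, map_add]
  ring

end I_FOadd

open I_FOadd in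
theorem FOadd_pf (h1 : S_EtaAddC) : S_FOadd := by
  intro f τ μ α hN m b o y y'
  have hl : ∀ j, μ * (b j * (y + y')) = μ * (b j * y) + μ * (b j * y') := fun j => by ring
  have hm : ∀ j, b j * (y + y') = b j * y + b j * y' := fun j => by ring
  rcases o with _ | (j | (j | j))
  · refine LinearMap.ext fun δ => ?_
    change δ (y + y') = δ y + δ y'
    exact map_add δ y y'
  · refine LinearMap.ext fun δ => ?_
    change FR.th δ (b j * (y + y')) = FR.th δ (b j * y) + FR.th δ (b j * y')
    rw [hm j]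
    exact th_add δ _ _
  · refine LinearMap.ext fun δ => ?_
    change lam τ μ δ (μ * (b j * (y + y'))) = lam τ μ δ (μ * (b j * y)) + lam τ μ δ (μ * (b j * y'))
    rw [hl j]
    exact LamAdd_pf τ μ hN δ _ _
  · cases f with
    | false =>
      change (0 : Derivation ℚ ℂ ℂ →ₗ[ℂ] ℂ) = 0 + 0
      rw [add_zero]
    | true =>
      refine LinearMap.ext fun δ => ?_
      change etT τ μ α δ (μ * (b j * (y + y'))) =
        etT τ μ α δ (μ * (b j * y)) + etT τ μ α δ (μ * (b j * y'))
      rw [hl j]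
      exact etT_add h1 hN α δ _ _

end Pool.Agent.Work.MP_8da9ea_nt.MX
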