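import Pool.Agent.Work.MP_8da9ea_nt.MX.StmtsG
import Pool.Agent.Work.MP_8da9ea_nt.EB.I_Closed

/-!
# Mixed block: closedness of all forms (item FOclosed)
-/

set_option autoImplicit false

namespace Pool.Agent.Work.MP_8da9ea_nt.MX

open MvPolynomial Pool.Agent.Work.MP_327059_nt.GL Pool.Agent.Work.MP_8da9ea_nt.S
  Pool.Agent.Work.MP_8da9ea_nt.EB

namespace I_FOclosed

/-- `δ ↦ δ(number)` is closed. -/
theorem dL_closed (y : ℂ) (D δ : Derivation ℚ ℂ ℂ) : D (dL y δ) - δ (dL y D) = dL y ⁅D, δ⁆ := by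
  change D (δ y) - δ (D y) = ⁅D, δ⁆ y
  rw [Derivation.commutator_apply]

/-- The logarithmic differential is closed. -/
theorem thL_closed (u : ℂ) (D δ : Derivation ℚ ℂ ℂ) :
    D (thL u δ) - δ (thL u D) = thL u ⁅D, δ⁆ := by
  change D (δ (Complex.exp u) / Complex.exp u) - δ (D (Complex.exp u) / Complex.exp u) =
    ⁅D, δ⁆ (Complex.exp u) / Complex.exp u
  rw [Derivation.leibniz_div, Derivation.leibniz_div, Derivation.commutator_apply]
  simp only [smul_eq_mul]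
  have h := Complex.exp_ne_zero u
  field_simp
  ring

/-- `λ` is closed. -/
theorem laL_closed {τ μ : ℂ} (h : Nrm τ μ) (u : ℂ) (D δ : Derivation ℚ ℂ ℂ) :
    D (laL τ μ u δ) - δ (laL τ μ u D) = laL τ μ u ⁅D, δ⁆ :=
  (Closed_pf τ μ h D δ u).1

/-- `η`, corrected at the lattice points, is closed. -/
theorem etC_closed {τ μ : ℂ} (h : Nrm τ μ) (u : ℂ) (D δ : Derivation ℚ ℂ ℂ) :
    D (etC τ μ δ u) - δ (etC τ μ D u) = etC τ μ ⁅D, δ⁆ u := by
  unfold etC
  split_ifs with hu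
  · rw [Derivation.commutator_apply]
  · exact (Closed_pf τ μ h D δ u).2

/-- `η̃` is closed. -/
theorem etL_closed {τ μ α : ℂ} (h : Nrm τ μ) (hA : Alp τ μ α) (u : ℂ) (D δ : Derivation ℚ ℂ ℂ) :
    D (etL τ μ α u δ) - δ (etL τ μ α u D) = etL τ μ α u ⁅D, δ⁆ := by
  change D (etC τ μ δ u + α * (lam τ μ δ u - δ (u / μ))) -
    δ (etC τ μ D u + α * (lam τ μ D u - D (u / μ))) =
    etC τ μ ⁅D, δ⁆ u + α * (lam τ μ ⁅D, δ⁆ u - ⁅D, δ⁆ (u / μ))
  have h1 := etC_closed h u D δ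
  have h2 : D (lam τ μ δ u) - δ (lam τ μ D u) = lam τ μ ⁅D, δ⁆ u := (Closed_pf τ μ h D δ u).1
  have a1 : D α = 0 := I_Closed.der_alg_zero D hA.1
  have a2 : δ α = 0 := I_Closed.der_alg_zero δ hA.1
  rw [map_add, map_add, Derivation.leibniz, Derivation.leibniz, map_sub, map_sub, a1, a2, ← h1,
    ← h2, Derivation.commutator_apply]
  simp only [smul_eq_mul, mul_zero, add_zero]
  ring

end I_FOclosed

open I_FOclosed

theorem FOclosed_pf : S_FOclosed := by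
  intro f τ μ α hN hA m b o y D δ
  rcases o with _ | (j | (j | j))
  · exact dL_closed y D δ
  · exact thL_closed (b j * y) D δ
  · exact laL_closed hN (μ * (b j * y)) D δ
  · cases f
    · change D ((0 : Derivation ℚ ℂ ℂ →ₗ[ℂ] ℂ) δ) - δ ((0 : Derivation ℚ ℂ ℂ →ₗ[ℂ] ℂ) D) =
        (0 : Derivation ℚ ℂ ℂ →ₗ[ℂ] ℂ) ⁅D, δ⁆
      simp only [LinearMap.zero_apply, map_zero, sub_zero]
    · exact etL_closed hN hA (μ * (b j * y)) D δ

end Pool.Agent.Work.MP_8da9ea_nt.MX
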