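import Pool.Agent.Work.MP_8da9ea_nt.MX.StmtsF
import Pool.Agent.Work.MP_8da9ea_nt.MX.I_FinalZH

/-!
# Mixed block, item FinalZF (F6): the final theorem at one point, lossless version
-/

set_option autoImplicit false

namespace Pool.Agent.Work.MP_8da9ea_nt.MX

open MvPolynomial Pool.Agent.Work.MP_327059_nt.GL Pool.Agent.Work.MP_8da9ea_nt.S
  Pool.Agent.Work.MP_8da9ea_nt.EB

open I_FinalZH EB.I_FinalZ Pool.Agent.ED in
theorem FinalZF_pf (h1 : S_RelAllF) (h2 : S_RelAllJ) (h3 : S_RelPol2) : S_FinalZF := by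
  classical
  intro m m' κ r r' N b b' z ω₁ ω₂ _ hT hE s k t p hN
  rcases Nat.eq_zero_or_pos r' with rfl | hr'
  · obtain ⟨P, e1, e2, e3⟩ := I_FinalZH.fin_tor m m' κ r N b b' z ω₁ ω₂ hT s k t p hN
    exact ⟨P, e1, e2, fun c c' hc u v hu hv => ⟨fun i => i.elim0, e3 c c' hc u v hu hv⟩⟩
  obtain ⟨τ, μ, hn, hω, ho1, hμ, hm1, hJM⟩ := hE hr'
  have hB : ∀ (s k : ℕ) (t : Fin s → ℂ) (p : Fin k → ℂ),
      bigField ω₁ ω₂ t p = bigField ω₁ (ω₁ * τ) t p := by
    intro s k t p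
    rcases hω with h | h
    · rw [h]
    · rw [h, bigField_neg]
  have hg : ∀ (s k : ℕ) (t : Fin s → ℂ) (p : Fin k → ℂ),
      IsAlgebraic (bigField ω₁ ω₂ t p) μ := by
    intro s k t p
    rw [hB]
    exact hμ _ (mul_mem (ofNat_mem (bigField ω₁ (ω₁ * τ) t p) 60) (big_gk4 t p ho1))
      (mul_mem (ofNat_mem (bigField ω₁ (ω₁ * τ) t p) 140) (big_gk6 t p ho1))
  set B := bigField ω₁ ω₂ t p with hBdef
  set K := IntermediateField.adjoin ℚ ((B : Set ℂ) ∪ Set.range (Fin.append b b') ∪ {μ}) with hK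
  have hBK : B ≤ K := fun x hx => IntermediateField.subset_adjoin _ _ (Or.inl (Or.inl hx))
  have hμK : μ ∈ K := IntermediateField.subset_adjoin _ _ (Or.inr rfl)
  have hcK : Countable K := by
    refine countable_adjoin _ ?_
    exact ((big_countable ω₁ ω₂ t p).union (Set.finite_range _).countable).union
      (Set.countable_singleton μ)
  have hτK : τ ∈ K := hBK (by rw [hBdef, hB]; exact big_tau t p ho1)
  have heK : et τ ∈ K := hBK (by rw [hBdef, hB]; exact big_et t p ho1)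
  have hkK : kap ∈ K := hBK (by rw [hBdef, hB]; exact big_pi t p ho1 hn.im)
  obtain ⟨θ, hθ⟩ := TG.exists_theta _ N hN
  have hDK : ∀ δ ∈ TT (Fin.append b b'), (∀ i, δ (θ i) = 0) → δ ∈ DK K := by
    intro δ hδ hδθ
    have hδB : ∀ x ∈ B, δ x = 0 := by
      intro x hx
      refine der_zero_alg (IntermediateField.adjoin ℚ (Set.range θ)) δ ?_ x (hθ x hx)
      refine der_zero_adjoin (Set.range θ) δ ?_
      rintro _ ⟨i, rfl⟩
      exact hδθ i
    refine der_zero_adjoin _ δ ?_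
    rintro x ((hx | ⟨i, rfl⟩) | hx)
    · exact hδB x hx
    · exact hδ i
    · rw [Set.mem_singleton_iff] at hx
      rw [hx]
      exact der_zero_alg B δ hδB μ (hg s k t p)
  have hμ0 : μ ≠ 0 := hn.mu
  have key : ∃ (c : Fin r → Fin m → ℚ) (c' : Fin r' → Fin m' → ℚ)
      (δ : Fin r ⊕ Fin r' × Bool → Derivation ℚ ℂ ℂ), (∀ o, δ o ∈ DK K) ∧
      (Matrix.of fun o o' => enE τ μ (fun i => ∑ j, (c i j : ℂ) * (b j * z))
        (fun i => ∑ j, (c' i j : ℂ) * (b' j * (z / ω₁))) (δ o) o').det ≠ 0 := by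
    rcases hJM with ⟨eA, eB, er⟩ | ⟨hμω, eA, eB⟩
    · have hz : ∀ j, μ * (b' j * (z / (ω₁ * μ))) = b' j * (z / ω₁) := by
        intro j
        field_simp
      have f1 : r' + 0 + 1 ≤ rA2 τ μ (fun i : Fin 0 => i.elim0) b' (z / (ω₁ * μ)) (DK K) :=
        I_FinalZH.rank_DK (Fin.append b b') θ K hDK _ _ (by unfold rA2 at eA; omega)
      have f2 : r' + m' + 0 + 1 ≤ rB2 τ μ (fun i : Fin 0 => i.elim0) b' (z / (ω₁ * μ)) (DK K) :=
        I_FinalZH.rank_DK (Fin.append b b') θ K hDK _ _ (by unfold rB2 at eB; omega)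
      obtain ⟨c, c', δ, hδ, hdet⟩ := h1 τ μ hn K hcK hμK hτK heK hkK 0 m' 0 r'
        (fun i : Fin 0 => i.elim0) b' (z / (ω₁ * μ)) (fun h => absurd h (lt_irrefl 0))
        (fun _ => ⟨f1, f2⟩)
      simp only [hz] at hdet
      have hdet' : (Matrix.of fun o o' => enE τ μ (fun i : Fin 0 => i.elim0)
          (fun i => ∑ j, (c' i j : ℂ) * (b' j * (z / ω₁))) (δ o) o').det ≠ 0 := by
        have e0 : (fun i : Fin 0 => ∑ j : Fin 0, (c i j : ℂ) * ((j.elim0 : ℂ) * (z / (ω₁ * μ)))) =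
            (fun i : Fin 0 => i.elim0) := funext fun i => i.elim0
        rw [e0] at hdet
        exact hdet
      obtain ⟨c₁, δ₁, hδ₁, hdet₁⟩ := h2 τ μ K m m' r r' (fun j => b j * z)
        (fun j => b' j * (z / ω₁)) c' δ hδ hdet' (fun hr => by
          obtain ⟨g1, g2⟩ := hT hr
          have g3 := er hr
          exact I_FinalZH.rank_DK (Fin.append b b') θ K hDK _ _ (by omega))
      exact ⟨c₁, c', δ₁, hδ₁, hdet₁⟩
    · have hz : ∀ j, μ * (b' j * z) = b' j * (z / ω₁) := by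
        intro j
        rw [hμω]
        field_simp
      obtain ⟨c, c', δ, hδ, hdet⟩ := h1 τ μ hn K hcK hμK hτK heK hkK m m' r r' b b' z
        (fun hr => by
          obtain ⟨g1, g2⟩ := hT hr
          exact ⟨I_FinalZH.rank_DK (Fin.append b b') θ K hDK _ _ (by unfold rA2 at eA; omega),
            I_FinalZH.rank_DK (Fin.append b b') θ K hDK _ _ (by unfold rB2 at eB; omega)⟩)
        (fun _ => ⟨I_FinalZH.rank_DK (Fin.append b b') θ K hDK _ _ (by unfold rA2 at eA; omega),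
            I_FinalZH.rank_DK (Fin.append b b') θ K hDK _ _ (by unfold rB2 at eB; omega)⟩)
      simp only [hz] at hdet
      exact ⟨c, c', δ, hδ, hdet⟩
  obtain ⟨c₀, c₀', δ, hδ, hdet⟩ := key
  obtain ⟨P, hP0, hPh, hPc⟩ := h3 τ μ hn K hμK hτK heK hkK m m' r r'
    (fun j => b j * z) (fun j => b' j * (z / ω₁)) c₀ c₀' δ hδ hdet
  refine ⟨P, hP0, hPh, fun c c' hc u v hu hv => ?_⟩
  obtain ⟨hnl, hi⟩ := hPc c c' hc
  have hv' : ∀ i, ∑ j, (c' i j : ℂ) * (b' j * (z / ω₁)) = v i / ω₁ := by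
    intro i
    rw [hv i, Finset.sum_mul, Finset.sum_div]
    exact Finset.sum_congr rfl fun j _ => by ring
  refine ⟨?_, fin_step ω₁ ω₂ t p u v K hBK _ hi ?_ (by simp; omega)⟩
  · intro i x y hxy
    have h2 := hnl i
    rw [hv' i] at h2
    apply h2
    rw [hxy]
    rcases hω with h | h
    · refine mem_Lam.2 ⟨x, y, ?_⟩
      rw [h]
      field_simp
    · refine mem_Lam.2 ⟨x, -y, ?_⟩
      rw [h]
      push_cast
      field_simp
  have hu' : ∀ i, ∑ j, (c i j : ℂ) * (b j * z) = u i := by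
    intro i
    rw [hu i, Finset.sum_mul]
    exact Finset.sum_congr rfl fun j _ => by ring
  have hμL : μ ∈ CD.acl (bigField ω₁ ω₂ (Fin.append t u) (Fin.append p v)) :=
    CD.mem_acl.2 (hg _ _ _ _)
  rintro (i | ⟨i, q⟩)
  · simp only [Sum.elim_inl]
    refine CD.le_acl _ ?_
    have h3 := big_exp ω₁ ω₂ (Fin.append t u) (Fin.append p v) (Fin.natAdd s i)
    rw [Fin.append_right] at h3
    rw [hu' i]
    exact h3
  · have h4 : wp 1 τ (v i / ω₁) ∈ CD.acl (bigField ω₁ ω₂ (Fin.append t u) (Fin.append p v)) := by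
      refine CD.le_acl _ ?_
      have h3 := big_wp' (τ := τ) (Fin.append t u) (Fin.append p v) ho1 (Fin.natAdd k i)
      rw [Fin.append_right] at h3
      rw [hB]
      exact h3
    have h5 : zt 1 τ (v i / ω₁) ∈ CD.acl (bigField ω₁ ω₂ (Fin.append t u) (Fin.append p v)) := by
      refine CD.le_acl _ ?_
      have h3 := big_zt' (τ := τ) (Fin.append t u) (Fin.append p v) ho1 (Fin.natAdd k i)
      rw [Fin.append_right] at h3
      rw [hB]
      exact h3
    simp only [Sum.elim_inr]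
    rw [hv' i]
    cases q with
    | true =>
      rw [if_pos rfl]
      exact mul_mem hμL h5
    | false =>
      rw [if_neg (by simp)]
      exact mul_mem (pow_mem hμL 2) h4

end Pool.Agent.Work.MP_8da9ea_nt.MX
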