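import Pool.Agent.Work.MP_8da9ea_nt.MX.StmtsT

set_option autoImplicit false

namespace Pool.Agent.Work.MP_8da9ea_nt.MX

open MvPolynomial Pool.Agent.Work.MP_327059_nt.GL
  Pool.Agent.Work.MP_8da9ea_nt.S Pool.Agent.Work.MP_8da9ea_nt.EB

namespace I_FTIeq

lemma coeff_ren {σ τ : Type} [DecidableEq (τ →₀ ℕ)] (f : σ → τ) (P : MvPolynomial σ ℤ)
    (m : τ →₀ ℕ) : coeff m (rename f P) =
      ∑ u ∈ P.support, if Finsupp.mapDomain f u = m then coeff u P else 0 := by
  classical
  conv_lhs => rw [P.as_sum, map_sum]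
  rw [coeff_sum]
  refine Finset.sum_congr rfl (fun u _ => ?_)
  rw [rename_monomial, coeff_monomial]
  split_ifs <;> rfl

lemma len_rename_le {σ τ : Type} (f : σ → τ) (P : MvPolynomial σ ℤ) :
    len (rename f P) ≤ len P := by
  classical
  unfold len
  have h1 : ∀ m ∈ (rename f P).support, |((coeff m (rename f P) : ℤ) : ℝ)| ≤
      ∑ u ∈ P.support, if Finsupp.mapDomain f u = m then |((coeff u P : ℤ) : ℝ)| else 0 := by
    intro m _
    rw [coeff_ren f P m, Int.cast_sum]
    refine (Finset.abs_sum_le_sum_abs _ _).trans (Finset.sum_le_sum (fun u _ => ?_))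
    split_ifs with h
    · exact le_rfl
    · simp
  refine (Finset.sum_le_sum h1).trans ?_
  rw [Finset.sum_comm]
  refine Finset.sum_le_sum (fun u _ => ?_)
  rw [Finset.sum_ite_eq]
  split_ifs
  · exact le_rfl
  · exact abs_nonneg _

lemma key (Q : ℕ) {κ ι : Type} [Fintype κ] [Fintype ι] (f : κ → ι) (b : ι → ℂ)
    (h : FTI Q b) : FTI Q (fun k => b (f k)) := by
  obtain ⟨C, hC, h⟩ := h
  refine ⟨C, hC, fun P t ht hd hl hne => ?_⟩
  have e : aeval b (rename f P) = aeval (fun k => b (f k)) P := by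
    rw [aeval_rename]
    rfl
  rw [← e] at hne ⊢
  exact h _ t ht ((Nat.cast_le.mpr (totalDegree_rename_le f P)).trans hd)
    ((len_rename_le f P).trans hl) hne

end I_FTIeq

/-- Item FTIeq. -/
theorem FTIeq_pf : S_FTIeq := by
  intro Q m ι _ b
  refine ⟨fun e => ⟨fun h => ?_, fun h => ?_⟩, fun κ _ f h => I_FTIeq.key Q f b h⟩
  · exact I_FTIeq.key Q (fun i : Fin m => e i) b h
  · have h' : FTI Q (fun i : Fin m => b (e i)) := h
    have h2 := I_FTIeq.key Q (fun j : ι => e.symm j) (fun i : Fin m => b (e i)) h'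
    simpa using h2

end Pool.Agent.Work.MP_8da9ea_nt.MX
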