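import Pool.Agent.Work.MP_8da9ea_nt.MX.StmtsG
import Pool.Agent.Work.MP_8da9ea_nt.EB.I_Kf

/-!
# Mixed block, item RatPt: the ranks at a rational point of the additive part
-/

set_option autoImplicit false

namespace Pool.Agent.Work.MP_8da9ea_nt.MX

open MvPolynomial Pool.Agent.Work.MP_327059_nt.GL Pool.Agent.Work.MP_8da9ea_nt.S
  Pool.Agent.Work.MP_8da9ea_nt.EB

namespace I_RatPt

/-- additive functions are rationally linear -/
theorem add_sum (F : ℂ → ℂ) (hF : ∀ y y', F (y + y') = F y + F y') {ι : Type} (s : Finset ι)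
    (r : ι → ℚ) (x : ι → ℂ) : F (∑ i ∈ s, (r i : ℂ) * x i) = ∑ i ∈ s, (r i : ℂ) * F (x i) := by
  have h0 : F 0 = 0 := by
    have := hF 0 0
    rw [add_zero] at this
    simpa using this
  let G : ℂ →+ ℂ := { toFun := F, map_zero' := h0, map_add' := hF }
  have h1 : ∀ y, F y = G y := fun y => rfl
  rw [h1, map_sum]
  refine Finset.sum_congr rfl fun i _ => ?_
  have h2 : (r i : ℂ) * x i = (r i : ℚ) • x i := by rw [Rat.smul_def]
  rw [h2, map_rat_smul G (r i) (x i), Rat.smul_def, h1]

/-- additivity over a sum -/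
theorem add_sum1 (F : ℂ → ℂ) (hF : ∀ y y', F (y + y') = F y + F y') {ι : Type} (s : Finset ι)
    (x : ι → ℂ) : F (∑ i ∈ s, x i) = ∑ i ∈ s, F (x i) := by
  have h := add_sum F hF s (fun _ => 1) x
  simpa using h

/-- dimension count -/
theorem dim_count {V W : Type} [AddCommGroup V] [Module ℂ V] [AddCommGroup W] [Module ℂ W]
    [FiniteDimensional ℂ V] [FiniteDimensional ℂ W] (cc : V →ₗ[ℂ] W) (P D : Submodule ℂ V)
    (R : Submodule ℂ W) (hD : D ≤ LinearMap.ker cc) (hR : R ≤ P.map cc) :
    Module.finrank ℂ R + Module.finrank ℂ D ≤ Module.finrank ℂ ↥(P ⊔ D) := by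
  have h1 := LinearMap.finrank_range_add_finrank_ker (cc.domRestrict (P ⊔ D))
  have h2 : Module.finrank ℂ R ≤ Module.finrank ℂ (LinearMap.range (cc.domRestrict (P ⊔ D))) := by
    apply Submodule.finrank_mono
    intro r hr
    obtain ⟨p, hp, rfl⟩ := hR hr
    exact ⟨⟨p, Submodule.mem_sup_left hp⟩, rfl⟩
  have h3 : Module.finrank ℂ D ≤ Module.finrank ℂ (LinearMap.ker (cc.domRestrict (P ⊔ D))) := by
    let j : D →ₗ[ℂ] LinearMap.ker (cc.domRestrict (P ⊔ D)) :=
      LinearMap.codRestrict _ (Submodule.inclusion (le_sup_right : D ≤ P ⊔ D)) (by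
        intro d
        exact hD d.2)
    refine LinearMap.finrank_le_finrank_of_injective (f := j) ?_
    intro a a' h
    have h4 : ((j a : ↥(P ⊔ D)) : V) = ((j a' : ↥(P ⊔ D)) : V) := by rw [h]
    exact Subtype.ext h4
  omega

end I_RatPt

open I_RatPt in
theorem RatPt_pf (h1 : S_FOadd) : S_RatPt := by
  classical
  intro f τ μ α hN hα n m m₂ m₃ b x E₀ hE hbE c hck hcl h₃ hft hff D hD N g y hy hval t
  have hKf := Kf_pf τ hN.im
  set β : Fin m₂ → ℂ := fun l => ∑ j, c l j * b j with hβ
  set w : Fin n → ℂ := fun i => ∑ k, (t k : ℂ) * (g k i : ℂ) with hw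
  set z : ℂ := ∑ k, (t k : ℂ) * y k with hz
  have hcE : ∀ l j, c l j ∈ E₀ := fun l j =>
    hE _ ((hKf.1 _ ((hKf.2.1 _).1 (hck l j))).extendScalars (algebraMap ℚ E₀).injective)
  have hβE : ∀ l, β l ∈ E₀ := fun l => sum_mem fun j _ => mul_mem (hcE l j) (hbE j)
  -- additivity
  have hetT : ∀ (δ : Derivation ℚ ℂ ℂ) (u u' : ℂ),
      etT τ μ α δ (u + u') = etT τ μ α δ u + etT τ μ α δ u' := by
    intro δ u u'
    have h := h1 true τ μ α hN 1 (fun _ => 1) (some (Sum.inr (Sum.inr 0))) (u / μ) (u' / μ)
    have h2 := congrArg (fun F : Derivation ℚ ℂ ℂ →ₗ[ℂ] ℂ => F δ) h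
    have e : ∀ v : ℂ, (FO true τ μ α (fun _ : Fin 1 => (1 : ℂ)) (v / μ)
        (some (Sum.inr (Sum.inr 0)))) δ = etT τ μ α δ v := by
      intro v
      show etT τ μ α δ (μ * (1 * (v / μ))) = _
      rw [one_mul, mul_div_cancel₀ _ hN.mu]
    have e' : (u / μ + u' / μ) = (u + u') / μ := by rw [add_div]
    simp only [LinearMap.add_apply] at h2
    rw [e', e, e, e] at h2
    exact h2
  have hFA : ∀ (o : Option (Fin m)) (δ : Derivation ℚ ℂ ℂ) (v v' : ℂ),
      FA f τ μ α b (v + v') o δ = FA f τ μ α b v o δ + FA f τ μ α b v' o δ := by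
    intro o δ v v'
    cases o with
    | none => exact map_add δ v v'
    | some j =>
      show (if f then etL τ μ α (μ * (b j * (v + v'))) else 0) δ =
        (if f then etL τ μ α (μ * (b j * v)) else 0) δ + (if f then etL τ μ α (μ * (b j * v')) else 0) δ
      cases f
      · simp
      · show etT τ μ α δ (μ * (b j * (v + v'))) = etT τ μ α δ (μ * (b j * v)) +
          etT τ μ α δ (μ * (b j * v'))
        rw [← hetT, mul_add, mul_add]
  have hzx : z = ∑ i, w i * x i := by
    rw [hz]
    simp only [hw, hy, Finset.mul_sum, Finset.sum_mul]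
    rw [Finset.sum_comm]
    refine Finset.sum_congr rfl fun i _ => Finset.sum_congr rfl fun k _ => by ring
  have hmv : ∀ (δ : Derivation ℚ ℂ ℂ) (o : Option (Fin m)),
      mvJ w ((LinearMap.pi fun i => fam (FA f τ μ α b (x i))) δ) o = FA f τ μ α b z o δ := by
    intro δ o
    show ∑ i, w i * FA f τ μ α b (x i) o δ = _
    have h := add_sum (fun v => FA f τ μ α b v o δ) (hFA o δ) Finset.univ
      (fun i => ∑ k, t k * g k i) x
    have hcast : ∀ i, ((∑ k, t k * g k i : ℚ) : ℂ) = w i := by
      intro i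
      simp only [hw]
      push_cast
      rfl
    simp only [hcast] at h
    rw [hzx]
    exact h.symm
  -- the map
  let cc : (Option (Fin m) → ℂ) →ₗ[ℂ] (Option (Fin m₃) → ℂ) :=
    { toFun := fun d o => o.elim (d none) (fun l =>
        ∑ j, (starRingEnd ℂ) (c (Fin.castLE h₃ l) j) * d (some j) +
          α * β (Fin.castLE h₃ l) * d none)
      map_add' := by
        intro d d'
        funext o
        cases o with
        | none => rfl
        | some l =>
          simp only [Option.elim, Pi.add_apply, mul_add, Finset.sum_add_distrib]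
          ring
      map_smul' := by
        intro r d
        funext o
        cases o with
        | none => rfl
        | some l =>
          simp only [Option.elim, Pi.smul_apply, smul_eq_mul, RingHom.id_apply, mul_add,
            Finset.mul_sum]
          congr 1
          · refine Finset.sum_congr rfl fun j _ => by ring
          · ring }
  refine dim_count cc _ D _ ?_ ?_
  · intro d hd
    obtain ⟨h2, h3, h4⟩ := (hD d).1 hd
    rw [LinearMap.mem_ker]
    funext o
    cases o with
    | none => exact h2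
    | some l =>
      show ∑ j, (starRingEnd ℂ) (c (Fin.castLE h₃ l) j) * d (some j) +
          α * β (Fin.castLE h₃ l) * d none = 0
      rw [h4, h2, mul_zero, add_zero]
  · rintro _ ⟨δ, hδ, rfl⟩
    refine ⟨mvJ w ((LinearMap.pi fun i => fam (FA f τ μ α b (x i))) δ),
      ⟨_, ⟨δ, hδ, rfl⟩, rfl⟩, ?_⟩
    funext o
    cases o with
    | none =>
      show mvJ w ((LinearMap.pi fun i => fam (FA f τ μ α b (x i))) δ) none =
        δ (∑ k, (t k : ℂ) * y k)
      rw [hmv]
      rfl
    | some l =>
      have hf : f = true := by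
        by_contra h
        have h2 := hff (by simpa using h)
        subst h2
        exact l.elim0
      subst hf
      show ∑ j, (starRingEnd ℂ) (c (Fin.castLE h₃ l) j) *
          mvJ w ((LinearMap.pi fun i => fam (FA true τ μ α b (x i))) δ) (some j) +
          α * β (Fin.castLE h₃ l) *
            mvJ w ((LinearMap.pi fun i => fam (FA true τ μ α b (x i))) δ) none =
        δ (∑ k, (t k : ℂ) * ze τ μ (μ * (β (Fin.castLE h₃ l) * y k)))
      simp only [hmv]
      set l' : Fin m₂ := Fin.castLE h₃ l with hl'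
      have e1 : ∀ j, (starRingEnd ℂ) (c l' j) * FA true τ μ α b z (some j) δ =
          etT τ μ α δ (μ * (c l' j * b j * z)) := by
        intro j
        show (starRingEnd ℂ) (c l' j) * etT τ μ α δ (μ * (b j * z)) = _
        rw [← hα.2 _ ((hKf.2.1 _).1 (hck l' j))]
        congr 1
        ring
      have e2 : ∑ j, (starRingEnd ℂ) (c l' j) * FA true τ μ α b z (some j) δ =
          etT τ μ α δ (μ * (β l' * z)) := by
        rw [Finset.sum_congr rfl fun j _ => e1 j,
          ← add_sum1 (fun v => etT τ μ α δ v) (hetT δ) Finset.univ]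
        congr 1
        rw [hβ]
        simp only [Finset.sum_mul, Finset.mul_sum]
      have e3 : etT τ μ α δ (μ * (β l' * z)) =
          ∑ k, (t k : ℂ) * etT τ μ α δ (μ * (β l' * y k)) := by
        rw [← add_sum (fun v => etT τ μ α δ (μ * (β l' * v))) (by
          intro v v'
          show etT τ μ α δ (μ * (β l' * (v + v'))) = _
          rw [← hetT, mul_add, mul_add])]
      have e4 : ∀ k, etT τ μ α δ (μ * (β l' * y k)) =
          δ (ze τ μ (μ * (β l' * y k))) - α * β l' * δ (y k) := by
        intro k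
        obtain ⟨hv1, hv2⟩ := hval k l'
        have hl0 : lam τ μ δ (μ * (β l' * y k)) = 0 := by
          unfold lam
          rw [if_neg hv1, hδ _ hv2, zero_div]
        unfold etT etC etf
        rw [if_neg hv1, if_neg hv1, hl0, mul_div_cancel_left₀ _ hN.mu, Derivation.leibniz,
          hδ _ (hβE l')]
        simp only [smul_eq_mul]
        ring
      have e5 : ∀ v : Fin N → ℂ, δ (∑ k, (t k : ℂ) * v k) = ∑ k, (t k : ℂ) * δ (v k) := by
        intro v
        exact add_sum (fun v => δ v) (fun v v' => map_add δ v v') Finset.univ t v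
      have e6 : FA true τ μ α b z none δ = ∑ k, (t k : ℂ) * δ (y k) := by
        show δ z = _
        rw [hz, e5]
      rw [e2, e3, e6, e5, Finset.mul_sum, ← Finset.sum_add_distrib]
      refine Finset.sum_congr rfl fun k _ => ?_
      rw [e4 k]
      ring

end Pool.Agent.Work.MP_8da9ea_nt.MX
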