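import Pool.Agent.Work.MP_8da9ea_nt.MX.StmtsG
import Pool.Agent.Work.MP_8da9ea_nt.MX.I_RatPt
import Pool.Agent.Work.MP_8da9ea_nt.MX.I_Rat
import Pool.Agent.Work.MP_8da9ea_nt.MX.I_FTIeq
import Pool.Agent.Work.MP_8da9ea_nt.EB.I_GCoreE
import Pool.Agent.Work.MP_8da9ea_nt.EB.I_GCoreE0
import Pool.Agent.Work.MP_8da9ea_nt.EB.I_RedNT
import Pool.Agent.Work.MP_8da9ea_nt.EB.I_FText
import Pool.Agent.Work.MP_8da9ea_nt.EB.I_FTpol
import Pool.Agent.Work.MP_8da9ea_nt.EB.I_Kf
import Pool.Agent.Work.MP_8da9ea_nt.EB.I_LamZero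
import Pool.Agent.Work.MP_8da9ea_nt.EB.I_LamAdd
import Pool.Agent.Work.MP_8da9ea_nt.EB.I_LamMul
import Pool.Agent.Work.MP_8da9ea_nt.EB.I_RelStepE
import Pool.Agent.Work.MP_8da9ea_nt.EB.I_LinAlgK
import Pool.Agent.Work.MP_8da9ea_nt.Bd.B04

/-!
# Mixed block, item GCoreM: the rank at a generic point
-/

set_option autoImplicit false

namespace Pool.Agent.Work.MP_8da9ea_nt.MX

open MvPolynomial Pool.Agent.Work.MP_327059_nt.GL Pool.Agent.Work.MP_8da9ea_nt.S
  Pool.Agent.Work.MP_8da9ea_nt.EB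

namespace I_GCoreM

/-! ### Fields -/

/-- `kf τ` is stable under conjugation -/
lemma kf_conj {τ : ℂ} (hτ : 0 < τ.im) : ∀ g ∈ kf τ, (starRingEnd ℂ) g ∈ kf τ := by
  intro g hg
  obtain ⟨N, hN, h1, h2⟩ := ((Kf_pf τ hτ).2.1 g).1 hg
  obtain ⟨p, q, hpq⟩ := mem_Lam.1 h1
  obtain ⟨p', q', hpq'⟩ := mem_Lam.1 h2
  have hN' : (N : ℂ) ≠ 0 := by exact_mod_cast hN
  -- the quadratic equation
  have e1 : (q : ℂ) * τ ^ 2 + ((p : ℂ) - q') * τ - p' = 0 := by
    linear_combination hpq' - τ * hpq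
  have e2 : (q : ℂ) * (starRingEnd ℂ) τ ^ 2 + ((p : ℂ) - q') * (starRingEnd ℂ) τ - p' = 0 := by
    have := congrArg (starRingEnd ℂ) e1
    simpa using this
  have h3 : τ - (starRingEnd ℂ) τ ≠ 0 := by
    intro h
    have := congrArg Complex.im h
    simp at this
    linarith
  have e3 : (q : ℂ) * (τ + (starRingEnd ℂ) τ) + ((p : ℂ) - q') = 0 := by
    apply mul_left_cancel₀ h3
    linear_combination e1 - e2
  have e4 : (N : ℂ) * (starRingEnd ℂ) g = p + q * (starRingEnd ℂ) τ := by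
    have := congrArg (starRingEnd ℂ) hpq
    simpa using this
  have e5 : (starRingEnd ℂ) g = ((p : ℂ) + q') / N - g := by
    field_simp
    linear_combination e4 + hpq + e3
  rw [e5]
  exact sub_mem (div_mem (add_mem (intCast_mem _ _) (intCast_mem _ _)) (intCast_mem _ _)) hg

lemma kQ_conj : ∀ g ∈ kQ, (starRingEnd ℂ) g ∈ kQ := by
  intro g hg
  obtain ⟨q, rfl⟩ := IntermediateField.mem_bot.1 hg
  have h : (starRingEnd ℂ) (algebraMap ℚ ℂ q) = algebraMap ℚ ℂ q := by
    rw [eq_ratCast]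
    simp
  rw [h]
  exact hg

lemma kQ_rat (g : kQ) : ∃ q : ℚ, (g : ℂ) = (q : ℂ) := by
  obtain ⟨q, hq⟩ := IntermediateField.mem_bot.1 g.2
  exact ⟨q, by rw [← hq, eq_ratCast]⟩

lemma countable_adj (S : Set ℂ) (hS : S.Countable) :
    Countable (IntermediateField.adjoin ℚ S) := by
  rw [← Cardinal.mk_le_aleph0_iff]
  refine (IntermediateField.cardinalMk_adjoin_le ℚ S).trans ?_
  refine sup_le (sup_le ?_ ?_) le_rfl
  · exact Cardinal.mk_le_aleph0_iff.2 inferInstance
  · exact Cardinal.mk_le_aleph0_iff.2 hS.to_subtype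

/-- the field `F` -/
lemma exists_F (τ μ : ℂ) {n m : ℕ} (b : Fin m → ℂ) (x : Fin n → ℂ) :
    ∃ F : IntermediateField ℚ ℂ, ACl F ∧ Countable F ∧ (∀ j, b j ∈ F) ∧ (∀ i, x i ∈ F) ∧
      (∀ i j, Complex.exp (b j * x i) ∈ F) ∧ (∀ i j, xe τ μ (μ * (b j * x i)) ∈ F) ∧
      (∀ i j, ze τ μ (μ * (b j * x i)) ∈ F) ∧ ∀ i j, μ * qp τ (μ * (b j * x i)) ∈ F := by
  let S : Set ℂ := Set.range b ∪ (Set.range x ∪
    (Set.range (fun p : Fin n × Fin m => Complex.exp (b p.2 * x p.1)) ∪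
    (Set.range (fun p : Fin n × Fin m => xe τ μ (μ * (b p.2 * x p.1))) ∪
    (Set.range (fun p : Fin n × Fin m => ze τ μ (μ * (b p.2 * x p.1))) ∪
    (Set.range (fun p : Fin n × Fin m => μ * qp τ (μ * (b p.2 * x p.1))))))))
  have hS : S.Countable := by
    refine (Set.countable_range _).union ((Set.countable_range _).union
      ((Set.countable_range _).union ((Set.countable_range _).union
      ((Set.countable_range _).union (Set.countable_range _)))))
  let K := IntermediateField.adjoin ℚ S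
  have hK : Countable K := countable_adj S hS
  have hSK : ∀ z ∈ S, z ∈ EB.I_RelStepE.acl K := fun z hz =>
    EB.I_RelStepE.le_acl K (IntermediateField.subset_adjoin ℚ S hz)
  refine ⟨EB.I_RelStepE.acl K, EB.I_RelStepE.ACl_acl K, EB.I_RelStepE.countable_acl K, ?_, ?_, ?_,
    ?_, ?_, ?_⟩
  · exact fun j => hSK _ (Or.inl ⟨j, rfl⟩)
  · exact fun i => hSK _ (Or.inr (Or.inl ⟨i, rfl⟩))
  · exact fun i j => hSK _ (Or.inr (Or.inr (Or.inl ⟨(i, j), rfl⟩)))
  · exact fun i j => hSK _ (Or.inr (Or.inr (Or.inr (Or.inl ⟨(i, j), rfl⟩))))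
  · exact fun i j => hSK _ (Or.inr (Or.inr (Or.inr (Or.inr (Or.inl ⟨(i, j), rfl⟩)))))
  · exact fun i j => hSK _ (Or.inr (Or.inr (Or.inr (Or.inr (Or.inr ⟨(i, j), rfl⟩)))))

/-- a generic point -/
lemma exists_v (F : IntermediateField ℚ ℂ) (hF : Countable F) (n : ℕ) :
    ∃ v : Fin n → ℂ, AlgebraicIndependent F v := by
  obtain ⟨v, hv, -⟩ := pr_DenseK (Fin n) (F : Set ℂ) (Set.countable_coe_iff.1 hF) (fun _ => 0) 1
    one_pos
  rw [IntermediateField.adjoin_self] at hv
  exact ⟨v, hv⟩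

lemma exists_max (P : ℕ → Prop) (h0 : P 0) (B : ℕ) (hB : ∀ k, P k → k ≤ B) :
    ∃ k, P k ∧ ∀ l, P l → l ≤ k := by
  classical
  exact ⟨Nat.findGreatest P B, Nat.findGreatest_spec (Nat.zero_le B) h0,
    fun l hl => Nat.le_findGreatest (hB l hl) hl⟩

/-- counting -/
lemma trE_of {κ k₀ n m : ℕ} (b : Fin m → ℂ) (Z : Set ℂ) (E₀ F : IntermediateField ℚ ℂ)
    (v : Fin n → ℂ) (hv : AlgebraicIndependent F v) (hbF : ∀ j, b j ∈ F) (hZF : ∀ z ∈ Z, z ∈ F)
    (hκ : TrLe κ b)
    (hE₀ : ∀ c ∈ E₀, IsAlgebraic (IntermediateField.adjoin ℚ (Set.range b ∪ Z)) c)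
    (hk : ∀ (k : ℕ) (h : Fin k → ℂ), (∀ t, h t ∈ Z) →
      AlgebraicIndependent (IntermediateField.adjoin ℚ (Set.range v ∪ Set.range b)) h → k ≤ k₀) :
    TrE E₀ (κ + k₀) := by
  classical
  rintro ⟨z, hz, hzi⟩
  let M := AlgebraicIndependent.matroid ℚ ℂ
  have h1 : M.Indep (Set.range z) := by
    rw [AlgebraicIndependent.matroid_indep_iff]
    exact hzi.to_subtype_range
  have h2 : Set.range z ⊆ M.closure (Set.range b ∪ Z) := by
    rw [AlgebraicIndependent.matroid_closure_eq]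
    rintro _ ⟨t, rfl⟩
    exact IntermediateField.isAlgebraic_adjoin_iff.1 (hE₀ _ (hz t))
  have h3 : ((κ + k₀ + 1 : ℕ) : ℕ∞) ≤ M.eRk (Set.range b ∪ Z) := by
    have h4 := h1.encard_le_eRk_of_subset h2
    rw [Matroid.eRk_closure_eq, ← Set.image_univ, hzi.injective.encard_image, Set.encard_univ,
      ENat.card_eq_coe_fintype_card, Fintype.card_fin] at h4
    exact h4
  obtain ⟨I, hI1, hI2, hI3⟩ := Matroid.le_eRk_iff.1 h3
  have hIf : I.Finite := Set.finite_of_encard_eq_coe hI3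
  obtain ⟨f, hf, hfi⟩ : ∃ f : Fin (κ + k₀ + 1) → ℂ, (∀ t, f t ∈ I) ∧
      AlgebraicIndependent ℚ f := by
    have _ := hIf.fintype
    have hc : Fintype.card I = κ + k₀ + 1 := by
      have h5 : I.encard = ((Fintype.card I : ℕ) : ℕ∞) := by
        rw [Set.encard, ENat.card_eq_coe_fintype_card]
      rw [h5] at hI3
      exact_mod_cast hI3
    let e := (Fintype.equivFinOfCardEq hc).symm
    have h6 : AlgebraicIndependent ℚ (fun z : I => (z : ℂ)) :=
      AlgebraicIndependent.matroid_indep_iff.1 hI2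
    exact ⟨fun t => (e t : ℂ), fun t => (e t).2, h6.comp e e.injective⟩
  have hfF : Set.range f ⊆ Set.range (algebraMap F ℂ) := by
    rintro _ ⟨i, rfl⟩
    have h7 : f i ∈ F := by
      rcases hI1 (hf i) with ⟨j, hj⟩ | h
      · rw [← hj]
        exact hbF j
      · exact hZF _ h
    exact ⟨⟨f i, h7⟩, rfl⟩
  have hvf : AlgebraicIndependent ℚ (Sum.elim v f) := hfi.sumElim_of_tower hfF hv
  have hfv : AlgebraicIndependent ℚ (Sum.elim f v) := by
    have := hvf.comp (Equiv.sumComm (Fin (κ + k₀ + 1)) (Fin n))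
      (Equiv.sumComm (Fin (κ + k₀ + 1)) (Fin n)).injective
    convert this using 1
    funext q
    cases q <;> rfl
  have hfV : AlgebraicIndependent (IntermediateField.adjoin ℚ (Set.range v)) f :=
    IntermediateField.algebraicIndependent_adjoin_iff.2 (AlgebraicIndependent.sumElim_iff.1 hfv).2
  have hVb : IntermediateField.adjoin ℚ (Set.range v ∪ Set.range b) ≤
      IntermediateField.adjoin ℚ
        (((IntermediateField.adjoin ℚ (Set.range v) : IntermediateField ℚ ℂ) : Set ℂ) ∪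
          Set.range b) := by
    apply IntermediateField.adjoin.mono
    apply Set.union_subset_union_left
    exact IntermediateField.subset_adjoin ℚ _
  have hfin := pr_CntB m κ k₀ (IntermediateField.adjoin ℚ (Set.range v)) b Z hκ (by
      intro k f hf hfi
      exact hk k f hf (EB.I_GCoreE0.mono hVb f hfi)) (κ + k₀ + 1) f (fun t => by
      rcases hI1 (hf t) with h | h
      · exact Or.inr h
      · exact Or.inl h) hfV
  omega

/-! ### Points -/

lemma ptG_prod {k : IntermediateField ℚ ℂ} {n m : ℕ} (b : Fin m → ℂ) (x : Fin n → ℂ)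
    (w : Fin n → ℚ) (c : Fin m → k) :
    ptG b x (fun i j => (algebraMap ℚ k (w i)) * c j) =
      (∑ j, (c j : ℂ) * b j) * ∑ i, (w i : ℂ) * x i := by
  unfold ptG
  rw [Finset.sum_mul_sum, Finset.sum_comm]
  refine Finset.sum_congr rfl fun j _ => Finset.sum_congr rfl fun i _ => ?_
  have h : ((algebraMap ℚ k (w i) * c j : k) : ℂ) = (w i : ℂ) * (c j : ℂ) := by
    rw [IntermediateField.coe_mul]
    congr 1
  rw [h]
  ring

lemma th_add (δ : Derivation ℚ ℂ ℂ) (u u' : ℂ) : FR.th δ (u + u') = FR.th δ u + FR.th δ u' := by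
  unfold FR.th
  have h1 := Complex.exp_ne_zero u
  have h2 := Complex.exp_ne_zero u'
  rw [Complex.exp_add, Derivation.leibniz]
  simp only [smul_eq_mul]
  field_simp
  ring

/-- the toric values are in `F` -/
lemma val1 {F : IntermediateField ℚ ℂ} (hF : ACl F) {n m : ℕ} (b : Fin m → ℂ) (x : Fin n → ℂ)
    (h : ∀ i j, Complex.exp (b j * x i) ∈ F) (ξ : Fin n → Fin m → kQ) :
    Complex.exp (ptG b x ξ) ∈ F := by
  apply I_Rat.mem_of_killed hF
  intro δ hδ
  have h1 : FR.th δ (ptG b x ξ) = 0 := by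
    unfold ptG
    rw [I_RatPt.add_sum1 (fun u => FR.th δ u) (th_add δ) Finset.univ]
    refine Finset.sum_eq_zero fun i _ => ?_
    rw [I_RatPt.add_sum1 (fun u => FR.th δ u) (th_add δ) Finset.univ]
    refine Finset.sum_eq_zero fun j _ => ?_
    obtain ⟨q, hq⟩ := kQ_rat (ξ i j)
    rw [hq]
    have h2 := I_RatPt.add_sum (fun u => FR.th δ u) (th_add δ) (Finset.univ : Finset (Fin 1))
      (fun _ => q) (fun _ => b j * x i)
    simp only [Finset.univ_unique, Finset.sum_singleton] at h2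
    rw [h2]
    unfold FR.th
    rw [hδ _ (h i j), zero_div, mul_zero]
  unfold FR.th at h1
  exact (div_eq_zero_iff.1 h1).resolve_right (Complex.exp_ne_zero _)

/-- the elliptic values are in `F` -/
lemma val2 {τ μ : ℂ} (hN : Nrm τ μ) {F : IntermediateField ℚ ℂ} (hF : ACl F) {n m : ℕ}
    (b : Fin m → ℂ) (x : Fin n → ℂ) (h : ∀ i j, xe τ μ (μ * (b j * x i)) ∈ F)
    (ξ : Fin n → Fin m → kf τ) (hξ : μ * ptG b x ξ ∉ Lam τ) :
    xe τ μ (μ * ptG b x ξ) ∈ F := by
  have hLM := LamMul_pf LamAdd_pf Kf_pf CD.prf_Sum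
  refine ((LamZero_pf τ μ hN F hF (μ * ptG b x ξ)).1 fun δ hδ => ?_).resolve_left hξ
  have hadd : ∀ u u', lam τ μ δ (u + u') = lam τ μ δ u + lam τ μ δ u' := LamAdd_pf τ μ hN δ
  unfold ptG
  rw [Finset.mul_sum, I_RatPt.add_sum1 (fun u => lam τ μ δ u) hadd Finset.univ]
  refine Finset.sum_eq_zero fun i _ => ?_
  rw [Finset.mul_sum, I_RatPt.add_sum1 (fun u => lam τ μ δ u) hadd Finset.univ]
  refine Finset.sum_eq_zero fun j _ => ?_
  have e : μ * ((ξ i j : ℂ) * (b j * x i)) = (ξ i j : ℂ) * (μ * (b j * x i)) := by ring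
  rw [e, hLM τ μ hN δ _ _ (((Kf_pf τ hN.im).2.1 _).1 (ξ i j).2)]
  have h3 : lam τ μ δ (μ * (b j * x i)) = 0 := by
    unfold lam
    split_ifs
    · rfl
    · rw [hδ _ (h i j), zero_div]
  rw [h3, mul_zero]

/-- the forms vanish on `DK F` -/
lemma FA_zero {τ μ : ℂ} (hN : Nrm τ μ) (α : ℂ) (f : Bool) {F : IntermediateField ℚ ℂ} {n m : ℕ}
    (b : Fin m → ℂ) (x : Fin n → ℂ) (hb : ∀ j, b j ∈ F) (hx : ∀ i, x i ∈ F)
    (h1 : ∀ i j, xe τ μ (μ * (b j * x i)) ∈ F) (h2 : ∀ i j, ze τ μ (μ * (b j * x i)) ∈ F)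
    (h3 : ∀ i j, μ * qp τ (μ * (b j * x i)) ∈ F) :
    ∀ δ ∈ DK F, ∀ i o, FA f τ μ α b (x i) o δ = 0 := by
  intro δ hδ i o
  cases o with
  | none => exact hδ _ (hx i)
  | some j =>
    cases f
    · rfl
    · show etT τ μ α δ (μ * (b j * x i)) = 0
      have e1 : lam τ μ δ (μ * (b j * x i)) = 0 := by
        unfold lam
        split_ifs
        · rfl
        · rw [hδ _ (h1 i j), zero_div]
      have e2 : δ (μ * (b j * x i) / μ) = 0 := by
        rw [mul_div_cancel_left₀ _ hN.mu]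
        exact hδ _ (mul_mem (hb j) (hx i))
      unfold etT etC etf
      rw [e1, e2]
      split_ifs
      · rw [hδ _ (h3 i j)]
        ring
      · rw [hδ _ (h2 i j)]
        ring

/-! ### Linear algebra -/

/-- conjugation and insertion of zeros -/
noncomputable def cjO {n m : ℕ} (β : Fin n → Fin m → ℂ) : Fin n → Option (Fin m) → ℂ :=
  fun i o => o.elim 0 (fun j => (starRingEnd ℂ) (β i j))

/-- rationality of the annihilator -/
lemma ratF_annF (f : Bool) {τ : ℂ} (hτ : 0 < τ.im) {F : IntermediateField ℚ ℂ} (hF : ACl F) {n m : ℕ}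
    (G : Submodule (kf τ) (Fin n → Fin m → kf τ)) : RatF F (annF f G) := by
  intro s hs
  cases f
  · rw [hs.2.1 rfl]
    exact Submodule.zero_mem _
  · have h1 : (fun i j => (starRingEnd ℂ) (s i (some j))) ∈ annK G := by
      intro ξ hξ
      have h2 := hs.2.2 ξ hξ
      have h3 := congrArg (starRingEnd ℂ) h2
      simpa using h3
    rw [EB.I_LinAlgK.annExt] at h1
    have key : ∀ γ ∈ Submodule.span ℂ {b : Fin n → Fin m → ℂ |
        ∃ b0 ∈ EB.I_LinAlgK.annF G, b = fun i j => (b0 i j : ℂ)},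
        cjO γ ∈ Submodule.span ℂ {s | s ∈ annF true G ∧ ∀ i j, s i j ∈ F} := by
      intro γ hγ
      induction hγ using Submodule.span_induction with
      | mem γ hγ =>
        obtain ⟨b0, hb0, rfl⟩ := hγ
        apply Submodule.subset_span
        refine ⟨⟨fun i => rfl, fun h => absurd h (by simp), ?_⟩, ?_⟩
        · intro ξ hξ
          have h4 : ∑ i, ∑ j, ξ i j * b0 i j = 0 := hb0 ξ hξ
          have h5 := congrArg (fun z : kf τ => (starRingEnd ℂ) (z : ℂ)) h4
          have h6 : (starRingEnd ℂ) ((∑ i, ∑ j, ξ i j * b0 i j : kf τ) : ℂ) =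
              ∑ i, ∑ j, (starRingEnd ℂ) (ξ i j : ℂ) * (starRingEnd ℂ) (b0 i j : ℂ) := by
            simp only [IntermediateField.coe_sum, IntermediateField.coe_mul, map_sum, map_mul]
          show ∑ i, ∑ j, (starRingEnd ℂ) (ξ i j : ℂ) * (starRingEnd ℂ) (b0 i j : ℂ) = 0
          rw [← h6]
          simpa using h5
        · intro i o
          cases o with
          | none => exact zero_mem F
          | some j =>
            have h7 := kf_conj hτ _ (b0 i j).2
            have h8 := (Kf_pf τ hτ).1 _ (((Kf_pf τ hτ).2.1 _).1 h7)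
            exact hF _ (h8.extendScalars (algebraMap ℚ F).injective)
      | zero =>
        have : cjO (0 : Fin n → Fin m → ℂ) = 0 := by
          funext i o
          cases o with
          | none => rfl
          | some j => simp [cjO]
        rw [this]
        exact Submodule.zero_mem _
      | add a c _ _ ha hc =>
        have : cjO (a + c) = cjO a + cjO c := by
          funext i o
          cases o with
          | none => simp [cjO]
          | some j => simp [cjO]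
        rw [this]
        exact Submodule.add_mem _ ha hc
      | smul r a _ ha =>
        have : cjO (r • a) = (starRingEnd ℂ) r • cjO a := by
          funext i o
          cases o with
          | none => simp [cjO]
          | some j => simp [cjO]
        rw [this]
        exact Submodule.smul_mem _ _ ha
    have h9 := key _ h1
    have h10 : cjO (fun i j => (starRingEnd ℂ) (s i (some j))) = s := by
      funext i o
      cases o with
      | none => exact (hs.1 i).symm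
      | some j => simp [cjO]
    rw [h10] at h9
    exact h9

/-- the space `D` -/
def DD (f : Bool) {m m₂ : ℕ} (c : Fin m₂ → Fin m → ℂ) : Submodule ℂ (Option (Fin m) → ℂ) where
  carrier := {d | d none = 0 ∧ (f = false → d = 0) ∧
    ∀ l, ∑ j, (starRingEnd ℂ) (c l j) * d (some j) = 0}
  add_mem' {a b} ha hb := by
    refine ⟨?_, fun h => ?_, fun l => ?_⟩
    · rw [Pi.add_apply, ha.1, hb.1, add_zero]
    · rw [ha.2.1 h, hb.2.1 h, add_zero]
    · simp only [Pi.add_apply, mul_add, Finset.sum_add_distrib, ha.2.2 l, hb.2.2 l, add_zero]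
  zero_mem' := by
    refine ⟨rfl, fun _ => rfl, fun l => ?_⟩
    simp
  smul_mem' r a ha := by
    refine ⟨?_, fun h => ?_, fun l => ?_⟩
    · rw [Pi.smul_apply, ha.1, smul_zero]
    · rw [ha.2.1 h, smul_zero]
    · have h2 : ∑ j, (starRingEnd ℂ) (c l j) * (r • a) (some j) =
          r * ∑ j, (starRingEnd ℂ) (c l j) * a (some j) := by
        rw [Finset.mul_sum]
        refine Finset.sum_congr rfl fun j _ => ?_
        simp only [Pi.smul_apply, smul_eq_mul]
        ring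
      rw [h2, ha.2.2 l, mul_zero]

lemma mem_DD (f : Bool) {m m₂ : ℕ} (c : Fin m₂ → Fin m → ℂ) (d : Option (Fin m) → ℂ) :
    d ∈ DD f c ↔ (d none = 0 ∧ (f = false → d = 0) ∧
      ∀ l, ∑ j, (starRingEnd ℂ) (c l j) * d (some j) = 0) := Iff.rfl

/-- dimension of `D` -/
lemma finrank_DD {m m₂ : ℕ} (c : Fin m₂ → Fin m → ℂ) :
    m ≤ Module.finrank ℂ (DD true c) + m₂ := by
  let φ : (Fin m → ℂ) →ₗ[ℂ] (Fin m₂ → ℂ) :=
    { toFun := fun d l => ∑ j, (starRingEnd ℂ) (c l j) * d j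
      map_add' := by
        intro a b
        funext l
        simp only [Pi.add_apply, mul_add, Finset.sum_add_distrib]
      map_smul' := by
        intro r a
        funext l
        simp only [Pi.smul_apply, smul_eq_mul, RingHom.id_apply, Finset.mul_sum]
        refine Finset.sum_congr rfl fun j _ => ?_
        ring }
  have h1 := LinearMap.finrank_range_add_finrank_ker φ
  rw [Module.finrank_fin_fun] at h1
  have h2 := Submodule.finrank_le (LinearMap.range φ)
  rw [Module.finrank_fin_fun] at h2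
  let j : LinearMap.ker φ →ₗ[ℂ] DD true c :=
    { toFun := fun d => ⟨fun o => o.elim 0 (d : Fin m → ℂ), by
        refine ⟨rfl, fun h => absurd h (by simp), fun l => ?_⟩
        have h3 : φ (d : Fin m → ℂ) = 0 := d.2
        exact congrFun h3 l⟩
      map_add' := by
        intro a b
        apply Subtype.ext
        funext o
        cases o with
        | none => exact (add_zero (0 : ℂ)).symm
        | some j => rfl
      map_smul' := by
        intro r a
        apply Subtype.ext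
        funext o
        cases o with
        | none => exact (mul_zero r).symm
        | some j => rfl }
  have h3 : Module.finrank ℂ (LinearMap.ker φ) ≤ Module.finrank ℂ (DD true c) := by
    refine LinearMap.finrank_le_finrank_of_injective (f := j) ?_
    intro a a' h
    apply Subtype.ext
    funext i
    have h4 := congrArg Subtype.val h
    exact congrFun h4 (some i)
  omega

/-- the image of the annihilator -/
lemma map_annF (f : Bool) {k : IntermediateField ℚ ℂ} {n m m₂ : ℕ}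
    (G : Submodule k (Fin n → Fin m → k)) (c : Fin m₂ → Fin m → ℂ) (v : Fin n → ℂ)
    (h : ∀ d : Fin m → ℂ, (d ∈ (annB G).map (mv v) ↔
      ∀ l, ∑ j, (starRingEnd ℂ) (c l j) * d j = 0)) :
    (annF f G).map (mvJ v) = DD f c := by
  ext d
  constructor
  · rintro ⟨β, hβ, rfl⟩
    refine ⟨?_, fun hf => ?_, ?_⟩
    · show ∑ i, v i * β i none = 0
      exact Finset.sum_eq_zero fun i _ => by rw [hβ.1 i, mul_zero]
    · rw [hβ.2.1 hf, map_zero]
    · exact (h _).1 ⟨_, hβ.2.2, rfl⟩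
  · rintro ⟨h1, h2, h3⟩
    cases f
    · rw [h2 rfl]
      exact Submodule.zero_mem _
    · obtain ⟨β, hβ, hβd⟩ := (h (fun j => d (some j))).2 h3
      refine ⟨fun i o => o.elim 0 (β i), ⟨fun i => rfl, fun h => absurd h (by simp), hβ⟩, ?_⟩
      funext o
      cases o with
      | none =>
        show ∑ i, v i * 0 = d none
        rw [h1]
        exact Finset.sum_eq_zero fun i _ => mul_zero _
      | some j => exact congrFun hβd j

/-- a basis of a subspace of `k^m` -/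
lemma basis_sub {k : IntermediateField ℚ ℂ} {m : ℕ} (C : Submodule k (Fin m → k)) :
    ∃ c : Fin (Module.finrank k C) → Fin m → k, (∀ l, c l ∈ C) ∧ LinearIndependent k c ∧
      ∀ a ∈ C, ∃ t : Fin (Module.finrank k C) → k, a = ∑ l, t l • c l := by
  let bs := Module.finBasis k C
  refine ⟨fun l => (bs l : Fin m → k), fun l => (bs l).2,
    bs.linearIndependent.map' C.subtype (Submodule.ker_subtype _), fun a ha => ?_⟩
  refine ⟨fun l => bs.repr ⟨a, ha⟩ l, ?_⟩
  have h1 := congrArg Subtype.val (bs.sum_repr ⟨a, ha⟩)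
  rw [AddSubmonoidClass.coe_finsetSum] at h1
  exact h1.symm

/-- complex independence -/
lemma li_coe {k : IntermediateField ℚ ℂ} {m m₂ : ℕ} (c : Fin m₂ → Fin m → k)
    (hc : LinearIndependent k c) : LinearIndependent ℂ (fun l j => (c l j : ℂ)) := by
  classical
  have h1 : LinearMap.ker (Fintype.linearCombination k c) = ⊥ :=
    LinearMap.ker_eq_bot.2 (linearIndependent_iff_injective_fintypeLinearCombination.1 hc)
  obtain ⟨g, hg⟩ := LinearMap.exists_leftInverse_of_injective _ h1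
  have h2 : ∀ l' l, ∑ j, c l' j * (g (Pi.single j 1) l) = if l = l' then 1 else 0 := by
    intro l' l
    have h3 : g (c l') = Pi.single l' 1 := by
      have h4 := LinearMap.congr_fun hg (Pi.single l' 1)
      rw [LinearMap.comp_apply, LinearMap.id_apply, Fintype.linearCombination_apply_single,
        one_smul] at h4
      exact h4
    have h5 : c l' = ∑ j, c l' j • (Pi.single j 1 : Fin m → k) := by
      funext i
      simp [Finset.sum_apply, Pi.single_apply]
    rw [h5, map_sum] at h3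
    have h6 := congrFun h3 l
    rw [Finset.sum_apply] at h6
    simp only [map_smul, Pi.smul_apply, smul_eq_mul] at h6
    rw [h6, Pi.single_apply]
  rw [Fintype.linearIndependent_iff]
  intro t ht l
  have h7 : ∀ j, ∑ l', t l' * (c l' j : ℂ) = 0 := by
    intro j
    have := congrFun ht j
    simpa [Finset.sum_apply] using this
  have h8 : ∑ l', t l' * ((∑ j, c l' j * (g (Pi.single j 1) l) : k) : ℂ) = 0 := by
    have h9 : ∀ l', t l' * ((∑ j, c l' j * (g (Pi.single j 1) l) : k) : ℂ) =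
        ∑ j, t l' * (c l' j : ℂ) * (g (Pi.single j 1) l : ℂ) := by
      intro l'
      rw [IntermediateField.coe_sum, Finset.mul_sum]
      refine Finset.sum_congr rfl fun j _ => ?_
      rw [IntermediateField.coe_mul]
      ring
    rw [Finset.sum_congr rfl fun l' _ => h9 l', Finset.sum_comm]
    refine Finset.sum_eq_zero fun j _ => ?_
    rw [← Finset.sum_mul, h7 j, zero_mul]
  rw [Finset.sum_eq_single l] at h8
  · rw [h2, if_pos rfl] at h8
    simpa using h8
  · intro l' _ hl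
    rw [h2, if_neg (Ne.symm hl)]
    simp
  · intro h
    exact absurd (Finset.mem_univ _) h

/-- rational independence of combinations -/
lemma li_rat {τ : ℂ} {m m₁ : ℕ} (b : Fin m → ℂ) (hb : KLI τ b) (c : Fin m₁ → Fin m → kQ)
    (hc : LinearIndependent kQ c) :
    LinearIndependent ℚ (fun l => ∑ j, (c l j : ℂ) * b j) := by
  rw [Fintype.linearIndependent_iff]
  intro g hg
  have h1 : ∑ j, ((∑ l, (g l : ℂ) * (c l j : ℂ)) : ℂ) * b j = 0 := by
    rw [← hg]
    simp only [Finset.sum_mul, Finset.smul_sum]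
    rw [Finset.sum_comm]
    refine Finset.sum_congr rfl fun l _ => Finset.sum_congr rfl fun j _ => ?_
    rw [Rat.smul_def]
    ring
  have h2 : ∀ j, IsE τ (∑ l, (g l : ℂ) * (c l j : ℂ)) := by
    intro j
    choose q hq using fun l => kQ_rat (c l j)
    have h3 : ∑ l, (g l : ℂ) * (c l j : ℂ) = ((∑ l, g l * q l : ℚ) : ℂ) := by
      push_cast
      exact Finset.sum_congr rfl fun l _ => by rw [hq]
    rw [h3]
    exact EB.I_GCoreE0.isE_rat τ _
  have h4 := hb _ h2 h1
  have h5 := Fintype.linearIndependent_iff.1 hc (fun l => algebraMap ℚ kQ (g l)) (by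
    funext j
    rw [Finset.sum_apply]
    apply Subtype.ext
    have h6 := congrFun h4 j
    rw [Pi.zero_apply] at h6
    refine Eq.trans ?_ h6
    rw [IntermediateField.coe_sum]
    refine Finset.sum_congr rfl fun l _ => ?_
    rw [Pi.smul_apply, smul_eq_mul, IntermediateField.coe_mul]
    congr 1)
  intro l
  exact (algebraMap ℚ kQ).injective (by rw [h5 l, map_zero])

/-- finite type -/
lemma fti {Q m m₁ m₂ : ℕ} (b : Fin m → ℂ) (hb : FT Q b) (c₁ : Fin m₁ → Fin m → ℂ)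
    (c₂ : Fin m₂ → Fin m → ℂ) (h1 : ∀ l j, IsAlgebraic ℚ (c₁ l j))
    (h2 : ∀ l j, IsAlgebraic ℚ (c₂ l j)) :
    FTI (Q + 2) (Sum.elim (fun l => ∑ j, c₁ l j * b j) (fun l => ∑ j, c₂ l j * b j)) := by
  have h3 := EB.I_GCoreE0.ft FText_pf FTpol_pf b hb
    (fun t : Fin (m₁ + m₂) => Sum.elim c₁ c₂ (finSumFinEquiv.symm t)) (by
      intro t j
      rcases finSumFinEquiv.symm t with l | l
      · exact h1 l j
      · exact h2 l j)
  rw [(FTIeq_pf (Q + 2) (m₁ + m₂) (Fin m₁ ⊕ Fin m₂) _).1 finSumFinEquiv.symm]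
  convert h3 using 1
  funext t
  rcases finSumFinEquiv.symm t with l | l
  · rfl
  · rfl

lemma alg_mono {K L : IntermediateField ℚ ℂ} (h : K ≤ L) {c : ℂ} (hc : IsAlgebraic K c) :
    IsAlgebraic L c := by
  let _ : Algebra K L := (IntermediateField.inclusion h).toRingHom.toAlgebra
  have _ : IsScalarTower K L ℂ := IsScalarTower.of_algebraMap_eq fun x => rfl
  exact hc.extendScalars (IntermediateField.inclusion h).toRingHom.injective

lemma li_comb {n d : ℕ} (x : Fin n → ℂ) (hx : LinearIndependent ℚ x) (w : Fin d → Fin n → ℚ)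
    (hw : LinearIndependent ℚ w) :
    LinearIndependent ℚ (fun s => ∑ i, (w s i : ℂ) * x i) := by
  have h1 : LinearMap.ker (Fintype.linearCombination ℚ x) = ⊥ :=
    LinearMap.ker_eq_bot.2 (linearIndependent_iff_injective_fintypeLinearCombination.1 hx)
  have h2 := hw.map' _ h1
  have e : (⇑(Fintype.linearCombination ℚ x) ∘ w) = fun s => ∑ i, (w s i : ℂ) * x i := by
    funext s
    rw [Function.comp_apply, Fintype.linearCombination_apply]
    exact Finset.sum_congr rfl fun i _ => Rat.smul_def _ _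
  rw [e] at h2
  exact h2

lemma basis_iff {k : IntermediateField ℚ ℂ} {m : ℕ} {C : Submodule k (Fin m → k)} {m₂ : ℕ}
    (c : Fin m₂ → Fin m → k) (hc : ∀ l, c l ∈ C)
    (hs : ∀ a ∈ C, ∃ t : Fin m₂ → k, a = ∑ l, t l • c l) (d : Fin m → ℂ) :
    (∀ a ∈ C, ∑ j, (starRingEnd ℂ) (a j : ℂ) * d j = 0) ↔
      ∀ l, ∑ j, (starRingEnd ℂ) (c l j : ℂ) * d j = 0 := by
  constructor
  · exact fun h l => h _ (hc l)
  · intro h a ha
    obtain ⟨t, rfl⟩ := hs a ha
    have h1 : ∀ j, (starRingEnd ℂ) (((∑ l, t l • c l) j : k) : ℂ) * d j =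
        ∑ l, (starRingEnd ℂ) (t l : ℂ) * ((starRingEnd ℂ) (c l j : ℂ) * d j) := by
      intro j
      rw [Finset.sum_apply, IntermediateField.coe_sum, map_sum, Finset.sum_mul]
      refine Finset.sum_congr rfl fun l _ => ?_
      rw [Pi.smul_apply, smul_eq_mul, IntermediateField.coe_mul, map_mul, mul_assoc]
    rw [Finset.sum_congr rfl fun j _ => h1 j, Finset.sum_comm]
    refine Finset.sum_eq_zero fun l _ => ?_
    rw [← Finset.mul_sum, h l, mul_zero]

/-- the numerical part -/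
lemma numeric (f : Bool) {m m₁ m₂ m₃ κ k₀ u₁ u₂ ρ D R : ℕ} (h1 : m₁ + u₁ = m) (h2 : m₂ + u₂ = m)
    (ht : f = true → m₃ = m₂) (hf : f = false → m₃ = 0) (hD : f = true → m ≤ D + m₂) (hDρ : D ≤ ρ)
    (hS : m₁ + m₂ + psi (1 + m₃) ≤ (κ + k₀) + (ρ - D) + 1) (hR : k₀ + u₁ + u₂ + ρ ≤ R) :
    tgt f m ≤ κ + R := by
  cases f
  · have h3 := hf rfl
    subst h3
    simp only [psi, tgt] at *
    norm_num at hS ⊢
    omega
  · have h3 := ht rfl
    have h4 := hD rfl
    subst h3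
    simp only [psi, tgt, if_true] at *
    split_ifs at hS ⊢ <;> omega

end I_GCoreM

open I_GCoreM in
/-- G16: the rank at a generic point -/
theorem GCoreM_pf (h1 : S_AxOutM) (h2 : S_LinAlgV) (h3 : S_SC1) (h4 : S_Rat) (h5 : S_Star)
    (h6 : S_RatPt) : S_GCoreM := by
  classical
  intro f Q m
  obtain ⟨n₀, hn₀⟩ := h5 (Q + 2) m
  refine ⟨n₀ + 2 * m + 4 * (m * m), ?_⟩
  intro τ μ α b hN hA hb hbK n hn x hx κ hκ
  obtain ⟨hk1, hk2, hk3, hk4⟩ := Kf_pf τ hN.im
  obtain ⟨F, hF, hFc, hFb, hFx, hFe, hFX, hFZ, hFq⟩ := exists_F τ μ b x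
  obtain ⟨v, hv⟩ := exists_v F hFc n
  refine ⟨v, ?_⟩
  obtain ⟨G₁, G₂, hG⟩ := h1 f τ μ α hN hA n m b x v
  -- the values
  set Z : Set ℂ := GV τ μ b x G₁ G₂ with hZ
  have hZF : ∀ z ∈ Z, z ∈ F := by
    rintro z (⟨ξ, -, rfl⟩ | ⟨ξ, -, hξ, rfl⟩)
    · exact val1 hF b x hFe ξ
    · exact val2 hN hF b x hFX ξ hξ
  -- the field `E₀`
  obtain ⟨E₀, hE₀def⟩ : ∃ E₀ : IntermediateField ℚ ℂ,
      E₀ = EB.I_RelStepE.acl (IntermediateField.adjoin ℚ (Set.range b ∪ Z)) := ⟨_, rfl⟩
  have hE₀ : ACl E₀ := by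
    rw [hE₀def]
    exact EB.I_RelStepE.ACl_acl _
  have hE₀alg : ∀ c ∈ E₀, IsAlgebraic (IntermediateField.adjoin ℚ (Set.range b ∪ Z)) c := by
    intro c hc
    rw [hE₀def] at hc
    exact EB.I_RelStepE.mem_acl.1 hc
  have hsub : ∀ z ∈ Set.range b ∪ Z, z ∈ E₀ := by
    intro z hz
    rw [hE₀def]
    exact EB.I_RelStepE.le_acl _ (IntermediateField.subset_adjoin ℚ _ hz)
  have hbE : ∀ j, b j ∈ E₀ := fun j => hsub _ (Or.inl ⟨j, rfl⟩)
  have hZE : ∀ z ∈ Z, z ∈ E₀ := fun z hz => hsub _ (Or.inr hz)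
  have hEF : E₀ ≤ F := by
    intro c hc
    apply hF
    refine alg_mono ?_ (hE₀alg c hc)
    rw [IntermediateField.adjoin_le_iff]
    rintro z (⟨j, rfl⟩ | hz)
    · exact hFb j
    · exact hZF z hz
  have hEalg' : ∀ c ∈ E₀,
      IsAlgebraic (IntermediateField.adjoin ℚ (Set.range v ∪ Set.range b ∪ Z)) c := by
    intro c hc
    refine alg_mono (IntermediateField.adjoin.mono ℚ _ _ ?_) (hE₀alg c hc)
    rintro z (hz | hz)
    · exact Or.inl (Or.inr hz)
    · exact Or.inr hz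
  have hG' := hG E₀ hE₀ hbE (fun z hz => hZE z hz) hEalg'
  -- the number `k₀`
  obtain ⟨k₀, ⟨h, hh, hhi⟩, hmax⟩ := exists_max (fun k => ∃ h : Fin k → ℂ, (∀ t, h t ∈ Z) ∧
    AlgebraicIndependent (IntermediateField.adjoin ℚ (Set.range v ∪ Set.range b)) h)
    ⟨Fin.elim0, fun t => t.elim0, by
      rw [algebraicIndependent_empty_type_iff]
      exact (algebraMap (IntermediateField.adjoin ℚ (Set.range v ∪ Set.range b)) ℂ).injective⟩
    (rkM f τ μ α b x v) (by
      rintro k ⟨h, hh, hhi⟩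
      have := hG' k h hh hhi
      omega)
  have hTr : TrE E₀ (κ + k₀) := trE_of b Z E₀ F v hv hFb hZF hκ hE₀alg
    (fun k h hh hhi => hmax k ⟨h, hh, hhi⟩)
  have hfin := hG' k₀ h hh hhi
  -- linear algebra
  have hvQ : AlgebraicIndependent ℚ v := hv.restrictScalars (algebraMap ℚ F).injective
  obtain ⟨C₁, V₁, v₀', hC₁, -, hV₁, hCV₁, -⟩ := h2 kQ inferInstance (by
    rw [IntermediateField.finrank_bot]
    norm_num) kQ_conj n m G₁ v hvQ
  obtain ⟨C₂, V₂, v₀, hC₂, -, hV₂, hCV₂, hlast⟩ := h2 (kf τ) (EB.I_GCoreE.kf_fin Kf_pf hN.im)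
    (EB.I_GCoreE.kf_rank Kf_pf hN.im) (kf_conj hN.im) n m G₂ v hvQ
  obtain ⟨c₁, hc₁, hc₁i, -⟩ := basis_sub C₁
  obtain ⟨c₂, hc₂, hc₂i, hc₂s⟩ := basis_sub C₂
  generalize hm₁ : Module.finrank kQ C₁ = m₁ at *
  generalize hm₂ : Module.finrank (kf τ) C₂ = m₂ at *
  have hVdim : n ≤ Module.finrank ℚ ↥(V₁ ⊓ V₂) + 4 * (m * m) := by
    have h9 := Submodule.finrank_sup_add_finrank_inf_eq V₁ V₂
    have h10 : Module.finrank ℚ ↥(V₁ ⊔ V₂) ≤ n := by
      have := Submodule.finrank_le (V₁ ⊔ V₂)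
      rwa [Module.finrank_fin_fun] at this
    omega
  let bs := Module.finBasis ℚ ↥(V₁ ⊓ V₂)
  let w : Fin (Module.finrank ℚ ↥(V₁ ⊓ V₂)) → Fin n → ℚ := fun s => (bs s : Fin n → ℚ)
  have hw : ∀ s, w s ∈ V₁ ⊓ V₂ := fun s => (bs s).2
  have hwi : LinearIndependent ℚ w :=
    bs.linearIndependent.map' (V₁ ⊓ V₂).subtype (Submodule.ker_subtype _)
  have hx' := li_comb x hx w hwi
  have hbQ : KLI τ (fun l => ∑ j, (c₂ l j : ℂ) * b j) := EB.I_GCoreE0.kli hk2 b hbK c₂ hc₂i
  set b₁ : Fin m₁ → ℂ := fun l => ∑ j, (c₁ l j : ℂ) * b j with hb₁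
  set b₂ : Fin m₂ → ℂ := fun l => ∑ j, (c₂ l j : ℂ) * b j with hb₂
  have hb₂0 : ∀ l, μ * b₂ l ≠ 0 := by
    intro l hl
    have hl' : b₂ l = 0 := (mul_eq_zero.1 hl).resolve_left hN.mu
    have := (EB.I_GCoreE0.lin_of_kli b₂ hbQ).ne_zero l
    exact this hl'
  obtain ⟨N, g, hNn, hgi, hNT⟩ := RedNT_pf τ m₂ _ (fun l => μ * b₂ l) _ hN.im hb₂0 hx'
  set x' : Fin (Module.finrank ℚ ↥(V₁ ⊓ V₂)) → ℂ := fun s => ∑ i, (w s i : ℂ) * x i with hx'd
  obtain ⟨y, hyd⟩ : ∃ y : Fin N → ℂ, y = fun k => cmb (g k) x' := ⟨_, rfl⟩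
  rw [← hyd] at hgi hNT
  obtain ⟨gg, hggd⟩ : ∃ gg : Fin N → Fin n → ℚ, gg = fun k => ∑ s, (g k s : ℚ) • w s := ⟨_, rfl⟩
  have hggV : ∀ k, gg k ∈ V₁ ⊓ V₂ := by
    intro k
    rw [hggd]
    exact Submodule.sum_mem _ fun s _ => Submodule.smul_mem _ _ (hw s)
  have hy : ∀ k, y k = ∑ i, (gg k i : ℂ) * x i := by
    intro k
    rw [hyd, hggd]
    show cmb (g k) x' = _
    unfold cmb
    simp only [hx'd, Finset.mul_sum]
    rw [Finset.sum_comm]
    refine Finset.sum_congr rfl fun i _ => ?_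
    rw [Finset.sum_apply]
    push_cast
    rw [Finset.sum_mul]
    refine Finset.sum_congr rfl fun s _ => ?_
    rw [Pi.smul_apply, smul_eq_mul]
    push_cast
    ring
  -- the values at `y`
  have hexp : ∀ k l, Complex.exp (b₁ l * y k) ∈ E₀ := by
    intro k l
    refine hZE _ (Or.inl ⟨_, hCV₁ _ (hc₁ l) _ (hggV k).1, ?_⟩)
    rw [ptG_prod, ← hy]
  have hnl : ∀ k l, μ * (b₂ l * y k) ∉ Lam τ := by
    intro k l
    have h11 := hNT (Pi.single k 1) (by
      intro h0
      have := congrFun h0 k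
      rw [Pi.single_eq_same, Pi.zero_apply] at this
      exact one_ne_zero this) l
    rw [EB.I_GCoreE0.cmb_single] at h11
    have e : μ * b₂ l * (((1 : ℤ) : ℂ) * y k) = μ * (b₂ l * y k) := by
      push_cast
      ring
    rw [← e]
    exact h11
  have hxe : ∀ k l, xe τ μ (μ * (b₂ l * y k)) ∈ E₀ := by
    intro k l
    have e : ptG b x (fun i j => (algebraMap ℚ (kf τ) (gg k i)) * c₂ l j) = b₂ l * y k := by
      rw [ptG_prod, ← hy]
    refine hZE _ (Or.inr ⟨_, hCV₂ _ (hc₂ l) _ (hggV k).2, ?_, ?_⟩)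
    · rw [e]
      exact hnl k l
    · rw [e]
  -- the space `D`
  have hmapD : ∀ w' ∈ V₁ ⊓ V₂, ∀ s : ℂ, (annF f G₂).map (mvJ fun i => (v₀ i : ℂ) + s * (w' i : ℂ)) =
      DD f (fun l j => (c₂ l j : ℂ)) := fun w' hw' s =>
    map_annF f G₂ _ _ fun d => (hlast w' hw'.2 s d).trans (basis_iff c₂ hc₂ hc₂s d)
  obtain ⟨hR1, hR2⟩ := h4 f τ μ α hN hA n m b x v E₀ F hF hEF hv
    (FA_zero hN α f b x hFb hFx hFX hFZ hFq)
  rw [hR1] at hfin
  obtain ⟨m₃, h₃, hft, hff⟩ : ∃ m₃ : ℕ, m₃ ≤ m₂ ∧ (f = true → m₃ = m₂) ∧ (f = false → m₃ = 0) := by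
    cases f
    · exact ⟨0, Nat.zero_le _, fun h => absurd h (by simp), fun _ => rfl⟩
    · exact ⟨m₂, le_rfl, fun _ => rfl, fun h => absurd h (by simp)⟩
  generalize hρ : Module.finrank ℂ ↥(((DK E₀).map
    (LinearMap.pi fun i => fam (FA f τ μ α b (x i))) ⊔ annF f G₂).map (mvJ v)) = ρ at hfin
  have key : ∀ t : Fin N → ℚ,
      rkD E₀ (fun l => ∑ k, (t k : ℂ) * AV τ μ h₃ b₂ y k l) +
        Module.finrank ℂ (DD f (fun l j => (c₂ l j : ℂ))) ≤ ρ := by
    intro t
    have a1 := h6 f τ μ α hN hA n m m₂ m₃ b x E₀ hE₀ hbE (fun l j => (c₂ l j : ℂ))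
      (fun l j => (c₂ l j).2) (li_coe c₂ hc₂i) h₃ hft hff (DD f (fun l j => (c₂ l j : ℂ)))
      (mem_DD f _) N gg y hy (fun k l => ⟨hnl k l, hxe k l⟩) t
    have a2 := h3 F n (Option (Fin m)) _ (annF f G₂) hR2 (ratF_annF f hN.im hF G₂) v hv
      (fun i => (v₀ i : ℂ)) (fun i => ∑ k, (t k : ℂ) * (gg k i : ℂ))
      (DD f (fun l j => (c₂ l j : ℂ))) (by
        intro s
        rw [← hmapD (∑ k, t k • gg k) (Submodule.sum_mem _ fun k _ =>
          Submodule.smul_mem _ _ (hggV k)) s]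
        congr 2
        funext i
        rw [Finset.sum_apply]
        push_cast
        congr 2
        refine Finset.sum_congr rfl fun k _ => ?_
        rw [Pi.smul_apply, smul_eq_mul]
        push_cast
        rfl)
    rw [hρ] at a2
    exact a1.trans a2
  have hnum := hn₀ m₁ m₂ m₃ (by omega) (by omega) h₃ τ μ b₁ b₂ hN
    (fti b hb (fun l j => (c₁ l j : ℂ)) (fun l j => (c₂ l j : ℂ)) (fun l j => by
      obtain ⟨q, hq⟩ := kQ_rat (c₁ l j)
      rw [hq]
      exact isAlgebraic_algebraMap (A := ℂ) q) (fun l j => hk1 _ ((hk2 _).1 (c₂ l j).2)))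
    (li_rat b hbK c₁ hc₁i) hbQ N (by omega) y hgi hNT E₀ (κ + k₀)
    (ρ - Module.finrank ℂ (DD f (fun l j => (c₂ l j : ℂ)))) hE₀ hTr hexp hxe (fun t => by
      have := key t
      omega)
  refine numeric f hC₁ hC₂ hft hff (fun hf => ?_) ?_ hnum hfin
  · subst hf
    exact finrank_DD _
  · have := key 0
    omega

end Pool.Agent.Work.MP_8da9ea_nt.MX
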