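import Pool.Agent.Work.MP_8da9ea_nt.MX.StmtsH
import Pool.Agent.Work.MP_8da9ea_nt.MX.I_GCoreM

/-!
# Mixed block, item GCoreM2: the rank at a generic point, separate tuples
-/

set_option autoImplicit false

namespace Pool.Agent.Work.MP_8da9ea_nt.MX

open MvPolynomial Pool.Agent.Work.MP_327059_nt.GL Pool.Agent.Work.MP_8da9ea_nt.S
  Pool.Agent.Work.MP_8da9ea_nt.EB

namespace I_GCoreM2

/-- the field `F` -/
lemma exists_F (τ μ : ℂ) {n m m' : ℕ} (b : Fin m → ℂ) (b' : Fin m' → ℂ) (x : Fin n → ℂ) :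
    ∃ F : IntermediateField ℚ ℂ, ACl F ∧ Countable F ∧ (∀ j, Fin.append b b' j ∈ F) ∧
      (∀ i, x i ∈ F) ∧
      (∀ i j, Complex.exp (b j * x i) ∈ F) ∧ (∀ i j, xe τ μ (μ * (b' j * x i)) ∈ F) ∧
      (∀ i j, ze τ μ (μ * (b' j * x i)) ∈ F) ∧ ∀ i j, μ * qp τ (μ * (b' j * x i)) ∈ F := by
  let S : Set ℂ := Set.range (Fin.append b b') ∪ (Set.range x ∪
    (Set.range (fun p : Fin n × Fin m => Complex.exp (b p.2 * x p.1)) ∪
    (Set.range (fun p : Fin n × Fin m' => xe τ μ (μ * (b' p.2 * x p.1))) ∪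
    (Set.range (fun p : Fin n × Fin m' => ze τ μ (μ * (b' p.2 * x p.1))) ∪
    (Set.range (fun p : Fin n × Fin m' => μ * qp τ (μ * (b' p.2 * x p.1))))))))
  have hS : S.Countable := by
    refine (Set.countable_range _).union ((Set.countable_range _).union
      ((Set.countable_range _).union ((Set.countable_range _).union
      ((Set.countable_range _).union (Set.countable_range _)))))
  let K := IntermediateField.adjoin ℚ S
  have hK : Countable K := I_GCoreM.countable_adj S hS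
  have hSK : ∀ z ∈ S, z ∈ EB.I_RelStepE.acl K := fun z hz =>
    EB.I_RelStepE.le_acl K (IntermediateField.subset_adjoin ℚ S hz)
  refine ⟨EB.I_RelStepE.acl K, EB.I_RelStepE.ACl_acl K, EB.I_RelStepE.countable_acl K, ?_, ?_, ?_,
    ?_, ?_, ?_⟩
  · exact fun j => hSK _ (Or.inl ⟨j, rfl⟩)
  · exact fun i => hSK _ (Or.inr (Or.inl ⟨i, rfl⟩))
  · exact fun i j => hSK _ (Or.inr (Or.inr (Or.inl ⟨(i, j), rfl⟩)))
  · exact fun i j => hSK _ (Or.inr (Or.inr (Or.inr (Or.inl ⟨(i, j), rfl⟩))))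
  · exact fun i j => hSK _ (Or.inr (Or.inr (Or.inr (Or.inr (Or.inl ⟨(i, j), rfl⟩)))))
  · exact fun i j => hSK _ (Or.inr (Or.inr (Or.inr (Or.inr (Or.inr ⟨(i, j), rfl⟩)))))

/-- rational independence of combinations -/
lemma li_rat {m m₁ : ℕ} (b : Fin m → ℂ) (hb : LinearIndependent ℚ b) (c : Fin m₁ → Fin m → kQ)
    (hc : LinearIndependent kQ c) :
    LinearIndependent ℚ (fun l => ∑ j, (c l j : ℂ) * b j) := by
  choose q hq using fun l => fun j => I_GCoreM.kQ_rat (c l j)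
  rw [Fintype.linearIndependent_iff]
  intro g hg
  have h1 : ∑ j, (∑ l, g l * q l j) • b j = 0 := by
    rw [← hg]
    simp only [Finset.sum_smul, Finset.smul_sum]
    rw [Finset.sum_comm]
    refine Finset.sum_congr rfl fun l _ => Finset.sum_congr rfl fun j _ => ?_
    rw [Rat.smul_def, Rat.smul_def, hq]
    push_cast
    ring
  have h4 := Fintype.linearIndependent_iff.1 hb _ h1
  have h5 := Fintype.linearIndependent_iff.1 hc (fun l => algebraMap ℚ kQ (g l)) (by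
    funext j
    rw [Finset.sum_apply]
    apply Subtype.ext
    have h6 : ((∑ l, g l * q l j : ℚ) : ℂ) = 0 := by
      rw [h4 j]
      push_cast
      rfl
    refine Eq.trans ?_ h6
    rw [IntermediateField.coe_sum]
    push_cast
    refine Finset.sum_congr rfl fun l _ => ?_
    rw [Pi.smul_apply, smul_eq_mul, IntermediateField.coe_mul, hq]
    congr 1)
  intro l
  exact (algebraMap ℚ kQ).injective (by rw [h5 l, map_zero])

/-- finite type -/
lemma fti {Q m m' m₁ m₂ : ℕ} (b : Fin m → ℂ) (b' : Fin m' → ℂ) (hb : FT Q (Fin.append b b'))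
    (c₁ : Fin m₁ → Fin m → ℂ) (c₂ : Fin m₂ → Fin m' → ℂ) (h1 : ∀ l j, IsAlgebraic ℚ (c₁ l j))
    (h2 : ∀ l j, IsAlgebraic ℚ (c₂ l j)) :
    FTI (Q + 2) (Sum.elim (fun l => ∑ j, c₁ l j * b j) (fun l => ∑ j, c₂ l j * b' j)) := by
  have h3 := I_GCoreM.fti (m₁ := m₁) (m₂ := m₂) (Fin.append b b') hb
    (fun l => Fin.append (c₁ l) (fun _ => 0)) (fun l => Fin.append (fun _ => 0) (c₂ l)) (by
      intro l j
      refine Fin.addCases (fun j => ?_) (fun j => ?_) j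
      · rw [Fin.append_left]
        exact h1 l j
      · rw [Fin.append_right]
        exact isAlgebraic_zero) (by
      intro l j
      refine Fin.addCases (fun j => ?_) (fun j => ?_) j
      · rw [Fin.append_left]
        exact isAlgebraic_zero
      · rw [Fin.append_right]
        exact h2 l j)
  convert h3 using 1
  funext q
  rcases q with l | l
  · simp [Fin.sum_univ_add]
  · simp [Fin.sum_univ_add]

/-- the numerical part -/
lemma numeric (f : Bool) {m m' m₁ m₂ m₃ κ k₀ u₁ u₂ ρ D R : ℕ} (h1 : m₁ + u₁ = m)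
    (h2 : m₂ + u₂ = m')
    (ht : f = true → m₃ = m₂) (hf : f = false → m₃ = 0) (hD : f = true → m' ≤ D + m₂) (hDρ : D ≤ ρ)
    (hS : m₁ + m₂ + psi (1 + m₃) ≤ (κ + k₀) + (ρ - D) + 1) (hR : k₀ + u₁ + u₂ + ρ ≤ R) :
    tgt2 f m m' ≤ κ + R := by
  cases f
  · have h3 := hf rfl
    subst h3
    simp only [psi, tgt2] at *
    norm_num at hS ⊢
    omega
  · have h3 := ht rfl
    have h4 := hD rfl
    subst h3
    simp only [psi, tgt2, if_true] at *
    split_ifs at hS ⊢ <;> omega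

end I_GCoreM2

open I_GCoreM in
/-- H2: the rank at a generic point, separate tuples -/
theorem GCoreM2_pf (h1 : S_AxOutM2) (h2 : S_LinAlgV) (h3 : S_SC1) (h4 : S_Rat) (h5 : S_Star)
    (h6 : S_RatPt) : S_GCoreM2 := by
  classical
  intro f Q m m'
  obtain ⟨n₀, hn₀⟩ := h5 (Q + 2) (m + m')
  refine ⟨n₀ + 2 * m' + 2 * (m * m) + 2 * (m' * m'), ?_⟩
  intro τ μ α b b' hN hA hb hbL hbK n hn x hx κ hκ
  obtain ⟨hk1, hk2, hk3, hk4⟩ := Kf_pf τ hN.im
  obtain ⟨F, hF, hFc, hFB, hFx, hFe, hFX, hFZ, hFq⟩ := I_GCoreM2.exists_F τ μ b b' x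
  have hFb' : ∀ j, b' j ∈ F := by
    intro j
    have := hFB (Fin.natAdd m j)
    rwa [Fin.append_right] at this
  obtain ⟨v, hv⟩ := exists_v F hFc n
  refine ⟨v, ?_⟩
  obtain ⟨G₁, G₂, hG⟩ := h1 f τ μ α hN hA n m m' b b' x v
  -- the values
  set Z : Set ℂ := GV2 τ μ b b' x G₁ G₂ with hZ
  have hZF : ∀ z ∈ Z, z ∈ F := by
    rintro z (⟨ξ, -, rfl⟩ | ⟨ξ, -, hξ, rfl⟩)
    · exact val1 hF b x hFe ξ
    · exact val2 hN hF b' x hFX ξ hξ
  -- the field `E₀`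
  obtain ⟨E₀, hE₀def⟩ : ∃ E₀ : IntermediateField ℚ ℂ, E₀ =
      EB.I_RelStepE.acl (IntermediateField.adjoin ℚ (Set.range (Fin.append b b') ∪ Z)) := ⟨_, rfl⟩
  have hE₀ : ACl E₀ := by
    rw [hE₀def]
    exact EB.I_RelStepE.ACl_acl _
  have hE₀alg : ∀ c ∈ E₀,
      IsAlgebraic (IntermediateField.adjoin ℚ (Set.range (Fin.append b b') ∪ Z)) c := by
    intro c hc
    rw [hE₀def] at hc
    exact EB.I_RelStepE.mem_acl.1 hc
  have hsub : ∀ z ∈ Set.range (Fin.append b b') ∪ Z, z ∈ E₀ := by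
    intro z hz
    rw [hE₀def]
    exact EB.I_RelStepE.le_acl _ (IntermediateField.subset_adjoin ℚ _ hz)
  have hbE : ∀ j, b j ∈ E₀ := fun j => by
    have := hsub _ (Or.inl ⟨Fin.castAdd m' j, rfl⟩)
    rwa [Fin.append_left] at this
  have hbE' : ∀ j, b' j ∈ E₀ := fun j => by
    have := hsub _ (Or.inl ⟨Fin.natAdd m j, rfl⟩)
    rwa [Fin.append_right] at this
  have hZE : ∀ z ∈ Z, z ∈ E₀ := fun z hz => hsub _ (Or.inr hz)
  have hEF : E₀ ≤ F := by
    intro c hc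
    apply hF
    refine alg_mono ?_ (hE₀alg c hc)
    rw [IntermediateField.adjoin_le_iff]
    rintro z (⟨j, rfl⟩ | hz)
    · exact hFB j
    · exact hZF z hz
  have hEalg' : ∀ c ∈ E₀, IsAlgebraic
      (IntermediateField.adjoin ℚ (Set.range v ∪ Set.range (Fin.append b b') ∪ Z)) c := by
    intro c hc
    refine alg_mono (IntermediateField.adjoin.mono ℚ _ _ ?_) (hE₀alg c hc)
    rintro z (hz | hz)
    · exact Or.inl (Or.inr hz)
    · exact Or.inr hz
  have hG' := hG E₀ hE₀ hbE hbE' (fun z hz => hZE z hz) hEalg'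
  -- the number `k₀`
  obtain ⟨k₀, ⟨h, hh, hhi⟩, hmax⟩ := exists_max (fun k => ∃ h : Fin k → ℂ, (∀ t, h t ∈ Z) ∧
    AlgebraicIndependent
      (IntermediateField.adjoin ℚ (Set.range v ∪ Set.range (Fin.append b b'))) h)
    ⟨Fin.elim0, fun t => t.elim0, by
      rw [algebraicIndependent_empty_type_iff]
      exact (algebraMap (IntermediateField.adjoin ℚ
        (Set.range v ∪ Set.range (Fin.append b b'))) ℂ).injective⟩
    (rkM2 f τ μ α b b' x v) (by
      rintro k ⟨h, hh, hhi⟩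
      have := hG' k h hh hhi
      omega)
  have hTr : TrE E₀ (κ + k₀) := trE_of (Fin.append b b') Z E₀ F v hv hFB hZF hκ hE₀alg
    (fun k h hh hhi => hmax k ⟨h, hh, hhi⟩)
  have hfin := hG' k₀ h hh hhi
  -- linear algebra
  have hvQ : AlgebraicIndependent ℚ v := hv.restrictScalars (algebraMap ℚ F).injective
  obtain ⟨C₁, V₁, v₀', hC₁, -, hV₁, hCV₁, -⟩ := h2 kQ inferInstance (by
    rw [IntermediateField.finrank_bot]
    norm_num) kQ_conj n m G₁ v hvQ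
  obtain ⟨C₂, V₂, v₀, hC₂, -, hV₂, hCV₂, hlast⟩ := h2 (kf τ) (EB.I_GCoreE.kf_fin Kf_pf hN.im)
    (EB.I_GCoreE.kf_rank Kf_pf hN.im) (kf_conj hN.im) n m' G₂ v hvQ
  obtain ⟨c₁, hc₁, hc₁i, -⟩ := basis_sub C₁
  obtain ⟨c₂, hc₂, hc₂i, hc₂s⟩ := basis_sub C₂
  generalize hm₁ : Module.finrank kQ C₁ = m₁ at *
  generalize hm₂ : Module.finrank (kf τ) C₂ = m₂ at *
  have hVdim : n ≤ Module.finrank ℚ ↥(V₁ ⊓ V₂) + 2 * (m * m) + 2 * (m' * m') := by
    have h9 := Submodule.finrank_sup_add_finrank_inf_eq V₁ V₂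
    have h10 : Module.finrank ℚ ↥(V₁ ⊔ V₂) ≤ n := by
      have := Submodule.finrank_le (V₁ ⊔ V₂)
      rwa [Module.finrank_fin_fun] at this
    omega
  let bs := Module.finBasis ℚ ↥(V₁ ⊓ V₂)
  let w : Fin (Module.finrank ℚ ↥(V₁ ⊓ V₂)) → Fin n → ℚ := fun s => (bs s : Fin n → ℚ)
  have hw : ∀ s, w s ∈ V₁ ⊓ V₂ := fun s => (bs s).2
  have hwi : LinearIndependent ℚ w :=
    bs.linearIndependent.map' (V₁ ⊓ V₂).subtype (Submodule.ker_subtype _)
  have hx' := li_comb x hx w hwi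
  have hbQ : KLI τ (fun l => ∑ j, (c₂ l j : ℂ) * b' j) := EB.I_GCoreE0.kli hk2 b' hbK c₂ hc₂i
  set b₁ : Fin m₁ → ℂ := fun l => ∑ j, (c₁ l j : ℂ) * b j with hb₁
  set b₂ : Fin m₂ → ℂ := fun l => ∑ j, (c₂ l j : ℂ) * b' j with hb₂
  have hb₂0 : ∀ l, μ * b₂ l ≠ 0 := by
    intro l hl
    have hl' : b₂ l = 0 := (mul_eq_zero.1 hl).resolve_left hN.mu
    have := (EB.I_GCoreE0.lin_of_kli b₂ hbQ).ne_zero l
    exact this hl'
  obtain ⟨N, g, hNn, hgi, hNT⟩ := RedNT_pf τ m₂ _ (fun l => μ * b₂ l) _ hN.im hb₂0 hx'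
  set x' : Fin (Module.finrank ℚ ↥(V₁ ⊓ V₂)) → ℂ := fun s => ∑ i, (w s i : ℂ) * x i with hx'd
  obtain ⟨y, hyd⟩ : ∃ y : Fin N → ℂ, y = fun k => cmb (g k) x' := ⟨_, rfl⟩
  rw [← hyd] at hgi hNT
  obtain ⟨gg, hggd⟩ : ∃ gg : Fin N → Fin n → ℚ, gg = fun k => ∑ s, (g k s : ℚ) • w s := ⟨_, rfl⟩
  have hggV : ∀ k, gg k ∈ V₁ ⊓ V₂ := by
    intro k
    rw [hggd]
    exact Submodule.sum_mem _ fun s _ => Submodule.smul_mem _ _ (hw s)
  have hy : ∀ k, y k = ∑ i, (gg k i : ℂ) * x i := by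
    intro k
    rw [hyd, hggd]
    show cmb (g k) x' = _
    unfold cmb
    simp only [hx'd, Finset.mul_sum]
    rw [Finset.sum_comm]
    refine Finset.sum_congr rfl fun i _ => ?_
    rw [Finset.sum_apply]
    push_cast
    rw [Finset.sum_mul]
    refine Finset.sum_congr rfl fun s _ => ?_
    rw [Pi.smul_apply, smul_eq_mul]
    push_cast
    ring
  -- the values at `y`
  have hexp : ∀ k l, Complex.exp (b₁ l * y k) ∈ E₀ := by
    intro k l
    refine hZE _ (Or.inl ⟨_, hCV₁ _ (hc₁ l) _ (hggV k).1, ?_⟩)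
    rw [ptG_prod, ← hy]
  have hnl : ∀ k l, μ * (b₂ l * y k) ∉ Lam τ := by
    intro k l
    have h11 := hNT (Pi.single k 1) (by
      intro h0
      have := congrFun h0 k
      rw [Pi.single_eq_same, Pi.zero_apply] at this
      exact one_ne_zero this) l
    rw [EB.I_GCoreE0.cmb_single] at h11
    have e : μ * b₂ l * (((1 : ℤ) : ℂ) * y k) = μ * (b₂ l * y k) := by
      push_cast
      ring
    rw [← e]
    exact h11
  have hxe : ∀ k l, xe τ μ (μ * (b₂ l * y k)) ∈ E₀ := by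
    intro k l
    have e : ptG b' x (fun i j => (algebraMap ℚ (kf τ) (gg k i)) * c₂ l j) = b₂ l * y k := by
      rw [ptG_prod, ← hy]
    refine hZE _ (Or.inr ⟨_, hCV₂ _ (hc₂ l) _ (hggV k).2, ?_, ?_⟩)
    · rw [e]
      exact hnl k l
    · rw [e]
  -- the space `D`
  have hmapD : ∀ w' ∈ V₁ ⊓ V₂, ∀ s : ℂ, (annF f G₂).map (mvJ fun i => (v₀ i : ℂ) + s * (w' i : ℂ)) =
      DD f (fun l j => (c₂ l j : ℂ)) := fun w' hw' s =>
    map_annF f G₂ _ _ fun d => (hlast w' hw'.2 s d).trans (basis_iff c₂ hc₂ hc₂s d)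
  obtain ⟨hR1, hR2⟩ := h4 f τ μ α hN hA n m' b' x v E₀ F hF hEF hv
    (FA_zero hN α f b' x hFb' hFx hFX hFZ hFq)
  rw [hR1] at hfin
  obtain ⟨m₃, h₃, hft, hff⟩ : ∃ m₃ : ℕ, m₃ ≤ m₂ ∧ (f = true → m₃ = m₂) ∧ (f = false → m₃ = 0) := by
    cases f
    · exact ⟨0, Nat.zero_le _, fun h => absurd h (by simp), fun _ => rfl⟩
    · exact ⟨m₂, le_rfl, fun _ => rfl, fun h => absurd h (by simp)⟩
  generalize hρ : Module.finrank ℂ ↥(((DK E₀).map
    (LinearMap.pi fun i => fam (FA f τ μ α b' (x i))) ⊔ annF f G₂).map (mvJ v)) = ρ at hfin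
  have key : ∀ t : Fin N → ℚ,
      rkD E₀ (fun l => ∑ k, (t k : ℂ) * AV τ μ h₃ b₂ y k l) +
        Module.finrank ℂ (DD f (fun l j => (c₂ l j : ℂ))) ≤ ρ := by
    intro t
    have a1 := h6 f τ μ α hN hA n m' m₂ m₃ b' x E₀ hE₀ hbE' (fun l j => (c₂ l j : ℂ))
      (fun l j => (c₂ l j).2) (li_coe c₂ hc₂i) h₃ hft hff (DD f (fun l j => (c₂ l j : ℂ)))
      (mem_DD f _) N gg y hy (fun k l => ⟨hnl k l, hxe k l⟩) t
    have a2 := h3 F n (Option (Fin m')) _ (annF f G₂) hR2 (ratF_annF f hN.im hF G₂) v hv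
      (fun i => (v₀ i : ℂ)) (fun i => ∑ k, (t k : ℂ) * (gg k i : ℂ))
      (DD f (fun l j => (c₂ l j : ℂ))) (by
        intro s
        rw [← hmapD (∑ k, t k • gg k) (Submodule.sum_mem _ fun k _ =>
          Submodule.smul_mem _ _ (hggV k)) s]
        congr 2
        funext i
        rw [Finset.sum_apply]
        push_cast
        congr 2
        refine Finset.sum_congr rfl fun k _ => ?_
        rw [Pi.smul_apply, smul_eq_mul]
        push_cast
        rfl)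
    rw [hρ] at a2
    exact a1.trans a2
  have hnum := hn₀ m₁ m₂ m₃ (by omega) (by omega) h₃ τ μ b₁ b₂ hN
    (I_GCoreM2.fti b b' hb (fun l j => (c₁ l j : ℂ)) (fun l j => (c₂ l j : ℂ)) (fun l j => by
      obtain ⟨q, hq⟩ := kQ_rat (c₁ l j)
      rw [hq]
      exact isAlgebraic_algebraMap (A := ℂ) q) (fun l j => hk1 _ ((hk2 _).1 (c₂ l j).2)))
    (I_GCoreM2.li_rat b hbL c₁ hc₁i) hbQ N (by omega) y hgi hNT E₀ (κ + k₀)
    (ρ - Module.finrank ℂ (DD f (fun l j => (c₂ l j : ℂ)))) hE₀ hTr hexp hxe (fun t => by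
      have := key t
      omega)
  refine I_GCoreM2.numeric f hC₁ hC₂ hft hff (fun hf => ?_) ?_ hnum hfin
  · subst hf
    exact finrank_DD _
  · have := key 0
    omega

end Pool.Agent.Work.MP_8da9ea_nt.MX
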