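import Pool.Agent.Work.MP_8da9ea_nt.MX.StmtsF
import Pool.Agent.Work.MP_8da9ea_nt.MX.I_GCoreM2

/-!
# Mixed block, item GCoreF: the rank at a generic point, lossless version
-/

set_option autoImplicit false

namespace Pool.Agent.Work.MP_8da9ea_nt.MX

open MvPolynomial Pool.Agent.Work.MP_327059_nt.GL Pool.Agent.Work.MP_8da9ea_nt.S
  Pool.Agent.Work.MP_8da9ea_nt.EB

namespace I_GCoreF

/-- the numerical part -/
lemma numeric (f : Bool) {m m' m₁ m₂ κ k₀ u₁ u₂ ρ D R : ℕ} (h1 : m₁ + u₁ = m)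
    (h2 : m₂ + u₂ = m') (hD : f = true → m' ≤ D + m₂) (hDρ : D ≤ ρ)
    (hT : f = true → m₁ + 2 * m₂ ≤ (κ + k₀) + (ρ - D))
    (hF : f = false → m₁ + m₂ ≤ (κ + k₀) + (ρ - D)) (hR : k₀ + u₁ + u₂ + ρ ≤ R) :
    tgtF f m m' ≤ κ + R := by
  cases f
  · have h3 := hF rfl
    simp only [tgtF] at *
    norm_num
    omega
  · have h3 := hT rfl
    have h4 := hD rfl
    simp only [tgtF, if_true] at *
    omega

end I_GCoreF

open I_GCoreM in
/-- F2: the rank at a generic point, lossless version -/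
theorem GCoreF_pf (h1 : S_AxOutM2) (h2 : S_LinAlgV) (h3 : S_SC1) (h4 : S_Rat) (h5 : S_Star)
    (h6 : S_RatPt) (h7 : S_StarF) : S_GCoreF := by
  classical
  intro f Q m m'
  obtain ⟨n₁, hn₁⟩ := h5 (Q + 2) (m + m')
  obtain ⟨n₂, hn₂⟩ := h7 (Q + 2) (m + m')
  refine ⟨n₁ + n₂ + 2 * m' + 2 * (m * m) + 2 * (m' * m'), ?_⟩
  intro τ μ α b b' hN hA hb hbL hbK n hn x hx κ hκ
  obtain ⟨hk1, hk2, hk3, hk4⟩ := Kf_pf τ hN.im
  obtain ⟨F, hF, hFc, hFB, hFx, hFe, hFX, hFZ, hFq⟩ := I_GCoreM2.exists_F τ μ b b' x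
  have hFb' : ∀ j, b' j ∈ F := by
    intro j
    have := hFB (Fin.natAdd m j)
    rwa [Fin.append_right] at this
  obtain ⟨v, hv⟩ := exists_v F hFc n
  refine ⟨v, ?_⟩
  obtain ⟨G₁, G₂, hG⟩ := h1 f τ μ α hN hA n m m' b b' x v
  -- the values
  set Z : Set ℂ := GV2 τ μ b b' x G₁ G₂ with hZ
  have hZF : ∀ z ∈ Z, z ∈ F := by
    rintro z (⟨ξ, -, rfl⟩ | ⟨ξ, -, hξ, rfl⟩)
    · exact val1 hF b x hFe ξ
    · exact val2 hN hF b' x hFX ξ hξ
  -- the field `E₀`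
  obtain ⟨E₀, hE₀def⟩ : ∃ E₀ : IntermediateField ℚ ℂ, E₀ =
      EB.I_RelStepE.acl (IntermediateField.adjoin ℚ (Set.range (Fin.append b b') ∪ Z)) := ⟨_, rfl⟩
  have hE₀ : ACl E₀ := by
    rw [hE₀def]
    exact EB.I_RelStepE.ACl_acl _
  have hE₀alg : ∀ c ∈ E₀,
      IsAlgebraic (IntermediateField.adjoin ℚ (Set.range (Fin.append b b') ∪ Z)) c := by
    intro c hc
    rw [hE₀def] at hc
    exact EB.I_RelStepE.mem_acl.1 hc
  have hsub : ∀ z ∈ Set.range (Fin.append b b') ∪ Z, z ∈ E₀ := by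
    intro z hz
    rw [hE₀def]
    exact EB.I_RelStepE.le_acl _ (IntermediateField.subset_adjoin ℚ _ hz)
  have hbE : ∀ j, b j ∈ E₀ := fun j => by
    have := hsub _ (Or.inl ⟨Fin.castAdd m' j, rfl⟩)
    rwa [Fin.append_left] at this
  have hbE' : ∀ j, b' j ∈ E₀ := fun j => by
    have := hsub _ (Or.inl ⟨Fin.natAdd m j, rfl⟩)
    rwa [Fin.append_right] at this
  have hZE : ∀ z ∈ Z, z ∈ E₀ := fun z hz => hsub _ (Or.inr hz)
  have hEF : E₀ ≤ F := by
    intro c hc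
    apply hF
    refine alg_mono ?_ (hE₀alg c hc)
    rw [IntermediateField.adjoin_le_iff]
    rintro z (⟨j, rfl⟩ | hz)
    · exact hFB j
    · exact hZF z hz
  have hEalg' : ∀ c ∈ E₀, IsAlgebraic
      (IntermediateField.adjoin ℚ (Set.range v ∪ Set.range (Fin.append b b') ∪ Z)) c := by
    intro c hc
    refine alg_mono (IntermediateField.adjoin.mono ℚ _ _ ?_) (hE₀alg c hc)
    rintro z (hz | hz)
    · exact Or.inl (Or.inr hz)
    · exact Or.inr hz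
  have hG' := hG E₀ hE₀ hbE hbE' (fun z hz => hZE z hz) hEalg'
  -- the number `k₀`
  obtain ⟨k₀, ⟨h, hh, hhi⟩, hmax⟩ := exists_max (fun k => ∃ h : Fin k → ℂ, (∀ t, h t ∈ Z) ∧
    AlgebraicIndependent
      (IntermediateField.adjoin ℚ (Set.range v ∪ Set.range (Fin.append b b'))) h)
    ⟨Fin.elim0, fun t => t.elim0, by
      rw [algebraicIndependent_empty_type_iff]
      exact (algebraMap (IntermediateField.adjoin ℚ
        (Set.range v ∪ Set.range (Fin.append b b'))) ℂ).injective⟩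
    (rkM2 f τ μ α b b' x v) (by
      rintro k ⟨h, hh, hhi⟩
      have := hG' k h hh hhi
      omega)
  have hTr : TrE E₀ (κ + k₀) := trE_of (Fin.append b b') Z E₀ F v hv hFB hZF hκ hE₀alg
    (fun k h hh hhi => hmax k ⟨h, hh, hhi⟩)
  have hfin := hG' k₀ h hh hhi
  -- linear algebra
  have hvQ : AlgebraicIndependent ℚ v := hv.restrictScalars (algebraMap ℚ F).injective
  obtain ⟨C₁, V₁, v₀', hC₁, -, hV₁, hCV₁, -⟩ := h2 kQ inferInstance (by
    rw [IntermediateField.finrank_bot]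
    norm_num) kQ_conj n m G₁ v hvQ
  obtain ⟨C₂, V₂, v₀, hC₂, -, hV₂, hCV₂, hlast⟩ := h2 (kf τ) (EB.I_GCoreE.kf_fin Kf_pf hN.im)
    (EB.I_GCoreE.kf_rank Kf_pf hN.im) (kf_conj hN.im) n m' G₂ v hvQ
  obtain ⟨c₁, hc₁, hc₁i, -⟩ := basis_sub C₁
  obtain ⟨c₂, hc₂, hc₂i, hc₂s⟩ := basis_sub C₂
  generalize hm₁ : Module.finrank kQ C₁ = m₁ at *
  generalize hm₂ : Module.finrank (kf τ) C₂ = m₂ at *
  have hVdim : n ≤ Module.finrank ℚ ↥(V₁ ⊓ V₂) + 2 * (m * m) + 2 * (m' * m') := by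
    have h9 := Submodule.finrank_sup_add_finrank_inf_eq V₁ V₂
    have h10 : Module.finrank ℚ ↥(V₁ ⊔ V₂) ≤ n := by
      have := Submodule.finrank_le (V₁ ⊔ V₂)
      rwa [Module.finrank_fin_fun] at this
    omega
  let bs := Module.finBasis ℚ ↥(V₁ ⊓ V₂)
  let w : Fin (Module.finrank ℚ ↥(V₁ ⊓ V₂)) → Fin n → ℚ := fun s => (bs s : Fin n → ℚ)
  have hw : ∀ s, w s ∈ V₁ ⊓ V₂ := fun s => (bs s).2
  have hwi : LinearIndependent ℚ w :=
    bs.linearIndependent.map' (V₁ ⊓ V₂).subtype (Submodule.ker_subtype _)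
  have hx' := li_comb x hx w hwi
  have hbQ : KLI τ (fun l => ∑ j, (c₂ l j : ℂ) * b' j) := EB.I_GCoreE0.kli hk2 b' hbK c₂ hc₂i
  set b₁ : Fin m₁ → ℂ := fun l => ∑ j, (c₁ l j : ℂ) * b j with hb₁
  set b₂ : Fin m₂ → ℂ := fun l => ∑ j, (c₂ l j : ℂ) * b' j with hb₂
  have hb₂0 : ∀ l, μ * b₂ l ≠ 0 := by
    intro l hl
    have hl' : b₂ l = 0 := (mul_eq_zero.1 hl).resolve_left hN.mu
    have := (EB.I_GCoreE0.lin_of_kli b₂ hbQ).ne_zero l
    exact this hl'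
  obtain ⟨N, g, hNn, hgi, hNT⟩ := RedNT_pf τ m₂ _ (fun l => μ * b₂ l) _ hN.im hb₂0 hx'
  set x' : Fin (Module.finrank ℚ ↥(V₁ ⊓ V₂)) → ℂ := fun s => ∑ i, (w s i : ℂ) * x i with hx'd
  obtain ⟨y, hyd⟩ : ∃ y : Fin N → ℂ, y = fun k => cmb (g k) x' := ⟨_, rfl⟩
  rw [← hyd] at hgi hNT
  obtain ⟨gg, hggd⟩ : ∃ gg : Fin N → Fin n → ℚ, gg = fun k => ∑ s, (g k s : ℚ) • w s := ⟨_, rfl⟩
  have hggV : ∀ k, gg k ∈ V₁ ⊓ V₂ := by
    intro k
    rw [hggd]
    exact Submodule.sum_mem _ fun s _ => Submodule.smul_mem _ _ (hw s)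
  have hy : ∀ k, y k = ∑ i, (gg k i : ℂ) * x i := by
    intro k
    rw [hyd, hggd]
    show cmb (g k) x' = _
    unfold cmb
    simp only [hx'd, Finset.mul_sum]
    rw [Finset.sum_comm]
    refine Finset.sum_congr rfl fun i _ => ?_
    rw [Finset.sum_apply]
    push_cast
    rw [Finset.sum_mul]
    refine Finset.sum_congr rfl fun s _ => ?_
    rw [Pi.smul_apply, smul_eq_mul]
    push_cast
    ring
  -- the values at `y`
  have hexp : ∀ k l, Complex.exp (b₁ l * y k) ∈ E₀ := by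
    intro k l
    refine hZE _ (Or.inl ⟨_, hCV₁ _ (hc₁ l) _ (hggV k).1, ?_⟩)
    rw [ptG_prod, ← hy]
  have hnl : ∀ k l, μ * (b₂ l * y k) ∉ Lam τ := by
    intro k l
    have h11 := hNT (Pi.single k 1) (by
      intro h0
      have := congrFun h0 k
      rw [Pi.single_eq_same, Pi.zero_apply] at this
      exact one_ne_zero this) l
    rw [EB.I_GCoreE0.cmb_single] at h11
    have e : μ * b₂ l * (((1 : ℤ) : ℂ) * y k) = μ * (b₂ l * y k) := by
      push_cast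
      ring
    rw [← e]
    exact h11
  have hxe : ∀ k l, xe τ μ (μ * (b₂ l * y k)) ∈ E₀ := by
    intro k l
    have e : ptG b' x (fun i j => (algebraMap ℚ (kf τ) (gg k i)) * c₂ l j) = b₂ l * y k := by
      rw [ptG_prod, ← hy]
    refine hZE _ (Or.inr ⟨_, hCV₂ _ (hc₂ l) _ (hggV k).2, ?_, ?_⟩)
    · rw [e]
      exact hnl k l
    · rw [e]
  -- the space `D`
  have hmapD : ∀ w' ∈ V₁ ⊓ V₂, ∀ s : ℂ, (annF f G₂).map (mvJ fun i => (v₀ i : ℂ) + s * (w' i : ℂ)) =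
      DD f (fun l j => (c₂ l j : ℂ)) := fun w' hw' s =>
    map_annF f G₂ _ _ fun d => (hlast w' hw'.2 s d).trans (basis_iff c₂ hc₂ hc₂s d)
  obtain ⟨hR1, hR2⟩ := h4 f τ μ α hN hA n m' b' x v E₀ F hF hEF hv
    (FA_zero hN α f b' x hFb' hFx hFX hFZ hFq)
  rw [hR1] at hfin
  obtain ⟨m₃, h₃, hft, hff⟩ : ∃ m₃ : ℕ, m₃ ≤ m₂ ∧ (f = true → m₃ = m₂) ∧ (f = false → m₃ = 0) := by
    cases f
    · exact ⟨0, Nat.zero_le _, fun h => absurd h (by simp), fun _ => rfl⟩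
    · exact ⟨m₂, le_rfl, fun _ => rfl, fun h => absurd h (by simp)⟩
  generalize hρ : Module.finrank ℂ ↥(((DK E₀).map
    (LinearMap.pi fun i => fam (FA f τ μ α b' (x i))) ⊔ annF f G₂).map (mvJ v)) = ρ at hfin
  have key : ∀ t : Fin N → ℚ,
      rkD E₀ (fun l => ∑ k, (t k : ℂ) * AV τ μ h₃ b₂ y k l) +
        Module.finrank ℂ (DD f (fun l j => (c₂ l j : ℂ))) ≤ ρ := by
    intro t
    have a1 := h6 f τ μ α hN hA n m' m₂ m₃ b' x E₀ hE₀ hbE' (fun l j => (c₂ l j : ℂ))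
      (fun l j => (c₂ l j).2) (li_coe c₂ hc₂i) h₃ hft hff (DD f (fun l j => (c₂ l j : ℂ)))
      (mem_DD f _) N gg y hy (fun k l => ⟨hnl k l, hxe k l⟩) t
    have a2 := h3 F n (Option (Fin m')) _ (annF f G₂) hR2 (ratF_annF f hN.im hF G₂) v hv
      (fun i => (v₀ i : ℂ)) (fun i => ∑ k, (t k : ℂ) * (gg k i : ℂ))
      (DD f (fun l j => (c₂ l j : ℂ))) (by
        intro s
        rw [← hmapD (∑ k, t k • gg k) (Submodule.sum_mem _ fun k _ =>
          Submodule.smul_mem _ _ (hggV k)) s]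
        congr 2
        funext i
        rw [Finset.sum_apply]
        push_cast
        congr 2
        refine Finset.sum_congr rfl fun k _ => ?_
        rw [Pi.smul_apply, smul_eq_mul]
        push_cast
        rfl)
    rw [hρ] at a2
    exact a1.trans a2
  have hfti := I_GCoreM2.fti b b' hb (fun l j => (c₁ l j : ℂ)) (fun l j => (c₂ l j : ℂ))
    (fun l j => by
      obtain ⟨q, hq⟩ := kQ_rat (c₁ l j)
      rw [hq]
      exact isAlgebraic_algebraMap (A := ℂ) q) (fun l j => hk1 _ ((hk2 _).1 (c₂ l j).2))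
  have hlr := I_GCoreM2.li_rat b hbL c₁ hc₁i
  have hE₀c : Countable E₀ := by
    have hinj : Function.Injective (fun z : E₀ => (⟨(z : ℂ), hEF z.2⟩ : F)) := by
      intro z w hzw
      apply Subtype.ext
      exact congrArg (fun t : F => (t : ℂ)) hzw
    exact hinj.countable
  have hyi : LinearIndependent ℚ y := hgi
  have hDρ : Module.finrank ℂ (DD f (fun l j => (c₂ l j : ℂ))) ≤ ρ := by
    have := key 0
    omega
  refine I_GCoreF.numeric f hC₁ hC₂ (fun hf => ?_) hDρ (fun hf => ?_) (fun hf => ?_) hfin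
  · subst hf
    exact finrank_DD _
  · have hm := hft hf
    subst hm
    exact hn₂ m₁ m₃ (by omega) (by omega) τ μ b₁ b₂ hN hfti hlr hbQ N (by omega) y hyi hNT E₀
      (κ + k₀) (ρ - Module.finrank ℂ (DD f (fun l j => (c₂ l j : ℂ)))) hE₀ hE₀c hTr hexp hxe
      (fun t => by
        have h12 := key t
        have h13 : (fun l => ∑ k, (t k : ℂ) * AV τ μ h₃ b₂ y k l) = cQ t (AW τ μ b₂ y) := by
          rw [← AW_eq]
          rfl
        rw [h13] at h12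
        omega)
  · have hm := hff hf
    have hnum := hn₁ m₁ m₂ m₃ (by omega) (by omega) h₃ τ μ b₁ b₂ hN hfti hlr hbQ N (by omega) y hyi
      hNT E₀ (κ + k₀)
      (ρ - Module.finrank ℂ (DD f (fun l j => (c₂ l j : ℂ)))) hE₀ hTr hexp hxe (fun t => by
        have := key t
        omega)
    subst hm
    simp only [psi] at hnum
    norm_num at hnum
    omega

end Pool.Agent.Work.MP_8da9ea_nt.MX
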