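import Pool.Agent.Work.MP_8da9ea_nt.MX.StmtsG

/-!
# Mixed block, item GPM: from the generic point to rational points, abstract form
-/

set_option autoImplicit false

namespace Pool.Agent.Work.MP_8da9ea_nt.MX

open MvPolynomial Pool.Agent.Work.MP_327059_nt.GL Pool.Agent.Work.MP_8da9ea_nt.S
  Pool.Agent.Work.MP_8da9ea_nt.EB

namespace I_GPM

/-- A matrix with independent rows has a non-zero maximal minor. -/
theorem minor {ρ : ℕ} {τ : Type} [Fintype τ] (U : Fin ρ → τ → ℂ)
    (hU : LinearIndependent ℂ U) :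
    ∃ o : Fin ρ → τ, (Matrix.of fun i k => U i (o k)).det ≠ 0 := by
  classical
  have hspan : Submodule.span ℂ (Set.range (fun t : τ => fun i => U i t)) = ⊤ := by
    have h1 : (Matrix.of U).rank = ρ := by
      have h := LinearIndependent.rank_matrix (M := Matrix.of U) hU
      rw [h, Fintype.card_fin]
    apply Submodule.eq_top_of_finrank_eq
    rw [Module.finrank_fintype_fun_eq_card, Fintype.card_fin]
    rw [Matrix.rank_eq_finrank_span_cols] at h1
    exact h1
  obtain ⟨S, hS1, hS2, hS3⟩ := exists_linearIndependent ℂ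
    (Set.range (fun t : τ => fun i => U i t))
  let B : Module.Basis S ℂ (Fin ρ → ℂ) := Module.Basis.mk hS3 (by
    rw [Subtype.range_coe, hS2, hspan])
  let e : S ≃ Fin ρ := B.indexEquiv (Pi.basisFun ℂ (Fin ρ))
  have hex : ∀ k : Fin ρ, ∃ t : τ, (fun i => U i t) = ((e.symm k : S) : Fin ρ → ℂ) := by
    intro k
    exact hS1 (e.symm k).2
  choose o ho using hex
  refine ⟨o, ?_⟩
  have hli : LinearIndependent ℂ (fun k : Fin ρ => ((e.symm k : S) : Fin ρ → ℂ)) :=
    hS3.comp (fun k : Fin ρ => e.symm k) e.symm.injective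
  have hcol : LinearIndependent ℂ (Matrix.of fun i k => U i (o k)).col := by
    have : (Matrix.of fun i k => U i (o k)).col =
        (fun k : Fin ρ => ((e.symm k : S) : Fin ρ → ℂ)) := by
      funext k
      rw [← ho k]
      rfl
    rw [this]
    exact hli
  have hu := Matrix.linearIndependent_cols_iff_isUnit.1 hcol
  exact ((Matrix.isUnit_iff_isUnit_det _).1 hu).ne_zero

theorem detHom {σ : Type} [Fintype σ] [DecidableEq σ] {n : ℕ}
    (A : Matrix σ σ (MvPolynomial (Fin n) ℂ)) (hA : ∀ i j, (A i j).IsHomogeneous 1) :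
    A.det.IsHomogeneous (Fintype.card σ) := by
  rw [Matrix.det_apply']
  apply MvPolynomial.IsHomogeneous.sum
  intro τ _
  have h1 : (∏ i, A (τ i) i).IsHomogeneous (∑ _i : σ, 1) :=
    MvPolynomial.IsHomogeneous.prod _ _ _ (fun i _ => hA _ _)
  have h2 : ((Equiv.Perm.sign τ : ℤ) : MvPolynomial (Fin n) ℂ) =
      MvPolynomial.C ((Equiv.Perm.sign τ : ℤ) : ℂ) := by
    rw [map_intCast]
  rw [h2]
  have h3 := (MvPolynomial.isHomogeneous_C (Fin n) ((Equiv.Perm.sign τ : ℤ) : ℂ)).mul h1
  simpa using h3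

end I_GPM

open I_GPM

theorem GPM_pf : S_GPM := by
  classical
  intro n ρ J _ T ω v hrk
  obtain ⟨u, hu⟩ := exists_linearIndependent_of_le_finrank hrk
  have hu' : LinearIndependent ℂ (fun i => ((u i : _) : J → ℂ)) :=
    hu.map' (Submodule.subtype _) (Submodule.ker_subtype _)
  obtain ⟨o, ho⟩ := minor (fun i => ((u i : _) : J → ℂ)) hu'
  have hex : ∀ i : Fin ρ, ∃ δ ∈ T,
      ((mvJ v).comp (LinearMap.pi fun i => fam (ω i))) δ = (u i : J → ℂ) := by
    intro i
    exact Submodule.mem_map.1 (u i).2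
  choose δ hδT hδ using hex
  let p : Fin ρ → Fin ρ → MvPolynomial (Fin n) ℂ := fun i k =>
    ∑ l, MvPolynomial.C (ω l (o k) (δ i)) * MvPolynomial.X l
  have hev : ∀ (t : Fin n → ℂ) i k, MvPolynomial.eval t (p i k) =
      ((mvJ t).comp (LinearMap.pi fun i => fam (ω i))) (δ i) (o k) := by
    intro t i k
    change MvPolynomial.eval t (∑ l, MvPolynomial.C (ω l (o k) (δ i)) *
      MvPolynomial.X l) = ∑ l, t l * ω l (o k) (δ i)
    rw [map_sum]
    refine Finset.sum_congr rfl fun l _ => ?_
    simp only [map_mul, MvPolynomial.eval_C, MvPolynomial.eval_X]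
    ring
  let P : MvPolynomial (Fin n) ℂ := (Matrix.of p).det
  have hPev : ∀ t : Fin n → ℂ, MvPolynomial.eval t P =
      (Matrix.of fun i k =>
        ((mvJ t).comp (LinearMap.pi fun i => fam (ω i))) (δ i) (o k)).det := by
    intro t
    change MvPolynomial.eval t (Matrix.of p).det = _
    rw [RingHom.map_det]
    congr 1
    ext i k
    exact hev t i k
  refine ⟨P, ?_, ?_, ?_⟩
  · intro h0
    have h1 := hPev v
    rw [h0, map_zero] at h1
    apply ho
    rw [h1]
    congr 1
    ext i k
    rw [Matrix.of_apply, Matrix.of_apply, hδ i]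
  · have h1 := detHom (Matrix.of p) (fun i k => by
      change (∑ l, MvPolynomial.C (ω l (o k) (δ i)) *
        MvPolynomial.X l).IsHomogeneous 1
      exact MvPolynomial.IsHomogeneous.sum _ _ _ fun i _ =>
        MvPolynomial.isHomogeneous_C_mul_X _ _)
    rw [Fintype.card_fin] at h1
    exact h1
  · intro w hw
    rw [hPev] at hw
    have hli : LinearIndependent ℂ
        (fun i => ((mvJ w).comp (LinearMap.pi fun i => fam (ω i))) (δ i)) := by
      have h2 : LinearIndependent ℂ (Matrix.of fun i k =>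
          ((mvJ w).comp (LinearMap.pi fun i => fam (ω i))) (δ i) (o k)).row :=
        Matrix.linearIndependent_rows_of_det_ne_zero hw
      apply LinearIndependent.of_comp (LinearMap.funLeft ℂ ℂ o)
      exact h2
    have hmem : ∀ i, ((mvJ w).comp (LinearMap.pi fun i => fam (ω i))) (δ i) ∈
        T.map ((mvJ w).comp (LinearMap.pi fun i => fam (ω i))) := fun i =>
      Submodule.mem_map.2 ⟨δ i, hδT i, rfl⟩
    have h4 : LinearIndependent ℂ (fun i =>
        (⟨_, hmem i⟩ : T.map ((mvJ w).comp (LinearMap.pi fun i => fam (ω i))))) := by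
      apply LinearIndependent.of_comp (Submodule.subtype _)
      exact hli
    have h5 := h4.fintype_card_le_finrank
    rw [Fintype.card_fin] at h5
    exact h5

end Pool.Agent.Work.MP_8da9ea_nt.MX
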