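import Pool.Agent.Work.MP_8da9ea_nt.MX.StmtsF

/-!
# Mixed block, lossless version: item HilbF (Hilbert function over an intermediate field)

Denominators version: with a maximal algebraically independent subfamily `ξ` of `θ` one multiplies by
powers of the product of the leading coefficients of the relations of the `θ_j` over `k[ξ]`.
-/

set_option autoImplicit false

namespace Pool.Agent.Work.MP_8da9ea_nt.MX

open MvPolynomial Pool.Agent.Work.MP_327059_nt.GL Pool.Agent.Work.MP_8da9ea_nt.S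
  Pool.Agent.Work.MP_8da9ea_nt.EB

namespace I_HilbF

variable {k : IntermediateField ℚ ℂ}

theorem cons_eval {h : ℕ} (ξ : Fin h → ℂ) (y : ℂ) (P : MvPolynomial (Fin (h + 1)) k) :
    aeval (Fin.cons y ξ : Fin (h + 1) → ℂ) P =
      Polynomial.eval₂ ((aeval ξ : MvPolynomial (Fin h) k →ₐ[k] ℂ) : MvPolynomial (Fin h) k →+* ℂ) y
        (finSuccEquiv k h P) := by
  have h1 : ((aeval (Fin.cons y ξ : Fin (h + 1) → ℂ) : MvPolynomial (Fin (h + 1)) k →ₐ[k] ℂ) :
      MvPolynomial (Fin (h + 1)) k →+* ℂ) =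
      (Polynomial.eval₂RingHom ((aeval ξ : MvPolynomial (Fin h) k →ₐ[k] ℂ) :
        MvPolynomial (Fin h) k →+* ℂ) y).comp
        ((finSuccEquiv k h : MvPolynomial (Fin (h + 1)) k ≃ₐ[k] _) :
          MvPolynomial (Fin (h + 1)) k →+* Polynomial (MvPolynomial (Fin h) k)) := by
    apply MvPolynomial.ringHom_ext
    · intro a
      have e : (finSuccEquiv k h) (C a) = Polynomial.C (C a) := by
        simpa using (finSuccEquiv k h).commutes a
      simp [e]
    · intro i
      refine Fin.cases ?_ (fun i => ?_) i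
      · simp [finSuccEquiv_X_zero]
      · simp [finSuccEquiv_X_succ]
  exact congrArg (fun f : MvPolynomial (Fin (h + 1)) k →+* ℂ => f P) h1

/-- The relation of an algebraic element. -/
theorem rel {h : ℕ} (ξ : Fin h → ℂ) (hξ : AlgebraicIndependent k ξ) (y : ℂ)
    (hy : ¬ AlgebraicIndependent k (Fin.cons y ξ : Fin (h + 1) → ℂ)) :
    ∃ (N : ℕ) (g : MvPolynomial (Fin h) k) (a : ℕ → MvPolynomial (Fin h) k), 1 ≤ N ∧
      aeval ξ g ≠ 0 ∧ aeval ξ g * y ^ N = ∑ l ∈ Finset.range N, aeval ξ (a l) * y ^ l := by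
  rw [algebraicIndependent_iff] at hy
  push_neg at hy
  obtain ⟨P, hP, hP0⟩ := hy
  have hQ0 : finSuccEquiv k h P ≠ 0 := by
    intro e
    apply hP0
    exact (finSuccEquiv k h).injective (by simpa using e)
  set Q := finSuccEquiv k h P with hQ
  have hl : aeval ξ Q.leadingCoeff ≠ 0 := by
    intro e
    exact hQ0 (Polynomial.leadingCoeff_eq_zero.mp ((algebraicIndependent_iff.mp hξ) _ e))
  rw [cons_eval, ← hQ, Polynomial.eval₂_eq_sum_range, Finset.sum_range_succ] at hP
  refine ⟨Q.natDegree, Q.leadingCoeff, fun l => - Q.coeff l, ?_, hl, ?_⟩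
  · by_contra hN
    have hN0 : Q.natDegree = 0 := by omega
    rw [hN0] at hP
    apply hl
    simpa [Polynomial.leadingCoeff, hN0] using hP
  · have e1 : ∑ l ∈ Finset.range Q.natDegree, aeval ξ (-Q.coeff l) * y ^ l =
        - ∑ l ∈ Finset.range Q.natDegree, aeval ξ (Q.coeff l) * y ^ l := by
      rw [← Finset.sum_neg_distrib]
      refine Finset.sum_congr rfl fun l _ => ?_
      rw [map_neg]
      ring
    rw [e1]
    have hP' : ∑ l ∈ Finset.range Q.natDegree, aeval ξ (Q.coeff l) * y ^ l +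
        aeval ξ (Q.coeff Q.natDegree) * y ^ Q.natDegree = 0 := hP
    rw [Polynomial.leadingCoeff]
    linear_combination hP'

section

variable {σ : Type} [Fintype σ] {h : ℕ}

/-- The span of the products `p(ξ) θ^γ`, `deg p ≤ E`, `γ_j < N_j`. -/
noncomputable def W (k : IntermediateField ℚ ℂ) (ξ : Fin h → ℂ) (θ : σ → ℂ) (N : σ → ℕ) (E : ℕ) :
    Submodule k ℂ :=
  Submodule.span k {z | ∃ (p : MvPolynomial (Fin h) k) (γ : σ → ℕ), (∀ i, p.degreeOf i ≤ E) ∧
    (∀ j, γ j < N j) ∧ z = aeval ξ p * ∏ j, θ j ^ γ j}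

theorem W_mem (ξ : Fin h → ℂ) (θ : σ → ℂ) (N : σ → ℕ) (E : ℕ) (p : MvPolynomial (Fin h) k)
    (γ : σ → ℕ) (hp : ∀ i, p.degreeOf i ≤ E) (hγ : ∀ j, γ j < N j) :
    aeval ξ p * ∏ j, θ j ^ γ j ∈ W k ξ θ N E :=
  Submodule.subset_span ⟨p, γ, hp, hγ, rfl⟩

theorem W_mul (ξ : Fin h → ℂ) (θ : σ → ℂ) (N : σ → ℕ) (q : MvPolynomial (Fin h) k) (c E : ℕ)
    (hq : ∀ i, q.degreeOf i ≤ c) (z : ℂ) (hz : z ∈ W k ξ θ N E) :
    aeval ξ q * z ∈ W k ξ θ N (E + c) := by
  have h1 : W k ξ θ N E ≤ (W k ξ θ N (E + c)).comap (LinearMap.mulLeft k (aeval ξ q)) := by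
    rw [W, Submodule.span_le]
    rintro _ ⟨p, γ, hp, hγ, rfl⟩
    show aeval ξ q * (aeval ξ p * ∏ j, θ j ^ γ j) ∈ W k ξ θ N (E + c)
    rw [← mul_assoc, ← map_mul]
    refine W_mem ξ θ N (E + c) _ γ (fun i => ?_) hγ
    have := degreeOf_mul_le i q p
    have := hq i
    have := hp i
    omega
  exact h1 hz

theorem prod_upd (θ : σ → ℂ) [DecidableEq σ] (γ : σ → ℕ) (j : σ) (m : ℕ) :
    ∏ i, θ i ^ (Function.update γ j m) i = θ j ^ m * ∏ i ∈ Finset.univ.erase j, θ i ^ γ i := by
  rw [← Finset.mul_prod_erase Finset.univ _ (Finset.mem_univ j), Function.update_self]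
  congr 1
  refine Finset.prod_congr rfl fun i hi => ?_
  rw [Function.update_of_ne (Finset.ne_of_mem_erase hi)]

theorem W_step [DecidableEq σ] (ξ : Fin h → ℂ) (θ : σ → ℂ) (N : σ → ℕ)
    (g : σ → MvPolynomial (Fin h) k) (a : σ → ℕ → MvPolynomial (Fin h) k)
    (hrel : ∀ j, aeval ξ (g j) * θ j ^ N j = ∑ l ∈ Finset.range (N j), aeval ξ (a j l) * θ j ^ l)
    (c : ℕ) (hc : ∀ i, (∏ j, g j).degreeOf i ≤ c)
    (hc' : ∀ j, ∀ l < N j, ∀ i, ((∏ j' ∈ Finset.univ.erase j, g j') * a j l).degreeOf i ≤ c)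
    (E : ℕ) (j : σ) (z : ℂ) (hz : z ∈ W k ξ θ N E) :
    aeval ξ (∏ j, g j) * θ j * z ∈ W k ξ θ N (E + c) := by
  have h1 : W k ξ θ N E ≤ (W k ξ θ N (E + c)).comap
      (LinearMap.mulLeft k (aeval ξ (∏ j, g j) * θ j)) := by
    rw [W, Submodule.span_le]
    rintro _ ⟨p, γ, hp, hγ, rfl⟩
    show aeval ξ (∏ j, g j) * θ j * (aeval ξ p * ∏ j, θ j ^ γ j) ∈ W k ξ θ N (E + c)
    have e0 : ∏ i, θ i ^ γ i = θ j ^ γ j * ∏ i ∈ Finset.univ.erase j, θ i ^ γ i :=
      (Finset.mul_prod_erase Finset.univ _ (Finset.mem_univ j)).symm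
    rcases lt_or_ge (γ j + 1) (N j) with h2 | h2
    · have e1 : aeval ξ (∏ j, g j) * θ j * (aeval ξ p * ∏ j, θ j ^ γ j) =
          aeval ξ ((∏ j, g j) * p) * ∏ i, θ i ^ (Function.update γ j (γ j + 1)) i := by
        rw [prod_upd, e0, map_mul, pow_succ]
        ring
      rw [e1]
      refine W_mem ξ θ N (E + c) _ _ (fun i => ?_) (fun i => ?_)
      · have := degreeOf_mul_le i (∏ j, g j) p
        have := hc i
        have := hp i
        omega
      · by_cases hi : i = j
        · subst hi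
          rw [Function.update_self]
          exact h2
        · rw [Function.update_of_ne hi]
          exact hγ i
    · have hN : N j = γ j + 1 := by
        have := hγ j
        omega
      have e1 : aeval ξ (∏ j, g j) * θ j * (aeval ξ p * ∏ j, θ j ^ γ j) =
          ∑ l ∈ Finset.range (N j), aeval ξ (p * ((∏ j' ∈ Finset.univ.erase j, g j') * a j l)) *
            ∏ i, θ i ^ (Function.update γ j l) i := by
        have e2 : ∑ l ∈ Finset.range (N j),
            aeval ξ (p * ((∏ j' ∈ Finset.univ.erase j, g j') * a j l)) *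
            ∏ i, θ i ^ (Function.update γ j l) i =
            aeval ξ p * aeval ξ (∏ j' ∈ Finset.univ.erase j, g j') *
              (∏ i ∈ Finset.univ.erase j, θ i ^ γ i) *
              ∑ l ∈ Finset.range (N j), aeval ξ (a j l) * θ j ^ l := by
          rw [Finset.mul_sum]
          refine Finset.sum_congr rfl fun l _ => ?_
          rw [prod_upd, map_mul, map_mul]
          ring
        rw [e2, ← hrel j, e0, ← Finset.mul_prod_erase Finset.univ g (Finset.mem_univ j), map_mul, hN,
          pow_succ]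
        ring
      rw [e1]
      refine Submodule.sum_mem _ fun l hl => ?_
      have hl' : l < N j := Finset.mem_range.mp hl
      refine W_mem ξ θ N (E + c) _ _ (fun i => ?_) (fun i => ?_)
      · have := degreeOf_mul_le i p ((∏ j' ∈ Finset.univ.erase j, g j') * a j l)
        have := hc' j l hl' i
        have := hp i
        omega
      · by_cases hi : i = j
        · subst hi
          rw [Function.update_self]
          exact hl'
        · rw [Function.update_of_ne hi]
          exact hγ i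
  exact h1 hz

theorem W_mon [DecidableEq σ] (ξ : Fin h → ℂ) (θ : σ → ℂ) (N : σ → ℕ)
    (G : MvPolynomial (Fin h) k) (c : ℕ)
    (hst : ∀ (E : ℕ) (j : σ) (z : ℂ), z ∈ W k ξ θ N E → aeval ξ G * θ j * z ∈ W k ξ θ N (E + c))
    (α : σ →₀ ℕ) : ∀ (E : ℕ) (z : ℂ), z ∈ W k ξ θ N E →
      aeval ξ G ^ α.degree * (α.prod fun i n => θ i ^ n) * z ∈ W k ξ θ N (E + c * α.degree) := by
  induction α using Finsupp.induction_linear with
  | zero => intro E z hz; simpa using hz
  | add f g hf hg =>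
    intro E z hz
    have h1 := hf _ _ (hg _ _ hz)
    have e1 : (f + g).prod (fun i n => θ i ^ n) =
        (f.prod fun i n => θ i ^ n) * (g.prod fun i n => θ i ^ n) :=
      Finsupp.prod_add_index' (fun i => pow_zero _) (fun i a b => pow_add _ _ _)
    have e2 : (f + g).degree = f.degree + g.degree := map_add _ _ _
    rw [e1, e2]
    have e3 : aeval ξ G ^ (f.degree + g.degree) *
        ((f.prod fun i n => θ i ^ n) * (g.prod fun i n => θ i ^ n)) * z =
        aeval ξ G ^ f.degree * (f.prod fun i n => θ i ^ n) *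
          (aeval ξ G ^ g.degree * (g.prod fun i n => θ i ^ n) * z) := by
      rw [pow_add]
      ring
    rw [e3]
    have e4 : E + c * (f.degree + g.degree) = E + c * g.degree + c * f.degree := by ring
    rw [e4]
    exact h1
  | single j n =>
    have e1 : (Finsupp.single j n).prod (fun i n => θ i ^ n) = θ j ^ n :=
      Finsupp.prod_single_index (pow_zero _)
    have e2 : (Finsupp.single j n).degree = n := by simp
    rw [e1, e2]
    clear e1 e2
    induction n with
    | zero => intro E z hz; simpa using hz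
    | succ n ih =>
      intro E z hz
      have h1 := hst _ j _ (ih E z hz)
      have e3 : aeval ξ G ^ (n + 1) * θ j ^ (n + 1) * z =
          aeval ξ G * θ j * (aeval ξ G ^ n * θ j ^ n * z) := by
        rw [pow_succ, pow_succ]
        ring
      rw [e3]
      have e4 : E + c * (n + 1) = E + c * n + c := by ring
      rw [e4]
      exact h1

/-- The finite generating family. -/
noncomputable def gen (ξ : Fin h → ℂ) (θ : σ → ℂ) (N : σ → ℕ) (E : ℕ)
    (q : (Fin h → Fin (E + 1)) × ((j : σ) → Fin (N j))) : ℂ :=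
  (∏ i, ξ i ^ (q.1 i : ℕ)) * ∏ j, θ j ^ (q.2 j : ℕ)

theorem W_le (ξ : Fin h → ℂ) (θ : σ → ℂ) (N : σ → ℕ) (E : ℕ) :
    W k ξ θ N E ≤ Submodule.span k (Set.range (gen ξ θ N E)) := by
  rw [W, Submodule.span_le]
  rintro _ ⟨p, γ, hp, hγ, rfl⟩
  rw [aeval_def, eval₂_eq', Finset.sum_mul]
  refine Submodule.sum_mem _ fun β hβ => ?_
  have hβ' : ∀ i, β i < E + 1 := fun i => by
    have h1 : β i ≤ p.degreeOf i := monomial_le_degreeOf i hβ
    have := hp i
    omega
  have e1 : (algebraMap k ℂ (coeff β p) * ∏ i, ξ i ^ β i) * ∏ j, θ j ^ γ j =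
      (coeff β p) • gen ξ θ N E (fun i => ⟨β i, hβ' i⟩, fun j => ⟨γ j, hγ j⟩) := by
    rw [Algebra.smul_def, gen]
    ring
  rw [e1]
  exact Submodule.smul_mem _ _ (Submodule.subset_span ⟨_, rfl⟩)

end

end I_HilbF

open I_HilbF in
theorem HilbF_pf : S_HilbF := by
  classical
  intro k σ _ θ d hd
  set P : ℕ → Prop := fun h => ∃ s : Fin h → σ, AlgebraicIndependent k (fun i => θ (s i)) with hP
  have hP0 : P 0 := by
    refine ⟨Fin.elim0, ?_⟩
    rw [algebraicIndependent_empty_type_iff]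
    exact (algebraMap k ℂ).injective
  set h := Nat.findGreatest P d with hh
  have hPh : P h := Nat.findGreatest_spec (Nat.zero_le d) hP0
  have hhd : h ≤ d := Nat.findGreatest_le d
  have hPs : ¬ P (h + 1) := by
    rcases Nat.lt_or_ge h d with h1 | h1
    · exact Nat.findGreatest_is_greatest (Nat.lt_succ_self _) h1
    · have : h = d := le_antisymm hhd h1
      rw [this]
      rintro ⟨s, hs⟩
      exact hd s hs
  obtain ⟨s, hs⟩ := hPh
  have hrel0 : ∀ j, ∃ (N : ℕ) (g : MvPolynomial (Fin h) k) (a : ℕ → MvPolynomial (Fin h) k), 1 ≤ N ∧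
      aeval (fun i => θ (s i)) g ≠ 0 ∧ aeval (fun i => θ (s i)) g * θ j ^ N =
        ∑ l ∈ Finset.range N, aeval (fun i => θ (s i)) (a l) * θ j ^ l := by
    intro j
    refine rel _ hs (θ j) fun hc => hPs ⟨Fin.cons j s, ?_⟩
    have e : (fun i => θ ((Fin.cons j s : Fin (h + 1) → σ) i)) =
        (Fin.cons (θ j) (fun i => θ (s i)) : Fin (h + 1) → ℂ) := by
      funext i
      refine Fin.cases ?_ (fun i => ?_) i <;> simp
    rw [e]
    exact hc
  choose N g a hN hg hrel using hrel0
  set ξ : Fin h → ℂ := fun i => θ (s i) with hξ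
  set G : MvPolynomial (Fin h) k := ∏ j, g j with hG
  have hG0 : aeval ξ G ≠ 0 := by
    rw [hG, map_prod]
    exact Finset.prod_ne_zero_iff.mpr fun j _ => hg j
  set c : ℕ := G.totalDegree + ∑ j, ∑ l ∈ Finset.range (N j),
    ((∏ j' ∈ Finset.univ.erase j, g j') * a j l).totalDegree with hc
  have hc1 : ∀ i, G.degreeOf i ≤ c := fun i =>
    le_trans (degreeOf_le_totalDegree _ _) (Nat.le_add_right _ _)
  have hc2 : ∀ j, ∀ l < N j, ∀ i,
      ((∏ j' ∈ Finset.univ.erase j, g j') * a j l).degreeOf i ≤ c := by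
    intro j l hl i
    refine le_trans (degreeOf_le_totalDegree _ _) ?_
    have h1 : ((∏ j' ∈ Finset.univ.erase j, g j') * a j l).totalDegree ≤
        ∑ l ∈ Finset.range (N j), ((∏ j' ∈ Finset.univ.erase j, g j') * a j l).totalDegree :=
      Finset.single_le_sum (f := fun l =>
        ((∏ j' ∈ Finset.univ.erase j, g j') * a j l).totalDegree) (fun _ _ => Nat.zero_le _)
        (Finset.mem_range.mpr hl)
    have h2 : ∑ l ∈ Finset.range (N j), ((∏ j' ∈ Finset.univ.erase j, g j') * a j l).totalDegree ≤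
        ∑ j, ∑ l ∈ Finset.range (N j),
          ((∏ j' ∈ Finset.univ.erase j, g j') * a j l).totalDegree :=
      Finset.single_le_sum (f := fun j => ∑ l ∈ Finset.range (N j),
        ((∏ j' ∈ Finset.univ.erase j, g j') * a j l).totalDegree) (fun _ _ => Nat.zero_le _)
        (Finset.mem_univ j)
    omega
  have hst := W_step ξ θ N g a hrel c hc1 hc2
  have h1W : (1 : ℂ) ∈ W k ξ θ N 0 := by
    have := W_mem (k := k) ξ θ N 0 1 (fun _ => 0) (fun i => by simp) (fun j => hN j)
    simpa using this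
  have hpowG : ∀ (n E : ℕ) (z : ℂ), z ∈ W k ξ θ N E → aeval ξ G ^ n * z ∈ W k ξ θ N (E + c * n) := by
    intro n
    induction n with
    | zero => intro E z hz; simpa using hz
    | succ n ih =>
      intro E z hz
      have h1 := W_mul ξ θ N G c _ hc1 _ (ih E z hz)
      have e1 : aeval ξ G ^ (n + 1) * z = aeval ξ G * (aeval ξ G ^ n * z) := by
        rw [pow_succ]
        ring
      rw [e1]
      have e2 : E + c * (n + 1) = E + c * n + c := by ring
      rw [e2]
      exact h1
  have hmain : ∀ (D : ℕ) (Q : MvPolynomial σ k), Q.totalDegree ≤ D →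
      aeval ξ G ^ D * aeval θ Q ∈ W k ξ θ N (c * D) := by
    intro D Q hQ
    rw [aeval_def (σ := σ), eval₂_eq, Finset.mul_sum]
    refine Submodule.sum_mem _ fun α hα => ?_
    have hα1 : α.degree ≤ D := le_trans (le_totalDegree hα) hQ
    have h1 := W_mon ξ θ N G c (fun E j z hz => hst E j z hz) α 0 1 h1W
    have h2 := hpowG (D - α.degree) _ _ h1
    have e1 : aeval ξ G ^ D * (algebraMap k ℂ (coeff α Q) * ∏ i ∈ α.support, θ i ^ α i) =
        (coeff α Q) • (aeval ξ G ^ (D - α.degree) *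
          (aeval ξ G ^ α.degree * (α.prod fun i n => θ i ^ n) * 1)) := by
      have e0 : aeval ξ G ^ D = aeval ξ G ^ (D - α.degree) * aeval ξ G ^ α.degree := by
        rw [← pow_add]
        congr 1
        omega
      rw [Algebra.smul_def, e0, Finsupp.prod]
      ring
    rw [e1]
    have e2 : 0 + c * α.degree + c * (D - α.degree) = c * D := by
      rw [zero_add, ← mul_add]
      congr 1
      omega
    rw [e2] at h2
    exact Submodule.smul_mem _ _ h2
  refine ⟨(c + 1) ^ h * ∏ j, N j, ?_, fun D => ?_⟩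
  · have h1 : 1 ≤ ∏ j, N j := Finset.one_le_prod' (fun j _ => hN j)
    have h2 : 1 ≤ (c + 1) ^ h := Nat.one_le_pow _ _ (Nat.succ_pos _)
    exact Nat.mul_le_mul h2 h1
  set L : ℂ →ₗ[k] ℂ := LinearMap.mulLeft k (aeval ξ G ^ D) with hL
  have hLi : Function.Injective L := by
    intro x y hxy
    exact mul_left_cancel₀ (pow_ne_zero D hG0) hxy
  set F : Submodule k ℂ := Submodule.span k (Set.range (gen ξ θ N (c * D))) with hF
  haveI : FiniteDimensional k F := FiniteDimensional.span_of_finite k (Set.finite_range _)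
  have hle : (spD k θ D).map L ≤ F := by
    rw [spD, Submodule.map_span, Submodule.span_le]
    rintro _ ⟨y, ⟨Q, hQ, rfl⟩, rfl⟩
    exact W_le ξ θ N (c * D) (hmain D Q hQ)
  haveI hfd : FiniteDimensional k ((spD k θ D).map L) := Submodule.finiteDimensional_of_le hle
  have eqv := Submodule.equivMapOfInjective L hLi (spD k θ D)
  refine ⟨Module.Finite.equiv eqv.symm, ?_⟩
  rw [eqv.finrank_eq]
  refine le_trans (Submodule.finrank_mono hle) ?_
  have h1 : Module.finrank k F ≤
      Fintype.card ((Fin h → Fin (c * D + 1)) × ((j : σ) → Fin (N j))) := by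
    rw [hF]
    exact finrank_range_le_card (R := k) (gen ξ θ N (c * D))
  refine le_trans h1 ?_
  have h2 : Fintype.card ((Fin h → Fin (c * D + 1)) × ((j : σ) → Fin (N j))) =
      (c * D + 1) ^ h * ∏ j, N j := by
    rw [Fintype.card_prod, Fintype.card_fun, Fintype.card_pi]
    simp
  rw [h2]
  have h3 : (c * D + 1) ^ h ≤ (c + 1) ^ h * (D + 1) ^ d := by
    calc (c * D + 1) ^ h ≤ ((c + 1) * (D + 1)) ^ h := Nat.pow_le_pow_left (by nlinarith) h
      _ = (c + 1) ^ h * (D + 1) ^ h := mul_pow _ _ _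
      _ ≤ (c + 1) ^ h * (D + 1) ^ d :=
          Nat.mul_le_mul_left _ (Nat.pow_le_pow_right (Nat.succ_pos D) hhd)
  calc (c * D + 1) ^ h * ∏ j, N j ≤ (c + 1) ^ h * (D + 1) ^ d * ∏ j, N j :=
        Nat.mul_le_mul_right _ h3
    _ = (c + 1) ^ h * (∏ j, N j) * (D + 1) ^ d := by ring

end Pool.Agent.Work.MP_8da9ea_nt.MX
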