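import Pool.Agent.Work.MP_8da9ea_nt.MX.StmtsG
import Pool.Agent.Work.MP_327059_nt.Bd.B10

/-!
# Item ImgC: image of the derivations killing `E`
-/

set_option autoImplicit false

namespace Pool.Agent.Work.MP_8da9ea_nt.MX

open Pool.Agent.Work.MP_327059_nt.GL Pool.Agent.Work.MP_8da9ea_nt.S
  Pool.Agent.Work.MP_8da9ea_nt.EB

namespace I_ImgC

/-- The stability lemma over an arbitrary finite index type. -/
lemma stab (hS : Pool.Agent.Work.MP_327059_nt.GL.S_Stab) (J : Type) [Fintype J] (W : Submodule ℂ (J → ℂ))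
    (DS : Set (Derivation ℚ ℂ ℂ)) (h : ∀ D ∈ DS, ∀ a ∈ W, (fun j => D (a j)) ∈ W) :
    ∀ a ∈ W, a ∈ Submodule.span ℂ {e : J → ℂ | e ∈ W ∧ ∀ j, ∀ D ∈ DS, D (e j) = 0} := by
  classical
  intro a ha
  let e := Fintype.equivFin J
  let Φ : (Fin (Fintype.card J) → ℂ) ≃ₗ[ℂ] (J → ℂ) := LinearEquiv.funCongrLeft ℂ ℂ e
  have hΦ : ∀ (c : Fin (Fintype.card J) → ℂ) (j : J), Φ c j = c (e j) := fun c j => rfl
  have key := hS (Fintype.card J) (W.comap Φ.toLinearMap) DS (by
    intro D hD c hc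
    have h1 := h D hD (Φ c) hc
    exact h1) (Φ.symm a) (by
      change Φ (Φ.symm a) ∈ W
      rw [LinearEquiv.apply_symm_apply]
      exact ha)
  have h2 : Φ (Φ.symm a) ∈ (Submodule.span ℂ {c : Fin (Fintype.card J) → ℂ |
      c ∈ W.comap Φ.toLinearMap ∧ ∀ j, ∀ D ∈ DS, D (c j) = 0}).map Φ.toLinearMap :=
    ⟨_, key, rfl⟩
  rw [LinearEquiv.apply_symm_apply] at h2
  rw [Submodule.map_span] at h2
  refine Submodule.span_mono ?_ h2
  rintro _ ⟨c, ⟨hc1, hc2⟩, rfl⟩
  refine ⟨hc1, fun j D hD => ?_⟩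
  exact hc2 (e j) D hD

end I_ImgC

open I_ImgC in
theorem ImgC_pf : S_ImgC := by
  classical
  intro n J _ T hT ω hω v hvT E hET hE β hβ
  have hv : ∀ i, v i ∈ E := fun i => (hE (v i)).2 fun δ hδ _ => hvT δ hδ i
  let L : Derivation ℚ ℂ ℂ →ₗ[ℂ] (J → ℂ) := LinearMap.pi fun j => ∑ i, v i • ω i j
  have hL : ∀ δ j, L δ j = ∑ i, v i * ω i j δ := by
    intro δ j
    simp [L, LinearMap.sum_apply]
  set DS : Set (Derivation ℚ ℂ ℂ) := {D | D ∈ T ∧ ∀ j, ∑ i, v i * ω i j D = 0} with hDS
  have hEDS : ∀ c : ℂ, (∀ D ∈ DS, D c = 0) → c ∈ E := fun c hc =>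
    (hE c).2 fun δ hδ ho => hc δ ⟨hδ, ho⟩
  have hDSE : ∀ D ∈ DS, ∀ e ∈ E, D e = 0 := fun D hD e he => (hE e).1 he D hD.1 hD.2
  let I : Submodule ℂ (J → ℂ) := (DK E).map L
  let W : Submodule ℂ (J → ℂ) :=
    { carrier := {a | ∀ u ∈ I, ∑ j, a j * u j = 0}
      add_mem' := by
        intro a a' ha ha' u hu
        have e1 := ha u hu
        have e2 := ha' u hu
        simp only [Pi.add_apply, add_mul, Finset.sum_add_distrib, e1, e2, add_zero]
      zero_mem' := by
        intro u _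
        simp
      smul_mem' := by
        intro c a ha u hu
        have e1 := ha u hu
        have e2 : ∑ j, (c • a) j * u j = c * ∑ j, a j * u j := by
          rw [Finset.mul_sum]
          refine Finset.sum_congr rfl fun j _ => ?_
          simp only [Pi.smul_apply, smul_eq_mul]
          ring
        rw [e2, e1, mul_zero] }
  have hW : ∀ a, a ∈ W ↔ ∀ u ∈ I, ∑ j, a j * u j = 0 := fun a => Iff.rfl
  have hcl : ∀ D ∈ T, ∀ δ ∈ T, ∀ j, D (L δ j) = L ⁅D, δ⁆ j + δ (L D j) := by
    intro D hD δ hδ j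
    rw [hL, hL, hL, map_sum, map_sum, ← Finset.sum_add_distrib]
    refine Finset.sum_congr rfl fun i _ => ?_
    have h := hω i j D hD δ hδ
    rw [Derivation.leibniz, Derivation.leibniz, hvT D hD i, hvT δ hδ i, ← h]
    simp only [smul_eq_mul, mul_zero, add_zero]
    ring
  have hstab : ∀ D ∈ DS, ∀ a ∈ W, (fun j => D (a j)) ∈ W := by
    intro D hD a ha
    rw [hW]
    rintro _ ⟨δ, hδ, rfl⟩
    have hcomm : ⁅D, δ⁆ ∈ DK E := by
      intro e he
      rw [Derivation.commutator_apply, hδ e he, hDSE D hD e he, map_zero, map_zero, sub_zero]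
    have e1 : ∑ j, a j * L δ j = 0 := ha _ ⟨δ, hδ, rfl⟩
    have e2 : ∑ j, a j * L ⁅D, δ⁆ j = 0 := ha _ ⟨⁅D, δ⁆, hcomm, rfl⟩
    have e3 : ∀ j, D (L δ j) = L ⁅D, δ⁆ j := by
      intro j
      have h1 := hcl D hD.1 δ (hET hδ) j
      have h2 : L D j = 0 := by
        rw [hL]
        exact hD.2 j
      rw [h2, map_zero, add_zero] at h1
      exact h1
    have e4 := congrArg D e1
    rw [map_sum, map_zero] at e4
    have e5 : ∑ j, D (a j * L δ j) = ∑ j, D (a j) * L δ j + ∑ j, a j * L ⁅D, δ⁆ j := by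
      rw [← Finset.sum_add_distrib]
      refine Finset.sum_congr rfl fun j _ => ?_
      rw [Derivation.leibniz, e3 j]
      simp only [smul_eq_mul]
      ring
    rw [e5, e2, add_zero] at e4
    exact e4
  have hspan := stab Pool.Agent.Work.MP_327059_nt.GL.pr_Stab J W DS hstab
  -- vectors of `W` are orthogonal to the target
  have horth : ∀ a ∈ W, ∑ j, a j * ∑ i, v i * β i j = 0 := by
    intro a ha
    have hmem := hspan a ha
    let f : (J → ℂ) →ₗ[ℂ] ℂ :=
      { toFun := fun a => ∑ j, a j * ∑ i, v i * β i j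
        map_add' := by
          intro a a'
          simp only [Pi.add_apply, add_mul, Finset.sum_add_distrib]
        map_smul' := by
          intro c a
          simp only [Pi.smul_apply, smul_eq_mul, RingHom.id_apply]
          rw [Finset.mul_sum]
          exact Finset.sum_congr rfl fun j _ => by ring }
    have hle : Submodule.span ℂ {e : J → ℂ | e ∈ W ∧ ∀ j, ∀ D ∈ DS, D (e j) = 0} ≤
        LinearMap.ker f := by
      rw [Submodule.span_le]
      rintro e ⟨heW, heD⟩
      have heE : ∀ j, e j ∈ E := fun j => hEDS _ (heD j)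
      have hsw : ∀ F : Fin n → J → ℂ,
          ∑ j, e j * ∑ i, v i * F i j = ∑ i, ∑ j, v i * e j * F i j := by
        intro F
        rw [Finset.sum_comm]
        refine Finset.sum_congr rfl fun j _ => ?_
        rw [Finset.mul_sum]
        refine Finset.sum_congr rfl fun i _ => ?_
        ring
      have h3 := hβ (fun i j => v i * e j)
        (fun i j => E.mul_mem (hv i) (heE j)) (by
          intro δ hδ
          have h4 : ∑ j, e j * L δ j = 0 := heW _ ⟨δ, hδ, rfl⟩
          simp only [hL] at h4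
          rw [hsw] at h4
          exact h4)
      change ∑ j, e j * ∑ i, v i * β i j = 0
      rw [hsw]
      exact h3
    exact hle hmem
  -- double orthogonal
  have hI : (fun j => ∑ i, v i * β i j) ∈ I := by
    by_contra hnot
    obtain ⟨f, hf1, hf2⟩ := Submodule.exists_le_ker_of_notMem hnot
    apply hf1
    have hfe : ∀ u : J → ℂ, f u = ∑ j, f (fun j' => if j = j' then 1 else 0) * u j := by
      intro u
      rw [LinearMap.pi_apply_eq_sum_univ f u]
      exact Finset.sum_congr rfl fun j _ => by rw [smul_eq_mul, mul_comm]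
    rw [hfe]
    refine horth (fun j => f (fun j' => if j = j' then 1 else 0)) ?_
    rw [hW]
    intro u hu
    rw [← hfe]
    exact hf2 hu
  obtain ⟨δ, hδ, hδL⟩ := hI
  refine ⟨δ, hδ, fun j => ?_⟩
  have h5 := congrFun hδL j
  rw [hL] at h5
  exact h5

end Pool.Agent.Work.MP_8da9ea_nt.MX
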