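import Pool.Agent.Work.MP_8da9ea_nt.MX.StmtsH
import Pool.Agent.Work.MP_8da9ea_nt.EB.I_FinalZ

/-!
# Mixed block, item KillMore (H11): killing more numbers
-/

set_option autoImplicit false

namespace Pool.Agent.Work.MP_8da9ea_nt.MX

open MvPolynomial Pool.Agent.Work.MP_327059_nt.GL Pool.Agent.Work.MP_8da9ea_nt.S
  Pool.Agent.Work.MP_8da9ea_nt.EB

namespace I_KillMore

open Pool.Agent.ED

/-- the rank drops at most by the rank of the killed forms -/
lemma rank_drop {J J' : Type} [Fintype J] [Fintype J'] (S S' : Submodule ℂ (Derivation ℚ ℂ ℂ))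
    (f : Derivation ℚ ℂ ℂ →ₗ[ℂ] (J → ℂ)) (g : Derivation ℚ ℂ ℂ →ₗ[ℂ] (J' → ℂ))
    (hS : ∀ δ ∈ S, g δ = 0 → δ ∈ S') :
    Module.finrank ℂ (S.map f) ≤ Module.finrank ℂ (S.map g) + Module.finrank ℂ (S'.map f) := by
  classical
  rcases Nat.lt_or_ge (Module.finrank ℂ (S.map f)) (Module.finrank ℂ (S.map g)) with h | h
  · omega
  obtain ⟨R, hR⟩ := Nat.exists_eq_add_of_le' h
  have hmap : (⊤ : Submodule ℂ S).map (f ∘ₗ S.subtype) = S.map f := by
    rw [Submodule.map_comp, Submodule.map_top, Submodule.range_subtype]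
  obtain ⟨δ, hδ, hδi⟩ := TG.lin_ker (⊤ : Submodule ℂ S) (f ∘ₗ S.subtype) (g.submoduleMap S) R (by
    rw [hmap]
    exact hR.symm.le)
  have h1 : ∀ s, ((δ s : S) : Derivation ℚ ℂ ℂ) ∈ S' := by
    intro s
    refine hS _ (δ s).2 ?_
    exact congrArg Subtype.val (hδ s).2
  have h2 : LinearIndependent ℂ (fun s => (⟨f ((δ s : S) : Derivation ℚ ℂ ℂ),
      Submodule.mem_map_of_mem (h1 s)⟩ : S'.map f)) := by
    apply LinearIndependent.of_comp (Submodule.subtype _)
    exact hδi
  have h3 := h2.fintype_card_le_finrank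
  rw [Fintype.card_fin] at h3
  omega

end I_KillMore

open I_KillMore Pool.Agent.ED in
theorem KillMore_pf : S_KillMore := by
  classical
  intro M M' a c κ hTr
  obtain ⟨κ', sb, hind, halg⟩ := Pool.Agent.Work.MP_327059_nt.GL.pr_TrBasis (Fin M') c
  refine ⟨κ', ?_, ?_⟩
  · intro s hs
    have h3 := Pool.Agent.Work.MP_327059_nt.GL.pr_TrCount (Fin (κ' + 1)) (Fin κ')
      (fun i => Fin.append (fun i : Fin 0 => i.elim0) c (s i)) (fun i => c (sb i)) hs (fun i => by
        refine Fin.addCases (fun l => l.elim0) (fun l => ?_) (s i)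
        rw [Fin.append_right]
        exact halg l)
    rw [Fintype.card_fin, Fintype.card_fin] at h3
    omega
  intro J _ f ρ hρ
  set c' : Fin (0 + M') → ℂ := Fin.append (fun i : Fin 0 => i.elim0) c with hc'
  set K : IntermediateField ℚ ℂ := IntermediateField.adjoin ℚ (Set.range c) with hK
  obtain ⟨s, hs, hcard⟩ := exists_finset_rank (K := K) a
  -- the rank of the killed forms
  have hd : Module.finrank ℂ ((TT c').map (evDer (K := ℚ) (M := ℂ) a)) ≤ s.card := by
    rw [← hcard]
    refine Submodule.finrank_mono ?_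
    rintro _ ⟨δ, hδ, rfl⟩
    have hδK : ∀ x ∈ K, δ x = 0 := by
      refine der_zero_adjoin (Set.range c) δ ?_
      rintro _ ⟨i, rfl⟩
      have := hδ (Fin.natAdd 0 i)
      rwa [hc', Fin.append_right] at this
    exact Submodule.subset_span ⟨derL K δ hδK, rfl⟩
  have hk : κ' + s.card ≤ κ := by
    by_contra hcon
    push Not at hcon
    have h1 : AlgebraicIndependent ℚ (Sum.elim (fun i : s => a i) (fun i => c (sb i))) := by
      refine hind.sumElim_of_tower (S := K) ?_ hs
      rintro _ ⟨i, rfl⟩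
      exact ⟨⟨c (sb i), IntermediateField.subset_adjoin _ _ ⟨sb i, rfl⟩⟩, rfl⟩
    have hc2 : Fintype.card (Fin (κ + 1)) ≤ Fintype.card (s ⊕ Fin κ') := by
      rw [Fintype.card_fin, Fintype.card_sum, Fintype.card_fin, Fintype.card_coe]
      omega
    obtain ⟨e⟩ := Function.Embedding.nonempty_of_card_le hc2
    refine hTr (fun i => Sum.elim (fun j : s => Fin.castAdd M' (j : Fin M))
      (fun j => Fin.natAdd M (sb j)) (e i)) ?_
    have h2 := h1.comp e e.injective
    convert h2 using 1
    funext i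
    simp only [Function.comp]
    rcases e i with j | j
    · simp only [Sum.elim_inl, Fin.append_left]
    · simp only [Sum.elim_inr, Fin.append_right]
  have hdrop := rank_drop (TT c') (TT (Fin.append a c)) f (evDer (K := ℚ) (M := ℂ) a) (by
    intro δ hδ hδa i
    refine Fin.addCases (fun l => ?_) (fun l => ?_) i
    · rw [Fin.append_left]
      exact congrFun hδa l
    · rw [Fin.append_right]
      have := hδ (Fin.natAdd 0 l)
      rwa [hc', Fin.append_right] at this)
  omega

end Pool.Agent.Work.MP_8da9ea_nt.MX
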