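import Pool.Agent.Work.MP_8da9ea_nt.MX.StmtsG
import Pool.Agent.Work.MP_8da9ea_nt.EB.I_LinAlgK

/-!
# Mixed block, item LinAlgV: linear algebra over a field of algebraic numbers, rational version
-/

set_option autoImplicit false

namespace Pool.Agent.Work.MP_8da9ea_nt.MX

open MvPolynomial Pool.Agent.Work.MP_327059_nt.GL Pool.Agent.Work.MP_8da9ea_nt.S
  Pool.Agent.Work.MP_8da9ea_nt.EB

open Pool.Agent.Work.MP_8da9ea_nt.EB.I_LinAlgK (genK genM gen_det gen_span genRank rankInc doubleAnn
  annExt pair pair_apply)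

namespace I_LinAlgV

/-- The annihilator over the subfield. -/
noncomputable abbrev aF {k : IntermediateField ℚ ℂ} {n m : ℕ} (G : Submodule k (Fin n → Fin m → k)) :
    Submodule k (Fin n → Fin m → k) := Pool.Agent.Work.MP_8da9ea_nt.EB.I_LinAlgK.annF G

/-- the inclusion of rational points -/
noncomputable def rp (k : IntermediateField ℚ ℂ) {n : ℕ} (w : Fin n → ℚ) : Fin n → k :=
  fun i => algebraMap ℚ k (w i)

/-- large rank at rational points -/
theorem ratPoint {k : IntermediateField ℚ ℂ} {n m : ℕ} (B : Submodule k (Fin n → Fin m → k))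
    (w0 : Fin n → k) :
    ∃ v0 : Fin n → ℚ, Module.finrank k (B.map (mv w0)) ≤ Module.finrank k (B.map (mv (rp k v0))) := by
  classical
  let bs := Module.finBasis k B
  let bb : Fin (Module.finrank k B) → Fin n → Fin m → k := fun t => (bs t : Fin n → Fin m → k)
  have hB : B = Submodule.span k (Set.range bb) := by
    have h1 : Submodule.span k (Set.range bb) = (Submodule.span k (Set.range bs)).map B.subtype := by
      rw [Submodule.map_span, ← Set.range_comp]
      rfl
    rw [h1, bs.span_eq, Submodule.map_top, Submodule.range_subtype]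
  have hQ : ∀ w : Fin n → k, Module.finrank k (B.map (mv w)) = (genK k bb w).rank := by
    intro w
    have h1 := gen_span k bb w (genK k bb w) (fun t j => rfl)
    rw [← hB] at h1
    exact h1
  obtain ⟨e, f, hef⟩ := Pool.Agent.RW.exists_minor (genK k bb w0) rfl
  rw [gen_det] at hef
  have h4 : ((genM bb).submatrix e f).det ≠ 0 := by
    intro h0
    rw [h0, map_zero] at hef
    exact hef rfl
  have h5 : ∃ v0 : Fin n → ℚ, eval (rp k v0) ((genM bb).submatrix e f).det ≠ 0 := by
    by_contra hcon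
    push Not at hcon
    apply h4
    refine MvPolynomial.funext_set (fun _ : Fin n => Set.range (algebraMap ℚ k))
      (fun i => Set.infinite_range_of_injective (algebraMap ℚ k).injective) (fun x hx => ?_)
    rw [map_zero]
    have h6 : ∀ i, ∃ q : ℚ, algebraMap ℚ k q = x i := fun i => hx i (Set.mem_univ i)
    choose q hq using h6
    have h7 : x = rp k q := by
      funext i
      exact (hq i).symm
    rw [h7]
    exact hcon q
  obtain ⟨v0, hv0⟩ := h5
  refine ⟨v0, ?_⟩
  rw [hQ, hQ]
  apply Pool.Agent.RW.le_rank_of_minor (e := e) (f := f)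
  rw [gen_det]
  exact hv0

/-- the conjugate vector -/
noncomputable def cj {m : ℕ} (d : Fin m → ℂ) : Fin m → ℂ := fun j => (starRingEnd ℂ) (d j)

theorem cj_cj {m : ℕ} (d : Fin m → ℂ) : cj (cj d) = d := by
  funext j
  simp [cj]

theorem finrank_conj_le {m : ℕ} (S T : Submodule ℂ (Fin m → ℂ)) (h : ∀ d, d ∈ S ↔ cj d ∈ T) :
    Module.finrank ℂ S ≤ Module.finrank ℂ T := by
  let f : S →ₗ[ℝ] T :=
    { toFun := fun x => ⟨cj (x : Fin m → ℂ), (h _).1 x.2⟩
      map_add' := fun a b => by
        apply Subtype.ext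
        funext j
        simp [cj]
      map_smul' := fun r a => by
        apply Subtype.ext
        funext j
        simp [cj] }
  have hf : Function.Injective f := by
    intro a b hab
    apply Subtype.ext
    have h1 : cj (a : Fin m → ℂ) = cj (b : Fin m → ℂ) := congrArg Subtype.val hab
    rw [← cj_cj (a : Fin m → ℂ), h1, cj_cj]
  have h2 := LinearMap.finrank_le_finrank_of_injective hf
  rw [finrank_real_of_complex, finrank_real_of_complex] at h2
  omega

theorem finrank_conj {m : ℕ} (S T : Submodule ℂ (Fin m → ℂ)) (h : ∀ d, d ∈ S ↔ cj d ∈ T) :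
    Module.finrank ℂ S = Module.finrank ℂ T := by
  apply le_antisymm (finrank_conj_le S T h)
  apply finrank_conj_le T S
  intro d
  rw [h, cj_cj]

/-- the conjugate annihilator -/
theorem mem_annB_map {k : IntermediateField ℚ ℂ} {n m : ℕ} (G : Submodule k (Fin n → Fin m → k))
    (v : Fin n → ℂ) (d : Fin m → ℂ) :
    d ∈ (annB G).map (mv v) ↔ cj d ∈ (annK G).map (mv (cj v)) := by
  have key : ∀ (β : Fin n → Fin m → ℂ), β ∈ annB G ↔ (fun i => cj (β i)) ∈ annK G := by
    intro β
    have h0 : ∀ ξ : Fin n → Fin m → k, (starRingEnd ℂ) (∑ i, ∑ j, (starRingEnd ℂ) (ξ i j : ℂ) * β i j) =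
        ∑ i, ∑ j, (ξ i j : ℂ) * cj (β i) j := by
      intro ξ
      simp [cj]
    constructor
    · intro h ξ hξ
      have h1 : ∑ i, ∑ j, (starRingEnd ℂ) (ξ i j : ℂ) * β i j = 0 := h ξ hξ
      rw [← h0 ξ, h1, map_zero]
    · intro h ξ hξ
      have h1 : ∑ i, ∑ j, (ξ i j : ℂ) * cj (β i) j = 0 := h ξ hξ
      rw [← h0 ξ] at h1
      exact (map_eq_zero _).1 h1
  have key2 : ∀ (β : Fin n → Fin m → ℂ), cj (mv v β) = mv (cj v) (fun i => cj (β i)) := by
    intro β
    funext j
    simp [cj, mv]
  constructor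
  · rintro ⟨β, hβ, rfl⟩
    refine ⟨fun i => cj (β i), (key β).1 hβ, ?_⟩
    rw [key2]
  · rintro ⟨β, hβ, hd⟩
    refine ⟨fun i => cj (β i), (key _).2 ?_, ?_⟩
    · have h1 : (fun i => cj (cj (β i))) = β := by
        funext i
        exact cj_cj _
      show (fun i => cj ((fun i => cj (β i)) i)) ∈ annK G
      rw [h1]
      exact hβ
    · have h2 := key2 (fun i => cj (β i))
      have h1 : (fun i => cj ((fun i => cj (β i)) i)) = β := by
        funext i
        exact cj_cj _
      rw [h1, hd] at h2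
      rw [← cj_cj (mv v fun i => cj (β i)), h2, cj_cj]

/-- generic rank: independent of the generic point, attained at a rational point -/
theorem generic {k : IntermediateField ℚ ℂ} [Algebra.IsAlgebraic ℚ k] {n m : ℕ}
    (G : Submodule k (Fin n → Fin m → k)) :
    ∃ v0 : Fin n → ℚ,
      (∀ w : Fin n → k, Module.finrank k ((aF G).map (mv w)) ≤
        Module.finrank k ((aF G).map (mv (rp k v0)))) ∧
      ∀ v : Fin n → ℂ, AlgebraicIndependent ℚ v →
        ugK G v = Module.finrank k ((aF G).map (mv (rp k v0))) := by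
  classical
  -- a point of maximal rank
  have hmax : ∃ w0 : Fin n → k, ∀ w : Fin n → k,
      Module.finrank k ((aF G).map (mv w)) ≤ Module.finrank k ((aF G).map (mv w0)) := by
    by_contra hcon
    push Not at hcon
    have h1 : ∀ N : ℕ, ∃ w : Fin n → k, N ≤ Module.finrank k ((aF G).map (mv w)) := by
      intro N
      induction N with
      | zero => exact ⟨0, Nat.zero_le _⟩
      | succ N ih =>
        obtain ⟨w, hw⟩ := ih
        obtain ⟨w', hw'⟩ := hcon w
        exact ⟨w', by omega⟩
    obtain ⟨w, hw⟩ := h1 (m + 1)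
    have h2 := Submodule.finrank_le ((aF G).map (mv w))
    rw [Module.finrank_fin_fun] at h2
    omega
  obtain ⟨w0, hw0⟩ := hmax
  obtain ⟨v0, hv0⟩ := ratPoint (aF G) w0
  refine ⟨v0, fun w => (hw0 w).trans hv0, fun v hv => ?_⟩
  have hv' : AlgebraicIndependent k v := hv.extendScalars k
  obtain ⟨⟨w1, hw1⟩, hle⟩ := genRank (aF G) v hv' (ugK G v) (by rw [← annExt G]; rfl)
  apply le_antisymm
  · rw [← hw1]
    exact (hw0 w1).trans hv0
  · exact hle _

/-- a vector orthogonal to the annihilator of `U` is in the complex span of `U` -/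
theorem oneD {k : IntermediateField ℚ ℂ} {m : ℕ} (U : Submodule k (Fin m → k)) (d : Fin m → ℂ)
    (hd : ∀ c : Fin m → k, (∀ x ∈ U, ∑ j, c j * x j = 0) → ∑ j, (c j : ℂ) * d j = 0) :
    d ∈ Submodule.span ℂ {y : Fin m → ℂ | ∃ x ∈ U, y = fun j => (x j : ℂ)} := by
  classical
  let p0 : (Fin 1 → Fin m → k) →ₗ[k] (Fin m → k) := LinearMap.proj 0
  let q0 : (Fin 1 → Fin m → ℂ) →ₗ[ℂ] (Fin m → ℂ) := LinearMap.proj 0
  let G' : Submodule k (Fin 1 → Fin m → k) := U.comap p0
  have h1 : (fun _ : Fin 1 => d) ∈ annK (aF G') := by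
    intro ξ hξ
    have h2 : ∀ x ∈ U, ∑ j, ξ 0 j * x j = 0 := by
      intro x hx
      have h3 : (fun _ : Fin 1 => x) ∈ G' := hx
      have h4 : ∑ i : Fin 1, ∑ j, x j * ξ i j = 0 := hξ _ h3
      rw [Fin.sum_univ_one] at h4
      rw [← h4]
      exact Finset.sum_congr rfl fun j _ => mul_comm _ _
    have h5 := hd (ξ 0) h2
    show ∑ i : Fin 1, ∑ j, (ξ i j : ℂ) * d j = 0
    rw [Fin.sum_univ_one]
    exact h5
  rw [annExt] at h1
  have h6 := Submodule.mem_map_of_mem (f := q0) h1
  rw [Submodule.map_span] at h6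
  refine Submodule.span_mono ?_ h6
  rintro _ ⟨b, ⟨b0, hb0, rfl⟩, rfl⟩
  refine ⟨b0 0, ?_, rfl⟩
  have h7 : b0 ∈ G' := by
    apply doubleAnn G' b0
    intro ξ hξ
    have h8 : ∑ i : Fin 1, ∑ j, ξ i j * b0 i j = 0 := hb0 ξ hξ
    rw [← h8]
    exact Finset.sum_congr rfl fun i _ => Finset.sum_congr rfl fun j _ => mul_comm _ _
  exact h7

theorem pair_surj {k : Type} [Field k] {m : ℕ} (U : Submodule k (Fin m → k)) :
    Function.Surjective (pair U) := by
  classical
  intro f
  obtain ⟨g, hg⟩ := f.exists_extend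
  refine ⟨fun j => g (Pi.single j 1), ?_⟩
  ext x
  rw [pair_apply]
  have h1 : (x : Fin m → k) = ∑ j, (x : Fin m → k) j • (Pi.single j 1 : Fin m → k) := by
    funext i
    simp [Finset.sum_apply, Pi.single_apply]
  have h2 : f x = g (x : Fin m → k) := by
    rw [← hg]
    rfl
  rw [h2]
  conv_rhs => rw [h1]
  rw [map_sum]
  refine Finset.sum_congr rfl fun j _ => ?_
  rw [map_smul, smul_eq_mul, mul_comm]

/-- evaluation at rational points, as a rational linear map -/
noncomputable def evQ {k : IntermediateField ℚ ℂ} {n m : ℕ} (b : Fin n → Fin m → k) :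
    (Fin n → ℚ) →ₗ[ℚ] (Fin m → k) where
  toFun w := mv (rp k w) b
  map_add' x y := by
    funext j
    change ∑ i, rp k (x + y) i * b i j = ∑ i, rp k x i * b i j + ∑ i, rp k y i * b i j
    simp only [rp, Pi.add_apply, map_add, add_mul, Finset.sum_add_distrib]
  map_smul' c x := by
    funext j
    change ∑ i, rp k (c • x) i * b i j = c • ∑ i, rp k x i * b i j
    rw [Finset.smul_sum]
    refine Finset.sum_congr rfl fun i _ => ?_
    simp only [rp, Pi.smul_apply, smul_eq_mul, map_mul, Algebra.smul_def]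
    ring

theorem mv_coe {k : IntermediateField ℚ ℂ} {n m : ℕ} (β : Fin n → Fin m → k) (v0 w : Fin n → ℚ)
    (s : ℂ) : mv (fun i => (v0 i : ℂ) + s * (w i : ℂ)) (fun i j => (β i j : ℂ)) =
      fun j => ((mv (rp k v0) β j : k) : ℂ) + s * ((mv (rp k w) β j : k) : ℂ) := by
  funext j
  simp only [mv, LinearMap.coe_mk, AddHom.coe_mk, rp]
  push_cast
  rw [Finset.mul_sum, ← Finset.sum_add_distrib]
  refine Finset.sum_congr rfl fun i _ => ?_
  have h1 : ∀ q : ℚ, ((algebraMap ℚ k q : k) : ℂ) = (q : ℂ) := fun q => by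
    simp
  rw [h1, h1]
  ring

end I_LinAlgV

open I_LinAlgV

theorem LinAlgV_pf : S_LinAlgV := by
  classical
  intro k hkfin hk2 hconj n m G v hv
  have halg : Algebra.IsAlgebraic ℚ k := Algebra.IsAlgebraic.of_finite ℚ k
  obtain ⟨v0, hmaxv, hgen⟩ := generic G
  set U : Submodule k (Fin m → k) := (aF G).map (mv (rp k v0)) with hU
  have hR := rankInc (aF G) (rp k v0) hmaxv
  let Cs : Submodule k (Fin m → k) := LinearMap.ker (pair U)
  have hCmem : ∀ c : Fin m → k, c ∈ Cs ↔ ∀ x ∈ U, ∑ j, c j * x j = 0 := by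
    intro c
    constructor
    · intro hc x hx
      have h1 : pair U c = 0 := hc
      rw [← pair_apply U c ⟨x, hx⟩, h1]
      rfl
    · intro h
      show pair U c = 0
      refine LinearMap.ext fun x => ?_
      rw [pair_apply]
      exact h x x.2
  have hCs : Module.finrank k Cs + Module.finrank k U = m := by
    have h5 := LinearMap.finrank_range_add_finrank_ker (pair U)
    rw [LinearMap.range_eq_top.2 (pair_surj U), finrank_top, Subspace.dual_finrank_eq,
      Module.finrank_fin_fun] at h5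
    change Module.finrank k (LinearMap.ker (pair U)) + _ = _
    omega
  have hug : ugK G v = Module.finrank k U := hgen v hv
  have hcv : AlgebraicIndependent ℚ (cj v) := by
    have h1 : AlgebraicIndependent ℚ ((Complex.conjAe.toAlgHom.restrictScalars ℚ) ∘ v) :=
      hv.map' (f := Complex.conjAe.toAlgHom.restrictScalars ℚ) Complex.conjAe.injective
    exact h1
  have hB : Module.finrank ℂ ((annB G).map (mv v)) = Module.finrank k U := by
    rw [finrank_conj _ _ (mem_annB_map G v)]
    exact hgen (cj v) hcv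
  -- basis vectors
  let bs := Module.finBasis k U
  have hb : ∀ l, ∃ b ∈ aF G, mv (rp k v0) b = ((bs l : U) : Fin m → k) := by
    intro l
    have h7 : ((bs l : U) : Fin m → k) ∈ (aF G).map (mv (rp k v0)) := (bs l).2
    obtain ⟨b, hbB, hbe⟩ := Submodule.mem_map.1 h7
    exact ⟨b, hbB, hbe⟩
  choose b hbB hbe using hb
  let Φ : (Fin n → ℚ) →ₗ[ℚ] (Fin (Module.finrank k U) → (Fin m → k)) :=
    LinearMap.pi (fun l => evQ (b l))
  let V : Submodule ℚ (Fin n → ℚ) := LinearMap.ker Φ
  have hum : Module.finrank k U ≤ m := by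
    have := Submodule.finrank_le U
    rwa [Module.finrank_fin_fun] at this
  have hV : n ≤ Module.finrank ℚ V + 2 * (m * m) := by
    have h5 := LinearMap.finrank_range_add_finrank_ker Φ
    have h6 : Module.finrank ℚ (LinearMap.range Φ) ≤
        Module.finrank ℚ (Fin (Module.finrank k U) → (Fin m → k)) := Submodule.finrank_le _
    rw [Module.finrank_pi_fintype, Module.finrank_pi_fintype] at h6
    simp only [Finset.sum_const, Finset.card_univ, Fintype.card_fin, smul_eq_mul] at h6
    have h8 : Module.finrank k U * (m * Module.finrank ℚ k) ≤ m * (m * 2) :=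
      Nat.mul_le_mul hum (Nat.mul_le_mul le_rfl hk2)
    rw [Module.finrank_fin_fun] at h5
    change _ ≤ Module.finrank ℚ (LinearMap.ker Φ) + _
    have h9 : m * (m * 2) = 2 * (m * m) := by ring
    omega
  have hV0 : ∀ w ∈ V, ∀ l, mv (rp k w) (b l) = 0 := by
    intro w hw l
    have h9 : Φ w = 0 := hw
    exact congrFun h9 l
  have hlift : ∀ x ∈ U, ∃ β ∈ aF G, mv (rp k v0) β = x ∧ ∀ w ∈ V, mv (rp k w) β = 0 := by
    intro x hx
    let c := bs.repr ⟨x, hx⟩
    refine ⟨∑ l, c l • b l, Submodule.sum_mem _ fun l _ => (aF G).smul_mem _ (hbB l), ?_,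
      fun w hw => ?_⟩
    · rw [map_sum]
      have h11 := bs.sum_repr ⟨x, hx⟩
      have h12 : U.subtype (∑ l, c l • bs l) = x := by
        rw [show (∑ l, c l • bs l) = ⟨x, hx⟩ from h11]; rfl
      rw [map_sum] at h12
      rw [← h12]
      exact Finset.sum_congr rfl fun l _ => by rw [map_smul, map_smul, hbe l]; rfl
    · rw [map_sum]
      exact Finset.sum_eq_zero fun l _ => by rw [map_smul, hV0 w hw l, smul_zero]
  have hVmem : ∀ w ∈ V, ∀ β ∈ aF G, mv (rp k w) β ∈ U := by
    intro w hw β hβ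
    obtain ⟨β1, hβ1, h1, h2⟩ := hlift (mv (rp k v0) β) (Submodule.mem_map_of_mem hβ)
    have h3 : mv (rp k v0) (β - β1) = 0 := by rw [map_sub, h1, sub_self]
    have h4 := hR (β - β1) ((aF G).sub_mem hβ hβ1) h3 (rp k w)
    rw [map_sub, h2 w hw, sub_zero] at h4
    exact h4
  have hcore : ∀ w ∈ V, ∀ s : ℂ, ∀ d : Fin m → ℂ,
      (d ∈ (annK G).map (mv fun i => (v0 i : ℂ) + s * (w i : ℂ)) ↔
        ∀ c ∈ Cs, ∑ j, (c j : ℂ) * d j = 0) := by
    intro w hw s d
    constructor
    · intro hd c hc
      let D : Submodule ℂ (Fin m → ℂ) :=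
        { carrier := {y | ∑ j, (c j : ℂ) * y j = 0}
          add_mem' := fun {a b} ha hb => by
            have h1 : ∑ j, (c j : ℂ) * (a + b) j = ∑ j, (c j : ℂ) * a j + ∑ j, (c j : ℂ) * b j := by
              rw [← Finset.sum_add_distrib]
              exact Finset.sum_congr rfl fun j _ => by rw [Pi.add_apply]; ring
            show ∑ j, (c j : ℂ) * (a + b) j = 0
            rw [h1, show ∑ j, (c j : ℂ) * a j = 0 from ha, show ∑ j, (c j : ℂ) * b j = 0 from hb,
              add_zero]
          zero_mem' := by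
            show ∑ j, (c j : ℂ) * (0 : Fin m → ℂ) j = 0
            simp
          smul_mem' := fun r a ha => by
            have h1 : ∑ j, (c j : ℂ) * (r • a) j = r * ∑ j, (c j : ℂ) * a j := by
              rw [Finset.mul_sum]
              exact Finset.sum_congr rfl fun j _ => by rw [Pi.smul_apply, smul_eq_mul]; ring
            show ∑ j, (c j : ℂ) * (r • a) j = 0
            rw [h1, show ∑ j, (c j : ℂ) * a j = 0 from ha, mul_zero] }
      have hD : (annK G).map (mv fun i => (v0 i : ℂ) + s * (w i : ℂ)) ≤ D := by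
        rw [annExt, Submodule.map_span, Submodule.span_le]
        rintro _ ⟨_, ⟨β, hβ, rfl⟩, rfl⟩
        show ∑ j, (c j : ℂ) * (mv (fun i => (v0 i : ℂ) + s * (w i : ℂ))
          (fun i j => (β i j : ℂ))) j = 0
        rw [mv_coe]
        have h1 := (hCmem c).1 hc _ (Submodule.mem_map_of_mem (f := mv (rp k v0)) hβ)
        have h2 := (hCmem c).1 hc _ (hVmem w hw β hβ)
        have h3 := congrArg (fun q : k => (q : ℂ)) h1
        have h4 := congrArg (fun q : k => (q : ℂ)) h2
        push_cast at h3 h4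
        have h5 : ∑ j, (c j : ℂ) * (((mv (rp k v0) β j : k) : ℂ) + s * ((mv (rp k w) β j : k) : ℂ)) =
            ∑ j, (c j : ℂ) * ((mv (rp k v0) β j : k) : ℂ) +
            s * ∑ j, (c j : ℂ) * ((mv (rp k w) β j : k) : ℂ) := by
          rw [Finset.mul_sum, ← Finset.sum_add_distrib]
          exact Finset.sum_congr rfl fun j _ => by ring
        rw [h5, h3, h4, mul_zero, add_zero]
      exact hD hd
    · intro h
      have h1 := oneD U d (fun c hc => h c ((hCmem c).2 hc))
      refine (Submodule.span_le.2 ?_) h1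
      rintro _ ⟨x, hx, rfl⟩
      obtain ⟨β, hβ, h2, h3⟩ := hlift x hx
      refine ⟨fun i j => (β i j : ℂ), ?_, ?_⟩
      · rw [SetLike.mem_coe, annExt]
        exact Submodule.subset_span ⟨β, hβ, rfl⟩
      · rw [mv_coe, h2, h3 w hw]
        funext j
        simp
  refine ⟨Cs, V, v0, ?_, ?_, hV, fun c hc w hw => ?_, fun w hw s d => ?_⟩
  · rw [hug]
    exact hCs
  · rw [hB]
    exact hCs
  · refine doubleAnn G (fun i j => (algebraMap ℚ k (w i)) * c j) (fun β hβ => ?_)
    have h15 := (hCmem c).1 hc _ (hVmem w hw β hβ)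
    rw [Finset.sum_comm, ← h15]
    refine Finset.sum_congr rfl fun j _ => ?_
    change _ = c j * ∑ i, rp k w i * β i j
    rw [Finset.mul_sum]
    exact Finset.sum_congr rfl fun i _ => by simp only [rp]; ring
  · rw [mem_annB_map]
    have h1 : cj (fun i => (v0 i : ℂ) + s * (w i : ℂ)) =
        fun i => (v0 i : ℂ) + (starRingEnd ℂ) s * (w i : ℂ) := by
      funext i
      simp [cj]
    rw [h1, hcore w hw]
    refine forall_congr' fun c => forall_congr' fun _ => ?_
    have h2 : (starRingEnd ℂ) (∑ j, (starRingEnd ℂ) (c j : ℂ) * d j) = ∑ j, (c j : ℂ) * cj d j := by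
      simp [cj]
    rw [← h2, map_eq_zero]

end Pool.Agent.Work.MP_8da9ea_nt.MX
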