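import Pool.Agent.Work.MP_8da9ea_nt.MX.StmtsG
import Pool.Agent.Work.MP_8da9ea_nt.EB.I_RedNT

/-!
# Mixed block, item MixRank: the ranks at rational points
-/

set_option autoImplicit false

namespace Pool.Agent.Work.MP_8da9ea_nt.MX

open MvPolynomial Pool.Agent.Work.MP_327059_nt.GL Pool.Agent.Work.MP_8da9ea_nt.S
  Pool.Agent.Work.MP_8da9ea_nt.EB

namespace I_MixRank

/-- The forms at a rational combination of the `x_i`. -/
lemma FO_comb (h : S_FOadd) (f : Bool) {τ μ : ℂ} (α : ℂ) (hN : Nrm τ μ) {n m : ℕ} (b : Fin m → ℂ)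
    (x : Fin n → ℂ) (w : Fin n → ℚ) (o : J3 m) (δ : Derivation ℚ ℂ ℂ) :
    FO f τ μ α b (∑ i, (w i : ℂ) * x i) o δ = ∑ i, (w i : ℂ) * FO f τ μ α b (x i) o δ := by
  let g : ℂ →+ ℂ := AddMonoidHom.mk' (fun y => FO f τ μ α b y o δ) (fun y y' => by
    change FO f τ μ α b (y + y') o δ = FO f τ μ α b y o δ + FO f τ μ α b y' o δ
    rw [h f τ μ α hN m b o y y', LinearMap.add_apply])
  have hg : ∀ u, g u = FO f τ μ α b u o δ := fun u => rfl
  rw [← hg, map_sum]
  refine Finset.sum_congr rfl fun i _ => ?_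
  have h1 := g.toRatLinearMap.map_smul (w i) (x i)
  rw [Rat.smul_def, Rat.smul_def] at h1
  exact h1

lemma comp_eq (h : S_FOadd) (f : Bool) {τ μ : ℂ} (α : ℂ) (hN : Nrm τ μ) {n m : ℕ} (b : Fin m → ℂ)
    (x : Fin n → ℂ) (w : Fin n → ℚ) :
    (mvJ fun i => (w i : ℂ)).comp (LinearMap.pi fun i => fam (FO f τ μ α b (x i))) =
      fam (FO f τ μ α b (∑ i, (w i : ℂ) * x i)) := by
  refine LinearMap.ext fun δ => ?_
  funext o
  exact (FO_comb h f α hN b x w o δ).symm

/-- `FO false` from `mixA`. -/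
noncomputable def EA (m : ℕ) : (Option (Fin m ⊕ Fin m) → ℂ) →ₗ[ℂ] (J3 m → ℂ) where
  toFun β := fun o => o.elim (β none) (Sum.elim (fun j => β (some (Sum.inl j)))
    (Sum.elim (fun j => β (some (Sum.inr j))) (fun _ => 0)))
  map_add' a b := by
    funext o
    rcases o with _ | (j | (j | j))
    · rfl
    · rfl
    · rfl
    · exact (add_zero (0 : ℂ)).symm
  map_smul' c a := by
    funext o
    rcases o with _ | (j | (j | j))
    · rfl
    · rfl
    · rfl
    · exact (mul_zero c).symm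

/-- `FO true` from `mixB`, on the derivations killing `b`. -/
noncomputable def EB' (α : ℂ) {m : ℕ} (b : Fin m → ℂ) : (J3 m → ℂ) →ₗ[ℂ] (J3 m → ℂ) where
  toFun β := fun o => o.elim (β none) (Sum.elim (fun j => β (some (Sum.inl j)))
    (Sum.elim (fun j => β (some (Sum.inr (Sum.inl j))))
      (fun j => β (some (Sum.inr (Sum.inr j))) +
        α * (β (some (Sum.inr (Sum.inl j))) - b j * β none))))
  map_add' a c := by
    funext o
    rcases o with _ | (j | (j | j))
    · rfl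
    · rfl
    · rfl
    · simp only [Option.elim_some, Sum.elim_inr, Pi.add_apply]
      ring
  map_smul' c a := by
    funext o
    rcases o with _ | (j | (j | j))
    · rfl
    · rfl
    · rfl
    · simp only [Option.elim_some, Sum.elim_inr, Pi.smul_apply, smul_eq_mul, RingHom.id_apply]
      ring

lemma rankA (τ μ α : ℂ) {m : ℕ} (b : Fin m → ℂ) (z : ℂ) :
    Module.finrank ℂ ((TT b).map (fam (FO false τ μ α b z))) ≤
      Module.finrank ℂ ((TT b).map (fam (mixA τ μ b z))) := by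
  have h1 : (TT b).map (fam (FO false τ μ α b z)) ≤
      ((TT b).map (fam (mixA τ μ b z))).map (EA m) := by
    rintro _ ⟨δ, hδ, rfl⟩
    refine ⟨fam (mixA τ μ b z) δ, ⟨δ, hδ, rfl⟩, ?_⟩
    funext o
    rcases o with _ | (j | (j | j))
    · rfl
    · rfl
    · rfl
    · rfl
  exact (Submodule.finrank_mono h1).trans (Submodule.finrank_map_le _ _)

lemma rankB {τ μ : ℂ} (α : ℂ) (hμ : μ ≠ 0) {m : ℕ} (b : Fin m → ℂ) (z : ℂ)
    (hz : ∀ j, μ * (b j * z) ∉ Lam τ) :
    Module.finrank ℂ ((TT b).map (fam (FO true τ μ α b z))) ≤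
      Module.finrank ℂ ((TT b).map (fam (mixB τ μ b z))) := by
  have h1 : (TT b).map (fam (FO true τ μ α b z)) ≤
      ((TT b).map (fam (mixB τ μ b z))).map (EB' α b) := by
    rintro _ ⟨δ, hδ, rfl⟩
    refine ⟨fam (mixB τ μ b z) δ, ⟨δ, hδ, rfl⟩, ?_⟩
    have hb : ∀ j, δ (b j) = 0 := hδ
    funext o
    rcases o with _ | (j | (j | j))
    · rfl
    · rfl
    · rfl
    · have h2 : δ (μ * (b j * z) / μ) = b j * δ z := by
        rw [mul_div_cancel_left₀ _ hμ, Derivation.leibniz, hb j, smul_zero, add_zero, smul_eq_mul]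
      have h3 : etC τ μ δ (μ * (b j * z)) = etf τ μ δ (μ * (b j * z)) := by
        unfold etC
        rw [if_neg (hz j)]
      change etf τ μ δ (μ * (b j * z)) + α * (lam τ μ δ (μ * (b j * z)) - b j * δ z) =
        etT τ μ α δ (μ * (b j * z))
      unfold etT
      rw [h2, h3]
  exact (Submodule.finrank_mono h1).trans (Submodule.finrank_map_le _ _)

/-- A linear form avoiding the lattice points. -/
lemma form {n : ℕ} (hn : 3 ≤ n) (τ : ℂ) {c : ℂ} (hc : c ≠ 0) {x : Fin n → ℂ}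
    (hx : LinearIndependent ℚ x) : ∃ L : MvPolynomial (Fin n) ℂ, L ≠ 0 ∧ L.totalDegree ≤ 1 ∧
      ∀ w : Fin n → ℚ, eval (fun i => (w i : ℂ)) L ≠ 0 → c * ∑ i, (w i : ℂ) * x i ∉ Lam τ := by
  have hlt : I_RedNT.VV τ c x < ⊤ := by
    rw [lt_top_iff_ne_top]
    intro htop
    have h1 := I_RedNT.VV_finrank τ hc hx
    rw [htop, finrank_top, Module.finrank_fin_fun] at h1
    omega
  obtain ⟨l, hl, hle⟩ := Submodule.exists_le_ker_of_lt_top _ hlt
  have hlw : ∀ w : Fin n → ℚ, l w = ∑ i, w i * l (Pi.single i 1) := by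
    intro w
    have h1 : w = ∑ i, w i • (Pi.single i 1 : Fin n → ℚ) := by
      funext j
      rw [Finset.sum_apply]
      simp [Pi.single_apply]
    conv_lhs => rw [h1]
    rw [map_sum]
    exact Finset.sum_congr rfl fun i _ => by rw [map_smul, smul_eq_mul]
  let L : MvPolynomial (Fin n) ℂ := ∑ i, C ((l (Pi.single i 1) : ℚ) : ℂ) * X i
  have hev : ∀ w : Fin n → ℚ, eval (fun i => (w i : ℂ)) L = ((l w : ℚ) : ℂ) := by
    intro w
    rw [hlw w, map_sum]
    push_cast
    refine Finset.sum_congr rfl fun i _ => ?_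
    rw [map_mul, eval_C, eval_X, mul_comm]
  refine ⟨L, ?_, ?_, ?_⟩
  · intro h0
    apply hl
    refine LinearMap.ext fun w => ?_
    have h1 := hev w
    rw [h0, map_zero] at h1
    rw [LinearMap.zero_apply]
    exact_mod_cast h1.symm
  · have h1 : L.IsHomogeneous 1 := MvPolynomial.IsHomogeneous.sum _ _ _ fun i _ =>
      MvPolynomial.isHomogeneous_C_mul_X _ _
    exact h1.totalDegree_le
  · intro w hw hmem
    apply hw
    rw [hev w]
    have h1 : w ∈ I_RedNT.VV τ c x := by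
      rw [I_RedNT.VV, Submodule.mem_comap, I_RedNT.phi_apply]
      obtain ⟨p, q, hpq⟩ := mem_Lam.1 hmem
      rw [hpq, Submodule.mem_span_pair]
      exact ⟨p, q, by simp [Rat.smul_def]⟩
    have h2 := hle h1
    rw [LinearMap.mem_ker] at h2
    rw [h2, Rat.cast_zero]

/-- The polynomial for the forms `FO f`. -/
lemma poly (h1 : S_GCoreM) (h2 : S_GPM) (h3 : S_FOadd) (f : Bool) (Q m : ℕ) :
    ∃ n₀ : ℕ, ∀ (τ μ α : ℂ) (b : Fin m → ℂ), Nrm τ μ → Alp τ μ α → FT Q b → KLI τ b →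
    ∀ n : ℕ, n₀ ≤ n → ∀ x : Fin n → ℂ, LinearIndependent ℚ x → ∀ κ : ℕ, TrLe κ b →
    ∃ P : MvPolynomial (Fin n) ℂ, P ≠ 0 ∧ P.totalDegree ≤ tgt f m - κ ∧
      ∀ w : Fin n → ℚ, eval (fun i => (w i : ℂ)) P ≠ 0 →
        tgt f m ≤ κ + Module.finrank ℂ ((TT b).map (fam (FO f τ μ α b
          (∑ i, (w i : ℂ) * x i)))) := by
  obtain ⟨n₀, hn₀⟩ := h1 f Q m
  refine ⟨n₀, fun τ μ α b hN hα hF hK n hn x hx κ hκ => ?_⟩
  obtain ⟨v, hv⟩ := hn₀ τ μ α b hN hα hF hK n hn x hx κ hκ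
  have hle : tgt f m - κ ≤ Module.finrank ℂ ((TT b).map
      ((mvJ v).comp (LinearMap.pi fun i => fam (FO f τ μ α b (x i))))) := by
    have h4 : rkM f τ μ α b x v ≤ Module.finrank ℂ ((TT b).map
        ((mvJ v).comp (LinearMap.pi fun i => fam (FO f τ μ α b (x i))))) :=
      Submodule.finrank_mono (Submodule.map_mono inf_le_right)
    omega
  obtain ⟨P, hP0, hPh, hP⟩ := h2 n (tgt f m - κ) (J3 m) (TT b)
    (fun i => FO f τ μ α b (x i)) v hle
  refine ⟨P, hP0, hPh.totalDegree_le, fun w hw => ?_⟩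
  have h5 := hP _ hw
  rw [comp_eq h3 f α hN b x w] at h5
  omega

end I_MixRank

open I_MixRank in
theorem MixRank_pf (h1 : S_GCoreM) (h2 : S_GPM) (h3 : S_FOadd) (h4 : S_EtT) : S_MixRank := by
  intro Q m
  obtain ⟨n₁, hn₁⟩ := poly h1 h2 h3 false Q m
  obtain ⟨n₂, hn₂⟩ := poly h1 h2 h3 true Q m
  refine ⟨max (max n₁ n₂) 3, fun τ μ b hN hF hK n hn x hx κ hκ => ?_⟩
  obtain ⟨α, hα⟩ := h4 τ μ hN
  obtain ⟨P₁, hP₁0, hP₁d, hP₁⟩ := hn₁ τ μ α b hN hα hF hK n
    ((le_max_left _ _).trans ((le_max_left _ _).trans hn)) x hx κ hκ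
  obtain ⟨P₂, hP₂0, hP₂d, hP₂⟩ := hn₂ τ μ α b hN hα hF hK n
    ((le_max_right _ _).trans ((le_max_left _ _).trans hn)) x hx κ hκ
  have hb : ∀ j, b j ≠ 0 := by
    intro j hj
    have h5 := hK (Pi.single j 1) (fun i => by
      rcases eq_or_ne i j with rfl | hij
      · rw [Pi.single_eq_same]
        refine ⟨1, one_ne_zero, ?_, ?_⟩
        · exact mem_Lam.2 ⟨1, 0, by simp⟩
        · exact mem_Lam.2 ⟨0, 1, by simp⟩
      · rw [Pi.single_eq_of_ne hij]
        refine ⟨1, one_ne_zero, ?_, ?_⟩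
        · exact mem_Lam.2 ⟨0, 0, by simp⟩
        · exact mem_Lam.2 ⟨0, 0, by simp⟩) (by
      refine Finset.sum_eq_zero fun i _ => ?_
      rcases eq_or_ne i j with rfl | hij
      · rw [hj, mul_zero]
      · rw [Pi.single_eq_of_ne hij, zero_mul])
    have h6 := congrFun h5 j
    rw [Pi.single_eq_same] at h6
    exact one_ne_zero h6
  choose L hL0 hLd hL using fun j => form ((le_max_right _ _).trans hn) τ
    (mul_ne_zero hN.mu (hb j)) hx
  refine ⟨P₁ * P₂ * ∏ j, L j, ?_, ?_, ?_⟩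
  · exact mul_ne_zero (mul_ne_zero hP₁0 hP₂0) (Finset.prod_ne_zero_iff.2 fun j _ => hL0 j)
  · have h5 := MvPolynomial.totalDegree_mul (P₁ * P₂) (∏ j, L j)
    have h6 := MvPolynomial.totalDegree_mul P₁ P₂
    have h7 : (∏ j, L j).totalDegree ≤ ∑ j, (L j).totalDegree :=
      MvPolynomial.totalDegree_finsetProd (Finset.univ : Finset (Fin m)) L
    have h8 : ∑ j, (L j).totalDegree ≤ m := by
      refine (Finset.sum_le_sum fun j _ => hLd j).trans ?_
      simp
    have h9 : tgt false m = 2 * m := by simp [tgt]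
    have h10 : tgt true m ≤ 3 * m := by
      unfold tgt
      rw [if_pos rfl]
      split_ifs with hm
      · omega
      · omega
    omega
  · intro w hw z hz
    rw [map_mul, map_mul, map_prod] at hw
    have hw12 := left_ne_zero_of_mul hw
    have hw3 := right_ne_zero_of_mul hw
    have hzl : ∀ j, μ * (b j * z) ∉ Lam τ := by
      intro j
      have h5 := hL j w ((Finset.prod_ne_zero_iff.1 hw3) j (Finset.mem_univ j))
      rw [← hz, mul_assoc] at h5
      exact h5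
    refine ⟨hzl, ?_, ?_⟩
    · have h5 := hP₁ w (left_ne_zero_of_mul hw12)
      rw [← hz] at h5
      have h6 := rankA τ μ α b z
      have h9 : tgt false m = 2 * m := by simp [tgt]
      omega
    · have h5 := hP₂ w (right_ne_zero_of_mul hw12)
      rw [← hz] at h5
      have h6 := rankB α hN.mu b z hzl
      omega

end Pool.Agent.Work.MP_8da9ea_nt.MX
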