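import Pool.Agent.Work.MP_8da9ea_nt.MX.StmtsH
import Pool.Agent.Work.MP_8da9ea_nt.MX.I_MixRank

/-!
# Mixed block, item MixRank2: the ranks at rational points, separate tuples
-/

set_option autoImplicit false

namespace Pool.Agent.Work.MP_8da9ea_nt.MX

open MvPolynomial Pool.Agent.Work.MP_327059_nt.GL Pool.Agent.Work.MP_8da9ea_nt.S
  Pool.Agent.Work.MP_8da9ea_nt.EB

namespace I_MixRank2

/-- The forms at a rational combination of the `x_i`. -/
lemma FO_comb (h : S_FOadd) (f : Bool) {τ μ : ℂ} (α : ℂ) (hN : Nrm τ μ) {n m m' : ℕ}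
    (b : Fin m → ℂ) (b' : Fin m' → ℂ) (x : Fin n → ℂ) (w : Fin n → ℚ) (o : J4 m m')
    (δ : Derivation ℚ ℂ ℂ) :
    FO2 f τ μ α b b' (∑ i, (w i : ℂ) * x i) o δ =
      ∑ i, (w i : ℂ) * FO2 f τ μ α b b' (x i) o δ := by
  let g : ℂ →+ ℂ := AddMonoidHom.mk' (fun y => FO2 f τ μ α b b' y o δ) (fun y y' => by
    change FO2 f τ μ α b b' (y + y') o δ = FO2 f τ μ α b b' y o δ + FO2 f τ μ α b b' y' o δ
    rw [FO2_add h f α hN b b' o y y', LinearMap.add_apply])
  have hg : ∀ u, g u = FO2 f τ μ α b b' u o δ := fun u => rfl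
  rw [← hg, map_sum]
  refine Finset.sum_congr rfl fun i _ => ?_
  have h1 := g.toRatLinearMap.map_smul (w i) (x i)
  rw [Rat.smul_def, Rat.smul_def] at h1
  exact h1

lemma comp_eq (h : S_FOadd) (f : Bool) {τ μ : ℂ} (α : ℂ) (hN : Nrm τ μ) {n m m' : ℕ}
    (b : Fin m → ℂ) (b' : Fin m' → ℂ) (x : Fin n → ℂ) (w : Fin n → ℚ) :
    (mvJ fun i => (w i : ℂ)).comp (LinearMap.pi fun i => fam (FO2 f τ μ α b b' (x i))) =
      fam (FO2 f τ μ α b b' (∑ i, (w i : ℂ) * x i)) := by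
  refine LinearMap.ext fun δ => ?_
  funext o
  exact (FO_comb h f α hN b b' x w o δ).symm

/-- `FO2 false` from `mixA2`. -/
noncomputable def EA (m m' : ℕ) : (Option (Fin m ⊕ Fin m') → ℂ) →ₗ[ℂ] (J4 m m' → ℂ) where
  toFun β := fun o => o.elim (β none) (Sum.elim (fun j => β (some (Sum.inl j)))
    (Sum.elim (fun j => β (some (Sum.inr j))) (fun _ => 0)))
  map_add' a b := by
    funext o
    rcases o with _ | (j | (j | j))
    · rfl
    · rfl
    · rfl
    · exact (add_zero (0 : ℂ)).symm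
  map_smul' c a := by
    funext o
    rcases o with _ | (j | (j | j))
    · rfl
    · rfl
    · rfl
    · exact (mul_zero c).symm

/-- `FO2 true` from `mixB2`, on the derivations killing `b'`. -/
noncomputable def EB' (α : ℂ) (m : ℕ) {m' : ℕ} (b' : Fin m' → ℂ) :
    (J4 m m' → ℂ) →ₗ[ℂ] (J4 m m' → ℂ) where
  toFun β := fun o => o.elim (β none) (Sum.elim (fun j => β (some (Sum.inl j)))
    (Sum.elim (fun j => β (some (Sum.inr (Sum.inl j))))
      (fun j => β (some (Sum.inr (Sum.inr j))) +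
        α * (β (some (Sum.inr (Sum.inl j))) - b' j * β none))))
  map_add' a c := by
    funext o
    rcases o with _ | (j | (j | j))
    · rfl
    · rfl
    · rfl
    · simp only [Option.elim_some, Sum.elim_inr, Pi.add_apply]
      ring
  map_smul' c a := by
    funext o
    rcases o with _ | (j | (j | j))
    · rfl
    · rfl
    · rfl
    · simp only [Option.elim_some, Sum.elim_inr, Pi.smul_apply, smul_eq_mul, RingHom.id_apply]
      ring

lemma rankA (τ μ α : ℂ) {m m' : ℕ} (b : Fin m → ℂ) (b' : Fin m' → ℂ) (z : ℂ) :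
    Module.finrank ℂ ((TT (Fin.append b b')).map (fam (FO2 false τ μ α b b' z))) ≤
      rA2 τ μ b b' z (TT (Fin.append b b')) := by
  have h1 : (TT (Fin.append b b')).map (fam (FO2 false τ μ α b b' z)) ≤
      ((TT (Fin.append b b')).map (fam (mixA2 τ μ b b' z))).map (EA m m') := by
    rintro _ ⟨δ, hδ, rfl⟩
    refine ⟨fam (mixA2 τ μ b b' z) δ, ⟨δ, hδ, rfl⟩, ?_⟩
    funext o
    rcases o with _ | (j | (j | j))
    · rfl
    · rfl
    · rfl
    · rfl
  exact (Submodule.finrank_mono h1).trans (Submodule.finrank_map_le _ _)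

lemma rankB {τ μ : ℂ} (α : ℂ) (hμ : μ ≠ 0) {m m' : ℕ} (b : Fin m → ℂ) (b' : Fin m' → ℂ) (z : ℂ)
    (hz : ∀ j, μ * (b' j * z) ∉ Lam τ) :
    Module.finrank ℂ ((TT (Fin.append b b')).map (fam (FO2 true τ μ α b b' z))) ≤
      rB2 τ μ b b' z (TT (Fin.append b b')) := by
  have h1 : (TT (Fin.append b b')).map (fam (FO2 true τ μ α b b' z)) ≤
      ((TT (Fin.append b b')).map (fam (mixB2 τ μ b b' z))).map (EB' α m b') := by
    rintro _ ⟨δ, hδ, rfl⟩
    refine ⟨fam (mixB2 τ μ b b' z) δ, ⟨δ, hδ, rfl⟩, ?_⟩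
    have hb0 : ∀ j, δ (Fin.append b b' j) = 0 := hδ
    have hb : ∀ j, δ (b' j) = 0 := by
      intro j
      have h := hb0 (Fin.natAdd m j)
      rwa [Fin.append_right] at h
    funext o
    rcases o with _ | (j | (j | j))
    · rfl
    · rfl
    · rfl
    · have h2 : δ (μ * (b' j * z) / μ) = b' j * δ z := by
        rw [mul_div_cancel_left₀ _ hμ, Derivation.leibniz, hb j, smul_zero, add_zero, smul_eq_mul]
      have h3 : etC τ μ δ (μ * (b' j * z)) = etf τ μ δ (μ * (b' j * z)) := by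
        unfold etC
        rw [if_neg (hz j)]
      change etf τ μ δ (μ * (b' j * z)) + α * (lam τ μ δ (μ * (b' j * z)) - b' j * δ z) =
        etT τ μ α δ (μ * (b' j * z))
      unfold etT
      rw [h2, h3]
  exact (Submodule.finrank_mono h1).trans (Submodule.finrank_map_le _ _)

/-- The polynomial for the forms `FO2 f`. -/
lemma poly (h1 : S_GCoreM2) (h2 : S_GPM) (h3 : S_FOadd) (f : Bool) (Q m m' : ℕ) :
    ∃ n₀ : ℕ, ∀ (τ μ α : ℂ) (b : Fin m → ℂ) (b' : Fin m' → ℂ), Nrm τ μ → Alp τ μ α →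
    FT Q (Fin.append b b') → LinearIndependent ℚ b → KLI τ b' →
    ∀ n : ℕ, n₀ ≤ n → ∀ x : Fin n → ℂ, LinearIndependent ℚ x → ∀ κ : ℕ,
    TrLe κ (Fin.append b b') →
    ∃ P : MvPolynomial (Fin n) ℂ, P ≠ 0 ∧ P.totalDegree ≤ tgt2 f m m' - κ ∧
      ∀ w : Fin n → ℚ, eval (fun i => (w i : ℂ)) P ≠ 0 →
        tgt2 f m m' ≤ κ + Module.finrank ℂ ((TT (Fin.append b b')).map (fam (FO2 f τ μ α b b'
          (∑ i, (w i : ℂ) * x i)))) := by
  obtain ⟨n₀, hn₀⟩ := h1 f Q m m'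
  refine ⟨n₀, fun τ μ α b b' hN hα hF hL hK n hn x hx κ hκ => ?_⟩
  obtain ⟨v, hv⟩ := hn₀ τ μ α b b' hN hα hF hL hK n hn x hx κ hκ
  have hle : tgt2 f m m' - κ ≤ Module.finrank ℂ ((TT (Fin.append b b')).map
      ((mvJ v).comp (LinearMap.pi fun i => fam (FO2 f τ μ α b b' (x i))))) := by
    have h4 : rkM2 f τ μ α b b' x v ≤ Module.finrank ℂ ((TT (Fin.append b b')).map
        ((mvJ v).comp (LinearMap.pi fun i => fam (FO2 f τ μ α b b' (x i))))) :=
      Submodule.finrank_mono (Submodule.map_mono inf_le_right)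
    omega
  obtain ⟨P, hP0, hPh, hP⟩ := h2 n (tgt2 f m m' - κ) (J4 m m') (TT (Fin.append b b'))
    (fun i => FO2 f τ μ α b b' (x i)) v hle
  refine ⟨P, hP0, hPh.totalDegree_le, fun w hw => ?_⟩
  have h5 := hP _ hw
  rw [comp_eq h3 f α hN b b' x w] at h5
  omega

/-- The entries of a tuple which is independent over `k` are not zero. -/
lemma kli_ne (τ : ℂ) {m : ℕ} (b : Fin m → ℂ) (hK : KLI τ b) : ∀ j, b j ≠ 0 := by
  intro j hj
  have h5 := hK (Pi.single j 1) (fun i => by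
    rcases eq_or_ne i j with rfl | hij
    · rw [Pi.single_eq_same]
      refine ⟨1, one_ne_zero, ?_, ?_⟩
      · exact mem_Lam.2 ⟨1, 0, by simp⟩
      · exact mem_Lam.2 ⟨0, 1, by simp⟩
    · rw [Pi.single_eq_of_ne hij]
      refine ⟨1, one_ne_zero, ?_, ?_⟩
      · exact mem_Lam.2 ⟨0, 0, by simp⟩
      · exact mem_Lam.2 ⟨0, 0, by simp⟩) (by
    refine Finset.sum_eq_zero fun i _ => ?_
    rcases eq_or_ne i j with rfl | hij
    · rw [hj, mul_zero]
    · rw [Pi.single_eq_of_ne hij, zero_mul])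
  have h6 := congrFun h5 j
  rw [Pi.single_eq_same] at h6
  exact one_ne_zero h6

end I_MixRank2

open I_MixRank2 in
theorem MixRank2_pf (h1 : S_GCoreM2) (h2 : S_GPM) (h3 : S_FOadd) (h4 : S_EtT) : S_MixRank2 := by
  intro Q m m'
  obtain ⟨n₁, hn₁⟩ := poly h1 h2 h3 false Q m m'
  obtain ⟨n₂, hn₂⟩ := poly h1 h2 h3 true Q m m'
  refine ⟨max (max n₁ n₂) 3, fun τ μ b b' hN hF hLI hK n hn x hx κ hκ => ?_⟩
  obtain ⟨α, hα⟩ := h4 τ μ hN
  obtain ⟨P₁, hP₁0, hP₁d, hP₁⟩ := hn₁ τ μ α b b' hN hα hF hLI hK n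
    ((le_max_left _ _).trans ((le_max_left _ _).trans hn)) x hx κ hκ
  obtain ⟨P₂, hP₂0, hP₂d, hP₂⟩ := hn₂ τ μ α b b' hN hα hF hLI hK n
    ((le_max_right _ _).trans ((le_max_left _ _).trans hn)) x hx κ hκ
  have hb := kli_ne τ b' hK
  choose L hL0 hLd hL using fun j => I_MixRank.form ((le_max_right _ _).trans hn) τ
    (mul_ne_zero hN.mu (hb j)) hx
  have h9 : tgt2 false m m' = m + m' := by simp [tgt2]
  refine ⟨P₁ * P₂ * ∏ j, L j, ?_, ?_, ?_⟩
  · exact mul_ne_zero (mul_ne_zero hP₁0 hP₂0) (Finset.prod_ne_zero_iff.2 fun j _ => hL0 j)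
  · have h5 := MvPolynomial.totalDegree_mul (P₁ * P₂) (∏ j, L j)
    have h6 := MvPolynomial.totalDegree_mul P₁ P₂
    have h7 : (∏ j, L j).totalDegree ≤ ∑ j, (L j).totalDegree :=
      MvPolynomial.totalDegree_finsetProd (Finset.univ : Finset (Fin m')) L
    have h8 : ∑ j, (L j).totalDegree ≤ m' := by
      refine (Finset.sum_le_sum fun j _ => hLd j).trans ?_
      simp
    have h10 : tgt2 true m m' ≤ m + 2 * m' := by
      unfold tgt2
      rw [if_pos rfl]
      split_ifs with hm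
      · omega
      · omega
    omega
  · intro w hw z hz
    rw [map_mul, map_mul, map_prod] at hw
    have hw12 := left_ne_zero_of_mul hw
    have hw3 := right_ne_zero_of_mul hw
    have hzl : ∀ j, μ * (b' j * z) ∉ Lam τ := by
      intro j
      have h5 := hL j w ((Finset.prod_ne_zero_iff.1 hw3) j (Finset.mem_univ j))
      rw [← hz, mul_assoc] at h5
      exact h5
    refine ⟨hzl, ?_, ?_⟩
    · have h5 := hP₁ w (left_ne_zero_of_mul hw12)
      rw [← hz] at h5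
      have h6 := rankA τ μ α b b' z
      omega
    · have h5 := hP₂ w (right_ne_zero_of_mul hw12)
      rw [← hz] at h5
      have h6 := rankB α hN.mu b b' z hzl
      omega

end Pool.Agent.Work.MP_8da9ea_nt.MX
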