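import Pool.Agent.Work.MP_8da9ea_nt.MX.StmtsF
import Pool.Agent.Work.MP_8da9ea_nt.MX.I_MixRank2

/-!
# Mixed block, item MixRankF: the ranks at rational points, lossless version
-/

set_option autoImplicit false

namespace Pool.Agent.Work.MP_8da9ea_nt.MX

open MvPolynomial Pool.Agent.Work.MP_327059_nt.GL Pool.Agent.Work.MP_8da9ea_nt.S
  Pool.Agent.Work.MP_8da9ea_nt.EB

namespace I_MixRankF

open I_MixRank2

/-- The polynomial for the forms `FO2 f`. -/
lemma poly (h1 : S_GCoreF) (h2 : S_GPM) (h3 : S_FOadd) (f : Bool) (Q m m' : ℕ) :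
    ∃ n₀ : ℕ, ∀ (τ μ α : ℂ) (b : Fin m → ℂ) (b' : Fin m' → ℂ), Nrm τ μ → Alp τ μ α →
    FT Q (Fin.append b b') → LinearIndependent ℚ b → KLI τ b' →
    ∀ n : ℕ, n₀ ≤ n → ∀ x : Fin n → ℂ, LinearIndependent ℚ x → ∀ κ : ℕ,
    TrLe κ (Fin.append b b') →
    ∃ P : MvPolynomial (Fin n) ℂ, P ≠ 0 ∧ P.totalDegree ≤ tgtF f m m' - κ ∧
      ∀ w : Fin n → ℚ, eval (fun i => (w i : ℂ)) P ≠ 0 →
        tgtF f m m' ≤ κ + Module.finrank ℂ ((TT (Fin.append b b')).map (fam (FO2 f τ μ α b b'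
          (∑ i, (w i : ℂ) * x i)))) := by
  obtain ⟨n₀, hn₀⟩ := h1 f Q m m'
  refine ⟨n₀, fun τ μ α b b' hN hα hF hL hK n hn x hx κ hκ => ?_⟩
  obtain ⟨v, hv⟩ := hn₀ τ μ α b b' hN hα hF hL hK n hn x hx κ hκ
  have hle : tgtF f m m' - κ ≤ Module.finrank ℂ ((TT (Fin.append b b')).map
      ((mvJ v).comp (LinearMap.pi fun i => fam (FO2 f τ μ α b b' (x i))))) := by
    have h4 : rkM2 f τ μ α b b' x v ≤ Module.finrank ℂ ((TT (Fin.append b b')).map
        ((mvJ v).comp (LinearMap.pi fun i => fam (FO2 f τ μ α b b' (x i))))) :=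
      Submodule.finrank_mono (Submodule.map_mono inf_le_right)
    omega
  obtain ⟨P, hP0, hPh, hP⟩ := h2 n (tgtF f m m' - κ) (J4 m m') (TT (Fin.append b b'))
    (fun i => FO2 f τ μ α b b' (x i)) v hle
  refine ⟨P, hP0, hPh.totalDegree_le, fun w hw => ?_⟩
  have h5 := hP _ hw
  rw [comp_eq h3 f α hN b b' x w] at h5
  omega

end I_MixRankF

open I_MixRankF I_MixRank2 in
theorem MixRankF_pf (h1 : S_GCoreF) (h2 : S_GPM) (h3 : S_FOadd) (h4 : S_EtT) : S_MixRankF := by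
  intro Q m m'
  obtain ⟨n₁, hn₁⟩ := I_MixRankF.poly h1 h2 h3 false Q m m'
  obtain ⟨n₂, hn₂⟩ := I_MixRankF.poly h1 h2 h3 true Q m m'
  refine ⟨max (max n₁ n₂) 3, fun τ μ b b' hN hF hLI hK n hn x hx κ hκ => ?_⟩
  obtain ⟨α, hα⟩ := h4 τ μ hN
  obtain ⟨P₁, hP₁0, hP₁d, hP₁⟩ := hn₁ τ μ α b b' hN hα hF hLI hK n
    ((le_max_left _ _).trans ((le_max_left _ _).trans hn)) x hx κ hκ
  obtain ⟨P₂, hP₂0, hP₂d, hP₂⟩ := hn₂ τ μ α b b' hN hα hF hLI hK n
    ((le_max_right _ _).trans ((le_max_left _ _).trans hn)) x hx κ hκ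
  have hb := kli_ne τ b' hK
  choose L hL0 hLd hL using fun j => I_MixRank.form ((le_max_right _ _).trans hn) τ
    (mul_ne_zero hN.mu (hb j)) hx
  have h9 : tgtF false m m' = m + m' := by simp [tgtF]
  refine ⟨P₁ * P₂ * ∏ j, L j, ?_, ?_, ?_⟩
  · exact mul_ne_zero (mul_ne_zero hP₁0 hP₂0) (Finset.prod_ne_zero_iff.2 fun j _ => hL0 j)
  · have h5 := MvPolynomial.totalDegree_mul (P₁ * P₂) (∏ j, L j)
    have h6 := MvPolynomial.totalDegree_mul P₁ P₂
    have h7 : (∏ j, L j).totalDegree ≤ ∑ j, (L j).totalDegree :=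
      MvPolynomial.totalDegree_finsetProd (Finset.univ : Finset (Fin m')) L
    have h8 : ∑ j, (L j).totalDegree ≤ m' := by
      refine (Finset.sum_le_sum fun j _ => hLd j).trans ?_
      simp
    have h10 : tgtF true m m' = m + 2 * m' := by simp [tgtF]
    omega
  · intro w hw z hz
    rw [map_mul, map_mul, map_prod] at hw
    have hw12 := left_ne_zero_of_mul hw
    have hw3 := right_ne_zero_of_mul hw
    have hzl : ∀ j, μ * (b' j * z) ∉ Lam τ := by
      intro j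
      have h5 := hL j w ((Finset.prod_ne_zero_iff.1 hw3) j (Finset.mem_univ j))
      rw [← hz, mul_assoc] at h5
      exact h5
    refine ⟨hzl, ?_, ?_⟩
    · have h5 := hP₁ w (left_ne_zero_of_mul hw12)
      rw [← hz] at h5
      have h6 := rankA τ μ α b b' z
      omega
    · have h5 := hP₂ w (right_ne_zero_of_mul hw12)
      rw [← hz] at h5
      have h6 := rankB α hN.mu b b' z hzl
      have h10 : tgtF true m m' = m + 2 * m' := by simp [tgtF]
      omega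

end Pool.Agent.Work.MP_8da9ea_nt.MX
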