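import Pool.Agent.Work.MP_8da9ea_nt.MX.StmtsT
import Pool.Agent.Work.MP_8da9ea_nt.EB.I_NZ
import Pool.Agent.Work.MP_8da9ea_nt.EB.I_LMk
import Pool.Agent.Work.MP_8da9ea_nt.EB.I_FText
import Pool.Agent.Work.MP_327059_nt.GL.Asm

/-!
# Mixed block, T8: a polynomial vanishing at the perturbed points gives a small point
-/

set_option autoImplicit false

namespace Pool.Agent.Work.MP_8da9ea_nt.MX

open MvPolynomial Pool.Agent.Work.MP_327059_nt.GL Pool.Agent.Work.MP_8da9ea_nt.S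
  Pool.Agent.Work.MP_8da9ea_nt.EB

namespace I_NZM

variable {ι : Type} [Fintype ι]

/-! ### Rescaling of the variables -/

theorem bind_degree (d : ι → ℂ) (F : MvPolynomial ι ℂ) (i : ι) :
    degreeOf i (bind₁ (fun j => C (d j) * X j) F) ≤ degreeOf i F := by
  classical
  have hf : ∀ i j, degreeOf i (C (d j) * X j : MvPolynomial ι ℂ) ≤ if i = j then 1 else 0 := by
    intro i j
    refine (degreeOf_C_mul_le _ _ _).trans ?_
    by_cases hij : i = j
    · subst hij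
      rw [degreeOf_X_self, if_pos rfl]
    · rw [if_neg hij, degreeOf_X_of_ne hij]
  conv_lhs => rw [MvPolynomial.as_sum F]
  rw [map_sum]
  refine (degreeOf_sum_le _ _ _).trans (Finset.sup_le fun m hm => ?_)
  rw [bind₁_monomial]
  refine (degreeOf_C_mul_le _ _ _).trans ?_
  refine (degreeOf_prod_le _ _ _).trans ?_
  refine (Finset.sum_le_univ_sum_of_nonneg (fun j => Nat.zero_le _)).trans ?_
  have h1 : ∑ j : ι, degreeOf i ((C (d j) * X j : MvPolynomial ι ℂ) ^ m j) ≤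
      ∑ j : ι, if i = j then m j else 0 := by
    refine Finset.sum_le_sum fun j _ => (degreeOf_pow_le _ _ _).trans ?_
    have := hf i j
    split_ifs with hij
    · rw [if_pos hij] at this
      calc m j * degreeOf i (C (d j) * X j : MvPolynomial ι ℂ) ≤ m j * 1 :=
            Nat.mul_le_mul_left _ this
        _ = m j := mul_one _
    · rw [if_neg hij] at this
      rw [Nat.le_zero.1 this, mul_zero]
  refine h1.trans ?_
  rw [Finset.sum_ite_eq, if_pos (Finset.mem_univ _)]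
  exact monomial_le_degreeOf i hm

theorem eval_bind (d y : ι → ℂ) (F : MvPolynomial ι ℂ) :
    eval y (bind₁ (fun j => C (d j) * X j) F) = eval (fun j => d j * y j) F := by
  have h1 : eval y (bind₁ (fun j => C (d j) * X j) F) =
      aeval y (bind₁ (fun j => C (d j) * X j) F) := rfl
  rw [h1, aeval_bind₁]
  have h2 : (fun i => aeval y (C (d i) * X i : MvPolynomial ι ℂ)) = fun j => d j * y j := by
    funext j
    rw [map_mul, aeval_X, aeval_C]
    rfl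
  rw [h2]
  rfl

theorem bind_ne (d : ι → ℂ) (hd : ∀ j, d j ≠ 0) (F : MvPolynomial ι ℂ) (hF : F ≠ 0) :
    bind₁ (fun j => C (d j) * X j) F ≠ 0 := by
  intro h0
  apply hF
  have h1 : bind₁ (fun j => C ((d j)⁻¹) * X j) (bind₁ (fun j => C (d j) * X j) F) = F := by
    rw [bind₁_bind₁]
    have h2 : (fun i => bind₁ (fun j => C ((d j)⁻¹) * X j) (C (d i) * X i : MvPolynomial ι ℂ)) =
        X := by
      funext i
      rw [map_mul, bind₁_X_right, bind₁_C_right, ← mul_assoc, ← C_mul, mul_inv_cancel₀ (hd i),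
        C_1, one_mul]
    rw [h2, bind₁_X_left]
    rfl
  rw [← h1, h0, map_zero]

/-- The rescaling factors. -/
noncomputable def dsc (μ : ℂ) (ty : ι → Ty) : ι → ℂ := fun j =>
  match ty j with
  | Ty.add => 1
  | Ty.mul => 1
  | Ty.ell => μ ^ 2

theorem dsc_ne (μ : ℂ) (hμ : μ ≠ 0) (ty : ι → Ty) (j : ι) : dsc μ ty j ≠ 0 := by
  unfold dsc
  split
  · exact one_ne_zero
  · exact one_ne_zero
  · exact pow_ne_zero _ hμ

theorem PN_eq (τ μ : ℂ) (ty : ι → Ty) (c : ι → ι → ℂ) (p : ι → ℂ) :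
    PN τ μ ty c p = fun j => dsc μ ty j * PT τ ty (fun i j => μ * c i j) p j := by
  funext i
  unfold PN PT dsc
  split
  · rename_i h
    simp only [h, one_mul]
    congr 1
    refine Finset.sum_congr rfl fun j _ => ?_
    split_ifs
    · unfold ze
      ring
    · rfl
  · rename_i h
    simp only [h, one_mul]
  · rename_i h
    simp only [h]
    rfl

/-! ### The relation -/

theorem single_sum (j : ι) (f : ι → ℂ) [DecidableEq ι] :
    ∑ l, (Pi.single j (1 : ℂ) : ι → ℂ) l * f l = f j := by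
  rw [Finset.sum_eq_single j]
  · simp
  · intro l _ hl
    rw [Pi.single_eq_of_ne hl, zero_mul]
  · simp

theorem ncard_mono {n S S' : ℕ} (h : S ≤ S') (P : (Fin n → ℤ) → Prop) :
    Set.ncard {s : Fin n → ℤ | (∀ i, |s i| ≤ (S : ℤ)) ∧ P s} ≤
      Set.ncard {s : Fin n → ℤ | (∀ i, |s i| ≤ (S' : ℤ)) ∧ P s} := by
  refine Set.ncard_le_ncard ?_ ((EB.I_NZ.boxfin n S').subset (fun s hs => hs.1))
  rintro s ⟨h1, h2⟩
  exact ⟨fun i => (h1 i).trans (by exact_mod_cast h), h2⟩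

theorem Rel_mono {τ : ℂ} {ty : ι → Ty} {c : ι → ι → ℂ} {n : ℕ} {u : Fin n → ι → ℂ}
    {S S₁ S₂ X₁ X₂ : ℕ} (hS : S₁ ≤ S₂) (hX : X₁ ≤ X₂) (h : Rel τ ty c u S S₁ X₁) :
    Rel τ ty c u S S₂ X₂ := by
  obtain ⟨w, hw0, h⟩ := h
  have hX' : (X₁ : ℝ) ≤ (X₂ : ℝ) := by exact_mod_cast hX
  refine ⟨w, hw0, ?_⟩
  rcases h with ⟨h1, h2, h3, h4⟩ | ⟨h1, h2, h3, h4⟩ | ⟨h1, h2, h3⟩
  · exact Or.inl ⟨h1, h2, fun j => (h3 j).trans hX',
      h4.trans (Nat.mul_le_mul hX (ncard_mono hS _))⟩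
  · exact Or.inr (Or.inl ⟨h1, h2, fun j => (h3 j).trans hX',
      h4.trans (Nat.mul_le_mul hX (ncard_mono hS _))⟩)
  · exact Or.inr (Or.inr ⟨h1, h2, h3.trans (Nat.mul_le_mul hX (ncard_mono hS _))⟩)

theorem rel1 (q k : ℕ) (τ μ : ℂ) (hμ : μ ≠ 0) (ty : ι → Ty) (n : ℕ) (hn : 1 ≤ n) (Cc : ℕ)
    (hC : ∀ (c : ι → ι → ℂ) (S B K : ℕ) (a : ι → ℂ) (u : Fin n → ι → ℂ)
      (A : Finset (Fin n → ℤ)) (F : MvPolynomial ι ℂ), 1 ≤ B → 1 ≤ K →
      (∀ s ∈ A, ∀ i, 0 ≤ s i ∧ s i ≤ (S : ℤ)) →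
      (S + 1) ^ n ≤ K * A.card → F ≠ 0 → (∀ i, F.degreeOf i ≤ B) →
      (∀ s ∈ A, Gd τ ty (fun j => a j + pcI u s j) ∧
        eval (PT τ ty c (fun j => a j + pcI u s j)) F = 0) →
      Rel τ ty c u S (k * S) (Cc * (2 * B * K) ^ k))
    (T : ℕ) (hT : Cc * 8 ^ k + 2 * Fintype.card ι + 3 ≤ T) (u : Fin n → ι → ℂ)
    (c' : ι → ι → ℂ) (F : MvPolynomial ι ℂ) (hF : F ≠ 0) (hdeg : ∀ j, F.degreeOf j ≤ T ^ q)
    (hvan : ∀ s : Fin n → ℤ, s ≠ 0 → (∀ i, 0 ≤ s i ∧ s i ≤ (T : ℤ)) → Gd τ ty (pcI u s) →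
        eval (PN τ μ ty c' (pcI u s)) F = 0) :
    Rel τ ty (fun i j => μ * c' i j) u T ((k + 1) * T) (T ^ (q * k + 1)) := by
  classical
  have hT1 : 1 ≤ T := by omega
  have hT3 : 3 ≤ T := by omega
  have hTC : Cc * 8 ^ k ≤ T := by omega
  have hTm : 2 * Fintype.card ι ≤ T := by omega
  have hTq : 1 ≤ T ^ q := Nat.one_le_pow _ _ hT1
  set Bx : Finset (Fin n → ℤ) := Finset.Icc (0 : Fin n → ℤ) (fun _ => (T : ℤ)) with hBx
  have hmem : ∀ s ∈ Bx, ∀ i, 0 ≤ s i ∧ s i ≤ (T : ℤ) := by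
    intro s hs i
    rw [hBx, Finset.mem_Icc] at hs
    exact ⟨hs.1 i, hs.2 i⟩
  have hcard : Bx.card = (T + 1) ^ n := EB.I_NZ.card_box n T
  have hpowc : Cc * (2 * T ^ q * 4) ^ k ≤ T ^ (q * k + 1) := by
    calc Cc * (2 * T ^ q * 4) ^ k = (Cc * 8 ^ k) * T ^ (q * k) := by
          rw [show 2 * T ^ q * 4 = 8 * T ^ q by ring, mul_pow, ← pow_mul]; ring
      _ ≤ T * T ^ (q * k) := Nat.mul_le_mul_right _ hTC
      _ = T ^ (q * k + 1) := by ring
  by_cases hbig : (T + 1) ^ n ≤ 2 * (Bx.filter fun s => Gd τ ty (pcI u s)).card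
  · have h4 : 4 ≤ (T + 1) ^ n := by
      calc 4 ≤ T + 1 := by omega
        _ = (T + 1) ^ 1 := (pow_one _).symm
        _ ≤ (T + 1) ^ n := Nat.pow_le_pow_right (by omega) hn
    have hA : (T + 1) ^ n ≤ 4 * ((Bx.filter fun s => Gd τ ty (pcI u s)).erase 0).card := by
      have h5 := Finset.pred_card_le_card_erase (s := Bx.filter fun s => Gd τ ty (pcI u s))
        (a := (0 : Fin n → ℤ))
      omega
    have h6 := hC (fun i j => μ * c' i j) T (T ^ q) 4 0 u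
      ((Bx.filter fun s => Gd τ ty (pcI u s)).erase 0)
      (bind₁ (fun j => C (dsc μ ty j) * X j) F) hTq (by norm_num)
      (fun s hs => hmem s (Finset.mem_filter.1 (Finset.mem_of_mem_erase hs)).1) hA
      (bind_ne _ (dsc_ne μ hμ ty) F hF)
      (fun i => (bind_degree _ F i).trans (hdeg i)) (by
        intro s hs
        have h1 := (Finset.mem_filter.1 (Finset.mem_of_mem_erase hs))
        have h2 := hvan s (Finset.ne_of_mem_erase hs) (hmem s h1.1) h1.2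
        have h3 : (fun j => (0 : ι → ℂ) j + pcI u s j) = pcI u s := by
          funext j
          rw [Pi.zero_apply, zero_add]
        rw [h3]
        refine ⟨h1.2, ?_⟩
        rw [eval_bind]
        rw [PN_eq] at h2
        exact h2)
    exact Rel_mono (Nat.mul_le_mul_right _ (by omega)) hpowc h6
  · push Not at hbig
    have hsum : (Bx.filter fun s => Gd τ ty (pcI u s)).card +
        (Bx.filter fun s => ¬ Gd τ ty (pcI u s)).card = Bx.card :=
      Finset.card_filter_add_card_filter_not _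
    have hsub : (Bx.filter fun s => ¬ Gd τ ty (pcI u s)) ⊆
        (Finset.univ.filter fun j : ι => ty j = Ty.ell).biUnion
          fun j : ι => Bx.filter fun s => pcI u s j ∈ Lam τ := by
      intro s hs
      obtain ⟨h1, h2⟩ := Finset.mem_filter.1 hs
      unfold Gd at h2
      push Not at h2
      obtain ⟨j, hj, hj'⟩ := h2
      exact Finset.mem_biUnion.2 ⟨j, Finset.mem_filter.2 ⟨Finset.mem_univ j, hj⟩,
        Finset.mem_filter.2 ⟨h1, hj'⟩⟩
    have h3 := (Finset.card_le_card hsub).trans Finset.card_biUnion_le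
    obtain ⟨j, hjt, hj⟩ : ∃ j : ι, ty j = Ty.ell ∧ (T + 1) ^ n ≤ 2 * Fintype.card ι *
        (Bx.filter fun s => pcI u s j ∈ Lam τ).card := by
      by_contra hcon
      push Not at hcon
      have h5 : (T + 1) ^ n < 2 * ∑ j ∈ Finset.univ.filter fun j : ι => ty j = Ty.ell,
          (Bx.filter fun s => pcI u s j ∈ Lam τ).card := by omega
      have hpos : 0 < (T + 1) ^ n := by positivity
      have hne : (Finset.univ.filter fun j : ι => ty j = Ty.ell).Nonempty := by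
        rw [Finset.nonempty_iff_ne_empty]
        intro h0
        rw [h0, Finset.sum_empty] at h5
        omega
      have h4 : ∑ j ∈ Finset.univ.filter fun j : ι => ty j = Ty.ell, 2 * Fintype.card ι *
          (Bx.filter fun s => pcI u s j ∈ Lam τ).card <
          ∑ _j ∈ Finset.univ.filter fun j : ι => ty j = Ty.ell, (T + 1) ^ n :=
        Finset.sum_lt_sum_of_nonempty hne (fun j hj => hcon j (Finset.mem_filter.1 hj).2)
      rw [← Finset.mul_sum, Finset.sum_const, smul_eq_mul] at h4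
      have h6 : (Finset.univ.filter fun j : ι => ty j = Ty.ell).card ≤ Fintype.card ι :=
        Finset.card_le_univ _
      have h7 : (Finset.univ.filter fun j : ι => ty j = Ty.ell).card * (T + 1) ^ n ≤
          Fintype.card ι * (T + 1) ^ n := Nat.mul_le_mul_right _ h6
      have h8 : Fintype.card ι * (T + 1) ^ n ≤ Fintype.card ι * (2 *
          ∑ j ∈ Finset.univ.filter fun j : ι => ty j = Ty.ell,
            (Bx.filter fun s => pcI u s j ∈ Lam τ).card) :=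
        Nat.mul_le_mul_left _ h5.le
      have h9 : Fintype.card ι * (2 *
          ∑ j ∈ Finset.univ.filter fun j : ι => ty j = Ty.ell,
            (Bx.filter fun s => pcI u s j ∈ Lam τ).card) = 2 * Fintype.card ι *
          ∑ j ∈ Finset.univ.filter fun j : ι => ty j = Ty.ell,
            (Bx.filter fun s => pcI u s j ∈ Lam τ).card := by ring
      omega
    refine ⟨Pi.single j 1, ?_, Or.inl ⟨?_, ?_, ?_, ?_⟩⟩
    · intro h
      have := congrFun h j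
      simp at this
    · intro l hl
      by_cases hlj : l = j
      · subst hlj
        exact absurd hjt hl
      · rw [Pi.single_eq_of_ne hlj]
    · intro l
      by_cases hl : l = j
      · subst hl
        rw [Pi.single_eq_same]
        exact EB.I_NZ.isI1 τ
      · rw [Pi.single_eq_of_ne hl]
        exact EB.I_NZ.isI0 τ
    · intro l
      have h7 : (1 : ℝ) ≤ ((T ^ (q * k + 1) : ℕ) : ℝ) := by
        exact_mod_cast Nat.one_le_pow _ _ hT1
      by_cases hl : l = j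
      · subst hl
        rw [Pi.single_eq_same, norm_one]
        exact h7
      · rw [Pi.single_eq_of_ne hl, norm_zero]
        linarith
    · have h8 : (Bx.filter fun s => pcI u s j ∈ Lam τ).card ≤
          Set.ncard {s : Fin n → ℤ | (∀ i, |s i| ≤ (((k + 1) * T : ℕ) : ℤ)) ∧
            ∑ l, (Pi.single j (1 : ℂ) : ι → ℂ) l * pcI u s l ∈ Lam τ} := by
        rw [← Set.ncard_coe_finset]
        refine Set.ncard_le_ncard ?_ ((EB.I_NZ.boxfin n _).subset (fun s hs => hs.1))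
        intro s hs
        have h9 := Finset.mem_filter.1 (Finset.mem_coe.1 hs)
        refine ⟨fun i => ?_, ?_⟩
        · obtain ⟨h10, h11⟩ := hmem s h9.1 i
          rw [abs_of_nonneg h10]
          refine h11.trans ?_
          exact_mod_cast Nat.le_mul_of_pos_left T (by omega)
        · rw [single_sum]
          exact h9.2
      calc (T + 1) ^ n ≤ 2 * Fintype.card ι * (Bx.filter fun s => pcI u s j ∈ Lam τ).card := hj
        _ ≤ T ^ (q * k + 1) * Set.ncard {s : Fin n → ℤ | (∀ i, |s i| ≤ (((k + 1) * T : ℕ) : ℤ)) ∧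
            ∑ l, (Pi.single j (1 : ℂ) : ι → ℂ) l * pcI u s l ∈ Lam τ} := by
            refine Nat.mul_le_mul (hTm.trans ?_) h8
            calc T = T ^ 1 := (pow_one T).symm
              _ ≤ T ^ (q * k + 1) := Nat.pow_le_pow_right hT1 (by omega)

theorem finTy : Finite Ty := by
  refine Finite.of_injective (fun t : Ty => match t with
    | Ty.add => (0 : Fin 3)
    | Ty.mul => 1
    | Ty.ell => 2) ?_
  intro a b h
  cases a <;> cases b <;> simp_all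

/-- the relation, with uniform exponents -/
theorem rel (hZ : S_ZMall) (q : ℕ) (ι : Type) [Fintype ι] : ∃ k : ℕ, ∀ (τ μ : ℂ), 0 < τ.im →
    μ ≠ 0 → ∀ (ty : ι → Ty) (n : ℕ), 1 ≤ n → ∃ T₁ : ℕ, ∀ T : ℕ, T₁ ≤ T →
    ∀ (u : Fin n → ι → ℂ) (c' : ι → ι → ℂ) (F : MvPolynomial ι ℂ),
      F ≠ 0 → (∀ j, F.degreeOf j ≤ T ^ q) →
      (∀ s : Fin n → ℤ, s ≠ 0 → (∀ i, 0 ≤ s i ∧ s i ≤ (T : ℤ)) → Gd τ ty (pcI u s) →
        eval (PN τ μ ty c' (pcI u s)) F = 0) →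
      Rel τ ty (fun i j => μ * c' i j) u T ((k + 1) * T) (T ^ (q * k + 1)) := by
  choose k hk using hZ ι
  haveI := finTy
  obtain ⟨k₀, hk₀⟩ : ∃ k₀ : ℕ, ∀ ty : ι → Ty, k ty ≤ k₀ := by
    obtain ⟨M, hM⟩ := (Set.finite_range k).bddAbove
    exact ⟨M, fun ty => hM ⟨ty, rfl⟩⟩
  refine ⟨k₀, fun τ μ hτ hμ ty n hn => ?_⟩
  obtain ⟨Cc, hC1, hC⟩ := hk ty τ hτ n
  refine ⟨Cc * 8 ^ k ty + 2 * Fintype.card ι + 3, fun T hT u c' F hF hdeg hvan => ?_⟩
  have h1 := rel1 q (k ty) τ μ hμ ty n hn Cc hC T hT u c' F hF hdeg hvan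
  exact Rel_mono (Nat.mul_le_mul_right _ (Nat.add_le_add_right (hk₀ ty) 1))
    (Nat.pow_le_pow_right (by omega) (Nat.add_le_add_right (Nat.mul_le_mul_left _ (hk₀ ty)) 1)) h1

/-! ### Lower bounds -/

theorem sumsub {m : ℕ} (p : ι → Prop) (f : ι → ℂ) (hf : ∀ j, ¬ p j → f j = 0)
    (e : Fin m ≃ {j // p j}) : ∑ j, f j = ∑ i, f (e i).1 := by
  classical
  rw [Equiv.sum_comp e (fun k : {j // p j} => f k.1)]
  rw [← Finset.sum_filter_add_sum_filter_not Finset.univ p f]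
  rw [Finset.sum_eq_zero (s := Finset.univ.filter fun j => ¬ p j)
    (fun j hj => hf j (Finset.mem_filter.1 hj).2), add_zero]
  exact Finset.sum_subtype (Finset.univ.filter p) (by simp) f

theorem ftsub (h0 : S_FTIeq) (Q : ℕ) (β : ι → ℂ) (hft : FTI Q β) (p : ι → Prop) :
    ∃ (m : ℕ) (e : Fin m ≃ {j // p j}), FT Q (fun i => β (e i).1) := by
  classical
  refine ⟨Fintype.card {j // p j}, (Fintype.equivFin _).symm, ?_⟩
  have h1 := (h0 Q (Fintype.card {j // p j}) ι β).2 {j // p j} Subtype.val hft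
  exact ((h0 Q (Fintype.card {j // p j}) {j // p j} (fun k => β k.1)).1 _).1 h1

theorem lowE (h0 : S_FTIeq) (Q : ℕ) (τ μ : ℂ) (hτ : 0 < τ.im) (hμ : μ ≠ 0) (ty : ι → Ty)
    (i₀ : Option ι) (π : ι → ι) (b : ι → ℂ) (c : ι → ι → ℂ) (hA : Adm Q τ μ ty i₀ π b c)
    (e : ℕ) : ∃ T₀ : ℕ, ∀ T : ℕ, T₀ ≤ T → ∀ w : ι → ℂ, w ≠ 0 → (∀ j, ty j ≠ Ty.ell → w j = 0) →
      (∀ j, IsI τ (w j)) → (∀ j, ‖w j‖ ≤ ((T ^ e : ℕ) : ℝ)) →
      Real.exp (-((T : ℝ) / 2)) ≤ ‖∑ j, w j * b j‖ := by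
  classical
  obtain ⟨m, eq, hFT⟩ := ftsub h0 Q (nb μ ty b) hA.ft (fun j => ty j = Ty.ell)
  have hnb : ∀ i, nb μ ty b (eq i).1 = b (eq i).1 / μ := by
    intro i
    unfold nb
    rw [(eq i).2]
  have hK : KLI τ (fun i => nb μ ty b (eq i).1) := by
    intro g hg h1
    obtain ⟨g', hg'⟩ : ∃ g' : ι → ℂ, g' = fun j => if h : ty j = Ty.ell then g (eq.symm ⟨j, h⟩)
      else 0 := ⟨_, rfl⟩
    have h2 : ∀ i, g' (eq i).1 = g i := by
      intro i
      rw [hg']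
      simp only [(eq i).2, dite_true]
      congr 1
      exact eq.symm_apply_apply i
    have h3 := hA.ell g' (fun j hj => by rw [hg']; simp only [hj, dite_false]) (fun j => by
        rw [hg']
        by_cases h : ty j = Ty.ell
        · simp only [h, dite_true]
          exact hg _
        · simp only [h, dite_false]
          refine ⟨1, one_ne_zero, ?_, ?_⟩
          · rw [mul_zero]
            exact EB.I_NZ.mem0 τ
          · rw [mul_zero, zero_mul]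
            exact EB.I_NZ.mem0 τ) (by
        rw [sumsub (fun j => ty j = Ty.ell) _ (fun j hj => by
          rw [hg']
          simp only [hj, dite_false, zero_mul]) eq]
        simp only [h2]
        have h4 : ∑ i, g i * b (eq i).1 = μ * ∑ i, g i * nb μ ty b (eq i).1 := by
          rw [Finset.mul_sum]
          refine Finset.sum_congr rfl fun i _ => ?_
          rw [hnb]
          field_simp
        rw [h4, h1, mul_zero])
    funext i
    rw [← h2 i, h3]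
    rfl
  obtain ⟨T₁, hT₁⟩ := LMk_pf FText_pf Q m τ _ hτ hFT hK (e + 1)
  obtain ⟨K, hKμ⟩ : ∃ K : ℕ, ‖μ‖⁻¹ ≤ (K : ℝ) := ⟨_, Nat.le_ceil _⟩
  refine ⟨4 * T₁ + 4 * K + 8 * (8 ^ e + 1) + 8, fun T hT w hw0 hwt hwI hwb => ?_⟩
  obtain ⟨T', hT'⟩ : ∃ T' : ℕ, T' = T / 4 := ⟨_, rfl⟩
  have h1 := hT₁ T' (by omega) (fun i => w (eq i).1) (by
    intro h
    apply hw0
    funext j
    by_cases hj : ty j = Ty.ell
    · have h2 := congrFun h (eq.symm ⟨j, hj⟩)
      simp only [Equiv.apply_symm_apply, Pi.zero_apply] at h2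
      exact h2
    · exact hwt j hj) (fun i => hwI _) (fun i => (hwb _).trans (by
    have h1 : T ≤ 8 * T' := by omega
    have h2 : 8 ^ e ≤ T' := by omega
    have h3 : T ^ e ≤ T' ^ (e + 1) := by
      calc T ^ e ≤ (8 * T') ^ e := Nat.pow_le_pow_left h1 _
        _ = 8 ^ e * T' ^ e := by rw [mul_pow]
        _ ≤ T' * T' ^ e := Nat.mul_le_mul_right _ h2
        _ = T' ^ (e + 1) := by ring
    exact_mod_cast h3))
  have h2 : ∑ i, w (eq i).1 * nb μ ty b (eq i).1 = (∑ j, w j * b j) * μ⁻¹ := by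
    rw [sumsub (fun j => ty j = Ty.ell) (fun j => w j * b j) (fun j hj => by
      rw [hwt j hj, zero_mul]) eq, Finset.sum_mul]
    refine Finset.sum_congr rfl fun i _ => ?_
    rw [hnb]
    field_simp
  rw [h2, norm_mul, norm_inv] at h1
  have h3 : (T' : ℝ) ≤ (T : ℝ) / 4 := by
    have h4 : 4 * T' ≤ T := by omega
    have h5 : (4 : ℝ) * T' ≤ T := by exact_mod_cast h4
    linarith
  have h4 : ‖μ‖⁻¹ ≤ Real.exp ((T : ℝ) / 4) := by
    have h5 : 4 * K ≤ T := by omega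
    have h6 : (4 : ℝ) * K ≤ T := by exact_mod_cast h5
    have h7 := Real.add_one_le_exp ((T : ℝ) / 4)
    linarith
  have h5 : Real.exp (-((T : ℝ) / 4)) ≤ ‖∑ j, w j * b j‖ * Real.exp ((T : ℝ) / 4) :=
    (Real.exp_le_exp.2 (by linarith)).trans
      (h1.trans (mul_le_mul_of_nonneg_left h4 (norm_nonneg _)))
  have h6 : Real.exp (-((T : ℝ) / 2)) = Real.exp (-((T : ℝ) / 4)) * Real.exp (-((T : ℝ) / 4)) := by
    rw [← Real.exp_add]
    congr 1
    ring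
  rw [h6]
  calc Real.exp (-((T : ℝ) / 4)) * Real.exp (-((T : ℝ) / 4))
      ≤ (‖∑ j, w j * b j‖ * Real.exp ((T : ℝ) / 4)) * Real.exp (-((T : ℝ) / 4)) :=
        mul_le_mul_of_nonneg_right h5 (Real.exp_pos _).le
    _ = ‖∑ j, w j * b j‖ := by
        rw [mul_assoc, ← Real.exp_add, add_neg_cancel, Real.exp_zero, mul_one]

theorem lowM (h0 : S_FTIeq) (Q : ℕ) (τ μ : ℂ) (ty : ι → Ty)
    (i₀ : Option ι) (π : ι → ι) (b : ι → ℂ) (c : ι → ι → ℂ) (hA : Adm Q τ μ ty i₀ π b c)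
    (e : ℕ) : ∃ T₀ : ℕ, ∀ T : ℕ, T₀ ≤ T → ∀ w : ι → ℂ, w ≠ 0 → (∀ j, ty j ≠ Ty.mul → w j = 0) →
      (∀ j, ∃ z : ℤ, w j = (z : ℂ)) → (∀ j, ‖w j‖ ≤ ((T ^ e : ℕ) : ℝ)) →
      Real.exp (-((T : ℝ) / 2)) ≤ ‖∑ j, w j * b j‖ := by
  classical
  obtain ⟨m, eq, hFT⟩ := ftsub h0 Q (nb μ ty b) hA.ft (fun j => ty j = Ty.mul)
  have hnb : ∀ i, nb μ ty b (eq i).1 = b (eq i).1 := by
    intro i
    unfold nb
    rw [(eq i).2]
  simp only [hnb] at hFT
  obtain ⟨T₁, hT₁⟩ := EB.I_LMk.main Q _ hFT (e + 1) ((m : ℝ) + 1)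
    (by have : (0 : ℝ) ≤ m := Nat.cast_nonneg m
        linarith)
  refine ⟨2 * T₁ + 4 * (4 ^ e + 1) + 4, fun T hT w hw0 hwt hwI hwb => ?_⟩
  choose z hz using hwI
  obtain ⟨T', hT'⟩ : ∃ T' : ℕ, T' = T / 2 := ⟨_, rfl⟩
  have hT3 : T ^ e ≤ T' ^ (e + 1) := by
    have h1 : T ≤ 4 * T' := by omega
    have h2 : 4 ^ e ≤ T' := by omega
    calc T ^ e ≤ (4 * T') ^ e := Nat.pow_le_pow_left h1 _
        _ = 4 ^ e * T' ^ e := by rw [mul_pow]
        _ ≤ T' * T' ^ e := Nat.mul_le_mul_right _ h2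
        _ = T' ^ (e + 1) := by ring
  have hev : aeval (fun i => b (eq i).1) (FTLM_P fun i => z (eq i).1) = ∑ j, w j * b j := by
    rw [FTLM_aeval, sumsub (fun j => ty j = Ty.mul) (fun j => w j * b j) (fun j hj => by
      rw [hwt j hj, zero_mul]) eq]
    refine Finset.sum_congr rfl fun i _ => ?_
    rw [hz]
  have hne : ∑ j, w j * b j ≠ 0 := by
    intro h1
    have h2 := hA.mul z (fun j hj => by
      have h3 := hz j
      rw [hwt j hj] at h3
      exact_mod_cast h3.symm) (by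
      rw [← h1]
      refine Finset.sum_congr rfl fun j _ => ?_
      rw [hz])
    apply hw0
    funext j
    rw [hz j, h2]
    simp
  have h1 := hT₁ T' (by omega) (FTLM_P fun i => z (eq i).1) ((FTLM_deg _).trans (by norm_num)) (by
    refine (FTLM_len _ ((T' : ℝ) ^ (e + 1)) (fun i => ?_)).trans ?_
    · have h2 := hwb (eq i).1
      rw [hz, Complex.norm_intCast] at h2
      refine h2.trans ?_
      exact_mod_cast hT3
    · refine mul_le_mul_of_nonneg_right ?_ (by positivity)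
      linarith) (by rw [hev]; exact hne)
  rw [hev] at h1
  refine le_trans (Real.exp_le_exp.2 ?_) h1
  have h4 : 2 * T' ≤ T := by omega
  have h5 : (2 : ℝ) * T' ≤ T := by exact_mod_cast h4
  linarith

/-! ### From relations to a small point -/

theorem comb_val {n ρ : ℕ} (u : Fin n → ι → ℂ) (w : ι → ℂ) (t : Fin ρ → Fin n → ℤ)
    (c : Fin ρ → ℤ) : ∑ j, w j * pcI u (fun i => ∑ r, c r * t r i) j =
      ∑ r, (c r : ℂ) * ∑ j, w j * pcI u (t r) j := by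
  have h1 : ∀ j, pcI u (fun i => ∑ r, c r * t r i) j = ∑ r, (c r : ℂ) * pcI u (t r) j := by
    intro j
    unfold pcI
    simp only [Int.cast_sum, Int.cast_mul, Finset.sum_mul, Finset.mul_sum]
    rw [Finset.sum_comm]
    exact Finset.sum_congr rfl fun r _ => Finset.sum_congr rfl fun i _ => by ring
  simp only [h1, Finset.mul_sum]
  rw [Finset.sum_comm]
  exact Finset.sum_congr rfl fun r _ => Finset.sum_congr rfl fun j _ => by ring

theorem wsum (w a : ι → ℂ) (W : ℝ) (hw : ∀ j, ‖w j‖ ≤ W) :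
    ‖∑ j, w j * a j‖ ≤ W * ∑ j, ‖a j‖ := by
  calc ‖∑ j, w j * a j‖ ≤ ∑ j, ‖w j * a j‖ := norm_sum_le _ _
    _ ≤ ∑ j, W * ‖a j‖ := by
        refine Finset.sum_le_sum (fun j _ => ?_)
        rw [norm_mul]
        exact mul_le_mul_of_nonneg_right (hw j) (norm_nonneg _)
    _ = W * ∑ j, ‖a j‖ := by rw [Finset.mul_sum]

/-- many solutions give one with value `0` -/
theorem fin0 {n : ℕ} (T c' e f ρ : ℕ) (u : Fin n → ι → ℂ) (w : ι → ℂ) (Λ' : Set (Fin n → ℤ))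
    (ω₁ ω₂ : ℂ) (hρ : 2 * f + 5 ≤ ρ + 1) (b6 : 2 * c' + 1 ≤ T) (b7 : 2 * (ρ + 1) + 1 ≤ T)
    (b8 : (ρ + 1) * c' ≤ T) (hn : e + 2 * ρ + 1 ≤ n)
    (hcnt : (T + 1) ^ n ≤ T ^ e * Set.ncard {s : Fin n → ℤ |
      (∀ i, |s i| ≤ ((c' * T : ℕ) : ℤ)) ∧ s ∈ Λ'})
    (hΛ : ∀ s ∈ Λ', (∀ i, |s i| ≤ ((c' * T : ℕ) : ℤ)) → ∃ p q : ℤ,
      ∑ j, w j * pcI u s j = p * ω₁ + q * ω₂ ∧ |p| ≤ ((T ^ f : ℕ) : ℤ) ∧
        |q| ≤ ((T ^ f : ℕ) : ℤ)) :
    ∃ s : Fin n → ℤ, s ≠ 0 ∧ (∀ i, |s i| ≤ ((T ^ 3 : ℕ) : ℤ)) ∧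
      ∑ j, w j * pcI u s j = 0 := by
  have hT1 : 1 ≤ T := by omega
  have hbox : (2 * (c' * T) + 1) ^ ρ < Set.ncard {s : Fin n → ℤ |
      (∀ i, |s i| ≤ ((c' * T : ℕ) : ℤ)) ∧ s ∈ Λ'} := by
    by_contra hcon
    push Not at hcon
    have h1 : (2 * (c' * T) + 1) ≤ T ^ 2 := by
      calc 2 * (c' * T) + 1 ≤ 2 * (c' * T) + T := by omega
        _ = (2 * c' + 1) * T := by ring
        _ ≤ T * T := Nat.mul_le_mul_right _ b6
        _ = T ^ 2 := by ring
    have h2 : (T + 1) ^ n ≤ T ^ (e + 2 * ρ) := by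
      calc (T + 1) ^ n ≤ T ^ e * _ := hcnt
        _ ≤ T ^ e * (T ^ 2) ^ ρ := Nat.mul_le_mul_left _ (hcon.trans (Nat.pow_le_pow_left h1 _))
        _ = T ^ (e + 2 * ρ) := by rw [← pow_mul, ← pow_add]
    have h3 : T ^ (e + 2 * ρ) < (T + 1) ^ n := by
      calc T ^ (e + 2 * ρ) ≤ (T + 1) ^ (e + 2 * ρ) := Nat.pow_le_pow_left (by omega) _
        _ < (T + 1) ^ (e + 2 * ρ + 1) := Nat.pow_lt_pow_right (by omega) (by omega)
        _ ≤ (T + 1) ^ n := Nat.pow_le_pow_right (by omega) hn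
    omega
  obtain ⟨t, htL, htb, hti⟩ := x_ManyInd n (c' * T) ρ Λ' hbox
  choose p qq hpq hp hq using fun r => hΛ (t r) (htL r) (htb r)
  obtain ⟨cc, hcc0, hccT, hcp, hcq⟩ := EB.I_NZ.sieg2 x_Sieg (ρ + 1) T f hρ b7 p qq hp hq
  refine ⟨fun i => ∑ r, cc r * t r i, EB.I_NZ.ne_comb t hti cc hcc0, ?_, ?_⟩
  · intro i
    calc |∑ r, cc r * t r i| ≤ ∑ r, |cc r * t r i| := Finset.abs_sum_le_sum_abs _ _
      _ ≤ ∑ _r : Fin (ρ + 1), (T : ℤ) * ((c' * T : ℕ) : ℤ) := by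
          refine Finset.sum_le_sum (fun r _ => ?_)
          rw [abs_mul]
          exact mul_le_mul (hccT r) (htb r i) (abs_nonneg _) (by positivity)
      _ = (((ρ + 1) * c' * T ^ 2 : ℕ) : ℤ) := by
          rw [Finset.sum_const, Finset.card_univ, Fintype.card_fin, nsmul_eq_mul]
          push_cast
          ring
      _ ≤ ((T ^ 3 : ℕ) : ℤ) := by
          have h1 : (ρ + 1) * c' * T ^ 2 ≤ T ^ 3 := by
            calc (ρ + 1) * c' * T ^ 2 ≤ T * T ^ 2 := Nat.mul_le_mul_right _ b8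
              _ = T ^ 3 := by ring
          exact_mod_cast h1
  · rw [comb_val]
    simp only [hpq]
    have h1 : ∑ r, (cc r : ℂ) * ((p r : ℂ) * ω₁ + (qq r : ℂ) * ω₂) =
        ((∑ r, cc r * p r : ℤ) : ℂ) * ω₁ + ((∑ r, cc r * qq r : ℤ) : ℂ) * ω₂ := by
      push_cast
      rw [Finset.sum_mul, Finset.sum_mul, ← Finset.sum_add_distrib]
      exact Finset.sum_congr rfl fun r _ => by ring
    rw [h1, hcp, hcq]
    simp

/-- the small point -/
theorem fin1 {n : ℕ} (T e : ℕ) (hT1 : 1 ≤ T) (b : ι → ℂ) (x : Fin n → ℂ) (ε : ℝ) (hε0 : 0 ≤ ε)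
    (u : Fin n → ι → ℂ) (hu : ∀ i j, ‖u i j - b j * x i‖ ≤ ε) (w : ι → ℂ)
    (hwb : ∀ j, ‖w j‖ ≤ ((T ^ e : ℕ) : ℝ)) (b9 : Fintype.card ι * n ≤ T)
    (hT₃ : (T : ℝ) ^ (e + 4) * Real.exp ((T : ℝ) / 2) ≤ Real.exp (T : ℝ))
    (s : Fin n → ℤ) (hsb : ∀ i, |s i| ≤ ((T ^ 3 : ℕ) : ℤ)) (hval : ∑ j, w j * pcI u s j = 0)
    (hlow' : Real.exp (-((T : ℝ) / 2)) ≤ ‖∑ j, w j * b j‖) :
    ‖cmb s x‖ ≤ ε * Real.exp T := by
  have hT1' : (1 : ℝ) ≤ T := by exact_mod_cast hT1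
  have hwb' : ∀ j, ‖w j‖ ≤ (T : ℝ) ^ e := fun j => by
    have := hwb j
    push_cast at this
    exact this
  have hsb' : ∀ i, |(s i : ℝ)| ≤ (T : ℝ) ^ 3 := by
    intro i
    have h1 : ((|s i| : ℤ) : ℝ) ≤ (((T ^ 3 : ℕ) : ℤ) : ℝ) := by exact_mod_cast hsb i
    rw [Int.cast_abs] at h1
    push_cast at h1
    exact h1
  have hkey : (∑ j, w j * b j) * cmb s x = ∑ j, w j * ∑ i, (s i : ℂ) * (b j * x i - u i j) := by
    have h1 : ∀ j, w j * ∑ i, (s i : ℂ) * (b j * x i - u i j) =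
        w j * b j * cmb s x - w j * pcI u s j := by
      intro j
      unfold cmb pcI
      have h2 : ∑ i, (s i : ℂ) * (b j * x i - u i j) =
          b j * ∑ i, (s i : ℂ) * x i - ∑ i, (s i : ℂ) * u i j := by
        rw [Finset.mul_sum, ← Finset.sum_sub_distrib]
        exact Finset.sum_congr rfl fun i _ => by ring
      rw [h2]
      ring
    simp only [h1]
    rw [Finset.sum_sub_distrib, hval, sub_zero, Finset.sum_mul]
  have hup : ‖(∑ j, w j * b j) * cmb s x‖ ≤ (T : ℝ) ^ (e + 4) * ε := by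
    rw [hkey]
    calc ‖∑ j, w j * ∑ i, (s i : ℂ) * (b j * x i - u i j)‖
        ≤ (T : ℝ) ^ e * ∑ j, ‖∑ i, (s i : ℂ) * (b j * x i - u i j)‖ := wsum w _ _ hwb'
      _ ≤ (T : ℝ) ^ e * ∑ _j : ι, (T : ℝ) ^ 3 * ∑ _i : Fin n, ε := by
          refine mul_le_mul_of_nonneg_left (Finset.sum_le_sum fun j _ => ?_) (by positivity)
          refine (EB.I_NZ.nsum (fun i => b j * x i - u i j) s _ hsb').trans ?_
          refine mul_le_mul_of_nonneg_left (Finset.sum_le_sum fun i _ => ?_) (by positivity)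
          rw [norm_sub_rev]
          exact hu i j
      _ = (T : ℝ) ^ (e + 3) * (((Fintype.card ι * n : ℕ) : ℝ) * ε) := by
          rw [Finset.sum_const, Finset.sum_const, Finset.card_univ, Finset.card_univ,
            Fintype.card_fin, nsmul_eq_mul, nsmul_eq_mul]
          push_cast
          ring
      _ ≤ (T : ℝ) ^ (e + 3) * ((T : ℝ) * ε) := by
          refine mul_le_mul_of_nonneg_left ?_ (by positivity)
          exact mul_le_mul_of_nonneg_right (by exact_mod_cast b9) hε0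
      _ = (T : ℝ) ^ (e + 4) * ε := by ring
  calc ‖cmb s x‖ = Real.exp ((T : ℝ) / 2) * (Real.exp (-((T : ℝ) / 2)) * ‖cmb s x‖) := by
        rw [← mul_assoc, ← Real.exp_add, add_neg_cancel, Real.exp_zero, one_mul]
    _ ≤ Real.exp ((T : ℝ) / 2) * (‖∑ j, w j * b j‖ * ‖cmb s x‖) := by
        refine mul_le_mul_of_nonneg_left ?_ (Real.exp_pos _).le
        exact mul_le_mul_of_nonneg_right hlow' (norm_nonneg _)
    _ ≤ Real.exp ((T : ℝ) / 2) * ((T : ℝ) ^ (e + 4) * ε) := by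
        refine mul_le_mul_of_nonneg_left ?_ (Real.exp_pos _).le
        rw [← norm_mul]
        exact hup
    _ = ε * ((T : ℝ) ^ (e + 4) * Real.exp ((T : ℝ) / 2)) := by ring
    _ ≤ ε * Real.exp T := mul_le_mul_of_nonneg_left hT₃ hε0

/-- the values of the relation are bounded -/
theorem vbound {n : ℕ} (T c' e : ℕ) (b : ι → ℂ) (x : Fin n → ℂ) (ε : ℝ)
    (hε1 : ε ≤ 1) (u : Fin n → ι → ℂ) (hu : ∀ i j, ‖u i j - b j * x i‖ ≤ ε) (w : ι → ℂ)
    (hwb : ∀ j, ‖w j‖ ≤ ((T ^ e : ℕ) : ℝ))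
    (b5' : (c' : ℝ) * ∑ j, ∑ i, (‖b j * x i‖ + 1) ≤ (T : ℝ)) (t : Fin n → ℤ)
    (htb : ∀ i, |t i| ≤ ((c' * T : ℕ) : ℤ)) :
    ‖∑ j, w j * pcI u t j‖ ≤ (T : ℝ) ^ (e + 2) := by
  have htb' : ∀ i, |(t i : ℝ)| ≤ (c' : ℝ) * T := by
    intro i
    have h1 : ((|t i| : ℤ) : ℝ) ≤ (((c' * T : ℕ) : ℤ) : ℝ) := by exact_mod_cast htb i
    rw [Int.cast_abs] at h1
    push_cast at h1
    exact h1
  have hub : ∀ i j, ‖u i j‖ ≤ ‖b j * x i‖ + 1 := by
    intro i j
    have h1 : ‖u i j‖ ≤ ‖u i j - b j * x i‖ + ‖b j * x i‖ := by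
      have := norm_add_le (u i j - b j * x i) (b j * x i)
      rwa [sub_add_cancel] at this
    have h2 := hu i j
    linarith
  have hwb' : ∀ j, ‖w j‖ ≤ (T : ℝ) ^ e := fun j => by
    have := hwb j
    push_cast at this
    exact this
  have h1 : ∀ j, ‖pcI u t j‖ ≤ ((c' : ℝ) * T) * ∑ i, (‖b j * x i‖ + 1) := by
    intro j
    refine (EB.I_NZ.nsum (fun i => u i j) t ((c' : ℝ) * T) htb').trans ?_
    exact mul_le_mul_of_nonneg_left (Finset.sum_le_sum fun i _ => hub i j) (by positivity)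
  calc ‖∑ j, w j * pcI u t j‖ ≤ (T : ℝ) ^ e * ∑ j, ‖pcI u t j‖ := wsum w _ _ hwb'
    _ ≤ (T : ℝ) ^ e * ∑ j, ((c' : ℝ) * T) * ∑ i, (‖b j * x i‖ + 1) :=
        mul_le_mul_of_nonneg_left (Finset.sum_le_sum fun j _ => h1 j) (by positivity)
    _ = (T : ℝ) ^ (e + 1) * ((c' : ℝ) * ∑ j, ∑ i, (‖b j * x i‖ + 1)) := by
        rw [← Finset.mul_sum]; ring
    _ ≤ (T : ℝ) ^ (e + 1) * T := mul_le_mul_of_nonneg_left b5' (by positivity)
    _ = (T : ℝ) ^ (e + 2) := by ring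

end I_NZM

theorem NZM_pf (h0 : S_FTIeq) (h1 : S_ZMall) : S_NZM := by
  classical
  intro Q q ι _ hι
  obtain ⟨k, hrel⟩ := I_NZM.rel h1 q ι
  obtain ⟨e, he⟩ : ∃ e : ℕ, e = q * k + 1 := ⟨_, rfl⟩
  obtain ⟨c', hc'⟩ : ∃ c' : ℕ, c' = k + 1 := ⟨_, rfl⟩
  rw [← he, ← hc'] at hrel
  obtain ⟨ρ, hρ⟩ : ∃ ρ : ℕ, ρ = 2 * (e + 4) + 4 := ⟨_, rfl⟩
  refine ⟨e + 2 * ρ + 1, fun τ μ hτ hμ ty i₀ π b c hA n hn x => ?_⟩
  obtain ⟨T₁, hT₁⟩ := hrel τ μ hτ hμ ty n (by omega)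
  obtain ⟨T₂, hT₂⟩ := I_NZM.lowE h0 Q τ μ hτ hμ ty i₀ π b c hA e
  obtain ⟨T₄, hT₄⟩ := I_NZM.lowM h0 Q τ μ ty i₀ π b c hA e
  obtain ⟨T₃, hT₃⟩ := EB.I_NZ.exp_ev (e + 4)
  obtain ⟨K₁, hK₁⟩ : ∃ K : ℕ, 1 / τ.im + ‖τ‖ + 1 ≤ (K : ℝ) := ⟨_, Nat.le_ceil _⟩
  obtain ⟨K₂, hK₂⟩ : ∃ K : ℕ, (c' : ℝ) * ∑ j, ∑ i, (‖b j * x i‖ + 1) ≤ (K : ℝ) :=
    ⟨_, Nat.le_ceil _⟩
  refine ⟨T₁ + T₂ + T₄ + T₃ + K₁ + K₂ + (2 * c' + 1) + (2 * (ρ + 1) + 1) +
    ((ρ + 1) * c') + Fintype.card ι * n + 1,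
    fun T hT ε u c'' F hε0 hε1 hu hech hF hdeg hvan => ?_⟩
  have b1 : T₁ ≤ T := by omega
  have b2 : T₂ ≤ T := by omega
  have b2' : T₄ ≤ T := by omega
  have b3 : T₃ ≤ T := by omega
  have b4 : K₁ ≤ T := by omega
  have b5 : K₂ ≤ T := by omega
  have b6 : 2 * c' + 1 ≤ T := by omega
  have b7 : 2 * (ρ + 1) + 1 ≤ T := by omega
  have b8 : (ρ + 1) * c' ≤ T := by omega
  have b9 : Fintype.card ι * n ≤ T := by omega
  have hT1 : 1 ≤ T := by omega
  have hT1' : (1 : ℝ) ≤ T := by exact_mod_cast hT1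
  have b4' : 1 / τ.im + ‖τ‖ + 1 ≤ (T : ℝ) := hK₁.trans (by exact_mod_cast b4)
  have b5' : (c' : ℝ) * ∑ j, ∑ i, (‖b j * x i‖ + 1) ≤ (T : ℝ) := hK₂.trans (by exact_mod_cast b5)
  clear hT
  obtain ⟨w, hw0, hw⟩ := hT₁ T b1 u c'' F hF hdeg hvan
  rcases hw with ⟨hwt, hwI, hwb, hcnt⟩ | ⟨hwt, hwI, hwb, hcnt⟩ | ⟨hwt, hwc, hcnt⟩
  · obtain ⟨s, hs0, hsb, hval⟩ := I_NZM.fin0 T c' e (e + 2 + 2) ρ u w
      {s | ∑ j, w j * pcI u s j ∈ Lam τ} 1 τ (by omega) b6 b7 b8 hn hcnt (by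
        intro s hs hsb
        obtain ⟨p, qq, hpq⟩ := mem_Lam.1 hs
        have h2 := EB.I_NZ.pq_bound hτ b4' hpq
          (I_NZM.vbound T c' e b x ε hε1 u hu w hwb b5' s hsb)
        exact ⟨p, qq, by rw [hpq, mul_one], h2.1, h2.2⟩)
    exact ⟨s, hs0, hsb, I_NZM.fin1 T e hT1 b x ε hε0 u hu w hwb b9 (hT₃ T b3) s hsb hval
      (hT₂ T b2 w hw0 hwt hwI hwb)⟩
  · obtain ⟨s, hs0, hsb, hval⟩ := I_NZM.fin0 T c' e (e + 2 + 2) ρ u w
      {s | ∃ z : ℤ, ∑ j, w j * pcI u s j = (z : ℂ) * (2 * Real.pi * Complex.I)}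
      (2 * Real.pi * Complex.I) 0 (by omega) b6 b7 b8 hn hcnt (by
        intro s hs hsb
        obtain ⟨z, hz⟩ := hs
        have h2 := I_NZM.vbound T c' e b x ε hε1 u hu w hwb b5' s hsb
        refine ⟨z, 0, by rw [hz]; simp, ?_, by simp⟩
        rw [hz, norm_mul, Complex.norm_intCast] at h2
        have h3 : (1 : ℝ) ≤ ‖(2 * Real.pi * Complex.I : ℂ)‖ := by
          rw [norm_mul, Complex.norm_I, mul_one, norm_mul, Complex.norm_real,
            Real.norm_of_nonneg Real.pi_pos.le]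
          have := Real.pi_gt_three
          simp only [Complex.norm_ofNat]
          linarith
        have h4 : |(z : ℝ)| ≤ (T : ℝ) ^ (e + 2) :=
          (le_mul_of_one_le_right (abs_nonneg _) h3).trans h2
        have h5 : |(z : ℝ)| ≤ (T : ℝ) ^ (e + 2 + 2) :=
          h4.trans (pow_le_pow_right₀ hT1' (by omega))
        have h6 : ((|z| : ℤ) : ℝ) ≤ (((T ^ (e + 2 + 2) : ℕ) : ℤ) : ℝ) := by
          push_cast
          exact h5
        exact_mod_cast h6)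
    exact ⟨s, hs0, hsb, I_NZM.fin1 T e hT1 b x ε hε0 u hu w hwb b9 (hT₃ T b3) s hsb hval
      (hT₄ T b2' w hw0 hwt hwI hwb)⟩
  · -- the additive relation
    have hwz : ∀ i, i₀ ≠ some i → w i = 0 := by
      intro i hi
      by_cases hti : ty i = Ty.add
      · obtain ⟨h3, h4⟩ := hech.2 i hti hi
        have h5 : ∑ l, w l * (μ * c'' l (π i)) = 0 := hwc (π i) h3
        rw [Finset.sum_eq_single i] at h5
        · rw [h4 i hti, if_pos rfl, mul_one] at h5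
          exact (mul_eq_zero.1 h5).resolve_right hμ
        · intro l _ hl
          by_cases htl : ty l = Ty.add
          · rw [h4 l htl, if_neg hl]
            ring
          · rw [hwt l htl, zero_mul]
        · simp
      · exact hwt i hti
    obtain ⟨i, hi⟩ : ∃ i, w i ≠ 0 := by
      by_contra hcon
      push Not at hcon
      exact hw0 (funext hcon)
    have hi₀ : i₀ = some i := by
      by_contra hcon
      exact hi (hwz i hcon)
    have hws : ∀ s : Fin n → ℤ, ∑ j, w j * pcI u s j = w i * pcI u s i := by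
      intro s
      rw [Finset.sum_eq_single i]
      · intro l _ hl
        rw [hwz l (by rw [hi₀]; intro h; exact hl (Option.some.inj h).symm), zero_mul]
      · simp
    have hone : ‖∑ j, (Pi.single i (1 : ℂ) : ι → ℂ) j * b j‖ = 1 := by
      rw [I_NZM.single_sum, hA.one i hi₀, norm_one]
    obtain ⟨s, hs0, hsb, hval⟩ := I_NZM.fin0 T c' e (e + 2 + 2) ρ u (Pi.single i 1)
      {s | ∑ j, w j * pcI u s j = 0} 0 0 (by omega) b6 b7 b8 hn hcnt (by
        intro s hs _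
        refine ⟨0, 0, ?_, by simp, by simp⟩
        rw [I_NZM.single_sum]
        have h3 : w i * pcI u s i = 0 := by rw [← hws s]; exact hs
        rw [(mul_eq_zero.1 h3).resolve_left hi]
        simp)
    refine ⟨s, hs0, hsb, I_NZM.fin1 T e hT1 b x ε hε0 u hu (Pi.single i 1) ?_ b9 (hT₃ T b3) s
      hsb hval ?_⟩
    · intro j
      have h7 : (1 : ℝ) ≤ ((T ^ e : ℕ) : ℝ) := by
        exact_mod_cast Nat.one_le_pow _ _ hT1
      by_cases hj : j = i
      · subst hj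
        rw [Pi.single_eq_same, norm_one]
        exact h7
      · rw [Pi.single_eq_of_ne hj, norm_zero]
        linarith
    · rw [hone]
      refine Real.exp_le_one_iff.2 ?_
      linarith

end Pool.Agent.Work.MP_8da9ea_nt.MX
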