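import Pool.Agent.Work.MP_8da9ea_nt.MX.StmtsF
import Pool.Agent.Work.MP_8da9ea_nt.MX.I_NZM
import Pool.Agent.Work.MP_8da9ea_nt.MX.I_FTIeq

/-!
# Mixed block, N4: a polynomial vanishing at many perturbed points
-/

set_option autoImplicit false

namespace Pool.Agent.Work.MP_8da9ea_nt.MX

open MvPolynomial Pool.Agent.Work.MP_327059_nt.GL Pool.Agent.Work.MP_8da9ea_nt.S
  Pool.Agent.Work.MP_8da9ea_nt.EB

namespace I_NZF

variable {ι : Type} [Fintype ι]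

/-! ### The relation -/

theorem rel1 (q c₀ k : ℕ) (τ μ : ℂ) (hμ : μ ≠ 0) (ty : ι → Ty) (n : ℕ) (Cc : ℕ)
    (hC : ∀ (c : ι → ι → ℂ) (S B K : ℕ) (a : ι → ℂ) (u : Fin n → ι → ℂ)
      (A : Finset (Fin n → ℤ)) (F : MvPolynomial ι ℂ), 1 ≤ B → 1 ≤ K →
      (∀ s ∈ A, ∀ i, 0 ≤ s i ∧ s i ≤ (S : ℤ)) →
      (S + 1) ^ n ≤ K * A.card → F ≠ 0 → (∀ i, F.degreeOf i ≤ B) →
      (∀ s ∈ A, Gd τ ty (fun j => a j + pcI u s j) ∧
        eval (PT τ ty c (fun j => a j + pcI u s j)) F = 0) →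
      Rel τ ty c u S (k * S) (Cc * (2 * B * K) ^ k))
    (T : ℕ) (hT : Cc * 4 ^ k + 2 * Fintype.card ι + 3 ≤ T) (S : ℕ) (u : Fin n → ι → ℂ)
    (c' : ι → ι → ℂ) (F : MvPolynomial ι ℂ) (hF : F ≠ 0) (hdeg : ∀ j, F.degreeOf j ≤ T ^ q)
    (A : Finset (Fin n → ℤ)) (hmem : ∀ s ∈ A, ∀ i, 0 ≤ s i ∧ s i ≤ (S : ℤ))
    (hcard : (S + 1) ^ n ≤ T ^ c₀ * A.card)
    (hvan : ∀ s ∈ A, Gd τ ty (pcI u s) → eval (PN τ μ ty c' (pcI u s)) F = 0) :
    Rel τ ty (fun i j => μ * c' i j) u S ((k + 1) * S) (T ^ ((q + c₀) * k + c₀ + 1)) := by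
  classical
  have hT1 : 1 ≤ T := by omega
  have hTC : Cc * 4 ^ k ≤ T := by omega
  have hTm : 2 * Fintype.card ι ≤ T := by omega
  have hTq : 1 ≤ T ^ q := Nat.one_le_pow _ _ hT1
  have hTc : 1 ≤ T ^ c₀ := Nat.one_le_pow _ _ hT1
  have hpowc : Cc * (2 * T ^ q * (2 * T ^ c₀)) ^ k ≤ T ^ ((q + c₀) * k + c₀ + 1) := by
    calc Cc * (2 * T ^ q * (2 * T ^ c₀)) ^ k = (Cc * 4 ^ k) * T ^ ((q + c₀) * k) := by
          rw [show 2 * T ^ q * (2 * T ^ c₀) = 4 * T ^ (q + c₀) by rw [pow_add]; ring, mul_pow,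
            ← pow_mul]
          ring
      _ ≤ T * T ^ ((q + c₀) * k) := Nat.mul_le_mul_right _ hTC
      _ = T ^ ((q + c₀) * k + 1) := by ring
      _ ≤ T ^ ((q + c₀) * k + c₀ + 1) := Nat.pow_le_pow_right hT1 (by omega)
  by_cases hbig : A.card ≤ 2 * (A.filter fun s => Gd τ ty (pcI u s)).card
  · have hA : (S + 1) ^ n ≤ 2 * T ^ c₀ * (A.filter fun s => Gd τ ty (pcI u s)).card := by
      calc (S + 1) ^ n ≤ T ^ c₀ * A.card := hcard
        _ ≤ T ^ c₀ * (2 * (A.filter fun s => Gd τ ty (pcI u s)).card) :=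
            Nat.mul_le_mul_left _ hbig
        _ = 2 * T ^ c₀ * (A.filter fun s => Gd τ ty (pcI u s)).card := by ring
    have h6 := hC (fun i j => μ * c' i j) S (T ^ q) (2 * T ^ c₀) 0 u
      (A.filter fun s => Gd τ ty (pcI u s))
      (bind₁ (fun j => C (I_NZM.dsc μ ty j) * X j) F) hTq (by omega)
      (fun s hs => hmem s (Finset.mem_filter.1 hs).1) hA
      (I_NZM.bind_ne _ (I_NZM.dsc_ne μ hμ ty) F hF)
      (fun i => (I_NZM.bind_degree _ F i).trans (hdeg i)) (by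
        intro s hs
        have h1 := Finset.mem_filter.1 hs
        have h2 := hvan s h1.1 h1.2
        have h3 : (fun j => (0 : ι → ℂ) j + pcI u s j) = pcI u s := by
          funext j
          rw [Pi.zero_apply, zero_add]
        rw [h3]
        refine ⟨h1.2, ?_⟩
        rw [I_NZM.eval_bind]
        rw [I_NZM.PN_eq] at h2
        exact h2)
    exact I_NZM.Rel_mono (Nat.mul_le_mul_right _ (by omega)) hpowc h6
  · push Not at hbig
    have hsum : (A.filter fun s => Gd τ ty (pcI u s)).card +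
        (A.filter fun s => ¬ Gd τ ty (pcI u s)).card = A.card :=
      Finset.card_filter_add_card_filter_not _
    have hsub : (A.filter fun s => ¬ Gd τ ty (pcI u s)) ⊆
        (Finset.univ.filter fun j : ι => ty j = Ty.ell).biUnion
          fun j : ι => A.filter fun s => pcI u s j ∈ Lam τ := by
      intro s hs
      obtain ⟨h1, h2⟩ := Finset.mem_filter.1 hs
      unfold Gd at h2
      push Not at h2
      obtain ⟨j, hj, hj'⟩ := h2
      exact Finset.mem_biUnion.2 ⟨j, Finset.mem_filter.2 ⟨Finset.mem_univ j, hj⟩,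
        Finset.mem_filter.2 ⟨h1, hj'⟩⟩
    have h3 := (Finset.card_le_card hsub).trans Finset.card_biUnion_le
    have hApos : 0 < A.card := by
      rcases Nat.eq_zero_or_pos A.card with h0 | h0
      · rw [h0, mul_zero] at hcard
        have : 0 < (S + 1) ^ n := by positivity
        omega
      · exact h0
    obtain ⟨j, hjt, hj⟩ : ∃ j : ι, ty j = Ty.ell ∧ A.card ≤ 2 * Fintype.card ι *
        (A.filter fun s => pcI u s j ∈ Lam τ).card := by
      by_contra hcon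
      push Not at hcon
      have h5 : A.card < 2 * ∑ j ∈ Finset.univ.filter fun j : ι => ty j = Ty.ell,
          (A.filter fun s => pcI u s j ∈ Lam τ).card := by omega
      have hne : (Finset.univ.filter fun j : ι => ty j = Ty.ell).Nonempty := by
        rw [Finset.nonempty_iff_ne_empty]
        intro h0
        rw [h0, Finset.sum_empty] at h5
        omega
      have h4 : ∑ j ∈ Finset.univ.filter fun j : ι => ty j = Ty.ell, 2 * Fintype.card ι *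
          (A.filter fun s => pcI u s j ∈ Lam τ).card <
          ∑ _j ∈ Finset.univ.filter fun j : ι => ty j = Ty.ell, A.card :=
        Finset.sum_lt_sum_of_nonempty hne (fun j hj => hcon j (Finset.mem_filter.1 hj).2)
      rw [← Finset.mul_sum, Finset.sum_const, smul_eq_mul] at h4
      have h6 : (Finset.univ.filter fun j : ι => ty j = Ty.ell).card ≤ Fintype.card ι :=
        Finset.card_le_univ _
      have h7 : (Finset.univ.filter fun j : ι => ty j = Ty.ell).card * A.card ≤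
          Fintype.card ι * A.card := Nat.mul_le_mul_right _ h6
      have h8 : Fintype.card ι * A.card ≤ Fintype.card ι * (2 *
          ∑ j ∈ Finset.univ.filter fun j : ι => ty j = Ty.ell,
            (A.filter fun s => pcI u s j ∈ Lam τ).card) :=
        Nat.mul_le_mul_left _ h5.le
      have h9 : Fintype.card ι * (2 *
          ∑ j ∈ Finset.univ.filter fun j : ι => ty j = Ty.ell,
            (A.filter fun s => pcI u s j ∈ Lam τ).card) = 2 * Fintype.card ι *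
          ∑ j ∈ Finset.univ.filter fun j : ι => ty j = Ty.ell,
            (A.filter fun s => pcI u s j ∈ Lam τ).card := by ring
      omega
    refine ⟨Pi.single j 1, ?_, Or.inl ⟨?_, ?_, ?_, ?_⟩⟩
    · intro h
      have := congrFun h j
      simp at this
    · intro l hl
      by_cases hlj : l = j
      · subst hlj
        exact absurd hjt hl
      · rw [Pi.single_eq_of_ne hlj]
    · intro l
      by_cases hl : l = j
      · subst hl
        rw [Pi.single_eq_same]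
        exact EB.I_NZ.isI1 τ
      · rw [Pi.single_eq_of_ne hl]
        exact EB.I_NZ.isI0 τ
    · intro l
      have h7 : (1 : ℝ) ≤ ((T ^ ((q + c₀) * k + c₀ + 1) : ℕ) : ℝ) := by
        exact_mod_cast Nat.one_le_pow _ _ hT1
      by_cases hl : l = j
      · subst hl
        rw [Pi.single_eq_same, norm_one]
        exact h7
      · rw [Pi.single_eq_of_ne hl, norm_zero]
        linarith
    · have h8 : (A.filter fun s => pcI u s j ∈ Lam τ).card ≤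
          Set.ncard {s : Fin n → ℤ | (∀ i, |s i| ≤ (((k + 1) * S : ℕ) : ℤ)) ∧
            ∑ l, (Pi.single j (1 : ℂ) : ι → ℂ) l * pcI u s l ∈ Lam τ} := by
        rw [← Set.ncard_coe_finset]
        refine Set.ncard_le_ncard ?_ ((EB.I_NZ.boxfin n _).subset (fun s hs => hs.1))
        intro s hs
        have h9 := Finset.mem_filter.1 (Finset.mem_coe.1 hs)
        refine ⟨fun i => ?_, ?_⟩
        · obtain ⟨h10, h11⟩ := hmem s h9.1 i
          rw [abs_of_nonneg h10]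
          refine h11.trans ?_
          exact_mod_cast Nat.le_mul_of_pos_left S (by omega)
        · rw [I_NZM.single_sum]
          exact h9.2
      calc (S + 1) ^ n ≤ T ^ c₀ * A.card := hcard
        _ ≤ T ^ c₀ * (2 * Fintype.card ι * (A.filter fun s => pcI u s j ∈ Lam τ).card) :=
            Nat.mul_le_mul_left _ hj
        _ = (2 * Fintype.card ι * T ^ c₀) * (A.filter fun s => pcI u s j ∈ Lam τ).card := by ring
        _ ≤ T ^ ((q + c₀) * k + c₀ + 1) *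
            Set.ncard {s : Fin n → ℤ | (∀ i, |s i| ≤ (((k + 1) * S : ℕ) : ℤ)) ∧
            ∑ l, (Pi.single j (1 : ℂ) : ι → ℂ) l * pcI u s l ∈ Lam τ} := by
            refine Nat.mul_le_mul ?_ h8
            calc 2 * Fintype.card ι * T ^ c₀ ≤ T * T ^ c₀ := Nat.mul_le_mul_right _ hTm
              _ = T ^ (c₀ + 1) := by ring
              _ ≤ T ^ ((q + c₀) * k + c₀ + 1) := Nat.pow_le_pow_right hT1 (by omega)

/-- the relation, with uniform exponents -/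
theorem rel (hZ : S_ZMall) (q c₀ : ℕ) (ι : Type) [Fintype ι] : ∃ k : ℕ, ∀ (τ μ : ℂ), 0 < τ.im →
    μ ≠ 0 → ∀ (ty : ι → Ty) (n : ℕ), ∃ T₁ : ℕ, ∀ T : ℕ, T₁ ≤ T → ∀ S : ℕ,
    ∀ (u : Fin n → ι → ℂ) (c' : ι → ι → ℂ) (F : MvPolynomial ι ℂ) (A : Finset (Fin n → ℤ)),
      F ≠ 0 → (∀ j, F.degreeOf j ≤ T ^ q) → (∀ s ∈ A, ∀ i, 0 ≤ s i ∧ s i ≤ (S : ℤ)) →
      (S + 1) ^ n ≤ T ^ c₀ * A.card →
      (∀ s ∈ A, Gd τ ty (pcI u s) → eval (PN τ μ ty c' (pcI u s)) F = 0) →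
      Rel τ ty (fun i j => μ * c' i j) u S ((k + 1) * S) (T ^ ((q + c₀) * k + c₀ + 1)) := by
  choose k hk using hZ ι
  haveI := I_NZM.finTy
  obtain ⟨k₀, hk₀⟩ : ∃ k₀ : ℕ, ∀ ty : ι → Ty, k ty ≤ k₀ := by
    obtain ⟨M, hM⟩ := (Set.finite_range k).bddAbove
    exact ⟨M, fun ty => hM ⟨ty, rfl⟩⟩
  refine ⟨k₀, fun τ μ hτ hμ ty n => ?_⟩
  obtain ⟨Cc, hC1, hC⟩ := hk ty τ hτ n
  refine ⟨Cc * 4 ^ k ty + 2 * Fintype.card ι + 3, fun T hT S u c' F A hF hdeg hmem hcard hvan => ?_⟩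
  have h1 := rel1 q c₀ (k ty) τ μ hμ ty n Cc hC T hT S u c' F hF hdeg A hmem hcard hvan
  refine I_NZM.Rel_mono (Nat.mul_le_mul_right _ (Nat.add_le_add_right (hk₀ ty) 1))
    (Nat.pow_le_pow_right (by omega) ?_) h1
  have := Nat.mul_le_mul_left (q + c₀) (hk₀ ty)
  omega

/-! ### Lower bounds -/

theorem lowE (Q : ℕ) (τ μ : ℂ) (hτ : 0 < τ.im) (hμ : μ ≠ 0) (ty : ι → Ty)
    (b : ι → ℂ) (hA : AdB Q τ μ ty b) (e : ℕ) : ∃ T₀ : ℕ, ∀ T : ℕ, T₀ ≤ T → ∀ w : ι → ℂ, w ≠ 0 → (∀ j, ty j ≠ Ty.ell → w j = 0) →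
      (∀ j, IsI τ (w j)) → (∀ j, ‖w j‖ ≤ ((T ^ e : ℕ) : ℝ)) →
      Real.exp (-((T : ℝ) / 2)) ≤ ‖∑ j, w j * b j‖ := by
  classical
  obtain ⟨m, eq, hFT⟩ := I_NZM.ftsub FTIeq_pf Q (nb μ ty b) hA.ft (fun j => ty j = Ty.ell)
  have hnb : ∀ i, nb μ ty b (eq i).1 = b (eq i).1 / μ := by
    intro i
    unfold nb
    rw [(eq i).2]
  have hK : KLI τ (fun i => nb μ ty b (eq i).1) := by
    intro g hg h1
    obtain ⟨g', hg'⟩ : ∃ g' : ι → ℂ, g' = fun j => if h : ty j = Ty.ell then g (eq.symm ⟨j, h⟩)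
      else 0 := ⟨_, rfl⟩
    have h2 : ∀ i, g' (eq i).1 = g i := by
      intro i
      rw [hg']
      simp only [(eq i).2, dite_true]
      congr 1
      exact eq.symm_apply_apply i
    have h3 := hA.ell g' (fun j hj => by rw [hg']; simp only [hj, dite_false]) (fun j => by
        rw [hg']
        by_cases h : ty j = Ty.ell
        · simp only [h, dite_true]
          exact hg _
        · simp only [h, dite_false]
          refine ⟨1, one_ne_zero, ?_, ?_⟩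
          · rw [mul_zero]
            exact EB.I_NZ.mem0 τ
          · rw [mul_zero, zero_mul]
            exact EB.I_NZ.mem0 τ) (by
        rw [I_NZM.sumsub (fun j => ty j = Ty.ell) _ (fun j hj => by
          rw [hg']
          simp only [hj, dite_false, zero_mul]) eq]
        simp only [h2]
        have h4 : ∑ i, g i * b (eq i).1 = μ * ∑ i, g i * nb μ ty b (eq i).1 := by
          rw [Finset.mul_sum]
          refine Finset.sum_congr rfl fun i _ => ?_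
          rw [hnb]
          field_simp
        rw [h4, h1, mul_zero])
    funext i
    rw [← h2 i, h3]
    rfl
  obtain ⟨T₁, hT₁⟩ := LMk_pf FText_pf Q m τ _ hτ hFT hK (e + 1)
  obtain ⟨K, hKμ⟩ : ∃ K : ℕ, ‖μ‖⁻¹ ≤ (K : ℝ) := ⟨_, Nat.le_ceil _⟩
  refine ⟨4 * T₁ + 4 * K + 8 * (8 ^ e + 1) + 8, fun T hT w hw0 hwt hwI hwb => ?_⟩
  obtain ⟨T', hT'⟩ : ∃ T' : ℕ, T' = T / 4 := ⟨_, rfl⟩
  have h1 := hT₁ T' (by omega) (fun i => w (eq i).1) (by
    intro h
    apply hw0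
    funext j
    by_cases hj : ty j = Ty.ell
    · have h2 := congrFun h (eq.symm ⟨j, hj⟩)
      simp only [Equiv.apply_symm_apply, Pi.zero_apply] at h2
      exact h2
    · exact hwt j hj) (fun i => hwI _) (fun i => (hwb _).trans (by
    have h1 : T ≤ 8 * T' := by omega
    have h2 : 8 ^ e ≤ T' := by omega
    have h3 : T ^ e ≤ T' ^ (e + 1) := by
      calc T ^ e ≤ (8 * T') ^ e := Nat.pow_le_pow_left h1 _
        _ = 8 ^ e * T' ^ e := by rw [mul_pow]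
        _ ≤ T' * T' ^ e := Nat.mul_le_mul_right _ h2
        _ = T' ^ (e + 1) := by ring
    exact_mod_cast h3))
  have h2 : ∑ i, w (eq i).1 * nb μ ty b (eq i).1 = (∑ j, w j * b j) * μ⁻¹ := by
    rw [I_NZM.sumsub (fun j => ty j = Ty.ell) (fun j => w j * b j) (fun j hj => by
      rw [hwt j hj, zero_mul]) eq, Finset.sum_mul]
    refine Finset.sum_congr rfl fun i _ => ?_
    rw [hnb]
    field_simp
  rw [h2, norm_mul, norm_inv] at h1
  have h3 : (T' : ℝ) ≤ (T : ℝ) / 4 := by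
    have h4 : 4 * T' ≤ T := by omega
    have h5 : (4 : ℝ) * T' ≤ T := by exact_mod_cast h4
    linarith
  have h4 : ‖μ‖⁻¹ ≤ Real.exp ((T : ℝ) / 4) := by
    have h5 : 4 * K ≤ T := by omega
    have h6 : (4 : ℝ) * K ≤ T := by exact_mod_cast h5
    have h7 := Real.add_one_le_exp ((T : ℝ) / 4)
    linarith
  have h5 : Real.exp (-((T : ℝ) / 4)) ≤ ‖∑ j, w j * b j‖ * Real.exp ((T : ℝ) / 4) :=
    (Real.exp_le_exp.2 (by linarith)).trans
      (h1.trans (mul_le_mul_of_nonneg_left h4 (norm_nonneg _)))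
  have h6 : Real.exp (-((T : ℝ) / 2)) = Real.exp (-((T : ℝ) / 4)) * Real.exp (-((T : ℝ) / 4)) := by
    rw [← Real.exp_add]
    congr 1
    ring
  rw [h6]
  calc Real.exp (-((T : ℝ) / 4)) * Real.exp (-((T : ℝ) / 4))
      ≤ (‖∑ j, w j * b j‖ * Real.exp ((T : ℝ) / 4)) * Real.exp (-((T : ℝ) / 4)) :=
        mul_le_mul_of_nonneg_right h5 (Real.exp_pos _).le
    _ = ‖∑ j, w j * b j‖ := by
        rw [mul_assoc, ← Real.exp_add, add_neg_cancel, Real.exp_zero, mul_one]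

theorem lowM (Q : ℕ) (τ μ : ℂ) (ty : ι → Ty)
    (b : ι → ℂ) (hA : AdB Q τ μ ty b) (e : ℕ) : ∃ T₀ : ℕ, ∀ T : ℕ, T₀ ≤ T → ∀ w : ι → ℂ, w ≠ 0 → (∀ j, ty j ≠ Ty.mul → w j = 0) →
      (∀ j, ∃ z : ℤ, w j = (z : ℂ)) → (∀ j, ‖w j‖ ≤ ((T ^ e : ℕ) : ℝ)) →
      Real.exp (-((T : ℝ) / 2)) ≤ ‖∑ j, w j * b j‖ := by
  classical
  obtain ⟨m, eq, hFT⟩ := I_NZM.ftsub FTIeq_pf Q (nb μ ty b) hA.ft (fun j => ty j = Ty.mul)
  have hnb : ∀ i, nb μ ty b (eq i).1 = b (eq i).1 := by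
    intro i
    unfold nb
    rw [(eq i).2]
  simp only [hnb] at hFT
  obtain ⟨T₁, hT₁⟩ := EB.I_LMk.main Q _ hFT (e + 1) ((m : ℝ) + 1)
    (by have : (0 : ℝ) ≤ m := Nat.cast_nonneg m
        linarith)
  refine ⟨2 * T₁ + 4 * (4 ^ e + 1) + 4, fun T hT w hw0 hwt hwI hwb => ?_⟩
  choose z hz using hwI
  obtain ⟨T', hT'⟩ : ∃ T' : ℕ, T' = T / 2 := ⟨_, rfl⟩
  have hT3 : T ^ e ≤ T' ^ (e + 1) := by
    have h1 : T ≤ 4 * T' := by omega
    have h2 : 4 ^ e ≤ T' := by omega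
    calc T ^ e ≤ (4 * T') ^ e := Nat.pow_le_pow_left h1 _
        _ = 4 ^ e * T' ^ e := by rw [mul_pow]
        _ ≤ T' * T' ^ e := Nat.mul_le_mul_right _ h2
        _ = T' ^ (e + 1) := by ring
  have hev : aeval (fun i => b (eq i).1) (FTLM_P fun i => z (eq i).1) = ∑ j, w j * b j := by
    rw [FTLM_aeval, I_NZM.sumsub (fun j => ty j = Ty.mul) (fun j => w j * b j) (fun j hj => by
      rw [hwt j hj, zero_mul]) eq]
    refine Finset.sum_congr rfl fun i _ => ?_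
    rw [hz]
  have hne : ∑ j, w j * b j ≠ 0 := by
    intro h1
    have h2 := hA.mul z (fun j hj => by
      have h3 := hz j
      rw [hwt j hj] at h3
      exact_mod_cast h3.symm) (by
      rw [← h1]
      refine Finset.sum_congr rfl fun j _ => ?_
      rw [hz])
    apply hw0
    funext j
    rw [hz j, h2]
    simp
  have h1 := hT₁ T' (by omega) (FTLM_P fun i => z (eq i).1) ((FTLM_deg _).trans (by norm_num)) (by
    refine (FTLM_len _ ((T' : ℝ) ^ (e + 1)) (fun i => ?_)).trans ?_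
    · have h2 := hwb (eq i).1
      rw [hz, Complex.norm_intCast] at h2
      refine h2.trans ?_
      exact_mod_cast hT3
    · refine mul_le_mul_of_nonneg_right ?_ (by positivity)
      linarith) (by rw [hev]; exact hne)
  rw [hev] at h1
  refine le_trans (Real.exp_le_exp.2 ?_) h1
  have h4 : 2 * T' ≤ T := by omega
  have h5 : (2 : ℝ) * T' ≤ T := by exact_mod_cast h4
  linarith

/-! ### The contradiction for elliptic and multiplicative relations -/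

open Classical in
/-- The parameters with the additive ones replaced. -/
noncomputable def up (ty : ι → Ty) (b : ι → ℂ) {n : ℕ} (x : Fin n → ℂ) (u : Fin n → ι → ℂ) :
    Fin n → ι → ℂ := fun i j => if ty j = Ty.add then b j * x i else u i j

theorem up_pc (ty : ι → Ty) (b : ι → ℂ) {n : ℕ} (x : Fin n → ℂ) (u : Fin n → ι → ℂ)
    (s : Fin n → ℤ) (j : ι) (hj : ty j ≠ Ty.add) : pcI (up ty b x u) s j = pcI u s j := by
  unfold pcI up
  simp only [if_neg hj]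

theorem up_sum (ty : ι → Ty) (b : ι → ℂ) {n : ℕ} (x : Fin n → ℂ) (u : Fin n → ι → ℂ)
    (w : ι → ℂ) (hw : ∀ j, ty j = Ty.add → w j = 0) (s : Fin n → ℤ) :
    ∑ j, w j * pcI (up ty b x u) s j = ∑ j, w j * pcI u s j := by
  refine Finset.sum_congr rfl fun j _ => ?_
  by_cases hj : ty j = Ty.add
  · rw [hw j hj, zero_mul, zero_mul]
  · rw [up_pc ty b x u s j hj]

theorem up_hu (ty : ι → Ty) (b : ι → ℂ) {n : ℕ} (x : Fin n → ℂ) (u : Fin n → ι → ℂ) (ε : ℝ)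
    (hε : 0 ≤ ε) (hu : ∀ i j, ty j ≠ Ty.add → ‖u i j - b j * x i‖ ≤ ε) :
    ∀ i j, ‖up ty b x u i j - b j * x i‖ ≤ ε := by
  intro i j
  unfold up
  by_cases hj : ty j = Ty.add
  · rw [if_pos hj, sub_self, norm_zero]
    exact hε
  · rw [if_neg hj]
    exact hu i j hj

/-- A small point contradicts the measure. -/
theorem contra {n : ℕ} (Q' : ℕ) (x : Fin n → ℂ) (B : ℝ)
    (hB : ∀ s : Fin n → ℤ, s ≠ 0 → ∀ S : ℝ, 1 ≤ S → (∀ i, |(s i : ℝ)| ≤ S) →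
      Real.exp (-(B * S ^ Q')) ≤ ‖∑ i, (s i : ℂ) * x i‖)
    (T S : ℕ) (hT2 : 2 ≤ T) (hTB : B ≤ (T : ℝ)) (hS : S ≤ T ^ 2) (s : Fin n → ℤ) (hs0 : s ≠ 0)
    (hsb : ∀ i, |s i| ≤ ((S ^ 3 : ℕ) : ℤ))
    (hsm : ‖cmb s x‖ ≤ Real.exp (-((T : ℝ) ^ (6 * Q' + 6))) * Real.exp (S : ℝ)) : False := by
  have hT2' : (2 : ℝ) ≤ T := by exact_mod_cast hT2
  have h1 := hB s hs0 ((T : ℝ) ^ 6) (one_le_pow₀ (by linarith)) (by
    intro i
    have h2 : ((|s i| : ℤ) : ℝ) ≤ (((S ^ 3 : ℕ) : ℤ) : ℝ) := by exact_mod_cast hsb i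
    rw [Int.cast_abs] at h2
    have h3 : S ^ 3 ≤ T ^ 6 := by
      calc S ^ 3 ≤ (T ^ 2) ^ 3 := Nat.pow_le_pow_left hS 3
        _ = T ^ 6 := by rw [← pow_mul]
    refine h2.trans ?_
    have h4 : ((S ^ 3 : ℕ) : ℝ) ≤ ((T ^ 6 : ℕ) : ℝ) := by exact_mod_cast h3
    push_cast at h4 ⊢
    exact h4)
  have h2 : Real.exp (-(B * ((T : ℝ) ^ 6) ^ Q')) ≤
      Real.exp (-((T : ℝ) ^ (6 * Q' + 6)) + (S : ℝ)) := by
    rw [Real.exp_add]
    exact h1.trans hsm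
  rw [Real.exp_le_exp] at h2
  have h3 : (S : ℝ) ≤ (T : ℝ) ^ 2 := by exact_mod_cast hS
  have h4 : ((T : ℝ) ^ 6) ^ Q' = (T : ℝ) ^ (6 * Q') := by rw [← pow_mul]
  have h5 : (T : ℝ) ^ (6 * Q' + 6) = (T : ℝ) ^ (6 * Q') * (T : ℝ) ^ 6 := pow_add _ _ _
  have h6 : (1 : ℝ) ≤ (T : ℝ) ^ (6 * Q') := one_le_pow₀ (by linarith)
  rw [h4, h5] at h2
  have h7 : (T : ℝ) ^ (6 * Q') * ((T : ℝ) ^ 6 - B) ≤ (T : ℝ) ^ 2 := by nlinarith
  have h8 : (T : ℝ) ^ 2 < (T : ℝ) ^ 6 - B := by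
    have h9 : (T : ℝ) ≤ (T : ℝ) ^ 2 := by nlinarith
    have h10 : (4 : ℝ) ≤ (T : ℝ) ^ 2 := by nlinarith
    have h11 : (T : ℝ) ^ 6 = (T : ℝ) ^ 2 * ((T : ℝ) ^ 2 * (T : ℝ) ^ 2) := by ring
    have h12 : (16 : ℝ) ≤ (T : ℝ) ^ 2 * (T : ℝ) ^ 2 := by nlinarith
    have h13 : (T : ℝ) ^ 2 * 16 ≤ (T : ℝ) ^ 6 := by
      rw [h11]
      exact mul_le_mul_of_nonneg_left h12 (by positivity)
    nlinarith
  have h14 : (0 : ℝ) ≤ (T : ℝ) ^ 6 - B := by
    have : (0 : ℝ) ≤ (T : ℝ) ^ 2 := by positivity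
    linarith
  have h15 : 1 * ((T : ℝ) ^ 6 - B) ≤ (T : ℝ) ^ (6 * Q') * ((T : ℝ) ^ 6 - B) :=
    mul_le_mul_of_nonneg_right h6 h14
  linarith

end I_NZF

/-- Item NZF. -/
theorem NZF_pf (h1 : S_ZMall) : S_NZF := by
  classical
  intro Q Q' q c₀ ι _
  obtain ⟨k, hrel⟩ := I_NZF.rel h1 q c₀ ι
  obtain ⟨e, he⟩ : ∃ e : ℕ, e = (q + c₀) * k + c₀ + 1 := ⟨_, rfl⟩
  obtain ⟨c', hc'⟩ : ∃ c' : ℕ, c' = k + 1 := ⟨_, rfl⟩
  rw [← he, ← hc'] at hrel
  obtain ⟨ρ, hρ⟩ : ∃ ρ : ℕ, ρ = 2 * (e + 4) + 4 := ⟨_, rfl⟩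
  refine ⟨e + 2 * ρ + 1, c', e, by omega, fun τ μ hτ hμ ty i₀ π b hA n hn x hMS => ?_⟩
  obtain ⟨T₁, hT₁⟩ := hrel τ μ hτ hμ ty n
  obtain ⟨T₂, hT₂⟩ := I_NZF.lowE Q τ μ hτ hμ ty b hA e
  obtain ⟨T₄, hT₄⟩ := I_NZF.lowM Q τ μ ty b hA e
  obtain ⟨T₃, hT₃⟩ := EB.I_NZ.exp_ev (e + 4)
  obtain ⟨K₁, hK₁⟩ : ∃ K : ℕ, 1 / τ.im + ‖τ‖ + 1 ≤ (K : ℝ) := ⟨_, Nat.le_ceil _⟩
  obtain ⟨K₂, hK₂⟩ : ∃ K : ℕ, (c' : ℝ) * ∑ j, ∑ i, (‖b j * x i‖ + 1) ≤ (K : ℝ) :=
    ⟨_, Nat.le_ceil _⟩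
  obtain ⟨B, hB1, hB⟩ := hMS
  obtain ⟨K₃, hK₃⟩ : ∃ K : ℕ, B ≤ (K : ℝ) := ⟨_, Nat.le_ceil _⟩
  refine ⟨T₁ + T₂ + T₄ + T₃ + K₁ + K₂ + K₃ + (2 * c' + 1) + (2 * (ρ + 1) + 1) +
    ((ρ + 1) * c') + Fintype.card ι * n + 2,
    fun T hT S hTS hST u c'' F A hu hech hF hdeg hmem hcard hvan => ?_⟩
  have b1 : T₁ ≤ T := by omega
  have b2 : T₂ ≤ S := by omega
  have b2' : T₄ ≤ S := by omega
  have b3 : T₃ ≤ S := by omega
  have b4 : K₁ ≤ S := by omega
  have b5 : K₂ ≤ S := by omega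
  have b5a : K₃ ≤ T := by omega
  have b6 : 2 * c' + 1 ≤ S := by omega
  have b7 : 2 * (ρ + 1) + 1 ≤ S := by omega
  have b8 : (ρ + 1) * c' ≤ S := by omega
  have b9 : Fintype.card ι * n ≤ S := by omega
  have hT2 : 2 ≤ T := by omega
  have hS1 : 1 ≤ S := by omega
  have hS1' : (1 : ℝ) ≤ S := by exact_mod_cast hS1
  have b4' : 1 / τ.im + ‖τ‖ + 1 ≤ (S : ℝ) := hK₁.trans (by exact_mod_cast b4)
  have b5' : (c' : ℝ) * ∑ j, ∑ i, (‖b j * x i‖ + 1) ≤ (S : ℝ) := hK₂.trans (by exact_mod_cast b5)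
  have bB : B ≤ (T : ℝ) := hK₃.trans (by exact_mod_cast b5a)
  clear hT
  have hTe : T ^ e ≤ S ^ e := Nat.pow_le_pow_left hTS e
  obtain ⟨ε, hε⟩ : ∃ ε : ℝ, ε = Real.exp (-((T : ℝ) ^ (6 * Q' + 6))) := ⟨_, rfl⟩
  have hε0 : 0 ≤ ε := by rw [hε]; exact (Real.exp_pos _).le
  have hε1 : ε ≤ 1 := by
    rw [hε]
    refine Real.exp_le_one_iff.2 ?_
    have : (0 : ℝ) ≤ (T : ℝ) ^ (6 * Q' + 6) := by positivity
    linarith
  rw [← hε] at hu
  have hu' := I_NZF.up_hu ty b x u ε hε0 hu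
  obtain ⟨w, hw0, hw⟩ := hT₁ T b1 S u c'' F A hF hdeg (fun s hs => (hmem s hs).2) hcard hvan
  rcases hw with ⟨hwt, hwI, hwb, hcnt⟩ | ⟨hwt, hwI, hwb, hcnt⟩ | ⟨hwt, hwc, hcnt⟩
  · exfalso
    have hwa : ∀ j, ty j = Ty.add → w j = 0 := fun j hj => hwt j (by rw [hj]; decide)
    have hsu := I_NZF.up_sum ty b x u w hwa
    have hwb' : ∀ j, ‖w j‖ ≤ ((S ^ e : ℕ) : ℝ) := fun j => (hwb j).trans (by exact_mod_cast hTe)
    obtain ⟨s, hs0, hsb, hval⟩ := I_NZM.fin0 S c' e (e + 2 + 2) ρ (I_NZF.up ty b x u) w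
      {s | ∑ j, w j * pcI u s j ∈ Lam τ} 1 τ (by omega) b6 b7 b8 hn
      (hcnt.trans (Nat.mul_le_mul_right _ hTe)) (by
        intro s hs hsb
        obtain ⟨p, qq, hpq⟩ := mem_Lam.1 hs
        have h2 := EB.I_NZ.pq_bound hτ b4' (by rw [← hsu] at hpq; exact hpq)
          (I_NZM.vbound S c' e b x ε hε1 (I_NZF.up ty b x u) hu' w hwb' b5' s hsb)
        exact ⟨p, qq, by rw [hsu, hpq, mul_one], h2.1, h2.2⟩)
    have h3 := I_NZM.fin1 S e hS1 b x ε hε0 (I_NZF.up ty b x u) hu' w hwb' b9 (hT₃ S b3) s hsb hval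
      (hT₂ S b2 w hw0 hwt hwI hwb')
    rw [hε] at h3
    exact I_NZF.contra Q' x B hB T S hT2 bB hST s hs0 hsb h3
  · exfalso
    have hwa : ∀ j, ty j = Ty.add → w j = 0 := fun j hj => hwt j (by rw [hj]; decide)
    have hsu := I_NZF.up_sum ty b x u w hwa
    have hwb' : ∀ j, ‖w j‖ ≤ ((S ^ e : ℕ) : ℝ) := fun j => (hwb j).trans (by exact_mod_cast hTe)
    obtain ⟨s, hs0, hsb, hval⟩ := I_NZM.fin0 S c' e (e + 2 + 2) ρ (I_NZF.up ty b x u) w
      {s | ∃ z : ℤ, ∑ j, w j * pcI u s j = (z : ℂ) * (2 * Real.pi * Complex.I)}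
      (2 * Real.pi * Complex.I) 0 (by omega) b6 b7 b8 hn
      (hcnt.trans (Nat.mul_le_mul_right _ hTe)) (by
        intro s hs hsb
        obtain ⟨z, hz⟩ := hs
        have h2 := I_NZM.vbound S c' e b x ε hε1 (I_NZF.up ty b x u) hu' w hwb' b5' s hsb
        rw [hsu] at h2 ⊢
        refine ⟨z, 0, by rw [hz]; simp, ?_, by simp⟩
        rw [hz, norm_mul, Complex.norm_intCast] at h2
        have h3 : (1 : ℝ) ≤ ‖(2 * Real.pi * Complex.I : ℂ)‖ := by
          rw [norm_mul, Complex.norm_I, mul_one, norm_mul, Complex.norm_real,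
            Real.norm_of_nonneg Real.pi_pos.le]
          have := Real.pi_gt_three
          simp only [Complex.norm_ofNat]
          linarith
        have h4 : |(z : ℝ)| ≤ (S : ℝ) ^ (e + 2) :=
          (le_mul_of_one_le_right (abs_nonneg _) h3).trans h2
        have h5 : |(z : ℝ)| ≤ (S : ℝ) ^ (e + 2 + 2) :=
          h4.trans (pow_le_pow_right₀ hS1' (by omega))
        have h6 : ((|z| : ℤ) : ℝ) ≤ (((S ^ (e + 2 + 2) : ℕ) : ℤ) : ℝ) := by
          push_cast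
          exact h5
        exact_mod_cast h6)
    have h3 := I_NZM.fin1 S e hS1 b x ε hε0 (I_NZF.up ty b x u) hu' w hwb' b9 (hT₃ S b3) s hsb hval
      (hT₄ S b2' w hw0 hwt hwI hwb')
    rw [hε] at h3
    exact I_NZF.contra Q' x B hB T S hT2 bB hST s hs0 hsb h3
  · -- the additive relation
    have hwz : ∀ i, i₀ ≠ some i → w i = 0 := by
      intro i hi
      by_cases hti : ty i = Ty.add
      · obtain ⟨h3, h4⟩ := hech.2 i hti hi
        have h5 : ∑ l, w l * (μ * c'' l (π i)) = 0 := hwc (π i) h3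
        rw [Finset.sum_eq_single i] at h5
        · rw [h4 i hti, if_pos rfl, mul_one] at h5
          exact (mul_eq_zero.1 h5).resolve_right hμ
        · intro l _ hl
          by_cases htl : ty l = Ty.add
          · rw [h4 l htl, if_neg hl]
            ring
          · rw [hwt l htl, zero_mul]
        · simp
      · exact hwt i hti
    obtain ⟨i, hi⟩ : ∃ i, w i ≠ 0 := by
      by_contra hcon
      push Not at hcon
      exact hw0 (funext hcon)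
    have hi₀ : i₀ = some i := by
      by_contra hcon
      exact hi (hwz i hcon)
    have hws : ∀ s : Fin n → ℤ, ∑ j, w j * pcI u s j = w i * pcI u s i := by
      intro s
      rw [Finset.sum_eq_single i]
      · intro l _ hl
        rw [hwz l (by rw [hi₀]; intro h; exact hl (Option.some.inj h).symm), zero_mul]
      · simp
    refine ⟨i, hi₀, hcnt.trans (Nat.mul_le_mul_left _ ?_)⟩
    refine Set.ncard_le_ncard ?_ ((EB.I_NZ.boxfin n _).subset (fun s hs => hs.1))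
    rintro s ⟨hs1, hs2⟩
    refine ⟨hs1, ?_⟩
    rw [hws s] at hs2
    exact (mul_eq_zero.1 hs2).resolve_left hi

end Pool.Agent.Work.MP_8da9ea_nt.MX
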