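import Pool.Agent.Work.MP_8da9ea_nt.MX.StmtsF
import Pool.Agent.Work.MP_327059_nt.FR.I_PLg

/-!
# N1 (PLv), the vector valued pigeonhole
-/

set_option autoImplicit false

namespace Pool.Agent.Work.MP_8da9ea_nt.MX

open Finset

/-- **N1 (pigeonhole, vector valued).** -/
theorem PLv_pf : S_PLv := by
  classical
  intro N ι Ξ _ _ _ K h c R A hR hA hK hΞ hc hcount
  set D := Fintype.card N with hD
  set G := Fintype.card ι with hG
  have hD1 : 1 ≤ D := by
    rcases Nat.eq_zero_or_pos (D) with h0 | h0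
    · rw [h0, mul_zero] at hcount
      have : 0 < 4 * K ^ (G + 1) * Fintype.card Ξ := by positivity
      omega
    · exact h0
  have hA0 : (0 : ℝ) ≤ A := by linarith
  have hD1' : (1 : ℝ) ≤ (D : ℝ) := by exact_mod_cast hD1
  set Q : ℝ := (D : ℝ) * 2 ^ h * A ^ G with hQ
  have hQ1 : 1 ≤ Q := by
    have h1 : (1 : ℝ) ≤ 2 ^ h := one_le_pow₀ (by norm_num)
    have h2 : (1 : ℝ) ≤ A ^ G := one_le_pow₀ hA
    rw [hQ]
    have h3 : (1 : ℝ) ≤ (D : ℝ) * 2 ^ h := by nlinarith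
    nlinarith
  have hQ0 : 0 < Q := by linarith
  -- the coefficients
  let E : (N → ℤ) → (Ξ × (ι → Fin K)) → ℂ := fun p κ =>
    ∑ x : N, (p x : ℂ) * ∏ i, (c x κ.1 i (κ.2 i) * (R : ℂ) ^ (κ.2 i : ℕ))
  have hterm : ∀ (x : N) (κ : Ξ × (ι → Fin K)),
      ‖∏ i, (c x κ.1 i (κ.2 i) * (R : ℂ) ^ (κ.2 i : ℕ))‖ ≤ A ^ G := by
    intro x κ
    rw [norm_prod]
    calc ∏ i, ‖c x κ.1 i (κ.2 i) * (R : ℂ) ^ (κ.2 i : ℕ)‖ ≤ ∏ _i : ι, A := by
          refine Finset.prod_le_prod (fun _ _ => norm_nonneg _) (fun i _ => ?_)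
          rw [norm_mul, norm_pow, Complex.norm_real, Real.norm_eq_abs, abs_of_nonneg hR]
          refine (hc x κ.1 i (κ.2 i)).trans ?_
          exact div_le_self hA0 (one_le_pow₀ (by norm_num))
      _ = A ^ G := by rw [Finset.prod_const, Finset.card_univ]
  have hcardF : Fintype.card N = D := rfl
  have hE : ∀ (p : N → ℤ), (∀ x, |p x| ≤ (2 : ℤ) ^ h) → ∀ κ, ‖E p κ‖ ≤ Q := by
    intro p hp κ
    refine (norm_sum_le _ _).trans ?_
    calc ∑ x : N, ‖(p x : ℂ) * ∏ i, (c x κ.1 i (κ.2 i) * (R : ℂ) ^ (κ.2 i : ℕ))‖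
        ≤ ∑ _x : N, (2 : ℝ) ^ h * A ^ G := by
          refine Finset.sum_le_sum (fun x _ => ?_)
          rw [norm_mul]
          refine mul_le_mul ?_ (hterm x κ) (norm_nonneg _) (by positivity)
          rw [Complex.norm_intCast]
          have := hp x
          exact_mod_cast this
      _ = Q := by
          rw [Finset.sum_const, Finset.card_univ, hcardF, nsmul_eq_mul, hQ]
          ring
  -- the pigeonhole principle
  let P : Type := N → Fin (2 ^ h + 1)
  let toI : P → (N → ℤ) := fun q x => ((q x : ℕ) : ℤ)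
  have htoI : ∀ (q : P) x, |toI q x| ≤ (2 : ℤ) ^ h := by
    intro q x
    have h1 : ((q x : ℕ) : ℤ) ≤ 2 ^ h := by
      have := (q x).2
      have h2 : (q x : ℕ) ≤ 2 ^ h := by omega
      exact_mod_cast h2
    rw [abs_of_nonneg (by positivity : (0:ℤ) ≤ ((q x : ℕ) : ℤ))]
    exact h1
  let pat : P → ((Ξ × (ι → Fin K)) → Fin (2 ^ K + 1) × Fin (2 ^ K + 1)) := fun q κ =>
    (⟨Pool.Agent.Work.MP_327059_nt.FR.PLg_cell Q (2 ^ K) (E (toI q) κ).re,
        Pool.Agent.Work.MP_327059_nt.FR.PLg_cell_le Q hQ0 _ _ ((Complex.abs_re_le_norm _).trans (hE _ (htoI q) κ))⟩,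
      ⟨Pool.Agent.Work.MP_327059_nt.FR.PLg_cell Q (2 ^ K) (E (toI q) κ).im,
        Pool.Agent.Work.MP_327059_nt.FR.PLg_cell_le Q hQ0 _ _ ((Complex.abs_im_le_norm _).trans (hE _ (htoI q) κ))⟩)
  have hcard : Fintype.card ((Ξ × (ι → Fin K)) → Fin (2 ^ K + 1) × Fin (2 ^ K + 1))
      < Fintype.card P := by
    have e1 : Fintype.card ((Ξ × (ι → Fin K)) → Fin (2 ^ K + 1) × Fin (2 ^ K + 1))
        = ((2 ^ K + 1) * (2 ^ K + 1)) ^ (Fintype.card Ξ * K ^ G) := by
      rw [Fintype.card_fun, Fintype.card_prod, Fintype.card_fin, Fintype.card_prod,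
        Fintype.card_fun, Fintype.card_fin]
    have e2 : Fintype.card P = (2 ^ h + 1) ^ (D) := by
      show Fintype.card (N → Fin (2 ^ h + 1)) = _
      rw [Fintype.card_fun, hcardF, Fintype.card_fin]
    rw [e1, e2]
    have h2K : 2 ^ K + 1 ≤ 2 ^ (2 * K) := by
      have h1 : 2 ≤ 2 ^ K := by
        calc 2 = 2 ^ 1 := by norm_num
          _ ≤ 2 ^ K := Nat.pow_le_pow_right (by norm_num) hK
      have h2 : 2 ^ (2 * K) = 2 ^ K * 2 ^ K := by rw [two_mul, pow_add]
      rw [h2]; nlinarith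
    calc ((2 ^ K + 1) * (2 ^ K + 1)) ^ (Fintype.card Ξ * K ^ G)
        ≤ (2 ^ (2 * K) * 2 ^ (2 * K)) ^ (Fintype.card Ξ * K ^ G) :=
          Nat.pow_le_pow_left (Nat.mul_le_mul h2K h2K) _
      _ = 2 ^ (4 * K ^ (G + 1) * Fintype.card Ξ) := by
          rw [← pow_add, ← pow_mul]
          congr 1; rw [pow_succ]; ring
      _ ≤ 2 ^ (h * D) := Nat.pow_le_pow_right (by norm_num) hcount
      _ = (2 ^ h) ^ (D) := by rw [pow_mul]
      _ < (2 ^ h + 1) ^ (D) := Nat.pow_lt_pow_left (by omega) (by omega)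
  obtain ⟨q, q', hne, hpat⟩ := Fintype.exists_ne_map_eq_of_card_lt pat hcard
  let p : N → ℤ := fun x => toI q x - toI q' x
  have hEp : ∀ κ, ‖E p κ‖ ≤ 4 * Q / 2 ^ K := by
    intro κ
    have h1 : E p κ = E (toI q) κ - E (toI q') κ := by
      show ∑ x : N, ((toI q x - toI q' x : ℤ) : ℂ) * _ = _
      rw [← Finset.sum_sub_distrib]
      refine Finset.sum_congr rfl (fun x _ => ?_)
      push_cast; ring
    have h2 := congrFun hpat κ
    have h3 : Pool.Agent.Work.MP_327059_nt.FR.PLg_cell Q (2 ^ K) (E (toI q) κ).re = Pool.Agent.Work.MP_327059_nt.FR.PLg_cell Q (2 ^ K) (E (toI q') κ).re :=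
      congrArg (fun t : Fin (2 ^ K + 1) × Fin (2 ^ K + 1) => (t.1 : ℕ)) h2
    have h4 : Pool.Agent.Work.MP_327059_nt.FR.PLg_cell Q (2 ^ K) (E (toI q) κ).im = Pool.Agent.Work.MP_327059_nt.FR.PLg_cell Q (2 ^ K) (E (toI q') κ).im :=
      congrArg (fun t : Fin (2 ^ K + 1) × Fin (2 ^ K + 1) => (t.2 : ℕ)) h2
    have h5 := Pool.Agent.Work.MP_327059_nt.FR.PLg_cell_eq Q hQ0 (2 ^ K) (by positivity) _ _
      ((Complex.abs_re_le_norm _).trans (hE _ (htoI q) κ))
      ((Complex.abs_re_le_norm _).trans (hE _ (htoI q') κ)) h3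
    have h6 := Pool.Agent.Work.MP_327059_nt.FR.PLg_cell_eq Q hQ0 (2 ^ K) (by positivity) _ _
      ((Complex.abs_im_le_norm _).trans (hE _ (htoI q) κ))
      ((Complex.abs_im_le_norm _).trans (hE _ (htoI q') κ)) h4
    rw [h1]
    refine (Complex.norm_le_abs_re_add_abs_im _).trans ?_
    rw [Complex.sub_re, Complex.sub_im]
    push_cast at h5 h6
    have : 4 * Q / 2 ^ K = 2 * Q / 2 ^ K + 2 * Q / 2 ^ K := by ring
    linarith
  refine ⟨p, ?_, ?_, ?_⟩
  · intro h0
    apply hne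
    funext x
    have h1 := congrFun h0 x
    have h2 : ((q x : ℕ) : ℤ) - ((q' x : ℕ) : ℤ) = 0 := h1
    apply Fin.ext
    omega
  · intro x
    have h1 : ((q x : ℕ) : ℤ) ≤ 2 ^ h := by
      have := (q x).2
      have h2 : (q x : ℕ) ≤ 2 ^ h := by omega
      exact_mod_cast h2
    have h2 : ((q' x : ℕ) : ℤ) ≤ 2 ^ h := by
      have := (q' x).2
      have h2 : (q' x : ℕ) ≤ 2 ^ h := by omega
      exact_mod_cast h2
    show |((q x : ℕ) : ℤ) - ((q' x : ℕ) : ℤ)| ≤ 2 ^ h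
    rw [abs_le]
    constructor <;> linarith [Int.natCast_nonneg (q x : ℕ), Int.natCast_nonneg (q' x : ℕ)]
  · intro ξ z hz
    have hp : ∀ x, |p x| ≤ (2 : ℤ) ^ h := by
      intro x
      have h1 : ((q x : ℕ) : ℤ) ≤ 2 ^ h := by
        have := (q x).2
        have h2 : (q x : ℕ) ≤ 2 ^ h := by omega
        exact_mod_cast h2
      have h2 : ((q' x : ℕ) : ℤ) ≤ 2 ^ h := by
        have := (q' x).2
        have h2 : (q' x : ℕ) ≤ 2 ^ h := by omega
        exact_mod_cast h2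
      show |((q x : ℕ) : ℤ) - ((q' x : ℕ) : ℤ)| ≤ 2 ^ h
      rw [abs_le]
      constructor <;> linarith [Int.natCast_nonneg (q x : ℕ), Int.natCast_nonneg (q' x : ℕ)]
    -- truncation
    have hone := fun (x : N) (i : ι) =>
      Pool.Agent.Work.MP_327059_nt.FR.PLg_one (c x ξ i) R A hA0 K (hc x ξ i) (z i) (hz i)
    have htr : ∀ x : N,
        ‖∏ i, ∑' k, c x ξ i k * z i ^ k - ∏ i, ∑ k ∈ range K, c x ξ i k * z i ^ k‖
          ≤ G * 2 ^ G * A ^ G / 2 ^ K := by
      intro x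
      have h1 := Pool.Agent.Work.MP_327059_nt.FR.PLg_prod (Finset.univ : Finset (ι)) (fun i => ∑' k, c x ξ i k * z i ^ k)
        (fun i => ∑ k ∈ range K, c x ξ i k * z i ^ k) (2 * A) (2 * A / 2 ^ K)
        (by positivity) (by positivity) (fun i => (hone x i).1) (fun i => (hone x i).2.1)
        (fun i => (hone x i).2.2)
      rw [Finset.card_univ] at h1
      have h2 : (0 : ℝ) < 2 * A := by linarith
      have h3 : (G : ℝ) * (2 * A) ^ G * (2 * A / 2 ^ K)
          = (G * 2 ^ G * A ^ G / 2 ^ K) * (2 * A) := by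
        rw [mul_pow]; ring
      rw [h3] at h1
      exact le_of_mul_le_mul_right h1 h2
    have hsplit : ∑ x : N, (p x : ℂ) * ∏ i, ∑' k, c x ξ i k * z i ^ k
        = ∑ x : N, (p x : ℂ) * (∏ i, ∑' k, c x ξ i k * z i ^ k
            - ∏ i, ∑ k ∈ range K, c x ξ i k * z i ^ k)
          + ∑ x : N, (p x : ℂ) * ∏ i, ∑ k ∈ range K, c x ξ i k * z i ^ k := by
      rw [← Finset.sum_add_distrib]
      refine Finset.sum_congr rfl (fun x _ => ?_)
      ring
    have hA1 : ‖∑ x : N, (p x : ℂ) * (∏ i, ∑' k, c x ξ i k * z i ^ k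
            - ∏ i, ∑ k ∈ range K, c x ξ i k * z i ^ k)‖ ≤ G * 2 ^ G * Q / 2 ^ K := by
      refine (norm_sum_le _ _).trans ?_
      calc ∑ x : N, ‖(p x : ℂ) * (∏ i, ∑' k, c x ξ i k * z i ^ k
            - ∏ i, ∑ k ∈ range K, c x ξ i k * z i ^ k)‖
          ≤ ∑ _x : N, (2 : ℝ) ^ h * (G * 2 ^ G * A ^ G / 2 ^ K) := by
            refine Finset.sum_le_sum (fun x _ => ?_)
            rw [norm_mul]
            refine mul_le_mul ?_ (htr x) (norm_nonneg _) (by positivity)
            rw [Complex.norm_intCast]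
            have := hp x
            exact_mod_cast this
        _ = G * 2 ^ G * Q / 2 ^ K := by
            rw [Finset.sum_const, Finset.card_univ, hcardF, nsmul_eq_mul, hQ]
            push_cast; ring
    have hexp : ∑ x : N, (p x : ℂ) * ∏ i, ∑ k ∈ range K, c x ξ i k * z i ^ k
        = ∑ κ : ι → Fin K, (∑ x : N, (p x : ℂ) * ∏ i, c x ξ i (κ i))
            * ∏ i, z i ^ (κ i : ℕ) := by
      have h1 : ∀ x : N, ∏ i, ∑ k ∈ range K, c x ξ i k * z i ^ k
          = ∑ κ : ι → Fin K, ∏ i, (c x ξ i (κ i) * z i ^ (κ i : ℕ)) := by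
        intro x
        have h2 : ∀ i, ∑ k ∈ range K, c x ξ i k * z i ^ k
            = ∑ k : Fin K, c x ξ i k * z i ^ (k : ℕ) := by
          intro i
          rw [Finset.sum_range]
        simp only [h2]
        rw [Finset.prod_univ_sum]
        simp
      simp only [h1, Finset.mul_sum]
      rw [Finset.sum_comm]
      refine Finset.sum_congr rfl (fun κ _ => ?_)
      rw [Finset.sum_mul]
      refine Finset.sum_congr rfl (fun x _ => ?_)
      rw [Finset.prod_mul_distrib]; ring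
    have hA2 : ‖∑ x : N, (p x : ℂ) * ∏ i, ∑ k ∈ range K, c x ξ i k * z i ^ k‖
        ≤ K ^ G * (4 * Q / 2 ^ K) := by
      rw [hexp]
      refine (norm_sum_le _ _).trans ?_
      calc ∑ κ : ι → Fin K, ‖(∑ x : N, (p x : ℂ) * ∏ i, c x ξ i (κ i))
            * ∏ i, z i ^ (κ i : ℕ)‖
          ≤ ∑ _κ : ι → Fin K, 4 * Q / 2 ^ K := by
            refine Finset.sum_le_sum (fun κ _ => ?_)
            refine le_trans ?_ (hEp (ξ, κ))
            have e1 : E p (ξ, κ) = (∑ x : N, (p x : ℂ) * ∏ i, c x ξ i (κ i))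
                * ∏ i, (R : ℂ) ^ (κ i : ℕ) := by
              show ∑ x : N, (p x : ℂ) * ∏ i, (c x ξ i (κ i) * (R : ℂ) ^ (κ i : ℕ)) = _
              rw [Finset.sum_mul]
              refine Finset.sum_congr rfl (fun x _ => ?_)
              rw [Finset.prod_mul_distrib]; ring
            rw [e1, norm_mul, norm_mul]
            refine mul_le_mul_of_nonneg_left ?_ (norm_nonneg _)
            rw [norm_prod, norm_prod]
            refine Finset.prod_le_prod (fun _ _ => norm_nonneg _) (fun i _ => ?_)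
            rw [norm_pow, norm_pow, Complex.norm_real, Real.norm_eq_abs, abs_of_nonneg hR]
            exact pow_le_pow_left₀ (norm_nonneg _) (hz i) _
        _ = K ^ G * (4 * Q / 2 ^ K) := by
            rw [Finset.sum_const, Finset.card_univ, Fintype.card_fun, Fintype.card_fin,
              nsmul_eq_mul]
            push_cast; ring
    rw [hsplit]
    refine (norm_add_le _ _).trans ?_
    refine (add_le_add hA1 hA2).trans ?_
    have h24 : (2 : ℝ) ^ G ≤ 4 ^ G := pow_le_pow_left₀ (by norm_num) (by norm_num) G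
    have hG0 : (0 : ℝ) ≤ G := Nat.cast_nonneg G
    have e1 : (G : ℝ) * 2 ^ G * Q / 2 ^ K + K ^ G * (4 * Q / 2 ^ K)
        = (4 * (K : ℝ) ^ G + G * 2 ^ G) * Q / 2 ^ K := by ring
    rw [e1]
    refine div_le_div_of_nonneg_right ?_ (by positivity)
    refine mul_le_mul_of_nonneg_right ?_ hQ0.le
    have := mul_le_mul_of_nonneg_left h24 hG0
    linarith

end Pool.Agent.Work.MP_8da9ea_nt.MX
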