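import Pool.Agent.Work.MP_8da9ea_nt.MX.StmtsT
import Pool.Agent.Work.MP_8da9ea_nt.EB.I_QT
import Pool.Agent.Work.MP_8da9ea_nt.EB.I_PsiE

/-!
# Mixed block: the auxiliary function (item PsiM)
-/

set_option autoImplicit false

namespace Pool.Agent.Work.MP_8da9ea_nt.MX

open MvPolynomial Metric Filter Topology Pool.Agent.Work.MP_327059_nt.GL
  Pool.Agent.Work.MP_8da9ea_nt.S Pool.Agent.Work.MP_8da9ea_nt.EB

namespace I_PsiM

/-- The holomorphic continuation of `q ζ`. -/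
noncomputable def gz (τ : ℂ) (S : Finset (ℤ × ℤ)) (u : ℂ) : ℂ :=
  (∑ q ∈ S, I_QT.pq τ (S.erase q) u) +
    I_QT.pq τ S u * (∑ q ∈ S, (1 / lp 1 τ q + u / (lp 1 τ q) ^ 2)) +
    I_QT.pq τ S u * ztE (S : Set (ℤ × ℤ)) τ u

theorem gz_eq {τ : ℂ} (hτ : 0 < τ.im) (S : Finset (ℤ × ℤ)) {u : ℂ} (hu : u ∉ Lam τ) :
    gz τ S u = I_QT.pq τ S u * zt 1 τ u := by
  classical
  have h1 : zt 1 τ u = ∑ q ∈ S, ztT 1 τ u q + ztE (S : Set (ℤ × ℤ)) τ u := by
    unfold zt ztE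
    refine tsum_split_aux S _ _ (fun q => ?_) (summable_exc _ (summable_ztT hτ u))
    by_cases hq : q ∈ S
    · rw [exc_mem (by exact_mod_cast hq), if_pos hq]
    · rw [exc_not_mem (by exact_mod_cast hq), if_neg hq]
  have h2 : ∑ q ∈ S, I_QT.pq τ (S.erase q) u =
      I_QT.pq τ S u * ∑ q ∈ S, 1 / (u - lp 1 τ q) := by
    rw [Finset.mul_sum]
    refine Finset.sum_congr rfl fun q hq => ?_
    have h3 : I_QT.pq τ S u = (u - lp 1 τ q) * I_QT.pq τ (S.erase q) u := by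
      unfold I_QT.pq
      exact (Finset.mul_prod_erase S _ hq).symm
    have h4 : u - lp 1 τ q ≠ 0 := by
      intro h
      exact hu ⟨q, (sub_eq_zero.1 h).symm⟩
    rw [h3]
    field_simp
  unfold gz
  rw [h1, h2]
  have h5 : ∑ q ∈ S, ztT 1 τ u q = ∑ q ∈ S, 1 / (u - lp 1 τ q) +
      ∑ q ∈ S, (1 / lp 1 τ q + u / (lp 1 τ q) ^ 2) := by
    rw [← Finset.sum_add_distrib]
    refine Finset.sum_congr rfl fun q _ => ?_
    unfold ztT
    ring
  rw [h5]
  ring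

theorem diff_ztE {τ : ℂ} (hτ : 0 < τ.im) (T : Set (ℤ × ℤ)) {u : ℂ}
    (hu : ∀ q ∉ T, u ≠ lp 1 τ q) : DifferentiableAt ℂ (fun z => ztE T τ z) u :=
  I_QT.diff_slice (F := ztE T) (hasFDerivAt_ztE T hτ hu)

theorem ztE_le {τ : ℂ} {c : ℝ} (hc : 0 < c) (hlow : ∀ q : ℤ × ℤ, c * nr q ≤ ‖lp 1 τ q‖)
    (T : Set (ℤ × ℤ)) {R : ℝ} (hR : 0 < R) {u : ℂ} (hu : ‖u‖ ≤ R)
    (hT : ∀ q ∉ T, 2 * R ≤ ‖lp 1 τ q‖ ∧ 0 < nr q) :
    ‖ztE T τ u‖ ≤ 10 * (R + R ^ 2) / c ^ 3 * ∑' q : ℤ × ℤ, (nr q ^ 3)⁻¹ := by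
  unfold ztE
  rw [← tsum_mul_left]
  refine tsum_of_norm_bounded ((summable_nr.mul_left _).hasSum) fun q => ?_
  have hn := nr_nonneg q
  by_cases hq : q ∈ T
  · rw [exc_mem hq, norm_zero]
    positivity
  · rw [exc_not_mem hq]
    obtain ⟨h1, h2⟩ := hT q hq
    refine (ztT_bound hR hu h1).trans ?_
    have h3 : (c * nr q) ^ 3 ≤ ‖lp 1 τ q‖ ^ 3 := by
      have := hlow q
      gcongr
    calc 10 * (R + R ^ 2) / ‖lp 1 τ q‖ ^ 3 ≤ 10 * (R + R ^ 2) / (c * nr q) ^ 3 := by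
          gcongr
      _ = (10 * (R + R ^ 2) / c ^ 3) * (nr q ^ 3)⁻¹ := by
          rw [mul_pow]; field_simp

/-- Clearing the poles of `℘` and `ζ`. -/
theorem QTZ : ∀ τ : ℂ, 0 < τ.im → ∃ C : ℝ, 1 ≤ C ∧ ∀ R : ℝ, 1 ≤ R →
  ∃ q g g' : ℂ → ℂ, Differentiable ℂ q ∧ DifferentiableOn ℂ g (ball 0 (4 * R)) ∧
    DifferentiableOn ℂ g' (ball 0 (4 * R)) ∧
    (∀ u ∈ ball (0 : ℂ) (4 * R), ‖q u‖ ≤ Real.exp (C * R ^ 3) ∧ ‖g u‖ ≤ Real.exp (C * R ^ 3) ∧
      ‖g' u‖ ≤ Real.exp (C * R ^ 3) ∧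
      (u ∉ Lam τ → g u = q u ^ 2 * wp 1 τ u ∧ g' u = q u * zt 1 τ u)) ∧
    ∀ u : ℂ, ‖u‖ ≤ R → Real.exp (-(C * R ^ 3)) * d1 τ u ≤ ‖q u‖ := by
  classical
  intro τ hτ
  obtain ⟨c, hc, hlow'⟩ := exists_lower |τ.re| τ.im hτ
  have hlow : ∀ q : ℤ × ℤ, c * nr q ≤ ‖lp 1 τ q‖ := hlow' τ le_rfl le_rfl
  set σ : ℝ := ∑' q : ℤ × ℤ, (nr q ^ 3)⁻¹ with hσ
  have hσ0 : 0 ≤ σ := tsum_nonneg fun q => by have := nr_nonneg q; positivity
  set a : ℝ := 4 + 8 * (1 + ‖τ‖) / c with ha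
  have ha4 : 4 ≤ a := by
    have : 0 ≤ 8 * (1 + ‖τ‖) / c := by positivity
    linarith
  set C0 : ℝ := (16 / c + 1) ^ 2 with hC0
  have hC00 : 0 ≤ C0 := by positivity
  set κ : ℝ := min 1 (c / 2) with hκ
  have hκ0 : 0 < κ := lt_min one_pos (by linarith)
  have hκ1 : κ ≤ 1 := min_le_left _ _
  set lam : ℝ := -Real.log κ with hlam
  have hlam0 : 0 ≤ lam := by
    have := Real.log_nonpos hκ0.le hκ1
    linarith
  set E : ℝ := a * C0 with hE
  have hE0 : 0 ≤ E := by positivity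
  set D : ℝ := C0 + C0 / c ^ 2 + 200 * σ / c ^ 3 with hD
  have hD0 : 0 ≤ D := by positivity
  set D' : ℝ := C0 + C0 * (1 / c + 4 / c ^ 2) + 200 * σ / c ^ 3 with hD'
  have hD'0 : 0 ≤ D' := by positivity
  refine ⟨1 + 2 * E + D + D' + lam * C0, by nlinarith [mul_nonneg hlam0 hC00], ?_⟩
  intro R hR
  have hR0 : 0 < R := by linarith
  have hR3 : (0 : ℝ) < R ^ 3 := by positivity
  set K : ℝ := 8 * R / c with hK
  have hK0 : 0 ≤ K := by positivity
  set S : Finset (ℤ × ℤ) := I_QT.SS K with hS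
  have hcard : (S.card : ℝ) ≤ C0 * R ^ 2 := by
    refine (I_QT.card_SS_le hK0).trans ?_
    have h1 : 2 * K + 1 ≤ (16 / c + 1) * R := by
      have : 2 * K = 16 / c * R := by rw [hK]; ring
      rw [this]
      nlinarith
    calc (2 * K + 1) ^ 2 ≤ ((16 / c + 1) * R) ^ 2 := pow_le_pow_left₀ (by positivity) h1 2
      _ = C0 * R ^ 2 := by rw [hC0]; ring
  have hcard3 : (S.card : ℝ) ≤ C0 * R ^ 3 := by
    refine hcard.trans (mul_le_mul_of_nonneg_left ?_ hC00)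
    exact pow_le_pow_right₀ hR (by norm_num)
  -- factors
  have haR : 1 ≤ a * R := by nlinarith
  have hfac : ∀ u ∈ ball (0 : ℂ) (4 * R), ∀ q ∈ S, ‖u - lp 1 τ q‖ ≤ a * R := by
    intro u hu q hq
    rw [mem_ball_zero_iff] at hu
    rw [hS, I_QT.mem_SS] at hq
    have h1 := I_QT.norm_lp_le τ q
    have h2 : (1 + ‖τ‖) * nr q ≤ (1 + ‖τ‖) * K := mul_le_mul_of_nonneg_left hq (by positivity)
    have h3 : (1 + ‖τ‖) * K = 8 * (1 + ‖τ‖) / c * R := by rw [hK]; ring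
    calc ‖u - lp 1 τ q‖ ≤ ‖u‖ + ‖lp 1 τ q‖ := norm_sub_le _ _
      _ ≤ 4 * R + 8 * (1 + ‖τ‖) / c * R := by linarith
      _ = a * R := by rw [ha]; ring
  have hprod : ∀ u ∈ ball (0 : ℂ) (4 * R), ∀ T ⊆ S, ‖I_QT.pq τ T u‖ ≤ Real.exp (E * R ^ 3) := by
    intro u hu T hT
    refine (I_QT.pq_le (fun q hq => hfac u hu q (hT hq))).trans ?_
    have h1 : (a * R) ^ T.card ≤ (a * R) ^ S.card :=
      pow_le_pow_right₀ haR (Finset.card_le_card hT)
    refine h1.trans ?_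
    have h2 : (a * R) ^ S.card ≤ Real.exp (a * R) ^ S.card := by
      refine pow_le_pow_left₀ (by positivity) ?_ _
      have := Real.add_one_le_exp (a * R)
      linarith
    refine h2.trans ?_
    rw [← Real.exp_nat_mul]
    apply Real.exp_le_exp.2
    calc (S.card : ℝ) * (a * R) ≤ (C0 * R ^ 2) * (a * R) :=
          mul_le_mul_of_nonneg_right hcard (by positivity)
      _ = E * R ^ 3 := by rw [hE]; ring
  have hout : ∀ q ∉ (S : Set (ℤ × ℤ)), 2 * (4 * R) ≤ ‖lp 1 τ q‖ ∧ 0 < nr q := by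
    intro q hq
    have h1 : ¬ nr q ≤ K := by
      intro h
      exact hq (by rw [hS]; exact_mod_cast I_QT.mem_SS.2 h)
    have h2 : K < nr q := not_le.1 h1
    refine ⟨?_, hK0.trans_lt h2⟩
    refine le_trans ?_ (hlow q)
    rw [hK, div_lt_iff₀ hc] at h2
    linarith
  have hne : ∀ u ∈ ball (0 : ℂ) (4 * R), ∀ q ∉ (S : Set (ℤ × ℤ)), u ≠ lp 1 τ q := by
    intro u hu q hq h
    rw [mem_ball_zero_iff] at hu
    have := (hout q hq).1
    rw [← h] at this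
    linarith
  refine ⟨I_QT.pq τ S, I_QT.gq τ S, gz τ S, I_QT.diff_pq τ S, ?_, ?_, ?_, ?_⟩
  · intro u hu
    apply DifferentiableAt.differentiableWithinAt
    unfold I_QT.gq
    have h1 : ∀ T : Finset (ℤ × ℤ), DifferentiableAt ℂ (fun u => I_QT.pq τ T u ^ 2) u :=
      fun T => ((I_QT.diff_pq τ T) u).pow 2
    have h2 : DifferentiableAt ℂ (fun u => ∑ q ∈ S, I_QT.pq τ (S.erase q) u ^ 2) u :=
      DifferentiableAt.fun_sum fun q _ => h1 _
    exact (h2.sub ((h1 S).mul_const _)).add ((h1 S).mul (I_QT.diff_wpE hτ _ (hne u hu)))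
  · intro u hu
    apply DifferentiableAt.differentiableWithinAt
    unfold gz
    have h1 : ∀ T : Finset (ℤ × ℤ), DifferentiableAt ℂ (fun u => I_QT.pq τ T u) u :=
      fun T => (I_QT.diff_pq τ T) u
    have h2 : DifferentiableAt ℂ (fun u => ∑ q ∈ S, I_QT.pq τ (S.erase q) u) u :=
      DifferentiableAt.fun_sum fun q _ => h1 _
    have h3 : DifferentiableAt ℂ
        (fun u => ∑ q ∈ S, (1 / lp 1 τ q + u / (lp 1 τ q) ^ 2)) u :=
      DifferentiableAt.fun_sum fun q _ => by fun_prop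
    exact (h2.add ((h1 S).mul h3)).add ((h1 S).mul (diff_ztE hτ _ (hne u hu)))
  · intro u hu
    have hpS := hprod u hu S subset_rfl
    refine ⟨hpS.trans ?_, ?_, ?_, fun hL => ⟨I_QT.gq_eq hτ S hL, gz_eq hτ S hL⟩⟩
    · apply Real.exp_le_exp.2
      apply mul_le_mul_of_nonneg_right _ hR3.le
      nlinarith [mul_nonneg hlam0 hC00]
    · have hsq : ∀ T ⊆ S, ‖I_QT.pq τ T u ^ 2‖ ≤ Real.exp (2 * E * R ^ 3) := by
        intro T hT
        rw [norm_pow]
        refine (pow_le_pow_left₀ (norm_nonneg _) (hprod u hu T hT) 2).trans ?_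
        rw [← Real.exp_nat_mul]
        apply Real.exp_le_exp.2
        push_cast
        linarith
      set X : ℝ := Real.exp (2 * E * R ^ 3) with hX
      have hX0 : 0 < X := Real.exp_pos _
      have t1 : ‖∑ q ∈ S, I_QT.pq τ (S.erase q) u ^ 2‖ ≤ X * (C0 * R ^ 2) := by
        refine (norm_sum_le _ _).trans ?_
        refine (Finset.sum_le_sum fun q _ => hsq _ (Finset.erase_subset q S)).trans ?_
        rw [Finset.sum_const, nsmul_eq_mul]
        nlinarith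
      have t2 : ‖∑ q ∈ S, 1 / (lp 1 τ q) ^ 2‖ ≤ (C0 / c ^ 2) * R ^ 2 := by
        refine (norm_sum_le _ _).trans ?_
        have h1 : ∀ q ∈ S, ‖1 / (lp 1 τ q) ^ 2‖ ≤ 1 / c ^ 2 := by
          intro q _
          by_cases hq : q = 0
          · have : lp 1 τ q = 0 := by rw [hq]; simp [lp]
            rw [this]
            norm_num
            positivity
          · have h2 : c ≤ ‖lp 1 τ q‖ := by
              refine le_trans ?_ (hlow _)
              have := I_QT.one_le_nr hq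
              nlinarith
            rw [norm_div, norm_one, norm_pow]
            apply one_div_le_one_div_of_le (by positivity)
            exact pow_le_pow_left₀ hc.le h2 2
        refine (Finset.sum_le_sum h1).trans ?_
        rw [Finset.sum_const, nsmul_eq_mul]
        calc (S.card : ℝ) * (1 / c ^ 2) ≤ (C0 * R ^ 2) * (1 / c ^ 2) :=
              mul_le_mul_of_nonneg_right hcard (by positivity)
          _ = (C0 / c ^ 2) * R ^ 2 := by ring
      have t3 : ‖wpE (S : Set (ℤ × ℤ)) τ u‖ ≤ (200 * σ / c ^ 3) * R ^ 2 := by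
        rw [mem_ball_zero_iff] at hu
        refine (I_QT.wpE_le hc hlow _ (by positivity : (0 : ℝ) < 4 * R) hu.le hout).trans ?_
        have h1 : 10 * (4 * R + (4 * R) ^ 2) ≤ 200 * R ^ 2 := by nlinarith
        calc 10 * (4 * R + (4 * R) ^ 2) / c ^ 3 * σ ≤ 200 * R ^ 2 / c ^ 3 * σ := by
              gcongr
          _ = (200 * σ / c ^ 3) * R ^ 2 := by ring
      have hS2 := hsq S subset_rfl
      have t4 : ‖I_QT.gq τ S u‖ ≤ X * (D * R ^ 2) := by
        unfold I_QT.gq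
        refine (norm_add_le _ _).trans ?_
        refine (add_le_add (norm_sub_le _ _) le_rfl).trans ?_
        rw [norm_mul, norm_mul]
        have h1 := mul_le_mul hS2 t2 (norm_nonneg _) hX0.le
        have h2 := mul_le_mul hS2 t3 (norm_nonneg _) hX0.le
        have h3 : X * (D * R ^ 2) = X * (C0 * R ^ 2) + X * ((C0 / c ^ 2) * R ^ 2) +
            X * ((200 * σ / c ^ 3) * R ^ 2) := by rw [hD]; ring
        rw [h3]
        exact add_le_add (add_le_add t1 h1) h2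
      refine t4.trans ?_
      have h5 : D * R ^ 2 ≤ Real.exp (D * R ^ 3) := by
        have h6 : D * R ^ 2 ≤ D * R ^ 3 :=
          mul_le_mul_of_nonneg_left (pow_le_pow_right₀ hR (by norm_num)) hD0
        have := Real.add_one_le_exp (D * R ^ 3)
        linarith
      calc X * (D * R ^ 2) ≤ X * Real.exp (D * R ^ 3) := mul_le_mul_of_nonneg_left h5 hX0.le
        _ = Real.exp ((2 * E + D) * R ^ 3) := by rw [hX, ← Real.exp_add]; ring_nf
        _ ≤ _ := by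
            apply Real.exp_le_exp.2
            apply mul_le_mul_of_nonneg_right _ hR3.le
            nlinarith [mul_nonneg hlam0 hC00]
    · set X : ℝ := Real.exp (E * R ^ 3) with hX
      have hX0 : 0 < X := Real.exp_pos _
      have t1 : ‖∑ q ∈ S, I_QT.pq τ (S.erase q) u‖ ≤ X * (C0 * R ^ 3) := by
        refine (norm_sum_le _ _).trans ?_
        refine (Finset.sum_le_sum fun q _ => hprod u hu _ (Finset.erase_subset q S)).trans ?_
        rw [Finset.sum_const, nsmul_eq_mul]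
        nlinarith
      rw [mem_ball_zero_iff] at hu
      have t2 : ‖∑ q ∈ S, (1 / lp 1 τ q + u / (lp 1 τ q) ^ 2)‖ ≤
          (C0 * (1 / c + 4 / c ^ 2)) * R ^ 3 := by
        refine (norm_sum_le _ _).trans ?_
        have h1 : ∀ q ∈ S, ‖1 / lp 1 τ q + u / (lp 1 τ q) ^ 2‖ ≤ (1 / c + 4 / c ^ 2) * R := by
          intro q _
          by_cases hq : q = 0
          · have : lp 1 τ q = 0 := by rw [hq]; simp [lp]
            rw [this]
            norm_num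
            positivity
          · have h2 : c ≤ ‖lp 1 τ q‖ := by
              refine le_trans ?_ (hlow _)
              have := I_QT.one_le_nr hq
              nlinarith
            refine (norm_add_le _ _).trans ?_
            rw [norm_div, norm_one, norm_div, norm_pow]
            have h3 : 1 / ‖lp 1 τ q‖ ≤ 1 / c := one_div_le_one_div_of_le hc h2
            have h4 : ‖u‖ / ‖lp 1 τ q‖ ^ 2 ≤ (4 * R) / c ^ 2 := by
              have := hu.le
              gcongr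
            have h5 : 1 / c ≤ 1 / c * R := le_mul_of_one_le_right (by positivity) hR
            calc 1 / ‖lp 1 τ q‖ + ‖u‖ / ‖lp 1 τ q‖ ^ 2 ≤ 1 / c * R + (4 * R) / c ^ 2 := by
                  linarith
              _ = (1 / c + 4 / c ^ 2) * R := by ring
        refine (Finset.sum_le_sum h1).trans ?_
        rw [Finset.sum_const, nsmul_eq_mul]
        calc (S.card : ℝ) * ((1 / c + 4 / c ^ 2) * R) ≤
              (C0 * R ^ 2) * ((1 / c + 4 / c ^ 2) * R) :=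
              mul_le_mul_of_nonneg_right hcard (by positivity)
          _ = (C0 * (1 / c + 4 / c ^ 2)) * R ^ 3 := by ring
      have t3 : ‖ztE (S : Set (ℤ × ℤ)) τ u‖ ≤ (200 * σ / c ^ 3) * R ^ 3 := by
        refine (ztE_le hc hlow _ (by positivity : (0 : ℝ) < 4 * R) hu.le hout).trans ?_
        have h1 : 10 * (4 * R + (4 * R) ^ 2) ≤ 200 * R ^ 3 := by
          have h2 : R ^ 2 ≤ R ^ 3 := pow_le_pow_right₀ hR (by norm_num)
          nlinarith
        calc 10 * (4 * R + (4 * R) ^ 2) / c ^ 3 * σ ≤ 200 * R ^ 3 / c ^ 3 * σ := by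
              gcongr
          _ = (200 * σ / c ^ 3) * R ^ 3 := by ring
      have t4 : ‖gz τ S u‖ ≤ X * (D' * R ^ 3) := by
        unfold gz
        refine (norm_add_le _ _).trans ?_
        refine (add_le_add (norm_add_le _ _) le_rfl).trans ?_
        rw [norm_mul, norm_mul]
        have h1 := mul_le_mul hpS t2 (norm_nonneg _) hX0.le
        have h2 := mul_le_mul hpS t3 (norm_nonneg _) hX0.le
        have h3 : X * (D' * R ^ 3) = X * (C0 * R ^ 3) +
            X * ((C0 * (1 / c + 4 / c ^ 2)) * R ^ 3) +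
            X * ((200 * σ / c ^ 3) * R ^ 3) := by rw [hD']; ring
        rw [h3]
        exact add_le_add (add_le_add t1 h1) h2
      refine t4.trans ?_
      have h5 : D' * R ^ 3 ≤ Real.exp (D' * R ^ 3) := by
        have := Real.add_one_le_exp (D' * R ^ 3)
        linarith
      calc X * (D' * R ^ 3) ≤ X * Real.exp (D' * R ^ 3) := mul_le_mul_of_nonneg_left h5 hX0.le
        _ = Real.exp ((E + D') * R ^ 3) := by rw [hX, ← Real.exp_add]; ring_nf
        _ ≤ _ := by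
            apply Real.exp_le_exp.2
            apply mul_le_mul_of_nonneg_right _ hR3.le
            nlinarith [mul_nonneg hlam0 hC00]
  · intro u _
    refine le_trans ?_ (I_QT.pq_ge hc hlow S u)
    have hd0 : 0 ≤ d1 τ u := le_min zero_le_one Metric.infDist_nonneg
    apply mul_le_mul_of_nonneg_right _ hd0
    have h1 : κ = Real.exp (-lam) := by
      rw [hlam, neg_neg, Real.exp_log hκ0]
    change _ ≤ κ ^ S.card
    rw [h1, ← Real.exp_nat_mul]
    apply Real.exp_le_exp.2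
    have h2 : (S.card : ℝ) * lam ≤ (C0 * R ^ 3) * lam := mul_le_mul_of_nonneg_right hcard3 hlam0
    have h3 : 0 ≤ (1 + 2 * E + D + D') * R ^ 3 := by positivity
    nlinarith


section

variable {ι : Type} [Fintype ι]

/-- The clearing factor. -/
noncomputable def Pf (ty : ι → Ty) (b : ι → ℂ) (Q : ℂ → ℂ) (z : ℂ) : ℂ :=
  ∏ j, (if ty j = Ty.ell then Q (b j * z) ^ 2 else 1)

open Classical in
/-- The clearing factor without the index `j`. -/
noncomputable def Pe (ty : ι → Ty) (b : ι → ℂ) (Q : ℂ → ℂ) (j : ι) (z : ℂ) : ℂ :=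
  ∏ j', (if ty j' = Ty.ell ∧ j' ≠ j then Q (b j' * z) ^ 2 else 1)

theorem Pf_split (ty : ι → Ty) (b : ι → ℂ) (Q : ℂ → ℂ) (j : ι) (hj : ty j = Ty.ell) (z : ℂ) :
    Pf ty b Q z = Q (b j * z) ^ 2 * Pe ty b Q j z := by
  classical
  unfold Pf Pe
  rw [← Finset.mul_prod_erase Finset.univ _ (Finset.mem_univ j),
    ← Finset.mul_prod_erase Finset.univ (fun j' =>
      (if ty j' = Ty.ell ∧ j' ≠ j then Q (b j' * z) ^ 2 else 1)) (Finset.mem_univ j)]
  rw [if_pos hj, if_neg (by simp), one_mul]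
  congr 1
  refine Finset.prod_congr rfl fun j' hj' => ?_
  have h1 : j' ≠ j := Finset.ne_of_mem_erase hj'
  by_cases h2 : ty j' = Ty.ell
  · rw [if_pos h2, if_pos ⟨h2, h1⟩]
  · rw [if_neg h2, if_neg (fun h => h2 h.1)]

/-- The cleared coordinates. -/
noncomputable def PC (μ : ℂ) (ty : ι → Ty) (b : ι → ℂ) (c : ι → ι → ℂ) (Q g g' : ℂ → ℂ) (i : ι)
    (z : ℂ) : ℂ :=
  match ty i with
  | Ty.add => b i * z * Pf ty b Q z +
      ∑ j, (if ty j = Ty.ell then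
        c i j * (μ * (g' (b j * z) * Q (b j * z))) * Pe ty b Q j z else 0)
  | Ty.mul => Complex.exp (b i * z) * Pf ty b Q z
  | Ty.ell => μ ^ 2 * g (b i * z) * Pe ty b Q i z

theorem PC_eq (τ μ : ℂ) (ty : ι → Ty) (b : ι → ℂ) (c : ι → ι → ℂ) (Q g g' : ℂ → ℂ) (i : ι)
    (z : ℂ) (h : ∀ j, ty j = Ty.ell → g (b j * z) = Q (b j * z) ^ 2 * wp 1 τ (b j * z) ∧
      g' (b j * z) = Q (b j * z) * zt 1 τ (b j * z)) :
    PC μ ty b c Q g g' i z = PN τ μ ty c (fun j => b j * z) i * Pf ty b Q z := by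
  rcases hti : ty i with _ | _ | _
  · simp only [PC, PN, hti]
    rw [add_mul, Finset.sum_mul]
    congr 1
    refine Finset.sum_congr rfl fun j _ => ?_
    by_cases hj : ty j = Ty.ell
    · rw [if_pos hj, if_pos hj, Pf_split ty b Q j hj, (h j hj).2]
      unfold ze
      ring
    · rw [if_neg hj, if_neg hj, zero_mul]
  · simp only [PC, PN, hti]
  · simp only [PC, PN, hti]
    rw [Pf_split ty b Q i hti, (h i hti).1]
    unfold xe
    ring

theorem Pf_diff (ty : ι → Ty) (b : ι → ℂ) (Q : ℂ → ℂ) (hQ : Differentiable ℂ Q) :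
    Differentiable ℂ (Pf ty b Q) := by
  unfold Pf
  refine Differentiable.fun_finsetProd fun j _ => ?_
  by_cases h : ty j = Ty.ell
  · simp only [if_pos h]
    exact (hQ.comp (differentiable_id.const_mul _)).pow 2
  · simp only [if_neg h]
    exact differentiable_const _

theorem Pe_diff (ty : ι → Ty) (b : ι → ℂ) (Q : ℂ → ℂ) (hQ : Differentiable ℂ Q) (i : ι) :
    Differentiable ℂ (Pe ty b Q i) := by
  classical
  unfold Pe
  refine Differentiable.fun_finsetProd fun j _ => ?_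
  by_cases h : ty j = Ty.ell ∧ j ≠ i
  · simp only [if_pos h]
    exact (hQ.comp (differentiable_id.const_mul _)).pow 2
  · simp only [if_neg h]
    exact differentiable_const _

theorem PC_diff (μ : ℂ) (ty : ι → Ty) (b : ι → ℂ) (c : ι → ι → ℂ) (Q g g' : ℂ → ℂ) (ρ R : ℝ)
    (hQ : Differentiable ℂ Q) (hg : DifferentiableOn ℂ g (ball 0 R))
    (hg' : DifferentiableOn ℂ g' (ball 0 R))
    (hball : ∀ z ∈ ball (0 : ℂ) ρ, ∀ j, b j * z ∈ ball (0 : ℂ) R) (i : ι) :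
    DifferentiableOn ℂ (PC μ ty b c Q g g' i) (ball 0 ρ) := by
  have hm : ∀ j : ι, DifferentiableOn ℂ (fun z => b j * z) (ball 0 ρ) := fun j =>
    differentiableOn_id.const_mul _
  have hQ' : ∀ j : ι, DifferentiableOn ℂ (fun z => Q (b j * z)) (ball 0 ρ) := fun j =>
    hQ.differentiableOn.comp (t := Set.univ) (hm j) fun z _ => Set.mem_univ _
  have hP := (Pf_diff ty b Q hQ).differentiableOn (s := ball (0 : ℂ) ρ)
  rcases hti : ty i with _ | _ | _
  · have e : PC μ ty b c Q g g' i = fun z => b i * z * Pf ty b Q z +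
      ∑ j, (if ty j = Ty.ell then
        c i j * (μ * (g' (b j * z) * Q (b j * z))) * Pe ty b Q j z else 0) := by
      funext z
      simp only [PC, hti]
    rw [e]
    refine ((hm i).mul hP).add (DifferentiableOn.fun_sum fun j _ => ?_)
    by_cases hj : ty j = Ty.ell
    · simp only [if_pos hj]
      refine DifferentiableOn.mul ?_ (Pe_diff ty b Q hQ j).differentiableOn
      refine DifferentiableOn.const_mul ?_ _
      refine DifferentiableOn.const_mul ?_ _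
      exact (hg'.comp (hm j) fun z hz => hball z hz j).mul (hQ' j)
    · simp only [if_neg hj]
      exact differentiableOn_const _
  · have e : PC μ ty b c Q g g' i = fun z => Complex.exp (b i * z) * Pf ty b Q z := by
      funext z
      simp only [PC, hti]
    rw [e]
    exact (hm i).cexp.mul hP
  · have e : PC μ ty b c Q g g' i = fun z => μ ^ 2 * g (b i * z) * Pe ty b Q i z := by
      funext z
      simp only [PC, hti]
    rw [e]
    refine DifferentiableOn.mul ?_ (Pe_diff ty b Q hQ i).differentiableOn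
    refine DifferentiableOn.const_mul ?_ _
    exact hg.comp (hm i) fun z hz => hball z hz i

theorem Pf_le (ty : ι → Ty) (b : ι → ℂ) (Q : ℂ → ℂ) (z : ℂ) (E : ℝ) (hE : 1 ≤ E)
    (hQ : ∀ j, ‖Q (b j * z)‖ ≤ E) : ‖Pf ty b Q z‖ ≤ (E ^ 2) ^ Fintype.card ι := by
  unfold Pf
  rw [norm_prod, ← Finset.card_univ, ← Finset.prod_const]
  refine Finset.prod_le_prod (fun _ _ => norm_nonneg _) fun j _ => ?_
  by_cases h : ty j = Ty.ell
  · rw [if_pos h, norm_pow]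
    exact pow_le_pow_left₀ (norm_nonneg _) (hQ j) 2
  · rw [if_neg h, norm_one]
    exact one_le_pow₀ hE

theorem Pe_le (ty : ι → Ty) (b : ι → ℂ) (Q : ℂ → ℂ) (z : ℂ) (E : ℝ) (hE : 1 ≤ E)
    (hQ : ∀ j, ‖Q (b j * z)‖ ≤ E) (i : ι) : ‖Pe ty b Q i z‖ ≤ (E ^ 2) ^ Fintype.card ι := by
  classical
  unfold Pe
  rw [norm_prod, ← Finset.card_univ, ← Finset.prod_const]
  refine Finset.prod_le_prod (fun _ _ => norm_nonneg _) fun j _ => ?_
  by_cases h : ty j = Ty.ell ∧ j ≠ i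
  · rw [if_pos h, norm_pow]
    exact pow_le_pow_left₀ (norm_nonneg _) (hQ j) 2
  · rw [if_neg h, norm_one]
    exact one_le_pow₀ hE

theorem PC_le (μ : ℂ) (ty : ι → Ty) (b : ι → ℂ) (c : ι → ι → ℂ) (Q g g' : ℂ → ℂ) (z : ℂ)
    (E F : ℝ) (hE : 1 ≤ E) (hF : 1 ≤ F) (hQ : ∀ j, ‖Q (b j * z)‖ ≤ E)
    (hg : ∀ j, ‖g (b j * z)‖ ≤ E) (hg' : ∀ j, ‖g' (b j * z)‖ ≤ E)
    (hb : ∀ j, ‖b j * z‖ ≤ F) (he : ∀ j, ‖Complex.exp (b j * z)‖ ≤ F) (i : ι) :
    ‖PC μ ty b c Q g g' i z‖ ≤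
      (1 + ‖μ‖ ^ 2 + ∑ i, ∑ j, ‖c i j‖ * ‖μ‖) * F * E ^ 2 * (E ^ 2) ^ Fintype.card ι := by
  have hP := Pf_le ty b Q z E hE hQ
  have hPe := Pe_le ty b Q z E hE hQ
  have hX : 0 ≤ (E ^ 2) ^ Fintype.card ι := by positivity
  have hE2 : 1 ≤ E ^ 2 := one_le_pow₀ hE
  have hS0 : ∀ i, 0 ≤ ∑ j, ‖c i j‖ * ‖μ‖ := fun i =>
    Finset.sum_nonneg fun j _ => by positivity
  have hS1 : ∑ j, ‖c i j‖ * ‖μ‖ ≤ ∑ i, ∑ j, ‖c i j‖ * ‖μ‖ :=
    Finset.single_le_sum (f := fun i => ∑ j, ‖c i j‖ * ‖μ‖) (fun i _ => hS0 i)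
      (Finset.mem_univ i)
  have hFE : 1 ≤ F * E ^ 2 := one_le_mul_of_one_le_of_one_le hF hE2
  have hS2 : 0 ≤ ∑ i, ∑ j, ‖c i j‖ * ‖μ‖ := Finset.sum_nonneg fun i _ => hS0 i
  have hμ : 0 ≤ ‖μ‖ ^ 2 := by positivity
  rcases hti : ty i with _ | _ | _
  · simp only [PC, hti]
    refine (norm_add_le _ _).trans ?_
    have h1 : ‖b i * z * Pf ty b Q z‖ ≤ (F * E ^ 2) * (E ^ 2) ^ Fintype.card ι := by
      rw [norm_mul]
      refine mul_le_mul ?_ hP (norm_nonneg _) (by linarith)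
      refine (hb i).trans ?_
      exact le_mul_of_one_le_right (by linarith) hE2
    have h2 : ‖∑ j, (if ty j = Ty.ell then
        c i j * (μ * (g' (b j * z) * Q (b j * z))) * Pe ty b Q j z else 0)‖ ≤
        (∑ j, ‖c i j‖ * ‖μ‖) * ((F * E ^ 2) * (E ^ 2) ^ Fintype.card ι) := by
      refine (norm_sum_le _ _).trans ?_
      rw [Finset.sum_mul]
      refine Finset.sum_le_sum fun j _ => ?_
      by_cases hj : ty j = Ty.ell
      · rw [if_pos hj]
        rw [norm_mul, norm_mul, norm_mul, norm_mul]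
        have h3 : ‖g' (b j * z)‖ * ‖Q (b j * z)‖ ≤ F * E ^ 2 := by
          calc ‖g' (b j * z)‖ * ‖Q (b j * z)‖ ≤ E * E :=
                mul_le_mul (hg' j) (hQ j) (norm_nonneg _) (by linarith)
            _ = 1 * E ^ 2 := by ring
            _ ≤ F * E ^ 2 := mul_le_mul_of_nonneg_right hF (by positivity)
        calc ‖c i j‖ * (‖μ‖ * (‖g' (b j * z)‖ * ‖Q (b j * z)‖)) * ‖Pe ty b Q j z‖
            ≤ ‖c i j‖ * (‖μ‖ * (F * E ^ 2)) * (E ^ 2) ^ Fintype.card ι := by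
              refine mul_le_mul ?_ (hPe j) (norm_nonneg _) (by positivity)
              gcongr
          _ = _ := by ring
      · rw [if_neg hj, norm_zero]
        positivity
    calc _ ≤ (F * E ^ 2) * (E ^ 2) ^ Fintype.card ι +
          (∑ j, ‖c i j‖ * ‖μ‖) * ((F * E ^ 2) * (E ^ 2) ^ Fintype.card ι) := add_le_add h1 h2
      _ = (1 + ∑ j, ‖c i j‖ * ‖μ‖) * ((F * E ^ 2) * (E ^ 2) ^ Fintype.card ι) := by ring
      _ ≤ (1 + ‖μ‖ ^ 2 + ∑ i, ∑ j, ‖c i j‖ * ‖μ‖) *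
          ((F * E ^ 2) * (E ^ 2) ^ Fintype.card ι) := by
          refine mul_le_mul_of_nonneg_right ?_ (by positivity)
          linarith
      _ = _ := by ring
  · simp only [PC, hti]
    rw [norm_mul]
    calc ‖Complex.exp (b i * z)‖ * ‖Pf ty b Q z‖ ≤ F * (E ^ 2) ^ Fintype.card ι :=
          mul_le_mul (he i) hP (norm_nonneg _) (by linarith)
      _ ≤ (F * E ^ 2) * (E ^ 2) ^ Fintype.card ι := by
          refine mul_le_mul_of_nonneg_right ?_ hX
          exact le_mul_of_one_le_right (by linarith) hE2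
      _ = 1 * ((F * E ^ 2) * (E ^ 2) ^ Fintype.card ι) := by ring
      _ ≤ (1 + ‖μ‖ ^ 2 + ∑ i, ∑ j, ‖c i j‖ * ‖μ‖) *
          ((F * E ^ 2) * (E ^ 2) ^ Fintype.card ι) := by
          refine mul_le_mul_of_nonneg_right ?_ (by positivity)
          linarith
      _ = _ := by ring
  · simp only [PC, hti]
    rw [norm_mul, norm_mul, norm_pow]
    have h3 : E ≤ F * E ^ 2 := by
      calc E = 1 * E := (one_mul _).symm
        _ ≤ F * E ^ 2 := mul_le_mul hF (le_self_pow₀ hE (by norm_num)) (by linarith) (by linarith)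
    calc ‖μ‖ ^ 2 * ‖g (b i * z)‖ * ‖Pe ty b Q i z‖ ≤
          ‖μ‖ ^ 2 * (F * E ^ 2) * (E ^ 2) ^ Fintype.card ι := by
          refine mul_le_mul ?_ (hPe i) (norm_nonneg _) (by positivity)
          exact mul_le_mul_of_nonneg_left ((hg i).trans h3) hμ
      _ = ‖μ‖ ^ 2 * ((F * E ^ 2) * (E ^ 2) ^ Fintype.card ι) := by ring
      _ ≤ (1 + ‖μ‖ ^ 2 + ∑ i, ∑ j, ‖c i j‖ * ‖μ‖) *
          ((F * E ^ 2) * (E ^ 2) ^ Fintype.card ι) := by
          refine mul_le_mul_of_nonneg_right ?_ (by positivity)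
          linarith
      _ = _ := by ring

/-- The functions of one variable. -/
theorem fx_eq (W : ℕ) (x : ι → Fin W) (P : ℂ) (pc pn : ι → ℂ) (h : ∀ i, pc i = pn i * P) :
    ∏ i, (pc i ^ (x i : ℕ) * P ^ (W - (x i : ℕ))) =
      P ^ (Fintype.card ι * W) * ∏ i, pn i ^ (x i : ℕ) := by
  have e : ∀ i, pc i ^ (x i : ℕ) * P ^ (W - (x i : ℕ)) = P ^ W * pn i ^ (x i : ℕ) := by
    intro i
    have h1 : (x i : ℕ) + (W - (x i : ℕ)) = W := by have := (x i).2; omega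
    rw [h i, mul_pow]
    calc pn i ^ (x i : ℕ) * P ^ (x i : ℕ) * P ^ (W - (x i : ℕ)) =
          pn i ^ (x i : ℕ) * P ^ ((x i : ℕ) + (W - (x i : ℕ))) := by rw [pow_add]; ring
      _ = _ := by rw [h1, mul_comm]
  simp only [e]
  rw [Finset.prod_mul_distrib, Finset.prod_const, Finset.card_univ, ← pow_mul, mul_comm W]

theorem fx_le (W : ℕ) (x : ι → Fin W) (P : ℂ) (pc : ι → ℂ) (A : ℝ) (hA : 1 ≤ A)
    (hP : ‖P‖ ≤ A) (h : ∀ i, ‖pc i‖ ≤ A) :
    ‖∏ i, (pc i ^ (x i : ℕ) * P ^ (W - (x i : ℕ)))‖ ≤ (A ^ W) ^ Fintype.card ι := by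
  rw [norm_prod, ← Finset.card_univ, ← Finset.prod_const]
  refine Finset.prod_le_prod (fun _ _ => norm_nonneg _) fun i _ => ?_
  have h1 : (x i : ℕ) + (W - (x i : ℕ)) = W := by have := (x i).2; omega
  rw [norm_mul, norm_pow, norm_pow]
  calc ‖pc i‖ ^ (x i : ℕ) * ‖P‖ ^ (W - (x i : ℕ)) ≤ A ^ (x i : ℕ) * A ^ (W - (x i : ℕ)) :=
        mul_le_mul (pow_le_pow_left₀ (norm_nonneg _) (h i) _)
          (pow_le_pow_left₀ (norm_nonneg _) hP _) (by positivity) (by positivity)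
    _ = A ^ W := by rw [← pow_add, h1]

/-- The lower bound for the clearing factor. -/
theorem dd_le (τ : ℂ) (ty : ι → Ty) (b : ι → ℂ) (Q : ℂ → ℂ) (z : ℂ) (E : ℝ) (hE : 1 ≤ E)
    (M : ℕ) (h : ∀ j, d1 τ (b j * z) ≤ E * ‖Q (b j * z)‖) :
    dd τ ty b (2 * M) z ≤ (E ^ (2 * M)) ^ Fintype.card ι * ‖Pf ty b Q z ^ M‖ := by
  have hd0 : ∀ u, 0 ≤ d1 τ u := fun u => le_min zero_le_one Metric.infDist_nonneg
  unfold dd Pf
  rw [norm_pow, norm_prod, ← Finset.prod_pow, ← Finset.card_univ, ← Finset.prod_const,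
    ← Finset.prod_mul_distrib]
  refine Finset.prod_le_prod (fun j _ => ?_) fun j _ => ?_
  · split_ifs
    · exact pow_nonneg (hd0 _) _
    · exact zero_le_one
  · by_cases hj : ty j = Ty.ell
    · rw [if_pos hj, if_pos hj, norm_pow, ← pow_mul, ← mul_pow]
      exact pow_le_pow_left₀ (hd0 _) (h j) _
    · rw [if_neg hj, if_neg hj, norm_one, one_pow, mul_one]
      exact one_le_pow₀ hE

end

end I_PsiM

open I_PsiM

theorem PsiM_pf (h2 : S_PLm) : S_PsiM := by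
  classical
  intro ι _ e₁ e₂ hm
  obtain ⟨m, hmc⟩ : ∃ m, m = Fintype.card ι := ⟨_, rfl⟩
  rw [← hmc] at hm ⊢
  refine ⟨e₁ * (m ^ 2 + m) + (e₂ + 5) * (m + 2), ?_⟩
  intro q hq τ μ hτ hμ ty b c R₀ hR₀ hbj
  obtain ⟨C, hC1, hC⟩ := QTZ τ hτ
  obtain ⟨β, hβ⟩ : ∃ β : ℝ, β = 1 + ∑ j, ‖b j‖ := ⟨_, rfl⟩
  have hβ1 : 1 ≤ β := by
    have := Finset.sum_nonneg (s := Finset.univ) fun (j : ι) _ => norm_nonneg (b j)
    linarith
  have hβj : ∀ j, ‖b j‖ ≤ β := by
    intro j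
    have := Finset.single_le_sum (s := Finset.univ) (f := fun j => ‖b j‖)
      (fun j _ => norm_nonneg (b j)) (Finset.mem_univ j)
    linarith
  obtain ⟨L, hL⟩ : ∃ L : ℝ, L = 1 + ‖μ‖ ^ 2 + ∑ i, ∑ j, ‖c i j‖ * ‖μ‖ := ⟨_, rfl⟩
  have hL1 : 1 ≤ L := by
    have h1 : 0 ≤ ∑ i, ∑ j, ‖c i j‖ * ‖μ‖ :=
      Finset.sum_nonneg fun i _ => Finset.sum_nonneg fun j _ => by positivity
    have h2 : 0 ≤ ‖μ‖ ^ 2 := by positivity
    linarith
  obtain ⟨B3, hB3⟩ : ∃ B3 : ℝ, B3 = C * (β * R₀) ^ 3 := ⟨_, rfl⟩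
  have hB30 : 0 ≤ B3 := by rw [hB3]; positivity
  obtain ⟨A1, hA1'⟩ : ∃ A1 : ℝ, A1 = L + 4 * β * R₀ + (2 * m + 2) * B3 := ⟨_, rfl⟩
  have hA10 : 0 ≤ A1 := by rw [hA1']; positivity
  obtain ⟨C1, hC1'⟩ : ∃ C1 : ℝ, C1 = A1 * m := ⟨_, rfl⟩
  obtain ⟨C3, hC3'⟩ : ∃ C3 : ℝ, C3 = 2 * B3 * m * (m * (m + 1)) := ⟨_, rfl⟩
  have hC10 : 0 ≤ C1 := by rw [hC1']; positivity
  have hC30 : 0 ≤ C3 := by rw [hC3']; positivity
  obtain ⟨k, hk⟩ : ∃ k, k = (q + e₁) * (m - 1) + e₂ + 5 := ⟨_, rfl⟩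
  obtain ⟨T₀, hT₀⟩ := exists_nat_ge (4 * ((4 + ((m + 1 : ℕ) : ℝ) * 4 ^ (m + 1)) +
    k * ((m + 1 : ℕ) : ℝ) + (q * m : ℕ) * ((m + 1 : ℕ) : ℝ) + 1 + ((m + 1 : ℕ) : ℝ) * C1 + C3))
  refine ⟨T₀ + 4, fun T hT => ?_⟩
  have hT4 : 4 ≤ T := by omega
  have hT1 : 1 ≤ T := by omega
  have hTr : (1 : ℝ) ≤ T := by exact_mod_cast hT1
  have hTT : (T₀ : ℝ) ≤ T := by exact_mod_cast (by omega : T₀ ≤ T)
  have hρ1 : 1 ≤ R₀ * T := one_le_mul_of_one_le_of_one_le hR₀ hTr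
  have hR1 : 1 ≤ β * (R₀ * T) := one_le_mul_of_one_le_of_one_le hβ1 hρ1
  obtain ⟨Q, g, g', hQd, hgd, hgd', hup, hlow⟩ := hC (β * (R₀ * T)) hR1
  have hCR : C * (β * (R₀ * T)) ^ 3 = B3 * (T : ℝ) ^ 3 := by rw [hB3]; ring
  rw [hCR] at hup hlow
  obtain ⟨E, hE⟩ : ∃ E : ℝ, E = Real.exp (B3 * (T : ℝ) ^ 3) := ⟨_, rfl⟩
  have hE1 : 1 ≤ E := by
    rw [hE]
    exact Real.one_le_exp (by positivity)
  rw [← hE] at hup
  have hball' : ∀ z ∈ ball (0 : ℂ) (4 * (R₀ * T)), ∀ j, ‖b j * z‖ < 4 * (β * (R₀ * T)) := by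
    intro z hz j
    rw [mem_ball_zero_iff] at hz
    rw [norm_mul]
    calc ‖b j‖ * ‖z‖ ≤ β * ‖z‖ := mul_le_mul_of_nonneg_right (hβj j) (norm_nonneg _)
      _ < β * (4 * (R₀ * T)) := mul_lt_mul_of_pos_left hz (by linarith)
      _ = 4 * (β * (R₀ * T)) := by ring
  have hball : ∀ z ∈ ball (0 : ℂ) (4 * (R₀ * T)), ∀ j, b j * z ∈ ball (0 : ℂ)
      (4 * (β * (R₀ * T))) := fun z hz j => mem_ball_zero_iff.2 (hball' z hz j)
  -- the bound of the cleared coordinates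
  obtain ⟨A, hA⟩ : ∃ A : ℝ, A = Real.exp (A1 * (T : ℝ) ^ 3) := ⟨_, rfl⟩
  have hA1 : 1 ≤ A := by
    rw [hA]
    exact Real.one_le_exp (by positivity)
  obtain ⟨F, hF⟩ : ∃ F : ℝ, F = Real.exp (4 * β * R₀ * (T : ℝ) ^ 3) := ⟨_, rfl⟩
  have hF1 : 1 ≤ F := by
    rw [hF]
    exact Real.one_le_exp (by positivity)
  have hT3 : (T : ℝ) ≤ (T : ℝ) ^ 3 := le_self_pow₀ hTr (by norm_num)
  have hF4 : 4 * (β * (R₀ * T)) ≤ 4 * β * R₀ * (T : ℝ) ^ 3 := by
    calc 4 * (β * (R₀ * T)) = 4 * β * R₀ * T := by ring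
      _ ≤ _ := mul_le_mul_of_nonneg_left hT3 (by positivity)
  have hLFE : L * F * E ^ 2 * (E ^ 2) ^ m ≤ A := by
    have e1 : L ≤ Real.exp (L * (T : ℝ) ^ 3) := by
      have h1 : L ≤ L * (T : ℝ) ^ 3 := le_mul_of_one_le_right (by linarith) (one_le_pow₀ hTr)
      linarith [Real.add_one_le_exp (L * (T : ℝ) ^ 3)]
    have e2 : E ^ 2 * (E ^ 2) ^ m = Real.exp ((2 * m + 2) * B3 * (T : ℝ) ^ 3) := by
      rw [hE, ← pow_mul, ← pow_add, ← Real.exp_nat_mul]
      congr 1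
      push_cast
      ring
    calc L * F * E ^ 2 * (E ^ 2) ^ m = L * F * (E ^ 2 * (E ^ 2) ^ m) := by ring
      _ ≤ Real.exp (L * (T : ℝ) ^ 3) * F * (E ^ 2 * (E ^ 2) ^ m) := by
          refine mul_le_mul_of_nonneg_right ?_ (by positivity)
          exact mul_le_mul_of_nonneg_right e1 (by linarith)
      _ = A := by
          rw [e2, hF, hA, hA1', ← Real.exp_add, ← Real.exp_add]
          congr 1
          ring
  have hPA : (E ^ 2) ^ m ≤ A := by
    refine le_trans ?_ hLFE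
    refine le_mul_of_one_le_left (by positivity) ?_
    exact one_le_mul_of_one_le_of_one_le (one_le_mul_of_one_le_of_one_le hL1 hF1)
      (one_le_pow₀ hE1)
  have hPf : ∀ z ∈ ball (0 : ℂ) (4 * (R₀ * T)), ‖Pf ty b Q z‖ ≤ A := by
    intro z hz
    refine (Pf_le ty b Q z E hE1 fun j => (hup _ (hball z hz j)).1).trans ?_
    rw [← hmc]
    exact hPA
  have hPC : ∀ z ∈ ball (0 : ℂ) (4 * (R₀ * T)), ∀ i, ‖PC μ ty b c Q g g' i z‖ ≤ A := by
    intro z hz i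
    refine (PC_le μ ty b c Q g g' z E F hE1 hF1 (fun j => (hup _ (hball z hz j)).1)
      (fun j => (hup _ (hball z hz j)).2.1) (fun j => (hup _ (hball z hz j)).2.2.1) (fun j => ?_)
      (fun j => ?_) i).trans ?_
    · have h1 := (hball' z hz j).le.trans hF4
      rw [hF]
      linarith [Real.add_one_le_exp (4 * β * R₀ * (T : ℝ) ^ 3)]
    · rw [Complex.norm_exp, hF]
      refine Real.exp_le_exp.2 ?_
      exact (Complex.re_le_norm _).trans ((hball' z hz j).le.trans hF4)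
    · rw [← hL, ← hmc]
      exact hLFE
  -- the functions
  have hfd : ∀ x : ι → Fin (T ^ q), DifferentiableOn ℂ
      (fun z => ∏ i, (PC μ ty b c Q g g' i z ^ (x i : ℕ) *
        Pf ty b Q z ^ (T ^ q - (x i : ℕ)))) (ball 0 (4 * (R₀ * T))) := by
    intro x
    refine DifferentiableOn.fun_finsetProd fun i _ => ?_
    refine DifferentiableOn.mul ?_ ?_
    · exact (PC_diff μ ty b c Q g g' _ _ hQd hgd hgd' hball i).pow _
    · exact (Pf_diff ty b Q hQd).differentiableOn.pow _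
  have hfb : ∀ x : ι → Fin (T ^ q), ∀ z ∈ ball (0 : ℂ) (4 * (R₀ * T)),
      ‖∏ i, (PC μ ty b c Q g g' i z ^ (x i : ℕ) *
        Pf ty b Q z ^ (T ^ q - (x i : ℕ)))‖ ≤ Real.exp (C1 * (T : ℝ) ^ (q + 3)) := by
    intro x z hz
    refine (fx_le (T ^ q) x (Pf ty b Q z) (fun i => PC μ ty b c Q g g' i z) A hA1 (hPf z hz)
      (hPC z hz)).trans (le_of_eq ?_)
    rw [← hmc, hA, ← Real.exp_nat_mul, ← Real.exp_nat_mul]
    congr 1
    rw [hC1']
    push_cast
    ring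
  choose cc hc1 hc2 using fun x : ι → Fin (T ^ q) =>
    EB.I_PsiE.tay _ (R₀ * T) _ (by linarith) (hfd x) (hfb x)
  have hcard : Fintype.card (ι → Fin (T ^ q)) = (T ^ q) ^ m := by
    rw [Fintype.card_fun, Fintype.card_fin, hmc]
  have hAA : (1 : ℝ) ≤ Real.exp (C1 * (T : ℝ) ^ (q + 3)) := Real.one_le_exp (by positivity)
  have hK1 : 1 ≤ T ^ k := Nat.one_le_pow _ _ hT1
  obtain ⟨p, hp0, hp, hz⟩ := h2 (ι → Fin (T ^ q)) (m + 1) (T ^ k) (T ^ (q + 4)) cc (R₀ * T) _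
    (by linarith) hAA hK1 (by omega) hc2 (by
      rw [hcard, hk]
      exact EB.I_PsiE.arith m e₁ e₂ q T hm hq hT4)
  refine ⟨p, hp0, hp, fun z hz' hzL => ?_⟩
  have h3 := hz z hz'
  have hzb : ∀ i, z i ∈ ball (0 : ℂ) (4 * (R₀ * T)) := by
    intro i
    rw [mem_ball_zero_iff]
    have := hz' i
    linarith
  have h4 : ∀ x : Fin (m + 1) → ι → Fin (T ^ q), ∀ i, ∑' k, cc (x i) k * z i ^ k =
      Pf ty b Q (z i) ^ (m * T ^ q) *
        ∏ j, PN τ μ ty c (fun l => b l * z i) j ^ (x i j : ℕ) := by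
    intro x i
    rw [(hc1 (x i) (z i) (hz' i)).tsum_eq, hmc]
    refine fx_eq (T ^ q) (x i) (Pf ty b Q (z i)) (fun j => PC μ ty b c Q g g' j (z i))
      (fun j => PN τ μ ty c (fun l => b l * z i) j) fun j => ?_
    exact PC_eq τ μ ty b c Q g g' j (z i) fun l hl =>
      (hup _ (hball _ (hzb i) l)).2.2.2 (hzL i l hl)
  have h5 : ∑ x : Fin (m + 1) → ι → Fin (T ^ q), (p x : ℂ) * ∏ i, ∑' k, cc (x i) k * z i ^ k =
      AFM τ μ ty b c p z * ∏ i, Pf ty b Q (z i) ^ (m * T ^ q) := by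
    unfold AFM
    rw [Finset.sum_mul]
    refine Finset.sum_congr rfl fun x _ => ?_
    simp only [h4]
    rw [Finset.prod_mul_distrib]
    ring
  rw [h5, norm_mul, norm_prod] at h3
  have h6 : ∀ i, dd τ ty b (2 * (m * T ^ q)) (z i) ≤
      (E ^ (2 * (m * T ^ q))) ^ m * ‖Pf ty b Q (z i) ^ (m * T ^ q)‖ := by
    intro i
    have h7 := dd_le τ ty b Q (z i) E hE1 (m * T ^ q) (fun j => by
      have e1 : ‖b j * z i‖ ≤ β * (R₀ * T) := by
        rw [norm_mul]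
        exact mul_le_mul (hβj j) (hz' i) (norm_nonneg _) (by linarith)
      have e2 := hlow _ e1
      have e3 : E * (Real.exp (-(B3 * (T : ℝ) ^ 3)) * d1 τ (b j * z i)) = d1 τ (b j * z i) := by
        rw [hE, ← mul_assoc, ← Real.exp_add, add_neg_cancel, Real.exp_zero, one_mul]
      calc d1 τ (b j * z i) = E * (Real.exp (-(B3 * (T : ℝ) ^ 3)) * d1 τ (b j * z i)) := e3.symm
        _ ≤ E * ‖Q (b j * z i)‖ := mul_le_mul_of_nonneg_left e2 (by linarith))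
    rw [← hmc] at h7
    exact h7
  have hdd0 : ∀ i, 0 ≤ dd τ ty b (2 * (m * T ^ q)) (z i) := by
    intro i
    unfold dd
    refine Finset.prod_nonneg fun j _ => ?_
    split_ifs
    · exact pow_nonneg (le_min zero_le_one Metric.infDist_nonneg) _
    · exact zero_le_one
  have h8 : ∏ i, dd τ ty b (2 * (m * T ^ q)) (z i) ≤
      ((E ^ (2 * (m * T ^ q))) ^ m) ^ (m + 1) * ∏ i, ‖Pf ty b Q (z i) ^ (m * T ^ q)‖ := by
    refine (Finset.prod_le_prod (fun i _ => hdd0 i) fun i _ => h6 i).trans (le_of_eq ?_)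
    rw [Finset.prod_mul_distrib, Finset.prod_const, Finset.card_univ, Fintype.card_fin]
  have h9 : ((E ^ (2 * (m * T ^ q))) ^ m) ^ (m + 1) = Real.exp (C3 * (T : ℝ) ^ (q + 3)) := by
    rw [hE, ← Real.exp_nat_mul, ← Real.exp_nat_mul, ← Real.exp_nat_mul]
    congr 1
    rw [hC3']
    push_cast
    ring
  calc ‖AFM τ μ ty b c p z‖ * ∏ i, dd τ ty b (2 * (m * T ^ q)) (z i)
      ≤ ‖AFM τ μ ty b c p z‖ * (Real.exp (C3 * (T : ℝ) ^ (q + 3)) *
          ∏ i, ‖Pf ty b Q (z i) ^ (m * T ^ q)‖) := by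
        rw [← h9]
        exact mul_le_mul_of_nonneg_left h8 (norm_nonneg _)
    _ = Real.exp (C3 * (T : ℝ) ^ (q + 3)) * (‖AFM τ μ ty b c p z‖ *
          ∏ i, ‖Pf ty b Q (z i) ^ (m * T ^ q)‖) := by ring
    _ ≤ Real.exp (C3 * (T : ℝ) ^ (q + 3)) * _ :=
        mul_le_mul_of_nonneg_left h3 (Real.exp_pos _).le
    _ ≤ _ := by
        rw [hcard]
        refine EB.I_PsiE.num (m + 1) q m k _ C1 C3 hC10 hC30 ?_ ?_ T hT4 (hT₀.trans hTT)
        · omega
        · obtain ⟨a, rfl⟩ : ∃ a, m = a + 2 := ⟨m - 2, by omega⟩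
          have e1 : a + 2 - 1 = a + 1 := by omega
          rw [hk, e1]
          nlinarith [Nat.zero_le (q * a), Nat.zero_le (e₁ * (a + 1))]

end Pool.Agent.Work.MP_8da9ea_nt.MX
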