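import Pool.Agent.Work.MP_8da9ea_nt.MX.StmtsF
import Pool.Agent.Work.MP_8da9ea_nt.MX.I_PsiM

/-!
# Mixed block, lossless version: the auxiliary function in the variables `z_r`, `t_r` (item PsiF)
-/

set_option autoImplicit false

namespace Pool.Agent.Work.MP_8da9ea_nt.MX

open MvPolynomial Metric Filter Topology Pool.Agent.Work.MP_327059_nt.GL
  Pool.Agent.Work.MP_8da9ea_nt.S Pool.Agent.Work.MP_8da9ea_nt.EB

namespace I_PsiF

section len

variable {σ : Type}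

/-- The sum of the norms of the coefficients. -/
noncomputable def L1 (P : MvPolynomial σ ℂ) : ℝ := ∑ d ∈ P.support, ‖P.coeff d‖

theorem L1_eq (P : MvPolynomial σ ℂ) (S : Finset (σ →₀ ℕ)) (h : P.support ⊆ S) :
    L1 P = ∑ d ∈ S, ‖P.coeff d‖ := by
  unfold L1
  refine Finset.sum_subset h fun d _ hd => ?_
  rw [MvPolynomial.notMem_support_iff.1 hd, norm_zero]

theorem L1_nonneg (P : MvPolynomial σ ℂ) : 0 ≤ L1 P :=
  Finset.sum_nonneg fun _ _ => norm_nonneg _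

theorem coeff_le_L1 (P : MvPolynomial σ ℂ) (d : σ →₀ ℕ) : ‖P.coeff d‖ ≤ L1 P := by
  classical
  rw [L1_eq P (insert d P.support) (Finset.subset_insert _ _)]
  exact Finset.single_le_sum (f := fun d => ‖P.coeff d‖) (fun _ _ => norm_nonneg _)
    (Finset.mem_insert_self _ _)

theorem L1_add (P Q : MvPolynomial σ ℂ) : L1 (P + Q) ≤ L1 P + L1 Q := by
  classical
  rw [L1_eq P (P.support ∪ Q.support) Finset.subset_union_left,
    L1_eq Q (P.support ∪ Q.support) Finset.subset_union_right,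
    L1_eq (P + Q) (P.support ∪ Q.support) MvPolynomial.support_add, ← Finset.sum_add_distrib]
  refine Finset.sum_le_sum fun d _ => ?_
  rw [coeff_add]
  exact norm_add_le _ _

theorem L1_zero : L1 (0 : MvPolynomial σ ℂ) = 0 := by
  unfold L1
  rw [MvPolynomial.support_zero, Finset.sum_empty]

theorem L1_sum {J : Type*} (s : Finset J) (f : J → MvPolynomial σ ℂ) :
    L1 (∑ j ∈ s, f j) ≤ ∑ j ∈ s, L1 (f j) := by
  classical
  induction s using Finset.induction_on with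
  | empty => rw [Finset.sum_empty, Finset.sum_empty, L1_zero]
  | insert a s ha ih =>
    rw [Finset.sum_insert ha, Finset.sum_insert ha]
    exact (L1_add _ _).trans (add_le_add le_rfl ih)

theorem L1_monomial (d : σ →₀ ℕ) (a : ℂ) : L1 (monomial d a) ≤ ‖a‖ := by
  classical
  rw [L1_eq (monomial d a) {d} MvPolynomial.support_monomial_subset, Finset.sum_singleton,
    coeff_monomial, if_pos rfl]

theorem L1_mul (P Q : MvPolynomial σ ℂ) : L1 (P * Q) ≤ L1 P * L1 Q := by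
  classical
  have e : P * Q = ∑ a ∈ P.support, ∑ b ∈ Q.support,
      monomial (a + b) (P.coeff a * Q.coeff b) := by
    conv_lhs => rw [P.as_sum, Q.as_sum]
    rw [Finset.sum_mul]
    refine Finset.sum_congr rfl fun a _ => ?_
    rw [Finset.mul_sum]
    refine Finset.sum_congr rfl fun b _ => ?_
    rw [monomial_mul]
  rw [e]
  refine (L1_sum _ _).trans ?_
  unfold L1
  rw [Finset.sum_mul]
  refine Finset.sum_le_sum fun a _ => ?_
  refine (L1_sum _ _).trans ?_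
  rw [Finset.mul_sum]
  refine Finset.sum_le_sum fun b _ => ?_
  refine (L1_monomial _ _).trans ?_
  rw [norm_mul]

theorem L1_C (a : ℂ) : L1 (C a : MvPolynomial σ ℂ) ≤ ‖a‖ := L1_monomial 0 a

theorem L1_one : L1 (1 : MvPolynomial σ ℂ) ≤ 1 := by
  have := L1_C (σ := σ) 1
  rwa [C_1, norm_one] at this

theorem L1_neg (P : MvPolynomial σ ℂ) : L1 (-P) = L1 P := by
  unfold L1
  rw [MvPolynomial.support_neg]
  refine Finset.sum_congr rfl fun d _ => ?_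
  rw [coeff_neg, norm_neg]

theorem L1_pow (P : MvPolynomial σ ℂ) (n : ℕ) : L1 (P ^ n) ≤ L1 P ^ n := by
  induction n with
  | zero =>
    rw [pow_zero, pow_zero]
    exact L1_one
  | succ n ih =>
    rw [pow_succ, pow_succ]
    exact (L1_mul _ _).trans (mul_le_mul_of_nonneg_right ih (L1_nonneg _))

theorem L1_prod {J : Type*} (s : Finset J) (f : J → MvPolynomial σ ℂ) :
    L1 (∏ j ∈ s, f j) ≤ ∏ j ∈ s, L1 (f j) := by
  classical
  induction s using Finset.induction_on with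
  | empty =>
    rw [Finset.prod_empty, Finset.prod_empty]
    exact L1_one
  | insert a s ha ih =>
    rw [Finset.prod_insert ha, Finset.prod_insert ha]
    exact (L1_mul _ _).trans (mul_le_mul_of_nonneg_left ih (L1_nonneg _))

/-- Coefficientwise differentiability. -/
def DC (s : Set ℂ) (F : ℂ → MvPolynomial σ ℂ) : Prop :=
  ∀ d, DifferentiableOn ℂ (fun z => (F z).coeff d) s

theorem DC_mul {s : Set ℂ} {F H : ℂ → MvPolynomial σ ℂ} (hF : DC s F) (hH : DC s H) :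
    DC s (fun z => F z * H z) := by
  classical
  intro d
  have e : (fun z => (F z * H z).coeff d) =
      fun z => ∑ x ∈ Finset.HasAntidiagonal.antidiagonal d, (F z).coeff x.1 * (H z).coeff x.2 := by
    funext z
    exact coeff_mul _ _ _
  rw [e]
  exact DifferentiableOn.fun_sum fun x _ => (hF x.1).mul (hH x.2)

theorem DC_C {s : Set ℂ} {f : ℂ → ℂ} (hf : DifferentiableOn ℂ f s) :
    DC (σ := σ) s (fun z => C (f z)) := by
  classical
  intro d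
  simp only [coeff_C]
  by_cases h : 0 = d
  · simp only [if_pos h]
    exact hf
  · simp only [if_neg h]
    exact differentiableOn_const _

theorem DC_const {s : Set ℂ} (P : MvPolynomial σ ℂ) : DC s (fun _ => P) := fun _ =>
  differentiableOn_const _

theorem DC_sub {s : Set ℂ} {F H : ℂ → MvPolynomial σ ℂ} (hF : DC s F) (hH : DC s H) :
    DC s (fun z => F z - H z) := by
  intro d
  simp only [coeff_sub]
  exact (hF d).sub (hH d)

theorem DC_sum {s : Set ℂ} {J : Type*} (I : Finset J) {F : J → ℂ → MvPolynomial σ ℂ}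
    (hF : ∀ j ∈ I, DC s (F j)) : DC s (fun z => ∑ j ∈ I, F j z) := by
  intro d
  simp only [coeff_sum]
  exact DifferentiableOn.fun_sum fun j hj => hF j hj d

theorem DC_pow {s : Set ℂ} {F : ℂ → MvPolynomial σ ℂ} (hF : DC s F) (n : ℕ) :
    DC s (fun z => F z ^ n) := by
  induction n with
  | zero =>
    simp only [pow_zero]
    exact DC_const 1
  | succ n ih =>
    simp only [pow_succ]
    exact DC_mul ih hF

theorem DC_prod {s : Set ℂ} {J : Type*} (I : Finset J) {F : J → ℂ → MvPolynomial σ ℂ}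
    (hF : ∀ j ∈ I, DC s (F j)) : DC s (fun z => ∏ j ∈ I, F j z) := by
  classical
  induction I using Finset.induction_on with
  | empty =>
    simp only [Finset.prod_empty]
    exact DC_const 1
  | insert a I ha ih =>
    simp only [Finset.prod_insert ha]
    exact DC_mul (hF a (Finset.mem_insert_self _ _))
      (ih fun j hj => hF j (Finset.mem_insert_of_mem hj))

/-- Evaluation as a sum over a box of exponents. -/
theorem eval_box [Fintype σ] [DecidableEq σ] (P : MvPolynomial σ ℂ) (n : ℕ) (hP : ∀ k, P.degreeOf k ≤ n)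
    (t : σ → ℂ) : eval t P = ∑ α : σ → Fin (n + 1),
      P.coeff (Finsupp.equivFunOnFinite.symm fun k => (α k : ℕ)) * ∏ k, t k ^ (α k : ℕ) := by
  classical
  rw [eval_eq']
  have hinj : Function.Injective (fun α : σ → Fin (n + 1) =>
      Finsupp.equivFunOnFinite.symm fun k => (α k : ℕ)) := by
    intro α α' h
    have h1 := Finsupp.equivFunOnFinite.symm.injective h
    funext k
    exact Fin.ext (congrFun h1 k)
  have hsub : P.support ⊆ Finset.univ.image (fun α : σ → Fin (n + 1) =>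
      Finsupp.equivFunOnFinite.symm fun k => (α k : ℕ)) := by
    intro d hd
    have hd' : ∀ k, d k < n + 1 := fun k =>
      Nat.lt_succ_of_le ((MvPolynomial.monomial_le_degreeOf k hd).trans (hP k))
    refine Finset.mem_image.2 ⟨fun k => ⟨d k, hd' k⟩, Finset.mem_univ _, ?_⟩
    ext k
    simp
  rw [Finset.sum_subset hsub fun d _ hd => by
    rw [MvPolynomial.notMem_support_iff.1 hd, zero_mul]]
  rw [Finset.sum_image fun α _ α' _ h => hinj h]
  refine Finset.sum_congr rfl fun α _ => ?_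
  simp

end len

section diff

theorem prod_diff {J : Type*} (s : Finset J) (a b : J → ℂ) (M δ : ℝ) (hM : 1 ≤ M)
    (ha : ∀ j ∈ s, ‖a j‖ ≤ M) (hb : ∀ j ∈ s, ‖b j‖ ≤ M) (hd : ∀ j ∈ s, ‖a j - b j‖ ≤ δ) :
    ‖∏ j ∈ s, a j - ∏ j ∈ s, b j‖ ≤ s.card * M ^ s.card * δ := by
  classical
  induction s using Finset.induction_on with
  | empty => simp
  | insert i s hi ih =>
    have h1 := ih (fun j hj => ha j (Finset.mem_insert_of_mem hj))
      (fun j hj => hb j (Finset.mem_insert_of_mem hj))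
      (fun j hj => hd j (Finset.mem_insert_of_mem hj))
    have h2 : ‖∏ j ∈ s, a j‖ ≤ M ^ s.card := by
      rw [norm_prod, ← Finset.prod_const]
      exact Finset.prod_le_prod (fun _ _ => norm_nonneg _)
        fun j hj => ha j (Finset.mem_insert_of_mem hj)
    have h3 := hd i (Finset.mem_insert_self _ _)
    have h4 := hb i (Finset.mem_insert_self _ _)
    have hδ : 0 ≤ δ := (norm_nonneg _).trans h3
    have hMp : 0 ≤ M ^ s.card := by positivity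
    rw [Finset.prod_insert hi, Finset.prod_insert hi, Finset.card_insert_of_notMem hi]
    have e : a i * ∏ j ∈ s, a j - b i * ∏ j ∈ s, b j =
        (a i - b i) * ∏ j ∈ s, a j + b i * (∏ j ∈ s, a j - ∏ j ∈ s, b j) := by ring
    rw [e]
    refine (norm_add_le _ _).trans ?_
    rw [norm_mul, norm_mul]
    have h5 : ‖a i - b i‖ * ‖∏ j ∈ s, a j‖ ≤ δ * M ^ s.card :=
      mul_le_mul h3 h2 (norm_nonneg _) hδ
    have h6 : ‖b i‖ * ‖∏ j ∈ s, a j - ∏ j ∈ s, b j‖ ≤ M * (s.card * M ^ s.card * δ) :=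
      mul_le_mul h4 h1 (norm_nonneg _) (by linarith)
    have h7 : δ * M ^ s.card ≤ δ * (M * M ^ s.card) :=
      mul_le_mul_of_nonneg_left (le_mul_of_one_le_left hMp hM) hδ
    calc ‖a i - b i‖ * ‖∏ j ∈ s, a j‖ + ‖b i‖ * ‖∏ j ∈ s, a j - ∏ j ∈ s, b j‖
        ≤ δ * (M * M ^ s.card) + M * (s.card * M ^ s.card * δ) :=
          add_le_add (h5.trans h7) h6
      _ = _ := by push_cast; ring

theorem pow_diff (a b : ℂ) (n : ℕ) (M δ : ℝ) (hM : 1 ≤ M) (ha : ‖a‖ ≤ M) (hb : ‖b‖ ≤ M)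
    (hd : ‖a - b‖ ≤ δ) : ‖a ^ n - b ^ n‖ ≤ n * M ^ n * δ := by
  have := prod_diff (Finset.range n) (fun _ => a) (fun _ => b) M δ hM (fun _ _ => ha)
    (fun _ _ => hb) (fun _ _ => hd)
  rwa [Finset.prod_const, Finset.prod_const, Finset.card_range] at this

variable {ι : Type} [Fintype ι]

/-- The difference of two cleared monomials in one variable. -/
theorem mon_diff (W : ℕ) (x : ι → Fin W) (D : ℂ) (a b : ι → ℂ) (M δ : ℝ) (hM : 1 ≤ M)
    (hD : ‖D‖ ≤ 1) (ha : ∀ i, ‖a i‖ ≤ M) (hb : ∀ i, ‖b i‖ ≤ M) (hδ : 0 ≤ δ)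
    (hd : ∀ i, ‖a i - b i‖ ≤ δ) :
    ‖∏ i, (a i ^ (x i : ℕ) * D ^ (W - (x i : ℕ))) -
      ∏ i, (b i ^ (x i : ℕ) * D ^ (W - (x i : ℕ)))‖ ≤
      Fintype.card ι * (M ^ W) ^ Fintype.card ι * (W * M ^ W * δ) := by
  have hb1 : ∀ (a : ι → ℂ), (∀ i, ‖a i‖ ≤ M) → ∀ i ∈ Finset.univ,
      ‖a i ^ (x i : ℕ) * D ^ (W - (x i : ℕ))‖ ≤ M ^ W := by
    intro a ha i _
    have h1 := (x i).2
    rw [norm_mul, norm_pow, norm_pow]
    calc ‖a i‖ ^ (x i : ℕ) * ‖D‖ ^ (W - (x i : ℕ)) ≤ M ^ (x i : ℕ) * 1 :=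
          mul_le_mul (pow_le_pow_left₀ (norm_nonneg _) (ha i) _)
            (pow_le_one₀ (norm_nonneg _) hD) (by positivity) (by positivity)
      _ ≤ M ^ W := by
          rw [mul_one]
          exact pow_le_pow_right₀ hM h1.le
  have := prod_diff Finset.univ (fun i => a i ^ (x i : ℕ) * D ^ (W - (x i : ℕ)))
    (fun i => b i ^ (x i : ℕ) * D ^ (W - (x i : ℕ))) (M ^ W) (W * M ^ W * δ)
    (one_le_pow₀ hM) (hb1 a ha) (hb1 b hb) (fun i _ => by
      have h1 := (x i).2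
      rw [← sub_mul, norm_mul, norm_pow]
      have h2 := pow_diff (a i) (b i) (x i : ℕ) M δ hM (ha i) (hb i) (hd i)
      calc ‖a i ^ (x i : ℕ) - b i ^ (x i : ℕ)‖ * ‖D‖ ^ (W - (x i : ℕ)) ≤
            ((x i : ℕ) * M ^ (x i : ℕ) * δ) * 1 :=
            mul_le_mul h2 (pow_le_one₀ (norm_nonneg _) hD) (by positivity) (by positivity)
        _ ≤ W * M ^ W * δ := by
            rw [mul_one]
            have h3 : ((x i : ℕ) : ℝ) ≤ W := by exact_mod_cast h1.le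
            have h4 : M ^ (x i : ℕ) ≤ M ^ W := pow_le_pow_right₀ hM h1.le
            exact mul_le_mul_of_nonneg_right
              (mul_le_mul h3 h4 (by positivity) (by positivity)) hδ)
  rwa [Finset.card_univ] at this

theorem mon_le (W : ℕ) (x : ι → Fin W) (D : ℂ) (a : ι → ℂ) (M : ℝ) (hM : 1 ≤ M)
    (hD : ‖D‖ ≤ 1) (ha : ∀ i, ‖a i‖ ≤ M) :
    ‖∏ i, (a i ^ (x i : ℕ) * D ^ (W - (x i : ℕ)))‖ ≤ (M ^ W) ^ Fintype.card ι := by
  rw [norm_prod, ← Finset.card_univ, ← Finset.prod_const]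
  refine Finset.prod_le_prod (fun _ _ => norm_nonneg _) fun i _ => ?_
  have h1 := (x i).2
  rw [norm_mul, norm_pow, norm_pow]
  calc ‖a i‖ ^ (x i : ℕ) * ‖D‖ ^ (W - (x i : ℕ)) ≤ M ^ (x i : ℕ) * 1 :=
        mul_le_mul (pow_le_pow_left₀ (norm_nonneg _) (ha i) _)
          (pow_le_one₀ (norm_nonneg _) hD) (by positivity) (by positivity)
    _ ≤ M ^ W := by
        rw [mul_one]
        exact pow_le_pow_right₀ hM h1.le

open Classical in
/-- The difference of two cleared values of the auxiliary polynomial. -/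
theorem AFv_diff {G : ℕ} (W : ℕ) (p : (Fin G → ι → Fin W) → ℤ) (H : ℝ) (hH : 0 ≤ H)
    (hp : ∀ x, |(p x : ℝ)| ≤ H) (D : Fin G → ℂ) (hD : ∀ r, ‖D r‖ ≤ 1) (v v' : Fin G → ι → ℂ)
    (M δ : ℝ) (hM : 1 ≤ M) (hδ : 0 ≤ δ) (hv : ∀ r i, ‖v r i * D r‖ ≤ M)
    (hv' : ∀ r i, ‖v' r i * D r‖ ≤ M) (hd : ∀ r i, ‖v r i - v' r i‖ ≤ δ) :
    ‖(AFv p v - AFv p v') * ∏ r, D r ^ (Fintype.card ι * W)‖ ≤
      Fintype.card (Fin G → ι → Fin W) * (H * (G * (((M ^ W) ^ Fintype.card ι) ^ G) *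
        (Fintype.card ι * (M ^ W) ^ Fintype.card ι * (W * M ^ W * δ)))) := by
  have e : ∀ v : Fin G → ι → ℂ, AFv p v * ∏ r, D r ^ (Fintype.card ι * W) =
      ∑ x : Fin G → ι → Fin W, (p x : ℂ) *
        ∏ r, ∏ i, ((v r i * D r) ^ (x r i : ℕ) * D r ^ (W - (x r i : ℕ))) := by
    intro v
    unfold AFv
    rw [Finset.sum_mul]
    refine Finset.sum_congr rfl fun x _ => ?_
    rw [mul_assoc, ← Finset.prod_mul_distrib]
    congr 1
    refine Finset.prod_congr rfl fun r _ => ?_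
    rw [I_PsiM.fx_eq W (x r) (D r) (fun i => v r i * D r) (v r) (fun i => rfl)]
    ring
  rw [sub_mul, e v, e v', ← Finset.sum_sub_distrib]
  refine (norm_sum_le _ _).trans ?_
  refine (Finset.sum_le_card_nsmul _ _ (H * (G * (((M ^ W) ^ Fintype.card ι) ^ G) *
        (Fintype.card ι * (M ^ W) ^ Fintype.card ι * (W * M ^ W * δ)))) fun x _ => ?_).trans ?_
  · rw [← mul_sub, norm_mul]
    refine mul_le_mul ?_ ?_ (norm_nonneg _) hH
    · rw [Complex.norm_intCast]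
      exact hp x
    · have h1 := prod_diff (Finset.univ : Finset (Fin G))
        (fun r => ∏ i, ((v r i * D r) ^ (x r i : ℕ) * D r ^ (W - (x r i : ℕ))))
        (fun r => ∏ i, ((v' r i * D r) ^ (x r i : ℕ) * D r ^ (W - (x r i : ℕ))))
        ((M ^ W) ^ Fintype.card ι) (Fintype.card ι * (M ^ W) ^ Fintype.card ι * (W * M ^ W * δ))
        (one_le_pow₀ (one_le_pow₀ hM)) (fun r _ => mon_le W (x r) (D r) _ M hM (hD r) (hv r))
        (fun r _ => mon_le W (x r) (D r) _ M hM (hD r) (hv' r)) (fun r _ =>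
          mon_diff W (x r) (D r) _ _ M δ hM (hD r) (hv r) (hv' r) hδ (fun i => by
            rw [← sub_mul, norm_mul]
            calc ‖v r i - v' r i‖ * ‖D r‖ ≤ δ * 1 :=
                  mul_le_mul (hd r i) (hD r) (norm_nonneg _) hδ
              _ = δ := mul_one δ))
      rwa [Finset.card_univ, Fintype.card_fin] at h1
  · rw [Finset.card_univ, nsmul_eq_mul]

end diff

section poly

variable {ι : Type} [Fintype ι] {ρ : ℕ}

/-- The cleared functions, as polynomials in `t`. -/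
noncomputable def PX (W : ℕ) (U : Fin ρ → ι → ℂ) (x : ι → Fin W) (P : ℂ) (pc : ι → ℂ) :
    MvPolynomial (Fin ρ) ℂ :=
  ∏ i, ((C (pc i) - ∑ k, C P * (C (U k i) * X k)) ^ (x i : ℕ) * C P ^ (W - (x i : ℕ)))

theorem PX_eval (W : ℕ) (U : Fin ρ → ι → ℂ) (x : ι → Fin W) (P : ℂ) (pc pn : ι → ℂ)
    (h : ∀ i, pc i = pn i * P) (t : Fin ρ → ℂ) :
    eval t (PX W U x P pc) =
      P ^ (Fintype.card ι * W) * ∏ i, (pn i - ∑ k, t k * U k i) ^ (x i : ℕ) := by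
  rw [← I_PsiM.fx_eq W x P (fun i => pc i - (∑ k, t k * U k i) * P)
    (fun i => pn i - ∑ k, t k * U k i) (fun i => by rw [h i]; ring)]
  unfold PX
  rw [map_prod]
  refine Finset.prod_congr rfl fun i _ => ?_
  rw [map_mul, map_pow, map_pow, map_sub, map_sum, eval_C, eval_C]
  congr 2
  rw [Finset.sum_mul]
  congr 1
  refine Finset.sum_congr rfl fun k _ => ?_
  rw [map_mul, map_mul, eval_C, eval_C, eval_X]
  ring

theorem PX_deg (W : ℕ) (U : Fin ρ → ι → ℂ) (x : ι → Fin W) (P : ℂ) (pc : ι → ℂ) (k : Fin ρ) :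
    (PX W U x P pc).degreeOf k ≤ Fintype.card ι * W := by
  refine (degreeOf_le_totalDegree _ _).trans ?_
  unfold PX
  refine (totalDegree_finsetProd _ _).trans ?_
  refine (Finset.sum_le_card_nsmul _ _ W fun i _ => ?_).trans (by
    rw [Finset.card_univ, smul_eq_mul])
  refine (totalDegree_mul _ _).trans ?_
  rw [← C_pow, totalDegree_C, add_zero]
  refine (totalDegree_pow _ _).trans ?_
  have h1 : (C (pc i) - ∑ k, C P * (C (U k i) * X k) : MvPolynomial (Fin ρ) ℂ).totalDegree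
      ≤ 1 := by
    refine (totalDegree_sub _ _).trans (max_le ?_ ?_)
    · rw [totalDegree_C]
      exact Nat.zero_le _
    · refine (totalDegree_finsetSum _ _).trans (Finset.sup_le fun k _ => ?_)
      refine (totalDegree_mul _ _).trans ?_
      rw [totalDegree_C, zero_add]
      refine (totalDegree_mul _ _).trans ?_
      rw [totalDegree_C, zero_add, totalDegree_X]
  calc (x i : ℕ) * _ ≤ (x i : ℕ) * 1 := Nat.mul_le_mul_left _ h1
    _ ≤ W := by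
      rw [mul_one]
      exact (x i).2.le

theorem PX_le (W : ℕ) (U : Fin ρ → ι → ℂ) (x : ι → Fin W) (P : ℂ) (pc : ι → ℂ) (A u : ℝ)
    (hA : 1 ≤ A) (hP : ‖P‖ ≤ A) (h : ∀ i, ‖pc i‖ ≤ A) (hu : ∀ i, 1 + ∑ k, ‖U k i‖ ≤ u) :
    L1 (PX W U x P pc) ≤ ((A * u) ^ W) ^ Fintype.card ι := by
  unfold PX
  refine (L1_prod _ _).trans ?_
  rw [← Finset.card_univ, ← Finset.prod_const]
  refine Finset.prod_le_prod (fun _ _ => L1_nonneg _) fun i _ => ?_
  have hu1 : 1 ≤ u := by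
    have h1 := hu i
    have h2 : 0 ≤ ∑ k, ‖U k i‖ := Finset.sum_nonneg fun _ _ => norm_nonneg _
    linarith
  have hlin : L1 (C (pc i) - ∑ k, C P * (C (U k i) * X k) : MvPolynomial (Fin ρ) ℂ) ≤
      A * u := by
    rw [sub_eq_add_neg]
    refine (L1_add _ _).trans ?_
    rw [L1_neg]
    have h1 : L1 (C (pc i) : MvPolynomial (Fin ρ) ℂ) ≤ A := (L1_C _).trans (h i)
    have h2 : L1 (∑ k, C P * (C (U k i) * X k) : MvPolynomial (Fin ρ) ℂ) ≤
        A * ∑ k, ‖U k i‖ := by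
      refine (L1_sum _ _).trans ?_
      rw [Finset.mul_sum]
      refine Finset.sum_le_sum fun k _ => ?_
      refine (L1_mul _ _).trans ?_
      refine mul_le_mul ((L1_C _).trans hP) ?_ (L1_nonneg _) (by linarith)
      have h3 : (C (U k i) * X k : MvPolynomial (Fin ρ) ℂ) =
          monomial (Finsupp.single k 1) (U k i) := C_mul_X_eq_monomial
      rw [h3]
      exact L1_monomial _ _
    calc _ ≤ A + A * ∑ k, ‖U k i‖ := add_le_add h1 h2
      _ = A * (1 + ∑ k, ‖U k i‖) := by ring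
      _ ≤ A * u := mul_le_mul_of_nonneg_left (hu i) (by linarith)
  have hC : L1 (C P : MvPolynomial (Fin ρ) ℂ) ≤ A * u :=
    ((L1_C _).trans hP).trans (le_mul_of_one_le_right (by linarith) hu1)
  refine (L1_mul _ _).trans ?_
  have h1 : (x i : ℕ) + (W - (x i : ℕ)) = W := by have := (x i).2; omega
  calc _ ≤ (A * u) ^ (x i : ℕ) * (A * u) ^ (W - (x i : ℕ)) :=
        mul_le_mul ((L1_pow _ _).trans (pow_le_pow_left₀ (L1_nonneg _) hlin _))
          ((L1_pow _ _).trans (pow_le_pow_left₀ (L1_nonneg _) hC _)) (L1_nonneg _)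
          (by positivity)
    _ = (A * u) ^ W := by rw [← pow_add, h1]

theorem PX_diff (W : ℕ) (U : Fin ρ → ι → ℂ) (x : ι → Fin W) (P : ℂ → ℂ) (pc : ι → ℂ → ℂ)
    (s : Set ℂ) (hP : DifferentiableOn ℂ P s) (hpc : ∀ i, DifferentiableOn ℂ (pc i) s) :
    DC s (fun z => PX W U x (P z) (fun i => pc i z)) := by
  unfold PX
  refine DC_prod _ fun i _ => DC_mul (DC_pow (DC_sub (DC_C (hpc i)) ?_) _)
    (DC_pow (DC_C hP) _)
  exact DC_sum _ fun k _ => DC_mul (DC_C hP) (DC_const _)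

end poly

/-- The arithmetic of the parameters. -/
theorem arithF (m ρ e₁ e₂ q T : ℕ) (hm : ρ + 2 ≤ m)
    (hq : (e₁ * (m - ρ - 1) + e₂ + 5) * (m + 2) + ρ * (m + 1) ≤ q) (hT : 4 ≤ T)
    (hTm : m + 1 ≤ T) :
    4 * (T ^ ((q + e₁) * (m - ρ - 1) + e₂ + 5)) ^ (m + 1 + 1) *
        ((m * T ^ q + 1) ^ ρ) ^ (m + 1) ≤
      T ^ (q + 4) * ((T ^ q) ^ m) ^ (m + 1) := by
  have h0 : m * T ^ q + 1 ≤ T ^ (q + 1) := by
    have h1 : 1 ≤ T ^ q := Nat.one_le_pow _ _ (by omega)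
    calc m * T ^ q + 1 ≤ m * T ^ q + T ^ q := by omega
      _ = (m + 1) * T ^ q := by ring
      _ ≤ T * T ^ q := Nat.mul_le_mul_right _ hTm
      _ = T ^ (q + 1) := by ring
  have h1 : ((m * T ^ q + 1) ^ ρ) ^ (m + 1) ≤ T ^ ((q + 1) * (ρ * (m + 1))) := by
    rw [← pow_mul, pow_mul T]
    exact Nat.pow_le_pow_left h0 _
  obtain ⟨ν, rfl⟩ : ∃ ν, m = ρ + 2 + ν := ⟨m - (ρ + 2), by omega⟩
  have e1 : ρ + 2 + ν - ρ - 1 = ν + 1 := by omega
  rw [e1] at hq ⊢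
  rw [← pow_mul, ← pow_mul, ← pow_mul, ← pow_mul, ← pow_add]
  calc 4 * T ^ (((q + e₁) * (ν + 1) + e₂ + 5) * (ρ + 2 + ν + 1 + 1)) *
        (((ρ + 2 + ν) * T ^ q + 1) ^ (ρ * (ρ + 2 + ν + 1)))
      ≤ T * T ^ (((q + e₁) * (ν + 1) + e₂ + 5) * (ρ + 2 + ν + 1 + 1)) *
        T ^ ((q + 1) * (ρ * (ρ + 2 + ν + 1))) := by
        refine Nat.mul_le_mul (Nat.mul_le_mul_right _ hT) ?_
        rw [← pow_mul] at h1
        exact h1
    _ = T ^ (1 + ((q + e₁) * (ν + 1) + e₂ + 5) * (ρ + 2 + ν + 1 + 1) +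
        (q + 1) * (ρ * (ρ + 2 + ν + 1))) := by
        rw [pow_add, pow_add, pow_one]
    _ ≤ _ := by
        refine Nat.pow_le_pow_right (by omega) ?_
        nlinarith [Nat.zero_le (q * ρ), Nat.zero_le (q * ν)]

theorem swapF {G ρ n : ℕ} {X : Type} [Fintype X] (p : X → ℂ)
    (h : X → Fin G → (Fin ρ → Fin (n + 1)) → ℂ) (t : Fin G → Fin ρ → ℂ) :
    ∑ x, p x * ∏ r, ∑ α : Fin ρ → Fin (n + 1), h x r α * ∏ k, t r k ^ (α k : ℕ) =
      ∑ ξ : Fin G → Fin ρ → Fin (n + 1), (∏ r, ∏ k, t r k ^ (ξ r k : ℕ)) *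
        ∑ x, p x * ∏ r, h x r (ξ r) := by
  simp only [Finset.prod_univ_sum, Fintype.piFinset_univ, Finset.mul_sum]
  rw [Finset.sum_comm]
  refine Finset.sum_congr rfl fun ξ _ => Finset.sum_congr rfl fun x _ => ?_
  rw [Finset.prod_mul_distrib]
  ring

theorem boundF {G ρ n : ℕ} {X : Type} [Fintype X] (p : X → ℂ)
    (h : X → Fin G → (Fin ρ → Fin (n + 1)) → ℂ) (t : Fin G → Fin ρ → ℂ) (B Y : ℝ)
    (hB : ∀ ξ : Fin G → Fin ρ → Fin (n + 1), ‖∑ x, p x * ∏ r, h x r (ξ r)‖ ≤ B)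
    (hY : 1 ≤ Y) (ht : ∀ r k, ‖t r k‖ ≤ Y) :
    ‖∑ x, p x * ∏ r, ∑ α : Fin ρ → Fin (n + 1), h x r α * ∏ k, t r k ^ (α k : ℕ)‖ ≤
      (((((n + 1) ^ ρ) ^ G : ℕ) : ℝ) * ((Y ^ n) ^ ρ) ^ G) * B := by
  rw [swapF]
  refine (norm_sum_le _ _).trans ?_
  refine (Finset.sum_le_card_nsmul _ _ (((Y ^ n) ^ ρ) ^ G * B) fun ξ _ => ?_).trans ?_
  · rw [norm_mul]
    refine mul_le_mul ?_ (hB ξ) (norm_nonneg _) (by positivity)
    rw [norm_prod]
    have h1 : ∀ r ∈ (Finset.univ : Finset (Fin G)), ‖∏ k, t r k ^ (ξ r k : ℕ)‖ ≤ (Y ^ n) ^ ρ := by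
      intro r _
      rw [norm_prod]
      have h2 : ∀ k ∈ (Finset.univ : Finset (Fin ρ)), ‖t r k ^ (ξ r k : ℕ)‖ ≤ Y ^ n := by
        intro k _
        rw [norm_pow]
        exact (pow_le_pow_left₀ (norm_nonneg _) (ht r k) _).trans
          (pow_le_pow_right₀ hY (Nat.lt_succ_iff.1 (ξ r k).2))
      refine (Finset.prod_le_prod (fun _ _ => norm_nonneg _) h2).trans (le_of_eq ?_)
      rw [Finset.prod_const, Finset.card_univ, Fintype.card_fin]
    refine (Finset.prod_le_prod (fun _ _ => norm_nonneg _) h1).trans (le_of_eq ?_)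
    rw [Finset.prod_const, Finset.card_univ, Fintype.card_fin]
  · rw [Finset.card_univ, nsmul_eq_mul, Fintype.card_fun, Fintype.card_fun, Fintype.card_fin,
      Fintype.card_fin, Fintype.card_fin, mul_assoc]

theorem numX (m ρ q T : ℕ) (R₀ : ℝ) (hR : 1 ≤ R₀) (hT : 4 ≤ T) (hTm : m + 1 ≤ T) :
    ((((m * T ^ q + 1) ^ ρ) ^ (m + 1) : ℕ) : ℝ) *
      (((R₀ * T) ^ (m * T ^ q)) ^ ρ) ^ (m + 1) ≤
      Real.exp ((((q + 1 : ℕ) : ℝ) * (ρ * (m + 1)) + R₀ * m * (ρ * (m + 1))) *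
        (T : ℝ) ^ (q + 3)) := by
  have hT1 : (1 : ℝ) ≤ T := by exact_mod_cast (by omega : 1 ≤ T)
  have h0 : m * T ^ q + 1 ≤ T ^ (q + 1) := by
    have h1 : 1 ≤ T ^ q := Nat.one_le_pow _ _ (by omega)
    calc m * T ^ q + 1 ≤ m * T ^ q + T ^ q := by omega
      _ = (m + 1) * T ^ q := by ring
      _ ≤ T * T ^ q := Nat.mul_le_mul_right _ hTm
      _ = T ^ (q + 1) := by ring
  have h1 : ((m * T ^ q + 1) ^ ρ) ^ (m + 1) ≤ T ^ ((q + 1) * (ρ * (m + 1))) := by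
    rw [← pow_mul, pow_mul T]
    exact Nat.pow_le_pow_left h0 _
  have h2 : ((((m * T ^ q + 1) ^ ρ) ^ (m + 1) : ℕ) : ℝ) ≤
      Real.exp (((q + 1 : ℕ) : ℝ) * (ρ * (m + 1)) * (T : ℝ) ^ (q + 3)) := by
    calc ((((m * T ^ q + 1) ^ ρ) ^ (m + 1) : ℕ) : ℝ) ≤
          ((T ^ ((q + 1) * (ρ * (m + 1))) : ℕ) : ℝ) := by exact_mod_cast h1
      _ = (T : ℝ) ^ ((q + 1) * (ρ * (m + 1))) := by push_cast; rfl
      _ ≤ Real.exp (((((q + 1) * (ρ * (m + 1))) : ℕ) : ℝ) * T) :=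
          EB.I_PsiE.Psi_pow_le _ (by linarith) _
      _ ≤ _ := by
          refine Real.exp_le_exp.2 ?_
          push_cast
          exact mul_le_mul_of_nonneg_left (le_self_pow₀ hT1 (by omega)) (by positivity)
  have h3 : (((R₀ * T) ^ (m * T ^ q)) ^ ρ) ^ (m + 1) ≤
      Real.exp (R₀ * m * (ρ * (m + 1)) * (T : ℝ) ^ (q + 3)) := by
    rw [← pow_mul, ← pow_mul]
    refine (EB.I_PsiE.Psi_pow_le _ (by positivity) _).trans (Real.exp_le_exp.2 ?_)
    have e1 : ((m * T ^ q * (ρ * (m + 1)) : ℕ) : ℝ) * (R₀ * T) =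
        R₀ * m * (ρ * (m + 1)) * (T : ℝ) ^ (q + 1) := by
      push_cast
      ring
    rw [e1]
    exact mul_le_mul_of_nonneg_left (pow_le_pow_right₀ hT1 (by omega)) (by positivity)
  calc _ ≤ Real.exp (((q + 1 : ℕ) : ℝ) * (ρ * (m + 1)) * (T : ℝ) ^ (q + 3)) *
        Real.exp (R₀ * m * (ρ * (m + 1)) * (T : ℝ) ^ (q + 3)) :=
        mul_le_mul h2 h3 (by positivity) (Real.exp_pos _).le
    _ = _ := by
        rw [← Real.exp_add]
        congr 1
        ring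

theorem errF (q m e κ : ℕ) (H1 : ℝ) (hH : 0 ≤ H1) (T : ℕ) (hT4 : 4 ≤ T)
    (he : q + 6 + κ ≤ e)
    (hTC : (q * m : ℕ) * ((m + 1 : ℕ) : ℝ) + 1 + ((m + 1 : ℕ) : ℝ) +
      H1 * m * ((m + 1 : ℕ) : ℝ) + m + H1 * m + 1 + H1 ≤ T) :
    ((((T ^ q) ^ m : ℕ) : ℝ) ^ (m + 1)) * (2 ^ (T ^ (q + 4)) * (((m + 1 : ℕ) : ℝ) *
      ((Real.exp (H1 * (T : ℝ) ^ 3) ^ (T ^ q)) ^ m) ^ (m + 1) *
      (m * (Real.exp (H1 * (T : ℝ) ^ 3) ^ (T ^ q)) ^ m *
        (((T ^ q : ℕ) : ℝ) * Real.exp (H1 * (T : ℝ) ^ 3) ^ (T ^ q) *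
          Real.exp (-((T : ℝ) ^ e)))))) ≤ Real.exp (-((T : ℝ) ^ (κ + 1))) := by
  set t : ℝ := (T : ℝ) with ht
  have ht4 : (4 : ℝ) ≤ t := by rw [ht]; exact_mod_cast hT4
  have ht1 : (1 : ℝ) ≤ t := by linarith
  have ht0 : (0 : ℝ) ≤ t := by linarith
  obtain ⟨X, hX⟩ : ∃ X, X = t ^ (q + 4) := ⟨_, rfl⟩
  have hX1 : 1 ≤ X := by rw [hX]; exact one_le_pow₀ ht1
  have hX0 : 0 ≤ X := by linarith
  have htX : t ≤ X := by rw [hX]; exact le_self_pow₀ ht1 (by omega)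
  have hYX : t ^ (q + 3) ≤ X := by rw [hX]; exact pow_le_pow_right₀ ht1 (by omega)
  have hb : (((T ^ q) ^ m : ℕ) : ℝ) ^ (m + 1) ≤ Real.exp (((q * m : ℕ) : ℝ) *
      ((m + 1 : ℕ) : ℝ) * X) := by
    have e1 : (((T ^ q) ^ m : ℕ) : ℝ) ^ (m + 1) = t ^ (q * m * (m + 1)) := by
      push_cast
      rw [← pow_mul, ← pow_mul, mul_assoc]
    rw [e1]
    refine (EB.I_PsiE.Psi_pow_le t ht0 _).trans (Real.exp_le_exp.2 ?_)
    push_cast
    exact mul_le_mul_of_nonneg_left htX (by positivity)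
  have hc : (2 : ℝ) ^ (T ^ (q + 4)) ≤ Real.exp (1 * X) := by
    refine (EB.I_PsiE.Psi_two_le _).trans (le_of_eq ?_)
    congr 1
    rw [hX]
    push_cast
    rw [one_mul]
  have hexp : ∀ a : ℝ, 0 ≤ a → a ≤ Real.exp (a * X) := by
    intro a ha
    have h1 : a ≤ a * X := le_mul_of_one_le_right ha hX1
    linarith [Real.add_one_le_exp (a * X)]
  have hMW : Real.exp (H1 * t ^ 3) ^ (T ^ q) ≤ Real.exp (H1 * X) := by
    rw [← Real.exp_nat_mul]
    refine Real.exp_le_exp.2 ?_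
    have e1 : ((T ^ q : ℕ) : ℝ) * (H1 * t ^ 3) = H1 * t ^ (q + 3) := by
      push_cast
      ring
    rw [e1]
    exact mul_le_mul_of_nonneg_left hYX hH
  have hMWm : (Real.exp (H1 * t ^ 3) ^ (T ^ q)) ^ m ≤ Real.exp (H1 * m * X) := by
    refine (pow_le_pow_left₀ (by positivity) hMW m).trans (le_of_eq ?_)
    rw [← Real.exp_nat_mul]
    congr 1
    ring
  have hMWmG : ((Real.exp (H1 * t ^ 3) ^ (T ^ q)) ^ m) ^ (m + 1) ≤
      Real.exp (H1 * m * ((m + 1 : ℕ) : ℝ) * X) := by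
    refine (pow_le_pow_left₀ (by positivity) hMWm (m + 1)).trans (le_of_eq ?_)
    rw [← Real.exp_nat_mul]
    congr 1
    ring
  have hW : ((T ^ q : ℕ) : ℝ) ≤ Real.exp (1 * X) := by
    have e1 : ((T ^ q : ℕ) : ℝ) ≤ X := by
      rw [hX]
      push_cast
      exact pow_le_pow_right₀ ht1 (by omega)
    linarith [Real.add_one_le_exp (1 * X)]
  have hm1 := hexp ((m + 1 : ℕ) : ℝ) (by positivity)
  have hm0 := hexp (m : ℝ) (by positivity)
  calc _ ≤ Real.exp (((q * m : ℕ) : ℝ) * ((m + 1 : ℕ) : ℝ) * X) * (Real.exp (1 * X) *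
        (Real.exp (((m + 1 : ℕ) : ℝ) * X) * Real.exp (H1 * m * ((m + 1 : ℕ) : ℝ) * X) *
        (Real.exp ((m : ℝ) * X) * Real.exp (H1 * m * X) *
          (Real.exp (1 * X) * Real.exp (H1 * X) * Real.exp (-(t ^ e)))))) := by
        gcongr
    _ = Real.exp (((q * m : ℕ) * ((m + 1 : ℕ) : ℝ) + 1 + ((m + 1 : ℕ) : ℝ) +
          H1 * m * ((m + 1 : ℕ) : ℝ) + m + H1 * m + 1 + H1) * X - t ^ e) := by
        simp only [← Real.exp_add]
        congr 1
        ring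
    _ ≤ _ := by
        refine Real.exp_le_exp.2 ?_
        have e0 := mul_le_mul_of_nonneg_right hTC hX0
        have e1 : t * X ≤ t ^ (q + 5 + κ) := by
          calc t * X = t ^ (q + 5) := by rw [hX]; ring
            _ ≤ t ^ (q + 5 + κ) := pow_le_pow_right₀ ht1 (by omega)
        have e2 : t ^ (κ + 1) ≤ t ^ (q + 5 + κ) := pow_le_pow_right₀ ht1 (by omega)
        have e3 : 4 * t ^ (q + 5 + κ) ≤ t ^ e := by
          calc 4 * t ^ (q + 5 + κ) ≤ t * t ^ (q + 5 + κ) :=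
                mul_le_mul_of_nonneg_right ht4 (by positivity)
            _ = t ^ (q + 6 + κ) := by ring
            _ ≤ t ^ e := pow_le_pow_right₀ ht1 he
        have e4 : 0 ≤ t ^ (q + 5 + κ) := by positivity
        linarith

theorem two_exp (T κ : ℕ) (hT : 4 ≤ T) :
    Real.exp (-((T : ℝ) ^ (κ + 1))) + Real.exp (-((T : ℝ) ^ (κ + 1))) ≤
      Real.exp (-((T : ℝ) ^ κ)) := by
  have ht4 : (4 : ℝ) ≤ T := by exact_mod_cast hT
  have h1 : (1 : ℝ) ≤ (T : ℝ) ^ κ := one_le_pow₀ (by linarith)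
  have h2 : (T : ℝ) ^ κ + 1 ≤ (T : ℝ) ^ (κ + 1) := by
    have : (T : ℝ) ^ (κ + 1) = T * (T : ℝ) ^ κ := by ring
    rw [this]
    nlinarith
  have h3 : Real.exp (-((T : ℝ) ^ (κ + 1))) ≤ Real.exp (-1) * Real.exp (-((T : ℝ) ^ κ)) := by
    rw [← Real.exp_add]
    exact Real.exp_le_exp.2 (by linarith)
  have h4 : Real.exp (-1 : ℝ) ≤ 1 / 2 := by
    rw [Real.exp_neg, ← one_div]
    exact one_div_le_one_div_of_le (by norm_num) (by linarith [Real.add_one_le_exp (1 : ℝ)])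
  have h5 := Real.exp_pos (-((T : ℝ) ^ κ))
  nlinarith

theorem dd_pow {ι : Type} [Fintype ι] (τ : ℂ) (ty : ι → Ty) (b : ι → ℂ) (n : ℕ) (z : ℂ) :
    dd τ ty b (2 * n) z = dd τ ty b 2 z ^ n := by
  unfold dd
  rw [← Finset.prod_pow]
  refine Finset.prod_congr rfl fun j _ => ?_
  by_cases h : ty j = Ty.ell
  · rw [if_pos h, if_pos h, pow_mul]
  · rw [if_neg h, if_neg h, one_pow]

theorem dd_nonneg {ι : Type} [Fintype ι] (τ : ℂ) (ty : ι → Ty) (b : ι → ℂ) (n : ℕ) (z : ℂ) :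
    0 ≤ dd τ ty b n z := by
  unfold dd
  refine Finset.prod_nonneg fun j _ => ?_
  split_ifs
  · exact pow_nonneg (le_min zero_le_one Metric.infDist_nonneg) _
  · exact zero_le_one

theorem dd_le_one {ι : Type} [Fintype ι] (τ : ℂ) (ty : ι → Ty) (b : ι → ℂ) (n : ℕ) (z : ℂ) :
    dd τ ty b n z ≤ 1 := by
  unfold dd
  refine Finset.prod_le_one (fun j _ => ?_) fun j _ => ?_
  · split_ifs
    · exact pow_nonneg (le_min zero_le_one Metric.infDist_nonneg) _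
    · exact zero_le_one
  · split_ifs
    · exact pow_le_one₀ (le_min zero_le_one Metric.infDist_nonneg) (min_le_left _ _)
    · exact le_rfl

end I_PsiF

open I_PsiM I_PsiF

theorem PsiF_pf (h2 : S_PLv) : S_PsiF := by
  classical
  intro ι _ ρ e₁ e₂ hm
  obtain ⟨m, hmc⟩ : ∃ m, m = Fintype.card ι := ⟨_, rfl⟩
  rw [← hmc] at hm ⊢
  refine ⟨(e₁ * (m - ρ - 1) + e₂ + 5) * (m + 2) + ρ * (m + 1), ?_⟩
  intro q hq τ μ hτ hμ ty b c U R₀ hR₀ hbj
  obtain ⟨C, hC1, hC⟩ := QTZ τ hτ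
  obtain ⟨β, hβ⟩ : ∃ β : ℝ, β = 1 + ∑ j, ‖b j‖ := ⟨_, rfl⟩
  have hβ1 : 1 ≤ β := by
    have := Finset.sum_nonneg (s := Finset.univ) fun (j : ι) _ => norm_nonneg (b j)
    linarith
  have hβj : ∀ j, ‖b j‖ ≤ β := by
    intro j
    have := Finset.single_le_sum (s := Finset.univ) (f := fun j => ‖b j‖)
      (fun j _ => norm_nonneg (b j)) (Finset.mem_univ j)
    linarith
  obtain ⟨L, hL⟩ : ∃ L : ℝ, L = 1 + ‖μ‖ ^ 2 + ∑ i, ∑ j, ‖c i j‖ * ‖μ‖ := ⟨_, rfl⟩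
  have hL1 : 1 ≤ L := by
    have h1 : 0 ≤ ∑ i, ∑ j, ‖c i j‖ * ‖μ‖ :=
      Finset.sum_nonneg fun i _ => Finset.sum_nonneg fun j _ => by positivity
    have h2 : 0 ≤ ‖μ‖ ^ 2 := by positivity
    linarith
  -- the directions
  obtain ⟨U', hU'⟩ : ∃ U' : Fin ρ → ι → ℂ, U' = fun k i => if ty i = Ty.add then U k i else 0 :=
    ⟨_, rfl⟩
  obtain ⟨u, hu⟩ : ∃ u : ℝ, u = 1 + ∑ i, ∑ k, ‖U' k i‖ := ⟨_, rfl⟩
  have hu1 : 1 ≤ u := by
    have h1 : 0 ≤ ∑ i, ∑ k, ‖U' k i‖ :=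
      Finset.sum_nonneg fun i _ => Finset.sum_nonneg fun j _ => norm_nonneg _
    linarith
  have hui : ∀ i, 1 + ∑ k, ‖U' k i‖ ≤ u := by
    intro i
    have := Finset.single_le_sum (s := Finset.univ) (f := fun i => ∑ k, ‖U' k i‖)
      (fun i _ => Finset.sum_nonneg fun k _ => norm_nonneg _) (Finset.mem_univ i)
    linarith
  obtain ⟨B3, hB3⟩ : ∃ B3 : ℝ, B3 = C * (β * R₀) ^ 3 := ⟨_, rfl⟩
  have hB30 : 0 ≤ B3 := by rw [hB3]; positivity
  obtain ⟨A1, hA1'⟩ : ∃ A1 : ℝ, A1 = L + 4 * β * R₀ + (2 * m + 2) * B3 := ⟨_, rfl⟩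
  have hA10 : 0 ≤ A1 := by rw [hA1']; positivity
  obtain ⟨C1, hC1'⟩ : ∃ C1 : ℝ, C1 = (A1 + u) * m := ⟨_, rfl⟩
  obtain ⟨C2, hC2'⟩ : ∃ C2 : ℝ, C2 = 2 * B3 * m * (m * (m + 1)) := ⟨_, rfl⟩
  obtain ⟨C5, hC5'⟩ : ∃ C5 : ℝ, C5 = ((q + 1 : ℕ) : ℝ) * (ρ * (m + 1)) +
    R₀ * m * (ρ * (m + 1)) := ⟨_, rfl⟩
  obtain ⟨C3, hC3'⟩ : ∃ C3 : ℝ, C3 = C2 + C5 := ⟨_, rfl⟩
  obtain ⟨H1, hH1'⟩ : ∃ H1 : ℝ, H1 = 2 * m * B3 + A1 + R₀ * u + 1 := ⟨_, rfl⟩
  have hC10 : 0 ≤ C1 := by rw [hC1']; positivity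
  have hC20 : 0 ≤ C2 := by rw [hC2']; positivity
  have hC50 : 0 ≤ C5 := by rw [hC5']; positivity
  have hC30 : 0 ≤ C3 := by rw [hC3']; positivity
  have hH10 : 0 ≤ H1 := by rw [hH1']; positivity
  obtain ⟨k, hk⟩ : ∃ k, k = (q + e₁) * (m - ρ - 1) + e₂ + 5 := ⟨_, rfl⟩
  obtain ⟨T₁, hT₁⟩ := exists_nat_ge (4 * ((4 + ((m + 1 : ℕ) : ℝ) * 4 ^ (m + 1)) +
    k * ((m + 1 : ℕ) : ℝ) + (q * m : ℕ) * ((m + 1 : ℕ) : ℝ) + 1 + ((m + 1 : ℕ) : ℝ) * C1 + C3))
  obtain ⟨T₂, hT₂⟩ := exists_nat_ge ((q * m : ℕ) * ((m + 1 : ℕ) : ℝ) + 1 + ((m + 1 : ℕ) : ℝ) +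
      H1 * m * ((m + 1 : ℕ) : ℝ) + m + H1 * m + 1 + H1)
  refine ⟨T₁ + T₂ + m + 4, fun T hT => ?_⟩
  have hT4 : 4 ≤ T := by omega
  have hT1 : 1 ≤ T := by omega
  have hTm : m + 1 ≤ T := by omega
  have hTr : (1 : ℝ) ≤ T := by exact_mod_cast hT1
  have hTT1 : (T₁ : ℝ) ≤ T := by exact_mod_cast (by omega : T₁ ≤ T)
  have hTT2 : (T₂ : ℝ) ≤ T := by exact_mod_cast (by omega : T₂ ≤ T)
  have hρ1 : 1 ≤ R₀ * T := one_le_mul_of_one_le_of_one_le hR₀ hTr
  have hR1 : 1 ≤ β * (R₀ * T) := one_le_mul_of_one_le_of_one_le hβ1 hρ1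
  obtain ⟨Q, g, g', hQd, hgd, hgd', hup, hlow⟩ := hC (β * (R₀ * T)) hR1
  have hCR : C * (β * (R₀ * T)) ^ 3 = B3 * (T : ℝ) ^ 3 := by rw [hB3]; ring
  rw [hCR] at hup hlow
  obtain ⟨E, hE⟩ : ∃ E : ℝ, E = Real.exp (B3 * (T : ℝ) ^ 3) := ⟨_, rfl⟩
  have hE1 : 1 ≤ E := by
    rw [hE]
    exact Real.one_le_exp (by positivity)
  rw [← hE] at hup
  have hball' : ∀ z ∈ ball (0 : ℂ) (4 * (R₀ * T)), ∀ j, ‖b j * z‖ < 4 * (β * (R₀ * T)) := by
    intro z hz j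
    rw [mem_ball_zero_iff] at hz
    rw [norm_mul]
    calc ‖b j‖ * ‖z‖ ≤ β * ‖z‖ := mul_le_mul_of_nonneg_right (hβj j) (norm_nonneg _)
      _ < β * (4 * (R₀ * T)) := mul_lt_mul_of_pos_left hz (by linarith)
      _ = 4 * (β * (R₀ * T)) := by ring
  have hball : ∀ z ∈ ball (0 : ℂ) (4 * (R₀ * T)), ∀ j, b j * z ∈ ball (0 : ℂ)
      (4 * (β * (R₀ * T))) := fun z hz j => mem_ball_zero_iff.2 (hball' z hz j)
  -- the bound of the cleared coordinates
  obtain ⟨A, hA⟩ : ∃ A : ℝ, A = Real.exp (A1 * (T : ℝ) ^ 3) := ⟨_, rfl⟩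
  have hA1 : 1 ≤ A := by
    rw [hA]
    exact Real.one_le_exp (by positivity)
  obtain ⟨F, hF⟩ : ∃ F : ℝ, F = Real.exp (4 * β * R₀ * (T : ℝ) ^ 3) := ⟨_, rfl⟩
  have hF1 : 1 ≤ F := by
    rw [hF]
    exact Real.one_le_exp (by positivity)
  have hT3 : (T : ℝ) ≤ (T : ℝ) ^ 3 := le_self_pow₀ hTr (by norm_num)
  have hF4 : 4 * (β * (R₀ * T)) ≤ 4 * β * R₀ * (T : ℝ) ^ 3 := by
    calc 4 * (β * (R₀ * T)) = 4 * β * R₀ * T := by ring
      _ ≤ _ := mul_le_mul_of_nonneg_left hT3 (by positivity)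
  have hLFE : L * F * E ^ 2 * (E ^ 2) ^ m ≤ A := by
    have e1 : L ≤ Real.exp (L * (T : ℝ) ^ 3) := by
      have h1 : L ≤ L * (T : ℝ) ^ 3 := le_mul_of_one_le_right (by linarith) (one_le_pow₀ hTr)
      linarith [Real.add_one_le_exp (L * (T : ℝ) ^ 3)]
    have e2 : E ^ 2 * (E ^ 2) ^ m = Real.exp ((2 * m + 2) * B3 * (T : ℝ) ^ 3) := by
      rw [hE, ← pow_mul, ← pow_add, ← Real.exp_nat_mul]
      congr 1
      push_cast
      ring
    calc L * F * E ^ 2 * (E ^ 2) ^ m = L * F * (E ^ 2 * (E ^ 2) ^ m) := by ring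
      _ ≤ Real.exp (L * (T : ℝ) ^ 3) * F * (E ^ 2 * (E ^ 2) ^ m) := by
          refine mul_le_mul_of_nonneg_right ?_ (by positivity)
          exact mul_le_mul_of_nonneg_right e1 (by linarith)
      _ = A := by
          rw [e2, hF, hA, hA1', ← Real.exp_add, ← Real.exp_add]
          congr 1
          ring
  have hPA : (E ^ 2) ^ m ≤ A := by
    refine le_trans ?_ hLFE
    refine le_mul_of_one_le_left (by positivity) ?_
    exact one_le_mul_of_one_le_of_one_le (one_le_mul_of_one_le_of_one_le hL1 hF1)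
      (one_le_pow₀ hE1)
  have hPf : ∀ z ∈ ball (0 : ℂ) (4 * (R₀ * T)), ‖Pf ty b Q z‖ ≤ A := by
    intro z hz
    refine (Pf_le ty b Q z E hE1 fun j => (hup _ (hball z hz j)).1).trans ?_
    rw [← hmc]
    exact hPA
  have hPC : ∀ z ∈ ball (0 : ℂ) (4 * (R₀ * T)), ∀ i, ‖PC μ ty b c Q g g' i z‖ ≤ A := by
    intro z hz i
    refine (PC_le μ ty b c Q g g' z E F hE1 hF1 (fun j => (hup _ (hball z hz j)).1)
      (fun j => (hup _ (hball z hz j)).2.1) (fun j => (hup _ (hball z hz j)).2.2.1) (fun j => ?_)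
      (fun j => ?_) i).trans ?_
    · have h1 := (hball' z hz j).le.trans hF4
      rw [hF]
      linarith [Real.add_one_le_exp (4 * β * R₀ * (T : ℝ) ^ 3)]
    · rw [Complex.norm_exp, hF]
      refine Real.exp_le_exp.2 ?_
      exact (Complex.re_le_norm _).trans ((hball' z hz j).le.trans hF4)
    · rw [← hL, ← hmc]
      exact hLFE
  -- the functions
  have hfd : ∀ (x : ι → Fin (T ^ q)) (α : Fin ρ → Fin (m * T ^ q + 1)), DifferentiableOn ℂ
      (fun z => (PX (T ^ q) U' x (Pf ty b Q z) (fun i => PC μ ty b c Q g g' i z)).coeff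
        (Finsupp.equivFunOnFinite.symm fun k => (α k : ℕ))) (ball 0 (4 * (R₀ * T))) := by
    intro x α
    exact PX_diff (T ^ q) U' x (fun z => Pf ty b Q z) (fun i z => PC μ ty b c Q g g' i z) _
      (Pf_diff ty b Q hQd).differentiableOn
      (fun i => PC_diff μ ty b c Q g g' _ _ hQd hgd hgd' hball i) _
  have hfb : ∀ (x : ι → Fin (T ^ q)) (α : Fin ρ → Fin (m * T ^ q + 1)),
      ∀ z ∈ ball (0 : ℂ) (4 * (R₀ * T)),
      ‖(PX (T ^ q) U' x (Pf ty b Q z) (fun i => PC μ ty b c Q g g' i z)).coeff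
        (Finsupp.equivFunOnFinite.symm fun k => (α k : ℕ))‖ ≤
        Real.exp (C1 * (T : ℝ) ^ (q + 3)) := by
    intro x α z hz
    refine (coeff_le_L1 _ _).trans ?_
    refine (PX_le (T ^ q) U' x (Pf ty b Q z) (fun i => PC μ ty b c Q g g' i z) A u hA1
      (hPf z hz) (hPC z hz) hui).trans ?_
    rw [← hmc]
    have e1 : A * u ≤ Real.exp ((A1 + u) * (T : ℝ) ^ 3) := by
      rw [add_mul, Real.exp_add, hA]
      refine mul_le_mul_of_nonneg_left ?_ (Real.exp_pos _).le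
      have h1 : u ≤ u * (T : ℝ) ^ 3 := le_mul_of_one_le_right (by linarith) (one_le_pow₀ hTr)
      linarith [Real.add_one_le_exp (u * (T : ℝ) ^ 3)]
    refine (pow_le_pow_left₀ (by positivity) (pow_le_pow_left₀ (by positivity) e1 _) _).trans
      (le_of_eq ?_)
    rw [← Real.exp_nat_mul, ← Real.exp_nat_mul]
    congr 1
    rw [hC1']
    push_cast
    ring
  choose cc hc1 hc2 using fun (x : ι → Fin (T ^ q)) (α : Fin ρ → Fin (m * T ^ q + 1)) =>
    EB.I_PsiE.tay _ (R₀ * T) _ (by linarith) (hfd x α) (hfb x α)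
  have hcard : Fintype.card (Fin (m + 1) → ι → Fin (T ^ q)) = ((T ^ q) ^ m) ^ (m + 1) := by
    rw [Fintype.card_fun, Fintype.card_fun, Fintype.card_fin, Fintype.card_fin, hmc]
  have hcardX : Fintype.card (Fin (m + 1) → Fin ρ → Fin (m * T ^ q + 1)) =
      ((m * T ^ q + 1) ^ ρ) ^ (m + 1) := by
    rw [Fintype.card_fun, Fintype.card_fun, Fintype.card_fin, Fintype.card_fin, Fintype.card_fin]
  have hAA : (1 : ℝ) ≤ Real.exp (C1 * (T : ℝ) ^ (q + 3)) := Real.one_le_exp (by positivity)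
  have hK1 : 1 ≤ T ^ k := Nat.one_le_pow _ _ hT1
  obtain ⟨p, hp0, hp, hz⟩ := h2 (Fin (m + 1) → ι → Fin (T ^ q)) (Fin (m + 1))
    (Fin (m + 1) → Fin ρ → Fin (m * T ^ q + 1)) (T ^ k) (T ^ (q + 4))
    (fun x ξ r => cc (x r) (ξ r)) (R₀ * T) _ (by linarith) hAA hK1
    (by rw [hcardX]; exact Nat.one_le_pow _ _ (Nat.one_le_pow _ _ (Nat.succ_pos _)))
    (fun x ξ r k => hc2 (x r) (ξ r) k) (by
      rw [hcard, hcardX, hk, Fintype.card_fin]
      exact arithF m ρ e₁ e₂ q T hm hq hT4 hTm)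
  refine ⟨p, hp0, hp, fun z t v hz' ht' hzL hv1 hv2 => ?_⟩
  have hzb : ∀ i, z i ∈ ball (0 : ℂ) (4 * (R₀ * T)) := by
    intro i
    rw [mem_ball_zero_iff]
    have := hz' i
    linarith
  -- the exact values
  obtain ⟨w, hw⟩ : ∃ w : Fin (m + 1) → ι → ℂ, w = fun r i =>
    PN τ μ ty c (fun j => b j * z r) i - ∑ k, t r k * U' k i := ⟨_, rfl⟩
  have h4 : ∀ (x : Fin (m + 1) → ι → Fin (T ^ q)) (r : Fin (m + 1)),
      ∑ α : Fin ρ → Fin (m * T ^ q + 1), (∑' k, cc (x r) α k * z r ^ k) *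
        ∏ k, t r k ^ (α k : ℕ) =
      Pf ty b Q (z r) ^ (m * T ^ q) * ∏ i, w r i ^ (x r i : ℕ) := by
    intro x r
    have e1 := eval_box (PX (T ^ q) U' (x r) (Pf ty b Q (z r))
      (fun i => PC μ ty b c Q g g' i (z r))) (m * T ^ q) (fun k => by
        have := PX_deg (T ^ q) U' (x r) (Pf ty b Q (z r))
          (fun i => PC μ ty b c Q g g' i (z r)) k
        rwa [← hmc] at this) (t r)
    have e2 := PX_eval (T ^ q) U' (x r) (Pf ty b Q (z r))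
      (fun i => PC μ ty b c Q g g' i (z r))
      (fun i => PN τ μ ty c (fun l => b l * z r) i)
      (fun i => PC_eq τ μ ty b c Q g g' i (z r) fun l hl =>
        (hup _ (hball _ (hzb r) l)).2.2.2 (hzL r l hl)) (t r)
    rw [e1, ← hmc] at e2
    rw [hw]
    refine Eq.trans (Finset.sum_congr rfl fun α _ => ?_) e2
    rw [(hc1 (x r) α (z r) (hz' r)).tsum_eq]
  have h5 : ∑ x : Fin (m + 1) → ι → Fin (T ^ q), (p x : ℂ) *
      ∏ r, ∑ α : Fin ρ → Fin (m * T ^ q + 1), (∑' k, cc (x r) α k * z r ^ k) *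
        ∏ k, t r k ^ (α k : ℕ) =
      AFv p w * ∏ r, Pf ty b Q (z r) ^ (m * T ^ q) := by
    unfold AFv
    rw [Finset.sum_mul]
    refine Finset.sum_congr rfl fun x _ => ?_
    simp only [h4]
    rw [Finset.prod_mul_distrib]
    ring
  obtain ⟨Bd, hBd⟩ : ∃ Bd : ℝ, Bd = (4 * ((T ^ k : ℕ) : ℝ) ^ (m + 1) +
      ((m + 1 : ℕ) : ℝ) * 4 ^ (m + 1)) * ((((T ^ q) ^ m : ℕ) : ℝ) ^ (m + 1) * 2 ^ (T ^ (q + 4)) *
        Real.exp (C1 * (T : ℝ) ^ (q + 3)) ^ (m + 1)) / 2 ^ (T ^ k) := ⟨_, rfl⟩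
  have hBd0 : 0 ≤ Bd := by rw [hBd]; positivity
  have hz2 : ∀ ξ : Fin (m + 1) → Fin ρ → Fin (m * T ^ q + 1),
      ‖∑ x : Fin (m + 1) → ι → Fin (T ^ q), (p x : ℂ) *
        ∏ r, ∑' k, cc (x r) (ξ r) k * z r ^ k‖ ≤ Bd := by
    intro ξ
    have := hz ξ z hz'
    rw [hcard, Fintype.card_fin, Nat.cast_pow ((T ^ q) ^ m) (m + 1), ← hBd] at this
    exact this
  have h3 := boundF (fun x : Fin (m + 1) → ι → Fin (T ^ q) => (p x : ℂ))
    (fun x r α => ∑' k, cc (x r) α k * z r ^ k) t Bd (R₀ * T) hz2 hρ1 ht'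
  rw [h5, norm_mul, norm_prod] at h3
  have hdE : ∀ r j, d1 τ (b j * z r) ≤ E * ‖Q (b j * z r)‖ := by
    intro r j
    have e1 : ‖b j * z r‖ ≤ β * (R₀ * T) := by
      rw [norm_mul]
      exact mul_le_mul (hβj j) (hz' r) (norm_nonneg _) (by linarith)
    have e2 := hlow _ e1
    have e3 : E * (Real.exp (-(B3 * (T : ℝ) ^ 3)) * d1 τ (b j * z r)) = d1 τ (b j * z r) := by
      rw [hE, ← mul_assoc, ← Real.exp_add, add_neg_cancel, Real.exp_zero, one_mul]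
    calc d1 τ (b j * z r) = E * (Real.exp (-(B3 * (T : ℝ) ^ 3)) * d1 τ (b j * z r)) := e3.symm
      _ ≤ E * ‖Q (b j * z r)‖ := mul_le_mul_of_nonneg_left e2 (by linarith)
  have h6 : ∀ (r : Fin (m + 1)) (M : ℕ), dd τ ty b (2 * M) (z r) ≤
      (E ^ (2 * M)) ^ m * ‖Pf ty b Q (z r) ^ M‖ := by
    intro r M
    have h7 := dd_le τ ty b Q (z r) E hE1 M (hdE r)
    rwa [← hmc] at h7
  have h8 : ∏ r, dd τ ty b (2 * (m * T ^ q)) (z r) ≤
      ((E ^ (2 * (m * T ^ q))) ^ m) ^ (m + 1) * ∏ r, ‖Pf ty b Q (z r) ^ (m * T ^ q)‖ := by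
    refine (Finset.prod_le_prod (fun r _ => dd_nonneg τ ty b _ (z r))
      fun r _ => h6 r (m * T ^ q)).trans (le_of_eq ?_)
    rw [Finset.prod_mul_distrib, Finset.prod_const, Finset.card_univ, Fintype.card_fin]
  have h9 : ((E ^ (2 * (m * T ^ q))) ^ m) ^ (m + 1) = Real.exp (C2 * (T : ℝ) ^ (q + 3)) := by
    rw [hE, ← Real.exp_nat_mul, ← Real.exp_nat_mul, ← Real.exp_nat_mul]
    congr 1
    rw [hC2']
    push_cast
    ring
  obtain ⟨κ, hκ⟩ : ∃ κ, κ = (q + e₁) * (m - ρ - 1) + e₂ := ⟨_, rfl⟩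
  have hmain : ‖AFv p w‖ * ∏ r, dd τ ty b (2 * (m * T ^ q)) (z r) ≤
      Real.exp (-((T : ℝ) ^ (κ + 1))) := by
    have hnX := numX m ρ q T R₀ hR₀ hT4 hTm
    rw [← hC5'] at hnX
    calc ‖AFv p w‖ * ∏ r, dd τ ty b (2 * (m * T ^ q)) (z r)
        ≤ ‖AFv p w‖ * (Real.exp (C2 * (T : ℝ) ^ (q + 3)) *
            ∏ r, ‖Pf ty b Q (z r) ^ (m * T ^ q)‖) := by
          rw [← h9]
          exact mul_le_mul_of_nonneg_left h8 (norm_nonneg _)
      _ = Real.exp (C2 * (T : ℝ) ^ (q + 3)) * (‖AFv p w‖ *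
            ∏ r, ‖Pf ty b Q (z r) ^ (m * T ^ q)‖) := by ring
      _ ≤ Real.exp (C2 * (T : ℝ) ^ (q + 3)) *
            ((((((m * T ^ q + 1) ^ ρ) ^ (m + 1) : ℕ) : ℝ) *
              (((R₀ * T) ^ (m * T ^ q)) ^ ρ) ^ (m + 1)) * Bd) :=
          mul_le_mul_of_nonneg_left h3 (Real.exp_pos _).le
      _ ≤ Real.exp (C2 * (T : ℝ) ^ (q + 3)) * (Real.exp (C5 * (T : ℝ) ^ (q + 3)) * Bd) := by
          refine mul_le_mul_of_nonneg_left ?_ (Real.exp_pos _).le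
          exact mul_le_mul_of_nonneg_right hnX hBd0
      _ = Real.exp (C3 * (T : ℝ) ^ (q + 3)) * Bd := by
          rw [← mul_assoc, ← Real.exp_add, hC3', add_mul]
      _ ≤ _ := by
          rw [hBd]
          refine EB.I_PsiE.num (m + 1) q m k _ C1 C3 hC10 hC30 ?_ ?_ T hT4 (hT₁.trans hTT1)
          · omega
          · obtain ⟨a, ha⟩ : ∃ a, m - ρ - 1 = a + 1 := ⟨m - ρ - 2, by omega⟩
            rw [hk, ha]
            nlinarith [Nat.zero_le (q * a), Nat.zero_le (e₁ * (a + 1))]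
  -- the difference
  obtain ⟨D, hD⟩ : ∃ D : Fin (m + 1) → ℂ, D = fun r => ((dd τ ty b 2 (z r) : ℝ) : ℂ) := ⟨_, rfl⟩
  have hDn : ∀ r, ‖D r‖ = dd τ ty b 2 (z r) := by
    intro r
    rw [hD, Complex.norm_real, Real.norm_of_nonneg (dd_nonneg τ ty b 2 (z r))]
  have hD1 : ∀ r, ‖D r‖ ≤ 1 := fun r => (hDn r).le.trans (dd_le_one τ ty b 2 (z r))
  have hDp : ‖∏ r, D r ^ (m * T ^ q)‖ = ∏ r, dd τ ty b (2 * (m * T ^ q)) (z r) := by
    rw [norm_prod]
    refine Finset.prod_congr rfl fun r _ => ?_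
    rw [norm_pow, hDn, dd_pow]
  obtain ⟨ε, hε⟩ : ∃ ε : ℝ, ε = Real.exp (-((T : ℝ) ^ ((q + e₁) * m + e₂ + q + 6))) := ⟨_, rfl⟩
  have hε0 : 0 ≤ ε := by rw [hε]; exact (Real.exp_pos _).le
  have hε1 : ε ≤ 1 := by
    rw [hε]
    refine Real.exp_le_one_iff.2 ?_
    have : (0 : ℝ) ≤ (T : ℝ) ^ ((q + e₁) * m + e₂ + q + 6) := by positivity
    linarith
  have hvw : ∀ r i, ‖v r i - w r i‖ ≤ ε := by
    intro r i
    by_cases hi : ty i = Ty.add
    · have e1 : w r i = PN τ μ ty c (fun j => b j * z r) i - ∑ k, t r k * U k i := by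
        rw [hw, hU']
        simp only [if_pos hi]
      rw [e1, hε]
      exact hv2 r i hi
    · have e1 : w r i = PN τ μ ty c (fun j => b j * z r) i := by
        rw [hw, hU']
        simp only [if_neg hi, mul_zero, Finset.sum_const_zero, sub_zero]
      rw [e1, hv1 r i hi, sub_self, norm_zero]
      exact hε0
  obtain ⟨M, hM⟩ : ∃ M : ℝ, M = Real.exp (H1 * (T : ℝ) ^ 3) := ⟨_, rfl⟩
  have hM1 : 1 ≤ M := by
    rw [hM]
    exact Real.one_le_exp (by positivity)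
  have hMb : (E ^ 2) ^ m * A + R₀ * T * u + 1 ≤ M := by
    have e1 : (E ^ 2) ^ m * A = Real.exp ((2 * m * B3 + A1) * (T : ℝ) ^ 3) := by
      rw [hE, hA, ← Real.exp_nat_mul, ← Real.exp_nat_mul, ← Real.exp_add]
      congr 1
      push_cast
      ring
    have e2 : 1 ≤ (E ^ 2) ^ m * A :=
      one_le_mul_of_one_le_of_one_le (one_le_pow₀ (one_le_pow₀ hE1)) hA1
    have e3 : R₀ * T * u + 1 ≤ (R₀ * u + 1) * (T : ℝ) ^ 3 := by
      have h1 : R₀ * T * u ≤ R₀ * u * (T : ℝ) ^ 3 := by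
        calc R₀ * T * u = R₀ * u * T := by ring
          _ ≤ _ := mul_le_mul_of_nonneg_left hT3 (by positivity)
      have h2 : (1 : ℝ) ≤ (T : ℝ) ^ 3 := one_le_pow₀ hTr
      linarith
    have e4 : 0 ≤ R₀ * T * u := by positivity
    calc (E ^ 2) ^ m * A + R₀ * T * u + 1 ≤ (E ^ 2) ^ m * A * (1 + (R₀ * T * u + 1)) := by
          nlinarith
      _ ≤ (E ^ 2) ^ m * A * Real.exp ((R₀ * u + 1) * (T : ℝ) ^ 3) := by
          refine mul_le_mul_of_nonneg_left ?_ (by linarith)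
          linarith [Real.add_one_le_exp ((R₀ * u + 1) * (T : ℝ) ^ 3)]
      _ = M := by
          rw [e1, hM, hH1', ← Real.exp_add]
          congr 1
          ring
  have hwD : ∀ r i, ‖w r i * D r‖ ≤ (E ^ 2) ^ m * A + R₀ * T * u := by
    intro r i
    have e1 : w r i * D r = PN τ μ ty c (fun j => b j * z r) i * D r -
        (∑ k, t r k * U' k i) * D r := by
      rw [hw]
      ring
    rw [e1]
    refine (norm_sub_le _ _).trans (add_le_add ?_ ?_)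
    · rw [norm_mul, hDn]
      have h7 := h6 r 1
      rw [mul_one, pow_one] at h7
      have h10 : ‖PN τ μ ty c (fun j => b j * z r) i‖ * ‖Pf ty b Q (z r)‖ ≤ A := by
        rw [← norm_mul, ← PC_eq τ μ ty b c Q g g' i (z r) fun l hl =>
          (hup _ (hball _ (hzb r) l)).2.2.2 (hzL r l hl)]
        exact hPC (z r) (hzb r) i
      calc ‖PN τ μ ty c (fun j => b j * z r) i‖ * dd τ ty b 2 (z r)
          ≤ ‖PN τ μ ty c (fun j => b j * z r) i‖ * ((E ^ 2) ^ m * ‖Pf ty b Q (z r)‖) :=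
            mul_le_mul_of_nonneg_left h7 (norm_nonneg _)
        _ = (E ^ 2) ^ m * (‖PN τ μ ty c (fun j => b j * z r) i‖ * ‖Pf ty b Q (z r)‖) := by
            ring
        _ ≤ (E ^ 2) ^ m * A := mul_le_mul_of_nonneg_left h10 (by positivity)
    · rw [norm_mul]
      have h7 : ‖∑ k, t r k * U' k i‖ ≤ R₀ * T * u := by
        refine (norm_sum_le _ _).trans ?_
        have h8 : ∑ k, ‖t r k * U' k i‖ ≤ R₀ * T * ∑ k, ‖U' k i‖ := by
          rw [Finset.mul_sum]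
          refine Finset.sum_le_sum fun k _ => ?_
          rw [norm_mul]
          exact mul_le_mul_of_nonneg_right (ht' r k) (norm_nonneg _)
        refine h8.trans (mul_le_mul_of_nonneg_left ?_ (by positivity))
        linarith [hui i]
      calc ‖∑ k, t r k * U' k i‖ * ‖D r‖ ≤ R₀ * T * u * 1 :=
            mul_le_mul h7 (hD1 r) (norm_nonneg _) (by positivity)
        _ = R₀ * T * u := mul_one _
  have hvD : ∀ r i, ‖v r i * D r‖ ≤ (E ^ 2) ^ m * A + R₀ * T * u + 1 := by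
    intro r i
    have e1 : v r i * D r = w r i * D r + (v r i - w r i) * D r := by ring
    rw [e1]
    refine (norm_add_le _ _).trans (add_le_add (hwD r i) ?_)
    rw [norm_mul]
    calc ‖v r i - w r i‖ * ‖D r‖ ≤ 1 * 1 :=
          mul_le_mul ((hvw r i).trans hε1) (hD1 r) (norm_nonneg _) zero_le_one
      _ = 1 := mul_one 1
  have herr : ‖AFv p v - AFv p w‖ * ∏ r, dd τ ty b (2 * (m * T ^ q)) (z r) ≤
      Real.exp (-((T : ℝ) ^ (κ + 1))) := by
    have h10 := AFv_diff (T ^ q) p ((2 : ℝ) ^ (T ^ (q + 4))) (by positivity) (fun x => by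
      have := hp x
      exact_mod_cast this) D hD1 v w M ε hM1 hε0 (fun r i => (hvD r i).trans hMb)
      (fun r i => (hwD r i).trans (by linarith)) hvw
    rw [← hmc, norm_mul, hDp, hcard] at h10
    refine h10.trans ?_
    rw [hM, hε, Nat.cast_pow ((T ^ q) ^ m) (m + 1)]
    refine errF q m _ κ H1 hH10 T hT4 ?_ (hT₂.trans hTT2)
    have h11 : (q + e₁) * (m - ρ - 1) ≤ (q + e₁) * m := Nat.mul_le_mul_left _ (by omega)
    omega
  rw [← hκ]
  refine le_trans ?_ (two_exp T κ hT4)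
  have hdp : 0 ≤ ∏ r, dd τ ty b (2 * (m * T ^ q)) (z r) :=
    Finset.prod_nonneg fun r _ => dd_nonneg τ ty b _ (z r)
  calc ‖AFv p v‖ * ∏ r, dd τ ty b (2 * (m * T ^ q)) (z r)
      ≤ (‖AFv p v - AFv p w‖ + ‖AFv p w‖) * ∏ r, dd τ ty b (2 * (m * T ^ q)) (z r) := by
        refine mul_le_mul_of_nonneg_right ?_ hdp
        have := norm_add_le (AFv p v - AFv p w) (AFv p w)
        rwa [sub_add_cancel] at this
    _ = ‖AFv p v - AFv p w‖ * ∏ r, dd τ ty b (2 * (m * T ^ q)) (z r) +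
        ‖AFv p w‖ * ∏ r, dd τ ty b (2 * (m * T ^ q)) (z r) := by ring
    _ ≤ _ := add_le_add herr hmain

end Pool.Agent.Work.MP_8da9ea_nt.MX
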