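import Pool.Agent.Work.MP_8da9ea_nt.MX.StmtsH
import Pool.Agent.Work.MP_8da9ea_nt.EB.I_RelAll

/-!
# Mixed block: item RelAllJ (H6), exponential points added to given elliptic ones
-/

set_option autoImplicit false

namespace Pool.Agent.Work.MP_8da9ea_nt.MX

open Pool.Agent.Work.MP_327059_nt.GL Pool.Agent.Work.MP_8da9ea_nt.S
open Pool.Agent.Work.MP_8da9ea_nt.EB

namespace I_RelAllJ

open Pool.Agent.Work.MP_8da9ea_nt.EB.I_RelAll

/-- a non-zero determinant makes the elliptic forms independent -/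
theorem idp_of_det (τ μ : ℂ) (K : IntermediateField ℚ ℂ) (r' : ℕ) (v : Fin r' → ℂ)
    (δ₀ : Fin 0 ⊕ Fin r' × Bool → Derivation ℚ ℂ ℂ) (h0 : ∀ o, δ₀ o ∈ DK K)
    (hdet : (Matrix.of fun o o' => enE τ μ (fun i : Fin 0 => i.elim0) v (δ₀ o) o').det ≠ 0) :
    Idp (DK K) (EB.I_RelAll.FF τ μ v) := by
  classical
  intro a ha
  set M : Matrix (Fin 0 ⊕ Fin r' × Bool) (Fin 0 ⊕ Fin r' × Bool) ℂ :=
    Matrix.of fun o o' => enE τ μ (fun i : Fin 0 => i.elim0) v (δ₀ o) o' with hM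
  have h1 : M.mulVec (Sum.elim (fun i : Fin 0 => i.elim0) a) = 0 := by
    funext o
    have h2 := ha (δ₀ o) (h0 o)
    rw [Pi.zero_apply, ← h2]
    unfold Matrix.mulVec dotProduct
    rw [Fintype.sum_sum_type]
    have h3 : ∑ i : Fin 0, M o (Sum.inl i) *
        (Sum.elim (fun i : Fin 0 => i.elim0) a : Fin 0 ⊕ Fin r' × Bool → ℂ) (Sum.inl i) = 0 :=
      Finset.sum_eq_zero fun i _ => i.elim0
    rw [h3, zero_add]
    apply Finset.sum_congr rfl
    rintro ⟨l, b⟩ _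
    rw [mul_comm]
    cases b with
    | true => rfl
    | false => rfl
  have h4 := Matrix.eq_zero_of_mulVec_eq_zero hdet h1
  funext q
  exact congrFun h4 (Sum.inr q)

end I_RelAllJ

open Pool.Agent.Work.MP_8da9ea_nt.EB.I_RelAll I_RelAllJ in
/-- **H6: exponential points added to given elliptic ones.** -/
theorem RelAllJ_pf : S_RelAllJ := by
  classical
  intro τ μ K m m' r r' β β' c' δ₀ h0 hdet0 hr
  set v : Fin r' → ℂ := fun l => ∑ j, (c' l j : ℂ) * β' j with hv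
  have hc' : Idp (DK K) (EB.I_RelAll.FF τ μ v) := idp_of_det τ μ K r' v δ₀ h0 hdet0
  set S' : Submodule ℂ (Derivation ℚ ℂ ℂ) := DK K ⊓ ⨅ q, LinearMap.ker (EB.I_RelAll.FF τ μ v q) with hS'
  have hmem : ∀ δ, δ ∈ S' ↔ δ ∈ DK K ∧ ∀ q, EB.I_RelAll.FF τ μ v q δ = 0 := by
    intro δ
    rw [hS', Submodule.mem_inf, Submodule.mem_iInf]
    rfl
  have hdrop := rank_drop (DK K) S' (lgV β) (EB.I_RelAll.FF τ μ v) (fun δ h2 h3 => (hmem δ).2 ⟨h2, h3⟩)
  have hcard : Fintype.card (Fin r' × Bool) = r' * 2 := by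
    rw [Fintype.card_prod, Fintype.card_fin, Fintype.card_bool]
  rw [hcard] at hdrop
  have hrank : r ≤ Module.finrank ℂ (S'.map (lgV β)) := by
    rcases Nat.eq_zero_or_pos r with h | h
    · rw [h]
      exact Nat.zero_le _
    · have h1 := hr h
      omega
  obtain ⟨j, hj⟩ := EB.I_RelAll.select S' (fun l => lgF (β l)) (lgV β) (fun _ _ => rfl) r hrank
  have h2 := (Idp.extend (fun δ hδ => (hmem δ).1 hδ) hc' hj).equiv
    (Equiv.sumComm (Fin r) (Fin r' × Bool))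
  obtain ⟨δ, hδ, hdet⟩ := h2.det
  refine ⟨fun i => Pi.single (j i) 1, δ, hδ, ?_⟩
  have hu : (fun i : Fin r => ∑ l, (((Pi.single (j i) 1 : Fin m → ℚ) l : ℚ) : ℂ) * β l) =
      fun i => β (j i) := by
    funext i
    rw [Finset.sum_eq_single (j i)]
    · simp
    · intro l _ hl
      rw [Pi.single_eq_of_ne hl]
      simp
    · intro h
      exact absurd (Finset.mem_univ _) h
  rw [hu]
  convert hdet using 2
  ext o o'
  rw [Matrix.of_apply, Matrix.of_apply]
  rcases o' with i | ⟨l, b⟩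
  · rfl
  · cases b with
    | true => rfl
    | false => rfl

end Pool.Agent.Work.MP_8da9ea_nt.MX
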