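import Pool.Agent.Work.MP_8da9ea_nt.MX.StmtsT
import Pool.Agent.Work.MP_8da9ea_nt.Bd.B04

/-!
# Mixed block, item RelPtM: an algebraic relation between the values of the full family at one point

The point `θ` is enlarged by numbers `ν` which are algebraically independent over `ℤ[θ]`, one for each
function among `z`, `Z(b_j z)` which is not a pivot. Siegel's lemma over a finitely generated field
gives a relation at `(θ, ν)`, and this relation holds for all values of `ν`.
-/

set_option autoImplicit false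

namespace Pool.Agent.Work.MP_8da9ea_nt.MX

open MvPolynomial Metric Filter Topology Pool.Agent.Work.MP_327059_nt.GL
  Pool.Agent.Work.MP_8da9ea_nt.S Pool.Agent.Work.MP_8da9ea_nt.EB

namespace I_RelPtM

/-! ## Generic values -/

/-- Numbers which are generic with respect to `θ`. -/
theorem gen {σ κ : Type} [Finite σ] [Finite κ] (θ : σ → ℂ) : ∃ ν : κ → ℂ,
    ∀ P : MvPolynomial (σ ⊕ κ) ℤ, aeval (Sum.elim θ ν) P = 0 →
      ∀ ν' : κ → ℂ, aeval (Sum.elim θ ν') P = 0 := by
  classical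
  let A : Subalgebra ℤ ℂ := (aeval θ : MvPolynomial σ ℤ →ₐ[ℤ] ℂ).range
  have hcount : Cardinal.mk A ≤ Cardinal.aleph0 := by
    rw [Cardinal.mk_le_aleph0_iff]
    have : Countable (MvPolynomial σ ℤ) := by
      rw [← Cardinal.mk_le_aleph0_iff]
      refine MvPolynomial.cardinalMk_le_max.trans ?_
      simp
    exact (Set.countable_range (aeval θ : MvPolynomial σ ℤ →ₐ[ℤ] ℂ)).to_subtype
  have : FaithfulSMul A ℂ := by
    rw [faithfulSMul_iff_algebraMap_injective]
    exact Subtype.val_injective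
  obtain ⟨s, hs⟩ := exists_isTranscendenceBasis A ℂ
  have hC : Cardinal.aleph0 < Cardinal.mk ℂ := by
    rw [Cardinal.mk_complex]
    exact Cardinal.aleph0_lt_continuum
  have hc := IsAlgClosed.cardinal_eq_cardinal_transcendence_basis_of_aleph0_lt' _ hs hcount hC
  have : Infinite s := by
    rw [Cardinal.infinite_iff, ← hc]
    exact hC.le
  obtain ⟨f⟩ : Nonempty (κ ↪ s) := by
    obtain ⟨n, ⟨e⟩⟩ := Finite.exists_equiv_fin κ
    exact ⟨e.toEmbedding.trans (Fin.valEmbedding.trans (Infinite.natEmbedding s))⟩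
  have hν : AlgebraicIndependent A (fun k => (f k : ℂ)) := hs.1.comp f f.injective
  refine ⟨fun k => (f k : ℂ), ?_⟩
  intro P hP ν'
  let Q : MvPolynomial κ A :=
    aeval (Sum.elim (fun i => C (⟨θ i, ⟨X i, aeval_X _ _⟩⟩ : A)) X) P
  have hQ : ∀ ν : κ → ℂ, aeval ν Q = aeval (Sum.elim θ ν) P := by
    intro ν
    have : ((aeval ν : MvPolynomial κ A →ₐ[A] ℂ).restrictScalars ℤ).comp
        (aeval (Sum.elim (fun i => C (⟨θ i, ⟨X i, aeval_X _ _⟩⟩ : A)) X)) =
        aeval (Sum.elim θ ν) := by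
      apply MvPolynomial.algHom_ext
      rintro (i | k)
      · simp
      · simp
    exact DFunLike.congr_fun this P
  have h1 : Q = 0 := by
    apply hν
    rw [hQ, hP, map_zero]
  rw [← hQ ν', h1, map_zero]

theorem alg_iff {n : Type} (y : n → ℂ) (x : ℂ) :
    AlgOver y x ↔ x ∈ (AlgebraicIndependent.matroid ℚ ℂ).closure (Set.range y) := by
  rw [AlgebraicIndependent.matroid_closure_eq]
  unfold AlgOver
  rw [IntermediateField.isAlgebraic_adjoin_iff]
  rfl

theorem alg_trans {n m : Type} (y : n → ℂ) (z : m → ℂ) (x : ℂ) (h : AlgOver y x)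
    (h2 : ∀ i, AlgOver z (y i)) : AlgOver z x := by
  rw [alg_iff] at h ⊢
  have h3 : Set.range y ⊆ (AlgebraicIndependent.matroid ℚ ℂ).closure (Set.range z) := by
    rintro _ ⟨i, rfl⟩
    exact (alg_iff _ _).mp (h2 i)
  exact Matroid.closure_subset_closure_of_subset_closure h3 h

theorem alg_self {n : Type} (y : n → ℂ) (i : n) : AlgOver y (y i) := by
  unfold AlgOver
  exact isAlgebraic_algebraMap
    (⟨y i, IntermediateField.subset_adjoin ℚ _ ⟨i, rfl⟩⟩ :
      IntermediateField.adjoin ℚ (Set.range y))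

/-- Additional coordinates. -/
theorem trle {σ κ : Type} [Fintype σ] [Fintype κ] (k : ℕ) (θ : σ → ℂ) (hθ : TrLe k θ)
    (ν : κ → ℂ) : TrLe (k + Fintype.card κ) (Sum.elim θ ν) := by
  classical
  intro s hs
  obtain ⟨r, sb, hind, halg⟩ := pr_TrBasis σ θ
  have hr : r ≤ k := by
    by_contra h
    push Not at h
    exact hθ (fun i => sb (Fin.castLE h i)) (hind.comp (Fin.castLE h) (Fin.castLE_injective h))
  let y : Fin r ⊕ κ → ℂ := Sum.elim (fun i => θ (sb i)) ν
  have key : ∀ q : σ ⊕ κ, AlgOver y (Sum.elim θ ν q) := by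
    intro q
    rcases q with q | q
    · exact alg_trans _ y _ (halg q) fun i => alg_self y (Sum.inl i)
    · exact alg_self y (Sum.inr q)
  have h3 := pr_TrCount (Fin (k + Fintype.card κ + 1)) (Fin r ⊕ κ)
    (fun i => Sum.elim θ ν (s i)) y hs (fun i => key (s i))
  rw [Fintype.card_fin, Fintype.card_sum, Fintype.card_fin] at h3
  omega

/-- Siegel's lemma with free variables. -/
theorem ffnu {σ κ : Type} [Fintype σ] [Fintype κ] (k : ℕ) (θ : σ → ℂ) (hθ : TrLe k θ) :
    ∃ C : ℕ, 1 ≤ C ∧ ∀ (Λ : Type) [Fintype Λ] (D : ℕ) (H : ℝ) (P : Λ → MvPolynomial (σ ⊕ κ) ℤ),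
      1 ≤ H → (∀ l, (P l).totalDegree ≤ D) → (∀ l, len (P l) ≤ H) →
      C * (D + 1) ^ (k + Fintype.card κ) ≤ Fintype.card Λ →
        ∃ p : Λ → ℤ, p ≠ 0 ∧ (∀ l, |(p l : ℝ)| ≤ Fintype.card Λ * (H * (C : ℝ) ^ (D + 1))) ∧
          ∀ ν : κ → ℂ, ∑ l, (p l : ℂ) * aeval (Sum.elim θ ν) (P l) = 0 := by
  obtain ⟨ν₀, hν₀⟩ := gen (κ := κ) θ
  obtain ⟨C, hC, hFF⟩ := pr_FF (σ ⊕ κ) (k + Fintype.card κ) (Sum.elim θ ν₀) (trle k θ hθ ν₀)
  refine ⟨C, hC, fun Λ _ D H P hH hd hl hcard => ?_⟩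
  obtain ⟨p, hp0, hp1, hp2⟩ := hFF Λ D H P hH hd hl hcard
  refine ⟨p, hp0, hp1, fun ν => ?_⟩
  have e : ∀ ν : κ → ℂ, aeval (Sum.elim θ ν) (∑ l, MvPolynomial.C (p l) * P l) =
      ∑ l, (p l : ℂ) * aeval (Sum.elim θ ν) (P l) := by
    intro ν
    rw [map_sum]
    refine Finset.sum_congr rfl fun l _ => ?_
    rw [map_mul, aeval_C]
    simp
  rw [← e ν]
  apply hν₀
  rw [e ν₀, hp2]

/-! ## Sizes -/

section siz

variable {σ : Type} {P Q : MvPolynomial σ ℤ} {h h' : ℝ}

theorem sz_nonneg (hP : SizP h P) : 0 ≤ h := (Nat.cast_nonneg _).trans hP.1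

theorem sz_mono (hh : h ≤ h') (hP : SizP h P) : SizP h' P :=
  ⟨hP.1.trans hh, hP.2.trans (Real.exp_le_exp.2 hh)⟩

theorem sz_mul (hP : SizP h P) (hQ : SizP h' Q) : SizP (h + h') (P * Q) := by
  refine ⟨?_, ?_⟩
  · have h1 : ((P * Q).totalDegree : ℝ) ≤ (P.totalDegree : ℝ) + Q.totalDegree := by
      exact_mod_cast totalDegree_mul P Q
    linarith [hP.1, hQ.1]
  · rw [Real.exp_add]
    exact (Val_len_mul _ _).trans (mul_le_mul hP.2 hQ.2 (Val_len_nonneg _) (Real.exp_pos _).le)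

theorem sz_add (hP : SizP h P) (hQ : SizP h' Q) : SizP (h + h' + 1) (P + Q) := by
  have h0 := sz_nonneg hP
  have h0' := sz_nonneg hQ
  refine ⟨?_, ?_⟩
  · have h1 : ((P + Q).totalDegree : ℝ) ≤ max (P.totalDegree : ℝ) Q.totalDegree := by
      exact_mod_cast totalDegree_add P Q
    refine h1.trans (max_le ?_ ?_) <;> linarith [hP.1, hQ.1]
  · refine (Val_len_add _ _).trans ?_
    have e1 : Real.exp h ≤ Real.exp (h + h') := Real.exp_le_exp.2 (by linarith)
    have e2 : Real.exp h' ≤ Real.exp (h + h') := Real.exp_le_exp.2 (by linarith)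
    have e3 : 2 * Real.exp (h + h') ≤ Real.exp (h + h' + 1) := by
      rw [Real.exp_add _ 1, mul_comm]
      have : (2 : ℝ) ≤ Real.exp 1 := by linarith [Real.add_one_le_exp (1 : ℝ)]
      exact mul_le_mul_of_nonneg_left this (Real.exp_pos _).le
    linarith [hP.2, hQ.2]

theorem sz_one : SizP 0 (1 : MvPolynomial σ ℤ) := by
  refine ⟨by simp, ?_⟩
  rw [Real.exp_zero]
  exact Val_len_one

theorem sz_zero : SizP 0 (0 : MvPolynomial σ ℤ) := by
  refine ⟨by simp, ?_⟩
  rw [Real.exp_zero]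
  simp [len]

theorem sz_C (h0 : 0 ≤ h) (c : ℤ) (hc : |(c : ℝ)| ≤ Real.exp h) :
    SizP h (C c : MvPolynomial σ ℤ) := by
  refine ⟨?_, (Val_len_C _).trans hc⟩
  rw [totalDegree_C]
  simpa using h0

theorem sz_X (i : σ) : SizP 1 (X i : MvPolynomial σ ℤ) := by
  refine ⟨?_, (Val_len_X _).trans (Real.one_le_exp zero_le_one)⟩
  rw [totalDegree_X]
  simp

theorem sz_pow (hP : SizP h P) (k : ℕ) : SizP (k * h) (P ^ k) := by
  induction k with
  | zero => simpa using sz_one
  | succ k ih =>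
    rw [pow_succ]
    have := sz_mul ih hP
    have e : ((k + 1 : ℕ) : ℝ) * h = k * h + h := by push_cast; ring
    rw [e]
    exact this

theorem sz_prod {κ : Type} (t : Finset κ) (f : κ → MvPolynomial σ ℤ)
    (hf : ∀ i ∈ t, SizP h (f i)) : SizP (t.card * h) (∏ i ∈ t, f i) := by
  classical
  induction t using Finset.induction_on with
  | empty => simpa using sz_one
  | insert a s ha ih =>
    rw [Finset.prod_insert ha, Finset.card_insert_of_notMem ha]
    have h1 := sz_mul (hf a (Finset.mem_insert_self _ _))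
      (ih fun i hi => hf i (Finset.mem_insert_of_mem hi))
    have e : ((s.card + 1 : ℕ) : ℝ) * h = h + s.card * h := by push_cast; ring
    rw [e]
    exact h1

theorem sz_neg (hP : SizP h P) : SizP h (-P) := by
  refine ⟨by rw [totalDegree_neg]; exact hP.1, ?_⟩
  have : len (-P) = len P := by
    unfold len
    rw [support_neg]
    refine Finset.sum_congr rfl fun m _ => ?_
    simp
  rw [this]
  exact hP.2

theorem sz_rename {κ : Type} (f : σ → κ) (hP : SizP h P) : SizP h (rename f P) := by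
  refine ⟨le_trans ?_ hP.1, le_trans ?_ hP.2⟩
  · exact_mod_cast totalDegree_rename_le f P
  · have e : rename f P = ∑ d ∈ P.support, monomial (d.mapDomain f) (P.coeff d) := by
      conv_lhs => rw [P.as_sum]
      rw [map_sum]
      refine Finset.sum_congr rfl fun d _ => ?_
      rw [rename_monomial]
    rw [e]
    refine (Val_len_sum _ _).trans ?_
    unfold len
    exact Finset.sum_le_sum fun d _ => Val_len_monomial _ _

end siz

/-! ## Representable numbers -/

/-- `v` is a quotient of values at `Θ` of integer polynomials of size `h`. -/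
def Rep {σ : Type} (Θ : σ → ℂ) (h : ℝ) (v : ℂ) : Prop :=
  ∃ p q : MvPolynomial σ ℤ, SizP h p ∧ SizP h q ∧ aeval Θ q ≠ 0 ∧ aeval Θ p = aeval Θ q * v

section rep

variable {σ : Type} {Θ : σ → ℂ} {h h' : ℝ} {v w : ℂ}

theorem rep_nonneg (hv : Rep Θ h v) : 0 ≤ h := by
  obtain ⟨p, q, hp, -⟩ := hv
  exact sz_nonneg hp

theorem rep_mono (hh : h ≤ h') (hv : Rep Θ h v) : Rep Θ h' v := by
  obtain ⟨p, q, hp, hq, h1, h2⟩ := hv
  exact ⟨p, q, sz_mono hh hp, sz_mono hh hq, h1, h2⟩

theorem rep_add (hv : Rep Θ h v) (hw : Rep Θ h' w) : Rep Θ (2 * (h + h') + 1) (v + w) := by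
  obtain ⟨p, q, hp, hq, h1, h2⟩ := hv
  obtain ⟨p', q', hp', hq', h1', h2'⟩ := hw
  have hn := sz_nonneg hp
  have hn' := sz_nonneg hp'
  refine ⟨p * q' + p' * q, q * q', ?_, ?_, ?_, ?_⟩
  · have := sz_add (sz_mul hp hq') (sz_mul hp' hq)
    exact sz_mono (by linarith) this
  · exact sz_mono (by linarith) (sz_mul hq hq')
  · rw [map_mul]
    exact mul_ne_zero h1 h1'
  · rw [map_add, map_mul, map_mul, map_mul, h2, h2']
    ring

theorem rep_mul (hv : Rep Θ h v) (hw : Rep Θ h' w) : Rep Θ (h + h') (v * w) := by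
  obtain ⟨p, q, hp, hq, h1, h2⟩ := hv
  obtain ⟨p', q', hp', hq', h1', h2'⟩ := hw
  refine ⟨p * p', q * q', sz_mul hp hp', sz_mul hq hq', ?_, ?_⟩
  · rw [map_mul]
    exact mul_ne_zero h1 h1'
  · rw [map_mul, map_mul, h2, h2']
    ring

theorem rep_neg (hv : Rep Θ h v) : Rep Θ h (-v) := by
  obtain ⟨p, q, hp, hq, h1, h2⟩ := hv
  refine ⟨-p, q, sz_neg hp, hq, h1, ?_⟩
  rw [map_neg, h2]
  ring

theorem rep_sub (hv : Rep Θ h v) (hw : Rep Θ h' w) : Rep Θ (2 * (h + h') + 1) (v - w) := by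
  rw [sub_eq_add_neg]
  exact rep_add hv (rep_neg hw)

theorem rep_inv (hv : Rep Θ h v) (h0 : v ≠ 0) : Rep Θ h v⁻¹ := by
  obtain ⟨p, q, hp, hq, h1, h2⟩ := hv
  refine ⟨q, p, hq, hp, ?_, ?_⟩
  · rw [h2]
    exact mul_ne_zero h1 h0
  · rw [h2]
    field_simp

theorem rep_var (i : σ) : Rep Θ 1 (Θ i) :=
  ⟨X i, 1, sz_X i, sz_mono zero_le_one sz_one, by simp, by simp⟩

theorem rep_zero (h0 : 0 ≤ h) : Rep Θ h 0 :=
  ⟨0, 1, sz_mono h0 sz_zero, sz_mono h0 sz_one, by simp, by simp⟩

theorem rep_one (h0 : 0 ≤ h) : Rep Θ h 1 :=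
  ⟨1, 1, sz_mono h0 sz_one, sz_mono h0 sz_one, by simp, by simp⟩

theorem rep_int (h0 : 0 ≤ h) (c : ℤ) (hc : |(c : ℝ)| ≤ h) : Rep Θ h (c : ℂ) := by
  refine ⟨C c, 1, sz_C h0 c ?_, sz_mono h0 sz_one, by simp, by simp⟩
  linarith [Real.add_one_le_exp h]

theorem rep_pow (hv : Rep Θ h v) (k : ℕ) : Rep Θ (k * h) (v ^ k) := by
  obtain ⟨p, q, hp, hq, h1, h2⟩ := hv
  refine ⟨p ^ k, q ^ k, sz_pow hp k, sz_pow hq k, ?_, ?_⟩
  · rw [map_pow]
    exact pow_ne_zero _ h1
  · rw [map_pow, map_pow, h2]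
    ring

/-- Integral powers. -/
theorem rep_zpow (hv : Rep Θ h v) (h0 : v ≠ 0) (c : ℤ) (S : ℕ) (hc : |c| ≤ (S : ℤ)) :
    Rep Θ (S * h) (v ^ c) := by
  have hn := rep_nonneg hv
  have key : ∀ k : ℕ, k ≤ S → Rep Θ (S * h) (v ^ k) := by
    intro k hk
    refine rep_mono ?_ (rep_pow hv k)
    have : (k : ℝ) ≤ S := by exact_mod_cast hk
    exact mul_le_mul_of_nonneg_right this hn
  rcases Int.eq_nat_or_neg c with ⟨k, rfl | rfl⟩
  · rw [zpow_natCast]
    apply key
    rw [Nat.abs_cast] at hc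
    exact_mod_cast hc
  · rw [zpow_neg, zpow_natCast]
    refine rep_inv (key k ?_) (pow_ne_zero _ h0)
    rw [abs_neg, Nat.abs_cast] at hc
    exact_mod_cast hc

theorem rep_prod {κ : Type} (t : Finset κ) (f : κ → ℂ)
    (hf : ∀ i ∈ t, Rep Θ h (f i)) : Rep Θ (t.card * h) (∏ i ∈ t, f i) := by
  classical
  induction t using Finset.induction_on with
  | empty => simpa using rep_one (Θ := Θ) le_rfl
  | insert a s ha ih =>
    rw [Finset.prod_insert ha, Finset.card_insert_of_notMem ha]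
    have h1 := rep_mul (hf a (Finset.mem_insert_self _ _))
      (ih fun i hi => hf i (Finset.mem_insert_of_mem hi))
    have e : ((s.card + 1 : ℕ) : ℝ) * h = h + s.card * h := by push_cast; ring
    rw [e]
    exact h1

theorem rep_sum {κ : Type} (t : Finset κ) (f : κ → ℂ) (h0 : 0 ≤ h)
    (hf : ∀ i ∈ t, Rep Θ h (f i)) : Rep Θ (4 ^ t.card * (h + 1)) (∑ i ∈ t, f i) := by
  classical
  induction t using Finset.induction_on with
  | empty =>
    rw [Finset.sum_empty]
    exact rep_zero (by positivity)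
  | insert a s ha ih =>
    rw [Finset.sum_insert ha, Finset.card_insert_of_notMem ha]
    have h1 := rep_add (hf a (Finset.mem_insert_self _ _))
      (ih fun i hi => hf i (Finset.mem_insert_of_mem hi))
    refine rep_mono ?_ h1
    have e1 : (1 : ℝ) ≤ 4 ^ s.card := one_le_pow₀ (by norm_num)
    rw [pow_succ]
    nlinarith

/-- Sums over a finite type, with a bound for its cardinality. -/
theorem rep_fsum {κ : Type} [Fintype κ] (f : κ → ℂ) (h0 : 0 ≤ h)
    (hf : ∀ i, Rep Θ h (f i)) : Rep Θ (4 ^ Fintype.card κ * (h + 1)) (∑ i, f i) := by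
  have := rep_sum (Θ := Θ) Finset.univ f h0 fun i _ => hf i
  rwa [Finset.card_univ] at this

end rep

/-! ## Polynomials with given coefficients -/

section mon

variable {κ : Type} [Fintype κ] {W : ℕ}

/-- The exponent vector of `l`. -/
noncomputable def mon (l : κ → Fin W) : κ →₀ ℕ :=
  Finsupp.equivFunOnFinite.symm (fun j => (l j : ℕ))

theorem mon_apply (l : κ → Fin W) (j : κ) : mon l j = (l j : ℕ) := rfl

theorem mon_inj : Function.Injective (mon : (κ → Fin W) → (κ →₀ ℕ)) := by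
  intro l l' h
  funext j
  have := DFunLike.congr_fun h j
  rw [mon_apply, mon_apply] at this
  exact Fin.ext this

open Classical in
/-- The polynomial with coefficients `p`. -/
noncomputable def RR (p : (κ → Fin W) → ℤ) : MvPolynomial κ ℤ :=
  ∑ l, monomial (mon l) (p l)

theorem coeff_RR (p : (κ → Fin W) → ℤ) (l : κ → Fin W) :
    (RR p).coeff (mon l) = p l := by
  classical
  rw [RR, coeff_sum, Finset.sum_eq_single l]
  · rw [coeff_monomial, if_pos rfl]
  · intro l' _ hl'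
    rw [coeff_monomial, if_neg]
    exact fun h => hl' (mon_inj h)
  · intro h
    exact absurd (Finset.mem_univ l) h

theorem coeff_RR' (p : (κ → Fin W) → ℤ) (d : κ →₀ ℕ)
    (hd : ∀ l : κ → Fin W, mon l ≠ d) : (RR p).coeff d = 0 := by
  classical
  rw [RR, coeff_sum]
  refine Finset.sum_eq_zero fun l _ => ?_
  rw [coeff_monomial, if_neg (hd l)]

theorem RR_ne (p : (κ → Fin W) → ℤ) (hp : p ≠ 0) : RR p ≠ 0 := by
  intro h
  apply hp
  funext l
  rw [← coeff_RR p l, h, coeff_zero]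
  rfl

theorem RR_bd (p : (κ → Fin W) → ℤ) (B : ℝ) (hB : 0 ≤ B)
    (hp : ∀ l, |(p l : ℝ)| ≤ B) (d : κ →₀ ℕ) : |(((RR p).coeff d : ℤ) : ℝ)| ≤ B := by
  by_cases hd : ∃ l : κ → Fin W, mon l = d
  · obtain ⟨l, rfl⟩ := hd
    rw [coeff_RR]
    exact hp l
  · push Not at hd
    rw [coeff_RR' p d hd]
    simpa using hB

theorem RR_deg (p : (κ → Fin W) → ℤ) (j : κ) : (RR p).degreeOf j ≤ W := by
  classical
  rw [degreeOf_le_iff]
  intro d hd
  by_cases h : ∃ l : κ → Fin W, mon l = d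
  · obtain ⟨l, rfl⟩ := h
    rw [mon_apply]
    exact (l j).2.le
  · push Not at h
    rw [mem_support_iff] at hd
    exact absurd (coeff_RR' p d h) hd

open Classical in
theorem RR_eval (p : (κ → Fin W) → ℤ) (x : κ → ℂ) :
    aeval x (RR p) = ∑ l : κ → Fin W, (p l : ℂ) * ∏ j, x j ^ (l j : ℕ) := by
  rw [RR, map_sum]
  refine Finset.sum_congr rfl fun l _ => ?_
  rw [aeval_monomial, Finsupp.prod_fintype]
  · simp [mon_apply]
  · intro i
    exact pow_zero _

end mon

/-- Powers of `S` absorb constants. -/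
theorem big (A : ℝ) (k : ℕ) :
    ∃ S₀ : ℕ, 1 ≤ S₀ ∧ ∀ S : ℕ, S₀ ≤ S → A * (S : ℝ) ^ k ≤ (S : ℝ) ^ (k + 1) := by
  refine ⟨max 1 ⌈A⌉₊, le_max_left _ _, fun S hS => ?_⟩
  have h1 : A ≤ S := (Nat.le_ceil A).trans (by exact_mod_cast (le_max_right _ _).trans hS)
  rw [pow_succ']
  exact mul_le_mul_of_nonneg_right h1 (by positivity)

/-- **Relation between representable numbers.** -/
theorem rel_of_rep {σ κ K : Type} [Fintype σ] [Fintype κ] [Fintype K] (θ : σ → ℂ) (k : ℕ)
    (hθ : TrLe k θ) (hM : k + Fintype.card κ + 2 ≤ Fintype.card K) (A₀ : ℝ) (hA₀ : 1 ≤ A₀)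
    (w : ℕ) (hw : 10 * (k + Fintype.card κ) + 1 ≤ 2 * w) :
    ∃ S₀ : ℕ, 1 ≤ S₀ ∧ ∀ S : ℕ, S₀ ≤ S → ∀ (ν : κ → ℂ) (F : K → ℂ),
      (∀ f, Rep (Sum.elim θ ν) (A₀ * (S : ℝ) ^ 10) (F f)) →
      ∃ R : MvPolynomial K ℤ, R ≠ 0 ∧ (∀ j, R.degreeOf j ≤ S ^ w) ∧
        (∀ d, |((R.coeff d : ℤ) : ℝ)| ≤ Real.exp ((S : ℝ) ^ (w + 12))) ∧ aeval F R = 0 := by
  classical
  obtain ⟨c, hc, hFF⟩ := ffnu (κ := κ) k θ hθ
  set k' : ℕ := k + Fintype.card κ with hk'
  set M : ℕ := Fintype.card K with hMd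
  set A : ℝ := M * A₀ + 1 with hA
  have hA1 : 1 ≤ A := by
    have : (0 : ℝ) ≤ M * A₀ := by positivity
    linarith
  have hc1 : (1 : ℝ) ≤ c := by exact_mod_cast hc
  obtain ⟨S₁, hS₁, hb₁⟩ := big (c * A ^ k') ((w + 10) * k')
  obtain ⟨S₂, hS₂, hb₂⟩ := big (w * M + A + c * A) (w + 10)
  refine ⟨max S₁ S₂, hS₁.trans (le_max_left _ _), fun S hS ν F hF => ?_⟩
  have hS1 : 1 ≤ S := hS₁.trans ((le_max_left _ _).trans hS)
  have hSr : (1 : ℝ) ≤ S := by exact_mod_cast hS1
  have hS0 : (0 : ℝ) < S := by linarith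
  have hb₁' := hb₁ S ((le_max_left _ _).trans hS)
  have hb₂' := hb₂ S ((le_max_right _ _).trans hS)
  choose num den hnum hden hd0 hval using hF
  set W : ℕ := S ^ w with hW
  set q : ℝ := M * (W * (A₀ * (S : ℝ) ^ 10)) with hq
  have hP10 : (1 : ℝ) ≤ (S : ℝ) ^ 10 := one_le_pow₀ hSr
  have hq0 : 0 ≤ q := by positivity
  have hqA : q + 1 ≤ A * (S : ℝ) ^ (w + 10) := by
    have e3 : q = M * A₀ * (S : ℝ) ^ (w + 10) := by
      rw [hq, hW, pow_add]
      push_cast
      ring
    have e4 : (1 : ℝ) ≤ (S : ℝ) ^ (w + 10) := one_le_pow₀ hSr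
    rw [hA, add_mul, one_mul]
    linarith
  set D : ℕ := ⌊q⌋₊ with hD
  have hDq : (D : ℝ) ≤ q := Nat.floor_le hq0
  have hDA : (D : ℝ) + 1 ≤ A * (S : ℝ) ^ (w + 10) := by linarith
  -- the polynomials
  let P : (K → Fin W) → MvPolynomial (σ ⊕ κ) ℤ := fun l =>
    ∏ f, (num f ^ (l f : ℕ) * den f ^ (W - (l f : ℕ)))
  have hsiz : ∀ l : K → Fin W, SizP q (P l) := by
    intro l
    have h1 := sz_prod (h := W * (A₀ * (S : ℝ) ^ 10)) Finset.univ
      (fun f => num f ^ (l f : ℕ) * den f ^ (W - (l f : ℕ))) (fun f _ => by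
        have h2 := sz_mul (sz_pow (hnum f) (l f : ℕ)) (sz_pow (hden f) (W - (l f : ℕ)))
        have h3 : (((l f : ℕ) : ℝ) + ((W - (l f : ℕ) : ℕ) : ℝ)) = W := by
          have : (l f : ℕ) + (W - (l f : ℕ)) = W := by
            have := (l f).2
            omega
          exact_mod_cast this
        rw [← add_mul, h3] at h2
        exact h2)
    rw [Finset.card_univ] at h1
    exact h1
  have hcard : Fintype.card (K → Fin W) = S ^ (w * M) := by
    rw [Fintype.card_fun, Fintype.card_fin, hW, ← pow_mul]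
  have hexp : (w + 10) * k' + 1 ≤ w * M := by
    have : w * (k' + 2) ≤ w * M := Nat.mul_le_mul_left _ hM
    nlinarith
  have hcount : c * (D + 1) ^ k' ≤ Fintype.card (K → Fin W) := by
    rw [hcard]
    have e1 : ((c * (D + 1) ^ k' : ℕ) : ℝ) ≤ ((S ^ (w * M) : ℕ) : ℝ) := by
      push_cast
      calc (c : ℝ) * ((D : ℝ) + 1) ^ k'
          ≤ c * (A * (S : ℝ) ^ (w + 10)) ^ k' := by gcongr
        _ = c * A ^ k' * (S : ℝ) ^ ((w + 10) * k') := by
            rw [mul_pow, ← pow_mul]; ring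
        _ ≤ (S : ℝ) ^ ((w + 10) * k' + 1) := hb₁'
        _ ≤ (S : ℝ) ^ (w * M) := pow_le_pow_right₀ hSr hexp
    exact_mod_cast e1
  obtain ⟨p, hp0, hp1, hp2⟩ := hFF (K → Fin W) D (Real.exp q) P (Real.one_le_exp hq0)
    (fun l => Nat.le_floor (hsiz l).1) (fun l => (hsiz l).2) hcount
  refine ⟨RR p, RR_ne p hp0, fun j => RR_deg p j, fun d => RR_bd p _ (Real.exp_nonneg _) ?_ d, ?_⟩
  · intro l
    refine (hp1 l).trans ?_
    rw [hcard]
    have e1 : (((S ^ (w * M) : ℕ)) : ℝ) ≤ Real.exp (w * M * S) := by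
      push_cast
      have : (S : ℝ) ≤ Real.exp S := by linarith [Real.add_one_le_exp (S : ℝ)]
      calc (S : ℝ) ^ (w * M) ≤ (Real.exp S) ^ (w * M) := by gcongr
        _ = Real.exp (w * M * S) := by
            rw [← Real.exp_nat_mul]
            push_cast
            ring_nf
    have e2 : (c : ℝ) ^ (D + 1) ≤ Real.exp (c * (D + 1)) := by
      have : (c : ℝ) ≤ Real.exp c := by linarith [Real.add_one_le_exp (c : ℝ)]
      calc (c : ℝ) ^ (D + 1) ≤ (Real.exp c) ^ (D + 1) := by gcongr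
        _ = Real.exp (c * (D + 1)) := by
            rw [← Real.exp_nat_mul]
            push_cast
            ring_nf
    calc (((S ^ (w * M) : ℕ)) : ℝ) * (Real.exp q * (c : ℝ) ^ (D + 1))
        ≤ Real.exp (w * M * S) * (Real.exp q * Real.exp (c * (D + 1))) := by
          gcongr
      _ = Real.exp (w * M * S + (q + c * (D + 1))) := by
          rw [Real.exp_add, Real.exp_add]
      _ ≤ Real.exp ((S : ℝ) ^ (w + 12)) := by
          rw [Real.exp_le_exp]
          have f1 : (S : ℝ) ≤ (S : ℝ) ^ (w + 10) := by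
            calc (S : ℝ) = (S : ℝ) ^ 1 := (pow_one _).symm
              _ ≤ _ := pow_le_pow_right₀ hSr (by omega)
          have f2 : (w : ℝ) * M * S ≤ w * M * (S : ℝ) ^ (w + 10) := by gcongr
          have f3 : (c : ℝ) * (D + 1) ≤ c * (A * (S : ℝ) ^ (w + 10)) := by gcongr
          have f4 : (S : ℝ) ^ (w + 10 + 1) ≤ (S : ℝ) ^ (w + 12) :=
            pow_le_pow_right₀ hSr (by omega)
          have f5 : ((w : ℝ) * M + A + c * A) * (S : ℝ) ^ (w + 10) =
              w * M * (S : ℝ) ^ (w + 10) + A * (S : ℝ) ^ (w + 10) +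
                c * (A * (S : ℝ) ^ (w + 10)) := by ring
          linarith
  · rw [RR_eval]
    have hv : ∀ l : K → Fin W, aeval (Sum.elim θ ν) (P l) =
        (∏ f, aeval (Sum.elim θ ν) (den f) ^ W) * ∏ f, F f ^ (l f : ℕ) := by
      intro l
      show aeval (Sum.elim θ ν) (∏ f, (num f ^ (l f : ℕ) * den f ^ (W - (l f : ℕ)))) = _
      rw [map_prod, ← Finset.prod_mul_distrib]
      refine Finset.prod_congr rfl fun f _ => ?_
      rw [map_mul, map_pow, map_pow, hval f, mul_pow]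
      have h3 : W = (l f : ℕ) + (W - (l f : ℕ)) := by
        have := (l f).2
        omega
      have h4 : aeval (Sum.elim θ ν) (den f) ^ W = aeval (Sum.elim θ ν) (den f) ^ (l f : ℕ) *
          aeval (Sum.elim θ ν) (den f) ^ (W - (l f : ℕ)) := by
        rw [← pow_add, ← h3]
      rw [h4]
      ring
    have hZ : (∏ f, aeval (Sum.elim θ ν) (den f) ^ W) ≠ 0 :=
      Finset.prod_ne_zero_iff.2 fun f _ => pow_ne_zero _ (hd0 f)
    have e1 : (∏ f, aeval (Sum.elim θ ν) (den f) ^ W) *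
        ∑ l : K → Fin W, (p l : ℂ) * ∏ f, F f ^ (l f : ℕ) = 0 := by
      rw [← hp2 ν, Finset.mul_sum]
      refine Finset.sum_congr rfl fun l _ => ?_
      rw [hv l]
      ring
    exact (mul_eq_zero.1 e1).resolve_left hZ

/-! ## Uniformly representable functions of `s` -/

/-- The numbers `v s` are representable with size `A S ^ 10`. -/
def UR {n : ℕ} {σ κ : Type} (θ : σ → ℂ) (ν : (Fin n → ℤ) → κ → ℂ) (v : (Fin n → ℤ) → ℂ) : Prop :=
  ∃ A : ℝ, 1 ≤ A ∧ ∀ (S : ℕ) (s : Fin n → ℤ), 1 ≤ S → s ≠ 0 → (∀ i, |s i| ≤ (S : ℤ)) →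
    Rep (Sum.elim θ (ν s)) (A * (S : ℝ) ^ 10) (v s)

section ur

variable {n : ℕ} {σ κ : Type} {θ : σ → ℂ} {ν : (Fin n → ℤ) → κ → ℂ} {v w : (Fin n → ℤ) → ℂ}

theorem ten {S : ℕ} (hS : 1 ≤ S) : (1 : ℝ) ≤ (S : ℝ) ^ 10 ∧ (S : ℝ) ≤ (S : ℝ) ^ 10 := by
  have h1 : (1 : ℝ) ≤ S := by exact_mod_cast hS
  refine ⟨one_le_pow₀ h1, ?_⟩
  calc (S : ℝ) = (S : ℝ) ^ 1 := (pow_one _).symm
    _ ≤ _ := pow_le_pow_right₀ h1 (by norm_num)

theorem ur_congr (hv : UR θ ν v) (h : ∀ s, s ≠ 0 → v s = w s) : UR θ ν w := by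
  obtain ⟨A, hA, hR⟩ := hv
  refine ⟨A, hA, fun S s hS hs hsS => ?_⟩
  rw [← h s hs]
  exact hR S s hS hs hsS

theorem ur_add (hv : UR θ ν v) (hw : UR θ ν w) : UR θ ν (fun s => v s + w s) := by
  obtain ⟨A, hA, hR⟩ := hv
  obtain ⟨B, hB, hR'⟩ := hw
  refine ⟨2 * (A + B) + 1, by linarith, fun S s hS hs hsS => ?_⟩
  refine rep_mono ?_ (rep_add (hR S s hS hs hsS) (hR' S s hS hs hsS))
  nlinarith [(ten hS).1]

theorem ur_mul (hv : UR θ ν v) (hw : UR θ ν w) : UR θ ν (fun s => v s * w s) := by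
  obtain ⟨A, hA, hR⟩ := hv
  obtain ⟨B, hB, hR'⟩ := hw
  refine ⟨A + B, by linarith, fun S s hS hs hsS => ?_⟩
  refine rep_mono (le_of_eq ?_) (rep_mul (hR S s hS hs hsS) (hR' S s hS hs hsS))
  ring

theorem ur_neg (hv : UR θ ν v) : UR θ ν (fun s => - v s) := by
  obtain ⟨A, hA, hR⟩ := hv
  exact ⟨A, hA, fun S s hS hs hsS => rep_neg (hR S s hS hs hsS)⟩

theorem ur_sub (hv : UR θ ν v) (hw : UR θ ν w) : UR θ ν (fun s => v s - w s) := by
  have := ur_add hv (ur_neg hw)
  simpa only [← sub_eq_add_neg] using this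

theorem ur_zero : UR θ ν (fun _ => 0) :=
  ⟨1, le_rfl, fun S s _ _ _ => rep_zero (by positivity)⟩

theorem ur_one : UR θ ν (fun _ => 1) :=
  ⟨1, le_rfl, fun S s _ _ _ => rep_one (by positivity)⟩

theorem ur_const (q : σ) : UR θ ν (fun _ => θ q) := by
  refine ⟨1, le_rfl, fun S s hS _ _ => ?_⟩
  refine rep_mono ?_ (rep_var (Θ := Sum.elim θ (ν s)) (Sum.inl q))
  rw [one_mul]
  exact (ten hS).1

theorem ur_nu (f : κ) : UR θ ν (fun s => ν s f) := by
  refine ⟨1, le_rfl, fun S s hS _ _ => ?_⟩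
  refine rep_mono ?_ (rep_var (Θ := Sum.elim θ (ν s)) (Sum.inr f))
  rw [one_mul]
  exact (ten hS).1

theorem ur_s (k : Fin n) : UR θ ν (fun s => (s k : ℂ)) := by
  refine ⟨1, le_rfl, fun S s hS _ hsS => ?_⟩
  rw [one_mul]
  refine rep_mono (ten hS).2 (rep_int (Nat.cast_nonneg _) (s k) ?_)
  exact_mod_cast hsS k

theorem ur_zpow (q : σ) (h0 : θ q ≠ 0) (k : Fin n) : UR θ ν (fun s => θ q ^ (s k)) := by
  refine ⟨1, le_rfl, fun S s hS _ hsS => ?_⟩
  have := rep_zpow (rep_var (Θ := Sum.elim θ (ν s)) (Sum.inl q)) h0 (s k) S (hsS k)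
  rw [one_mul]
  refine rep_mono ?_ this
  rw [mul_one]
  exact (ten hS).2

theorem ur_sum {K : Type} (t : Finset K) (f : K → (Fin n → ℤ) → ℂ)
    (hf : ∀ i ∈ t, UR θ ν (f i)) : UR θ ν (fun s => ∑ i ∈ t, f i s) := by
  classical
  induction t using Finset.induction_on with
  | empty => simpa using ur_zero
  | insert a t ha ih =>
    have h1 := ur_add (hf a (Finset.mem_insert_self _ _))
      (ih fun i hi => hf i (Finset.mem_insert_of_mem hi))
    exact ur_congr h1 fun s _ => by rw [Finset.sum_insert ha]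

theorem ur_prod {K : Type} (t : Finset K) (f : K → (Fin n → ℤ) → ℂ)
    (hf : ∀ i ∈ t, UR θ ν (f i)) : UR θ ν (fun s => ∏ i ∈ t, f i s) := by
  classical
  induction t using Finset.induction_on with
  | empty => simpa using ur_one
  | insert a t ha ih =>
    have h1 := ur_mul (hf a (Finset.mem_insert_self _ _))
      (ih fun i hi => hf i (Finset.mem_insert_of_mem hi))
    exact ur_congr h1 fun s _ => by rw [Finset.prod_insert ha]

/-- A common constant for a finite family. -/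
theorem ur_fam {K : Type} [Fintype K] (f : K → (Fin n → ℤ) → ℂ) (hf : ∀ i, UR θ ν (f i)) :
    ∃ A : ℝ, 1 ≤ A ∧ ∀ (i : K) (S : ℕ) (s : Fin n → ℤ), 1 ≤ S → s ≠ 0 →
      (∀ i, |s i| ≤ (S : ℤ)) → Rep (Sum.elim θ (ν s)) (A * (S : ℝ) ^ 10) (f i s) := by
  classical
  choose A hA hR using hf
  refine ⟨1 + ∑ i, A i, ?_, fun i S s hS hs hsS => ?_⟩
  · have : 0 ≤ ∑ i, A i := Finset.sum_nonneg fun i _ => by linarith [hA i]
    linarith
  · refine rep_mono ?_ (hR i S s hS hs hsS)
    have h1 : A i ≤ ∑ i, A i :=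
      Finset.single_le_sum (f := A) (fun i _ => by linarith [hA i]) (Finset.mem_univ i)
    exact mul_le_mul_of_nonneg_right (by linarith) (by positivity)

/-- Quotients of values at `θ`. -/
theorem rep_lift (θ : σ → ℂ) (ν : κ → ℂ) (h : ℝ) (p q : MvPolynomial σ ℤ) (v : ℂ)
    (hp : SizP h p) (hq : SizP h q) (h0 : aeval θ q ≠ 0) (hv : aeval θ p = aeval θ q * v) :
    Rep (Sum.elim θ ν) h v := by
  refine ⟨rename Sum.inl p, rename Sum.inl q, sz_rename _ hp, sz_rename _ hq, ?_, ?_⟩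
  · rw [aeval_rename, Sum.elim_comp_inl]
    exact h0
  · rw [aeval_rename, aeval_rename, Sum.elim_comp_inl]
    exact hv

end ur

/-! ## The full family -/

section fam

variable {ι : Type} [Fintype ι]

omit [Fintype ι] in
theorem pcI_true {n : ℕ} (b : ι → ℂ) (x : Fin n → ℂ) (s : Fin n → ℤ) (j : ι) :
    pcI (fun i j => b j * x i) s j = b j * cmb s x := by
  unfold pcI cmb
  rw [Finset.mul_sum]
  exact Finset.sum_congr rfl fun i _ => by ring

theorem val_z (τ μ : ℂ) (ty : ι → Ty) (b : ι → ℂ) (z : ℂ) :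
    PN τ μ (fty ty) (fc ty) (fun j => fb ty b j * z) (Sum.inl ()) = z := by
  show fb ty b (Sum.inl ()) * z + ∑ j, (if fty ty j = Ty.ell then
    fc ty (Sum.inl ()) j * ze τ μ (fb ty b j * z) else 0) = z
  rw [Finset.sum_eq_zero]
  · show (1 : ℂ) * z + 0 = z
    ring
  · intro j _
    have : fc ty (Sum.inl ()) j = 0 := rfl
    rw [this, zero_mul]
    split_ifs <;> rfl

theorem val_mul (τ μ : ℂ) (ty : ι → Ty) (b : ι → ℂ) (z : ℂ) (j : {j : ι // ty j = Ty.mul}) :
    PN τ μ (fty ty) (fc ty) (fun j => fb ty b j * z) (Sum.inr (Sum.inl j)) =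
      Complex.exp (b j * z) := rfl

theorem val_ell (τ μ : ℂ) (ty : ι → Ty) (b : ι → ℂ) (z : ℂ) (j : {j : ι // ty j = Ty.ell}) :
    PN τ μ (fty ty) (fc ty) (fun j => fb ty b j * z) (Sum.inr (Sum.inr (j, true))) =
      xe τ μ (b j * z) := rfl

theorem val_ze (τ μ : ℂ) (ty : ι → Ty) (b : ι → ℂ) (z : ℂ) (j : {j : ι // ty j = Ty.ell}) :
    PN τ μ (fty ty) (fc ty) (fun j => fb ty b j * z) (Sum.inr (Sum.inr (j, false))) =
      ze τ μ (b j * z) := by
  classical
  show fb ty b (Sum.inr (Sum.inr (j, false))) * z + ∑ q, (if fty ty q = Ty.ell then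
    fc ty (Sum.inr (Sum.inr (j, false))) q * ze τ μ (fb ty b q * z) else 0) = ze τ μ (b j * z)
  rw [Finset.sum_eq_single (Sum.inr (Sum.inr (j, true)))]
  · have h1 : fty ty (Sum.inr (Sum.inr (j, true))) = Ty.ell := rfl
    have h2 : fc ty (Sum.inr (Sum.inr (j, false))) (Sum.inr (Sum.inr (j, true))) = 1 := by
      simp [fc]
    have h3 : fb ty b (Sum.inr (Sum.inr (j, false))) = 0 := rfl
    have h4 : fb ty b (Sum.inr (Sum.inr (j, true))) = b j := rfl
    rw [if_pos h1, h2, h3, h4]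
    ring
  · rintro (q | q | ⟨q, e⟩) _ hq
    · simp [fty]
    · simp [fty]
    · cases e
      · simp [fty]
      · have h2 : fc ty (Sum.inr (Sum.inr (j, false))) (Sum.inr (Sum.inr (q, true))) = 0 := by
          have : j ≠ q := by
            rintro rfl
            exact hq rfl
          simp [fc, this]
        rw [h2, zero_mul]
        split_ifs <;> rfl
  · intro h
    exact absurd (Finset.mem_univ _) h

theorem card_split (ty : ι → Ty) : Fintype.card ι = Fintype.card {j : ι // ty j = Ty.add} +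
    Fintype.card {j : ι // ty j = Ty.mul} + Fintype.card {j : ι // ty j = Ty.ell} := by
  rw [Fintype.card_subtype, Fintype.card_subtype, Fintype.card_subtype, Finset.card_filter,
    Finset.card_filter, Finset.card_filter, ← Finset.sum_add_distrib, ← Finset.sum_add_distrib,
    Fintype.card_eq_sum_ones]
  refine Finset.sum_congr rfl fun i _ => ?_
  cases ty i <;> simp

theorem card_full (ty : ι → Ty) : Fintype.card (fI ty) = 1 +
    (Fintype.card {j : ι // ty j = Ty.mul} + Fintype.card {j : ι // ty j = Ty.ell} * 2) := by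
  rw [Fintype.card_sum, Fintype.card_sum, Fintype.card_prod, Fintype.card_bool,
    Fintype.card_unit]

/-- Functions which are not pivots. -/
theorem card_np {α β : Type} [Fintype α] [Fintype β] (f : α → β) (hf : Function.Injective f)
    [Fintype {b : β // b ∉ Set.range f}] :
    Fintype.card α + Fintype.card {b : β // b ∉ Set.range f} = Fintype.card β := by
  classical
  have h1 : Fintype.card {b : β // b ∈ Set.range f} = Fintype.card α :=
    (Fintype.card_congr (Equiv.ofInjective f hf)).symm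
  have h2 := Fintype.card_congr (Equiv.sumCompl (fun b : β => b ∈ Set.range f))
  rw [Fintype.card_sum, h1] at h2
  rw [← h2]

end fam

/-- The value of an additive function at `x_s`, in terms of the values at the `x_k` and the
corrections. -/
theorem add_val {ι : Type} [Fintype ι] (τ μ : ℂ) {n : ℕ} (ty : ι → Ty) (b : ι → ℂ)
    (c : ι → ι → ℂ) (x : Fin n → ℂ) (i : ι) (hi : ty i = Ty.add) (s : Fin n → ℤ) :
    ∑ k, (s k : ℂ) * ptM τ μ ty b c (fun i j => b j * x i) (Sum.inr (Sum.inr (k, i, false))) +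
      ∑ j, (if ty j = Ty.ell then c i j * cor τ μ (fun i j => b j * x i) s j else 0) =
    b i * cmb s x + ∑ j, (if ty j = Ty.ell then c i j * ze τ μ (b j * cmb s x) else 0) := by
  have h1 : ∀ k, ptM τ μ ty b c (fun i j => b j * x i) (Sum.inr (Sum.inr (k, i, false))) =
      b i * x k + ∑ j, (if ty j = Ty.ell then c i j * ze τ μ (b j * x k) else 0) := by
    intro k
    show PN τ μ ty c (fun j => b j * x k) i = _
    unfold PN
    rw [hi]
  have h2 : ∑ k, (s k : ℂ) * (b i * x k +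
      ∑ j, (if ty j = Ty.ell then c i j * ze τ μ (b j * x k) else 0)) =
      b i * cmb s x + ∑ j, (if ty j = Ty.ell then
        c i j * ∑ k, (s k : ℂ) * ze τ μ (b j * x k) else 0) := by
    have e1 : b i * cmb s x = ∑ k, (s k : ℂ) * (b i * x k) := by
      unfold cmb
      rw [Finset.mul_sum]
      exact Finset.sum_congr rfl fun k _ => by ring
    have e2 : ∑ j, (if ty j = Ty.ell then
        c i j * ∑ k, (s k : ℂ) * ze τ μ (b j * x k) else 0) =
        ∑ k, (s k : ℂ) * ∑ j, (if ty j = Ty.ell then c i j * ze τ μ (b j * x k) else 0) := by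
      simp only [Finset.mul_sum]
      rw [Finset.sum_comm]
      refine Finset.sum_congr rfl fun j _ => ?_
      split_ifs
      · exact Finset.sum_congr rfl fun k _ => by ring
      · simp
    rw [e1, e2, ← Finset.sum_add_distrib]
    exact Finset.sum_congr rfl fun k _ => by ring
  simp only [h1]
  rw [h2, add_assoc, ← Finset.sum_add_distrib]
  congr 1
  refine Finset.sum_congr rfl fun j _ => ?_
  split_ifs
  · unfold cor
    rw [pcI_true]
    ring
  · ring

end I_RelPtM

open I_RelPtM in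
/-- T11: an algebraic relation between the values of the full family at one point. -/
theorem RelPtM_pf (h1 : S_TreeQ) : S_RelPtM := by
  classical
  intro ι _ hN
  refine ⟨10 * Fintype.card ι + 10, fun n hn τ μ ty i₀ π b c x hNrm hE hone hNT hTr => ?_⟩
  obtain ⟨C, K₁, hC, htree⟩ := h1 ι n hn
  set u : Fin n → ι → ℂ := fun i j => b j * x i with hu
  set θ : VM n ι → ℂ := ptM τ μ ty b c u with hθ
  -- the pivots
  let piv : {i : ι // ty i = Ty.add} → Option {j : ι // ty j = Ty.ell} := fun i =>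
    if h : i₀ = some i.1 then none else some ⟨π i.1, (hE.2 i.1 i.2 h).1⟩
  have hp1 : ∀ i : {i : ι // ty i = Ty.add}, i₀ = some i.1 → piv i = none := fun i h => dif_pos h
  have hp2 : ∀ (i : {i : ι // ty i = Ty.add}) (h : i₀ ≠ some i.1),
      piv i = some ⟨π i.1, (hE.2 i.1 i.2 h).1⟩ := fun i h => dif_neg h
  have hpinj : Function.Injective piv := by
    intro i i' hii
    by_cases h : i₀ = some i.1
    · by_cases h' : i₀ = some i'.1
      · rw [h] at h'
        exact Subtype.ext (Option.some_injective _ h')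
      · rw [hp1 i h, hp2 i' h'] at hii
        cases hii
    · by_cases h' : i₀ = some i'.1
      · rw [hp1 i' h', hp2 i h] at hii
        cases hii
      · rw [hp2 i h, hp2 i' h'] at hii
        have h3 : π i.1 = π i'.1 := congrArg Subtype.val (Option.some_injective _ hii)
        by_contra hne
        have h4 := (hE.2 i.1 i.2 h).2 i.1 i.2
        have h5 := (hE.2 i'.1 i'.2 h').2 i.1 i.2
        rw [if_pos rfl] at h4
        rw [if_neg (fun h => hne (Subtype.ext h)), ← h3, h4] at h5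
        exact one_ne_zero h5
  let κ : Type := {f : Option {j : ι // ty j = Ty.ell} // f ∉ Set.range piv}
  have hcκ : Fintype.card {i : ι // ty i = Ty.add} + Fintype.card κ =
      Fintype.card {j : ι // ty j = Ty.ell} + 1 := by
    rw [card_np piv hpinj, Fintype.card_option]
  let vf : (Fin n → ℤ) → Option {j : ι // ty j = Ty.ell} → ℂ := fun s f =>
    Option.elim f (cmb s x) (fun j => ze τ μ (b j * cmb s x))
  let ν : (Fin n → ℤ) → κ → ℂ := fun s f => vf s f.1
  have hlam : ∀ (s : Fin n → ℤ) (j : ι), ty j = Ty.ell → s ≠ 0 → pcI u s j ∉ Lam τ := by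
    intro s j hj hs
    rw [hu, pcI_true]
    exact hNT s hs j hj
  -- elliptic values and corrections
  have hV : ∀ j, ty j = Ty.ell → UR θ ν (fun s => xe τ μ (b j * cmb s x)) ∧
      UR θ ν (fun s => cor τ μ u s j) := by
    intro j hj
    have key : ∀ (S : ℕ) (s : Fin n → ℤ), 1 ≤ S → s ≠ 0 → (∀ i, |s i| ≤ (S : ℤ)) →
        Rep (Sum.elim θ (ν s)) (C * (S : ℝ) ^ 10) (xe τ μ (b j * cmb s x)) ∧
          Rep (Sum.elim θ (ν s)) (C * (S : ℝ) ^ 10) (cor τ μ u s j) := by
      intro S s hS hs hsS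
      obtain ⟨V, -, hv, hz⟩ := htree τ μ hNrm.im hNrm.mu ty b c j hj u
        (fun s' hs' _ => hlam s' j hj hs') S s hS hsS (hlam s j hj hs)
      refine ⟨rep_lift θ (ν s) _ V.A V.Z _ hz.A hz.Z hv.z0 ?_,
        rep_lift θ (ν s) _ V.N V.Z _ hz.N hz.Z hv.z0 hv.n⟩
      rw [hθ, hv.a, hu, pcI_true]
    exact ⟨⟨C, hC, fun S s hS hs hsS => (key S s hS hs hsS).1⟩,
      ⟨C, hC, fun S s hS hs hsS => (key S s hS hs hsS).2⟩⟩
  -- coefficients
  have hcc : ∀ i j, ty i = Ty.add → ty j = Ty.ell → UR θ ν (fun _ => c i j) := by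
    intro i j hi hj
    have e : θ (Sum.inr (Sum.inl (i, j))) = c i j := by
      show (if ty i = Ty.add ∧ ty j = Ty.ell then c i j else
        if i = j ∧ ty i = Ty.add then b i else 0) = c i j
      rw [if_pos ⟨hi, hj⟩]
    rw [← e]
    exact ur_const _
  have hbb : ∀ i, ty i = Ty.add → UR θ ν (fun _ => b i) := by
    intro i hi
    have e : θ (Sum.inr (Sum.inl (i, i))) = b i := by
      show (if ty i = Ty.add ∧ ty i = Ty.ell then c i i else
        if i = i ∧ ty i = Ty.add then b i else 0) = b i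
      rw [if_neg, if_pos ⟨rfl, hi⟩]
      rintro ⟨-, h⟩
      rw [hi] at h
      cases h
    rw [← e]
    exact ur_const _
  -- additive values
  have hD : ∀ i, ty i = Ty.add → UR θ ν (fun s => b i * cmb s x +
      ∑ j, (if ty j = Ty.ell then c i j * ze τ μ (b j * cmb s x) else 0)) := by
    intro i hi
    have h2 : UR θ ν (fun s =>
      ∑ k, (s k : ℂ) * θ (Sum.inr (Sum.inr (k, i, false))) +
        ∑ j, (if ty j = Ty.ell then c i j * cor τ μ u s j else 0)) := by
      refine ur_add (ur_sum _ _ fun k _ => ur_mul (ur_s k) (ur_const _)) (ur_sum _ _ fun j _ => ?_)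
      split_ifs with hj
      · exact ur_mul (hcc i j hi hj) (hV j hj).2
      · exact ur_zero
    exact ur_congr h2 fun s _ => add_val τ μ ty b c x i hi s
  -- the function `z`
  have hz : UR θ ν (fun s => cmb s x) := by
    by_cases h : ∃ i, i₀ = some i
    · obtain ⟨i, hi⟩ := h
      obtain ⟨hadd, hc0⟩ := hE.1 i hi
      refine ur_congr (hD i hadd) fun s _ => ?_
      rw [hone i hi, one_mul, Finset.sum_eq_zero, add_zero]
      intro j _
      split_ifs with hj
      · rw [hc0 j hj, zero_mul]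
      · rfl
    · have hnp : (none : Option {j : ι // ty j = Ty.ell}) ∉ Set.range piv := by
        rintro ⟨i, hi⟩
        rw [hp2 i (fun h' => h ⟨i.1, h'⟩)] at hi
        cases hi
      exact ur_nu (θ := θ) (ν := ν) ⟨none, hnp⟩
  -- the functions `Z` without pivot
  have hnp : ∀ j : {j : ι // ty j = Ty.ell}, some j ∉ Set.range piv →
      UR θ ν (fun s => ze τ μ (b j * cmb s x)) := fun j hj =>
    ur_nu (θ := θ) (ν := ν) ⟨some j, hj⟩
  -- the functions `Z`
  have hze : ∀ j : {j : ι // ty j = Ty.ell}, UR θ ν (fun s => ze τ μ (b j * cmb s x)) := by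
    intro j
    by_cases hj : some j ∈ Set.range piv
    · obtain ⟨i, hi⟩ := hj
      have h0 : i₀ ≠ some i.1 := by
        intro h
        rw [hp1 i h] at hi
        cases hi
      have h3 : π i.1 = j.1 := by
        rw [hp2 i h0] at hi
        exact congrArg Subtype.val (Option.some_injective _ hi)
      have hpiv := (hE.2 i.1 i.2 h0).2
      rw [h3] at hpiv
      have h4 : UR θ ν (fun s => ∑ j', (if ty j' = Ty.ell ∧ j' ≠ j.1 then
          c i.1 j' * ze τ μ (b j' * cmb s x) else 0)) := by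
        refine ur_sum _ _ fun j' _ => ?_
        split_ifs with hj'
        · by_cases h5 : some (⟨j', hj'.1⟩ : {j : ι // ty j = Ty.ell}) ∈ Set.range piv
          · obtain ⟨i', hi'⟩ := h5
            have h0' : i₀ ≠ some i'.1 := by
              intro h
              rw [hp1 i' h] at hi'
              cases hi'
            have h3' : π i'.1 = j' := by
              rw [hp2 i' h0'] at hi'
              exact congrArg Subtype.val (Option.some_injective _ hi')
            have h6 := (hE.2 i'.1 i'.2 h0').2 i.1 i.2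
            have h7 : i.1 ≠ i'.1 := by
              intro h
              rw [← h, h3] at h3'
              exact hj'.2 h3'.symm
            rw [if_neg h7, h3'] at h6
            refine ur_congr ur_zero fun s _ => ?_
            rw [h6, zero_mul]
          · exact ur_mul (hcc _ _ i.2 hj'.1) (hnp ⟨j', hj'.1⟩ h5)
        · exact ur_zero
      have h5 := ur_sub (ur_sub (hD i.1 i.2) (ur_mul (hbb i.1 i.2) hz)) h4
      refine ur_congr h5 fun s _ => ?_
      have h6 : ∑ j', (if ty j' = Ty.ell then c i.1 j' * ze τ μ (b j' * cmb s x) else 0) =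
          ze τ μ (b j * cmb s x) + ∑ j', (if ty j' = Ty.ell ∧ j' ≠ j.1 then
            c i.1 j' * ze τ μ (b j' * cmb s x) else 0) := by
        have h7 : ze τ μ (b j * cmb s x) =
            ∑ j', (if j' = j.1 then ze τ μ (b j' * cmb s x) else 0) := by
          rw [Finset.sum_ite_eq' Finset.univ j.1, if_pos (Finset.mem_univ _)]
        rw [h7, ← Finset.sum_add_distrib]
        refine Finset.sum_congr rfl fun j' _ => ?_
        by_cases h8 : j' = j.1
        · subst h8
          rw [if_pos j.2, if_pos rfl, if_neg (fun h => h.2 rfl), hpiv i.1 i.2, if_pos rfl]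
          ring
        · by_cases h9 : ty j' = Ty.ell
          · rw [if_pos h9, if_neg h8, if_pos ⟨h9, h8⟩]
            ring
          · rw [if_neg h9, if_neg h8, if_neg (fun h => h9 h.1)]
            ring
      rw [h6]
      ring
    · exact hnp j hj
  -- the exponential functions
  have hexp : ∀ j : {j : ι // ty j = Ty.mul}, UR θ ν (fun s => Complex.exp (b j * cmb s x)) := by
    intro j
    have e : ∀ k : Fin n, θ (Sum.inr (Sum.inr (k, j.1, false))) = Complex.exp (b j * x k) := by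
      intro k
      show PN τ μ ty c (fun j => b j * x k) j = _
      unfold PN
      rw [j.2]
    have h2 : UR θ ν (fun s => ∏ k, θ (Sum.inr (Sum.inr (k, j.1, false))) ^ (s k)) :=
      ur_prod _ _ fun k _ => ur_zpow _ (by rw [e k]; exact Complex.exp_ne_zero _) k
    refine ur_congr h2 fun s _ => ?_
    have h3 : b j * cmb s x = ∑ k, (s k : ℂ) * (b j * x k) := by
      unfold cmb
      rw [Finset.mul_sum]
      exact Finset.sum_congr rfl fun k _ => by ring
    rw [h3, Complex.exp_sum]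
    refine Finset.prod_congr rfl fun k _ => ?_
    rw [e k, ← Complex.exp_int_mul]
  -- all functions
  let F : fI ty → (Fin n → ℤ) → ℂ := fun f s =>
    PN τ μ (fty ty) (fc ty) (fun j => fb ty b j * cmb s x) f
  have hF : ∀ f, UR θ ν (F f) := by
    rintro (⟨⟩ | j | ⟨j, e⟩)
    · exact ur_congr hz fun s _ => (val_z τ μ ty b _).symm
    · exact ur_congr (hexp j) fun s _ => (val_mul τ μ ty b _ j).symm
    · cases e
      · exact ur_congr (hze j) fun s _ => (val_ze τ μ ty b _ j).symm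
      · exact ur_congr (hV j.1 j.2).1 fun s _ => (val_ell τ μ ty b _ j).symm
  obtain ⟨A₀, hA₀, hR⟩ := ur_fam F hF
  have hs1 := card_split ty
  have hs2 := card_full ty
  obtain ⟨S₀, hS₀, hmain⟩ := rel_of_rep (κ := κ) (K := fI ty) θ (Fintype.card ι - 2) hTr
    (by omega) A₀ hA₀ (10 * Fintype.card ι + 10) (by omega)
  refine ⟨S₀, fun S hS s hs hsS => ?_⟩
  exact hmain S hS (ν s) (fun f => F f s) fun f => hR f S s (hS₀.trans hS) hs hsS

end Pool.Agent.Work.MP_8da9ea_nt.MX
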