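import Pool.Agent.Work.MP_8da9ea_nt.MX.StmtsF
import Pool.Agent.Work.MP_8da9ea_nt.MX.I_RelPtM

/-!
# Mixed block, item RelF (H7'): relations at all points

The functions of the full family at `z_s` are quotients of integer polynomials of size `C S^10` in the
numbers `θ ∈ E` and `∑ s_i A_i`. The span of the monomials is small by the uniform Hilbert function, and
Siegel's lemma with rank gives the relation.
-/

set_option autoImplicit false

namespace Pool.Agent.Work.MP_8da9ea_nt.MX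

open MvPolynomial Metric Filter Topology Pool.Agent.Work.MP_327059_nt.GL
  Pool.Agent.Work.MP_8da9ea_nt.S Pool.Agent.Work.MP_8da9ea_nt.EB

namespace I_RelF

open I_RelPtM

/-! ## Dimensions -/

theorem spD_fin {σ : Type} [Fintype σ] (k : IntermediateField ℚ ℂ) (θ : σ → ℂ) (D : ℕ) :
    Module.Finite k (spD k θ D) := by
  have h : spD k θ D ≤ (restrictTotalDegree σ k D).map
      (aeval θ : MvPolynomial σ k →ₐ[k] ℂ).toLinearMap := by
    apply Submodule.span_le.2
    rintro y ⟨P, hP, rfl⟩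
    exact ⟨P, (mem_restrictTotalDegree _ _ _).2 hP, rfl⟩
  exact Submodule.finiteDimensional_of_le h

theorem frk {σ Λ : Type} [Fintype σ] [Fintype Λ] (Θ : σ → ℂ) (D : ℕ)
    (P : Λ → MvPolynomial σ ℤ) (hd : ∀ l, (P l).totalDegree ≤ D) :
    Module.finrank ℚ (Submodule.span ℚ (Set.range fun l => aeval Θ (P l))) ≤
      Module.finrank kQ (spD kQ Θ D) := by
  have hfin := spD_fin kQ Θ D
  have h1 : Module.Finite ℚ kQ := Module.finite_of_finrank_eq_succ
    (n := 0) (by rw [IntermediateField.finrank_bot])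
  have h2 : Module.Finite ℚ (spD kQ Θ D) := Module.Finite.trans kQ _
  have h3 : Module.finrank ℚ kQ * Module.finrank kQ (spD kQ Θ D) =
      Module.finrank ℚ (spD kQ Θ D) := Module.finrank_mul_finrank ℚ kQ _
  rw [IntermediateField.finrank_bot, one_mul] at h3
  rw [h3]
  have h4 : Submodule.span ℚ (Set.range fun l => aeval Θ (P l)) ≤
      (spD kQ Θ D).restrictScalars ℚ := by
    apply Submodule.span_le.2
    rintro y ⟨l, rfl⟩
    apply Submodule.subset_span
    refine ⟨map (algebraMap ℤ kQ) (P l), ?_, ?_⟩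
    · refine le_trans ?_ (hd l)
      apply Finset.sup_mono
      exact support_map_subset _ _
    · rw [aeval_map_algebraMap]
  have h5 : Module.Finite ℚ ((spD kQ Θ D).restrictScalars ℚ) := h2
  exact Submodule.finrank_mono h4

/-! ## Substitution of linear forms -/

theorem sub_size {σ υ : Type} (f : σ → MvPolynomial υ ℤ) (L : ℝ) (hL : 1 ≤ L)
    (hf : ∀ i, (f i).totalDegree ≤ 1) (hl : ∀ i, len (f i) ≤ L) (P : MvPolynomial σ ℤ) (D : ℕ)
    (hD : P.totalDegree ≤ D) :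
    (aeval f P).totalDegree ≤ D ∧ len (aeval f P) ≤ len P * L ^ D := by
  have e : aeval f P = ∑ d ∈ P.support, C (P.coeff d) * ∏ i ∈ d.support, f i ^ d i := by
    conv_lhs => rw [P.as_sum]
    rw [map_sum]
    refine Finset.sum_congr rfl fun d _ => ?_
    rw [aeval_monomial]
    rfl
  have hdeg : ∀ d ∈ P.support, ∑ i ∈ d.support, d i ≤ D := fun d hd =>
    (le_totalDegree hd).trans hD
  rw [e]
  refine ⟨?_, ?_⟩
  · refine totalDegree_finsetSum_le fun d hd => ?_
    refine (totalDegree_mul _ _).trans ?_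
    rw [totalDegree_C, zero_add]
    refine (totalDegree_finsetProd _ _).trans (le_trans ?_ (hdeg d hd))
    refine Finset.sum_le_sum fun i _ => (totalDegree_pow _ _).trans ?_
    calc d i * (f i).totalDegree ≤ d i * 1 := Nat.mul_le_mul_left _ (hf i)
      _ = d i := mul_one _
  · refine (Val_len_sum _ _).trans ?_
    have e2 : len P * L ^ D = ∑ d ∈ P.support, |((P.coeff d : ℤ) : ℝ)| * L ^ D := by
      unfold len
      rw [Finset.sum_mul]
    rw [e2]
    refine Finset.sum_le_sum fun d hd => ?_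
    refine (Val_len_mul _ _).trans ?_
    refine mul_le_mul (Val_len_C _) ?_ (Val_len_nonneg _) (abs_nonneg _)
    refine (Val_len_prod _ _).trans ?_
    calc ∏ i ∈ d.support, len (f i ^ d i) ≤ ∏ i ∈ d.support, L ^ d i := by
          refine Finset.prod_le_prod (fun i _ => Val_len_nonneg _) fun i _ => ?_
          exact (Val_len_pow _ _).trans (pow_le_pow_left₀ (Val_len_nonneg _) (hl i) _)
      _ = L ^ (∑ i ∈ d.support, d i) := by rw [Finset.prod_pow_eq_pow_sum]
      _ ≤ L ^ D := pow_le_pow_right₀ hL (hdeg d hd)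

/-- The substitution of the linear forms `∑ s_i A_i`. -/
noncomputable def lin {σ κ : Type} {n : ℕ} (s : Fin n → ℤ) :
    σ ⊕ κ → MvPolynomial (σ ⊕ (Fin n × κ)) ℤ :=
  Sum.elim (fun i => X (Sum.inl i)) (fun l => ∑ i, C (s i) * X (Sum.inr (i, l)))

theorem lin_deg {σ κ : Type} {n : ℕ} (s : Fin n → ℤ) (q : σ ⊕ κ) :
    (lin (σ := σ) (κ := κ) s q).totalDegree ≤ 1 := by
  rcases q with q | q
  · show (X (Sum.inl q) : MvPolynomial (σ ⊕ (Fin n × κ)) ℤ).totalDegree ≤ 1
    rw [totalDegree_X]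
  · show (∑ i, C (s i) * X (Sum.inr (i, q)) :
      MvPolynomial (σ ⊕ (Fin n × κ)) ℤ).totalDegree ≤ 1
    refine totalDegree_finsetSum_le fun i _ => ?_
    refine (totalDegree_mul _ _).trans ?_
    rw [totalDegree_C, totalDegree_X]

theorem lin_len {σ κ : Type} {n : ℕ} (hn : 1 ≤ n) (s : Fin n → ℤ) (S : ℕ) (hS : 1 ≤ S)
    (hs : ∀ i, |s i| ≤ (S : ℤ)) (q : σ ⊕ κ) :
    len (lin (σ := σ) (κ := κ) s q) ≤ n * S := by
  have h1 : (1 : ℝ) ≤ n := by exact_mod_cast hn
  have h2 : (1 : ℝ) ≤ S := by exact_mod_cast hS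
  rcases q with q | q
  · refine (Val_len_X _).trans ?_
    nlinarith
  · show len (∑ i, C (s i) * X (Sum.inr (i, q)) : MvPolynomial (σ ⊕ (Fin n × κ)) ℤ) ≤ n * S
    refine (Val_len_sum _ _).trans ?_
    calc ∑ i : Fin n, len (C (s i) * X (Sum.inr (i, q)) : MvPolynomial (σ ⊕ (Fin n × κ)) ℤ)
        ≤ ∑ _i : Fin n, (S : ℝ) := by
          refine Finset.sum_le_sum fun i _ => (Val_len_mul _ _).trans ?_
          have h3 : |((s i : ℤ) : ℝ)| ≤ S := by exact_mod_cast hs i
          calc len (C (s i) : MvPolynomial (σ ⊕ (Fin n × κ)) ℤ) *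
                len (X (Sum.inr (i, q)) : MvPolynomial (σ ⊕ (Fin n × κ)) ℤ)
              ≤ (S : ℝ) * 1 := mul_le_mul ((Val_len_C _).trans h3) (Val_len_X _)
                (Val_len_nonneg _) (by linarith)
            _ = S := mul_one _
      _ = n * S := by rw [Finset.sum_const, Finset.card_univ, Fintype.card_fin, nsmul_eq_mul]

theorem lin_eval {σ κ : Type} {n : ℕ} (θ : σ → ℂ) (A : Fin n → κ → ℂ) (s : Fin n → ℤ)
    (P : MvPolynomial (σ ⊕ κ) ℤ) :
    aeval (Sum.elim θ fun q : Fin n × κ => A q.1 q.2) (aeval (lin s) P) =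
      aeval (Sum.elim θ (cQ (fun i => (s i : ℚ)) A)) P := by
  have h : ((aeval (Sum.elim θ fun q : Fin n × κ => A q.1 q.2) :
      MvPolynomial (σ ⊕ (Fin n × κ)) ℤ →ₐ[ℤ] ℂ).comp (aeval (lin s))) =
      aeval (Sum.elim θ (cQ (fun i => (s i : ℚ)) A)) := by
    apply MvPolynomial.algHom_ext
    rintro (i | l)
    · simp [lin]
    · simp [lin, cQ]
  exact DFunLike.congr_fun h P

/-! ## The relation -/

theorem rel_of_rep2 (h2 : S_FFrank) {σ κ K : Type} [Fintype σ] [Fintype κ] [Fintype K] {n : ℕ}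
    (hn : 1 ≤ n) (θ : σ → ℂ) (B : Fin n → κ → ℂ) (k' : ℕ)
    (hH : ∃ c₁ : ℕ, 1 ≤ c₁ ∧ ∀ (D : ℕ) (w : Fin n → ℚ),
      Module.finrank kQ (spD kQ (Sum.elim θ (cQ w B)) D) ≤ c₁ * (D + 1) ^ k')
    (hM : k' + 2 ≤ Fintype.card K) (A₀ : ℝ) (hA₀ : 1 ≤ A₀)
    (w : ℕ) (hw : 10 * k' + 1 ≤ 2 * w) :
    ∃ S₀ : ℕ, 1 ≤ S₀ ∧ ∀ S : ℕ, S₀ ≤ S → ∀ s : Fin n → ℤ, (∀ i, |s i| ≤ (S : ℤ)) →
      ∀ F : K → ℂ,
      (∀ f, Rep (Sum.elim θ (cQ (fun i => (s i : ℚ)) B)) (A₀ * (S : ℝ) ^ 10) (F f)) →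
      ∃ R : MvPolynomial K ℤ, R ≠ 0 ∧ (∀ j, R.degreeOf j ≤ S ^ w) ∧
        (∀ d, |((R.coeff d : ℤ) : ℝ)| ≤ Real.exp ((S : ℝ) ^ (w + 12))) ∧ aeval F R = 0 := by
  classical
  obtain ⟨c₁, hc₁, hHil⟩ := hH
  obtain ⟨c, hc, hFF⟩ := h2 (σ ⊕ (Fin n × κ)) (Sum.elim θ fun q : Fin n × κ => B q.1 q.2)
  set M : ℕ := Fintype.card K with hMd
  set A : ℝ := M * A₀ + 1 with hA
  have hA1 : 1 ≤ A := by
    have : (0 : ℝ) ≤ M * A₀ := by positivity
    linarith
  have hc1 : (1 : ℝ) ≤ c := by exact_mod_cast hc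
  have hc1' : (1 : ℝ) ≤ c₁ := by exact_mod_cast hc₁
  have hn1 : (1 : ℝ) ≤ n := by exact_mod_cast hn
  obtain ⟨S₁, hS₁, hb₁⟩ := big (2 * (c₁ * A ^ k')) ((w + 10) * k')
  obtain ⟨S₂, hS₂, hb₂⟩ := big (w * M + A + n * A + c * A) (w + 11)
  refine ⟨max S₁ S₂, hS₁.trans (le_max_left _ _), fun S hS s hs F hF => ?_⟩
  have hS1 : 1 ≤ S := hS₁.trans ((le_max_left _ _).trans hS)
  have hSr : (1 : ℝ) ≤ S := by exact_mod_cast hS1
  have hS0 : (0 : ℝ) < S := by linarith
  have hb₁' := hb₁ S ((le_max_left _ _).trans hS)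
  have hb₂' := hb₂ S ((le_max_right _ _).trans hS)
  set ν : κ → ℂ := cQ (fun i => (s i : ℚ)) B with hν
  choose num den hnum hden hd0 hval using hF
  set W : ℕ := S ^ w with hW
  set q : ℝ := M * (W * (A₀ * (S : ℝ) ^ 10)) with hq
  have hP10 : (1 : ℝ) ≤ (S : ℝ) ^ 10 := one_le_pow₀ hSr
  have hq0 : 0 ≤ q := by positivity
  have hqA : q + 1 ≤ A * (S : ℝ) ^ (w + 10) := by
    have e3 : q = M * A₀ * (S : ℝ) ^ (w + 10) := by
      rw [hq, hW, pow_add]
      push_cast
      ring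
    have e4 : (1 : ℝ) ≤ (S : ℝ) ^ (w + 10) := one_le_pow₀ hSr
    rw [hA, add_mul, one_mul]
    linarith
  set D : ℕ := ⌊q⌋₊ with hD
  have hDq : (D : ℝ) ≤ q := Nat.floor_le hq0
  have hDA : (D : ℝ) + 1 ≤ A * (S : ℝ) ^ (w + 10) := by linarith
  -- the polynomials
  let P : (K → Fin W) → MvPolynomial (σ ⊕ κ) ℤ := fun l =>
    ∏ f, (num f ^ (l f : ℕ) * den f ^ (W - (l f : ℕ)))
  have hsiz : ∀ l : K → Fin W, SizP q (P l) := by
    intro l
    have h1 := sz_prod (h := W * (A₀ * (S : ℝ) ^ 10)) Finset.univ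
      (fun f => num f ^ (l f : ℕ) * den f ^ (W - (l f : ℕ))) (fun f _ => by
        have h2 := sz_mul (sz_pow (hnum f) (l f : ℕ)) (sz_pow (hden f) (W - (l f : ℕ)))
        have h3 : (((l f : ℕ) : ℝ) + ((W - (l f : ℕ) : ℕ) : ℝ)) = W := by
          have : (l f : ℕ) + (W - (l f : ℕ)) = W := by
            have := (l f).2
            omega
          exact_mod_cast this
        rw [← add_mul, h3] at h2
        exact h2)
    rw [Finset.card_univ] at h1
    exact h1
  have hdegP : ∀ l, (P l).totalDegree ≤ D := fun l => Nat.le_floor (hsiz l).1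
  let P' : (K → Fin W) → MvPolynomial (σ ⊕ (Fin n × κ)) ℤ := fun l => aeval (lin s) (P l)
  have hL1 : (1 : ℝ) ≤ n * S := by nlinarith
  have hP' : ∀ l, (P' l).totalDegree ≤ D ∧ len (P' l) ≤ len (P l) * ((n : ℝ) * S) ^ D := fun l =>
    sub_size (lin s) (n * S) hL1 (lin_deg s) (lin_len hn s S hS1 hs) (P l) D (hdegP l)
  have hcard : Fintype.card (K → Fin W) = S ^ (w * M) := by
    rw [Fintype.card_fun, Fintype.card_fin, hW, ← pow_mul]
  have hexp : (w + 10) * k' + 1 ≤ w * M := by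
    have : w * (k' + 2) ≤ w * M := Nat.mul_le_mul_left _ hM
    nlinarith
  have hcount : 2 * (c₁ * (D + 1) ^ k') ≤ Fintype.card (K → Fin W) := by
    rw [hcard]
    have e1 : ((2 * (c₁ * (D + 1) ^ k') : ℕ) : ℝ) ≤ ((S ^ (w * M) : ℕ) : ℝ) := by
      push_cast
      calc (2 : ℝ) * (c₁ * ((D : ℝ) + 1) ^ k')
          ≤ 2 * (c₁ * (A * (S : ℝ) ^ (w + 10)) ^ k') := by gcongr
        _ = 2 * (c₁ * A ^ k') * (S : ℝ) ^ ((w + 10) * k') := by
            rw [mul_pow, ← pow_mul]; ring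
        _ ≤ (S : ℝ) ^ ((w + 10) * k' + 1) := hb₁'
        _ ≤ (S : ℝ) ^ (w * M) := pow_le_pow_right₀ hSr hexp
    exact_mod_cast e1
  have hrank : 2 * Module.finrank ℚ (Submodule.span ℚ (Set.range fun l =>
      aeval (Sum.elim θ fun q : Fin n × κ => B q.1 q.2) (P' l))) ≤
        Fintype.card (K → Fin W) := by
    have e1 : (fun l => aeval (Sum.elim θ fun q : Fin n × κ => B q.1 q.2) (P' l)) =
        fun l => aeval (Sum.elim θ ν) (P l) := by
      funext l
      exact lin_eval θ B s (P l)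
    rw [e1]
    refine le_trans (Nat.mul_le_mul_left 2 ?_) hcount
    exact (frk (Sum.elim θ ν) D P hdegP).trans (hHil D _)
  have hne : 1 ≤ Fintype.card (K → Fin W) := by
    rw [hcard]
    exact Nat.one_le_pow _ _ hS1
  obtain ⟨p, hp0, hp1, hp2⟩ := hFF (K → Fin W) D (Real.exp q * ((n : ℝ) * S) ^ D) P'
    (one_le_mul_of_one_le_of_one_le (Real.one_le_exp hq0) (one_le_pow₀ hL1))
    (fun l => (hP' l).1)
    (fun l => (hP' l).2.trans (mul_le_mul_of_nonneg_right (hsiz l).2 (by positivity)))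
    hne hrank
  refine ⟨RR p, RR_ne p hp0, fun j => RR_deg p j, fun d => RR_bd p _ (Real.exp_nonneg _) ?_ d, ?_⟩
  · intro l
    refine (hp1 l).trans ?_
    rw [hcard]
    have e1 : (((S ^ (w * M) : ℕ)) : ℝ) ≤ Real.exp (w * M * S) := by
      push_cast
      have : (S : ℝ) ≤ Real.exp S := by linarith [Real.add_one_le_exp (S : ℝ)]
      calc (S : ℝ) ^ (w * M) ≤ (Real.exp S) ^ (w * M) := by gcongr
        _ = Real.exp (w * M * S) := by
            rw [← Real.exp_nat_mul]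
            push_cast
            ring_nf
    have e2 : (c : ℝ) ^ (D + 1) ≤ Real.exp (c * (D + 1)) := by
      have : (c : ℝ) ≤ Real.exp c := by linarith [Real.add_one_le_exp (c : ℝ)]
      calc (c : ℝ) ^ (D + 1) ≤ (Real.exp c) ^ (D + 1) := by gcongr
        _ = Real.exp (c * (D + 1)) := by
            rw [← Real.exp_nat_mul]
            push_cast
            ring_nf
    have e3 : ((n : ℝ) * S) ^ D ≤ Real.exp (D * (n * S)) := by
      have : (n : ℝ) * S ≤ Real.exp (n * S) := by linarith [Real.add_one_le_exp ((n : ℝ) * S)]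
      calc ((n : ℝ) * S) ^ D ≤ (Real.exp (n * S)) ^ D := by gcongr
        _ = Real.exp (D * (n * S)) := by rw [← Real.exp_nat_mul]
    calc (((S ^ (w * M) : ℕ)) : ℝ) * (Real.exp q * ((n : ℝ) * S) ^ D * (c : ℝ) ^ (D + 1))
        ≤ Real.exp (w * M * S) * (Real.exp q * Real.exp (D * (n * S)) *
            Real.exp (c * (D + 1))) := by
          gcongr
      _ = Real.exp (w * M * S + (q + D * (n * S) + c * (D + 1))) := by
          rw [Real.exp_add, Real.exp_add, Real.exp_add]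
      _ ≤ Real.exp ((S : ℝ) ^ (w + 12)) := by
          rw [Real.exp_le_exp]
          have f0 : (S : ℝ) ^ (w + 10) ≤ (S : ℝ) ^ (w + 11) :=
            pow_le_pow_right₀ hSr (by omega)
          have f1 : (S : ℝ) ≤ (S : ℝ) ^ (w + 11) := by
            calc (S : ℝ) = (S : ℝ) ^ 1 := (pow_one _).symm
              _ ≤ _ := pow_le_pow_right₀ hSr (by omega)
          have f2 : (w : ℝ) * M * S ≤ w * M * (S : ℝ) ^ (w + 11) := by gcongr
          have f3 : (c : ℝ) * (D + 1) ≤ c * (A * (S : ℝ) ^ (w + 11)) := by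
            have : (D : ℝ) + 1 ≤ A * (S : ℝ) ^ (w + 11) := hDA.trans (by gcongr)
            gcongr
          have f4 : q ≤ A * (S : ℝ) ^ (w + 11) := by
            have : A * (S : ℝ) ^ (w + 10) ≤ A * (S : ℝ) ^ (w + 11) := by gcongr
            linarith
          have f5 : (D : ℝ) * (n * S) ≤ n * A * (S : ℝ) ^ (w + 11) := by
            have g1 : (D : ℝ) ≤ A * (S : ℝ) ^ (w + 10) := by linarith
            calc (D : ℝ) * (n * S) ≤ A * (S : ℝ) ^ (w + 10) * (n * S) := by gcongr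
              _ = n * A * (S : ℝ) ^ (w + 11) := by ring
          have f6 : ((w : ℝ) * M + A + n * A + c * A) * (S : ℝ) ^ (w + 11) =
              w * M * (S : ℝ) ^ (w + 11) + A * (S : ℝ) ^ (w + 11) +
                n * A * (S : ℝ) ^ (w + 11) + c * (A * (S : ℝ) ^ (w + 11)) := by ring
          linarith
  · rw [RR_eval]
    have hv : ∀ l : K → Fin W,
        aeval (Sum.elim θ fun q : Fin n × κ => B q.1 q.2) (P' l) =
        (∏ f, aeval (Sum.elim θ ν) (den f) ^ W) * ∏ f, F f ^ (l f : ℕ) := by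
      intro l
      have e0 : aeval (Sum.elim θ fun q : Fin n × κ => B q.1 q.2) (P' l) =
        aeval (Sum.elim θ ν) (P l) := lin_eval θ B s (P l)
      rw [e0]
      show aeval (Sum.elim θ ν) (∏ f, (num f ^ (l f : ℕ) * den f ^ (W - (l f : ℕ)))) = _
      rw [map_prod, ← Finset.prod_mul_distrib]
      refine Finset.prod_congr rfl fun f _ => ?_
      rw [map_mul, map_pow, map_pow, hval f, mul_pow]
      have h3 : W = (l f : ℕ) + (W - (l f : ℕ)) := by
        have := (l f).2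
        omega
      have h4 : aeval (Sum.elim θ ν) (den f) ^ W = aeval (Sum.elim θ ν) (den f) ^ (l f : ℕ) *
          aeval (Sum.elim θ ν) (den f) ^ (W - (l f : ℕ)) := by
        rw [← pow_add, ← h3]
      rw [h4]
      ring
    have hZ : (∏ f, aeval (Sum.elim θ ν) (den f) ^ W) ≠ 0 :=
      Finset.prod_ne_zero_iff.2 fun f _ => pow_ne_zero _ (hd0 f)
    have e1 : (∏ f, aeval (Sum.elim θ ν) (den f) ^ W) *
        ∑ l : K → Fin W, (p l : ℂ) * ∏ f, F f ^ (l f : ℕ) = 0 := by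
      rw [← hp2, Finset.mul_sum]
      refine Finset.sum_congr rfl fun l _ => ?_
      rw [hv l]
      ring
    exact (mul_eq_zero.1 e1).resolve_left hZ

/-! ## The full family of `ty2` -/

theorem card_mul2 (m₁ m₂ : ℕ) : Fintype.card {j : Fin m₁ ⊕ Fin m₂ // ty2 m₁ m₂ j = Ty.mul} = m₁ := by
  classical
  rw [Fintype.card_subtype, Finset.card_filter, Fintype.sum_sum_type]
  simp [ty2]

theorem card_ell2 (m₁ m₂ : ℕ) : Fintype.card {j : Fin m₁ ⊕ Fin m₂ // ty2 m₁ m₂ j = Ty.ell} = m₂ := by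
  classical
  rw [Fintype.card_subtype, Finset.card_filter, Fintype.sum_sum_type]
  simp [ty2]

theorem cmb_single {n : ℕ} (x : Fin n → ℂ) (i : Fin n) : cmb (Pi.single i 1) x = x i := by
  unfold cmb
  rw [Finset.sum_eq_single i]
  · simp
  · intro l _ hl
    simp [Pi.single_eq_of_ne hl]
  · intro h
    exact absurd (Finset.mem_univ i) h

end I_RelF

open I_RelPtM I_RelF in
/-- H7': relations at all points. -/
theorem RelF_pf (h1 : S_HilbW) (h2 : S_FFrank) (h3 : S_TreeQ) : S_RelF := by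
  classical
  intro m
  refine ⟨15 * m + 10, ?_⟩
  intro m₁ m₂ hm₁ hm₂ τ μ b₁ b₂ hNrm n hn x hlat E e r hE hTr hexpE hxeE hrk her
  obtain ⟨C, K₁, hC, htree⟩ := h3 (Fin m₁ ⊕ Fin m₂) n hn
  set ty : Fin m₁ ⊕ Fin m₂ → Ty := ty2 m₁ m₂ with hty
  set b : Fin m₁ ⊕ Fin m₂ → ℂ := bb2 μ b₁ b₂ with hb
  let c : Fin m₁ ⊕ Fin m₂ → Fin m₁ ⊕ Fin m₂ → ℂ := fun _ _ => 0
  set u : Fin n → Fin m₁ ⊕ Fin m₂ → ℂ := fun i j => b j * x i with hu
  set θ : VM n (Fin m₁ ⊕ Fin m₂) → ℂ := ptM τ μ ty b c u with hθ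
  have hNT : ∀ s : Fin n → ℤ, s ≠ 0 → ∀ j, ty j = Ty.ell → b j * cmb s x ∉ Lam τ := by
    rintro s hs (j | j) hj
    · exact absurd hj (by simp [hty, ty2])
    · exact hlat s hs j
  -- all coordinates of `θ` are in `E`
  have hg2 : μ ^ 4 * gg2 τ ∈ E := hE _ (hNrm.g2.tower_top _)
  have hg3 : μ ^ 6 * gg3 τ ∈ E := hE _ (hNrm.g3.tower_top _)
  have hX : ∀ i j, xe τ μ (μ * b₂ j * x i) ∈ E := by
    intro i j
    have := hxeE i j
    rwa [← mul_assoc] at this
  have hY : ∀ i j, ye τ μ (μ * b₂ j * x i) ∈ E := by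
    intro i j
    have hl : μ * b₂ j * x i ∉ Lam τ := by
      have := hlat (Pi.single i 1) (by
        intro h
        have := congrFun h i
        simp at this) j
      rwa [cmb_single] at this
    have hcv : ye τ μ (μ * b₂ j * x i) ^ 2 = 4 * xe τ μ (μ * b₂ j * x i) ^ 3 -
        (μ ^ 4 * gg2 τ) * xe τ μ (μ * b₂ j * x i) - μ ^ 6 * gg3 τ := by
      have := wpd_sq hNrm.im hl
      unfold xe ye
      linear_combination μ ^ 6 * this
    have hin : ye τ μ (μ * b₂ j * x i) ^ 2 ∈ E := by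
      rw [hcv]
      refine E.sub_mem (E.sub_mem (E.mul_mem ?_ (pow_mem (hX i j) 3)) (E.mul_mem hg2 (hX i j))) hg3
      exact_mod_cast E.natCast_mem 4
    apply hE
    refine IsAlgebraic.of_pow (n := 2) (by norm_num) ?_
    exact isAlgebraic_algebraMap (⟨_, hin⟩ : E)
  have hθE : ∀ q, θ q ∈ E := by
    rintro (q | ⟨i, j⟩ | ⟨i, j, f⟩)
    · show (if q = 0 then μ ^ 4 * gg2 τ else μ ^ 6 * gg3 τ) ∈ E
      split_ifs
      · exact hg2
      · exact hg3
    · have hi : ty i ≠ Ty.add := by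
        rcases i with i | i <;> simp [hty, ty2]
      have h0 : θ (Sum.inr (Sum.inl (i, j))) = 0 := by
        rw [hθ]
        unfold ptM
        simp only [Sum.elim_inr, Sum.elim_inl]
        rw [if_neg (fun h => hi h.1), if_neg (fun h => hi h.2)]
      rw [h0]
      exact E.zero_mem
    · show (if f then (if ty j = Ty.ell then ye τ μ (u i j) else 0)
        else PN τ μ ty c (u i) j) ∈ E
      rcases j with j | j
      · cases f
        · exact hexpE i j
        · exact E.zero_mem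
      · cases f
        · exact hX i j
        · exact hY i j
  -- the additive numbers
  set B : Fin n → Option (Fin m₂) → ℂ := AW τ μ b₂ x with hB
  let ν : (Fin n → ℤ) → Option (Fin m₂) → ℂ := fun s => cQ (fun i => (s i : ℚ)) B
  have hlam : ∀ (s : Fin n → ℤ) (j : Fin m₁ ⊕ Fin m₂), ty j = Ty.ell → s ≠ 0 →
      pcI u s j ∉ Lam τ := by
    intro s j hj hs
    rw [hu, pcI_true]
    exact hNT s hs j hj
  -- elliptic values and corrections
  have hV : ∀ j, ty j = Ty.ell → UR θ ν (fun s => xe τ μ (b j * cmb s x)) ∧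
      UR θ ν (fun s => cor τ μ u s j) := by
    intro j hj
    have key : ∀ (S : ℕ) (s : Fin n → ℤ), 1 ≤ S → s ≠ 0 → (∀ i, |s i| ≤ (S : ℤ)) →
        Rep (Sum.elim θ (ν s)) (C * (S : ℝ) ^ 10) (xe τ μ (b j * cmb s x)) ∧
          Rep (Sum.elim θ (ν s)) (C * (S : ℝ) ^ 10) (cor τ μ u s j) := by
      intro S s hS hs hsS
      obtain ⟨V, -, hv, hz⟩ := htree τ μ hNrm.im hNrm.mu ty b c j hj u
        (fun s' hs' _ => hlam s' j hj hs') S s hS hsS (hlam s j hj hs)
      refine ⟨rep_lift θ (ν s) _ V.A V.Z _ hz.A hz.Z hv.z0 ?_,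
        rep_lift θ (ν s) _ V.N V.Z _ hz.N hz.Z hv.z0 hv.n⟩
      rw [hθ, hv.a, hu, pcI_true]
    exact ⟨⟨C, hC, fun S s hS hs hsS => (key S s hS hs hsS).1⟩,
      ⟨C, hC, fun S s hS hs hsS => (key S s hS hs hsS).2⟩⟩
  -- the function `z`
  have hz : UR θ ν (fun s => cmb s x) := by
    refine ur_congr (ur_nu (θ := θ) (ν := ν) none) fun s _ => ?_
    show ∑ i, ((s i : ℚ) : ℂ) * x i = cmb s x
    unfold cmb
    push_cast
    rfl
  -- the functions `Z`
  have hze : ∀ j : {j : Fin m₁ ⊕ Fin m₂ // ty j = Ty.ell},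
      UR θ ν (fun s => ze τ μ (b j * cmb s x)) := by
    rintro ⟨j | j, hj⟩
    · exact absurd hj (by simp [hty, ty2])
    · refine ur_congr (ur_add (hV _ hj).2 (ur_nu (θ := θ) (ν := ν) (some j))) fun s _ => ?_
      have e1 : ν s (some j) = ∑ i, (s i : ℂ) * ze τ μ (u i (Sum.inr j)) := by
        show ∑ i, ((s i : ℚ) : ℂ) * ze τ μ (μ * (b₂ j * x i)) = _
        refine Finset.sum_congr rfl fun i _ => ?_
        have : u i (Sum.inr j) = μ * (b₂ j * x i) := by
          show μ * b₂ j * x i = _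
          ring
        rw [this]
        push_cast
        rfl
      rw [e1]
      unfold cor
      rw [hu, pcI_true]
      ring
  -- the exponential functions
  have hexp : ∀ j : {j : Fin m₁ ⊕ Fin m₂ // ty j = Ty.mul},
      UR θ ν (fun s => Complex.exp (b j * cmb s x)) := by
    intro j
    have e : ∀ k : Fin n, θ (Sum.inr (Sum.inr (k, j.1, false))) = Complex.exp (b j * x k) := by
      intro k
      show PN τ μ ty c (fun j => b j * x k) j = _
      unfold PN
      rw [j.2]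
    have h2 : UR θ ν (fun s => ∏ k, θ (Sum.inr (Sum.inr (k, j.1, false))) ^ (s k)) :=
      ur_prod _ _ fun k _ => ur_zpow _ (by rw [e k]; exact Complex.exp_ne_zero _) k
    refine ur_congr h2 fun s _ => ?_
    have h3 : b j * cmb s x = ∑ k, (s k : ℂ) * (b j * x k) := by
      unfold cmb
      rw [Finset.mul_sum]
      exact Finset.sum_congr rfl fun k _ => by ring
    rw [h3, Complex.exp_sum]
    refine Finset.prod_congr rfl fun k _ => ?_
    rw [e k, ← Complex.exp_int_mul]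
  -- all functions
  let F : fI ty → (Fin n → ℤ) → ℂ := fun f s =>
    PN τ μ (fty ty) (fc ty) (fun j => fb ty b j * cmb s x) f
  have hF : ∀ f, UR θ ν (F f) := by
    rintro (⟨⟩ | j | ⟨j, e⟩)
    · exact ur_congr hz fun s _ => (val_z τ μ ty b _).symm
    · exact ur_congr (hexp j) fun s _ => (val_mul τ μ ty b _ j).symm
    · cases e
      · exact ur_congr (hze j) fun s _ => (val_ze τ μ ty b _ j).symm
      · exact ur_congr (hV j.1 j.2).1 fun s _ => (val_ell τ μ ty b _ j).symm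
  obtain ⟨A₀, hA₀, hR⟩ := ur_fam F hF
  have hcf := card_full ty
  rw [card_mul2, card_ell2] at hcf
  obtain ⟨S₀, hS₀, hmain⟩ := rel_of_rep2 h2 (K := fI ty) (by omega) θ B (e + r)
    (h1 E hE _ _ n e r θ B hTr hθE hrk) (by omega) A₀ hA₀ (15 * m + 10) (by omega)
  refine ⟨S₀, fun S hS s hs hsS => ?_⟩
  exact hmain S hS s hsS (fun f => F f s) fun f => hR f S s (hS₀.trans hS) hs hsS

end Pool.Agent.Work.MP_8da9ea_nt.MX
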