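import Pool.Agent.Work.MP_8da9ea_nt.MX.StmtsR
import Pool.Agent.Work.MP_8da9ea_nt.EB.Asm

/-!
# Mixed block, item R1: one elliptic point
-/

set_option autoImplicit false

namespace Pool.Agent.Work.MP_8da9ea_nt.MX

open MvPolynomial Pool.Agent.Work.MP_327059_nt.GL Pool.Agent.Work.MP_8da9ea_nt.S
  Pool.Agent.Work.MP_8da9ea_nt.EB

namespace I_RelStepM

section lin

variable {E F : Type} [AddCommGroup E] [Module ℂ E] [FiniteDimensional ℂ E]
  [AddCommGroup F] [Module ℂ F]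

/-- Rank and nullity for the restriction to a subspace. -/
lemma fr_ker (V : Submodule ℂ E) (f : E →ₗ[ℂ] F) :
    Module.finrank ℂ (V.map f) + Module.finrank ℂ ↥(V ⊓ LinearMap.ker f) =
      Module.finrank ℂ V := by
  have h1 := LinearMap.finrank_range_add_finrank_ker (f.domRestrict V)
  rw [LinearMap.range_domRestrict] at h1
  have h2 : LinearMap.ker (f.domRestrict V) = (V ⊓ LinearMap.ker f).comap V.subtype := by
    ext x
    simp only [LinearMap.mem_ker, LinearMap.domRestrict_apply, Submodule.mem_comap,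
      Submodule.coe_subtype, Submodule.mem_inf, SetLike.coe_mem, true_and]
  rw [h2, (Submodule.comapSubtypeEquivOfLe (inf_le_left : V ⊓ LinearMap.ker f ≤ V)).finrank_eq]
    at h1
  exact h1

lemma fr_fun (V : Submodule ℂ E) (f : E →ₗ[ℂ] ℂ) :
    Module.finrank ℂ V ≤ Module.finrank ℂ ↥(V ⊓ LinearMap.ker f) + 1 := by
  have h1 := fr_ker V f
  have h2 : Module.finrank ℂ (V.map f) ≤ 1 := by
    have h3 := Submodule.finrank_le (V.map f)
    rwa [Module.finrank_self] at h3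
  omega

lemma fr_fun' (V : Submodule ℂ E) (f : E →ₗ[ℂ] ℂ) (w : E) (hw : w ∈ V) (hf : f w ≠ 0) :
    Module.finrank ℂ ↥(V ⊓ LinearMap.ker f) + 1 ≤ Module.finrank ℂ V := by
  have h1 := fr_ker V f
  have h2 : Module.finrank ℂ (V.map f) ≠ 0 := by
    intro h3
    have h4 : V.map f = ⊥ := Submodule.finrank_eq_zero.mp h3
    have h5 : f w ∈ V.map f := Submodule.mem_map_of_mem hw
    rw [h4, Submodule.mem_bot] at h5
    exact hf h5
  omega

/-- The linear algebra of the step. -/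
lemma core (V : Submodule ℂ E) (p : E →ₗ[ℂ] F) (l1 l2 : E →ₗ[ℂ] ℂ)
    (hN : V ⊓ LinearMap.ker p = ⊥ ∨ ∃ n ∈ V, p n = 0 ∧ l2 n ≠ 0) :
    min (Module.finrank ℂ (V.map p) - 1) (Module.finrank ℂ V - 2) ≤
        Module.finrank ℂ ((V ⊓ LinearMap.ker l1 ⊓ LinearMap.ker l2).map p) ∧
      Module.finrank ℂ V ≤ Module.finrank ℂ ↥(V ⊓ LinearMap.ker l1 ⊓ LinearMap.ker l2) + 2 := by
  have h1 := fr_fun V l1
  have h2 := fr_fun (V ⊓ LinearMap.ker l1) l2
  have h3 := fr_ker V p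
  have h4 := fr_ker (V ⊓ LinearMap.ker l1 ⊓ LinearMap.ker l2) p
  refine ⟨?_, by omega⟩
  rcases hN with hN | ⟨n, hn, hpn, hln⟩
  · have h5 : V ⊓ LinearMap.ker l1 ⊓ LinearMap.ker l2 ⊓ LinearMap.ker p = ⊥ := by
      rw [eq_bot_iff, ← hN]
      exact inf_le_inf_right _ (inf_le_left.trans inf_le_left)
    rw [h5, finrank_bot] at h4
    exact (min_le_right _ _).trans (by omega)
  · have h5 : V ⊓ LinearMap.ker l1 ⊓ LinearMap.ker l2 ⊓ LinearMap.ker p ≤
        V ⊓ LinearMap.ker p ⊓ LinearMap.ker l2 := by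
      rintro x ⟨⟨⟨hx1, _⟩, hx2⟩, hx3⟩
      exact ⟨⟨hx1, hx3⟩, hx2⟩
    have h6 := Submodule.finrank_mono h5
    have h7 := fr_fun' (V ⊓ LinearMap.ker p) l2 n ⟨hn, hpn⟩ hln
    exact (min_le_left _ _).trans (by omega)

end lin

/-- A quadratic polynomial and an affine one, both not zero, do not vanish at some rational. -/
lemma exists_rat (A B C D E : ℂ) (h0 : A ≠ 0) (h1 : E ≠ 0) :
    ∃ t : ℚ, A + B * (t : ℂ) + C * (t : ℂ) ^ 2 ≠ 0 ∧ D + E * (t : ℂ) ≠ 0 := by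
  let P : Polynomial ℂ := (Polynomial.C A + Polynomial.C B * Polynomial.X +
    Polynomial.C C * Polynomial.X ^ 2) * (Polynomial.C D + Polynomial.C E * Polynomial.X)
  have hP1 : (Polynomial.C A + Polynomial.C B * Polynomial.X +
      Polynomial.C C * Polynomial.X ^ 2 : Polynomial ℂ) ≠ 0 := by
    intro h
    have h2 := congrArg (Polynomial.eval 0) h
    simp at h2
    exact h0 h2
  have hP2 : (Polynomial.C D + Polynomial.C E * Polynomial.X : Polynomial ℂ) ≠ 0 := by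
    intro h
    have h2 := congrArg (fun q => Polynomial.coeff q 1) h
    simp at h2
    exact h1 h2
  have hP : P ≠ 0 := mul_ne_zero hP1 hP2
  by_contra hcon
  push Not at hcon
  apply hP
  apply Polynomial.eq_zero_of_infinite_isRoot
  have hinf : (Set.range (fun t : ℚ => (t : ℂ))).Infinite :=
    Set.infinite_range_of_injective Rat.cast_injective
  refine hinf.mono ?_
  rintro _ ⟨t, rfl⟩
  show Polynomial.IsRoot P (t : ℂ)
  show Polynomial.eval (t : ℂ) P = 0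
  have h3 : Polynomial.eval (t : ℂ) P =
      (A + B * (t : ℂ) + C * (t : ℂ) ^ 2) * (D + E * (t : ℂ)) := by
    simp [P]
  rw [h3]
  by_cases h4 : A + B * (t : ℂ) + C * (t : ℂ) ^ 2 = 0
  · rw [h4, zero_mul]
  · rw [hcon t h4, mul_zero]

/-- the injection of the index sets -/
def inA (m : ℕ) : Option (Fin m ⊕ Fin m) → J3 m := fun o =>
  o.elim none (Sum.elim (fun j => some (Sum.inl j)) (fun j => some (Sum.inr (Sum.inl j))))

/-- the functionals -/
noncomputable def fu {J : Type} {m : ℕ} (c : Fin m → ℚ) (e : Fin m → J) : (J → ℂ) →ₗ[ℂ] ℂ :=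
  ∑ j, (c j : ℂ) • (LinearMap.proj (e j) : (J → ℂ) →ₗ[ℂ] ℂ)

lemma fu_apply {J : Type} {m : ℕ} (c : Fin m → ℚ) (e : Fin m → J) (w : J → ℂ) :
    fu c e w = ∑ j, (c j : ℂ) * w (e j) := by
  simp [fu]

lemma famA_eq (τ μ : ℂ) {m : ℕ} (b : Fin m → ℂ) (z : ℂ) :
    fam (mixA τ μ b z) = (LinearMap.funLeft ℂ ℂ (inA m)).comp (fam (mixB τ μ b z)) := by
  ext δ o
  rcases o with _ | j | j <;> rfl

lemma lamV_eq (τ μ : ℂ) {m : ℕ} (b : Fin m → ℂ) (z : ℂ) :
    lamV τ μ (fun j => μ * (b j * z)) =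
      (LinearMap.funLeft ℂ ℂ (fun j => (some (Sum.inr (Sum.inl j)) : J3 m))).comp
        (fam (mixB τ μ b z)) := by
  ext δ j
  rfl

end I_RelStepM

open I_RelStepM

theorem RelStepM_pf (h : S_RelStepE) : S_RelStepM := by
  intro τ μ hN K hK hμ hτ het hkap m b z hrk
  have hk1 : ∀ δ ∈ DK K, δ (μ * et τ) = 0 := fun δ hδ => hδ _ (K.mul_mem hμ het)
  have hk2 : ∀ δ ∈ DK K, δ (μ * (τ * et τ - kap)) = 0 := fun δ hδ =>
    hδ _ (K.mul_mem hμ (K.sub_mem (K.mul_mem hτ het) hkap))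
  let β : Fin m → ℂ := fun j => μ * (b j * z)
  have hlam : ∀ (c : Fin m → ℚ) (δ : Derivation ℚ ℂ ℂ),
      lam τ μ δ (∑ j, (c j : ℂ) * β j) = ∑ j, (c j : ℂ) * lam τ μ δ (β j) :=
    fun c δ => I_RelStepE.sum_rat (lam τ μ δ) (LamAdd_pf τ μ hN δ) c β
  have heta : ∀ (c : Fin m → ℚ) (δ : Derivation ℚ ℂ ℂ), δ ∈ DK K →
      etf τ μ δ (∑ j, (c j : ℂ) * β j) = ∑ j, (c j : ℂ) * etf τ μ δ (β j) :=
    fun c δ hδ => I_RelStepE.sum_rat (etf τ μ δ)
      (EtaAdd_pf LamAdd_pf τ μ hN δ (hk1 δ hδ) (hk2 δ hδ)) c β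
  obtain ⟨c₀, δ₁, hδ₁, δ₂, hδ₂, hdet⟩ := h τ μ hN K hK hμ hτ het hkap m β hrk
  rw [hlam, hlam, heta _ _ hδ₁, heta _ _ hδ₂] at hdet
  -- the spaces
  set V : Submodule ℂ (J3 m → ℂ) := (DK K).map (fam (mixB τ μ b z)) with hV
  let p : (J3 m → ℂ) →ₗ[ℂ] (Option (Fin m ⊕ Fin m) → ℂ) := LinearMap.funLeft ℂ ℂ (inA m)
  let eL : Fin m → J3 m := fun j => some (Sum.inr (Sum.inl j))
  let eE : Fin m → J3 m := fun j => some (Sum.inr (Sum.inr j))
  -- the choice of `c`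
  have hch : ∃ c : Fin m → ℚ,
      (∑ j, (c j : ℂ) * lam τ μ δ₁ (β j)) * (∑ j, (c j : ℂ) * etf τ μ δ₂ (β j)) ≠
        (∑ j, (c j : ℂ) * lam τ μ δ₂ (β j)) * (∑ j, (c j : ℂ) * etf τ μ δ₁ (β j)) ∧
      (V ⊓ LinearMap.ker p = ⊥ ∨ ∃ n ∈ V, p n = 0 ∧ fu c eE n ≠ 0) := by
    by_cases hbot : V ⊓ LinearMap.ker p = ⊥
    · exact ⟨c₀, hdet, Or.inl hbot⟩
    · obtain ⟨n, hn, hn0⟩ := Submodule.exists_mem_ne_zero_of_ne_bot hbot
      have hpn : p n = 0 := hn.2
      have hj : ∃ j, n (eE j) ≠ 0 := by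
        by_contra hcon
        push Not at hcon
        apply hn0
        funext o
        rcases o with _ | j | j | j
        · exact congrFun hpn none
        · exact congrFun hpn (some (Sum.inl j))
        · exact congrFun hpn (some (Sum.inr j))
        · exact hcon j
      obtain ⟨j₀, hj₀⟩ := hj
      -- the line `c₀ + t e_{j₀}`
      have hline : ∀ (t : ℚ) (g : Fin m → ℂ),
          ∑ j, (((c₀ + t • Pi.single j₀ (1 : ℚ) : Fin m → ℚ) j : ℚ) : ℂ) * g j =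
            ∑ j, (c₀ j : ℂ) * g j + g j₀ * (t : ℂ) := by
        intro t g
        have h1 : ∀ j, (((c₀ + t • Pi.single j₀ (1 : ℚ) : Fin m → ℚ) j : ℚ) : ℂ) * g j =
            (c₀ j : ℂ) * g j + (if j = j₀ then (t : ℂ) * g j else 0) := by
          intro j
          rw [Pi.add_apply, Pi.smul_apply, smul_eq_mul]
          by_cases hjj : j = j₀
          · subst hjj
            rw [Pi.single_eq_same, if_pos rfl]
            push_cast
            ring
          · rw [Pi.single_eq_of_ne hjj, if_neg hjj]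
            push_cast
            ring
        rw [Finset.sum_congr rfl fun j _ => h1 j, Finset.sum_add_distrib,
          Finset.sum_ite_eq' Finset.univ j₀, if_pos (Finset.mem_univ _)]
        ring
      set a1 := ∑ j, (c₀ j : ℂ) * lam τ μ δ₁ (β j)
      set a2 := ∑ j, (c₀ j : ℂ) * lam τ μ δ₂ (β j)
      set e1 := ∑ j, (c₀ j : ℂ) * etf τ μ δ₁ (β j)
      set e2 := ∑ j, (c₀ j : ℂ) * etf τ μ δ₂ (β j)
      obtain ⟨t, ht1, ht2⟩ := exists_rat (a1 * e2 - a2 * e1)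
        (a1 * etf τ μ δ₂ (β j₀) + lam τ μ δ₁ (β j₀) * e2 - a2 * etf τ μ δ₁ (β j₀) -
          lam τ μ δ₂ (β j₀) * e1)
        (lam τ μ δ₁ (β j₀) * etf τ μ δ₂ (β j₀) - lam τ μ δ₂ (β j₀) * etf τ μ δ₁ (β j₀))
        (∑ j, (c₀ j : ℂ) * n (eE j)) (n (eE j₀)) (sub_ne_zero.2 hdet) hj₀
      refine ⟨c₀ + t • Pi.single j₀ (1 : ℚ), ?_, Or.inr ⟨n, hn.1, hpn, ?_⟩⟩
      · rw [hline, hline, hline, hline]
        intro h2
        apply ht1
        linear_combination h2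
      · rw [fu_apply, hline t (fun j => n (eE j))]
        exact ht2
  obtain ⟨c, hc1, hc2⟩ := hch
  have hP : ePt μ b z c = ∑ j, (c j : ℂ) * β j := rfl
  have hL : ∀ δ, lam τ μ δ (ePt μ b z c) = fu c eL (fam (mixB τ μ b z) δ) := by
    intro δ
    rw [hP, hlam, fu_apply]
    rfl
  have hE : ∀ δ ∈ DK K, etf τ μ δ (ePt μ b z c) = fu c eE (fam (mixB τ μ b z) δ) := by
    intro δ hδ
    rw [hP, heta c δ hδ, fu_apply]
    rfl
  -- independence
  have hind : ∀ a a' : ℂ, (∀ δ ∈ DK K, a * lam τ μ δ (ePt μ b z c) +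
      a' * etf τ μ δ (ePt μ b z c) = 0) → a = 0 ∧ a' = 0 := by
    intro a a' h1
    have h2 := h1 δ₁ hδ₁
    have h3 := h1 δ₂ hδ₂
    rw [hP, hlam, heta c _ hδ₁] at h2
    rw [hP, hlam, heta c _ hδ₂] at h3
    have h4 := sub_ne_zero.2 hc1
    constructor
    · apply (mul_eq_zero.1 (?_ : a * _ = 0)).resolve_right h4
      linear_combination (∑ j, (c j : ℂ) * etf τ μ δ₂ (β j)) * h2 -
        (∑ j, (c j : ℂ) * etf τ μ δ₁ (β j)) * h3
    · apply (mul_eq_zero.1 (?_ : a' * _ = 0)).resolve_right h4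
      linear_combination (∑ j, (c j : ℂ) * lam τ μ δ₁ (β j)) * h3 -
        (∑ j, (c j : ℂ) * lam τ μ δ₂ (β j)) * h2
  have hex : ∃ δ ∈ DK K, lam τ μ δ (ePt μ b z c) ≠ 0 := by
    by_contra hcon
    push Not at hcon
    have h1 := hind 1 0 (fun δ hδ => by rw [hcon δ hδ]; ring)
    exact one_ne_zero h1.1
  obtain ⟨δ₃, hδ₃, hne₃⟩ := hex
  refine ⟨c, ?_, hind, ?_⟩
  · intro h1
    apply hne₃
    unfold lam
    rw [if_pos h1]
  · intro T₁ hT₁
    have hcore := core V p (fu c eL) (fu c eE) hc2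
    have hmapB : T₁.map (fam (mixB τ μ b z)) =
        V ⊓ LinearMap.ker (fu c eL) ⊓ LinearMap.ker (fu c eE) := by
      ext w
      constructor
      · rintro ⟨δ, hδ, rfl⟩
        obtain ⟨h1, h2, h3⟩ := (hT₁ δ).1 hδ
        refine ⟨⟨⟨δ, h1, rfl⟩, ?_⟩, ?_⟩
        · show fu c eL _ = 0
          rw [← hL]
          exact h2
        · show fu c eE _ = 0
          rw [← hE δ h1]
          exact h3
      · rintro ⟨⟨⟨δ, h1, rfl⟩, h2⟩, h3⟩
        rw [SetLike.mem_coe, LinearMap.mem_ker, ← hL] at h2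
        rw [SetLike.mem_coe, LinearMap.mem_ker, ← hE δ h1] at h3
        exact ⟨δ, (hT₁ δ).2 ⟨h1, h2, h3⟩, rfl⟩
    have hA : ∀ T : Submodule ℂ (Derivation ℚ ℂ ℂ), rA τ μ b z T =
        Module.finrank ℂ ((T.map (fam (mixB τ μ b z))).map p) := by
      intro T
      unfold rA
      rw [famA_eq, Submodule.map_comp]
    have hB : ∀ T : Submodule ℂ (Derivation ℚ ℂ ℂ), rB τ μ b z T =
        Module.finrank ℂ (T.map (fam (mixB τ μ b z))) := fun T => rfl
    refine ⟨?_, ?_, ?_⟩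
    · rw [hA, hA, hB, hmapB]
      exact hcore.1
    · rw [hB, hB, hmapB]
      exact hcore.2
    · unfold rL
      let l : (Fin m → ℂ) →ₗ[ℂ] ℂ := fu c id
      have hl : ∀ δ, lam τ μ δ (ePt μ b z c) = l (lamV τ μ (fun j => μ * (b j * z)) δ) := by
        intro δ
        rw [hP, hlam]
        show _ = fu c id _
        rw [fu_apply]
        rfl
      have h1 : T₁.map (lamV τ μ fun j => μ * (b j * z)) ≤
          (DK K).map (lamV τ μ fun j => μ * (b j * z)) ⊓ LinearMap.ker l := by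
        rintro _ ⟨δ, hδ, rfl⟩
        obtain ⟨h1, h2, _⟩ := (hT₁ δ).1 hδ
        refine ⟨⟨δ, h1, rfl⟩, ?_⟩
        rw [SetLike.mem_coe, LinearMap.mem_ker, ← hl]
        exact h2
      have h2 := Submodule.finrank_mono h1
      have h3 := fr_fun' ((DK K).map (lamV τ μ fun j => μ * (b j * z))) l
        (lamV τ μ (fun j => μ * (b j * z)) δ₃) ⟨δ₃, hδ₃, rfl⟩ (by rw [← hl]; exact hne₃)
      omega

end Pool.Agent.Work.MP_8da9ea_nt.MX
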