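import Pool.Agent.Work.MP_8da9ea_nt.MX.StmtsF
import Pool.Agent.Work.MP_8da9ea_nt.MX.I_RelStepM

/-!
# Mixed block, lossless version, item F4: one elliptic point
-/

set_option autoImplicit false

namespace Pool.Agent.Work.MP_8da9ea_nt.MX

open MvPolynomial Pool.Agent.Work.MP_327059_nt.GL Pool.Agent.Work.MP_8da9ea_nt.S
  Pool.Agent.Work.MP_8da9ea_nt.EB

namespace I_RelStepF

open I_RelStepM

/-- Two nonzero linear forms do not vanish at some rational point. -/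
lemma exists_rat_vec {m : ℕ} (f g : Fin m → ℂ) (i j : Fin m) (hi : f i ≠ 0) (hj : g j ≠ 0) :
    ∃ c : Fin m → ℚ, ∑ k, (c k : ℂ) * f k ≠ 0 ∧ ∑ k, (c k : ℂ) * g k ≠ 0 := by
  have hs : ∀ (h : Fin m → ℂ) (k : Fin m),
      ∑ l, ((Pi.single k (1 : ℚ) : Fin m → ℚ) l : ℂ) * h l = h k := by
    intro h k
    rw [Finset.sum_eq_single k]
    · rw [Pi.single_eq_same]
      simp
    · intro l _ hl
      rw [Pi.single_eq_of_ne hl]
      simp
    · intro h1
      exact absurd (Finset.mem_univ k) h1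
  have hadd : ∀ (h : Fin m → ℂ), ∑ l, ((Pi.single i (1 : ℚ) + Pi.single j (1 : ℚ) : Fin m → ℚ) l : ℂ) * h l =
      h i + h j := by
    intro h
    have h1 : ∀ l, (((Pi.single i (1 : ℚ) + Pi.single j (1 : ℚ) : Fin m → ℚ) l : ℚ) : ℂ) * h l =
        ((Pi.single i (1 : ℚ) : Fin m → ℚ) l : ℂ) * h l + ((Pi.single j (1 : ℚ) : Fin m → ℚ) l : ℂ) * h l := by
      intro l
      rw [Pi.add_apply]
      push_cast
      ring
    rw [Finset.sum_congr rfl fun l _ => h1 l, Finset.sum_add_distrib, hs, hs]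
  have hsub : ∀ (h : Fin m → ℂ), ∑ l, ((Pi.single i (1 : ℚ) - Pi.single j (1 : ℚ) : Fin m → ℚ) l : ℂ) * h l =
      h i - h j := by
    intro h
    have h1 : ∀ l, (((Pi.single i (1 : ℚ) - Pi.single j (1 : ℚ) : Fin m → ℚ) l : ℚ) : ℂ) * h l =
        ((Pi.single i (1 : ℚ) : Fin m → ℚ) l : ℂ) * h l - ((Pi.single j (1 : ℚ) : Fin m → ℚ) l : ℂ) * h l := by
      intro l
      rw [Pi.sub_apply]
      push_cast
      ring
    rw [Finset.sum_congr rfl fun l _ => h1 l, Finset.sum_sub_distrib, hs, hs]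
  by_cases h1 : g i = 0
  · by_cases h2 : f j = 0
    · refine ⟨Pi.single i (1 : ℚ) + Pi.single j (1 : ℚ), ?_, ?_⟩
      · rw [hadd, h2, add_zero]
        exact hi
      · rw [hadd, h1, zero_add]
        exact hj
    · exact ⟨Pi.single j (1 : ℚ), by rw [hs]; exact h2, by rw [hs]; exact hj⟩
  · exact ⟨Pi.single i (1 : ℚ), by rw [hs]; exact hi, by rw [hs]; exact h1⟩

/-- the injection of the index sets -/
def inA2 (m m' : ℕ) : Option (Fin m ⊕ Fin m') → J4 m m' := fun o =>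
  o.elim none (Sum.elim (fun j => some (Sum.inl j)) (fun j => some (Sum.inr (Sum.inl j))))

lemma famA2_eq (τ μ : ℂ) {m m' : ℕ} (b : Fin m → ℂ) (b' : Fin m' → ℂ) (z : ℂ) :
    fam (mixA2 τ μ b b' z) =
      (LinearMap.funLeft ℂ ℂ (inA2 m m')).comp (fam (mixB2 τ μ b b' z)) := by
  ext δ o
  rcases o with _ | j | j <;> rfl

lemma lamV2_eq (τ μ : ℂ) {m m' : ℕ} (b : Fin m → ℂ) (b' : Fin m' → ℂ) (z : ℂ) :
    lamV τ μ (fun j => μ * (b' j * z)) =
      (LinearMap.funLeft ℂ ℂ (fun j => (some (Sum.inr (Sum.inl j)) : J4 m m'))).comp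
        (fam (mixB2 τ μ b b' z)) := by
  ext δ j
  rfl

/-- A vector of `V` with `A`-coordinates zero. -/
lemma exists_ker {m m' : ℕ} (V : Submodule ℂ (J4 m m' → ℂ))
    (h : m + 2 + Module.finrank ℂ (V.map (LinearMap.funLeft ℂ ℂ
      (fun j => (some (Sum.inr (Sum.inl j)) : J4 m m')))) ≤ Module.finrank ℂ V) :
    V ⊓ LinearMap.ker (LinearMap.funLeft ℂ ℂ (inA2 m m')) ≠ ⊥ := by
  intro hbot
  set L : (J4 m m' → ℂ) →ₗ[ℂ] (Fin m' → ℂ) := LinearMap.funLeft ℂ ℂ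
      (fun j => (some (Sum.inr (Sum.inl j)) : J4 m m')) with hL
  have h1 := fr_ker V L
  let Z : (J4 m m' → ℂ) →ₗ[ℂ] (Option (Fin m) → ℂ) := LinearMap.funLeft ℂ ℂ
      (fun o : Option (Fin m) => (o.elim none (fun j => some (Sum.inl j)) : J4 m m'))
  have h2 := fr_ker (V ⊓ LinearMap.ker L) Z
  have h3 : Module.finrank ℂ ((V ⊓ LinearMap.ker L).map Z) ≤ m + 1 := by
    have h4 := Submodule.finrank_le ((V ⊓ LinearMap.ker L).map Z)
    rw [Module.finrank_fintype_fun_eq_card, Fintype.card_option, Fintype.card_fin] at h4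
    exact h4
  have h5 : V ⊓ LinearMap.ker L ⊓ LinearMap.ker Z ≤ ⊥ := by
    rw [← hbot]
    rintro x ⟨⟨hx1, hx2⟩, hx3⟩
    refine ⟨hx1, ?_⟩
    rw [SetLike.mem_coe, LinearMap.mem_ker] at hx2 hx3 ⊢
    funext o
    rcases o with _ | j | j
    · exact congrFun hx3 none
    · exact congrFun hx3 (some j)
    · exact congrFun hx2 j
  have h6 : Module.finrank ℂ ↥(V ⊓ LinearMap.ker L ⊓ LinearMap.ker Z) = 0 := by
    rw [le_bot_iff.1 h5, finrank_bot]
  omega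

end I_RelStepF

open I_RelStepM I_RelStepF

theorem RelStepF_pf : S_RelStepF := by
  intro τ μ hN K hK hμ hτ het hkap m m' b b' z hrk1 hrk2
  have hk1 : ∀ δ ∈ DK K, δ (μ * et τ) = 0 := fun δ hδ => hδ _ (K.mul_mem hμ het)
  have hk2 : ∀ δ ∈ DK K, δ (μ * (τ * et τ - kap)) = 0 := fun δ hδ =>
    hδ _ (K.mul_mem hμ (K.sub_mem (K.mul_mem hτ het) hkap))
  let β : Fin m' → ℂ := fun j => μ * (b' j * z)
  have hlam : ∀ (c : Fin m' → ℚ) (δ : Derivation ℚ ℂ ℂ),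
      lam τ μ δ (∑ j, (c j : ℂ) * β j) = ∑ j, (c j : ℂ) * lam τ μ δ (β j) :=
    fun c δ => I_RelStepE.sum_rat (lam τ μ δ) (LamAdd_pf τ μ hN δ) c β
  have heta : ∀ (c : Fin m' → ℚ) (δ : Derivation ℚ ℂ ℂ), δ ∈ DK K →
      etf τ μ δ (∑ j, (c j : ℂ) * β j) = ∑ j, (c j : ℂ) * etf τ μ δ (β j) :=
    fun c δ hδ => I_RelStepE.sum_rat (etf τ μ δ)
      (EtaAdd_pf LamAdd_pf τ μ hN δ (hk1 δ hδ) (hk2 δ hδ)) c β
  -- the spaces
  set V : Submodule ℂ (J4 m m' → ℂ) := (DK K).map (fam (mixB2 τ μ b b' z)) with hV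
  let p : (J4 m m' → ℂ) →ₗ[ℂ] (Option (Fin m ⊕ Fin m') → ℂ) := LinearMap.funLeft ℂ ℂ (inA2 m m')
  let eL : Fin m' → J4 m m' := fun j => some (Sum.inr (Sum.inl j))
  let eE : Fin m' → J4 m m' := fun j => some (Sum.inr (Sum.inr j))
  have hrB : rB2 τ μ b b' z (DK K) = Module.finrank ℂ V := rfl
  have hrL : rL2 τ μ b' z (DK K) = Module.finrank ℂ (V.map (LinearMap.funLeft ℂ ℂ eL)) := by
    unfold rL2
    rw [lamV2_eq τ μ b b' z, Submodule.map_comp]
  -- the vector `n`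
  have hne : V ⊓ LinearMap.ker p ≠ ⊥ := by
    apply exists_ker
    rw [hrB, hrL] at hrk2
    exact hrk2
  obtain ⟨n, hn, hn0⟩ := Submodule.exists_mem_ne_zero_of_ne_bot hne
  have hpn : p n = 0 := hn.2
  have hnL : ∀ j, n (eL j) = 0 := fun j => congrFun hpn (some (Sum.inr j))
  have hj : ∃ j, n (eE j) ≠ 0 := by
    by_contra hcon
    push Not at hcon
    apply hn0
    funext o
    rcases o with _ | j | j | j
    · exact congrFun hpn none
    · exact congrFun hpn (some (Sum.inl j))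
    · exact congrFun hpn (some (Sum.inr j))
    · exact hcon j
  obtain ⟨j₁, hj₁⟩ := hj
  -- the vector `v₀`
  have hv : ∃ v ∈ V, ∃ j, v (eL j) ≠ 0 := by
    by_contra hcon
    push Not at hcon
    have h1 : V.map (LinearMap.funLeft ℂ ℂ eL) = ⊥ := by
      rw [eq_bot_iff]
      rintro _ ⟨v, hv, rfl⟩
      rw [Submodule.mem_bot]
      funext j
      exact hcon v hv j
    rw [hrL, h1, finrank_bot] at hrk1
    omega
  obtain ⟨v₀, hv₀, j₀, hj₀⟩ := hv
  obtain ⟨c, hcL, hcE⟩ := exists_rat_vec (fun j => v₀ (eL j)) (fun j => n (eE j)) j₀ j₁ hj₀ hj₁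
  have hP : ePt2 μ b' z c = ∑ j, (c j : ℂ) * β j := rfl
  have hL : ∀ δ, lam τ μ δ (ePt2 μ b' z c) = fu c eL (fam (mixB2 τ μ b b' z) δ) := by
    intro δ
    rw [hP, hlam, fu_apply]
    rfl
  have hE : ∀ δ ∈ DK K, etf τ μ δ (ePt2 μ b' z c) = fu c eE (fam (mixB2 τ μ b b' z) δ) := by
    intro δ hδ
    rw [hP, heta c δ hδ, fu_apply]
    rfl
  have hcLv : fu c eL v₀ ≠ 0 := by
    rw [fu_apply]
    exact hcL
  have hcEn : fu c eE n ≠ 0 := by
    rw [fu_apply]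
    exact hcE
  have hcLn : fu c eL n = 0 := by
    rw [fu_apply]
    exact Finset.sum_eq_zero fun j _ => by rw [hnL j, mul_zero]
  obtain ⟨δ₀, hδ₀, hδv⟩ := hv₀
  obtain ⟨δ₁, hδ₁, hδn⟩ := hn.1
  -- independence
  have hind : ∀ a a' : ℂ, (∀ δ ∈ DK K, a * lam τ μ δ (ePt2 μ b' z c) +
      a' * etf τ μ δ (ePt2 μ b' z c) = 0) → a = 0 ∧ a' = 0 := by
    intro a a' h1
    have h2 := h1 δ₁ hδ₁
    rw [hL, hE δ₁ hδ₁, hδn, hcLn, mul_zero, zero_add] at h2
    have h3 : a' = 0 := (mul_eq_zero.1 h2).resolve_right hcEn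
    have h4 := h1 δ₀ hδ₀
    rw [h3, zero_mul, add_zero, hL, hδv] at h4
    exact ⟨(mul_eq_zero.1 h4).resolve_right hcLv, h3⟩
  have hne₀ : lam τ μ δ₀ (ePt2 μ b' z c) ≠ 0 := by
    rw [hL, hδv]
    exact hcLv
  refine ⟨c, ?_, hind, ?_⟩
  · intro h1
    apply hne₀
    unfold lam
    rw [if_pos h1]
  · intro T₁ hT₁
    have hcore := core V p (fu c eL) (fu c eE) (Or.inr ⟨n, hn.1, hpn, hcEn⟩)
    have hmapB : T₁.map (fam (mixB2 τ μ b b' z)) =
        V ⊓ LinearMap.ker (fu c eL) ⊓ LinearMap.ker (fu c eE) := by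
      ext w
      constructor
      · rintro ⟨δ, hδ, rfl⟩
        obtain ⟨h1, h2, h3⟩ := (hT₁ δ).1 hδ
        refine ⟨⟨⟨δ, h1, rfl⟩, ?_⟩, ?_⟩
        · show fu c eL _ = 0
          rw [← hL]
          exact h2
        · show fu c eE _ = 0
          rw [← hE δ h1]
          exact h3
      · rintro ⟨⟨⟨δ, h1, rfl⟩, h2⟩, h3⟩
        rw [SetLike.mem_coe, LinearMap.mem_ker, ← hL] at h2
        rw [SetLike.mem_coe, LinearMap.mem_ker, ← hE δ h1] at h3
        exact ⟨δ, (hT₁ δ).2 ⟨h1, h2, h3⟩, rfl⟩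
    have hA : ∀ T : Submodule ℂ (Derivation ℚ ℂ ℂ), rA2 τ μ b b' z T =
        Module.finrank ℂ ((T.map (fam (mixB2 τ μ b b' z))).map p) := by
      intro T
      unfold rA2
      rw [famA2_eq, Submodule.map_comp]
    have hB : ∀ T : Submodule ℂ (Derivation ℚ ℂ ℂ), rB2 τ μ b b' z T =
        Module.finrank ℂ (T.map (fam (mixB2 τ μ b b' z))) := fun T => rfl
    refine ⟨?_, ?_, ?_⟩
    · rw [hA, hA, hB, hmapB]
      exact hcore.1
    · rw [hB, hB, hmapB]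
      exact hcore.2
    · unfold rL2
      let l : (Fin m' → ℂ) →ₗ[ℂ] ℂ := fu c id
      have hl : ∀ δ, lam τ μ δ (ePt2 μ b' z c) = l (lamV τ μ (fun j => μ * (b' j * z)) δ) := by
        intro δ
        rw [hP, hlam]
        show _ = fu c id _
        rw [fu_apply]
        rfl
      have h1 : T₁.map (lamV τ μ fun j => μ * (b' j * z)) ≤
          (DK K).map (lamV τ μ fun j => μ * (b' j * z)) ⊓ LinearMap.ker l := by
        rintro _ ⟨δ, hδ, rfl⟩
        obtain ⟨h1, h2, _⟩ := (hT₁ δ).1 hδ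
        refine ⟨⟨δ, h1, rfl⟩, ?_⟩
        rw [SetLike.mem_coe, LinearMap.mem_ker, ← hl]
        exact h2
      have h2 := Submodule.finrank_mono h1
      have h3 := fr_fun' ((DK K).map (lamV τ μ fun j => μ * (b' j * z))) l
        (lamV τ μ (fun j => μ * (b' j * z)) δ₀) ⟨δ₀, hδ₀, rfl⟩ (by rw [← hl]; exact hne₀)
      omega

end Pool.Agent.Work.MP_8da9ea_nt.MX
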