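import Pool.Agent.Work.MP_8da9ea_nt.MX.StmtsF

/-!
# Mixed block, item RkV (L3): the rank of the combinations at an arbitrary complex point
-/

set_option autoImplicit false

namespace Pool.Agent.Work.MP_8da9ea_nt.MX

open MvPolynomial Pool.Agent.Work.MP_327059_nt.GL Pool.Agent.Work.MP_8da9ea_nt.S
  Pool.Agent.Work.MP_8da9ea_nt.EB

namespace I_RkV

/-- A nonzero polynomial does not vanish at some rational point. -/
lemma exists_rat {n : ℕ} (P : MvPolynomial (Fin n) ℂ) (hP : P ≠ 0) :
    ∃ w : Fin n → ℚ, eval (fun i => (w i : ℂ)) P ≠ 0 := by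
  by_contra hcon
  push Not at hcon
  refine hP ?_
  refine MvPolynomial.funext_set (fun _ => Set.range ((↑) : ℚ → ℂ))
    (fun _ => Set.infinite_range_of_injective Rat.cast_injective) fun x hx => ?_
  have h1 : ∀ i, ∃ q : ℚ, (q : ℂ) = x i := fun i => hx i (Set.mem_univ i)
  choose w hw using h1
  have h2 := hcon w
  have h3 : (fun i => (w i : ℂ)) = x := funext hw
  rw [h3] at h2
  rw [h2, map_zero]

lemma mvJ_eq {n : ℕ} {κ : Type} (v : Fin n → ℂ) (β : Fin n → κ → ℂ) :
    mvJ v β = ∑ i, v i • β i := by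
  funext j
  rw [Finset.sum_apply]
  rfl

/-- Semicontinuity of the rank of `W ↦ ∑ v_i W_i`, with rational points. -/
lemma exists_w {n : ℕ} {κ : Type} [Fintype κ] (W : Submodule ℂ (Fin n → κ → ℂ)) (v : Fin n → ℂ)
    (k : ℕ) (hk : k ≤ Module.finrank ℂ (W.map (mvJ v))) :
    ∃ w : Fin n → ℚ, k ≤ Module.finrank ℂ (W.map (mvJ fun i => (w i : ℂ))) := by
  classical
  obtain ⟨z, hz⟩ := exists_linearIndependent_of_le_finrank hk
  have hz' : LinearIndependent ℂ (fun p => (z p : κ → ℂ)) :=
    hz.map' (W.map (mvJ v)).subtype (Submodule.ker_subtype _)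
  have hb : ∀ p, ∃ β ∈ W, mvJ v β = (z p : κ → ℂ) := fun p => (z p).2
  choose β hβW hβ using hb
  -- a left inverse
  have hinj : LinearMap.ker (Fintype.linearCombination ℂ (fun p => (z p : κ → ℂ))) = ⊥ :=
    LinearMap.ker_eq_bot.2 (linearIndependent_iff_injective_fintypeLinearCombination.1 hz')
  obtain ⟨g, hg⟩ := LinearMap.exists_leftInverse_of_injective _ hinj
  have hg1 : ∀ p, g (z p : κ → ℂ) = Pi.single p 1 := by
    intro p
    have h1 := LinearMap.congr_fun hg (Pi.single p 1)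
    rw [LinearMap.comp_apply, Fintype.linearCombination_apply_single, one_smul] at h1
    exact h1
  let P : MvPolynomial (Fin n) ℂ :=
    Matrix.det (Matrix.of fun p q : Fin k => ∑ i, X i * C (g (β p i) q))
  have hev : ∀ x : Fin n → ℂ, eval x P = Matrix.det (Matrix.of fun p => g (mvJ x (β p))) := by
    intro x
    change eval x (Matrix.det _) = _
    rw [RingHom.map_det]
    congr 1
    ext p q
    simp only [RingHom.mapMatrix_apply, Matrix.map_apply, Matrix.of_apply, map_sum, map_mul,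
      eval_X, eval_C]
    rw [mvJ_eq, map_sum, Finset.sum_apply]
    refine Finset.sum_congr rfl fun i _ => ?_
    rw [map_smul]
    rfl
  have hP : P ≠ 0 := by
    intro h0
    have h1 := hev v
    rw [h0, map_zero] at h1
    have h2 : (Matrix.of fun p => g (mvJ v (β p))) = (1 : Matrix (Fin k) (Fin k) ℂ) := by
      ext p q
      rw [Matrix.of_apply, hβ, hg1, Matrix.one_apply, Pi.single_apply]
      simp only [eq_comm]
    rw [h2, Matrix.det_one] at h1
    exact zero_ne_one h1
  obtain ⟨w, hw⟩ := exists_rat P hP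
  refine ⟨w, ?_⟩
  rw [hev] at hw
  have h3 : LinearIndependent ℂ (fun p => g (mvJ (fun i => (w i : ℂ)) (β p))) :=
    Matrix.linearIndependent_rows_of_det_ne_zero hw
  have h4 : LinearIndependent ℂ (fun p => mvJ (fun i => (w i : ℂ)) (β p)) := by
    refine LinearIndependent.of_comp g ?_
    exact h3
  have h5 : LinearIndependent ℂ (fun p =>
      (⟨mvJ (fun i => (w i : ℂ)) (β p), Submodule.mem_map_of_mem (hβW p)⟩ :
        W.map (mvJ fun i => (w i : ℂ)))) := by
    refine LinearIndependent.of_comp (W.map (mvJ fun i => (w i : ℂ))).subtype ?_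
    exact h4
  have h6 := h5.fintype_card_le_finrank
  rwa [Fintype.card_fin] at h6

lemma rat_der (δ : Derivation ℚ ℂ ℂ) (q : ℚ) (a : ℂ) : δ ((q : ℂ) * a) = (q : ℂ) * δ a := by
  have h := δ.map_smul q a
  rw [Rat.smul_def, Rat.smul_def] at h
  exact h

end I_RkV

open I_RkV in
/-- **L3.** -/
theorem RkV_pf : S_RkV := by
  intro E n κ _ A r hr v
  by_contra hcon
  push Not at hcon
  let Φ : Derivation ℚ ℂ ℂ →ₗ[ℂ] (Fin n → κ → ℂ) := LinearMap.pi fun i => fam fun l => dL (A i l)
  have h1 : (DK E ⊓ TT v).map (fam fun l => dL (cC v A l)) ≤ ((DK E).map Φ).map (mvJ v) := by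
    rintro y ⟨δ, hδ, rfl⟩
    refine ⟨Φ δ, ⟨δ, hδ.1, rfl⟩, ?_⟩
    funext l
    change ∑ i, v i * δ (A i l) = δ (∑ i, v i * A i l)
    rw [map_sum]
    refine Finset.sum_congr rfl fun i _ => ?_
    rw [Derivation.leibniz, smul_eq_mul, smul_eq_mul]
    have : δ (v i) = 0 := hδ.2 i
    rw [this, mul_zero, add_zero]
  have h2 := Submodule.finrank_mono h1
  obtain ⟨w, hw⟩ := exists_w ((DK E).map Φ) v (r + 1) (le_trans hcon h2)
  have h3 : ((DK E).map Φ).map (mvJ fun i => (w i : ℂ)) =
      (DK E).map (fam fun l => dL (cQ w A l)) := by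
    rw [← Submodule.map_comp]
    congr 1
    refine LinearMap.ext fun δ => ?_
    funext l
    change ∑ i, (w i : ℂ) * δ (A i l) = δ (∑ i, (w i : ℂ) * A i l)
    rw [map_sum]
    exact Finset.sum_congr rfl fun i _ => (rat_der δ (w i) (A i l)).symm
  rw [h3] at hw
  have h4 := hr w
  unfold rkD at h4
  omega

end Pool.Agent.Work.MP_8da9ea_nt.MX
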