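import Pool.Agent.Work.MP_8da9ea_nt.MX.StmtsF

/-!
# Mixed block: semicontinuity of the dimension under specialisation
-/

set_option autoImplicit false

namespace Pool.Agent.Work.MP_8da9ea_nt.MX

open MvPolynomial

namespace SemiF

/-- Linearly independent special values have linearly independent generic values. -/
theorem core {ι : Type} [Fintype ι] (F : IntermediateField ℚ ℂ) (n : ℕ) (v : Fin n → ℂ)
    (hv : AlgebraicIndependent F v) (w : Fin n → ℚ) (M : ι → MvPolynomial (Fin n) F)
    (hM : LinearIndependent ℚ (fun i => aeval (fun j => ((w j : ℚ) : ℂ)) (M i)))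
    (c : ι → MvPolynomial (Fin n) ℚ)
    (hc : ∑ i, aeval v (c i) * aeval v (M i) = 0) : c = 0 := by
  classical
  by_contra hne
  set S : MvPolynomial (Fin n) F →ₐ[F] MvPolynomial (Fin n) F :=
    aeval (fun j => X j + C (algebraMap ℚ F (w j))) with hS
  set SQ : MvPolynomial (Fin n) ℚ →ₐ[ℚ] MvPolynomial (Fin n) ℚ :=
    aeval (fun j => X j + C (w j)) with hSQ
  set SQ' : MvPolynomial (Fin n) ℚ →ₐ[ℚ] MvPolynomial (Fin n) ℚ :=
    aeval (fun j => X j - C (w j)) with hSQ'
  have hinv : ∀ p, SQ' (SQ p) = p := by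
    intro p
    have : (SQ'.comp SQ) = AlgHom.id ℚ _ := by
      apply MvPolynomial.algHom_ext
      intro j
      rw [AlgHom.comp_apply, hSQ, aeval_X, map_add, hSQ', aeval_X, ← algebraMap_eq,
        AlgHom.commutes]
      simp
    exact congrArg (fun f => f p) this
  -- the relation as polynomials
  have h1 : ∑ i, MvPolynomial.map (algebraMap ℚ F) (c i) * M i = 0 := by
    apply (algebraicIndependent_iff.1 hv)
    rw [map_sum]
    rw [← hc]
    refine Finset.sum_congr rfl fun i _ => ?_
    rw [map_mul, aeval_map_algebraMap]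
  have hSmap : ∀ p : MvPolynomial (Fin n) ℚ, S (MvPolynomial.map (algebraMap ℚ F) p) =
      MvPolynomial.map (algebraMap ℚ F) (SQ p) := by
    intro p
    induction p using MvPolynomial.induction_on with
    | C a =>
      rw [map_C, ← algebraMap_eq, AlgHom.commutes, algebraMap_eq]
      rw [← algebraMap_eq (R := ℚ), AlgHom.commutes, algebraMap_eq, map_C]
    | add p q hp hq => simp only [map_add, hp, hq]
    | mul_X p j hp =>
      simp only [map_mul, hp, map_X]
      rw [hS, hSQ, aeval_X, aeval_X, map_add, map_X, map_C]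
  have h2 : ∑ i, MvPolynomial.map (algebraMap ℚ F) (SQ (c i)) * S (M i) = 0 := by
    have := congrArg S h1
    rw [map_sum, map_zero] at this
    rw [← this]
    refine Finset.sum_congr rfl fun i _ => ?_
    rw [map_mul, hSmap]
  -- minimal exponent
  have h3 : ∃ d : ℕ, ∃ i, ∃ e : Fin n →₀ ℕ, e.degree = d ∧ coeff e (SQ (c i)) ≠ 0 := by
    have : ∃ i, c i ≠ 0 := by
      by_contra h
      push Not at h
      exact hne (funext h)
    obtain ⟨i, hi⟩ := this
    have h4 : SQ (c i) ≠ 0 := by
      intro h
      apply hi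
      rw [← hinv (c i), h, map_zero]
    obtain ⟨e, he⟩ := MvPolynomial.ne_zero_iff.1 h4
    exact ⟨_, i, e, rfl, he⟩
  obtain ⟨i₀, e, hed, he⟩ := Nat.find_spec h3
  have hmin : ∀ i a, a.degree < e.degree → coeff a (SQ (c i)) = 0 := by
    intro i a ha
    by_contra h
    have := Nat.find_min' h3 ⟨i, a, rfl, h⟩
    omega
  have h5 : ∑ i, algebraMap ℚ F (coeff e (SQ (c i))) * coeff 0 (S (M i)) = 0 := by
    have h6 := congrArg (coeff e) h2
    rw [coeff_zero, coeff_sum] at h6
    rw [← h6]
    refine Finset.sum_congr rfl fun i _ => ?_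
    rw [coeff_mul, Finset.sum_eq_single (e, 0)]
    · rw [coeff_map]
    · rintro ⟨a, b⟩ hab hne'
      rw [Finset.HasAntidiagonal.mem_antidiagonal] at hab
      simp only at hab ⊢
      rw [coeff_map, hmin i a, map_zero, zero_mul]
      have hb : b ≠ 0 := by
        rintro rfl
        rw [add_zero] at hab
        exact hne' (by rw [hab])
      have : 0 < b.degree := by
        rw [Nat.pos_iff_ne_zero]
        intro h
        exact hb ((Finsupp.degree_eq_zero_iff b).1 h)
      rw [← hab, map_add]
      omega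
    · intro h
      exfalso
      apply h
      rw [Finset.HasAntidiagonal.mem_antidiagonal]
      simp
  have h7 : ∀ i, ((coeff 0 (S (M i)) : F) : ℂ) = aeval (fun j => ((w j : ℚ) : ℂ)) (M i) := by
    intro i
    have h8 : coeff 0 (S (M i)) = eval (fun j => algebraMap ℚ F (w j)) (M i) := by
      rw [← constantCoeff_eq]
      have : (constantCoeff (R := F) (σ := Fin n)).comp (S : _ →+* _) =
          eval (fun j => algebraMap ℚ F (w j)) := by
        apply MvPolynomial.ringHom_ext
        · intro a
          rw [RingHom.comp_apply, eval_C]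
          show constantCoeff (S (C a)) = a
          rw [← algebraMap_eq, AlgHom.commutes, algebraMap_eq, constantCoeff_C]
        · intro j
          rw [RingHom.comp_apply, eval_X]
          show constantCoeff (S (X j)) = _
          rw [hS, aeval_X, map_add, constantCoeff_X, constantCoeff_C, zero_add]
      exact congrArg (fun f => f (M i)) this
    rw [h8]
    have h9 : aeval (fun j => ((w j : ℚ) : ℂ)) (M i) =
        algebraMap F ℂ (aeval (fun j => algebraMap ℚ F (w j)) (M i)) := by
      rw [← aeval_algebraMap_apply]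
      rfl
    rw [h9]
    rfl
  have h10 : ∑ i, coeff e (SQ (c i)) • aeval (fun j => ((w j : ℚ) : ℂ)) (M i) = 0 := by
    have h11 := congrArg (algebraMap F ℂ) h5
    rw [map_sum, map_zero] at h11
    rw [← h11]
    refine Finset.sum_congr rfl fun i _ => ?_
    rw [map_mul, Rat.smul_def, ← h7]
    rfl
  have h12 := (Fintype.linearIndependent_iff.1 hM) _ h10 i₀
  exact he h12


theorem tdm {σ R S : Type} [CommSemiring R] [CommSemiring S] (f : R →+* S)
    (p : MvPolynomial σ R) : (MvPolynomial.map f p).totalDegree ≤ p.totalDegree := by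
  classical
  exact Finset.sup_mono (support_map_subset _ _)

/-- The isomorphism of the bottom field with `ℚ`. -/
noncomputable def phi : kQ →+* ℚ := ((IntermediateField.botEquiv ℚ ℂ).toAlgHom : _ →ₐ[ℚ] ℚ).toRingHom

theorem phi_spec (a : kQ) : ((phi a : ℚ) : ℂ) = (a : ℂ) := by
  obtain ⟨q, hq⟩ := IntermediateField.mem_bot.1 a.2
  have ha : a = algebraMap ℚ (⊥ : IntermediateField ℚ ℂ) q := Subtype.ext hq.symm
  have : phi a = q := by
    rw [ha]
    exact IntermediateField.botEquiv_def q
  rw [this, ← hq]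
  rfl

theorem toQ {σ : Type} (P : MvPolynomial σ kQ) (t : σ → ℂ) :
    ∃ R : MvPolynomial σ ℚ, R.totalDegree ≤ P.totalDegree ∧ aeval t P = aeval t R := by
  refine ⟨MvPolynomial.map phi P, tdm _ _, ?_⟩
  rw [aeval_def, aeval_def, eval₂_map]
  have h : (algebraMap kQ ℂ : kQ →+* ℂ) = (algebraMap ℚ ℂ).comp phi := by
    apply RingHom.ext
    intro a
    rw [RingHom.comp_apply]
    exact (phi_spec a).symm
  rw [h]

theorem main {σ κ : Type} [Fintype σ] [Fintype κ] (n : ℕ) (θ : σ → ℂ) (A : Fin n → κ → ℂ)
    (v : Fin n → ℂ) (F k : IntermediateField ℚ ℂ) (hθ : ∀ s, θ s ∈ F) (hA : ∀ j l, A j l ∈ F)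
    (hv : AlgebraicIndependent F v)
    (hk : ∀ a ∈ k, ∃ r s : MvPolynomial (Fin n) ℚ, a = aeval v r / aeval v s) (D : ℕ)
    (w : Fin n → ℚ) (hfin : FiniteDimensional k (spD k (Sum.elim θ (cC v A)) D)) :
    Module.finrank kQ (spD kQ (Sum.elim θ (cQ w A)) D) ≤
      Module.finrank k (spD k (Sum.elim θ (cC v A)) D) := by
  classical
  by_cases hQ : FiniteDimensional kQ (spD kQ (Sum.elim θ (cQ w A)) D)
  swap
  · rw [Module.finrank_of_not_finite hQ]
    exact Nat.zero_le _
  obtain ⟨B, hBs, hBsp, hBli⟩ := exists_linearIndependent kQ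
    {y : ℂ | ∃ P : MvPolynomial (σ ⊕ κ) kQ, P.totalDegree ≤ D ∧ y = aeval (Sum.elim θ (cQ w A)) P}
  have hspan : Submodule.span kQ B = spD kQ (Sum.elim θ (cQ w A)) D := hBsp
  rw [← hspan] at hQ ⊢
  have : Finite B := by
    have h1 : LinearIndependent kQ (fun b : B => (⟨(b : ℂ), Submodule.subset_span b.2⟩ :
        Submodule.span kQ B)) := by
      apply LinearIndependent.of_comp (Submodule.span kQ B).subtype
      exact hBli
    exact h1.finite
  have := Fintype.ofFinite B
  have hcard : Module.finrank kQ (Submodule.span kQ B) = Fintype.card B := by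
    have := finrank_span_eq_card hBli
    rw [Subtype.range_coe] at this
    exact this
  rw [hcard]
  have hR : ∀ b : B, ∃ R : MvPolynomial (σ ⊕ κ) ℚ, R.totalDegree ≤ D ∧
      (b : ℂ) = aeval (Sum.elim θ (cQ w A)) R := by
    intro b
    obtain ⟨P, hP, hb⟩ := hBs b.2
    obtain ⟨R, h1, h2⟩ := toQ P (Sum.elim θ (cQ w A))
    exact ⟨R, h1.trans hP, by rw [hb, h2]⟩
  choose R hRd hRe using hR
  -- generic values
  let M : B → MvPolynomial (Fin n) F := fun b =>
    aeval (Sum.elim (fun s => C (⟨θ s, hθ s⟩ : F))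
      (fun l => ∑ j, X j * C (⟨A j l, hA j l⟩ : F))) (R b)
  have hMval : ∀ (u : Fin n → ℂ) (b : B), aeval u (M b) = aeval (Sum.elim θ (cC u A)) (R b) := by
    intro u b
    show aeval u (aeval _ (R b)) = _
    have h2 : ((aeval u : MvPolynomial (Fin n) F →ₐ[F] ℂ).restrictScalars ℚ).comp
        (aeval (Sum.elim (fun s => C (⟨θ s, hθ s⟩ : F))
          (fun l => ∑ j, X j * C (⟨A j l, hA j l⟩ : F)))) =
        (aeval (Sum.elim θ (cC u A)) : MvPolynomial (σ ⊕ κ) ℚ →ₐ[ℚ] ℂ) := by
      apply MvPolynomial.algHom_ext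
      rintro (s | l)
      · rw [AlgHom.comp_apply, aeval_X, aeval_X]
        show aeval u (C (⟨θ s, hθ s⟩ : F)) = θ s
        rw [← algebraMap_eq, AlgHom.commutes]
        rfl
      · rw [AlgHom.comp_apply, aeval_X, aeval_X]
        show aeval u (∑ j, X j * C (⟨A j l, hA j l⟩ : F)) = cC u A l
        rw [map_sum]
        unfold cC
        refine Finset.sum_congr rfl fun j _ => ?_
        rw [map_mul, aeval_X, ← algebraMap_eq, AlgHom.commutes]
        rfl
    exact congrArg (fun f => f (R b)) h2
  have hcQ : cC (fun j => ((w j : ℚ) : ℂ)) A = cQ w A := rfl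
  have hMli : LinearIndependent ℚ (fun b : B => aeval (fun j => ((w j : ℚ) : ℂ)) (M b)) := by
    have h3 : (fun b : B => aeval (fun j => ((w j : ℚ) : ℂ)) (M b)) = fun b : B => (b : ℂ) := by
      funext b
      rw [hMval, hcQ, ← hRe]
    rw [h3, Fintype.linearIndependent_iff]
    intro g hg i
    have h4 := (Fintype.linearIndependent_iff.1 hBli) (fun b => algebraMap ℚ kQ (g b)) (by
      rw [← hg]
      refine Finset.sum_congr rfl fun b _ => ?_
      rw [algebraMap_smul]) i
    exact (map_eq_zero_iff _ (algebraMap ℚ kQ).injective).1 h4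
  -- the generic values are linearly independent over `k`
  have hgen : LinearIndependent k (fun b : B => aeval v (M b)) := by
    rw [Fintype.linearIndependent_iff]
    intro g hg
    have h5 : ∀ b : B, ∃ r s : MvPolynomial (Fin n) ℚ, aeval v s ≠ 0 ∧
        ((g b : k) : ℂ) = aeval v r / aeval v s := by
      intro b
      obtain ⟨r, s, h⟩ := hk _ (g b).2
      by_cases hs : aeval v s = 0
      · refine ⟨0, 1, by simp, ?_⟩
        rw [h, hs]
        simp
      · exact ⟨r, s, hs, h⟩
    choose r s hs hrs using h5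
    have h6 : (fun b => r b * ∏ b' ∈ Finset.univ.erase b, s b') = 0 := by
      refine SemiF.core F n v hv w M hMli _ ?_
      have h7 : (∏ b', aeval v (s b')) * ∑ b, g b • aeval v (M b) = 0 := by
        rw [hg, mul_zero]
      rw [← h7, Finset.mul_sum]
      refine Finset.sum_congr rfl fun b _ => ?_
      rw [map_mul, map_prod, ← Finset.mul_prod_erase Finset.univ (fun b' => aeval v (s b'))
        (Finset.mem_univ b)]
      have h8 : g b • aeval v (M b) = ((g b : k) : ℂ) * aeval v (M b) := rfl
      rw [h8, hrs b]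
      have := hs b
      field_simp
    intro b
    have h9 := congrFun h6 b
    simp only [Pi.zero_apply, mul_eq_zero] at h9
    rcases h9 with h9 | h9
    · have : ((g b : k) : ℂ) = 0 := by rw [hrs b, h9]; simp
      exact_mod_cast this
    · exfalso
      rw [Finset.prod_eq_zero_iff] at h9
      obtain ⟨b', _, h10⟩ := h9
      apply hs b'
      rw [h10, map_zero]
  -- conclusion
  have hmem : ∀ b : B, aeval v (M b) ∈ spD k (Sum.elim θ (cC v A)) D := by
    intro b
    apply Submodule.subset_span
    refine ⟨MvPolynomial.map (algebraMap ℚ k) (R b), (tdm _ _).trans (hRd b), ?_⟩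
    rw [hMval, aeval_map_algebraMap]
  have hli2 : LinearIndependent k (fun b : B => (⟨aeval v (M b), hmem b⟩ :
      spD k (Sum.elim θ (cC v A)) D)) := by
    apply LinearIndependent.of_comp (spD k (Sum.elim θ (cC v A)) D).subtype
    exact hgen
  have := hfin
  exact hli2.fintype_card_le_finrank

end SemiF

theorem SemiF_pf : S_SemiF := by
  intro σ κ _ _ n θ A v hv D w hfin
  exact SemiF.main n θ A v _ _
    (fun s => IntermediateField.subset_adjoin _ _ (Or.inl ⟨s, rfl⟩))
    (fun j l => IntermediateField.subset_adjoin _ _ (Or.inr ⟨(j, l), rfl⟩)) hv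
    (fun a ha => (IntermediateField.mem_adjoin_range_iff ℚ v a).1 ha) D w hfin

end Pool.Agent.Work.MP_8da9ea_nt.MX
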