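import Pool.Agent.Work.MP_8da9ea_nt.MX.StmtsF

/-!
# Mixed block, F1: the transcendence input for the additive part, lossless
-/

set_option autoImplicit false

namespace Pool.Agent.Work.MP_8da9ea_nt.MX

open MvPolynomial Pool.Agent.Work.MP_327059_nt.GL Pool.Agent.Work.MP_8da9ea_nt.S
  Pool.Agent.Work.MP_8da9ea_nt.EB

namespace I_StarF

theorem adm {m₁ m₂ : ℕ} (Q : ℕ) (τ μ : ℂ) (hμ : μ ≠ 0) (b₁ : Fin m₁ → ℂ) (b₂ : Fin m₂ → ℂ)
    (h : FTI Q (Sum.elim b₁ b₂)) (hb₁ : LinearIndependent ℚ b₁) (hb₂ : KLI τ b₂) :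
    Adm Q τ μ (ty2 m₁ m₂) none id (bb2 μ b₁ b₂) (fun _ _ => 0) := by
  classical
  refine ⟨?_, ?_, ?_, ?_, ?_⟩
  · have e : nb μ (ty2 m₁ m₂) (bb2 μ b₁ b₂) = Sum.elim b₁ b₂ := by
      funext k
      rcases k with k | k
      · simp [nb, ty2, bb2]
      · simp only [nb, ty2, bb2, Sum.elim_inr]
        field_simp
    rw [e]
    exact h
  · intro w hw h0
    have w2 : ∀ l, w (Sum.inr l) = 0 := fun l => hw _ (by simp [ty2])
    rw [Fintype.sum_sum_type] at h0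
    simp only [w2, Int.cast_zero, zero_mul, Finset.sum_const_zero, add_zero, bb2,
      Sum.elim_inl] at h0
    have h1 := Fintype.linearIndependent_iff.1 hb₁ (fun j => (w (Sum.inl j) : ℚ)) (by
      rw [← h0]
      refine Finset.sum_congr rfl fun j _ => ?_
      rw [Rat.smul_def]
      push_cast
      rfl)
    funext k
    rcases k with k | k
    · have := h1 k
      exact_mod_cast this
    · exact w2 k
  · intro g hg hgE h0
    have w1 : ∀ l, g (Sum.inl l) = 0 := fun l => hg _ (by simp [ty2])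
    rw [Fintype.sum_sum_type] at h0
    simp only [w1, zero_mul, Finset.sum_const_zero, zero_add, bb2, Sum.elim_inr] at h0
    have h1 := hb₂ (fun j => g (Sum.inr j)) (fun j => hgE _) (by
      have h2 : μ * ∑ j, g (Sum.inr j) * b₂ j = 0 := by
        rw [← h0, Finset.mul_sum]
        exact Finset.sum_congr rfl fun j _ => by ring
      exact (mul_eq_zero.1 h2).resolve_left hμ)
    funext k
    rcases k with k | k
    · exact w1 k
    · exact congrFun h1 k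
  · intro i hi
    exact absurd hi (by simp)
  · refine ⟨fun i hi => absurd hi (by simp), fun i hi => ?_⟩
    rcases i with i | i
    · simp [ty2] at hi
    · simp [ty2] at hi

end I_StarF

theorem StarF_pf (h1 : S_RelF) (h2 : S_MeasP) (h3 : S_LL) (h4 : S_TIF) : S_StarF := by
  classical
  intro Q m
  obtain ⟨c₁, h1⟩ := h1 m
  have hQ : ∀ p : ℕ × ℕ, ∃ Q' n₀ : ℕ, 1 ≤ Fintype.card (Fin p.1 ⊕ Fin p.2) →
      ∀ (τ μ : ℂ) (ty : Fin p.1 ⊕ Fin p.2 → Ty)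
      (i₀ : Option (Fin p.1 ⊕ Fin p.2)) (π : Fin p.1 ⊕ Fin p.2 → Fin p.1 ⊕ Fin p.2)
      (b : Fin p.1 ⊕ Fin p.2 → ℂ) (c : Fin p.1 ⊕ Fin p.2 → Fin p.1 ⊕ Fin p.2 → ℂ), Nrm τ μ →
      Adm Q τ μ ty i₀ π b c → ∀ n : ℕ, n₀ ≤ n → ∀ x : Fin n → ℂ, LinearIndependent ℚ x →
      NTM τ ty b x → RelProp c₁ τ μ ty b x → MS Q' x := by
    intro p
    by_cases hc : 1 ≤ Fintype.card (Fin p.1 ⊕ Fin p.2)
    · obtain ⟨Q', n₀, h⟩ := h2 Q c₁ (Fin p.1 ⊕ Fin p.2) hc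
      exact ⟨Q', n₀, fun _ => h⟩
    · exact ⟨0, 0, fun h => absurd h hc⟩
  choose Q' N hN using hQ
  choose N' hN' using fun p : ℕ × ℕ => h4 Q (Q' p) m
  obtain ⟨n₀, hn₀⟩ : ∃ n₀ : ℕ, n₀ = 2 + (Finset.range (m + 1) ×ˢ Finset.range (m + 1)).sup
    (fun p => N p + N' p) := ⟨_, rfl⟩
  refine ⟨n₀, ?_⟩
  intro m₁ m₂ hm₁ hm₂ τ μ b₁ b₂ hNr hFT hb₁ hb₂ n hn x hx hNT E e r hE hEc hTr hexp hxe hrk
  by_contra hcon
  push Not at hcon
  have hcard : 1 ≤ Fintype.card (Fin m₁ ⊕ Fin m₂) := by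
    simp only [Fintype.card_sum, Fintype.card_fin]
    omega
  have hle : N (m₁, m₂) + N' (m₁, m₂) ≤ n - 2 := by
    have h5 : N (m₁, m₂) + N' (m₁, m₂) ≤ (Finset.range (m + 1) ×ˢ Finset.range (m + 1)).sup
        (fun p => N p + N' p) := by
      refine Finset.le_sup (f := fun p : ℕ × ℕ => N p + N' p) ?_
      simp only [Finset.mem_product, Finset.mem_range]
      omega
    omega
  have hn2 : 2 ≤ n := by omega
  have hrel := h1 m₁ m₂ hm₁ hm₂ τ μ b₁ b₂ hNr n hn2 x hNT E e r hE hTr hexp hxe hrk (by omega)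
  have hNTM : NTM τ (ty2 m₁ m₂) (bb2 μ b₁ b₂) x := by
    intro s hs j hj
    rcases j with j | j
    · simp [ty2] at hj
    · exact hNT s hs j
  have hMS := hN (m₁, m₂) hcard τ μ (ty2 m₁ m₂) none id (bb2 μ b₁ b₂) (fun _ _ => 0) hNr
    (I_StarF.adm Q τ μ hNr.mu b₁ b₂ hFT hb₁ hb₂) n (by omega) x hx hNTM hrel
  obtain ⟨F, d, ρ, y, U, t, hF, hEF, hTrF, hyF, hA, hd⟩ := h3 E hE hEc n (Option (Fin m₂))
    (AW τ μ b₂ x) r hrk
  have hval : ∀ p, valF τ μ b₁ b₂ x y p ∈ F := by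
    intro p
    rcases p with q | q | q
    · exact hyF _ _
    · exact hEF (hexp _ _)
    · exact hEF (hxe _ _)
  have hTrL : TrLe (e + d) (valF τ μ b₁ b₂ x y) := by
    intro s hs
    exact hTrF e hTr ⟨fun i => valF τ μ b₁ b₂ x y (s i), fun i => hval _, hs⟩
  have hfin := hN' (m₁, m₂) m₁ m₂ hm₁ hm₂ τ μ b₁ b₂ hNr hFT hb₁ hb₂ n (by omega) x hMS hNT
    (e + d) ρ y U t hA hTrL
  omega

end Pool.Agent.Work.MP_8da9ea_nt.MX
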