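import Pool.Agent.Work.MP_8da9ea_nt.MX.Defs
import Pool.Agent.Work.MP_8da9ea_nt.EB.StmtsT

/-!
# Mixed block, Part Z: the zero estimate. Statements with proofs in the comments.

MODEL: the landed elliptic zero estimate `EB.ZEE` (items `EB/I_Op1 … EB/I_ZEE`); every item below is the
analogue for the mixed coordinates `PT`. Landed items to reuse: `EB.Pop_pf` (I_Pop), `EB.Fac_pf` (I_Fac),
`EB.Lin_pf` (I_Lin), `GL` `x_ZRes` and the final `EB` theorem for `S_ZEE` (I_ZEE).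
-/

set_option autoImplicit false

namespace Pool.Agent.Work.MP_8da9ea_nt.MX

open MvPolynomial Metric Pool.Agent.Work.MP_327059_nt.GL Pool.Agent.Work.MP_8da9ea_nt.S
  Pool.Agent.Work.MP_8da9ea_nt.EB

/-- Z1 (density). A nonzero polynomial does not vanish at all points `PT p`, `p` in a ball.
PROOF. The set of `p` in the ball with `p_j ∉ Λ` and `℘'(p_j) ≠ 0` for all elliptic `j` is a nonempty
open set (countable/discrete exceptional sets in each coordinate). Near such a `p` the map `PT` is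
analytic with invertible derivative: order the coordinates `mul, ell` first, `add` last; the derivative
is triangular with diagonal `exp(p_i)`, `℘'(p_j)`, `1`. So its image contains a nonempty open set
(inverse function theorem), on which a nonzero polynomial cannot vanish identically.
(Alternative without the inverse function theorem: choose the coordinates one at a time: a nonzero
polynomial in one variable has finitely many zeros, while `exp`, `℘`, `p ↦ p + const` take infinitely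
many values on a disc; the additive coordinates are chosen last.) -/
def S_DenM : Prop := ∀ τ : ℂ, 0 < τ.im → ∀ (N : ℕ) (ty : Fin N → Ty) (c : Fin N → Fin N → ℂ)
  (G : MvPolynomial (Fin N) ℂ), G ≠ 0 → ∀ (v₀ : Fin N → ℂ) (r : ℝ), 0 < r →
    ∃ p ∈ ball v₀ r, Gd τ ty p ∧ eval (PT τ ty c p) G ≠ 0

/-- Z2 (norm of a translate in one elliptic variable `j`).
PROOF (compare `EB/I_Op1`). If `h ∈ Λ`, `ζ(v + h) = ζ(v) + η(h)`, `℘(v+h) = ℘(v)`: take for `G` the
polynomial `F` with `x_i ↦ x_i + c_ij η(h)` for additive `i` (sign `true`). Otherwise put `a = ℘(h)`,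
`b = ℘'(h)`, `Y = ℘'(v_j)`, `x_j = ℘(v_j)`, `w = (Y - b)/(x_j - a)`: `℘(v_j + h) = w²/4 - x_j - a`,
`ζ(v_j + h) = ζ(v_j) + ζ(h) + w/2`. Substitute `x_j ↦ w²/4 - x_j - a` and
`x_i ↦ x_i + c_ij (ζ(h) + w/2)` (`i` additive) in `F`, multiply by `(x_j - a)^{(N+2)B}` and reduce
with `Y² = 4x_j³ - g₂x_j - g₃`: the result is `P + QY`, `P, Q` polynomials; `G = P² - Q²(4x_j³ - g₂x_j - g₃)`.
* `G ≠ 0`: the substitution is invertible (its inverse is the translation by `-h`), so `P + QY` is not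
  the zero function on the points; if `G = 0` then `4x_j³ - …` would be a square in `ℂ(x)`, or `P = Q = 0`.
* degrees: `deg_{x_j}` of `P`, `Q` is at most `(2N + 3) B`, in the other variables at most `B`.
* first implication: `(P + QY)(p) = (x_j - a)^{(N+2)B} F(PT(p + h))` (for `p_j ≡ h` by continuity the left
  side is `0` as well); so `G(PT p) = (P+QY)(P-QY) = 0`.
* second implication: `P + e₀QY = 0` for a sign `e₀`; the point `σ(p)` (sign `e₀` at `j`) has the same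
  coordinates as `p` but `℘'` changes sign, so `(x_j - a)^{…} F(PT(σ(p) + h)) = 0`, and `x_j ≠ a` because
  `p_j ± h ∉ Λ`. -/
def S_Op1M : Prop := ∀ τ : ℂ, 0 < τ.im → ∀ (N : ℕ) (ty : Fin N → Ty) (c : Fin N → Fin N → ℂ)
  (j : Fin N), ty j = Ty.ell → ∀ (h : ℂ) (B : ℕ) (F : MvPolynomial (Fin N) ℂ), 1 ≤ B → F ≠ 0 →
  (∀ i, F.degreeOf i ≤ B) → ∃ G : MvPolynomial (Fin N) ℂ, G ≠ 0 ∧
    (∀ i, G.degreeOf i ≤ (4 * N + 9) * B) ∧
    (∀ p : Fin N → ℂ, Gd τ ty p → p j + h ∉ Lam τ →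
      eval (PT τ ty c (fun i => p i + (Pi.single j h : Fin N → ℂ) i)) F = 0 →
        eval (PT τ ty c p) G = 0) ∧
    (∀ p : Fin N → ℂ, Gd τ ty p → p j + h ∉ Lam τ → p j - h ∉ Lam τ →
      eval (PT τ ty c p) G = 0 → ∃ e₀ : Bool,
        eval (PT τ ty c (fun i => sgI τ ty c (Function.update (fun _ => true) j e₀) p i +
          (Pi.single j h : Fin N → ℂ) i)) F = 0)

/-- Z3 (norm of a translate in all variables). PROOF (compare `EB/I_OpA`). First the elliptic variables one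
after the other (Z2; at most `N` steps, hence the degree bound; if there is none the bound holds because
`1 ≤ (4N+9)^N`), then `x_i ↦ x_i + h_i` (`i` additive) and `x_i ↦ e^{h_i} x_i` (`i` multiplicative). The
signs at different elliptic variables compose: `σ` at `j₂` followed by the shift by `h` at `j₂`, then `σ`
at `j₁` followed by the shift at `j₁`, is `σ_e` followed by both shifts (the additive coordinates collect
`(1 - e_j) c_ij ζ(p_j)` for each `j` separately). -/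
def S_OpM : Prop := ∀ τ : ℂ, 0 < τ.im → ∀ (N : ℕ) (ty : Fin N → Ty) (c : Fin N → Fin N → ℂ)
  (h : Fin N → ℂ) (B : ℕ) (F : MvPolynomial (Fin N) ℂ), 1 ≤ B → F ≠ 0 → (∀ i, F.degreeOf i ≤ B) →
  ∃ G : MvPolynomial (Fin N) ℂ, G ≠ 0 ∧ (∀ i, G.degreeOf i ≤ (4 * N + 9) ^ N * B) ∧
    TrA τ ty c F G h ∧ TrB τ ty c F G h

/-- Z4 (branch). PROOF (compare `EB/I_Branch`). `x_ZRes` for `f` and `∂₀f` (they have no common factor
involving the variable `0`) gives `R ≠ 0` in the inner variables with `R = af + b∂₀f`. By Z1 choose an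
inner `p₀` with `Gd`, `R ≠ 0`, leading coefficient of `f` (in the variable `0`) `≠ 0`, and, if `ty 0 = mul`,
`f(0, PT p₀) ≠ 0` (possible as `X 0` does not divide `f`). Then `f(·, PT p₀)` has a root, simple, and `≠ 0`
if `ty 0 = mul`; it is `p₀₀ + ∑ c_0j ζ(p_j)` resp. `e^{p₀₀}` for some `p₀₀`. Analytic implicit function
theorem for `(L, v) ↦ f(PT (cons L v))` (derivative in `L` is `∂₀f · 1` resp. `∂₀f · e^L`). -/
def S_BranchM : Prop := ∀ τ : ℂ, 0 < τ.im → ∀ (N : ℕ) (ty : Fin (N + 1) → Ty)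
  (c : Fin (N + 1) → Fin (N + 1) → ℂ) (f : MvPolynomial (Fin (N + 1)) ℂ), ty 0 ≠ Ty.ell →
  Irreducible f → f.degreeOf 0 ≠ 0 → (ty 0 = Ty.mul → ¬ X 0 ∣ f) →
    ∃ (v₀ : Fin N → ℂ) (r : ℝ) (L : (Fin N → ℂ) → ℂ), 0 < r ∧ AnalyticOnNhd ℂ L (ball v₀ r) ∧
      ∀ v ∈ ball v₀ r, Gd τ ty (Fin.cons (L v) v : Fin (N + 1) → ℂ) ∧
        eval (PT τ ty c (Fin.cons (L v) v)) f = 0

/-- Z5 (splitting along a branch). PROOF (compare `EB/I_Split`). For `d ∈ D` and `v` in the ball outside the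
closed nowhere dense set where some `v_j ± h_dj ∈ Λ` (`j` elliptic), `TrB` gives a sign vector `e` with
`F(PT(σ_e(cons (L v) v) + h_d)) = 0`. Shrink the ball (finitely many `d`) so that the bad sets are avoided.
For each `d` the product over all `e` of these analytic functions of `v` vanishes on the ball, so one of
them vanishes identically (only the signs at the elliptic `j ≥ 1` matter: `≤ 2^N` classes; choose `e`
with `e 0 = true` and `e_j = true` for `j` not elliptic). Popular `e`. Absorb it: `σ_e` is an involution which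
maps `cons (L v) v` to `cons (L₁ v') v'` where `v' = ` the inner part of `σ_e(cons (L v) v)` (it depends only on
`v`, and `v ↦ v'` is an analytic involution with analytic inverse given by the same formula), so `L₁(v')` is
the `0`-coordinate of `σ_e(cons (L v) v)`, `v = ` inner part of `σ_e` applied to `v'`. `L₁` is analytic on a ball
around `v₀'`, and `F(PT(cons (L₁ v') v' + h_d)) = 0` there. -/
def S_SplitM : Prop := ∀ τ : ℂ, 0 < τ.im → ∀ (N : ℕ) (ty : Fin (N + 1) → Ty)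
  (c : Fin (N + 1) → Fin (N + 1) → ℂ) (f F : MvPolynomial (Fin (N + 1)) ℂ), ty 0 ≠ Ty.ell →
  ∀ (v₀ : Fin N → ℂ) (r : ℝ) (L : (Fin N → ℂ) → ℂ), 0 < r → AnalyticOnNhd ℂ L (ball v₀ r) →
  (∀ v ∈ ball v₀ r, Gd τ ty (Fin.cons (L v) v : Fin (N + 1) → ℂ) ∧
    eval (PT τ ty c (Fin.cons (L v) v)) f = 0) →
  ∀ (κ : Type) (D : Finset κ) (h : κ → Fin (N + 1) → ℂ), (∀ d ∈ D, TrB τ ty c F f (h d)) →
    ∃ D' ⊆ D, D.card ≤ 2 ^ N * D'.card ∧
      ∃ (v₁ : Fin N → ℂ) (r₁ : ℝ) (L₁ : (Fin N → ℂ) → ℂ), 0 < r₁ ∧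
        AnalyticOnNhd ℂ L₁ (ball v₁ r₁) ∧
        (∀ v ∈ ball v₁ r₁, Gd τ ty (Fin.cons (L₁ v) v : Fin (N + 1) → ℂ)) ∧
        ∀ v ∈ ball v₁ r₁, ∀ d ∈ D',
          Gd τ ty (fun i => (Fin.cons (L₁ v) v : Fin (N + 1) → ℂ) i + h d i) ∧
          eval (PT τ ty c (fun i => (Fin.cons (L₁ v) v : Fin (N + 1) → ℂ) i + h d i)) F = 0

/-- Z6 (the increments of a branch lie in a countable set). PROOF (compare `EB/I_Cnt`). Fix the inner shift
`h`. By Z1 (finite product of polynomials/analytic functions, or a genericity argument in the inner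
parameters) choose an inner `p₁` with `Gd`, `p₁ ± h` good, leading coefficient of `F` in the variable `0`
nonzero at `PT p₁` and at the inner point of `σ_e(p₁) + h` for all sign vectors `e`, and, if `ty 0 = mul`,
`F(0, PT p₁) ≠ 0` (`X 0 ∤ F`). If `g ∣ F`, `g ∣ G`, `deg₀ g ≥ 1`, then `g(·, PT p₁)` has a root `ρ`, one of the
finitely many roots of `F(·, PT p₁)`, and `ρ = PT(cons ξ p₁)_0` for some `ξ` (`ρ ≠ 0` if `ty 0 = mul`).
`TrB F G (cons δ h)` at `cons ξ p₁` gives `e` with `F(PT(σ_e(cons ξ p₁) + cons δ h)) = 0`, so the `0`-coordinate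
of this point is one of the finitely many roots of the nonzero polynomial `F(·, inner point)`: `δ` lies in a
finite set (additive), or `e^{ξ+δ}` does (multiplicative). All choices together: countable, depending only
on `F`, `h`. -/
def S_CntM : Prop := ∀ τ : ℂ, 0 < τ.im → ∀ (N : ℕ) (ty : Fin (N + 1) → Ty)
  (c : Fin (N + 1) → Fin (N + 1) → ℂ) (F : MvPolynomial (Fin (N + 1)) ℂ), ty 0 ≠ Ty.ell → F ≠ 0 →
  (ty 0 = Ty.mul → ¬ X 0 ∣ F) → ∀ h : Fin N → ℂ, ∃ Z : Set ℂ, Z.Countable ∧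
    ∀ (δ : ℂ) (G g : MvPolynomial (Fin (N + 1)) ℂ), Irreducible g → g.degreeOf 0 ≠ 0 → g ∣ F →
      g ∣ G → TrB τ ty c F G (Fin.cons δ h) → δ ∈ Z

/-- Z7 (continuation). PROOF (compare `EB/I_Glob`). The good `p` form a connected dense open set (or: continue
along complex lines, the complement of a countable closed set in `ℂ` is connected); the function is
analytic there. -/
def S_GlobM : Prop := ∀ τ : ℂ, 0 < τ.im → ∀ (N : ℕ) (ty : Fin (N + 1) → Ty)
  (c : Fin (N + 1) → Fin (N + 1) → ℂ) (F : MvPolynomial (Fin (N + 1)) ℂ), ty 0 ≠ Ty.ell →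
  ∀ (κ : ℂ) (α v₀ : Fin N → ℂ) (r : ℝ), 0 < r →
  (∀ v ∈ ball v₀ r, Gd τ (fun i : Fin N => ty i.succ) v ∧
    eval (PT τ ty c (Fin.cons (κ + ∑ i, α i * v i) v)) F = 0) →
  ∀ v : Fin N → ℂ, Gd τ (fun i : Fin N => ty i.succ) v →
    eval (PT τ ty c (Fin.cons (κ + ∑ i, α i * v i) v)) F = 0

/-- Z8 (affine branch, additive outer variable). PROOF. By Z1 fix an inner `p` with `F(·, PT p) ≠ 0` (at most
`B` roots). (1) elliptic `j`: replacing `p_j` by `p_j + kω` (`ω = 1, τ`; `0 ≤ k ≤ B`) and `p_i` by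
`p_i - k c_ij η(ω)` (`i` additive) does not change the inner coordinates, and changes the outer coordinate
`κ + ∑ α_i p_i + ∑ c_0j ζ(p_j)` by `k (α_j ω + (c_0j - ∑_{i add} α_i c_ij) η(ω))`: a root for all `k ≤ B`, so the
bracket is `0`; Legendre's relation (`η(τ) = τ η(1) - 2πi`, `EB`: `et τ`, `kap`) for `ω = 1, τ` gives `α_j = 0` and
`c_0j = ∑ α_i c_ij`. (2) multiplicative `i`: `p_i ↦ p_i + 2πik`: `α_i = 0`. (3) for `d ∈ D` the numbers
`κ_d + const` are roots of `F(·, PT p)`: at most `B` values. -/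
def S_FinA : Prop := ∀ τ : ℂ, 0 < τ.im → ∀ (N B : ℕ) (ty : Fin (N + 1) → Ty)
  (c : Fin (N + 1) → Fin (N + 1) → ℂ) (F : MvPolynomial (Fin (N + 1)) ℂ) (α : Fin N → ℂ) (κ : Type)
  (D : Finset κ) (k : κ → ℂ), ty 0 = Ty.add → 1 ≤ B → F ≠ 0 → (∀ i, F.degreeOf i ≤ B) →
  D.Nonempty → (∀ d ∈ D, ∀ v : Fin N → ℂ, Gd τ (fun i : Fin N => ty i.succ) v →
    eval (PT τ ty c (Fin.cons (k d + ∑ i, α i * v i) v)) F = 0) →
  (∀ i : Fin N, ty i.succ ≠ Ty.add → α i = 0) ∧
  (∀ j : Fin N, ty j.succ = Ty.ell → c 0 j.succ = ∑ i : Fin N, α i * c i.succ j.succ) ∧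
  ∃ D' ⊆ D, D.card ≤ B * D'.card ∧ ∀ d ∈ D', ∀ d' ∈ D', k d = k d'

/-- Z9 (affine branch, multiplicative outer variable, no additive variables). PROOF. Fix an inner `p` with
`F(·, PT p) ≠ 0`. (1) elliptic `j`: `p_j ↦ p_j + kω`: among `0 ≤ k ≤ B` two values of `e^{κ + ∑ α_i p_i}` coincide:
`α_j k₁ ω ∈ 2πiℤ` with `1 ≤ k₁ ≤ B`, for `ω = 1` and (another `k₂`) `ω = τ`; if `α_j ≠ 0` then `τ` would be
real. (2) multiplicative `i`: `p_i ↦ p_i + 2πik`: `k_i α_i ∈ ℤ` for some `1 ≤ k_i ≤ B`; `N' = ∏ k_i ≤ B^N`.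
(3) `|α_i| ≤ B`: otherwise put `M = k_i α_i ∈ ℤ`, `|M| > k_i B`, other inner parameters fixed (generic),
`e^{p_i} = t^{k_i}`: `F(C t^M, t^{k_i}, …) = 0` for all `t ≠ 0`; the exponents `M a + k_i b`, `0 ≤ a, b ≤ B` are
pairwise different, so all coefficients of `F` as a polynomial in the variables `0` and `i` vanish at the
fixed generic point: contradiction. (4) `e^{κ_d} · const` are roots of `F(·, PT p)`: at most `B` classes. -/
def S_FinMu : Prop := ∀ τ : ℂ, 0 < τ.im → ∀ (N B : ℕ) (ty : Fin (N + 1) → Ty)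
  (c : Fin (N + 1) → Fin (N + 1) → ℂ) (F : MvPolynomial (Fin (N + 1)) ℂ) (α : Fin N → ℂ) (κ : Type)
  (D : Finset κ) (k : κ → ℂ), ty 0 = Ty.mul → (∀ i : Fin N, ty i.succ ≠ Ty.add) → 1 ≤ B → F ≠ 0 →
  (∀ i, F.degreeOf i ≤ B) → D.Nonempty →
  (∀ d ∈ D, ∀ v : Fin N → ℂ, Gd τ (fun i : Fin N => ty i.succ) v →
    eval (PT τ ty c (Fin.cons (k d + ∑ i, α i * v i) v)) F = 0) →
  (∀ j : Fin N, ty j.succ = Ty.ell → α j = 0) ∧
  (∃ N' : ℕ, N' ≠ 0 ∧ N' ≤ B ^ N ∧ ∀ i, ∃ z : ℤ, (N' : ℂ) * α i = (z : ℂ)) ∧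
  (∀ i, ‖α i‖ ≤ (B : ℝ)) ∧
  ∃ D' ⊆ D, D.card ≤ B * D'.card ∧ ∀ d ∈ D', ∀ d' ∈ D', ∃ z : ℤ,
    k d - k d' = (z : ℂ) * (2 * Real.pi * Complex.I)

/-- Z10 (induction step, additive variable). PROOF (compare `EB/I_ZStepE`). Popular differences (`S_Pop`): `D`. For
`d ∈ D` let `G_d` be the polynomial of Z3 for `F` and `u_d = (pcI u d j)_j`. `x_ZRes (F, G_d)`: either `R ≠ 0` in the
inner variables, of degree `≤ 2 (CB)²`, vanishing at the inner points of `a + u_s` for `s, s + d ∈ A`: apply the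
hypothesis `ZM` to `R`: done (extend `w` by `0`). Or a common irreducible factor `f_d` involving the variable `0`;
`S_Fac`: `f` for `D_f`, `|D| ≤ B |D_f|`; `TrB F f u_d` for `d ∈ D_f`. Z4, Z5 give `L₁` on a ball and `D₁`. For `v`, `v + h`
in the ball, `δ = L₁(v+h) - L₁(v)`, `G = ` Z3 for `F` and `cons δ h`: `F` and `G` vanish at `cons (L₁ v) v + u_d`, `d ∈ D₁`;
`x_ZRes`: either `R ≠ 0` vanishing at the inner points of `v + u_d`, `d ∈ D₁` (shift the indices by `S`: box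
`[0, 2S]^n`): `ZM`: done. Or a common irreducible `g` involving the variable `0`: Z6: `δ` in a countable set
depending on `h` only. If this holds for all `v, h`: `S_Lin`: `L₁ = κ + ∑ α_i v_i` on a ball. For `d ∈ D₁`:
`F(PT(cons (κ + u_d0 - ∑ α_i u_di + ∑ α_i v_i) v)) = 0` near `v₁ + u_d`, Z7: everywhere. Z8: `w = (1, -α)`:
`∑ w_j (u_d - u_d')_j = 0` for `d, d' ∈ D'`; take `s = d - d*`. All losses are `C (2BK)^k`. -/
def S_StepA : Prop := ∀ (N : ℕ) (ty : Fin (N + 1) → Ty), ty 0 = Ty.add →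
  ZM (fun i : Fin N => ty i.succ) → ZM ty

/-- Z11 (induction step, multiplicative variable). PROOF. As Z10, but first divide `F` by the power of `X 0` in
it (the coordinate `0` of the points is `≠ 0`), so that `X 0 ∤ F`; Z9 instead of Z8: `w = (N', -N' α)`. -/
def S_StepMu : Prop := ∀ (N : ℕ) (ty : Fin (N + 1) → Ty), ty 0 = Ty.mul →
  (∀ i : Fin N, ty i.succ ≠ Ty.add) → ZM (fun i : Fin N => ty i.succ) → ZM ty

/-- Z12 (reindexing). -/
def S_ZMeq : Prop := ∀ (ι κ : Type) [Fintype ι] [Fintype κ] (e : ι ≃ κ) (ty : κ → Ty),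
  ZM (fun i => ty (e i)) → ZM ty

/-- Z13 (the zero estimate). PROOF. Elliptic variables only: `EB.ZEE` (landed, `S_ZEE`); every `ty` is, up to
reindexing (Z12), of the form additive, then multiplicative, then elliptic: Z11 for the multiplicative
variables, then Z10 for the additive ones. -/
def S_ZMall : Prop := ∀ (ι : Type) [Fintype ι] (ty : ι → Ty), ZM ty

end Pool.Agent.Work.MP_8da9ea_nt.MX
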