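import Pool.Agent.Work.MP_8da9ea_nt.MX.DefsT
import Pool.Agent.Work.MP_8da9ea_nt.MX.StmtsZ

/-!
# Mixed block, Part T: transcendence. Statements with proofs in the comments.

MODEL: the landed elliptic block `EB` (items `EB/I_AddVal … EB/I_TIE`); the functions are now
`PN τ μ ty c (z b)`: `b_i z + ∑ c_ij Z(b_j z)` (additive), `e^{b_i z}`, `X(b_i z)`. Notation: `N = card ι`.
Proof files may use `classical` freely (the definitions use `open Classical`).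
-/

set_option autoImplicit false

namespace Pool.Agent.Work.MP_8da9ea_nt.MX

open MvPolynomial Metric Filter Topology Pool.Agent.Work.MP_327059_nt.GL
  Pool.Agent.Work.MP_8da9ea_nt.S Pool.Agent.Work.MP_8da9ea_nt.EB

/-- T0 (reindexing of the finite type condition, and restriction to subfamilies). -/
def S_FTIeq : Prop := ∀ (Q m : ℕ) (ι : Type) [Fintype ι] (b : ι → ℂ),
  (∀ e : Fin m ≃ ι, FTI Q b ↔ FT Q (fun i => b (e i))) ∧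
  ∀ (κ : Type) [Fintype κ] (f : κ → ι), FTI Q b → FTI Q (fun k => b (f k))

/-! ## Points and trees -/

/-- T1 (addition of quadruples). PROOF: `EB/I_AddVal` for `A, B, Z`; for `N`:
`Z(z+z') = Z(z) + Z(z') + ½ (Y(z)-Y(z'))/(X(z)-X(z'))`, `(Y-Y')/(X-X') = (B₁Z₂-B₂Z₁)/(A₁Z₂-A₂Z₁)`, hence
`N/Z` of `addQ` is `N₁/Z₁ + N₂/Z₂ + ½ (Y-Y')/(X-X')`. (`zt_add…` lemmas in `Bd/B01`.) -/
def S_AddQ : Prop := ∀ (ι : Type) [Fintype ι] (τ μ : ℂ), 0 < τ.im → μ ≠ 0 → ∀ (n : ℕ)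
  (θ : VM n ι → ℂ) (z z' r r' : ℂ) (V W : Qua n ι), ValQ τ μ θ z r V → ValQ τ μ θ z' r' W →
    ValQ τ μ θ (-z) (-r) (negQ V) ∧
    (z + z' ∉ Lam τ → z - z' ∉ Lam τ →
      ValQ τ μ θ (z + z') (r + r' + (ze τ μ (z + z') - ze τ μ z - ze τ μ z')) (addQ V W))

/-- T1' (sizes). PROOF: `EB/I_AddSiz`. -/
def S_AddSizQ : Prop := ∀ (ι : Type) [Fintype ι] (n : ℕ) (h h' : ℝ) (V W : Qua n ι), 0 ≤ h →
  0 ≤ h' → SizQ h V → SizQ h' W → SizQ h (negQ V) ∧ SizQ (4 * (h + h') + 6) (addQ V W)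

/-- T2 (trees). PROOF: `EB/I_Tree` word by word, with the correction terms `cor` added up by T1
(`cor (s+t) = cor s + cor t + (ze(s+t) - ze s - ze t)`, `cor (-s) = - cor s`, `cor e_i = 0`). -/
def S_TreeQ : Prop := ∀ (ι : Type) [Fintype ι] (n : ℕ), 2 ≤ n → ∃ (C : ℝ) (K₁ : ℕ), 1 ≤ C ∧
  ∀ (τ μ : ℂ), 0 < τ.im → μ ≠ 0 → ∀ (ty : ι → Ty) (b : ι → ℂ) (c : ι → ι → ℂ) (j : ι),
    ty j = Ty.ell → ∀ (u : Fin n → ι → ℂ),
    (∀ s : Fin n → ℤ, s ≠ 0 → (∀ i, |s i| ≤ (K₁ : ℤ)) → pcI u s j ∉ Lam τ) →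
    ∀ (T : ℕ) (s : Fin n → ℤ), 1 ≤ T → (∀ i, |s i| ≤ (T : ℤ)) → pcI u s j ∉ Lam τ →
      ∃ V : Qua n ι, VQ j s V ∧ ValQ τ μ (ptM τ μ ty b c u) (pcI u s j) (cor τ μ u s j) V ∧
        SizQ (C * T ^ 10) V

/-- T3 (all quadruples are valid at the true point). PROOF: `EB/I_TrueVal`. -/
def S_TrueQ : Prop := ∀ (ι : Type) [Fintype ι] (τ μ : ℂ), 0 < τ.im → μ ≠ 0 → ∀ (n : ℕ)
  (ty : ι → Ty) (b : ι → ℂ) (c : ι → ι → ℂ) (x : Fin n → ℂ), NTM τ ty b x → ∀ j : ι,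
    ty j = Ty.ell → ∀ (s : Fin n → ℤ) (V : Qua n ι), VQ j s V →
    ValQ τ μ (ptM τ μ ty b c (fun i j => b j * x i)) (b j * cmb s x)
      (cor τ μ (fun i j => b j * x i) s j) V

/-- T4 (bound for `Z`). PROOF: `EB/I_ZUp`. -/
def S_ZUpQ : Prop := ∀ (ι : Type) [Fintype ι] (τ μ : ℂ), 0 < τ.im → μ ≠ 0 → ∀ (n : ℕ)
  (θ : VM n ι → ℂ), ∃ C : ℝ, 1 ≤ C ∧ ∀ (z r : ℂ) (h : ℝ) (V : Qua n ι), 0 ≤ h →
    ValQ τ μ θ z r V → SizQ h V → ‖aeval θ V.Z‖ ≤ Real.exp (C * (h + 1)) * d1 τ z ^ 2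

/-- T5 (values and sizes of `PEM`). PROOF: compare `EB/I_PEval`. For each `r`, `i` the factor `facM` has the value
`(coordinate i)^{x_ri} ∏_{j ell} Z_rj^W`, where the coordinate is: additive `∑_k s_k D_ki + ∑_j c_ij r_rj`
(`D_ki = θ(k,i,false)`, `c_ij = θ(i,j)`); multiplicative `∏_k y_ki^{s_k}`; elliptic `X(z_ri)`. So the total
power of `Z_rj` is `N W` (`N = card ι`). Sizes: each factor has degree `≤ W (N (h+2) + n (T+1))` etc.; the number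
of `x` is `W^{NG}` and `log` of the length is linear in the right hand side. -/
def S_PEMval : Prop := ∀ (ι : Type) [Fintype ι] (n G : ℕ), ∃ C : ℝ, 1 ≤ C ∧ ∀ (ty : ι → Ty)
  (W : ℕ) (p : (Fin G → ι → Fin W) → ℤ) (s : Fin G → Fin n → ℤ) (V : Fin G → ι → Qua n ι),
  (∀ r i, 0 ≤ s r i) →
  (∀ (τ μ : ℂ) (θ : VM n ι → ℂ) (z r' : Fin G → ι → ℂ),
    (∀ r j, ty j = Ty.ell → ValQ τ μ θ (z r j) (r' r j) (V r j)) →
    aeval θ (PEM ty p s V) = (∏ r, ∏ j, (if ty j = Ty.ell then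
        aeval θ (V r j).Z ^ (Fintype.card ι * W) else 1)) *
      (open Classical in ∑ x : Fin G → ι → Fin W, (p x : ℂ) * ∏ r, ∏ i, (match ty i with
        | Ty.add => ∑ k, (s r k : ℂ) * θ (Sum.inr (Sum.inr (k, i, false))) +
            ∑ j, (if ty j = Ty.ell then θ (Sum.inr (Sum.inl (i, j))) * r' r j else 0)
        | Ty.mul => ∏ k, θ (Sum.inr (Sum.inr (k, i, false))) ^ (s r k).toNat
        | Ty.ell => xe τ μ (z r i)) ^ (x r i : ℕ))) ∧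
  (∀ (h H : ℝ) (T : ℕ), 0 ≤ h → 0 ≤ H → (∀ r i, s r i ≤ (T : ℤ)) →
    (∀ r j, ty j = Ty.ell → SizQ h (V r j)) → (∀ x, |(p x : ℝ)| ≤ Real.exp H) →
    SizP (C * (W * (h + T + 1) + H + 1)) (PEM ty p s V))

/-! ## Auxiliary function -/

/-- T6 (auxiliary function). PROOF: `EB/I_PsiE` with `m` replaced by `N = card ι`, `G = N + 1`. One variable
functions `f_x(z) = ∏_i PN(zb)_i^{x_i} ∏_{j ell} q_j(b_j z)^{2 N T^q}` (`x_i < T^q`; `q_j` from `EB.QT`, total pole order at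
a point of `Λ` is at most `2T^q + N T^q ≤ 2 N T^q`; `q² ℘` and `q ζ` are bounded by `e^{C T³}` on the ball: for
`ζ` use `ζ' = -℘` or the analogous clearing); so `|f_x| ≤ e^{C T^{q+3}} ≤ e^{T^{q+4}}/…`. `x_PLm` with
`card = T^{qN}`, `h = T^{q+4}`, `K = T^k`, `k (N+2) + 1 ≤ q + 4 + q N (N+1)`, i.e. `k ≥ q (N-1) + 3q/(N+2) - 1`. -/
def S_PsiM : Prop := ∀ (ι : Type) [Fintype ι] (e₁ e₂ : ℕ), 2 ≤ Fintype.card ι → ∃ q₀ : ℕ,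
  ∀ q : ℕ, q₀ ≤ q → ∀ (τ μ : ℂ), 0 < τ.im → μ ≠ 0 → ∀ (ty : ι → Ty) (b : ι → ℂ)
  (c : ι → ι → ℂ) (R₀ : ℝ), 1 ≤ R₀ → (∀ j, ty j = Ty.ell → b j ≠ 0) →
    ∃ T₀ : ℕ, ∀ T : ℕ, T₀ ≤ T → ∃ p : (Fin (Fintype.card ι + 1) → ι → Fin (T ^ q)) → ℤ,
      p ≠ 0 ∧ (∀ x, |p x| ≤ (2 : ℤ) ^ (T ^ (q + 4))) ∧
      ∀ z : Fin (Fintype.card ι + 1) → ℂ, (∀ i, ‖z i‖ ≤ R₀ * T) →
        (∀ i j, ty j = Ty.ell → b j * z i ∉ Lam τ) →
        ‖AFM τ μ ty b c p z‖ * ∏ i, dd τ ty b (2 * (Fintype.card ι * T ^ q)) (z i) ≤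
          Real.exp (-((T : ℝ) ^ ((q + e₁) * (Fintype.card ι - 1) + e₂)))

/-! ## Criterion and zero estimate -/

/-- T7 (criterion step). PROOF: `EB/I_CritE`. `x_Crit` at `θ = ptM τ μ ty b c (b_j x_i)` with `PP` = {minimal
polynomials of `G2, G3`; curve equations of the points `(i,j)`, `j` elliptic; the echelon equations
`c_{i₀j}`, `c_{i',π i} - δ`; all `PEM ty p s V` for `s_r ≠ 0`, `0 ≤ s_r ≤ T`, `VQ j (s_r) (V_rj)`, `SizQ (C T^10)`}. By T3,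
T4, T5 the last ones are `≤ e^{-U} e^{C(WT^{11}+h)}` at `θ` (total power of `Z_rj` is `N W`, `|Z_rj| ≤ e^{..} d1²`). At
`θ'`: `G2' = G2`, `G3' = G3`; elliptic coordinates `(X', Y')` are `(X, Y)(u'_ij)` (`EB.LocInv`; `(NTM)` for `2e_i`
gives `Y ≠ 0`); multiplicative coordinates `y' = e^{u'_ij}`, `u'` close to `b_j x_i`; additive ones
`D'_ij =: u'_ij + ∑_l c'_jl Z(u'_il)` defines `u'_ij`, which is close to `b_j x_i` as well (all errors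
`≤ C·|θ' - θ|`, absorbed in `C`); `c'` satisfies `EchC`. For `s ≠ 0` with `Gd (pcI u' s)` T2 gives quadruples valid at
`θ'`, and `PEM = 0` there means: the auxiliary polynomial vanishes at the tuples of points `PN(pcI u' s_r)`
(`∑_k s_k D'_ki + ∑_j c'_ij cor_j = pcI u' s i + ∑_j c'_ij Z(pcI u' s j)`). `x_Tensor` gives `F`. -/
def S_CritM : Prop := ∀ (ι : Type) [Fintype ι] (n G k : ℕ), 2 ≤ n → 1 ≤ G → ∀ (τ μ : ℂ)
  (ty : ι → Ty) (i₀ : Option ι) (π : ι → ι) (b : ι → ℂ) (c : ι → ι → ℂ) (x : Fin n → ℂ),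
  Nrm τ μ → EchC ty i₀ π c → NTM τ ty b x → TrLe k (ptM τ μ ty b c (fun i j => b j * x i)) →
  ∃ (C : ℝ) (T₀ : ℕ), 1 ≤ C ∧ ∀ T : ℕ, T₀ ≤ T → ∀ (W : ℕ) (h U : ℝ), 1 ≤ W → 1 ≤ h →
    C * (W * (T : ℝ) ^ 11 + h) ^ (k + 1) ≤ U →
    ∀ p : (Fin G → ι → Fin W) → ℤ, p ≠ 0 → (∀ x, |(p x : ℝ)| ≤ Real.exp h) →
    (∀ s : Fin G → Fin n → ℤ, (∀ r, s r ≠ 0 ∧ ∀ i, 0 ≤ s r i ∧ s r i ≤ (T : ℤ)) →
      ‖AFM τ μ ty b c p (fun r => cmb (s r) x)‖ *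
        ∏ r, dd τ ty b (2 * (Fintype.card ι * W)) (cmb (s r) x) ≤ Real.exp (-U)) →
    ∃ (u : Fin n → ι → ℂ) (c' : ι → ι → ℂ) (F : MvPolynomial ι ℂ),
      (∀ i j, ‖u i j - b j * x i‖ ≤ Real.exp (-U / (C * (W * (T : ℝ) ^ 11 + h) ^ k))) ∧
      EchC ty i₀ π c' ∧ F ≠ 0 ∧ (∀ j, F.degreeOf j < W) ∧
      ∀ s : Fin n → ℤ, s ≠ 0 → (∀ i, 0 ≤ s i ∧ s i ≤ (T : ℤ)) → Gd τ ty (pcI u s) →
        eval (PN τ μ ty c' (pcI u s)) F = 0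

/-- T8 (a polynomial vanishing at the perturbed points gives a small point). PROOF: `EB/I_NZ`. If less than
half of the `s` in the box have `Gd (pcI u s)`, then for some elliptic `j` many `s` satisfy `pcI u s j ∈ Λ`:
`w = e_j`. Otherwise Z13 (`S_ZMall`; `c` there is `μ c'`, and the variables `x_j` are rescaled by `μ²`) with
`K = 4` gives `w`. Elliptic relation: as in `EB/I_NZ` (`x_ManyInd`, `x_Sieg`, measure for `∑ w_j b_j`, `EB.LMk`-type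
bound from `Adm.ft`, `Adm.ell`). Multiplicative relation: `∑ w_j pcI u s j = 2πi z(s)`, `|z(s)| ≤ T^{c}`: `x_ManyInd`
gives `ρ + 1` independent `t_k`, `x_Sieg` for the integers `z(t_k)` gives `s* ≠ 0` with `∑ w_j pcI u s* j = 0`, and
`|∑ w_j b_j| ≥ e^{-T/2}` by `Adm.ft`, `Adm.mul`. Additive relation: `EchC` for `c'` forces `w_i = 0` for `i ≠ i₀` (look at
the column `π i`), so `i₀ = some i` and `pcI u s i = 0` for some `s ≠ 0` in the box, `b_i = 1`: `|cmb s x| ≤ T^c ε`. -/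
def S_NZM : Prop := ∀ (Q q : ℕ) (ι : Type) [Fintype ι], 1 ≤ Fintype.card ι → ∃ n₀ : ℕ,
  ∀ (τ μ : ℂ), 0 < τ.im → μ ≠ 0 → ∀ (ty : ι → Ty) (i₀ : Option ι) (π : ι → ι) (b : ι → ℂ)
  (c : ι → ι → ℂ), Adm Q τ μ ty i₀ π b c → ∀ n : ℕ, n₀ ≤ n → ∀ x : Fin n → ℂ,
    ∃ T₀ : ℕ, ∀ T : ℕ, T₀ ≤ T → ∀ (ε : ℝ) (u : Fin n → ι → ℂ) (c' : ι → ι → ℂ)
      (F : MvPolynomial ι ℂ), 0 ≤ ε → ε ≤ 1 → (∀ i j, ‖u i j - b j * x i‖ ≤ ε) →
      EchC ty i₀ π c' → F ≠ 0 → (∀ j, F.degreeOf j ≤ T ^ q) →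
      (∀ s : Fin n → ℤ, s ≠ 0 → (∀ i, 0 ≤ s i ∧ s i ≤ (T : ℤ)) → Gd τ ty (pcI u s) →
        eval (PN τ μ ty c' (pcI u s)) F = 0) →
      ∃ s : Fin n → ℤ, s ≠ 0 ∧ (∀ i, |s i| ≤ ((T ^ 3 : ℕ) : ℤ)) ∧
        ‖cmb s x‖ ≤ ε * Real.exp T

/-! ## The measure is automatic -/

/-- T9 (the full family is admissible). -/
def S_AdmF : Prop := ∀ (Q : ℕ) (ι : Type) [Fintype ι] (τ μ : ℂ) (ty : ι → Ty) (i₀ : Option ι)
  (π : ι → ι) (b : ι → ℂ) (c : ι → ι → ℂ), Adm Q τ μ ty i₀ π b c →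
    Adm Q τ μ (fty ty) (some (Sum.inl ())) (fπ ty) (fb ty b) (fc ty)

/-- T10 (a zero of a member of the full family close to the origin forces a high order of vanishing).
PROOF: `EB/I_CoefE`. Put `β_j = b_j / μ` (`j` elliptic), `β_j = b_j` (`j` multiplicative): `FTI` for `β = nb μ ty b`. The
functions are `z`, `e^{β_j z}`, `X(μ β_j z) = (β_j z)^{-2} (1 + ∑ φ_k (β_j z)^k)` and `Z(μ β_j z) = (β_j z)^{-1} - …` (integrate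
`(d/du) Z(μu) = - X(μu)`), with `M^k φ_k ∈ ℤ[G2, G3]` (`EB.PhiT`): all Laurent coefficients are polynomials in `β, G2, G3`
with rational coefficients of controlled size; `G2, G3` are algebraic (`EB.FText`). As in `EB/I_CoefE`: the first
nonzero coefficient would be both large (`FTI`) and small (the zero `z₀`). -/
def S_CoefM : Prop := ∀ (Q : ℕ) (ι : Type) [Fintype ι], ∃ c₂ : ℕ, ∀ (τ μ : ℂ) (ty : ι → Ty)
  (b : ι → ℂ), Nrm τ μ → FTI Q (nb μ ty b) →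
  (∀ j, ty j = Ty.ell → b j ≠ 0) → ∃ C : ℝ, 1 ≤ C ∧ ∀ (D K : ℕ) (h U : ℝ)
    (R : MvPolynomial (fI ty) ℤ) (z₀ : ℂ), 1 ≤ h → (∀ j, R.degreeOf j ≤ D) →
    (∀ d, |((R.coeff d : ℤ) : ℝ)| ≤ Real.exp h) → C * (K + D + h) ^ c₂ ≤ U → z₀ ≠ 0 →
    ‖z₀‖ ≤ Real.exp (-U) →
    aeval (PN τ μ (fty ty) (fc ty) (fun j => fb ty b j * z₀)) R = 0 →
      ∃ g : ℂ → ℂ, AnalyticAt ℂ g 0 ∧ ∀ᶠ z in 𝓝[≠] (0 : ℂ),
        (∏ j, (if fty ty j = Ty.ell then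
            (fb ty b j * z) ^ (2 * (Fintype.card (fI ty) * D)) else 1)) *
          aeval (PN τ μ (fty ty) (fc ty) (fun j => fb ty b j * z)) R = z ^ (K + 1) * g z

/-- T11 (an algebraic relation between the values of the full family at one point). PROOF: compare `EB/I_RelPt`. Let
`θ = ptM …` (true point), `TrLe (N - 2) θ`, `M₀ = 1 + e` (`e` elliptic indices), `a` additive indices (`a ≤ M₀`: the pivots
are different). Choose `ν ∈ ℂ^{M₀ - a}` algebraically independent over `ℚ(θ)`, one coordinate for every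
non-pivot function among `z, Z(b_j z)` (`z` is a pivot iff `i₀` is `some`): `TrLe (N - 2 + M₀ - a) (θ, ν)`, and
`N - 2 + M₀ - a = card (fI ty) - 2`. At `z_s = cmb s x`, with quadruples of size `C S^10` (T2, T3): `X(b_j z_s)` and the
corrections are quotients of integer polynomials in `θ`; the additive functions of the family have the values
`δ_i = ∑_k s_k D_i(x_k) + ∑_j c_ij cor_j`; so the pivot functions at `z_s` are (by `EchC`) polynomials in `θ` (incl.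
`b_i`, `c_ij`), the corrections and the non-pivot functions. Multiply by powers of the `Z_j` and apply `S.x_FF` to
`(θ, ν)` (`D^{card (fI ty)}` monomials of degree `< D = S^{6 card}`, integer polynomials of degree `≤ C D S^{11}`): an integer
relation which holds identically in `ν`, so it holds at the actual non-pivot values. -/
def S_RelPtM : Prop := ∀ (ι : Type) [Fintype ι], 2 ≤ Fintype.card ι → ∃ c₁ : ℕ, ∀ (n : ℕ),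
  2 ≤ n → ∀ (τ μ : ℂ) (ty : ι → Ty) (i₀ : Option ι) (π : ι → ι) (b : ι → ℂ) (c : ι → ι → ℂ)
  (x : Fin n → ℂ), Nrm τ μ → EchC ty i₀ π c → (∀ i, i₀ = some i → b i = 1) → NTM τ ty b x →
  TrLe (Fintype.card ι - 2) (ptM τ μ ty b c (fun i j => b j * x i)) →
  ∃ S₀ : ℕ, ∀ S : ℕ, S₀ ≤ S → ∀ s : Fin n → ℤ, s ≠ 0 → (∀ i, |s i| ≤ (S : ℤ)) →
    ∃ R : MvPolynomial (fI ty) ℤ, R ≠ 0 ∧ (∀ j, R.degreeOf j ≤ S ^ c₁) ∧
      (∀ d, |((R.coeff d : ℤ) : ℝ)| ≤ Real.exp ((S : ℝ) ^ (c₁ + 12))) ∧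
      aeval (PN τ μ (fty ty) (fc ty) (fun j => fb ty b j * cmb s x)) R = 0

/-- T12 (Schwarz lemma). PROOF: `EB/I_SchwE` (`EB.QT` for the clearing; `ζ` as in T6). -/
def S_SchwM : Prop := ∀ (ι : Type) [Fintype ι] (τ μ : ℂ) (ty : ι → Ty) (b : ι → ℂ)
  (c : ι → ι → ℂ) (R₀ : ℝ), 0 < τ.im → μ ≠ 0 → (∀ j, ty j = Ty.ell → b j ≠ 0) → 1 ≤ R₀ →
  ∃ C : ℝ, 1 ≤ C ∧ ∀ (D K T : ℕ) (h : ℝ) (R : MvPolynomial ι ℤ), 1 ≤ h → 1 ≤ T →
    (∀ j, R.degreeOf j ≤ D) → (∀ d, |((R.coeff d : ℤ) : ℝ)| ≤ Real.exp h) →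
    (∃ g : ℂ → ℂ, AnalyticAt ℂ g 0 ∧ ∀ᶠ z in 𝓝[≠] (0 : ℂ),
      (∏ j, (if ty j = Ty.ell then (b j * z) ^ (2 * (Fintype.card ι * D)) else 1)) *
        aeval (PN τ μ ty c (fun j => b j * z)) R = z ^ (K + 1) * g z) →
    ∀ z : ℂ, ‖z‖ ≤ R₀ * T → (∀ j, ty j = Ty.ell → b j * z ∉ Lam τ) →
      ‖aeval (PN τ μ ty c (fun j => b j * z)) R‖ * dd τ ty b (2 * (Fintype.card ι * D)) z ≤
        Real.exp (C * ((D + 1) * (T : ℝ) ^ 3 + h) - K)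

/-- T13 (descent). PROOF: compare `EB/I_StepM`. Fix `Q, ι`; `c₂` from T10, `c₁` from T11, `e = 3 c₂ + 3` (say),
`q' = 4 e c₁ + 4`, `n₁ ≥ 2` from T8 for the full family (admissible by T9) and `q'`. The criterion T7 is used for the
FULL family, `G = 1`, for the first `n₁` points only, with the trivial exponent `k = card (VM n₁ (fI ty))`
(`TrLe k` holds for every family of `k` numbers); `a` is large in terms of `c₁, c₂, e, k` (all these depend on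
`Q, ι` only). Given `|s| ≤ S = T^e`, `|cmb s x| ≤ exp(-T^{e a'})`: T11: relation `R` of degree `≤ D = S^{c₁}` and height `S^{c₁+12}`
at `z_s`; T10 with `K = ⌊T^{e a'/c₂ - 1}⌋` (say): order of vanishing `> K` at the origin; T12: `R` is `≤ e^{-K/2}` on `|z| ≤ R₀ T`;
T7 at the scale `T₁ = ⌊T^{1/4}⌋` with `W = D + 1 ≤ T₁^{q'}` (also `≥`-side: `U = K/2 ≥ C (W T₁^11 + h)^{k+1}` as `a' ≥ a`) and T8
give `s* ≠ 0`, `|s*| ≤ T₁³ ≤ T`, `|cmb s* x| ≤ exp(T - U/(C(…)^k)) ≤ exp(-T^{2a'})`; extend `s*` by `0` to `Fin n`. -/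
def S_StepMM : Prop := ∀ (Q : ℕ) (ι : Type) [Fintype ι], 2 ≤ Fintype.card ι →
  ∃ e a n₀ : ℕ, 1 ≤ e ∧ 1 ≤ a ∧ ∀ (τ μ : ℂ) (ty : ι → Ty) (i₀ : Option ι) (π : ι → ι)
  (b : ι → ℂ) (c : ι → ι → ℂ), Nrm τ μ → Adm Q τ μ ty i₀ π b c → ∀ n : ℕ, n₀ ≤ n →
  ∀ x : Fin n → ℂ, LinearIndependent ℚ x → NTM τ ty b x →
  TrLe (Fintype.card ι - 2) (ptM τ μ ty b c (fun i j => b j * x i)) →
    ∃ T₀ : ℕ, ∀ T : ℕ, T₀ ≤ T → ∀ a' : ℕ, a ≤ a' →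
      (∃ s : Fin n → ℤ, s ≠ 0 ∧ (∀ i, |s i| ≤ ((T ^ e : ℕ) : ℤ)) ∧
        ‖cmb s x‖ ≤ Real.exp (-((T : ℝ) ^ (e * a')))) →
      ∃ s : Fin n → ℤ, s ≠ 0 ∧ (∀ i, |s i| ≤ (T : ℤ)) ∧
        ‖cmb s x‖ ≤ Real.exp (-((T : ℝ) ^ (2 * a')))

/-- T14 (the measure is automatic). PROOF: `EB/I_MeasE` word by word from T13. -/
def S_MeasM : Prop := ∀ (Q : ℕ) (ι : Type) [Fintype ι], 2 ≤ Fintype.card ι →
  ∃ Q' n₀ : ℕ, ∀ (τ μ : ℂ) (ty : ι → Ty) (i₀ : Option ι) (π : ι → ι)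
  (b : ι → ℂ) (c : ι → ι → ℂ), Nrm τ μ → Adm Q τ μ ty i₀ π b c → ∀ n : ℕ, n₀ ≤ n →
  ∀ x : Fin n → ℂ, LinearIndependent ℚ x → NTM τ ty b x →
  TrLe (Fintype.card ι - 2) (ptM τ μ ty b c (fun i j => b j * x i)) → MS Q' x

/-- T15 (**transcendence input**). PROOF: compare `EB/I_TIE`. Suppose `TrLe (N-2)`. T14: `MS Q' x`. T6 with `e₁ = 12`,
`e₂ = 3Q' + 3` (say): auxiliary function; T7 with `k = N - 2`, `W = T^q`, `h = T^{q+4}`, `U = T^{(q+12)(N-1)+e₂}`, T8: `s* ≠ 0`,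
`|s*| ≤ T³`, `|cmb s* x| ≤ exp(T - T^{e₂-1})`: contradicts `MS Q' x`. -/
def S_TIM : Prop := ∀ (Q : ℕ) (ι : Type) [Fintype ι], 2 ≤ Fintype.card ι → ∃ n₀ : ℕ,
  ∀ (τ μ : ℂ) (ty : ι → Ty) (i₀ : Option ι) (π : ι → ι) (b : ι → ℂ) (c : ι → ι → ℂ),
  Nrm τ μ → Adm Q τ μ ty i₀ π b c → ∀ n : ℕ, n₀ ≤ n → ∀ x : Fin n → ℂ,
  LinearIndependent ℚ x → NTM τ ty b x →
    ¬ TrLe (Fintype.card ι - 2) (ptM τ μ ty b c (fun i j => b j * x i))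

end Pool.Agent.Work.MP_8da9ea_nt.MX
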