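import Pool.Agent.Work.MP_8da9ea_nt.MX.DefsH

/-!
# Mixed block, version with separate tuples `b` (toric, `m` numbers) and `b'` (elliptic, `m'` numbers): statements

The proofs are those of the corresponding items of `StmtsG.lean` and `StmtsR.lean` (read the docstrings there), with `b` replaced by `b'` in the
elliptic forms. `TT (Fin.append b b')` = the derivations killing all `b_j` and `b'_j`.
-/

set_option autoImplicit false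

namespace Pool.Agent.Work.MP_8da9ea_nt.MX

open MvPolynomial Pool.Agent.Work.MP_327059_nt.GL Pool.Agent.Work.MP_8da9ea_nt.S
  Pool.Agent.Work.MP_8da9ea_nt.EB

/-- H1 (see G8 `S_AxOutM`). -/
def S_AxOutM2 : Prop := ∀ (f : Bool) (τ μ α : ℂ), Nrm τ μ → Alp τ μ α → ∀ (n m m' : ℕ) (b : Fin m → ℂ)
  (b' : Fin m' → ℂ) (x v : Fin n → ℂ),
  ∃ (G₁ : Submodule kQ (Fin n → Fin m → kQ)) (G₂ : Submodule (kf τ) (Fin n → Fin m' → kf τ)),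
    ∀ E₀ : IntermediateField ℚ ℂ, ACl E₀ → (∀ j, b j ∈ E₀) → (∀ j, b' j ∈ E₀) → GV2 τ μ b b' x G₁ G₂ ⊆ E₀ →
    (∀ c ∈ E₀, IsAlgebraic (IntermediateField.adjoin ℚ (Set.range v ∪ Set.range (Fin.append b b') ∪
      GV2 τ μ b b' x G₁ G₂)) c) →
    ∀ (k : ℕ) (h : Fin k → ℂ), (∀ t, h t ∈ GV2 τ μ b b' x G₁ G₂) →
    AlgebraicIndependent (IntermediateField.adjoin ℚ (Set.range v ∪ Set.range (Fin.append b b'))) h →
      k + ugK G₁ v + ugK G₂ v + Module.finrank ℂ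
        ((((DK E₀ ⊓ TT v).map (LinearMap.pi fun i => fam (FA f τ μ α b' (x i)))) ⊔ annF f G₂).map (mvJ v))
        ≤ rkM2 f τ μ α b b' x v

/-- H2 (see G16 `S_GCoreM`). The counts: `m₁ = dim C₁ = m - ugK G₁ v`, `m₂ = dim C₂ = m' - ugK G₂ v`,
`m₁ + m₂ + psi (1 + m₃) ≤ κ + k₀ + r + 1`, `k₀ + (m - m₁) + (m' - m₂) + r + finrank D ≤ rkM2`, so for `f = false`
`rkM2 + κ ≥ m + m'`, for `f = true`: `rkM2 + κ ≥ m + 2m' - m₂ + psi (1 + m₂) - 1 ≥ tgt2 true m m'` (`m₂ ≤ m'`). `S_Star` is used with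
`m := m + m'`. `TrLe κ` and `pr_CntB` for the family `Fin.append b b'`. `FTI` of `(b₁, b₂)` from `FT Q (Fin.append b b')` by `FText_pf`,
`FTpol_pf`. -/
def S_GCoreM2 : Prop := ∀ (f : Bool) (Q m m' : ℕ), ∃ n₀ : ℕ, ∀ (τ μ α : ℂ) (b : Fin m → ℂ)
  (b' : Fin m' → ℂ), Nrm τ μ → Alp τ μ α → FT Q (Fin.append b b') → LinearIndependent ℚ b → KLI τ b' →
  ∀ n : ℕ, n₀ ≤ n → ∀ x : Fin n → ℂ, LinearIndependent ℚ x → ∀ κ : ℕ, TrLe κ (Fin.append b b') →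
    ∃ v : Fin n → ℂ, tgt2 f m m' ≤ κ + rkM2 f τ μ α b b' x v

/-- H3 (see G18 `S_MixRank`): degrees `m + m'`, `m + 2m'` and `m'` (for `μ b'_j z ∉ Λ`). -/
def S_MixRank2 : Prop := ∀ (Q m m' : ℕ), ∃ n₀ : ℕ, ∀ (τ μ : ℂ) (b : Fin m → ℂ) (b' : Fin m' → ℂ), Nrm τ μ →
  FT Q (Fin.append b b') → LinearIndependent ℚ b → KLI τ b' →
  ∀ n : ℕ, n₀ ≤ n → ∀ x : Fin n → ℂ, LinearIndependent ℚ x → ∀ κ : ℕ, TrLe κ (Fin.append b b') →
    ∃ P : MvPolynomial (Fin n) ℂ, P ≠ 0 ∧ P.totalDegree ≤ 2 * m + 4 * m' ∧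
      ∀ w : Fin n → ℚ, MvPolynomial.eval (fun i => (w i : ℂ)) P ≠ 0 →
      ∀ z : ℂ, z = ∑ i, (w i : ℂ) * x i →
        (∀ j, μ * (b' j * z) ∉ Lam τ) ∧
        m + m' ≤ κ + rA2 τ μ b b' z (TT (Fin.append b b')) ∧
        tgt2 true m m' ≤ κ + rB2 τ μ b b' z (TT (Fin.append b b'))

/-- H4 (see R1 `S_RelStepM`, same proof). -/
def S_RelStepM2 : Prop := ∀ (τ μ : ℂ), Nrm τ μ → ∀ K : IntermediateField ℚ ℂ, Countable K →
  μ ∈ K → τ ∈ K → et τ ∈ K → kap ∈ K → ∀ (m m' : ℕ) (b : Fin m → ℂ) (b' : Fin m' → ℂ) (z : ℂ),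
    2 ≤ rL2 τ μ b' z (DK K) →
      ∃ c : Fin m' → ℚ, ePt2 μ b' z c ∉ Lam τ ∧
        (∀ a a' : ℂ, (∀ δ ∈ DK K, a * lam τ μ δ (ePt2 μ b' z c) + a' * etf τ μ δ (ePt2 μ b' z c) = 0) →
          a = 0 ∧ a' = 0) ∧
        ∀ T₁ : Submodule ℂ (Derivation ℚ ℂ ℂ),
          (∀ δ, δ ∈ T₁ ↔ δ ∈ DK K ∧ lam τ μ δ (ePt2 μ b' z c) = 0 ∧ etf τ μ δ (ePt2 μ b' z c) = 0) →
            min (rA2 τ μ b b' z (DK K) - 1) (rB2 τ μ b b' z (DK K) - 2) ≤ rA2 τ μ b b' z T₁ ∧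
            rB2 τ μ b b' z (DK K) ≤ rB2 τ μ b b' z T₁ + 2 ∧
            rL2 τ μ b' z T₁ + 1 ≤ rL2 τ μ b' z (DK K)

/-- H5 (see R2 `S_RelAllM`). Induction on `r'` with `ℓ = rL2 (DK K) ≤ m'` and the hypotheses
`r > 0 → r + 1 + ℓ ≤ ρ_A ∧ r + r' + 1 + ℓ ≤ ρ_B` and `r' > 0 → r' + 2 + m ≤ ρ_A ∧ m + 1 + 2 r' ≤ ρ_B` (`rL2 ≥ ρ_A - (1 + m)`: `mixA2` consists of
`δ z`, `m` forms `th`, and the `λ`-forms). -/
def S_RelAllM2 : Prop := ∀ (τ μ : ℂ), Nrm τ μ → ∀ K : IntermediateField ℚ ℂ, Countable K →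
  μ ∈ K → τ ∈ K → et τ ∈ K → kap ∈ K → ∀ (m m' r r' : ℕ) (b : Fin m → ℂ) (b' : Fin m' → ℂ) (z : ℂ),
    (0 < r → r + m' + 1 ≤ rA2 τ μ b b' z (DK K) ∧ r + r' + m' + 1 ≤ rB2 τ μ b b' z (DK K)) →
    (0 < r' → r' + m + 2 ≤ rA2 τ μ b b' z (DK K) ∧ 2 * r' + m + 1 ≤ rB2 τ μ b b' z (DK K)) →
      ∃ (c : Fin r → Fin m → ℚ) (c' : Fin r' → Fin m' → ℚ)
        (δ : Fin r ⊕ Fin r' × Bool → Derivation ℚ ℂ ℂ), (∀ o, δ o ∈ DK K) ∧
        (Matrix.of fun o o' => enE τ μ (fun i => ∑ j, (c i j : ℂ) * (b j * z))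
          (fun i => ∑ j, (c' i j : ℂ) * (μ * (b' j * z))) (δ o) o').det ≠ 0

/-- H6 (adding toric points to independent elliptic points, when only the rank of the toric forms is known). PROOF: from the
determinant in the hypothesis the `2r'` elliptic forms are independent on `DK K`; let `T₁` be their common kernel in `DK K`. The rank of `lgV β` on
`T₁` is `≥ r`, so `r` generic rational combinations of the forms `lgV β` are independent on `T₁` (toric part of `EB/I_RelAll.lean`);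
`Idp.extend`, `Idp.det`. (If `r = 0` it is the hypothesis.) -/
def S_RelAllJ : Prop := ∀ (τ μ : ℂ) (K : IntermediateField ℚ ℂ) (m m' r r' : ℕ)
  (β : Fin m → ℂ) (β' : Fin m' → ℂ) (c' : Fin r' → Fin m' → ℚ) (δ₀ : Fin 0 ⊕ Fin r' × Bool → Derivation ℚ ℂ ℂ),
    (∀ o, δ₀ o ∈ DK K) → (Matrix.of fun o o' => enE τ μ (fun i : Fin 0 => i.elim0)
      (fun i => ∑ j, (c' i j : ℂ) * β' j) (δ₀ o) o').det ≠ 0 →
    (0 < r → r + 2 * r' ≤ Module.finrank ℂ ((DK K).map (lgV β))) →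
      ∃ (c : Fin r → Fin m → ℚ) (δ : Fin r ⊕ Fin r' × Bool → Derivation ℚ ℂ ℂ), (∀ o, δ o ∈ DK K) ∧
        (Matrix.of fun o o' => enE τ μ (fun i => ∑ j, (c i j : ℂ) * β j)
          (fun i => ∑ j, (c' i j : ℂ) * β' j) (δ o) o').det ≠ 0

/-- H7 (see `EB.S_RelPol`, the same statement with separate numbers of columns; same proof as `EB/I_RelPol.lean`). -/
def S_RelPol2 : Prop := ∀ (τ μ : ℂ), Nrm τ μ → ∀ K : IntermediateField ℚ ℂ,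
  μ ∈ K → τ ∈ K → et τ ∈ K → kap ∈ K → ∀ (m m' r r' : ℕ) (β : Fin m → ℂ) (β' : Fin m' → ℂ)
    (c₀ : Fin r → Fin m → ℚ) (c₀' : Fin r' → Fin m' → ℚ)
    (δ : Fin r ⊕ Fin r' × Bool → Derivation ℚ ℂ ℂ), (∀ o, δ o ∈ DK K) →
    (Matrix.of fun o o' => enE τ μ (fun i => ∑ j, (c₀ i j : ℂ) * β j)
      (fun i => ∑ j, (c₀' i j : ℂ) * β' j) (δ o) o').det ≠ 0 →
    ∃ P : MvPolynomial (Fin r × Fin m ⊕ Fin r' × Fin m') ℂ, P ≠ 0 ∧ P.IsHomogeneous (r + 2 * r') ∧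
      ∀ (c : Fin r → Fin m → ℚ) (c' : Fin r' → Fin m' → ℚ),
        MvPolynomial.eval (Sum.elim (fun q => (c q.1 q.2 : ℂ)) (fun q => (c' q.1 q.2 : ℂ))) P ≠ 0 →
        (∀ i, ∑ j, (c' i j : ℂ) * β' j ∉ Lam τ) ∧
        AlgebraicIndependent K (fun o : Fin r ⊕ Fin r' × Bool =>
          Sum.elim (fun i => Complex.exp (∑ j, (c i j : ℂ) * β j))
            (fun q : Fin r' × Bool => if q.2 then ze τ μ (∑ j, (c' q.1 j : ℂ) * β' j)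
              else xe τ μ (∑ j, (c' q.1 j : ℂ) * β' j)) o)

/-- H8 (**the final theorem at one point**, see R3 and `EB/I_FinalZ.lean`, `FinalZ2_pf`). PROOF: `r' = 0`: as `fin_tor` there (with
`TT (Fin.append b b')`; if `r = 0` too, there is nothing to prove, `P = 1`). `r' > 0`: `K` = field generated by `B(t, p)`, `b`, `b'`, `μ`; ranks on `DK K` are at
least the ranks on `TT (Fin.append b b')` minus `N` (`rank_DK`). Case (J): `z' = z / (ω₁ μ)`, `μ z' = z / ω₁`: H5 with `m = 0`, `r = 0` at `z'`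
(`rA2 ≥ m' - κ - N`, `rB2 ≥ tgt2 true 0 m' - κ - N`) gives the elliptic determinant, H6 (`r + 2r' ≤ m - κ - N - 1 ≤` rank of `lgV`) the full one. Case (M):
H5 at `z`, `μ = ω₁⁻¹`, `rA2 ≥ m + m' - κ - N`, `rB2 ≥ tgt2 true m m' - κ - N`. (`tgt2 true m m' ≥ m + 2m' - (m'+1)/2`, `3 * m' / 2 = 2 * m' - (m'+1)/2`,
`m' / 2 = m' - (m'+1)/2`.) Then H7 and `fin_step`. -/
def S_FinalZH : Prop := ∀ (m m' κ r r' N : ℕ) (b : Fin m → ℂ) (b' : Fin m' → ℂ) (z ω₁ ω₂ : ℂ),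
  TrLe κ (Fin.append b b') →
  (0 < r → r + N + κ + 1 ≤ m ∧
    m ≤ κ + 1 + Module.finrank ℂ ((TT (Fin.append b b')).map (lgV (fun j => b j * z)))) →
  (0 < r' → ∃ τ μ : ℂ, Nrm τ μ ∧ (ω₂ = ω₁ * τ ∨ ω₂ = -(ω₁ * τ)) ∧ ω₁ ≠ 0 ∧
    (∀ K : IntermediateField ℚ ℂ, gg2 τ ∈ K → gg3 τ ∈ K → IsAlgebraic K μ) ∧
    r' + N + κ + 2 ≤ m' ∧ 2 * r' + N + κ + 1 ≤ 3 * m' / 2 ∧
    ((m' ≤ κ + rA2 τ μ (fun i : Fin 0 => i.elim0) b' (z / (ω₁ * μ)) (TT (Fin.append b b')) ∧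
      tgt2 true 0 m' ≤ κ + rB2 τ μ (fun i : Fin 0 => i.elim0) b' (z / (ω₁ * μ)) (TT (Fin.append b b')) ∧
      (0 < r → r + 2 * r' + N + κ + 1 ≤ m)) ∨
     (μ = ω₁⁻¹ ∧ m + m' ≤ κ + rA2 τ μ b b' z (TT (Fin.append b b')) ∧
      tgt2 true m m' ≤ κ + rB2 τ μ b b' z (TT (Fin.append b b')) ∧
      (0 < r → r + r' + N + κ + 1 ≤ m + m' / 2)))) →
  ∀ (s k : ℕ) (t : Fin s → ℂ) (p : Fin k → ℂ), ¬ HasTrdeg (bigField ω₁ ω₂ t p) (N + 1) →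
    ∃ P : MvPolynomial (Fin r × Fin m ⊕ Fin r' × Fin m') ℂ, P ≠ 0 ∧ P.IsHomogeneous (r + 2 * r') ∧
      ∀ (c : Fin r → Fin m → ℚ) (c' : Fin r' → Fin m' → ℚ),
        MvPolynomial.eval (Sum.elim (fun q => (c q.1 q.2 : ℂ)) (fun q => (c' q.1 q.2 : ℂ))) P ≠ 0 →
        ∀ (u : Fin r → ℂ) (v : Fin r' → ℂ), (∀ i, u i = (∑ j, (c i j : ℂ) * b j) * z) →
          (∀ i, v i = (∑ j, (c' i j : ℂ) * b' j) * z) →
          (∀ i, ∀ a b : ℤ, v i ≠ (a : ℂ) * ω₁ + (b : ℂ) * ω₂) ∧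
          (∀ d, HasTrdeg (bigField ω₁ ω₂ t p) d →
            HasTrdeg (bigField ω₁ ω₂ (Fin.append t u) (Fin.append p v)) (d + r + 2 * r')) ∧
          (Q1 ω₁ ω₂ t p → Q1 ω₁ ω₂ (Fin.append t u) (Fin.append p v))

/-- H9 (**the absolute statements at a point**, see R4 `S_AbsM`). -/
def S_AbsM2 : Prop := ∀ (m m' κ₀ : ℕ) (b : Fin m → ℂ) (b' : Fin m' → ℂ) (z ω₁ ω₂ τ μ : ℂ)
  (sb : Fin κ₀ → Fin (m + m')),
  AlgebraicIndependent ℚ (fun i => Fin.append b b' (sb i)) →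
  (∀ j, IsAlgebraic (IntermediateField.adjoin ℚ (Set.range fun i => Fin.append b b' (sb i)))
    (Fin.append b b' j)) →
  Nrm τ μ → (ω₂ = ω₁ * τ ∨ ω₂ = -(ω₁ * τ)) → ω₁ ≠ 0 → μ = ω₁⁻¹ → (∀ j, μ * (b' j * z) ∉ Lam τ) →
  m + m' ≤ κ₀ + rA2 τ μ b b' z (TT (Fin.append b b')) →
  tgt2 true m m' ≤ κ₀ + rB2 τ μ b b' z (TT (Fin.append b b')) →
    (∃ s : Fin (m + m') → Fin (m + m') ⊕ Option (Fin m ⊕ Fin m'), AlgebraicIndependent ℚ (fun i =>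
      Sum.elim (Fin.append b b') (fun o => o.elim z (Sum.elim (fun j => Complex.exp (b j * z))
        (fun j => wp ω₁ ω₂ (b' j * z)))) (s i))) ∧
    (∃ s : Fin (m + 2 * m' - (if m' ≤ 1 then 0 else (m' + 1) / 2)) →
        Fin (m + m') ⊕ Option (Fin m ⊕ (Fin m' ⊕ Fin m')),
      AlgebraicIndependent ℚ (fun i =>
        Sum.elim (Fin.append b b') (fun o => o.elim z (Sum.elim (fun j => Complex.exp (b j * z))
          (Sum.elim (fun j => wp ω₁ ω₂ (b' j * z)) (fun j => zt ω₁ ω₂ (b' j * z))))) (s i)))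

/-- H10 (see `EB.S_TorRank`, `EB/I_TorRank.lean`): the same proof over the field generated by `b` and `b'`. -/
def S_TorRank2 : Prop := ∀ (m m' κ : ℕ) (b : Fin m → ℂ) (b' : Fin m' → ℂ) (z : ℂ), Sch b z →
  TrLe κ (Fin.append b b') →
  m ≤ κ + 1 + Module.finrank ℂ ((TT (Fin.append b b')).map (lgV (fun j => b j * z)))

/-- H11 (**killing more numbers**). PROOF. `κ'` = the transcendence degree of `c` (`pr_TrBasis`, `pr_TrCount`), with transcendence basis `c_{s i}`;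
extend it by `d` numbers `θ` among the `a_j` to a transcendence basis of `Fin.append a c`, `κ' + d ≤ κ` by `TrLe κ`. The derivations in `TT c` killing the
`θ_i` are in `TT (Fin.append a c)` (algebraic numbers over a field of constants are constants), so the rank drops by at most `d` (`I_FinalZ.rank_DK`,
or `TG.lin_ker`). -/
def S_KillMore : Prop := ∀ (M M' : ℕ) (a : Fin M → ℂ) (c : Fin M' → ℂ) (κ : ℕ),
  TrLe κ (Fin.append a c) → ∃ κ' : ℕ, TrLe κ' (Fin.append (fun i : Fin 0 => i.elim0) c) ∧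
    ∀ (J : Type) [Fintype J] (f : Derivation ℚ ℂ ℂ →ₗ[ℂ] (J → ℂ)) (ρ : ℕ),
      ρ ≤ κ' + Module.finrank ℂ ((TT (Fin.append (fun i : Fin 0 => i.elim0) c)).map f) →
        ρ ≤ κ + Module.finrank ℂ ((TT (Fin.append a c)).map f)

end Pool.Agent.Work.MP_8da9ea_nt.MX
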