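import Pool.Agent.Work.MP_8da9ea_nt.MX.DefsF
import Pool.Agent.Work.MP_8da9ea_nt.MX.StmtsH

/-!
# Mixed block, lossless version (FULL): statements, with proofs in the comments

`rkD E a = dim {(δ a_j)_j : δ ∈ DK E}` is the transcendence degree of `E(a)` over `E`.
-/

set_option autoImplicit false

namespace Pool.Agent.Work.MP_8da9ea_nt.MX

open MvPolynomial Pool.Agent.Work.MP_327059_nt.GL Pool.Agent.Work.MP_8da9ea_nt.S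
  Pool.Agent.Work.MP_8da9ea_nt.EB

/-! ## Part L: fields -/

/-- L1 (**free copy**). PROOF. Let `a ∘ s₀` be a transcendence basis of `K(a)` over `K` (`s₀ : Fin g → J`). `L` is countable, so there are
`ξ_1, …, ξ_g ∈ ℂ` algebraically independent over `L` (`x_DenseK`, or cardinality). The isomorphism `K(a ∘ s₀) → K(ξ)` extends to an
embedding `K(a) → ℂ` over `K` (`ℂ` is algebraically closed, `K(a)` is algebraic over `K(a ∘ s₀)`); `a'` = the image of `a`. The relations over `K` are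
the same. Let `a ∘ s` be algebraically independent over `K`; extend it to a transcendence basis `a ∘ s₁` of `K(a)/K`, of cardinality `g`.
`a'` is algebraic over `K(a' ∘ s₁)`, so `ξ` is algebraic over `L(a' ∘ s₁)`; as `ξ` has `g` elements, `a' ∘ s₁` is algebraically independent over
`L` (`pr_TrCount`-like exchange over the base `L`). -/
def S_CopyF : Prop := ∀ (K L : IntermediateField ℚ ℂ), Countable L → K ≤ L →
  ∀ (J : Type) [Fintype J] (a : J → ℂ), ∃ a' : J → ℂ,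
    (∀ P : MvPolynomial J K, aeval a P = 0 ↔ aeval a' P = 0) ∧
    ∀ (k : ℕ) (s : Fin k → J), AlgebraicIndependent K (fun i => a (s i)) →
      AlgebraicIndependent L (fun i => a' (s i))

/-- L2 (**specialisation**). `h = rkD K y`. PROOF. Choose `ξ = y ∘ s` (`s : Fin h → J`) a transcendence basis of `K(y)` over `K`. Let `ξ' = y ∘ s'`,
`s' : Fin g → J`, be such that `(ξ, ξ')` is a transcendence basis of `E(y)` over `E` (`ξ` is independent over `K ⊇ E`); `g = rkD E y - h ≤ d`. For every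
`j` there is a polynomial `Q_j ∈ E[X, X'][Y]`, of positive degree in `Y`, with `Q_j(ξ, ξ', y_j) = 0` and leading coefficient `q_j(ξ, ξ') ≠ 0`. The numbers
`y_j` and `q_j(ξ, ξ')⁻¹` are algebraic over `K(ξ)`, so there is `0 ≠ p ∈ K[X_1, …, X_h]` such that all of them are integral over
`R = K[ξ][1/p(ξ)]`. Choose `ξ⁰ ∈ ℤ^h` with `p(ξ⁰) ≠ 0`. The `K`-homomorphism `R → K`, `ξ ↦ ξ⁰` extends to a homomorphism `φ : R[y, q⁻¹] → K`: `R[y, q⁻¹]` is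
integral over `R` and `K` is algebraically closed (lying over: `Ideal.exists_ideal_over_maximal_of_isIntegral`/`Ideal.exists_ideal_over_prime_of_isIntegral`,
the residue field is algebraic over `K`). Put `y⁰ = φ(y)`. All relations over `K` are preserved. `φ(q_j(ξ, ξ')) = q_j(ξ⁰, φ ξ') ≠ 0` (its inverse is
`φ(q_j⁻¹)`), so `y⁰_j` is algebraic over `E(ξ⁰, φ ξ') = E(φ ξ')`: the transcendence degree of `E(y⁰)` over `E` is at most `g ≤ d`. -/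
def S_SpzF : Prop := ∀ (E K : IntermediateField ℚ ℂ), ACl E → ACl K → E ≤ K →
  ∀ (J : Type) [Fintype J] (y : J → ℂ) (d : ℕ), rkD E y ≤ rkD K y + d →
    ∃ y₀ : J → ℂ, (∀ P : MvPolynomial J K, aeval y P = 0 → aeval y₀ P = 0) ∧ rkD E y₀ ≤ d

/-- L3 (the rank of the combinations at an arbitrary complex point). PROOF. Write `ρ(w) = dim {(∑_i w_i δ A_il)_l : δ ∈ DK E}` for `w ∈ ℂ^n`. If
`δ v = 0` then `δ (∑ v_i A_il) = ∑ v_i δ A_il`, so the left hand side is `≤ ρ(v)`. If `ρ(v) > r` there are `δ_p ∈ DK E`, `l_q` (`p, q ≤ r`) with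
`det (∑_i v_i δ_p A_{i, l_q}) ≠ 0`; this determinant is a polynomial in `v`, not zero, so it is not zero at some `w ∈ ℚ^n`, where
`∑_i w_i δ A_il = δ (∑ w_i A_il)`: contradiction with `rkD E (cQ w A) ≤ r`. -/
def S_RkV : Prop := ∀ (E : IntermediateField ℚ ℂ) (n : ℕ) (κ : Type) [Fintype κ] (A : Fin n → κ → ℂ) (r : ℕ),
  (∀ w : Fin n → ℚ, rkD E (cQ w A) ≤ r) → ∀ v : Fin n → ℂ,
    Module.finrank ℂ ((DK E ⊓ TT v).map (fam fun l => dL (cC v A l))) ≤ r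

/-- L4 (**counting**). PROOF. Let `v ∈ ℂ^n` be algebraically independent over `K` (`K` is countable), `D = rkD E A`, `K_v` = the algebraic closure in `ℂ`
of `E(v, A_v)`, `A_v = cC v A`, `L` = the algebraic closure of `K(v)`; `K_v ≤ L`, `L` is countable. `y` := the free copy (L1) of the tuple `A` over `K_v`,
relative to `L`.
(a) All relations over `K_v`, in particular those over `E`, are the same, so `rkD E y = D`. The polynomials `∑_i v_i X_il - (A_v)_l` have coefficients in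
`K_v` and vanish at `A`: so `∑_i v_i (A_il - y_il) = 0` for all `l`.
(b) `{(δ v, δ A) : δ ∈ DK E}` has dimension `n + D` (`v` is algebraically independent over `K`, which contains `E` and `A`), and `{(δ v, δ A_v) : δ ∈ DK E}` has
dimension at most `n + r` (L3 on the kernel of `δ ↦ δ v`). So `g := rkD K_v A ≥ D - r` (`DK K_v` is the kernel of `δ ↦ (δ v, δ A_v)` on `DK E`). By L1,
`g` of the numbers `y_il` are algebraically independent over `L`: `rkD L y ≥ g`, and `DK L = DK K ⊓ TT v`.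
(c) `{(δ v, δ y) : δ ∈ DK K}` has dimension `n + rkD L y ≥ n + D - r`; on the other hand it is at most `rkD K y + dim {δ v : δ ∈ DK K, δ y = 0}`, and for such `δ`
(a) gives `∑_i (A_i - y_i) δ v_i = 0` (`δ A = 0`, as `A ∈ K`): the dimension of these vectors is at most `n - ρ`, `ρ = dim span {A_i - y_i}`. -/
def S_CntL : Prop := ∀ (E K : IntermediateField ℚ ℂ), ACl E → ACl K → Countable K → E ≤ K →
  ∀ (n : ℕ) (κ : Type) [Fintype κ] (A : Fin n → κ → ℂ) (r : ℕ), (∀ i l, A i l ∈ K) →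
  (∀ w : Fin n → ℚ, rkD E (cQ w A) ≤ r) →
  ∃ y : Fin n → κ → ℂ, rkD E (fun q : Fin n × κ => y q.1 q.2) = rkD E (fun q : Fin n × κ => A q.1 q.2) ∧
    rkD E (fun q : Fin n × κ => A q.1 q.2) +
        Module.finrank ℂ (Submodule.span ℂ (Set.range fun i => A i - y i)) ≤
      rkD K (fun q : Fin n × κ => y q.1 q.2) + r

/-- L5 (**the lossless lemma**). PROOF. `K` = the algebraic closure in `ℂ` of `E(A)` (countable). `y` from L4; `h = rkD K y ≤ rkD E y = D` (`DK K ≤ DK E`); put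
`d₀ = D - h`; `ρ₀ = dim span {A_i - y_i}`, `d₀ + ρ₀ ≤ r`. L2 with `d = d₀`: `y⁰` with `rkD E y⁰ ≤ d₀` satisfying all relations over `K` of `y`. The minors of size
`ρ₀ + 1` of the matrix `(A_il - y_il)` are polynomials in `y` with coefficients in `K`, and vanish; so they vanish at `y⁰`, and
`dim span {A_i - y⁰_i} ≤ ρ₀`. Let `U` be a basis of this span, `A_i - y⁰_i = ∑ t_ik U_k`. `F` = the algebraic closure of `E(y⁰)`, `d = rkD E y⁰`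
(`TrE E e → TrE F (e + d)`: `pr_TrCount`). -/
def S_LL : Prop := ∀ (E : IntermediateField ℚ ℂ), ACl E → Countable E → ∀ (n : ℕ) (κ : Type) [Fintype κ]
  (A : Fin n → κ → ℂ) (r : ℕ), (∀ w : Fin n → ℚ, rkD E (cQ w A) ≤ r) →
  ∃ (F : IntermediateField ℚ ℂ) (d ρ : ℕ) (y : Fin n → κ → ℂ) (U : Fin ρ → κ → ℂ) (t : Fin n → Fin ρ → ℂ),
    ACl F ∧ E ≤ F ∧ (∀ e : ℕ, TrE E e → TrE F (e + d)) ∧ (∀ i l, y i l ∈ F) ∧
    (∀ i l, A i l = y i l + ∑ k, t i k * U k l) ∧ d + ρ ≤ r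

/-! ## Part N: a transcendence input in several variables -/

/-- N1 (**pigeonhole, vector valued**). PROOF: `FR.S_PLg` (`FR/`, adapted from `GL.pr_PLm`, Bd/B11.lean) with the additional index `ξ ∈ Ξ`: the number of
linear forms is `card Ξ` times larger. -/
def S_PLv : Prop := ∀ (N ι Ξ : Type) [Fintype N] [Fintype ι] [Fintype Ξ] (K h : ℕ)
  (c : N → Ξ → ι → ℕ → ℂ) (R A : ℝ), 0 ≤ R → 1 ≤ A → 1 ≤ K → 1 ≤ Fintype.card Ξ →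
  (∀ x ξ i k, ‖c x ξ i k‖ * R ^ k ≤ A / 2 ^ k) →
  4 * K ^ (Fintype.card ι + 1) * Fintype.card Ξ ≤ h * Fintype.card N →
    ∃ p : N → ℤ, p ≠ 0 ∧ (∀ x, |p x| ≤ (2 : ℤ) ^ h) ∧
      ∀ (ξ : Ξ) (z : ι → ℂ), (∀ i, ‖z i‖ ≤ R) →
        ‖∑ x, (p x : ℂ) * ∏ i, ∑' k, c x ξ i k * z i ^ k‖ ≤
          (4 * (K : ℝ) ^ (Fintype.card ι) + Fintype.card ι * 4 ^ (Fintype.card ι)) *
            ((Fintype.card N : ℝ) * 2 ^ h * A ^ (Fintype.card ι)) / 2 ^ K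

/-- N2 (**auxiliary function in the variables `z_r`, `t_r ∈ ℂ^ρ`**). PROOF (compare `I_PsiM.lean`). Functions: `g_i(z) - ∑_k t_k U_ki` (`i` additive,
`g = PN(zb)`), `e^{b_i z}`, `X(b_i z)`; `N = card ι`, `G = N + 1`, `W = T^q`. Multiply by the clearing functions `∏_{j ell} q_j(b_j z)^{2NW}` as in
`I_PsiM`. The product `∏_i (…)^{x_i}` is a polynomial in `t` of degree `≤ N W`: its coefficients are entire functions `h_{x,α}(z)` (`α : Fin ρ → Fin (N W + 1)`; only those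
with `∑ α ≤ N W` occur) which are `≤ e^{C T^{q+3}}` on the ball (sums of products of powers of the `g_i`, binomial coefficients and powers of
the `U_ki`). N1 with `Ξ = (Fin G → Fin ρ → Fin (N W + 1))`, `h = T^{q+4}`, `K = T^κ`, `κ = (q + e₁)(N - ρ - 1) + e₂ + 5`:
`4 T^{κ(G+1)} (N T^q + 1)^{ρG} ≤ T^{q+4} T^{qNG}`, because the coefficient of `q` in the exponents is `(N - ρ - 1)(G + 1) + ρG` on the left and `1 + NG` on the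
right, and with `ν = N - ρ ≥ 2`: `1 + νG - (ν - 1)(G + 1) = G + 2 - ν ≥ 1`; so it holds for `q ≥ q₀`. Summing over `α`, `|t^α| ≤ (R₀T)^{N W G}`: for
`v⁰_ri = g_i(z_r) - ∑ t_rk U_ki` the value is `≤ ½ exp(-T^{(q+e₁)(ν-1)+e₂})`. The difference between `v` and `v⁰` (additive coordinates only) changes the
value, times the clearing factors, by at most `e^{T^{q+5}} exp(-T^{…})`: at each `z_r`, `(1 + |g_i(z_r)| + |tU| + 1)^{x_i} ≤ e^{C T^{q+3}} /` (clearing factors). -/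
def S_PsiF : Prop := ∀ (ι : Type) [Fintype ι] (ρ e₁ e₂ : ℕ), ρ + 2 ≤ Fintype.card ι → ∃ q₀ : ℕ,
  ∀ q : ℕ, q₀ ≤ q → ∀ (τ μ : ℂ), 0 < τ.im → μ ≠ 0 → ∀ (ty : ι → Ty) (b : ι → ℂ)
  (c : ι → ι → ℂ) (U : Fin ρ → ι → ℂ) (R₀ : ℝ), 1 ≤ R₀ → (∀ j, ty j = Ty.ell → b j ≠ 0) →
    ∃ T₀ : ℕ, ∀ T : ℕ, T₀ ≤ T → ∃ p : (Fin (Fintype.card ι + 1) → ι → Fin (T ^ q)) → ℤ,
      p ≠ 0 ∧ (∀ x, |p x| ≤ (2 : ℤ) ^ (T ^ (q + 4))) ∧
      ∀ (z : Fin (Fintype.card ι + 1) → ℂ) (t : Fin (Fintype.card ι + 1) → Fin ρ → ℂ)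
        (v : Fin (Fintype.card ι + 1) → ι → ℂ), (∀ r, ‖z r‖ ≤ R₀ * T) → (∀ r k, ‖t r k‖ ≤ R₀ * T) →
        (∀ r j, ty j = Ty.ell → b j * z r ∉ Lam τ) →
        (∀ r i, ty i ≠ Ty.add → v r i = PN τ μ ty c (fun j => b j * z r) i) →
        (∀ r i, ty i = Ty.add → ‖v r i - (PN τ μ ty c (fun j => b j * z r) i - ∑ k, t r k * U k i)‖ ≤
          Real.exp (-((T : ℝ) ^ ((q + e₁) * Fintype.card ι + e₂ + q + 6)))) →
        ‖AFv p v‖ * ∏ r, dd τ ty b (2 * (Fintype.card ι * T ^ q)) (z r) ≤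
          Real.exp (-((T : ℝ) ^ ((q + e₁) * (Fintype.card ι - ρ - 1) + e₂)))

/-- N3 (**criterion step**). Compare `S_CritM`, `I_CritM.lean`; differences: the parameters `u_ij` (`j` additive) of the true points are arbitrary, the numbers
`b_i` (`i` additive) are not coordinates of the point (`ptM` with `b = 0`: they are not used in `I_CritM`), the points `s` are restricted to a subset
`A` of the box, and the values are given directly. PROOF: `I_CritM.lean` word by word. (The quadruples `VQ j s` only involve the elliptic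
coordinates; `S_TrueQ` is applied to these: the values `ValQ` of `V` at two points of `VM n ι` with the same elliptic coordinates `(k, j, _)` are the
same.) -/
def S_CritF : Prop := ∀ (ι : Type) [Fintype ι] (n G k : ℕ), 2 ≤ n → 1 ≤ G → ∀ (τ μ : ℂ)
  (ty : ι → Ty) (i₀ : Option ι) (π : ι → ι) (b : ι → ℂ) (c : ι → ι → ℂ) (x : Fin n → ℂ)
  (u : Fin n → ι → ℂ), Nrm τ μ → EchC ty i₀ π c → NTM τ ty b x →
  (∀ i j, ty j ≠ Ty.add → u i j = b j * x i) → TrLe k (ptM τ μ ty (fun _ => 0) c u) →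
  ∃ (C : ℝ) (T₀ : ℕ), 1 ≤ C ∧ ∀ T : ℕ, T₀ ≤ T → ∀ A : Set (Fin n → ℤ),
    (∀ s ∈ A, s ≠ 0 ∧ ∀ i, 0 ≤ s i ∧ s i ≤ (T : ℤ)) → ∀ (W : ℕ) (h V : ℝ), 1 ≤ W → 1 ≤ h →
    C * (W * (T : ℝ) ^ 11 + h) ^ (k + 1) ≤ V →
    ∀ p : (Fin G → ι → Fin W) → ℤ, p ≠ 0 → (∀ x, |(p x : ℝ)| ≤ Real.exp h) →
    (∀ s : Fin G → Fin n → ℤ, (∀ r, s r ∈ A) →
      ‖AFv p (fun r => PN τ μ ty c (pcI u (s r)))‖ *
        ∏ r, dd τ ty b (2 * (Fintype.card ι * W)) (cmb (s r) x) ≤ Real.exp (-V)) →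
    ∃ (u' : Fin n → ι → ℂ) (c' : ι → ι → ℂ) (F : MvPolynomial ι ℂ),
      (∀ i j, ‖u' i j - u i j‖ ≤ Real.exp (-V / (C * (W * (T : ℝ) ^ 11 + h) ^ k))) ∧
      EchC ty i₀ π c' ∧ F ≠ 0 ∧ (∀ j, F.degreeOf j < W) ∧
      ∀ s ∈ A, Gd τ ty (pcI u' s) → eval (PN τ μ ty c' (pcI u' s)) F = 0

/-- N4 (**a polynomial vanishing at many perturbed points**). PROOF (compare `I_NZM.lean`). If less than half of the `s ∈ A` have `Gd (pcI u s)`, then for some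
elliptic `j` many `s` satisfy `pcI u s j ∈ Λ`: `w = e_j`. Otherwise `S_ZMall` (`c` there is `μ c'`, the variables are rescaled) with `K = 2 T^{c₀}`. Elliptic and
multiplicative relations: as in `I_NZM.lean` (`x_ManyInd`, `x_Sieg`, `AdB`): `s* ≠ 0` with `|s*| ≤ T^5`, `‖cmb s* x‖ ≤ ε e^T`, `ε = exp(-T^{6Q'+6})`: contradiction with
`MS Q' x` for large `T`. Additive relation `w`: `EchC` for `c'` forces `w_i = 0` for `i ≠ i₀` (the column `π i`); so `i₀ = some i`, and `pcI u s i = 0` for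
many `s`, `|s| ≤ k₀ S`. (`k₀` = the maximum over all `ty` of the constants `k` of `ZM ty`; `T^{c₁} ≥ C (2BK)^k`.) -/
def S_NZF : Prop := ∀ (Q Q' q c₀ : ℕ) (ι : Type) [Fintype ι], ∃ n₀ k₀ c₁ : ℕ, 1 ≤ k₀ ∧
  ∀ (τ μ : ℂ), 0 < τ.im → μ ≠ 0 → ∀ (ty : ι → Ty) (i₀ : Option ι) (π : ι → ι) (b : ι → ℂ),
  AdB Q τ μ ty b → ∀ n : ℕ, n₀ ≤ n → ∀ x : Fin n → ℂ, MS Q' x →
    ∃ T₀ : ℕ, ∀ T : ℕ, T₀ ≤ T → ∀ S : ℕ, T ≤ S → S ≤ T ^ 2 → ∀ (u : Fin n → ι → ℂ)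
      (c' : ι → ι → ℂ) (F : MvPolynomial ι ℂ) (A : Finset (Fin n → ℤ)),
      (∀ i j, ty j ≠ Ty.add → ‖u i j - b j * x i‖ ≤ Real.exp (-((T : ℝ) ^ (6 * Q' + 6)))) →
      EchC ty i₀ π c' → F ≠ 0 → (∀ j, F.degreeOf j ≤ T ^ q) →
      (∀ s ∈ A, s ≠ 0 ∧ ∀ i, 0 ≤ s i ∧ s i ≤ (S : ℤ)) → (S + 1) ^ n ≤ T ^ c₀ * A.card →
      (∀ s ∈ A, Gd τ ty (pcI u s) → eval (PN τ μ ty c' (pcI u s)) F = 0) →
      ∃ i : ι, i₀ = some i ∧ (S + 1) ^ n ≤ T ^ c₁ * Set.ncard {s : Fin n → ℤ |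
        (∀ i', |s i'| ≤ ((k₀ * S : ℕ) : ℤ)) ∧ pcI u s i = 0}

/-- N5 (**first step**). Notation: `N = m₁ + 2 m₂ + 1` functions: additive rows `none` (`z`), `some l` (`Z(μ b₂_l z)`); `e^{b₁_j z}`; `X(μ b₂_l z)`;
`ι = Option (Fin m₂) ⊕ (Fin m₁ ⊕ Fin m₂)`, `b (inl none) = 1`, `b (inl (some l)) = 0`, `c (inl (some l)) (inr (inr l)) = 1`, `i₀ = some (inl none)`,
`π (inl (some l)) = inr (inr l)`. True points: `u_i(inl none) = y_i none`, `u_i(inl (some l)) = y_i(some l) - Z(μ b₂_l x_i)`, `u_i(inr …) = b₁_j x_i, μ b₂_l x_i`. The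
coordinates of `ptM … (fun _ => 0) c u` are algebraic over, or equal to, those of `valF`, so `TrLe k`; `k ≤ N - ρ - 2`. For every `s`:
`PN(pcI u s) (inl none) = z_s - ∑_k t_k(s) U_k none`, `PN(pcI u s)(inl (some l)) = Z(μ b₂_l z_s) - ∑_k t_k(s) U_k(some l)`, `t(s) = ∑ s_i t_i`, `z_s = cmb s x`.
PROOF. N2 with `e₁ = 12`, `e₂ = max (6Q' + 6) a + 3` gives `q` (the maximum over all `m₁, m₂ ≤ m`, `ρ`) and `p` (the approximation of `v` is exact here); N3 with `A` = the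
box without `0`, `W = T^q`, `h = T^{q+4}`, `V = T^{(q+12)(N-ρ-1)+e₂}` (`C (W T^11 + h)^{k+1} ≤ V` as `k + 1 ≤ N - ρ - 1`, and `ε ≤ exp(-T^{e₂-1})`); N4 with `c₀ = 1`,
`S = T`. So for many `s`, `|s_i| ≤ k₀ T`, `∑ s_i u'_i(inl none) = 0`, and `|∑ s_i y_i none| ≤ n k₀ T ε ≤ exp(-T^a)`. (If `m₂ = 0`, `m₁ = 0` there is nothing to
prove, as `k + ρ + 1 ≤ 0` is impossible.) -/
def S_TIF1 : Prop := ∀ (Q Q' m a : ℕ), ∃ n₀ k₀ c₁ : ℕ, 1 ≤ k₀ ∧ ∀ (m₁ m₂ : ℕ), m₁ ≤ m → m₂ ≤ m →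
  ∀ (τ μ : ℂ) (b₁ : Fin m₁ → ℂ) (b₂ : Fin m₂ → ℂ), Nrm τ μ → FTI Q (Sum.elim b₁ b₂) →
  LinearIndependent ℚ b₁ → KLI τ b₂ → ∀ n : ℕ, n₀ ≤ n → ∀ x : Fin n → ℂ, MS Q' x →
  (∀ s : Fin n → ℤ, s ≠ 0 → ∀ j, μ * b₂ j * cmb s x ∉ Lam τ) →
  ∀ (k ρ : ℕ) (y : Fin n → Option (Fin m₂) → ℂ) (U : Fin ρ → Option (Fin m₂) → ℂ)
    (t : Fin n → Fin ρ → ℂ), (∀ i o, AW τ μ b₂ x i o = y i o + ∑ l, t i l * U l o) →
    TrLe k (valF τ μ b₁ b₂ x y) → k + ρ + 1 ≤ m₁ + 2 * m₂ →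
    ∃ T₀ : ℕ, ∀ T : ℕ, T₀ ≤ T → (T + 1) ^ n ≤ T ^ c₁ * Set.ncard {s : Fin n → ℤ |
      (∀ i, |s i| ≤ ((k₀ * T : ℕ) : ℤ)) ∧
        ‖∑ i, (s i : ℂ) * y i none‖ ≤ Real.exp (-((T : ℝ) ^ a))}

/-- N6 (**second step**). `U_0 none = 1`, `U_l none = 0` for `l > 0`. Functions (`N₀ = m₁ + 2 m₂`): `ι = Fin m₂ ⊕ (Fin m₁ ⊕ Fin m₂)`: additive rows
`Z(μ b₂_l z) - U_0(some l) z` (`b (inl l) = -U_0 (some l)`), `e^{b₁_j z}`, `X(μ b₂_l z)`; `i₀ = none`; `ρ' = ρ - 1` directions `U_1, …`; `k ≤ N₀ - ρ' - 2`.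
PROOF. N2 with `e₁ = 12`, `e₂ = 6Q' + 9`: `q` (the same for all `m₁, m₂ ≤ m`); `a = (q + 12) 3m + e₂ + q + 8`. `n₀` from N4 with `c₀ = c₁ + 1` (all `m₁, m₂ ≤ m`).
Suppose that for a large `T` the set `B_T` in the statement satisfies `(T + 1)^n ≤ T^{c₁} |B_T|`. For one of the `2^n` sign vectors `σ` the set
`A = {s ≠ 0 : 0 ≤ s_i ≤ k₀ T, (σ_i s_i) ∈ B_T}` satisfies `|B_T| ≤ 2^n (|A| + 1)`. Let `x^σ_i = σ_i x_i`, `y^σ = σ y`, `t^σ = σ t`: the hypotheses hold for these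
(`Z` is odd, `X` even, `e^{-b x}` is the inverse: `TrLe k` is preserved). True points `u_i(inl l) = σ_i (y_i(some l) - Z(μ b₂_l x_i))`. N3 for each of the finitely many
`σ`. For `s ∈ A`: `PN(pcI u s)(inl l) = Z(μ b₂_l z_s) - ∑_{k ≥ 0} t_k(s) U_k(some l)`, and `t_0(s) = z_s - y_s none`, `|y_s none| ≤ exp(-T^a)`: it differs from
`(Z(μ b₂_l z_s) - U_0(some l) z_s) - ∑_{k ≥ 1} t_k(s) U_k(some l)` by `U_0(some l) y_s none`, so N2 applies. N3 with `T := k₀ T`, `W = T^q`, `h = T^{q+4}`,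
`V = T^{(q+12)(N₀-ρ'-1)+e₂}`; N4 with `S = k₀ T` (and `i₀ = none`) gives a contradiction. -/
def S_TIF0 : Prop := ∀ (Q Q' m : ℕ), ∃ a : ℕ, ∀ k₀ c₁ : ℕ, 1 ≤ k₀ → ∃ n₀ : ℕ, ∀ (m₁ m₂ : ℕ), m₁ ≤ m →
  m₂ ≤ m → ∀ (τ μ : ℂ) (b₁ : Fin m₁ → ℂ) (b₂ : Fin m₂ → ℂ), Nrm τ μ → FTI Q (Sum.elim b₁ b₂) →
  LinearIndependent ℚ b₁ → KLI τ b₂ → ∀ n : ℕ, n₀ ≤ n → ∀ x : Fin n → ℂ, MS Q' x →
  (∀ s : Fin n → ℤ, s ≠ 0 → ∀ j, μ * b₂ j * cmb s x ∉ Lam τ) →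
  ∀ (k ρ : ℕ) (y : Fin n → Option (Fin m₂) → ℂ) (U : Fin (ρ + 1) → Option (Fin m₂) → ℂ)
    (t : Fin n → Fin (ρ + 1) → ℂ), (∀ i o, AW τ μ b₂ x i o = y i o + ∑ l, t i l * U l o) →
    U 0 none = 1 → (∀ l : Fin ρ, U l.succ none = 0) →
    TrLe k (valF τ μ b₁ b₂ x y) → k + (ρ + 1) + 1 ≤ m₁ + 2 * m₂ →
    ∃ T₀ : ℕ, ∀ T : ℕ, T₀ ≤ T → T ^ c₁ * Set.ncard {s : Fin n → ℤ |
      (∀ i, |s i| ≤ ((k₀ * T : ℕ) : ℤ)) ∧
        ‖∑ i, (s i : ℂ) * y i none‖ ≤ Real.exp (-((T : ℝ) ^ a))} < (T + 1) ^ n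

/-- N7 (**transcendence input in several variables**). PROOF. Suppose `k + ρ + 1 ≤ m₁ + 2 m₂`. `a₀` from N6; N5 with `a = max a₀ (Q' + 2)`; N6 with the `k₀, c₁` of N5 (for
the larger `a` the set is smaller). If all `U_l none = 0`, then `y_i none = x_i`, and a non-zero `s` in the set of N5 (it has more than one element as
`n > c₁`) contradicts `MS Q' x` for large `T`. Otherwise `ρ = ρ' + 1`; choose `l₀` with `U_{l₀} none ≠ 0`, new directions: `U'_0 = U_{l₀} / U_{l₀} none`, the others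
`U_l - (U_l none) U'_0` (`l ≠ l₀`); `t'_i0 = ∑_l t_il U_l none`, `t'_il = t_il`. N6 contradicts N5. -/
def S_TIF : Prop := ∀ (Q Q' m : ℕ), ∃ n₀ : ℕ, ∀ (m₁ m₂ : ℕ), m₁ ≤ m → m₂ ≤ m →
  ∀ (τ μ : ℂ) (b₁ : Fin m₁ → ℂ) (b₂ : Fin m₂ → ℂ), Nrm τ μ → FTI Q (Sum.elim b₁ b₂) →
  LinearIndependent ℚ b₁ → KLI τ b₂ → ∀ n : ℕ, n₀ ≤ n → ∀ x : Fin n → ℂ, MS Q' x →
  (∀ s : Fin n → ℤ, s ≠ 0 → ∀ j, μ * b₂ j * cmb s x ∉ Lam τ) →
  ∀ (k ρ : ℕ) (y : Fin n → Option (Fin m₂) → ℂ) (U : Fin ρ → Option (Fin m₂) → ℂ)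
    (t : Fin n → Fin ρ → ℂ), (∀ i o, AW τ μ b₂ x i o = y i o + ∑ l, t i l * U l o) →
    TrLe k (valF τ μ b₁ b₂ x y) → m₁ + 2 * m₂ ≤ k + ρ

/-! ## Part H: the measure -/

/-- H1' (descent from `RelProp`). PROOF: `I_StepMM.lean` word by word: `S_RelPtM` is used there only for the relation (`hrel`). -/
def S_StepP : Prop := ∀ (Q c₁ : ℕ) (ι : Type) [Fintype ι], 1 ≤ Fintype.card ι →
  ∃ e a n₀ : ℕ, 1 ≤ e ∧ 1 ≤ a ∧ ∀ (τ μ : ℂ) (ty : ι → Ty) (i₀ : Option ι) (π : ι → ι)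
  (b : ι → ℂ) (c : ι → ι → ℂ), Nrm τ μ → Adm Q τ μ ty i₀ π b c → ∀ n : ℕ, n₀ ≤ n →
  ∀ x : Fin n → ℂ, LinearIndependent ℚ x → NTM τ ty b x → RelProp c₁ τ μ ty b x →
    ∃ T₀ : ℕ, ∀ T : ℕ, T₀ ≤ T → ∀ a' : ℕ, a ≤ a' →
      (∃ s : Fin n → ℤ, s ≠ 0 ∧ (∀ i, |s i| ≤ ((T ^ e : ℕ) : ℤ)) ∧
        ‖cmb s x‖ ≤ Real.exp (-((T : ℝ) ^ (e * a')))) →
      ∃ s : Fin n → ℤ, s ≠ 0 ∧ (∀ i, |s i| ≤ (T : ℤ)) ∧
        ‖cmb s x‖ ≤ Real.exp (-((T : ℝ) ^ (2 * a')))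

/-- H2' (measure from `RelProp`). PROOF: `I_MeasM.lean` from H1'. -/
def S_MeasP : Prop := ∀ (Q c₁ : ℕ) (ι : Type) [Fintype ι], 1 ≤ Fintype.card ι →
  ∃ Q' n₀ : ℕ, ∀ (τ μ : ℂ) (ty : ι → Ty) (i₀ : Option ι) (π : ι → ι)
  (b : ι → ℂ) (c : ι → ι → ℂ), Nrm τ μ → Adm Q τ μ ty i₀ π b c → ∀ n : ℕ, n₀ ≤ n →
  ∀ x : Fin n → ℂ, LinearIndependent ℚ x → NTM τ ty b x → RelProp c₁ τ μ ty b x → MS Q' x

/-- H3' (**Hilbert function**). PROOF. Let `ξ` be a transcendence basis of `k(θ)` over `k` among the `θ_j` (at most `d` elements), `ω_1, …, ω_δ` a basis of `k(θ)` over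
`k(ξ)` with `ω_1 = 1`; multiplication by `θ_j` has a matrix over `k(ξ)`, with a common denominator `g(ξ)`. So for `P` of degree `≤ D`,
`g(ξ)^D P(θ) ∈ ∑_i k[ξ]_{≤ c D} ω_i`, a `k`-space of dimension `≤ δ (cD + 1)^d`. -/
def S_HilbF : Prop := ∀ (k : IntermediateField ℚ ℂ) (σ : Type) [Fintype σ] (θ : σ → ℂ) (d : ℕ),
  (∀ s : Fin (d + 1) → σ, ¬ AlgebraicIndependent k (fun i => θ (s i))) →
  ∃ C : ℕ, 1 ≤ C ∧ ∀ D : ℕ, FiniteDimensional k (spD k θ D) ∧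
    Module.finrank k (spD k θ D) ≤ C * (D + 1) ^ d

/-- H4' (**semicontinuity**). PROOF. Let `V` be the `ℚ`-span of all monomials of degree `≤ D` in the numbers `θ, A_il`, with `ℚ`-basis `Θ_1, …, Θ_h`. For a monomial
`(α, β)` of degree `≤ D` in `(θ, cC u A)` (`u ∈ ℂ^n`): `θ^α (∑_i u_i A_i)^β = ∑_j c_{αβ,j}(u) Θ_j` with polynomials `c_{αβ,j} ∈ ℚ[u]`. For `u = w ∈ ℚ^n` the dimension over
`ℚ` of the span is the rank of the matrix `(c_{αβ,j}(w))`; it is at most the rank of `(c_{αβ,j}(v))` over `ℚ(v)` (a minor which is not zero at `w` is not the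
zero polynomial, `v` is algebraically independent), and this is the dimension over `ℚ(v)` of the span for `u = v`, because the `Θ_j ∈ ℚ(θ, A)` are linearly
independent over `ℚ(v)` (`v` is algebraically independent over `ℚ(θ, A)`). -/
def S_SemiF : Prop := ∀ (σ κ : Type) [Fintype σ] [Fintype κ] (n : ℕ) (θ : σ → ℂ)
  (A : Fin n → κ → ℂ) (v : Fin n → ℂ),
  AlgebraicIndependent (IntermediateField.adjoin ℚ (Set.range θ ∪
    Set.range fun q : Fin n × κ => A q.1 q.2)) v → ∀ (D : ℕ) (w : Fin n → ℚ),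
  FiniteDimensional (IntermediateField.adjoin ℚ (Set.range v))
    (spD (IntermediateField.adjoin ℚ (Set.range v)) (Sum.elim θ (cC v A)) D) →
  Module.finrank kQ (spD kQ (Sum.elim θ (cQ w A)) D) ≤
    Module.finrank (IntermediateField.adjoin ℚ (Set.range v))
      (spD (IntermediateField.adjoin ℚ (Set.range v)) (Sum.elim θ (cC v A)) D)

/-- H5' (**uniform Hilbert function**). PROOF. Let `v` be algebraically independent over `ℚ(θ, A)` (a countable field). No `e + r + 1` of the numbers `θ, cC v A` are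
algebraically independent over `ℚ(v)`: otherwise there are `e + r + 1` derivations in `TT v` dual to them, so
`dim {(δ θ, δ A_v) : δ ∈ TT v} ≥ e + r + 1`. But let `θ'` be a transcendence basis of `E` (at most `e` elements): on the kernel of `δ ↦ δ θ'` in `TT v`, which is
`DK E ⊓ TT v`, we have `δ θ = 0` and the rank of `δ A_v` is at most `r` (L3). H3' over `k = ℚ(v)`, `d = e + r`, and H4'. -/
def S_HilbW : Prop := ∀ (E : IntermediateField ℚ ℂ), ACl E → ∀ (σ κ : Type) [Fintype σ] [Fintype κ]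
  (n e r : ℕ) (θ : σ → ℂ) (A : Fin n → κ → ℂ), TrE E e → (∀ i, θ i ∈ E) →
  (∀ w : Fin n → ℚ, rkD E (cQ w A) ≤ r) →
  ∃ C : ℕ, 1 ≤ C ∧ ∀ (D : ℕ) (w : Fin n → ℚ),
    Module.finrank kQ (spD kQ (Sum.elim θ (cQ w A)) D) ≤ C * (D + 1) ^ (e + r)

/-- H6' (**Siegel's lemma with rank**). PROOF (compare `S.x_FF`, `S_FF`). Let `ξ` be a transcendence basis of `ℚ(θ)` among the `θ_j`; `ω_i` a basis of `ℚ(θ)` over `ℚ(ξ)`; the
multiplications by `θ_j` have matrices over `ℤ[ξ][1/g]`. So `g(ξ)^D P_l(θ) = ∑_{i,β} a_{l,i,β} ξ^β ω_i` with integers `a_{l,i,β}`, `|a_{l,i,β}| ≤ H C₁^{D+1}`, and the numbers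
`ξ^β ω_i` are linearly independent over `ℚ`. So `∑ p_l P_l(θ) = 0` iff `∑_l p_l a_{l,i,β} = 0` for all `(i, β)`; the rank `R` of this system is
`finrank (span P_l(θ)) ≤ |Λ|/2`. Choose `R` independent rows and apply Siegel's lemma (`Int.Matrix.exists_ne_zero_int_vec_norm_le`):
`|p_l| ≤ (|Λ| H C₁^{D+1})^{R/(|Λ|-R)} ≤ |Λ| H C₁^{D+1}`. (If `R = 0` every `p` works.) -/
def S_FFrank : Prop := ∀ (σ : Type) [Fintype σ] (θ : σ → ℂ), ∃ C : ℕ, 1 ≤ C ∧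
  ∀ (Λ : Type) [Fintype Λ] (D : ℕ) (H : ℝ) (P : Λ → MvPolynomial σ ℤ), 1 ≤ H →
    (∀ l, (P l).totalDegree ≤ D) → (∀ l, len (P l) ≤ H) → 1 ≤ Fintype.card Λ →
    2 * Module.finrank ℚ (Submodule.span ℚ (Set.range fun l => aeval θ (P l))) ≤ Fintype.card Λ →
      ∃ p : Λ → ℤ, p ≠ 0 ∧ (∀ l, |(p l : ℝ)| ≤ Fintype.card Λ * (H * (C : ℝ) ^ (D + 1))) ∧
        ∑ l, (p l : ℂ) * aeval θ (P l) = 0

/-- H7' (**relations at all points**). PROOF (compare `S_RelPtM`, `I_RelPtM.lean`). Let `N = m₁ + 2 m₂ + 1 ≤ 3m + 1`, `c₁ = 6 (3m + 1) + 1`. `θ` = the numbers `G2, G3, e^{b₁_j x_i},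
e^{-b₁_j x_i}`, `X(μ b₂_l x_i), Y(μ b₂_l x_i)`, all in `E`; `A = AW`. Let `s ≠ 0`, `|s_i| ≤ S`, `z_s = cmb s x`. With quadruples of size `C S^10` (`S_TreeQ`, `S_TrueQ` for
`ι = Fin m₁ ⊕ Fin m₂`, `ty2`, `bb2`): `X(μ b₂_l z_s)` and the corrections `Z(μ b₂_l z_s) - ∑ s_i Z(μ b₂_l x_i)` are quotients of integer polynomials in `θ` of size
`C S^10`, with the same denominators `Z_l ≠ 0`. Let `D = S^{6N}` and `Λ` = the monomials of degree `< D` in each of the `N` functions of the full family: the value of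
the monomial at `z_s`, multiplied by `∏_l Z_l^{2D}`, is `P_λ` at `(θ, A)`, where `P_λ` is an integer polynomial in `θ` and the linear forms `∑_i s_i A_i`, of degree
`≤ C D S^11` and length `≤ exp(C D S^11)`. So all `P_λ(θ, A)` are in `spD kQ (θ, cQ s A) (C D S^11)`, of dimension `≤ C' (C D S^11 + 1)^{e+r}` (H5') with
`e + r ≤ N - 2`, at most `½ D^N` for large `S` (`D^N / (D S^11)^{N-2} ≥ S^{12N - 11(N-2)}`). H6' (for the family `(θ, A)`) gives the relation; the denominators are not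
`0`. For negative `s_i` use `e^{-b₁_j x_i}`. -/
def S_RelF : Prop := ∀ m : ℕ, ∃ c₁ : ℕ, ∀ (m₁ m₂ : ℕ), m₁ ≤ m → m₂ ≤ m → ∀ (τ μ : ℂ)
  (b₁ : Fin m₁ → ℂ) (b₂ : Fin m₂ → ℂ), Nrm τ μ → ∀ n : ℕ, 2 ≤ n → ∀ x : Fin n → ℂ,
  (∀ s : Fin n → ℤ, s ≠ 0 → ∀ j, μ * b₂ j * cmb s x ∉ Lam τ) →
  ∀ (E : IntermediateField ℚ ℂ) (e r : ℕ), ACl E → TrE E e → (∀ i j, Complex.exp (b₁ j * x i) ∈ E) →
    (∀ i j, xe τ μ (μ * (b₂ j * x i)) ∈ E) →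
    (∀ w : Fin n → ℚ, rkD E (cQ w (AW τ μ b₂ x)) ≤ r) → e + r + 1 ≤ m₁ + 2 * m₂ →
      RelProp c₁ τ μ (ty2 m₁ m₂) (bb2 μ b₁ b₂) x

/-! ## Conclusion for the additive part -/

/-- F1 (**the transcendence input for the additive part, lossless**). PROOF. Suppose `e + r + 1 ≤ m₁ + 2 m₂`. H7' (`c₁`), H2' with `ι = Fin m₁ ⊕ Fin m₂`, `ty2`, `bb2`,
`i₀ = none`, `c = 0` (`Adm`: from `FTI Q (Sum.elim b₁ b₂)`, `μ b₂ / μ = b₂`, the independence; `EchC` is vacuous) give `MS Q' x` (`Q'`, `n₀`: maxima over `m₁, m₂ ≤ m`;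
`MS` is monotone in `Q'`). L5 for `A = AW` gives `F, d, ρ, y, U, t`; all numbers of `valF` are in `F`, so `TrLe (e + d)`. N7: `m₁ + 2 m₂ ≤ e + d + ρ ≤ e + r`:
contradiction. -/
def S_StarF : Prop := ∀ Q m : ℕ, ∃ n₀ : ℕ, ∀ (m₁ m₂ : ℕ), m₁ ≤ m → m₂ ≤ m → ∀ (τ μ : ℂ)
  (b₁ : Fin m₁ → ℂ) (b₂ : Fin m₂ → ℂ), Nrm τ μ → FTI Q (Sum.elim b₁ b₂) →
  LinearIndependent ℚ b₁ → KLI τ b₂ → ∀ n : ℕ, n₀ ≤ n → ∀ x : Fin n → ℂ, LinearIndependent ℚ x →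
  (∀ s : Fin n → ℤ, s ≠ 0 → ∀ j, μ * b₂ j * cmb s x ∉ Lam τ) →
  ∀ (E : IntermediateField ℚ ℂ) (e r : ℕ), ACl E → Countable E → TrE E e →
    (∀ i j, Complex.exp (b₁ j * x i) ∈ E) → (∀ i j, xe τ μ (μ * (b₂ j * x i)) ∈ E) →
    (∀ w : Fin n → ℚ, rkD E (cQ w (AW τ μ b₂ x)) ≤ r) → m₁ + 2 * m₂ ≤ e + r

/-- F2 (see G16 `S_GCoreM`, H2 `S_GCoreM2`). PROOF: `I_GCoreM2.lean`; for `f = true` F1 is used instead of `S_Star` (`E₀ ≤ F` is countable): `m₁ + 2 m₂ ≤ κ + k₀ + r`,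
`k₀ + (m - m₁) + (m' - m₂) + r + (m' - m₂) ≤ rkM2`, so `m + 2 m' ≤ κ + rkM2`. For `f = false` `S_Star` as before. -/
def S_GCoreF : Prop := ∀ (f : Bool) (Q m m' : ℕ), ∃ n₀ : ℕ, ∀ (τ μ α : ℂ) (b : Fin m → ℂ)
  (b' : Fin m' → ℂ), Nrm τ μ → Alp τ μ α → FT Q (Fin.append b b') → LinearIndependent ℚ b → KLI τ b' →
  ∀ n : ℕ, n₀ ≤ n → ∀ x : Fin n → ℂ, LinearIndependent ℚ x → ∀ κ : ℕ, TrLe κ (Fin.append b b') →
    ∃ v : Fin n → ℂ, tgtF f m m' ≤ κ + rkM2 f τ μ α b b' x v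

/-- F3 (see H3 `S_MixRank2`). PROOF: `I_MixRank2.lean` with F2. -/
def S_MixRankF : Prop := ∀ (Q m m' : ℕ), ∃ n₀ : ℕ, ∀ (τ μ : ℂ) (b : Fin m → ℂ) (b' : Fin m' → ℂ), Nrm τ μ →
  FT Q (Fin.append b b') → LinearIndependent ℚ b → KLI τ b' →
  ∀ n : ℕ, n₀ ≤ n → ∀ x : Fin n → ℂ, LinearIndependent ℚ x → ∀ κ : ℕ, TrLe κ (Fin.append b b') →
    ∃ P : MvPolynomial (Fin n) ℂ, P ≠ 0 ∧ P.totalDegree ≤ 2 * m + 4 * m' ∧
      ∀ w : Fin n → ℚ, MvPolynomial.eval (fun i => (w i : ℂ)) P ≠ 0 →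
      ∀ z : ℂ, z = ∑ i, (w i : ℂ) * x i →
        (∀ j, μ * (b' j * z) ∉ Lam τ) ∧
        m + m' ≤ κ + rA2 τ μ b b' z (TT (Fin.append b b')) ∧
        m + 2 * m' ≤ κ + rB2 τ μ b b' z (TT (Fin.append b b'))

/-! ## Relative statements -/

/-- F4 (**one elliptic point**, elementary). Compare `S_RelStepM2`, `I_RelStepM2.lean`. PROOF. Let `A_j`, `B_j` be the forms `lam(μ b'_j z)`, `etf(μ b'_j z)` on `DK K`; `⟨A⟩` the span of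
the forms `mixA2` (dimension `ρ_A`), `⟨B⟩` that of `mixB2` (`ρ_B`). `lam(v) = ∑ c_j A_j ≠ 0` for `c` in a non-empty open set (`rL2 ≥ 1`). If `ρ_B > ρ_A` some `B_j ∉ ⟨A⟩`, and
`etf(v) = ∑ c_j B_j ∉ ⟨A⟩` for `c` in a non-empty open set. If `ρ_B = ρ_A`: the span of all `A_j`, `B_j` has dimension at least `ρ_B - (1 + m) ≥ 1 + rL2`, so some `B_j` is not in the
span of the `A_j`, and `etf(v)` is not in this span for `c` in a non-empty open set. In both cases `lam(v)`, `etf(v)` are linearly independent. The rest as in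
`I_RelStepM2.lean` (`c` rational by density; `ePt2 ∉ Λ` as `lam(v) ≠ 0`). -/
def S_RelStepF : Prop := ∀ (τ μ : ℂ), Nrm τ μ → ∀ K : IntermediateField ℚ ℂ, Countable K →
  μ ∈ K → τ ∈ K → et τ ∈ K → kap ∈ K → ∀ (m m' : ℕ) (b : Fin m → ℂ) (b' : Fin m' → ℂ) (z : ℂ),
    1 ≤ rL2 τ μ b' z (DK K) → m + 2 + rL2 τ μ b' z (DK K) ≤ rB2 τ μ b b' z (DK K) →
      ∃ c : Fin m' → ℚ, ePt2 μ b' z c ∉ Lam τ ∧
        (∀ a a' : ℂ, (∀ δ ∈ DK K, a * lam τ μ δ (ePt2 μ b' z c) + a' * etf τ μ δ (ePt2 μ b' z c) = 0) →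
          a = 0 ∧ a' = 0) ∧
        ∀ T₁ : Submodule ℂ (Derivation ℚ ℂ ℂ),
          (∀ δ, δ ∈ T₁ ↔ δ ∈ DK K ∧ lam τ μ δ (ePt2 μ b' z c) = 0 ∧ etf τ μ δ (ePt2 μ b' z c) = 0) →
            min (rA2 τ μ b b' z (DK K) - 1) (rB2 τ μ b b' z (DK K) - 2) ≤ rA2 τ μ b b' z T₁ ∧
            rB2 τ μ b b' z (DK K) ≤ rB2 τ μ b b' z T₁ + 2 ∧
            rL2 τ μ b' z T₁ + 1 ≤ rL2 τ μ b' z (DK K)

/-- F5 (**all points**). PROOF: `I_RelAllM2.lean`, with F4. Induction on `r'` for the statement with `ℓ = rL2 (DK K) ≤ m'`: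
`r > 0 → r + ℓ + 1 ≤ ρ_A ∧ r + r' + ℓ + 1 ≤ ρ_B` and `r' > 0 → r' + m + 1 ≤ ρ_A ∧ r' + ℓ + m + 1 ≤ ρ_B`. Step: `ℓ ≥ ρ_A - (1 + m) ≥ r' ≥ 1`,
`m + 2 + ℓ ≤ r' + ℓ + m + 1 ≤ ρ_B`; after it `ρ_A' ≥ min (ρ_A - 1, ρ_B - 2)`, `ρ_B' ≥ ρ_B - 2`, `ℓ' ≤ ℓ - 1`: the conditions for `r' - 1` hold:
`(r' - 1) + m + 1 ≤ min(ρ_A - 1, r' + ℓ + m - 1)`, `(r' - 1) + ℓ' + m + 1 ≤ ρ_B - 2`, `r + ℓ' + 1 ≤ min (r + ℓ, r + r' + ℓ - 1)`, `r + (r' - 1) + ℓ' + 1 ≤ ρ_B - 2`. -/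
def S_RelAllF : Prop := ∀ (τ μ : ℂ), Nrm τ μ → ∀ K : IntermediateField ℚ ℂ, Countable K →
  μ ∈ K → τ ∈ K → et τ ∈ K → kap ∈ K → ∀ (m m' r r' : ℕ) (b : Fin m → ℂ) (b' : Fin m' → ℂ) (z : ℂ),
    (0 < r → r + m' + 1 ≤ rA2 τ μ b b' z (DK K) ∧ r + r' + m' + 1 ≤ rB2 τ μ b b' z (DK K)) →
    (0 < r' → r' + m + 1 ≤ rA2 τ μ b b' z (DK K) ∧ r' + m' + m + 1 ≤ rB2 τ μ b b' z (DK K)) →
      ∃ (c : Fin r → Fin m → ℚ) (c' : Fin r' → Fin m' → ℚ)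
        (δ : Fin r ⊕ Fin r' × Bool → Derivation ℚ ℂ ℂ), (∀ o, δ o ∈ DK K) ∧
        (Matrix.of fun o o' => enE τ μ (fun i => ∑ j, (c i j : ℂ) * (b j * z))
          (fun i => ∑ j, (c' i j : ℂ) * (μ * (b' j * z))) (δ o) o').det ≠ 0

/-- F6 (see H8 `S_FinalZH`, `I_FinalZH.lean`). PROOF. As there, with F5. The ranks on `DK K`: `ρ_A ≥ m + m' - κ - N`, `ρ_B ≥ m + 2m' - κ - N` (case (M)); `r + m' + 1 ≤ ρ_A`, `r' + m + 1 ≤ ρ_A`,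
`r + r' + m' + 1 ≤ ρ_B` and `r' + m' + m + 1 ≤ ρ_B` follow from `r + N + κ + 1 ≤ m`, `r' + N + κ + 1 ≤ m'`. Case (J): `m = r = 0` in F5, then H6. -/
def S_FinalZF : Prop := ∀ (m m' κ r r' N : ℕ) (b : Fin m → ℂ) (b' : Fin m' → ℂ) (z ω₁ ω₂ : ℂ),
  TrLe κ (Fin.append b b') →
  (0 < r → r + N + κ + 1 ≤ m ∧
    m ≤ κ + 1 + Module.finrank ℂ ((TT (Fin.append b b')).map (lgV (fun j => b j * z)))) →
  (0 < r' → ∃ τ μ : ℂ, Nrm τ μ ∧ (ω₂ = ω₁ * τ ∨ ω₂ = -(ω₁ * τ)) ∧ ω₁ ≠ 0 ∧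
    (∀ K : IntermediateField ℚ ℂ, gg2 τ ∈ K → gg3 τ ∈ K → IsAlgebraic K μ) ∧
    r' + N + κ + 1 ≤ m' ∧
    ((m' ≤ κ + rA2 τ μ (fun i : Fin 0 => i.elim0) b' (z / (ω₁ * μ)) (TT (Fin.append b b')) ∧
      2 * m' ≤ κ + rB2 τ μ (fun i : Fin 0 => i.elim0) b' (z / (ω₁ * μ)) (TT (Fin.append b b')) ∧
      (0 < r → r + 2 * r' + N + κ + 1 ≤ m)) ∨
     (μ = ω₁⁻¹ ∧ m + m' ≤ κ + rA2 τ μ b b' z (TT (Fin.append b b')) ∧
      m + 2 * m' ≤ κ + rB2 τ μ b b' z (TT (Fin.append b b'))))) →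
  ∀ (s k : ℕ) (t : Fin s → ℂ) (p : Fin k → ℂ), ¬ HasTrdeg (bigField ω₁ ω₂ t p) (N + 1) →
    ∃ P : MvPolynomial (Fin r × Fin m ⊕ Fin r' × Fin m') ℂ, P ≠ 0 ∧ P.IsHomogeneous (r + 2 * r') ∧
      ∀ (c : Fin r → Fin m → ℚ) (c' : Fin r' → Fin m' → ℚ),
        MvPolynomial.eval (Sum.elim (fun q => (c q.1 q.2 : ℂ)) (fun q => (c' q.1 q.2 : ℂ))) P ≠ 0 →
        ∀ (u : Fin r → ℂ) (v : Fin r' → ℂ), (∀ i, u i = (∑ j, (c i j : ℂ) * b j) * z) →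
          (∀ i, v i = (∑ j, (c' i j : ℂ) * b' j) * z) →
          (∀ i, ∀ a b : ℤ, v i ≠ (a : ℂ) * ω₁ + (b : ℂ) * ω₂) ∧
          (∀ d, HasTrdeg (bigField ω₁ ω₂ t p) d →
            HasTrdeg (bigField ω₁ ω₂ (Fin.append t u) (Fin.append p v)) (d + r + 2 * r')) ∧
          (Q1 ω₁ ω₂ t p → Q1 ω₁ ω₂ (Fin.append t u) (Fin.append p v))

/-- F7 (see H9 `S_AbsM2`, `I_AbsM2.lean`). -/
def S_AbsF : Prop := ∀ (m m' κ₀ : ℕ) (b : Fin m → ℂ) (b' : Fin m' → ℂ) (z ω₁ ω₂ τ μ : ℂ)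
  (sb : Fin κ₀ → Fin (m + m')),
  AlgebraicIndependent ℚ (fun i => Fin.append b b' (sb i)) →
  (∀ j, IsAlgebraic (IntermediateField.adjoin ℚ (Set.range fun i => Fin.append b b' (sb i)))
    (Fin.append b b' j)) →
  Nrm τ μ → (ω₂ = ω₁ * τ ∨ ω₂ = -(ω₁ * τ)) → ω₁ ≠ 0 → μ = ω₁⁻¹ → (∀ j, μ * (b' j * z) ∉ Lam τ) →
  m + 2 * m' ≤ κ₀ + rB2 τ μ b b' z (TT (Fin.append b b')) →
    ∃ s : Fin (m + 2 * m') → Fin (m + m') ⊕ Option (Fin m ⊕ (Fin m' ⊕ Fin m')),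
      AlgebraicIndependent ℚ (fun i =>
        Sum.elim (Fin.append b b') (fun o => o.elim z (Sum.elim (fun j => Complex.exp (b j * z))
          (Sum.elim (fun j => wp ω₁ ω₂ (b' j * z)) (fun j => zt ω₁ ω₂ (b' j * z))))) (s i))

end Pool.Agent.Work.MP_8da9ea_nt.MX
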