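import Mathlib
import Pool.Agent.Work.MP_8da9ea_nt.MX.StmtsF
import Pool.Agent.Work.MP_8da9ea_nt.MX.I_StepMM
import Pool.Agent.Work.MP_8da9ea_nt.EB.I_MeasE

/-!
# Mixed block, lossless version: descent and measure from `RelProp`
-/

set_option autoImplicit false

namespace Pool.Agent.Work.MP_8da9ea_nt.MX

open MvPolynomial Metric Filter Topology Pool.Agent.Work.MP_327059_nt.GL
  Pool.Agent.Work.MP_8da9ea_nt.S Pool.Agent.Work.MP_8da9ea_nt.EB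

open I_StepMM in
theorem StepP_pf (h1 : S_AdmF) (h2 : S_CoefM) (h4 : S_SchwM) (h5 : S_CritM)
    (h6 : S_NZM) : S_StepP := by
  classical
  intro Q c₁ ι _ hcard
  obtain ⟨c₀, hc₀⟩ := h2 Q ι
  set c : ℕ := c₀ + 1 with hc
  set e : ℕ := 4 * c with he
  have hfc : ∀ ty : ι → Ty, 1 ≤ Fintype.card (fI ty) := fun ty =>
    Fintype.card_pos_iff.2 ⟨Sum.inl ()⟩
  choose nz hnz using fun ty : ι → Ty => h6 Q (5 * (e * c₁)) (fI ty) (hfc ty)
  have _ : Finite Ty := fin_Ty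
  obtain ⟨N, hN'⟩ := Finite.exists_le nz
  set n₁ : ℕ := max N 2 with hn₁
  obtain ⟨k, hk⟩ := Finite.exists_le fun ty : ι → Ty => Fintype.card (VM n₁ (fI ty))
  set E₀ : ℕ := (c₁ + 13) * (k + 2) with hE₀
  refine ⟨e, 2 * c * E₀ + 1, n₁, by omega, by omega, ?_⟩
  intro τ μ ty i₀ π b c' hN hA n hn x hx hNT hTr
  have hn1 : n₁ ≤ n := hn
  have hn12 : 2 ≤ n₁ := le_max_right _ _
  have hn2 : 2 ≤ n := hn12.trans hn1
  have hb0 : ∀ j, ty j = Ty.ell → b j ≠ 0 := by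
    intro j hty hj
    have h7 := hNT (Pi.single ⟨0, by omega⟩ 1) (by
      intro h
      have := congrFun h ⟨0, by omega⟩
      simp at this) j hty
    apply h7
    rw [hj, zero_mul]
    exact ⟨(0, 0), by simp [lp]⟩
  -- the full family
  have hAF := h1 Q ι τ μ ty i₀ π b c' hA
  have hfb0 : ∀ j : fI ty, fty ty j = Ty.ell → fb ty b j ≠ 0 := by
    rintro (u | j | ⟨j, d⟩) hj
    · exact absurd hj (by simp [fty])
    · exact absurd hj (by simp [fty])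
    · cases d
      · exact absurd hj (by simp [fty])
      · exact hb0 j.1 j.2
  set x' : Fin n₁ → ℂ := fun i => x (Fin.castLE hn1 i) with hx'
  have hNTF : NTM τ (fty ty) (fb ty b) x' := by
    intro s hs
    rintro (u | j | ⟨j, d⟩) hj
    · exact absurd hj (by simp [fty])
    · exact absurd hj (by simp [fty])
    · cases d
      · exact absurd hj (by simp [fty])
      · have h7 := hNT _ (ext_ne hn1 s hs) j.1 j.2
        rw [cmb_ext hn1 x s] at h7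
        exact h7
  have hTrF : TrLe k (ptM τ μ (fty ty) (fb ty b) (fc ty) (fun i j => fb ty b j * x' i)) :=
    trle_card k (hk ty) _
  obtain ⟨C₁, T₁, hC₁, hcrit⟩ := h5 (fI ty) n₁ 1 k hn12 le_rfl τ μ (fty ty) (some (Sum.inl ()))
    (fπ ty) (fb ty b) (fc ty) x' hN hAF.ech hNTF hTrF
  obtain ⟨T₂, hNZ⟩ := hnz ty τ μ hN.im hN.mu (fty ty) (some (Sum.inl ())) (fπ ty) (fb ty b)
    (fc ty) hAF n₁ ((hN' ty).trans (le_max_left _ _)) x'
  obtain ⟨C₂, hC₂, hcoef⟩ := hc₀ τ μ ty b hN hA.ft hb0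
  obtain ⟨S₀, hrel⟩ := hTr
  set R₀ : ℝ := 1 + ∑ i, ‖x' i‖ with hR₀
  have hR₀1 : 1 ≤ R₀ := by
    have : 0 ≤ ∑ i, ‖x' i‖ := Finset.sum_nonneg fun i _ => norm_nonneg _
    linarith
  obtain ⟨C₃, hC₃, hschw⟩ := h4 (fI ty) τ μ (fty ty) (fb ty b) (fc ty) R₀ hN.im hN.mu hfb0 hR₀1
  obtain ⟨T₃, hscale⟩ := StepM_scale (max T₁ T₂)
  refine ⟨T₃ + S₀ + 3 + ⌈4 * C₁⌉₊ + ⌈C₂ * 3 ^ c⌉₊ + ⌈2 * C₃⌉₊, ?_⟩
  intro T hT a' ha' hviol
  obtain ⟨s, hs0, hsT, hsmall⟩ := hviol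
  obtain ⟨t, htN, ht1, ht4, ht5, ht3⟩ := hscale T (by omega)
  have hTreal : ((T₃ + S₀ + 3 + ⌈4 * C₁⌉₊ + ⌈C₂ * 3 ^ c⌉₊ + ⌈2 * C₃⌉₊ : ℕ) : ℝ) ≤ T := by
    exact_mod_cast hT
  push_cast at hTreal
  have hp1 : (0 : ℝ) ≤ T₃ := Nat.cast_nonneg _
  have hp2 : (0 : ℝ) ≤ S₀ := Nat.cast_nonneg _
  have hp3 : (0 : ℝ) ≤ (⌈4 * C₁⌉₊ : ℝ) := Nat.cast_nonneg _
  have hp4 : (0 : ℝ) ≤ (⌈C₂ * 3 ^ c⌉₊ : ℝ) := Nat.cast_nonneg _
  have hp5 : (0 : ℝ) ≤ (⌈2 * C₃⌉₊ : ℝ) := Nat.cast_nonneg _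
  have hq1 : 4 * C₁ ≤ T := (Nat.le_ceil _).trans (by linarith)
  have hq2 : C₂ * 3 ^ c ≤ T := (Nat.le_ceil _).trans (by linarith)
  have hq3 : 2 * C₃ ≤ T := (Nat.le_ceil _).trans (by linarith)
  obtain ⟨A1, A2, A3, A4⟩ := arith c₁ k c (by omega) C₁ C₂ C₃ hC₁ hC₂ hC₃ e a' t T he ha'
    (by omega) hq1 hq2 hq3 ht1 ht4
  rw [← hE₀] at A1 A2 A3 A4
  have hTr1 : (1 : ℝ) ≤ T := by
    have : (3 : ℝ) ≤ T := by linarith
    linarith
  set S : ℕ := T ^ e with hS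
  set D : ℕ := S ^ c₁ with hD
  set K : ℕ := T ^ (2 * a' + e * E₀) with hKdef
  set h : ℝ := ((S : ℕ) : ℝ) ^ (c₁ + 12) with hh
  have hST : T ≤ S := by
    rw [hS]
    exact Nat.le_self_pow (by omega) T
  have hSr : (1 : ℝ) ≤ S := by
    have : (T : ℝ) ≤ S := by exact_mod_cast hST
    linarith
  have hh1 : 1 ≤ h := one_le_pow₀ hSr
  -- the relation
  obtain ⟨R, hR0, hRd, hRc, hRz⟩ := hrel S (by omega) s hs0 hsT
  have hz0 : cmb s x ≠ 0 := by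
    intro h0
    apply hs0
    have h6 := Fintype.linearIndependent_iff.1 hx (fun i => (s i : ℚ)) (by
      rw [← h0]
      unfold cmb
      refine Finset.sum_congr rfl fun i _ => ?_
      rw [Rat.smul_def]
      push_cast
      rfl)
    funext i
    have := h6 i
    exact_mod_cast this
  -- order of vanishing
  have hcf := hcoef D K h ((T : ℝ) ^ (e * a')) R (cmb s x) hh1 hRd hRc (by
    refine le_trans ?_ A1
    refine mul_le_mul_of_nonneg_left ?_ (by linarith)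
    have k1 : (1 : ℝ) ≤ (K : ℝ) + D + h := by
      have : (0 : ℝ) ≤ K := Nat.cast_nonneg _
      have : (0 : ℝ) ≤ D := Nat.cast_nonneg _
      linarith
    exact pow_le_pow_right₀ k1 (by omega)) hz0 hsmall hRz
  -- smallness
  have hsch := hschw D K t h R hh1 ht1 hRd hRc hcf
  have hcmb : ∀ s' : Fin n₁ → ℤ, (∀ i, 0 ≤ s' i ∧ s' i ≤ (t : ℤ)) → ‖cmb s' x'‖ ≤ R₀ * t := by
    intro s' hs'
    unfold cmb
    calc ‖∑ i, (s' i : ℂ) * x' i‖ ≤ ∑ i, ‖(s' i : ℂ) * x' i‖ := norm_sum_le _ _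
      _ ≤ ∑ i, (t : ℝ) * ‖x' i‖ := by
          refine Finset.sum_le_sum fun i _ => ?_
          rw [norm_mul]
          refine mul_le_mul_of_nonneg_right ?_ (norm_nonneg _)
          rw [Complex.norm_intCast, abs_of_nonneg (by exact_mod_cast (hs' i).1)]
          exact_mod_cast (hs' i).2
      _ = (∑ i, ‖x' i‖) * t := by rw [← Finset.mul_sum, mul_comm]
      _ ≤ R₀ * t := by
          refine mul_le_mul_of_nonneg_right ?_ (Nat.cast_nonneg _)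
          rw [hR₀]
          linarith
  have hW : ∀ j, R.degreeOf j < D + 1 := fun j => Nat.lt_succ_of_le (hRd j)
  have hp0 : (pp (W := D + 1) R : (Fin 1 → fI ty → Fin (D + 1)) → ℤ) ≠ 0 := by
    intro h0
    obtain ⟨d, hd⟩ := MvPolynomial.ne_zero_iff.1 hR0
    have hdS : d ∈ R.support := MvPolynomial.mem_support_iff.2 hd
    have h6 := congrFun h0 (fun _ j => ⟨d j, lt_of_deg R hW d hdS j⟩)
    apply hd
    have h7 : Finsupp.equivFunOnFinite.symm (fun j => d j) = d := by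
      ext j
      rfl
    have h8 : pp (W := D + 1) R (fun _ j => ⟨d j, lt_of_deg R hW d hdS j⟩) = R.coeff d := by
      unfold pp
      simp only
      rw [h7]
    rw [← h8, h6]
    rfl
  obtain ⟨u, c'', F, hu, hE, hF0, hFd, hFz⟩ := hcrit t (by omega) (D + 1) h ((K : ℝ) / 2)
    (by omega) hh1 A3 (pp R) hp0 (fun ξ => hRc _) (by
      intro s' hs'
      rw [AFM_pp τ μ (fty ty) (fb ty b) (fc ty) R (by omega) hW]
      have k1 := hsch (cmb (s' 0) x') (hcmb _ (hs' 0).2) (fun j hj => hNTF _ (hs' 0).1 j hj)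
      have k2 : ∏ r : Fin 1, dd τ (fty ty) (fb ty b) (2 * (Fintype.card (fI ty) * (D + 1)))
          (cmb (s' r) x') ≤
          dd τ (fty ty) (fb ty b) (2 * (Fintype.card (fI ty) * D)) (cmb (s' 0) x') := by
        rw [Fin.prod_univ_one]
        refine dd_mono τ _ _ _ _ ?_ _
        exact Nat.mul_le_mul_left _ (Nat.mul_le_mul_left _ (Nat.le_succ _))
      refine (mul_le_mul_of_nonneg_left k2 (norm_nonneg _)).trans (k1.trans ?_)
      refine Real.exp_le_exp.2 ?_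
      linarith)
  -- conclusion
  have hεexp : -((K : ℝ) / 2) / (C₁ * (((D + 1 : ℕ) : ℝ) * (t : ℝ) ^ 11 + h) ^ k) ≤ 0 := by
    refine div_nonpos_of_nonpos_of_nonneg ?_ ?_
    · have : (0 : ℝ) ≤ K := Nat.cast_nonneg _
      linarith
    · positivity
  obtain ⟨s', hs'0, hs'T, hs's⟩ := hNZ t (by omega)
    (Real.exp (-((K : ℝ) / 2) / (C₁ * (((D + 1 : ℕ) : ℝ) * (t : ℝ) ^ 11 + h) ^ k))) u c'' F
    (Real.exp_nonneg _) (Real.exp_le_one_iff.2 hεexp) hu hE hF0 (by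
      intro j
      have k1 : F.degreeOf j ≤ D := Nat.lt_succ_iff.1 (hFd j)
      refine k1.trans ?_
      rw [hD, hS, ← pow_mul]
      calc T ^ (e * c₁) ≤ (t ^ 5) ^ (e * c₁) := Nat.pow_le_pow_left ht5 _
        _ = t ^ (5 * (e * c₁)) := by rw [← pow_mul]) hFz
  refine ⟨Function.extend (Fin.castLE hn1) s' 0, ext_ne hn1 s' hs'0,
    ext_le hn1 s' T (Int.natCast_nonneg _) (fun i => (hs'T i).trans (by exact_mod_cast ht3)), ?_⟩
  rw [cmb_ext hn1 x s']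
  refine hs's.trans ?_
  rw [← Real.exp_add]
  exact Real.exp_le_exp.2 A4

theorem MeasP_pf (h1 : S_StepP) : S_MeasP := by
  intro Q c₁ ι _ hι
  obtain ⟨e, a, n₀, he, ha, H⟩ := h1 Q c₁ ι hι
  refine ⟨e * a, n₀, fun τ μ ty i₀ π b c hN hA n hn x hx hNT hTr => ?_⟩
  obtain ⟨T₀, hT₀⟩ := H τ μ ty i₀ π b c hN hA n hn x hx hNT hTr
  refine I_MeasE.core hx he ha (T₀ := T₀) fun T hT a' ha' hV => ?_
  obtain ⟨s, hs, hb, hle⟩ := hV
  obtain ⟨s', hs', hb', hle'⟩ := hT₀ T hT a' ha' ⟨s, hs, hb, by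
    have h2 : ((T ^ e : ℕ) : ℝ) ^ a' = (T : ℝ) ^ (e * a') := by
      push_cast
      rw [pow_mul]
    rw [h2] at hle
    exact hle⟩
  exact ⟨s', hs', hb', hle'⟩

end Pool.Agent.Work.MP_8da9ea_nt.MX
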