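import Pool.Agent.Work.MP_8da9ea_nt.MX.StmtsF

/-!
Block MX (captain helper16), item TIF: the transcendence input in several variables, from its two steps.
-/

set_option autoImplicit false

namespace Pool.Agent.Work.MP_8da9ea_nt.MX

open MvPolynomial Pool.Agent.Work.MP_327059_nt.GL Pool.Agent.Work.MP_8da9ea_nt.S
  Pool.Agent.Work.MP_8da9ea_nt.EB

namespace I_TIF

/-- The sets in question are finite. -/
theorem fin_box {n : ℕ} (B : ℤ) (p : (Fin n → ℤ) → Prop) :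
    {s : Fin n → ℤ | (∀ i, |s i| ≤ B) ∧ p s}.Finite := by
  refine (Set.finite_Icc (fun _ : Fin n => -B) (fun _ : Fin n => B)).subset ?_
  rintro s ⟨hs, -⟩
  refine ⟨fun i => ?_, fun i => ?_⟩
  · exact (abs_le.1 (hs i)).1
  · exact (abs_le.1 (hs i)).2

/-- For a larger exponent the set is smaller. -/
theorem card_mono {n : ℕ} (B : ℤ) (f : (Fin n → ℤ) → ℝ) {a a₀ T : ℕ} (ha : a₀ ≤ a) (hT : 1 ≤ T) :
    Set.ncard {s : Fin n → ℤ | (∀ i, |s i| ≤ B) ∧ f s ≤ Real.exp (-((T : ℝ) ^ a))} ≤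
      Set.ncard {s : Fin n → ℤ | (∀ i, |s i| ≤ B) ∧ f s ≤ Real.exp (-((T : ℝ) ^ a₀))} := by
  refine Set.ncard_le_ncard ?_ (fin_box B _)
  rintro s ⟨hs, hf⟩
  refine ⟨hs, hf.trans (Real.exp_le_exp.2 (neg_le_neg ?_))⟩
  exact pow_le_pow_right₀ (by exact_mod_cast hT) ha

/-- The case without a direction of additive type. -/
theorem case_one {n Q' a k₀ c₁ : ℕ} (ha : Q' + 2 ≤ a) (hn : c₁ + 1 ≤ n) {x : Fin n → ℂ}
    (hx : MS Q' x) (T₀ : ℕ)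
    (h : ∀ T : ℕ, T₀ ≤ T → (T + 1) ^ n ≤ T ^ c₁ * Set.ncard {s : Fin n → ℤ |
      (∀ i, |s i| ≤ ((k₀ * T : ℕ) : ℤ)) ∧ ‖∑ i, (s i : ℂ) * x i‖ ≤ Real.exp (-((T : ℝ) ^ a))})
    (hk₀ : 1 ≤ k₀) : False := by
  obtain ⟨B, hB, hMS⟩ := hx
  obtain ⟨N, hN⟩ := exists_nat_gt (B * (k₀ : ℝ) ^ Q')
  obtain ⟨T, hT₀, hTN, hT1⟩ : ∃ T : ℕ, T₀ ≤ T ∧ N ≤ T ∧ 1 ≤ T :=
    ⟨max (max T₀ N) 1, (le_max_left _ _).trans (le_max_left _ _),
      (le_max_right _ _).trans (le_max_left _ _), le_max_right _ _⟩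
  have hT := h T hT₀
  have hT1' : (1 : ℝ) ≤ T := by exact_mod_cast hT1
  have hone : 1 < Set.ncard {s : Fin n → ℤ |
      (∀ i, |s i| ≤ ((k₀ * T : ℕ) : ℤ)) ∧ ‖∑ i, (s i : ℂ) * x i‖ ≤ Real.exp (-((T : ℝ) ^ a))} := by
    by_contra hcon
    have hc := not_lt.1 hcon
    have h1 : (T + 1) ^ n ≤ T ^ c₁ := hT.trans ((Nat.mul_le_mul_left _ hc).trans (by simp))
    have h2 : (T + 1) ^ (c₁ + 1) ≤ (T + 1) ^ n := Nat.pow_le_pow_right (by omega) hn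
    have h3 : T ^ c₁ ≤ (T + 1) ^ c₁ := Nat.pow_le_pow_left (by omega) _
    have h4 : (T + 1) ^ c₁ < (T + 1) ^ (c₁ + 1) := Nat.pow_lt_pow_right (by omega) (by omega)
    omega
  obtain ⟨s, hs, hs0⟩ : ∃ s, s ∈ {s : Fin n → ℤ |
      (∀ i, |s i| ≤ ((k₀ * T : ℕ) : ℤ)) ∧ ‖∑ i, (s i : ℂ) * x i‖ ≤ Real.exp (-((T : ℝ) ^ a))} ∧
      s ≠ 0 := by
    by_contra hc
    push Not at hc
    have hsub : {s : Fin n → ℤ |
        (∀ i, |s i| ≤ ((k₀ * T : ℕ) : ℤ)) ∧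
          ‖∑ i, (s i : ℂ) * x i‖ ≤ Real.exp (-((T : ℝ) ^ a))} ⊆ {0} := fun s hs => hc s hs
    have := Set.ncard_le_ncard hsub (Set.finite_singleton 0)
    rw [Set.ncard_singleton] at this
    omega
  obtain ⟨hs1, hs2⟩ := hs
  have hkT : (1 : ℝ) ≤ (k₀ : ℝ) * T := by
    have : (1 : ℝ) ≤ k₀ := by exact_mod_cast hk₀
    nlinarith
  have h5 := hMS s hs0 ((k₀ : ℝ) * T) hkT (fun i => by
    have := hs1 i
    have h6 : ((|s i| : ℤ) : ℝ) ≤ (((k₀ * T : ℕ) : ℤ) : ℝ) := by exact_mod_cast this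
    push_cast at h6
    exact h6)
  have h7 : Real.exp (-(B * ((k₀ : ℝ) * T) ^ Q')) ≤ Real.exp (-((T : ℝ) ^ a)) := h5.trans hs2
  have h8 : (T : ℝ) ^ a ≤ B * ((k₀ : ℝ) * T) ^ Q' := by
    have := Real.exp_le_exp.1 h7
    linarith
  have h9 : (T : ℝ) ^ (Q' + 2) ≤ (T : ℝ) ^ a := pow_le_pow_right₀ hT1' ha
  have h10 : (T : ℝ) ^ Q' * ((T : ℝ) ^ 2) ≤ (T : ℝ) ^ Q' * (B * (k₀ : ℝ) ^ Q') := by
    calc (T : ℝ) ^ Q' * ((T : ℝ) ^ 2) = (T : ℝ) ^ (Q' + 2) := by ring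
      _ ≤ B * ((k₀ : ℝ) * T) ^ Q' := h9.trans h8
      _ = (T : ℝ) ^ Q' * (B * (k₀ : ℝ) ^ Q') := by rw [mul_pow]; ring
  have h11 : (0 : ℝ) < (T : ℝ) ^ Q' := by positivity
  have h12 : (T : ℝ) ^ 2 ≤ B * (k₀ : ℝ) ^ Q' := le_of_mul_le_mul_left h10 h11
  have h13 : (N : ℝ) ≤ T := by exact_mod_cast hTN
  nlinarith

end I_TIF

open I_TIF in
theorem TIF_pf (h1 : S_TIF1) (h2 : S_TIF0) : S_TIF := by
  intro Q Q' m
  obtain ⟨a₀, ha₀⟩ := h2 Q Q' m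
  obtain ⟨n₁, k₀, c₁, hk₀, H1⟩ := h1 Q Q' m (max a₀ (Q' + 2))
  obtain ⟨n₂, H2⟩ := ha₀ k₀ c₁ hk₀
  refine ⟨max (max n₁ n₂) (c₁ + 1), ?_⟩
  intro m₁ m₂ hm₁ hm₂ τ μ b₁ b₂ hN hF hL hK n hn x hx hnl k ρ y U t hy hTr
  by_contra hcon
  have hkr : k + ρ + 1 ≤ m₁ + 2 * m₂ := by omega
  have hn1 : n₁ ≤ n := (le_max_left _ _).trans ((le_max_left _ _).trans hn)
  have hn2 : n₂ ≤ n := (le_max_right _ _).trans ((le_max_left _ _).trans hn)
  have hn3 : c₁ + 1 ≤ n := (le_max_right _ _).trans hn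
  obtain ⟨T₁, hT₁⟩ := H1 m₁ m₂ hm₁ hm₂ τ μ b₁ b₂ hN hF hL hK n hn1 x hx hnl k ρ y U t hy hTr hkr
  by_cases hU : ∀ l, U l none = 0
  · have hyx : ∀ i, y i none = x i := by
      intro i
      have h3 := hy i none
      simp only [hU, mul_zero, Finset.sum_const_zero, add_zero] at h3
      rw [← h3]
      rfl
    refine case_one (a := max a₀ (Q' + 2)) (le_max_right _ _) hn3 hx T₁ ?_ hk₀
    intro T hT
    have h4 := hT₁ T hT
    simp only [hyx] at h4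
    exact h4
  · push Not at hU
    obtain ⟨l₀, hl₀⟩ := hU
    obtain ⟨ρ', rfl⟩ : ∃ ρ', ρ = ρ' + 1 := by
      cases ρ with
      | zero => exact l₀.elim0
      | succ r => exact ⟨r, rfl⟩
    set V : Option (Fin m₂) → ℂ := fun o => U l₀ o / U l₀ none with hV
    set U' : Fin (ρ' + 1) → Option (Fin m₂) → ℂ :=
      Fin.cons V (fun j => fun o => U (l₀.succAbove j) o - U (l₀.succAbove j) none * V o) with hU'
    set t' : Fin n → Fin (ρ' + 1) → ℂ := fun i =>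
      Fin.cons (∑ l, t i l * U l none) (fun j => t i (l₀.succAbove j)) with ht'
    have hVn : V none = 1 := by
      simp only [hV]
      exact div_self hl₀
    have hy' : ∀ i o, AW τ μ b₂ x i o = y i o + ∑ l, t' i l * U' l o := by
      intro i o
      rw [hy i o, Fin.sum_univ_succAbove (fun l => t i l * U l o) l₀,
        Fin.sum_univ_succ (fun l => t' i l * U' l o)]
      simp only [hU', ht', Fin.cons_zero, Fin.cons_succ]
      rw [Fin.sum_univ_succAbove (fun l => t i l * U l none) l₀]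
      have e1 : U l₀ o = U l₀ none * V o := by
        simp only [hV]
        field_simp
      rw [e1]
      simp only [mul_sub, Finset.sum_sub_distrib, add_mul, Finset.sum_mul]
      have e2 : ∀ j : Fin ρ', t i (l₀.succAbove j) * U (l₀.succAbove j) none * V o =
          t i (l₀.succAbove j) * (U (l₀.succAbove j) none * V o) := fun j => by ring
      simp only [e2]
      ring
    obtain ⟨T₂, hT₂⟩ := H2 m₁ m₂ hm₁ hm₂ τ μ b₁ b₂ hN hF hL hK n hn2 x hx hnl k ρ' y U' t' hy'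
      (by simp only [hU', Fin.cons_zero]; exact hVn)
      (by
        intro l
        simp only [hU', Fin.cons_succ, hVn]
        ring) hTr hkr
    obtain ⟨T, hTa, hTb, hTc⟩ : ∃ T : ℕ, T₁ ≤ T ∧ T₂ ≤ T ∧ 1 ≤ T :=
      ⟨max (max T₁ T₂) 1, (le_max_left _ _).trans (le_max_left _ _),
        (le_max_right _ _).trans (le_max_left _ _), le_max_right _ _⟩
    have h5 := hT₁ T hTa
    have h6 := hT₂ T hTb
    have h7 := card_mono ((k₀ * T : ℕ) : ℤ) (fun s : Fin n → ℤ => ‖∑ i, (s i : ℂ) * y i none‖)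
      (le_max_left a₀ (Q' + 2)) hTc
    have h8 := Nat.mul_le_mul_left (T ^ c₁) h7
    exact absurd (h5.trans h8) (not_le.2 h6)

end Pool.Agent.Work.MP_8da9ea_nt.MX
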