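import Pool.Agent.Work.MP_8da9ea_nt.MX.StmtsT
import Pool.Agent.Work.MP_8da9ea_nt.MX.I_FTIeq

set_option autoImplicit false

namespace Pool.Agent.Work.MP_8da9ea_nt.MX

open MvPolynomial Pool.Agent.Work.MP_327059_nt.GL
  Pool.Agent.Work.MP_8da9ea_nt.S Pool.Agent.Work.MP_8da9ea_nt.EB

namespace I_AdmF

/-- The part of `P` whose monomials avoid the variables in `z`. -/
noncomputable def flt {κ : Type} (z : κ → Prop) (P : MvPolynomial κ ℤ) : MvPolynomial κ ℤ :=
  open Classical in
  ∑ m ∈ P.support.filter (fun m => ∀ k ∈ m.support, ¬ z k), monomial m (coeff m P)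

lemma coeff_flt {κ : Type} (z : κ → Prop) (P : MvPolynomial κ ℤ) (m : κ →₀ ℕ) :
    coeff m (flt z P) = open Classical in
      if ∀ k ∈ m.support, ¬ z k then coeff m P else 0 := by
  classical
  unfold flt
  rw [coeff_sum]
  simp only [coeff_monomial]
  rw [Finset.sum_ite_eq']
  by_cases h : ∀ k ∈ m.support, ¬ z k
  · by_cases h2 : m ∈ P.support
    · rw [if_pos (Finset.mem_filter.mpr ⟨h2, h⟩), if_pos h]
    · rw [if_neg (fun h3 => h2 (Finset.mem_filter.mp h3).1), if_pos h]
      exact (notMem_support_iff.mp h2).symm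
  · rw [if_neg (fun h3 => h (Finset.mem_filter.mp h3).2), if_neg h]

lemma support_flt {κ : Type} (z : κ → Prop) (P : MvPolynomial κ ℤ) :
    (flt z P).support ⊆ P.support := by
  classical
  intro m hm
  rw [mem_support_iff, coeff_flt] at hm
  rw [mem_support_iff]
  intro h
  apply hm
  rw [h]
  split_ifs <;> rfl

lemma deg_flt {κ : Type} (z : κ → Prop) (P : MvPolynomial κ ℤ) :
    (flt z P).totalDegree ≤ P.totalDegree := by
  unfold totalDegree
  exact Finset.sup_mono (support_flt z P)

lemma len_flt {κ : Type} (z : κ → Prop) (P : MvPolynomial κ ℤ) : len (flt z P) ≤ len P := by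
  classical
  unfold len
  refine (Finset.sum_le_sum (fun m _ => ?_)).trans
    (Finset.sum_le_sum_of_subset_of_nonneg (support_flt z P) (fun m _ _ => abs_nonneg _))
  rw [coeff_flt]
  split_ifs
  · exact le_rfl
  · simp

lemma aeval_flt {κ : Type} (z : κ → Prop) [DecidablePred z] (P : MvPolynomial κ ℤ)
    (b : κ → ℂ) : aeval b (flt z P) = aeval (fun k => if z k then 0 else b k) P := by
  classical
  conv_rhs => rw [P.as_sum, map_sum]
  unfold flt
  rw [map_sum, Finset.sum_filter]
  refine Finset.sum_congr rfl (fun m _ => ?_)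
  rw [aeval_monomial, aeval_monomial]
  by_cases h : ∀ k ∈ m.support, ¬ z k
  · rw [if_pos h]
    congr 1
    refine Finset.prod_congr rfl (fun k hk => ?_)
    simp only
    rw [if_neg (h k hk)]
  · rw [if_neg h]
    push Not at h
    obtain ⟨k, hk, hz⟩ := h
    symm
    rw [Finsupp.prod, Finset.prod_eq_zero hk, mul_zero]
    rw [if_pos hz]
    exact zero_pow (Finsupp.mem_support_iff.mp hk)

lemma zer (Q : ℕ) {κ : Type} [Fintype κ] (z : κ → Prop) [DecidablePred z] (b : κ → ℂ)
    (h : FTI Q b) : FTI Q (fun k => if z k then 0 else b k) := by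
  obtain ⟨C, hC, h⟩ := h
  refine ⟨C, hC, fun P t ht hd hl hne => ?_⟩
  rw [← aeval_flt z P b] at hne ⊢
  exact h _ t ht ((Nat.cast_le.mpr (deg_flt z P)).trans hd) ((len_flt z P).trans hl) hne

lemma all0 (Q : ℕ) {κ : Type} [Fintype κ] (b : κ → ℂ) (hb : ∀ k, b k = 0) : FTI Q b := by
  classical
  refine ⟨1, le_rfl, fun P t ht hd hl hne => ?_⟩
  have e : b = 0 := funext hb
  rw [e] at hne ⊢
  have e2 : aeval (0 : κ → ℂ) P = ((constantCoeff P : ℤ) : ℂ) := by
    rw [aeval_zero]
    simp
  rw [e2] at hne ⊢
  have h1 : (1 : ℝ) ≤ ‖((constantCoeff P : ℤ) : ℂ)‖ := by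
    rw [Complex.norm_intCast]
    have : (constantCoeff P : ℤ) ≠ 0 := by
      intro h
      apply hne
      rw [h]
      simp
    exact_mod_cast Int.one_le_abs this
  refine le_trans ?_ h1
  rw [Real.exp_le_one_iff]
  have : 0 ≤ t ^ Q := pow_nonneg (by linarith) _
  linarith

lemma ftF (Q : ℕ) {ι : Type} [Fintype ι] (μ : ℂ) (ty : ι → Ty) (b : ι → ℂ)
    (h : FTI Q (nb μ ty b)) : FTI Q (nb μ (fty ty) (fb ty b)) := by
  classical
  by_cases hι : Nonempty ι
  · obtain ⟨i0⟩ := hι
    let f : fI ty → ι := Sum.elim (fun _ => i0) (Sum.elim (fun j => j) (fun q => q.1))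
    let z : fI ty → Prop := fun k => fty ty k = Ty.add
    have h1 := zer Q z (fun k => nb μ ty b (f k)) (I_FTIeq.key Q f (nb μ ty b) h)
    have e : nb μ (fty ty) (fb ty b) = fun k => if z k then 0 else nb μ ty b (f k) := by
      funext k
      rcases k with k | ⟨j, hj⟩ | ⟨⟨j, hj⟩, b'⟩
      · simp [nb, fty, z]
      · simp [nb, fty, z, fb, f, hj]
      · cases b'
        · simp [nb, fty, z]
        · simp [nb, fty, z, fb, f, hj]
    rw [e]
    exact h1
  · refine all0 Q _ (fun k => ?_)
    rcases k with k | ⟨j, hj⟩ | ⟨⟨j, hj⟩, b'⟩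
    · simp [nb, fty]
    · exact absurd ⟨j⟩ hι
    · exact absurd ⟨j⟩ hι

end I_AdmF

open Classical in
/-- Item AdmF. -/
theorem AdmF_pf : S_AdmF := by
  intro Q ι _ τ μ ty i₀ π b c h
  refine ⟨I_AdmF.ftF Q μ ty b h.ft, ?_, ?_, ?_, ?_⟩
  · intro w hw hs
    have hw0 : ∀ u, w (Sum.inl u) = 0 := fun u => hw _ (by simp [fty])
    have hw2 : ∀ q, w (Sum.inr (Sum.inr q)) = 0 := fun q => hw _ (by
      rcases q with ⟨j, b'⟩
      cases b' <;> simp [fty])
    rw [Fintype.sum_sum_type, Fintype.sum_sum_type] at hs
    simp only [hw0, hw2, Int.cast_zero, zero_mul, Finset.sum_const_zero, zero_add, add_zero,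
      fb, Sum.elim_inr, Sum.elim_inl] at hs
    have h1 := h.mul (fun j => if hj : ty j = Ty.mul then w (Sum.inr (Sum.inl ⟨j, hj⟩)) else 0)
      (fun j hj => by simp [hj]) (by
        refine Eq.trans ?_ hs
        rw [← Finset.sum_filter_add_sum_filter_not Finset.univ (fun j => ty j = Ty.mul)]
        rw [Finset.sum_eq_zero (s := Finset.univ.filter (fun j => ¬ ty j = Ty.mul)) (fun j hj => by
          rw [dif_neg (Finset.mem_filter.mp hj).2]; simp), add_zero]
        rw [Finset.sum_subtype (p := fun j => ty j = Ty.mul) (Finset.univ.filter (fun j => ty j = Ty.mul))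
          (fun j => by simp)]
        refine Finset.sum_congr rfl (fun j _ => ?_)
        rw [dif_pos j.2])
    funext k
    rcases k with k | ⟨j, hj⟩ | q
    · exact hw0 k
    · have := congrFun h1 j
      simpa [hj] using this
    · exact hw2 q
  · intro g hg hE hs
    have hg0 : ∀ u, g (Sum.inl u) = 0 := fun u => hg _ (by simp [fty])
    have hg1 : ∀ j, g (Sum.inr (Sum.inl j)) = 0 := fun j => hg _ (by simp [fty])
    have hg2 : ∀ j, g (Sum.inr (Sum.inr (j, false))) = 0 := fun j => hg _ (by simp [fty])
    rw [Fintype.sum_sum_type, Fintype.sum_sum_type, Fintype.sum_prod_type] at hs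
    simp only [hg0, hg1, hg2, zero_mul, Finset.sum_const_zero, zero_add, Fintype.sum_bool,
      add_zero, fb, Sum.elim_inr, if_true] at hs
    have h1 := h.ell (fun j => if hj : ty j = Ty.ell then g (Sum.inr (Sum.inr (⟨j, hj⟩, true)))
        else 0)
      (fun j hj => by simp [hj]) (fun j => by
        by_cases hj : ty j = Ty.ell
        · simp only [dif_pos hj]
          exact hE _
        · simp only [dif_neg hj]
          have := hE (Sum.inl ())
          rwa [hg0] at this) (by
        refine Eq.trans ?_ hs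
        rw [← Finset.sum_filter_add_sum_filter_not Finset.univ (fun j => ty j = Ty.ell)]
        rw [Finset.sum_eq_zero (s := Finset.univ.filter (fun j => ¬ ty j = Ty.ell)) (fun j hj => by
          rw [dif_neg (Finset.mem_filter.mp hj).2]; simp), add_zero]
        rw [Finset.sum_subtype (p := fun j => ty j = Ty.ell) (Finset.univ.filter (fun j => ty j = Ty.ell))
          (fun j => by simp)]
        refine Finset.sum_congr rfl (fun j _ => ?_)
        rw [dif_pos j.2])
    funext k
    rcases k with k | j | ⟨⟨j, hj⟩, b'⟩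
    · exact hg0 k
    · exact hg1 j
    · cases b'
      · exact hg2 _
      · have := congrFun h1 j
        simpa [hj] using this
  · intro i hi
    have : i = Sum.inl () := (Option.some.inj hi).symm
    subst this
    simp [fb]
  · refine ⟨fun i hi => ?_, fun i hi hne => ?_⟩
    · have : i = Sum.inl () := (Option.some.inj hi).symm
      subst this
      exact ⟨by simp [fty], fun j _ => by simp [fc]⟩
    · rcases i with ⟨⟩ | j | ⟨q, b'⟩
      · exact absurd rfl hne
      · simp [fty] at hi
      · cases b'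
        · refine ⟨by simp [fty, fπ], fun i' hi' => ?_⟩
          rcases i' with ⟨⟩ | j' | ⟨q', b''⟩
          · simp [fc, fπ]
          · simp [fty] at hi'
          · cases b''
            · simp only [fc, fπ, Sum.elim_inr]
              by_cases hq : q' = q
              · subst hq
                simp
              · rw [if_neg (fun h => hq h.2.2), if_neg]
                intro h
                apply hq
                simpa using h
            · simp [fty] at hi'
        · simp [fty] at hi

end Pool.Agent.Work.MP_8da9ea_nt.MX
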