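import Pool.Agent.Work.MP_8da9ea_nt.MX.StmtsT

/-!
# Mixed block, item TrueQ: all quadruples are valid at the true point
-/

set_option autoImplicit false

namespace Pool.Agent.Work.MP_8da9ea_nt.MX

open MvPolynomial Pool.Agent.Work.MP_327059_nt.GL Pool.Agent.Work.MP_8da9ea_nt.S
  Pool.Agent.Work.MP_8da9ea_nt.EB

namespace I_TrueQ

theorem cmb_single {n : ℕ} (i : Fin n) (x : Fin n → ℂ) : cmb (Pi.single i 1) x = x i := by
  unfold cmb
  rw [Finset.sum_eq_single i]
  · simp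
  · intro k _ hk
    simp [Pi.single_eq_of_ne hk]
  · intro h
    exact absurd (Finset.mem_univ i) h

theorem cmb_neg {n : ℕ} (s : Fin n → ℤ) (x : Fin n → ℂ) : cmb (-s) x = -cmb s x := by
  unfold cmb
  rw [← Finset.sum_neg_distrib]
  refine Finset.sum_congr rfl fun k _ => ?_
  simp

theorem cmb_add {n : ℕ} (s t : Fin n → ℤ) (x : Fin n → ℂ) :
    cmb (s + t) x = cmb s x + cmb t x := by
  unfold cmb
  rw [← Finset.sum_add_distrib]
  refine Finset.sum_congr rfl fun k _ => ?_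
  simp only [Pi.add_apply, Int.cast_add]
  ring

theorem cmb_sub {n : ℕ} (s t : Fin n → ℤ) (x : Fin n → ℂ) :
    cmb (s - t) x = cmb s x - cmb t x := by
  rw [sub_eq_add_neg, cmb_add, cmb_neg, sub_eq_add_neg]

variable {ι : Type} [Fintype ι]

omit [Fintype ι] in
theorem pcI_cmb {n : ℕ} (b : ι → ℂ) (x : Fin n → ℂ) (s : Fin n → ℤ) (j : ι) :
    pcI (fun i j => b j * x i) s j = b j * cmb s x := by
  unfold pcI cmb
  rw [Finset.mul_sum]
  refine Finset.sum_congr rfl fun k _ => ?_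
  ring

theorem ze_neg (τ μ z : ℂ) : ze τ μ (-z) = -ze τ μ z := by
  unfold ze
  rw [zt_neg]
  ring

theorem cor_eq (τ μ : ℂ) {n : ℕ} (b : ι → ℂ) (x : Fin n → ℂ) (s : Fin n → ℤ) (j : ι) :
    cor τ μ (fun i j => b j * x i) s j =
      ze τ μ (b j * cmb s x) - ∑ i, (s i : ℂ) * ze τ μ (b j * x i) := by
  unfold cor
  rw [pcI_cmb]

theorem cor_single (τ μ : ℂ) {n : ℕ} (b : ι → ℂ) (x : Fin n → ℂ) (i : Fin n) (j : ι) :
    cor τ μ (fun i j => b j * x i) (Pi.single i 1) j = 0 := by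
  rw [cor_eq, cmb_single, Finset.sum_eq_single i]
  · simp
  · intro k _ hk
    simp [Pi.single_eq_of_ne hk]
  · intro h
    exact absurd (Finset.mem_univ i) h

theorem cor_neg (τ μ : ℂ) {n : ℕ} (b : ι → ℂ) (x : Fin n → ℂ) (s : Fin n → ℤ) (j : ι) :
    cor τ μ (fun i j => b j * x i) (-s) j = -cor τ μ (fun i j => b j * x i) s j := by
  rw [cor_eq, cor_eq, cmb_neg, mul_neg, ze_neg]
  have h : ∑ i, (((-s) i : ℤ) : ℂ) * ze τ μ (b j * x i) =
      -∑ i, (s i : ℂ) * ze τ μ (b j * x i) := by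
    rw [← Finset.sum_neg_distrib]
    refine Finset.sum_congr rfl fun k _ => ?_
    simp
  rw [h]
  ring

theorem cor_add (τ μ : ℂ) {n : ℕ} (b : ι → ℂ) (x : Fin n → ℂ) (s t : Fin n → ℤ) (j : ι) :
    cor τ μ (fun i j => b j * x i) (s + t) j =
      cor τ μ (fun i j => b j * x i) s j + cor τ μ (fun i j => b j * x i) t j +
        (ze τ μ (b j * cmb s x + b j * cmb t x) - ze τ μ (b j * cmb s x) -
          ze τ μ (b j * cmb t x)) := by
  rw [cor_eq, cor_eq, cor_eq, cmb_add, mul_add]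
  have h : ∑ i, (((s + t) i : ℤ) : ℂ) * ze τ μ (b j * x i) =
      ∑ i, (s i : ℂ) * ze τ μ (b j * x i) + ∑ i, (t i : ℂ) * ze τ μ (b j * x i) := by
    rw [← Finset.sum_add_distrib]
    refine Finset.sum_congr rfl fun k _ => ?_
    simp only [Pi.add_apply, Int.cast_add]
    ring
  rw [h]
  ring

end I_TrueQ

open I_TrueQ in
/-- All quadruples are valid at the true point. -/
theorem TrueQ_pf (h1 : S_AddQ) : S_TrueQ := by
  intro ι _ τ μ hτ hμ n ty b c x hNT j hj s V hV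
  induction hV with
  | base i =>
    have hs : (Pi.single i 1 : Fin n → ℤ) ≠ 0 := by
      intro h
      have := congrFun h i
      simp at this
    refine ⟨hNT _ hs j hj, ?_, ?_, ?_, ?_⟩
    · simp [baseQ]
    · simp [baseQ, cmb_single, ptM, PN, hj]
    · simp [baseQ, cmb_single, ptM, hj]
    · simp [baseQ, cor_single]
  | neg s V _ ih =>
    have h := (h1 ι τ μ hτ hμ n _ _ _ _ _ V V ih ih).1
    rw [cmb_neg, mul_neg, cor_neg]
    exact h
  | add s t V W _ _ hst hst' ih1 ih2 =>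
    have h := (h1 ι τ μ hτ hμ n _ _ _ _ _ V W ih1 ih2).2
    rw [← cor_add, ← mul_add, ← mul_sub, ← cmb_add, ← cmb_sub] at h
    exact h (hNT _ hst j hj) (hNT _ hst' j hj)

end Pool.Agent.Work.MP_8da9ea_nt.MX
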