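import Pool.Agent.Work.MP_8da9ea_nt.MX.StmtsF
import Pool.Agent.Work.MP_8da9ea_nt.MX.I_AdmF
import Pool.Agent.Work.MP_8da9ea_nt.MX.I_TIM
import Pool.Agent.Work.MP_8da9ea_nt.MX.I_TrueQ
import Pool.Agent.Work.MP_8da9ea_nt.MX.I_RelPtM

/-!
# Item TIF0 of the lossless mixed block
-/

set_option autoImplicit false

namespace Pool.Agent.Work.MP_8da9ea_nt.MX

open MvPolynomial Metric Filter Topology Pool.Agent.Work.MP_327059_nt.GL
  Pool.Agent.Work.MP_8da9ea_nt.S Pool.Agent.Work.MP_8da9ea_nt.EB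

namespace I_TIF0

/-! ## The family -/

/-- The index set. -/
abbrev J (m₁ m₂ : ℕ) : Type := Fin m₂ ⊕ (Fin m₁ ⊕ Fin m₂)

/-- The labels. -/
def tyJ (m₁ m₂ : ℕ) : J m₁ m₂ → Ty :=
  Sum.elim (fun _ => Ty.add) (Sum.elim (fun _ => Ty.mul) (fun _ => Ty.ell))

/-- The numbers `b`. -/
noncomputable def bJ (μ : ℂ) {m₁ m₂ : ℕ} (β : Fin m₂ → ℂ) (b₁ : Fin m₁ → ℂ) (b₂ : Fin m₂ → ℂ) :
    J m₁ m₂ → ℂ :=
  Sum.elim (fun l => -β l) (Sum.elim b₁ (fun l => μ * b₂ l))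

/-- The coefficients. -/
noncomputable def cJ (m₁ m₂ : ℕ) : J m₁ m₂ → J m₁ m₂ → ℂ :=
  Sum.elim (fun l => Sum.elim (fun _ => 0) (Sum.elim (fun _ => 0)
    (fun l' => if l = l' then 1 else 0))) (fun _ _ => 0)

/-- The pivots. -/
def πJ (m₁ m₂ : ℕ) : J m₁ m₂ → J m₁ m₂ :=
  Sum.elim (fun l => Sum.inr (Sum.inr l)) (fun j => Sum.inr j)

/-- The parameters of the true points. -/
noncomputable def uJ (τ μ : ℂ) {n m₁ m₂ : ℕ} (b₁ : Fin m₁ → ℂ) (b₂ : Fin m₂ → ℂ) (x : Fin n → ℂ)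
    (y : Fin n → Option (Fin m₂) → ℂ) : Fin n → J m₁ m₂ → ℂ := fun i =>
  Sum.elim (fun l => y i (some l) - ze τ μ (μ * (b₂ l * x i)))
    (Sum.elim (fun j => b₁ j * x i) (fun l => μ * b₂ l * x i))

lemma PN_inl (τ μ : ℂ) (m₁ m₂ : ℕ) (p : J m₁ m₂ → ℂ) (l : Fin m₂) :
    PN τ μ (tyJ m₁ m₂) (cJ m₁ m₂) p (Sum.inl l) =
      p (Sum.inl l) + ze τ μ (p (Sum.inr (Sum.inr l))) := by
  unfold PN
  have h1 : tyJ m₁ m₂ (Sum.inl l) = Ty.add := rfl
  rw [h1]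
  simp only
  congr 1
  rw [Fintype.sum_sum_type, Fintype.sum_sum_type]
  simp [tyJ, cJ]

lemma PN_mul (τ μ : ℂ) (m₁ m₂ : ℕ) (p : J m₁ m₂ → ℂ) (j : Fin m₁) :
    PN τ μ (tyJ m₁ m₂) (cJ m₁ m₂) p (Sum.inr (Sum.inl j)) =
      Complex.exp (p (Sum.inr (Sum.inl j))) := rfl

lemma PN_ell (τ μ : ℂ) (m₁ m₂ : ℕ) (p : J m₁ m₂ → ℂ) (l : Fin m₂) :
    PN τ μ (tyJ m₁ m₂) (cJ m₁ m₂) p (Sum.inr (Sum.inr l)) =
      xe τ μ (p (Sum.inr (Sum.inr l))) := rfl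

lemma ech (m₁ m₂ : ℕ) : EchC (tyJ m₁ m₂) none (πJ m₁ m₂) (cJ m₁ m₂) := by
  classical
  refine ⟨fun i hi => by simp at hi, fun i hi _ => ?_⟩
  rcases i with l | j | l
  · refine ⟨rfl, fun i' hi' => ?_⟩
    rcases i' with l' | j' | l'
    · simp [cJ, πJ]
    · simp [tyJ] at hi'
    · simp [tyJ] at hi'
  · simp [tyJ] at hi
  · simp [tyJ] at hi

lemma ntm (τ μ : ℂ) {n m₁ m₂ : ℕ} (β : Fin m₂ → ℂ) (b₁ : Fin m₁ → ℂ) (b₂ : Fin m₂ → ℂ)
    (x : Fin n → ℂ)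
    (hNT : ∀ s : Fin n → ℤ, s ≠ 0 → ∀ j, μ * b₂ j * cmb s x ∉ Lam τ) :
    NTM τ (tyJ m₁ m₂) (bJ μ β b₁ b₂) x := by
  intro s hs j hj
  rcases j with l | j | l
  · simp [tyJ] at hj
  · simp [tyJ] at hj
  · exact hNT s hs l

lemma hu (τ μ : ℂ) {n m₁ m₂ : ℕ} (β : Fin m₂ → ℂ) (b₁ : Fin m₁ → ℂ) (b₂ : Fin m₂ → ℂ)
    (x : Fin n → ℂ) (y : Fin n → Option (Fin m₂) → ℂ) (i : Fin n) (j : J m₁ m₂)
    (hj : tyJ m₁ m₂ j ≠ Ty.add) : uJ τ μ b₁ b₂ x y i j = bJ μ β b₁ b₂ j * x i := by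
  rcases j with l | j | l
  · exact absurd rfl hj
  · rfl
  · rfl

lemma adB {Q : ℕ} {τ μ : ℂ} {m₁ m₂ : ℕ} (β : Fin m₂ → ℂ) (b₁ : Fin m₁ → ℂ) (b₂ : Fin m₂ → ℂ)
    (hμ : μ ≠ 0) (hF : FTI Q (Sum.elim b₁ b₂)) (h1 : LinearIndependent ℚ b₁) (h2 : KLI τ b₂) :
    AdB Q τ μ (tyJ m₁ m₂) (bJ μ β b₁ b₂) := by
  classical
  refine ⟨?_, ?_, ?_⟩
  · let f : J m₁ m₂ → Fin m₁ ⊕ Fin m₂ := Sum.elim (fun l => Sum.inr l) (fun j => j)
    let z : J m₁ m₂ → Prop := fun k => tyJ m₁ m₂ k = Ty.add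
    have h3 := I_AdmF.zer Q z (fun k => Sum.elim b₁ b₂ (f k)) (I_FTIeq.key Q f _ hF)
    have e : nb μ (tyJ m₁ m₂) (bJ μ β b₁ b₂) =
        fun k => if z k then 0 else Sum.elim b₁ b₂ (f k) := by
      funext k
      rcases k with l | j | l
      · simp [nb, tyJ, z]
      · simp [nb, tyJ, z, f, bJ]
      · have e1 : μ * b₂ l / μ = b₂ l := mul_div_cancel_left₀ _ hμ
        simp [nb, tyJ, z, f, bJ, e1]
    rw [e]
    exact h3
  · intro w hw hs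
    have h3 : ∑ j : Fin m₁, ((w (Sum.inr (Sum.inl j)) : ℤ) : ℂ) * b₁ j = 0 := by
      rw [Fintype.sum_sum_type, Fintype.sum_sum_type] at hs
      have e1 : ∑ l : Fin m₂, ((w (Sum.inl l) : ℤ) : ℂ) * bJ μ β b₁ b₂ (Sum.inl l) = 0 := by
        refine Finset.sum_eq_zero fun l _ => ?_
        rw [hw (Sum.inl l) (by simp [tyJ])]
        simp
      have e2 : ∑ l : Fin m₂, ((w (Sum.inr (Sum.inr l)) : ℤ) : ℂ) *
          bJ μ β b₁ b₂ (Sum.inr (Sum.inr l)) = 0 := by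
        refine Finset.sum_eq_zero fun l _ => ?_
        rw [hw (Sum.inr (Sum.inr l)) (by simp [tyJ])]
        simp
      rw [e1, e2, zero_add, add_zero] at hs
      exact hs
    have h4 := Fintype.linearIndependent_iff.1 h1 (fun j => ((w (Sum.inr (Sum.inl j)) : ℤ) : ℚ))
      (by
        rw [← h3]
        refine Finset.sum_congr rfl fun j _ => ?_
        rw [Algebra.smul_def]
        simp)
    funext k
    rcases k with l | j | l
    · exact hw _ (by simp [tyJ])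
    · have := h4 j
      exact_mod_cast this
    · exact hw _ (by simp [tyJ])
  · intro g hg hE hs
    have h3 : ∑ l : Fin m₂, g (Sum.inr (Sum.inr l)) * b₂ l = 0 := by
      rw [Fintype.sum_sum_type, Fintype.sum_sum_type] at hs
      have e1 : ∑ l : Fin m₂, g (Sum.inl l) * bJ μ β b₁ b₂ (Sum.inl l) = 0 := by
        refine Finset.sum_eq_zero fun l _ => ?_
        rw [hg (Sum.inl l) (by simp [tyJ])]
        simp
      have e2 : ∑ j : Fin m₁, g (Sum.inr (Sum.inl j)) *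
          bJ μ β b₁ b₂ (Sum.inr (Sum.inl j)) = 0 := by
        refine Finset.sum_eq_zero fun l _ => ?_
        rw [hg (Sum.inr (Sum.inl l)) (by simp [tyJ])]
        simp
      rw [e1, e2, zero_add, zero_add] at hs
      have e3 : ∑ l : Fin m₂, g (Sum.inr (Sum.inr l)) * bJ μ β b₁ b₂ (Sum.inr (Sum.inr l)) =
          μ * ∑ l : Fin m₂, g (Sum.inr (Sum.inr l)) * b₂ l := by
        rw [Finset.mul_sum]
        refine Finset.sum_congr rfl fun l _ => ?_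
        simp only [bJ, Sum.elim_inr]
        ring
      rw [e3] at hs
      rcases mul_eq_zero.1 hs with h | h
      · exact absurd h hμ
      · exact h
    have h4 := h2 (fun l => g (Sum.inr (Sum.inr l))) (fun l => hE _) h3
    funext k
    rcases k with l | j | l
    · exact hg _ (by simp [tyJ])
    · exact hg _ (by simp [tyJ])
    · exact congrFun h4 l

/-! ## Algebraicity -/

lemma trLe_of_alg {σ σ' : Type} [Fintype σ] {k : ℕ} (θ : σ → ℂ) (θ' : σ' → ℂ) (hT : TrLe k θ)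
    (h : ∀ j, AlgOver θ (θ' j)) : TrLe k θ' := by
  intro s hs
  obtain ⟨r, sb, hind, halg⟩ := pr_TrBasis σ θ
  have hr : r ≤ k := by
    by_contra h
    push Not at h
    exact hT (fun i => sb (Fin.castLE h i)) (hind.comp (Fin.castLE h) (Fin.castLE_injective h))
  have h3 := pr_TrCount (Fin (k + 1)) (Fin r) (fun i => θ' (s i)) (fun i => θ (sb i)) hs
    (fun i => I_RelPtM.alg_trans θ _ _ (h (s i)) halg)
  rw [Fintype.card_fin, Fintype.card_fin] at h3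
  omega

lemma alg_q {σ : Type} (θ : σ → ℂ) {z : ℂ} (hz : IsAlgebraic ℚ z) : AlgOver θ z :=
  hz.extendScalars (algebraMap ℚ (IntermediateField.adjoin ℚ (Set.range θ))).injective

lemma cmb_single {n : ℕ} (x : Fin n → ℂ) (i : Fin n) : cmb (Pi.single i 1) x = x i := by
  unfold cmb
  rw [Finset.sum_eq_single i]
  · simp
  · intro l _ hl
    simp [Pi.single_eq_of_ne hl]
  · intro h
    exact absurd (Finset.mem_univ i) h

lemma nt_single {τ μ : ℂ} {n m₂ : ℕ} {b₂ : Fin m₂ → ℂ} {x : Fin n → ℂ}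
    (hNT : ∀ s : Fin n → ℤ, s ≠ 0 → ∀ j, μ * b₂ j * cmb s x ∉ Lam τ) (i : Fin n) (l : Fin m₂) :
    μ * b₂ l * x i ∉ Lam τ := by
  have h1 := hNT (Pi.single i 1) (by
    intro h
    have := congrFun h i
    simp at this) l
  rwa [cmb_single] at h1

lemma alg_ye {σ : Type} (θ : σ → ℂ) {τ μ u : ℂ} (hn : Nrm τ μ) (hu : u ∉ Lam τ)
    (hX : AlgOver θ (xe τ μ u)) : AlgOver θ (ye τ μ u) := by
  have hc : ye τ μ u ^ 2 = 4 * xe τ μ u ^ 3 - (μ ^ 4 * gg2 τ) * xe τ μ u - μ ^ 6 * gg3 τ := by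
    have := wpd_sq hn.im hu
    unfold xe ye
    linear_combination μ ^ 6 * this
  unfold AlgOver at *
  set K := IntermediateField.adjoin ℚ (Set.range θ) with hK
  have e2 : IsAlgebraic K (μ ^ 4 * gg2 τ) := hn.g2.extendScalars (algebraMap ℚ K).injective
  have e3 : IsAlgebraic K (μ ^ 6 * gg3 τ) := hn.g3.extendScalars (algebraMap ℚ K).injective
  have h4 : IsAlgebraic K (4 : ℂ) := by
    have : IsAlgebraic K ((4 : ℕ) : ℂ) := isAlgebraic_natCast 4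
    exact_mod_cast this
  have h5 : IsAlgebraic K (ye τ μ u ^ 2) := by
    rw [hc]
    exact ((h4.mul (hX.pow 3)).sub (e2.mul hX)).sub e3
  exact IsAlgebraic.of_pow (by norm_num) h5

lemma trLe_pt {τ μ : ℂ} {n m₁ m₂ k : ℕ} {b₁ : Fin m₁ → ℂ} {b₂ : Fin m₂ → ℂ} {x : Fin n → ℂ}
    {y : Fin n → Option (Fin m₂) → ℂ} (hn : Nrm τ μ)
    (hNT : ∀ s : Fin n → ℤ, s ≠ 0 → ∀ j, μ * b₂ j * cmb s x ∉ Lam τ)
    (hT : TrLe k (valF τ μ b₁ b₂ x y)) :
    TrLe k (ptM τ μ (tyJ m₁ m₂) (fun _ => 0) (cJ m₁ m₂) (uJ τ μ b₁ b₂ x y)) := by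
  classical
  have hs := I_RelPtM.alg_self (valF τ μ b₁ b₂ x y)
  have hX : ∀ i l, AlgOver (valF τ μ b₁ b₂ x y) (xe τ μ (μ * b₂ l * x i)) := by
    intro i l
    have := hs (Sum.inr (Sum.inr (i, l)))
    have e : valF τ μ b₁ b₂ x y (Sum.inr (Sum.inr (i, l))) = xe τ μ (μ * b₂ l * x i) := by
      show xe τ μ (μ * (b₂ l * x i)) = _
      rw [mul_assoc]
    rwa [e] at this
  refine trLe_of_alg _ _ hT ?_
  intro j
  rcases j with q | ⟨i, j⟩ | ⟨i, j, e⟩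
  · show AlgOver _ (if q = 0 then μ ^ 4 * gg2 τ else μ ^ 6 * gg3 τ)
    split_ifs
    · exact alg_q _ hn.g2
    · exact alg_q _ hn.g3
  · have h0 : IsAlgebraic ℚ (0 : ℂ) := isAlgebraic_zero
    have h1 : IsAlgebraic ℚ (1 : ℂ) := isAlgebraic_one
    have hc : AlgOver (valF τ μ b₁ b₂ x y) (cJ m₁ m₂ i j) := by
      rcases i with i | i
      · rcases j with j | j | j
        · exact alg_q _ h0
        · exact alg_q _ h0
        · show AlgOver _ (if i = j then 1 else 0)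
          split_ifs
          · exact alg_q _ h1
          · exact alg_q _ h0
      · exact alg_q _ h0
    unfold ptM
    simp only [Sum.elim_inr, Sum.elim_inl]
    split_ifs
    · exact hc
    · exact alg_q _ h0
    · exact alg_q _ h0
  · show AlgOver _ (if e then (if tyJ m₁ m₂ j = Ty.ell then ye τ μ (uJ τ μ b₁ b₂ x y i j) else 0)
        else PN τ μ (tyJ m₁ m₂) (cJ m₁ m₂) (uJ τ μ b₁ b₂ x y i) j)
    have h0 : IsAlgebraic ℚ (0 : ℂ) := isAlgebraic_zero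
    split_ifs with he hj
    · rcases j with l | j | l
      · simp [tyJ] at hj
      · simp [tyJ] at hj
      · exact alg_ye _ hn (nt_single hNT i l) (hX i l)
    · exact alg_q _ h0
    · rcases j with l | j | l
      · rw [PN_inl]
        have e : uJ τ μ b₁ b₂ x y i (Sum.inl l) + ze τ μ (uJ τ μ b₁ b₂ x y i (Sum.inr (Sum.inr l))) =
            valF τ μ b₁ b₂ x y (Sum.inl (i, some l)) := by
          show y i (some l) - ze τ μ (μ * (b₂ l * x i)) + ze τ μ (μ * b₂ l * x i) = y i (some l)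
          rw [mul_assoc]
          ring
        rw [e]
        exact hs _
      · exact hs (Sum.inr (Sum.inl (i, j)))
      · exact hX i l

/-! ## Signs -/

/-- The signs `±1`. -/
def sz (e : Bool) : ℤ := if e then 1 else -1

lemma sz_mul (e : Bool) : sz e * sz e = 1 := by cases e <;> rfl

lemma sz_abs (e : Bool) : |sz e| = 1 := by cases e <;> rfl

lemma sz_mulC (e : Bool) : (sz e : ℂ) * (sz e : ℂ) = 1 := by
  have := sz_mul e
  exact_mod_cast this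

lemma ze_sz (τ μ z : ℂ) (e : Bool) : ze τ μ ((sz e : ℂ) * z) = (sz e : ℂ) * ze τ μ z := by
  cases e
  · have h : ((sz false : ℤ) : ℂ) = -1 := by norm_num [sz]
    rw [h, neg_one_mul, neg_one_mul]
    exact I_TrueQ.ze_neg τ μ z
  · have h : ((sz true : ℤ) : ℂ) = 1 := by norm_num [sz]
    rw [h, one_mul, one_mul]

lemma xe_sz (τ μ z : ℂ) (e : Bool) : xe τ μ ((sz e : ℂ) * z) = xe τ μ z := by
  cases e
  · have h : ((sz false : ℤ) : ℂ) = -1 := by norm_num [sz]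
    rw [h, neg_one_mul]
    unfold xe
    rw [wp_neg]
  · have h : ((sz true : ℤ) : ℂ) = 1 := by norm_num [sz]
    rw [h, one_mul]

lemma trLe_sz {τ μ : ℂ} {n m₁ m₂ k : ℕ} {b₁ : Fin m₁ → ℂ} {b₂ : Fin m₂ → ℂ} {x : Fin n → ℂ}
    {y : Fin n → Option (Fin m₂) → ℂ} (σ : Fin n → Bool)
    (hT : TrLe k (valF τ μ b₁ b₂ x y)) :
    TrLe k (valF τ μ b₁ b₂ (fun i => (sz (σ i) : ℂ) * x i) (fun i o => (sz (σ i) : ℂ) * y i o)) := by
  have hs := I_RelPtM.alg_self (valF τ μ b₁ b₂ x y)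
  refine trLe_of_alg _ _ hT ?_
  intro j
  rcases j with ⟨i, o⟩ | ⟨i, j⟩ | ⟨i, l⟩
  · show AlgOver _ ((sz (σ i) : ℂ) * y i o)
    have h1 : AlgOver (valF τ μ b₁ b₂ x y) ((sz (σ i) : ℤ) : ℂ) := alg_q _ (isAlgebraic_intCast _)
    exact IsAlgebraic.mul h1 (hs (Sum.inl (i, o)))
  · show AlgOver _ (Complex.exp (b₁ j * ((sz (σ i) : ℂ) * x i)))
    have h1 := hs (Sum.inr (Sum.inl (i, j)))
    change AlgOver _ (Complex.exp (b₁ j * x i)) at h1
    cases σ i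
    · have h : ((sz false : ℤ) : ℂ) = -1 := by norm_num [sz]
      rw [h]
      have e : b₁ j * (-1 * x i) = -(b₁ j * x i) := by ring
      rw [e, Complex.exp_neg]
      exact IsAlgebraic.inv h1
    · have h : ((sz true : ℤ) : ℂ) = 1 := by norm_num [sz]
      rw [h, one_mul]
      exact h1
  · show AlgOver _ (xe τ μ (μ * (b₂ l * ((sz (σ i) : ℂ) * x i))))
    have e : μ * (b₂ l * ((sz (σ i) : ℂ) * x i)) = (sz (σ i) : ℂ) * (μ * (b₂ l * x i)) := by ring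
    rw [e, xe_sz]
    exact hs (Sum.inr (Sum.inr (i, l)))

/-! ## Arithmetic -/

lemma arith (Q' q N' k : ℕ) (hk : k + 1 ≤ N') (C T : ℝ) (hC : 1 ≤ C) (hT2 : 2 ≤ T) (hTC : C ≤ T) :
    C * (T ^ q * T ^ 11 + T ^ (q + 4)) ^ (k + 1) ≤ T ^ ((q + 12) * N' + (6 * Q' + 9)) ∧
    T ^ (6 * Q' + 6) ≤ T ^ ((q + 12) * N' + (6 * Q' + 9)) /
      (C * (T ^ q * T ^ 11 + T ^ (q + 4)) ^ k) := by
  have hT1 : 1 ≤ T := by linarith
  have hT0 : 0 < T := by linarith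
  set A := T ^ q * T ^ 11 + T ^ (q + 4) with hA
  have hA1 : 1 ≤ A := by
    have := one_le_pow₀ hT1 (n := q + 4)
    have h2 : 0 < T ^ q * T ^ 11 := by positivity
    linarith
  have hA2 : A ≤ T ^ (q + 12) := by
    have h1 : T ^ (q + 4) ≤ T ^ (q + 11) := pow_le_pow_right₀ hT1 (by omega)
    have h2 : T ^ q * T ^ 11 = T ^ (q + 11) := by rw [← pow_add]
    have h3 : T ^ (q + 12) = T ^ (q + 11) * T := by rw [← pow_succ]
    have h4 : 0 < T ^ (q + 11) := by positivity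
    rw [hA, h2, h3]
    nlinarith
  have hA5 : A ^ N' ≤ T ^ ((q + 12) * N') := by
    rw [pow_mul]
    exact pow_le_pow_left₀ (by linarith) hA2 _
  have hA3 : A ^ (k + 1) ≤ T ^ ((q + 12) * N') := (pow_le_pow_right₀ hA1 hk).trans hA5
  have hA4 : A ^ k ≤ T ^ ((q + 12) * N') := (pow_le_pow_right₀ hA1 (by omega)).trans hA5
  have hP : 0 < T ^ ((q + 12) * N') := by positivity
  have hCT : C ≤ T ^ (6 * Q' + 9) := by
    have h5 : T ^ 1 ≤ T ^ (6 * Q' + 9) := pow_le_pow_right₀ hT1 (by omega)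
    rw [pow_one] at h5
    linarith
  constructor
  · calc C * A ^ (k + 1) ≤ T ^ (6 * Q' + 9) * T ^ ((q + 12) * N') :=
        mul_le_mul hCT hA3 (by positivity) (by positivity)
      _ = T ^ ((q + 12) * N' + (6 * Q' + 9)) := by
          rw [pow_add T ((q + 12) * N') (6 * Q' + 9), mul_comm]
  · have hden : 0 < C * A ^ k := by positivity
    rw [le_div_iff₀ hden]
    have hden2 : C * A ^ k ≤ T * T ^ ((q + 12) * N') :=
      mul_le_mul hTC hA4 (by positivity) (by positivity)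
    calc T ^ (6 * Q' + 6) * (C * A ^ k) ≤ T ^ (6 * Q' + 6) * (T * T ^ ((q + 12) * N')) :=
          mul_le_mul_of_nonneg_left hden2 (by positivity)
      _ = T ^ ((q + 12) * N' + (6 * Q' + 7)) := by
          rw [pow_add T ((q + 12) * N') (6 * Q' + 7), pow_add T (6 * Q') 6, pow_add T (6 * Q') 7]
          ring
      _ ≤ _ := pow_le_pow_right₀ hT1 (by omega)

lemma small (k₀ D a : ℕ) (hD : D + 2 ≤ a) (B T ε w : ℝ) (hT2 : 2 ≤ T)
    (hTk : (k₀ : ℝ) ^ D ≤ T) (hTB : B ≤ T) (hw : w ≤ B)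
    (hε0 : 0 ≤ ε) (hε : ε ≤ Real.exp (-(T ^ a))) :
    w * ε ≤ Real.exp (-(((k₀ : ℝ) * T) ^ D)) := by
  have hT1 : 1 ≤ T := by linarith
  have h1 : w ≤ Real.exp T := by
    have := Real.add_one_le_exp T
    linarith
  have h2 : w * ε ≤ Real.exp T * Real.exp (-(T ^ a)) :=
    mul_le_mul h1 hε hε0 (Real.exp_pos _).le
  rw [← Real.exp_add] at h2
  refine h2.trans (Real.exp_le_exp.2 ?_)
  have h3 : ((k₀ : ℝ) * T) ^ D ≤ T ^ (D + 1) := by
    rw [mul_pow, pow_succ, mul_comm]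
    exact mul_le_mul_of_nonneg_left hTk (by positivity)
  have h4 : T ^ (D + 2) ≤ T ^ a := pow_le_pow_right₀ hT1 hD
  have h5 : T ^ (D + 1) + T ≤ T ^ (D + 2) := by
    have h6 : T ^ (D + 2) = T ^ (D + 1) * T := by rw [← pow_succ]
    have h7 : T ^ (D + 1) = T ^ D * T := by rw [← pow_succ]
    have h8 : 1 ≤ T ^ D := one_le_pow₀ hT1
    have h9 : T ≤ T ^ (D + 1) := by rw [h7]; nlinarith
    rw [h6]
    nlinarith
  linarith

/-! ## The inputs for the family -/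

/-- The conclusion of `S_PsiF` for `q`. -/
def Psi (ι : Type) [Fintype ι] (ρ e₁ e₂ q : ℕ) : Prop :=
  ∀ (τ μ : ℂ), 0 < τ.im → μ ≠ 0 → ∀ (ty : ι → Ty) (b : ι → ℂ)
  (c : ι → ι → ℂ) (U : Fin ρ → ι → ℂ) (R₀ : ℝ), 1 ≤ R₀ → (∀ j, ty j = Ty.ell → b j ≠ 0) →
    ∃ T₀ : ℕ, ∀ T : ℕ, T₀ ≤ T → ∃ p : (Fin (Fintype.card ι + 1) → ι → Fin (T ^ q)) → ℤ,
      p ≠ 0 ∧ (∀ x, |p x| ≤ (2 : ℤ) ^ (T ^ (q + 4))) ∧
      ∀ (z : Fin (Fintype.card ι + 1) → ℂ) (t : Fin (Fintype.card ι + 1) → Fin ρ → ℂ)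
        (v : Fin (Fintype.card ι + 1) → ι → ℂ), (∀ r, ‖z r‖ ≤ R₀ * T) → (∀ r k, ‖t r k‖ ≤ R₀ * T) →
        (∀ r j, ty j = Ty.ell → b j * z r ∉ Lam τ) →
        (∀ r i, ty i ≠ Ty.add → v r i = PN τ μ ty c (fun j => b j * z r) i) →
        (∀ r i, ty i = Ty.add → ‖v r i - (PN τ μ ty c (fun j => b j * z r) i - ∑ k, t r k * U k i)‖ ≤
          Real.exp (-((T : ℝ) ^ ((q + e₁) * Fintype.card ι + e₂ + q + 6)))) →
        ‖AFv p v‖ * ∏ r, dd τ ty b (2 * (Fintype.card ι * T ^ q)) (z r) ≤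
          Real.exp (-((T : ℝ) ^ ((q + e₁) * (Fintype.card ι - ρ - 1) + e₂)))

/-- The conclusion of `S_NZF` for the family. -/
def NZ (Q Q' q c₀ m₁ m₂ n : ℕ) : Prop :=
  ∀ (τ μ : ℂ), 0 < τ.im → μ ≠ 0 → ∀ (b : J m₁ m₂ → ℂ), AdB Q τ μ (tyJ m₁ m₂) b →
    ∀ x : Fin n → ℂ, MS Q' x →
    ∃ T₀ : ℕ, ∀ T : ℕ, T₀ ≤ T → ∀ (u : Fin n → J m₁ m₂ → ℂ)
      (c' : J m₁ m₂ → J m₁ m₂ → ℂ) (F : MvPolynomial (J m₁ m₂) ℂ) (A : Finset (Fin n → ℤ)),
      (∀ i j, tyJ m₁ m₂ j ≠ Ty.add → ‖u i j - b j * x i‖ ≤ Real.exp (-((T : ℝ) ^ (6 * Q' + 6)))) →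
      EchC (tyJ m₁ m₂) none (πJ m₁ m₂) c' → F ≠ 0 → (∀ j, F.degreeOf j ≤ T ^ q) →
      (∀ s ∈ A, s ≠ 0 ∧ ∀ i, 0 ≤ s i ∧ s i ≤ (T : ℤ)) →
      (∀ s ∈ A, Gd τ (tyJ m₁ m₂) (pcI u s) → eval (PN τ μ (tyJ m₁ m₂) c' (pcI u s)) F = 0) →
      T ^ c₀ * A.card < (T + 1) ^ n

lemma bdd3 (P : ℕ → ℕ → ℕ → ℕ → Prop) (hP : ∀ a b c, ∃ q₀, ∀ q, q₀ ≤ q → P a b c q) (A B C : ℕ) :
    ∃ q₀, ∀ q, q₀ ≤ q → ∀ a ≤ A, ∀ b ≤ B, ∀ c ≤ C, P a b c q := by
  choose f hf using hP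
  refine ⟨∑ a ∈ Finset.range (A + 1), ∑ b ∈ Finset.range (B + 1), ∑ c ∈ Finset.range (C + 1),
    f a b c, ?_⟩
  intro q hq a ha b hb c hc
  refine hf a b c q (le_trans ?_ hq)
  calc f a b c ≤ ∑ c ∈ Finset.range (C + 1), f a b c :=
        Finset.single_le_sum (f := fun c => f a b c) (fun _ _ => Nat.zero_le _)
          (Finset.mem_range.2 (by omega))
    _ ≤ ∑ b ∈ Finset.range (B + 1), ∑ c ∈ Finset.range (C + 1), f a b c :=
        Finset.single_le_sum (f := fun b => ∑ c ∈ Finset.range (C + 1), f a b c)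
          (fun _ _ => Nat.zero_le _) (Finset.mem_range.2 (by omega))
    _ ≤ _ :=
        Finset.single_le_sum (f := fun a => ∑ b ∈ Finset.range (B + 1),
          ∑ c ∈ Finset.range (C + 1), f a b c)
          (fun _ _ => Nat.zero_le _) (Finset.mem_range.2 (by omega))

lemma psi_all (h : S_PsiF) (Q' m : ℕ) : ∃ q : ℕ, ∀ m₁ ≤ m, ∀ m₂ ≤ m, ∀ ρ ≤ 3 * m,
    ρ + 2 ≤ Fintype.card (J m₁ m₂) → Psi (J m₁ m₂) ρ 12 (6 * Q' + 9) q := by
  obtain ⟨q₀, hq⟩ := bdd3 (fun m₁ m₂ ρ q => ρ + 2 ≤ Fintype.card (J m₁ m₂) →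
    Psi (J m₁ m₂) ρ 12 (6 * Q' + 9) q) (by
      intro m₁ m₂ ρ
      by_cases hρ : ρ + 2 ≤ Fintype.card (J m₁ m₂)
      · obtain ⟨q₀, h0⟩ := h (J m₁ m₂) ρ 12 (6 * Q' + 9) hρ
        exact ⟨q₀, fun q hq _ => h0 q hq⟩
      · exact ⟨0, fun q _ h1 => absurd h1 hρ⟩) m m (3 * m)
  exact ⟨q₀, hq q₀ le_rfl⟩

lemma nz_all (h : S_NZF) (Q Q' q c₀ m : ℕ) : ∃ n₀ : ℕ, ∀ n, n₀ ≤ n → ∀ m₁ ≤ m, ∀ m₂ ≤ m,
    NZ Q Q' q c₀ m₁ m₂ n := by
  obtain ⟨n₀, hn⟩ := bdd3 (fun m₁ m₂ _ n => NZ Q Q' q c₀ m₁ m₂ n) (by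
    intro m₁ m₂ _
    obtain ⟨n₀, k₀, c₁, _, h0⟩ := h Q Q' q c₀ (J m₁ m₂)
    refine ⟨n₀, fun n hn => ?_⟩
    intro τ μ hτ hμ b hA x hx
    obtain ⟨T₀, h1⟩ := h0 τ μ hτ hμ (tyJ m₁ m₂) none (πJ m₁ m₂) b hA n hn x hx
    refine ⟨T₀, fun T hT u c' F A hu hE hF hd hs he => ?_⟩
    by_contra hcon
    push Not at hcon
    have hTT : T ≤ T ^ 2 := by nlinarith [Nat.zero_le T]
    obtain ⟨i, hi, _⟩ := h1 T hT T le_rfl hTT u c' F A hu hE hF hd hs hcon he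
    simp at hi) m m 0
  exact ⟨n₀, fun n h1 m₁ hm₁ m₂ hm₂ => hn n h1 m₁ hm₁ m₂ hm₂ 0 le_rfl⟩

/-! ## The main argument -/

lemma pcI_na {τ μ : ℂ} {n m₁ m₂ : ℕ} (β : Fin m₂ → ℂ) (b₁ : Fin m₁ → ℂ) (b₂ : Fin m₂ → ℂ)
    (x : Fin n → ℂ) (y : Fin n → Option (Fin m₂) → ℂ) (s : Fin n → ℤ) (j : J m₁ m₂)
    (hj : tyJ m₁ m₂ j ≠ Ty.add) :
    pcI (uJ τ μ b₁ b₂ x y) s j = bJ μ β b₁ b₂ j * cmb s x := by
  unfold pcI cmb
  rw [Finset.mul_sum]
  refine Finset.sum_congr rfl fun i _ => ?_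
  rw [hu τ μ β b₁ b₂ x y i j hj]
  ring

lemma diff {τ μ : ℂ} {n m₁ m₂ ρ : ℕ} (b₁ : Fin m₁ → ℂ) {b₂ : Fin m₂ → ℂ} {x : Fin n → ℂ}
    {y : Fin n → Option (Fin m₂) → ℂ} {U : Fin (ρ + 1) → Option (Fin m₂) → ℂ}
    {t : Fin n → Fin (ρ + 1) → ℂ} (hA : ∀ i o, AW τ μ b₂ x i o = y i o + ∑ l, t i l * U l o)
    (hU0 : U 0 none = 1) (hU1 : ∀ l : Fin ρ, U l.succ none = 0) (s : Fin n → ℤ) (l : Fin m₂) :
    pcI (uJ τ μ b₁ b₂ x y) s (Sum.inl l) + U 0 (some l) * cmb s x +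
      ∑ k : Fin ρ, (∑ i, (s i : ℂ) * t i k.succ) * U k.succ (some l) =
      U 0 (some l) * ∑ i, (s i : ℂ) * y i none := by
  have e1 : ∑ k : Fin ρ, (∑ i, (s i : ℂ) * t i k.succ) * U k.succ (some l) =
      ∑ i, (s i : ℂ) * ∑ k : Fin ρ, t i k.succ * U k.succ (some l) := by
    simp only [Finset.sum_mul, Finset.mul_sum]
    rw [Finset.sum_comm]
    refine Finset.sum_congr rfl fun i _ => Finset.sum_congr rfl fun k _ => ?_
    ring
  rw [e1]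
  unfold pcI cmb
  rw [Finset.mul_sum, Finset.mul_sum, ← Finset.sum_add_distrib, ← Finset.sum_add_distrib]
  refine Finset.sum_congr rfl fun i _ => ?_
  have h1 := hA i (some l)
  have h2 := hA i none
  rw [Fin.sum_univ_succ] at h1 h2
  have h3 : ∑ k : Fin ρ, t i k.succ * U k.succ none = 0 :=
    Finset.sum_eq_zero fun k _ => by rw [hU1 k, mul_zero]
  rw [h3, hU0] at h2
  have e2 : AW τ μ b₂ x i none = x i := rfl
  have e3 : AW τ μ b₂ x i (some l) = ze τ μ (μ * (b₂ l * x i)) := rfl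
  have e4 : uJ τ μ b₁ b₂ x y i (Sum.inl l) = y i (some l) - ze τ μ (μ * (b₂ l * x i)) := rfl
  rw [e2] at h2
  rw [e3] at h1
  rw [e4, h1, h2]
  ring

lemma finA (n M : ℕ) (P : (Fin n → ℤ) → Prop) :
    {s : Fin n → ℤ | s ≠ 0 ∧ (∀ i, 0 ≤ s i ∧ s i ≤ (M : ℤ)) ∧ P s}.Finite :=
  (Set.finite_Icc (0 : Fin n → ℤ) (fun _ => (M : ℤ))).subset
    (fun _ hs => ⟨fun i => (hs.2.1 i).1, fun i => (hs.2.1 i).2⟩)

lemma core (h2 : S_CritF) {Q Q' q c₀ m₁ m₂ n k ρ a k₀ : ℕ}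
    (hP : Psi (J m₁ m₂) ρ 12 (6 * Q' + 9) q) (hZ : NZ Q Q' q c₀ m₁ m₂ n) (hn : 2 ≤ n)
    (hk₀ : 1 ≤ k₀) (ha : (q + 12) * Fintype.card (J m₁ m₂) + (6 * Q' + 9) + q + 8 ≤ a)
    {τ μ : ℂ} {b₁ : Fin m₁ → ℂ} {b₂ : Fin m₂ → ℂ} (hN : Nrm τ μ) (hF : FTI Q (Sum.elim b₁ b₂))
    (hb1 : LinearIndependent ℚ b₁) (hb2 : KLI τ b₂) {x : Fin n → ℂ} (hx : MS Q' x)
    (hNT : ∀ s : Fin n → ℤ, s ≠ 0 → ∀ j, μ * b₂ j * cmb s x ∉ Lam τ)
    {y : Fin n → Option (Fin m₂) → ℂ} {U : Fin (ρ + 1) → Option (Fin m₂) → ℂ}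
    {t : Fin n → Fin (ρ + 1) → ℂ} (hA : ∀ i o, AW τ μ b₂ x i o = y i o + ∑ l, t i l * U l o)
    (hU0 : U 0 none = 1) (hU1 : ∀ l : Fin ρ, U l.succ none = 0)
    (hT : TrLe k (valF τ μ b₁ b₂ x y)) (hk : k + (ρ + 1) + 1 ≤ m₁ + 2 * m₂) :
    ∃ T₀ : ℕ, ∀ T : ℕ, T₀ ≤ T → (k₀ * T) ^ c₀ * Set.ncard {s : Fin n → ℤ | s ≠ 0 ∧
      (∀ i, 0 ≤ s i ∧ s i ≤ ((k₀ * T : ℕ) : ℤ)) ∧
        ‖∑ i, (s i : ℂ) * y i none‖ ≤ Real.exp (-((T : ℝ) ^ a))} < (k₀ * T + 1) ^ n := by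
  classical
  have hcard : Fintype.card (J m₁ m₂) = m₁ + 2 * m₂ := by
    simp only [J, Fintype.card_sum, Fintype.card_fin]
    ring
  set N := Fintype.card (J m₁ m₂) with hNdef
  set β : Fin m₂ → ℂ := fun l => U 0 (some l) with hβ
  set ty := tyJ m₁ m₂ with hty
  set b := bJ μ β b₁ b₂ with hb
  set u := uJ τ μ b₁ b₂ x y with hudef
  have hNTM : NTM τ ty b x := ntm τ μ β b₁ b₂ x hNT
  obtain ⟨C, T₁, hC, hCr⟩ := h2 (J m₁ m₂) n (N + 1) k hn (by omega) τ μ ty none (πJ m₁ m₂) b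
    (cJ m₁ m₂) x u hN (ech m₁ m₂) hNTM (hu τ μ β b₁ b₂ x y) (trLe_pt hN hNT hT)
  have hsx : 0 ≤ ∑ i, ‖x i‖ := Finset.sum_nonneg fun i _ => norm_nonneg _
  have hst : 0 ≤ ∑ i, ∑ l, ‖t i l‖ :=
    Finset.sum_nonneg fun i _ => Finset.sum_nonneg fun l _ => norm_nonneg _
  set R₀ : ℝ := 1 + ∑ i, ‖x i‖ + ∑ i, ∑ l, ‖t i l‖ with hR₀
  let U' : Fin ρ → J m₁ m₂ → ℂ := fun l => Sum.elim (fun j => U l.succ (some j)) (fun _ => 0)
  obtain ⟨T₂, hPs⟩ := hP τ μ hN.im hN.mu ty b (cJ m₁ m₂) U' R₀ (by linarith)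
    (fun j hj => I_TIM.b_ne hn hNTM j hj)
  obtain ⟨T₃, hNZ⟩ := hZ τ μ hN.im hN.mu b (adB β b₁ b₂ hN.mu hF hb1 hb2) x hx
  set D := (q + 12) * N + (6 * Q' + 9) + q + 6 with hD
  set B : ℝ := ∑ l, ‖U 0 (some l)‖ with hB
  obtain ⟨T₄, hT4⟩ := exists_nat_gt (max C (max B ((k₀ : ℝ) ^ D)))
  refine ⟨max 2 (max (max T₁ T₂) (max T₃ T₄)), fun T hTT => ?_⟩
  have hTa : 2 ≤ T := (le_max_left _ _).trans hTT
  have hTb : T₁ ≤ T := (((le_max_left _ _).trans (le_max_left _ _)).trans (le_max_right _ _)).trans hTT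
  have hTc : T₂ ≤ T := (((le_max_right _ _).trans (le_max_left _ _)).trans (le_max_right _ _)).trans hTT
  have hTd : T₃ ≤ T := (((le_max_left _ _).trans (le_max_right _ _)).trans (le_max_right _ _)).trans hTT
  have hTe : T₄ ≤ T := (((le_max_right _ _).trans (le_max_right _ _)).trans (le_max_right _ _)).trans hTT
  have hTr2 : (2 : ℝ) ≤ T := by exact_mod_cast hTa
  have hTe' : (T₄ : ℝ) ≤ T := by exact_mod_cast hTe
  have hT4' : max C (max B ((k₀ : ℝ) ^ D)) ≤ T := hT4.le.trans hTe'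
  have hTC : C ≤ T := (le_max_left _ _).trans hT4'
  have hTB : B ≤ T := ((le_max_left _ _).trans (le_max_right _ _)).trans hT4'
  have hTk : (k₀ : ℝ) ^ D ≤ T := ((le_max_right _ _).trans (le_max_right _ _)).trans hT4'
  set M := k₀ * T with hM
  have hTM : T ≤ M := by
    calc T = 1 * T := (one_mul T).symm
      _ ≤ M := Nat.mul_le_mul_right T hk₀
  have hTMr : (T : ℝ) ≤ (M : ℝ) := by exact_mod_cast hTM
  have hMr : (M : ℝ) = (k₀ : ℝ) * T := by rw [hM]; push_cast; ring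
  set A : Set (Fin n → ℤ) := {s : Fin n → ℤ | s ≠ 0 ∧ (∀ i, 0 ≤ s i ∧ s i ≤ (M : ℤ)) ∧
    ‖∑ i, (s i : ℂ) * y i none‖ ≤ Real.exp (-((T : ℝ) ^ a))} with hAdef
  have hAfin : A.Finite := finA n M _
  obtain ⟨p, hp0, hpb, hpAF⟩ := hPs M (hTc.trans hTM)
  obtain ⟨ar1, ar2⟩ := arith Q' q (N - ρ - 1) k (by omega) C M hC (hTr2.trans hTMr)
    (hTC.trans hTMr)
  have hM1 : 1 ≤ M := by omega
  have hW1 : 1 ≤ M ^ q := Nat.one_le_pow _ _ (by omega)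
  have hh1 : (1 : ℝ) ≤ (M : ℝ) ^ (q + 4) := one_le_pow₀ (by linarith)
  obtain ⟨u', c', F, hu', hech, hF0, hFd, hFz⟩ := hCr M (hTb.trans hTM) A
    (fun s hs => ⟨hs.1, hs.2.1⟩) (M ^ q) ((M : ℝ) ^ (q + 4))
    ((M : ℝ) ^ ((q + 12) * (N - ρ - 1) + (6 * Q' + 9))) hW1 hh1
    (by push_cast; exact ar1) p hp0
    (by
      intro y
      have h5 := hpb y
      have h6 : |(p y : ℝ)| ≤ (2 : ℝ) ^ (M ^ (q + 4)) := by
        have : ((|p y| : ℤ) : ℝ) ≤ (((2 : ℤ) ^ (M ^ (q + 4)) : ℤ) : ℝ) := by exact_mod_cast h5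
        rw [Int.cast_abs] at this
        push_cast at this
        exact this
      refine h6.trans ?_
      have h7 : (2 : ℝ) ≤ Real.exp 1 := by
        have := Real.add_one_le_exp (1 : ℝ)
        linarith
      calc (2 : ℝ) ^ (M ^ (q + 4)) ≤ (Real.exp 1) ^ (M ^ (q + 4)) :=
            pow_le_pow_left₀ (by norm_num) h7 _
        _ = Real.exp ((M : ℝ) ^ (q + 4)) := by
            rw [← Real.exp_nat_mul]
            push_cast
            rw [mul_one])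
    (by
      intro s hs
      refine hpAF (fun r => cmb (s r) x) (fun r l => ∑ i, (s r i : ℂ) * t i l.succ)
        (fun r => PN τ μ ty (cJ m₁ m₂) (pcI u (s r))) ?_ ?_ ?_ ?_ ?_
      · intro r
        refine (I_TIM.norm_cmb_le x (s r) M (hs r).2.1).trans
          (mul_le_mul_of_nonneg_right ?_ (Nat.cast_nonneg _))
        linarith
      · intro r l
        refine (I_TIM.norm_cmb_le (fun i => t i l.succ) (s r) M (hs r).2.1).trans
          (mul_le_mul_of_nonneg_right ?_ (Nat.cast_nonneg _))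
        have h8 : ∑ i, ‖t i l.succ‖ ≤ ∑ i, ∑ l, ‖t i l‖ :=
          Finset.sum_le_sum fun i _ => Finset.single_le_sum (f := fun l => ‖t i l‖)
            (fun _ _ => norm_nonneg _) (Finset.mem_univ _)
        linarith
      · intro r j hj
        exact hNTM (s r) (hs r).1 j hj
      · intro r i hi
        rcases i with l | j | l
        · exact absurd rfl hi
        · show Complex.exp (pcI u (s r) (Sum.inr (Sum.inl j))) =
            Complex.exp (b (Sum.inr (Sum.inl j)) * cmb (s r) x)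
          rw [hudef, pcI_na β b₁ b₂ x y (s r) _ hi]
        · show xe τ μ (pcI u (s r) (Sum.inr (Sum.inr l))) =
            xe τ μ (b (Sum.inr (Sum.inr l)) * cmb (s r) x)
          rw [hudef, pcI_na β b₁ b₂ x y (s r) _ hi]
      · intro r i hi
        rcases i with l | j | l
        · show ‖PN τ μ ty (cJ m₁ m₂) (pcI u (s r)) (Sum.inl l) -
            (PN τ μ ty (cJ m₁ m₂) (fun j => b j * cmb (s r) x) (Sum.inl l) -
              ∑ k : Fin ρ, (∑ i, (s r i : ℂ) * t i k.succ) * U k.succ (some l))‖ ≤ _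
          rw [hty, PN_inl, PN_inl]
          have e1 : pcI u (s r) (Sum.inr (Sum.inr l)) =
              b (Sum.inr (Sum.inr l)) * cmb (s r) x := by
            rw [hudef, pcI_na β b₁ b₂ x y (s r) _ (by simp [tyJ])]
          have e2 : b (Sum.inl l) = -U 0 (some l) := rfl
          have e3 := diff b₁ hA hU0 hU1 (s r) l
          rw [← hudef] at e3
          have e4 : pcI u (s r) (Sum.inl l) + ze τ μ (pcI u (s r) (Sum.inr (Sum.inr l))) -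
            (b (Sum.inl l) * cmb (s r) x + ze τ μ (b (Sum.inr (Sum.inr l)) * cmb (s r) x) -
              ∑ k : Fin ρ, (∑ i, (s r i : ℂ) * t i k.succ) * U k.succ (some l)) =
              U 0 (some l) * ∑ i, (s r i : ℂ) * y i none := by
            rw [← e3, e1, e2]
            ring
          rw [e4, norm_mul, hMr]
          refine small k₀ D a (by omega) B T _ _ hTr2 hTk hTB ?_ (norm_nonneg _) (hs r).2.2
          exact Finset.single_le_sum (f := fun l => ‖U 0 (some l)‖)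
            (fun _ _ => norm_nonneg _) (Finset.mem_univ _)
        · simp [hty, tyJ] at hi
        · simp [hty, tyJ] at hi)
  push_cast at hu'
  have hfin := hNZ M (hTd.trans hTM) u' c' F hAfin.toFinset
    (by
      intro i j hj
      have h9 := hu' i j
      rw [hudef, hu τ μ β b₁ b₂ x y i j hj, neg_div] at h9
      refine h9.trans (Real.exp_le_exp.2 ?_)
      linarith)
    hech hF0 (fun j => (hFd j).le)
    (by
      intro s hs
      rw [Set.Finite.mem_toFinset] at hs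
      exact ⟨hs.1, hs.2.1⟩)
    (by
      intro s hs hG
      rw [Set.Finite.mem_toFinset] at hs
      exact hFz s hs hG)
  rw [Set.ncard_eq_toFinset_card A hAfin]
  exact hfin

lemma cover {n m₂ M : ℕ} (y : Fin n → Option (Fin m₂) → ℂ) (ε : ℝ) :
    Set.ncard {s : Fin n → ℤ | (∀ i, |s i| ≤ (M : ℤ)) ∧ ‖∑ i, (s i : ℂ) * y i none‖ ≤ ε} ≤
      ∑ σ : Fin n → Bool, (Set.ncard {s : Fin n → ℤ | s ≠ 0 ∧ (∀ i, 0 ≤ s i ∧ s i ≤ (M : ℤ)) ∧
        ‖∑ i, (s i : ℂ) * ((sz (σ i) : ℂ) * y i none)‖ ≤ ε} + 1) := by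
  classical
  set A : (Fin n → Bool) → Set (Fin n → ℤ) := fun σ => {s : Fin n → ℤ | s ≠ 0 ∧
    (∀ i, 0 ≤ s i ∧ s i ≤ (M : ℤ)) ∧ ‖∑ i, (s i : ℂ) * ((sz (σ i) : ℂ) * y i none)‖ ≤ ε} with hA
  have hfin : ∀ σ, (A σ).Finite := fun σ => finA n M _
  set F : Finset (Fin n → ℤ) := Finset.univ.biUnion fun σ : Fin n → Bool =>
    (insert 0 (hfin σ).toFinset).image (fun s i => sz (σ i) * s i) with hF
  have hsub : {s : Fin n → ℤ | (∀ i, |s i| ≤ (M : ℤ)) ∧ ‖∑ i, (s i : ℂ) * y i none‖ ≤ ε} ⊆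
      (F : Set (Fin n → ℤ)) := by
    intro s hs
    rw [Finset.mem_coe, hF, Finset.mem_biUnion]
    refine ⟨fun i => decide (0 ≤ s i), Finset.mem_univ _, ?_⟩
    rw [Finset.mem_image]
    have habs : ∀ i, sz (decide (0 ≤ s i)) * s i = |s i| := by
      intro i
      by_cases h : 0 ≤ s i
      · rw [abs_of_nonneg h]
        simp [sz, h]
      · rw [abs_of_neg (not_le.1 h)]
        simp [sz, h]
    have hback : ∀ i, sz (decide (0 ≤ s i)) * |s i| = s i := by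
      intro i
      rw [← habs i, ← mul_assoc, sz_mul, one_mul]
    refine ⟨fun i => |s i|, ?_, funext hback⟩
    by_cases h0 : s = 0
    · rw [Finset.mem_insert]
      left
      funext i
      rw [h0]
      simp
    · rw [Finset.mem_insert]
      right
      rw [Set.Finite.mem_toFinset]
      refine ⟨?_, fun i => ⟨abs_nonneg _, hs.1 i⟩, ?_⟩
      · intro h
        apply h0
        funext i
        have := congrFun h i
        simpa using this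
      · have e : ∑ i, ((|s i| : ℤ) : ℂ) * ((sz (decide (0 ≤ s i)) : ℂ) * y i none) =
            ∑ i, (s i : ℂ) * y i none := by
          refine Finset.sum_congr rfl fun i _ => ?_
          have h1 : ((sz (decide (0 ≤ s i)) : ℤ) : ℂ) * ((|s i| : ℤ) : ℂ) = (s i : ℂ) := by
            exact_mod_cast congrArg (fun z : ℤ => (z : ℂ)) (hback i)
          rw [← h1]
          ring
        rw [e]
        exact hs.2
  calc Set.ncard {s : Fin n → ℤ | (∀ i, |s i| ≤ (M : ℤ)) ∧ ‖∑ i, (s i : ℂ) * y i none‖ ≤ ε}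
      ≤ Set.ncard (F : Set (Fin n → ℤ)) := Set.ncard_le_ncard hsub (Finset.finite_toSet F)
    _ = F.card := Set.ncard_coe_finset F
    _ ≤ ∑ σ : Fin n → Bool, ((insert 0 (hfin σ).toFinset).image (fun s i => sz (σ i) * s i)).card :=
        Finset.card_biUnion_le
    _ ≤ ∑ σ : Fin n → Bool, (Set.ncard (A σ) + 1) := by
        refine Finset.sum_le_sum fun σ _ => ?_
        refine Finset.card_image_le.trans ((Finset.card_insert_le _ _).trans ?_)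
        rw [Set.ncard_eq_toFinset_card (A σ) (hfin σ)]

lemma finish (n k₀ c₁ T b : ℕ) (hk₀ : 1 ≤ k₀) (hn : c₁ + 1 ≤ n) (hT : 2 ^ (n + 1) * k₀ ^ n < T)
    (a : (Fin n → Bool) → ℕ) (ha : ∀ σ, (k₀ * T) ^ (c₁ + 1) * a σ < (k₀ * T + 1) ^ n)
    (hb : b ≤ ∑ σ, (a σ + 1)) : T ^ c₁ * b < (T + 1) ^ n := by
  have hTM : T ≤ k₀ * T := by
    calc T = 1 * T := (one_mul T).symm
      _ ≤ k₀ * T := Nat.mul_le_mul_right T hk₀
  have hT1 : 1 ≤ T := by omega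
  have h1 : (k₀ * T) ^ (c₁ + 1) * b ≤ 2 ^ n * (2 * (k₀ * T + 1) ^ n) := by
    calc (k₀ * T) ^ (c₁ + 1) * b ≤ (k₀ * T) ^ (c₁ + 1) * ∑ σ, (a σ + 1) :=
          Nat.mul_le_mul_left _ hb
      _ = ∑ σ : Fin n → Bool, ((k₀ * T) ^ (c₁ + 1) * a σ + (k₀ * T) ^ (c₁ + 1)) := by
          rw [Finset.mul_sum]
          refine Finset.sum_congr rfl fun σ _ => ?_
          ring
      _ ≤ ∑ σ : Fin n → Bool, 2 * (k₀ * T + 1) ^ n := by
          refine Finset.sum_le_sum fun σ _ => ?_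
          have h2 := ha σ
          have h3 : (k₀ * T) ^ (c₁ + 1) ≤ (k₀ * T + 1) ^ n :=
            (Nat.pow_le_pow_left (by omega) _).trans (Nat.pow_le_pow_right (by omega) hn)
          omega
      _ = 2 ^ n * (2 * (k₀ * T + 1) ^ n) := by
          rw [Finset.sum_const, Finset.card_univ, Fintype.card_fun, Fintype.card_bool,
            Fintype.card_fin, smul_eq_mul]
  have h4 : (k₀ * T + 1) ^ n ≤ k₀ ^ n * (T + 1) ^ n := by
    rw [← mul_pow]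
    exact Nat.pow_le_pow_left (by nlinarith) _
  have h5 : T ^ (c₁ + 1) ≤ (k₀ * T) ^ (c₁ + 1) := Nat.pow_le_pow_left hTM _
  have h6 : T ^ (c₁ + 1) * b ≤ 2 ^ (n + 1) * k₀ ^ n * (T + 1) ^ n := by
    calc T ^ (c₁ + 1) * b ≤ (k₀ * T) ^ (c₁ + 1) * b := Nat.mul_le_mul_right _ h5
      _ ≤ 2 ^ n * (2 * (k₀ * T + 1) ^ n) := h1
      _ ≤ 2 ^ n * (2 * (k₀ ^ n * (T + 1) ^ n)) :=
          Nat.mul_le_mul_left _ (Nat.mul_le_mul_left _ h4)
      _ = 2 ^ (n + 1) * k₀ ^ n * (T + 1) ^ n := by ring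
  have h7 : 0 < (T + 1) ^ n := by positivity
  have h8 : T * (T ^ c₁ * b) < T * (T + 1) ^ n := by
    calc T * (T ^ c₁ * b) = T ^ (c₁ + 1) * b := by ring
      _ ≤ 2 ^ (n + 1) * k₀ ^ n * (T + 1) ^ n := h6
      _ < T * (T + 1) ^ n := Nat.mul_lt_mul_of_pos_right hT h7
  exact Nat.lt_of_mul_lt_mul_left h8

end I_TIF0

open I_TIF0 in
theorem TIF0_pf (h1 : S_PsiF) (h2 : S_CritF) (h3 : S_NZF) : S_TIF0 := by
  classical
  intro Q Q' m
  obtain ⟨q, hq⟩ := psi_all h1 Q' m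
  refine ⟨(q + 12) * (3 * m) + (6 * Q' + 9) + q + 8, fun k₀ c₁ hk₀ => ?_⟩
  set a := (q + 12) * (3 * m) + (6 * Q' + 9) + q + 8 with ha
  obtain ⟨n₁, hn₁⟩ := nz_all h3 Q Q' q (c₁ + 1) m
  refine ⟨max (c₁ + 2) n₁, ?_⟩
  intro m₁ m₂ hm₁ hm₂ τ μ b₁ b₂ hN hF hb1 hb2 n hn x hx hNT k ρ y U t hA hU0 hU1 hT hk
  have hnc : c₁ + 2 ≤ n := (le_max_left _ _).trans hn
  have hn2 : n₁ ≤ n := (le_max_right _ _).trans hn
  have hcard : Fintype.card (J m₁ m₂) = m₁ + 2 * m₂ := by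
    simp only [J, Fintype.card_sum, Fintype.card_fin]
    ring
  have hP : Psi (J m₁ m₂) ρ 12 (6 * Q' + 9) q :=
    hq m₁ hm₁ m₂ hm₂ ρ (by omega) (by rw [hcard]; omega)
  have hZ := hn₁ n hn2 m₁ hm₁ m₂ hm₂
  have haa : (q + 12) * Fintype.card (J m₁ m₂) + (6 * Q' + 9) + q + 8 ≤ a := by
    have : (q + 12) * Fintype.card (J m₁ m₂) ≤ (q + 12) * (3 * m) :=
      Nat.mul_le_mul_left _ (by rw [hcard]; omega)
    omega
  have hsz : ∀ (σ : Fin n → Bool) (s : Fin n → ℤ),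
      cmb s (fun i => (sz (σ i) : ℂ) * x i) = cmb (fun i => sz (σ i) * s i) x := by
    intro σ s
    unfold cmb
    refine Finset.sum_congr rfl fun i _ => ?_
    push_cast
    ring
  have hs0 : ∀ (σ : Fin n → Bool) (s : Fin n → ℤ), s ≠ 0 → (fun i => sz (σ i) * s i) ≠ 0 := by
    intro σ s hs h
    apply hs
    funext i
    have h4 := congrFun h i
    have h5 : sz (σ i) * (sz (σ i) * s i) = 0 := by
      have : sz (σ i) * s i = 0 := h4
      rw [this, mul_zero]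
    rw [← mul_assoc, sz_mul, one_mul] at h5
    exact h5
  have hcore : ∀ σ : Fin n → Bool, ∃ T₀ : ℕ, ∀ T : ℕ, T₀ ≤ T →
      (k₀ * T) ^ (c₁ + 1) * Set.ncard {s : Fin n → ℤ | s ≠ 0 ∧
        (∀ i, 0 ≤ s i ∧ s i ≤ ((k₀ * T : ℕ) : ℤ)) ∧
        ‖∑ i, (s i : ℂ) * ((sz (σ i) : ℂ) * y i none)‖ ≤ Real.exp (-((T : ℝ) ^ a))} <
          (k₀ * T + 1) ^ n := by
    intro σ
    refine core h2 (x := fun i => (sz (σ i) : ℂ) * x i) (y := fun i o => (sz (σ i) : ℂ) * y i o)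
      (U := U) (t := fun i l => (sz (σ i) : ℂ) * t i l) hP hZ (by omega) hk₀ haa hN hF hb1 hb2
      ?_ ?_ ?_ hU0 hU1 (trLe_sz σ hT) hk
    · obtain ⟨B, hB, h4⟩ := hx
      refine ⟨B, hB, fun s hs S hS hsS => ?_⟩
      have h5 := h4 (fun i => sz (σ i) * s i) (hs0 σ s hs) S hS (fun i => by
        have h6 : |((sz (σ i) * s i : ℤ) : ℝ)| = |(s i : ℝ)| := by
          push_cast
          rw [abs_mul]
          have : |((sz (σ i) : ℤ) : ℝ)| = 1 := by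
            have := sz_abs (σ i)
            exact_mod_cast this
          rw [this, one_mul]
        rw [h6]
        exact hsS i)
      refine h5.trans (le_of_eq ?_)
      congr 1
      exact (hsz σ s).symm
    · intro s hs j
      rw [hsz σ s]
      exact hNT _ (hs0 σ s hs) j
    · intro i o
      have h4 := hA i o
      have e : ∑ l, (sz (σ i) : ℂ) * t i l * U l o = (sz (σ i) : ℂ) * ∑ l, t i l * U l o := by
        rw [Finset.mul_sum]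
        refine Finset.sum_congr rfl fun l _ => ?_
        ring
      rw [e, ← mul_add, ← h4]
      cases o with
      | none => rfl
      | some l =>
        show ze τ μ (μ * (b₂ l * ((sz (σ i) : ℂ) * x i))) = (sz (σ i) : ℂ) * ze τ μ (μ * (b₂ l * x i))
        rw [← ze_sz]
        congr 1
        ring
  choose T₀ hT₀ using hcore
  refine ⟨max (2 ^ (n + 1) * k₀ ^ n + 1) (∑ σ, T₀ σ), fun T hTT => ?_⟩
  have hTa : 2 ^ (n + 1) * k₀ ^ n + 1 ≤ T := (le_max_left _ _).trans hTT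
  have hTb : ∑ σ, T₀ σ ≤ T := (le_max_right _ _).trans hTT
  refine finish n k₀ c₁ T _ hk₀ (by omega) (by omega) _ (fun σ => hT₀ σ T ?_)
    (cover y (Real.exp (-((T : ℝ) ^ a))))
  exact (Finset.single_le_sum (f := T₀) (fun _ _ => Nat.zero_le _) (Finset.mem_univ σ)).trans hTb

end Pool.Agent.Work.MP_8da9ea_nt.MX
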