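import Pool.Agent.Work.MP_8da9ea_nt.MX.StmtsF
import Pool.Agent.Work.MP_8da9ea_nt.MX.I_AdmF
import Pool.Agent.Work.MP_8da9ea_nt.MX.I_RelPtM
import Pool.Agent.Work.MP_8da9ea_nt.EB.I_Closed

/-!
# Mixed block, item TIF1 (N5): the first step of the transcendence input in several variables
-/

set_option autoImplicit false

namespace Pool.Agent.Work.MP_8da9ea_nt.MX

open MvPolynomial Pool.Agent.Work.MP_327059_nt.GL Pool.Agent.Work.MP_8da9ea_nt.S
  Pool.Agent.Work.MP_8da9ea_nt.EB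

namespace I_TIF1

/-- The index type. -/
abbrev IJ (m₁ m₂ : ℕ) : Type := Option (Fin m₂) ⊕ (Fin m₁ ⊕ Fin m₂)

/-- The labels. -/
def tyJ (m₁ m₂ : ℕ) : IJ m₁ m₂ → Ty :=
  Sum.elim (fun _ => Ty.add) (Sum.elim (fun _ => Ty.mul) (fun _ => Ty.ell))

/-- The numbers `b`. -/
noncomputable def bJ {m₁ m₂ : ℕ} (μ : ℂ) (b₁ : Fin m₁ → ℂ) (b₂ : Fin m₂ → ℂ) : IJ m₁ m₂ → ℂ :=
  Sum.elim (fun o => o.elim 1 (fun _ => 0)) (Sum.elim b₁ (fun j => μ * b₂ j))

/-- The coefficients. -/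
noncomputable def cJ (m₁ m₂ : ℕ) : IJ m₁ m₂ → IJ m₁ m₂ → ℂ :=
  Sum.elim (fun o => Sum.elim (fun _ => 0) (Sum.elim (fun _ => 0)
    (fun j => if o = some j then 1 else 0))) (fun _ _ => 0)

/-- The pivots. -/
def piJ (m₁ m₂ : ℕ) : IJ m₁ m₂ → IJ m₁ m₂ :=
  Sum.elim (fun o => o.elim (Sum.inl none) (fun j => Sum.inr (Sum.inr j))) Sum.inr

/-- The true points. -/
noncomputable def uJ {n m₁ m₂ : ℕ} (τ μ : ℂ) (b₁ : Fin m₁ → ℂ) (b₂ : Fin m₂ → ℂ) (x : Fin n → ℂ)
    (y : Fin n → Option (Fin m₂) → ℂ) : Fin n → IJ m₁ m₂ → ℂ := fun i =>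
  Sum.elim (fun o => o.elim (y i none) (fun l => y i (some l) - ze τ μ (μ * (b₂ l * x i))))
    (Sum.elim (fun j => b₁ j * x i) (fun l => μ * b₂ l * x i))

lemma PN_add {m₁ m₂ : ℕ} (τ μ : ℂ) (p : IJ m₁ m₂ → ℂ) (o : Option (Fin m₂)) :
    PN τ μ (tyJ m₁ m₂) (cJ m₁ m₂) p (Sum.inl o) =
      p (Sum.inl o) + o.elim 0 (fun l => ze τ μ (p (Sum.inr (Sum.inr l)))) := by
  have h1 : PN τ μ (tyJ m₁ m₂) (cJ m₁ m₂) p (Sum.inl o) = p (Sum.inl o) +
      ∑ j, (if tyJ m₁ m₂ j = Ty.ell then cJ m₁ m₂ (Sum.inl o) j * ze τ μ (p j) else 0) := rfl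
  rw [h1, Fintype.sum_sum_type, Fintype.sum_sum_type]
  congr 1
  simp only [tyJ, cJ, Sum.elim_inl, Sum.elim_inr, reduceCtorEq, if_false, Finset.sum_const_zero,
    zero_add, if_true]
  rcases o with _ | l
  · simp
  · simp only [Option.elim, Option.some.injEq]
    rw [Finset.sum_eq_single l]
    · simp
    · intro j _ hj
      rw [if_neg (fun h => hj h.symm), zero_mul]
    · simp

lemma ft {m₁ m₂ : ℕ} (Q : ℕ) (μ : ℂ) (hμ : μ ≠ 0)
    (b₁ : Fin m₁ → ℂ) (b₂ : Fin m₂ → ℂ) (h : FTI Q (Sum.elim b₁ b₂)) :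
    FTI Q (nb μ (tyJ m₁ m₂) (bJ μ b₁ b₂)) := by
  classical
  by_cases hι : Nonempty (Fin m₁ ⊕ Fin m₂)
  · obtain ⟨i0⟩ := hι
    let f : IJ m₁ m₂ → Fin m₁ ⊕ Fin m₂ := Sum.elim (fun _ => i0) id
    let z : IJ m₁ m₂ → Prop := fun k => tyJ m₁ m₂ k = Ty.add
    have h1 := I_AdmF.zer Q z (fun k => Sum.elim b₁ b₂ (f k)) (I_FTIeq.key Q f _ h)
    have e : nb μ (tyJ m₁ m₂) (bJ μ b₁ b₂) =
        fun k => if z k then 0 else Sum.elim b₁ b₂ (f k) := by
      funext k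
      rcases k with k | k | k
      · simp [nb, tyJ, z]
      · simp [nb, tyJ, z, bJ, f]
      · simp only [nb, tyJ, z, bJ, f, Sum.elim_inr, id, reduceCtorEq, if_false]
        field_simp
    rw [e]
    exact h1
  · refine I_AdmF.all0 Q _ (fun k => ?_)
    rcases k with k | k
    · simp [nb, tyJ]
    · exact absurd ⟨k⟩ hι

lemma adb {m₁ m₂ : ℕ} (Q : ℕ) (τ μ : ℂ) (hμ : μ ≠ 0)
    (b₁ : Fin m₁ → ℂ) (b₂ : Fin m₂ → ℂ) (h : FTI Q (Sum.elim b₁ b₂))
    (hb₁ : LinearIndependent ℚ b₁) (hb₂ : KLI τ b₂) :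
    AdB Q τ μ (tyJ m₁ m₂) (bJ μ b₁ b₂) := by
  classical
  refine ⟨ft Q μ hμ b₁ b₂ h, ?_, ?_⟩
  · intro w hw h0
    have w1 : ∀ l, w (Sum.inl l) = 0 := fun l => hw _ (by simp [tyJ])
    have w3 : ∀ l, w (Sum.inr (Sum.inr l)) = 0 := fun l => hw _ (by simp [tyJ])
    rw [Fintype.sum_sum_type, Fintype.sum_sum_type] at h0
    simp only [w1, w3, Int.cast_zero, zero_mul, Finset.sum_const_zero, zero_add, add_zero, bJ,
      Sum.elim_inr, Sum.elim_inl] at h0
    have h1 := Fintype.linearIndependent_iff.1 hb₁ (fun j => (w (Sum.inr (Sum.inl j)) : ℚ)) (by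
      rw [← h0]
      refine Finset.sum_congr rfl fun j _ => ?_
      rw [Rat.smul_def]
      push_cast
      rfl)
    funext k
    rcases k with k | k | k
    · exact w1 k
    · have := h1 k
      exact_mod_cast this
    · exact w3 k
  · intro g hg hgE h0
    have w1 : ∀ l, g (Sum.inl l) = 0 := fun l => hg _ (by simp [tyJ])
    have w2 : ∀ l, g (Sum.inr (Sum.inl l)) = 0 := fun l => hg _ (by simp [tyJ])
    rw [Fintype.sum_sum_type, Fintype.sum_sum_type] at h0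
    simp only [w1, w2, zero_mul, Finset.sum_const_zero, zero_add, bJ,
      Sum.elim_inr] at h0
    have h1 := hb₂ (fun j => g (Sum.inr (Sum.inr j))) (fun j => hgE _) (by
      have h2 : μ * ∑ j, g (Sum.inr (Sum.inr j)) * b₂ j = 0 := by
        rw [← h0, Finset.mul_sum]
        exact Finset.sum_congr rfl fun j _ => by ring
      exact (mul_eq_zero.1 h2).resolve_left hμ)
    funext k
    rcases k with k | k | k
    · exact w1 k
    · exact w2 k
    · exact congrFun h1 k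

lemma ech (m₁ m₂ : ℕ) : EchC (tyJ m₁ m₂) (some (Sum.inl none)) (piJ m₁ m₂) (cJ m₁ m₂) := by
  classical
  constructor
  · intro i hi
    have hi' : i = Sum.inl none := (Option.some.inj hi).symm
    subst hi'
    refine ⟨by simp [tyJ], ?_⟩
    intro j hj
    rcases j with j | j | j
    · rfl
    · rfl
    · simp [cJ]
  · intro i hi hne
    rcases i with (_ | l) | l | l
    · exact absurd rfl hne
    · refine ⟨by simp [tyJ, piJ], ?_⟩
      intro i' hi'
      rcases i' with o | o | o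
      · simp only [piJ, cJ, Sum.elim_inl, Sum.elim_inr, Option.elim, Sum.inl.injEq]
      · simp [tyJ] at hi'
      · simp [tyJ] at hi'
    · simp [tyJ] at hi
    · simp [tyJ] at hi

lemma cmb_single {n : ℕ} (x : Fin n → ℂ) (i : Fin n) : cmb (Pi.single i (1 : ℤ)) x = x i := by
  unfold cmb
  rw [Finset.sum_eq_single i]
  · simp
  · intro l _ hl
    rw [Pi.single_eq_of_ne hl]
    simp
  · simp

/-- The transcendence degree of the coordinates of the true points. -/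
lemma trle_pt {n m₁ m₂ : ℕ} (τ μ : ℂ) (hN : Nrm τ μ) (b₁ : Fin m₁ → ℂ) (b₂ : Fin m₂ → ℂ)
    (x : Fin n → ℂ) (hNT : ∀ s : Fin n → ℤ, s ≠ 0 → ∀ j, μ * b₂ j * cmb s x ∉ Lam τ)
    (y : Fin n → Option (Fin m₂) → ℂ) (k : ℕ) (hk : TrLe k (valF τ μ b₁ b₂ x y)) :
    TrLe k (ptM τ μ (tyJ m₁ m₂) (fun _ => 0) (cJ m₁ m₂) (uJ τ μ b₁ b₂ x y)) := by
  classical
  intro s hs
  obtain ⟨r, sb, hind, halg⟩ := pr_TrBasis ((Fin n × Option (Fin m₂)) ⊕ (Fin n × Fin m₁) ⊕
    (Fin n × Fin m₂)) (valF τ μ b₁ b₂ x y)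
  have hr : r ≤ k := by
    by_contra h
    push Not at h
    exact hk (fun i => sb (Fin.castLE h i)) (hind.comp (Fin.castLE h) (Fin.castLE_injective h))
  set z := fun i => valF τ μ b₁ b₂ x y (sb i) with hz
  -- the numbers algebraic over `z`
  set K := IntermediateField.adjoin ℚ (Set.range z) with hK
  set F : IntermediateField K ℂ := algebraicClosure K ℂ with hF
  have hmem : ∀ w : ℂ, w ∈ F ↔ IsAlgebraic K w := fun w => mem_algebraicClosure_iff
  have hv : ∀ o, valF τ μ b₁ b₂ x y o ∈ F := fun o => (hmem _).2 (halg o)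
  have hQ : ∀ w : ℂ, IsAlgebraic ℚ w → w ∈ F := fun w hw => (hmem _).2 (hw.tower_top K)
  have hcl : ∀ w : ℂ, w ^ 2 ∈ F → w ∈ F := by
    intro w hw
    rw [hmem] at hw ⊢
    exact hw.of_pow (by norm_num)
  have hy : ∀ i o, y i o ∈ F := fun i o => hv (Sum.inl (i, o))
  have he : ∀ i j, Complex.exp (b₁ j * x i) ∈ F := fun i j => hv (Sum.inr (Sum.inl (i, j)))
  have hx : ∀ i l, xe τ μ (μ * b₂ l * x i) ∈ F := fun i l => by
    rw [mul_assoc]
    exact hv (Sum.inr (Sum.inr (i, l)))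
  have hye : ∀ i l, ye τ μ (μ * b₂ l * x i) ∈ F := by
    intro i l
    have hnl : μ * b₂ l * x i ∉ Lam τ := by
      have h4 := hNT (Pi.single i 1) (by
        intro h
        have := congrFun h i
        simp at this) l
      rwa [cmb_single] at h4
    refine hcl _ ?_
    rw [I_Closed.weier hN hnl]
    refine sub_mem (sub_mem (mul_mem ?_ (pow_mem (hx i l) 3)) (mul_mem (hQ _ hN.g2)
        (hx i l))) (hQ _ hN.g3)
    exact natCast_mem F 4
  have hpt : ∀ p, ptM τ μ (tyJ m₁ m₂) (fun _ => 0) (cJ m₁ m₂) (uJ τ μ b₁ b₂ x y) p ∈ F := by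
    intro p
    rcases p with q | q | ⟨i, j, tt⟩
    · simp only [ptM, Sum.elim_inl]
      split_ifs
      · exact hQ _ hN.g2
      · exact hQ _ hN.g3
    · simp only [ptM, Sum.elim_inl, Sum.elim_inr]
      obtain ⟨q₁, q₂⟩ := q
      have hz0 : ∀ q₁ q₂, cJ m₁ m₂ q₁ q₂ ∈ F := by
        intro q₁ q₂
        rcases q₁ with l | l
        · rcases q₂ with l' | l' | l'
          · exact zero_mem F
          · exact zero_mem F
          · simp only [cJ, Sum.elim_inl, Sum.elim_inr]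
            split_ifs
            · exact one_mem F
            · exact zero_mem F
        · exact zero_mem F
      split_ifs
      · exact hz0 _ _
      · exact zero_mem F
      · exact zero_mem F
    · simp only [ptM, Sum.elim_inr]
      cases tt
      · rw [if_neg (by simp)]
        rcases j with (_ | l) | l | l
        · rw [PN_add]
          simp only [uJ, Sum.elim_inl, Option.elim, add_zero]
          exact hy i none
        · rw [PN_add]
          simp only [uJ, Sum.elim_inl, Sum.elim_inr, Option.elim]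
          rw [mul_assoc, sub_add_cancel]
          exact hy i (some l)
        · exact he i l
        · exact hx i l
      · rw [if_pos rfl]
        rcases j with l | l | l
        · rw [if_neg (by simp [tyJ])]
          exact zero_mem F
        · rw [if_neg (by simp [tyJ])]
          exact zero_mem F
        · rw [if_pos (by simp [tyJ])]
          exact hye i l
  have h3 := pr_TrCount (Fin (k + 1)) (Fin r)
    (fun i => ptM τ μ (tyJ m₁ m₂) (fun _ => 0) (cJ m₁ m₂) (uJ τ μ b₁ b₂ x y) (s i)) z hs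
    (fun i => (hmem _).1 (hpt (s i)))
  rw [Fintype.card_fin, Fintype.card_fin] at h3
  omega

lemma arith (q e₂ a k M : ℕ) (hM : k + 1 ≤ M) (he : a + 3 ≤ e₂) (C T : ℝ) (hC : 1 ≤ C)
    (hT2 : 2 ≤ T) (hTC : C ≤ T) :
    C * (T ^ q * T ^ 11 + T ^ (q + 4)) ^ (k + 1) ≤ T ^ ((q + 12) * M + e₂) ∧
    T ^ e₂ ≤ T ^ ((q + 12) * M + e₂) / (C * (T ^ q * T ^ 11 + T ^ (q + 4)) ^ k) ∧
    T ^ 2 + T ^ a ≤ T ^ e₂ := by
  have hT1 : 1 ≤ T := by linarith
  have hT0 : 0 < T := by linarith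
  set A := T ^ q * T ^ 11 + T ^ (q + 4) with hA
  have hA0 : 0 < A := by positivity
  have hA2 : A ≤ T ^ (q + 12) := by
    have h1 : T ^ (q + 4) ≤ T ^ (q + 11) := pow_le_pow_right₀ hT1 (by omega)
    have h2 : T ^ q * T ^ 11 = T ^ (q + 11) := by rw [← pow_add]
    have h3 : T ^ (q + 12) = T ^ (q + 11) * T := by rw [← pow_succ]
    have h4 : 0 < T ^ (q + 11) := by positivity
    rw [hA, h2, h3]
    nlinarith
  have hA3 : A ^ (k + 1) ≤ T ^ ((q + 12) * M) := by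
    calc A ^ (k + 1) ≤ (T ^ (q + 12)) ^ (k + 1) := pow_le_pow_left₀ hA0.le hA2 _
      _ = T ^ ((q + 12) * (k + 1)) := by rw [← pow_mul]
      _ ≤ T ^ ((q + 12) * M) := pow_le_pow_right₀ hT1 (Nat.mul_le_mul_left _ hM)
  have hA4 : C * A ^ k ≤ T ^ ((q + 12) * M) := by
    calc C * A ^ k ≤ T ^ (q + 12) * (T ^ (q + 12)) ^ k := by
          refine mul_le_mul ?_ (pow_le_pow_left₀ hA0.le hA2 _) (by positivity) (by positivity)
          have : T ^ 1 ≤ T ^ (q + 12) := pow_le_pow_right₀ hT1 (by omega)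
          rw [pow_one] at this
          linarith
      _ = T ^ ((q + 12) * (k + 1)) := by rw [← pow_succ', ← pow_mul]
      _ ≤ T ^ ((q + 12) * M) := pow_le_pow_right₀ hT1 (Nat.mul_le_mul_left _ hM)
  refine ⟨?_, ?_, ?_⟩
  · have hCT : C ≤ T ^ e₂ := by
      have h5 : T ^ 1 ≤ T ^ e₂ := pow_le_pow_right₀ hT1 (by omega)
      rw [pow_one] at h5
      linarith
    calc C * A ^ (k + 1) ≤ T ^ e₂ * T ^ ((q + 12) * M) :=
        mul_le_mul hCT hA3 (by positivity) (by positivity)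
      _ = T ^ ((q + 12) * M + e₂) := by rw [pow_add, mul_comm]
  · rw [le_div_iff₀ (by positivity), pow_add, mul_comm (T ^ ((q + 12) * M))]
    exact mul_le_mul_of_nonneg_left hA4 (by positivity)
  · have h1 : T ^ (a + 3) ≤ T ^ e₂ := pow_le_pow_right₀ hT1 he
    have h2 : T ^ (a + 3) = T ^ a * T ^ 3 := pow_add _ _ _
    have h3 : 1 ≤ T ^ a := one_le_pow₀ hT1
    have h4 : T ^ 2 + 1 ≤ T ^ 3 := by nlinarith
    nlinarith

lemma norm_cmb_le {n : ℕ} (x : Fin n → ℂ) (s : Fin n → ℤ) (T : ℕ)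
    (hs : ∀ i, 0 ≤ s i ∧ s i ≤ (T : ℤ)) : ‖∑ i, (s i : ℂ) * x i‖ ≤ (∑ i, ‖x i‖) * T := by
  have h1 : ‖∑ i, (s i : ℂ) * x i‖ ≤ ∑ i, (T : ℝ) * ‖x i‖ := by
    refine (norm_sum_le _ _).trans (Finset.sum_le_sum fun i _ => ?_)
    rw [norm_mul]
    refine mul_le_mul_of_nonneg_right ?_ (norm_nonneg _)
    rw [Complex.norm_intCast]
    have h0 : (0 : ℝ) ≤ (s i : ℝ) := by exact_mod_cast (hs i).1
    have h2 : (s i : ℝ) ≤ (T : ℝ) := by exact_mod_cast (hs i).2
    rw [abs_of_nonneg h0]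
    exact h2
  rwa [← Finset.mul_sum, mul_comm] at h1

lemma fin_box (n M : ℕ) : {s : Fin n → ℤ | ∀ i, |s i| ≤ (M : ℤ)}.Finite := by
  refine ((Fintype.piFinset fun _ : Fin n => Finset.Icc (-(M : ℤ)) M).finite_toSet).subset ?_
  intro s hs
  rw [Finset.mem_coe, Fintype.mem_piFinset]
  intro i
  rw [Finset.mem_Icc]
  exact abs_le.1 (hs i)

end I_TIF1

open I_TIF1 in
theorem TIF1_pf (h1 : S_PsiF) (h2 : S_CritF) (h3 : S_NZF) : S_TIF1 := by
  classical
  intro Q Q' m a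
  set e₂ := max (6 * Q' + 6) a + 3 with he₂
  have hcard : ∀ m₁ m₂ : ℕ, Fintype.card (IJ m₁ m₂) = m₁ + 2 * m₂ + 1 := by
    intro m₁ m₂
    simp only [IJ, Fintype.card_sum, Fintype.card_option, Fintype.card_fin]
    omega
  have hq : ∀ p : ℕ × ℕ × ℕ, ∃ q₀ : ℕ, p.2.2 + 2 ≤ Fintype.card (IJ p.1 p.2.1) →
      ∀ q : ℕ, q₀ ≤ q → ∀ (τ μ : ℂ), 0 < τ.im → μ ≠ 0 → ∀ (ty : IJ p.1 p.2.1 → Ty)
      (b : IJ p.1 p.2.1 → ℂ) (c : IJ p.1 p.2.1 → IJ p.1 p.2.1 → ℂ)
      (U : Fin p.2.2 → IJ p.1 p.2.1 → ℂ) (R₀ : ℝ), 1 ≤ R₀ → (∀ j, ty j = Ty.ell → b j ≠ 0) →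
      ∃ T₀ : ℕ, ∀ T : ℕ, T₀ ≤ T →
      ∃ pp : (Fin (Fintype.card (IJ p.1 p.2.1) + 1) → IJ p.1 p.2.1 → Fin (T ^ q)) → ℤ,
      pp ≠ 0 ∧ (∀ x, |pp x| ≤ (2 : ℤ) ^ (T ^ (q + 4))) ∧
      ∀ (z : Fin (Fintype.card (IJ p.1 p.2.1) + 1) → ℂ)
        (t : Fin (Fintype.card (IJ p.1 p.2.1) + 1) → Fin p.2.2 → ℂ)
        (v : Fin (Fintype.card (IJ p.1 p.2.1) + 1) → IJ p.1 p.2.1 → ℂ),
        (∀ r, ‖z r‖ ≤ R₀ * T) → (∀ r k, ‖t r k‖ ≤ R₀ * T) →
        (∀ r j, ty j = Ty.ell → b j * z r ∉ Lam τ) →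
        (∀ r i, ty i ≠ Ty.add → v r i = PN τ μ ty c (fun j => b j * z r) i) →
        (∀ r i, ty i = Ty.add →
          ‖v r i - (PN τ μ ty c (fun j => b j * z r) i - ∑ k, t r k * U k i)‖ ≤
          Real.exp (-((T : ℝ) ^ ((q + 12) * Fintype.card (IJ p.1 p.2.1) + e₂ + q + 6)))) →
        ‖AFv pp v‖ * ∏ r, dd τ ty b (2 * (Fintype.card (IJ p.1 p.2.1) * T ^ q)) (z r) ≤
          Real.exp (-((T : ℝ) ^ ((q + 12) * (Fintype.card (IJ p.1 p.2.1) - p.2.2 - 1) + e₂))) := by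
    intro p
    by_cases hc : p.2.2 + 2 ≤ Fintype.card (IJ p.1 p.2.1)
    · obtain ⟨q₀, hq₀⟩ := h1 (IJ p.1 p.2.1) p.2.2 12 e₂ hc
      exact ⟨q₀, fun _ => hq₀⟩
    · exact ⟨0, fun h => absurd h hc⟩
  choose qf hqf using hq
  obtain ⟨q, hqdef⟩ : ∃ q : ℕ, q = (Finset.range (m + 1) ×ˢ (Finset.range (m + 1) ×ˢ
    Finset.range (3 * m + 2))).sup qf := ⟨_, rfl⟩
  have hNZ : ∀ p : ℕ × ℕ, ∃ n₀ k₀ c₁ : ℕ, 1 ≤ k₀ ∧
      ∀ (τ μ : ℂ), 0 < τ.im → μ ≠ 0 → ∀ (ty : IJ p.1 p.2 → Ty) (i₀ : Option (IJ p.1 p.2))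
      (π : IJ p.1 p.2 → IJ p.1 p.2) (b : IJ p.1 p.2 → ℂ),
      AdB Q τ μ ty b → ∀ n : ℕ, n₀ ≤ n → ∀ x : Fin n → ℂ, MS Q' x →
      ∃ T₀ : ℕ, ∀ T : ℕ, T₀ ≤ T → ∀ S : ℕ, T ≤ S → S ≤ T ^ 2 → ∀ (u : Fin n → IJ p.1 p.2 → ℂ)
      (c' : IJ p.1 p.2 → IJ p.1 p.2 → ℂ) (F : MvPolynomial (IJ p.1 p.2) ℂ)
      (A : Finset (Fin n → ℤ)),
      (∀ i j, ty j ≠ Ty.add → ‖u i j - b j * x i‖ ≤ Real.exp (-((T : ℝ) ^ (6 * Q' + 6)))) →
      EchC ty i₀ π c' → F ≠ 0 → (∀ j, F.degreeOf j ≤ T ^ q) →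
      (∀ s ∈ A, s ≠ 0 ∧ ∀ i, 0 ≤ s i ∧ s i ≤ (S : ℤ)) → (S + 1) ^ n ≤ T ^ 1 * A.card →
      (∀ s ∈ A, Gd τ ty (pcI u s) → eval (PN τ μ ty c' (pcI u s)) F = 0) →
      ∃ i : IJ p.1 p.2, i₀ = some i ∧ (S + 1) ^ n ≤ T ^ c₁ * Set.ncard {s : Fin n → ℤ |
        (∀ i', |s i'| ≤ ((k₀ * S : ℕ) : ℤ)) ∧ pcI u s i = 0} :=
    fun p => h3 Q Q' q 1 (IJ p.1 p.2)
  choose nf kf cf hkf hnf using hNZ
  set box := Finset.range (m + 1) ×ˢ Finset.range (m + 1) with hbox
  refine ⟨max 2 (box.sup nf), max 1 (box.sup kf), box.sup cf, le_max_left _ _, ?_⟩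
  intro m₁ m₂ hm₁ hm₂ τ μ b₁ b₂ hN hFT hb₁ hb₂ n hn x hMS hNT k ρ y U t hAW hTr hkρ
  have hn2 : 2 ≤ n := (le_max_left _ _).trans hn
  have hpb : (m₁, m₂) ∈ box := by
    simp only [hbox, Finset.mem_product, Finset.mem_range]
    omega
  have hnn : nf (m₁, m₂) ≤ n :=
    (Finset.le_sup (f := nf) hpb).trans ((le_max_right _ _).trans hn)
  have hρ : ρ + 2 ≤ Fintype.card (IJ m₁ m₂) := by rw [hcard]; omega
  have hqq : qf (m₁, m₂, ρ) ≤ q := by
    rw [hqdef]
    refine Finset.le_sup (f := qf) ?_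
    simp only [Finset.mem_product, Finset.mem_range]
    rw [hcard] at hρ
    omega
  -- the data
  set ty := tyJ m₁ m₂ with hty
  set b := bJ μ b₁ b₂ with hb
  set c := cJ m₁ m₂ with hc
  set u := uJ τ μ b₁ b₂ x y with hu
  have hNTM : NTM τ ty b x := by
    intro s hs j hj
    rcases j with j | j | j
    · simp [hty, tyJ] at hj
    · simp [hty, tyJ] at hj
    · exact hNT s hs j
  have hbne : ∀ j, ty j = Ty.ell → b j ≠ 0 := by
    intro j hj h0
    have h4 := hNTM (Pi.single (⟨0, by omega⟩ : Fin n) 1) (by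
      intro h
      have := congrFun h ⟨0, by omega⟩
      simp at this) j hj
    rw [h0, zero_mul] at h4
    refine h4 ⟨0, ?_⟩
    simp [lp]
  have hu1 : ∀ i j, ty j ≠ Ty.add → u i j = b j * x i := by
    intro i j hj
    rcases j with j | j | j
    · simp [hty, tyJ] at hj
    · rfl
    · rfl
  obtain ⟨C, T₁, hC, hCr⟩ := h2 (IJ m₁ m₂) n (Fintype.card (IJ m₁ m₂) + 1) k hn2 (by omega) τ μ ty
    (some (Sum.inl none)) (piJ m₁ m₂) b c x u hN (ech m₁ m₂) hNTM hu1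
    (trle_pt τ μ hN b₁ b₂ x hNT y k hTr)
  set R₀ : ℝ := 1 + (∑ i, ‖x i‖ + ∑ l, ∑ i, ‖t i l‖) with hR₀
  have hx0 : 0 ≤ ∑ i, ‖x i‖ := Finset.sum_nonneg fun i _ => norm_nonneg _
  have ht0 : 0 ≤ ∑ l, ∑ i, ‖t i l‖ :=
    Finset.sum_nonneg fun l _ => Finset.sum_nonneg fun i _ => norm_nonneg _
  have hR1 : 1 ≤ R₀ := by linarith
  obtain ⟨T₂, hPs⟩ := hqf (m₁, m₂, ρ) hρ q hqq τ μ hN.im hN.mu ty b c
    (fun l => Sum.elim (fun o => U l o) (fun _ => 0)) R₀ hR1 hbne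
  obtain ⟨T₃, hNz⟩ := hnf (m₁, m₂) τ μ hN.im hN.mu ty (some (Sum.inl none)) (piJ m₁ m₂) b
    (adb Q τ μ hN.mu b₁ b₂ hFT hb₁ hb₂) n hnn x hMS
  obtain ⟨T₄, hT4⟩ := exists_nat_gt C
  refine ⟨max 2 (max (max T₁ T₂) (max T₃ (max T₄ (n * kf (m₁, m₂))))), ?_⟩
  intro T hT
  have hTa : 2 ≤ T := (le_max_left _ _).trans hT
  have hT' := (le_max_right _ _).trans hT
  have hTb : T₁ ≤ T := ((le_max_left _ _).trans (le_max_left _ _)).trans hT'
  have hTc : T₂ ≤ T := ((le_max_right _ _).trans (le_max_left _ _)).trans hT'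
  have hTd : T₃ ≤ T := ((le_max_left _ _).trans (le_max_right _ _)).trans hT'
  have hT'' := (le_max_right _ _).trans ((le_max_right _ _).trans hT')
  have hTe : T₄ ≤ T := (le_max_left _ _).trans hT''
  have hTf : n * kf (m₁, m₂) ≤ T := (le_max_right _ _).trans hT''
  have hTr2 : (2 : ℝ) ≤ T := by exact_mod_cast hTa
  have hTC : C ≤ T := by
    have : (T₄ : ℝ) ≤ T := by exact_mod_cast hTe
    linarith
  obtain ⟨p, hp0, hpb', hpAF⟩ := hPs T hTc
  obtain ⟨ar1, ar2, ar3⟩ := arith q e₂ a k (Fintype.card (IJ m₁ m₂) - ρ - 1)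
    (by rw [hcard]; omega) (by rw [he₂]; have := le_max_right (6 * Q' + 6) a; omega) C T hC hTr2 hTC
  have hW1 : 1 ≤ T ^ q := Nat.one_le_pow _ _ (by omega)
  have hh1 : (1 : ℝ) ≤ (T : ℝ) ^ (q + 4) := one_le_pow₀ (by linarith)
  obtain ⟨u', c', F, hu', hech, hF0, hFd, hFz⟩ := hCr T hTb
    {s | s ≠ 0 ∧ ∀ i, 0 ≤ s i ∧ s i ≤ (T : ℤ)} (fun s hs => hs) (T ^ q) ((T : ℝ) ^ (q + 4))
    ((T : ℝ) ^ ((q + 12) * (Fintype.card (IJ m₁ m₂) - ρ - 1) + e₂)) hW1 hh1
    (by push_cast; exact ar1) p hp0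
    (by
      intro y
      have h5 := hpb' y
      have h6 : |(p y : ℝ)| ≤ (2 : ℝ) ^ (T ^ (q + 4)) := by
        have : ((|p y| : ℤ) : ℝ) ≤ (((2 : ℤ) ^ (T ^ (q + 4)) : ℤ) : ℝ) := by exact_mod_cast h5
        rw [Int.cast_abs] at this
        push_cast at this
        exact this
      refine h6.trans ?_
      have h7 : (2 : ℝ) ≤ Real.exp 1 := by
        have := Real.add_one_le_exp (1 : ℝ)
        linarith
      calc (2 : ℝ) ^ (T ^ (q + 4)) ≤ (Real.exp 1) ^ (T ^ (q + 4)) :=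
            pow_le_pow_left₀ (by norm_num) h7 _
        _ = Real.exp ((T : ℝ) ^ (q + 4)) := by
            rw [← Real.exp_nat_mul]
            push_cast
            rw [mul_one])
    (by
      intro s hs
      refine hpAF (fun r => cmb (s r) x) (fun r l => ∑ i, ((s r) i : ℂ) * t i l)
        (fun r => PN τ μ ty c (pcI u (s r))) ?_ ?_ ?_ ?_ ?_
      · intro r
        refine (norm_cmb_le x (s r) T (hs r).2).trans ?_
        exact mul_le_mul_of_nonneg_right (by linarith) (Nat.cast_nonneg _)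
      · intro r l
        refine (norm_cmb_le (fun i => t i l) (s r) T (hs r).2).trans ?_
        refine mul_le_mul_of_nonneg_right ?_ (Nat.cast_nonneg _)
        have : ∑ i, ‖t i l‖ ≤ ∑ l, ∑ i, ‖t i l‖ :=
          Finset.single_le_sum (f := fun l => ∑ i, ‖t i l‖)
            (fun l _ => Finset.sum_nonneg fun i _ => norm_nonneg _) (Finset.mem_univ l)
        linarith
      · intro r j hj
        exact hNTM (s r) (hs r).1 j hj
      · intro r i hi
        have key : ∀ j, ty j ≠ Ty.add → pcI u (s r) j = b j * cmb (s r) x := by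
          intro j hj
          unfold pcI cmb
          rw [Finset.mul_sum]
          refine Finset.sum_congr rfl fun l _ => ?_
          rw [hu1 l j hj]
          ring
        rcases i with i | i | i
        · simp [hty, tyJ] at hi
        · change Complex.exp _ = Complex.exp _
          rw [key _ hi]
        · change xe τ μ _ = xe τ μ _
          rw [key _ hi]
      · intro r i hi
        rcases i with o | o | o
        swap
        · simp [hty, tyJ] at hi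
        swap
        · simp [hty, tyJ] at hi
        have h8 : PN τ μ ty c (pcI u (s r)) (Sum.inl o) -
            (PN τ μ ty c (fun j => b j * cmb (s r) x) (Sum.inl o) -
              ∑ l, (∑ i, ((s r) i : ℂ) * t i l) * U l o) = 0 := by
          have h9 : ∑ l, (∑ i, ((s r) i : ℂ) * t i l) * U l o =
              ∑ i, ((s r) i : ℂ) * (AW τ μ b₂ x i o - y i o) := by
            simp only [Finset.sum_mul]
            rw [Finset.sum_comm]
            refine Finset.sum_congr rfl fun i _ => ?_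
            rw [hAW i o, add_sub_cancel_left, Finset.mul_sum]
            refine Finset.sum_congr rfl fun l _ => ?_
            ring
          rw [h9, PN_add, PN_add]
          rcases o with _ | l
          · simp only [Option.elim, add_zero]
            have e1 : pcI u (s r) (Sum.inl none) = ∑ i, ((s r) i : ℂ) * y i none := rfl
            have e2 : b (Sum.inl none) = 1 := rfl
            have e3 : ∀ i, AW τ μ b₂ x i none = x i := fun i => rfl
            rw [e1, e2, one_mul]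
            simp only [e3, mul_sub, Finset.sum_sub_distrib]
            unfold cmb
            ring
          · simp only [Option.elim]
            have e1 : pcI u (s r) (Sum.inl (some l)) =
                ∑ i, ((s r) i : ℂ) * (y i (some l) - ze τ μ (μ * (b₂ l * x i))) := rfl
            have e2 : b (Sum.inl (some l)) = 0 := rfl
            have e3 : ∀ i, AW τ μ b₂ x i (some l) = ze τ μ (μ * (b₂ l * x i)) := fun i => rfl
            have e4 : pcI u (s r) (Sum.inr (Sum.inr l)) =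
                b (Sum.inr (Sum.inr l)) * cmb (s r) x := by
              unfold pcI cmb
              rw [Finset.mul_sum]
              refine Finset.sum_congr rfl fun i _ => ?_
              rw [hu1 i _ (by simp [hty, tyJ])]
              ring
            rw [e1, e2, e4, zero_mul]
            simp only [e3, mul_sub, Finset.sum_sub_distrib]
            ring
        have h10 : (∑ l, (∑ i, ((s r) i : ℂ) * t i l) *
            (Sum.elim (fun o => U l o) (fun _ => 0) : IJ m₁ m₂ → ℂ) (Sum.inl o)) =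
            ∑ l, (∑ i, ((s r) i : ℂ) * t i l) * U l o := rfl
        rw [h10, h8, norm_zero]
        exact (Real.exp_pos _).le)
  push_cast at hu'
  set E := (T : ℝ) ^ ((q + 12) * (Fintype.card (IJ m₁ m₂) - ρ - 1) + e₂) /
      (C * ((T : ℝ) ^ q * (T : ℝ) ^ 11 + (T : ℝ) ^ (q + 4)) ^ k) with hE
  have hu'' : ∀ i j, ‖u' i j - u i j‖ ≤ Real.exp (-((T : ℝ) ^ e₂)) := by
    intro i j
    refine (hu' i j).trans (Real.exp_le_exp.2 ?_)
    rw [neg_div]
    exact neg_le_neg ar2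
  set Af : Finset (Fin n → ℤ) := (Fintype.piFinset fun _ => Finset.Icc (0 : ℤ) T).erase 0 with hAf
  have hAfm : ∀ s ∈ Af, s ≠ 0 ∧ ∀ i, 0 ≤ s i ∧ s i ≤ (T : ℤ) := by
    intro s hs
    rw [hAf, Finset.mem_erase, Fintype.mem_piFinset] at hs
    exact ⟨hs.1, fun i => Finset.mem_Icc.1 (hs.2 i)⟩
  have hAfc : Af.card = (T + 1) ^ n - 1 := by
    rw [hAf, Finset.card_erase_of_mem, Fintype.card_piFinset]
    · simp
    · rw [Fintype.mem_piFinset]
      intro i
      simp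
  have hTn : 2 ≤ (T + 1) ^ n := by
    calc 2 ≤ (T + 1) ^ 1 := by rw [pow_one]; omega
      _ ≤ (T + 1) ^ n := Nat.pow_le_pow_right (by omega) (by omega)
  obtain ⟨i, hi, hcnt⟩ := hNz T hTd T le_rfl (by nlinarith) u' c' F Af
    (by
      intro i j hj
      rw [← hu1 i j hj]
      refine (hu'' i j).trans (Real.exp_le_exp.2 (neg_le_neg ?_))
      refine pow_le_pow_right₀ (by linarith) ?_
      rw [he₂]
      have := le_max_left (6 * Q' + 6) a
      omega)
    hech hF0 (fun j => (hFd j).le) hAfm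
    (by
      rw [hAfc, pow_one]
      obtain ⟨M, hM⟩ := Nat.exists_eq_add_of_le hTn
      rw [hM]
      have : 2 + M - 1 = 1 + M := by omega
      rw [this]
      nlinarith)
    (fun s hs => hFz s (hAfm s hs))
  have hi' : i = Sum.inl none := (Option.some.inj hi).symm
  subst hi'
  have hk1 : kf (m₁, m₂) ≤ max 1 (box.sup kf) :=
    (Finset.le_sup (f := kf) hpb).trans (le_max_right _ _)
  have hc1 : cf (m₁, m₂) ≤ box.sup cf := Finset.le_sup (f := cf) hpb
  have hsub : {s : Fin n → ℤ | (∀ i', |s i'| ≤ ((kf (m₁, m₂) * T : ℕ) : ℤ)) ∧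
      pcI u' s (Sum.inl none) = 0} ⊆ {s : Fin n → ℤ |
      (∀ i, |s i| ≤ ((max 1 (box.sup kf) * T : ℕ) : ℤ)) ∧
        ‖∑ i, (s i : ℂ) * y i none‖ ≤ Real.exp (-((T : ℝ) ^ a))} := by
    rintro s ⟨hs1, hs2⟩
    refine ⟨fun i => (hs1 i).trans ?_, ?_⟩
    · exact_mod_cast Nat.mul_le_mul_right T hk1
    · have h11 : ∑ i, (s i : ℂ) * y i none = ∑ i, (s i : ℂ) * (u i (Sum.inl none) -
          u' i (Sum.inl none)) := by
        have e1 : ∀ i, u i (Sum.inl none) = y i none := fun i => rfl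
        simp only [e1, mul_sub, Finset.sum_sub_distrib]
        have e2 : ∑ i, (s i : ℂ) * u' i (Sum.inl none) = 0 := hs2
        rw [e2, sub_zero]
      have hkT : ∀ i, |(s i : ℝ)| ≤ (kf (m₁, m₂) : ℝ) * T := by
        intro i
        have h12 := hs1 i
        have : ((|s i| : ℤ) : ℝ) ≤ ((((kf (m₁, m₂) * T : ℕ) : ℤ)) : ℝ) := by exact_mod_cast h12
        rw [Int.cast_abs] at this
        push_cast at this
        exact this
      rw [h11]
      calc ‖∑ i, (s i : ℂ) * (u i (Sum.inl none) - u' i (Sum.inl none))‖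
          ≤ ∑ i : Fin n, ((kf (m₁, m₂) : ℝ) * T) * Real.exp (-((T : ℝ) ^ e₂)) := by
            refine (norm_sum_le _ _).trans (Finset.sum_le_sum fun i _ => ?_)
            rw [norm_mul, norm_sub_rev, Complex.norm_intCast]
            exact mul_le_mul (hkT i) (hu'' i _) (norm_nonneg _) (by positivity)
        _ = ((n : ℝ) * kf (m₁, m₂) * T) * Real.exp (-((T : ℝ) ^ e₂)) := by
            rw [Finset.sum_const, Finset.card_univ, Fintype.card_fin, nsmul_eq_mul]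
            ring
        _ ≤ Real.exp ((T : ℝ) ^ 2) * Real.exp (-((T : ℝ) ^ e₂)) := by
            refine mul_le_mul_of_nonneg_right ?_ (Real.exp_pos _).le
            have h13 : (n : ℝ) * kf (m₁, m₂) ≤ T := by exact_mod_cast hTf
            have h14 : (n : ℝ) * kf (m₁, m₂) * T ≤ (T : ℝ) ^ 2 := by nlinarith
            have h15 := Real.add_one_le_exp ((T : ℝ) ^ 2)
            linarith
        _ = Real.exp ((T : ℝ) ^ 2 - (T : ℝ) ^ e₂) := by rw [← Real.exp_add, sub_eq_add_neg]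
        _ ≤ Real.exp (-((T : ℝ) ^ a)) := Real.exp_le_exp.2 (by linarith)
  calc (T + 1) ^ n ≤ T ^ cf (m₁, m₂) * Set.ncard {s : Fin n → ℤ |
        (∀ i', |s i'| ≤ ((kf (m₁, m₂) * T : ℕ) : ℤ)) ∧ pcI u' s (Sum.inl none) = 0} := hcnt
    _ ≤ _ := by
      refine Nat.mul_le_mul (Nat.pow_le_pow_right (by omega) hc1) ?_
      refine Set.ncard_le_ncard hsub ?_
      exact (fin_box n _).subset fun s hs => hs.1

end Pool.Agent.Work.MP_8da9ea_nt.MX
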