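import Pool.Agent.Work.MP_8da9ea_nt.MX.StmtsH
import Pool.Agent.Work.MP_8da9ea_nt.Bd.B05

/-!
# Mixed block, item TorRank2
-/

set_option autoImplicit false

namespace Pool.Agent.Work.MP_8da9ea_nt.MX

open MvPolynomial Pool.Agent.Work.MP_327059_nt.GL Pool.Agent.Work.MP_8da9ea_nt.S
  Pool.Agent.Work.MP_8da9ea_nt.EB

namespace I_TorRank2

open Pool.Agent.Work.MP_8da9ea_nt.TG Pool.Agent.ED

/-- many derivations killing the family `B`, with independent logarithmic forms -/
theorem rank2 {m M : ℕ} (b : Fin m → ℂ) (B : Fin M → ℂ) (e : Fin m → Fin M) (he : ∀ j, b j = B (e j))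
    (z : ℂ) (hS : Sch b z) (κ : ℕ) (hκ : TrLe κ B)
    (R : ℕ) (hR : R + 1 + κ ≤ m) :
    ∃ δ : Fin R → Derivation ℚ ℂ ℂ, (∀ s, δ s z = 0 ∧ ∀ j, δ s (B j) = 0) ∧
      LinearIndependent ℂ (fun s => lgV (fun j => b j * z) (δ s)) := by
  classical
  obtain ⟨s, hs⟩ := hS
  obtain ⟨r', sb, hind, halg⟩ := pr_TrBasis (Fin M) B
  have hr' : r' ≤ κ := by
    by_contra hc
    push Not at hc
    exact hκ (fun i => sb (Fin.castLE hc i))
      (hind.comp (Fin.castLE hc) (Fin.castLE_injective hc))
  set w : Fin m → ℂ := fun i =>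
    Sum.elim (fun j => b j * z) (fun j => Complex.exp (b j * z)) (s i) with hw
  obtain ⟨δ, hδ, hδi⟩ := lin_ker (⊤ : Submodule ℂ (Derivation ℚ ℂ ℂ)) (evDer w)
    (evDer (Sum.elim (fun _ : Fin 1 => z) (fun i => B (sb i)))) R (by
      have h1 : (⊤ : Submodule ℂ (Derivation ℚ ℂ ℂ)).map (evDer (K := ℚ) (M := ℂ) w) = ⊤ := by
        rw [eq_top_iff]
        intro u _
        obtain ⟨X, hX⟩ := exists_derivation hs u
        exact ⟨X, trivial, funext hX⟩
      rw [h1, finrank_top, Module.finrank_fintype_fun_eq_card, Module.finrank_fintype_fun_eq_card,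
        Fintype.card_sum, Fintype.card_fin, Fintype.card_fin, Fintype.card_fin]
      omega)
  have hz : ∀ s', δ s' z = 0 := fun s' => congrFun (hδ s').2 (Sum.inl 0)
  have hb0 : ∀ s' i, δ s' (B (sb i)) = 0 := fun s' i => congrFun (hδ s').2 (Sum.inr i)
  have hB : ∀ s' j, δ s' (B j) = 0 := by
    intro s' j
    refine der_zero_alg (IntermediateField.adjoin ℚ (Set.range fun i => B (sb i))) (δ s') ?_ (B j)
      (halg j)
    refine der_zero_adjoin _ (δ s') ?_
    rintro _ ⟨i, rfl⟩
    exact hb0 s' i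
  have hb : ∀ s' j, δ s' (b j) = 0 := fun s' j => by
    rw [he j]
    exact hB s' (e j)
  refine ⟨δ, fun s' => ⟨hz s', hB s'⟩, ?_⟩
  rw [Fintype.linearIndependent_iff] at hδi ⊢
  intro q hq
  apply hδi q
  funext i
  rw [Finset.sum_apply]
  have hval : ∀ s' : Fin R, evDer w (δ s') i = Sum.elim (fun _ => 0)
      (fun j => Complex.exp (b j * z) * lgV (fun j => b j * z) (δ s') j) (s i) := by
    intro s'
    show δ s' (w i) = _
    simp only [hw]
    cases s i with
    | inl j =>
      simp only [Sum.elim_inl]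
      rw [Derivation.leibniz, hb s' j, hz s', smul_zero, smul_zero, add_zero]
    | inr j =>
      simp only [Sum.elim_inr, lgV, LinearMap.coe_mk, AddHom.coe_mk]
      rw [mul_div_cancel₀ _ (Complex.exp_ne_zero _)]
  simp only [Pi.smul_apply, hval, Pi.zero_apply, smul_eq_mul]
  cases s i with
  | inl j =>
    simp only [Sum.elim_inl, mul_zero, Finset.sum_const_zero]
  | inr j =>
    have h2 := congrFun hq j
    simp only [Finset.sum_apply, Pi.smul_apply, smul_eq_mul, Pi.zero_apply] at h2
    simp only [Sum.elim_inr]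
    calc ∑ x, q x * (Complex.exp (b j * z) * lgV (fun j => b j * z) (δ x) j) =
          Complex.exp (b j * z) * ∑ x, q x * lgV (fun j => b j * z) (δ x) j := by
          rw [Finset.mul_sum]
          exact Finset.sum_congr rfl fun x _ => by ring
      _ = 0 := by rw [h2, mul_zero]

end I_TorRank2

theorem TorRank2_pf : S_TorRank2 := by
  classical
  intro m m' κ b b' z hS hκ
  by_cases hm : m ≤ κ + 1
  · omega
  obtain ⟨δ, hδ, hδi⟩ := I_TorRank2.rank2 b (Fin.append b b') (Fin.castAdd m')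
    (fun j => (Fin.append_left b b' j).symm) z hS κ hκ (m - κ - 1) (by omega)
  have h2 : LinearIndependent ℂ (fun s => (⟨lgV (fun j => b j * z) (δ s),
      Submodule.mem_map_of_mem (show δ s ∈ TT (Fin.append b b') from (hδ s).2)⟩ :
      (TT (Fin.append b b')).map (lgV (fun j => b j * z)))) := by
    apply LinearIndependent.of_comp (Submodule.subtype _)
    exact hδi
  have h3 := h2.fintype_card_le_finrank
  rw [Fintype.card_fin] at h3
  omega

end Pool.Agent.Work.MP_8da9ea_nt.MX
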