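import Pool.Agent.Work.MP_8da9ea_nt.MX.AsmT
import Pool.Agent.Work.MP_8da9ea_nt.MX.FinalB
import Pool.Agent.Work.MP_8da9ea_nt.MX.I_AKM
import Pool.Agent.Work.MP_8da9ea_nt.MX.I_AbsF
import Pool.Agent.Work.MP_8da9ea_nt.MX.I_AxOutM2
import Pool.Agent.Work.MP_8da9ea_nt.MX.I_CntL
import Pool.Agent.Work.MP_8da9ea_nt.MX.I_CopyF
import Pool.Agent.Work.MP_8da9ea_nt.MX.I_CritF
import Pool.Agent.Work.MP_8da9ea_nt.MX.I_EtT
import Pool.Agent.Work.MP_8da9ea_nt.MX.I_EtaAddC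
import Pool.Agent.Work.MP_8da9ea_nt.MX.I_EtaMulC
import Pool.Agent.Work.MP_8da9ea_nt.MX.I_FFrank
import Pool.Agent.Work.MP_8da9ea_nt.MX.I_FOadd
import Pool.Agent.Work.MP_8da9ea_nt.MX.I_FOclosed
import Pool.Agent.Work.MP_8da9ea_nt.MX.I_FinalZF
import Pool.Agent.Work.MP_8da9ea_nt.MX.I_GCoreF
import Pool.Agent.Work.MP_8da9ea_nt.MX.I_GPM
import Pool.Agent.Work.MP_8da9ea_nt.MX.I_HilbF
import Pool.Agent.Work.MP_8da9ea_nt.MX.I_HilbW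
import Pool.Agent.Work.MP_8da9ea_nt.MX.I_ImgC
import Pool.Agent.Work.MP_8da9ea_nt.MX.I_KillMore
import Pool.Agent.Work.MP_8da9ea_nt.MX.I_LL
import Pool.Agent.Work.MP_8da9ea_nt.MX.I_LinAlgV
import Pool.Agent.Work.MP_8da9ea_nt.MX.I_MixRankF
import Pool.Agent.Work.MP_8da9ea_nt.MX.I_NZF
import Pool.Agent.Work.MP_8da9ea_nt.MX.I_PLv
import Pool.Agent.Work.MP_8da9ea_nt.MX.I_PsiF
import Pool.Agent.Work.MP_8da9ea_nt.MX.I_Rat
import Pool.Agent.Work.MP_8da9ea_nt.MX.I_RatPt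
import Pool.Agent.Work.MP_8da9ea_nt.MX.I_RelAllF
import Pool.Agent.Work.MP_8da9ea_nt.MX.I_RelAllJ
import Pool.Agent.Work.MP_8da9ea_nt.MX.I_RelF
import Pool.Agent.Work.MP_8da9ea_nt.MX.I_RelPol2
import Pool.Agent.Work.MP_8da9ea_nt.MX.I_RelStepF
import Pool.Agent.Work.MP_8da9ea_nt.MX.I_RkV
import Pool.Agent.Work.MP_8da9ea_nt.MX.I_SC1
import Pool.Agent.Work.MP_8da9ea_nt.MX.I_SemiF
import Pool.Agent.Work.MP_8da9ea_nt.MX.I_SpzF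
import Pool.Agent.Work.MP_8da9ea_nt.MX.I_StarF
import Pool.Agent.Work.MP_8da9ea_nt.MX.I_StepP
import Pool.Agent.Work.MP_8da9ea_nt.MX.I_TIF
import Pool.Agent.Work.MP_8da9ea_nt.MX.I_TIF0
import Pool.Agent.Work.MP_8da9ea_nt.MX.I_TIF1
import Pool.Agent.Work.MP_8da9ea_nt.MX.I_TorRank2
import Pool.Agent.Work.MP_8da9ea_nt.FR.I_MixAx
import Pool.Agent.Work.MP_8da9ea_nt.FR.I_LamAddK
import Pool.Agent.Work.MP_8da9ea_nt.FR.I_LamMulK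
import Pool.Agent.Work.MP_8da9ea_nt.FR.I_LamZeroK
import Pool.Agent.Work.MP_8da9ea_nt.EB.I_Emb
import Pool.Agent.Work.MP_8da9ea_nt.EB.I_Norm
import Pool.Agent.Work.MP_8da9ea_nt.S.Asm

/-!
# Mixed block: assembly of the lossless version
-/

set_option autoImplicit false

namespace Pool.Agent.Work.MP_8da9ea_nt.MX

open Pool.Agent.Work.MP_327059_nt.GL Pool.Agent.Work.MP_8da9ea_nt.S Pool.Agent.Work.MP_8da9ea_nt.EB

theorem x_CntL : S_CntL := CntL_pf CopyF_pf RkV_pf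

theorem x_LL : S_LL := LL_pf x_CntL SpzF_pf

theorem x_PsiF : S_PsiF := PsiF_pf PLv_pf

theorem x_CritF : S_CritF := CritF_pf x_TreeQ x_TrueQ ZUpQ_pf PEMval_pf

theorem x_NZF : S_NZF := NZF_pf x_ZMall

theorem x_TIF : S_TIF := TIF_pf (TIF1_pf x_PsiF x_CritF x_NZF) (TIF0_pf x_PsiF x_CritF x_NZF)

theorem x_StepP : S_StepP := StepP_pf AdmF_pf x_CoefM SchwM_pf x_CritM x_NZM

theorem x_MeasP : S_MeasP := MeasP_pf x_StepP

theorem x_HilbW : S_HilbW := HilbW_pf HilbF_pf SemiF_pf RkV_pf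

theorem x_RelF : S_RelF := RelF_pf x_HilbW FFrank_pf x_TreeQ

theorem x_StarF : S_StarF := StarF_pf x_RelF x_MeasP x_LL x_TIF

theorem x_EtaMulC : S_EtaMulC := EtaMulC_pf EtaAddC_pf

theorem x_EtT : S_EtT := EtT_pf EtaAddC_pf x_EtaMulC

theorem x_FOadd : S_FOadd := FOadd_pf EtaAddC_pf

theorem x_MixAx : FR.S_MixAx :=
  FR.MixAx_pf Emb_pf FR.LamAddK_pf (FR.LamMulK_pf FR.LamAddK_pf) FR.LamZeroK_pf

theorem x_AKM : S_AKM := AKM_pf EtaAddC_pf x_MixAx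

theorem x_AxOutM2 : S_AxOutM2 := AxOutM2_pf ImgC_pf x_AKM FOclosed_pf

theorem x_Rat : S_Rat := Rat_pf FOclosed_pf

theorem x_RatPt : S_RatPt := RatPt_pf x_FOadd

theorem x_GCoreF : S_GCoreF := GCoreF_pf x_AxOutM2 LinAlgV_pf SC1_pf x_Rat x_Star x_RatPt x_StarF

theorem x_MixRankF : S_MixRankF := MixRankF_pf x_GCoreF GPM_pf x_FOadd x_EtT

theorem x_RelAllF : S_RelAllF := RelAllF_pf RelStepF_pf

theorem x_FinalZF : S_FinalZF := FinalZF_pf x_RelAllF RelAllJ_pf RelPol2_pf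

end Pool.Agent.Work.MP_8da9ea_nt.MX
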