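import Pool.Agent.Work.MP_8da9ea_nt.MX.StmtsZ
import Pool.Agent.Work.MP_8da9ea_nt.EB.I_Branch
import Pool.Agent.Work.MP_8da9ea_nt.EB.I_Surj

/-!
# Mixed block, item BranchM: an analytic branch of an irreducible hypersurface

The point of the hypersurface is taken in the coordinates (Nullstellensatz, as in `EB/I_Branch`) and the
parameters are found afterwards: all points with nonzero multiplicative coordinates have the form
`PT p`.
-/

set_option autoImplicit false

namespace Pool.Agent.Work.MP_8da9ea_nt.MX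

open MvPolynomial Metric Filter Topology Pool.Agent.Work.MP_327059_nt.GL
  Pool.Agent.Work.MP_8da9ea_nt.S Pool.Agent.Work.MP_8da9ea_nt.EB

namespace I_BranchM

/-- The coordinates of an analytic family of parameters are analytic. -/
theorem anPT {τ : ℂ} (hτ : 0 < τ.im) {W : Type} [NormedAddCommGroup W] [NormedSpace ℂ W] {M : ℕ}
    (ty : Fin M → Ty) (c : Fin M → Fin M → ℂ) (P : Fin M → W → ℂ) (s : W)
    (hP : ∀ i, AnalyticAt ℂ (P i) s) (hg : ∀ i, ty i = Ty.ell → P i s ∉ Lam τ) (i : Fin M) :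
    AnalyticAt ℂ (fun x => PT τ ty c (fun k => P k x) i) s := by
  unfold PT
  rcases hi : ty i with _ | _ | _
  · simp only [hi]
    refine (hP i).fun_add ?_
    refine Finset.analyticAt_fun_sum _ fun j _ => ?_
    by_cases hj : ty j = Ty.ell
    · simp only [hj, if_true]
      have h2 : AnalyticAt ℂ (fun z => zt 1 τ z) (P j s) := analyticOn_zt hτ _ (hg j hj)
      have h5 := AnalyticAt.fun_comp (g := fun z => zt 1 τ z) (f := P j) h2 (hP j)
      exact analyticAt_const.fun_mul h5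
    · simp only [hj, if_false]
      exact analyticAt_const
  · simp only [hi]
    exact (hP i).cexp'
  · simp only [hi]
    have h2 : AnalyticAt ℂ (fun z => wp 1 τ z) (P i s) := analyticOn_wp hτ _ (hg i hi)
    exact AnalyticAt.fun_comp (g := fun z => wp 1 τ z) (f := P i) h2 (hP i)

/-- All points with nonzero multiplicative coordinates are of the form `PT p`. -/
theorem surjPT {τ : ℂ} (hτ : 0 < τ.im) {M : ℕ} (ty : Fin M → Ty) (c : Fin M → Fin M → ℂ)
    (x : Fin M → ℂ) (hx : ∀ i, ty i = Ty.mul → x i ≠ 0) :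
    ∃ p : Fin M → ℂ, Gd τ ty p ∧ PT τ ty c p = x := by
  choose u hu hu0 using fun i : Fin M => Surj_pf τ hτ (x i)
  obtain ⟨p, hp⟩ : ∃ p : Fin M → ℂ, p = fun i => match ty i with
    | Ty.add => x i - ∑ j, (if ty j = Ty.ell then c i j * zt 1 τ (u j) else 0)
    | Ty.mul => Complex.log (x i)
    | Ty.ell => u i := ⟨_, rfl⟩
  have hell : ∀ j, ty j = Ty.ell → p j = u j := by
    intro j hj
    rw [hp]
    simp only [hj]
  refine ⟨p, fun j hj => ?_, ?_⟩
  · rw [hell j hj]
    exact hu j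
  · funext i
    unfold PT
    rcases hi : ty i with _ | _ | _
    · simp only [hi]
      have h1 : ∑ j, (if ty j = Ty.ell then c i j * zt 1 τ (p j) else 0) =
          ∑ j, (if ty j = Ty.ell then c i j * zt 1 τ (u j) else 0) := by
        refine Finset.sum_congr rfl fun j _ => ?_
        by_cases hj : ty j = Ty.ell
        · rw [if_pos hj, if_pos hj, hell j hj]
        · rw [if_neg hj, if_neg hj]
      rw [h1, hp]
      simp only [hi]
      ring
    · simp only [hi]
      rw [hp]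
      simp only [hi]
      exact Complex.exp_log (hx i hi)
    · simp only [hi]
      rw [hell i hi]
      exact hu0 i

variable {τ : ℂ} {N : ℕ} {ty : Fin (N + 1) → Ty} {c : Fin (N + 1) → Fin (N + 1) → ℂ}

/-- The elliptic parameters do not see the parameter `0`. -/
theorem sum_cons (h0 : ty 0 ≠ Ty.ell) (t t' : ℂ) (v : Fin N → ℂ) (i : Fin (N + 1)) :
    ∑ j, (if ty j = Ty.ell then c i j * zt 1 τ ((Fin.cons t v : Fin (N + 1) → ℂ) j) else 0) =
      ∑ j, (if ty j = Ty.ell then c i j * zt 1 τ ((Fin.cons t' v : Fin (N + 1) → ℂ) j) else 0) := by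
  refine Finset.sum_congr rfl fun j _ => ?_
  refine Fin.cases ?_ (fun k => ?_) j
  · rw [if_neg h0, if_neg h0]
  · simp only [Fin.cons_succ]

theorem PT_succ (h0 : ty 0 ≠ Ty.ell) (t t' : ℂ) (v : Fin N → ℂ) (i : Fin N) :
    PT τ ty c (Fin.cons t v) i.succ = PT τ ty c (Fin.cons t' v) i.succ := by
  unfold PT
  rcases hi : ty i.succ with _ | _ | _
  · simp only [hi, Fin.cons_succ]
    rw [sum_cons h0 t t' v]
  · simp only [hi, Fin.cons_succ]
  · simp only [hi, Fin.cons_succ]

theorem PT_zero (h0 : ty 0 ≠ Ty.ell) (t₀ : ℂ) (v : Fin N → ℂ) :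
    ∃ g' : ℂ, g' ≠ 0 ∧ HasDerivAt (fun t => PT τ ty c (Fin.cons t v) 0) g' t₀ := by
  rcases hi : ty 0 with _ | _ | _
  · refine ⟨1, one_ne_zero, ?_⟩
    have h1 : (fun t => PT τ ty c (Fin.cons t v) 0) = fun t => t +
        ∑ j, (if ty j = Ty.ell then c 0 j * zt 1 τ ((Fin.cons t₀ v : Fin (N + 1) → ℂ) j) else 0) := by
      funext t
      unfold PT
      simp only [hi, Fin.cons_zero]
      rw [sum_cons h0 t t₀ v]
    rw [h1]
    exact (hasDerivAt_id t₀).add_const _
  · refine ⟨Complex.exp t₀, Complex.exp_ne_zero _, ?_⟩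
    have h1 : (fun t => PT τ ty c (Fin.cons t v) 0) = fun t => Complex.exp t := by
      funext t
      unfold PT
      simp only [hi, Fin.cons_zero]
    rw [h1]
    exact Complex.hasDerivAt_exp t₀
  · exact absurd hi h0

/-- The polynomial `f` does not divide the product of its derivative and the multiplicative
variables. -/
theorem not_dvd {f : MvPolynomial (Fin (N + 1)) ℂ} (hf : Irreducible f)
    (hdeg : f.degreeOf 0 ≠ 0) (hX : ty 0 = Ty.mul → ¬ X 0 ∣ f) :
    ¬ f ∣ pderiv 0 f * ∏ i, (if ty i = Ty.mul then X i else 1) := by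
  intro h
  have hprime : Prime f := UniqueFactorizationMonoid.irreducible_iff_prime.1 hf
  rcases hprime.dvd_or_dvd h with h | h
  · exact EB.I_Branch.not_dvd_pderiv f hdeg h
  · rw [hprime.dvd_finsetProd_iff] at h
    obtain ⟨i, -, hi⟩ := h
    by_cases hm : ty i = Ty.mul
    · rw [if_pos hm] at hi
      have hXi : Irreducible (X i : MvPolynomial (Fin (N + 1)) ℂ) :=
        (MvPolynomial.X_prime (i := i)).irreducible
      have has := hf.associated_of_dvd hXi hi
      have hd : (X i : MvPolynomial (Fin (N + 1)) ℂ) ∣ f := has.symm.dvd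
      have hi0 : i = 0 := by
        by_contra hne
        obtain ⟨g, hg⟩ := hi
        have hX0 : (X i : MvPolynomial (Fin (N + 1)) ℂ) ≠ 0 := hXi.ne_zero
        have hg0 : g ≠ 0 := by
          rintro rfl
          exact hX0 (by rw [hg, mul_zero])
        have h1 : (X i : MvPolynomial (Fin (N + 1)) ℂ).degreeOf 0 = 0 :=
          degreeOf_X_of_ne (fun h => hne h.symm)
        rw [hg, degreeOf_mul_eq hf.ne_zero hg0] at h1
        omega
      subst hi0
      exact hX hm hd
    · rw [if_neg hm] at hi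
      exact hf.not_isUnit (isUnit_of_dvd_one hi)

end I_BranchM

open I_BranchM in
theorem BranchM_pf : S_BranchM := by
  intro τ hτ N ty c f h0 hf hdeg hX
  obtain ⟨x, hx, hx2⟩ := EB.I_Branch.exists_point f _ hf (not_dvd hf hdeg hX)
  rw [map_mul, map_prod] at hx2
  have hpd := left_ne_zero_of_mul hx2
  have hpr := right_ne_zero_of_mul hx2
  have hmul : ∀ i, ty i = Ty.mul → x i ≠ 0 := by
    intro i hi
    have h1 := Finset.prod_ne_zero_iff.1 hpr i (Finset.mem_univ i)
    rw [if_pos hi, eval_X] at h1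
    exact h1
  obtain ⟨p, hg, hp⟩ := surjPT hτ ty c x hmul
  obtain ⟨v₀, hv₀⟩ : ∃ v₀ : Fin N → ℂ, v₀ = Fin.tail p := ⟨_, rfl⟩
  obtain ⟨y₀, hy₀⟩ : ∃ y₀ : ℂ, y₀ = p 0 := ⟨_, rfl⟩
  have hpc : (Fin.cons y₀ v₀ : Fin (N + 1) → ℂ) = p := by
    rw [hv₀, hy₀]
    exact Fin.cons_self_tail p
  obtain ⟨g', hg', hgd⟩ := PT_zero (τ := τ) (c := c) h0 y₀ v₀
  let Φ : (Fin N → ℂ) × ℂ → ℂ := fun w => eval (PT τ ty c (Fin.cons w.2 w.1)) f
  let P : Fin (N + 1) → (Fin N → ℂ) × ℂ → ℂ := fun k w => (Fin.cons w.2 w.1 : Fin (N + 1) → ℂ) k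
  have hP : ∀ (k : Fin (N + 1)) (w : (Fin N → ℂ) × ℂ), AnalyticAt ℂ (P k) w := by
    intro k w
    refine Fin.cases ?_ (fun j => ?_) k
    · show AnalyticAt ℂ (fun w : (Fin N → ℂ) × ℂ => w.2) w
      exact analyticAt_snd
    · show AnalyticAt ℂ (fun w : (Fin N → ℂ) × ℂ => w.1 j) w
      exact ((ContinuousLinearMap.proj (R := ℂ) (φ := fun _ : Fin N => ℂ) j).comp
        (ContinuousLinearMap.fst ℂ (Fin N → ℂ) ℂ)).analyticAt _
  have hPp : ∀ k, P k (v₀, y₀) = p k := fun k => congrFun hpc k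
  have hΦ : AnalyticAt ℂ Φ (v₀, y₀) := by
    refine EB.I_Branch.analyticAt_eval
      (fun i (w : (Fin N → ℂ) × ℂ) => PT τ ty c (fun k => P k w) i) (v₀, y₀) ?_ f
    intro i
    refine anPT hτ ty c P (v₀, y₀) (fun k => hP k _) (fun k hk => ?_) i
    rw [hPp k]
    exact hg k hk
  have hd : HasDerivAt (fun t => Φ (v₀, t)) (eval x (pderiv 0 f) * g') y₀ := by
    have h1 := EB.I_Branch.hasDerivAt_eval (fun i : Fin N => PT τ ty c (Fin.cons y₀ v₀) i.succ)
      (fun t => PT τ ty c (Fin.cons t v₀) 0) g' y₀ hgd f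
    have h2 : ∀ t : ℂ, (Fin.cons (PT τ ty c (Fin.cons t v₀) 0)
        (fun i : Fin N => PT τ ty c (Fin.cons y₀ v₀) i.succ) : Fin (N + 1) → ℂ) =
          PT τ ty c (Fin.cons t v₀) := by
      intro t
      funext i
      refine Fin.cases ?_ (fun j => ?_) i
      · simp only [Fin.cons_zero]
      · simp only [Fin.cons_succ]
        exact PT_succ h0 y₀ t v₀ j
    have h3 : PT τ ty c (Fin.cons y₀ v₀) = x := by rw [hpc, hp]
    simp only [h2] at h1
    rw [h3] at h1
    exact h1
  have hz : Φ (v₀, y₀) = 0 := by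
    show eval (PT τ ty c (Fin.cons y₀ v₀)) f = 0
    rw [hpc, hp, hx]
  obtain ⟨L, hL, hL0, hev⟩ := EB.I_Branch.implicit Φ v₀ y₀ hΦ hz _ (mul_ne_zero hpd hg') hd
  have e1 : ∀ᶠ v in 𝓝 v₀, AnalyticAt ℂ L v := hL.eventually_analyticAt
  have e2 : ∀ᶠ v in 𝓝 v₀, ∀ i : Fin N, ty i.succ = Ty.ell → v i ∉ Lam τ := by
    rw [eventually_all]
    intro i
    by_cases hi : ty i.succ = Ty.ell
    · have h1 : v₀ i ∉ Lam τ := by
        have h2 := hg i.succ hi
        rw [← hpc, Fin.cons_succ] at h2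
        exact h2
      filter_upwards [(continuous_apply i).continuousAt.eventually
        ((Lam_compl_open hτ).mem_nhds h1)] with v hv _
      exact hv
    · exact Eventually.of_forall fun v h => absurd h hi
  obtain ⟨r, hr, hb⟩ := Metric.eventually_nhds_iff_ball.1 ((e1.and e2).and hev)
  refine ⟨v₀, r, L, hr, fun v hv => (hb v hv).1.1, fun v hv => ⟨?_, (hb v hv).2⟩⟩
  intro j hj
  revert hj
  refine Fin.cases ?_ (fun k => ?_) j
  · intro hj
    exact absurd hj h0
  · intro hj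
    rw [Fin.cons_succ]
    exact (hb v hv).1.2 k hj

end Pool.Agent.Work.MP_8da9ea_nt.MX
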