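import Pool.Agent.Work.MP_8da9ea_nt.MX.StmtsZ
import Pool.Agent.Work.MP_8da9ea_nt.EB.Gen

/-!
# Mixed block, item CntM: the increments of a branch lie in a countable set
-/

set_option autoImplicit false

namespace Pool.Agent.Work.MP_8da9ea_nt.MX

open MvPolynomial Metric Filter Topology Pool.Agent.Work.MP_8da9ea_nt
  Pool.Agent.Work.MP_8da9ea_nt.EB

namespace I_CntM

lemma sg_sq (b : Bool) : sg b * sg b = 1 := by cases b <;> simp [sg]

lemma zt_sg (τ : ℂ) (b : Bool) (z : ℂ) : zt 1 τ (sg b * z) = sg b * zt 1 τ z := by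
  cases b
  · simp [sg, zt_neg]
  · simp [sg]

lemma sg_mem {τ : ℂ} (b : Bool) {z : ℂ} : sg b * z ∈ Lam τ ↔ z ∈ Lam τ := by
  cases b
  · simp [sg, neg_mem_Lam]
  · simp [sg]

section inner

variable {τ : ℂ} {N : ℕ} (ty : Fin N → Ty) (c : Fin N → Fin N → ℂ)

lemma sgI_add {e : Fin N → Bool} {p : Fin N → ℂ} {i : Fin N} (h : ty i = Ty.add) :
    sgI τ ty c e p i =
      p i + ∑ j, (if ty j = Ty.ell then (1 - sg (e j)) * (c i j * zt 1 τ (p j)) else 0) := by
  simp only [sgI, h]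

lemma sgI_mul {e : Fin N → Bool} {p : Fin N → ℂ} {i : Fin N} (h : ty i = Ty.mul) :
    sgI τ ty c e p i = p i := by
  simp only [sgI, h]

lemma sgI_ell {e : Fin N → Bool} {p : Fin N → ℂ} {i : Fin N} (h : ty i = Ty.ell) :
    sgI τ ty c e p i = sg (e i) * p i := by
  simp only [sgI, h]

lemma PT_add {p : Fin N → ℂ} {i : Fin N} (h : ty i = Ty.add) :
    PT τ ty c p i = p i + ∑ j, (if ty j = Ty.ell then c i j * zt 1 τ (p j) else 0) := by
  simp only [PT, h]

lemma PT_mul {p : Fin N → ℂ} {i : Fin N} (h : ty i = Ty.mul) :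
    PT τ ty c p i = Complex.exp (p i) := by
  simp only [PT, h]

lemma PT_ell {p : Fin N → ℂ} {i : Fin N} (h : ty i = Ty.ell) :
    PT τ ty c p i = wp 1 τ (p i) := by
  simp only [PT, h]

lemma sgI_sgI (e : Fin N → Bool) (p : Fin N → ℂ) :
    sgI τ ty c e (sgI τ ty c e p) = p := by
  funext i
  cases hi : ty i
  · rw [sgI_add ty c hi, sgI_add ty c hi, add_assoc, ← Finset.sum_add_distrib]
    have h1 : ∀ j, (if ty j = Ty.ell then (1 - sg (e j)) * (c i j * zt 1 τ (p j)) else 0) +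
        (if ty j = Ty.ell then (1 - sg (e j)) * (c i j * zt 1 τ (sgI τ ty c e p j)) else 0) =
        0 := by
      intro j
      by_cases hj : ty j = Ty.ell
      · rw [if_pos hj, if_pos hj, sgI_ell ty c hj, zt_sg]
        linear_combination (-(c i j * zt 1 τ (p j))) * sg_sq (e j)
      · rw [if_neg hj, if_neg hj, add_zero]
    rw [Finset.sum_congr rfl fun j _ => h1 j, Finset.sum_const_zero, add_zero]
  · rw [sgI_mul ty c hi, sgI_mul ty c hi]
  · rw [sgI_ell ty c hi, sgI_ell ty c hi, ← mul_assoc, sg_sq, one_mul]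

lemma Gd_sgI {e : Fin N → Bool} {p : Fin N → ℂ} :
    Gd τ ty (sgI τ ty c e p) ↔ Gd τ ty p := by
  unfold Gd
  refine forall_congr' fun j => ?_
  refine imp_congr_right fun hj => ?_
  rw [sgI_ell ty c hj, sg_mem]

lemma isOpen_Gd (hτ : 0 < τ.im) : IsOpen {p : Fin N → ℂ | Gd τ ty p} := by
  have h1 : {p : Fin N → ℂ | Gd τ ty p} =
      ⋂ j, {p : Fin N → ℂ | ty j = Ty.ell → p j ∉ Lam τ} := by
    ext p
    simp [Gd]
  rw [h1]
  refine isOpen_iInter_of_finite fun j => ?_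
  by_cases hj : ty j = Ty.ell
  · have h2 : {p : Fin N → ℂ | ty j = Ty.ell → p j ∉ Lam τ} =
        (fun p : Fin N → ℂ => p j) ⁻¹' (Lam τ)ᶜ := by
      ext p
      simp [hj]
    rw [h2]
    exact (Lam_closed hτ).isOpen_compl.preimage (by fun_prop)
  · have h2 : {p : Fin N → ℂ | ty j = Ty.ell → p j ∉ Lam τ} = Set.univ := by
      ext p
      simp [hj]
    rw [h2]
    exact isOpen_univ

lemma cont_sum (hτ : 0 < τ.im) {p : Fin N → ℂ} (hp : Gd τ ty p) (a : Fin N → ℂ) :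
    ContinuousAt (fun p : Fin N → ℂ => ∑ j, (if ty j = Ty.ell then a j * zt 1 τ (p j) else 0))
      p := by
  refine tendsto_finsetSum _ fun j _ => ?_
  by_cases hj : ty j = Ty.ell
  · simp only [if_pos hj]
    have h1 : ContinuousAt (fun p : Fin N → ℂ => zt 1 τ (p j)) p :=
      (hasDerivAt_zt_z hτ (hp j hj)).continuousAt.comp (f := fun p : Fin N → ℂ => p j)
        (Continuous.continuousAt (by fun_prop))
    exact h1.const_mul (a j)
  · simp only [if_neg hj]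
    exact tendsto_const_nhds

lemma cont_sgI (hτ : 0 < τ.im) (e : Fin N → Bool) {p : Fin N → ℂ} (hp : Gd τ ty p) :
    ContinuousAt (sgI τ ty c e) p := by
  rw [continuousAt_pi]
  intro i
  cases hi : ty i
  · simp only [sgI_add ty c hi]
    have h1 : ContinuousAt (fun p : Fin N → ℂ => p i) p := Continuous.continuousAt (by fun_prop)
    have h2 := cont_sum ty hτ hp (fun j => (1 - sg (e j)) * c i j)
    simp only [mul_assoc] at h2
    exact h1.add h2
  · simp only [sgI_mul ty c hi]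
    exact Continuous.continuousAt (by fun_prop)
  · simp only [sgI_ell ty c hi]
    exact Continuous.continuousAt (by fun_prop)

lemma cont_PT (hτ : 0 < τ.im) {p : Fin N → ℂ} (hp : Gd τ ty p) :
    ContinuousAt (PT τ ty c) p := by
  rw [continuousAt_pi]
  intro i
  cases hi : ty i
  · simp only [PT_add ty c hi]
    have h1 : ContinuousAt (fun p : Fin N → ℂ => p i) p := Continuous.continuousAt (by fun_prop)
    exact h1.add (cont_sum ty hτ hp (fun j => c i j))
  · simp only [PT_mul ty c hi]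
    exact Continuous.continuousAt (by fun_prop)
  · simp only [PT_ell ty c hi]
    exact (hasDerivAt_wp_z hτ (hp i hi)).continuousAt.comp (f := fun p : Fin N → ℂ => p i)
      (Continuous.continuousAt (by fun_prop))

/-- The good points where `G` does not vanish. -/
def US (τ : ℂ) (ty : Fin N → Ty) (c : Fin N → Fin N → ℂ) (G : MvPolynomial (Fin N) ℂ) :
    Set (Fin N → ℂ) := {p | Gd τ ty p ∧ eval (PT τ ty c p) G ≠ 0}

lemma isOpen_US (hτ : 0 < τ.im) (G : MvPolynomial (Fin N) ℂ) : IsOpen (US τ ty c G) := by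
  rw [isOpen_iff_mem_nhds]
  rintro p ⟨h1, h2⟩
  have h3 : ContinuousAt (fun p => eval (PT τ ty c p) G) p :=
    (MvPolynomial.continuous_eval G).continuousAt.comp (cont_PT ty c hτ h1)
  filter_upwards [(isOpen_Gd ty hτ).mem_nhds h1, h3.eventually_ne h2] with w h4 h5
  exact ⟨h4, h5⟩

lemma dense_US (hD : S_DenM) (hτ : 0 < τ.im) {G : MvPolynomial (Fin N) ℂ} (hG : G ≠ 0) :
    Dense (US τ ty c G) := by
  rw [dense_iff_inter_open]
  rintro U hU ⟨v, hv⟩
  obtain ⟨r, hr, hb⟩ := Metric.isOpen_iff.1 hU v hv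
  obtain ⟨p, h1, h2, h3⟩ := hD τ hτ N ty c G hG v r hr
  exact ⟨p, hb h1, h2, h3⟩

/-- The sign change followed by a translation. -/
noncomputable def Tm (τ : ℂ) (ty : Fin N → Ty) (c : Fin N → Fin N → ℂ) (e : Fin N → Bool)
    (h p : Fin N → ℂ) : Fin N → ℂ := fun i => sgI τ ty c e p i + h i

lemma cont_Tm (hτ : 0 < τ.im) (e : Fin N → Bool) (h : Fin N → ℂ) {p : Fin N → ℂ}
    (hp : Gd τ ty p) : ContinuousAt (Tm τ ty c e h) p := by
  have h1 := cont_sgI ty c hτ e hp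
  have h2 : ContinuousAt (fun p => sgI τ ty c e p + h) p := h1.add continuousAt_const
  exact h2

lemma isOpen_V (hτ : 0 < τ.im) (e : Fin N → Bool) (h : Fin N → ℂ) (G : MvPolynomial (Fin N) ℂ) :
    IsOpen {p | Gd τ ty p ∧ Tm τ ty c e h p ∈ US τ ty c G} := by
  rw [isOpen_iff_mem_nhds]
  rintro p ⟨h1, h2⟩
  filter_upwards [(isOpen_Gd ty hτ).mem_nhds h1,
    (cont_Tm ty c hτ e h h1).preimage_mem_nhds ((isOpen_US ty c hτ G).mem_nhds h2)] with w h4 h5
  exact ⟨h4, h5⟩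

lemma dense_V (hD : S_DenM) (hτ : 0 < τ.im) (e : Fin N → Bool) (h : Fin N → ℂ)
    {G : MvPolynomial (Fin N) ℂ} (hG : G ≠ 0) :
    Dense {p | Gd τ ty p ∧ Tm τ ty c e h p ∈ US τ ty c G} := by
  rw [dense_iff_inter_open]
  intro U hU hne
  obtain ⟨p₀, hp1, hp2, -⟩ := (dense_US ty c hD hτ (one_ne_zero)).inter_open_nonempty U hU hne
  have hS : ∀ q, Tm τ ty c e h (sgI τ ty c e (fun i => q i - h i)) = q := by
    intro q
    funext i
    rw [Tm, sgI_sgI]
    ring
  have hS' : sgI τ ty c e (fun i => Tm τ ty c e h p₀ i - h i) = p₀ := by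
    have h1 : (fun i => Tm τ ty c e h p₀ i - h i) = sgI τ ty c e p₀ := by
      funext i
      rw [Tm]
      ring
    rw [h1, sgI_sgI]
  have hc : ContinuousAt (fun q : Fin N → ℂ => sgI τ ty c e (fun i => q i - h i))
      (Tm τ ty c e h p₀) := by
    have h1 : Gd τ ty (fun i => Tm τ ty c e h p₀ i - h i) := by
      rw [← Gd_sgI ty c (e := e), hS']
      exact hp2
    exact (cont_sgI ty c hτ e h1).comp (f := fun q : Fin N → ℂ => (fun i => q i - h i))
      (Continuous.continuousAt (by fun_prop))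
  have hn : (fun q : Fin N → ℂ => sgI τ ty c e (fun i => q i - h i)) ⁻¹'
      (U ∩ {p | Gd τ ty p}) ∈ 𝓝 (Tm τ ty c e h p₀) := by
    refine hc.preimage_mem_nhds ?_
    rw [hS']
    exact (hU.inter (isOpen_Gd ty hτ)).mem_nhds ⟨hp1, hp2⟩
  obtain ⟨r, hr, hb⟩ := Metric.mem_nhds_iff.1 hn
  obtain ⟨q, hq1, hq2, hq3⟩ := hD τ hτ N ty c G hG _ r hr
  refine ⟨_, (hb hq1).1, (hb hq1).2, ?_⟩
  rw [hS q]
  exact ⟨hq2, hq3⟩

/-- Generic inner points. -/
lemma generic (hD : S_DenM) (hτ : 0 < τ.im) (h : Fin N → ℂ) {G G' : MvPolynomial (Fin N) ℂ}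
    (hG : G ≠ 0) (hG' : G' ≠ 0) : ∃ p, Gd τ ty p ∧ eval (PT τ ty c p) G' ≠ 0 ∧
      ∀ e, Gd τ ty (Tm τ ty c e h p) ∧ eval (PT τ ty c (Tm τ ty c e h p)) G ≠ 0 := by
  let s : Option (Fin N → Bool) → Set (Fin N → ℂ)
    | none => US τ ty c G'
    | some e => {p | Gd τ ty p ∧ Tm τ ty c e h p ∈ US τ ty c G}
  have h1 : ∀ o, IsOpen (s o) := by
    rintro (_ | e)
    · exact isOpen_US ty c hτ _
    · exact isOpen_V ty c hτ e h G
  have h2 : ∀ o, Dense (s o) := by
    rintro (_ | e)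
    · exact dense_US ty c hD hτ hG'
    · exact dense_V ty c hD hτ e h hG
  obtain ⟨p, -, hp⟩ := (dense_iInter_of_isOpen h1 h2).inter_open_nonempty Set.univ isOpen_univ
    Set.univ_nonempty
  rw [Set.mem_iInter] at hp
  exact ⟨p, (hp none).1, (hp none).2, fun e => (hp (some e)).2⟩

end inner

section outer

variable {τ : ℂ} {N : ℕ} {ty : Fin (N + 1) → Ty} (c : Fin (N + 1) → Fin (N + 1) → ℂ)

lemma Gd_cons (h0 : ty 0 ≠ Ty.ell) {ξ : ℂ} {p : Fin N → ℂ} :
    Gd τ ty (Fin.cons ξ p : Fin (N + 1) → ℂ) ↔ Gd τ (fun i : Fin N => ty i.succ) p := by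
  constructor
  · intro h j hj
    have h1 := h j.succ hj
    rwa [Fin.cons_succ] at h1
  · intro h j
    refine Fin.cases ?_ ?_ j
    · intro hj
      exact absurd hj h0
    · intro j hj
      rw [Fin.cons_succ]
      exact h j hj

lemma PT_succ (h0 : ty 0 ≠ Ty.ell) (ξ : ℂ) (p : Fin N → ℂ) (i : Fin N) :
    PT τ ty c (Fin.cons ξ p : Fin (N + 1) → ℂ) i.succ =
      PT τ (fun i : Fin N => ty i.succ) (fun i j => c i.succ j.succ) p i := by
  cases hi : ty i.succ
  · rw [PT_add ty c hi, PT_add (fun i : Fin N => ty i.succ) _ hi, Fin.sum_univ_succ, if_neg h0,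
      zero_add, Fin.cons_succ]
    simp only [Fin.cons_succ]
  · rw [PT_mul ty c hi, PT_mul (fun i : Fin N => ty i.succ) _ hi, Fin.cons_succ]
  · rw [PT_ell ty c hi, PT_ell (fun i : Fin N => ty i.succ) _ hi, Fin.cons_succ]

lemma PT_cons (h0 : ty 0 ≠ Ty.ell) (ξ : ℂ) (p : Fin N → ℂ) :
    PT τ ty c (Fin.cons ξ p : Fin (N + 1) → ℂ) =
      (Fin.cons (PT τ ty c (Fin.cons ξ p : Fin (N + 1) → ℂ) 0)
        (PT τ (fun i : Fin N => ty i.succ) (fun i j => c i.succ j.succ) p) : Fin (N + 1) → ℂ) := by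
  funext i
  refine Fin.cases ?_ ?_ i
  · rw [Fin.cons_zero]
  · intro i
    rw [Fin.cons_succ, PT_succ c h0]

lemma PT_zero_add (h : ty 0 = Ty.add) (ξ : ℂ) (p : Fin N → ℂ) :
    PT τ ty c (Fin.cons ξ p : Fin (N + 1) → ℂ) 0 =
      ξ + ∑ j : Fin N, (if ty j.succ = Ty.ell then c 0 j.succ * zt 1 τ (p j) else 0) := by
  rw [PT_add ty c h, Fin.sum_univ_succ, if_neg (by rw [h]; decide), zero_add, Fin.cons_zero]
  simp only [Fin.cons_succ]

lemma exp_fibre (w : ℂ) : {ξ : ℂ | Complex.exp ξ = w}.Countable := by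
  by_cases h : ∃ ξ, Complex.exp ξ = w
  · obtain ⟨ξ, hξ⟩ := h
    refine (Set.countable_range (fun n : ℤ => ξ + n * (2 * Real.pi * Complex.I))).mono ?_
    intro ζ hζ
    rw [Set.mem_ofPred_eq, ← hξ] at hζ
    obtain ⟨n, hn⟩ := Complex.exp_eq_exp_iff_exists_int.1 hζ
    exact ⟨n, hn.symm⟩
  · have h1 : {ξ : ℂ | Complex.exp ξ = w} = ∅ := by
      ext ξ
      simp only [Set.mem_ofPred_eq, Set.mem_empty_iff_false, iff_false]
      exact fun h2 => h ⟨ξ, h2⟩
    rw [h1]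
    exact Set.countable_empty

lemma fibre (h0 : ty 0 ≠ Ty.ell) (p : Fin N → ℂ) (w : ℂ) :
    {ξ : ℂ | PT τ ty c (Fin.cons ξ p : Fin (N + 1) → ℂ) 0 = w}.Countable := by
  cases h : ty 0
  · refine (Set.countable_singleton
      (w - ∑ j : Fin N, (if ty j.succ = Ty.ell then c 0 j.succ * zt 1 τ (p j) else 0))).mono ?_
    intro ξ hξ
    rw [Set.mem_ofPred_eq, PT_zero_add c h] at hξ
    rw [Set.mem_singleton_iff, ← hξ]
    ring
  · have h1 : {ξ : ℂ | PT τ ty c (Fin.cons ξ p : Fin (N + 1) → ℂ) 0 = w} =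
        {ξ : ℂ | Complex.exp ξ = w} := by
      ext ξ
      simp only [Set.mem_ofPred_eq]
      rw [PT_mul ty c h, Fin.cons_zero]
    rw [h1]
    exact exp_fibre w
  · exact absurd h h0

lemma fibre_finset (h0 : ty 0 ≠ Ty.ell) (p : Fin N → ℂ) (R : Finset ℂ) :
    {ξ : ℂ | PT τ ty c (Fin.cons ξ p : Fin (N + 1) → ℂ) 0 ∈ R}.Countable := by
  have h1 : {ξ : ℂ | PT τ ty c (Fin.cons ξ p : Fin (N + 1) → ℂ) 0 ∈ R} =
      ⋃ w ∈ R, {ξ : ℂ | PT τ ty c (Fin.cons ξ p : Fin (N + 1) → ℂ) 0 = w} := by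
    ext ξ
    simp
  rw [h1]
  exact R.countable_toSet.biUnion fun w _ => fibre c h0 p w

lemma surj (h0 : ty 0 ≠ Ty.ell) (p : Fin N → ℂ) {x : ℂ} (hx : ty 0 = Ty.mul → x ≠ 0) :
    ∃ ξ : ℂ, PT τ ty c (Fin.cons ξ p : Fin (N + 1) → ℂ) 0 = x := by
  cases h : ty 0
  · refine ⟨x - ∑ j : Fin N, (if ty j.succ = Ty.ell then c 0 j.succ * zt 1 τ (p j) else 0), ?_⟩
    rw [PT_zero_add c h]
    ring
  · refine ⟨Complex.log x, ?_⟩
    rw [PT_mul ty c h, Fin.cons_zero, Complex.exp_log (hx h)]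
  · exact absurd h h0

lemma sgI_cons (h0 : ty 0 ≠ Ty.ell) (e : Fin (N + 1) → Bool) (h p : Fin N → ℂ) :
    ∃ A : ℂ, ∀ ξ δ : ℂ,
      (fun i => sgI τ ty c e (Fin.cons ξ p : Fin (N + 1) → ℂ) i +
        (Fin.cons δ h : Fin (N + 1) → ℂ) i) =
      (Fin.cons (ξ + δ + A) (Tm τ (fun i : Fin N => ty i.succ) (fun i j => c i.succ j.succ)
        (fun i => e i.succ) h p) : Fin (N + 1) → ℂ) := by
  have hs : ∀ (ξ : ℂ) (i : Fin N), sgI τ ty c e (Fin.cons ξ p : Fin (N + 1) → ℂ) i.succ =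
      sgI τ (fun i : Fin N => ty i.succ) (fun i j => c i.succ j.succ) (fun i => e i.succ) p i := by
    intro ξ i
    cases hi : ty i.succ
    · rw [sgI_add ty c hi, sgI_add (fun i : Fin N => ty i.succ) _ hi, Fin.sum_univ_succ,
        if_neg h0, zero_add, Fin.cons_succ]
      simp only [Fin.cons_succ]
    · rw [sgI_mul ty c hi, sgI_mul (fun i : Fin N => ty i.succ) _ hi, Fin.cons_succ]
    · rw [sgI_ell ty c hi, sgI_ell (fun i : Fin N => ty i.succ) _ hi, Fin.cons_succ]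
  cases h1 : ty 0
  · refine ⟨∑ j : Fin N, (if ty j.succ = Ty.ell then
      (1 - sg (e j.succ)) * (c 0 j.succ * zt 1 τ (p j)) else 0), fun ξ δ => ?_⟩
    funext i
    refine Fin.cases ?_ ?_ i
    · rw [Fin.cons_zero, Fin.cons_zero, sgI_add ty c h1, Fin.sum_univ_succ, if_neg h0, zero_add,
        Fin.cons_zero]
      simp only [Fin.cons_succ]
      ring
    · intro i
      rw [Fin.cons_succ, Fin.cons_succ, hs ξ i, Tm]
  · refine ⟨0, fun ξ δ => ?_⟩
    funext i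
    refine Fin.cases ?_ ?_ i
    · rw [Fin.cons_zero, Fin.cons_zero, sgI_mul ty c h1, Fin.cons_zero]
      ring
    · intro i
      rw [Fin.cons_succ, Fin.cons_succ, hs ξ i, Tm]
  · exact absurd h1 h0

end outer

lemma coeff0 {N : ℕ} (F : MvPolynomial (Fin (N + 1)) ℂ) (y : Fin N → ℂ) :
    eval (Fin.cons (α := fun _ => ℂ) 0 y) F = eval y ((finSuccEquiv ℂ N F).coeff 0) := by
  rw [Gen.eval_cons, ← Polynomial.coeff_zero_eq_eval_zero, Polynomial.coeff_map]

lemma coeff0_ne {N : ℕ} {F : MvPolynomial (Fin (N + 1)) ℂ} (h : ¬ X 0 ∣ F) :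
    (finSuccEquiv ℂ N F).coeff 0 ≠ 0 := by
  intro h1
  apply h
  rw [← Polynomial.X_dvd_iff, ← finSuccEquiv_X_zero] at h1
  exact (map_dvd_iff (finSuccEquiv ℂ N)).1 h1

end I_CntM

open I_CntM in
theorem CntM_pf (h1 : S_DenM) : S_CntM := by
  intro τ hτ N ty c F h0 hF hX h
  -- the polynomial which must not vanish at the inner point
  obtain ⟨K, hK, hK'⟩ : ∃ K : MvPolynomial (Fin N) ℂ, K ≠ 0 ∧
      (ty 0 = Ty.mul → ∀ y, eval y K ≠ 0 → eval (Fin.cons (α := fun _ => ℂ) 0 y) F ≠ 0) := by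
    by_cases hm : ty 0 = Ty.mul
    · refine ⟨(finSuccEquiv ℂ N F).coeff 0, coeff0_ne (hX hm), fun _ y hy => ?_⟩
      rw [coeff0]
      exact hy
    · exact ⟨1, one_ne_zero, fun h2 => absurd h2 hm⟩
  obtain ⟨p, hp, hp1, hp2⟩ := generic (fun i : Fin N => ty i.succ) (fun i j => c i.succ j.succ)
    h1 hτ h (Gen.lc0_ne hF) (mul_ne_zero (Gen.lc0_ne hF) hK)
  rw [map_mul] at hp1
  have hx0 := left_ne_zero_of_mul hp1
  have hxK := right_ne_zero_of_mul hp1
  choose A hA using fun e : Fin (N + 1) → Bool => sgI_cons (τ := τ) c h0 e h p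
  let T : (Fin (N + 1) → Bool) → Fin N → ℂ := fun e =>
    Tm τ (fun i : Fin N => ty i.succ) (fun i j => c i.succ j.succ) (fun i => e i.succ) h p
  let R0 := Gen.rts F (PT τ (fun i : Fin N => ty i.succ) (fun i j => c i.succ j.succ) p)
  let R : (Fin (N + 1) → Bool) → Finset ℂ := fun e =>
    Gen.rts F (PT τ (fun i : Fin N => ty i.succ) (fun i j => c i.succ j.succ) (T e))
  refine ⟨⋃ ξ ∈ {ξ : ℂ | PT τ ty c (Fin.cons ξ p : Fin (N + 1) → ℂ) 0 ∈ R0},
    ⋃ e : Fin (N + 1) → Bool,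
      {δ : ℂ | PT τ ty c (Fin.cons (ξ + δ + A e) (T e) : Fin (N + 1) → ℂ) 0 ∈ R e}, ?_, ?_⟩
  · refine (fibre_finset c h0 p R0).biUnion fun ξ _ => Set.countable_iUnion fun e => ?_
    exact (fibre_finset c h0 (T e) (R e)).preimage (f := fun δ => ξ + δ + A e)
      (fun a b hab => by simpa using hab)
  · intro δ G g _ hg0 hgF hgG hTr
    obtain ⟨x, hx⟩ := Gen.exists_root hx0 hgF hg0
    have hF0 : eval (Fin.cons (α := fun _ => ℂ) x
        (PT τ (fun i : Fin N => ty i.succ) (fun i j => c i.succ j.succ) p)) F = 0 := by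
      obtain ⟨q, rfl⟩ := hgF
      rw [map_mul, hx, zero_mul]
    have hG0 : eval (Fin.cons (α := fun _ => ℂ) x
        (PT τ (fun i : Fin N => ty i.succ) (fun i j => c i.succ j.succ) p)) G = 0 := by
      obtain ⟨q, rfl⟩ := hgG
      rw [map_mul, hx, zero_mul]
    have hxm : ty 0 = Ty.mul → x ≠ 0 := by
      rintro hm rfl
      exact hK' hm _ hxK hF0
    obtain ⟨ξ, rfl⟩ := surj (τ := τ) c h0 p hxm
    rw [← PT_cons c h0] at hG0
    have hgp : Gd τ ty (Fin.cons ξ p : Fin (N + 1) → ℂ) := (Gd_cons h0).2 hp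
    have hplus : Gd τ ty (fun i => (Fin.cons ξ p : Fin (N + 1) → ℂ) i +
        (Fin.cons δ h : Fin (N + 1) → ℂ) i) := by
      intro j
      refine Fin.cases ?_ ?_ j
      · intro hj
        exact absurd hj h0
      · intro j hj
        have h2 := (hp2 fun _ => true).1 j hj
        rw [Tm, sgI_ell (fun i : Fin N => ty i.succ) _ hj] at h2
        simpa [sg] using h2
    have hminus : Gd τ ty (fun i => (Fin.cons ξ p : Fin (N + 1) → ℂ) i -
        (Fin.cons δ h : Fin (N + 1) → ℂ) i) := by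
      intro j
      refine Fin.cases ?_ ?_ j
      · intro hj
        exact absurd hj h0
      · intro j hj
        have h2 := (hp2 fun _ => false).1 j hj
        rw [Tm, sgI_ell (fun i : Fin N => ty i.succ) _ hj] at h2
        have h3 : sg false * p j + h j = -(p j - h j) := by
          simp [sg]
          ring
        rw [h3, neg_mem_Lam] at h2
        simpa using h2
    obtain ⟨e, he⟩ := hTr _ hgp hplus hminus hG0
    rw [hA e ξ δ, PT_cons c h0] at he
    simp only [Set.mem_iUnion]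
    refine ⟨ξ, ?_, e, ?_⟩
    · exact (Gen.mem_rts hx0).2 hF0
    · exact (Gen.mem_rts (hp2 fun i => e i.succ).2).2 he

end Pool.Agent.Work.MP_8da9ea_nt.MX
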