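import Pool.Agent.Work.MP_8da9ea_nt.MX.StmtsT
import Pool.Agent.Work.MP_8da9ea_nt.EB.I_CoefE
import Pool.Agent.Work.MP_8da9ea_nt.EB.I_PhiT
import Pool.Agent.Work.MP_8da9ea_nt.EB.I_FText

/-!
# Mixed block, item CoefM (T10): a zero close to the origin forces a high order of vanishing
-/

set_option autoImplicit false

namespace Pool.Agent.Work.MP_8da9ea_nt.MX

open MvPolynomial Metric Filter Topology Pool.Agent.Work.MP_327059_nt.GL
  Pool.Agent.Work.MP_8da9ea_nt.S Pool.Agent.Work.MP_8da9ea_nt.EB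

namespace I_CoefM

/-! ## The functions -/

/-- `w² X(μ w)`. -/
noncomputable def phi (τ μ : ℂ) (w : ℂ) : ℂ := if w = 0 then 1 else w ^ 2 * xe τ μ (μ * w)

/-- `w Z(μ w)`. -/
noncomputable def chi (τ μ : ℂ) (w : ℂ) : ℂ := if w = 0 then 1 else w * ze τ μ (μ * w)

theorem phi_eq {τ μ : ℂ} (hτ : 0 < τ.im) (hμ : μ ≠ 0) (w : ℂ) :
    phi τ μ w = 1 + μ ^ 2 * w ^ 2 * wpE {0} τ (μ * w) := by
  unfold phi
  split_ifs with h
  · rw [h]
    ring
  · rw [xe, wp_eq_E hτ]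
    field_simp

theorem chi_eq {τ μ : ℂ} (hτ : 0 < τ.im) (hμ : μ ≠ 0) (w : ℂ) :
    chi τ μ w = 1 + μ * w * ztE {0} τ (μ * w) := by
  unfold chi
  split_ifs with h
  · rw [h]
    ring
  · rw [ze, zt_eq_E hτ]
    field_simp

theorem ztE_zero (τ : ℂ) : ztE {0} τ 0 = 0 := by
  unfold ztE
  rw [tsum_congr (g := fun _ => 0), tsum_zero]
  intro q
  by_cases h : q ∈ ({0} : Set (ℤ × ℤ))
  · rw [exc_mem h]
  · rw [exc_not_mem h]
    simp only [ztT]
    rw [zero_sub, zero_div, add_zero, one_div, one_div, inv_neg, neg_add_cancel]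

theorem chi_deriv {τ μ : ℂ} (hτ : 0 < τ.im) (hμ : μ ≠ 0) :
    ∀ᶠ w in 𝓝 (0 : ℂ), HasDerivAt (chi τ μ)
      (μ * ztE {0} τ (μ * w) + μ * w * (-wpE {0} τ (μ * w) * μ)) w := by
  have h1 : Tendsto (fun w : ℂ => μ * w) (𝓝 0) (𝓝 0) := by
    have : ContinuousAt (fun w : ℂ => μ * w) 0 := by fun_prop
    simpa [ContinuousAt] using this
  filter_upwards [h1.eventually (eventually_ne_lp hτ)] with w hw
  have h2 := hasDerivAt_ztE hτ hw
  have h3 : HasDerivAt (fun w : ℂ => μ * w) μ w := by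
    simpa using (hasDerivAt_id w).const_mul μ
  have h4 : HasDerivAt (fun w => ztE {0} τ (μ * w)) (-wpE {0} τ (μ * w) * μ) w :=
    HasDerivAt.comp w h2 h3
  have h5 := (h3.mul h4).const_add 1
  have h6 : chi τ μ = fun w => 1 + μ * w * ztE {0} τ (μ * w) := by
    funext w
    exact chi_eq hτ hμ w
  rw [h6]
  exact h5

theorem chi_an {τ μ : ℂ} (hτ : 0 < τ.im) (hμ : μ ≠ 0) : AnalyticAt ℂ (chi τ μ) 0 := by
  rw [Complex.analyticAt_iff_eventually_differentiableAt]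
  filter_upwards [chi_deriv hτ hμ] with w hw
  exact hw.differentiableAt

theorem chi_ode {τ μ : ℂ} (hτ : 0 < τ.im) (hμ : μ ≠ 0) :
    ∀ᶠ w in 𝓝 (0 : ℂ), chi τ μ w - w * deriv (chi τ μ) w = phi τ μ w := by
  filter_upwards [chi_deriv hτ hμ] with w hw
  rw [hw.deriv, chi_eq hτ hμ, phi_eq hτ hμ]
  ring

theorem chi_d0 {τ μ : ℂ} (hτ : 0 < τ.im) (hμ : μ ≠ 0) : deriv (chi τ μ) 0 = 0 := by
  have h := (chi_deriv hτ hμ).self_of_nhds
  rw [h.deriv, mul_zero, ztE_zero]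
  ring

/-- The power series of `χ`. -/
theorem chi_ps {τ μ : ℂ} (hτ : 0 < τ.im) (hμ : μ ≠ 0) (c : ℕ → ℂ) (r : ℝ) (hr : 0 < r)
    (h : ∀ w : ℂ, ‖w‖ < r → HasSum (fun k => c k * w ^ k) (phi τ μ w)) :
    ∃ (d : ℕ → ℂ) (s : ℝ), 0 < s ∧ (∀ w : ℂ, ‖w‖ < s → HasSum (fun k => d k * w ^ k) (chi τ μ w)) ∧
      d 0 = 1 ∧ d 1 = 0 ∧ ∀ k : ℕ, c k = (1 - (k : ℂ)) * d k := by
  have h1 : ∀ᶠ w in 𝓝 (0 : ℂ), DifferentiableAt ℂ (chi τ μ) w := by
    filter_upwards [chi_deriv hτ hμ] with w hw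
    exact hw.differentiableAt
  obtain ⟨s, hs, hb⟩ := Metric.eventually_nhds_iff_ball.1 (h1.and (chi_ode hτ hμ))
  have hd : DifferentiableOn ℂ (chi τ μ) (ball 0 s) := fun w hw =>
    (hb w hw).1.differentiableWithinAt
  have hd' : DifferentiableOn ℂ (deriv (chi τ μ)) (ball 0 s) := hd.deriv isOpen_ball
  set d : ℕ → ℂ := fun k => ((k.factorial : ℕ) : ℂ)⁻¹ * iteratedDeriv k (chi τ μ) 0 with hdd
  have hS : ∀ w : ℂ, ‖w‖ < s → HasSum (fun k => d k * w ^ k) (chi τ μ w) := by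
    intro w hw
    have h2 := Complex.hasSum_taylorSeries_on_ball hd (z := w) (by rwa [mem_ball_zero_iff])
    have e : (fun n : ℕ => ((n.factorial : ℕ) : ℂ)⁻¹ • (w - 0) ^ n •
        iteratedDeriv n (chi τ μ) 0) = fun k => d k * w ^ k := by
      funext n
      simp only [hdd, smul_eq_mul, sub_zero]
      ring
    rw [e] at h2
    exact h2
  have hS' : ∀ w : ℂ, ‖w‖ < s →
      HasSum (fun k : ℕ => (k : ℂ) * d k * w ^ k) (w * deriv (chi τ μ) w) := by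
    intro w hw
    have h2 := Complex.hasSum_taylorSeries_on_ball hd' (z := w) (by rwa [mem_ball_zero_iff])
    have h3 := h2.mul_left w
    refine (hasSum_nat_add_iff' (f := fun k : ℕ => (k : ℂ) * d k * w ^ k)
      (g := w * deriv (chi τ μ) w) 1).1 ?_
    have e : (fun n : ℕ => w * (((n.factorial : ℕ) : ℂ)⁻¹ • (w - 0) ^ n •
        iteratedDeriv n (deriv (chi τ μ)) 0)) =
          fun n : ℕ => ((n + 1 : ℕ) : ℂ) * d (n + 1) * w ^ (n + 1) := by
      funext n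
      simp only [hdd, smul_eq_mul, sub_zero]
      rw [← iteratedDeriv_succ', Nat.factorial_succ]
      have e1 : ((n.factorial : ℕ) : ℂ) ≠ 0 := by
        exact_mod_cast Nat.factorial_ne_zero n
      have e2 : ((n + 1 : ℕ) : ℂ) ≠ 0 := by
        exact_mod_cast Nat.succ_ne_zero n
      push_cast at e2 ⊢
      field_simp
      ring
    rw [e] at h3
    simpa using h3
  refine ⟨d, s, hs, hS, ?_, ?_, ?_⟩
  · simp [hdd, chi]
  · simp only [hdd]
    rw [iteratedDeriv_one, chi_d0 hτ hμ, mul_zero]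
  · intro k
    have p1 : I_PhiT.PS (PowerSeries.mk c) (phi τ μ) :=
      ⟨r, hr, fun w _ hw => by
        simp only [PowerSeries.coeff_mk]
        exact h w hw⟩
    have p2 : I_PhiT.PS (PowerSeries.mk fun k : ℕ => (1 - (k : ℂ)) * d k) (phi τ μ) := by
      refine ⟨s, hs, fun w _ hw => ?_⟩
      have e := (hb w (by rwa [mem_ball_zero_iff])).2
      rw [← e]
      have e2 := (hS w hw).sub (hS' w hw)
      simp only [PowerSeries.coeff_mk]
      have e3 : (fun k : ℕ => (1 - (k : ℂ)) * d k * w ^ k) =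
          fun k : ℕ => d k * w ^ k - (k : ℂ) * d k * w ^ k := by
        funext k
        ring
      rw [e3]
      exact e2
    have := congrArg (PowerSeries.coeff k) (p1.unique p2)
    simpa using this

/-! ## Functions with power series given by integer polynomials -/

/-- `F` has a power series whose first coefficients are given by integer polynomials in `g`. -/
structure Kd (K M : ℕ) (g : Fin 2 → ℂ) (F : ℂ → ℂ) (ψ : ℕ → MvPolynomial (Fin 2) ℤ) : Prop where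
  hd : ∀ k, k ≤ K → (ψ k).totalDegree ≤ k
  hl : ∀ k, k ≤ K → len (ψ k) ≤ (M : ℝ) ^ k
  hp : ∃ (c : ℕ → ℂ) (r : ℝ), 0 < r ∧
    (∀ w : ℂ, ‖w‖ < r → HasSum (fun k => c k * w ^ k) (F w)) ∧
    ∀ k, k ≤ K → (M : ℂ) ^ k * c k = aeval g (ψ k)

theorem len_C {σ : Type} (a : ℕ) : len (C (a : ℤ) : MvPolynomial σ ℤ) ≤ (a : ℝ) := by
  have h := Val_len_C (σ := σ) (a : ℤ)
  rwa [Int.cast_natCast, abs_of_nonneg (by positivity)] at h

theorem kd_id (K M : ℕ) (g : Fin 2 → ℂ) :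
    Kd K M g (fun w => w) (fun k => if k = 1 then C (M : ℤ) else 0) := by
  refine ⟨?_, ?_, ?_⟩
  · intro k _
    split_ifs
    · rw [totalDegree_C]
      exact Nat.zero_le _
    · rw [totalDegree_zero]
      exact Nat.zero_le _
  · intro k _
    split_ifs with h
    · rw [h, pow_one]
      exact len_C M
    · rw [I_PhiT.len_zero']
      positivity
  · refine ⟨fun k => if k = 1 then 1 else 0, 1, one_pos, ?_, ?_⟩
    · intro w _
      have h := hasSum_single (f := fun k : ℕ => (if k = 1 then (1 : ℂ) else 0) * w ^ k) 1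
        (fun k hk => by rw [if_neg hk, zero_mul])
      simpa using h
    · intro k _
      dsimp only
      split_ifs with h
      · rw [h, aeval_C]
        simp
      · simp

theorem kd_exp (K M : ℕ) (hM : ∀ k, k ≤ K → k.factorial ∣ M ^ k) (g : Fin 2 → ℂ) :
    Kd K M g Complex.exp (fun k => C (((M ^ k / k.factorial : ℕ)) : ℤ)) := by
  refine ⟨?_, ?_, ?_⟩
  · intro k _
    rw [totalDegree_C]
    exact Nat.zero_le _
  · intro k _
    refine (len_C _).trans ?_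
    have h : M ^ k / k.factorial ≤ M ^ k := Nat.div_le_self _ _
    exact_mod_cast h
  · refine ⟨fun k => ((k.factorial : ℕ) : ℂ)⁻¹, 1, one_pos, ?_, ?_⟩
    · intro w _
      have h := NormedSpace.expSeries_div_hasSum_exp w
      rw [← Complex.exp_eq_exp_ℂ] at h
      have e : (fun k : ℕ => ((k.factorial : ℕ) : ℂ)⁻¹ * w ^ k) =
          fun k : ℕ => w ^ k / ((k.factorial : ℕ) : ℂ) := by
        funext k
        rw [div_eq_inv_mul]
      rw [e]
      exact h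
    · intro k hk
      rw [aeval_C]
      obtain ⟨q, hq⟩ := hM k hk
      have e1 : ((k.factorial : ℕ) : ℂ) ≠ 0 := by
        exact_mod_cast Nat.factorial_ne_zero k
      rw [hq, Nat.mul_div_cancel_left _ (Nat.factorial_pos k)]
      have e2 : (M : ℂ) ^ k = ((k.factorial : ℕ) : ℂ) * (q : ℂ) := by exact_mod_cast hq
      rw [e2]
      simp only [algebraMap_int_eq, Int.cast_natCast, eq_intCast]
      field_simp

theorem kd_phi (K M a : ℕ) (g : Fin 2 → ℂ) (F : ℂ → ℂ) (ψ : ℕ → MvPolynomial (Fin 2) ℤ)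
    (h : Kd K M g F ψ) : Kd K (M * a) g F (fun k => C ((a ^ k : ℕ) : ℤ) * ψ k) := by
  obtain ⟨hd, hl, c, r, hr, hs, hc⟩ := h
  refine ⟨?_, ?_, c, r, hr, hs, ?_⟩
  · intro k hk
    refine (totalDegree_mul _ _).trans ?_
    rw [totalDegree_C, zero_add]
    exact hd k hk
  · intro k hk
    refine (Val_len_mul _ _).trans ?_
    have h1 := len_C (σ := Fin 2) (a ^ k)
    calc _ ≤ ((a ^ k : ℕ) : ℝ) * (M : ℝ) ^ k :=
          mul_le_mul h1 (hl k hk) (Val_len_nonneg _) (by positivity)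
      _ = _ := by
        push_cast
        ring
  · intro k hk
    rw [map_mul, ← hc k hk, aeval_C]
    simp only [algebraMap_int_eq, eq_intCast]
    push_cast
    ring

theorem kd_chi {τ μ : ℂ} (hτ : 0 < τ.im) (hμ : μ ≠ 0) (K M a : ℕ) (g : Fin 2 → ℂ)
    (ψ : ℕ → MvPolynomial (Fin 2) ℤ) (h : Kd K M g (phi τ μ) ψ) (hM : 1 ≤ M) (ha1 : 1 ≤ a)
    (ha : ∀ k, 2 ≤ k → k ≤ K → (k - 1) ∣ a ^ k) :
    Kd K (M * a) g (chi τ μ) (fun k => if k = 0 then 1 else if k = 1 then 0 else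
      C (-((a ^ k / (k - 1) : ℕ) : ℤ)) * ψ k) := by
  obtain ⟨hd, hl, c, r, hr, hs, hc⟩ := h
  obtain ⟨d, s, hs0, hs1, d0, d1, hcd⟩ := chi_ps hτ hμ c r hr hs
  refine ⟨?_, ?_, d, s, hs0, hs1, ?_⟩
  · intro k hk
    split_ifs
    · rw [totalDegree_one]
      exact Nat.zero_le _
    · rw [totalDegree_zero]
      exact Nat.zero_le _
    · refine (totalDegree_mul _ _).trans ?_
      rw [totalDegree_C, zero_add]
      exact hd k hk
  · intro k hk
    split_ifs with h0 h1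
    · rw [h0, pow_zero]
      exact Val_len_one
    · rw [I_PhiT.len_zero']
      positivity
    · refine (Val_len_mul _ _).trans ?_
      have h2 := Val_len_C (σ := Fin 2) (-((a ^ k / (k - 1) : ℕ) : ℤ))
      rw [Int.cast_neg, abs_neg, Int.cast_natCast, abs_of_nonneg (by positivity)] at h2
      have h3 : ((a ^ k / (k - 1) : ℕ) : ℝ) ≤ (a : ℝ) ^ k := by
        have : a ^ k / (k - 1) ≤ a ^ k := Nat.div_le_self _ _
        exact_mod_cast this
      calc _ ≤ (a : ℝ) ^ k * (M : ℝ) ^ k :=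
            mul_le_mul (h2.trans h3) (hl k hk) (Val_len_nonneg _) (by positivity)
        _ = _ := by
          push_cast
          ring
  · intro k hk
    split_ifs with h0 h1
    · rw [h0, d0]
      simp
    · rw [h1, d1]
      simp
    · have hk2 : 2 ≤ k := by omega
      obtain ⟨q, hq⟩ := ha k hk2 hk
      have hk1 : 0 < k - 1 := by omega
      rw [map_mul, ← hc k hk, hcd k, aeval_C, hq, Nat.mul_div_cancel_left _ hk1]
      have e2 : (a : ℂ) ^ k = ((k : ℂ) - 1) * (q : ℂ) := by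
        have e3 : ((a ^ k : ℕ) : ℂ) = (((k - 1) * q : ℕ) : ℂ) := by exact_mod_cast hq
        rw [Nat.cast_mul, Nat.cast_sub (by omega)] at e3
        simpa using e3
      simp only [algebraMap_int_eq, eq_intCast]
      push_cast
      rw [mul_pow, e2]
      ring

/-- The data for all functions. -/
theorem kd_all {τ μ : ℂ} (hτ : 0 < τ.im) (hμ : μ ≠ 0) (K : ℕ) :
    ∃ M : ℕ, 1 ≤ M ∧ M ≤ (2 * K + 3).factorial ^ 3 ∧
      (∃ ψ, Kd K M ![μ ^ 4 * gg2 τ, μ ^ 6 * gg3 τ] (fun w => w) ψ) ∧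
      (∃ ψ, Kd K M ![μ ^ 4 * gg2 τ, μ ^ 6 * gg3 τ] Complex.exp ψ) ∧
      (∃ ψ, Kd K M ![μ ^ 4 * gg2 τ, μ ^ 6 * gg3 τ] (phi τ μ) ψ) ∧
      ∃ ψ, Kd K M ![μ ^ 4 * gg2 τ, μ ^ 6 * gg3 τ] (chi τ μ) ψ := by
  obtain ⟨M, ψ, c, r, hM1, hM2, hψd, hψl, hr, hs, hc⟩ :=
    EB.I_CoefE.phi_data PhiT_pf τ μ hτ hμ K
  have hk : Kd K M ![μ ^ 4 * gg2 τ, μ ^ 6 * gg3 τ] (phi τ μ) ψ :=
    ⟨hψd, hψl, c, r, hr, hs, hc⟩
  have hf : 1 ≤ K.factorial := Nat.factorial_pos K
  have hpow : ∀ k, 1 ≤ k → K.factorial ∣ K.factorial ^ k := fun k hk =>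
    dvd_pow_self _ (by omega)
  refine ⟨M * K.factorial, Nat.one_le_iff_ne_zero.2 (Nat.mul_ne_zero (by omega) (by omega)), ?_,
    ⟨_, kd_id K _ _⟩, ⟨_, kd_exp K _ ?_ _⟩, ⟨_, kd_phi K M _ _ _ ψ hk⟩,
    ⟨_, kd_chi hτ hμ K M _ _ ψ hk hM1 hf ?_⟩⟩
  · have h1 : K.factorial ≤ (2 * K + 3).factorial := Nat.factorial_le (by omega)
    calc M * K.factorial ≤ (2 * K + 3).factorial ^ 2 * (2 * K + 3).factorial :=
          Nat.mul_le_mul hM2 h1
      _ = _ := by ring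
  · intro k hk
    rcases Nat.eq_zero_or_pos k with rfl | hk0
    · simp
    · rw [mul_pow]
      exact Dvd.dvd.mul_left ((Nat.factorial_dvd_factorial hk).trans (hpow k hk0)) _
  · intro k hk2 hk
    exact (Nat.dvd_factorial (by omega) (by omega)).trans (hpow k (by omega))

/-! ## Taylor polynomials given by integer polynomials -/

/-- The variables. -/
abbrev Sg (σ : Type) : Type := σ ⊕ Fin 2

section

variable {σ : Type}

/-- The point `(t b, g)`. -/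
noncomputable def pt (b : σ → ℂ) (g : Fin 2 → ℂ) (t : ℂ) : Sg σ → ℂ :=
  Sum.elim (fun j => t * b j) g

/-- `f` equals the polynomial `Φ` up to order `K`. -/
def Ta (K : ℕ) (b : σ → ℂ) (g : Fin 2 → ℂ) (f : ℂ → ℂ)
    (Φ : MvPolynomial (Sg σ) ℤ) : Prop :=
  ∃ e : ℂ → ℂ, AnalyticAt ℂ e 0 ∧ ∀ᶠ t in 𝓝 (0 : ℂ),
    f t = aeval (pt b g t) Φ + t ^ (K + 1) * e t

theorem pt_an (b : σ → ℂ) (g : Fin 2 → ℂ) (Φ : MvPolynomial (Sg σ) ℤ) :
    AnalyticAt ℂ (fun t => aeval (pt b g t) Φ) 0 := by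
  refine AnalyticAt.aeval_mvPolynomial (fun i => ?_) Φ
  rcases i with j | j
  · simp only [pt, Sum.elim_inl]
    fun_prop
  · simp only [pt, Sum.elim_inr]
    fun_prop

theorem Ta_self (K : ℕ) (b : σ → ℂ) (g : Fin 2 → ℂ) (Φ : MvPolynomial (Sg σ) ℤ)
    (f : ℂ → ℂ) (h : ∀ t, f t = aeval (pt b g t) Φ) : Ta K b g f Φ :=
  ⟨fun _ => 0, analyticAt_const, Eventually.of_forall fun t => by rw [h t]; simp⟩

theorem Ta_add {K : ℕ} {b : σ → ℂ} {g : Fin 2 → ℂ} {f₁ f₂ : ℂ → ℂ}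
    {Φ₁ Φ₂ : MvPolynomial (Sg σ) ℤ} (h1 : Ta K b g f₁ Φ₁) (h2 : Ta K b g f₂ Φ₂) :
    Ta K b g (fun t => f₁ t + f₂ t) (Φ₁ + Φ₂) := by
  obtain ⟨e1, a1, h1⟩ := h1
  obtain ⟨e2, a2, h2⟩ := h2
  refine ⟨fun t => e1 t + e2 t, a1.add a2, ?_⟩
  filter_upwards [h1, h2] with t ht1 ht2
  rw [ht1, ht2, map_add]
  ring

theorem Ta_mul {K : ℕ} {b : σ → ℂ} {g : Fin 2 → ℂ} {f₁ f₂ : ℂ → ℂ}
    {Φ₁ Φ₂ : MvPolynomial (Sg σ) ℤ} (h1 : Ta K b g f₁ Φ₁) (h2 : Ta K b g f₂ Φ₂) :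
    Ta K b g (fun t => f₁ t * f₂ t) (Φ₁ * Φ₂) := by
  obtain ⟨e1, a1, h1⟩ := h1
  obtain ⟨e2, a2, h2⟩ := h2
  refine ⟨fun t => aeval (pt b g t) Φ₁ * e2 t + aeval (pt b g t) Φ₂ * e1 t +
    t ^ (K + 1) * e1 t * e2 t, ?_, ?_⟩
  · have p1 := pt_an b g Φ₁
    have p2 := pt_an b g Φ₂
    fun_prop
  filter_upwards [h1, h2] with t ht1 ht2
  rw [ht1, ht2, map_mul]
  ring

theorem Ta_prod {K : ℕ} {b : σ → ℂ} {g : Fin 2 → ℂ} {κ : Type} (s : Finset κ)
    (f : κ → ℂ → ℂ) (Φ : κ → MvPolynomial (Sg σ) ℤ) (h : ∀ i ∈ s, Ta K b g (f i) (Φ i)) :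
    Ta K b g (fun t => ∏ i ∈ s, f i t) (∏ i ∈ s, Φ i) := by
  classical
  induction s using Finset.induction_on with
  | empty =>
    simp only [Finset.prod_empty]
    exact Ta_self _ _ _ _ _ fun t => by simp
  | insert i s hi ih =>
    simp only [Finset.prod_insert hi]
    exact Ta_mul (h i (Finset.mem_insert_self _ _))
      (ih fun j hj => h j (Finset.mem_insert_of_mem hj))

theorem Ta_sum {K : ℕ} {b : σ → ℂ} {g : Fin 2 → ℂ} {κ : Type} (s : Finset κ)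
    (f : κ → ℂ → ℂ) (Φ : κ → MvPolynomial (Sg σ) ℤ) (h : ∀ i ∈ s, Ta K b g (f i) (Φ i)) :
    Ta K b g (fun t => ∑ i ∈ s, f i t) (∑ i ∈ s, Φ i) := by
  classical
  induction s using Finset.induction_on with
  | empty =>
    simp only [Finset.sum_empty]
    exact Ta_self _ _ _ _ _ fun t => by simp
  | insert i s hi ih =>
    simp only [Finset.sum_insert hi]
    exact Ta_add (h i (Finset.mem_insert_self _ _))
      (ih fun j hj => h j (Finset.mem_insert_of_mem hj))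

theorem Ta_pow {K : ℕ} {b : σ → ℂ} {g : Fin 2 → ℂ} {f : ℂ → ℂ}
    {Φ : MvPolynomial (Sg σ) ℤ} (h : Ta K b g f Φ) (k : ℕ) :
    Ta K b g (fun t => f t ^ k) (Φ ^ k) := by
  have h1 := Ta_prod (Finset.range k) (fun _ => f) (fun _ => Φ) (fun _ _ => h)
  simpa using h1

end

section

variable {σ : Type} [Fintype σ]

/-! ## Weights -/

/-- The degree in the first variables. -/
def wt (d : Sg σ →₀ ℕ) : ℕ := ∑ j, d (Sum.inl j)

/-- The component of weight `k`. -/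
noncomputable def cp (k : ℕ) (Φ : MvPolynomial (Sg σ) ℤ) : MvPolynomial (Sg σ) ℤ :=
  ∑ d ∈ Φ.support.filter (fun d => wt d = k), monomial d (Φ.coeff d)

theorem cp_eval (b : σ → ℂ) (g : Fin 2 → ℂ) (t : ℂ) (Φ : MvPolynomial (Sg σ) ℤ)
    (k : ℕ) : aeval (pt b g t) (cp k Φ) = t ^ k * aeval (pt b g 1) (cp k Φ) := by
  unfold cp
  rw [map_sum, map_sum, Finset.mul_sum]
  refine Finset.sum_congr rfl fun d hd => ?_
  have hk := (Finset.mem_filter.1 hd).2
  rw [aeval_monomial, aeval_monomial, Finsupp.prod_fintype _ _ (fun _ => pow_zero _),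
    Finsupp.prod_fintype _ _ (fun _ => pow_zero _), Fintype.prod_sum_type, Fintype.prod_sum_type]
  simp only [pt, Sum.elim_inl, Sum.elim_inr, one_mul, mul_pow, Finset.prod_mul_distrib]
  rw [Finset.prod_pow_eq_pow_sum]
  unfold wt at hk
  rw [hk]
  ring

theorem wt_le {Φ : MvPolynomial (Sg σ) ℤ} {d : Sg σ →₀ ℕ} (hd : d ∈ Φ.support) :
    wt d ≤ Φ.totalDegree := by
  have h1 := le_totalDegree hd
  refine le_trans ?_ h1
  rw [Finsupp.sum_fintype _ _ (fun _ => rfl), Fintype.sum_sum_type]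
  unfold wt
  exact Nat.le_add_right _ _

theorem cp_sum (Φ : MvPolynomial (Sg σ) ℤ) (N : ℕ) (hN : Φ.totalDegree ≤ N) :
    Φ = ∑ k ∈ Finset.range (N + 1), cp k Φ := by
  classical
  unfold cp
  conv_lhs => rw [Φ.as_sum]
  rw [← Finset.sum_fiberwise_of_maps_to (s := Φ.support) (t := Finset.range (N + 1)) (g := wt)]
  intro d hd
  rw [Finset.mem_range]
  have := wt_le hd
  omega

theorem cp_len (k : ℕ) (Φ : MvPolynomial (Sg σ) ℤ) : len (cp k Φ) ≤ len Φ := by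
  unfold cp
  refine (Val_len_sum _ _).trans ?_
  refine (Finset.sum_le_sum fun d _ => Val_len_monomial d _).trans ?_
  unfold len
  exact Finset.sum_le_sum_of_subset_of_nonneg (Finset.filter_subset _ _)
    fun _ _ _ => abs_nonneg _

theorem cp_deg (k : ℕ) (Φ : MvPolynomial (Sg σ) ℤ) :
    (cp k Φ).totalDegree ≤ Φ.totalDegree := by
  unfold cp
  refine totalDegree_finsetSum_le fun d hd => ?_
  refine (totalDegree_monomial_le _ _).trans ?_
  exact le_totalDegree (Finset.mem_filter.1 hd).1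

/-- First alternative: all components of weight at most `K` vanish. -/
theorem Ta_all {K : ℕ} {b : σ → ℂ} {g : Fin 2 → ℂ} {f : ℂ → ℂ}
    {Φ : MvPolynomial (Sg σ) ℤ} (h : Ta K b g f Φ)
    (h0 : ∀ k ≤ K, aeval (pt b g 1) (cp k Φ) = 0) :
    ∃ e : ℂ → ℂ, AnalyticAt ℂ e 0 ∧ ∀ᶠ t in 𝓝 (0 : ℂ), f t = t ^ (K + 1) * e t := by
  obtain ⟨e, he, hf⟩ := h
  set N := max K Φ.totalDegree with hN
  refine ⟨fun t => (∑ k ∈ Finset.Ico (K + 1) (N + 1), t ^ (k - (K + 1)) *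
    aeval (pt b g 1) (cp k Φ)) + e t, ?_, ?_⟩
  · refine AnalyticAt.add ?_ he
    refine Finset.analyticAt_fun_sum _ fun k _ => ?_
    fun_prop
  filter_upwards [hf] with t ht
  rw [ht, mul_add]
  congr 1
  conv_lhs => rw [cp_sum Φ N (le_max_right _ _)]
  rw [map_sum, Finset.mul_sum, ← Finset.sum_range_add_sum_Ico _ (show K + 1 ≤ N + 1 by omega),
    Finset.sum_eq_zero, zero_add]
  · refine Finset.sum_congr rfl fun k hk => ?_
    rw [cp_eval, ← mul_assoc, ← pow_add]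
    congr 2
    have := (Finset.mem_Ico.1 hk).1
    omega
  · intro k hk
    rw [cp_eval, h0 k (by
      have := Finset.mem_range.1 hk
      omega), mul_zero]

/-- Second alternative: the first non-zero component. -/
theorem Ta_first {K : ℕ} {b : σ → ℂ} {g : Fin 2 → ℂ} {f : ℂ → ℂ}
    {Φ : MvPolynomial (Sg σ) ℤ} (h : Ta K b g f Φ) (k₀ : ℕ) (hk₀ : k₀ ≤ K)
    (h0 : ∀ k < k₀, aeval (pt b g 1) (cp k Φ) = 0) :
    ∃ e : ℂ → ℂ, AnalyticAt ℂ e 0 ∧ ∀ᶠ t in 𝓝 (0 : ℂ),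
      f t = t ^ k₀ * (aeval (pt b g 1) (cp k₀ Φ) + t * e t) := by
  obtain ⟨e, he, hf⟩ := h
  set N := max K Φ.totalDegree with hN
  refine ⟨fun t => (∑ k ∈ Finset.Ico (k₀ + 1) (N + 1), t ^ (k - (k₀ + 1)) *
    aeval (pt b g 1) (cp k Φ)) + t ^ (K - k₀) * e t, ?_, ?_⟩
  · refine AnalyticAt.add ?_ (by fun_prop)
    refine Finset.analyticAt_fun_sum _ fun k _ => ?_
    fun_prop
  filter_upwards [hf] with t ht
  have h1 : aeval (pt b g t) Φ = t ^ k₀ * aeval (pt b g 1) (cp k₀ Φ) +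
      ∑ k ∈ Finset.Ico (k₀ + 1) (N + 1), t ^ k * aeval (pt b g 1) (cp k Φ) := by
    conv_lhs => rw [cp_sum Φ N (le_max_right _ _)]
    rw [map_sum, ← Finset.sum_range_add_sum_Ico _ (show k₀ + 1 ≤ N + 1 by omega),
      Finset.sum_range_succ, Finset.sum_eq_zero, zero_add, cp_eval]
    · congr 1
      exact Finset.sum_congr rfl fun k _ => cp_eval _ _ _ _ _
    · intro k hk
      rw [cp_eval, h0 k (Finset.mem_range.1 hk), mul_zero]
  rw [ht, h1, mul_add, mul_add, mul_add, Finset.mul_sum, Finset.mul_sum, add_assoc]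
  congr 1
  congr 1
  · refine Finset.sum_congr rfl fun k hk => ?_
    have hk' := (Finset.mem_Ico.1 hk).1
    rw [← mul_assoc, ← mul_assoc, ← pow_succ, ← pow_add]
    congr 2
    omega
  · rw [← mul_assoc, ← mul_assoc, ← pow_succ, ← pow_add]
    congr 2
    omega


end

section

variable {σ : Type} [Fintype σ]

/-! ## The polynomials -/

/-- The polynomial of `F(M b_j t)`. -/
noncomputable def Th (K : ℕ) (ψ : ℕ → MvPolynomial (Fin 2) ℤ) (j : σ) :
    MvPolynomial (Sg σ) ℤ :=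
  ∑ i ∈ Finset.range (K + 1), rename Sum.inr (ψ i) * X (Sum.inl j) ^ i

/-- The polynomial of a monomial. -/
noncomputable def Mo (M K : ℕ) (ψ : σ → ℕ → MvPolynomial (Fin 2) ℤ) (E : (σ →₀ ℕ) → σ → ℕ)
    (d : σ →₀ ℕ) : MvPolynomial (Sg σ) ℤ :=
  ∏ j, ((C (M : ℤ) * X (Sum.inl j)) ^ (E d j) * Th K (ψ j) j ^ d j)

/-- The polynomial of the function. -/
noncomputable def Ph (M K : ℕ) (ψ : σ → ℕ → MvPolynomial (Fin 2) ℤ) (E : (σ →₀ ℕ) → σ → ℕ)
    (R : MvPolynomial σ ℤ) : MvPolynomial (Sg σ) ℤ :=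
  ∑ d ∈ R.support, C (R.coeff d) * Mo M K ψ E d

/-- The function. -/
noncomputable def GG (F : σ → ℂ → ℂ) (M : ℕ) (E : (σ →₀ ℕ) → σ → ℕ) (b : σ → ℂ)
    (R : MvPolynomial σ ℤ) (t : ℂ) : ℂ :=
  ∑ d ∈ R.support, ((R.coeff d : ℤ) : ℂ) *
    ∏ j, ((((M : ℂ) * (t * b j)) ^ (E d j)) * F j ((M : ℂ) * (t * b j)) ^ d j)

omit [Fintype σ] in
theorem Ta_Th (K M : ℕ) (ψ : ℕ → MvPolynomial (Fin 2) ℤ) (b : σ → ℂ) (g : Fin 2 → ℂ)
    (F : ℂ → ℂ) (h : Kd K M g F ψ) (j : σ) :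
    Ta K b g (fun t => F ((M : ℂ) * (t * b j))) (Th K ψ j) := by
  obtain ⟨-, -, c, r, hr, h, hc⟩ := h
  obtain ⟨e, he, hf⟩ := EB.I_CoefE.ps_rem c F r hr h K
  have he0 : AnalyticAt ℂ e ((M : ℂ) * (0 * b j)) := by
    rw [zero_mul, mul_zero]
    exact he.analyticAt (ball_mem_nhds _ (by positivity))
  refine ⟨fun t => ((M : ℂ) * b j) ^ (K + 1) * e ((M : ℂ) * (t * b j)), ?_, ?_⟩
  · refine analyticAt_const.mul ?_
    exact he0.comp (f := fun t : ℂ => (M : ℂ) * (t * b j)) (by fun_prop)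
  have hcont : Continuous (fun t : ℂ => (M : ℂ) * (t * b j)) := by fun_prop
  have hev : ∀ᶠ t in 𝓝 (0 : ℂ), (M : ℂ) * (t * b j) ∈ ball (0 : ℂ) (r / 2) := by
    refine hcont.continuousAt.eventually (isOpen_ball.mem_nhds ?_)
    simp only [zero_mul, mul_zero]
    exact mem_ball_self (by positivity)
  filter_upwards [hev] with t ht
  rw [hf _ ht]
  congr 1
  · unfold Th
    rw [map_sum]
    refine Finset.sum_congr rfl fun i hi => ?_
    have hi' : i ≤ K := by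
      have := Finset.mem_range.1 hi
      omega
    rw [map_mul, map_pow, aeval_X, aeval_rename]
    have e1 : (pt b g t ∘ Sum.inr : Fin 2 → ℂ) = g := by
      funext q
      simp [pt]
    rw [e1, ← hc i hi']
    simp only [pt, Sum.elim_inl]
    ring
  · ring

theorem Ta_GG (K M : ℕ) (ψ : σ → ℕ → MvPolynomial (Fin 2) ℤ) (E : (σ →₀ ℕ) → σ → ℕ)
    (b : σ → ℂ) (g : Fin 2 → ℂ) (F : σ → ℂ → ℂ) (h : ∀ j, Kd K M g (F j) (ψ j))
    (R : MvPolynomial σ ℤ) : Ta K b g (GG F M E b R) (Ph M K ψ E R) := by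
  unfold Ph
  refine Ta_sum _ (fun d t => ((R.coeff d : ℤ) : ℂ) *
    ∏ j, ((((M : ℂ) * (t * b j)) ^ (E d j)) * F j ((M : ℂ) * (t * b j)) ^ d j)) _
    fun d _ => ?_
  refine Ta_mul (f₁ := fun _ => ((R.coeff d : ℤ) : ℂ)) (Ta_self _ _ _ _ _ fun t => by simp) ?_
  unfold Mo
  refine Ta_prod _ (fun j t => (((M : ℂ) * (t * b j)) ^ (E d j)) *
    F j ((M : ℂ) * (t * b j)) ^ d j) _ fun j _ => ?_
  refine Ta_mul (f₁ := fun t => ((M : ℂ) * (t * b j)) ^ (E d j))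
    (Ta_self _ _ _ _ _ fun t => ?_) (Ta_pow (Ta_Th K M (ψ j) b g (F j) (h j) j) _)
  rw [map_pow, map_mul, aeval_X]
  simp [pt]

/-! ## Sizes of the polynomials -/

theorem len_ren {σ ρ : Type} (f : σ → ρ) (P : MvPolynomial σ ℤ) : len (rename f P) ≤ len P := by
  classical
  conv_lhs => rw [P.as_sum, map_sum]
  refine (Val_len_sum _ _).trans ?_
  unfold len
  refine Finset.sum_le_sum fun d _ => ?_
  rw [rename_monomial]
  exact Val_len_monomial _ _

omit [Fintype σ] in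
theorem Th_len (K M : ℕ) (hM : 1 ≤ M) (ψ : ℕ → MvPolynomial (Fin 2) ℤ)
    (h : ∀ k, k ≤ K → len (ψ k) ≤ (M : ℝ) ^ k) (j : σ) :
    len (Th K ψ j) ≤ ((K : ℝ) + 1) * (M : ℝ) ^ K := by
  have hM' : (1 : ℝ) ≤ M := by exact_mod_cast hM
  unfold Th
  refine (Val_len_sum _ _).trans ?_
  have : ∀ i ∈ Finset.range (K + 1),
      len (rename Sum.inr (ψ i) * X (Sum.inl j) ^ i : MvPolynomial (Sg σ) ℤ) ≤ (M : ℝ) ^ K := by
    intro i hi
    have hi' : i ≤ K := by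
      have := Finset.mem_range.1 hi
      omega
    refine (Val_len_mul _ _).trans ?_
    have h1 : len (X (Sum.inl j) ^ i : MvPolynomial (Sg σ) ℤ) ≤ 1 := by
      refine (Val_len_pow _ _).trans ?_
      exact pow_le_one₀ (Val_len_nonneg _) (Val_len_X _)
    calc len (rename Sum.inr (ψ i) : MvPolynomial (Sg σ) ℤ) *
          len (X (Sum.inl j) ^ i : MvPolynomial (Sg σ) ℤ) ≤ (M : ℝ) ^ i * 1 :=
          mul_le_mul ((len_ren _ _).trans (h i hi')) h1 (Val_len_nonneg _) (by positivity)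
      _ ≤ (M : ℝ) ^ K := by
        rw [mul_one]
        exact pow_le_pow_right₀ hM' hi'
  refine (Finset.sum_le_sum this).trans ?_
  rw [Finset.sum_const, Finset.card_range, nsmul_eq_mul]
  push_cast
  exact le_rfl

omit [Fintype σ] in
theorem Th_deg (K : ℕ) (ψ : ℕ → MvPolynomial (Fin 2) ℤ)
    (h : ∀ k, k ≤ K → (ψ k).totalDegree ≤ k) (j : σ) :
    (Th K ψ j).totalDegree ≤ 2 * K := by
  unfold Th
  refine totalDegree_finsetSum_le fun i hi => ?_
  have hi' : i ≤ K := by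
    have := Finset.mem_range.1 hi
    omega
  refine (totalDegree_mul _ _).trans ?_
  have h1 := (totalDegree_rename_le Sum.inr (ψ i) : (rename Sum.inr (ψ i) :
    MvPolynomial (Sg σ) ℤ).totalDegree ≤ _)
  have h2 := h i hi'
  have h3 : (X (Sum.inl j) ^ i : MvPolynomial (Sg σ) ℤ).totalDegree ≤ i := by
    refine (totalDegree_pow _ _).trans ?_
    rw [totalDegree_X, mul_one]
  omega

theorem Mo_len (M D K E₀ : ℕ) (hM : 1 ≤ M) (ψ : σ → ℕ → MvPolynomial (Fin 2) ℤ)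
    (h : ∀ j k, k ≤ K → len (ψ j k) ≤ (M : ℝ) ^ k) (E : (σ →₀ ℕ) → σ → ℕ) (d : σ →₀ ℕ)
    (hE : ∀ j, E d j ≤ E₀) (hd : ∀ j, d j ≤ D) :
    len (Mo M K ψ E d) ≤
      ((M : ℝ) ^ E₀ * (((K : ℝ) + 1) * (M : ℝ) ^ K) ^ D) ^ Fintype.card σ := by
  have hM' : (1 : ℝ) ≤ M := by exact_mod_cast hM
  unfold Mo
  refine (Val_len_prod _ _).trans ?_
  have h1 : ∀ j ∈ (Finset.univ : Finset σ),
      len ((C (M : ℤ) * X (Sum.inl j)) ^ (E d j) * Th K (ψ j) j ^ d j :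
        MvPolynomial (Sg σ) ℤ) ≤ (M : ℝ) ^ E₀ * (((K : ℝ) + 1) * (M : ℝ) ^ K) ^ D := by
    intro j _
    refine (Val_len_mul _ _).trans ?_
    refine mul_le_mul ?_ ?_ (Val_len_nonneg _) (by positivity)
    · refine (Val_len_pow _ _).trans ?_
      have a1 : len (C (M : ℤ) * X (Sum.inl j) : MvPolynomial (Sg σ) ℤ) ≤ M := by
        refine (Val_len_mul _ _).trans ?_
        have a2 := len_C (σ := Sg σ) M
        have a3 := Val_len_X (σ := Sg σ) (Sum.inl j)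
        calc _ ≤ (M : ℝ) * 1 := mul_le_mul a2 a3 (Val_len_nonneg _) (by positivity)
          _ = M := mul_one _
      refine (pow_le_pow_left₀ (Val_len_nonneg _) a1 _).trans ?_
      exact pow_le_pow_right₀ hM' (hE j)
    · refine (Val_len_pow _ _).trans ?_
      refine (pow_le_pow_left₀ (Val_len_nonneg _) (Th_len K M hM (ψ j) (h j) j) _).trans ?_
      refine pow_le_pow_right₀ ?_ (hd j)
      have b1 : (1 : ℝ) ≤ (M : ℝ) ^ K := one_le_pow₀ hM'
      have b2 : (1 : ℝ) ≤ (K : ℝ) + 1 := by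
        have : (0 : ℝ) ≤ K := Nat.cast_nonneg K
        linarith
      calc (1 : ℝ) = 1 * 1 := (one_mul _).symm
        _ ≤ ((K : ℝ) + 1) * (M : ℝ) ^ K := mul_le_mul b2 b1 zero_le_one (by positivity)
  refine (Finset.prod_le_prod (fun _ _ => Val_len_nonneg _) h1).trans ?_
  rw [Finset.prod_const, Finset.card_univ]

theorem Mo_deg (M D K E₀ : ℕ) (ψ : σ → ℕ → MvPolynomial (Fin 2) ℤ)
    (h : ∀ j k, k ≤ K → (ψ j k).totalDegree ≤ k) (E : (σ →₀ ℕ) → σ → ℕ) (d : σ →₀ ℕ)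
    (hE : ∀ j, E d j ≤ E₀) (hd : ∀ j, d j ≤ D) :
    (Mo M K ψ E d).totalDegree ≤ Fintype.card σ * (E₀ + D * (2 * K)) := by
  unfold Mo
  refine (totalDegree_finsetProd _ _).trans ?_
  have h1 : ∀ j ∈ (Finset.univ : Finset σ),
      ((C (M : ℤ) * X (Sum.inl j)) ^ (E d j) * Th K (ψ j) j ^ d j :
        MvPolynomial (Sg σ) ℤ).totalDegree ≤ E₀ + D * (2 * K) := by
    intro j _
    refine (totalDegree_mul _ _).trans ?_
    refine Nat.add_le_add ?_ ?_
    · refine (totalDegree_pow _ _).trans ?_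
      have a1 : (C (M : ℤ) * X (Sum.inl j) : MvPolynomial (Sg σ) ℤ).totalDegree ≤ 1 := by
        refine (totalDegree_mul _ _).trans ?_
        rw [totalDegree_C, zero_add, totalDegree_X]
      calc E d j * _ ≤ E d j * 1 := Nat.mul_le_mul_left _ a1
        _ ≤ E₀ := by
          rw [mul_one]
          exact hE j
    · refine (totalDegree_pow _ _).trans ?_
      exact Nat.mul_le_mul (hd j) (Th_deg K (ψ j) (h j) j)
  refine (Finset.sum_le_sum h1).trans ?_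
  rw [Finset.sum_const, Finset.card_univ, smul_eq_mul]

theorem supp_card (D : ℕ) (R : MvPolynomial σ ℤ)
    (hR : ∀ d ∈ R.support, ∀ j, d j ≤ D) : R.support.card ≤ (D + 1) ^ Fintype.card σ := by
  classical
  have h1 : R.support.card ≤ (Finset.univ : Finset (σ → Fin (D + 1))).card := by
    refine Finset.card_le_card_of_injOn
      (fun d j => ⟨min (d j) D, Nat.lt_succ_of_le (min_le_right _ _)⟩) (fun _ _ => by simp) ?_
    intro d hd d' hd' he
    ext j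
    have h2 := congrFun he j
    rw [Fin.mk.injEq, min_eq_left (hR d hd j), min_eq_left (hR d' hd' j)] at h2
    exact h2
  rw [Finset.card_univ, Fintype.card_fun, Fintype.card_fin] at h1
  exact h1

theorem Ph_len (M D K E₀ : ℕ) (hM : 1 ≤ M) (ψ : σ → ℕ → MvPolynomial (Fin 2) ℤ)
    (h : ∀ j k, k ≤ K → len (ψ j k) ≤ (M : ℝ) ^ k) (E : (σ →₀ ℕ) → σ → ℕ)
    (hE : ∀ d j, E d j ≤ E₀) (R : MvPolynomial σ ℤ) (H : ℝ)
    (hR : ∀ d ∈ R.support, ∀ j, d j ≤ D) (hH : ∀ d, |((R.coeff d : ℤ) : ℝ)| ≤ Real.exp H) :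
    len (Ph M K ψ E R) ≤ ((D : ℝ) + 1) ^ Fintype.card σ * (Real.exp H *
      ((M : ℝ) ^ E₀ * (((K : ℝ) + 1) * (M : ℝ) ^ K) ^ D) ^ Fintype.card σ) := by
  unfold Ph
  refine (Val_len_sum _ _).trans ?_
  have h1 : ∀ d ∈ R.support, len (C (R.coeff d) * Mo M K ψ E d) ≤ Real.exp H *
      ((M : ℝ) ^ E₀ * (((K : ℝ) + 1) * (M : ℝ) ^ K) ^ D) ^ Fintype.card σ := by
    intro d hd
    refine (Val_len_mul _ _).trans ?_
    exact mul_le_mul ((Val_len_C _).trans (hH d)) (Mo_len M D K E₀ hM ψ h E d (hE d) (hR d hd))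
      (Val_len_nonneg _) (Real.exp_pos _).le
  refine (Finset.sum_le_sum h1).trans ?_
  rw [Finset.sum_const, nsmul_eq_mul]
  have h2 : ((R.support.card : ℕ) : ℝ) ≤ ((D : ℝ) + 1) ^ Fintype.card σ := by
    exact_mod_cast supp_card D R hR
  refine mul_le_mul_of_nonneg_right h2 ?_
  positivity

theorem Ph_deg (M D K E₀ : ℕ) (ψ : σ → ℕ → MvPolynomial (Fin 2) ℤ)
    (h : ∀ j k, k ≤ K → (ψ j k).totalDegree ≤ k) (E : (σ →₀ ℕ) → σ → ℕ)
    (hE : ∀ d j, E d j ≤ E₀) (R : MvPolynomial σ ℤ) (hR : ∀ d ∈ R.support, ∀ j, d j ≤ D) :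
    (Ph M K ψ E R).totalDegree ≤ Fintype.card σ * (E₀ + D * (2 * K)) := by
  unfold Ph
  refine totalDegree_finsetSum_le fun d hd => ?_
  refine (totalDegree_mul _ _).trans ?_
  rw [totalDegree_C, zero_add]
  exact Mo_deg M D K E₀ ψ h E d (hE d) (hR d hd)

/-! ## The function -/

theorem GG_diff (F : σ → ℂ → ℂ) (r : ℝ) (hF : ∀ j, DifferentiableOn ℂ (F j) (ball 0 r)) (M : ℕ)
    (E : (σ →₀ ℕ) → σ → ℕ) (b : σ → ℂ) (R : MvPolynomial σ ℤ) (ρ : ℝ)
    (hρ : ∀ t ∈ ball (0 : ℂ) ρ, ∀ j, (M : ℂ) * (t * b j) ∈ ball (0 : ℂ) r) :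
    DifferentiableOn ℂ (GG F M E b R) (ball 0 ρ) := by
  unfold GG
  refine DifferentiableOn.fun_sum fun d _ => ?_
  refine (differentiableOn_const _).mul ?_
  refine DifferentiableOn.fun_finsetProd fun j _ => ?_
  refine DifferentiableOn.mul (by fun_prop) (DifferentiableOn.pow ?_ _)
  exact (hF j).comp (g := F j) (f := fun t : ℂ => (M : ℂ) * (t * b j)) (by fun_prop)
    fun t ht => hρ t ht j

theorem GG_bound (F : σ → ℂ → ℂ) (B₁ : ℝ) (hB₁ : 1 ≤ B₁) (M D : ℕ)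
    (E : (σ →₀ ℕ) → σ → ℕ) (b : σ → ℂ) (R : MvPolynomial σ ℤ) (H : ℝ)
    (hR : ∀ d ∈ R.support, ∀ j, d j ≤ D) (hH : ∀ d, |((R.coeff d : ℤ) : ℝ)| ≤ Real.exp H) (t : ℂ)
    (h1 : ∀ j, ‖(M : ℂ) * (t * b j)‖ ≤ 1) (h2 : ∀ j, ‖F j ((M : ℂ) * (t * b j))‖ ≤ B₁) :
    ‖GG F M E b R t‖ ≤
      ((D : ℝ) + 1) ^ Fintype.card σ * (Real.exp H * (B₁ ^ D) ^ Fintype.card σ) := by
  unfold GG
  refine (norm_sum_le _ _).trans ?_
  have h3 : ∀ d ∈ R.support, ‖((R.coeff d : ℤ) : ℂ) *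
      ∏ j, ((((M : ℂ) * (t * b j)) ^ (E d j)) * F j ((M : ℂ) * (t * b j)) ^ d j)‖ ≤
      Real.exp H * (B₁ ^ D) ^ Fintype.card σ := by
    intro d hd
    rw [norm_mul, Complex.norm_intCast, norm_prod]
    refine mul_le_mul (hH d) ?_ (Finset.prod_nonneg fun _ _ => norm_nonneg _) (Real.exp_pos _).le
    have h4 : ∀ j ∈ (Finset.univ : Finset σ),
        ‖(((M : ℂ) * (t * b j)) ^ (E d j)) * F j ((M : ℂ) * (t * b j)) ^ d j‖ ≤ B₁ ^ D := by
      intro j _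
      rw [norm_mul, norm_pow, norm_pow]
      calc _ ≤ 1 * B₁ ^ d j := mul_le_mul (pow_le_one₀ (norm_nonneg _) (h1 j))
            (pow_le_pow_left₀ (norm_nonneg _) (h2 j) _) (by positivity) zero_le_one
        _ ≤ B₁ ^ D := by
          rw [one_mul]
          exact pow_le_pow_right₀ hB₁ (hR d hd j)
    refine (Finset.prod_le_prod (fun _ _ => norm_nonneg _) h4).trans ?_
    rw [Finset.prod_const, Finset.card_univ]
  refine (Finset.sum_le_sum h3).trans ?_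
  rw [Finset.sum_const, nsmul_eq_mul]
  have h5 : ((R.support.card : ℕ) : ℝ) ≤ ((D : ℝ) + 1) ^ Fintype.card σ := by
    exact_mod_cast supp_card D R hR
  refine mul_le_mul_of_nonneg_right h5 ?_
  positivity

end

/-! ## The full family -/

section

variable {ι : Type} [Fintype ι]

/-- The numbers `β`. -/
noncomputable def fβ (μ : ℂ) (ty : ι → Ty) (b : ι → ℂ) : fI ty → ℂ :=
  Sum.elim (fun _ => 1) (Sum.elim (fun j => b j.1) (fun q => b q.1.1 / μ))

/-- The functions. -/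
noncomputable def fF (τ μ : ℂ) (ty : ι → Ty) : fI ty → ℂ → ℂ :=
  Sum.elim (fun _ w => w) (Sum.elim (fun _ w => Complex.exp w)
    (fun q => if q.2 then phi τ μ else chi τ μ))

/-- The exponents. -/
noncomputable def fE (ty : ι → Ty) (N D : ℕ) (d : fI ty →₀ ℕ) : fI ty → ℕ :=
  Sum.elim (fun _ => 0) (Sum.elim (fun _ => 0) (fun q => if q.2 then
    2 * (N * D) - (2 * d (Sum.inr (Sum.inr (q.1, true))) +
      d (Sum.inr (Sum.inr (q.1, false)))) else 0))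

theorem fE_le (ty : ι → Ty) (N D : ℕ) (d : fI ty →₀ ℕ) (j : fI ty) :
    fE ty N D d j ≤ 2 * (N * D) := by
  rcases j with u | j | ⟨q, e⟩
  · exact Nat.zero_le _
  · exact Nat.zero_le _
  · cases e
    · exact Nat.zero_le _
    · exact Nat.sub_le _ _

theorem prodF (ty : ι → Ty) (f : fI ty → ℂ) : ∏ j, f j = f (Sum.inl ()) *
    ((∏ q, f (Sum.inr (Sum.inl q))) *
      ∏ q, (f (Sum.inr (Sum.inr (q, true))) * f (Sum.inr (Sum.inr (q, false))))) := by
  rw [Fintype.prod_sum_type, Fintype.prod_sum_type, Fintype.prod_prod_type]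
  simp only [Fintype.prod_bool, Finset.univ_unique, Finset.prod_singleton]

theorem prodE (ty : ι → Ty) (f : fI ty → ℂ) : ∏ j, (if fty ty j = Ty.ell then f j else 1) =
    ∏ q, f (Sum.inr (Sum.inr (q, true))) := by
  rw [prodF]
  simp [fty]

theorem prod4 {κ : Type} [Fintype κ] (A B C D : κ → ℂ) (h : ∀ q, A q * B q = C q * D q) :
    (∏ q, A q) * ∏ q, B q = (∏ q, C q) * ∏ q, D q := by
  rw [← Finset.prod_mul_distrib, ← Finset.prod_mul_distrib]
  exact Finset.prod_congr rfl fun q _ => h q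

theorem PN_u (τ μ : ℂ) (ty : ι → Ty) (b : ι → ℂ) (z : ℂ) (u : Unit) :
    PN τ μ (fty ty) (fc ty) (fun j => fb ty b j * z) (Sum.inl u) = z := by
  unfold PN
  simp [fty, fb, fc]

theorem PN_m (τ μ : ℂ) (ty : ι → Ty) (b : ι → ℂ) (z : ℂ) (q : {j : ι // ty j = Ty.mul}) :
    PN τ μ (fty ty) (fc ty) (fun j => fb ty b j * z) (Sum.inr (Sum.inl q)) =
      Complex.exp (b q * z) := by
  unfold PN
  simp [fty, fb]

theorem PN_t (τ μ : ℂ) (ty : ι → Ty) (b : ι → ℂ) (z : ℂ) (q : {j : ι // ty j = Ty.ell}) :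
    PN τ μ (fty ty) (fc ty) (fun j => fb ty b j * z) (Sum.inr (Sum.inr (q, true))) =
      xe τ μ (b q * z) := by
  unfold PN
  simp [fty, fb]

theorem PN_f (τ μ : ℂ) (ty : ι → Ty) (b : ι → ℂ) (z : ℂ) (q : {j : ι // ty j = Ty.ell}) :
    PN τ μ (fty ty) (fc ty) (fun j => fb ty b j * z) (Sum.inr (Sum.inr (q, false))) =
      ze τ μ (b q * z) := by
  classical
  have h : ∑ j, (if fty ty j = Ty.ell then fc ty (Sum.inr (Sum.inr (q, false))) j *
      ze τ μ (fb ty b j * z) else 0) = ze τ μ (b q * z) := by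
    rw [Finset.sum_eq_single (Sum.inr (Sum.inr (q, true)))]
    · simp [fty, fb, fc]
    · rintro (u | j | ⟨j, e⟩) _ hne
      · simp [fty]
      · simp [fty]
      · cases e
        · simp [fty]
        · have h1 : q ≠ j := by
            intro h
            exact hne (by rw [h])
          simp [fty, fc, h1]
    · intro h
      exact absurd (Finset.mem_univ _) h
  unfold PN
  simp only [fty, Sum.elim_inr] at h ⊢
  rw [← h]
  simp [fb]

theorem card_fI (ty : ι → Ty) (q : {j : ι // ty j = Ty.ell}) : 3 ≤ Fintype.card (fI ty) := by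
  have h : 0 < Fintype.card {j : ι // ty j = Ty.ell} := Fintype.card_pos_iff.2 ⟨q⟩
  rw [Fintype.card_sum, Fintype.card_sum, Fintype.card_prod, Fintype.card_bool, Fintype.card_unit]
  omega

theorem key {τ μ : ℂ} (hμ : μ ≠ 0) (x : ℂ) (hx : x ≠ 0) (n p q : ℕ) (h : 2 * p + q ≤ n) :
    x ^ n * (xe τ μ x ^ p * ze τ μ x ^ q) =
      μ ^ n * (((x / μ) ^ (n - (2 * p + q)) * phi τ μ (x / μ) ^ p) *
        ((x / μ) ^ 0 * chi τ μ (x / μ) ^ q)) := by
  have h1 : x / μ ≠ 0 := div_ne_zero hx hμ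
  have h2 : μ * (x / μ) = x := by
    field_simp
  unfold phi chi
  rw [if_neg h1, if_neg h1, h2]
  generalize xe τ μ x = X
  generalize ze τ μ x = Z
  generalize x / μ = w at h2 h1
  rw [← h2, mul_pow μ w, mul_pow (w ^ 2) X, mul_pow w Z, pow_zero]
  have e : w ^ n = w ^ (n - (2 * p + q)) * ((w ^ 2) ^ p * w ^ q) := by
    rw [← pow_mul, ← pow_add, ← pow_add]
    congr 1
    omega
  rw [e]
  ring

theorem GG_rel {τ μ : ℂ} (hμ : μ ≠ 0) (ty : ι → Ty) (b : ι → ℂ)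
    (hb : ∀ j, ty j = Ty.ell → b j ≠ 0) (M D : ℕ) (hM : 1 ≤ M) (R : MvPolynomial (fI ty) ℤ)
    (hR : ∀ d ∈ R.support, ∀ j, d j ≤ D) (z : ℂ) (hz : z ≠ 0) :
    (∏ j, (if fty ty j = Ty.ell then
        (fb ty b j * z) ^ (2 * (Fintype.card (fI ty) * D)) else 1)) *
      aeval (PN τ μ (fty ty) (fc ty) (fun j => fb ty b j * z)) R =
    (∏ j, (if fty ty j = Ty.ell then μ ^ (2 * (Fintype.card (fI ty) * D)) else 1)) *
      GG (fF τ μ ty) M (fE ty (Fintype.card (fI ty)) D) (fβ μ ty b) R (z / M) := by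
  have hM' : (M : ℂ) ≠ 0 := by
    have : M ≠ 0 := by omega
    exact_mod_cast this
  unfold GG
  rw [aeval_def, eval₂_eq', Finset.mul_sum, Finset.mul_sum]
  refine Finset.sum_congr rfl fun d hd => ?_
  have e1 : ((algebraMap ℤ ℂ) (coeff d R) : ℂ) = ((R.coeff d : ℤ) : ℂ) := rfl
  rw [e1, prodE, prodE, prodF, prodF, PN_u]
  simp only [PN_m, PN_t, PN_f]
  have w0 : ∀ x : ℂ, (M : ℂ) * (z / M * x) = x * z := by
    intro x
    field_simp
  have f0 : (((M : ℂ) * (z / M * fβ μ ty b (Sum.inl ()))) ^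
      fE ty (Fintype.card (fI ty)) D d (Sum.inl ()) * fF τ μ ty (Sum.inl ())
        ((M : ℂ) * (z / M * fβ μ ty b (Sum.inl ()))) ^ d (Sum.inl ())) = z ^ d (Sum.inl ()) := by
    rw [w0]
    simp [fβ, fE, fF]
  have f1 : ∀ q : {j : ι // ty j = Ty.mul},
      (((M : ℂ) * (z / M * fβ μ ty b (Sum.inr (Sum.inl q)))) ^
      fE ty (Fintype.card (fI ty)) D d (Sum.inr (Sum.inl q)) * fF τ μ ty (Sum.inr (Sum.inl q))
        ((M : ℂ) * (z / M * fβ μ ty b (Sum.inr (Sum.inl q)))) ^ d (Sum.inr (Sum.inl q))) =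
        Complex.exp (b q * z) ^ d (Sum.inr (Sum.inl q)) := by
    intro q
    rw [w0]
    simp [fβ, fE, fF]
  have f2 : ∀ q : {j : ι // ty j = Ty.ell},
      (b q * z) ^ (2 * (Fintype.card (fI ty) * D)) *
        (xe τ μ (b q * z) ^ d (Sum.inr (Sum.inr (q, true))) *
          ze τ μ (b q * z) ^ d (Sum.inr (Sum.inr (q, false)))) =
      μ ^ (2 * (Fintype.card (fI ty) * D)) *
        ((((M : ℂ) * (z / M * fβ μ ty b (Sum.inr (Sum.inr (q, true))))) ^
      fE ty (Fintype.card (fI ty)) D d (Sum.inr (Sum.inr (q, true))) *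
        fF τ μ ty (Sum.inr (Sum.inr (q, true)))
        ((M : ℂ) * (z / M * fβ μ ty b (Sum.inr (Sum.inr (q, true))))) ^
          d (Sum.inr (Sum.inr (q, true)))) *
        (((M : ℂ) * (z / M * fβ μ ty b (Sum.inr (Sum.inr (q, false))))) ^
      fE ty (Fintype.card (fI ty)) D d (Sum.inr (Sum.inr (q, false))) *
        fF τ μ ty (Sum.inr (Sum.inr (q, false)))
        ((M : ℂ) * (z / M * fβ μ ty b (Sum.inr (Sum.inr (q, false))))) ^
          d (Sum.inr (Sum.inr (q, false))))) := by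
    intro q
    rw [w0, w0]
    have w1 : b q / μ * z = b q * z / μ := by
      field_simp
    have h3 := card_fI ty q
    have h4 := hR d hd (Sum.inr (Sum.inr (q, true)))
    have h5 := hR d hd (Sum.inr (Sum.inr (q, false)))
    have h6 : 3 * D ≤ Fintype.card (fI ty) * D := Nat.mul_le_mul_right _ h3
    have h7 := key (τ := τ) hμ (b q * z) (mul_ne_zero (hb q q.2) hz)
      (2 * (Fintype.card (fI ty) * D)) (d (Sum.inr (Sum.inr (q, true))))
      (d (Sum.inr (Sum.inr (q, false)))) (by omega)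
    rw [h7]
    simp only [fβ, fE, fF, Sum.elim_inr, w1, if_true, Bool.false_eq_true, if_false]
  rw [f0]
  simp only [f1]
  have f3 := prod4 _ _ _ _ f2
  simp only [fb, Sum.elim_inr, if_true]
  linear_combination (((R.coeff d : ℤ) : ℂ) * z ^ d (Sum.inl ()) *
    ∏ q : {j : ι // ty j = Ty.mul}, Complex.exp (b q * z) ^ d (Sum.inr (Sum.inl q))) * f3

end

/-! ## Numerical estimates -/

theorem M_le (K M : ℕ) (hM : M ≤ (2 * K + 3).factorial ^ 3) :
    (M : ℝ) ≤ Real.exp (3 * (2 * (K : ℝ) + 3) ^ 2) := by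
  have h1 : (M : ℝ) ≤ (((2 * K + 3).factorial : ℕ) : ℝ) ^ 3 := by exact_mod_cast hM
  have h2 : (((2 * K + 3).factorial : ℕ) : ℝ) ≤ Real.exp ((2 * (K : ℝ) + 3) ^ 2) := by
    have f1 : (2 * K + 3).factorial ≤ (2 * K + 3) ^ (2 * K + 3) := Nat.factorial_le_pow _
    have f2 : (((2 * K + 3).factorial : ℕ) : ℝ) ≤ (2 * (K : ℝ) + 3) ^ (2 * K + 3) := by
      exact_mod_cast f1
    refine f2.trans ?_
    have h0 : (0 : ℝ) ≤ 2 * (K : ℝ) + 3 := by positivity
    have h3 : 2 * (K : ℝ) + 3 ≤ Real.exp (2 * (K : ℝ) + 3) := by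
      linarith [Real.add_one_le_exp (2 * (K : ℝ) + 3)]
    calc (2 * (K : ℝ) + 3) ^ (2 * K + 3) ≤ (Real.exp (2 * (K : ℝ) + 3)) ^ (2 * K + 3) :=
          pow_le_pow_left₀ h0 h3 _
      _ = Real.exp ((2 * (K : ℝ) + 3) ^ 2) := by
          rw [← Real.exp_nat_mul]
          congr 1
          push_cast
          ring
  calc (M : ℝ) ≤ (((2 * K + 3).factorial : ℕ) : ℝ) ^ 3 := h1
    _ ≤ (Real.exp ((2 * (K : ℝ) + 3) ^ 2)) ^ 3 := pow_le_pow_left₀ (by positivity) h2 3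
    _ = _ := by
      rw [← Real.exp_nat_mul]
      push_cast
      rfl

theorem len_num (n D K M : ℕ) (H Y : ℝ) (hH : 1 ≤ H) (hY : (K : ℝ) + D + H = Y)
    (hM : (M : ℝ) ≤ Real.exp (75 * Y ^ 2)) :
    ((D : ℝ) + 1) ^ n * (Real.exp H *
      ((M : ℝ) ^ (2 * (n * D)) * (((K : ℝ) + 1) * (M : ℝ) ^ K) ^ D) ^ n) ≤
        Real.exp (((n : ℝ) + 1 + n * (150 * n + 76)) * Y ^ 4) := by
  have hK0 : (0 : ℝ) ≤ K := Nat.cast_nonneg K
  have hD0 : (0 : ℝ) ≤ D := Nat.cast_nonneg D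
  have hm0 : (0 : ℝ) ≤ n := Nat.cast_nonneg n
  have hY1 : 1 ≤ Y := by linarith
  have hKY : (K : ℝ) ≤ Y := by linarith
  have hDY : (D : ℝ) ≤ Y := by linarith
  have hHY : H ≤ Y := by linarith
  have e1 : ((D : ℝ) + 1) ^ n ≤ Real.exp (n * D) := EB.I_CoefE.pow_exp _ hD0 n
  have e2 : (M : ℝ) ^ (2 * (n * D)) ≤ Real.exp (2 * (n * D) * (75 * Y ^ 2)) := by
    calc (M : ℝ) ^ (2 * (n * D)) ≤ (Real.exp (75 * Y ^ 2)) ^ (2 * (n * D)) :=
          pow_le_pow_left₀ (by positivity) hM _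
      _ = _ := by
        rw [← Real.exp_nat_mul]
        push_cast
        rfl
  have e3 : (M : ℝ) ^ K ≤ Real.exp (K * (75 * Y ^ 2)) := by
    calc (M : ℝ) ^ K ≤ (Real.exp (75 * Y ^ 2)) ^ K :=
          pow_le_pow_left₀ (by positivity) hM _
      _ = _ := by
        rw [← Real.exp_nat_mul]
  have e4 : (((K : ℝ) + 1) * (M : ℝ) ^ K) ^ D ≤ Real.exp (D * (K + K * (75 * Y ^ 2))) := by
    have e5 : ((K : ℝ) + 1) * (M : ℝ) ^ K ≤ Real.exp (K + K * (75 * Y ^ 2)) := by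
      rw [Real.exp_add]
      exact mul_le_mul (Real.add_one_le_exp _) e3 (by positivity) (Real.exp_pos _).le
    calc _ ≤ (Real.exp (K + K * (75 * Y ^ 2))) ^ D := pow_le_pow_left₀ (by positivity) e5 _
      _ = _ := by rw [← Real.exp_nat_mul]
  have e6 : ((M : ℝ) ^ (2 * (n * D)) * (((K : ℝ) + 1) * (M : ℝ) ^ K) ^ D) ^ n ≤
      Real.exp (n * (2 * (n * D) * (75 * Y ^ 2) + D * (K + K * (75 * Y ^ 2)))) := by
    have e7 : (M : ℝ) ^ (2 * (n * D)) * (((K : ℝ) + 1) * (M : ℝ) ^ K) ^ D ≤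
        Real.exp (2 * (n * D) * (75 * Y ^ 2) + D * (K + K * (75 * Y ^ 2))) := by
      rw [Real.exp_add]
      exact mul_le_mul e2 e4 (by positivity) (Real.exp_pos _).le
    calc _ ≤ (Real.exp (2 * (n * D) * (75 * Y ^ 2) + D * (K + K * (75 * Y ^ 2)))) ^ n :=
          pow_le_pow_left₀ (by positivity) e7 _
      _ = _ := by rw [← Real.exp_nat_mul]
  calc _ ≤ Real.exp (n * D) * (Real.exp H *
        Real.exp (n * (2 * (n * D) * (75 * Y ^ 2) + D * (K + K * (75 * Y ^ 2))))) := by gcongr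
    _ = Real.exp (n * D +
        (H + n * (2 * (n * D) * (75 * Y ^ 2) + D * (K + K * (75 * Y ^ 2))))) := by
      rw [Real.exp_add, Real.exp_add]
    _ ≤ _ := by
      refine Real.exp_le_exp.2 ?_
      have y2 : Y ≤ Y ^ 4 := le_self_pow₀ hY1 (by norm_num)
      have y3 : Y ^ 3 ≤ Y ^ 4 := pow_le_pow_right₀ hY1 (by norm_num)
      have y4 : Y ^ 2 ≤ Y ^ 4 := pow_le_pow_right₀ hY1 (by norm_num)
      have i1 : 2 * (n * D) * (75 * Y ^ 2) ≤ 150 * n * Y ^ 4 := by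
        calc 2 * (n * D) * (75 * Y ^ 2) ≤ 2 * (n * Y) * (75 * Y ^ 2) := by gcongr
          _ = 150 * n * Y ^ 3 := by ring
          _ ≤ 150 * n * Y ^ 4 := by gcongr
      have i2 : (D : ℝ) * (K + K * (75 * Y ^ 2)) ≤ 76 * Y ^ 4 := by
        calc (D : ℝ) * (K + K * (75 * Y ^ 2)) ≤ Y * (Y + Y * (75 * Y ^ 2)) := by gcongr
          _ = Y ^ 2 + 75 * Y ^ 4 := by ring
          _ ≤ 76 * Y ^ 4 := by linarith
      have i3 : (n : ℝ) * (2 * (n * D) * (75 * Y ^ 2) + D * (K + K * (75 * Y ^ 2))) ≤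
          n * ((150 * n + 76) * Y ^ 4) := by
        refine mul_le_mul_of_nonneg_left ?_ hm0
        linarith
      have i4 : (n : ℝ) * D ≤ n * Y ^ 4 := by
        refine mul_le_mul_of_nonneg_left ?_ hm0
        linarith
      linarith

theorem deg_num (n D K : ℕ) (H Y : ℝ) (hH : 1 ≤ H) (hY : (K : ℝ) + D + H = Y) :
    ((n * (2 * (n * D) + D * (2 * K)) : ℕ) : ℝ) ≤
      ((n : ℝ) + 1 + n * (150 * n + 76)) * Y ^ 4 := by
  have hK0 : (0 : ℝ) ≤ K := Nat.cast_nonneg K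
  have hD0 : (0 : ℝ) ≤ D := Nat.cast_nonneg D
  have hm0 : (0 : ℝ) ≤ n := Nat.cast_nonneg n
  have hY1 : 1 ≤ Y := by linarith
  have hKY : (K : ℝ) ≤ Y := by linarith
  have hDY : (D : ℝ) ≤ Y := by linarith
  push_cast
  have y2 : Y ≤ Y ^ 4 := le_self_pow₀ hY1 (by norm_num)
  have y4 : Y ^ 2 ≤ Y ^ 4 := pow_le_pow_right₀ hY1 (by norm_num)
  have i1 : (n : ℝ) * D ≤ n * Y ^ 4 := by
    refine mul_le_mul_of_nonneg_left ?_ hm0
    linarith
  have i2 : (D : ℝ) * (2 * K) ≤ 2 * Y ^ 4 := by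
    calc (D : ℝ) * (2 * K) ≤ Y * (2 * Y) := by gcongr
      _ = 2 * Y ^ 2 := by ring
      _ ≤ 2 * Y ^ 4 := by linarith
  have i5 : (0 : ℝ) ≤ Y ^ 4 := by positivity
  calc (n : ℝ) * (2 * (n * D) + D * (2 * K)) ≤ n * (2 * (n * Y ^ 4) + 2 * Y ^ 4) := by
        refine mul_le_mul_of_nonneg_left ?_ hm0
        linarith
    _ = (n * (2 * n + 2)) * Y ^ 4 := by ring
    _ ≤ ((n : ℝ) + 1 + n * (150 * n + 76)) * Y ^ 4 := by
      refine mul_le_mul_of_nonneg_right ?_ i5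
      nlinarith

theorem up_num (m D K k₀ M : ℕ) (H Y U lam bb l ρ zn : ℝ) (hH : 1 ≤ H)
    (hY : (K : ℝ) + D + H = Y) (hM1 : 1 ≤ M) (hM : (M : ℝ) ≤ Real.exp (75 * Y ^ 2))
    (hk : k₀ ≤ K) (hρ : 0 < ρ) (hz : zn ≤ Real.exp (-U)) (hz0 : 0 ≤ zn)
    (hl : 4 / ρ = Real.exp lam) (hll : 2 / ρ = Real.exp l) (hl0 : 0 ≤ l) (hbb : 0 ≤ bb) :
    4 * (((D : ℝ) + 1) ^ m * (Real.exp H * ((Real.exp bb) ^ D) ^ m)) * (zn / M) /
      (ρ / M * (ρ / M / 2) ^ k₀) ≤
        Real.exp ((|lam| + m + 1 + m * bb + 75 + l) * Y ^ 4 - U) := by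
  have hK0 : (0 : ℝ) ≤ K := Nat.cast_nonneg K
  have hD0 : (0 : ℝ) ≤ D := Nat.cast_nonneg D
  have hm0 : (0 : ℝ) ≤ m := Nat.cast_nonneg m
  have hM0 : (1 : ℝ) ≤ M := by exact_mod_cast hM1
  have hY1 : 1 ≤ Y := by linarith
  have hKY : (K : ℝ) ≤ Y := by linarith
  have hDY : (D : ℝ) ≤ Y := by linarith
  have hHY : H ≤ Y := by linarith
  have e0 : 4 * (((D : ℝ) + 1) ^ m * (Real.exp H * ((Real.exp bb) ^ D) ^ m)) * (zn / M) /
      (ρ / M * (ρ / M / 2) ^ k₀) = (4 / ρ) * (((D : ℝ) + 1) ^ m * (Real.exp H *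
        ((Real.exp bb) ^ D) ^ m)) * ((2 / ρ) * M) ^ k₀ * zn := by
    have a1 : (ρ / M / 2) ^ k₀ ≠ 0 := by positivity
    have a2 : ((2 / ρ) * M) ^ k₀ = ((ρ / M / 2) ^ k₀)⁻¹ := by
      rw [← inv_pow]
      congr 1
      field_simp
    rw [a2]
    field_simp
  rw [e0, hl, hll]
  have e1 : ((D : ℝ) + 1) ^ m ≤ Real.exp (m * D) := EB.I_CoefE.pow_exp _ hD0 m
  have e2 : ((Real.exp bb) ^ D) ^ m = Real.exp (m * (D * bb)) := by
    rw [← Real.exp_nat_mul, ← Real.exp_nat_mul]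
  have e3 : (Real.exp l * M) ^ k₀ ≤ Real.exp (K * (l + 75 * Y ^ 2)) := by
    have a1 : Real.exp l * M ≤ Real.exp (l + 75 * Y ^ 2) := by
      rw [Real.exp_add]
      gcongr
    have a2 : 1 ≤ Real.exp (l + 75 * Y ^ 2) := Real.one_le_exp (by positivity)
    calc (Real.exp l * M) ^ k₀ ≤ (Real.exp (l + 75 * Y ^ 2)) ^ k₀ :=
          pow_le_pow_left₀ (by positivity) a1 _
      _ ≤ (Real.exp (l + 75 * Y ^ 2)) ^ K := pow_le_pow_right₀ a2 hk
      _ = _ := by rw [← Real.exp_nat_mul]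
  rw [e2]
  calc _ ≤ Real.exp lam * (Real.exp (m * D) * (Real.exp H * Real.exp (m * (D * bb)))) *
        Real.exp (K * (l + 75 * Y ^ 2)) * Real.exp (-U) := by gcongr
    _ = Real.exp (lam + (m * D + (H + m * (D * bb))) + K * (l + 75 * Y ^ 2) + -U) := by
      simp only [Real.exp_add]
    _ ≤ _ := by
      refine Real.exp_le_exp.2 ?_
      have y1 : 1 ≤ Y ^ 4 := one_le_pow₀ hY1
      have y2 : Y ≤ Y ^ 4 := le_self_pow₀ hY1 (by norm_num)
      have y3 : Y ^ 3 ≤ Y ^ 4 := pow_le_pow_right₀ hY1 (by norm_num)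
      have i1 : lam ≤ |lam| * Y ^ 4 := by
        calc lam ≤ |lam| := le_abs_self _
          _ = |lam| * 1 := (mul_one _).symm
          _ ≤ |lam| * Y ^ 4 := by gcongr
      have i2 : (m : ℝ) * D ≤ m * Y ^ 4 := by
        refine mul_le_mul_of_nonneg_left ?_ hm0
        linarith
      have i3 : (m : ℝ) * (D * bb) ≤ m * bb * Y ^ 4 := by
        calc (m : ℝ) * (D * bb) = m * bb * D := by ring
          _ ≤ m * bb * Y ^ 4 := by
            refine mul_le_mul_of_nonneg_left ?_ (by positivity)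
            linarith
      have i4 : (K : ℝ) * (l + 75 * Y ^ 2) ≤ (l + 75) * Y ^ 4 := by
        calc (K : ℝ) * (l + 75 * Y ^ 2) ≤ Y * (l + 75 * Y ^ 2) := by gcongr
          _ = l * Y + 75 * Y ^ 3 := by ring
          _ ≤ l * Y ^ 4 + 75 * Y ^ 4 := by gcongr
          _ = _ := by ring
      linarith

/-! ## Common radius -/

theorem rad {σ : Type} [Fintype σ] (F : σ → ℂ → ℂ)
    (hF : ∀ j, AnalyticAt ℂ (F j) 0 ∧ ‖F j 0‖ ≤ 1) :
    ∃ r : ℝ, 0 < r ∧ (∀ j, DifferentiableOn ℂ (F j) (ball 0 r)) ∧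
      ∀ j, ∀ w ∈ ball (0 : ℂ) r, ‖F j w‖ ≤ 2 := by
  have h1 : ∀ j, ∀ᶠ w in 𝓝 (0 : ℂ), DifferentiableAt ℂ (F j) w ∧ ‖F j w‖ < 2 := by
    intro j
    refine ((hF j).1.eventually_analyticAt.mono fun w hw => hw.differentiableAt).and ?_
    exact Filter.Tendsto.eventually_lt_const (u := (2 : ℝ)) (by linarith [(hF j).2])
      ((hF j).1.continuousAt.norm)
  obtain ⟨r, hr, hb⟩ := Metric.eventually_nhds_iff_ball.1 (eventually_all.2 h1)
  exact ⟨r, hr, fun j w hw => (hb w hw j).1.differentiableWithinAt,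
    fun j w hw => (hb w hw j).2.le⟩

theorem phi_an {τ μ : ℂ} (hτ : 0 < τ.im) (hμ : μ ≠ 0) : AnalyticAt ℂ (phi τ μ) 0 :=
  ((chi_an hτ hμ).sub (analyticAt_id.mul (chi_an hτ hμ).deriv)).congr (chi_ode hτ hμ)

section

variable {ι : Type} [Fintype ι]

omit [Fintype ι] in
theorem fF_an {τ μ : ℂ} (hτ : 0 < τ.im) (hμ : μ ≠ 0) (ty : ι → Ty) (j : fI ty) :
    AnalyticAt ℂ (fF τ μ ty j) 0 ∧ ‖fF τ μ ty j 0‖ ≤ 1 := by
  rcases j with u | j | ⟨q, e⟩
  · refine ⟨analyticAt_id, ?_⟩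
    simp [fF]
  · refine ⟨?_, ?_⟩
    · show AnalyticAt ℂ (fun w => Complex.exp w) 0
      fun_prop
    · simp [fF]
  · cases e
    · refine ⟨chi_an hτ hμ, ?_⟩
      simp [fF, chi]
    · refine ⟨phi_an hτ hμ, ?_⟩
      simp [fF, phi]

omit [Fintype ι] in
theorem kd_fF {τ μ : ℂ} (hτ : 0 < τ.im) (hμ : μ ≠ 0) (ty : ι → Ty) (K : ℕ) :
    ∃ (M : ℕ) (ψ : fI ty → ℕ → MvPolynomial (Fin 2) ℤ), 1 ≤ M ∧
      M ≤ (2 * K + 3).factorial ^ 3 ∧
      ∀ j, Kd K M ![μ ^ 4 * gg2 τ, μ ^ 6 * gg3 τ] (fF τ μ ty j) (ψ j) := by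
  obtain ⟨M, hM1, hM2, ⟨ψ1, k1⟩, ⟨ψ2, k2⟩, ⟨ψ3, k3⟩, ⟨ψ4, k4⟩⟩ := kd_all hτ hμ K
  refine ⟨M, Sum.elim (fun _ => ψ1) (Sum.elim (fun _ => ψ2)
    (fun q => if q.2 then ψ3 else ψ4)), hM1, hM2, ?_⟩
  rintro (u | j | ⟨q, e⟩)
  · exact k1
  · exact k2
  · cases e
    · exact k4
    · exact k3

omit [Fintype ι] in
theorem nb_mul (μ : ℂ) (ty : ι → Ty) (b : ι → ℂ) (j : ι) (h : ty j = Ty.mul) :
    nb μ ty b j = b j := by
  unfold nb
  rw [h]

omit [Fintype ι] in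
theorem nb_ell (μ : ℂ) (ty : ι → Ty) (b : ι → ℂ) (j : ι) (h : ty j = Ty.ell) :
    nb μ ty b j = b j / μ := by
  unfold nb
  rw [h]

/-- The map of the variables. -/
def vm (ty : ι → Ty) {m : ℕ} (e : Fin m ≃ ι) : Sg (fI ty) → Fin (m + 3) :=
  Sum.elim (Sum.elim (fun _ => Fin.natAdd m 0) (Sum.elim (fun j => Fin.castAdd 3 (e.symm j.1))
    (fun q => Fin.castAdd 3 (e.symm q.1.1)))) (fun q => Fin.natAdd m q.succ)

omit [Fintype ι] in
theorem vm_eq (μ : ℂ) (ty : ι → Ty) (b : ι → ℂ) (g : Fin 2 → ℂ) {m : ℕ} (e : Fin m ≃ ι) :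
    (Fin.append (fun i => nb μ ty b (e i)) (Fin.cons 1 g : Fin 3 → ℂ)) ∘ vm ty e =
      pt (fβ μ ty b) g 1 := by
  funext v
  rcases v with (u | j | q) | q
  · simp only [Function.comp_apply, vm, pt, fβ, Sum.elim_inl, Fin.append_right, Fin.cons_zero,
      mul_one]
  · simp only [Function.comp_apply, vm, pt, fβ, Sum.elim_inl, Sum.elim_inr, Fin.append_left,
      Equiv.apply_symm_apply, one_mul]
    exact nb_mul μ ty b _ j.2
  · simp only [Function.comp_apply, vm, pt, fβ, Sum.elim_inl, Sum.elim_inr, Fin.append_left,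
      Equiv.apply_symm_apply, one_mul]
    exact nb_ell μ ty b _ q.1.2
  · simp only [Function.comp_apply, vm, pt, Sum.elim_inr, Fin.append_right, Fin.cons_succ]

end

end I_CoefM

open I_CoefM

theorem CoefM_pf (h0 : S_FTIeq) : S_CoefM := by
  classical
  intro Q ι _
  refine ⟨4 * (Q + 1), ?_⟩
  intro τ μ ty b hN hFT hb
  have hμ := hN.mu
  set n : ℕ := Fintype.card (fI ty) with hn
  set g : Fin 2 → ℂ := ![μ ^ 4 * gg2 τ, μ ^ 6 * gg3 τ] with hg
  have hga : ∀ i, IsAlgebraic ℚ (g i) := by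
    intro i
    fin_cases i
    · exact hN.g2
    · exact hN.g3
  let e₀ : Fin (Fintype.card ι) ≃ ι := (Fintype.equivFin ι).symm
  have hFT' : FT Q (fun i => nb μ ty b (e₀ i)) :=
    ((h0 Q (Fintype.card ι) ι (nb μ ty b)).1 e₀).1 hFT
  obtain ⟨C₁, hC₁, hF⟩ := FText_pf Q (Fintype.card ι) 3 (fun i => nb μ ty b (e₀ i))
    (Fin.cons 1 g : Fin 3 → ℂ) hFT' (by
      intro i
      refine Fin.cases ?_ ?_ i
      · exact isAlgebraic_one
      · exact hga)
  -- the radius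
  obtain ⟨r0, hr0, hφd, hφb⟩ := rad (fF τ μ ty) (fF_an hN.im hμ ty)
  set bb : ℝ := Real.log 2 with hbb
  have hbb0 : 0 ≤ bb := Real.log_nonneg (by norm_num)
  have hbbe : Real.exp bb = 2 := Real.exp_log (by norm_num)
  set β : ℝ := 1 + ∑ j, ‖fβ μ ty b j‖ with hβ
  have hβ1 : 1 ≤ β := by
    have : 0 ≤ ∑ j, ‖fβ μ ty b j‖ := Finset.sum_nonneg fun _ _ => norm_nonneg _
    linarith
  have hβj : ∀ j, ‖fβ μ ty b j‖ < β := by
    intro j
    have := Finset.single_le_sum (f := fun j => ‖fβ μ ty b j‖) (fun _ _ => norm_nonneg _)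
      (Finset.mem_univ j)
    linarith
  have hmin : 0 < min r0 1 := lt_min (by positivity) one_pos
  set ρ : ℝ := min r0 1 / β with hρ
  have hρ0 : 0 < ρ := by positivity
  have hρ1 : ρ ≤ 1 := by
    rw [hρ, div_le_one (by linarith)]
    exact (min_le_right _ _).trans hβ1
  have hρj : ∀ j, ρ * ‖fβ μ ty b j‖ < min r0 1 := by
    intro j
    calc ρ * ‖fβ μ ty b j‖ < ρ * β := by
          exact mul_lt_mul_of_pos_left (hβj j) hρ0
      _ = min r0 1 := by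
          rw [hρ]
          field_simp
  set lam : ℝ := Real.log (4 / ρ) with hlam
  have hlame : 4 / ρ = Real.exp lam := (Real.exp_log (by positivity)).symm
  set l : ℝ := Real.log (2 / ρ) with hl
  have hle : 2 / ρ = Real.exp l := (Real.exp_log (by positivity)).symm
  have hl0 : 0 ≤ l := by
    refine Real.log_nonneg ?_
    rw [le_div_iff₀ hρ0]
    linarith
  set κ : ℝ := (n : ℝ) + 1 + n * (150 * n + 76) with hκ
  have hm0 : (0 : ℝ) ≤ n := Nat.cast_nonneg n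
  have hκ1 : 1 ≤ κ := by
    have : (0 : ℝ) ≤ n * (150 * n + 76) := by positivity
    rw [hκ]
    linarith
  set C₂ : ℝ := |lam| + n + 1 + n * bb + 75 + l with hC₂
  have hC₂0 : 1 ≤ C₂ := by
    have a1 := abs_nonneg lam
    have a2 : 0 ≤ (n : ℝ) * bb := by positivity
    rw [hC₂]
    linarith
  have hlamC : |lam| ≤ C₂ := by
    have a2 : 0 ≤ (n : ℝ) * bb := by positivity
    rw [hC₂]
    linarith
  have hCk : 0 ≤ C₁ * κ ^ (Q + 1) := by positivity
  refine ⟨C₁ * κ ^ (Q + 1) + C₂ + 1, by linarith, ?_⟩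
  intro D K h U R z₀ hh hRd hRc hU hz₀ hz₀U hR0
  obtain ⟨M, ψ, hM1, hM2, hψ⟩ := kd_fF hN.im hμ ty K
  have hM0 : (1 : ℝ) ≤ M := by exact_mod_cast hM1
  have hMc : (M : ℂ) ≠ 0 := by
    have : M ≠ 0 := by omega
    exact_mod_cast this
  have hRs : ∀ d ∈ R.support, ∀ j, d j ≤ D := by
    intro d hd j
    exact (monomial_le_degreeOf j hd).trans (hRd j)
  set Y : ℝ := (K : ℝ) + D + h with hY
  have hK0 : (0 : ℝ) ≤ K := Nat.cast_nonneg K
  have hD0 : (0 : ℝ) ≤ D := Nat.cast_nonneg D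
  have hY1 : 1 ≤ Y := by
    rw [hY]
    linarith
  have hMe : (M : ℝ) ≤ Real.exp (75 * Y ^ 2) := by
    refine (M_le K M hM2).trans (Real.exp_le_exp.2 ?_)
    have : 2 * (K : ℝ) + 3 ≤ 5 * Y := by
      rw [hY]
      linarith
    have h3 : (2 * (K : ℝ) + 3) ^ 2 ≤ (5 * Y) ^ 2 := pow_le_pow_left₀ (by positivity) this 2
    linarith
  have hE := fE_le ty n D
  have hTa : Ta K (fβ μ ty b) g (GG (fF τ μ ty) M (fE ty n D) (fβ μ ty b) R)
      (Ph M K ψ (fE ty n D) R) := Ta_GG K M ψ _ _ g _ hψ R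
  have hrel := GG_rel (τ := τ) hμ ty b hb M D hM1 R hRs
  rw [← hn] at hrel
  set A : ℂ := ∏ j, (if fty ty j = Ty.ell then μ ^ (2 * (n * D)) else 1) with hA
  have hA0 : A ≠ 0 := by
    rw [hA]
    refine Finset.prod_ne_zero_iff.2 fun j _ => ?_
    split_ifs
    · exact pow_ne_zero _ hμ
    · exact one_ne_zero
  by_cases hall : ∀ k ≤ K, aeval (pt (fβ μ ty b) g 1) (cp k (Ph M K ψ (fE ty n D) R)) = 0
  · -- all coefficients vanish
    obtain ⟨e, he, hev⟩ := Ta_all hTa hall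
    refine ⟨fun z => A * ((1 / (M : ℂ)) ^ (K + 1) * e (z / M)), ?_, ?_⟩
    · have he0 : AnalyticAt ℂ e (0 / (M : ℂ)) := by
        rw [zero_div]
        exact he
      have hlin : AnalyticAt ℂ (fun z : ℂ => z / (M : ℂ)) 0 := by fun_prop (disch := simp_all)
      have h3 := he0.comp (f := fun z : ℂ => z / (M : ℂ)) hlin
      exact analyticAt_const.mul (analyticAt_const.mul h3)
    · have hcont : ContinuousAt (fun z : ℂ => z / (M : ℂ)) 0 := by fun_prop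
      have h4 : Tendsto (fun z : ℂ => z / (M : ℂ)) (𝓝 0) (𝓝 0) := by
        have := hcont.tendsto
        rwa [zero_div] at this
      have h5 := (h4.eventually hev).filter_mono (nhdsWithin_le_nhds (s := {0}ᶜ))
      filter_upwards [h5, self_mem_nhdsWithin] with z hz hz0
      rw [hrel z hz0, hz, div_pow, div_pow, one_pow]
      ring
  · -- the first non-zero coefficient
    exfalso
    push Not at hall
    set k₀ := Nat.find hall with hk₀
    obtain ⟨hk₀K, hk₀n⟩ := Nat.find_spec hall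
    rw [← hk₀] at hk₀K hk₀n
    have hlow : ∀ k < k₀, aeval (pt (fβ μ ty b) g 1)
        (cp k (Ph M K ψ (fE ty n D) R)) = 0 := by
      intro k hk
      have := Nat.find_min hall hk
      push Not at this
      exact this (by omega)
    obtain ⟨e, he, hev⟩ := Ta_first hTa k₀ hk₀K hlow
    set α : ℂ := aeval (pt (fβ μ ty b) g 1) (cp k₀ (Ph M K ψ (fE ty n D) R)) with hα
    -- lower bound
    set P : MvPolynomial (Fin (Fintype.card ι + 3)) ℤ :=
      rename (vm ty e₀) (cp k₀ (Ph M K ψ (fE ty n D) R)) with hP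
    have hPα : aeval (Fin.append (fun i => nb μ ty b (e₀ i)) (Fin.cons 1 g : Fin 3 → ℂ)) P =
        α := by
      rw [hP, hα, aeval_rename, vm_eq]
    have hlow2 : Real.exp (-(C₁ * (κ * Y ^ 4) ^ (Q + 1))) ≤ ‖α‖ := by
      rw [← hPα]
      refine hF P (κ * Y ^ 4) ?_ ?_ ?_ ?_
      · have : 1 ≤ Y ^ 4 := one_le_pow₀ hY1
        nlinarith
      · have a1 : P.totalDegree ≤ n * (2 * (n * D) + D * (2 * K)) :=
          (totalDegree_rename_le _ _).trans ((cp_deg _ _).trans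
            (Ph_deg M D K (2 * (n * D)) ψ (fun j => (hψ j).hd) _ hE R hRs))
        have a2 : (P.totalDegree : ℝ) ≤ ((n * (2 * (n * D) + D * (2 * K)) : ℕ) : ℝ) := by
          exact_mod_cast a1
        exact a2.trans (deg_num n D K h Y hh hY.symm)
      · exact (len_ren _ _).trans ((cp_len _ _).trans
          ((Ph_len M D K (2 * (n * D)) hM1 ψ (fun j => (hψ j).hl) _ hE R h hRs hRc).trans
          (len_num n D K M h Y hh hY.symm hMe)))
      · rw [hPα]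
        exact hk₀n
    -- upper bound
    have ht₀ : z₀ / (M : ℂ) ≠ 0 := div_ne_zero hz₀ hMc
    have hYc : 1 ≤ Y ^ (4 * (Q + 1)) := one_le_pow₀ hY1
    have hUC : C₁ * κ ^ (Q + 1) + C₂ + 1 ≤ U := by
      refine le_trans ?_ hU
      have : 0 ≤ C₁ * κ ^ (Q + 1) + C₂ + 1 := by linarith
      exact le_mul_of_one_le_right this hYc
    have ht₁ : ‖z₀ / (M : ℂ)‖ ≤ ρ / M / 4 := by
      rw [norm_div, Complex.norm_natCast, div_le_iff₀ (by positivity)]
      have a1 : ‖z₀‖ ≤ ρ / 4 := by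
        refine hz₀U.trans ?_
        have a2 : Real.exp (-U) ≤ Real.exp (-lam) := by
          refine Real.exp_le_exp.2 ?_
          have := le_abs_self lam
          linarith
        refine a2.trans (le_of_eq ?_)
        rw [Real.exp_neg, ← hlame]
        field_simp
      refine a1.trans (le_of_eq ?_)
      field_simp
    have hball : ∀ t ∈ ball (0 : ℂ) (ρ / M), ∀ j, ‖(M : ℂ) * (t * fβ μ ty b j)‖ < min r0 1 := by
      intro t ht j
      have ht' : ‖t‖ < ρ / M := mem_ball_zero_iff.1 ht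
      rw [norm_mul, norm_mul, Complex.norm_natCast]
      have a1 : (M : ℝ) * ‖t‖ ≤ ρ := by
        have := ht'.le
        rw [le_div_iff₀ (by positivity)] at this
        linarith
      calc (M : ℝ) * (‖t‖ * ‖fβ μ ty b j‖) = ((M : ℝ) * ‖t‖) * ‖fβ μ ty b j‖ := by ring
        _ ≤ ρ * ‖fβ μ ty b j‖ := by gcongr
        _ < _ := hρj j
    have hup := EB.I_CoefE.small (GG (fF τ μ ty) M (fE ty n D) (fβ μ ty b) R) (ρ / M)
      (((D : ℝ) + 1) ^ n * (Real.exp h * ((2 : ℝ) ^ D) ^ n)) (by positivity) α k₀ e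
      (z₀ / (M : ℂ))
      (GG_diff (fF τ μ ty) r0 hφd M _ _ R (ρ / M) fun t ht j => by
        rw [mem_ball_zero_iff]
        exact (hball t ht j).trans_le (min_le_left _ _))
      (fun t ht => GG_bound (fF τ μ ty) 2 (by norm_num) M D _ _ R h hRs hRc t
        (fun j => ((hball t ht j).trans_le (min_le_right _ _)).le)
        (fun j => hφb j _ (by
          rw [mem_ball_zero_iff]
          exact (hball t ht j).trans_le (min_le_left _ _))))
      he hev ht₀ ht₁ (by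
        have a1 := hrel z₀ hz₀
        rw [hR0, mul_zero] at a1
        exact (mul_eq_zero.1 a1.symm).resolve_left hA0)
    rw [norm_div, Complex.norm_natCast] at hup
    have hup1 := up_num n D K k₀ M h Y U lam bb l ρ ‖z₀‖ hh hY.symm hM1 hMe hk₀K hρ0
      hz₀U (norm_nonneg _) hlame hle hl0 hbb0
    rw [hbbe] at hup1
    have hup2 := hup.trans hup1
    rw [← hC₂] at hup2
    have hfin := Real.exp_le_exp.1 (hlow2.trans hup2)
    have a1 : (κ * Y ^ 4) ^ (Q + 1) = κ ^ (Q + 1) * Y ^ (4 * (Q + 1)) := by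
      rw [mul_pow, ← pow_mul]
    have a2 : Y ^ 4 ≤ Y ^ (4 * (Q + 1)) := pow_le_pow_right₀ hY1 (by omega)
    rw [a1] at hfin
    have a3 : C₂ * Y ^ 4 ≤ C₂ * Y ^ (4 * (Q + 1)) := by
      have : 0 ≤ C₂ := by linarith
      gcongr
    have a4 : (C₁ * κ ^ (Q + 1) + C₂ + 1) * Y ^ (4 * (Q + 1)) =
        C₁ * (κ ^ (Q + 1) * Y ^ (4 * (Q + 1))) + C₂ * Y ^ (4 * (Q + 1)) +
          Y ^ (4 * (Q + 1)) := by ring
    linarith

end Pool.Agent.Work.MP_8da9ea_nt.MX
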