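import Pool.Agent.Work.MP_8da9ea_nt.MX.StmtsZ
import Pool.Agent.Work.MP_8da9ea_nt.EB.Gen

/-!
# Mixed block, item DenM: density of the points
-/

set_option autoImplicit false

namespace Pool.Agent.Work.MP_8da9ea_nt.MX

open MvPolynomial Metric Filter Topology Pool.Agent.Work.MP_8da9ea_nt
  Pool.Agent.Work.MP_8da9ea_nt.EB

namespace I_DenM

variable {N : ℕ} {τ : ℂ}

/-- the sum in an additive coordinate -/
noncomputable def gA (τ : ℂ) (ty : Fin N → Ty) (c : Fin N → Fin N → ℂ) (i : Fin N)
    (p : Fin N → ℂ) : ℂ :=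
  ∑ j, (if ty j = Ty.ell then c i j * zt 1 τ (p j) else 0)

lemma cont_gA (hτ : 0 < τ.im) (ty : Fin N → Ty) (c : Fin N → Fin N → ℂ) (i : Fin N)
    {p : Fin N → ℂ} (hp : ∀ j, p j ∉ Lam τ) : ContinuousAt (gA τ ty c i) p := by
  unfold gA
  refine tendsto_finsetSum _ fun j _ => ?_
  by_cases hj : ty j = Ty.ell
  · simp only [if_pos hj]
    have h1 : ContinuousAt (fun p : Fin N → ℂ => zt 1 τ (p j)) p :=
      (hasDerivAt_zt_z hτ (hp j)).continuousAt.comp (f := fun p : Fin N → ℂ => p j)
        (Continuous.continuousAt (by fun_prop))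
    exact h1.const_mul (c i j)
  · simp only [if_neg hj]
    exact tendsto_const_nhds

lemma ball_infinite (z : ℂ) {r : ℝ} (hr : 0 < r) : (ball z r).Infinite := by
  intro h
  exact (h.countable.dense_compl ℝ).inter_open_nonempty (ball z r) isOpen_ball
    ⟨z, mem_ball_self hr⟩ |>.elim fun w hw => hw.2 hw.1

lemma exp_infinite (z : ℂ) {r : ℝ} (hr : 0 < r) : (Complex.exp '' ball z r).Infinite := by
  have h1 : (Complex.exp '' ball z (min r 1)).Infinite := by
    refine (ball_infinite z (lt_min hr one_pos)).image ?_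
    intro x hx y hy hxy
    obtain ⟨n, hn⟩ := Complex.exp_eq_exp_iff_exists_int.1 hxy
    have h2 : dist x y < 2 := by
      have h3 : dist x z < 1 := lt_of_lt_of_le (mem_ball.1 hx) (min_le_right _ _)
      have h4 : dist y z < 1 := lt_of_lt_of_le (mem_ball.1 hy) (min_le_right _ _)
      calc dist x y ≤ dist x z + dist y z := dist_triangle_right _ _ _
        _ < 2 := by linarith
    by_cases hn0 : n = 0
    · rw [hn, hn0]
      simp
    · exfalso
      rw [dist_eq_norm, hn, add_sub_cancel_left] at h2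
      rw [norm_mul, norm_mul, norm_mul, Complex.norm_I, Complex.norm_real, Complex.norm_two,
        Complex.norm_intCast, Real.norm_eq_abs, abs_of_pos Real.pi_pos] at h2
      have h5 : (1 : ℝ) ≤ |(n : ℝ)| := by
        exact_mod_cast Int.one_le_abs hn0
      nlinarith [Real.pi_gt_three]
  exact h1.mono (Set.image_mono (ball_subset_ball (min_le_left _ _)))

end I_DenM

open I_DenM in
theorem DenM_pf : S_DenM := by
  intro τ hτ N ty c G hG v₀ r hr
  -- the base point
  have hq : ∀ j : Fin N, ∃ z ∈ ball (v₀ j) r, z ∉ Lam τ := by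
    intro j
    obtain ⟨z, hz1, hz2⟩ := (Gen.dense_compl_Lam τ).inter_open_nonempty (ball (v₀ j) r) isOpen_ball
      ⟨v₀ j, mem_ball_self hr⟩
    exact ⟨z, hz1, hz2⟩
  choose q hq1 hq2 using hq
  have hqb : q ∈ ball v₀ r := by
    rw [mem_ball, dist_pi_lt_iff hr]
    exact hq1
  obtain ⟨ε, hε, hball⟩ := Metric.isOpen_iff.1 (isOpen_ball (x := v₀) (ε := r)) q hqb
  -- continuity
  have hcont : ∀ᶠ p in 𝓝 q, ∀ i, dist (gA τ ty c i p) (gA τ ty c i q) < ε / 2 := by
    rw [eventually_all]
    intro i
    exact (cont_gA hτ ty c i hq2).eventually (ball_mem_nhds _ (half_pos hε))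
  obtain ⟨δ₀, hδ₀, hδ₁⟩ := Metric.mem_nhds_iff.1 hcont
  set δ := min δ₀ ε with hδ
  have hδp : 0 < δ := lt_min hδ₀ hε
  -- the sides of the box
  let S : Fin N → Set ℂ := fun i => match ty i with
    | Ty.add => ball (q i + gA τ ty c i q) (ε / 2)
    | Ty.mul => Complex.exp '' ball (q i) δ
    | Ty.ell => wp 1 τ '' (ball (q i) δ ∩ (Lam τ)ᶜ)
  have hS : ∀ i, (S i).Infinite := by
    intro i
    simp only [S]
    cases hi : ty i
    · exact ball_infinite _ (half_pos hε)
    · exact exp_infinite _ hδp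
    · exact Gen.wp_image_infinite hτ (hq2 i)
        ((isOpen_ball.inter (Lam_closed hτ).isOpen_compl).mem_nhds
          ⟨mem_ball_self hδp, hq2 i⟩)
  by_contra hcon
  push Not at hcon
  apply hG
  refine MvPolynomial.funext_set S hS ?_
  intro x hx
  rw [map_zero]
  -- the parameters of the coordinates which are not additive
  have hz : ∀ i, ∃ z ∈ ball (q i) δ, (ty i = Ty.ell → z ∉ Lam τ) ∧
      (ty i = Ty.mul → Complex.exp z = x i) ∧ (ty i = Ty.ell → wp 1 τ z = x i) := by
    intro i
    have h1 := hx i (Set.mem_univ i)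
    simp only [S] at h1
    cases hi : ty i
    · exact ⟨q i, mem_ball_self hδp, nofun, nofun, nofun⟩
    · rw [hi] at h1
      obtain ⟨z, hz1, hz2⟩ := h1
      exact ⟨z, hz1, nofun, fun _ => hz2, nofun⟩
    · rw [hi] at h1
      obtain ⟨z, ⟨hz1, hz2⟩, hz3⟩ := h1
      exact ⟨z, hz1, fun _ => hz2, nofun, fun _ => hz3⟩
  choose z hz1 hz2 hz3 hz4 using hz
  have hzb : z ∈ ball q δ₀ := by
    rw [mem_ball, dist_pi_lt_iff hδ₀]
    exact fun i => lt_of_lt_of_le (hz1 i) (min_le_left _ _)
  have hg : ∀ i, dist (gA τ ty c i z) (gA τ ty c i q) < ε / 2 := hδ₁ hzb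
  -- the point
  set p : Fin N → ℂ := fun i => if ty i = Ty.add then x i - gA τ ty c i z else z i with hp
  have hgp : ∀ i, gA τ ty c i p = gA τ ty c i z := by
    intro i
    unfold gA
    refine Finset.sum_congr rfl fun j _ => ?_
    by_cases hj : ty j = Ty.ell
    · have : p j = z j := by
        simp only [hp]
        rw [if_neg (by rw [hj]; nofun)]
      rw [this]
    · rw [if_neg hj, if_neg hj]
  have hpb : p ∈ ball v₀ r := by
    apply hball
    rw [mem_ball, dist_pi_lt_iff hε]
    intro i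
    by_cases hi : ty i = Ty.add
    · have h1 := hx i (Set.mem_univ i)
      simp only [S, hi] at h1
      have h2 := hg i
      simp only [hp, if_pos hi]
      rw [mem_ball, dist_eq_norm] at h1
      rw [dist_eq_norm] at h2 ⊢
      calc ‖x i - gA τ ty c i z - q i‖
          = ‖(x i - (q i + gA τ ty c i q)) - (gA τ ty c i z - gA τ ty c i q)‖ := by
            congr 1
            ring
        _ ≤ ‖x i - (q i + gA τ ty c i q)‖ + ‖gA τ ty c i z - gA τ ty c i q‖ := norm_sub_le _ _
        _ < ε := by linarith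
    · simp only [hp, if_neg hi]
      exact lt_of_lt_of_le (hz1 i) (min_le_right _ _)
  have hgd : Gd τ ty p := by
    intro j hj
    simp only [hp]
    rw [if_neg (by rw [hj]; nofun)]
    exact hz2 j hj
  have hpt : PT τ ty c p = x := by
    refine _root_.funext fun i => ?_
    unfold PT
    cases hi : ty i
    · have h1 := hgp i
      unfold gA at h1
      simp only [hi]
      rw [h1]
      simp only [hp, if_pos hi]
      unfold gA
      ring
    · simp only [hi, hp]
      rw [if_neg (by nofun)]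
      exact hz3 i hi
    · simp only [hi, hp]
      rw [if_neg (by nofun)]
      exact hz4 i hi
  have := hcon p hpb hgd
  rwa [hpt] at this

end Pool.Agent.Work.MP_8da9ea_nt.MX
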