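import Pool.Agent.Work.MP_8da9ea_nt.MX.StmtsG

/-!
# Mixed block: the echelon form (item Ech)
-/

set_option autoImplicit false

namespace Pool.Agent.Work.MP_8da9ea_nt.MX

open Module Submodule

namespace I_Ech

/-- A basis of the columns, using the last column only if necessary. -/
theorem exists_cols {m a : ℕ} (c : Fin a → Option (Fin m) → ℂ) (hc : LinearIndependent ℂ c) :
    ∃ σ : Fin a → Option (Fin m), Function.Injective σ ∧
      LinearIndependent ℂ (fun i => (fun l => c l (σ i) : Fin a → ℂ)) ∧
      ∀ j : Fin m, (fun l => c l (some j) : Fin a → ℂ) ∈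
        span ℂ ((fun o l => c l o) '' {o | o ≠ none ∧ o ∈ Set.range σ}) := by
  classical
  obtain ⟨b₁, hb₁s, -, hb₁t, hb₁⟩ := exists_linearIndepOn_extension (K := ℂ)
    (v := fun o l => c l o) (linearIndepOn_empty ℂ _)
    (Set.empty_subset {o : Option (Fin m) | o ≠ none})
  obtain ⟨b₂, -, hb₂s, hb₂t, hb₂⟩ := exists_linearIndepOn_extension (K := ℂ)
    (v := fun o l => c l o) hb₁ (Set.subset_univ b₁)
  have htop : span ℂ (Set.range fun (o : Option (Fin m)) (l : Fin a) => c l o) = ⊤ := by
    apply Submodule.eq_top_of_finrank_eq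
    have h1 : (Matrix.of c).rank = Fintype.card (Fin a) :=
      LinearIndependent.rank_matrix (M := Matrix.of c) hc
    rw [Matrix.rank_eq_finrank_span_cols] at h1
    rw [finrank_fin_fun]
    rw [Fintype.card_fin] at h1
    exact h1
  have htop2 : ⊤ ≤ span ℂ (Set.range fun x : b₂ => (fun l => c l x : Fin a → ℂ)) := by
    rw [← htop, span_le]
    rintro _ ⟨o, rfl⟩
    have h1 := hb₂t ⟨o, Set.mem_univ _, rfl⟩
    have h2 : (fun o l => c l o) '' b₂ = Set.range fun x : b₂ => (fun l => c l x : Fin a → ℂ) := by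
      rw [Set.image_eq_range]
    rw [h2] at h1
    exact h1
  let B : Basis b₂ ℂ (Fin a → ℂ) := Basis.mk hb₂ htop2
  let e : b₂ ≃ Fin a := B.indexEquiv (Pi.basisFun ℂ (Fin a))
  refine ⟨fun i => (e.symm i : Option (Fin m)), ?_, ?_, ?_⟩
  · intro i j hij
    exact e.symm.injective (Subtype.ext hij)
  · exact (show LinearIndependent ℂ (fun x : b₂ => (fun l => c l x : Fin a → ℂ)) from hb₂).comp
      e.symm e.symm.injective
  · intro j
    have h1 := hb₁t ⟨some j, by simp, rfl⟩
    refine span_mono (Set.image_mono ?_) h1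
    intro o ho
    refine ⟨hb₁s ho, ⟨e ⟨o, hb₂s ho⟩, ?_⟩⟩
    simp

end I_Ech

open I_Ech

theorem Ech_pf : S_Ech := by
  classical
  intro F m₃ a c hF hc
  obtain ⟨σ, hσ, hli, hsp⟩ := exists_cols c hc
  let T : Matrix (Fin a) (Fin a) F := fun l i => ⟨c l (σ i), hF l (σ i)⟩
  have hT : IsUnit (T.map (algebraMap F ℂ)) := by
    rw [← Matrix.linearIndependent_cols_iff_isUnit]
    exact hli
  have hdet : IsUnit T.det := by
    rw [isUnit_iff_ne_zero]
    intro h0
    have h1 : (T.map (algebraMap F ℂ)).det = 0 := by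
      have h2 := RingHom.map_det (algebraMap F ℂ) T
      rw [h0, map_zero] at h2
      exact h2.symm
    exact (Matrix.isUnit_iff_isUnit_det _).1 hT |>.ne_zero h1
  have hinv : T⁻¹ * T = 1 := Matrix.nonsing_inv_mul T hdet
  have hδ : ∀ i' i, ∑ l, ((T⁻¹ i' l : F) : ℂ) * c l (σ i) = if i' = i then 1 else 0 := by
    intro i' i
    have h1 := congrFun (congrFun hinv i') i
    rw [Matrix.mul_apply, Matrix.one_apply] at h1
    have h2 := congrArg (fun x : F => (x : ℂ)) h1
    simp only [IntermediateField.coe_sum] at h2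
    rw [show (∑ l, ((T⁻¹ i' l : F) : ℂ) * c l (σ i)) = ∑ l, ((T⁻¹ i' l * T l i : F) : ℂ) from rfl,
      h2]
    split_ifs <;> rfl
  refine ⟨fun i l => ((T⁻¹ i l : F) : ℂ), fun i j => ∑ l, ((T⁻¹ i l : F) : ℂ) * c l j,
    if h : ∃ i, σ i = none then some h.choose else none, σ, fun i l => (T⁻¹ i l).2,
    fun i j => rfl, ?_, ?_⟩
  · intro i hi
    by_cases h : ∃ i, σ i = none
    · rw [dif_pos h] at hi
      have h1 : σ i = none := by
        have h2 := h.choose_spec
        rw [Option.some_inj.1 hi] at h2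
        exact h2
      refine ⟨?_, fun j => ?_⟩
      · have h2 := hδ i i
        rw [h1, if_pos rfl] at h2
        exact h2
      · let φ : (Fin a → ℂ) →ₗ[ℂ] ℂ :=
          { toFun := fun v => ∑ l, ((T⁻¹ i l : F) : ℂ) * v l
            map_add' := fun v w => by
              simp only [Pi.add_apply, mul_add, Finset.sum_add_distrib]
            map_smul' := fun r v => by
              simp only [Pi.smul_apply, smul_eq_mul, RingHom.id_apply]
              rw [Finset.mul_sum]
              exact Finset.sum_congr rfl fun l _ => by ring }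
        have h3 : span ℂ ((fun o l => c l o) '' {o | o ≠ none ∧ o ∈ Set.range σ}) ≤
            LinearMap.ker φ := by
          rw [span_le]
          rintro _ ⟨o, ⟨ho, ⟨k, rfl⟩⟩, rfl⟩
          have h4 : i ≠ k := by
            rintro rfl
            exact ho h1
          have h5 := hδ i k
          rw [if_neg h4] at h5
          exact h5
        exact h3 (hsp j)
    · rw [dif_neg h] at hi
      exact absurd hi (by simp)
  · intro i hi
    rcases hs : σ i with _ | j
    · exfalso
      have h : ∃ i, σ i = none := ⟨i, hs⟩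
      rw [dif_pos h] at hi
      apply hi
      rw [Option.some_inj]
      exact hσ (h.choose_spec.trans hs.symm)
    · refine ⟨j, rfl, fun i' => ?_⟩
      have h1 := hδ i' i
      rw [hs] at h1
      exact h1

end Pool.Agent.Work.MP_8da9ea_nt.MX
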