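import Pool.Agent.Work.MP_8da9ea_nt.MX.StmtsZ

/-!
# Mixed block, item FinA
-/

set_option autoImplicit false

namespace Pool.Agent.Work.MP_8da9ea_nt.MX

open MvPolynomial Metric Pool.Agent.Work.MP_327059_nt.GL Pool.Agent.Work.MP_8da9ea_nt.S
  Pool.Agent.Work.MP_8da9ea_nt.EB

namespace I_FinA

/-- The coordinates of a point with an additive outer parameter. -/
lemma PT_cons {τ : ℂ} {N : ℕ} (ty : Fin (N + 1) → Ty) (c : Fin (N + 1) → Fin (N + 1) → ℂ)
    (h0 : ty 0 = Ty.add) (L : ℂ) (v : Fin N → ℂ) :
    PT τ ty c (Fin.cons L v) = Fin.cons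
      (L + ∑ j : Fin N, (if ty j.succ = Ty.ell then c 0 j.succ * zt 1 τ (v j) else 0))
      (PT τ (fun i : Fin N => ty i.succ) (fun i j => c i.succ j.succ) v) := by
  funext i
  refine Fin.cases ?_ (fun i => ?_) i
  · simp only [PT, h0, Fin.cons_zero, Fin.sum_univ_succ, Fin.cons_succ]
    simp
  · simp only [PT, Fin.cons_succ, Fin.sum_univ_succ, Fin.cons_zero, h0]
    cases h : ty i.succ <;> simp

lemma step0 {q : Polynomial ℂ} (hq : q ≠ 0) {z s : ℂ} (h : ∀ l : ℕ, q.eval (z + l * s) = 0) :
    s = 0 := by
  by_contra hs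
  apply hq
  apply Polynomial.eq_zero_of_infinite_isRoot
  refine Set.infinite_of_injective_forall_mem (f := fun l : ℕ => z + l * s) ?_ (fun l => h l)
  intro a b hab
  have h1 : (a : ℂ) * s = b * s := by
    have h2 : z + (a : ℂ) * s = z + b * s := hab
    linear_combination h2
  exact_mod_cast mul_right_cancel₀ hs h1

lemma mem_Lam (τ : ℂ) (m n : ℤ) : ((m : ℂ) + n * τ) ∈ Lam τ := ⟨(m, n), lp_one τ m n⟩

lemma Lam_sub {τ a b : ℂ} (ha : a ∈ Lam τ) (hb : b ∈ Lam τ) : a - b ∈ Lam τ := by
  obtain ⟨⟨m, n⟩, rfl⟩ := ha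
  obtain ⟨⟨m', n'⟩, rfl⟩ := hb
  refine ⟨(m - m', n - n'), ?_⟩
  simp only [lp_one]
  push_cast
  ring

/-- The inner coordinates do not change. -/
lemma inner_ell {τ : ℂ} (hτ : 0 < τ.im) {N : ℕ} (ty : Fin N → Ty) (c : Fin N → Fin N → ℂ)
    (p : Fin N → ℂ) (j : Fin N) (hj : ty j = Ty.ell) (m n : ℤ) :
    PT τ ty c (fun i => if i = j then p i + (m + n * τ) else
      if ty i = Ty.add then p i - c i j * (et τ * (m + n * τ) - 2 * Real.pi * Complex.I * n)
      else p i) = PT τ ty c p := by
  set v : Fin N → ℂ := fun i => if i = j then p i + (m + n * τ) else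
      if ty i = Ty.add then p i - c i j * (et τ * (m + n * τ) - 2 * Real.pi * Complex.I * n)
      else p i with hv
  have hvj : v j = p j + (m + n * τ) := by simp [hv]
  have hve : ∀ i, i ≠ j → ty i ≠ Ty.add → v i = p i := by
    intro i h1 h2
    simp [hv, h1, h2]
  have hva : ∀ i, ty i = Ty.add →
      v i = p i - c i j * (et τ * (m + n * τ) - 2 * Real.pi * Complex.I * n) := by
    intro i h1
    have h2 : i ≠ j := by
      rintro rfl
      rw [hj] at h1
      exact Ty.noConfusion h1
    simp [hv, h1, h2]
  funext i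
  cases h : ty i
  · simp only [PT, h]
    have hs : ∑ j', (if ty j' = Ty.ell then c i j' * zt 1 τ (v j') else 0) =
        ∑ j', (if ty j' = Ty.ell then c i j' * zt 1 τ (p j') else 0) +
          c i j * (et τ * (m + n * τ) - 2 * Real.pi * Complex.I * n) := by
      rw [← Finset.add_sum_erase _ _ (Finset.mem_univ j),
        ← Finset.add_sum_erase Finset.univ (fun j' => (if ty j' = Ty.ell then
          c i j' * zt 1 τ (p j') else 0)) (Finset.mem_univ j)]
      have h3 : ∑ x ∈ Finset.univ.erase j, (if ty x = Ty.ell then c i x * zt 1 τ (v x) else 0) =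
          ∑ x ∈ Finset.univ.erase j, (if ty x = Ty.ell then c i x * zt 1 τ (p x) else 0) := by
        refine Finset.sum_congr rfl fun x hx => ?_
        split_ifs with hx2
        · rw [hve x (Finset.ne_of_mem_erase hx) (by rw [hx2]; exact fun h => Ty.noConfusion h)]
        · rfl
      rw [h3, if_pos hj, if_pos hj, hvj, zt_add_lp hτ]
      ring
    rw [hs, hva i h]
    ring
  · simp only [PT, h]
    rw [hve i (by rintro rfl; rw [hj] at h; exact Ty.noConfusion h)
      (by rw [h]; exact fun h => Ty.noConfusion h)]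
  · simp only [PT, h]
    by_cases hij : i = j
    · rw [hij, hvj, wp_add_lp hτ]
    · rw [hve i hij (by rw [h]; exact fun h => Ty.noConfusion h)]

/-- The shift of the outer coordinate, elliptic variable. -/
lemma outer_ell {τ : ℂ} (hτ : 0 < τ.im) {N : ℕ} (ty : Fin N → Ty) (c : Fin N → Fin N → ℂ)
    (c0 α p : Fin N → ℂ) (j : Fin N) (hj : ty j = Ty.ell) (m n : ℤ) :
    (∑ i, α i * (if i = j then p i + (m + n * τ) else
      if ty i = Ty.add then p i - c i j * (et τ * (m + n * τ) - 2 * Real.pi * Complex.I * n)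
      else p i)) + ∑ j' : Fin N, (if ty j' = Ty.ell then c0 j' * zt 1 τ
      (if j' = j then p j' + (m + n * τ) else
      if ty j' = Ty.add then p j' - c j' j * (et τ * (m + n * τ) - 2 * Real.pi * Complex.I * n)
      else p j') else 0) =
      (∑ i, α i * p i + ∑ j' : Fin N, (if ty j' = Ty.ell then c0 j' * zt 1 τ (p j') else 0)) +
      (α j * (m + n * τ) + (c0 j - ∑ i, (if ty i = Ty.add then α i * c i j else 0)) *
        (et τ * (m + n * τ) - 2 * Real.pi * Complex.I * n)) := by
  set η : ℂ := et τ * (m + n * τ) - 2 * Real.pi * Complex.I * n with hη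
  set ω : ℂ := (m + n * τ : ℂ) with hω
  have h1 : (∑ i, α i * (if i = j then p i + ω else
      if ty i = Ty.add then p i - c i j * η else p i)) =
      ∑ i, α i * p i + (α j * ω - (∑ i, (if ty i = Ty.add then α i * c i j else 0)) * η) := by
    have e1 : ∀ i, α i * (if i = j then p i + ω else
        if ty i = Ty.add then p i - c i j * η else p i) =
        α i * p i + ((if i = j then α i * ω else 0) -
          (if ty i = Ty.add then α i * c i j else 0) * η) := by
      intro i
      by_cases hi : i = j
      · have h2 : ty i ≠ Ty.add := by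
          rw [hi, hj]
          exact fun h => Ty.noConfusion h
        rw [if_pos hi, if_pos hi, if_neg h2]
        ring
      · rw [if_neg hi, if_neg hi]
        split_ifs <;> ring
    rw [Finset.sum_congr rfl (fun i _ => e1 i), Finset.sum_add_distrib, Finset.sum_sub_distrib,
      ← Finset.sum_mul, Finset.sum_ite_eq' Finset.univ j, if_pos (Finset.mem_univ j)]
  have h2 : ∑ j' : Fin N, (if ty j' = Ty.ell then c0 j' * zt 1 τ
      (if j' = j then p j' + ω else if ty j' = Ty.add then p j' - c j' j * η else p j') else 0) =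
      ∑ j' : Fin N, (if ty j' = Ty.ell then c0 j' * zt 1 τ (p j') else 0) + c0 j * η := by
    have e1 : ∀ j', (if ty j' = Ty.ell then c0 j' * zt 1 τ
        (if j' = j then p j' + ω else if ty j' = Ty.add then p j' - c j' j * η else p j') else 0) =
        (if ty j' = Ty.ell then c0 j' * zt 1 τ (p j') else 0) +
          (if j' = j then c0 j' * η else 0) := by
      intro j'
      by_cases hi : j' = j
      · rw [if_pos hi, if_pos hi, hi, if_pos hj, if_pos hj, hω, zt_add_lp hτ]
        rw [hη]
        ring
      · rw [if_neg hi, if_neg hi, add_zero]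
        by_cases h3 : ty j' = Ty.ell
        · rw [if_pos h3, if_pos h3, if_neg (by rw [h3]; exact fun h => Ty.noConfusion h)]
        · rw [if_neg h3, if_neg h3]
    rw [Finset.sum_congr rfl (fun i _ => e1 i), Finset.sum_add_distrib,
      Finset.sum_ite_eq' Finset.univ j, if_pos (Finset.mem_univ j)]
  rw [h1, h2]
  ring

/-- The inner coordinates do not change, multiplicative variable. -/
lemma inner_mul {τ : ℂ} {N : ℕ} (ty : Fin N → Ty) (c : Fin N → Fin N → ℂ)
    (p : Fin N → ℂ) (j : Fin N) (hj : ty j = Ty.mul) (l : ℕ) :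
    PT τ ty c (fun i => if i = j then p i + l * (2 * Real.pi * Complex.I) else p i) =
      PT τ ty c p := by
  set v : Fin N → ℂ := fun i => if i = j then p i + l * (2 * Real.pi * Complex.I) else p i with hv
  have hvj : v j = p j + l * (2 * Real.pi * Complex.I) := by simp [hv]
  have hve : ∀ i, i ≠ j → v i = p i := by
    intro i h1
    simp [hv, h1]
  have hne : ∀ i, ty i ≠ Ty.mul → i ≠ j := by
    intro i h1 h2
    rw [h2] at h1
    exact h1 hj
  funext i
  cases h : ty i
  · simp only [PT, h]
    rw [hve i (hne i (by rw [h]; exact fun h => Ty.noConfusion h))]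
    congr 1
    refine Finset.sum_congr rfl fun x _ => ?_
    split_ifs with hx
    · rw [hve x (hne x (by rw [hx]; exact fun h => Ty.noConfusion h))]
    · rfl
  · simp only [PT, h]
    by_cases hij : i = j
    · rw [hij, hvj, Complex.exp_periodic.nat_mul l]
    · rw [hve i hij]
  · simp only [PT, h]
    rw [hve i (hne i (by rw [h]; exact fun h => Ty.noConfusion h))]

/-- The shift of the outer coordinate, multiplicative variable. -/
lemma outer_mul {τ : ℂ} {N : ℕ} (ty : Fin N → Ty)
    (c0 α p : Fin N → ℂ) (j : Fin N) (hj : ty j = Ty.mul) (l : ℕ) :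
    (∑ i, α i * (if i = j then p i + l * (2 * Real.pi * Complex.I) else p i)) +
      ∑ j' : Fin N, (if ty j' = Ty.ell then c0 j' * zt 1 τ
        (if j' = j then p j' + l * (2 * Real.pi * Complex.I) else p j') else 0) =
      (∑ i, α i * p i + ∑ j' : Fin N, (if ty j' = Ty.ell then c0 j' * zt 1 τ (p j') else 0)) +
      l * (α j * (2 * Real.pi * Complex.I)) := by
  have h1 : (∑ i, α i * (if i = j then p i + l * (2 * Real.pi * Complex.I) else p i)) =
      ∑ i, α i * p i + α j * (l * (2 * Real.pi * Complex.I)) := by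
    have e1 : ∀ i, α i * (if i = j then p i + l * (2 * Real.pi * Complex.I) else p i) =
        α i * p i + (if i = j then α i * (l * (2 * Real.pi * Complex.I)) else 0) := by
      intro i
      split_ifs <;> ring
    rw [Finset.sum_congr rfl (fun i _ => e1 i), Finset.sum_add_distrib,
      Finset.sum_ite_eq' Finset.univ j, if_pos (Finset.mem_univ j)]
  have h2 : ∑ j' : Fin N, (if ty j' = Ty.ell then c0 j' * zt 1 τ
      (if j' = j then p j' + l * (2 * Real.pi * Complex.I) else p j') else 0) =
      ∑ j' : Fin N, (if ty j' = Ty.ell then c0 j' * zt 1 τ (p j') else 0) := by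
    refine Finset.sum_congr rfl fun x _ => ?_
    split_ifs with hx hxj
    · rw [hxj, hj] at hx
      exact Ty.noConfusion hx
    · rfl
    · rfl
  rw [h1, h2]
  ring

end I_FinA

/-- Item FinA. -/
theorem FinA_pf (h1 : S_DenM) : S_FinA := by
  intro τ hτ N B ty c F α κ D k h0 hB hF hdeg hD hzero
  set ty' : Fin N → Ty := fun i => ty i.succ with hty'
  set c' : Fin N → Fin N → ℂ := fun i j => c i.succ j.succ with hc'
  have hP : finSuccEquiv ℂ N F ≠ 0 := by
    rwa [Ne, EmbeddingLike.map_eq_zero_iff]
  obtain ⟨p, -, hpG, hpne⟩ := h1 τ hτ N ty' c' (finSuccEquiv ℂ N F).leadingCoeff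
    (Polynomial.leadingCoeff_ne_zero.2 hP) 0 1 one_pos
  set q : Polynomial ℂ := Polynomial.map (eval (PT τ ty' c' p)) (finSuccEquiv ℂ N F) with hq
  have hq0 : q ≠ 0 := by
    intro h
    apply hpne
    have h2 : q.coeff (finSuccEquiv ℂ N F).natDegree = 0 := by rw [h, Polynomial.coeff_zero]
    rwa [hq, Polynomial.coeff_map] at h2
  have hqd : q.natDegree ≤ B := by
    refine le_trans Polynomial.natDegree_map_le ?_
    rw [natDegree_finSuccEquiv]
    exact hdeg 0
  -- roots of `q`
  have hroot : ∀ d ∈ D, ∀ v : Fin N → ℂ, Gd τ ty' v → PT τ ty' c' v = PT τ ty' c' p →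
      q.eval (k d + (∑ i, α i * v i +
        ∑ j : Fin N, (if ty' j = Ty.ell then c 0 j.succ * zt 1 τ (v j) else 0))) = 0 := by
    intro d hd v hv hvp
    have h2 := hzero d hd v hv
    rw [I_FinA.PT_cons ty c h0, eval_eq_eval_mv_eval'] at h2
    change Polynomial.eval _ (Polynomial.map (eval (PT τ ty' c' v)) (finSuccEquiv ℂ N F)) = 0 at h2
    rw [hvp] at h2
    rw [← add_assoc]
    exact h2
  obtain ⟨d₀, hd₀⟩ := hD
  -- elliptic variables
  have hell : ∀ j : Fin N, ty' j = Ty.ell → ∀ m n : ℤ,
      α j * (m + n * τ) + (c 0 j.succ - ∑ i, (if ty' i = Ty.add then α i * c' i j else 0)) *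
        (et τ * (m + n * τ) - 2 * Real.pi * Complex.I * n) = 0 := by
    intro j hj m n
    refine I_FinA.step0 hq0 (z := k d₀ + (∑ i, α i * p i +
        ∑ j : Fin N, (if ty' j = Ty.ell then c 0 j.succ * zt 1 τ (p j) else 0))) fun l => ?_
    have h2 := I_FinA.inner_ell hτ ty' c' p j hj (l * m) (l * n)
    have h3 := I_FinA.outer_ell hτ ty' c' (fun j => c 0 j.succ) α p j hj (l * m) (l * n)
    have h4 := hroot d₀ hd₀ _ ?_ h2
    · rw [h3] at h4
      convert h4 using 2
      push_cast
      ring
    · intro i hi hmem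
      by_cases hij : i = j
      · simp only [hij, if_true] at hmem
        have h5 := I_FinA.Lam_sub hmem (I_FinA.mem_Lam τ (l * m) (l * n))
        rw [add_sub_cancel_right] at h5
        exact hpG j hj h5
      · simp only [hij, if_false] at hmem
        rw [if_neg (by rw [hi]; exact fun h => Ty.noConfusion h)] at hmem
        exact hpG i hi hmem
  have hell2 : ∀ j : Fin N, ty' j = Ty.ell → α j = 0 ∧
      c 0 j.succ - ∑ i, (if ty' i = Ty.add then α i * c' i j else 0) = 0 := by
    intro j hj
    have e1 := hell j hj 1 0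
    have e2 := hell j hj 0 1
    set β : ℂ := c 0 j.succ - ∑ i, (if ty' i = Ty.add then α i * c' i j else 0) with hβ
    have hpi : (2 * Real.pi * Complex.I : ℂ) ≠ 0 := Complex.two_pi_I_ne_zero
    have e3 : β * (2 * Real.pi * Complex.I) = 0 := by
      push_cast at e1 e2
      linear_combination τ * e1 - e2
    have e4 : β = 0 := (mul_eq_zero.1 e3).resolve_right hpi
    refine ⟨?_, e4⟩
    rw [e4] at e1
    push_cast at e1
    linear_combination e1
  have hmul : ∀ j : Fin N, ty' j = Ty.mul → α j = 0 := by
    intro j hj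
    have hpi : (2 * Real.pi * Complex.I : ℂ) ≠ 0 := Complex.two_pi_I_ne_zero
    have h5 : α j * (2 * Real.pi * Complex.I) = 0 := by
      refine I_FinA.step0 hq0 (z := k d₀ + (∑ i, α i * p i +
        ∑ j : Fin N, (if ty' j = Ty.ell then c 0 j.succ * zt 1 τ (p j) else 0))) fun l => ?_
      have h2 := I_FinA.inner_mul (τ := τ) ty' c' p j hj l
      have h3 := I_FinA.outer_mul (τ := τ) ty' (fun j => c 0 j.succ) α p j hj l
      have h4 := hroot d₀ hd₀ _ ?_ h2
      · rw [h3] at h4
        convert h4 using 2
        ring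
      · intro i hi hmem
        have hij : i ≠ j := by
          rintro rfl
          rw [hj] at hi
          exact Ty.noConfusion hi
        simp only [hij, if_false] at hmem
        exact hpG i hi hmem
    exact (mul_eq_zero.1 h5).resolve_right hpi
  have hα : ∀ i : Fin N, ty i.succ ≠ Ty.add → α i = 0 := by
    intro i hi
    cases h : ty i.succ
    · exact absurd h hi
    · exact hmul i h
    · exact (hell2 i h).1
  refine ⟨hα, ?_, ?_⟩
  · intro j hj
    have h2 := (hell2 j hj).2
    rw [sub_eq_zero] at h2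
    rw [h2]
    refine Finset.sum_congr rfl fun i _ => ?_
    split_ifs with hi
    · rfl
    · rw [hα i hi, zero_mul]
  · -- the constants
    classical
    set T : Finset ℂ := D.image k with hT
    have hTB : T.card ≤ B := by
      set Z : ℂ := ∑ i, α i * p i +
        ∑ j : Fin N, (if ty' j = Ty.ell then c 0 j.succ * zt 1 τ (p j) else 0) with hZ
      have h2 : (T.image (fun t => t + Z)).card = T.card :=
        Finset.card_image_of_injective _ (fun a b h => add_right_cancel h)
      rw [← h2]
      refine le_trans (Finset.card_le_card (t := q.roots.toFinset) ?_) ?_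
      · intro x hx
        rw [Finset.mem_image] at hx
        obtain ⟨t, ht, rfl⟩ := hx
        rw [hT, Finset.mem_image] at ht
        obtain ⟨d, hd, rfl⟩ := ht
        rw [Multiset.mem_toFinset, Polynomial.mem_roots hq0]
        exact hroot d hd p hpG rfl
      · exact le_trans (Multiset.toFinset_card_le _) (le_trans (Polynomial.card_roots' q) hqd)
    have hTne : T.Nonempty := ⟨k d₀, Finset.mem_image_of_mem k hd₀⟩
    obtain ⟨t, ht, hmax⟩ := Finset.exists_max_image T
      (fun t => (D.filter (fun d => k d = t)).card) hTne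
    refine ⟨D.filter (fun d => k d = t), Finset.filter_subset _ _, ?_, ?_⟩
    · have h3 := Finset.card_le_mul_card_image (f := k) D
        (D.filter (fun d => k d = t)).card (fun a ha => hmax a ha)
      refine le_trans h3 ?_
      rw [mul_comm]
      exact Nat.mul_le_mul_right _ hTB
    · intro d hd d' hd'
      rw [Finset.mem_filter] at hd hd'
      rw [hd.2, hd'.2]

end Pool.Agent.Work.MP_8da9ea_nt.MX
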