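import Pool.Agent.Work.MP_8da9ea_nt.MX.StmtsZ
import Pool.Agent.Work.MP_8da9ea_nt.EB.I_Fin

/-!
# Mixed block, item FinMu: affine branch, multiplicative outer variable
-/

set_option autoImplicit false

namespace Pool.Agent.Work.MP_8da9ea_nt.MX

open MvPolynomial Metric Pool.Agent.Work.MP_8da9ea_nt Pool.Agent.Work.MP_8da9ea_nt.EB

namespace I_FinMu

/-- at most `B` values of one coordinate on the zero set -/
lemma card_le {m B : ℕ} (F : MvPolynomial (Fin m) ℂ) (x : Fin m → ℂ) (i : Fin m)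
    (hx : eval x F ≠ 0) (hB : F.degreeOf i ≤ B) (Z : Finset ℂ)
    (hZ : ∀ z ∈ Z, eval (Function.update x i z) F = 0) : Z.card ≤ B := by
  classical
  set p := XFin.uni i x F with hp
  have hp0 : p ≠ 0 := by
    intro h2
    apply hx
    have h3 := XFin.eval_uni i x F (x i)
    rw [← hp, h2, Polynomial.eval_zero, Function.update_eq_self] at h3
    exact h3.symm
  have hsub : Z ⊆ p.roots.toFinset := by
    intro z hz
    rw [Multiset.mem_toFinset, Polynomial.mem_roots hp0, Polynomial.IsRoot, hp, XFin.eval_uni]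
    exact hZ z hz
  refine (Finset.card_le_card hsub).trans ?_
  refine (Multiset.toFinset_card_le _).trans ((Polynomial.card_roots' _).trans ?_)
  exact (XFin.natDegree_uni i _ _).trans hB

/-- among `B + 1` values two coincide -/
lemma two_eq {m B : ℕ} (F : MvPolynomial (Fin m) ℂ) (x : Fin m → ℂ) (i : Fin m)
    (hx : eval x F ≠ 0) (hB : F.degreeOf i ≤ B) (f : ℕ → ℂ)
    (hf : ∀ n, n ≤ B → eval (Function.update x i (f n)) F = 0) :
    ∃ a b : ℕ, b < a ∧ a ≤ B ∧ f a = f b := by
  classical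
  by_contra hcon
  push Not at hcon
  have h1 := card_le F x i hx hB ((Finset.range (B + 1)).image f) (by
    intro z hz
    obtain ⟨n, hn, rfl⟩ := Finset.mem_image.1 hz
    rw [Finset.mem_range] at hn
    exact hf n (by omega))
  rw [Finset.card_image_of_injOn, Finset.card_range] at h1
  · omega
  · intro a ha b hb hab
    rw [Finset.mem_coe, Finset.mem_range] at ha hb
    rcases lt_trichotomy a b with h | h | h
    · exact absurd hab.symm (hcon b a h (by omega))
    · exact h
    · exact absurd hab (hcon a b h (by omega))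

variable {τ : ℂ} {N : ℕ} {ty : Fin (N + 1) → Ty} {c : Fin (N + 1) → Fin (N + 1) → ℂ}

/-- the coordinates of the points of a branch: the outer one -/
lemma PT_zero (h0 : ty 0 = Ty.mul) (y : ℂ) (v : Fin N → ℂ) :
    PT τ ty c (Fin.cons y v) 0 = Complex.exp y := by
  simp only [PT, h0, Fin.cons_zero]

lemma PT_mul {i : Fin N} (hi : ty i.succ = Ty.mul) (y : ℂ) (v : Fin N → ℂ) :
    PT τ ty c (Fin.cons y v) i.succ = Complex.exp (v i) := by
  simp only [PT, hi, Fin.cons_succ]

lemma PT_ell {i : Fin N} (hi : ty i.succ = Ty.ell) (y : ℂ) (v : Fin N → ℂ) :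
    PT τ ty c (Fin.cons y v) i.succ = wp 1 τ (v i) := by
  simp only [PT, hi, Fin.cons_succ]

/-- points with the same inner coordinates -/
lemma PT_upd (h0 : ty 0 = Ty.mul) (hna : ∀ i : Fin N, ty i.succ ≠ Ty.add) (y z : ℂ)
    (v w : Fin N → ℂ) (hm : ∀ i, ty i.succ = Ty.mul → Complex.exp (w i) = Complex.exp (v i))
    (he : ∀ i, ty i.succ = Ty.ell → wp 1 τ (w i) = wp 1 τ (v i)) :
    PT τ ty c (Fin.cons z w) =
      Function.update (PT τ ty c (Fin.cons y v)) 0 (Complex.exp z) := by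
  funext j
  refine Fin.cases ?_ (fun i => ?_) j
  · rw [Function.update_self, PT_zero h0]
  · rw [Function.update_of_ne (Fin.succ_ne_zero i)]
    rcases hty : ty i.succ with _ | _ | _
    · exact absurd hty (hna i)
    · rw [PT_mul hty, PT_mul hty, hm i hty]
    · rw [PT_ell hty, PT_ell hty, he i hty]

/-- points which differ in one multiplicative inner coordinate -/
lemma PT_upd_in (h0 : ty 0 = Ty.mul) (hna : ∀ i : Fin N, ty i.succ ≠ Ty.add) (y z : ℂ)
    (v : Fin N → ℂ) (i : Fin N) (hi : ty i.succ = Ty.mul) (s : ℂ)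
    (hz : Complex.exp z = Complex.exp y) :
    PT τ ty c (Fin.cons z (Function.update v i s)) =
      Function.update (PT τ ty c (Fin.cons y v)) i.succ (Complex.exp s) := by
  funext j
  refine Fin.cases ?_ (fun l => ?_) j
  · rw [Function.update_of_ne (Fin.succ_ne_zero i).symm, PT_zero h0, PT_zero h0, hz]
  · by_cases hl : l = i
    · subst hl
      rw [Function.update_self, PT_mul hi, Function.update_self]
    · rw [Function.update_of_ne (fun h => hl (Fin.succ_injective _ h))]
      rcases hty : ty l.succ with _ | _ | _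
      · exact absurd hty (hna l)
      · rw [PT_mul hty, PT_mul hty, Function.update_of_ne hl]
      · rw [PT_ell hty, PT_ell hty, Function.update_of_ne hl]

lemma sum_update (α v : Fin N → ℂ) (i : Fin N) (s : ℂ) :
    ∑ j, α j * Function.update v i s j = ∑ j, α j * v j + α i * (s - v i) := by
  classical
  rw [← Finset.add_sum_erase _ _ (Finset.mem_univ i),
    ← Finset.add_sum_erase Finset.univ (fun j => α j * v j) (Finset.mem_univ i)]
  rw [Function.update_self]
  have h3 : ∑ j ∈ Finset.univ.erase i, α j * Function.update v i s j =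
      ∑ j ∈ Finset.univ.erase i, α j * v j := by
    refine Finset.sum_congr rfl fun j hj => ?_
    rw [Function.update_of_ne (Finset.ne_of_mem_erase hj)]
  rw [h3]
  ring

lemma two_pi_I_ne : (2 * Real.pi * Complex.I : ℂ) ≠ 0 := Complex.two_pi_I_ne_zero

/-- coincidence of two exponentials in an arithmetic progression -/
lemma exp_coinc {s t : ℂ} {a b : ℕ} (hab : b < a)
    (h : Complex.exp (s + t * (a : ℂ)) = Complex.exp (s + t * (b : ℂ))) :
    ∃ z : ℤ, ((a - b : ℕ) : ℂ) * t = (z : ℂ) * (2 * Real.pi * Complex.I) := by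
  obtain ⟨z, hz⟩ := Complex.exp_eq_exp_iff_exists_int.1 h
  refine ⟨z, ?_⟩
  rw [Nat.cast_sub hab.le]
  linear_combination hz

/-- The zero set contains the branch. -/
def Br (τ : ℂ) (ty : Fin (N + 1) → Ty) (c : Fin (N + 1) → Fin (N + 1) → ℂ)
    (F : MvPolynomial (Fin (N + 1)) ℂ) (α : Fin N → ℂ) (κ : ℂ) : Prop :=
  ∀ v : Fin N → ℂ, Gd τ (fun i : Fin N => ty i.succ) v →
    eval (PT τ ty c (Fin.cons (κ + ∑ i, α i * v i) v)) F = 0

/-- lattice translation of one inner variable -/
lemma Br.shift (h0 : ty 0 = Ty.mul) (hna : ∀ i : Fin N, ty i.succ ≠ Ty.add)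
    {F : MvPolynomial (Fin (N + 1)) ℂ} {B : ℕ} (hB : F.degreeOf 0 ≤ B) {α : Fin N → ℂ} {κ : ℂ}
    (h : Br τ ty c F α κ) (y : ℂ) (v : Fin N → ℂ)
    (hF : eval (PT τ ty c (Fin.cons y v)) F ≠ 0) (i : Fin N) (l : ℂ)
    (hg : ∀ k : ℕ, Gd τ (fun i : Fin N => ty i.succ) (Function.update v i (v i + (k : ℂ) * l)))
    (hm : ty i.succ = Ty.mul → ∀ k : ℕ, Complex.exp (v i + (k : ℂ) * l) = Complex.exp (v i))
    (he : ty i.succ = Ty.ell → ∀ k : ℕ, wp 1 τ (v i + (k : ℂ) * l) = wp 1 τ (v i)) :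
    ∃ n : ℕ, 1 ≤ n ∧ n ≤ B ∧ ∃ z : ℤ, (n : ℂ) * (α i * l) = (z : ℂ) * (2 * Real.pi * Complex.I) := by
  classical
  obtain ⟨a, b, hab, haB, hf⟩ := two_eq F (PT τ ty c (Fin.cons y v)) 0 hF hB
    (fun n => Complex.exp (κ + ∑ j, α j * v j + (α i * l) * (n : ℂ))) (by
      intro n _
      have h1 := h (Function.update v i (v i + (n : ℂ) * l)) (hg n)
      rw [sum_update] at h1
      have h2 : κ + (∑ j, α j * v j + α i * (v i + (n : ℂ) * l - v i)) =
          κ + ∑ j, α j * v j + (α i * l) * (n : ℂ) := by ring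
      rw [h2] at h1
      rw [PT_upd h0 hna y _ v] at h1
      · exact h1
      · intro j hj
        by_cases hji : j = i
        · subst hji
          rw [Function.update_self]
          exact hm hj n
        · rw [Function.update_of_ne hji]
      · intro j hj
        by_cases hji : j = i
        · subst hji
          rw [Function.update_self]
          exact he hj n
        · rw [Function.update_of_ne hji])
  obtain ⟨z, hz⟩ := exp_coinc hab hf
  exact ⟨a - b, by omega, by omega, z, hz⟩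

/-- the elliptic coefficients vanish -/
lemma Br.ell (hτ : 0 < τ.im) (h0 : ty 0 = Ty.mul) (hna : ∀ i : Fin N, ty i.succ ≠ Ty.add)
    {F : MvPolynomial (Fin (N + 1)) ℂ} {B : ℕ} (hB : F.degreeOf 0 ≤ B) {α : Fin N → ℂ} {κ : ℂ}
    (h : Br τ ty c F α κ) (y : ℂ) (v : Fin N → ℂ)
    (hF : eval (PT τ ty c (Fin.cons y v)) F ≠ 0) (hv : Gd τ (fun i : Fin N => ty i.succ) v)
    (i : Fin N) (hi : ty i.succ = Ty.ell) : α i = 0 := by
  classical
  have key : ∀ l ∈ Lam τ, ∃ n : ℕ, 1 ≤ n ∧ n ≤ B ∧ ∃ z : ℤ,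
      (n : ℂ) * (α i * l) = (z : ℂ) * (2 * Real.pi * Complex.I) := by
    intro l hl
    have hk : ∀ k : ℕ, (k : ℂ) * l ∈ Lam τ := by
      intro k
      have := (XFin.LG τ).nsmul_mem (x := l) hl k
      rw [nsmul_eq_mul] at this
      exact this
    refine h.shift h0 hna hB y v hF i l ?_ ?_ ?_
    · intro k j hj
      by_cases hji : j = i
      · subst hji
        rw [Function.update_self, XFin.add_mem_iff (hk k)]
        exact hv j hj
      · rw [Function.update_of_ne hji]
        exact hv j hj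
    · intro hm
      rw [hi] at hm
      exact absurd hm (by decide)
    · intro _ k
      exact XFin.wp_per hτ _ (hk k)
  obtain ⟨a, ha1, -, za, hza⟩ := key 1 (mem_Lam.2 ⟨1, 0, by simp⟩)
  obtain ⟨b, hb1, -, zb, hzb⟩ := key τ (mem_Lam.2 ⟨0, 1, by simp⟩)
  by_contra hα
  have ha0 : (a : ℂ) ≠ 0 := by
    have : a ≠ 0 := by omega
    exact_mod_cast this
  have hb0 : (b : ℂ) ≠ 0 := by
    have : b ≠ 0 := by omega
    exact_mod_cast this
  rw [mul_one] at hza
  have hza0 : (za : ℂ) ≠ 0 := by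
    intro h1
    rw [h1, zero_mul] at hza
    exact (mul_ne_zero ha0 hα) hza
  -- `b * za * τ = a * zb`
  have h1 : (b : ℂ) * za * τ = a * zb := by
    have h2 : (b : ℂ) * za * τ * (2 * Real.pi * Complex.I) =
        a * zb * (2 * Real.pi * Complex.I) := by
      linear_combination (-(b : ℂ) * τ) * hza + (a : ℂ) * hzb
    exact mul_right_cancel₀ two_pi_I_ne h2
  have h2 : τ = ((a * zb / (b * za) : ℝ) : ℂ) := by
    push_cast
    rw [eq_div_iff (mul_ne_zero hb0 hza0)]
    linear_combination h1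
  rw [h2, Complex.ofReal_im] at hτ
  exact lt_irrefl _ hτ

/-- the multiplicative coefficients are rational -/
lemma Br.mul (h0 : ty 0 = Ty.mul) (hna : ∀ i : Fin N, ty i.succ ≠ Ty.add)
    {F : MvPolynomial (Fin (N + 1)) ℂ} {B : ℕ} (hB : F.degreeOf 0 ≤ B) {α : Fin N → ℂ} {κ : ℂ}
    (h : Br τ ty c F α κ) (y : ℂ) (v : Fin N → ℂ)
    (hF : eval (PT τ ty c (Fin.cons y v)) F ≠ 0) (hv : Gd τ (fun i : Fin N => ty i.succ) v)
    (i : Fin N) (hi : ty i.succ = Ty.mul) :
    ∃ n : ℕ, 1 ≤ n ∧ n ≤ B ∧ ∃ z : ℤ, (n : ℂ) * α i = (z : ℂ) := by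
  classical
  obtain ⟨n, hn1, hn2, z, hz⟩ := h.shift h0 hna hB y v hF i (2 * Real.pi * Complex.I) (by
    intro k j hj
    by_cases hji : j = i
    · subst hji
      have hj' : ty j.succ = Ty.ell := hj
      rw [hi] at hj'
      exact absurd hj' (by decide)
    · rw [Function.update_of_ne hji]
      exact hv j hj) (by
    intro _ k
    rw [Complex.exp_eq_exp_iff_exists_int]
    exact ⟨k, by push_cast; ring⟩) (by
    intro he
    rw [hi] at he
    exact absurd he (by decide))
  refine ⟨n, hn1, hn2, z, ?_⟩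
  have h2 : (n : ℂ) * α i * (2 * Real.pi * Complex.I) = z * (2 * Real.pi * Complex.I) := by
    linear_combination hz
  exact mul_right_cancel₀ two_pi_I_ne h2

/-- the size of the multiplicative coefficients -/
lemma Br.size (h0 : ty 0 = Ty.mul) (hna : ∀ i : Fin N, ty i.succ ≠ Ty.add)
    {F : MvPolynomial (Fin (N + 1)) ℂ} {B : ℕ} {α : Fin N → ℂ} {κ : ℂ}
    (h : Br τ ty c F α κ) (y : ℂ) (v : Fin N → ℂ)
    (hF : eval (PT τ ty c (Fin.cons y v)) F ≠ 0) (hv : Gd τ (fun i : Fin N => ty i.succ) v)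
    (i : Fin N) (hB : F.degreeOf i.succ ≤ B) (hi : ty i.succ = Ty.mul) :
    ‖α i‖ ≤ (B : ℝ) := by
  classical
  by_cases hα : α i = 0
  · rw [hα, norm_zero]
    positivity
  set s₀ : ℂ := v i + (y - κ - ∑ j, α j * v j) / α i with hs₀
  obtain ⟨a, b, hab, haB, hf⟩ := two_eq F (PT τ ty c (Fin.cons y v)) i.succ hF hB
    (fun n => Complex.exp (s₀ + (2 * Real.pi * Complex.I / α i) * (n : ℂ))) (by
      intro n _
      have h1 := h (Function.update v i (s₀ + (2 * Real.pi * Complex.I / α i) * (n : ℂ))) (by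
        intro j hj
        by_cases hji : j = i
        · subst hji
          have hj' : ty j.succ = Ty.ell := hj
          rw [hi] at hj'
          exact absurd hj' (by decide)
        · rw [Function.update_of_ne hji]
          exact hv j hj)
      rw [sum_update] at h1
      have h2 : κ + (∑ j, α j * v j +
          α i * (s₀ + (2 * Real.pi * Complex.I / α i) * (n : ℂ) - v i)) =
          y + (n : ℂ) * (2 * Real.pi * Complex.I) := by
        rw [hs₀]
        field_simp
        ring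
      rw [h2] at h1
      rw [PT_upd_in h0 hna y _ v i hi] at h1
      · exact h1
      · rw [Complex.exp_eq_exp_iff_exists_int]
        exact ⟨n, by push_cast; ring⟩)
  obtain ⟨z, hz⟩ := exp_coinc hab hf
  have hn : ((a - b : ℕ) : ℂ) ≠ 0 := by
    have : a - b ≠ 0 := by omega
    exact_mod_cast this
  have h3 : ((a - b : ℕ) : ℂ) = z * α i := by
    have h4 : ((a - b : ℕ) : ℂ) * (2 * Real.pi * Complex.I) =
        z * α i * (2 * Real.pi * Complex.I) := by
      have h5 : ((a - b : ℕ) : ℂ) * (2 * Real.pi * Complex.I / α i) * α i =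
          ((a - b : ℕ) : ℂ) * (2 * Real.pi * Complex.I) := by
        field_simp
      rw [← h5, hz]
      ring
    exact mul_right_cancel₀ two_pi_I_ne h4
  have hz0 : z ≠ 0 := by
    rintro rfl
    rw [Int.cast_zero, zero_mul] at h3
    exact hn h3
  have h4 : (((a - b : ℕ)) : ℝ) = ‖(z : ℂ)‖ * ‖α i‖ := by
    rw [← norm_mul, ← h3, Complex.norm_natCast]
  have h5 : (1 : ℝ) ≤ ‖(z : ℂ)‖ := by
    rw [Complex.norm_intCast]
    exact_mod_cast Int.one_le_abs hz0
  have h6 : (((a - b : ℕ)) : ℝ) ≤ B := by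
    have : a - b ≤ B := by omega
    exact_mod_cast this
  have h7 : ‖α i‖ ≤ ‖(z : ℂ)‖ * ‖α i‖ := le_mul_of_one_le_left (norm_nonneg _) h5
  linarith

/-- the classes of the constants -/
lemma classes (h0 : ty 0 = Ty.mul) (hna : ∀ i : Fin N, ty i.succ ≠ Ty.add)
    {F : MvPolynomial (Fin (N + 1)) ℂ} {B : ℕ} (hB : F.degreeOf 0 ≤ B) {α : Fin N → ℂ}
    {κ : Type} (D : Finset κ) (k : κ → ℂ) (hk : ∀ d ∈ D, Br τ ty c F α (k d)) (y : ℂ)
    (v : Fin N → ℂ) (hF : eval (PT τ ty c (Fin.cons y v)) F ≠ 0)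
    (hv : Gd τ (fun i : Fin N => ty i.succ) v) (hD : D.Nonempty) :
    ∃ D' ⊆ D, D.card ≤ B * D'.card ∧ ∀ d ∈ D', ∀ d' ∈ D', ∃ z : ℤ,
      k d - k d' = (z : ℂ) * (2 * Real.pi * Complex.I) := by
  classical
  set f : κ → ℂ := fun d => Complex.exp (k d + ∑ i, α i * v i) with hf
  have himg : (D.image f).card ≤ B := by
    refine card_le F (PT τ ty c (Fin.cons y v)) 0 hF hB (D.image f) ?_
    intro z hz
    obtain ⟨d, hd, rfl⟩ := Finset.mem_image.1 hz
    have h1 := hk d hd v hv
    rw [PT_upd h0 hna y _ v v (fun _ _ => rfl) (fun _ _ => rfl)] at h1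
    exact h1
  by_contra hcon
  push Not at hcon
  have hDc : 0 < D.card := hD.card_pos
  have himg0 : 0 < (D.image f).card := (hD.image f).card_pos
  have hB0 : 0 < B := lt_of_lt_of_le himg0 himg
  have h1 : D.card ≤ (D.card - 1) / B * (D.image f).card := by
    refine Finset.card_le_mul_card_image D _ fun q hq => ?_
    rw [Nat.le_div_iff_mul_le hB0]
    by_contra h2
    push Not at h2
    have h3 : D.card ≤ B * (D.filter (fun x => f x = q)).card := by
      rw [mul_comm]
      omega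
    obtain ⟨d, hd, d', hd', h4⟩ := hcon _ (Finset.filter_subset _ _) h3
    rw [Finset.mem_filter] at hd hd'
    have h5 : f d = f d' := hd.2.trans hd'.2.symm
    obtain ⟨z, hz⟩ := Complex.exp_eq_exp_iff_exists_int.1 h5
    exact h4 z (by linear_combination hz)
  have h2 : (D.card - 1) / B * (D.image f).card ≤ (D.card - 1) / B * B :=
    Nat.mul_le_mul_left _ himg
  have h3 : (D.card - 1) / B * B ≤ D.card - 1 := Nat.div_mul_le_self _ _
  omega

end I_FinMu

theorem FinMu_pf (h1 : S_DenM) : S_FinMu := by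
  classical
  intro τ hτ N B ty c F α κ D k h0 hna hB1 hF hB hD hk
  obtain ⟨p, -, hp1, hp2⟩ := h1 τ hτ (N + 1) ty c F hF 0 1 one_pos
  obtain ⟨y, v, rfl⟩ : ∃ (y : ℂ) (v : Fin N → ℂ), p = Fin.cons y v :=
    ⟨p 0, Fin.tail p, (Fin.cons_self_tail p).symm⟩
  have hv : Gd τ (fun i : Fin N => ty i.succ) v := by
    intro i hi
    have := hp1 i.succ hi
    rwa [Fin.cons_succ] at this
  have hbr : ∀ d ∈ D, I_FinMu.Br τ ty c F α (k d) := fun d hd v hv => hk d hd v hv
  obtain ⟨d₀, hd₀⟩ := hD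
  have hell : ∀ j : Fin N, ty j.succ = Ty.ell → α j = 0 := fun j hj =>
    (hbr d₀ hd₀).ell hτ h0 hna (hB 0) y v hp2 hv j hj
  have hrat : ∀ i : Fin N, ∃ n : ℕ, 1 ≤ n ∧ n ≤ B ∧ ∃ z : ℤ, (n : ℂ) * α i = (z : ℂ) := by
    intro i
    rcases hty : ty i.succ with _ | _ | _
    · exact absurd hty (hna i)
    · exact (hbr d₀ hd₀).mul h0 hna (hB 0) y v hp2 hv i hty
    · exact ⟨1, le_rfl, hB1, 0, by rw [hell i hty]; simp⟩
  refine ⟨hell, ?_, ?_, ?_⟩
  · choose n hn1 hn2 z hz using hrat
    refine ⟨∏ i, n i, ?_, ?_, ?_⟩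
    · exact Finset.prod_ne_zero_iff.2 fun i _ => by have := hn1 i; omega
    · calc ∏ i, n i ≤ ∏ _i : Fin N, B := Finset.prod_le_prod' fun i _ => hn2 i
        _ = B ^ N := by simp
    · intro i
      refine ⟨(∏ j ∈ Finset.univ.erase i, (n j : ℤ)) * z i, ?_⟩
      rw [← Finset.mul_prod_erase Finset.univ n (Finset.mem_univ i)]
      push_cast
      rw [← hz i]
      ring
  · intro i
    rcases hty : ty i.succ with _ | _ | _
    · exact absurd hty (hna i)
    · exact (hbr d₀ hd₀).size h0 hna y v hp2 hv i (hB i.succ) hty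
    · rw [hell i hty, norm_zero]
      positivity
  · exact I_FinMu.classes h0 hna (hB 0) D k hbr y v hp2 hv ⟨d₀, hd₀⟩

end Pool.Agent.Work.MP_8da9ea_nt.MX
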