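import Pool.Agent.Work.MP_8da9ea_nt.MX.StmtsZ

/-!
# Mixed block, item GlobM: continuation of the identity along complex lines
-/

set_option autoImplicit false

namespace Pool.Agent.Work.MP_8da9ea_nt.MX

open MvPolynomial Metric Filter Topology Pool.Agent.Work.MP_327059_nt.GL
  Pool.Agent.Work.MP_8da9ea_nt.S Pool.Agent.Work.MP_8da9ea_nt.EB

namespace I_GlobM

/-- The bad parameters of an affine function form a closed countable set. -/
theorem bad {τ : ℂ} (hτ : 0 < τ.im) (p q : ℂ) (hp : p ∉ Lam τ) :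
    IsClosed {s : ℂ | p + s * q ∈ Lam τ} ∧ {s : ℂ | p + s * q ∈ Lam τ}.Countable := by
  constructor
  · have hc : Continuous (fun s : ℂ => p + s * q) := by fun_prop
    exact (Lam_closed hτ).preimage hc
  · by_cases hq : q = 0
    · have h0 : {s : ℂ | p + s * q ∈ Lam τ} = ∅ := by
        ext s
        constructor
        · intro hs
          have h1 : p + s * q ∈ Lam τ := hs
          rw [hq, mul_zero, add_zero] at h1
          exact absurd h1 hp
        · intro hs
          exact absurd hs (Set.notMem_empty s)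
      rw [h0]
      exact Set.countable_empty
    · have hinj : Function.Injective (fun s : ℂ => p + s * q) := by
        intro a b hab
        exact mul_right_cancel₀ hq (add_left_cancel hab)
      exact (Lam_countable τ).preimage hinj

/-- The coordinates of an analytic family of parameters are analytic. -/
theorem anPT {τ : ℂ} (hτ : 0 < τ.im) {M : ℕ} (ty : Fin M → Ty) (c : Fin M → Fin M → ℂ)
    (P : Fin M → ℂ → ℂ) (s : ℂ) (hP : ∀ i, AnalyticAt ℂ (P i) s)
    (hg : ∀ i, ty i = Ty.ell → P i s ∉ Lam τ) (i : Fin M) :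
    AnalyticAt ℂ (fun x => PT τ ty c (fun k => P k x) i) s := by
  unfold PT
  rcases hi : ty i with _ | _ | _
  · simp only [hi]
    refine (hP i).fun_add ?_
    refine Finset.analyticAt_fun_sum _ fun j _ => ?_
    by_cases hj : ty j = Ty.ell
    · simp only [hj, if_true]
      have h2 : AnalyticAt ℂ (fun z => zt 1 τ z) (P j s) := analyticOn_zt hτ _ (hg j hj)
      have h5 := AnalyticAt.fun_comp (g := fun z => zt 1 τ z) (f := P j) h2 (hP j)
      exact analyticAt_const.fun_mul h5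
    · simp only [hj, if_false]
      exact analyticAt_const
  · simp only [hi]
    exact (hP i).cexp'
  · simp only [hi]
    have h2 : AnalyticAt ℂ (fun z => wp 1 τ z) (P i s) := analyticOn_wp hτ _ (hg i hi)
    exact AnalyticAt.fun_comp (g := fun z => wp 1 τ z) (f := P i) h2 (hP i)

end I_GlobM

theorem GlobM_pf : S_GlobM := by
  intro τ hτ N ty c F hty κ α v₀ r hr hball v hv
  -- the line
  obtain ⟨g, hg⟩ : ∃ g : Fin N → ℂ → ℂ, g = fun i s => v₀ i + s * (v i - v₀ i) := ⟨_, rfl⟩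
  obtain ⟨B, hB⟩ : ∃ B : Set ℂ, B =
      ⋃ i, ⋃ (_ : ty i.succ = Ty.ell), {s : ℂ | v₀ i + s * (v i - v₀ i) ∈ Lam τ} := ⟨_, rfl⟩
  have hv₀ := hball v₀ (mem_ball_self hr)
  have hBclosed : IsClosed B := by
    rw [hB]
    refine isClosed_iUnion_of_finite fun i => isClosed_iUnion_of_finite fun hi => ?_
    exact (I_GlobM.bad hτ (v₀ i) (v i - v₀ i) (hv₀.1 i hi)).1
  have hBcount : B.Countable := by
    rw [hB]
    refine Set.countable_iUnion fun i => Set.countable_iUnion fun hi => ?_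
    exact (I_GlobM.bad hτ (v₀ i) (v i - v₀ i) (hv₀.1 i hi)).2
  have hconn : IsPreconnected Bᶜ :=
    (Set.Countable.isConnected_compl_of_one_lt_rank (by simp) hBcount).2
  have hmemB : ∀ s i, ty i.succ = Ty.ell → g i s ∈ Lam τ → s ∈ B := by
    intro s i hi hs
    rw [hB]
    refine Set.mem_iUnion.mpr ⟨i, Set.mem_iUnion.mpr ⟨hi, ?_⟩⟩
    rw [hg] at hs
    exact hs
  have hmemB' : ∀ s ∈ B, ∃ i, ty i.succ = Ty.ell ∧ g i s ∈ Lam τ := by
    intro s hs
    rw [hB] at hs
    obtain ⟨i, hi⟩ := Set.mem_iUnion.mp hs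
    obtain ⟨h1, h2⟩ := Set.mem_iUnion.mp hi
    refine ⟨i, h1, ?_⟩
    rw [hg]
    exact h2
  -- the function
  obtain ⟨P, hPd⟩ : ∃ P : Fin (N + 1) → ℂ → ℂ, P = fun k s =>
      (Fin.cons (κ + ∑ i, α i * g i s) (fun i => g i s) : Fin (N + 1) → ℂ) k := ⟨_, rfl⟩
  have hgan : ∀ i s, AnalyticAt ℂ (g i) s := by
    intro i s
    rw [hg]
    exact analyticAt_const.fun_add (analyticAt_id.fun_mul analyticAt_const)
  have hPan : ∀ k s, AnalyticAt ℂ (P k) s := by
    intro k s
    rw [hPd]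
    refine Fin.cases ?_ (fun i => ?_) k
    · show AnalyticAt ℂ (fun s => κ + ∑ i, α i * g i s) s
      refine analyticAt_const.fun_add ?_
      exact Finset.analyticAt_fun_sum _ fun j _ => analyticAt_const.fun_mul (hgan j s)
    · show AnalyticAt ℂ (fun s => g i s) s
      exact hgan i s
  obtain ⟨Φ, hΦ⟩ : ∃ Φ : ℂ → ℂ, Φ = fun s => eval (PT τ ty c (fun k => P k s)) F := ⟨_, rfl⟩
  have hΦ' : ∀ s, Φ s = eval (PT τ ty c
      (Fin.cons (κ + ∑ i, α i * g i s) (fun i => g i s) : Fin (N + 1) → ℂ)) F := by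
    intro s
    rw [hΦ, hPd]
  have han : AnalyticOnNhd ℂ Φ Bᶜ := by
    intro s hs
    rw [hΦ]
    refine AnalyticAt.aeval_mvPolynomial (fun i => ?_) F
    refine I_GlobM.anPT hτ ty c P s (fun k => hPan k s) (fun k hk => ?_) i
    rw [hPd]
    revert hk
    refine Fin.cases (fun hk => absurd hk hty) (fun i hi => ?_) k
    intro h
    exact hs (hmemB s i hi h)
  have hg0 : (fun i => g i 0 : Fin N → ℂ) = v₀ := by
    rw [hg]
    funext i
    show v₀ i + 0 * (v i - v₀ i) = v₀ i
    ring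
  have hg1 : (fun i => g i 1 : Fin N → ℂ) = v := by
    rw [hg]
    funext i
    show v₀ i + 1 * (v i - v₀ i) = v i
    ring
  have h0B : (0 : ℂ) ∈ Bᶜ := by
    intro h
    obtain ⟨i, h1, h2⟩ := hmemB' 0 h
    rw [congrFun hg0 i] at h2
    exact hv₀.1 i h1 h2
  have h1B : (1 : ℂ) ∈ Bᶜ := by
    intro h
    obtain ⟨i, h1, h2⟩ := hmemB' 1 h
    rw [congrFun hg1 i] at h2
    exact hv i h1 h2
  have hev : Φ =ᶠ[𝓝 0] 0 := by
    have hcont : Continuous (fun s : ℂ => (fun i => g i s : Fin N → ℂ)) := by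
      rw [hg]
      fun_prop
    have hmem : ∀ᶠ s : ℂ in 𝓝 0, (fun i => g i s : Fin N → ℂ) ∈ ball v₀ r := by
      apply hcont.continuousAt.eventually_mem
      rw [hg0]
      exact ball_mem_nhds v₀ hr
    filter_upwards [hmem] with s hs
    rw [hΦ' s]
    exact (hball _ hs).2
  have hz : Φ 1 = 0 := han.eqOn_zero_of_preconnected_of_eventuallyEq_zero hconn h0B hev h1B
  rw [hΦ' 1] at hz
  have hs1 : ∑ i, α i * g i 1 = ∑ i, α i * v i :=
    Finset.sum_congr rfl fun i _ => by rw [← congrFun hg1 i]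
  rw [hs1, hg1] at hz
  exact hz

end Pool.Agent.Work.MP_8da9ea_nt.MX
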