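import Pool.Agent.Work.MP_8da9ea_nt.MX.StmtsT
import Pool.Agent.Work.MP_8da9ea_nt.EB.I_MeasE

/-!
# The measure is automatic (mixed block)
-/

set_option autoImplicit false

namespace Pool.Agent.Work.MP_8da9ea_nt.MX

open MvPolynomial Pool.Agent.Work.MP_327059_nt.GL Pool.Agent.Work.MP_8da9ea_nt.S
  Pool.Agent.Work.MP_8da9ea_nt.EB

theorem MeasM_pf (h1 : S_StepMM) : S_MeasM := by
  intro Q ι _ hι
  obtain ⟨e, a, n₀, he, ha, H⟩ := h1 Q ι hι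
  refine ⟨e * a, n₀, fun τ μ ty i₀ π b c hN hA n hn x hx hNT hTr => ?_⟩
  obtain ⟨T₀, hT₀⟩ := H τ μ ty i₀ π b c hN hA n hn x hx hNT hTr
  refine I_MeasE.core hx he ha (T₀ := T₀) fun T hT a' ha' hV => ?_
  obtain ⟨s, hs, hb, hle⟩ := hV
  obtain ⟨s', hs', hb', hle'⟩ := hT₀ T hT a' ha' ⟨s, hs, hb, by
    have h2 : ((T ^ e : ℕ) : ℝ) ^ a' = (T : ℝ) ^ (e * a') := by
      push_cast
      rw [pow_mul]
    rw [h2] at hle
    exact hle⟩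
  exact ⟨s', hs', hb', hle'⟩

end Pool.Agent.Work.MP_8da9ea_nt.MX
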