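import Pool.Agent.Work.MP_8da9ea_nt.MX.StmtsZ
import Pool.Agent.Work.MP_8da9ea_nt.EB.I_Op1

/-!
# Mixed block, item Op1M: the norm of a translate in one elliptic variable

As in `EB/I_Op1` we work in `R[y]/(y² - f(x_j))` and take the norm of the numerator of
`F(PT(p + h))`.
-/

set_option autoImplicit false

namespace Pool.Agent.Work.MP_8da9ea_nt.MX

open MvPolynomial Metric Pool.Agent.Work.MP_327059_nt.GL Pool.Agent.Work.MP_8da9ea_nt.S
  Pool.Agent.Work.MP_8da9ea_nt.EB

namespace I_Op1M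

open Pool.Agent.Work.MP_8da9ea_nt.EB.I_Op1

variable {m : ℕ}

/-! ### The quasi-periods -/

/-- the quasi-periods -/
def QP (τ : ℂ) : AddSubgroup ℂ where
  carrier := {l | ∃ η : ℂ, ∀ z, zt 1 τ (z + l) = zt 1 τ z + η}
  zero_mem' := ⟨0, fun z => by rw [add_zero, add_zero]⟩
  add_mem' := by
    rintro a b ⟨x, hx⟩ ⟨y, hy⟩
    exact ⟨x + y, fun z => by rw [← add_assoc, hy, hx, add_assoc]⟩
  neg_mem' := by
    rintro a ⟨x, hx⟩
    refine ⟨-x, fun z => ?_⟩
    have := hx (z + -a)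
    rw [neg_add_cancel_right] at this
    rw [this]; ring

lemma zt_per {τ : ℂ} (hτ : 0 < τ.im) {l : ℂ} (hl : l ∈ Lam τ) :
    ∃ η : ℂ, ∀ z, zt 1 τ (z + l) = zt 1 τ z + η := by
  obtain ⟨m, n, rfl⟩ := mem_Lam.1 hl
  have h1 : (1 : ℂ) ∈ QP τ := ⟨_, fun z => zt_add_one' hτ z⟩
  have h2 : τ ∈ QP τ := ⟨_, fun z => zt_add_tau hτ z⟩
  have h3 : (m : ℂ) + n * τ ∈ QP τ := by
    have := (QP τ).add_mem ((QP τ).zsmul_mem h1 m) ((QP τ).zsmul_mem h2 n)
    simpa [zsmul_eq_mul] using this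
  exact h3

/-! ### The coordinates -/

section

variable {τ : ℂ} {ty : Fin m → Ty} {c : Fin m → Fin m → ℂ}

lemma PT_add {p : Fin m → ℂ} {i : Fin m} (h : ty i = Ty.add) : PT τ ty c p i =
    p i + ∑ j, (if ty j = Ty.ell then c i j * zt 1 τ (p j) else 0) := by
  simp only [PT, h]

lemma PT_mul {p : Fin m → ℂ} {i : Fin m} (h : ty i = Ty.mul) :
    PT τ ty c p i = Complex.exp (p i) := by
  simp only [PT, h]

lemma PT_ell {p : Fin m → ℂ} {i : Fin m} (h : ty i = Ty.ell) :
    PT τ ty c p i = wp 1 τ (p i) := by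
  simp only [PT, h]

lemma ne_of_ty {i j : Fin m} (hj : ty j = Ty.ell) (hi : ty i ≠ Ty.ell) : i ≠ j := by
  rintro rfl
  exact hi hj

/-- a sum which differs in one term -/
lemma sum_diff {j : Fin m} (hj : ty j = Ty.ell) (f g : Fin m → ℂ)
    (h : ∀ k, k ≠ j → ty k = Ty.ell → f k = g k) :
    ∑ k, (if ty k = Ty.ell then f k else 0) =
      ∑ k, (if ty k = Ty.ell then g k else 0) + (f j - g j) := by
  have h1 : ∀ k, (if ty k = Ty.ell then f k else 0) =
      (if ty k = Ty.ell then g k else 0) + (if k = j then f j - g j else 0) := by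
    intro k
    by_cases hk : k = j
    · subst hk
      rw [if_pos hj, if_pos hj, if_pos rfl]
      ring
    · rw [if_neg hk, add_zero]
      by_cases hk' : ty k = Ty.ell
      · rw [if_pos hk', if_pos hk', h k hk hk']
      · rw [if_neg hk', if_neg hk']
  rw [Finset.sum_congr rfl fun k _ => h1 k, Finset.sum_add_distrib]
  congr 1
  rw [Finset.sum_ite_eq' Finset.univ j, if_pos (Finset.mem_univ j)]

/-- the shift in one coordinate -/
noncomputable def sh (j : Fin m) (h : ℂ) (p : Fin m → ℂ) : Fin m → ℂ :=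
  fun i => p i + (Pi.single j h : Fin m → ℂ) i

lemma sh_self (j : Fin m) (h : ℂ) (p : Fin m → ℂ) : sh j h p j = p j + h := by
  rw [sh, Pi.single_eq_same]

lemma sh_ne {i j : Fin m} (hij : i ≠ j) (h : ℂ) (p : Fin m → ℂ) : sh j h p i = p i := by
  rw [sh, Pi.single_eq_of_ne hij, add_zero]

lemma PT_sh_add {p : Fin m → ℂ} {i j : Fin m} (hj : ty j = Ty.ell) (h : ℂ)
    (hi : ty i = Ty.add) : PT τ ty c (sh j h p) i =
      PT τ ty c p i + c i j * (zt 1 τ (p j + h) - zt 1 τ (p j)) := by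
  rw [PT_add hi, PT_add hi, sh_ne (ne_of_ty hj (by rw [hi]; decide))]
  rw [sum_diff hj (fun k => c i k * zt 1 τ (sh j h p k)) (fun k => c i k * zt 1 τ (p k))
    (fun k hk _ => by rw [sh_ne hk])]
  rw [sh_self]
  ring

lemma PT_sh_mul {p : Fin m → ℂ} {i j : Fin m} (hj : ty j = Ty.ell) (h : ℂ)
    (hi : ty i = Ty.mul) : PT τ ty c (sh j h p) i = PT τ ty c p i := by
  rw [PT_mul hi, PT_mul hi, sh_ne (ne_of_ty hj (by rw [hi]; decide))]

lemma PT_sh_ell {p : Fin m → ℂ} {i j : Fin m} (h : ℂ) (hij : i ≠ j)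
    (hi : ty i = Ty.ell) : PT τ ty c (sh j h p) i = PT τ ty c p i := by
  rw [PT_ell hi, PT_ell hi, sh_ne hij]

lemma PT_sh_self {p : Fin m → ℂ} {j : Fin m} (h : ℂ) (hj : ty j = Ty.ell) :
    PT τ ty c (sh j h p) j = wp 1 τ (p j + h) := by
  rw [PT_ell hj, sh_self]

/-- the sign change in one coordinate -/
noncomputable def sg1 (τ : ℂ) (ty : Fin m → Ty) (c : Fin m → Fin m → ℂ) (j : Fin m) (e₀ : Bool)
    (p : Fin m → ℂ) : Fin m → ℂ :=
  sgI τ ty c (Function.update (fun _ => true) j e₀) p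

lemma sg1_add {p : Fin m → ℂ} {i j : Fin m} (hj : ty j = Ty.ell) (e₀ : Bool)
    (hi : ty i = Ty.add) : sg1 τ ty c j e₀ p i =
      p i + (1 - sg e₀) * (c i j * zt 1 τ (p j)) := by
  have h1 : sg1 τ ty c j e₀ p i = p i + ∑ k, (if ty k = Ty.ell then
      (1 - sg (Function.update (fun _ => true) j e₀ k)) * (c i k * zt 1 τ (p k)) else 0) := by
    simp only [sg1, sgI, hi]
  rw [h1, sum_diff hj (fun k => (1 - sg (Function.update (fun _ => true) j e₀ k)) *
    (c i k * zt 1 τ (p k))) (fun _ => 0) (fun k hk _ => by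
      rw [Function.update_of_ne hk]
      simp [sg])]
  simp

lemma sg1_mul {p : Fin m → ℂ} {i j : Fin m} (e₀ : Bool) (hi : ty i = Ty.mul) :
    sg1 τ ty c j e₀ p i = p i := by
  simp only [sg1, sgI, hi]

lemma sg1_ell {p : Fin m → ℂ} {i j : Fin m} (e₀ : Bool) (hij : i ≠ j) (hi : ty i = Ty.ell) :
    sg1 τ ty c j e₀ p i = p i := by
  simp only [sg1, sgI, hi]
  rw [Function.update_of_ne hij]
  simp [sg]

lemma sg1_self {p : Fin m → ℂ} {j : Fin m} (e₀ : Bool) (hj : ty j = Ty.ell) :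
    sg1 τ ty c j e₀ p j = sg e₀ * p j := by
  simp only [sg1, sgI, hj]
  rw [Function.update_self]

lemma sg1_true {p : Fin m → ℂ} {j : Fin m} (hj : ty j = Ty.ell) :
    sg1 τ ty c j true p = p := by
  funext i
  rcases hi : ty i
  · rw [sg1_add hj true hi]; simp [sg]
  · rw [sg1_mul true hi]
  · by_cases hij : i = j
    · subst hij
      rw [sg1_self true hj]; simp [sg]
    · rw [sg1_ell true hij hi]

lemma Gd_sg1 {p : Fin m → ℂ} {j : Fin m} (hj : ty j = Ty.ell) (e₀ : Bool) (hp : Gd τ ty p) :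
    Gd τ ty (sg1 τ ty c j e₀ p) := by
  intro i hi
  by_cases hij : i = j
  · subst hij
    rw [sg1_self e₀ hj]
    cases e₀
    · simpa [sg] using neg_notMem (hp i hi)
    · simpa [sg] using hp i hi
  · rw [sg1_ell e₀ hij hi]
    exact hp i hi

lemma PT_sg1 {p : Fin m → ℂ} {j : Fin m} (hj : ty j = Ty.ell) (e₀ : Bool) :
    PT τ ty c (sg1 τ ty c j e₀ p) = PT τ ty c p := by
  cases e₀
  swap
  · rw [sg1_true hj]
  funext i
  rcases hi : ty i
  · rw [PT_add hi, PT_add hi, sg1_add hj false hi,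
      sum_diff hj (fun k => c i k * zt 1 τ (sg1 τ ty c j false p k)) (fun k => c i k * zt 1 τ (p k))
      (fun k hk hk' => by rw [sg1_ell false hk hk']), sg1_self false hj]
    have h1 : sg false * p j = - p j := by simp [sg]
    rw [h1, zt_neg]
    have h2 : sg false = -1 := by simp [sg]
    rw [h2]
    ring
  · rw [PT_mul hi, PT_mul hi, sg1_mul false hi]
  · rw [PT_ell hi, PT_ell hi]
    by_cases hij : i = j
    · subst hij
      rw [sg1_self false hj]
      have h1 : sg false * p i = - p i := by simp [sg]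
      rw [h1, wp_neg]
    · rw [sg1_ell false hij hi]

end

/-! ### The homogenised substitution -/

/-- the homogenised substitution `x_i = A_i / B_i` -/
noncomputable def HsM {f : RR m} (A B : Fin m → QuadraticAlgebra (RR m) f 0) (F : RR m) :
    QuadraticAlgebra (RR m) f 0 :=
  ∑ d ∈ F.support, algebraMap (RR m) _ (C (coeff d F)) *
    ∏ i, (A i ^ d i * B i ^ (F.degreeOf i - d i))

lemma ev_HsM {f : RR m} (A B : Fin m → QuadraticAlgebra (RR m) f 0) (F : RR m)
    (p : Fin m → ℂ) (y : ℂ) (hy : y ^ 2 = eval p f) (U : Fin m → ℂ)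
    (hA : ∀ i, I_Op1.ev f p y hy (A i) = I_Op1.ev f p y hy (B i) * U i) :
    I_Op1.ev f p y hy (HsM A B F) = (∏ i, I_Op1.ev f p y hy (B i) ^ F.degreeOf i) * eval U F := by
  rw [HsM, map_sum, eval_eq', Finset.mul_sum]
  refine Finset.sum_congr rfl fun d hd => ?_
  have h1 : I_Op1.ev f p y hy (algebraMap (RR m) _ (C (coeff d F))) = coeff d F := by
    rw [ev_apply, QuadraticAlgebra.algebraMap_re, QuadraticAlgebra.algebraMap_im, map_zero,
      zero_mul, add_zero, eval_C]
  have h2 : ∀ i, I_Op1.ev f p y hy (A i ^ d i * B i ^ (F.degreeOf i - d i)) =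
      I_Op1.ev f p y hy (B i) ^ F.degreeOf i * U i ^ d i := by
    intro i
    have hd' : d i ≤ F.degreeOf i := le_degreeOf_of_mem_support i hd
    have h3 : I_Op1.ev f p y hy (B i) ^ F.degreeOf i =
        I_Op1.ev f p y hy (B i) ^ d i * I_Op1.ev f p y hy (B i) ^ (F.degreeOf i - d i) := by
      rw [← pow_add, Nat.add_sub_cancel' hd']
    rw [map_mul, map_pow, map_pow, hA, h3, mul_pow]
    ring
  rw [map_mul, map_prod, h1, Finset.prod_congr rfl fun i _ => h2 i, Finset.prod_mul_distrib]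
  ring

lemma W_prod {f : RR m} {i : Fin m} {e : ℕ} (hf : f.degreeOf i ≤ e) {ι : Type} (s : Finset ι)
    (g : ι → QuadraticAlgebra (RR m) f 0) (n : ι → ℕ) (h : ∀ k ∈ s, W i e (g k) (n k)) :
    W i e (∏ k ∈ s, g k) (∑ k ∈ s, n k) := by
  classical
  induction s using Finset.induction_on with
  | empty => rw [Finset.prod_empty, Finset.sum_empty]; exact W_one
  | insert a s ha ih =>
    rw [Finset.prod_insert ha, Finset.sum_insert ha]
    exact W_mul hf (h a (Finset.mem_insert_self _ _))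
      (ih fun k hk => h k (Finset.mem_insert_of_mem hk))

lemma W_C {f : RR m} {i : Fin m} {e : ℕ} (c : ℂ) :
    W i e (algebraMap (RR m) (QuadraticAlgebra (RR m) f 0) (C c)) 0 := by
  constructor
  · rw [QuadraticAlgebra.algebraMap_re, degreeOf_C]
  · left; rw [QuadraticAlgebra.algebraMap_im]

lemma W_HsM {f : RR m} {A B : Fin m → QuadraticAlgebra (RR m) f 0} (F : RR m) {i : Fin m}
    {e : ℕ} (hf : f.degreeOf i ≤ e) (k : Fin m → ℕ)
    (hk : ∀ l, ∀ d ≤ F.degreeOf l, W i e (A l ^ d * B l ^ (F.degreeOf l - d)) (k l)) :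
    W i e (HsM A B F) (∑ l, k l) := by
  refine W_sum _ _ fun d hd => ?_
  have h1 := W_mul hf (W_C (f := f) (i := i) (e := e) (coeff d F))
    (W_prod hf Finset.univ (fun l => A l ^ d l * B l ^ (F.degreeOf l - d l)) k
      (fun l _ => hk l (d l) (le_degreeOf_of_mem_support l hd)))
  exact W_mono h1 (by omega)

lemma W_ab {f : RR m} {A B : QuadraticAlgebra (RR m) f 0} {i : Fin m}
    {e n : ℕ} (hf : f.degreeOf i ≤ e) (hA : W i e A n) (hB : W i e B n) {d D : ℕ} (hd : d ≤ D) :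
    W i e (A ^ d * B ^ (D - d)) (D * n) := by
  refine W_mono (W_mul hf (W_pow hf hA d) (W_pow hf hB (D - d))) (le_of_eq ?_)
  rw [← add_mul, Nat.add_sub_cancel' hd]

/-- the degree of `f` in `x_j` -/
lemma deg_ff_eq (g2 g3 : ℂ) (j : Fin m) : (ff g2 g3 j).degreeOf j = 3 := by
  refine le_antisymm (deg_ff_self g2 g3 j) ?_
  have h1 : coeff (Finsupp.single j 3) (ff g2 g3 j) = 4 := by
    rw [ff, coeff_sub, coeff_sub, coeff_C_mul, coeff_C_mul, coeff_X_pow, coeff_C, coeff_X]
    rw [if_pos rfl, if_neg, if_neg]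
    · ring
    · intro h
      have := DFunLike.congr_fun h j
      simp at this
    · intro h
      have := DFunLike.congr_fun h j
      simp at this
  have h2 : Finsupp.single j 3 ∈ (ff g2 g3 j).support := by
    rw [mem_support_iff, h1]
    norm_num
  have := le_degreeOf_of_mem_support j h2
  rwa [Finsupp.single_eq_same] at this

lemma norm_ne {g2 g3 : ℂ} {j : Fin m} {z : QuadraticAlgebra (RR m) (ff g2 g3 j) 0} (hz : z ≠ 0) :
    QuadraticAlgebra.norm z ≠ 0 := by
  intro h0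
  rw [QuadraticAlgebra.norm_def, zero_mul, zero_mul, add_zero] at h0
  have h1 : z.re * z.re = ff g2 g3 j * (z.im * z.im) := by
    linear_combination h0
  have hff : ff g2 g3 j ≠ 0 := by
    intro h
    have := deg_ff_eq g2 g3 j
    rw [h, degreeOf_zero] at this
    omega
  by_cases him : z.im = 0
  · rw [him, mul_zero, mul_zero, mul_self_eq_zero] at h1
    exact hz (QuadraticAlgebra.ext h1 him)
  · have hre : z.re ≠ 0 := by
      intro hre
      rw [hre, mul_zero] at h1
      exact (mul_ne_zero hff (mul_ne_zero him him)) h1.symm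
    have h2 : degreeOf j (z.re * z.re) = degreeOf j (ff g2 g3 j * (z.im * z.im)) := by rw [h1]
    rw [degreeOf_mul_eq hre hre, degreeOf_mul_eq hff (mul_ne_zero him him),
      degreeOf_mul_eq him him, deg_ff_eq] at h2
    omega

/-! ### The substitution for the translation -/

section

variable (τ : ℂ) (ty : Fin m → Ty) (c : Fin m → Fin m → ℂ) (j : Fin m) (h : ℂ)

/-- the numerators -/
noncomputable def Am : Fin m → QuadraticAlgebra (RR m) (ff (gg2 τ) (gg3 τ) j) 0 := fun i =>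
  match ty i with
  | Ty.add => ⟨C 2 * (X j - C (wp 1 τ h)) * (X i + C (c i j * zt 1 τ h)) -
      C (c i j * wpd τ h), C (c i j)⟩
  | Ty.mul => ⟨X i, 0⟩
  | Ty.ell => if i = j then AA (gg2 τ) (gg3 τ) (wp 1 τ h) (wpd τ h) j else ⟨X i, 0⟩

/-- the denominators -/
noncomputable def Bm : Fin m → QuadraticAlgebra (RR m) (ff (gg2 τ) (gg3 τ) j) 0 := fun i =>
  match ty i with
  | Ty.add => ⟨C 2 * (X j - C (wp 1 τ h)), 0⟩
  | Ty.mul => 1
  | Ty.ell => if i = j then BB (gg2 τ) (gg3 τ) (wp 1 τ h) j else 1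

end

section

variable {τ : ℂ} {ty : Fin m → Ty} {c : Fin m → Fin m → ℂ} {j : Fin m} {h : ℂ}

lemma zt_lin (hτ : 0 < τ.im) {v h : ℂ} (hv : v ∉ Lam τ) (hh : h ∉ Lam τ)
    (hvh : v + h ∉ Lam τ) : wpd τ v - wpd τ h =
      2 * (zt 1 τ (v + h) - zt 1 τ v - zt 1 τ h) * (wp 1 τ v - wp 1 τ h) := by
  have hl1 := Fx.zt_add_lin hτ hv hh hvh
  have hl2 := Fx.zt_add_lin hτ hh hv (by rwa [add_comm])
  rw [add_comm h v] at hl2
  linear_combination hl2 - hl1

lemma ev_Am (hτ : 0 < τ.im) (hj : ty j = Ty.ell) (hh : h ∉ Lam τ) {p : Fin m → ℂ}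
    (hp : p j ∉ Lam τ) (hph : p j + h ∉ Lam τ)
    (hy : wpd τ (p j) ^ 2 = eval (PT τ ty c p) (ff (gg2 τ) (gg3 τ) j)) (i : Fin m) :
    I_Op1.ev _ (PT τ ty c p) (wpd τ (p j)) hy (Am τ ty c j h i) =
      I_Op1.ev _ (PT τ ty c p) (wpd τ (p j)) hy (Bm τ ty j h i) * PT τ ty c (sh j h p) i := by
  rcases hi : ty i
  · rw [PT_sh_add hj h hi]
    have h1 := zt_lin hτ hp hh hph
    simp only [Am, Bm, hi]
    rw [ev_apply, ev_apply]
    simp only [map_sub, map_mul, map_add, map_zero, eval_C, eval_X, PT_ell hj, zero_mul, add_zero]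
    linear_combination (c i j) * h1
  · rw [PT_sh_mul hj h hi]
    simp only [Am, Bm, hi]
    rw [map_one, one_mul, ev_apply]
    simp
  · by_cases hij : i = j
    · subst hij
      simp only [Am, Bm, hi, if_true]
      rw [PT_sh_self h hi, ev_AA, ev_BB, PT_ell hi]
      exact add_formula hτ hp hh hph
    · rw [PT_sh_ell h hij hi]
      simp only [Am, Bm, hi, if_neg hij]
      rw [map_one, one_mul, ev_apply]
      simp

lemma ev_Bm_ne (hτ : 0 < τ.im) (hj : ty j = Ty.ell) (hh : h ∉ Lam τ) {p : Fin m → ℂ}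
    (hp : p j ∉ Lam τ) (hph : p j + h ∉ Lam τ) (hph' : p j - h ∉ Lam τ) {y : ℂ}
    (hy : y ^ 2 = eval (PT τ ty c p) (ff (gg2 τ) (gg3 τ) j)) (i : Fin m) :
    I_Op1.ev _ (PT τ ty c p) y hy (Bm τ ty j h i) ≠ 0 := by
  have hne : wp 1 τ (p j) - wp 1 τ h ≠ 0 := by
    intro h2
    rcases Fx.wp_inj hτ hp hh (sub_eq_zero.1 h2) with h3 | h3
    · exact hph' h3
    · exact hph h3
  rcases hi : ty i
  · simp only [Bm, hi]
    rw [ev_apply]
    simp only [map_sub, map_mul, map_zero, eval_C, eval_X, PT_ell hj, zero_mul, add_zero]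
    exact mul_ne_zero (by norm_num) hne
  · simp only [Bm, hi]
    rw [map_one]
    exact one_ne_zero
  · by_cases hij : i = j
    · subst hij
      simp only [Bm, hi, if_true]
      rw [ev_BB, PT_ell hi]
      exact mul_ne_zero (by norm_num) (pow_ne_zero 2 hne)
    · simp only [Bm, hi, if_neg hij]
      rw [map_one]
      exact one_ne_zero

/-- the numerator of `F(PT(p + h))` -/
noncomputable def Nm (τ : ℂ) (ty : Fin m → Ty) (c : Fin m → Fin m → ℂ) (j : Fin m) (h : ℂ)
    (F : RR m) : QuadraticAlgebra (RR m) (ff (gg2 τ) (gg3 τ) j) 0 :=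
  HsM (Am τ ty c j h) (Bm τ ty j h) F

lemma hyp (hτ : 0 < τ.im) (hj : ty j = Ty.ell) {p : Fin m → ℂ} (hp : p j ∉ Lam τ) :
    wpd τ (p j) ^ 2 = eval (PT τ ty c p) (ff (gg2 τ) (gg3 τ) j) := by
  rw [eval_ff, PT_ell hj, wpd_sq hτ hp]

lemma ev_Nm (hτ : 0 < τ.im) (hj : ty j = Ty.ell) (hh : h ∉ Lam τ) {p : Fin m → ℂ}
    (hp : p j ∉ Lam τ) (hph : p j + h ∉ Lam τ)
    (hy : wpd τ (p j) ^ 2 = eval (PT τ ty c p) (ff (gg2 τ) (gg3 τ) j)) (F : RR m) :
    I_Op1.ev _ (PT τ ty c p) (wpd τ (p j)) hy (Nm τ ty c j h F) =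
      (∏ i, I_Op1.ev _ (PT τ ty c p) (wpd τ (p j)) hy (Bm τ ty j h i) ^ F.degreeOf i) *
        eval (PT τ ty c (sh j h p)) F :=
  ev_HsM _ _ F _ _ hy _ (fun i => ev_Am hτ hj hh hp hph hy i)

lemma ev_Nm_gen (hτ : 0 < τ.im) (hj : ty j = Ty.ell) (hh : h ∉ Lam τ) {p P : Fin m → ℂ} {y : ℂ}
    (hp : p j ∉ Lam τ) (hph : p j + h ∉ Lam τ) (hP : P = PT τ ty c p) (hy0 : y = wpd τ (p j))
    (hy : y ^ 2 = eval P (ff (gg2 τ) (gg3 τ) j)) (F : RR m) :
    I_Op1.ev _ P y hy (Nm τ ty c j h F) =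
      (∏ i, I_Op1.ev _ P y hy (Bm τ ty j h i) ^ F.degreeOf i) *
        eval (PT τ ty c (sh j h p)) F := by
  subst hP hy0
  exact ev_Nm hτ hj hh hp hph hy F

/-! ### Degrees -/

lemma deg_X_le (i l : Fin m) : (X l : RR m).degreeOf i ≤ (if l = i then 1 else 0) := by
  by_cases hl : l = i
  · subst hl
    rw [if_pos rfl, degreeOf_X_self]
  · rw [if_neg hl]
    have := degreeOf_X_pow_of_ne (R := ℂ) 1 (fun h' : i = l => hl h'.symm)
    rw [pow_one] at this
    exact this.le

lemma deg_lin (i l : Fin m) (t : ℂ) :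
    (X l + C t : RR m).degreeOf i ≤ (if l = i then 1 else 0) := by
  have a3 := degreeOf_add_le i (X l : RR m) (C t)
  have a9 := degreeOf_C t i
  have a7 := deg_X_le i l
  omega

lemma deg_num (i l j : Fin m) (a t s : ℂ) :
    (C 2 * (X j - C a) * (X l + C t) - C s : RR m).degreeOf i ≤
      (if j = i then 1 else 0) + (if l = i then 1 else 0) := by
  have a1 := degreeOf_add_le i (C 2 * (X j - C a) * (X l + C t) : RR m) (-C s)
  rw [← sub_eq_add_neg] at a1
  have a8 : (-C s : RR m) = C (-s) := by rw [map_neg]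
  have a9 := degreeOf_C (-s) i
  rw [a8, a9] at a1
  have b1 := degreeOf_mul_le i (C 2 * (X j - C a) : RR m) (X l + C t)
  have b2 := deg_lin i l t
  have b3 := degreeOf_C_mul_le (X j - C a : RR m) i 2
  have b4 := deg_lin i j (-a)
  have b5 : (X j - C a : RR m) = X j + C (-a) := by rw [map_neg]; ring
  rw [b5] at b1 b3
  rw [b5] at a1 ⊢
  omega

lemma deg_den (i j : Fin m) (a : ℂ) :
    (C 2 * (X j - C a) : RR m).degreeOf i ≤ (if j = i then 1 else 0) := by
  have b3 := degreeOf_C_mul_le (X j - C a : RR m) i 2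
  have b4 := deg_lin i j (-a)
  have b5 : (X j - C a : RR m) = X j + C (-a) := by rw [map_neg]; ring
  rw [b5] at b3 ⊢
  omega

lemma W_mk {f : RR m} {i : Fin m} {e n : ℕ} {P Q : RR m} (h1 : 2 * P.degreeOf i ≤ n)
    (h2 : Q = 0 ∨ 2 * Q.degreeOf i + e ≤ n) :
    W i e (⟨P, Q⟩ : QuadraticAlgebra (RR m) f 0) n := ⟨h1, h2⟩

lemma W_X {f : RR m} {i l : Fin m} {e n : ℕ} (hn : 2 * (if l = i then 1 else 0) ≤ n) :
    W i e (⟨X l, 0⟩ : QuadraticAlgebra (RR m) f 0) n := by
  constructor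
  · have := deg_X_le i l
    show 2 * (X l : RR m).degreeOf i ≤ n
    omega
  · left; rfl

lemma W_Am_self (l : Fin m) : W j 3 (Am τ ty c j h l) 4 := by
  rcases hl : ty l
  · simp only [Am, hl]
    refine W_mk ?_ ?_
    · have h1 := deg_num j l j (wp 1 τ h) (c l j * zt 1 τ h) (c l j * wpd τ h)
      rw [if_pos rfl] at h1
      have h2 : (if l = j then 1 else 0 : ℕ) ≤ 1 := by split_ifs <;> omega
      omega
    · right
      rw [degreeOf_C]
      omega
  · simp only [Am, hl]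
    refine W_X ?_
    split_ifs <;> omega
  · simp only [Am, hl]
    by_cases hlj : l = j
    · subst hlj
      rw [if_pos rfl]
      exact W_AA_self _ _ _ _ _
    · rw [if_neg hlj]
      refine W_X ?_
      split_ifs; omega

lemma W_Bm_self (l : Fin m) : W j 3 (Bm τ ty j h l) 4 := by
  rcases hl : ty l
  · simp only [Bm, hl]
    refine W_mk ?_ ?_
    · have h1 := deg_den j j (wp 1 τ h)
      rw [if_pos rfl] at h1
      omega
    · left; rfl
  · simp only [Bm, hl]
    exact W_mono W_one (by omega)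
  · simp only [Bm, hl]
    by_cases hlj : l = j
    · subst hlj
      rw [if_pos rfl]
      exact W_BB_self _ _ _ _
    · rw [if_neg hlj]
      exact W_mono W_one (by omega)

lemma W_Am_ne {i : Fin m} (hij : i ≠ j) (l : Fin m) :
    W i 0 (Am τ ty c j h l) (if l = i then 2 else 0) := by
  rcases hl : ty l
  · simp only [Am, hl]
    refine W_mk ?_ ?_
    · have h1 := deg_num i l j (wp 1 τ h) (c l j * zt 1 τ h) (c l j * wpd τ h)
      rw [if_neg (Ne.symm hij)] at h1
      split_ifs at h1 ⊢ <;> omega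
    · right
      rw [degreeOf_C]
      omega
  · simp only [Am, hl]
    refine W_X ?_
    split_ifs <;> omega
  · simp only [Am, hl]
    by_cases hlj : l = j
    · subst hlj
      rw [if_pos rfl]
      exact W_mono (W_AA_ne _ _ _ _ hij) (by omega)
    · rw [if_neg hlj]
      refine W_X ?_
      split_ifs <;> omega

lemma W_Bm_ne {i : Fin m} (hij : i ≠ j) (l : Fin m) :
    W i 0 (Bm τ ty j h l) 0 := by
  rcases hl : ty l
  · simp only [Bm, hl]
    refine W_mk ?_ ?_
    · have h1 := deg_den i j (wp 1 τ h)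
      rw [if_neg (Ne.symm hij)] at h1
      omega
    · left; rfl
  · simp only [Bm, hl]
    exact W_one
  · simp only [Bm, hl]
    by_cases hlj : l = j
    · subst hlj
      rw [if_pos rfl]
      exact W_BB_ne _ _ _ hij
    · rw [if_neg hlj]
      exact W_one

lemma deg_Nm_self {F : RR m} {B : ℕ} (hF : ∀ i, F.degreeOf i ≤ B) :
    (QuadraticAlgebra.norm (Nm τ ty c j h F)).degreeOf j ≤ m * (B * 4) := by
  refine W_norm (e := 3) (deg_ff_self _ _ _) (W_mono (W_HsM (A := Am τ ty c j h)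
    (B := Bm τ ty j h) F (deg_ff_self _ _ _) (fun l => F.degreeOf l * 4) ?_) ?_)
  · intro l d hd
    exact W_ab (deg_ff_self _ _ _) (W_Am_self l) (W_Bm_self l) hd
  · refine (Finset.sum_le_card_nsmul _ _ (B * 4) (fun l _ => Nat.mul_le_mul_right 4 (hF l))).trans
      (le_of_eq ?_)
    rw [Finset.card_univ, Fintype.card_fin, smul_eq_mul]

lemma deg_Nm_ne {F : RR m} {B : ℕ} {i : Fin m} (hij : i ≠ j) (hF : ∀ i, F.degreeOf i ≤ B) :
    (QuadraticAlgebra.norm (Nm τ ty c j h F)).degreeOf i ≤ B * 2 := by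
  refine W_norm (e := 0) (deg_ff_ne _ _ hij) (W_mono (W_HsM (A := Am τ ty c j h)
    (B := Bm τ ty j h) F (deg_ff_ne _ _ hij) (fun l => F.degreeOf l * (if l = i then 2 else 0)) ?_)
    ?_)
  · intro l d hd
    exact W_ab (deg_ff_ne _ _ hij) (W_Am_ne hij l) (W_mono (W_Bm_ne hij l) (Nat.zero_le _)) hd
  · rw [Finset.sum_eq_single i]
    · rw [if_pos rfl]
      exact Nat.mul_le_mul_right 2 (hF i)
    · intro l _ hl
      rw [if_neg hl, mul_zero]
    · intro hn
      exact absurd (Finset.mem_univ i) hn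

/-! ### The shift by a lattice point -/

/-- the translation in the additive coordinates -/
noncomputable def Tr (g2 g3 : ℂ) (j : Fin m) (a : Fin m → ℂ) (F : RR m) :
    QuadraticAlgebra (RR m) (ff g2 g3 j) 0 :=
  HsM (fun i => ⟨X i + C (a i), 0⟩) (fun _ => 1) F

lemma ev_Tr (g2 g3 : ℂ) (j : Fin m) (a : Fin m → ℂ) (F : RR m) (p : Fin m → ℂ) (y : ℂ)
    (hy : y ^ 2 = eval p (ff g2 g3 j)) :
    I_Op1.ev _ p y hy (Tr g2 g3 j a F) = eval (fun i => p i + a i) F := by
  rw [Tr, ev_HsM _ _ F p y hy (fun i => p i + a i)]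
  · simp
  · intro i
    rw [map_one, one_mul, ev_apply]
    simp

lemma deg_Tr (g2 g3 : ℂ) (j i : Fin m) (a : Fin m → ℂ) (F : RR m) :
    (QuadraticAlgebra.norm (Tr g2 g3 j a F)).degreeOf i ≤ F.degreeOf i * 2 := by
  have hf : (ff g2 g3 j).degreeOf i ≤ 3 := by
    by_cases hij : i = j
    · subst hij
      exact deg_ff_self _ _ _
    · exact (deg_ff_ne _ _ hij).trans (by omega)
  refine W_norm (e := 3) hf (W_mono (W_HsM (A := fun i => ⟨X i + C (a i), 0⟩)
    (B := fun _ => 1) F hf (fun l => F.degreeOf l * (if l = i then 2 else 0)) ?_) ?_)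
  · intro l d hd
    refine W_ab hf ?_ (W_mono W_one (Nat.zero_le _)) hd
    refine W_mk ?_ (Or.inl rfl)
    have h1 := deg_lin i l (a l)
    split_ifs at h1 ⊢ <;> omega
  · rw [Finset.sum_eq_single i]
    · rw [if_pos rfl]
    · intro l _ hl
      rw [if_neg hl, mul_zero]
    · intro hn
      exact absurd (Finset.mem_univ i) hn

lemma Tr_ne (g2 g3 : ℂ) (j : Fin m) (a : Fin m → ℂ) {F : RR m} (hF : F ≠ 0) :
    Tr g2 g3 j a F ≠ 0 := by
  intro h0
  obtain ⟨x, hx⟩ : ∃ x, eval x F ≠ 0 := by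
    by_contra hcon
    push Not at hcon
    exact hF (MvPolynomial.funext fun x => by rw [hcon x, map_zero])
  obtain ⟨y, hy⟩ := IsAlgClosed.exists_pow_nat_eq (eval (fun i => x i - a i) (ff g2 g3 j))
    (n := 2) (by norm_num)
  have h1 := ev_Tr g2 g3 j a F (fun i => x i - a i) y hy
  rw [h0, map_zero] at h1
  apply hx
  have h2 : (fun i => x i - a i + a i) = x := by
    funext i
    ring
  rw [h2] at h1
  exact h1.symm

lemma PT_lat (hj : ty j = Ty.ell) (hτ : 0 < τ.im) (hh : h ∈ Lam τ) {η : ℂ}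
    (hη : ∀ z, zt 1 τ (z + h) = zt 1 τ z + η) (p : Fin m → ℂ) :
    (fun i => PT τ ty c p i + (if ty i = Ty.add then c i j * η else 0)) =
      PT τ ty c (sh j h p) := by
  funext i
  rcases hi : ty i
  · rw [if_pos rfl, PT_sh_add hj h hi, hη]
    ring
  · rw [if_neg (by decide), PT_sh_mul hj h hi, add_zero]
  · rw [if_neg (by decide), add_zero]
    by_cases hij : i = j
    · subst hij
      rw [PT_sh_self h hi, PT_ell hi, wp_per hτ _ hh]
    · rw [PT_sh_ell h hij hi]

end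

end I_Op1M

open I_Op1M Pool.Agent.Work.MP_8da9ea_nt.EB.I_Op1 in
theorem Op1M_pf (h1 : S_DenM) : S_Op1M := by
  intro τ hτ N ty c j hj h B F hB hF hFB
  by_cases hh : h ∈ Lam τ
  · obtain ⟨η, hη⟩ := zt_per hτ hh
    set a : Fin N → ℂ := fun i => if ty i = Ty.add then c i j * η else 0 with ha
    have key : ∀ p : Fin N → ℂ, Gd τ ty p →
        eval (PT τ ty c p) (QuadraticAlgebra.norm (Tr (gg2 τ) (gg3 τ) j a F)) =
          eval (PT τ ty c (sh j h p)) F * eval (PT τ ty c (sh j h p)) F := by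
      intro p hp
      have hy := hyp (c := c) hτ hj (hp j hj)
      have hy' : (-wpd τ (p j)) ^ 2 = eval (PT τ ty c p) (ff (gg2 τ) (gg3 τ) j) := by
        rw [← hy]; ring
      rw [ev_norm _ _ _ hy hy', ev_Tr, ev_Tr, PT_lat hj hτ hh hη]
    refine ⟨QuadraticAlgebra.norm (Tr (gg2 τ) (gg3 τ) j a F), norm_ne (Tr_ne _ _ j a hF),
      ?_, ?_, ?_⟩
    · intro i
      refine (deg_Tr _ _ j i a F).trans ?_
      have := hFB i
      nlinarith [Nat.zero_le (N * B)]
    · intro p hp _ h0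
      rw [key p hp, show eval (PT τ ty c (sh j h p)) F = 0 from h0, mul_zero]
    · intro p hp _ _ h0
      rw [key p hp, mul_self_eq_zero] at h0
      refine ⟨true, ?_⟩
      show eval (PT τ ty c (sh j h (sg1 τ ty c j true p))) F = 0
      rw [sg1_true hj]
      exact h0
  refine ⟨QuadraticAlgebra.norm (Nm τ ty c j h F), ?_, ?_, ?_, ?_⟩
  · -- not zero
    apply norm_ne
    intro h0
    have hopen : IsOpen {w : ℂ | w - h ∉ Lam τ ∧ w - 2 * h ∉ Lam τ} := by
      refine IsOpen.inter ?_ ?_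
      · exact (Lam_closed hτ).isOpen_compl.preimage (f := fun w : ℂ => w - h) (by fun_prop)
      · exact (Lam_closed hτ).isOpen_compl.preimage (f := fun w : ℂ => w - 2 * h) (by fun_prop)
    have hc := ((Lam_countable τ).preimage (f := fun w => w - h) (sub_left_injective)).union
      ((Lam_countable τ).preimage (f := fun w => w - 2 * h) (sub_left_injective))
    obtain ⟨w, hw⟩ := (hc.dense_compl ℝ).nonempty
    simp only [Set.mem_compl_iff, Set.mem_union, Set.mem_preimage, not_or] at hw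
    obtain ⟨r, hr, hrw⟩ := Metric.isOpen_iff.1 hopen w hw
    obtain ⟨q, hq, hgd, hqF⟩ := h1 τ hτ N ty c F hF (fun _ => w) r hr
    have hqj : q j ∈ ball w r := by
      rw [mem_ball] at hq ⊢
      exact (dist_le_pi_dist q (fun _ => w) j).trans_lt hq
    obtain ⟨hq1, hq2⟩ := hrw hqj
    have hsh : sh j h (sh j (-h) q) = q := by
      funext i
      by_cases hij : i = j
      · subst hij
        rw [sh_self, sh_self]
        ring
      · rw [sh_ne hij, sh_ne hij]
    have hpj : sh j (-h) q j = q j - h := by rw [sh_self]; ring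
    have a1 : sh j (-h) q j ∉ Lam τ := by rw [hpj]; exact hq1
    have a2 : sh j (-h) q j + h ∉ Lam τ := by
      rw [hpj, sub_add_cancel]
      exact hgd j hj
    have a3 : sh j (-h) q j - h ∉ Lam τ := by
      rw [hpj]
      have : q j - h - h = q j - 2 * h := by ring
      rw [this]
      exact hq2
    have hy := hyp (c := c) hτ hj a1
    have h2 := ev_Nm (c := c) hτ hj hh a1 a2 hy F
    rw [h0, map_zero, hsh] at h2
    exact (mul_ne_zero (Finset.prod_ne_zero_iff.2 fun i _ =>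
      pow_ne_zero _ (ev_Bm_ne hτ hj hh a1 a2 a3 hy i)) hqF) h2.symm
  · intro i
    by_cases hij : i = j
    · subst hij
      refine (deg_Nm_self hFB).trans ?_
      nlinarith
    · refine (deg_Nm_ne hij hFB).trans ?_
      nlinarith [Nat.zero_le N]
  · intro p hp hph h0
    have a1 := hp j hj
    have hy := hyp (c := c) hτ hj a1
    have hy' : (-wpd τ (p j)) ^ 2 = eval (PT τ ty c p) (ff (gg2 τ) (gg3 τ) j) := by
      rw [← hy]; ring
    rw [ev_norm _ _ _ hy hy', ev_Nm hτ hj hh a1 hph hy F]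
    rw [show eval (PT τ ty c (sh j h p)) F = 0 from h0, mul_zero, zero_mul]
  · intro p hp hph hph' h0
    have a1 := hp j hj
    have hy := hyp (c := c) hτ hj a1
    have hy' : (-wpd τ (p j)) ^ 2 = eval (PT τ ty c p) (ff (gg2 τ) (gg3 τ) j) := by
      rw [← hy]; ring
    rw [ev_norm _ _ _ hy hy'] at h0
    rcases mul_eq_zero.1 h0 with h2 | h2
    · rw [ev_Nm hτ hj hh a1 hph hy F] at h2
      refine ⟨true, ?_⟩
      have h3 := (mul_eq_zero.1 h2).resolve_left (Finset.prod_ne_zero_iff.2 fun i _ =>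
        pow_ne_zero _ (ev_Bm_ne hτ hj hh a1 hph hph' hy i))
      show eval (PT τ ty c (sh j h (sg1 τ ty c j true p))) F = 0
      rw [sg1_true hj]
      exact h3
    · refine ⟨false, ?_⟩
      show eval (PT τ ty c (sh j h (sg1 τ ty c j false p))) F = 0
      have hs : sg1 τ ty c j false p j = - p j := by
        rw [sg1_self false hj]
        simp [sg]
      have b1 : sg1 τ ty c j false p j ∉ Lam τ := by rw [hs]; exact neg_notMem a1
      have b2 : sg1 τ ty c j false p j + h ∉ Lam τ := by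
        rw [hs]
        have : -p j + h = -(p j - h) := by ring
        rw [this]
        exact neg_notMem hph'
      rw [ev_Nm_gen hτ hj hh b1 b2 (PT_sg1 hj false).symm (by rw [hs, wpd_neg hτ]) hy' F] at h2
      exact (mul_eq_zero.1 h2).resolve_left (Finset.prod_ne_zero_iff.2 fun i _ =>
        pow_ne_zero _ (ev_Bm_ne hτ hj hh a1 hph hph' hy' i))

end Pool.Agent.Work.MP_8da9ea_nt.MX
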