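import Pool.Agent.Work.MP_8da9ea_nt.MX.StmtsZ

/-!
# Mixed block, item Z3: the norm of a translate in all variables
-/

set_option autoImplicit false

namespace Pool.Agent.Work.MP_8da9ea_nt.MX

open MvPolynomial Metric Pool.Agent.Work.MP_327059_nt.GL Pool.Agent.Work.MP_8da9ea_nt.S
  Pool.Agent.Work.MP_8da9ea_nt.EB

namespace I_OpM

/-- The substitution of the non elliptic variables. -/
noncomputable def sub {N : ℕ} (ty : Fin N → Ty) (h : Fin N → ℂ) (i : Fin N) :
    MvPolynomial (Fin N) ℂ :=
  match ty i with
  | Ty.add => X i + C (h i)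
  | Ty.mul => C (Complex.exp (h i)) * X i
  | Ty.ell => X i

theorem sub_degree {N : ℕ} (ty : Fin N → Ty) (h : Fin N → ℂ) (i j : Fin N) :
    degreeOf i (sub ty h j) ≤ if i = j then 1 else 0 := by
  classical
  have hX : degreeOf i (X j : MvPolynomial (Fin N) ℂ) ≤ if i = j then 1 else 0 := by
    by_cases hij : i = j
    · subst hij
      simp
    · rw [if_neg hij, degreeOf_X_of_ne hij]
  unfold sub
  split
  · refine (degreeOf_add_le _ _ _).trans ?_
    rw [degreeOf_C]
    exact max_le hX (Nat.zero_le _)
  · exact (degreeOf_C_mul_le _ _ _).trans hX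
  · exact hX

theorem bind_degree {N : ℕ} (f : Fin N → MvPolynomial (Fin N) ℂ)
    (hf : ∀ i j, degreeOf i (f j) ≤ if i = j then 1 else 0) (F : MvPolynomial (Fin N) ℂ)
    (i : Fin N) : degreeOf i (bind₁ f F) ≤ degreeOf i F := by
  classical
  rw [bind₁, aeval_def, eval₂_eq']
  refine (degreeOf_sum_le _ _ _).trans (Finset.sup_le fun m hm => ?_)
  rw [algebraMap_eq]
  refine (degreeOf_C_mul_le _ _ _).trans ((degreeOf_prod_le _ _ _).trans ?_)
  have h1 : ∑ j : Fin N, degreeOf i (f j ^ m j) ≤ ∑ j : Fin N, if i = j then m j else 0 := by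
    refine Finset.sum_le_sum fun j _ => (degreeOf_pow_le _ _ _).trans ?_
    by_cases hij : i = j
    · rw [if_pos hij]
      have := hf i j
      rw [if_pos hij] at this
      calc m j * degreeOf i (f j) ≤ m j * 1 := Nat.mul_le_mul_left _ this
        _ = m j := mul_one _
    · rw [if_neg hij]
      have := hf i j
      rw [if_neg hij] at this
      rw [Nat.le_zero.1 this, mul_zero]
  refine h1.trans ?_
  rw [Finset.sum_ite_eq, if_pos (Finset.mem_univ _)]
  exact monomial_le_degreeOf i hm

/-- The part of the shift on the non elliptic variables. -/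
noncomputable def hn {N : ℕ} (ty : Fin N → Ty) (h : Fin N → ℂ) : Fin N → ℂ :=
  fun i => if ty i = Ty.ell then 0 else h i

/-- The part of the shift on `T`. -/
noncomputable def hT {N : ℕ} (T : Finset (Fin N)) (h : Fin N → ℂ) : Fin N → ℂ :=
  fun i => if i ∈ T then h i else 0

theorem eval_bind {N : ℕ} (f : Fin N → MvPolynomial (Fin N) ℂ) (g : Fin N → ℂ)
    (F : MvPolynomial (Fin N) ℂ) : eval g (bind₁ f F) = eval (fun i => eval g (f i)) F :=
  eval₂Hom_bind₁ (RingHom.id ℂ) g f F

theorem PT_hn {N : ℕ} (τ : ℂ) (ty : Fin N → Ty) (c : Fin N → Fin N → ℂ) (h p : Fin N → ℂ) :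
    (fun i => eval (PT τ ty c p) (sub ty h i)) = PT τ ty c (fun i => p i + hn ty h i) := by
  funext i
  have hell : ∀ j, ty j = Ty.ell → hn ty h j = 0 := fun j hj => by
    unfold hn
    rw [if_pos hj]
  have hsum : (∑ j, (if ty j = Ty.ell then c i j * zt 1 τ (p j + hn ty h j) else 0)) =
      ∑ j, (if ty j = Ty.ell then c i j * zt 1 τ (p j) else 0) := by
    refine Finset.sum_congr rfl fun j _ => ?_
    by_cases hj : ty j = Ty.ell
    · rw [if_pos hj, if_pos hj, hell j hj, add_zero]
    · rw [if_neg hj, if_neg hj]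
  rcases hty : ty i with _ | _ | _
  · have h1 : hn ty h i = h i := by
      unfold hn
      rw [if_neg (by rw [hty]; decide)]
    simp only [sub, PT, hty, map_add, eval_X, eval_C]
    rw [hsum, h1]
    ring
  · have h1 : hn ty h i = h i := by
      unfold hn
      rw [if_neg (by rw [hty]; decide)]
    simp only [sub, PT, hty, map_mul, eval_X, eval_C]
    rw [h1, Complex.exp_add]
    ring
  · simp only [sub, PT, hty, eval_X]
    rw [hell i hty, add_zero]

theorem ev_sub {N : ℕ} (τ : ℂ) (ty : Fin N → Ty) (c : Fin N → Fin N → ℂ) (h p : Fin N → ℂ)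
    (F : MvPolynomial (Fin N) ℂ) :
    eval (PT τ ty c p) (bind₁ (sub ty h) F) = eval (PT τ ty c (fun i => p i + hn ty h i)) F := by
  rw [eval_bind, PT_hn]

theorem sub_sub {N : ℕ} (ty : Fin N → Ty) (h : Fin N → ℂ) (i : Fin N) :
    bind₁ (sub ty fun j => -h j) (sub ty h i) = X i := by
  rcases hty : ty i with _ | _ | _
  · simp only [sub, hty, map_add, bind₁_X_right, bind₁_C_right, map_neg]
    ring
  · simp only [sub, hty, map_mul, bind₁_X_right, bind₁_C_right]
    rw [← mul_assoc, ← C_mul, ← Complex.exp_add, add_neg_cancel, Complex.exp_zero, C_1, one_mul]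
  · simp only [sub, hty, bind₁_X_right]

theorem sub_ne {N : ℕ} (ty : Fin N → Ty) (h : Fin N → ℂ) (F : MvPolynomial (Fin N) ℂ)
    (hF : F ≠ 0) : bind₁ (sub ty h) F ≠ 0 := by
  intro h0
  apply hF
  have h1 : bind₁ (sub ty fun j => -h j) (bind₁ (sub ty h) F) = F := by
    rw [bind₁_bind₁]
    have : (fun i => bind₁ (sub ty fun j => -h j) (sub ty h i)) =
        (X : Fin N → MvPolynomial (Fin N) ℂ) := by
      funext i
      exact sub_sub ty h i
    rw [this, bind₁_X_left]
    rfl
  rw [← h1, h0, map_zero]

theorem neg_mem {τ x : ℂ} (h : -x ∈ Lam τ) : x ∈ Lam τ := by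
  obtain ⟨a, b, hab⟩ := mem_Lam.1 h
  rw [mem_Lam]
  refine ⟨-a, -b, ?_⟩
  push_cast
  linear_combination -hab

/-- composition of the sign changes -/
theorem comp {N : ℕ} (τ : ℂ) (ty : Fin N → Ty) (c : Fin N → Fin N → ℂ) (h p : Fin N → ℂ)
    (T : Finset (Fin N)) (j : Fin N) (hj : j ∉ T) (hty : ty j = Ty.ell)
    (hTe : ∀ i ∈ T, ty i = Ty.ell) (e₀ : Bool)
    (e : Fin N → Bool) (he : ∀ i, i ∉ T → e i = true) (i : Fin N) :
    sgI τ ty c e (fun i => sgI τ ty c (Function.update (fun _ => true) j e₀) p i +
      (Pi.single j (h j) : Fin N → ℂ) i) i + hT T h i =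
    sgI τ ty c (Function.update e j e₀) p i + hT (insert j T) h i := by
  have hne : ∀ {i}, ty i ≠ Ty.ell → i ≠ j := fun {i} hi hij => hi (by rw [hij]; exact hty)
  have hTn : ∀ {i}, ty i ≠ Ty.ell → i ∉ T := fun {i} hi hiT => hi (hTe i hiT)
  rcases htyi : ty i with _ | _ | _
  · have hi : ty i ≠ Ty.ell := by rw [htyi]; decide
    have h1 : hT T h i = 0 := by unfold hT; rw [if_neg (hTn hi)]
    have h2 : hT (insert j T) h i = 0 := by
      unfold hT
      rw [if_neg]
      rw [Finset.mem_insert, not_or]
      exact ⟨hne hi, hTn hi⟩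
    have h3 : (Pi.single j (h j) : Fin N → ℂ) i = 0 := Pi.single_eq_of_ne (hne hi) _
    rw [h1, h2]
    simp only [sgI, htyi]
    rw [h3, add_zero, add_zero, add_zero, add_assoc, ← Finset.sum_add_distrib]
    congr 1
    refine Finset.sum_congr rfl fun k _ => ?_
    by_cases hk : ty k = Ty.ell
    · rw [if_pos hk, if_pos hk, if_pos hk]
      by_cases hkj : k = j
      · subst hkj
        rw [he k hj]
        simp [sg]
      · rw [Function.update_of_ne hkj, Function.update_of_ne hkj]
        simp only [hk, Pi.single_eq_of_ne hkj]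
        simp [sg]
    · rw [if_neg hk, if_neg hk, if_neg hk, add_zero]
  · have hi : ty i ≠ Ty.ell := by rw [htyi]; decide
    have h1 : hT T h i = 0 := by unfold hT; rw [if_neg (hTn hi)]
    have h2 : hT (insert j T) h i = 0 := by
      unfold hT
      rw [if_neg]
      rw [Finset.mem_insert, not_or]
      exact ⟨hne hi, hTn hi⟩
    have h3 : (Pi.single j (h j) : Fin N → ℂ) i = 0 := Pi.single_eq_of_ne (hne hi) _
    rw [h1, h2]
    simp only [sgI, htyi]
    rw [h3, add_zero]
  · simp only [sgI, htyi]
    by_cases hij : i = j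
    · subst hij
      rw [he i hj]
      unfold hT
      rw [if_neg hj, if_pos (Finset.mem_insert_self _ _)]
      simp [sg]
    · rw [Function.update_of_ne hij, Function.update_of_ne hij, Pi.single_eq_of_ne hij]
      unfold hT
      by_cases hiT : i ∈ T
      · rw [if_pos hiT, if_pos (Finset.mem_insert_of_mem hiT)]
        simp [sg]
      · rw [if_neg hiT, if_neg]
        · simp [sg]
        · rw [Finset.mem_insert, not_or]
          exact ⟨hij, hiT⟩

theorem main (hO : S_Op1M) (τ : ℂ) (hτ : 0 < τ.im) (N : ℕ) (ty : Fin N → Ty)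
    (c : Fin N → Fin N → ℂ) (h : Fin N → ℂ) (B : ℕ) (hB : 1 ≤ B) (F : MvPolynomial (Fin N) ℂ)
    (hF : F ≠ 0) (hd : ∀ i, F.degreeOf i ≤ B) (T : Finset (Fin N)) :
    (∀ i ∈ T, ty i = Ty.ell) →
    ∃ G : MvPolynomial (Fin N) ℂ, G ≠ 0 ∧ (∀ i, G.degreeOf i ≤ (4 * N + 9) ^ T.card * B) ∧
      (∀ p : Fin N → ℂ, Gd τ ty p → (∀ i ∈ T, p i + h i ∉ Lam τ) →
        eval (PT τ ty c (fun i => p i + hT T h i)) F = 0 → eval (PT τ ty c p) G = 0) ∧
      (∀ p : Fin N → ℂ, Gd τ ty p → (∀ i ∈ T, p i + h i ∉ Lam τ) →
        (∀ i ∈ T, p i - h i ∉ Lam τ) → eval (PT τ ty c p) G = 0 →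
          ∃ e : Fin N → Bool, (∀ i, i ∉ T → e i = true) ∧
            eval (PT τ ty c (fun i => sgI τ ty c e p i + hT T h i)) F = 0) := by
  induction T using Finset.induction_on with
  | empty =>
    intro _
    have h0 : ∀ q : Fin N → ℂ, (fun i => q i + hT ∅ h i) = q := fun q => by
      funext i
      simp [hT]
    refine ⟨F, hF, fun i => by simpa using hd i, ?_, ?_⟩
    · intro p _ _ h1
      rw [h0] at h1
      exact h1
    · intro p _ _ _ h1
      refine ⟨fun _ => true, fun _ _ => rfl, ?_⟩
      rw [h0]
      have : sgI τ ty c (fun _ => true) p = p := by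
        funext i
        rcases htyi : ty i with _ | _ | _
        · simp only [sgI, htyi, sg]
          simp
        · simp only [sgI, htyi]
        · simp only [sgI, htyi, sg]
          simp
      rw [this]
      exact h1
  | insert j T hj ih =>
    intro hTe
    have hTe' : ∀ i ∈ T, ty i = Ty.ell := fun i hi => hTe i (Finset.mem_insert_of_mem hi)
    have hjt : ty j = Ty.ell := hTe j (Finset.mem_insert_self _ _)
    obtain ⟨G', hG', hd', h1, h2⟩ := ih hTe'
    have hB' : 1 ≤ (4 * N + 9) ^ T.card * B := Nat.mul_pos (pow_pos (by omega) _) hB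
    obtain ⟨G, hG, hdG, k1, k2⟩ := hO τ hτ N ty c j hjt (h j) _ G' hB' hG' hd'
    refine ⟨G, hG, ?_, ?_, ?_⟩
    · intro i
      rw [Finset.card_insert_of_notMem hj, pow_succ]
      calc G.degreeOf i ≤ (4 * N + 9) * ((4 * N + 9) ^ T.card * B) := hdG i
        _ = (4 * N + 9) ^ T.card * (4 * N + 9) * B := by ring
    · intro p hp hpT hz
      have hjp := hpT j (Finset.mem_insert_self _ _)
      refine k1 p hp hjp (h1 _ ?_ ?_ ?_)
      · intro i hi
        change p i + (Pi.single j (h j) : Fin N → ℂ) i ∉ Lam τ
        by_cases hij : i = j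
        · subst hij
          rw [Pi.single_eq_same]
          exact hjp
        · rw [Pi.single_eq_of_ne hij, add_zero]
          exact hp i hi
      · intro i hi
        have hij : i ≠ j := fun hh => hj (hh ▸ hi)
        change p i + (Pi.single j (h j) : Fin N → ℂ) i + h i ∉ Lam τ
        rw [Pi.single_eq_of_ne hij, add_zero]
        exact hpT i (Finset.mem_insert_of_mem hi)
      · have : (fun i => p i + (Pi.single j (h j) : Fin N → ℂ) i + hT T h i) =
            fun i => p i + hT (insert j T) h i := by
          funext i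
          unfold hT
          by_cases hij : i = j
          · subst hij
            rw [Pi.single_eq_same, if_neg hj, if_pos (Finset.mem_insert_self _ _), add_zero]
          · rw [Pi.single_eq_of_ne hij, add_zero]
            by_cases hiT : i ∈ T
            · rw [if_pos hiT, if_pos (Finset.mem_insert_of_mem hiT)]
            · rw [if_neg hiT, if_neg]
              rw [Finset.mem_insert, not_or]
              exact ⟨hij, hiT⟩
        rw [this]
        exact hz
    · intro p hp hpT hpT' hz
      have hjp := hpT j (Finset.mem_insert_self _ _)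
      have hjp' := hpT' j (Finset.mem_insert_self _ _)
      obtain ⟨e₀, he₀⟩ := k2 p hp hjp hjp' hz
      have hq : ∀ i, ty i = Ty.ell → i ≠ j →
          sgI τ ty c (Function.update (fun _ => true) j e₀) p i +
            (Pi.single j (h j) : Fin N → ℂ) i = p i := by
        intro i hi hij
        simp only [sgI, hi]
        rw [Pi.single_eq_of_ne hij, Function.update_of_ne hij]
        simp [sg]
      have hqj : sgI τ ty c (Function.update (fun _ => true) j e₀) p j +
            (Pi.single j (h j) : Fin N → ℂ) j = sg e₀ * p j + h j := by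
        simp only [sgI, hjt]
        rw [Pi.single_eq_same, Function.update_self]
      have g1 : Gd τ ty (fun i => sgI τ ty c (Function.update (fun _ => true) j e₀) p i +
          (Pi.single j (h j) : Fin N → ℂ) i) := by
        intro i hi
        by_cases hij : i = j
        · subst hij
          change sgI τ ty c (Function.update (fun _ => true) i e₀) p i +
            (Pi.single i (h i) : Fin N → ℂ) i ∉ Lam τ
          rw [hqj]
          rcases e₀ with _ | _
          · intro hmem
            apply hjp'
            have h3 : sg false * p i + h i = -(p i - h i) := by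
              simp [sg]
              ring
            rw [h3] at hmem
            exact neg_mem hmem
          · have h3 : sg true * p i + h i = p i + h i := by simp [sg]
            rw [h3]
            exact hjp
        · change sgI τ ty c (Function.update (fun _ => true) j e₀) p i +
            (Pi.single j (h j) : Fin N → ℂ) i ∉ Lam τ
          rw [hq i hi hij]
          exact hp i hi
      have g2 : ∀ i ∈ T, (sgI τ ty c (Function.update (fun _ => true) j e₀) p i +
          (Pi.single j (h j) : Fin N → ℂ) i) + h i ∉ Lam τ := by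
        intro i hi
        have hij : i ≠ j := fun hh => hj (hh ▸ hi)
        rw [hq i (hTe' i hi) hij]
        exact hpT i (Finset.mem_insert_of_mem hi)
      have g3 : ∀ i ∈ T, (sgI τ ty c (Function.update (fun _ => true) j e₀) p i +
          (Pi.single j (h j) : Fin N → ℂ) i) - h i ∉ Lam τ := by
        intro i hi
        have hij : i ≠ j := fun hh => hj (hh ▸ hi)
        rw [hq i (hTe' i hi) hij]
        exact hpT' i (Finset.mem_insert_of_mem hi)
      obtain ⟨e, he, hez⟩ := h2 _ g1 g2 g3 he₀
      refine ⟨Function.update e j e₀, ?_, ?_⟩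
      · intro i hi
        rw [Finset.mem_insert, not_or] at hi
        rw [Function.update_of_ne hi.1]
        exact he i hi.2
      · have := funext (comp τ ty c h p T j hj hjt hTe' e₀ e he)
        rw [this] at hez
        exact hez

end I_OpM

open I_OpM in
/-- **Z3** -/
theorem OpM_pf (h1 : S_Op1M) : S_OpM := by
  classical
  intro τ hτ N ty c h B F hB hF hd
  set T : Finset (Fin N) := Finset.univ.filter fun i => ty i = Ty.ell with hTdef
  have hTe : ∀ i ∈ T, ty i = Ty.ell := fun i hi => (Finset.mem_filter.1 hi).2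
  have hsum : ∀ q : Fin N → ℂ, (fun i => q i + hT T h i + hn ty h i) = fun i => q i + h i := by
    intro q
    funext i
    unfold hT hn
    by_cases hi : ty i = Ty.ell
    · have hiT : i ∈ T := by
        rw [hTdef, Finset.mem_filter]
        exact ⟨Finset.mem_univ _, hi⟩
      rw [if_pos hiT, if_pos hi, add_zero]
    · rw [if_neg (fun hh => hi (hTe i hh)), if_neg hi, add_zero]
  obtain ⟨G, hG, hdG, k1, k2⟩ := main h1 τ hτ N ty c h B hB (bind₁ (sub ty h) F)
    (sub_ne ty h F hF) (fun i => (bind_degree _ (sub_degree ty h) F i).trans (hd i)) T hTe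
  refine ⟨G, hG, ?_, ?_, ?_⟩
  · intro i
    refine (hdG i).trans (Nat.mul_le_mul_right _ (Nat.pow_le_pow_right (by omega) ?_))
    exact (Finset.card_le_univ T).trans (by rw [Fintype.card_fin])
  · intro p hp hph hz
    refine k1 p hp (fun i hi => hph i (hTe i hi)) ?_
    rw [ev_sub, hsum]
    exact hz
  · intro p hp hph hph' hz
    obtain ⟨e, -, he⟩ := k2 p hp (fun i hi => hph i (hTe i hi)) (fun i hi => hph' i (hTe i hi)) hz
    refine ⟨e, ?_⟩
    rw [ev_sub, hsum] at he
    exact he

end Pool.Agent.Work.MP_8da9ea_nt.MX
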