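import Pool.Agent.Work.MP_8da9ea_nt.MX.StmtsT
import Pool.Agent.Work.MP_327059_nt.Bd.B11

/-!
# Mixed block, item PEMval: values and sizes of the polynomials `PEM`
-/

set_option autoImplicit false

namespace Pool.Agent.Work.MP_8da9ea_nt.MX

open MvPolynomial Pool.Agent.Work.MP_327059_nt.GL Pool.Agent.Work.MP_8da9ea_nt.S
  Pool.Agent.Work.MP_8da9ea_nt.EB

namespace I_PEMval

/-! ### values -/

open Classical in
theorem prod_ne {ι : Type} [Fintype ι] {M : Type} [CommMonoid M] (ty : ι → Ty) (i : ι)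
    (hi : ty i = Ty.ell) (F : ι → M) :
    F i * ∏ j, (if ty j = Ty.ell ∧ j ≠ i then F j else 1) =
      ∏ j, (if ty j = Ty.ell then F j else 1) := by
  rw [← Finset.mul_prod_erase Finset.univ (fun j => if ty j = Ty.ell ∧ j ≠ i then F j else 1)
    (Finset.mem_univ i),
    ← Finset.mul_prod_erase Finset.univ (fun j => if ty j = Ty.ell then F j else 1)
    (Finset.mem_univ i)]
  simp only [hi, ne_eq, not_true_eq_false, and_false, if_false, if_true, one_mul]
  congr 1
  refine Finset.prod_congr rfl fun j hj => ?_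
  have h1 : j ≠ i := Finset.ne_of_mem_erase hj
  simp [h1]

theorem prod_pow' {ι : Type} [Fintype ι] {M : Type} [CommMonoid M] (ty : ι → Ty) (F : ι → M)
    (k : ℕ) : ∏ j, (if ty j = Ty.ell then F j ^ k else 1) =
      (∏ j, (if ty j = Ty.ell then F j else 1)) ^ k := by
  rw [← Finset.prod_pow]
  refine Finset.prod_congr rfl fun j _ => ?_
  split_ifs
  · rfl
  · rw [one_pow]

section

variable {ι : Type} [Fintype ι]

/-- the coordinate -/
noncomputable def cdm {n : ℕ} (τ μ : ℂ) (θ : VM n ι → ℂ) (ty : ι → Ty) (s : Fin n → ℤ)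
    (z r' : ι → ℂ) (i : ι) : ℂ :=
  match ty i with
  | Ty.add => ∑ k, (s k : ℂ) * θ (Sum.inr (Sum.inr (k, i, false))) +
      ∑ j, (if ty j = Ty.ell then θ (Sum.inr (Sum.inl (i, j))) * r' j else 0)
  | Ty.mul => ∏ k, θ (Sum.inr (Sum.inr (k, i, false))) ^ (s k).toNat
  | Ty.ell => xe τ μ (z i)

theorem facV {n W : ℕ} (τ μ : ℂ) (θ : VM n ι → ℂ) (ty : ι → Ty) (s : Fin n → ℤ)
    (z r' : ι → ℂ) (V : ι → Qua n ι) (x : ι → Fin W)
    (hV : ∀ j, ty j = Ty.ell → ValQ τ μ θ (z j) (r' j) (V j)) (i : ι) :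
    aeval θ (facM ty W s V x i) =
      (∏ j, (if ty j = Ty.ell then aeval θ (V j).Z else 1)) ^ W *
        cdm τ μ θ ty s z r' i ^ (x i : ℕ) := by
  classical
  have hW : W = (x i : ℕ) + (W - (x i : ℕ)) := by
    have := (x i).2
    omega
  have hZ : ∀ k : ℕ, aeval θ (∏ j, (if ty j = Ty.ell then (V j).Z ^ k else 1)) =
      (∏ j, (if ty j = Ty.ell then aeval θ (V j).Z else 1)) ^ k := by
    intro k
    rw [map_prod, ← prod_pow']
    refine Finset.prod_congr rfl fun j _ => ?_
    split_ifs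
    · rw [map_pow]
    · rw [map_one]
  have hZ1 : aeval θ (∏ j, (if ty j = Ty.ell then (V j).Z else 1)) =
      (∏ j, (if ty j = Ty.ell then aeval θ (V j).Z else 1)) := by
    rw [map_prod]
    refine Finset.prod_congr rfl fun j _ => ?_
    split_ifs
    · rfl
    · rw [map_one]
  unfold facM cdm
  rcases hi : ty i with _ | _ | _
  · simp only
    rw [map_mul, map_pow, hZ, map_add, map_sum, map_sum]
    have h1 : (∑ k, aeval θ (C (s k) * X (Sum.inr (Sum.inr (k, i, false))) *
        ∏ j, (if ty j = Ty.ell then (V j).Z else 1) : MvPolynomial (VM n ι) ℤ)) =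
        (∏ j, (if ty j = Ty.ell then aeval θ (V j).Z else 1)) *
          ∑ k, (s k : ℂ) * θ (Sum.inr (Sum.inr (k, i, false))) := by
      rw [Finset.mul_sum]
      refine Finset.sum_congr rfl fun k _ => ?_
      rw [map_mul, map_mul, hZ1, aeval_X]
      have h2 : (aeval θ) (C (s k) : MvPolynomial (VM n ι) ℤ) = (s k : ℂ) := by simp
      rw [h2]
      ring
    have h3 : (∑ j, aeval θ (if ty j = Ty.ell then X (Sum.inr (Sum.inl (i, j))) * (V j).N *
        ∏ j', (if ty j' = Ty.ell ∧ j' ≠ j then (V j').Z else 1) else 0 :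
          MvPolynomial (VM n ι) ℤ)) =
        (∏ j, (if ty j = Ty.ell then aeval θ (V j).Z else 1)) *
          ∑ j, (if ty j = Ty.ell then θ (Sum.inr (Sum.inl (i, j))) * r' j else 0) := by
      rw [Finset.mul_sum]
      refine Finset.sum_congr rfl fun j _ => ?_
      by_cases hj : ty j = Ty.ell
      · rw [if_pos hj, if_pos hj, map_mul, map_mul, aeval_X, (hV j hj).n]
        have h4 : aeval θ (∏ j', (if ty j' = Ty.ell ∧ j' ≠ j then (V j').Z else 1) :
            MvPolynomial (VM n ι) ℤ) =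
            ∏ j', (if ty j' = Ty.ell ∧ j' ≠ j then aeval θ (V j').Z else 1) := by
          rw [map_prod]
          refine Finset.prod_congr rfl fun j' _ => ?_
          split_ifs
          · rfl
          · rw [map_one]
        rw [h4, ← prod_ne ty j hj (fun j' => aeval θ (V j').Z)]
        ring
      · rw [if_neg hj, if_neg hj, map_zero, mul_zero]
    rw [h1, h3, ← mul_add, mul_pow]
    generalize (∏ j, (if ty j = Ty.ell then aeval θ (V j).Z else 1)) = Q
    have h5 : Q ^ W = Q ^ (x i : ℕ) * Q ^ (W - (x i : ℕ)) := by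
      rw [← pow_add, ← hW]
    rw [h5]
    ring
  · simp only
    rw [map_mul, hZ, map_prod, mul_comm]
    congr 1
    rw [← Finset.prod_pow]
    refine Finset.prod_congr rfl fun k _ => ?_
    rw [map_pow, aeval_X, ← pow_mul]
  · simp only
    rw [map_mul, map_mul, map_pow, map_pow, (hV i hi).a, mul_pow]
    have h4 : aeval θ (∏ j, (if ty j = Ty.ell ∧ j ≠ i then (V j).Z ^ W else 1) :
        MvPolynomial (VM n ι) ℤ) =
        ∏ j, (if ty j = Ty.ell ∧ j ≠ i then aeval θ (V j).Z ^ W else 1) := by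
      rw [map_prod]
      refine Finset.prod_congr rfl fun j _ => ?_
      split_ifs
      · rw [map_pow]
      · rw [map_one]
    rw [h4, ← prod_pow', ← prod_ne ty i hi (fun j => aeval θ (V j).Z ^ W)]
    have h5 : aeval θ (V i).Z ^ W =
        aeval θ (V i).Z ^ (x i : ℕ) * aeval θ (V i).Z ^ (W - (x i : ℕ)) := by
      rw [← pow_add, ← hW]
    rw [h5]
    ring

/-! ### sizes -/

theorem s_mono {σ : Type} {a b : ℝ} {P : MvPolynomial σ ℤ} (h : SizP a P) (hab : a ≤ b) :
    SizP b P := ⟨h.1.trans hab, h.2.trans (Real.exp_le_exp.mpr hab)⟩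

theorem s_one {σ : Type} {a : ℝ} (ha : 0 ≤ a) : SizP a (1 : MvPolynomial σ ℤ) := by
  refine ⟨?_, (Val_len_one).trans (Real.one_le_exp ha)⟩
  rw [totalDegree_one, Nat.cast_zero]
  exact ha

theorem s_zero {σ : Type} {a : ℝ} (ha : 0 ≤ a) : SizP a (0 : MvPolynomial σ ℤ) := by
  refine ⟨?_, ?_⟩
  · rw [totalDegree_zero, Nat.cast_zero]
    exact ha
  · have h1 : len (0 : MvPolynomial σ ℤ) = 0 := by simp [len]
    rw [h1]
    exact (Real.exp_pos _).le

theorem s_X {σ : Type} (i : σ) : SizP 1 (X i : MvPolynomial σ ℤ) := by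
  refine ⟨?_, (Val_len_X i).trans (Real.one_le_exp zero_le_one)⟩
  rw [totalDegree_X, Nat.cast_one]

theorem s_C {σ : Type} {a : ℝ} (c : ℤ) (ha : 0 ≤ a) (hc : |(c : ℝ)| ≤ Real.exp a) :
    SizP a (C c : MvPolynomial σ ℤ) := by
  refine ⟨?_, (Val_len_C c).trans hc⟩
  rw [totalDegree_C, Nat.cast_zero]
  exact ha

theorem s_mul {σ : Type} {a b : ℝ} {P Q : MvPolynomial σ ℤ} (h : SizP a P) (h' : SizP b Q) :
    SizP (a + b) (P * Q) := by
  refine ⟨?_, ?_⟩
  · have h1 : ((P * Q).totalDegree : ℝ) ≤ P.totalDegree + Q.totalDegree := by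
      exact_mod_cast totalDegree_mul P Q
    exact h1.trans (add_le_add h.1 h'.1)
  · refine (Val_len_mul _ _).trans ?_
    rw [Real.exp_add]
    exact mul_le_mul h.2 h'.2 (Val_len_nonneg _) (Real.exp_pos _).le

theorem s_pow {σ : Type} {a : ℝ} {P : MvPolynomial σ ℤ} (h : SizP a P) (k : ℕ) :
    SizP (k * a) (P ^ k) := by
  refine ⟨?_, ?_⟩
  · have h1 : ((P ^ k).totalDegree : ℝ) ≤ k * P.totalDegree := by
      exact_mod_cast totalDegree_pow P k
    exact h1.trans (mul_le_mul_of_nonneg_left h.1 (Nat.cast_nonneg _))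
  · refine (Val_len_pow _ _).trans ?_
    rw [Real.exp_nat_mul]
    exact pow_le_pow_left₀ (Val_len_nonneg _) h.2 k

theorem s_prod {σ κ : Type} {a : ℝ} (s : Finset κ) (f : κ → MvPolynomial σ ℤ)
    (h : ∀ i ∈ s, SizP a (f i)) : SizP (s.card * a) (∏ i ∈ s, f i) := by
  classical
  induction s using Finset.induction_on with
  | empty => simpa using s_one (σ := σ) le_rfl
  | insert i s hi ih =>
    rw [Finset.prod_insert hi, Finset.card_insert_of_notMem hi]
    have h1 := s_mul (h i (Finset.mem_insert_self i s))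
      (ih fun j hj => h j (Finset.mem_insert_of_mem hj))
    refine s_mono h1 (le_of_eq ?_)
    push_cast
    ring

theorem s_sum {σ κ : Type} {a L : ℝ} (s : Finset κ) (f : κ → MvPolynomial σ ℤ) (ha : 0 ≤ a)
    (hL : 0 ≤ L) (hc : (s.card : ℝ) ≤ Real.exp L) (h : ∀ i ∈ s, SizP a (f i)) :
    SizP (a + L) (∑ i ∈ s, f i) := by
  refine ⟨?_, ?_⟩
  · have h1 : (∑ i ∈ s, f i).totalDegree ≤ ⌊a⌋₊ :=
      totalDegree_finsetSum_le fun i hi => Nat.le_floor (h i hi).1
    have h2 : (((∑ i ∈ s, f i).totalDegree : ℕ) : ℝ) ≤ (⌊a⌋₊ : ℝ) := by exact_mod_cast h1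
    exact (h2.trans (Nat.floor_le ha)).trans (by linarith)
  · refine (Val_len_sum _ _).trans ?_
    refine (Finset.sum_le_card_nsmul _ _ _ fun i hi => (h i hi).2).trans ?_
    rw [nsmul_eq_mul, Real.exp_add, mul_comm]
    exact mul_le_mul_of_nonneg_left hc (Real.exp_pos _).le

theorem nat_exp (k : ℕ) : (k : ℝ) ≤ Real.exp k := by
  have := Real.add_one_le_exp (k : ℝ)
  linarith

theorem s_add {σ : Type} {a : ℝ} {P Q : MvPolynomial σ ℤ} (ha : 0 ≤ a) (h : SizP a P)
    (h' : SizP a Q) : SizP (a + 1) (P + Q) := by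
  have h1 := s_sum (Finset.univ : Finset Bool) (fun b => if b then P else Q) ha
    (zero_le_one) (by
      rw [Finset.card_univ, Fintype.card_bool]
      have := Real.add_one_le_exp (1 : ℝ)
      norm_num at this ⊢
      linarith) (by
      intro b _
      cases b
      · simpa using h'
      · simpa using h)
  simpa using h1

theorem s_prodZ {σ : Type} {a : ℝ} (ha : 0 ≤ a) (p : ι → Prop) [DecidablePred p]
    (F : ι → MvPolynomial σ ℤ) (h : ∀ j, p j → SizP a (F j)) :
    SizP (Fintype.card ι * a) (∏ j, (if p j then F j else 1)) := by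
  have h1 := s_prod (Finset.univ : Finset ι) (fun j => if p j then F j else 1) (a := a) (by
    intro j _
    by_cases hj : p j
    · simpa [hj] using h j hj
    · simpa [hj] using s_one (σ := σ) ha)
  rwa [Finset.card_univ] at h1

theorem facS {n W T : ℕ} (ty : ι → Ty) (s : Fin n → ℤ) (V : ι → Qua n ι) (x : ι → Fin W)
    (h : ℝ) (hh : 0 ≤ h) (hs0 : ∀ k, 0 ≤ s k) (hs : ∀ k, s k ≤ (T : ℤ))
    (hV : ∀ j, ty j = Ty.ell → SizQ h (V j)) (i : ι) :
    SizP ((2 * Fintype.card ι + n + 4) * (W * (h + T + 1))) (facM ty W s V x i) := by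
  classical
  have hx : ((x i : ℕ) : ℝ) ≤ W := by exact_mod_cast (x i).2.le
  have hx' : ((W - (x i : ℕ) : ℕ) : ℝ) ≤ W := by exact_mod_cast Nat.sub_le _ _
  set N : ℝ := (Fintype.card ι : ℝ) with hN
  have hN0 : 0 ≤ N := Nat.cast_nonneg _
  have hn0 : (0 : ℝ) ≤ n := Nat.cast_nonneg _
  have hT0 : (0 : ℝ) ≤ T := Nat.cast_nonneg _
  have hW0 : (0 : ℝ) ≤ W := Nat.cast_nonneg _
  have hWh : 0 ≤ W * h := mul_nonneg hW0 hh
  unfold facM
  rcases hi : ty i with _ | _ | _
  · simp only
    have h1 : SizP (T + 1 + N * h + n) (∑ k, C (s k) * X (Sum.inr (Sum.inr (k, i, false))) *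
        ∏ j, (if ty j = Ty.ell then (V j).Z else 1) : MvPolynomial (VM n ι) ℤ) := by
      refine s_sum _ _ (by positivity) hn0 ?_ fun k _ => ?_
      · rw [Finset.card_univ, Fintype.card_fin]
        exact nat_exp n
      · refine s_mul (s_mul (s_C _ hT0 ?_) (s_X _)) (s_prodZ hh _ _ fun j hj => (hV j hj).Z)
        have h2 : |(s k : ℝ)| ≤ T := by
          rw [abs_of_nonneg (by exact_mod_cast hs0 k)]
          exact_mod_cast hs k
        exact h2.trans (nat_exp T)
    have h2 : SizP (1 + h + N * h + N) (∑ j, (if ty j = Ty.ell then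
        X (Sum.inr (Sum.inl (i, j))) * (V j).N *
        ∏ j', (if ty j' = Ty.ell ∧ j' ≠ j then (V j').Z else 1) else 0) :
          MvPolynomial (VM n ι) ℤ) := by
      refine s_sum _ _ (by positivity) hN0 ?_ fun j _ => ?_
      · rw [Finset.card_univ]
        exact nat_exp _
      · by_cases hj : ty j = Ty.ell
        · rw [if_pos hj]
          exact s_mul (s_mul (s_X _) (hV j hj).N)
            (s_prodZ hh _ _ fun j' hj' => (hV j' hj'.1).Z)
        · rw [if_neg hj]
          exact s_zero (by positivity)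
    have h3 := s_add (a := T + 1 + (N + 1) * h + n + N) (by positivity)
      (s_mono h1 (by nlinarith)) (s_mono h2 (by nlinarith))
    have h4 := s_mul (s_pow h3 (x i : ℕ)) (s_prodZ (a := W * h) hWh (fun j => ty j = Ty.ell)
      (fun j => (V j).Z ^ (W - (x i : ℕ))) fun j hj =>
        s_mono (s_pow (hV j hj).Z _) (mul_le_mul_of_nonneg_right hx' hh))
    refine s_mono h4 ?_
    have h5 : ((x i : ℕ) : ℝ) * (T + 1 + (N + 1) * h + n + N + 1) ≤
        W * (T + 1 + (N + 1) * h + n + N + 1) := mul_le_mul_of_nonneg_right hx (by positivity)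
    have h6 : (0 : ℝ) ≤ (W : ℝ) * T := mul_nonneg hW0 hT0
    have h7 : (0 : ℝ) ≤ (W : ℝ) * T * N := by positivity
    have h8 : (0 : ℝ) ≤ (W : ℝ) * T * n := by positivity
    have h9 : (0 : ℝ) ≤ (W : ℝ) * h * n := by positivity
    have h10 : (0 : ℝ) ≤ (W : ℝ) * N := by positivity
    nlinarith
  · simp only
    have h1 : SizP (n * (T * W)) (∏ k, X (Sum.inr (Sum.inr (k, i, false))) ^
        ((s k).toNat * (x i : ℕ)) : MvPolynomial (VM n ι) ℤ) := by
      have h2 := s_prod (Finset.univ : Finset (Fin n)) (fun k =>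
        (X (Sum.inr (Sum.inr (k, i, false))) : MvPolynomial (VM n ι) ℤ) ^
          ((s k).toNat * (x i : ℕ))) (a := T * W) (fun k _ => by
        refine s_mono (s_pow (s_X _) _) ?_
        rw [mul_one]
        push_cast
        refine mul_le_mul ?_ hx (Nat.cast_nonneg _) hT0
        have h3 : (s k).toNat ≤ T := by
          have := hs k
          omega
        exact_mod_cast h3)
      rwa [Finset.card_univ, Fintype.card_fin] at h2
    have h4 := s_mul h1 (s_prodZ (a := W * h) hWh (fun j => ty j = Ty.ell)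
      (fun j => (V j).Z ^ W) fun j hj => s_pow (hV j hj).Z _)
    refine s_mono h4 ?_
    have h6 : (0 : ℝ) ≤ (W : ℝ) * T := mul_nonneg hW0 hT0
    have h7 : (0 : ℝ) ≤ (W : ℝ) * T * N := by positivity
    have h8 : (0 : ℝ) ≤ (W : ℝ) * T * n := by positivity
    have h9 : (0 : ℝ) ≤ (W : ℝ) * h * n := by positivity
    have h10 : (0 : ℝ) ≤ (W : ℝ) * N := by positivity
    have h11 : (0 : ℝ) ≤ (W : ℝ) * h * N := by positivity
    have h12 : (0 : ℝ) ≤ (W : ℝ) * n := by positivity
    change _ + N * (W * h) ≤ _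
    nlinarith
  · simp only
    have h1 : SizP (W * h) ((V i).A ^ (x i : ℕ)) :=
      s_mono (s_pow (hV i hi).A _) (mul_le_mul_of_nonneg_right hx hh)
    have h2 : SizP (W * h) ((V i).Z ^ (W - (x i : ℕ))) :=
      s_mono (s_pow (hV i hi).Z _) (mul_le_mul_of_nonneg_right hx' hh)
    have h4 := s_mul (s_mul h1 h2) (s_prodZ (a := W * h) hWh (fun j => ty j = Ty.ell ∧ j ≠ i)
      (fun j => (V j).Z ^ W) fun j hj => s_pow (hV j hj.1).Z _)
    refine s_mono h4 ?_
    have h6 : (0 : ℝ) ≤ (W : ℝ) * T := mul_nonneg hW0 hT0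
    have h7 : (0 : ℝ) ≤ (W : ℝ) * T * N := by positivity
    have h8 : (0 : ℝ) ≤ (W : ℝ) * T * n := by positivity
    have h9 : (0 : ℝ) ≤ (W : ℝ) * h * n := by positivity
    have h10 : (0 : ℝ) ≤ (W : ℝ) * N := by positivity
    have h11 : (0 : ℝ) ≤ (W : ℝ) * h * N := by positivity
    have h12 : (0 : ℝ) ≤ (W : ℝ) * n := by positivity
    change _ + N * (W * h) ≤ _
    nlinarith

end

end I_PEMval

open I_PEMval in
/-- Values and sizes of the polynomials `PEM`. -/
theorem PEMval_pf : S_PEMval := by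
  classical
  intro ι _ n G
  set N : ℝ := (Fintype.card ι : ℝ) with hN
  have hN0 : 0 ≤ N := Nat.cast_nonneg _
  have hn0 : (0 : ℝ) ≤ n := Nat.cast_nonneg _
  have hG0 : (0 : ℝ) ≤ G := Nat.cast_nonneg _
  refine ⟨G * (N * (2 * N + n + 4)) + G * N + 1, by
    have : 0 ≤ G * (N * (2 * N + n + 4)) + G * N := by positivity
    linarith, ?_⟩
  intro ty W p s V hs0
  refine ⟨?_, ?_⟩
  · intro τ μ θ z r' hV
    unfold PEM
    rw [map_sum, Finset.mul_sum]
    refine Finset.sum_congr rfl fun x _ => ?_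
    rw [map_mul, map_prod]
    have h1 : (aeval θ) (C (p x) : MvPolynomial (VM n ι) ℤ) = (p x : ℂ) := by simp
    rw [h1]
    have h2 : ∏ r, (aeval θ) (∏ i, facM ty W (s r) (V r) (x r) i) =
        (∏ r, ∏ j, (if ty j = Ty.ell then aeval θ (V r j).Z ^ (Fintype.card ι * W) else 1)) *
          ∏ r, ∏ i, cdm τ μ θ ty (s r) (z r) (r' r) i ^ (x r i : ℕ) := by
      rw [← Finset.prod_mul_distrib]
      refine Finset.prod_congr rfl fun r _ => ?_
      rw [map_prod, Finset.prod_congr rfl fun i _ =>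
        facV τ μ θ ty (s r) (z r) (r' r) (V r) (x r) (hV r) i, Finset.prod_mul_distrib,
        Finset.prod_const, Finset.card_univ, ← pow_mul, prod_pow', mul_comm W]
    rw [h2, mul_left_comm]
    rfl
  · intro h H T hh hH hsT hV hp
    have hT0 : (0 : ℝ) ≤ T := Nat.cast_nonneg _
    have hW0 : (0 : ℝ) ≤ W := Nat.cast_nonneg _
    have hA0 : 0 ≤ W * (h + T + 1) := by positivity
    unfold PEM
    have h1 : ∀ x ∈ (Finset.univ : Finset (Fin G → ι → Fin W)),
        SizP (H + G * (N * ((2 * N + n + 4) * (W * (h + T + 1)))))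
          (C (p x) * ∏ r, ∏ i, facM ty W (s r) (V r) (x r) i) := by
      intro x _
      refine s_mul (s_C _ hH (hp x)) ?_
      have h2 := s_prod (Finset.univ : Finset (Fin G)) (fun r => ∏ i, facM ty W (s r) (V r) (x r) i)
        (a := N * ((2 * N + n + 4) * (W * (h + T + 1)))) (fun r _ => by
          have h3 := s_prod (Finset.univ : Finset ι) (fun i => facM ty W (s r) (V r) (x r) i)
            (a := (2 * N + n + 4) * (W * (h + T + 1))) (fun i _ =>
              facS ty (s r) (V r) (x r) h hh (hs0 r) (hsT r) (hV r) i)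
          rwa [Finset.card_univ] at h3)
      rwa [Finset.card_univ, Fintype.card_fin] at h2
    have h2 := s_sum _ _ (a := H + G * (N * ((2 * N + n + 4) * (W * (h + T + 1)))))
      (L := G * (N * W)) (by positivity) (by positivity) (by
        rw [Finset.card_univ, Fintype.card_fun, Fintype.card_fun, Fintype.card_fin, Fintype.card_fin]
        push_cast
        have h3 : (W : ℝ) ^ Fintype.card ι ≤ Real.exp W ^ Fintype.card ι :=
          pow_le_pow_left₀ (Nat.cast_nonneg _) (nat_exp W) _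
        refine (pow_le_pow_left₀ (by positivity) h3 G).trans (le_of_eq ?_)
        rw [← Real.exp_nat_mul, ← Real.exp_nat_mul]) h1
    refine s_mono h2 ?_
    have h3 : 0 ≤ G * (N * (2 * N + n + 4)) := by positivity
    have h4 : 0 ≤ G * N := by positivity
    have h5 : (W : ℝ) ≤ W * (h + T + 1) := by nlinarith [mul_nonneg hW0 hh, mul_nonneg hW0 hT0]
    have h6 : G * N * W ≤ G * N * (W * (h + T + 1)) := mul_le_mul_of_nonneg_left h5 h4
    have h7 : 0 ≤ G * (N * (2 * N + n + 4)) * (H + 1) := by positivity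
    have h8 : 0 ≤ G * N * (H + 1) := by positivity
    nlinarith

end Pool.Agent.Work.MP_8da9ea_nt.MX
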