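import Pool.Agent.Work.MP_8da9ea_nt.MX.StmtsT
import Pool.Agent.Work.MP_8da9ea_nt.EB.I_SchwE
import Pool.Agent.Work.MP_8da9ea_nt.EB.I_QT

/-! Mixed block, item SchwM: the Schwarz lemma for the cleared mixed function. -/

set_option autoImplicit false

namespace Pool.Agent.Work.MP_8da9ea_nt.MX

open MvPolynomial Metric Filter Topology Pool.Agent.Work.MP_327059_nt.GL
  Pool.Agent.Work.MP_8da9ea_nt.S Pool.Agent.Work.MP_8da9ea_nt.EB

namespace I_SchwM

/-! ## Clearing the poles of `℘` and `ζ` -/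

/-- The holomorphic continuation of `q^2 ζ`. -/
noncomputable def kq (τ : ℂ) (S : Finset (ℤ × ℤ)) (u : ℂ) : ℂ :=
  (∑ q ∈ S, I_QT.pq τ (S.erase q) u * I_QT.pq τ S u) +
    I_QT.pq τ S u ^ 2 * (∑ q ∈ S, (1 / lp 1 τ q + u / (lp 1 τ q) ^ 2)) +
    I_QT.pq τ S u ^ 2 * ztE (S : Set (ℤ × ℤ)) τ u

theorem kq_eq {τ : ℂ} (hτ : 0 < τ.im) (S : Finset (ℤ × ℤ)) {u : ℂ} (hu : u ∉ Lam τ) :
    kq τ S u = I_QT.pq τ S u ^ 2 * zt 1 τ u := by
  classical
  have h1 : zt 1 τ u = ∑ q ∈ S, ztT 1 τ u q + ztE (S : Set (ℤ × ℤ)) τ u := by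
    unfold zt ztE
    refine tsum_split_aux S _ _ (fun q => ?_) (summable_exc _ (summable_ztT hτ u))
    by_cases hq : q ∈ S
    · rw [exc_mem (by exact_mod_cast hq), if_pos hq]
    · rw [exc_not_mem (by exact_mod_cast hq), if_neg hq]
  have h2 : ∑ q ∈ S, I_QT.pq τ (S.erase q) u * I_QT.pq τ S u =
      I_QT.pq τ S u ^ 2 * ∑ q ∈ S, 1 / (u - lp 1 τ q) := by
    rw [Finset.mul_sum]
    refine Finset.sum_congr rfl fun q hq => ?_
    have h3 : I_QT.pq τ S u = (u - lp 1 τ q) * I_QT.pq τ (S.erase q) u := by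
      unfold I_QT.pq
      exact (Finset.mul_prod_erase S _ hq).symm
    have h4 : u - lp 1 τ q ≠ 0 := by
      intro h
      exact hu ⟨q, (sub_eq_zero.1 h).symm⟩
    rw [h3]
    field_simp
  unfold kq
  rw [h1, h2]
  have h5 : ∑ q ∈ S, ztT 1 τ u q =
      ∑ q ∈ S, 1 / (u - lp 1 τ q) + ∑ q ∈ S, (1 / lp 1 τ q + u / (lp 1 τ q) ^ 2) := by
    rw [← Finset.sum_add_distrib]
    refine Finset.sum_congr rfl fun q _ => ?_
    unfold ztT
    ring
  rw [h5]
  ring

theorem diff_ztE {τ : ℂ} (hτ : 0 < τ.im) (T : Set (ℤ × ℤ)) {u : ℂ}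
    (hu : ∀ q ∉ T, u ≠ lp 1 τ q) : DifferentiableAt ℂ (fun z => ztE T τ z) u :=
  I_QT.diff_slice (F := ztE T) (hasFDerivAt_ztE T hτ hu)

theorem ztE_le {τ : ℂ} {c : ℝ} (hc : 0 < c) (hlow : ∀ q : ℤ × ℤ, c * nr q ≤ ‖lp 1 τ q‖)
    (T : Set (ℤ × ℤ)) {R : ℝ} (hR : 0 < R) {u : ℂ} (hu : ‖u‖ ≤ R)
    (hT : ∀ q ∉ T, 2 * R ≤ ‖lp 1 τ q‖ ∧ 0 < nr q) :
    ‖ztE T τ u‖ ≤ 10 * (R + R ^ 2) / c ^ 3 * ∑' q : ℤ × ℤ, (nr q ^ 3)⁻¹ := by
  unfold ztE
  rw [← tsum_mul_left]
  refine tsum_of_norm_bounded ((summable_nr.mul_left _).hasSum) fun q => ?_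
  have hn := nr_nonneg q
  by_cases hq : q ∈ T
  · rw [exc_mem hq, norm_zero]
    positivity
  · rw [exc_not_mem hq]
    obtain ⟨h1, h2⟩ := hT q hq
    refine (ztT_bound hR hu h1).trans ?_
    have h3 : (c * nr q) ^ 3 ≤ ‖lp 1 τ q‖ ^ 3 := by
      have := hlow q
      gcongr
    calc 10 * (R + R ^ 2) / ‖lp 1 τ q‖ ^ 3 ≤ 10 * (R + R ^ 2) / (c * nr q) ^ 3 := by
          gcongr
      _ = (10 * (R + R ^ 2) / c ^ 3) * (nr q ^ 3)⁻¹ := by
          rw [mul_pow]; field_simp

/-- Clearing the poles of `℘` and `ζ` on a ball. -/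
theorem qz {τ : ℂ} (hτ : 0 < τ.im) : ∃ C : ℝ, 1 ≤ C ∧ ∀ R : ℝ, 1 ≤ R →
    ∃ q g k : ℂ → ℂ, Differentiable ℂ q ∧ DifferentiableOn ℂ g (ball 0 (4 * R)) ∧
      DifferentiableOn ℂ k (ball 0 (4 * R)) ∧ q 0 = 0 ∧
      (∀ u ∈ ball (0 : ℂ) (4 * R), ‖q u‖ ≤ Real.exp (C * R ^ 3) ∧ ‖g u‖ ≤ Real.exp (C * R ^ 3) ∧
        ‖k u‖ ≤ Real.exp (C * R ^ 3) ∧
        (u ∉ Lam τ → g u = q u ^ 2 * wp 1 τ u ∧ k u = q u ^ 2 * zt 1 τ u)) ∧
      ∀ u : ℂ, ‖u‖ ≤ R → Real.exp (-(C * R ^ 3)) * d1 τ u ≤ ‖q u‖ := by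
  classical
  obtain ⟨c, hc, hlow'⟩ := exists_lower |τ.re| τ.im hτ
  have hlow : ∀ q : ℤ × ℤ, c * nr q ≤ ‖lp 1 τ q‖ := hlow' τ le_rfl le_rfl
  set σ : ℝ := ∑' q : ℤ × ℤ, (nr q ^ 3)⁻¹ with hσ
  have hσ0 : 0 ≤ σ := tsum_nonneg fun q => by have := nr_nonneg q; positivity
  set a : ℝ := 4 + 8 * (1 + ‖τ‖) / c with ha
  have ha4 : 4 ≤ a := by
    have : 0 ≤ 8 * (1 + ‖τ‖) / c := by positivity
    linarith
  set C0 : ℝ := (16 / c + 1) ^ 2 with hC0
  have hC00 : 0 ≤ C0 := by positivity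
  set κ : ℝ := min 1 (c / 2) with hκ
  have hκ0 : 0 < κ := lt_min one_pos (by linarith)
  have hκ1 : κ ≤ 1 := min_le_left _ _
  set lam : ℝ := -Real.log κ with hlam
  have hlam0 : 0 ≤ lam := by
    have := Real.log_nonpos hκ0.le hκ1
    linarith
  set E : ℝ := a * C0 with hE
  have hE0 : 0 ≤ E := by positivity
  set D : ℝ := C0 + C0 / c ^ 2 + 200 * σ / c ^ 3 with hD
  have hD0 : 0 ≤ D := by positivity
  set D' : ℝ := C0 + C0 * (1 / c + 4 / c ^ 2) + 200 * σ / c ^ 3 with hD'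
  have hD'0 : 0 ≤ D' := by positivity
  refine ⟨1 + 2 * E + D + D' + lam * C0, by nlinarith [mul_nonneg hlam0 hC00], ?_⟩
  intro R hR
  have hR0 : 0 < R := by linarith
  have hR3 : (0 : ℝ) < R ^ 3 := by positivity
  have hR23 : R ^ 2 ≤ R ^ 3 := pow_le_pow_right₀ hR (by norm_num)
  set K : ℝ := 8 * R / c with hK
  have hK0 : 0 ≤ K := by positivity
  set S : Finset (ℤ × ℤ) := I_QT.SS K with hS
  have hcard : (S.card : ℝ) ≤ C0 * R ^ 2 := by
    refine (I_QT.card_SS_le hK0).trans ?_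
    have h1 : 2 * K + 1 ≤ (16 / c + 1) * R := by
      have : 2 * K = 16 / c * R := by rw [hK]; ring
      rw [this]
      nlinarith
    calc (2 * K + 1) ^ 2 ≤ ((16 / c + 1) * R) ^ 2 := pow_le_pow_left₀ (by positivity) h1 2
      _ = C0 * R ^ 2 := by rw [hC0]; ring
  have hcard3 : (S.card : ℝ) ≤ C0 * R ^ 3 :=
    hcard.trans (mul_le_mul_of_nonneg_left hR23 hC00)
  -- factors
  have haR : 1 ≤ a * R := by nlinarith
  have hfac : ∀ u ∈ ball (0 : ℂ) (4 * R), ∀ q ∈ S, ‖u - lp 1 τ q‖ ≤ a * R := by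
    intro u hu q hq
    rw [mem_ball_zero_iff] at hu
    rw [hS, I_QT.mem_SS] at hq
    have h1 := I_QT.norm_lp_le τ q
    have h2 : (1 + ‖τ‖) * nr q ≤ (1 + ‖τ‖) * K := mul_le_mul_of_nonneg_left hq (by positivity)
    have h3 : (1 + ‖τ‖) * K = 8 * (1 + ‖τ‖) / c * R := by rw [hK]; ring
    calc ‖u - lp 1 τ q‖ ≤ ‖u‖ + ‖lp 1 τ q‖ := norm_sub_le _ _
      _ ≤ 4 * R + 8 * (1 + ‖τ‖) / c * R := by linarith
      _ = a * R := by rw [ha]; ring
  have hprod : ∀ u ∈ ball (0 : ℂ) (4 * R), ∀ T ⊆ S, ‖I_QT.pq τ T u‖ ≤ Real.exp (E * R ^ 3) := by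
    intro u hu T hT
    refine (I_QT.pq_le (fun q hq => hfac u hu q (hT hq))).trans ?_
    have h1 : (a * R) ^ T.card ≤ (a * R) ^ S.card :=
      pow_le_pow_right₀ haR (Finset.card_le_card hT)
    refine h1.trans ?_
    have h2 : (a * R) ^ S.card ≤ Real.exp (a * R) ^ S.card := by
      refine pow_le_pow_left₀ (by positivity) ?_ _
      have := Real.add_one_le_exp (a * R)
      linarith
    refine h2.trans ?_
    rw [← Real.exp_nat_mul]
    apply Real.exp_le_exp.2
    calc (S.card : ℝ) * (a * R) ≤ (C0 * R ^ 2) * (a * R) :=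
          mul_le_mul_of_nonneg_right hcard (by positivity)
      _ = E * R ^ 3 := by rw [hE]; ring
  have hout : ∀ q ∉ (S : Set (ℤ × ℤ)), 2 * (4 * R) ≤ ‖lp 1 τ q‖ ∧ 0 < nr q := by
    intro q hq
    have h1 : ¬ nr q ≤ K := by
      intro h
      exact hq (by rw [hS]; exact_mod_cast I_QT.mem_SS.2 h)
    have h2 : K < nr q := not_le.1 h1
    refine ⟨?_, hK0.trans_lt h2⟩
    refine le_trans ?_ (hlow q)
    rw [hK, div_lt_iff₀ hc] at h2
    linarith
  have hne : ∀ u ∈ ball (0 : ℂ) (4 * R), ∀ q ∉ (S : Set (ℤ × ℤ)), u ≠ lp 1 τ q := by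
    intro u hu q hq h
    rw [mem_ball_zero_iff] at hu
    have := (hout q hq).1
    rw [← h] at this
    linarith
  have hexp : ∀ u ∈ ball (0 : ℂ) (4 * R), ∀ T ⊆ S, ∀ T' ⊆ S,
      ‖I_QT.pq τ T u * I_QT.pq τ T' u‖ ≤ Real.exp (2 * E * R ^ 3) := by
    intro u hu T hT T' hT'
    rw [norm_mul]
    refine (mul_le_mul (hprod u hu T hT) (hprod u hu T' hT') (norm_nonneg _)
      (Real.exp_pos _).le).trans ?_
    rw [← Real.exp_add]
    apply Real.exp_le_exp.2
    linarith
  -- the terms with the inverse lattice points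
  have hinv : ∀ q : ℤ × ℤ, ‖1 / lp 1 τ q‖ ≤ 1 / c := by
    intro q
    by_cases hq : q = 0
    · have : lp 1 τ q = 0 := by rw [hq]; simp [lp]
      rw [this]
      norm_num
      positivity
    · have h2 : c ≤ ‖lp 1 τ q‖ := by
        refine le_trans ?_ (hlow _)
        have := I_QT.one_le_nr hq
        nlinarith
      rw [norm_div, norm_one]
      exact one_div_le_one_div_of_le hc h2
  have hinv2 : ∀ q : ℤ × ℤ, ‖1 / (lp 1 τ q) ^ 2‖ ≤ 1 / c ^ 2 := by
    intro q
    have h1 := pow_le_pow_left₀ (norm_nonneg _) (hinv q) 2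
    rw [← norm_pow] at h1
    rw [div_pow, one_pow, div_pow, one_pow] at h1
    exact h1
  refine ⟨I_QT.pq τ S, I_QT.gq τ S, kq τ S, I_QT.diff_pq τ S, ?_, ?_, ?_, ?_, ?_⟩
  · intro u hu
    apply DifferentiableAt.differentiableWithinAt
    unfold I_QT.gq
    have h1 : ∀ T : Finset (ℤ × ℤ), DifferentiableAt ℂ (fun u => I_QT.pq τ T u ^ 2) u :=
      fun T => ((I_QT.diff_pq τ T) u).pow 2
    have h2 : DifferentiableAt ℂ (fun u => ∑ q ∈ S, I_QT.pq τ (S.erase q) u ^ 2) u :=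
      DifferentiableAt.fun_sum fun q _ => h1 _
    exact (h2.sub ((h1 S).mul_const _)).add ((h1 S).mul (I_QT.diff_wpE hτ _ (hne u hu)))
  · intro u hu
    apply DifferentiableAt.differentiableWithinAt
    unfold kq
    have h1 : DifferentiableAt ℂ (fun u => I_QT.pq τ S u ^ 2) u := ((I_QT.diff_pq τ S) u).pow 2
    have h2 : DifferentiableAt ℂ
        (fun u => ∑ q ∈ S, I_QT.pq τ (S.erase q) u * I_QT.pq τ S u) u :=
      DifferentiableAt.fun_sum fun q _ => ((I_QT.diff_pq τ _) u).mul ((I_QT.diff_pq τ S) u)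
    have h3 : DifferentiableAt ℂ
        (fun u : ℂ => ∑ q ∈ S, (1 / lp 1 τ q + u / (lp 1 τ q) ^ 2)) u :=
      DifferentiableAt.fun_sum fun q _ => by fun_prop
    exact (h2.add (h1.mul h3)).add (h1.mul (diff_ztE hτ _ (hne u hu)))
  · unfold I_QT.pq
    apply Finset.prod_eq_zero (I_QT.zero_mem_SS hK0)
    simp [lp]
  · intro u hu
    have hpS := hprod u hu S subset_rfl
    set X : ℝ := Real.exp (2 * E * R ^ 3) with hX
    have hX0 : 0 < X := Real.exp_pos _
    have hS2 : ‖I_QT.pq τ S u ^ 2‖ ≤ X := by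
      rw [pow_two]
      exact hexp u hu S subset_rfl S subset_rfl
    refine ⟨hpS.trans ?_, ?_, ?_, fun h => ⟨I_QT.gq_eq hτ S h, kq_eq hτ S h⟩⟩
    · apply Real.exp_le_exp.2
      apply mul_le_mul_of_nonneg_right _ hR3.le
      nlinarith [mul_nonneg hlam0 hC00]
    · have t1 : ‖∑ q ∈ S, I_QT.pq τ (S.erase q) u ^ 2‖ ≤ X * (C0 * R ^ 2) := by
        refine (norm_sum_le _ _).trans ?_
        refine (Finset.sum_le_sum (g := fun _ => X) fun q _ => ?_).trans ?_
        · rw [pow_two]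
          exact hexp u hu _ (Finset.erase_subset q S) _ (Finset.erase_subset q S)
        · rw [Finset.sum_const, nsmul_eq_mul]
          nlinarith
      have t2 : ‖∑ q ∈ S, 1 / (lp 1 τ q) ^ 2‖ ≤ (C0 / c ^ 2) * R ^ 2 := by
        refine (norm_sum_le _ _).trans ?_
        refine (Finset.sum_le_sum fun q _ => hinv2 q).trans ?_
        rw [Finset.sum_const, nsmul_eq_mul]
        calc (S.card : ℝ) * (1 / c ^ 2) ≤ (C0 * R ^ 2) * (1 / c ^ 2) :=
              mul_le_mul_of_nonneg_right hcard (by positivity)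
          _ = (C0 / c ^ 2) * R ^ 2 := by ring
      have t3 : ‖wpE (S : Set (ℤ × ℤ)) τ u‖ ≤ (200 * σ / c ^ 3) * R ^ 2 := by
        have hu' := hu
        rw [mem_ball_zero_iff] at hu'
        refine (I_QT.wpE_le hc hlow _ (by positivity : (0 : ℝ) < 4 * R) hu'.le hout).trans ?_
        have h1 : 10 * (4 * R + (4 * R) ^ 2) ≤ 200 * R ^ 2 := by nlinarith
        calc 10 * (4 * R + (4 * R) ^ 2) / c ^ 3 * σ ≤ 200 * R ^ 2 / c ^ 3 * σ := by
              gcongr
          _ = (200 * σ / c ^ 3) * R ^ 2 := by ring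
      have t4 : ‖I_QT.gq τ S u‖ ≤ X * (D * R ^ 2) := by
        unfold I_QT.gq
        refine (norm_add_le _ _).trans ?_
        refine (add_le_add (norm_sub_le _ _) le_rfl).trans ?_
        rw [norm_mul, norm_mul]
        have h1 := mul_le_mul hS2 t2 (norm_nonneg _) hX0.le
        have h2 := mul_le_mul hS2 t3 (norm_nonneg _) hX0.le
        have h3 : X * (D * R ^ 2) = X * (C0 * R ^ 2) + X * ((C0 / c ^ 2) * R ^ 2) +
            X * ((200 * σ / c ^ 3) * R ^ 2) := by rw [hD]; ring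
        rw [h3]
        exact add_le_add (add_le_add t1 h1) h2
      refine t4.trans ?_
      have h5 : D * R ^ 2 ≤ Real.exp (D * R ^ 3) := by
        have h6 : D * R ^ 2 ≤ D * R ^ 3 := mul_le_mul_of_nonneg_left hR23 hD0
        have := Real.add_one_le_exp (D * R ^ 3)
        linarith
      calc X * (D * R ^ 2) ≤ X * Real.exp (D * R ^ 3) := mul_le_mul_of_nonneg_left h5 hX0.le
        _ = Real.exp ((2 * E + D) * R ^ 3) := by rw [hX, ← Real.exp_add]; ring_nf
        _ ≤ _ := by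
            apply Real.exp_le_exp.2
            apply mul_le_mul_of_nonneg_right _ hR3.le
            nlinarith [mul_nonneg hlam0 hC00]
    · have hu' := hu
      rw [mem_ball_zero_iff] at hu'
      have t1 : ‖∑ q ∈ S, I_QT.pq τ (S.erase q) u * I_QT.pq τ S u‖ ≤ X * (C0 * R ^ 3) := by
        refine (norm_sum_le _ _).trans ?_
        refine (Finset.sum_le_sum (g := fun _ => X) fun q _ => ?_).trans ?_
        · exact hexp u hu _ (Finset.erase_subset q S) _ subset_rfl
        · rw [Finset.sum_const, nsmul_eq_mul]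
          nlinarith
      have t2 : ‖∑ q ∈ S, (1 / lp 1 τ q + u / (lp 1 τ q) ^ 2)‖ ≤
          (C0 * (1 / c + 4 / c ^ 2)) * R ^ 3 := by
        refine (norm_sum_le _ _).trans ?_
        have h1 : ∀ q ∈ S, ‖1 / lp 1 τ q + u / (lp 1 τ q) ^ 2‖ ≤ (1 / c + 4 / c ^ 2) * R := by
          intro q _
          refine (norm_add_le _ _).trans ?_
          have e1 := hinv q
          have e2 : ‖u / (lp 1 τ q) ^ 2‖ ≤ (4 * R) * (1 / c ^ 2) := by
            have e3 : u / (lp 1 τ q) ^ 2 = u * (1 / (lp 1 τ q) ^ 2) := by ring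
            rw [e3, norm_mul]
            exact mul_le_mul hu'.le (hinv2 q) (norm_nonneg _) (by positivity)
          have e4 : 1 / c ≤ 1 / c * R := by
            have : 0 ≤ 1 / c := by positivity
            nlinarith
          calc ‖1 / lp 1 τ q‖ + ‖u / (lp 1 τ q) ^ 2‖ ≤ 1 / c * R + (4 * R) * (1 / c ^ 2) := by
                linarith
            _ = (1 / c + 4 / c ^ 2) * R := by ring
        refine (Finset.sum_le_sum h1).trans ?_
        rw [Finset.sum_const, nsmul_eq_mul]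
        calc (S.card : ℝ) * ((1 / c + 4 / c ^ 2) * R) ≤
              (C0 * R ^ 2) * ((1 / c + 4 / c ^ 2) * R) :=
              mul_le_mul_of_nonneg_right hcard (by positivity)
          _ = (C0 * (1 / c + 4 / c ^ 2)) * R ^ 3 := by ring
      have t3 : ‖ztE (S : Set (ℤ × ℤ)) τ u‖ ≤ (200 * σ / c ^ 3) * R ^ 3 := by
        refine (ztE_le hc hlow _ (by positivity : (0 : ℝ) < 4 * R) hu'.le hout).trans ?_
        have h1 : 10 * (4 * R + (4 * R) ^ 2) ≤ 200 * R ^ 3 := by nlinarith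
        calc 10 * (4 * R + (4 * R) ^ 2) / c ^ 3 * σ ≤ 200 * R ^ 3 / c ^ 3 * σ := by
              gcongr
          _ = (200 * σ / c ^ 3) * R ^ 3 := by ring
      have t4 : ‖kq τ S u‖ ≤ X * (D' * R ^ 3) := by
        unfold kq
        refine (norm_add_le _ _).trans ?_
        refine (add_le_add (norm_add_le _ _) le_rfl).trans ?_
        rw [norm_mul (I_QT.pq τ S u ^ 2), norm_mul (I_QT.pq τ S u ^ 2)]
        have h1 := mul_le_mul hS2 t2 (norm_nonneg _) hX0.le
        have h2 := mul_le_mul hS2 t3 (norm_nonneg _) hX0.le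
        have h3 : X * (D' * R ^ 3) = X * (C0 * R ^ 3) + X * ((C0 * (1 / c + 4 / c ^ 2)) * R ^ 3) +
            X * ((200 * σ / c ^ 3) * R ^ 3) := by rw [hD']; ring
        rw [h3]
        exact add_le_add (add_le_add t1 h1) h2
      refine t4.trans ?_
      have h5 : D' * R ^ 3 ≤ Real.exp (D' * R ^ 3) := by
        have := Real.add_one_le_exp (D' * R ^ 3)
        linarith
      calc X * (D' * R ^ 3) ≤ X * Real.exp (D' * R ^ 3) := mul_le_mul_of_nonneg_left h5 hX0.le
        _ = Real.exp ((2 * E + D') * R ^ 3) := by rw [hX, ← Real.exp_add]; ring_nf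
        _ ≤ _ := by
            apply Real.exp_le_exp.2
            apply mul_le_mul_of_nonneg_right _ hR3.le
            nlinarith [mul_nonneg hlam0 hC00]
  · intro u _
    refine le_trans ?_ (I_QT.pq_ge hc hlow S u)
    have hd0 : 0 ≤ d1 τ u := le_min zero_le_one Metric.infDist_nonneg
    apply mul_le_mul_of_nonneg_right _ hd0
    have h1 : κ = Real.exp (-lam) := by
      rw [hlam, neg_neg, Real.exp_log hκ0]
    change _ ≤ κ ^ S.card
    rw [h1, ← Real.exp_nat_mul]
    apply Real.exp_le_exp.2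
    have h2 : (S.card : ℝ) * lam ≤ (C0 * R ^ 3) * lam := mul_le_mul_of_nonneg_right hcard3 hlam0
    have h3 : 0 ≤ (1 + 2 * E + D + D') * R ^ 3 := by positivity
    nlinarith

/-! ## The cleared polynomial -/

section

variable {ι : Type} [Fintype ι]

theorem card_support_le {D : ℕ} {R : MvPolynomial ι ℤ} (hR : ∀ j, R.degreeOf j ≤ D) :
    R.support.card ≤ (D + 1) ^ Fintype.card ι := by
  classical
  have h1 : R.support.card ≤ (Fintype.piFinset fun _ : ι => Finset.range (D + 1)).card := by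
    refine Finset.card_le_card_of_injOn (fun d j => d j) ?_ ?_
    · intro d hd
      have hd' : d ∈ R.support := hd
      rw [Finset.mem_coe, Fintype.mem_piFinset]
      intro j
      rw [Finset.mem_range]
      have := (degreeOf_le_iff.1 (hR j)) d hd'
      exact Nat.lt_succ_of_le this
    · intro d _ d' _ h
      exact Finsupp.ext fun j => congrFun h j
  refine h1.trans ?_
  rw [Fintype.card_piFinset]
  simp

/-- The cleared polynomial. -/
noncomputable def G0 (D : ℕ) (R : MvPolynomial ι ℤ) (H : ι → ℂ) (P : ℂ) : ℂ :=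
  ∑ d ∈ R.support, ((R.coeff d : ℤ) : ℂ) * ∏ i, (H i ^ d i * P ^ (2 * (D - d i)))

theorem G0_eq {D : ℕ} {R : MvPolynomial ι ℤ} (hR : ∀ j, R.degreeOf j ≤ D) {H X : ι → ℂ} {P : ℂ}
    (hH : ∀ i, H i = X i * P ^ 2) :
    G0 D R H P = P ^ (2 * (Fintype.card ι * D)) * aeval X R := by
  unfold G0
  rw [aeval_def, eval₂_eq', Finset.mul_sum]
  refine Finset.sum_congr rfl fun d hd => ?_
  have h1 : ∏ i, (H i ^ d i * P ^ (2 * (D - d i))) =
      P ^ (2 * (Fintype.card ι * D)) * ∏ i, X i ^ d i := by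
    have e0 : P ^ (2 * (Fintype.card ι * D)) = ∏ _i : ι, P ^ (2 * D) := by
      rw [Finset.prod_const, Finset.card_univ, ← pow_mul]
      congr 1
      ring
    rw [e0, ← Finset.prod_mul_distrib]
    refine Finset.prod_congr rfl fun i _ => ?_
    have h2 := (degreeOf_le_iff.1 (hR i)) d hd
    obtain ⟨k, hk⟩ := Nat.exists_eq_add_of_le h2
    rw [hH i, hk, Nat.add_sub_cancel_left, mul_add, pow_add, mul_pow, ← pow_mul]
    ring
  rw [h1]
  simp only [eq_intCast]
  ring

theorem G0_bound {D : ℕ} {R : MvPolynomial ι ℤ} (hR : ∀ j, R.degreeOf j ≤ D) {h F : ℝ}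
    (hc : ∀ d, |((R.coeff d : ℤ) : ℝ)| ≤ Real.exp h) {H : ι → ℂ} {P : ℂ}
    (hH : ∀ i, ‖H i‖ ≤ Real.exp F) (hP : ‖P‖ ^ 2 ≤ Real.exp F) :
    ‖G0 D R H P‖ ≤ Real.exp (Fintype.card ι * D * (1 + F) + h) := by
  unfold G0
  have hterm : ∀ d ∈ R.support, ‖((R.coeff d : ℤ) : ℂ) *
      ∏ i, (H i ^ d i * P ^ (2 * (D - d i)))‖ ≤
      Real.exp h * Real.exp (Fintype.card ι * (D * F)) := by
    intro d hd
    rw [norm_mul, norm_prod]
    refine mul_le_mul ?_ ?_ (Finset.prod_nonneg fun _ _ => norm_nonneg _) (Real.exp_pos _).le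
    · rw [Complex.norm_intCast]
      exact hc d
    · have h1 : ∀ i ∈ (Finset.univ : Finset ι),
          ‖H i ^ d i * P ^ (2 * (D - d i))‖ ≤ Real.exp (D * F) := by
        intro i _
        have h2 := (degreeOf_le_iff.1 (hR i)) d hd
        rw [norm_mul, norm_pow, norm_pow]
        calc ‖H i‖ ^ d i * ‖P‖ ^ (2 * (D - d i))
            = ‖H i‖ ^ d i * (‖P‖ ^ 2) ^ (D - d i) := by
              rw [pow_mul]
          _ ≤ Real.exp F ^ d i * Real.exp F ^ (D - d i) :=
              mul_le_mul (pow_le_pow_left₀ (norm_nonneg _) (hH i) _)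
                (pow_le_pow_left₀ (by positivity) hP _) (by positivity) (by positivity)
          _ = Real.exp F ^ D := by
              rw [← pow_add]
              congr 1
              omega
          _ = Real.exp (D * F) := by
              rw [← Real.exp_nat_mul]
      refine (Finset.prod_le_prod (fun _ _ => norm_nonneg _) h1).trans ?_
      rw [Finset.prod_const, Finset.card_univ, ← Real.exp_nat_mul]
  refine (norm_sum_le _ _).trans ((Finset.sum_le_sum hterm).trans ?_)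
  rw [Finset.sum_const, nsmul_eq_mul]
  have h3 : (R.support.card : ℝ) ≤ Real.exp (Fintype.card ι * D) := by
    have h4 : (R.support.card : ℝ) ≤ ((D : ℝ) + 1) ^ Fintype.card ι := by
      exact_mod_cast card_support_le hR
    refine h4.trans ?_
    have h5 : (D : ℝ) + 1 ≤ Real.exp D := Real.add_one_le_exp _
    refine (pow_le_pow_left₀ (by positivity) h5 _).trans ?_
    rw [← Real.exp_nat_mul]
  calc (R.support.card : ℝ) * (Real.exp h * Real.exp (Fintype.card ι * (D * F)))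
      ≤ Real.exp (Fintype.card ι * D) * (Real.exp h * Real.exp (Fintype.card ι * (D * F))) :=
        mul_le_mul_of_nonneg_right h3 (by positivity)
    _ = Real.exp (Fintype.card ι * D * (1 + F) + h) := by
        rw [← Real.exp_add, ← Real.exp_add]
        congr 1
        ring

theorem G0_diff {D : ℕ} {R : MvPolynomial ι ℤ} {s : Set ℂ} {H : ι → ℂ → ℂ} {P : ℂ → ℂ}
    (hH : ∀ i, DifferentiableOn ℂ (H i) s) (hP : DifferentiableOn ℂ P s) :
    DifferentiableOn ℂ (fun z => G0 D R (fun i => H i z) (P z)) s := by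
  unfold G0
  refine DifferentiableOn.fun_sum fun d _ => DifferentiableOn.const_mul ?_ _
  refine DifferentiableOn.fun_finsetProd fun j _ => ?_
  exact ((hH j).pow _).mul (hP.pow _)

/-! ## The cleared functions -/

/-- The product of the clearing functions. -/
noncomputable def Qp (ty : ι → Ty) (b : ι → ℂ) (q : ℂ → ℂ) (s : Finset ι) (z : ℂ) : ℂ :=
  ∏ j ∈ s, (if ty j = Ty.ell then q (b j * z) else 1)

open Classical in
/-- The cleared functions. -/
noncomputable def HH (μ : ℂ) (ty : ι → Ty) (b : ι → ℂ) (c : ι → ι → ℂ) (q g k : ℂ → ℂ) (i : ι)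
    (z : ℂ) : ℂ :=
  match ty i with
  | Ty.add => b i * z * Qp ty b q Finset.univ z ^ 2 +
      ∑ j, (if ty j = Ty.ell then
        c i j * (μ * k (b j * z)) * Qp ty b q (Finset.univ.erase j) z ^ 2 else 0)
  | Ty.mul => Complex.exp (b i * z) * Qp ty b q Finset.univ z ^ 2
  | Ty.ell => μ ^ 2 * g (b i * z) * Qp ty b q (Finset.univ.erase i) z ^ 2

open Classical in
theorem Qp_erase {ty : ι → Ty} {b : ι → ℂ} {q : ℂ → ℂ} {j : ι} (hj : ty j = Ty.ell) (z : ℂ) :
    Qp ty b q Finset.univ z = q (b j * z) * Qp ty b q (Finset.univ.erase j) z := by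
  unfold Qp
  rw [← Finset.mul_prod_erase Finset.univ _ (Finset.mem_univ j), if_pos hj]

theorem HH_eq {τ μ : ℂ} {ty : ι → Ty} {b : ι → ℂ} {c : ι → ι → ℂ} {q g k : ℂ → ℂ} {z : ℂ}
    (h : ∀ j, ty j = Ty.ell → g (b j * z) = q (b j * z) ^ 2 * wp 1 τ (b j * z) ∧
      k (b j * z) = q (b j * z) ^ 2 * zt 1 τ (b j * z)) (i : ι) :
    HH μ ty b c q g k i z =
      PN τ μ ty c (fun j => b j * z) i * Qp ty b q Finset.univ z ^ 2 := by
  classical
  unfold HH PN
  cases hi : ty i with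
  | add =>
    simp only
    rw [add_mul, Finset.sum_mul]
    congr 1
    refine Finset.sum_congr rfl fun j _ => ?_
    by_cases hj : ty j = Ty.ell
    · rw [if_pos hj, if_pos hj, Qp_erase hj, (h j hj).2, ze]
      ring
    · rw [if_neg hj, if_neg hj, zero_mul]
  | mul => rfl
  | ell =>
    simp only
    rw [Qp_erase hi, (h i hi).1, xe]
    ring

theorem Qp_le {ty : ι → Ty} {b : ι → ℂ} {q : ℂ → ℂ} {E : ℝ} (hE : 0 ≤ E) {z : ℂ}
    (hq : ∀ j, ‖q (b j * z)‖ ≤ Real.exp E) (s : Finset ι) :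
    ‖Qp ty b q s z‖ ≤ Real.exp (Fintype.card ι * E) := by
  unfold Qp
  rw [norm_prod]
  have h1 : ∀ j ∈ s, ‖(if ty j = Ty.ell then q (b j * z) else 1)‖ ≤ Real.exp E := by
    intro j _
    split_ifs
    · exact hq j
    · rw [norm_one]
      exact Real.one_le_exp hE
  refine (Finset.prod_le_prod (fun _ _ => norm_nonneg _) h1).trans ?_
  rw [Finset.prod_const, ← Real.exp_nat_mul]
  apply Real.exp_le_exp.2
  refine mul_le_mul_of_nonneg_right ?_ hE
  exact_mod_cast Finset.card_le_univ s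

theorem Qp_sq_le {ty : ι → Ty} {b : ι → ℂ} {q : ℂ → ℂ} {E : ℝ} (hE : 0 ≤ E) {z : ℂ}
    (hq : ∀ j, ‖q (b j * z)‖ ≤ Real.exp E) (s : Finset ι) :
    ‖Qp ty b q s z‖ ^ 2 ≤ Real.exp (2 * (Fintype.card ι * E)) := by
  refine (pow_le_pow_left₀ (norm_nonneg _) (Qp_le hE hq s) 2).trans ?_
  rw [← Real.exp_nat_mul]
  push_cast
  exact le_rfl

theorem HH_le {μ : ℂ} {ty : ι → Ty} {b : ι → ℂ} {c : ι → ι → ℂ} {q g k : ℂ → ℂ} {z : ℂ}
    {E Y : ℝ} (hE : 0 ≤ E) (hY : 0 ≤ Y) (hz : ∀ j, ‖b j * z‖ ≤ Y)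
    (hq : ∀ j, ‖q (b j * z)‖ ≤ Real.exp E) (hg : ∀ j, ‖g (b j * z)‖ ≤ Real.exp E)
    (hk : ∀ j, ‖k (b j * z)‖ ≤ Real.exp E) (i : ι) :
    ‖HH μ ty b c q g k i z‖ ≤
      Real.exp (1 + Y + ∑ i, ∑ j, ‖c i j‖ + ‖μ‖ + ‖μ‖ ^ 2 + E + 2 * (Fintype.card ι * E)) := by
  classical
  set N : ℝ := (Fintype.card ι : ℝ) with hN
  have hN0 : 0 ≤ N := Nat.cast_nonneg _
  set c' : ℝ := ∑ i, ∑ j, ‖c i j‖ with hc'
  have hc0 : 0 ≤ c' := Finset.sum_nonneg fun _ _ => Finset.sum_nonneg fun _ _ => norm_nonneg _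
  have hci : ∑ j, ‖c i j‖ ≤ c' :=
    Finset.single_le_sum (f := fun i => ∑ j, ‖c i j‖)
      (fun _ _ => Finset.sum_nonneg fun _ _ => norm_nonneg _) (Finset.mem_univ i)
  have hx : ∀ x : ℝ, x ≤ Real.exp x := fun x => by
    have := Real.add_one_le_exp x
    linarith
  have hQ : ∀ s, ‖Qp ty b q s z ^ 2‖ ≤ Real.exp (2 * (N * E)) := by
    intro s
    rw [norm_pow]
    exact Qp_sq_le hE hq s
  have hNE : 0 ≤ N * E := by positivity
  unfold HH
  cases hi : ty i with
  | add =>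
    simp only
    have h1 : ‖b i * z * Qp ty b q Finset.univ z ^ 2‖ ≤ Real.exp (Y + 2 * (N * E)) := by
      rw [norm_mul, Real.exp_add]
      exact mul_le_mul ((hz i).trans (hx Y)) (hQ _) (norm_nonneg _) (Real.exp_pos _).le
    have h2 : ‖∑ j, (if ty j = Ty.ell then
        c i j * (μ * k (b j * z)) * Qp ty b q (Finset.univ.erase j) z ^ 2 else 0)‖ ≤
        Real.exp (c' + ‖μ‖ + E + 2 * (N * E)) := by
      have h3 : ∀ j ∈ (Finset.univ : Finset ι), ‖(if ty j = Ty.ell then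
          c i j * (μ * k (b j * z)) * Qp ty b q (Finset.univ.erase j) z ^ 2 else 0)‖ ≤
          ‖c i j‖ * Real.exp (‖μ‖ + E + 2 * (N * E)) := by
        intro j _
        split_ifs
        · rw [norm_mul, norm_mul, norm_mul, Real.exp_add, Real.exp_add, mul_assoc]
          refine mul_le_mul_of_nonneg_left ?_ (norm_nonneg _)
          exact mul_le_mul (mul_le_mul (hx _) (hk j) (norm_nonneg _) (Real.exp_pos _).le) (hQ _)
            (norm_nonneg _) (by positivity)
        · rw [norm_zero]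
          positivity
      refine (norm_sum_le _ _).trans ((Finset.sum_le_sum h3).trans ?_)
      rw [← Finset.sum_mul]
      have e : Real.exp (c' + ‖μ‖ + E + 2 * (N * E)) =
          Real.exp c' * Real.exp (‖μ‖ + E + 2 * (N * E)) := by
        rw [← Real.exp_add]
        congr 1
        ring
      rw [e]
      exact mul_le_mul_of_nonneg_right (hci.trans (hx _)) (Real.exp_pos _).le
    refine (norm_add_le _ _).trans ?_
    set Z : ℝ := Y + c' + ‖μ‖ + ‖μ‖ ^ 2 + E + 2 * (N * E) with hZ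
    have h4 : Real.exp (Y + 2 * (N * E)) ≤ Real.exp Z := by
      apply Real.exp_le_exp.2
      have := norm_nonneg μ
      have := sq_nonneg ‖μ‖
      linarith
    have h5 : Real.exp (c' + ‖μ‖ + E + 2 * (N * E)) ≤ Real.exp Z := by
      apply Real.exp_le_exp.2
      have := sq_nonneg ‖μ‖
      linarith
    have h6 : Real.exp (1 + Y + c' + ‖μ‖ + ‖μ‖ ^ 2 + E + 2 * (N * E)) =
        Real.exp 1 * Real.exp Z := by
      rw [← Real.exp_add]
      congr 1
      rw [hZ]
      ring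
    rw [h6]
    have h7 : (2 : ℝ) ≤ Real.exp 1 := by
      have := Real.add_one_le_exp (1 : ℝ)
      linarith
    have h8 : 0 < Real.exp Z := Real.exp_pos _
    nlinarith
  | mul =>
    simp only
    have h1 : ‖Complex.exp (b i * z)‖ ≤ Real.exp Y :=
      (Complex.norm_exp_le_exp_norm _).trans (Real.exp_le_exp.2 (hz i))
    rw [norm_mul]
    refine (mul_le_mul h1 (hQ _) (norm_nonneg _) (Real.exp_pos _).le).trans ?_
    rw [← Real.exp_add]
    apply Real.exp_le_exp.2
    have := norm_nonneg μ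
    have := sq_nonneg ‖μ‖
    linarith
  | ell =>
    simp only
    have h1 : ‖μ ^ 2 * g (b i * z)‖ ≤ Real.exp (‖μ‖ ^ 2) * Real.exp E := by
      rw [norm_mul, norm_pow]
      exact mul_le_mul (hx _) (hg i) (norm_nonneg _) (Real.exp_pos _).le
    rw [norm_mul]
    refine (mul_le_mul h1 (hQ _) (norm_nonneg _) (by positivity)).trans ?_
    rw [← Real.exp_add, ← Real.exp_add]
    apply Real.exp_le_exp.2
    have := norm_nonneg μ
    linarith

theorem Qp_diff {ty : ι → Ty} {b : ι → ℂ} {q : ℂ → ℂ} (hq : Differentiable ℂ q) (s : Finset ι) :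
    Differentiable ℂ (Qp ty b q s) := by
  unfold Qp
  refine Differentiable.fun_finsetProd fun j _ => ?_
  split_ifs
  · exact hq.comp (by fun_prop : Differentiable ℂ fun z : ℂ => b j * z)
  · fun_prop

theorem HH_diff {μ : ℂ} {ty : ι → Ty} {b : ι → ℂ} {c : ι → ι → ℂ} {q g k : ℂ → ℂ} {s t : ℝ}
    (hq : Differentiable ℂ q) (hg : DifferentiableOn ℂ g (ball 0 t))
    (hk : DifferentiableOn ℂ k (ball 0 t))
    (hb : ∀ j, ∀ z ∈ ball (0 : ℂ) s, b j * z ∈ ball (0 : ℂ) t) (i : ι) :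
    DifferentiableOn ℂ (HH μ ty b c q g k i) (ball 0 s) := by
  classical
  have hg' : ∀ j, DifferentiableOn ℂ (fun z => g (b j * z)) (ball 0 s) := fun j =>
    hg.comp (by fun_prop) (fun z hz => hb j z hz)
  have hk' : ∀ j, DifferentiableOn ℂ (fun z => k (b j * z)) (ball 0 s) := fun j =>
    hk.comp (by fun_prop) (fun z hz => hb j z hz)
  have hQ : ∀ t : Finset ι, DifferentiableOn ℂ (fun z => Qp ty b q t z ^ 2) (ball 0 s) := fun t =>
    ((Qp_diff hq t).pow 2).differentiableOn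
  cases hi : ty i with
  | add =>
    have e : HH μ ty b c q g k i = fun z => b i * z * Qp ty b q Finset.univ z ^ 2 +
        ∑ j, (if ty j = Ty.ell then
          c i j * (μ * k (b j * z)) * Qp ty b q (Finset.univ.erase j) z ^ 2 else 0) := by
      funext z
      simp only [HH, hi]
    rw [e]
    refine DifferentiableOn.add ?_ ?_
    · exact (by fun_prop : DifferentiableOn ℂ (fun z : ℂ => b i * z) (ball 0 s)).mul (hQ _)
    · refine DifferentiableOn.fun_sum fun j _ => ?_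
      split_ifs
      · exact (((hk' j).const_mul μ).const_mul (c i j)).mul (hQ _)
      · exact differentiableOn_const _
  | mul =>
    have e : HH μ ty b c q g k i = fun z =>
        Complex.exp (b i * z) * Qp ty b q Finset.univ z ^ 2 := by
      funext z
      simp only [HH, hi]
    rw [e]
    exact (by fun_prop : DifferentiableOn ℂ (fun z : ℂ => Complex.exp (b i * z)) (ball 0 s)).mul
      (hQ _)
  | ell =>
    have e : HH μ ty b c q g k i = fun z =>
        μ ^ 2 * g (b i * z) * Qp ty b q (Finset.univ.erase i) z ^ 2 := by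
      funext z
      simp only [HH, hi]
    rw [e]
    exact ((hg' i).const_mul _).mul (hQ _)

end

end I_SchwM

open I_SchwM in
theorem SchwM_pf : S_SchwM := by
  classical
  intro ι _ τ μ ty b c R₀ hτ hμ hb hR₀
  obtain ⟨CQ, hCQ, hQ'⟩ := qz hτ
  set N : ℝ := (Fintype.card ι : ℝ) with hN
  have hN0 : 0 ≤ N := Nat.cast_nonneg _
  set B : ℝ := 1 + ∑ j, ‖b j‖ with hB
  have hB1 : 1 ≤ B := by
    rw [hB]
    have : 0 ≤ ∑ j, ‖b j‖ := Finset.sum_nonneg fun _ _ => norm_nonneg _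
    linarith
  have hbB : ∀ j, ‖b j‖ ≤ B := by
    intro j
    rw [hB]
    have : ‖b j‖ ≤ ∑ j, ‖b j‖ :=
      Finset.single_le_sum (f := fun j => ‖b j‖) (fun _ _ => norm_nonneg _) (Finset.mem_univ j)
    linarith
  set c' : ℝ := ∑ i, ∑ j, ‖c i j‖ with hc'
  have hc0 : 0 ≤ c' := Finset.sum_nonneg fun _ _ => Finset.sum_nonneg fun _ _ => norm_nonneg _
  set P : ℝ := CQ * (B * R₀) ^ 3 with hP
  have hP0 : 0 ≤ P := by
    rw [hP]
    positivity
  set F₀ : ℝ := 1 + 4 * (B * R₀) ^ 3 + c' + ‖μ‖ + ‖μ‖ ^ 2 + P + 2 * (N * P) with hF₀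
  have hF₀0 : 0 ≤ F₀ := by positivity
  refine ⟨1 + 2 * (N * N) * P + N * (1 + F₀), ?_, ?_⟩
  · have : 0 ≤ 2 * (N * N) * P + N * (1 + F₀) := by positivity
    linarith
  intro D K T h R hh hT hdeg hcoef hvan z hz hbz
  obtain ⟨g₀, hg₀, hv⟩ := hvan
  have hT1 : (1 : ℝ) ≤ T := by exact_mod_cast hT
  have hT3 : (1 : ℝ) ≤ (T : ℝ) ^ 3 := one_le_pow₀ hT1
  set ρ : ℝ := R₀ * T with hρ
  have hρ1 : 1 ≤ ρ := by
    rw [hρ]
    nlinarith
  set R' : ℝ := B * ρ with hR'
  have hR'1 : 1 ≤ R' := by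
    rw [hR']
    nlinarith
  have hR'3 : R' ^ 3 = (B * R₀) ^ 3 * (T : ℝ) ^ 3 := by
    rw [hR', hρ]
    ring
  obtain ⟨q, g, k, hqd, hgd, hkd, hq0, hub, hlow⟩ := hQ' R' hR'1
  set E : ℝ := CQ * R' ^ 3 with hE
  have hE0 : 0 ≤ E := by
    rw [hE]
    positivity
  have hEP : E = P * (T : ℝ) ^ 3 := by
    rw [hE, hR'3, hP]
    ring
  have hmap : ∀ j, ∀ w ∈ ball (0 : ℂ) (4 * ρ), b j * w ∈ ball (0 : ℂ) (4 * R') := by
    intro j w hw
    rw [mem_ball_zero_iff] at hw ⊢
    rw [norm_mul, hR']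
    have h1 := hbB j
    have h2 := norm_nonneg w
    have h3 := norm_nonneg (b j)
    calc ‖b j‖ * ‖w‖ ≤ B * ‖w‖ := mul_le_mul_of_nonneg_right h1 h2
      _ < B * (4 * ρ) := mul_lt_mul_of_pos_left hw (by linarith)
      _ = 4 * (B * ρ) := by ring
  set GG : ℂ → ℂ := fun w => G0 D R (fun i => HH μ ty b c q g k i w)
    (Qp ty b q Finset.univ w) with hGG
  have hGd : DifferentiableOn ℂ GG (ball 0 (4 * ρ)) :=
    G0_diff (fun i => HH_diff hqd hgd hkd hmap i) (Qp_diff hqd _).differentiableOn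
  set F : ℝ := 1 + 4 * R' + c' + ‖μ‖ + ‖μ‖ ^ 2 + E + 2 * (N * E) with hF
  have hGb : ∀ w ∈ ball (0 : ℂ) (4 * ρ), ‖GG w‖ ≤ Real.exp (N * D * (1 + F) + h) := by
    intro w hw
    have hq1 : ∀ j, ‖q (b j * w)‖ ≤ Real.exp E := fun j => (hub _ (hmap j w hw)).1
    refine G0_bound hdeg hcoef (fun i => ?_) ?_
    · refine HH_le hE0 (by linarith : 0 ≤ 4 * R') (fun j => ?_) hq1
        (fun j => (hub _ (hmap j w hw)).2.1) (fun j => (hub _ (hmap j w hw)).2.2.1) i
      have := hmap j w hw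
      rw [mem_ball_zero_iff] at this
      exact this.le
    · refine (Qp_sq_le hE0 hq1 _).trans ?_
      apply Real.exp_le_exp.2
      have := norm_nonneg μ
      have := sq_nonneg ‖μ‖
      rw [hF]
      linarith
  -- vanishing at the origin
  have hq1 : AnalyticAt ℂ (dslope q 0) 0 := by
    have : Differentiable ℂ (dslope q 0) := by
      intro w
      have h1 : DifferentiableOn ℂ (dslope q 0) Set.univ :=
        (Complex.differentiableOn_dslope Filter.univ_mem).2 hqd.differentiableOn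
      exact (h1 w (Set.mem_univ _)).differentiableAt Filter.univ_mem
    exact this.analyticAt 0
  have hqs : ∀ u, q u = u * dslope q 0 u := by
    intro u
    have := sub_smul_dslope q 0 u
    rw [hq0, sub_zero, sub_zero, smul_eq_mul] at this
    exact this.symm
  set M : ℕ := 2 * (Fintype.card ι * D) with hM
  have hg1 : AnalyticAt ℂ (fun w => (∏ j, (if ty j = Ty.ell then dslope q 0 (b j * w) ^ M else 1)) *
      g₀ w) 0 := by
    refine AnalyticAt.mul ?_ hg₀
    refine Finset.analyticAt_fun_prod _ fun j _ => ?_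
    split_ifs
    · refine AnalyticAt.pow ?_ _
      have h1 : AnalyticAt ℂ (dslope q 0) (b j * 0) := by rwa [mul_zero]
      exact h1.comp_of_eq (f := fun w : ℂ => b j * w) (by fun_prop) rfl
    · exact analyticAt_const
  have hQM : ∀ w : ℂ, Qp ty b q Finset.univ w ^ M =
      ∏ j, (if ty j = Ty.ell then q (b j * w) ^ M else 1) := by
    intro w
    unfold Qp
    rw [← Finset.prod_pow]
    refine Finset.prod_congr rfl fun j _ => ?_
    split_ifs
    · rfl
    · rw [one_pow]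
  have hGeq : ∀ w ∈ ball (0 : ℂ) (4 * ρ), (∀ j, ty j = Ty.ell → b j * w ∉ Lam τ) →
      GG w = Qp ty b q Finset.univ w ^ M * aeval (PN τ μ ty c (fun j => b j * w)) R := by
    intro w hw hl
    refine G0_eq hdeg (fun i => HH_eq (fun j hj => ?_) i)
    exact (hub _ (hmap j w hw)).2.2.2 (hl j hj)
  have hev : ∀ᶠ w in 𝓝[≠] (0 : ℂ), GG w =
      w ^ (K + 1) * ((∏ j, (if ty j = Ty.ell then dslope q 0 (b j * w) ^ M else 1)) * g₀ w) := by
    have hsmall : ∀ᶠ w in 𝓝[≠] (0 : ℂ), ∀ j, ty j = Ty.ell → b j * w ∉ Lam τ := by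
      rw [Filter.eventually_all]
      intro j
      by_cases hj : ty j = Ty.ell
      · have hl : ∀ᶠ u in 𝓝[≠] (0 : ℂ), u ∉ Lam τ := eventually_notMem hτ
        have ht : Tendsto (fun w : ℂ => b j * w) (𝓝[≠] 0) (𝓝[≠] 0) := by
          refine tendsto_nhdsWithin_iff.2 ⟨?_, ?_⟩
          · have : Tendsto (fun w : ℂ => b j * w) (𝓝 0) (𝓝 (b j * 0)) :=
              (continuous_const.mul continuous_id).tendsto 0
            rw [mul_zero] at this
            exact this.mono_left nhdsWithin_le_nhds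
          · filter_upwards [self_mem_nhdsWithin] with w hw
            exact mul_ne_zero (hb j hj) hw
        filter_upwards [ht.eventually hl] with w hw _
        exact hw
      · filter_upwards with w hw
        exact absurd hw hj
    have hball : ∀ᶠ w in 𝓝[≠] (0 : ℂ), w ∈ ball (0 : ℂ) (4 * ρ) :=
      nhdsWithin_le_nhds (ball_mem_nhds _ (by linarith))
    filter_upwards [hv, hsmall, hball] with w h1 h2 h3
    rw [hGeq w h3 h2, hQM]
    have h4 : ∏ j, (if ty j = Ty.ell then q (b j * w) ^ M else 1) =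
        (∏ j, (if ty j = Ty.ell then dslope q 0 (b j * w) ^ M else 1)) *
          ∏ j, (if ty j = Ty.ell then (b j * w) ^ M else 1) := by
      rw [← Finset.prod_mul_distrib]
      refine Finset.prod_congr rfl fun j _ => ?_
      split_ifs
      · rw [hqs (b j * w), mul_pow]
        ring
      · rw [mul_one]
    rw [h4, mul_assoc, h1]
    ring
  have hS := I_SchwE.schwarz (by linarith : 0 < ρ) hGd hGb hg1 hev z hz
  have hzb : z ∈ ball (0 : ℂ) (4 * ρ) := by
    rw [mem_ball_zero_iff]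
    linarith
  rw [hGeq z hzb hbz, norm_mul, hQM, norm_prod] at hS
  -- the lower bound of the clearing factor
  have hd : dd τ ty b M z ≤
      Real.exp (N * (M * E)) * ∏ j, ‖(if ty j = Ty.ell then q (b j * z) ^ M else 1)‖ := by
    have h1 : ∀ j ∈ (Finset.univ : Finset ι), (if ty j = Ty.ell then d1 τ (b j * z) ^ M else 1) ≤
        Real.exp (M * E) * ‖(if ty j = Ty.ell then q (b j * z) ^ M else 1)‖ := by
      intro j _
      by_cases hj : ty j = Ty.ell
      · rw [if_pos hj, if_pos hj]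
        have hn : ‖b j * z‖ ≤ R' := by
          rw [norm_mul, hR']
          exact mul_le_mul (hbB j) hz (norm_nonneg _) (by linarith)
        have h2 := hlow _ hn
        have hd0 : 0 ≤ d1 τ (b j * z) := le_min zero_le_one Metric.infDist_nonneg
        have h3 : d1 τ (b j * z) ≤ Real.exp E * ‖q (b j * z)‖ := by
          have h4 : Real.exp E * (Real.exp (-E) * d1 τ (b j * z)) ≤ Real.exp E * ‖q (b j * z)‖ :=
            mul_le_mul_of_nonneg_left h2 (Real.exp_pos _).le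
          rwa [← mul_assoc, ← Real.exp_add, add_neg_cancel, Real.exp_zero, one_mul] at h4
        refine (pow_le_pow_left₀ hd0 h3 _).trans ?_
        rw [mul_pow, norm_pow, ← Real.exp_nat_mul]
      · rw [if_neg hj, if_neg hj, norm_one, mul_one]
        exact Real.one_le_exp (by positivity)
    unfold dd
    refine (Finset.prod_le_prod (fun j _ => ?_) h1).trans ?_
    · split_ifs
      · exact pow_nonneg (le_min zero_le_one Metric.infDist_nonneg) _
      · exact zero_le_one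
    rw [Finset.prod_mul_distrib, Finset.prod_const, Finset.card_univ, ← Real.exp_nat_mul]
  calc ‖aeval (PN τ μ ty c (fun j => b j * z)) R‖ * dd τ ty b M z
      ≤ ‖aeval (PN τ μ ty c (fun j => b j * z)) R‖ *
          (Real.exp (N * (M * E)) *
            ∏ j, ‖(if ty j = Ty.ell then q (b j * z) ^ M else 1)‖) :=
        mul_le_mul_of_nonneg_left hd (norm_nonneg _)
    _ = Real.exp (N * (M * E)) *
          ((∏ j, ‖(if ty j = Ty.ell then q (b j * z) ^ M else 1)‖) *
            ‖aeval (PN τ μ ty c (fun j => b j * z)) R‖) := by ring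
    _ ≤ Real.exp (N * (M * E)) *
          (Real.exp (-K) * Real.exp (N * D * (1 + F) + h)) :=
        mul_le_mul_of_nonneg_left hS (Real.exp_pos _).le
    _ = Real.exp (N * (M * E) + N * D * (1 + F) + h - K) := by
        rw [← Real.exp_add, ← Real.exp_add]
        congr 1
        ring
    _ ≤ _ := by
        refine Real.exp_le_exp.2 ?_
        have hMr : (M : ℝ) = 2 * (N * D) := by
          rw [hM]
          push_cast
          ring
        have hD0 : (0 : ℝ) ≤ D := Nat.cast_nonneg _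
        have hFF : F ≤ F₀ * (T : ℝ) ^ 3 := by
          have hBR : 0 ≤ (B * R₀) ^ 3 := by positivity
          have e1 : R' ≤ (B * R₀) ^ 3 * (T : ℝ) ^ 3 := by
            rw [← hR'3]
            calc R' = R' ^ 1 := (pow_one _).symm
              _ ≤ R' ^ 3 := pow_le_pow_right₀ hR'1 (by norm_num)
          have e2 : ∀ x : ℝ, 0 ≤ x → x ≤ x * (T : ℝ) ^ 3 := fun x hx => by nlinarith
          have e3 := e2 c' hc0
          have e4 := e2 ‖μ‖ (norm_nonneg _)
          have e5 := e2 (‖μ‖ ^ 2) (sq_nonneg _)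
          rw [hF, hF₀, hEP]
          nlinarith
        have key1 : N * D * (1 + F) ≤ N * (1 + F₀) * ((D + 1) * (T : ℝ) ^ 3) := by
          have h1 : 1 + F ≤ (1 + F₀) * (T : ℝ) ^ 3 := by nlinarith
          calc N * D * (1 + F) ≤ N * D * ((1 + F₀) * (T : ℝ) ^ 3) :=
                mul_le_mul_of_nonneg_left h1 (by positivity)
            _ ≤ N * (D + 1) * ((1 + F₀) * (T : ℝ) ^ 3) :=
                mul_le_mul_of_nonneg_right (by nlinarith) (by positivity)
            _ = _ := by ring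
        have key2 : N * (M * E) ≤ 2 * (N * N) * P * ((D + 1) * (T : ℝ) ^ 3) := by
          rw [hMr, hEP]
          have h2 : 0 ≤ N * N * P * (T : ℝ) ^ 3 := by positivity
          nlinarith
        have k2 : 0 ≤ 2 * (N * N) * P + N * (1 + F₀) := by positivity
        have k3 : 0 ≤ ((D : ℝ) + 1) * (T : ℝ) ^ 3 := by positivity
        nlinarith [mul_nonneg k2 (by linarith : (0 : ℝ) ≤ h)]

end Pool.Agent.Work.MP_8da9ea_nt.MX
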