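import Pool.Agent.Work.MP_8da9ea_nt.MX.StmtsZ
import Pool.Agent.Work.MP_8da9ea_nt.EB.I_Split

/-!
# Mixed block, item SplitM: splitting along a branch
-/

set_option autoImplicit false

namespace Pool.Agent.Work.MP_8da9ea_nt.MX

open MvPolynomial Metric Filter Topology Pool.Agent.Work.MP_327059_nt.GL
  Pool.Agent.Work.MP_8da9ea_nt.S Pool.Agent.Work.MP_8da9ea_nt.EB

namespace I_SplitM

/-- The coordinates of an analytic family of parameters are analytic. -/
theorem anPT {τ : ℂ} (hτ : 0 < τ.im) {W : Type} [NormedAddCommGroup W] [NormedSpace ℂ W] {M : ℕ}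
    (ty : Fin M → Ty) (c : Fin M → Fin M → ℂ)
    (P : Fin M → W → ℂ) (s : W) (hP : ∀ i, AnalyticAt ℂ (P i) s)
    (hg : ∀ i, ty i = Ty.ell → P i s ∉ Lam τ) (i : Fin M) :
    AnalyticAt ℂ (fun x => PT τ ty c (fun k => P k x) i) s := by
  unfold PT
  rcases hi : ty i with _ | _ | _
  · simp only [hi]
    refine (hP i).fun_add ?_
    refine Finset.analyticAt_fun_sum _ fun j _ => ?_
    by_cases hj : ty j = Ty.ell
    · simp only [hj, if_true]
      have h2 : AnalyticAt ℂ (fun z => zt 1 τ z) (P j s) := analyticOn_zt hτ _ (hg j hj)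
      have h5 := AnalyticAt.fun_comp (g := fun z => zt 1 τ z) (f := P j) h2 (hP j)
      exact analyticAt_const.fun_mul h5
    · simp only [hj, if_false]
      exact analyticAt_const
  · simp only [hi]
    exact (hP i).cexp'
  · simp only [hi]
    have h2 : AnalyticAt ℂ (fun z => wp 1 τ z) (P i s) := analyticOn_wp hτ _ (hg i hi)
    exact AnalyticAt.fun_comp (g := fun z => wp 1 τ z) (f := P i) h2 (hP i)

/-- The sign change of an analytic family of parameters is analytic. -/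
theorem anSg {τ : ℂ} (hτ : 0 < τ.im) {W : Type} [NormedAddCommGroup W] [NormedSpace ℂ W] {M : ℕ}
    (ty : Fin M → Ty) (c : Fin M → Fin M → ℂ) (e : Fin M → Bool)
    (P : Fin M → W → ℂ) (s : W) (hP : ∀ i, AnalyticAt ℂ (P i) s)
    (hg : ∀ i, ty i = Ty.ell → P i s ∉ Lam τ) (i : Fin M) :
    AnalyticAt ℂ (fun x => sgI τ ty c e (fun k => P k x) i) s := by
  unfold sgI
  rcases hi : ty i with _ | _ | _
  · simp only [hi]
    refine (hP i).fun_add ?_
    refine Finset.analyticAt_fun_sum _ fun j _ => ?_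
    by_cases hj : ty j = Ty.ell
    · simp only [hj, if_true]
      have h2 : AnalyticAt ℂ (fun z => zt 1 τ z) (P j s) := analyticOn_zt hτ _ (hg j hj)
      have h5 := AnalyticAt.fun_comp (g := fun z => zt 1 τ z) (f := P j) h2 (hP j)
      exact analyticAt_const.fun_mul (analyticAt_const.fun_mul h5)
    · simp only [hj, if_false]
      exact analyticAt_const
  · simp only [hi]
    exact hP i
  · simp only [hi]
    exact analyticAt_const.fun_mul (hP i)

/-- `sgI` at an elliptic coordinate. -/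
theorem sgI_ell {ι : Type} [Fintype ι] (τ : ℂ) (ty : ι → Ty) (c : ι → ι → ℂ) (e : ι → Bool)
    (p : ι → ℂ) (i : ι) (hi : ty i = Ty.ell) : sgI τ ty c e p i = sg (e i) * p i := by
  unfold sgI
  simp only [hi]

/-- `sgI` at a multiplicative coordinate. -/
theorem sgI_mul {ι : Type} [Fintype ι] (τ : ℂ) (ty : ι → Ty) (c : ι → ι → ℂ) (e : ι → Bool)
    (p : ι → ℂ) (i : ι) (hi : ty i = Ty.mul) : sgI τ ty c e p i = p i := by
  unfold sgI
  simp only [hi]

/-- `sgI` at an additive coordinate. -/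
theorem sgI_add {ι : Type} [Fintype ι] (τ : ℂ) (ty : ι → Ty) (c : ι → ι → ℂ) (e : ι → Bool)
    (p : ι → ℂ) (i : ι) (hi : ty i = Ty.add) : sgI τ ty c e p i = p i +
      ∑ j, (if ty j = Ty.ell then (1 - sg (e j)) * (c i j * zt 1 τ (p j)) else 0) := by
  unfold sgI
  simp only [hi]

/-- `sgI` only depends on the signs at the elliptic coordinates. -/
theorem sgI_congr_e {ι : Type} [Fintype ι] (τ : ℂ) (ty : ι → Ty) (c : ι → ι → ℂ)
    (e e' : ι → Bool) (he : ∀ j, ty j = Ty.ell → e j = e' j) (p : ι → ℂ) :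
    sgI τ ty c e p = sgI τ ty c e' p := by
  funext i
  rcases hi : ty i with _ | _ | _
  · rw [sgI_add τ ty c e p i hi, sgI_add τ ty c e' p i hi]
    congr 1
    refine Finset.sum_congr rfl fun j _ => ?_
    by_cases hj : ty j = Ty.ell
    · rw [if_pos hj, if_pos hj, he j hj]
    · rw [if_neg hj, if_neg hj]
  · rw [sgI_mul τ ty c e p i hi, sgI_mul τ ty c e' p i hi]
  · rw [sgI_ell τ ty c e p i hi, sgI_ell τ ty c e' p i hi, he i hi]

/-- `sgI` is an involution. -/
theorem sgI_sgI {ι : Type} [Fintype ι] (τ : ℂ) (ty : ι → Ty) (c : ι → ι → ℂ)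
    (e : ι → Bool) (p : ι → ℂ) : sgI τ ty c e (sgI τ ty c e p) = p := by
  funext i
  rcases hi : ty i with _ | _ | _
  · rw [sgI_add τ ty c e _ i hi, sgI_add τ ty c e p i hi, add_assoc, ← Finset.sum_add_distrib]
    rw [Finset.sum_eq_zero, add_zero]
    intro j _
    by_cases hj : ty j = Ty.ell
    · rw [if_pos hj, if_pos hj, sgI_ell τ ty c e p j hj]
      cases e j
      · simp only [sg, Bool.false_eq_true, if_false, neg_mul, one_mul, zt_neg]
        ring
      · simp only [sg, if_true]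
        ring
    · rw [if_neg hj, if_neg hj, add_zero]
  · rw [sgI_mul τ ty c e _ i hi, sgI_mul τ ty c e p i hi]
  · rw [sgI_ell τ ty c e _ i hi, sgI_ell τ ty c e p i hi, ← mul_assoc, I_Split.sg_mul_self,
      one_mul]

/-- The inner part of `sgI` does not depend on a non-elliptic outer parameter. -/
theorem sgI_inner {N : ℕ} (τ : ℂ) (ty : Fin (N + 1) → Ty) (c : Fin (N + 1) → Fin (N + 1) → ℂ)
    (e : Fin (N + 1) → Bool) (h0 : ty 0 ≠ Ty.ell) (x y : ℂ) (v : Fin N → ℂ) (i : Fin N) :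
    sgI τ ty c e (Fin.cons x v : Fin (N + 1) → ℂ) i.succ =
      sgI τ ty c e (Fin.cons y v : Fin (N + 1) → ℂ) i.succ := by
  rcases hi : ty i.succ with _ | _ | _
  · rw [sgI_add τ ty c e _ i.succ hi, sgI_add τ ty c e _ i.succ hi, Fin.cons_succ, Fin.cons_succ]
    congr 1
    refine Finset.sum_congr rfl fun j _ => ?_
    by_cases hj : ty j = Ty.ell
    · rw [if_pos hj, if_pos hj]
      have hj0 : j ≠ 0 := by
        rintro rfl
        exact h0 hj
      obtain ⟨k, rfl⟩ := Fin.exists_succ_eq.2 hj0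
      rw [Fin.cons_succ, Fin.cons_succ]
    · rw [if_neg hj, if_neg hj]
  · rw [sgI_mul τ ty c e _ i.succ hi, sgI_mul τ ty c e _ i.succ hi, Fin.cons_succ, Fin.cons_succ]
  · rw [sgI_ell τ ty c e _ i.succ hi, sgI_ell τ ty c e _ i.succ hi, Fin.cons_succ, Fin.cons_succ]

/-- The inner sign change. -/
noncomputable def TT (τ : ℂ) {N : ℕ} (ty : Fin (N + 1) → Ty) (c : Fin (N + 1) → Fin (N + 1) → ℂ)
    (e : Fin (N + 1) → Bool) (v : Fin N → ℂ) : Fin N → ℂ :=
  fun i => sgI τ ty c e (Fin.cons 0 v : Fin (N + 1) → ℂ) i.succ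

theorem sgI_cons {N : ℕ} (τ : ℂ) (ty : Fin (N + 1) → Ty) (c : Fin (N + 1) → Fin (N + 1) → ℂ)
    (e : Fin (N + 1) → Bool) (h0 : ty 0 ≠ Ty.ell) (x : ℂ) (v : Fin N → ℂ) :
    sgI τ ty c e (Fin.cons x v : Fin (N + 1) → ℂ) =
      Fin.cons (sgI τ ty c e (Fin.cons x v : Fin (N + 1) → ℂ) 0) (TT τ ty c e v) := by
  funext k
  refine Fin.cases ?_ (fun i => ?_) k
  · rw [Fin.cons_zero]
  · rw [Fin.cons_succ, TT]
    exact sgI_inner τ ty c e h0 x 0 v i

theorem TT_TT {N : ℕ} (τ : ℂ) (ty : Fin (N + 1) → Ty) (c : Fin (N + 1) → Fin (N + 1) → ℂ)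
    (e : Fin (N + 1) → Bool) (h0 : ty 0 ≠ Ty.ell) (v : Fin N → ℂ) :
    TT τ ty c e (TT τ ty c e v) = v := by
  funext i
  have h1 := sgI_sgI τ ty c e (Fin.cons 0 v : Fin (N + 1) → ℂ)
  have h2 := sgI_cons τ ty c e h0 0 v
  rw [h2] at h1
  have h3 := congrFun h1 i.succ
  rw [Fin.cons_succ] at h3
  rw [← h3]
  exact sgI_inner τ ty c e h0 _ _ _ i

theorem TT_ell {N : ℕ} (τ : ℂ) (ty : Fin (N + 1) → Ty) (c : Fin (N + 1) → Fin (N + 1) → ℂ)
    (e : Fin (N + 1) → Bool) (v : Fin N → ℂ) (i : Fin N) (hi : ty i.succ = Ty.ell) :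
    TT τ ty c e v i = sg (e i.succ) * v i := by
  rw [TT, sgI_ell τ ty c e _ i.succ hi, Fin.cons_succ]

/-- The parameter family `cons (L v) v` is analytic. -/
theorem anCons {N : ℕ} (L : (Fin N → ℂ) → ℂ) (v : Fin N → ℂ) (hL : AnalyticAt ℂ L v)
    (k : Fin (N + 1)) :
    AnalyticAt ℂ (fun v : Fin N → ℂ => (Fin.cons (L v) v : Fin (N + 1) → ℂ) k) v := by
  refine Fin.cases ?_ (fun i => ?_) k
  · exact hL
  · exact (ContinuousLinearMap.proj (R := ℂ) (φ := fun _ : Fin N => ℂ) i).analyticAt v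

end I_SplitM

open I_SplitM

/-- **Item Z5 (`SplitM`).** -/
theorem SplitM_pf : S_SplitM := by
  classical
  intro τ hτ N ty c f F hty v₀ r L hr hL hb κ D h hT
  -- shrink the ball
  obtain ⟨v₁, r₁, hr₁, hsub, hK⟩ := I_Split.shrink (κ := κ × Fin N × Bool)
    (D ×ˢ Finset.univ) v₀ r hr
    (fun k v => v k.2.1 + sg k.2.2 * h k.1 k.2.1.succ) (fun _ => Lam τ)
    (fun _ _ => ⟨Lam_closed hτ, Lam_countable τ⟩)
    (fun k _ v hv => ((ContinuousLinearMap.proj (R := ℂ)
      (φ := fun _ : Fin N => ℂ) k.2.1).analyticAt v).add analyticAt_const)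
    (fun k _ => I_Split.exists_off τ v₀ r hr k.2.1 _)
  have hK1 : ∀ d ∈ D, ∀ (e : Bool), ∀ v ∈ ball v₁ r₁, ∀ i : Fin N,
      v i + sg e * h d i.succ ∉ Lam τ :=
    fun d hd e v hv i => hK (d, i, e) (Finset.mem_product.2 ⟨hd, Finset.mem_univ _⟩) v hv
  have hgood : ∀ v ∈ ball v₁ r₁, ∀ i : Fin N, ty i.succ = Ty.ell → v i ∉ Lam τ := by
    intro v hv i hi
    have h1 := (hb v (hsub hv)).1 i.succ hi
    rwa [Fin.cons_succ] at h1
  have hell : ∀ k : Fin (N + 1), ty k = Ty.ell → ∃ i : Fin N, i.succ = k := by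
    intro k hk
    have hk0 : k ≠ 0 := by
      rintro rfl
      exact hty hk
    exact Fin.exists_succ_eq.2 hk0
  have hL₁ : AnalyticOnNhd ℂ L (ball v₁ r₁) := hL.mono hsub
  -- the functions
  obtain ⟨Φ, hΦ⟩ : ∃ Φ : κ → (Fin (N + 1) → Bool) → (Fin N → ℂ) → ℂ, Φ = fun d e v =>
      eval (PT τ ty c (fun i => sgI τ ty c e (Fin.cons (L v) v : Fin (N + 1) → ℂ) i + h d i)) F :=
    ⟨_, rfl⟩
  have hΦan : ∀ d ∈ D, ∀ e, AnalyticOnNhd ℂ (Φ d e) (ball v₁ r₁) := by
    intro d hd e v hv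
    rw [hΦ]
    refine AnalyticAt.aeval_mvPolynomial (fun i => ?_) F
    refine anPT hτ ty c
      (fun i v => sgI τ ty c e (Fin.cons (L v) v : Fin (N + 1) → ℂ) i + h d i) v
      (fun k => ?_) (fun k hk => ?_) i
    · refine AnalyticAt.fun_add ?_ analyticAt_const
      refine anSg hτ ty c e (fun k v => (Fin.cons (L v) v : Fin (N + 1) → ℂ) k) v
        (fun k => anCons L v (hL₁ v hv) k) (fun k hk => ?_) k
      exact (hb v (hsub hv)).1 k hk
    · obtain ⟨i, rfl⟩ := hell k hk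
      show sgI τ ty c e (Fin.cons (L v) v : Fin (N + 1) → ℂ) i.succ + h d i.succ ∉ Lam τ
      rw [sgI_ell τ ty c e _ i.succ hk, Fin.cons_succ]
      have h1 := hK1 d hd (e i.succ) v hv i
      rw [← I_Split.sg_mul_mem (e i.succ), mul_add, ← mul_assoc (sg (e i.succ)) (sg (e i.succ)),
        I_Split.sg_mul_self, one_mul] at h1
      exact h1
  have hone : ∀ d : κ, ∃ q : Fin N → Bool, d ∈ D → ∀ v ∈ ball v₁ r₁,
      Φ d (Fin.cons true q) v = 0 := by
    intro d
    by_cases hd : d ∈ D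
    · obtain ⟨e, he⟩ : ∃ e : Fin (N + 1) → Bool, ∀ v ∈ ball v₁ r₁, Φ d e v = 0 := by
        by_contra hcon
        push Not at hcon
        obtain ⟨v₂, r₂, hr₂, hsub₂, hK₂⟩ := I_Split.shrink (κ := Fin (N + 1) → Bool)
          Finset.univ v₁ r₁ hr₁ (Φ d) (fun _ => {0})
          (fun _ _ => ⟨isClosed_singleton, Set.countable_singleton 0⟩)
          (fun e _ => hΦan d hd e)
          (fun e _ => by
            obtain ⟨v, hv, hv0⟩ := hcon e
            exact ⟨v, hv, by simpa using hv0⟩)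
        have hv₂ : v₂ ∈ ball v₁ r₁ := hsub₂ (mem_ball_self hr₂)
        have hbv := hb v₂ (hsub hv₂)
        obtain ⟨e, he⟩ := hT d hd (Fin.cons (L v₂) v₂ : Fin (N + 1) → ℂ) hbv.1
          (fun k hk => by
            obtain ⟨i, rfl⟩ := hell k hk
            have h1 := hK1 d hd true v₂ hv₂ i
            simpa [sg] using h1)
          (fun k hk => by
            obtain ⟨i, rfl⟩ := hell k hk
            have h1 := hK1 d hd false v₂ hv₂ i
            rwa [show v₂ i + sg false * h d i.succ = v₂ i - h d i.succ by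
              simp [sg, sub_eq_add_neg]] at h1) hbv.2
        exact hK₂ e (Finset.mem_univ _) v₂ (mem_ball_self hr₂) (by
          rw [Set.mem_singleton_iff, hΦ]
          exact he)
      refine ⟨fun i => e i.succ, fun _ v hv => ?_⟩
      have h1 := he v hv
      rw [hΦ] at h1 ⊢
      have h2 : sgI τ ty c (Fin.cons true (fun i => e i.succ) : Fin (N + 1) → Bool)
          (Fin.cons (L v) v : Fin (N + 1) → ℂ) = sgI τ ty c e (Fin.cons (L v) v) := by
        refine sgI_congr_e τ ty c _ _ (fun k hk => ?_) _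
        obtain ⟨i, rfl⟩ := hell k hk
        rw [Fin.cons_succ]
      show eval (PT τ ty c (fun i => sgI τ ty c
        (Fin.cons true (fun i => e i.succ) : Fin (N + 1) → Bool)
          (Fin.cons (L v) v : Fin (N + 1) → ℂ) i + h d i)) F = 0
      rw [h2]
      exact h1
    · exact ⟨fun _ => true, fun h => absurd h hd⟩
  choose q hq using hone
  -- pigeonhole
  obtain ⟨e, he⟩ : ∃ e : Fin N → Bool, D.card ≤ 2 ^ N * (D.filter fun d => q d = e).card := by
    have hcard : (Finset.univ : Finset (Fin N → Bool)).card = 2 ^ N := by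
      rw [Finset.card_univ, Fintype.card_fun, Fintype.card_bool, Fintype.card_fin]
    by_contra hcon
    push Not at hcon
    have h1 : D.card = ∑ e ∈ (Finset.univ : Finset (Fin N → Bool)),
        (D.filter fun d => q d = e).card :=
      Finset.card_eq_sum_card_fiberwise fun d _ => Finset.mem_coe.2 (Finset.mem_univ _)
    have h2 : ∑ e ∈ (Finset.univ : Finset (Fin N → Bool)),
        2 ^ N * (D.filter fun d => q d = e).card <
          ∑ _e ∈ (Finset.univ : Finset (Fin N → Bool)), D.card :=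
      Finset.sum_lt_sum_of_nonempty ⟨fun _ => true, Finset.mem_univ _⟩ fun e _ => hcon e
    rw [Finset.sum_const, ← Finset.mul_sum, ← h1, hcard, smul_eq_mul] at h2
    exact lt_irrefl _ h2
  obtain ⟨E, hE⟩ : ∃ E : Fin (N + 1) → Bool, E = Fin.cons true e := ⟨_, rfl⟩
  have hv₁ : v₁ ∈ ball v₁ r₁ := mem_ball_self hr₁
  -- analyticity of the inner sign change
  have hTan : ∀ v : Fin N → ℂ, (∀ i : Fin N, ty i.succ = Ty.ell → v i ∉ Lam τ) →
      AnalyticAt ℂ (TT τ ty c E) v := by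
    intro v hv
    rw [analyticAt_pi_iff]
    intro i
    refine anSg hτ ty c E (fun k v => (Fin.cons 0 v : Fin (N + 1) → ℂ) k) v
      (fun k => anCons (fun _ => 0) v analyticAt_const k) (fun k hk => ?_) i.succ
    obtain ⟨i, rfl⟩ := hell k hk
    exact hv i hk
  have hTgood : ∀ v : Fin N → ℂ, TT τ ty c E v ∈ ball v₁ r₁ →
      ∀ i : Fin N, ty i.succ = Ty.ell → v i ∉ Lam τ := by
    intro v hv i hi
    have h1 := hgood _ hv i hi
    rw [TT_ell τ ty c E v i hi, I_Split.sg_mul_mem] at h1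
    exact h1
  have hT1 : TT τ ty c E (TT τ ty c E v₁) = v₁ := TT_TT τ ty c E hty v₁
  have hcont : ContinuousAt (TT τ ty c E) (TT τ ty c E v₁) := by
    refine (hTan _ (hTgood _ ?_)).continuousAt
    rw [hT1]
    exact hv₁
  have hnhd : (TT τ ty c E) ⁻¹' (ball v₁ r₁) ∈ 𝓝 (TT τ ty c E v₁) := by
    refine hcont.preimage_mem_nhds ?_
    rw [hT1]
    exact ball_mem_nhds v₁ hr₁
  obtain ⟨r₂, hr₂, hball⟩ := Metric.mem_nhds_iff.1 hnhd
  have hball' : ∀ v ∈ ball (TT τ ty c E v₁) r₂, TT τ ty c E v ∈ ball v₁ r₁ :=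
    fun v hv => hball hv
  refine ⟨D.filter fun d => q d = e, Finset.filter_subset _ _, he, TT τ ty c E v₁, r₂,
    fun v => sgI τ ty c E (Fin.cons (L (TT τ ty c E v)) (TT τ ty c E v) : Fin (N + 1) → ℂ) 0,
    hr₂, ?_, ?_, ?_⟩
  · intro v hv
    have hv' := hball' v hv
    have hTv := hTan v (hTgood v hv')
    have h1 : AnalyticAt ℂ (fun w : Fin N → ℂ =>
        sgI τ ty c E (Fin.cons (L w) w : Fin (N + 1) → ℂ) 0) (TT τ ty c E v) := by
      refine anSg hτ ty c E (fun k w => (Fin.cons (L w) w : Fin (N + 1) → ℂ) k) _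
        (fun k => anCons L _ (hL₁ _ hv') k) (fun k hk => ?_) 0
      exact (hb _ (hsub hv')).1 k hk
    exact AnalyticAt.fun_comp (g := fun w : Fin N → ℂ =>
        sgI τ ty c E (Fin.cons (L w) w : Fin (N + 1) → ℂ) 0) (f := TT τ ty c E) h1 hTv
  · intro v hv k hk
    obtain ⟨i, rfl⟩ := hell k hk
    rw [Fin.cons_succ]
    exact hTgood v (hball' v hv) i hk
  · intro v hv d hd
    obtain ⟨hdD, hde⟩ := Finset.mem_filter.1 hd
    have hv' := hball' v hv
    refine ⟨fun k hk => ?_, ?_⟩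
    · obtain ⟨i, rfl⟩ := hell k hk
      show (Fin.cons _ v : Fin (N + 1) → ℂ) i.succ + h d i.succ ∉ Lam τ
      rw [Fin.cons_succ]
      have h1 := hK1 d hdD (E i.succ) _ hv' i
      rw [TT_ell τ ty c E v i hk, ← mul_add, I_Split.sg_mul_mem] at h1
      exact h1
    · have h1 := hq d hdD _ hv'
      rw [hde, ← hE, hΦ] at h1
      have h2 := sgI_cons τ ty c E hty (L (TT τ ty c E v)) (TT τ ty c E v)
      rw [TT_TT τ ty c E hty v] at h2
      rw [← h2]
      exact h1

end Pool.Agent.Work.MP_8da9ea_nt.MX
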