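import Pool.Agent.Work.MP_8da9ea_nt.MX.StmtsG
import Pool.Agent.Work.MP_8da9ea_nt.MX.I_AdmF
import Pool.Agent.Work.MP_8da9ea_nt.EB.I_Closed

/-!
# Mixed block, G14: the transcendence input for the additive part
-/

set_option autoImplicit false

namespace Pool.Agent.Work.MP_8da9ea_nt.MX

open MvPolynomial Pool.Agent.Work.MP_327059_nt.GL Pool.Agent.Work.MP_8da9ea_nt.S
  Pool.Agent.Work.MP_8da9ea_nt.EB

namespace I_Star

/-- The index type. -/
abbrev II (a m₁ m₂ : ℕ) : Type := Fin a ⊕ (Fin m₁ ⊕ Fin m₂)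

/-- The labels. -/
def sty (a m₁ m₂ : ℕ) : II a m₁ m₂ → Ty :=
  Sum.elim (fun _ => Ty.add) (Sum.elim (fun _ => Ty.mul) (fun _ => Ty.ell))

/-- The numbers `b`. -/
noncomputable def sb {a m₁ m₂ m₃ : ℕ} (c' : Fin a → Option (Fin m₃) → ℂ) (μ : ℂ) (b₁ : Fin m₁ → ℂ)
    (b₂ : Fin m₂ → ℂ) : II a m₁ m₂ → ℂ :=
  Sum.elim (fun l => c' l none) (Sum.elim b₁ (fun j => μ * b₂ j))

/-- The coefficients. -/
noncomputable def sc {a m₃ : ℕ} (m₁ m₂ : ℕ) (c' : Fin a → Option (Fin m₃) → ℂ) :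
    II a m₁ m₂ → II a m₁ m₂ → ℂ :=
  Sum.elim (fun l => Sum.elim (fun _ => 0) (Sum.elim (fun _ => 0)
    (fun j => if h : (j : ℕ) < m₃ then c' l (some ⟨j, h⟩) else 0))) (fun _ _ => 0)

/-- The pivots. -/
def spi {a m₃ : ℕ} (m₁ : ℕ) {m₂ : ℕ} (h₃ : m₃ ≤ m₂) (π : Fin a → Option (Fin m₃)) :
    II a m₁ m₂ → II a m₁ m₂ :=
  Sum.elim (fun l => (π l).elim (Sum.inl l) (fun j => Sum.inr (Sum.inr (Fin.castLE h₃ j)))) Sum.inr

theorem ft {a m₁ m₂ m₃ : ℕ} (Q : ℕ) (c' : Fin a → Option (Fin m₃) → ℂ) (μ : ℂ) (hμ : μ ≠ 0)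
    (b₁ : Fin m₁ → ℂ) (b₂ : Fin m₂ → ℂ) (h : FTI Q (Sum.elim b₁ b₂)) :
    FTI Q (nb μ (sty a m₁ m₂) (sb c' μ b₁ b₂)) := by
  classical
  by_cases hι : Nonempty (Fin m₁ ⊕ Fin m₂)
  · obtain ⟨i0⟩ := hι
    let f : II a m₁ m₂ → Fin m₁ ⊕ Fin m₂ := Sum.elim (fun _ => i0) id
    let z : II a m₁ m₂ → Prop := fun k => sty a m₁ m₂ k = Ty.add
    have h1 := I_AdmF.zer Q z (fun k => Sum.elim b₁ b₂ (f k)) (I_FTIeq.key Q f _ h)
    have e : nb μ (sty a m₁ m₂) (sb c' μ b₁ b₂) =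
        fun k => if z k then 0 else Sum.elim b₁ b₂ (f k) := by
      funext k
      rcases k with k | k | k
      · simp [nb, sty, z]
      · simp [nb, sty, z, sb, f]
      · simp only [nb, sty, z, sb, f, Sum.elim_inr, id, reduceCtorEq, if_false]
        field_simp
    rw [e]
    exact h1
  · refine I_AdmF.all0 Q _ (fun k => ?_)
    rcases k with k | k
    · simp [nb, sty]
    · exact absurd ⟨k⟩ hι

theorem adm {a m₁ m₂ m₃ : ℕ} (Q : ℕ) (τ μ : ℂ) (h₃ : m₃ ≤ m₂) (hμ : μ ≠ 0)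
    (b₁ : Fin m₁ → ℂ) (b₂ : Fin m₂ → ℂ) (h : FTI Q (Sum.elim b₁ b₂))
    (hb₁ : LinearIndependent ℚ b₁) (hb₂ : KLI τ b₂) (c' : Fin a → Option (Fin m₃) → ℂ)
    (i₀ : Option (Fin a)) (π : Fin a → Option (Fin m₃))
    (hi₀ : ∀ i, i₀ = some i → c' i none = 1 ∧ ∀ j, c' i (some j) = 0)
    (hπ : ∀ i, i₀ ≠ some i → ∃ j, π i = some j ∧ ∀ i', c' i' (some j) = if i' = i then 1 else 0) :
    Adm Q τ μ (sty a m₁ m₂) (i₀.map Sum.inl) (spi m₁ h₃ π) (sb c' μ b₁ b₂) (sc m₁ m₂ c') := by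
  classical
  refine ⟨ft Q c' μ hμ b₁ b₂ h, ?_, ?_, ?_, ?_, ?_⟩
  · intro w hw h0
    have w1 : ∀ l, w (Sum.inl l) = 0 := fun l => hw _ (by simp [sty])
    have w3 : ∀ l, w (Sum.inr (Sum.inr l)) = 0 := fun l => hw _ (by simp [sty])
    rw [Fintype.sum_sum_type, Fintype.sum_sum_type] at h0
    simp only [w1, w3, Int.cast_zero, zero_mul, Finset.sum_const_zero, zero_add, add_zero, sb,
      Sum.elim_inr, Sum.elim_inl] at h0
    have h1 := Fintype.linearIndependent_iff.1 hb₁ (fun j => (w (Sum.inr (Sum.inl j)) : ℚ)) (by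
      rw [← h0]
      refine Finset.sum_congr rfl fun j _ => ?_
      rw [Rat.smul_def]
      push_cast
      rfl)
    funext k
    rcases k with k | k | k
    · exact w1 k
    · have := h1 k
      exact_mod_cast this
    · exact w3 k
  · intro g hg hgE h0
    have w1 : ∀ l, g (Sum.inl l) = 0 := fun l => hg _ (by simp [sty])
    have w2 : ∀ l, g (Sum.inr (Sum.inl l)) = 0 := fun l => hg _ (by simp [sty])
    rw [Fintype.sum_sum_type, Fintype.sum_sum_type] at h0
    simp only [w1, w2, zero_mul, Finset.sum_const_zero, zero_add, sb,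
      Sum.elim_inr] at h0
    have h1 := hb₂ (fun j => g (Sum.inr (Sum.inr j))) (fun j => hgE _) (by
      have h2 : μ * ∑ j, g (Sum.inr (Sum.inr j)) * b₂ j = 0 := by
        rw [← h0, Finset.mul_sum]
        exact Finset.sum_congr rfl fun j _ => by ring
      exact (mul_eq_zero.1 h2).resolve_left hμ)
    funext k
    rcases k with k | k | k
    · exact w1 k
    · exact w2 k
    · exact congrFun h1 k
  · intro i hi
    obtain ⟨l, hl, hl'⟩ := Option.map_eq_some_iff.1 hi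
    rw [← hl']
    exact (hi₀ l hl).1
  · intro i hi
    obtain ⟨l, hl, hl'⟩ := Option.map_eq_some_iff.1 hi
    rw [← hl']
    refine ⟨by simp [sty], ?_⟩
    intro j hj
    rcases j with j | j | j
    · simp [sty] at hj
    · simp [sty] at hj
    · simp only [sc, Sum.elim_inl, Sum.elim_inr]
      split_ifs
      · exact (hi₀ l hl).2 _
      · rfl
  · intro i hi hne
    rcases i with l | l | l
    · have hne' : i₀ ≠ some l := by
        intro h1
        apply hne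
        rw [h1]
        rfl
      obtain ⟨j, hj, hj'⟩ := hπ l hne'
      have hs : spi m₁ h₃ π (Sum.inl l) = Sum.inr (Sum.inr (Fin.castLE h₃ j)) := by
        simp [spi, hj]
      rw [hs]
      refine ⟨by simp [sty], ?_⟩
      intro i' hi'
      rcases i' with l' | l' | l'
      · have h2 : sc m₁ m₂ c' (Sum.inl l') (Sum.inr (Sum.inr (Fin.castLE h₃ j))) =
            c' l' (some j) := by
          simp [sc]
        rw [h2, hj' l']
        by_cases h3 : l' = l
        · rw [if_pos h3, if_pos (by rw [h3])]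
        · rw [if_neg h3, if_neg (by simpa using h3)]
      · simp [sty] at hi'
      · simp [sty] at hi'
    · simp [sty] at hi
    · simp [sty] at hi

/-- The additive coordinates. -/
theorem sumAdd {a m₁ m₂ m₃ n : ℕ} (τ μ : ℂ) (h₃ : m₃ ≤ m₂) (b₁ : Fin m₁ → ℂ) (b₂ : Fin m₂ → ℂ)
    (c' : Fin a → Option (Fin m₃) → ℂ) (x : Fin n → ℂ) (k : Fin n) (l : Fin a) :
    PN τ μ (sty a m₁ m₂) (sc m₁ m₂ c') (fun j => sb c' μ b₁ b₂ j * x k) (Sum.inl l) =
      ∑ o, c' l o * AV τ μ h₃ b₂ x k o := by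
  have h1 : PN τ μ (sty a m₁ m₂) (sc m₁ m₂ c') (fun j => sb c' μ b₁ b₂ j * x k) (Sum.inl l) =
      c' l none * x k + ∑ j, (if sty a m₁ m₂ j = Ty.ell then sc m₁ m₂ c' (Sum.inl l) j *
        ze τ μ (sb c' μ b₁ b₂ j * x k) else 0) := rfl
  rw [h1, Fintype.sum_option, Fintype.sum_sum_type, Fintype.sum_sum_type]
  have h2 : AV τ μ h₃ b₂ x k none = x k := rfl
  rw [h2]
  congr 1
  simp only [sty, Sum.elim_inl, Sum.elim_inr, reduceCtorEq, if_false, Finset.sum_const_zero,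
    zero_add, if_true]
  have h3 : ∀ j : Fin m₂, sc m₁ m₂ c' (Sum.inl l) (Sum.inr (Sum.inr j)) *
      ze τ μ (sb c' μ b₁ b₂ (Sum.inr (Sum.inr j)) * x k) =
      if h : (j : ℕ) < m₃ then c' l (some ⟨j, h⟩) * AV τ μ h₃ b₂ x k (some ⟨j, h⟩) else 0 := by
    intro j
    simp only [sc, sb, Sum.elim_inl, Sum.elim_inr]
    split_ifs with h
    · congr 1
      simp only [AV, Option.elim, Fin.castLE_mk]
      congr 1
      rw [mul_assoc]
    · rw [zero_mul]
  rw [Finset.sum_congr rfl fun j _ => h3 j]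
  obtain ⟨d, rfl⟩ := Nat.exists_eq_add_of_le h₃
  rw [Fin.sum_univ_add]
  have h4 : ∑ i : Fin d, (if h : ((Fin.natAdd m₃ i : Fin (m₃ + d)) : ℕ) < m₃ then
      c' l (some ⟨_, h⟩) * AV τ μ h₃ b₂ x k (some ⟨_, h⟩) else 0) = 0 := by
    refine Finset.sum_eq_zero fun i _ => ?_
    rw [dif_neg (by simp)]
  rw [h4, add_zero]
  refine Finset.sum_congr rfl fun i _ => ?_
  rw [dif_pos (by simp)]
  rfl

end I_Star

theorem Star_pf (h1 : S_TIM) (h2 : S_Tan) (h3 : S_Ech) : S_Star := by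
  classical
  intro Q m
  have hN : ∀ p : ℕ × ℕ × ℕ, ∃ N : ℕ, 2 ≤ Fintype.card (I_Star.II p.1 p.2.1 p.2.2) →
      ∀ (τ μ : ℂ) (ty : I_Star.II p.1 p.2.1 p.2.2 → Ty)
      (i₀ : Option (I_Star.II p.1 p.2.1 p.2.2))
      (π : I_Star.II p.1 p.2.1 p.2.2 → I_Star.II p.1 p.2.1 p.2.2)
      (b : I_Star.II p.1 p.2.1 p.2.2 → ℂ)
      (c : I_Star.II p.1 p.2.1 p.2.2 → I_Star.II p.1 p.2.1 p.2.2 → ℂ),
      Nrm τ μ → Adm Q τ μ ty i₀ π b c → ∀ n : ℕ, N ≤ n → ∀ x : Fin n → ℂ,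
      LinearIndependent ℚ x → NTM τ ty b x →
        ¬ TrLe (Fintype.card (I_Star.II p.1 p.2.1 p.2.2) - 2)
          (ptM τ μ ty b c (fun i j => b j * x i)) := by
    intro p
    by_cases hc : 2 ≤ Fintype.card (I_Star.II p.1 p.2.1 p.2.2)
    · obtain ⟨N, hN⟩ := h1 Q (I_Star.II p.1 p.2.1 p.2.2) hc
      exact ⟨N, fun _ => hN⟩
    · exact ⟨0, fun h => absurd h hc⟩
  choose N hN using hN
  obtain ⟨n₀, hn₀⟩ : ∃ n₀ : ℕ, n₀ = (Finset.range (m + 2) ×ˢ (Finset.range (m + 1) ×ˢ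
    Finset.range (m + 1))).sup N := ⟨_, rfl⟩
  refine ⟨n₀, ?_⟩
  intro m₁ m₂ m₃ hm₁ hm₂ h₃ τ μ b₁ b₂ hN' hFT hb₁ hb₂ n hn x hx hNT E e r hE hTr hexp hxe hrk
  obtain ⟨F, a, d, c, hF, hEF, hTrF, hcF, hcI, hcA, hpsi⟩ := h2 E hE n (Option (Fin m₃))
    (AV τ μ h₃ b₂ x) r hrk
  obtain ⟨t, c', i₀, π, htF, hc', hi₀, hπ⟩ := h3 F m₃ a c hcF hcI
  have hcard : Fintype.card (Option (Fin m₃)) = 1 + m₃ := by
    rw [Fintype.card_option, Fintype.card_fin]
    omega
  rw [hcard] at hpsi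
  have ha : a ≤ m₃ + 1 := by
    have h4 := hcI.fintype_card_le_finrank
    rw [Fintype.card_fin, Module.finrank_fintype_fun_eq_card, hcard] at h4
    omega
  by_cases hsmall : m₁ + m₂ + a ≤ 1
  · omega
  have hc2 : 2 ≤ Fintype.card (I_Star.II a m₁ m₂) := by
    simp only [Fintype.card_sum, Fintype.card_fin]
    omega
  have hc3 : Fintype.card (I_Star.II a m₁ m₂) = a + (m₁ + m₂) := by
    simp only [Fintype.card_sum, Fintype.card_fin]
  have hnN : N (a, m₁, m₂) ≤ n := by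
    refine le_trans ?_ hn
    rw [hn₀]
    refine Finset.le_sup (f := N) ?_
    simp only [Finset.mem_product, Finset.mem_range]
    omega
  have hc'F : ∀ i j, c' i j ∈ F := by
    intro i j
    rw [hc']
    exact sum_mem fun l _ => mul_mem (htF i l) (hcF l j)
  have hc'A : ∀ i k, ∑ j, c' i j * AV τ μ h₃ b₂ x k j ∈ F := by
    intro i k
    have h4 : ∑ j, c' i j * AV τ μ h₃ b₂ x k j =
        ∑ l, t i l * ∑ j, c l j * AV τ μ h₃ b₂ x k j := by
      simp only [hc', Finset.sum_mul, Finset.mul_sum]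
      rw [Finset.sum_comm]
      exact Finset.sum_congr rfl fun l _ => Finset.sum_congr rfl fun j _ => by ring
    rw [h4]
    exact sum_mem fun l _ => mul_mem (htF i l) (hcA l k)
  have hadm := I_Star.adm Q τ μ h₃ hN'.mu b₁ b₂ hFT hb₁ hb₂ c' i₀ π hi₀ hπ
  have hNTM : NTM τ (I_Star.sty a m₁ m₂) (I_Star.sb c' μ b₁ b₂) x := by
    intro s hs j hj
    rcases j with j | j | j
    · simp [I_Star.sty] at hj
    · simp [I_Star.sty] at hj
    · exact hNT s hs j
  have hmain := hN (a, m₁, m₂) hc2 τ μ (I_Star.sty a m₁ m₂) (i₀.map Sum.inl)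
    (I_Star.spi m₁ h₃ π) (I_Star.sb c' μ b₁ b₂) (I_Star.sc m₁ m₂ c') hN' hadm n hnN x hx hNTM
  -- algebraic numbers are in `F`
  have halg : ∀ y : ℂ, IsAlgebraic ℚ y → y ∈ F := fun y hy =>
    hF y (hy.tower_top F)
  have hxeF : ∀ i j, xe τ μ (μ * b₂ j * x i) ∈ F := by
    intro i j
    rw [mul_assoc]
    exact hEF (hxe i j)
  have hyeF : ∀ i j, ye τ μ (μ * b₂ j * x i) ∈ F := by
    intro i j
    have hnl : μ * b₂ j * x i ∉ Lam τ := by
      have h4 := hNT (Pi.single i 1) (by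
        intro h
        have := congrFun h i
        simp at this) j
      have h5 : cmb (Pi.single i (1 : ℤ)) x = x i := by
        unfold cmb
        rw [Finset.sum_eq_single i]
        · simp
        · intro l _ hl
          rw [Pi.single_eq_of_ne hl]
          simp
        · simp
      rwa [h5] at h4
    have h6 := I_Closed.weier hN' hnl
    have h7 : ye τ μ (μ * b₂ j * x i) ^ 2 ∈ F := by
      rw [h6]
      refine sub_mem (sub_mem (mul_mem ?_ (pow_mem (hxeF i j) 3)) (mul_mem (halg _ hN'.g2)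
        (hxeF i j))) (halg _ hN'.g3)
      exact natCast_mem F 4
    refine hF _ ?_
    have h8 : IsAlgebraic F (ye τ μ (μ * b₂ j * x i) ^ 2) :=
      isAlgebraic_algebraMap (⟨_, h7⟩ : F)
    exact h8.of_pow (by norm_num)
  have hpt : ∀ p, ptM τ μ (I_Star.sty a m₁ m₂) (I_Star.sb c' μ b₁ b₂) (I_Star.sc m₁ m₂ c')
      (fun i j => I_Star.sb c' μ b₁ b₂ j * x i) p ∈ F := by
    intro p
    rcases p with q | q | ⟨i, j, tt⟩
    · simp only [ptM, Sum.elim_inl]
      split_ifs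
      · exact halg _ hN'.g2
      · exact halg _ hN'.g3
    · simp only [ptM, Sum.elim_inl, Sum.elim_inr]
      obtain ⟨q₁, q₂⟩ := q
      have hz : ∀ q₁ q₂, I_Star.sc m₁ m₂ c' q₁ q₂ ∈ F := by
        intro q₁ q₂
        rcases q₁ with l | l
        · rcases q₂ with l' | l' | l'
          · exact zero_mem F
          · exact zero_mem F
          · simp only [I_Star.sc, Sum.elim_inl, Sum.elim_inr]
            split_ifs
            · exact hc'F _ _
            · exact zero_mem F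
        · exact zero_mem F
      by_cases h5 : I_Star.sty a m₁ m₂ q₁ = Ty.add ∧ I_Star.sty a m₁ m₂ q₂ = Ty.ell
      · rw [if_pos h5]
        exact hz _ _
      · rw [if_neg h5]
        by_cases h6 : q₁ = q₂ ∧ I_Star.sty a m₁ m₂ q₁ = Ty.add
        · rw [if_pos h6]
          rcases q₁ with l | l | l
          · exact hc'F _ _
          · simp [I_Star.sty] at h6
          · simp [I_Star.sty] at h6
        · rw [if_neg h6]
          exact zero_mem F
    · simp only [ptM, Sum.elim_inr]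
      cases tt
      · rw [if_neg (by simp)]
        rcases j with l | l | l
        · rw [I_Star.sumAdd τ μ h₃ b₁ b₂ c' x i l]
          exact hc'A l i
        · exact hEF (hexp i l)
        · exact hxeF i l
      · rw [if_pos rfl]
        rcases j with l | l | l
        · rw [if_neg (by simp [I_Star.sty])]
          exact zero_mem F
        · rw [if_neg (by simp [I_Star.sty])]
          exact zero_mem F
        · rw [if_pos (by simp [I_Star.sty])]
          exact hyeF i l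
  have hlt : Fintype.card (I_Star.II a m₁ m₂) - 2 < e + d := by
    by_contra hcon
    push Not at hcon
    apply hmain
    intro s hs
    apply hTrF e hTr
    refine ⟨fun i => ptM τ μ (I_Star.sty a m₁ m₂) (I_Star.sb c' μ b₁ b₂) (I_Star.sc m₁ m₂ c')
      (fun i j => I_Star.sb c' μ b₁ b₂ j * x i) (s (Fin.castLE (by
        show e + d + 1 ≤ Fintype.card (I_Star.II a m₁ m₂) - 2 + 1
        omega) i)), fun i => hpt _, ?_⟩
    exact hs.comp _ (Fin.castLE_injective _)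
  rw [hc3] at hlt
  omega

end Pool.Agent.Work.MP_8da9ea_nt.MX
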