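import Pool.Agent.Work.MP_8da9ea_nt.MX.StmtsZ
import Pool.Agent.Work.MP_8da9ea_nt.EB.I_Pop
import Pool.Agent.Work.MP_8da9ea_nt.EB.I_Fac
import Pool.Agent.Work.MP_8da9ea_nt.EB.I_Lin
import Pool.Agent.Work.MP_327059_nt.Bd.B12

/-!
# Mixed block, item StepA: the induction step of the zero estimate, additive variable
-/

set_option autoImplicit false

namespace Pool.Agent.Work.MP_8da9ea_nt.MX

open MvPolynomial Metric Pool.Agent.Work.MP_8da9ea_nt Pool.Agent.Work.MP_327059_nt.GL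
  Pool.Agent.Work.MP_8da9ea_nt.S Pool.Agent.Work.MP_8da9ea_nt.EB

namespace I_StepA

variable {n N : ℕ} {τ : ℂ}

lemma box_finite (S : ℕ) (P : (Fin n → ℤ) → Prop) :
    {s : Fin n → ℤ | (∀ i, |s i| ≤ (S : ℤ)) ∧ P s}.Finite := by
  refine (Finset.finite_toSet (Fintype.piFinset fun _ : Fin n => Finset.Icc (-(S : ℤ)) S)).subset ?_
  intro s hs
  rw [Finset.mem_coe, Fintype.mem_piFinset]
  intro i
  rw [Finset.mem_Icc]
  exact abs_le.1 (hs.1 i)

lemma ncard_mono {S S' : ℕ} (h : S ≤ S') (P : (Fin n → ℤ) → Prop) :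
    Set.ncard {s : Fin n → ℤ | (∀ i, |s i| ≤ (S : ℤ)) ∧ P s} ≤
      Set.ncard {s : Fin n → ℤ | (∀ i, |s i| ≤ (S' : ℤ)) ∧ P s} := by
  refine Set.ncard_le_ncard ?_ (box_finite _ _)
  rintro s ⟨h1, h2⟩
  exact ⟨fun i => (h1 i).trans (by exact_mod_cast h), h2⟩

lemma rel_mono {ι : Type} [Fintype ι] {ty : ι → Ty} {c : ι → ι → ℂ} {u : Fin n → ι → ℂ}
    {S T S' T' X X' : ℕ} (h : Rel τ ty c u S S' X) (hT : T ≤ S) (hS : S' ≤ T') (hX : X ≤ X') :
    Rel τ ty c u T T' X' := by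
  have hp : (T + 1) ^ n ≤ (S + 1) ^ n := Nat.pow_le_pow_left (by omega) n
  have hXr : (X : ℝ) ≤ X' := by exact_mod_cast hX
  obtain ⟨w, h0, h1⟩ := h
  refine ⟨w, h0, ?_⟩
  rcases h1 with ⟨h1, h2, h3, h4⟩ | ⟨h1, h2, h3, h4⟩ | ⟨h1, h2, h4⟩
  · exact Or.inl ⟨h1, h2, fun j => (h3 j).trans hXr,
      (hp.trans h4).trans (Nat.mul_le_mul hX (ncard_mono hS _))⟩
  · exact Or.inr (Or.inl ⟨h1, h2, fun j => (h3 j).trans hXr,
      (hp.trans h4).trans (Nat.mul_le_mul hX (ncard_mono hS _))⟩)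
  · exact Or.inr (Or.inr ⟨h1, h2, (hp.trans h4).trans (Nat.mul_le_mul hX (ncard_mono hS _))⟩)

lemma pcI_add {ι : Type} [Fintype ι] (u : Fin n → ι → ℂ) (s t : Fin n → ℤ) (j : ι) :
    pcI u (s + t) j = pcI u s j + pcI u t j := by
  simp only [pcI, Pi.add_apply, Int.cast_add, add_mul, Finset.sum_add_distrib]

lemma pcI_sub {ι : Type} [Fintype ι] (u : Fin n → ι → ℂ) (s t : Fin n → ℤ) (j : ι) :
    pcI u (s - t) j = pcI u s j - pcI u t j := by
  simp only [pcI, Pi.sub_apply, Int.cast_sub, sub_mul, Finset.sum_sub_distrib]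

/-- a lower bound for the number of relations from the differences -/
lemma card_le {S : ℕ} (P : (Fin n → ℤ) → Prop) (D : Finset (Fin n → ℤ))
    (hD : ∀ d ∈ D, ∀ i, |d i| ≤ (S : ℤ)) (h : ∀ d ∈ D, ∀ d' ∈ D, P (d - d')) :
    D.card ≤ Set.ncard {s : Fin n → ℤ | (∀ i, |s i| ≤ ((2 * S : ℕ) : ℤ)) ∧ P s} := by
  classical
  rcases D.eq_empty_or_nonempty with h0 | ⟨d₀, hd₀⟩
  · rw [h0]
    simp
  have h1 : (D.image fun d => d - d₀).card = D.card :=
    Finset.card_image_of_injective _ (sub_left_injective)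
  rw [← h1, ← Set.ncard_coe_finset]
  refine Set.ncard_le_ncard ?_ (box_finite _ _)
  intro s hs
  rw [Finset.mem_coe, Finset.mem_image] at hs
  obtain ⟨d, hd, rfl⟩ := hs
  refine ⟨fun i => ?_, h d hd d₀ hd₀⟩
  have h2 := hD d hd i
  have h3 := hD d₀ hd₀ i
  rw [abs_le] at h2 h3 ⊢
  simp only [Pi.sub_apply]
  push_cast
  constructor <;> linarith

/-- extension of a relation between the inner parameters -/
lemma rel_cons {ty : Fin (N + 1) → Ty} (hty : ty 0 ≠ Ty.ell) {c : Fin (N + 1) → Fin (N + 1) → ℂ}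
    {u : Fin n → Fin (N + 1) → ℂ} {S S' X : ℕ}
    (h : Rel τ (fun i : Fin N => ty i.succ) (fun i j => c i.succ j.succ)
      (fun i (j : Fin N) => u i j.succ) S S' X) : Rel τ ty c u S S' X := by
  obtain ⟨w, h0, h1⟩ := h
  have hs : ∀ s : Fin n → ℤ, ∑ j, (Fin.cons 0 w : Fin (N + 1) → ℂ) j * pcI u s j =
      ∑ j, w j * pcI (fun i (j : Fin N) => u i j.succ) s j := by
    intro s
    rw [Fin.sum_univ_succ]
    simp only [Fin.cons_zero, zero_mul, Fin.cons_succ, zero_add]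
    rfl
  have hz : ∀ (P : Fin (N + 1) → Prop), (∀ j : Fin N, P j.succ → w j = 0) →
      ∀ j, P j → (Fin.cons 0 w : Fin (N + 1) → ℂ) j = 0 := by
    intro P hP j
    refine Fin.cases (fun _ => rfl) (fun j hj => ?_) j
    rw [Fin.cons_succ]
    exact hP j hj
  have hn : ∀ Y : ℝ, 0 ≤ Y → (∀ j, ‖w j‖ ≤ Y) →
      ∀ j, ‖(Fin.cons 0 w : Fin (N + 1) → ℂ) j‖ ≤ Y := by
    intro Y hY h j
    refine Fin.cases ?_ (fun j => ?_) j
    · rw [Fin.cons_zero, norm_zero]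
      exact hY
    · rw [Fin.cons_succ]
      exact h j
  refine ⟨Fin.cons 0 w, ?_, ?_⟩
  · intro h5
    apply h0
    funext j
    have := congrFun h5 j.succ
    simpa using this
  · simp only [hs]
    rcases h1 with ⟨h1, h2, h3, h4⟩ | ⟨h1, h2, h3, h4⟩ | ⟨h1, h2, h4⟩
    · refine Or.inl ⟨hz (fun j => ty j ≠ Ty.ell) h1, ?_, hn _ (Nat.cast_nonneg X) h3, h4⟩
      intro j
      refine Fin.cases ?_ (fun j => ?_) j
      · rw [Fin.cons_zero]
        refine ⟨mem_Lam.2 ⟨0, 0, by simp⟩, mem_Lam.2 ⟨0, 0, by simp⟩⟩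
      · rw [Fin.cons_succ]
        exact h2 j
    · refine Or.inr (Or.inl ⟨hz (fun j => ty j ≠ Ty.mul) h1, ?_, hn _ (Nat.cast_nonneg X) h3, h4⟩)
      intro j
      refine Fin.cases ?_ (fun j => ?_) j
      · exact ⟨0, by simp⟩
      · rw [Fin.cons_succ]
        exact h2 j
    · refine Or.inr (Or.inr ⟨hz (fun j => ty j ≠ Ty.add) h1, ?_, h4⟩)
      intro j
      refine Fin.cases (fun hj => absurd hj hty) (fun j hj => ?_) j
      rw [Fin.sum_univ_succ]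
      simp only [Fin.cons_zero, zero_mul, Fin.cons_succ, zero_add]
      exact h2 j hj

lemma PT_succ {ty : Fin (N + 1) → Ty} (hty : ty 0 ≠ Ty.ell) (c : Fin (N + 1) → Fin (N + 1) → ℂ)
    (p : Fin (N + 1) → ℂ) (i : Fin N) :
    PT τ ty c p i.succ = PT τ (fun i : Fin N => ty i.succ) (fun i j => c i.succ j.succ)
      (fun i => p i.succ) i := by
  simp only [PT, Fin.sum_univ_succ, if_neg hty, zero_add]

lemma Gd_iff {ty : Fin (N + 1) → Ty} (hty : ty 0 ≠ Ty.ell) (p : Fin (N + 1) → ℂ) :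
    Gd τ ty p ↔ Gd τ (fun i : Fin N => ty i.succ) (fun i => p i.succ) := by
  constructor
  · intro h j hj
    exact h j.succ hj
  · intro h j
    refine Fin.cases (fun h0 => absurd h0 hty) (fun j => h j) j

/-- elimination of the first variable -/
lemma elim {ty : Fin (N + 1) → Ty} (hty : ty 0 ≠ Ty.ell) (c : Fin (N + 1) → Fin (N + 1) → ℂ)
    {F G : MvPolynomial (Fin (N + 1)) ℂ} {B' : ℕ} (hF : F ≠ 0) (hG : G ≠ 0)
    (hFd : ∀ i, F.degreeOf i ≤ B') (hGd : ∀ i, G.degreeOf i ≤ B') (τ : ℂ) :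
    (∃ f : MvPolynomial (Fin (N + 1)) ℂ, Irreducible f ∧ f ∣ F ∧ f ∣ G ∧ f.degreeOf 0 ≠ 0) ∨
    ∃ R : MvPolynomial (Fin N) ℂ, R ≠ 0 ∧ (∀ i, R.degreeOf i ≤ 2 * B' * B') ∧
      ∀ p : Fin (N + 1) → ℂ, eval (PT τ ty c p) F = 0 → eval (PT τ ty c p) G = 0 →
        eval (PT τ (fun i : Fin N => ty i.succ) (fun i j => c i.succ j.succ)
          (fun i => p i.succ)) R = 0 := by
  rcases pr_ZRes N B' F G hF hG hFd hGd with h | ⟨R, h1, h2, a, b, h3⟩
  · exact Or.inl h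
  · refine Or.inr ⟨R, h1, h2, fun p h4 h5 => ?_⟩
    have h6 := congrArg (eval (PT τ ty c p)) h3
    rw [map_add, map_mul, map_mul, h4, h5, mul_zero, mul_zero, add_zero, eval_rename] at h6
    have h7 : PT τ ty c p ∘ Fin.succ = PT τ (fun i : Fin N => ty i.succ)
        (fun i j => c i.succ j.succ) (fun i => p i.succ) := by
      funext i
      exact PT_succ hty c p i
    rw [h7] at h6
    exact h6

/-- The zero estimate with fixed constants. -/
def ZC {ι : Type} [Fintype ι] (τ : ℂ) (ty : ι → Ty) (n k C : ℕ) : Prop :=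
  ∀ (c : ι → ι → ℂ) (S B K : ℕ) (a : ι → ℂ) (u : Fin n → ι → ℂ) (A : Finset (Fin n → ℤ))
    (F : MvPolynomial ι ℂ), 1 ≤ B → 1 ≤ K → (∀ s ∈ A, ∀ i, 0 ≤ s i ∧ s i ≤ (S : ℤ)) →
    (S + 1) ^ n ≤ K * A.card → F ≠ 0 → (∀ i, F.degreeOf i ≤ B) →
    (∀ s ∈ A, Gd τ ty (fun j => a j + pcI u s j) ∧
      eval (PT τ ty c (fun j => a j + pcI u s j)) F = 0) →
    Rel τ ty c u S (k * S) (C * (2 * B * K) ^ k)

lemma two_mul_pow (n S : ℕ) : (2 * S + 1) ^ n ≤ 2 ^ n * (S + 1) ^ n := by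
  rw [← mul_pow]
  exact Nat.pow_le_pow_left (by omega) n

/-- the affine case -/
theorem affine_case (hGlob : S_GlobM) (hFin : S_FinA) (hτ : 0 < τ.im)
    {ty : Fin (N + 1) → Ty} (hty : ty 0 = Ty.add)
    (c : Fin (N + 1) → Fin (N + 1) → ℂ) (S B K : ℕ) (u : Fin n → Fin (N + 1) → ℂ)
    (D : Finset (Fin n → ℤ)) (F : MvPolynomial (Fin (N + 1)) ℂ) (v₁ : Fin N → ℂ) (r₁ : ℝ)
    (c0 : ℂ) (α : Fin N → ℂ) (hB : 1 ≤ B) (hD : ∀ d ∈ D, ∀ i, |d i| ≤ (S : ℤ))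
    (hDc : (S + 1) ^ n ≤ K * D.card) (hF : F ≠ 0) (hFd : ∀ i, F.degreeOf i ≤ B) (hr : 0 < r₁)
    (hbr : ∀ v ∈ ball v₁ r₁, ∀ d ∈ D,
      Gd τ ty (fun i => (Fin.cons (c0 + ∑ i, α i * v i) v : Fin (N + 1) → ℂ) i + pcI u d i) ∧
      eval (PT τ ty c (fun i => (Fin.cons (c0 + ∑ i, α i * v i) v : Fin (N + 1) → ℂ) i +
        pcI u d i)) F = 0) :
    Rel τ ty c u S (2 * S) (2 * B * K) := by
  classical
  have hne : ty 0 ≠ Ty.ell := by
    rw [hty]
    decide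
  have hDne : D.Nonempty := by
    rw [Finset.nonempty_iff_ne_empty]
    rintro rfl
    simp at hDc
  set κ : (Fin n → ℤ) → ℂ := fun d => c0 + pcI u d 0 - ∑ j : Fin N, α j * pcI u d j.succ with hκ
  have hkey : ∀ d ∈ D, ∀ v : Fin N → ℂ, Gd τ (fun i : Fin N => ty i.succ) v →
      eval (PT τ ty c (Fin.cons (κ d + ∑ i, α i * v i) v)) F = 0 := by
    intro d hd
    refine hGlob τ hτ N ty c F hne (κ d) α (fun i => v₁ i + pcI u d i.succ) r₁ hr ?_
    intro v hv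
    have h1 : (fun i => v i - pcI u d i.succ) ∈ ball v₁ r₁ := by
      rw [mem_ball, dist_pi_lt_iff hr] at hv ⊢
      intro i
      have := hv i
      rw [dist_eq_norm] at this ⊢
      rwa [sub_sub, add_comm (pcI u d i.succ) (v₁ i)]
    obtain ⟨h2, h3⟩ := hbr _ h1 d hd
    have h4 : (fun i => (Fin.cons (c0 + ∑ i, α i * (v i - pcI u d i.succ))
        (fun i => v i - pcI u d i.succ) : Fin (N + 1) → ℂ) i + pcI u d i) =
        (Fin.cons (κ d + ∑ i, α i * v i) v : Fin (N + 1) → ℂ) := by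
      funext i
      refine Fin.cases ?_ (fun i => ?_) i
      · rw [Fin.cons_zero, Fin.cons_zero, hκ]
        simp only [mul_sub, Finset.sum_sub_distrib]
        ring
      · rw [Fin.cons_succ, Fin.cons_succ]
        ring
    rw [h4] at h2 h3
    refine ⟨?_, h3⟩
    exact (Gd_iff hne _).1 h2
  obtain ⟨h1, h2, D', hD'1, hD'2, hD'3⟩ := hFin τ hτ N B ty c F α (Fin n → ℤ) D κ hty hB hF hFd
    hDne hkey
  refine ⟨Fin.cons 1 (fun i => -α i), ?_, Or.inr (Or.inr ⟨?_, ?_, ?_⟩)⟩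
  · intro h3
    have := congrFun h3 0
    simp at this
  · intro j
    refine Fin.cases (fun hj => absurd hty hj) (fun j hj => ?_) j
    rw [Fin.cons_succ, h1 j hj, neg_zero]
  · intro j
    refine Fin.cases (fun hj => absurd hj hne) (fun j hj => ?_) j
    rw [Fin.sum_univ_succ]
    simp only [Fin.cons_zero, Fin.cons_succ, one_mul, neg_mul, Finset.sum_neg_distrib]
    rw [h2 j hj]
    ring
  · have h3 := card_le (S := S) (fun s => ∑ j, (Fin.cons 1 (fun i => -α i) : Fin (N + 1) → ℂ) j *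
      pcI u s j = 0) D' (fun d hd => hD d (hD'1 hd)) (by
      intro d hd d' hd'
      have h4 : ∑ j, (Fin.cons 1 (fun i => -α i) : Fin (N + 1) → ℂ) j * pcI u (d - d') j =
          κ d - κ d' := by
        rw [Fin.sum_univ_succ, hκ]
        simp only [Fin.cons_zero, Fin.cons_succ, pcI_sub, one_mul, neg_mul,
          Finset.sum_neg_distrib, mul_sub, Finset.sum_sub_distrib]
        ring
      rw [h4, hD'3 d hd d' hd', sub_self])
    calc (S + 1) ^ n ≤ K * D.card := hDc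
      _ ≤ K * (B * D'.card) := Nat.mul_le_mul_left _ hD'2
      _ = 1 * B * K * D'.card := by ring
      _ ≤ 2 * B * K * D'.card := by gcongr; norm_num
      _ ≤ _ := Nat.mul_le_mul_left _ h3

/-- from a branch to a relation -/
theorem zb (hOp : S_OpM) (hCnt : S_CntM) (hGlob : S_GlobM) (hFin : S_FinA) (hτ : 0 < τ.im)
    {ty : Fin (N + 1) → Ty} (hty : ty 0 = Ty.add) {k0 C0 : ℕ}
    (hZ : ZC τ (fun i : Fin N => ty i.succ) n k0 C0)
    (c : Fin (N + 1) → Fin (N + 1) → ℂ) (S B K : ℕ) (u : Fin n → Fin (N + 1) → ℂ)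
    (D : Finset (Fin n → ℤ)) (F : MvPolynomial (Fin (N + 1)) ℂ) (v₁ : Fin N → ℂ) (r₁ : ℝ)
    (L : (Fin N → ℂ) → ℂ) (hB : 1 ≤ B) (hK : 1 ≤ K) (hD : ∀ d ∈ D, ∀ i, |d i| ≤ (S : ℤ))
    (hDc : (S + 1) ^ n ≤ K * D.card) (hF : F ≠ 0) (hFd : ∀ i, F.degreeOf i ≤ B) (hr : 0 < r₁)
    (hL : AnalyticOnNhd ℂ L (ball v₁ r₁))
    (hbr : ∀ v ∈ ball v₁ r₁, ∀ d ∈ D,
      Gd τ ty (fun i => (Fin.cons (L v) v : Fin (N + 1) → ℂ) i + pcI u d i) ∧
      eval (PT τ ty c (fun i => (Fin.cons (L v) v : Fin (N + 1) → ℂ) i + pcI u d i)) F = 0) :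
    Rel τ ty c u S ((2 * k0 + 2) * S)
      ((C0 * (2 ^ (n + 2) * ((4 * (N + 1) + 9) ^ (N + 1) * (4 * (N + 1) + 9) ^ (N + 1))) ^ k0 + 1) *
        (2 * B * K) ^ (2 * k0 + 2)) := by
  classical
  have hne : ty 0 ≠ Ty.ell := by
    rw [hty]
    decide
  set X : ℕ := 2 * B * K with hX
  have hX1 : 1 ≤ X := by
    rw [hX]
    exact Nat.mul_pos (by omega) hK
  set C1 : ℕ := (4 * (N + 1) + 9) ^ (N + 1) with hC1
  have hC1p : 1 ≤ C1 := Nat.one_le_pow _ _ (by omega)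
  set B' : ℕ := C1 * B with hB'
  have hB'1 : 1 ≤ B' := Nat.mul_pos hC1p hB
  have hBB : B ≤ B' := Nat.le_mul_of_pos_left _ hC1p
  by_cases hR : ∃ v ∈ ball v₁ r₁, ∃ R : MvPolynomial (Fin N) ℂ, R ≠ 0 ∧
      (∀ i, R.degreeOf i ≤ 2 * B' * B') ∧
      ∀ d ∈ D, eval (PT τ (fun i : Fin N => ty i.succ) (fun i j => c i.succ j.succ)
        (fun i : Fin N => v i + pcI u d i.succ)) R = 0
  · obtain ⟨v, hv, R, hR1, hR2, hR3⟩ := hR
    set σ : Fin n → ℤ := fun _ => (S : ℤ) with hσ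
    have h1 := hZ (fun i j => c i.succ j.succ) (2 * S) (2 * B' * B') (2 ^ n * K)
      (fun j => v j - pcI u σ j.succ)
      (fun i (j : Fin N) => u i j.succ) (D.image fun d => d + σ) R
      (Nat.mul_pos (Nat.mul_pos (by norm_num) hB'1) hB'1) (Nat.mul_pos (by positivity) hK) (by
        intro s hs i
        rw [Finset.mem_image] at hs
        obtain ⟨d, hd, rfl⟩ := hs
        have := abs_le.1 (hD d hd i)
        simp only [Pi.add_apply, hσ]
        push_cast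
        constructor <;> linarith) (by
        rw [Finset.card_image_of_injective _ (add_left_injective σ)]
        calc (2 * S + 1) ^ n ≤ 2 ^ n * (S + 1) ^ n := two_mul_pow n S
          _ ≤ 2 ^ n * (K * D.card) := Nat.mul_le_mul_left _ hDc
          _ = 2 ^ n * K * D.card := by ring) hR1 hR2 (by
        intro s hs
        rw [Finset.mem_image] at hs
        obtain ⟨d, hd, rfl⟩ := hs
        have h2 : ∀ j : Fin N, v j - pcI u σ j.succ +
            pcI (fun i (j : Fin N) => u i j.succ) (d + σ) j = v j + pcI u d j.succ := by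
          intro j
          have h3 : pcI (fun i (j : Fin N) => u i j.succ) (d + σ) j = pcI u (d + σ) j.succ := rfl
          rw [h3, pcI_add]
          ring
        simp only [h2]
        exact ⟨(Gd_iff hne _).1 (hbr v hv d hd).1, hR3 d hd⟩)
    refine rel_mono (rel_cons hne h1) (by omega) ?_ ?_
    · rw [← mul_assoc]
      exact Nat.mul_le_mul_right _ (by omega)
    · have h3 : 2 * (2 * B' * B') * (2 ^ n * K) ≤ (2 ^ (n + 2) * (C1 * C1)) * X ^ 2 := by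
        rw [hB', hX]
        calc 2 * (2 * (C1 * B) * (C1 * B)) * (2 ^ n * K)
            = (2 ^ (n + 2) * (C1 * C1)) * (B * B * K * 1) := by ring
          _ ≤ (2 ^ (n + 2) * (C1 * C1)) * (B * B * K * (4 * K)) :=
              Nat.mul_le_mul_left _ (Nat.mul_le_mul_left _ (by omega))
          _ = (2 ^ (n + 2) * (C1 * C1)) * (2 * B * K) ^ 2 := by ring
      calc C0 * (2 * (2 * B' * B') * (2 ^ n * K)) ^ k0
          ≤ C0 * ((2 ^ (n + 2) * (C1 * C1)) * X ^ 2) ^ k0 :=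
            Nat.mul_le_mul_left _ (Nat.pow_le_pow_left h3 _)
        _ = (C0 * (2 ^ (n + 2) * (C1 * C1)) ^ k0) * X ^ (2 * k0) := by
            rw [mul_pow, ← pow_mul, mul_assoc]
        _ ≤ (C0 * (2 ^ (n + 2) * (C1 * C1)) ^ k0 + 1) * X ^ (2 * k0 + 2) :=
            Nat.mul_le_mul (by omega) (Nat.pow_le_pow_right hX1 (by omega))
  · -- the increments are countable
    have hinc : ∀ h : Fin N → ℂ, ∃ Z : Set ℂ, Z.Countable ∧
        ∀ v, v ∈ ball v₁ r₁ → v + h ∈ ball v₁ r₁ → L (v + h) - L v ∈ Z := by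
      intro h
      obtain ⟨Z, hZ1, hZ2⟩ := hCnt τ hτ N ty c F hne hF (fun h0 => by
        rw [hty] at h0
        cases h0) h
      refine ⟨Z, hZ1, fun v hv hvh => ?_⟩
      obtain ⟨G, hG0, hG1, hG2, hG3⟩ := hOp τ hτ (N + 1) ty c
        (Fin.cons (L (v + h) - L v) h) B F hB hF hFd
      rcases elim hne c hF hG0 (B' := B') (fun i => (hFd i).trans hBB) hG1 τ with
        ⟨g, hg1, hg2, hg3, hg4⟩ | ⟨R, hR1, hR2, hR3⟩
      · exact hZ2 _ G g hg1 hg4 hg2 hg3 hG3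
      · exfalso
        apply hR
        refine ⟨v, hv, R, hR1, hR2, fun d hd => ?_⟩
        obtain ⟨h1, h3⟩ := hbr v hv d hd
        obtain ⟨h4, h6⟩ := hbr _ hvh d hd
        have h7 : (fun i => ((Fin.cons (L v) v : Fin (N + 1) → ℂ) i + pcI u d i) +
            (Fin.cons (L (v + h) - L v) h : Fin (N + 1) → ℂ) i) =
            fun i => (Fin.cons (L (v + h)) (v + h) : Fin (N + 1) → ℂ) i + pcI u d i := by
          funext i
          refine Fin.cases ?_ (fun i => ?_) i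
          · simp only [Fin.cons_zero]
            ring
          · simp only [Fin.cons_succ, Pi.add_apply]
            ring
        refine hR3 (fun i => (Fin.cons (L v) v : Fin (N + 1) → ℂ) i + pcI u d i) h3 ?_
        refine hG2 _ h1 ?_ ?_
        · rw [h7]
          exact h4
        · rw [h7]
          exact h6
    obtain ⟨c0, α, r', hr'1, hr'2, hlin⟩ := Lin_pf N v₁ r₁ L hr hL hinc
    have h1 := affine_case hGlob hFin hτ hty c S B K u D F v₁ r' c0 α hB hD hDc hF hFd hr'1 (by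
      intro v hv d hd
      have h2 := hbr v (ball_subset_ball hr'2 hv) d hd
      rw [hlin v hv] at h2
      exact h2)
    refine rel_mono h1 le_rfl (Nat.mul_le_mul_right _ (by omega)) ?_
    calc 2 * B * K = 1 * X ^ 1 := by rw [pow_one, one_mul]
      _ ≤ _ := Nat.mul_le_mul (by omega) (Nat.pow_le_pow_right hX1 (by omega))

end I_StepA

/-- Z10: the induction step, additive variable -/
theorem StepA_pf (h1 : S_OpM) (h2 : S_BranchM) (h3 : S_SplitM) (h4 : S_CntM) (h5 : S_GlobM)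
    (h6 : S_FinA) : S_StepA := by
  classical
  intro N ty hty hZM
  obtain ⟨k0, hZM⟩ := hZM
  have hne : ty 0 ≠ Ty.ell := by
    rw [hty]
    decide
  have hmul : ∀ f : MvPolynomial (Fin (N + 1)) ℂ, ty 0 = Ty.mul → ¬ X 0 ∣ f := by
    intro f h0
    rw [hty] at h0
    cases h0
  refine ⟨2 * k0 + 2 * (2 * k0 + 2) + 2, fun τ hτ n => ?_⟩
  obtain ⟨C0, hC0, hZ⟩ := hZM τ hτ n
  have hZ' : I_StepA.ZC τ (fun i : Fin N => ty i.succ) n k0 C0 := hZ
  set C1 : ℕ := (4 * (N + 1) + 9) ^ (N + 1) with hC1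
  have hC1p : 1 ≤ C1 := Nat.one_le_pow _ _ (by omega)
  set Cb : ℕ := C0 * (2 ^ (n + 2) * (C1 * C1)) ^ k0 + 1 with hCb
  refine ⟨C0 * (2 ^ (n + 3) * (C1 * C1)) ^ k0 + Cb * (2 ^ N) ^ (2 * k0 + 2) + 1, by omega, ?_⟩
  intro c S B K a u A F hB hK hA hAc hF hFd hAF
  set X : ℕ := 2 * B * K with hX
  have hX1 : 1 ≤ X := by
    rw [hX]
    exact Nat.mul_pos (by omega) hK
  set B' : ℕ := C1 * B with hB'
  have hB'1 : 1 ≤ B' := Nat.mul_pos hC1p hB
  have hBB : B ≤ B' := Nat.le_mul_of_pos_left _ hC1p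
  obtain ⟨D, hD1, hD2, hD3⟩ := Pop_pf n S K A hK hA hAc
  have hDne : D.Nonempty := by
    rw [Finset.nonempty_iff_ne_empty]
    rintro rfl
    simp at hD2
  choose G hG0 hG1 hG2 hG3 using fun d : Fin n → ℤ =>
    h1 τ hτ (N + 1) ty c (pcI u d) B F hB hF hFd
  by_cases hR : ∃ d ∈ D, ∃ R : MvPolynomial (Fin N) ℂ, R ≠ 0 ∧
      (∀ i, R.degreeOf i ≤ 2 * B' * B') ∧
      ∀ p : Fin (N + 1) → ℂ, eval (PT τ ty c p) F = 0 → eval (PT τ ty c p) (G d) = 0 →
        eval (PT τ (fun i : Fin N => ty i.succ) (fun i j => c i.succ j.succ)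
          (fun i => p i.succ)) R = 0
  · obtain ⟨d, hd, R, hR1, hR2, hR3⟩ := hR
    have h7 := hZ' (fun i j => c i.succ j.succ) S (2 * B' * B') (2 ^ (n + 1) * K ^ 2)
      (fun j => a j.succ) (fun i (j : Fin N) => u i j.succ) (A.filter fun s => s + d ∈ A) R
      (Nat.mul_pos (Nat.mul_pos (by norm_num) hB'1) hB'1)
      (Nat.mul_pos (by positivity) (Nat.pow_pos hK)) (by
        intro s hs
        exact hA s (Finset.mem_filter.1 hs).1) (hD3 d hd) hR1 hR2 (by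
        intro s hs
        obtain ⟨g1, g2⟩ := Finset.mem_filter.1 hs
        obtain ⟨g3, g5⟩ := hAF s g1
        obtain ⟨g6, g8⟩ := hAF _ g2
        simp only [I_StepA.pcI_add, ← add_assoc] at g6 g8
        exact ⟨(I_StepA.Gd_iff hne _).1 g3,
          hR3 (fun j => a j + pcI u s j) g5 (hG2 d (fun j => a j + pcI u s j) g3 g6 g8)⟩)
    refine I_StepA.rel_mono (I_StepA.rel_cons hne h7) le_rfl
      (Nat.mul_le_mul_right _ (by omega)) ?_
    have h8 : 2 * (2 * B' * B') * (2 ^ (n + 1) * K ^ 2) ≤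
        (2 ^ (n + 3) * (C1 * C1)) * X ^ 2 := by
      rw [hB', hX]
      calc 2 * (2 * (C1 * B) * (C1 * B)) * (2 ^ (n + 1) * K ^ 2)
          = (2 ^ (n + 3) * (C1 * C1)) * (1 * (B * B * (K * K))) := by ring
        _ ≤ (2 ^ (n + 3) * (C1 * C1)) * (4 * (B * B * (K * K))) :=
            Nat.mul_le_mul_left _ (Nat.mul_le_mul_right _ (by norm_num))
        _ = (2 ^ (n + 3) * (C1 * C1)) * (2 * B * K) ^ 2 := by ring
    calc C0 * (2 * (2 * B' * B') * (2 ^ (n + 1) * K ^ 2)) ^ k0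
        ≤ C0 * ((2 ^ (n + 3) * (C1 * C1)) * X ^ 2) ^ k0 :=
          Nat.mul_le_mul_left _ (Nat.pow_le_pow_left h8 _)
      _ = (C0 * (2 ^ (n + 3) * (C1 * C1)) ^ k0) * X ^ (2 * k0) := by
          rw [mul_pow, ← pow_mul, mul_assoc]
      _ ≤ _ := Nat.mul_le_mul (by omega) (Nat.pow_le_pow_right hX1 (by omega))
  -- common factors
  have hfac : ∀ d : Fin n → ℤ, ∃ f : MvPolynomial (Fin (N + 1)) ℂ, d ∈ D →
      (Irreducible f ∧ f.degreeOf 0 ≠ 0 ∧ f ∣ F) ∧ f ∣ G d := by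
    intro d
    by_cases hd : d ∈ D
    · rcases I_StepA.elim hne c hF (hG0 d) (B' := B') (fun i => (hFd i).trans hBB) (hG1 d) τ with
        ⟨g, hg1, hg2, hg3, hg4⟩ | ⟨R, hR1, hR2, hR3⟩
      · exact ⟨g, fun _ => ⟨⟨hg1, hg4, hg2⟩, hg3⟩⟩
      · exact absurd ⟨d, hd, R, hR1, hR2, hR3⟩ hR
    · exact ⟨0, fun h => absurd h hd⟩
  choose f hf using hfac
  obtain ⟨d₀, hd₀, Df, hDf1, hDf2, hDf3⟩ := Fac_pf N F hF (Fin n → ℤ) D f hDne
    (fun d hd => (hf d hd).1)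
  obtain ⟨⟨hf1, hf2, hf3⟩, -⟩ := hf d₀ hd₀
  have hTr : ∀ d ∈ Df, TrB τ ty c F (f d₀) (pcI u d) := by
    intro d hd p g1 g2 g3 g4
    refine hG3 d p g1 g2 g3 ?_
    obtain ⟨k, hk⟩ := (hDf3 d hd).dvd.trans (hf d (hDf1 hd)).2
    rw [hk, map_mul, g4, zero_mul]
  have hDfc : (S + 1) ^ n ≤ 2 * K * B * Df.card := by
    calc (S + 1) ^ n ≤ 2 * K * D.card := hD2
      _ ≤ 2 * K * (F.degreeOf 0 * Df.card) := Nat.mul_le_mul_left _ hDf2
      _ ≤ 2 * K * (B * Df.card) := Nat.mul_le_mul_left _ (Nat.mul_le_mul_right _ (hFd 0))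
      _ = 2 * K * B * Df.card := by ring
  obtain ⟨v₀, r, L, hr, hL, hLf⟩ := h2 τ hτ N ty c (f d₀) hne hf1 hf2 (hmul _)
  obtain ⟨D', hD'1, hD'2, v₁, r₁, L₁, hr₁, hL₁, -, hbr⟩ := h3 τ hτ N ty c (f d₀) F hne v₀ r L hr
    hL hLf (Fin n → ℤ) Df (fun d => pcI u d) hTr
  have h7 := I_StepA.zb h1 h4 h5 h6 hτ hty hZ' c S B (2 * K * B * 2 ^ N) u D' F v₁ r₁ L₁ hB
    (Nat.mul_pos (Nat.mul_pos (by omega) hB) (by positivity))
    (fun d hd => hD1 d (hDf1 (hD'1 hd))) (by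
      calc (S + 1) ^ n ≤ 2 * K * B * Df.card := hDfc
        _ ≤ 2 * K * B * (2 ^ N * D'.card) := Nat.mul_le_mul_left _ hD'2
        _ = 2 * K * B * 2 ^ N * D'.card := by ring) hF hFd hr₁ hL₁ hbr
  refine I_StepA.rel_mono h7 le_rfl (Nat.mul_le_mul_right _ (by omega)) ?_
  have h8 : 2 * B * (2 * K * B * 2 ^ N) ≤ 2 ^ N * X ^ 2 := by
    rw [hX]
    calc 2 * B * (2 * K * B * 2 ^ N) = 2 ^ N * (4 * (B * B) * K * 1) := by ring
      _ ≤ 2 ^ N * (4 * (B * B) * K * K) :=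
          Nat.mul_le_mul_left _ (Nat.mul_le_mul_left _ hK)
      _ = 2 ^ N * (2 * B * K) ^ 2 := by ring
  calc Cb * (2 * B * (2 * K * B * 2 ^ N)) ^ (2 * k0 + 2)
      ≤ Cb * (2 ^ N * X ^ 2) ^ (2 * k0 + 2) :=
        Nat.mul_le_mul_left _ (Nat.pow_le_pow_left h8 _)
    _ = (Cb * (2 ^ N) ^ (2 * k0 + 2)) * X ^ (2 * (2 * k0 + 2)) := by
        rw [mul_pow, ← pow_mul X, mul_assoc]
    _ ≤ _ := Nat.mul_le_mul (by omega) (Nat.pow_le_pow_right hX1 (by omega))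

end Pool.Agent.Work.MP_8da9ea_nt.MX
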