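import Pool.Agent.Work.MP_8da9ea_nt.MX.StmtsZ
import Pool.Agent.Work.MP_8da9ea_nt.EB.I_Pop
import Pool.Agent.Work.MP_8da9ea_nt.EB.I_Fac
import Pool.Agent.Work.MP_8da9ea_nt.EB.I_Lin
import Pool.Agent.Work.MP_327059_nt.Bd.B12

/-!
# Mixed block, item StepMu: the induction step of the zero estimate, multiplicative variable

`I_StepMu.step` is the common induction step: it reduces `ZM ty` (outer variable not elliptic) to the
case `I_StepMu.Aff ty` of an affine branch.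
-/

set_option autoImplicit false

namespace Pool.Agent.Work.MP_8da9ea_nt.MX

open MvPolynomial Metric Pool.Agent.Work.MP_327059_nt.GL Pool.Agent.Work.MP_8da9ea_nt.S
  Pool.Agent.Work.MP_8da9ea_nt.EB

namespace I_StepMu

variable {n N : ℕ} {τ : ℂ}

lemma box_finite (S : ℕ) (P : (Fin n → ℤ) → Prop) :
    {s : Fin n → ℤ | (∀ i, |s i| ≤ (S : ℤ)) ∧ P s}.Finite := by
  refine (Finset.finite_toSet (Fintype.piFinset fun _ : Fin n => Finset.Icc (-(S : ℤ)) S)).subset ?_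
  intro s hs
  rw [Finset.mem_coe, Fintype.mem_piFinset]
  intro i
  rw [Finset.mem_Icc]
  exact abs_le.1 (hs.1 i)

lemma ncard_mono {S S' : ℕ} (h : S ≤ S') {P Q : (Fin n → ℤ) → Prop} (hPQ : ∀ s, P s → Q s) :
    Set.ncard {s : Fin n → ℤ | (∀ i, |s i| ≤ (S : ℤ)) ∧ P s} ≤
      Set.ncard {s : Fin n → ℤ | (∀ i, |s i| ≤ (S' : ℤ)) ∧ Q s} := by
  refine Set.ncard_le_ncard ?_ (box_finite _ _)
  rintro s ⟨h1, h2⟩
  exact ⟨fun i => (h1 i).trans (by exact_mod_cast h), hPQ s h2⟩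

lemma rel_mono {ι : Type} [Fintype ι] {ty : ι → Ty} {c : ι → ι → ℂ} {u : Fin n → ι → ℂ}
    {S S₁ S' S'' X X' : ℕ} (h : Rel τ ty c u S₁ S' X) (hS : S ≤ S₁) (hS' : S' ≤ S'')
    (hX : X ≤ X') : Rel τ ty c u S S'' X' := by
  have hp : (S + 1) ^ n ≤ (S₁ + 1) ^ n := Nat.pow_le_pow_left (by omega) n
  have hXr : (X : ℝ) ≤ (X' : ℝ) := by exact_mod_cast hX
  obtain ⟨w, hw, ⟨h1, h2, h3, h4⟩ | ⟨h1, h2, h3, h4⟩ | ⟨h1, h2, h4⟩⟩ := h
  · exact ⟨w, hw, Or.inl ⟨h1, h2, fun j => (h3 j).trans hXr, hp.trans (h4.trans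
      (Nat.mul_le_mul hX (ncard_mono hS' fun _ h => h)))⟩⟩
  · exact ⟨w, hw, Or.inr (Or.inl ⟨h1, h2, fun j => (h3 j).trans hXr, hp.trans (h4.trans
      (Nat.mul_le_mul hX (ncard_mono hS' fun _ h => h)))⟩)⟩
  · exact ⟨w, hw, Or.inr (Or.inr ⟨h1, h2, hp.trans (h4.trans
      (Nat.mul_le_mul hX (ncard_mono hS' fun _ h => h)))⟩)⟩

lemma pc_add {ι : Type} (u : Fin n → ι → ℂ) (s t : Fin n → ℤ) (j : ι) :
    pcI u (s + t) j = pcI u s j + pcI u t j := by
  simp only [pcI, Pi.add_apply, Int.cast_add, add_mul, Finset.sum_add_distrib]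

lemma pc_sub {ι : Type} (u : Fin n → ι → ℂ) (s t : Fin n → ℤ) (j : ι) :
    pcI u (s - t) j = pcI u s j - pcI u t j := by
  simp only [pcI, Pi.sub_apply, Int.cast_sub, sub_mul, Finset.sum_sub_distrib]

/-- a lower bound for the number of solutions from the differences -/
lemma card_le {S : ℕ} (P : (Fin n → ℤ) → Prop) (D : Finset (Fin n → ℤ))
    (hD : ∀ d ∈ D, ∀ i, |d i| ≤ (S : ℤ)) (h : ∀ d ∈ D, ∀ d' ∈ D, P (d - d')) :
    D.card ≤ Set.ncard {s : Fin n → ℤ | (∀ i, |s i| ≤ ((2 * S : ℕ) : ℤ)) ∧ P s} := by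
  classical
  rcases D.eq_empty_or_nonempty with h0 | ⟨d₀, hd₀⟩
  · rw [h0]
    simp
  have h1 : (D.image fun d => d - d₀).card = D.card :=
    Finset.card_image_of_injective _ (sub_left_injective)
  rw [← h1, ← Set.ncard_coe_finset]
  refine Set.ncard_le_ncard ?_ (box_finite _ _)
  intro s hs
  rw [Finset.mem_coe, Finset.mem_image] at hs
  obtain ⟨d, hd, rfl⟩ := hs
  refine ⟨fun i => ?_, h d hd d₀ hd₀⟩
  have h2 := hD d hd i
  have h3 := hD d₀ hd₀ i
  rw [abs_le] at h2 h3 ⊢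
  simp only [Pi.sub_apply]
  push_cast
  constructor <;> linarith

/-- the inner coordinates do not depend on the outer parameter -/
lemma PT_succ {ty : Fin (N + 1) → Ty} (h0 : ty 0 ≠ Ty.ell) (c : Fin (N + 1) → Fin (N + 1) → ℂ)
    (p : Fin (N + 1) → ℂ) :
    (fun i : Fin N => PT τ ty c p i.succ) =
      PT τ (fun i : Fin N => ty i.succ) (fun i j => c i.succ j.succ) (fun i => p i.succ) := by
  funext i
  unfold PT
  simp only [Fin.sum_univ_succ, if_neg h0, zero_add]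

/-- passing from the last `N` coordinates to all coordinates -/
lemma rel_cons {ty : Fin (N + 1) → Ty} (h0 : ty 0 ≠ Ty.ell) {c : Fin (N + 1) → Fin (N + 1) → ℂ}
    {u : Fin n → Fin (N + 1) → ℂ} {S S' X : ℕ}
    (h : Rel τ (fun i : Fin N => ty i.succ) (fun i j => c i.succ j.succ)
      (fun i (j : Fin N) => u i j.succ) S S' X) : Rel τ ty c u S S' X := by
  obtain ⟨w, hw, h⟩ := h
  have hw' : (Fin.cons 0 w : Fin (N + 1) → ℂ) ≠ 0 := by
    intro h5
    apply hw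
    funext j
    have := congrFun h5 j.succ
    simpa using this
  have hsum : ∀ s : Fin n → ℤ, ∑ j, (Fin.cons 0 w : Fin (N + 1) → ℂ) j * pcI u s j =
      ∑ j, w j * pcI (fun i (j : Fin N) => u i j.succ) s j := by
    intro s
    rw [Fin.sum_univ_succ]
    simp only [Fin.cons_zero, zero_mul, Fin.cons_succ, zero_add]
    rfl
  have hnorm : (∀ j, ‖w j‖ ≤ (X : ℝ)) → ∀ j, ‖(Fin.cons 0 w : Fin (N + 1) → ℂ) j‖ ≤ (X : ℝ) := by
    intro h j
    refine Fin.cases ?_ (fun j => ?_) j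
    · simp
    · simpa using h j
  refine ⟨Fin.cons 0 w, hw', ?_⟩
  rcases h with ⟨h1, h2, h3, h4⟩ | ⟨h1, h2, h3, h4⟩ | ⟨h1, h2, h4⟩
  · refine Or.inl ⟨?_, ?_, hnorm h3, ?_⟩
    · intro j
      refine Fin.cases ?_ (fun j => ?_) j
      · intro _
        simp
      · intro h
        simpa using h1 j h
    · intro j
      refine Fin.cases ?_ (fun j => ?_) j
      · simp only [Fin.cons_zero]
        refine ⟨?_, ?_⟩
        · exact mem_Lam.2 ⟨0, 0, by simp⟩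
        · exact mem_Lam.2 ⟨0, 0, by simp⟩
      · simpa using h2 j
    · refine h4.trans (Nat.mul_le_mul_left _ (ncard_mono le_rfl fun s hs => ?_))
      rw [hsum]
      exact hs
  · refine Or.inr (Or.inl ⟨?_, ?_, hnorm h3, ?_⟩)
    · intro j
      refine Fin.cases ?_ (fun j => ?_) j
      · intro _
        simp
      · intro h
        simpa using h1 j h
    · intro j
      refine Fin.cases ?_ (fun j => ?_) j
      · exact ⟨0, by simp⟩
      · simpa using h2 j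
    · refine h4.trans (Nat.mul_le_mul_left _ (ncard_mono le_rfl fun s hs => ?_))
      rw [hsum]
      exact hs
  · refine Or.inr (Or.inr ⟨?_, ?_, ?_⟩)
    · intro j
      refine Fin.cases ?_ (fun j => ?_) j
      · intro _
        simp
      · intro h
        simpa using h1 j h
    · intro j
      refine Fin.cases ?_ (fun j => ?_) j
      · intro h
        exact absurd h h0
      · intro h
        rw [Fin.sum_univ_succ]
        simp only [Fin.cons_zero, zero_mul, Fin.cons_succ, zero_add]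
        exact h2 j h
    · refine h4.trans (Nat.mul_le_mul_left _ (ncard_mono le_rfl fun s hs => ?_))
      rw [hsum]
      exact hs

/-- elimination of the first variable -/
lemma elim {ty : Fin (N + 1) → Ty} (h0 : ty 0 ≠ Ty.ell) {F G : MvPolynomial (Fin (N + 1)) ℂ}
    {B' : ℕ} (hF : F ≠ 0) (hG : G ≠ 0) (hFd : ∀ i, F.degreeOf i ≤ B')
    (hGd : ∀ i, G.degreeOf i ≤ B') (τ : ℂ) (c : Fin (N + 1) → Fin (N + 1) → ℂ) :
    (∃ f : MvPolynomial (Fin (N + 1)) ℂ, Irreducible f ∧ f ∣ F ∧ f ∣ G ∧ f.degreeOf 0 ≠ 0) ∨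
    ∃ R : MvPolynomial (Fin N) ℂ, R ≠ 0 ∧ (∀ i, R.degreeOf i ≤ 2 * B' * B') ∧
      ∀ p : Fin (N + 1) → ℂ, eval (PT τ ty c p) F = 0 → eval (PT τ ty c p) G = 0 →
        eval (PT τ (fun i : Fin N => ty i.succ) (fun i j => c i.succ j.succ)
          (fun i => p i.succ)) R = 0 := by
  rcases pr_ZRes N B' F G hF hG hFd hGd with h | ⟨R, h1, h2, a, b, h3⟩
  · exact Or.inl h
  · refine Or.inr ⟨R, h1, h2, fun p h4 h5 => ?_⟩
    have h6 := congrArg (eval (PT τ ty c p)) h3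
    rw [map_add, map_mul, map_mul, h4, h5, mul_zero, mul_zero, add_zero, eval_rename] at h6
    rw [← PT_succ h0]
    exact h6

/-- dividing by a power of `X 0` -/
lemma redX (ty : Fin (N + 1) → Ty) (F : MvPolynomial (Fin (N + 1)) ℂ) (hF : F ≠ 0) :
    ∃ F' : MvPolynomial (Fin (N + 1)) ℂ, F' ≠ 0 ∧ (∀ i, F'.degreeOf i ≤ F.degreeOf i) ∧
      (ty 0 = Ty.mul → ¬ X 0 ∣ F') ∧
      ∀ (τ : ℂ) (c : Fin (N + 1) → Fin (N + 1) → ℂ) (p : Fin (N + 1) → ℂ),
        eval (PT τ ty c p) F = 0 → eval (PT τ ty c p) F' = 0 := by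
  by_cases h : ty 0 = Ty.mul
  · have hX : Prime (X 0 : MvPolynomial (Fin (N + 1)) ℂ) := X_prime
    obtain ⟨k, hk, h1⟩ := (FiniteMultiplicity.of_not_isUnit hX.not_unit hF).exists_eq_pow_mul_and_not_dvd
    have hk0 : k ≠ 0 := by
      rintro rfl
      exact hF (by rw [hk, mul_zero])
    have hX0 : (X 0 : MvPolynomial (Fin (N + 1)) ℂ) ^
        multiplicity (X 0 : MvPolynomial (Fin (N + 1)) ℂ) F ≠ 0 := pow_ne_zero _ hX.ne_zero
    refine ⟨k, hk0, fun i => ?_, fun _ => h1, fun τ c p h2 => ?_⟩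
    · conv_rhs => rw [hk]
      rw [degreeOf_mul_eq hX0 hk0]
      exact Nat.le_add_left _ _
    · rw [hk, map_mul, map_pow, eval_X] at h2
      have h3 : PT τ ty c p 0 ≠ 0 := by
        unfold PT
        simp only [h]
        exact Complex.exp_ne_zero _
      exact (mul_eq_zero.1 h2).resolve_left (pow_ne_zero _ h3)
  · exact ⟨F, hF, fun i => le_rfl, fun h' => absurd h' h, fun _ _ _ h => h⟩

lemma trB_dvd {ι : Type} [Fintype ι] {ty : ι → Ty} {c : ι → ι → ℂ} {F G f : MvPolynomial ι ℂ}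
    {h : ι → ℂ} (hT : TrB τ ty c F G h) (hd : f ∣ G) : TrB τ ty c F f h := by
  intro p h1 h2 h3 h4
  refine hT p h1 h2 h3 ?_
  obtain ⟨k, rfl⟩ := hd
  rw [map_mul, h4, zero_mul]

lemma two_mul_pow (n S : ℕ) : (2 * S + 1) ^ n ≤ 2 ^ n * (S + 1) ^ n := by
  rw [← mul_pow]
  exact Nat.pow_le_pow_left (by omega) n

/-- The case of an affine branch. -/
def Aff {N : ℕ} (ty : Fin (N + 1) → Ty) : Prop := ∃ k : ℕ, ∀ τ : ℂ, 0 < τ.im → ∀ n : ℕ,
  ∃ C : ℕ, 1 ≤ C ∧ ∀ (c : Fin (N + 1) → Fin (N + 1) → ℂ) (S B K : ℕ)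
    (u : Fin n → Fin (N + 1) → ℂ) (D : Finset (Fin n → ℤ)) (F : MvPolynomial (Fin (N + 1)) ℂ)
    (κ : ℂ) (α v₁ : Fin N → ℂ) (r₁ : ℝ), 1 ≤ B → 1 ≤ K → (∀ d ∈ D, ∀ i, |d i| ≤ (S : ℤ)) →
    (S + 1) ^ n ≤ K * D.card → F ≠ 0 → (∀ i, F.degreeOf i ≤ B) → 0 < r₁ →
    (∀ v ∈ ball v₁ r₁, ∀ d ∈ D,
      Gd τ ty (fun i => (Fin.cons (κ + ∑ i, α i * v i) v : Fin (N + 1) → ℂ) i + pcI u d i) ∧
      eval (PT τ ty c (fun i => (Fin.cons (κ + ∑ i, α i * v i) v : Fin (N + 1) → ℂ) i +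
        pcI u d i)) F = 0) →
    Rel τ ty c u S (k * S) (C * (2 * B * K) ^ k)

/-- from a branch to a relation -/
theorem zb (h1 : S_OpM) (h4 : S_CntM) {N : ℕ} (ty : Fin (N + 1) → Ty) (h0 : ty 0 ≠ Ty.ell)
    (hAff : Aff ty) (hZ : ZM (fun i : Fin N => ty i.succ)) :
    ∃ k : ℕ, ∀ τ : ℂ, 0 < τ.im → ∀ n : ℕ, ∃ C : ℕ, 1 ≤ C ∧
    ∀ (c : Fin (N + 1) → Fin (N + 1) → ℂ) (S B K : ℕ) (u : Fin n → Fin (N + 1) → ℂ)
      (D : Finset (Fin n → ℤ)) (F : MvPolynomial (Fin (N + 1)) ℂ) (v₁ : Fin N → ℂ) (r₁ : ℝ)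
      (L : (Fin N → ℂ) → ℂ), 1 ≤ B → 1 ≤ K → (∀ d ∈ D, ∀ i, |d i| ≤ (S : ℤ)) →
      (S + 1) ^ n ≤ K * D.card → F ≠ 0 → (∀ i, F.degreeOf i ≤ B) → (ty 0 = Ty.mul → ¬ X 0 ∣ F) →
      0 < r₁ → AnalyticOnNhd ℂ L (ball v₁ r₁) →
      (∀ v ∈ ball v₁ r₁, ∀ d ∈ D,
        Gd τ ty (fun i => (Fin.cons (L v) v : Fin (N + 1) → ℂ) i + pcI u d i) ∧
        eval (PT τ ty c (fun i => (Fin.cons (L v) v : Fin (N + 1) → ℂ) i + pcI u d i)) F = 0) →
      Rel τ ty c u S (k * S) (C * (2 * B * K) ^ k) := by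
  classical
  obtain ⟨k0, hZ⟩ := hZ
  obtain ⟨ka, hAff⟩ := hAff
  refine ⟨2 * k0 + ka, fun τ hτ n => ?_⟩
  obtain ⟨C0, hC0, hZ⟩ := hZ τ hτ n
  obtain ⟨Ca, hCa, hAff⟩ := hAff τ hτ n
  set E : ℕ := (4 * (N + 1) + 9) ^ (N + 1) with hE
  have hE1 : 1 ≤ E := Nat.one_le_pow _ _ (by omega)
  refine ⟨C0 * (2 ^ (n + 2) * (E * E)) ^ k0 + Ca, by omega, ?_⟩
  intro c S B K u D F v₁ r₁ L hB hK hD hDc hF hFd hFX hr hL hbr
  set X : ℕ := 2 * B * K with hX
  have hX1 : 1 ≤ X := by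
    rw [hX]
    exact Nat.mul_pos (by omega) hK
  set B' : ℕ := E * B with hB'
  have hB'1 : 1 ≤ B' := Nat.mul_pos hE1 hB
  by_cases hR : ∃ v ∈ ball v₁ r₁, ∃ R : MvPolynomial (Fin N) ℂ, R ≠ 0 ∧
      (∀ i, R.degreeOf i ≤ 2 * B' * B') ∧
      ∀ d ∈ D, eval (PT τ (fun i : Fin N => ty i.succ) (fun i j => c i.succ j.succ)
        (fun i => v i + pcI u d i.succ)) R = 0
  · obtain ⟨v, hv, R, hR1, hR2, hR3⟩ := hR
    set σ : Fin n → ℤ := fun _ => (S : ℤ) with hσ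
    have h1 := hZ (fun i j => c i.succ j.succ) (2 * S) (2 * B' * B') (2 ^ n * K)
      (fun j => v j - pcI u σ j.succ)
      (fun i (j : Fin N) => u i j.succ) (D.image fun d => d + σ) R
      (Nat.mul_pos (Nat.mul_pos (by norm_num) hB'1) hB'1) (Nat.mul_pos (by positivity) hK) (by
        intro s hs i
        rw [Finset.mem_image] at hs
        obtain ⟨d, hd, rfl⟩ := hs
        have := abs_le.1 (hD d hd i)
        simp only [Pi.add_apply, hσ]
        push_cast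
        constructor <;> linarith) (by
        rw [Finset.card_image_of_injective _ (add_left_injective σ)]
        calc (2 * S + 1) ^ n ≤ 2 ^ n * (S + 1) ^ n := two_mul_pow n S
          _ ≤ 2 ^ n * (K * D.card) := Nat.mul_le_mul_left _ hDc
          _ = 2 ^ n * K * D.card := by ring) hR1 hR2 (by
        intro s hs
        rw [Finset.mem_image] at hs
        obtain ⟨d, hd, rfl⟩ := hs
        have h2 : ∀ j : Fin N,
            v j - pcI u σ j.succ + pcI (fun i (j : Fin N) => u i j.succ) (d + σ) j =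
            v j + pcI u d j.succ := by
          intro j
          have h3 : pcI (fun i (j : Fin N) => u i j.succ) (d + σ) j = pcI u (d + σ) j.succ := rfl
          rw [h3, pc_add]
          ring
        simp only [h2]
        refine ⟨fun j hj => ?_, hR3 d hd⟩
        have := (hbr v hv d hd).1 j.succ hj
        simpa using this)
    have h2 : Rel τ (fun i : Fin N => ty i.succ) (fun i j => c i.succ j.succ)
        (fun i (j : Fin N) => u i j.succ) S (2 * k0 * S)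
        (C0 * (2 * (2 * B' * B') * (2 ^ n * K)) ^ k0) :=
      rel_mono h1 (by omega) (le_of_eq (by ring)) le_rfl
    refine rel_mono (rel_cons h0 h2) le_rfl (Nat.mul_le_mul_right _ (by omega)) ?_
    have h3 : 2 * (2 * B' * B') * (2 ^ n * K) ≤ (2 ^ (n + 2) * (E * E)) * X ^ 2 := by
      rw [hB', hX]
      calc 2 * (2 * (E * B) * (E * B)) * (2 ^ n * K)
          = (2 ^ (n + 2) * (E * E)) * (B * B * K * 1) := by ring
        _ ≤ (2 ^ (n + 2) * (E * E)) * (B * B * K * (4 * K)) :=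
            Nat.mul_le_mul_left _ (Nat.mul_le_mul_left _ (by omega))
        _ = (2 ^ (n + 2) * (E * E)) * (2 * B * K) ^ 2 := by ring
    calc C0 * (2 * (2 * B' * B') * (2 ^ n * K)) ^ k0
        ≤ C0 * ((2 ^ (n + 2) * (E * E)) * X ^ 2) ^ k0 :=
          Nat.mul_le_mul_left _ (Nat.pow_le_pow_left h3 _)
      _ = (C0 * (2 ^ (n + 2) * (E * E)) ^ k0) * X ^ (2 * k0) := by
          rw [mul_pow, ← pow_mul, mul_assoc]
      _ ≤ (C0 * (2 ^ (n + 2) * (E * E)) ^ k0 + Ca) * X ^ (2 * k0 + ka) :=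
          Nat.mul_le_mul (by omega) (Nat.pow_le_pow_right hX1 (by omega))
  · -- the increments are countable
    have hinc : ∀ h : Fin N → ℂ, ∃ Z : Set ℂ, Z.Countable ∧
        ∀ v, v ∈ ball v₁ r₁ → v + h ∈ ball v₁ r₁ → L (v + h) - L v ∈ Z := by
      intro h
      obtain ⟨Z, hZ1, hZ2⟩ := h4 τ hτ N ty c F h0 hF hFX h
      refine ⟨Z, hZ1, fun v hv hvh => ?_⟩
      obtain ⟨G, hG0, hG1, hG2, hG3⟩ := h1 τ hτ (N + 1) ty c
        (Fin.cons (L (v + h) - L v) h : Fin (N + 1) → ℂ) B F hB hF hFd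
      rcases elim h0 hF hG0 (B' := B') (fun i => (hFd i).trans (by
          rw [hB']
          exact Nat.le_mul_of_pos_left _ (by omega))) (fun i => (hG1 i).trans (by
          rw [hB'])) τ c with ⟨g, hg1, hg2, hg3, hg4⟩ | ⟨R, hR1, hR2, hR3⟩
      · exact hZ2 _ G g hg1 hg4 hg2 hg3 hG3
      · exfalso
        apply hR
        refine ⟨v, hv, R, hR1, hR2, fun d hd => ?_⟩
        obtain ⟨h5, h6⟩ := hbr v hv d hd
        obtain ⟨h7, h8⟩ := hbr _ hvh d hd
        have h9 : (fun i => (Fin.cons (L (v + h)) (v + h) : Fin (N + 1) → ℂ) i + pcI u d i) =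
            fun i => (fun i => (Fin.cons (L v) v : Fin (N + 1) → ℂ) i + pcI u d i) i +
              (Fin.cons (L (v + h) - L v) h : Fin (N + 1) → ℂ) i := by
          funext i
          refine Fin.cases ?_ (fun i => ?_) i
          · simp only [Fin.cons_zero]
            ring
          · simp only [Fin.cons_succ, Pi.add_apply]
            ring
        rw [h9] at h7 h8
        have h10 := hR3 _ h6 (hG2 _ h5 h7 h8)
        simpa using h10
    obtain ⟨κ, α, r', hr'1, hr'2, hlin⟩ := Lin_pf N v₁ r₁ L hr hL hinc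
    have h5 := hAff c S B K u D F κ α v₁ r' hB hK hD hDc hF hFd hr'1 (by
      intro v hv d hd
      have h2 := hbr v (ball_subset_ball hr'2 hv) d hd
      rw [hlin v hv] at h2
      exact h2)
    refine rel_mono h5 le_rfl (Nat.mul_le_mul_right _ (by omega)) ?_
    exact Nat.mul_le_mul (by omega) (Nat.pow_le_pow_right hX1 (by omega))

/-- The induction step (outer variable not elliptic), given the affine case. -/
theorem step (h1 : S_OpM) (h2 : S_BranchM) (h3 : S_SplitM) (h4 : S_CntM) {N : ℕ}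
    (ty : Fin (N + 1) → Ty) (h0 : ty 0 ≠ Ty.ell) (hAff : Aff ty)
    (hZ : ZM (fun i : Fin N => ty i.succ)) : ZM ty := by
  classical
  obtain ⟨kb, hzb⟩ := zb h1 h4 ty h0 hAff hZ
  obtain ⟨k0, hZ⟩ := hZ
  refine ⟨2 * k0 + 2 * kb, fun τ hτ n => ?_⟩
  obtain ⟨Cb, hCb, hzb⟩ := hzb τ hτ n
  obtain ⟨C0, hC0, hZ⟩ := hZ τ hτ n
  set E : ℕ := (4 * (N + 1) + 9) ^ (N + 1) with hE
  have hE1 : 1 ≤ E := Nat.one_le_pow _ _ (by omega)
  refine ⟨C0 * (2 ^ (n + 3) * (E * E)) ^ k0 + Cb * (2 ^ (N + 2)) ^ kb, ?_, ?_⟩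
  · have : 1 ≤ C0 * (2 ^ (n + 3) * (E * E)) ^ k0 :=
      Nat.mul_pos hC0 (Nat.pow_pos (Nat.mul_pos (by positivity) (Nat.mul_pos hE1 hE1)))
    omega
  intro c S B K a u A F₀ hB hK hA hAc hF₀ hF₀d hAF₀
  obtain ⟨F, hF, hFd₀, hFX, hFz⟩ := redX ty F₀ hF₀
  have hFd : ∀ i, F.degreeOf i ≤ B := fun i => (hFd₀ i).trans (hF₀d i)
  have hAF : ∀ s ∈ A, Gd τ ty (fun j => a j + pcI u s j) ∧
      eval (PT τ ty c (fun j => a j + pcI u s j)) F = 0 :=
    fun s hs => ⟨(hAF₀ s hs).1, hFz _ _ _ (hAF₀ s hs).2⟩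
  set X : ℕ := 2 * B * K with hX
  have hX1 : 1 ≤ X := by
    rw [hX]
    exact Nat.mul_pos (by omega) hK
  set B' : ℕ := E * B with hB'
  have hB'1 : 1 ≤ B' := Nat.mul_pos hE1 hB
  obtain ⟨D, hD1, hD2, hD3⟩ := Pop_pf n S K A hK hA hAc
  have hDne : D.Nonempty := by
    rw [Finset.nonempty_iff_ne_empty]
    rintro rfl
    simp at hD2
  choose G hG0 hG1 hG2 hG3 using fun d : Fin n → ℤ =>
    h1 τ hτ (N + 1) ty c (fun j => pcI u d j) B F hB hF hFd
  by_cases hR : ∃ d ∈ D, ∃ R : MvPolynomial (Fin N) ℂ, R ≠ 0 ∧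
      (∀ i, R.degreeOf i ≤ 2 * B' * B') ∧
      ∀ p : Fin (N + 1) → ℂ, eval (PT τ ty c p) F = 0 → eval (PT τ ty c p) (G d) = 0 →
        eval (PT τ (fun i : Fin N => ty i.succ) (fun i j => c i.succ j.succ)
          (fun i => p i.succ)) R = 0
  · obtain ⟨d, hd, R, hR1, hR2, hR3⟩ := hR
    have h5 := hZ (fun i j => c i.succ j.succ) S (2 * B' * B') (2 ^ (n + 1) * K ^ 2)
      (fun j => a j.succ) (fun i (j : Fin N) => u i j.succ) (A.filter fun s => s + d ∈ A) R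
      (Nat.mul_pos (Nat.mul_pos (by norm_num) hB'1) hB'1)
      (Nat.mul_pos (by positivity) (Nat.pow_pos hK)) (by
        intro s hs
        exact hA s (Finset.mem_filter.1 hs).1) (hD3 d hd) hR1 hR2 (by
        intro s hs
        obtain ⟨h5, h6⟩ := Finset.mem_filter.1 hs
        obtain ⟨h7, h8⟩ := hAF s h5
        obtain ⟨h9, h10⟩ := hAF _ h6
        have h11 : eval (PT τ ty c (fun j => a j + pcI u s j)) (G d) = 0 := by
          have h12 : (fun j => a j + pcI u (s + d) j) =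
              fun i => (fun j => a j + pcI u s j) i + (fun j => pcI u d j) i := by
            funext j
            rw [pc_add, add_assoc]
          rw [h12] at h9 h10
          exact hG2 d (fun j => a j + pcI u s j) h7 h9 h10
        have h13 := hR3 (fun j => a j + pcI u s j) h8 h11
        exact ⟨fun j hj => h7 j.succ hj, h13⟩)
    refine rel_mono (rel_cons h0 h5) le_rfl (Nat.mul_le_mul_right _ (by omega)) ?_
    have h3 : 2 * (2 * B' * B') * (2 ^ (n + 1) * K ^ 2) ≤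
        (2 ^ (n + 3) * (E * E)) * X ^ 2 := by
      rw [hB', hX]
      calc 2 * (2 * (E * B) * (E * B)) * (2 ^ (n + 1) * K ^ 2)
          = (2 ^ (n + 3) * (E * E)) * (1 * (B * B * (K * K))) := by ring
        _ ≤ (2 ^ (n + 3) * (E * E)) * (4 * (B * B * (K * K))) :=
            Nat.mul_le_mul_left _ (Nat.mul_le_mul_right _ (by norm_num))
        _ = (2 ^ (n + 3) * (E * E)) * (2 * B * K) ^ 2 := by ring
    calc C0 * (2 * (2 * B' * B') * (2 ^ (n + 1) * K ^ 2)) ^ k0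
        ≤ C0 * ((2 ^ (n + 3) * (E * E)) * X ^ 2) ^ k0 :=
          Nat.mul_le_mul_left _ (Nat.pow_le_pow_left h3 _)
      _ = (C0 * (2 ^ (n + 3) * (E * E)) ^ k0) * X ^ (2 * k0) := by
          rw [mul_pow, ← pow_mul, mul_assoc]
      _ ≤ _ := Nat.mul_le_mul (by omega) (Nat.pow_le_pow_right hX1 (by omega))
  -- common factors
  have hfac : ∀ d : Fin n → ℤ, ∃ f : MvPolynomial (Fin (N + 1)) ℂ, d ∈ D →
      (Irreducible f ∧ f.degreeOf 0 ≠ 0 ∧ f ∣ F) ∧ f ∣ G d := by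
    intro d
    by_cases hd : d ∈ D
    · rcases elim h0 hF (hG0 d) (B' := B') (fun i => (hFd i).trans (by
          rw [hB']
          exact Nat.le_mul_of_pos_left _ (by omega))) (fun i => (hG1 d i).trans (by
          rw [hB'])) τ c with ⟨g, hg1, hg2, hg3, hg4⟩ | ⟨R, hR1, hR2, hR3⟩
      · exact ⟨g, fun _ => ⟨⟨hg1, hg4, hg2⟩, hg3⟩⟩
      · exact absurd ⟨d, hd, R, hR1, hR2, hR3⟩ hR
    · exact ⟨0, fun h => absurd h hd⟩
  choose f hf using hfac
  obtain ⟨d₀, hd₀, Df, hDf1, hDf2, hDf3⟩ := Fac_pf N F hF (Fin n → ℤ) D f hDne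
    (fun d hd => (hf d hd).1)
  obtain ⟨⟨hf1, hf2, hf3⟩, -⟩ := hf d₀ hd₀
  have hTr : ∀ d ∈ Df, TrB τ ty c F (f d₀) ((fun d j => pcI u d j) d) := by
    intro d hd
    exact trB_dvd (hG3 d) ((hDf3 d hd).dvd.trans (hf d (hDf1 hd)).2)
  have hDfc : (S + 1) ^ n ≤ 2 * K * B * Df.card := by
    calc (S + 1) ^ n ≤ 2 * K * D.card := hD2
      _ ≤ 2 * K * (F.degreeOf 0 * Df.card) := Nat.mul_le_mul_left _ hDf2
      _ ≤ 2 * K * (B * Df.card) := Nat.mul_le_mul_left _ (Nat.mul_le_mul_right _ (hFd 0))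
      _ = 2 * K * B * Df.card := by ring
  obtain ⟨v₀, r, L, hr, hL, hLf⟩ := h2 τ hτ N ty c (f d₀) h0 hf1 hf2
    (fun h5 h6 => hFX h5 (h6.trans hf3))
  obtain ⟨D', hD'1, hD'2, v₁, r₁, L₁, hr₁, hL₁, -, hbr⟩ := h3 τ hτ N ty c (f d₀) F h0 v₀ r L hr hL
    hLf (Fin n → ℤ) Df (fun d j => pcI u d j) hTr
  have h5 := hzb c S B (2 * K * B * 2 ^ N) u D' F v₁ r₁ L₁ hB
    (Nat.mul_pos (Nat.mul_pos (by omega) hB) (by positivity))
    (fun d hd => hD1 d (hDf1 (hD'1 hd))) (by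
      calc (S + 1) ^ n ≤ 2 * K * B * Df.card := hDfc
        _ ≤ 2 * K * B * (2 ^ N * D'.card) := Nat.mul_le_mul_left _ hD'2
        _ = 2 * K * B * 2 ^ N * D'.card := by ring) hF hFd hFX hr₁ hL₁ hbr
  refine rel_mono h5 le_rfl (Nat.mul_le_mul_right _ (by omega)) ?_
  have h3 : 2 * B * (2 * K * B * 2 ^ N) ≤ 2 ^ (N + 2) * X ^ 2 := by
    rw [hX]
    calc 2 * B * (2 * K * B * 2 ^ N) = 2 ^ (N + 2) * (B * B * K * 1) := by ring
      _ ≤ 2 ^ (N + 2) * (B * B * K * (4 * K)) :=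
          Nat.mul_le_mul_left _ (Nat.mul_le_mul_left _ (by omega))
      _ = 2 ^ (N + 2) * (2 * B * K) ^ 2 := by ring
  calc Cb * (2 * B * (2 * K * B * 2 ^ N)) ^ kb ≤ Cb * (2 ^ (N + 2) * X ^ 2) ^ kb :=
        Nat.mul_le_mul_left _ (Nat.pow_le_pow_left h3 _)
    _ = (Cb * (2 ^ (N + 2)) ^ kb) * X ^ (2 * kb) := by
        rw [mul_pow, ← pow_mul X, mul_assoc]
    _ ≤ _ := Nat.mul_le_mul (by omega) (Nat.pow_le_pow_right hX1 (by omega))

/-- Continuation of the affine branch: the identity holds at all good inner points. -/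
theorem aff_glob (h5 : S_GlobM) (hτ : 0 < τ.im) {ty : Fin (N + 1) → Ty} (h0 : ty 0 ≠ Ty.ell)
    (c : Fin (N + 1) → Fin (N + 1) → ℂ) (u : Fin n → Fin (N + 1) → ℂ) (D : Finset (Fin n → ℤ))
    (F : MvPolynomial (Fin (N + 1)) ℂ) (κ : ℂ) (α v₁ : Fin N → ℂ) (r₁ : ℝ) (hr : 0 < r₁)
    (hbr : ∀ v ∈ ball v₁ r₁, ∀ d ∈ D,
      Gd τ ty (fun i => (Fin.cons (κ + ∑ i, α i * v i) v : Fin (N + 1) → ℂ) i + pcI u d i) ∧
      eval (PT τ ty c (fun i => (Fin.cons (κ + ∑ i, α i * v i) v : Fin (N + 1) → ℂ) i +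
        pcI u d i)) F = 0) :
    ∀ d ∈ D, ∀ v : Fin N → ℂ, Gd τ (fun i : Fin N => ty i.succ) v →
      eval (PT τ ty c (Fin.cons ((κ + pcI u d 0 - ∑ j : Fin N, α j * pcI u d j.succ) +
        ∑ i, α i * v i) v)) F = 0 := by
  intro d hd
  refine h5 τ hτ N ty c F h0 (κ + pcI u d 0 - ∑ j : Fin N, α j * pcI u d j.succ) α
    (fun i => v₁ i + pcI u d i.succ) r₁ hr ?_
  intro v hv
  have h1 : (fun i => v i - pcI u d i.succ) ∈ ball v₁ r₁ := by
    rw [mem_ball, dist_pi_lt_iff hr] at hv ⊢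
    intro i
    have := hv i
    rw [dist_eq_norm] at this ⊢
    rwa [sub_sub, add_comm (pcI u d i.succ) (v₁ i)]
  obtain ⟨h2, h3⟩ := hbr _ h1 d hd
  have h4 : (fun i => (Fin.cons (κ + ∑ i, α i * (v i - pcI u d i.succ))
      (fun i => v i - pcI u d i.succ) : Fin (N + 1) → ℂ) i + pcI u d i) =
      (Fin.cons ((κ + pcI u d 0 - ∑ j : Fin N, α j * pcI u d j.succ) + ∑ i, α i * v i) v :
        Fin (N + 1) → ℂ) := by
    funext i
    refine Fin.cases ?_ (fun i => ?_) i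
    · simp only [Fin.cons_zero, mul_sub, Finset.sum_sub_distrib]
      ring
    · simp only [Fin.cons_succ]
      ring
  rw [h4] at h2 h3
  refine ⟨fun j hj => ?_, h3⟩
  simpa using h2 j.succ hj

/-- the affine case, multiplicative variable -/
theorem aff_mul (h5 : S_GlobM) (h6 : S_FinMu) {N : ℕ} (ty : Fin (N + 1) → Ty)
    (h0 : ty 0 = Ty.mul) (hna : ∀ i : Fin N, ty i.succ ≠ Ty.add) : Aff ty := by
  classical
  have h0' : ty 0 ≠ Ty.ell := by rw [h0]; exact fun h => Ty.noConfusion h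
  refine ⟨N + 2, fun τ hτ n => ⟨1, le_rfl, ?_⟩⟩
  intro c S B K u D F κ α v₁ r₁ hB hK hD hDc hF hFd hr hbr
  have hDne : D.Nonempty := by
    rw [Finset.nonempty_iff_ne_empty]
    rintro rfl
    simp at hDc
  have hg := aff_glob h5 hτ h0' c u D F κ α v₁ r₁ hr hbr
  obtain ⟨hα, ⟨N', hN0, hN1, hN2⟩, hαB, D', hD'1, hD'2, hD'3⟩ := h6 τ hτ N B ty c F α
    (Fin n → ℤ) D (fun d => κ + pcI u d 0 - ∑ j : Fin N, α j * pcI u d j.succ) h0 hna hB hF hFd
    hDne hg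
  set X : ℕ := 2 * B * K with hX
  have hX1 : 1 ≤ X := by
    rw [hX]
    exact Nat.mul_pos (by omega) hK
  have hBX : B ≤ X := by
    rw [hX]
    calc B = B * 1 := (mul_one B).symm
      _ ≤ (2 * B) * K := Nat.mul_le_mul (by omega) hK
  have hNX : N' ≤ X ^ N := hN1.trans (Nat.pow_le_pow_left hBX N)
  have hM1 : N' ≤ 1 * X ^ (N + 2) := by
    rw [one_mul]
    exact hNX.trans (Nat.pow_le_pow_right hX1 (by omega))
  have hM2 : N' * B ≤ 1 * X ^ (N + 2) := by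
    rw [one_mul]
    calc N' * B ≤ X ^ N * X := Nat.mul_le_mul hNX hBX
      _ = X ^ (N + 1) := (pow_succ _ _).symm
      _ ≤ X ^ (N + 2) := Nat.pow_le_pow_right hX1 (by omega)
  have hM3 : X ≤ 1 * X ^ (N + 2) := by
    rw [one_mul]
    calc X = X ^ 1 := (pow_one X).symm
      _ ≤ X ^ (N + 2) := Nat.pow_le_pow_right hX1 (by omega)
  refine ⟨Fin.cons (N' : ℂ) (fun j => -((N' : ℂ) * α j)), ?_, Or.inr (Or.inl ⟨?_, ?_, ?_, ?_⟩)⟩
  · intro h1
    have := congrFun h1 0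
    simp only [Fin.cons_zero, Pi.zero_apply] at this
    exact hN0 (by exact_mod_cast this)
  · intro j
    refine Fin.cases ?_ (fun j => ?_) j
    · intro h
      exact absurd h0 h
    · intro h
      simp only [Fin.cons_succ]
      have h1 : ty j.succ = Ty.ell := by
        have h2 := hna j
        rcases h3 : ty j.succ with _ | _ | _
        · exact absurd h3 h2
        · exact absurd h3 h
        · rfl
      rw [hα j h1, mul_zero, neg_zero]
  · intro j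
    refine Fin.cases ?_ (fun j => ?_) j
    · exact ⟨N', by simp⟩
    · obtain ⟨z, hz⟩ := hN2 j
      refine ⟨-z, ?_⟩
      simp only [Fin.cons_succ, hz]
      push_cast
      ring
  · intro j
    refine Fin.cases ?_ (fun j => ?_) j
    · simp only [Fin.cons_zero, Complex.norm_natCast]
      exact_mod_cast hM1
    · simp only [Fin.cons_succ, norm_neg, norm_mul, Complex.norm_natCast]
      calc (N' : ℝ) * ‖α j‖ ≤ N' * (B : ℝ) :=
            mul_le_mul_of_nonneg_left (hαB j) (Nat.cast_nonneg N')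
        _ = ((N' * B : ℕ) : ℝ) := by push_cast; ring
        _ ≤ _ := by exact_mod_cast hM2
  · have h1 := card_le (S := S) (fun s => ∃ z : ℤ,
      ∑ j, (Fin.cons (N' : ℂ) (fun j => -((N' : ℂ) * α j)) : Fin (N + 1) → ℂ) j * pcI u s j =
        (z : ℂ) * (2 * Real.pi * Complex.I)) D' (fun d hd => hD d (hD'1 hd)) (by
      intro d hd d' hd'
      obtain ⟨z, hz⟩ := hD'3 d hd d' hd'
      refine ⟨N' * z, ?_⟩
      have h3 : ∑ j, (Fin.cons (N' : ℂ) (fun j => -((N' : ℂ) * α j)) : Fin (N + 1) → ℂ) j *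
          pcI u (d - d') j = N' * ((κ + pcI u d 0 - ∑ j : Fin N, α j * pcI u d j.succ) -
            (κ + pcI u d' 0 - ∑ j : Fin N, α j * pcI u d' j.succ)) := by
        rw [Fin.sum_univ_succ]
        simp only [Fin.cons_zero, Fin.cons_succ, pc_sub]
        simp only [neg_mul, Finset.sum_neg_distrib, mul_sub, Finset.sum_sub_distrib,
          Finset.mul_sum, mul_add, mul_assoc]
        ring
      rw [h3, hz]
      push_cast
      ring)
    calc (S + 1) ^ n ≤ K * D.card := hDc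
      _ ≤ K * (B * D'.card) := Nat.mul_le_mul_left _ hD'2
      _ = (B * K) * D'.card := by ring
      _ ≤ X * D'.card := Nat.mul_le_mul_right _ (by rw [hX, mul_assoc]; omega)
      _ ≤ _ := Nat.mul_le_mul hM3 (h1.trans (ncard_mono (Nat.mul_le_mul_right _ (by omega))
          fun _ h => h))

end I_StepMu

/-- Z11: the induction step, multiplicative variable -/
theorem StepMu_pf (h1 : S_OpM) (h2 : S_BranchM) (h3 : S_SplitM) (h4 : S_CntM) (h5 : S_GlobM)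
    (h6 : S_FinMu) : S_StepMu := by
  intro N ty h0 hna hZ
  exact I_StepMu.step h1 h2 h3 h4 ty (by rw [h0]; exact fun h => Ty.noConfusion h)
    (I_StepMu.aff_mul h5 h6 ty h0 hna) hZ

end Pool.Agent.Work.MP_8da9ea_nt.MX
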