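import Pool.Agent.Work.MP_8da9ea_nt.MX.StmtsT

/-!
# Mixed block, item TreeQ
-/

set_option autoImplicit false
set_option linter.unusedSectionVars false

namespace Pool.Agent.Work.MP_8da9ea_nt.MX

open MvPolynomial Pool.Agent.Work.MP_327059_nt.GL Pool.Agent.Work.MP_8da9ea_nt.S
  Pool.Agent.Work.MP_8da9ea_nt.EB

namespace I_TreeQ

theorem zero_mem (τ : ℂ) : (0 : ℂ) ∈ Lam τ := mem_Lam.2 ⟨0, 0, by simp⟩

theorem sub_mem {τ a b : ℂ} (ha : a ∈ Lam τ) (hb : b ∈ Lam τ) : a - b ∈ Lam τ := by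
  obtain ⟨m, n, rfl⟩ := mem_Lam.1 ha
  obtain ⟨m', n', rfl⟩ := mem_Lam.1 hb
  exact mem_Lam.2 ⟨m - m', n - n', by push_cast; ring⟩

variable {n : ℕ} {ι : Type} [Fintype ι] {ty : ι → Ty} {b : ι → ℂ} {c : ι → ι → ℂ}

theorem pc_add (u : Fin n → ι → ℂ) (s t : Fin n → ℤ) (j : ι) :
    pcI u (s + t) j = pcI u s j + pcI u t j := by
  unfold pcI
  rw [← Finset.sum_add_distrib]
  refine Finset.sum_congr rfl fun i _ => ?_
  rw [Pi.add_apply]
  push_cast
  ring

theorem pc_sub (u : Fin n → ι → ℂ) (s t : Fin n → ℤ) (j : ι) :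
    pcI u (s - t) j = pcI u s j - pcI u t j := by
  unfold pcI
  rw [← Finset.sum_sub_distrib]
  refine Finset.sum_congr rfl fun i _ => ?_
  rw [Pi.sub_apply]
  push_cast
  ring

theorem pc_neg (u : Fin n → ι → ℂ) (s : Fin n → ℤ) (j : ι) :
    pcI u (-s) j = -pcI u s j := by
  unfold pcI
  rw [← Finset.sum_neg_distrib]
  refine Finset.sum_congr rfl fun i _ => ?_
  rw [Pi.neg_apply]
  push_cast
  ring

theorem pc_zero (u : Fin n → ι → ℂ) (j : ι) : pcI u 0 j = 0 := by
  unfold pcI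
  simp

theorem pc_single (u : Fin n → ι → ℂ) (i : Fin n) (j : ι) :
    pcI u (Pi.single i 1) j = u i j := by
  unfold pcI
  rw [Finset.sum_eq_single i]
  · simp
  · intro k _ hk
    simp [Pi.single_eq_of_ne hk]
  · intro h
    exact absurd (Finset.mem_univ i) h

theorem ne_zero_of {τ : ℂ} {u : Fin n → ι → ℂ} {s : Fin n → ℤ} {j : ι}
    (h : pcI u s j ∉ Lam τ) : s ≠ 0 := by
  intro h0
  rw [h0, pc_zero] at h
  exact h (zero_mem τ)

theorem sizP_mono {σ : Type} {h h' : ℝ} {P : MvPolynomial σ ℤ} (hh : h ≤ h') (hP : SizP h P) :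
    SizP h' P := ⟨hP.1.trans hh, hP.2.trans (Real.exp_le_exp.2 hh)⟩

theorem siz_mono {h h' : ℝ} {V : Qua n ι} (hh : h ≤ h') (hV : SizQ h V) : SizQ h' V :=
  ⟨sizP_mono hh hV.A, sizP_mono hh hV.B, sizP_mono hh hV.Z, sizP_mono hh hV.N⟩

theorem sizP_X {σ : Type} (i : σ) : SizP 1 (X i : MvPolynomial σ ℤ) := by
  classical
  refine ⟨?_, ?_⟩
  · rw [totalDegree_X]
    norm_num
  · unfold len
    rw [support_X, Finset.sum_singleton, coeff_X]
    simp

theorem sizP_one {σ : Type} : SizP 1 (1 : MvPolynomial σ ℤ) := by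
  classical
  refine ⟨?_, ?_⟩
  · rw [totalDegree_one]
    norm_num
  · unfold len
    rw [support_one, Finset.sum_singleton, coeff_zero_one]
    simp

theorem sizP_zero {σ : Type} : SizP 1 (0 : MvPolynomial σ ℤ) := by
  refine ⟨?_, ?_⟩
  · rw [totalDegree_zero]
    norm_num
  · unfold len
    rw [support_zero, Finset.sum_empty]
    positivity

theorem siz_base (j : ι) (i : Fin n) : SizQ 1 (baseQ (n := n) j i) :=
  ⟨sizP_X _, sizP_X _, sizP_one, sizP_zero⟩

theorem cor_single (τ μ : ℂ) (u : Fin n → ι → ℂ) (i : Fin n) (j : ι) :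
    cor τ μ u (Pi.single i 1) j = 0 := by
  unfold cor
  rw [pc_single, Finset.sum_eq_single i]
  · simp
  · intro k _ hk
    simp [Pi.single_eq_of_ne hk]
  · intro h
    exact absurd (Finset.mem_univ i) h

theorem cor_add (τ μ : ℂ) (u : Fin n → ι → ℂ) (s t : Fin n → ℤ) (j : ι) :
    cor τ μ u s j + cor τ μ u t j + (ze τ μ (pcI u s j + pcI u t j) - ze τ μ (pcI u s j) -
      ze τ μ (pcI u t j)) = cor τ μ u (s + t) j := by
  unfold cor
  rw [pc_add]
  have h : ∑ i, (((s + t) i : ℤ) : ℂ) * ze τ μ (u i j) =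
      ∑ i, (s i : ℂ) * ze τ μ (u i j) + ∑ i, (t i : ℂ) * ze τ μ (u i j) := by
    rw [← Finset.sum_add_distrib]
    refine Finset.sum_congr rfl fun i _ => ?_
    rw [Pi.add_apply]
    push_cast
    ring
  rw [h]
  ring

theorem ze_neg' (τ μ z : ℂ) : ze τ μ (-z) = -ze τ μ z := by
  unfold ze
  rw [Pool.Agent.Work.MP_8da9ea_nt.zt_neg]
  ring

theorem cor_neg {τ μ : ℂ} (hz : ∀ z : ℂ, ze τ μ (-z) = -ze τ μ z) (u : Fin n → ι → ℂ)
    (s : Fin n → ℤ) (j : ι) : cor τ μ u (-s) j = -cor τ μ u s j := by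
  unfold cor
  rw [pc_neg, hz]
  have h : ∑ i, (((-s) i : ℤ) : ℂ) * ze τ μ (u i j) = -∑ i, (s i : ℂ) * ze τ μ (u i j) := by
    rw [← Finset.sum_neg_distrib]
    refine Finset.sum_congr rfl fun i _ => ?_
    rw [Pi.neg_apply]
    push_cast
    ring
  rw [h]
  ring

theorem val_base {τ μ : ℂ} (u : Fin n → ι → ℂ) (j : ι) (hj : ty j = Ty.ell) (i : Fin n)
    (h : pcI u (Pi.single i 1) j ∉ Lam τ) :
    ValQ τ μ (ptM τ μ ty b c u) (pcI u (Pi.single i 1) j) (cor τ μ u (Pi.single i 1) j)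
      (baseQ j i) := by
  refine ⟨h, ?_, ?_, ?_, ?_⟩
  · simp [baseQ]
  · rw [pc_single]
    simp [baseQ, ptM, PN, hj]
  · rw [pc_single]
    simp [baseQ, ptM, hj]
  · rw [cor_single]
    simp [baseQ]

/-- The triple of `s` exists with size `h`. -/
def Ok (τ μ : ℂ) (ty : ι → Ty) (b : ι → ℂ) (c : ι → ι → ℂ) (u : Fin n → ι → ℂ) (j : ι) (h : ℝ) (s : Fin n → ℤ) : Prop :=
  ∃ V : Qua n ι, VQ j s V ∧ ValQ τ μ (ptM τ μ ty b c u) (pcI u s j) (cor τ μ u s j) V ∧ SizQ h V

theorem ok_mono {τ μ : ℂ} {u : Fin n → ι → ℂ} {j : ι} {h h' : ℝ} {s : Fin n → ℤ}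
    (hh : h ≤ h') (H : Ok τ μ ty b c u j h s) : Ok τ μ ty b c u j h' s := by
  obtain ⟨V, h1, h2, h3⟩ := H
  exact ⟨V, h1, h2, siz_mono hh h3⟩

theorem ok_neg (A : S_AddQ) (B : S_AddSizQ) {τ μ : ℂ} (hτ : 0 < τ.im) (hμ : μ ≠ 0)
    {u : Fin n → ι → ℂ} {j : ι} {h : ℝ} {s : Fin n → ℤ} (h0 : 0 ≤ h)
    (H : Ok τ μ ty b c u j h s) : Ok τ μ ty b c u j h (-s) := by
  obtain ⟨V, h1, h2, h3⟩ := H
  refine ⟨negQ V, VQ.neg s V h1, ?_, (B ι n h h V V h0 h0 h3 h3).1⟩
  rw [pc_neg, cor_neg (ze_neg' τ μ)]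
  exact (A ι τ μ hτ hμ n _ _ _ _ _ V V h2 h2).1

theorem ok_add (A : S_AddQ) (B : S_AddSizQ) {τ μ : ℂ} (hτ : 0 < τ.im) (hμ : μ ≠ 0)
    {u : Fin n → ι → ℂ} {j : ι} {h h' : ℝ} {s t : Fin n → ℤ} (h0 : 0 ≤ h) (h0' : 0 ≤ h')
    (H : Ok τ μ ty b c u j h s) (H' : Ok τ μ ty b c u j h' t) (hs : pcI u (s + t) j ∉ Lam τ)
    (ht : pcI u (s - t) j ∉ Lam τ) : Ok τ μ ty b c u j (4 * (h + h') + 6) (s + t) := by
  obtain ⟨V, h1, h2, h3⟩ := H
  obtain ⟨W, k1, k2, k3⟩ := H'
  refine ⟨addQ V W, VQ.add s t V W h1 k1 (ne_zero_of hs) (ne_zero_of ht), ?_,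
    (B ι n h h' V W h0 h0' h3 k3).2⟩
  have h4 := (A ι τ μ hτ hμ n _ _ _ _ _ V W h2 k2).2
  rw [cor_add, ← pc_add, ← pc_sub] at h4
  exact h4 hs ht

/-- Unit vectors with signs. -/
theorem ok_unit (A : S_AddQ) (B : S_AddSizQ) {j : ι} (hty : ty j = Ty.ell) {τ μ : ℂ}
    (hτ : 0 < τ.im) (hμ : μ ≠ 0) {u : Fin n → ι → ℂ} {K : ℕ} (hK : 1 ≤ K)
    (hu : ∀ s : Fin n → ℤ, s ≠ 0 → (∀ i, |s i| ≤ (K : ℤ)) → pcI u s j ∉ Lam τ) (i : Fin n)
    (σ : ℤ) (hσ : σ = 1 ∨ σ = -1) : Ok τ μ ty b c u j 1 (Pi.single i σ) := by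
  have h1 : Ok τ μ ty b c u j 1 (Pi.single i 1) := by
    refine ⟨baseQ j i, VQ.base i, val_base u j hty i ?_, siz_base j i⟩
    refine hu _ ?_ ?_
    · intro h
      have := congrFun h i
      simp at this
    · intro k
      by_cases hk : k = i
      · subst hk
        simp only [Pi.single_eq_same, abs_one]
        exact_mod_cast hK
      · rw [Pi.single_eq_of_ne hk, abs_zero]
        positivity
  rcases hσ with rfl | rfl
  · exact h1
  · have h2 := ok_neg A B hτ hμ (zero_le_one) h1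
    rwa [← Pi.single_neg] at h2

theorem ok_small (A : S_AddQ) (B : S_AddSizQ) {j : ι} (hty : ty j = Ty.ell) (hn : 2 ≤ n)
    {τ μ : ℂ} (hτ : 0 < τ.im) (hμ : μ ≠ 0) {u : Fin n → ι → ℂ} {K : ℕ} (hK : 2 ≤ K)
    (hu : ∀ s : Fin n → ℤ, s ≠ 0 → (∀ i, |s i| ≤ (K : ℤ)) → pcI u s j ∉ Lam τ) :
    ∀ (k : ℕ) (s : Fin n → ℤ), ∑ l, (s l).natAbs ≤ k → s ≠ 0 → (∀ i, |s i| ≤ (K : ℤ)) →
      Ok τ μ ty b c u j (20 ^ k) s := by
  have hu2 : ∀ v : Fin n → ℤ, (∃ l, v l ≠ 0) → (∀ l, |v l| ≤ 2) → pcI u v j ∉ Lam τ := by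
    intro v hv hb
    refine hu v ?_ ?_
    · rintro rfl
      obtain ⟨l, hl⟩ := hv
      exact hl rfl
    · intro l
      refine (hb l).trans ?_
      exact_mod_cast hK
  intro k
  induction k with
  | zero =>
    intro s hs h0
    exfalso
    apply h0
    funext l
    have h1 : ∑ l, (s l).natAbs = 0 := Nat.le_zero.1 hs
    rw [Finset.sum_eq_zero_iff] at h1
    have h2 := h1 l (Finset.mem_univ l)
    simpa using h2
  | succ k ih =>
    intro s hs h0 hb
    have hi : ∃ i, s i ≠ 0 := by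
      by_contra hcon
      push Not at hcon
      exact h0 (funext hcon)
    obtain ⟨i, hi⟩ := hi
    obtain ⟨σ, hσ, hσs⟩ : ∃ σ : ℤ, (σ = 1 ∨ σ = -1) ∧ 1 ≤ σ * s i := by
      rcases lt_or_gt_of_ne hi with h | h
      · exact ⟨-1, Or.inr rfl, by omega⟩
      · exact ⟨1, Or.inl rfl, by omega⟩
    have hU := ok_unit (b := b) (c := c) (u := u) (j := j) A B hty hτ hμ (by omega : 1 ≤ K) hu i σ hσ
    have h20 : (1 : ℝ) ≤ 20 ^ k := one_le_pow₀ (by norm_num)
    have h20' : (20 : ℝ) ^ (k + 1) = 20 * 20 ^ k := by ring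
    have hst : s = (s - Pi.single i σ) + Pi.single i σ := by
      rw [sub_add_cancel]
    by_cases ht0 : s - Pi.single i σ = 0
    · rw [sub_eq_zero] at ht0
      rw [ht0]
      exact ok_mono (by rw [h20']; linarith) hU
    by_cases ht1 : s - Pi.single i σ = Pi.single i σ
    · have hne : ∃ q : Fin n, q ≠ i := by
        have : Nontrivial (Fin n) := Fin.nontrivial_iff_two_le.2 hn
        exact exists_ne i
      obtain ⟨q, hq⟩ := hne
      have hV1 := ok_unit (b := b) (c := c) (u := u) (j := j) A B hty hτ hμ (by omega : 1 ≤ K) hu q 1 (Or.inl rfl)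
      have hV2 := ok_unit (b := b) (c := c) (u := u) (j := j) A B hty hτ hμ (by omega : 1 ≤ K) hu q (-1) (Or.inr rfl)
      have key : ∀ ρ : ℤ, (ρ = 1 ∨ ρ = -1) →
          pcI u (Pi.single i σ + Pi.single q ρ) j ∉ Lam τ := by
        intro ρ hρ
        refine hu2 _ ⟨i, ?_⟩ ?_
        · rw [Pi.add_apply, Pi.single_eq_same, Pi.single_eq_of_ne (Ne.symm hq), add_zero]
          rcases hσ with rfl | rfl <;> norm_num
        · intro l
          rw [Pi.add_apply, Pi.single_apply, Pi.single_apply, abs_le]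
          rcases hσ with rfl | rfl <;> rcases hρ with rfl | rfl <;> split_ifs <;> norm_num
      have hneg : ∀ ρ : ℤ, (Pi.single i σ : Fin n → ℤ) - Pi.single q ρ
          = Pi.single i σ + Pi.single q (-ρ) := by
        intro ρ
        rw [Pi.single_neg]
        ring
      have h1 := ok_add A B hτ hμ zero_le_one zero_le_one hU hV1 (key 1 (Or.inl rfl))
        (by rw [hneg]; exact key (-1) (Or.inr rfl))
      have h2 := ok_add A B hτ hμ zero_le_one zero_le_one hU hV2 (key (-1) (Or.inr rfl))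
        (by rw [hneg]; exact key (- -1) (Or.inl (by norm_num)))
      have h3 : (Pi.single i σ + Pi.single q 1 : Fin n → ℤ) + (Pi.single i σ + Pi.single q (-1))
          = s := by
        rw [Pi.single_neg]
        have h4 : s = Pi.single i σ + Pi.single i σ := by
          rw [← sub_eq_iff_eq_add]
          exact ht1
        rw [h4]
        ring
      have h5 := ok_add A B hτ hμ (by norm_num) (by norm_num) h1 h2
        (by rw [h3]; exact hu s h0 hb) (by
          refine hu2 _ ⟨q, ?_⟩ ?_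
          · simp only [Pi.sub_apply, Pi.add_apply, Pi.single_eq_same,
              Pi.single_eq_of_ne hq]
            norm_num
          · intro l
            simp only [Pi.sub_apply, Pi.add_apply, Pi.single_apply]
            split_ifs <;> norm_num)
      rw [h3] at h5
      have hk1 : 1 ≤ k := by
        by_contra hcon
        have hk0 : k = 0 := by omega
        subst hk0
        have h6 : (s i).natAbs ≤ ∑ l, (s l).natAbs :=
          Finset.single_le_sum (f := fun l => (s l).natAbs) (fun l _ => Nat.zero_le _)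
            (Finset.mem_univ i)
        have h7 := congrFun ht1 i
        rw [Pi.sub_apply, Pi.single_eq_same] at h7
        rcases hσ with rfl | rfl <;> omega
      refine ok_mono ?_ h5
      have h8 : (20 : ℝ) ≤ 20 ^ k := by
        calc (20 : ℝ) = 20 ^ 1 := by norm_num
          _ ≤ 20 ^ k := pow_le_pow_right₀ (by norm_num) hk1
      rw [h20']
      linarith
    · have hT : Ok τ μ ty b c u j (20 ^ k) (s - Pi.single i σ) := by
        refine ih _ ?_ ht0 ?_
        · have h1 : ∑ l, ((s - Pi.single i σ : Fin n → ℤ) l).natAbs < ∑ l, (s l).natAbs := by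
            apply Finset.sum_lt_sum
            · intro l _
              rw [Pi.sub_apply, Pi.single_apply]
              split_ifs with h
              · subst h
                rcases hσ with rfl | rfl <;> omega
              · rw [sub_zero]
            · refine ⟨i, Finset.mem_univ i, ?_⟩
              rw [Pi.sub_apply, Pi.single_eq_same]
              rcases hσ with rfl | rfl <;> omega
          omega
        · intro l
          have h2 := hb l
          rw [Pi.sub_apply, Pi.single_apply]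
          split_ifs with h
          · subst h
            rw [abs_le] at h2 ⊢
            rcases hσ with rfl | rfl <;> omega
          · rw [sub_zero]
            exact h2
      have h3 := ok_add A B hτ hμ (by positivity) zero_le_one hT hU
        (by rw [← hst]; exact hu s h0 hb) (by
          refine hu _ ?_ ?_
          · rw [sub_ne_zero]
            exact ht1
          · intro l
            have h2 := hb l
            rw [Pi.sub_apply, Pi.sub_apply, Pi.single_apply]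
            split_ifs with h
            · subst h
              rw [abs_le] at h2 ⊢
              rcases hσ with rfl | rfl <;> omega
            · rw [sub_zero, sub_zero]
              exact h2)
      rw [← hst] at h3
      refine ok_mono ?_ h3
      rw [h20']
      linarith

/-- A vector that is good for halving. -/
theorem exists_half {τ : ℂ} {u : Fin n → ι → ℂ} {j : ι} (i0 : Fin n)
    (hu : ∀ s : Fin n → ℤ, s ≠ 0 → (∀ i, |s i| ≤ 20) → pcI u s j ∉ Lam τ) (s : Fin n → ℤ) :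
    ∃ t : Fin n → ℤ, (∀ l, s l / 2 ≤ t l ∧ t l ≤ s l / 2 + 3) ∧ pcI u t j ∉ Lam τ ∧
      pcI u (s - t) j ∉ Lam τ ∧ t - (s - t) ≠ 0 := by
  let t : Fin 4 → Fin n → ℤ := fun k l => s l / 2 + if l = i0 then ((k : ℕ) : ℤ) else 0
  have ht : ∀ k l, t k l = s l / 2 + if l = i0 then ((k : ℕ) : ℤ) else 0 := by
    intro k l
    rfl
  by_contra hcon
  push Not at hcon
  have hP : ∀ k : Fin 4, ∃ c : Fin 3, (c = 0 → pcI u (t k) j ∈ Lam τ) ∧
      (c = 1 → pcI u (s - t k) j ∈ Lam τ) ∧ (c = 2 → t k - (s - t k) = 0) := by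
    intro k
    by_cases h0 : pcI u (t k) j ∈ Lam τ
    · exact ⟨0, fun _ => h0, fun h => absurd h (by decide), fun h => absurd h (by decide)⟩
    by_cases h1 : pcI u (s - t k) j ∈ Lam τ
    · exact ⟨1, fun h => absurd h (by decide), fun _ => h1, fun h => absurd h (by decide)⟩
    · refine ⟨2, fun h => absurd h (by decide), fun h => absurd h (by decide), fun _ => ?_⟩
      refine hcon (t k) ?_ h0 h1
      intro l
      rw [ht]
      have hk := k.2
      split_ifs <;> omega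
  choose f hf using hP
  obtain ⟨a, b, hab, hfab⟩ := Fintype.exists_ne_map_eq_of_card_lt f (by simp)
  have hab' : (a : ℕ) ≠ (b : ℕ) := fun h => hab (Fin.ext h)
  have ha := a.2
  have hb := b.2
  have hd : pcI u (t a - t b) j ∉ Lam τ := by
    refine hu _ ?_ ?_
    · intro h
      have h1 := congrFun h i0
      rw [Pi.sub_apply, ht, ht, if_pos rfl, if_pos rfl, Pi.zero_apply] at h1
      omega
    · intro l
      rw [Pi.sub_apply, ht, ht, abs_le]
      split_ifs <;> omega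
  obtain ⟨ha0, ha1, ha2⟩ := hf a
  obtain ⟨hb0, hb1, hb2⟩ := hf b
  rw [← hfab] at hb0 hb1 hb2
  have hc : f a = 0 ∨ f a = 1 ∨ f a = 2 := by
    have : ∀ c : Fin 3, c = 0 ∨ c = 1 ∨ c = 2 := by decide
    exact this (f a)
  rcases hc with h | h | h
  · apply hd
    rw [pc_sub]
    exact sub_mem (ha0 h) (hb0 h)
  · apply hd
    have h1 : t a - t b = (s - t b) - (s - t a) := by ring
    rw [h1, pc_sub]
    exact sub_mem (hb1 h) (ha1 h)
  · have h1 := congrFun (ha2 h) i0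
    have h2 := congrFun (hb2 h) i0
    rw [Pi.sub_apply, Pi.sub_apply, ht, if_pos rfl, Pi.zero_apply] at h1 h2
    omega

theorem ok_large (A : S_AddQ) (B : S_AddSizQ) (i0 : Fin n) {τ μ : ℂ} (hτ : 0 < τ.im)
    (hμ : μ ≠ 0) {u : Fin n → ι → ℂ} {j : ι}
    (hu : ∀ s : Fin n → ℤ, s ≠ 0 → (∀ i, |s i| ≤ 20) → pcI u s j ∉ Lam τ)
    (C : ℝ) (hC : 20 ≤ C)
    (hsm : ∀ s : Fin n → ℤ, s ≠ 0 → (∀ i, |s i| ≤ 20) → Ok τ μ ty b c u j C s) :
    ∀ (T : ℕ) (s : Fin n → ℤ), 1 ≤ T → (∀ i, |s i| ≤ (T : ℤ)) → pcI u s j ∉ Lam τ →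
      Ok τ μ ty b c u j (C * (T : ℝ) ^ 10) s := by
  intro T
  induction T using Nat.strong_induction_on with
  | _ T ih =>
    intro s hT hs hns
    have hT1 : (1 : ℝ) ≤ (T : ℝ) := by exact_mod_cast hT
    have hT10 : (1 : ℝ) ≤ (T : ℝ) ^ 10 := one_le_pow₀ hT1
    by_cases h20 : T ≤ 20
    · refine ok_mono ?_ (hsm s (ne_zero_of hns) ?_)
      · nlinarith
      · intro i
        refine (hs i).trans ?_
        exact_mod_cast h20
    · obtain ⟨t, ht, h1, h2, h3⟩ := exists_half (u := u) (j := j) i0 hu s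
      have hT' : 3 * T / 4 < T := by omega
      have hT'1 : 1 ≤ 3 * T / 4 := by omega
      have hb1 : ∀ l, |t l| ≤ ((3 * T / 4 : ℕ) : ℤ) := by
        intro l
        have h4 := hs l
        have h5 := ht l
        rw [abs_le] at h4 ⊢
        omega
      have hb2 : ∀ l, |(s - t) l| ≤ ((3 * T / 4 : ℕ) : ℤ) := by
        intro l
        have h4 := hs l
        have h5 := ht l
        rw [Pi.sub_apply, abs_le]
        rw [abs_le] at h4
        omega
      have k1 := ih _ hT' t hT'1 hb1 h1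
      have k2 := ih _ hT' (s - t) hT'1 hb2 h2
      have hst : t + (s - t) = s := by ring
      have h0 : (0 : ℝ) ≤ C * ((3 * T / 4 : ℕ) : ℝ) ^ 10 := by positivity
      have k3 := ok_add A B hτ hμ h0 h0 k1 k2 (by rw [hst]; exact hns) (by
        refine hu _ h3 ?_
        intro l
        have h5 := ht l
        rw [Pi.sub_apply, Pi.sub_apply, abs_le]
        omega)
      rw [hst] at k3
      refine ok_mono ?_ k3
      have h6 : ((3 * T / 4 : ℕ) : ℝ) ≤ 3 / 4 * T := by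
        have h7 : 4 * (3 * T / 4) ≤ 3 * T := Nat.mul_div_le (3 * T) 4
        have h8 : (4 : ℝ) * ((3 * T / 4 : ℕ) : ℝ) ≤ 3 * T := by exact_mod_cast h7
        linarith
      have h9 : ((3 * T / 4 : ℕ) : ℝ) ^ 10 ≤ (3 / 4 * (T : ℝ)) ^ 10 :=
        pow_le_pow_left₀ (by positivity) h6 10
      rw [mul_pow] at h9
      have h10 : C * ((3 * T / 4 : ℕ) : ℝ) ^ 10 ≤ C * ((3 / 4) ^ 10 * (T : ℝ) ^ 10) :=
        mul_le_mul_of_nonneg_left h9 (by linarith)
      have h11 : (20 : ℝ) ≤ C * (T : ℝ) ^ 10 := by nlinarith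
      have h12 : C * ((3 / 4 : ℝ) ^ 10 * (T : ℝ) ^ 10) = (3 / 4) ^ 10 * (C * (T : ℝ) ^ 10) := by
        ring
      rw [h12] at h10
      have h13 : ((3 : ℝ) / 4) ^ 10 ≤ 6 / 100 := by norm_num
      have h14 : ((3 : ℝ) / 4) ^ 10 * (C * (T : ℝ) ^ 10) ≤ 6 / 100 * (C * (T : ℝ) ^ 10) :=
        mul_le_mul_of_nonneg_right h13 (by linarith)
      linarith

end I_TreeQ

open I_TreeQ in
/-- T2 (trees). -/
theorem TreeQ_pf (A : S_AddQ) (B : S_AddSizQ) : S_TreeQ := by
  intro ι _ n hn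
  have hC : (20 : ℝ) ≤ 20 ^ (n * 20) := by
    calc (20 : ℝ) = 20 ^ 1 := by norm_num
      _ ≤ 20 ^ (n * 20) := pow_le_pow_right₀ (by norm_num) (by omega)
  refine ⟨20 ^ (n * 20), 20, by linarith, ?_⟩
  intro τ μ hτ hμ ty b c j hty u hu T s hT hs hns
  have hu' : ∀ s : Fin n → ℤ, s ≠ 0 → (∀ i, |s i| ≤ 20) → pcI u s j ∉ Lam τ := by
    intro s h1 h2
    exact hu s h1 (by simpa using h2)
  refine ok_large A B ⟨0, by omega⟩ hτ hμ hu' _ hC ?_ T s hT hs hns
  intro s h0 hb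
  refine ok_small A B hty hn hτ hμ (by norm_num : 2 ≤ 20) hu (n * 20) s ?_ h0 (by simpa using hb)
  calc ∑ l, (s l).natAbs ≤ ∑ _l : Fin n, 20 := by
        apply Finset.sum_le_sum
        intro l _
        have := hb l
        rw [abs_le] at this
        omega
    _ = n * 20 := by simp

end Pool.Agent.Work.MP_8da9ea_nt.MX
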