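import Pool.Agent.Work.MP_8da9ea_nt.MX.StmtsZ
import Pool.Agent.Work.MP_8da9ea_nt.EB.I_ZEE
import Pool.Agent.Work.MP_8da9ea_nt.EB.I_ZStepE
import Pool.Agent.Work.MP_8da9ea_nt.EB.I_OpA
import Pool.Agent.Work.MP_8da9ea_nt.EB.I_Op1
import Pool.Agent.Work.MP_8da9ea_nt.EB.I_Pop
import Pool.Agent.Work.MP_8da9ea_nt.EB.I_Fac
import Pool.Agent.Work.MP_8da9ea_nt.EB.I_Branch
import Pool.Agent.Work.MP_8da9ea_nt.EB.I_Surj
import Pool.Agent.Work.MP_8da9ea_nt.EB.I_Split
import Pool.Agent.Work.MP_8da9ea_nt.EB.I_Cnt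
import Pool.Agent.Work.MP_8da9ea_nt.EB.I_Lin
import Pool.Agent.Work.MP_8da9ea_nt.EB.I_Glob
import Pool.Agent.Work.MP_8da9ea_nt.EB.I_Fin
import Pool.Agent.Work.MP_327059_nt.Bd.B12

/-!
# Mixed block, Z13: the zero estimate for all labels
-/

set_option autoImplicit false

namespace Pool.Agent.Work.MP_8da9ea_nt.MX

open MvPolynomial Metric Pool.Agent.Work.MP_327059_nt.GL Pool.Agent.Work.MP_8da9ea_nt.S
  Pool.Agent.Work.MP_8da9ea_nt.EB

namespace I_ZMall

/-- The elliptic zero estimate. -/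
theorem zee : S_ZEE :=
  ZEE_pf (ZStepE_pf (OpA_pf Op1_pf) Pop_pf Fac_pf (Branch_pf Surj_pf) Split_pf (Cnt_pf Surj_pf)
    Lin_pf Glob_pf Fin_pf pr_ZRes)

/-- Elliptic variables only. -/
theorem allEll (m : ℕ) (ty : Fin m → Ty) (hty : ∀ i, ty i = Ty.ell) : ZM ty := by
  obtain ⟨k, hk⟩ := zee m
  refine ⟨k, fun τ hτ n => ?_⟩
  obtain ⟨C, hC, hk⟩ := hk τ hτ n
  refine ⟨C, hC, ?_⟩
  intro c S B K a u A F hB hK hA hcard hF hdeg hz
  obtain ⟨w, hw0, hwI, hwn, hwc⟩ := hk S B K a u A F hB hK hA hcard hF hdeg (by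
    intro s hs
    obtain ⟨h1, h2⟩ := hz s hs
    refine ⟨fun j => h1 j (hty j), ?_⟩
    have e : PT τ ty c (fun j => a j + pcI u s j) = fun j => wp 1 τ (a j + pc u s j) := by
      funext j
      unfold PT
      rw [hty j]
      rfl
    rw [e] at h2
    exact h2)
  refine ⟨w, hw0, Or.inl ⟨fun j hj => absurd (hty j) hj, hwI, hwn, hwc⟩⟩

theorem exists_equiv {ι : Type} [Fintype ι] {N : ℕ} (h : Fintype.card ι = N + 1) (i₀ : ι) :
    ∃ e : Fin (N + 1) ≃ ι, e 0 = i₀ := by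
  classical
  have e₁ : Fin (N + 1) ≃ ι := (Fintype.equivFinOfCardEq h).symm
  refine ⟨e₁.trans (Equiv.swap (e₁ 0) i₀), ?_⟩
  rw [Equiv.trans_apply, Equiv.swap_apply_left]

theorem noAdd (h1 : S_ZMeq) (h2 : S_StepMu) (N : ℕ) : ∀ (ι : Type) [Fintype ι] (ty : ι → Ty),
    Fintype.card ι = N → (∀ i, ty i ≠ Ty.add) → ZM ty := by
  induction N with
  | zero =>
    intro ι _ ty hN hty
    have e : Fin 0 ≃ ι := (Fintype.equivFinOfCardEq hN).symm
    exact h1 (Fin 0) ι e ty (allEll 0 _ (fun i => i.elim0))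
  | succ N ih =>
    intro ι _ ty hN hty
    by_cases hm : ∃ i₀, ty i₀ = Ty.mul
    · obtain ⟨i₀, hi₀⟩ := hm
      obtain ⟨e, he⟩ := exists_equiv hN i₀
      refine h1 (Fin (N + 1)) ι e ty (h2 N (fun i => ty (e i)) ?_ ?_ ?_)
      · show ty (e 0) = Ty.mul
        rw [he]
        exact hi₀
      · exact fun i => hty _
      · exact ih (Fin N) _ (Fintype.card_fin N) (fun i => hty _)
    · push Not at hm
      have e : Fin (N + 1) ≃ ι := (Fintype.equivFinOfCardEq hN).symm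
      refine h1 (Fin (N + 1)) ι e ty (allEll (N + 1) _ (fun i => ?_))
      have h3 := hm (e i)
      have h4 := hty (e i)
      revert h3 h4
      cases ty (e i)
      · exact fun _ h => absurd rfl h
      · exact fun h _ => absurd rfl h
      · exact fun _ _ => rfl

end I_ZMall

open I_ZMall in
theorem ZMall_pf (h1 : S_ZMeq) (h2 : S_StepMu) (h3 : S_StepA) : S_ZMall := by
  have key : ∀ (N : ℕ) (ι : Type) [Fintype ι] (ty : ι → Ty), Fintype.card ι = N → ZM ty := by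
    intro N
    induction N with
    | zero =>
      intro ι _ ty hN
      refine noAdd h1 h2 0 ι ty hN (fun i => ?_)
      have : Nonempty ι := ⟨i⟩
      exact absurd hN Fintype.card_ne_zero
    | succ N ih =>
      intro ι _ ty hN
      by_cases hm : ∃ i₀, ty i₀ = Ty.add
      · obtain ⟨i₀, hi₀⟩ := hm
        obtain ⟨e, he⟩ := exists_equiv hN i₀
        refine h1 (Fin (N + 1)) ι e ty (h3 N (fun i => ty (e i)) ?_ ?_)
        · show ty (e 0) = Ty.add
          rw [he]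
          exact hi₀
        · exact ih (Fin N) _ (Fintype.card_fin N)
      · push Not at hm
        exact noAdd h1 h2 (N + 1) ι ty hN hm
  intro ι _ ty
  exact key _ ι ty rfl

end Pool.Agent.Work.MP_8da9ea_nt.MX
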