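import Pool.Agent.Work.MP_8da9ea_nt.MX.StmtsZ

/-!
# Mixed block, Z12: reindexing
-/

set_option autoImplicit false

namespace Pool.Agent.Work.MP_8da9ea_nt.MX

open MvPolynomial Pool.Agent.Work.MP_327059_nt.GL Pool.Agent.Work.MP_8da9ea_nt.S
  Pool.Agent.Work.MP_8da9ea_nt.EB

namespace I_ZMeq

variable {ι κ : Type} [Fintype ι] [Fintype κ]

theorem pt_eq (e : ι ≃ κ) (τ : ℂ) (ty : κ → Ty) (c : κ → κ → ℂ) (p : κ → ℂ) (i : ι) :
    PT τ (fun i => ty (e i)) (fun i j => c (e i) (e j)) (fun i => p (e i)) i = PT τ ty c p (e i) := by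
  unfold PT
  cases h : ty (e i)
  · simp only [h]
    congr 1
    exact e.sum_comp (fun j => if ty j = Ty.ell then c (e i) j * zt 1 τ (p j) else 0)
  · simp only [h]
  · simp only [h]

theorem eval_eq (e : ι ≃ κ) (τ : ℂ) (ty : κ → Ty) (c : κ → κ → ℂ) (p : κ → ℂ)
    (F : MvPolynomial κ ℂ) :
    eval (PT τ (fun i => ty (e i)) (fun i j => c (e i) (e j)) (fun i => p (e i)))
      (rename e.symm F) = eval (PT τ ty c p) F := by
  rw [eval_rename]
  congr 1
  congr 1
  funext k
  have h := pt_eq e τ ty c p (e.symm k)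
  rw [Equiv.apply_symm_apply] at h
  exact h

theorem pcI_eq (e : ι ≃ κ) {n : ℕ} (u : Fin n → κ → ℂ) (s : Fin n → ℤ) (i : ι) :
    pcI (fun k i => u k (e i)) s i = pcI u s (e i) := rfl

end I_ZMeq

open I_ZMeq in
/-- Item ZMeq. -/
theorem ZMeq_pf : S_ZMeq := by
  classical
  intro ι κ _ _ e ty h
  obtain ⟨k, hk⟩ := h
  refine ⟨k, fun τ hτ n => ?_⟩
  obtain ⟨C, hC, hk⟩ := hk τ hτ n
  refine ⟨C, hC, ?_⟩
  intro c S B K a u A F hB hK hA hcard hF hdeg hz
  obtain ⟨w, hw0, hw⟩ := hk (fun i j => c (e i) (e j)) S B K (fun i => a (e i))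
    (fun k i => u k (e i)) A (rename e.symm F) hB hK hA hcard
    (fun h0 => hF (rename_injective _ e.symm.injective (by rw [h0, map_zero])))
    (fun i => by
      have h1 := degreeOf_rename_of_injective (p := F) e.symm.injective (e i)
      rw [Equiv.symm_apply_apply] at h1
      rw [h1]
      exact hdeg (e i))
    (fun s hs => by
      obtain ⟨h1, h2⟩ := hz s hs
      refine ⟨fun j hj => h1 (e j) hj, ?_⟩
      rw [← h2]
      exact eval_eq e τ ty c (fun j => a j + pcI u s j) F)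
  have hsum : ∀ f : κ → ℂ, ∑ j, w (e.symm j) * f j = ∑ i, w i * f (e i) := fun f => by
    rw [← e.sum_comp]
    refine Finset.sum_congr rfl fun i _ => ?_
    rw [Equiv.symm_apply_apply]
  refine ⟨fun j => w (e.symm j), fun h0 => hw0 ?_, ?_⟩
  · funext i
    have := congrFun h0 (e i)
    rw [Equiv.symm_apply_apply] at this
    exact this
  rcases hw with ⟨h1, h2, h3, h4⟩ | ⟨h1, h2, h3, h4⟩ | ⟨h1, h2, h4⟩
  · refine Or.inl ⟨fun j hj => h1 _ (by simpa using hj), fun j => h2 _, fun j => h3 _, ?_⟩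
    refine h4.trans (Nat.mul_le_mul_left _ (le_of_eq ?_))
    congr 1
    ext s
    simp only [Set.mem_setOf_eq, hsum, pcI_eq]
  · refine Or.inr (Or.inl ⟨fun j hj => h1 _ (by simpa using hj), fun j => h2 _,
      fun j => h3 _, ?_⟩)
    refine h4.trans (Nat.mul_le_mul_left _ (le_of_eq ?_))
    congr 1
    ext s
    simp only [Set.mem_setOf_eq, hsum, pcI_eq]
  · refine Or.inr (Or.inr ⟨fun j hj => h1 _ (by simpa using hj), fun j hj => ?_, ?_⟩)
    · have h5 := h2 (e.symm j) (by simpa using hj)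
      simp only [Equiv.apply_symm_apply] at h5
      rw [← h5]
      exact hsum (fun i => c i j)
    · refine h4.trans (Nat.mul_le_mul_left _ (le_of_eq ?_))
      congr 1
      ext s
      simp only [Set.mem_setOf_eq, hsum, pcI_eq]

end Pool.Agent.Work.MP_8da9ea_nt.MX
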