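import Pool.Agent.Work.MP_8da9ea_nt.MX.I_AddQ
import Pool.Agent.Work.MP_8da9ea_nt.MX.I_AddSizQ
import Pool.Agent.Work.MP_8da9ea_nt.MX.I_AdmF
import Pool.Agent.Work.MP_8da9ea_nt.MX.I_BranchM
import Pool.Agent.Work.MP_8da9ea_nt.MX.I_CntM
import Pool.Agent.Work.MP_8da9ea_nt.MX.I_CoefM
import Pool.Agent.Work.MP_8da9ea_nt.MX.I_CritM
import Pool.Agent.Work.MP_8da9ea_nt.MX.I_DenM
import Pool.Agent.Work.MP_8da9ea_nt.MX.I_Ech
import Pool.Agent.Work.MP_8da9ea_nt.MX.I_FTIeq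
import Pool.Agent.Work.MP_8da9ea_nt.MX.I_FinA
import Pool.Agent.Work.MP_8da9ea_nt.MX.I_FinMu
import Pool.Agent.Work.MP_8da9ea_nt.MX.I_GlobM
import Pool.Agent.Work.MP_8da9ea_nt.MX.I_MeasM
import Pool.Agent.Work.MP_8da9ea_nt.MX.I_NZM
import Pool.Agent.Work.MP_8da9ea_nt.MX.I_Op1M
import Pool.Agent.Work.MP_8da9ea_nt.MX.I_OpM
import Pool.Agent.Work.MP_8da9ea_nt.MX.I_PEMval
import Pool.Agent.Work.MP_8da9ea_nt.MX.I_PsiM
import Pool.Agent.Work.MP_8da9ea_nt.MX.I_RelPtM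
import Pool.Agent.Work.MP_8da9ea_nt.MX.I_SchwM
import Pool.Agent.Work.MP_8da9ea_nt.MX.I_SplitM
import Pool.Agent.Work.MP_8da9ea_nt.MX.I_Star
import Pool.Agent.Work.MP_8da9ea_nt.MX.I_StepA
import Pool.Agent.Work.MP_8da9ea_nt.MX.I_StepMM
import Pool.Agent.Work.MP_8da9ea_nt.MX.I_StepMu
import Pool.Agent.Work.MP_8da9ea_nt.MX.I_TIM
import Pool.Agent.Work.MP_8da9ea_nt.MX.I_Tan
import Pool.Agent.Work.MP_8da9ea_nt.MX.I_TreeQ
import Pool.Agent.Work.MP_8da9ea_nt.MX.I_TrueQ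
import Pool.Agent.Work.MP_8da9ea_nt.MX.I_ZMall
import Pool.Agent.Work.MP_8da9ea_nt.MX.I_ZMeq
import Pool.Agent.Work.MP_8da9ea_nt.MX.I_ZUpQ
import Pool.Agent.Work.MP_327059_nt.GL.Asm

/-!
# Mixed block: assembly of the parts Z and T
-/

set_option autoImplicit false

namespace Pool.Agent.Work.MP_8da9ea_nt.MX

open Pool.Agent.Work.MP_327059_nt.GL

theorem x_Op1M : S_Op1M := Op1M_pf DenM_pf

theorem x_OpM : S_OpM := OpM_pf x_Op1M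

theorem x_StepA : S_StepA := StepA_pf x_OpM BranchM_pf SplitM_pf (CntM_pf DenM_pf) GlobM_pf
  (FinA_pf DenM_pf)

theorem x_StepMu : S_StepMu := StepMu_pf x_OpM BranchM_pf SplitM_pf (CntM_pf DenM_pf) GlobM_pf
  (FinMu_pf DenM_pf)

theorem x_ZMall : S_ZMall := ZMall_pf ZMeq_pf x_StepMu x_StepA

theorem x_TreeQ : S_TreeQ := TreeQ_pf AddQ_pf AddSizQ_pf

theorem x_TrueQ : S_TrueQ := TrueQ_pf AddQ_pf

theorem x_CritM : S_CritM := CritM_pf x_TreeQ x_TrueQ ZUpQ_pf PEMval_pf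

theorem x_NZM : S_NZM := NZM_pf FTIeq_pf x_ZMall

theorem x_CoefM : S_CoefM := CoefM_pf FTIeq_pf

theorem x_RelPtM : S_RelPtM := RelPtM_pf x_TreeQ

theorem x_StepMM : S_StepMM := StepMM_pf AdmF_pf x_CoefM x_RelPtM SchwM_pf x_CritM x_NZM

theorem x_MeasM : S_MeasM := MeasM_pf x_StepMM

theorem x_TIM : S_TIM := TIM_pf (PsiM_pf x_PLm) x_CritM x_NZM x_MeasM

theorem x_Star : S_Star := Star_pf x_TIM Tan_pf Ech_pf

end Pool.Agent.Work.MP_8da9ea_nt.MX
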