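import Pool.Agent.Work.MP_8da9ea_nt.EB.Defs

/-!
# Mixed block: definitions

Coordinate functions of three kinds, labelled by `Ty`: additive, multiplicative and elliptic. A point
has parameters `p : ι → ℂ`; its coordinates are `p_i + ∑_j c_ij ζ(p_j)` (additive), `e^{p_i}`
(multiplicative) and `℘(p_i)` (elliptic).
-/

set_option autoImplicit false

namespace Pool.Agent.Work.MP_8da9ea_nt.MX

open MvPolynomial Pool.Agent.Work.MP_327059_nt.GL Pool.Agent.Work.MP_8da9ea_nt.S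
  Pool.Agent.Work.MP_8da9ea_nt.EB

/-- Labels of the coordinate functions. -/
inductive Ty
  | add
  | mul
  | ell
deriving DecidableEq

section

variable {ι : Type} [Fintype ι]

/-- The coordinates of the point with parameters `p` (lattice functions not normalised). -/
noncomputable def PT (τ : ℂ) (ty : ι → Ty) (c : ι → ι → ℂ) (p : ι → ℂ) : ι → ℂ := fun i =>
  match ty i with
  | Ty.add => p i + ∑ j, (if ty j = Ty.ell then c i j * zt 1 τ (p j) else 0)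
  | Ty.mul => Complex.exp (p i)
  | Ty.ell => wp 1 τ (p i)

/-- The coordinates of the point with parameters `p`, normalised lattice functions. -/
noncomputable def PN (τ μ : ℂ) (ty : ι → Ty) (c : ι → ι → ℂ) (p : ι → ℂ) : ι → ℂ := fun i =>
  match ty i with
  | Ty.add => p i + ∑ j, (if ty j = Ty.ell then c i j * ze τ μ (p j) else 0)
  | Ty.mul => Complex.exp (p i)
  | Ty.ell => xe τ μ (p i)

/-- No elliptic parameter is a lattice point. -/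
def Gd (τ : ℂ) (ty : ι → Ty) (p : ι → ℂ) : Prop := ∀ j, ty j = Ty.ell → p j ∉ Lam τ

/-- The sign changes: `σ_e(p)` has the same coordinates as `p`. -/
noncomputable def sgI (τ : ℂ) (ty : ι → Ty) (c : ι → ι → ℂ) (e : ι → Bool) (p : ι → ℂ) : ι → ℂ :=
  fun i =>
    match ty i with
    | Ty.add => p i + ∑ j, (if ty j = Ty.ell then (1 - sg (e j)) * (c i j * zt 1 τ (p j)) else 0)
    | Ty.mul => p i
    | Ty.ell => sg (e i) * p i

/-- Zeros of `F` at `p + h` give zeros of `G` at `p`. -/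
def TrA (τ : ℂ) (ty : ι → Ty) (c : ι → ι → ℂ) (F G : MvPolynomial ι ℂ) (h : ι → ℂ) : Prop :=
  ∀ p : ι → ℂ, Gd τ ty p → Gd τ ty (fun i => p i + h i) →
    eval (PT τ ty c (fun i => p i + h i)) F = 0 → eval (PT τ ty c p) G = 0

/-- Zeros of `G` at `p` give zeros of `F` at `σ_e(p) + h` for some signs `e`. -/
def TrB (τ : ℂ) (ty : ι → Ty) (c : ι → ι → ℂ) (F G : MvPolynomial ι ℂ) (h : ι → ℂ) : Prop :=
  ∀ p : ι → ℂ, Gd τ ty p → Gd τ ty (fun i => p i + h i) → Gd τ ty (fun i => p i - h i) →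
    eval (PT τ ty c p) G = 0 →
      ∃ e : ι → Bool, eval (PT τ ty c (fun i => sgI τ ty c e p i + h i)) F = 0

/-- `∑ s_i u_ij`. -/
noncomputable def pcI {n : ℕ} (u : Fin n → ι → ℂ) (s : Fin n → ℤ) (j : ι) : ℂ :=
  ∑ i, (s i : ℂ) * u i j

/-- A relation between the parameters with many solutions `s`, `|s_i| ≤ S'`. -/
def Rel (τ : ℂ) (ty : ι → Ty) (c : ι → ι → ℂ) {n : ℕ} (u : Fin n → ι → ℂ) (S S' X : ℕ) : Prop :=
  ∃ w : ι → ℂ, w ≠ 0 ∧
    (((∀ j, ty j ≠ Ty.ell → w j = 0) ∧ (∀ j, IsI τ (w j)) ∧ (∀ j, ‖w j‖ ≤ (X : ℝ)) ∧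
        (S + 1) ^ n ≤ X * Set.ncard {s : Fin n → ℤ | (∀ i, |s i| ≤ (S' : ℤ)) ∧
          ∑ j, w j * pcI u s j ∈ Lam τ}) ∨
      ((∀ j, ty j ≠ Ty.mul → w j = 0) ∧ (∀ j, ∃ z : ℤ, w j = (z : ℂ)) ∧
        (∀ j, ‖w j‖ ≤ (X : ℝ)) ∧
        (S + 1) ^ n ≤ X * Set.ncard {s : Fin n → ℤ | (∀ i, |s i| ≤ (S' : ℤ)) ∧
          ∃ z : ℤ, ∑ j, w j * pcI u s j = (z : ℂ) * (2 * Real.pi * Complex.I)}) ∨
      ((∀ j, ty j ≠ Ty.add → w j = 0) ∧ (∀ j, ty j = Ty.ell → ∑ i, w i * c i j = 0) ∧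
        (S + 1) ^ n ≤ X * Set.ncard {s : Fin n → ℤ | (∀ i, |s i| ≤ (S' : ℤ)) ∧
          ∑ j, w j * pcI u s j = 0}))

/-- The zero estimate for the labels `ty`. -/
def ZM (ty : ι → Ty) : Prop := ∃ k : ℕ, ∀ τ : ℂ, 0 < τ.im → ∀ n : ℕ, ∃ C : ℕ, 1 ≤ C ∧
  ∀ (c : ι → ι → ℂ) (S B K : ℕ) (a : ι → ℂ) (u : Fin n → ι → ℂ) (A : Finset (Fin n → ℤ))
    (F : MvPolynomial ι ℂ), 1 ≤ B → 1 ≤ K → (∀ s ∈ A, ∀ i, 0 ≤ s i ∧ s i ≤ (S : ℤ)) →
    (S + 1) ^ n ≤ K * A.card → F ≠ 0 → (∀ i, F.degreeOf i ≤ B) →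
    (∀ s ∈ A, Gd τ ty (fun j => a j + pcI u s j) ∧
      eval (PT τ ty c (fun j => a j + pcI u s j)) F = 0) →
    Rel τ ty c u S (k * S) (C * (2 * B * K) ^ k)

end

end Pool.Agent.Work.MP_8da9ea_nt.MX
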