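import Pool.Agent.Work.MP_8da9ea_nt.MX.DefsH

/-!
# Mixed block, lossless version: definitions
-/

set_option autoImplicit false

namespace Pool.Agent.Work.MP_8da9ea_nt.MX

open MvPolynomial Pool.Agent.Work.MP_327059_nt.GL Pool.Agent.Work.MP_8da9ea_nt.S
  Pool.Agent.Work.MP_8da9ea_nt.EB

/-! ## Transcendence in several variables -/

open Classical in
/-- The auxiliary polynomial at given values `v` of the functions. -/
noncomputable def AFv {ι : Type} [Fintype ι] {G W : ℕ} (p : (Fin G → ι → Fin W) → ℤ)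
    (v : Fin G → ι → ℂ) : ℂ :=
  ∑ x : Fin G → ι → Fin W, (p x : ℂ) * ∏ r, ∏ i, v r i ^ (x r i : ℕ)

/-- The arithmetic part of the admissibility conditions. -/
structure AdB {ι : Type} [Fintype ι] (Q : ℕ) (τ μ : ℂ) (ty : ι → Ty) (b : ι → ℂ) : Prop where
  ft : FTI Q (nb μ ty b)
  mul : ∀ w : ι → ℤ, (∀ j, ty j ≠ Ty.mul → w j = 0) → ∑ j, (w j : ℂ) * b j = 0 → w = 0
  ell : ∀ g : ι → ℂ, (∀ j, ty j ≠ Ty.ell → g j = 0) → (∀ j, IsE τ (g j)) →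
    ∑ j, g j * b j = 0 → g = 0

/-- The additive functions `z`, `Z(β_l z)`. -/
noncomputable def AW (τ μ : ℂ) {n m₂ : ℕ} (β : Fin m₂ → ℂ) (x : Fin n → ℂ) :
    Fin n → Option (Fin m₂) → ℂ := fun i o =>
  o.elim (x i) (fun l => ze τ μ (μ * (β l * x i)))

theorem AW_eq (τ μ : ℂ) {n m₂ : ℕ} (β : Fin m₂ → ℂ) (x : Fin n → ℂ) :
    AV τ μ (le_refl m₂) β x = AW τ μ β x := by
  funext i o
  cases o <;> rfl

/-- The numbers `y_io`, `e^{b_j x_i}`, `X(μ β_l x_i)`. -/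
noncomputable def valF (τ μ : ℂ) {n m₁ m₂ : ℕ} (b₁ : Fin m₁ → ℂ) (b₂ : Fin m₂ → ℂ) (x : Fin n → ℂ)
    (y : Fin n → Option (Fin m₂) → ℂ) :
    (Fin n × Option (Fin m₂)) ⊕ (Fin n × Fin m₁) ⊕ (Fin n × Fin m₂) → ℂ :=
  Sum.elim (fun q => y q.1 q.2) (Sum.elim (fun q => Complex.exp (b₁ q.2 * x q.1))
    (fun q => xe τ μ (μ * (b₂ q.2 * x q.1))))

/-! ## The measure -/

/-- There is a relation of controlled degree and height between the values of the full family at every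
point `z_s = ∑ s_i x_i`. -/
def RelProp {ι : Type} [Fintype ι] (c₁ : ℕ) (τ μ : ℂ) (ty : ι → Ty) (b : ι → ℂ) {n : ℕ}
    (x : Fin n → ℂ) : Prop :=
  ∃ S₀ : ℕ, ∀ S : ℕ, S₀ ≤ S → ∀ s : Fin n → ℤ, s ≠ 0 → (∀ i, |s i| ≤ (S : ℤ)) →
    ∃ R : MvPolynomial (fI ty) ℤ, R ≠ 0 ∧ (∀ j, R.degreeOf j ≤ S ^ c₁) ∧
      (∀ d, |((R.coeff d : ℤ) : ℝ)| ≤ Real.exp ((S : ℝ) ^ (c₁ + 12))) ∧
      aeval (PN τ μ (fty ty) (fc ty) (fun j => fb ty b j * cmb s x)) R = 0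

/-- The labels multiplicative, elliptic. -/
def ty2 (m₁ m₂ : ℕ) : Fin m₁ ⊕ Fin m₂ → Ty := Sum.elim (fun _ => Ty.mul) (fun _ => Ty.ell)

/-- The numbers `b₁_j`, `μ b₂_j`. -/
noncomputable def bb2 (μ : ℂ) {m₁ m₂ : ℕ} (b₁ : Fin m₁ → ℂ) (b₂ : Fin m₂ → ℂ) :
    Fin m₁ ⊕ Fin m₂ → ℂ := Sum.elim b₁ (fun j => μ * b₂ j)

/-- The span over `k` of the values of the polynomials of degree at most `D`. -/
noncomputable def spD (k : IntermediateField ℚ ℂ) {σ : Type} (θ : σ → ℂ) (D : ℕ) : Submodule k ℂ :=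
  Submodule.span k {y | ∃ P : MvPolynomial σ k, P.totalDegree ≤ D ∧ y = aeval θ P}

/-- The rational combination `∑ w_i A_i`. -/
noncomputable def cQ {n : ℕ} {κ : Type} (w : Fin n → ℚ) (A : Fin n → κ → ℂ) : κ → ℂ :=
  fun l => ∑ i, (w i : ℂ) * A i l

/-- The complex combination `∑ v_i A_i`. -/
noncomputable def cC {n : ℕ} {κ : Type} (v : Fin n → ℂ) (A : Fin n → κ → ℂ) : κ → ℂ :=
  fun l => ∑ i, v i * A i l

/-! ## Ranks -/

/-- The target for the ranks (lossless version). -/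
def tgtF (f : Bool) (m m' : ℕ) : ℕ := if f then m + 2 * m' else m + m'

end Pool.Agent.Work.MP_8da9ea_nt.MX
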