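import Pool.Agent.Work.MP_8da9ea_nt.MX.DefsT
import Pool.Agent.Work.MP_8da9ea_nt.FR.Stmts

/-!
# Mixed block, Part G (ranks of the forms): definitions
-/

set_option autoImplicit false

namespace Pool.Agent.Work.MP_8da9ea_nt.MX

open MvPolynomial Pool.Agent.Work.MP_327059_nt.GL Pool.Agent.Work.MP_8da9ea_nt.S
  Pool.Agent.Work.MP_8da9ea_nt.EB

/-! ## The form of the second kind on all points -/

/-- The quasi-period of `u ∈ Λ` (extended real linearly): `ζ(v + u) = ζ(v) + qp τ u`. -/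
noncomputable def qp (τ u : ℂ) : ℂ := u * et τ - ((u.im / τ.im : ℝ) : ℂ) * kap

/-- The form of the second kind, corrected at the lattice points. It is additive in `u` for ALL
derivations. -/
noncomputable def etC (τ μ : ℂ) (δ : Derivation ℚ ℂ ℂ) (u : ℂ) : ℂ :=
  open Classical in if u ∈ Lam τ then δ (μ * qp τ u) else etf τ μ δ u

/-- `η̃_δ(u) = η_δ(u) + α (λ_δ(u) - δ(u/μ))`. -/
noncomputable def etT (τ μ α : ℂ) (δ : Derivation ℚ ℂ ℂ) (u : ℂ) : ℂ :=
  etC τ μ δ u + α * (lam τ μ δ u - δ (u / μ))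

/-- The number `α` is such that `η̃(g u) = ḡ η̃(u)` for the endomorphisms `g`. -/
def Alp (τ μ α : ℂ) : Prop :=
  IsAlgebraic ℚ α ∧ ∀ g : ℂ, IsE τ g → ∀ (δ : Derivation ℚ ℂ ℂ) (u : ℂ),
    etT τ μ α δ (g * u) = (starRingEnd ℂ) g * etT τ μ α δ u

/-- `η̃` as a linear map of the derivation. -/
noncomputable def etL (τ μ α u : ℂ) : Derivation ℚ ℂ ℂ →ₗ[ℂ] ℂ where
  toFun δ := etT τ μ α δ u
  map_add' a b := by
    unfold etT etC etf lam
    split_ifs
    · simp only [Derivation.add_apply]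
      ring
    · simp only [Derivation.add_apply]
      ring
  map_smul' c a := by
    unfold etT etC etf lam
    split_ifs
    · simp only [Derivation.smul_apply, smul_eq_mul, RingHom.id_apply]
      ring
    · simp only [Derivation.smul_apply, smul_eq_mul, RingHom.id_apply]
      ring

/-- `λ` as a linear map of the derivation. -/
noncomputable def laL (τ μ u : ℂ) : Derivation ℚ ℂ ℂ →ₗ[ℂ] ℂ where
  toFun δ := lam τ μ δ u
  map_add' a b := by
    unfold lam
    split_ifs
    · ring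
    · simp only [Derivation.add_apply]
      ring
  map_smul' c a := by
    unfold lam
    split_ifs
    · simp only [RingHom.id_apply, smul_eq_mul]
      ring
    · simp only [Derivation.smul_apply, smul_eq_mul, RingHom.id_apply]
      ring

/-- `δ ↦ δ(e^u)/e^u` as a linear map. -/
noncomputable def thL (u : ℂ) : Derivation ℚ ℂ ℂ →ₗ[ℂ] ℂ where
  toFun δ := FR.th δ u
  map_add' a b := by
    simp only [FR.th, Derivation.add_apply]
    ring
  map_smul' c a := by
    simp only [FR.th, Derivation.smul_apply, smul_eq_mul, RingHom.id_apply]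
    ring

/-- `δ ↦ δ(y)` as a linear map. -/
noncomputable def dL (y : ℂ) : Derivation ℚ ℂ ℂ →ₗ[ℂ] ℂ where
  toFun δ := δ y
  map_add' a b := by
    simp only [Derivation.add_apply]
  map_smul' c a := by
    simp only [Derivation.smul_apply, smul_eq_mul, RingHom.id_apply]

/-! ## The forms at a point -/

/-- The index set of the forms at a point: `δ(y)`; `th(b_j y)`; `λ(μ b_j y)`; `η̃(μ b_j y)`. -/
abbrev J3 (m : ℕ) : Type := Option (Fin m ⊕ (Fin m ⊕ Fin m))

/-- The forms at the point `y` (the last ones are replaced by `0` if `f = false`). All of them are additive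
in `y`. -/
noncomputable def FO (f : Bool) (τ μ α : ℂ) {m : ℕ} (b : Fin m → ℂ) (y : ℂ) :
    J3 m → Derivation ℚ ℂ ℂ →ₗ[ℂ] ℂ := fun o =>
  o.elim (dL y) (Sum.elim (fun j => thL (b j * y)) (Sum.elim (fun j => laL τ μ (μ * (b j * y)))
    (fun j => if f then etL τ μ α (μ * (b j * y)) else 0)))

/-- The additive forms `δ(y)`, `η̃(μ b_j y)` at the point `y`. -/
noncomputable def FA (f : Bool) (τ μ α : ℂ) {m : ℕ} (b : Fin m → ℂ) (y : ℂ) :
    Option (Fin m) → Derivation ℚ ℂ ℂ →ₗ[ℂ] ℂ := fun o =>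
  o.elim (dL y) (fun j => if f then etL τ μ α (μ * (b j * y)) else 0)

/-- A family of forms as one linear map. -/
noncomputable def fam {J : Type} (ω : J → Derivation ℚ ℂ ℂ →ₗ[ℂ] ℂ) :
    Derivation ℚ ℂ ℂ →ₗ[ℂ] (J → ℂ) := LinearMap.pi ω

/-- `β ↦ ∑ v_i β_i`. -/
noncomputable def mvJ {n : ℕ} {J : Type} (v : Fin n → ℂ) : (Fin n → J → ℂ) →ₗ[ℂ] (J → ℂ) where
  toFun β := fun j => ∑ i, v i * β i j
  map_add' a b := by
    funext j
    simp only [Pi.add_apply, mul_add, Finset.sum_add_distrib]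
  map_smul' c a := by
    funext j
    simp only [Pi.smul_apply, smul_eq_mul, RingHom.id_apply]
    rw [Finset.mul_sum]
    exact Finset.sum_congr rfl fun i _ => by ring

/-- The rank of the forms `∑ v_i FO(x_i)` on the derivations killing `v` and `b`. -/
noncomputable def rkM (f : Bool) (τ μ α : ℂ) {n m : ℕ} (b : Fin m → ℂ) (x v : Fin n → ℂ) : ℕ :=
  Module.finrank ℂ ((TT v ⊓ TT b).map
    ((mvJ v).comp (LinearMap.pi fun i => fam (FO f τ μ α b (x i)))))

/-- The target for the ranks. -/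
def tgt (f : Bool) (m : ℕ) : ℕ :=
  if f then (if m = 1 then 3 else 3 * m - (m + 1) / 2) else 2 * m

/-- `ψ(M)`. -/
def psi (M : ℕ) : ℕ := if M ≤ 2 then M else (M + 1) / 2

/-! ## Relations -/

/-- The field `ℚ` inside `ℂ`. -/
noncomputable abbrev kQ : IntermediateField ℚ ℂ := ⊥

/-- The point `∑ ξ_ij b_j x_i`. -/
noncomputable def ptG {k : IntermediateField ℚ ℂ} {n m : ℕ} (b : Fin m → ℂ) (x : Fin n → ℂ)
    (ξ : Fin n → Fin m → k) : ℂ := ∑ i, ∑ j, (ξ i j : ℂ) * (b j * x i)

/-- The values belonging to the relations `G₁` (toric) and `G₂` (elliptic). -/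
noncomputable def GV (τ μ : ℂ) {n m : ℕ} (b : Fin m → ℂ) (x : Fin n → ℂ)
    (G₁ : Submodule kQ (Fin n → Fin m → kQ)) (G₂ : Submodule (kf τ) (Fin n → Fin m → kf τ)) :
    Set ℂ :=
  {y | ∃ ξ ∈ G₁, y = Complex.exp (ptG b x ξ)} ∪
  {y | ∃ ξ ∈ G₂, μ * ptG b x ξ ∉ Lam τ ∧ y = xe τ μ (μ * ptG b x ξ)}

/-- Annihilator of the conjugate space. -/
def annB {k : IntermediateField ℚ ℂ} {n m : ℕ} (G : Submodule k (Fin n → Fin m → k)) :
    Submodule ℂ (Fin n → Fin m → ℂ) where
  carrier := {β | ∀ ξ ∈ G, ∑ i, ∑ j, (starRingEnd ℂ) (ξ i j : ℂ) * β i j = 0}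
  add_mem' {a b} ha hb ξ hξ := by
    have h1 := ha ξ hξ
    have h2 := hb ξ hξ
    simp only [Pi.add_apply, mul_add, Finset.sum_add_distrib, h1, h2, add_zero]
  zero_mem' ξ _ := by simp
  smul_mem' c a ha ξ hξ := by
    have h1 := ha ξ hξ
    have h2 : ∑ i, ∑ j, (starRingEnd ℂ) (ξ i j : ℂ) * (c • a) i j =
        c * ∑ i, ∑ j, (starRingEnd ℂ) (ξ i j : ℂ) * a i j := by
      rw [Finset.mul_sum]
      refine Finset.sum_congr rfl fun i _ => ?_
      rw [Finset.mul_sum]
      refine Finset.sum_congr rfl fun j _ => ?_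
      simp only [Pi.smul_apply, smul_eq_mul]
      ring
    rw [h2, h1, mul_zero]

/-- The same in the place of the forms `FA` (`0` at the place `none`; everything `0` if `f = false`). -/
def annF (f : Bool) {k : IntermediateField ℚ ℂ} {n m : ℕ} (G : Submodule k (Fin n → Fin m → k)) :
    Submodule ℂ (Fin n → Option (Fin m) → ℂ) where
  carrier := {β | (∀ i, β i none = 0) ∧ (f = false → β = 0) ∧
    (fun i j => β i (some j)) ∈ annB G}
  add_mem' {a b} ha hb := by
    refine ⟨fun i => ?_, fun h => ?_, ?_⟩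
    · simp only [Pi.add_apply, ha.1 i, hb.1 i, add_zero]
    · rw [ha.2.1 h, hb.2.1 h, add_zero]
    · exact (annB G).add_mem ha.2.2 hb.2.2
  zero_mem' := ⟨fun _ => rfl, fun _ => rfl, (annB G).zero_mem⟩
  smul_mem' c a ha := by
    refine ⟨fun i => ?_, fun h => ?_, ?_⟩
    · simp only [Pi.smul_apply, ha.1 i, smul_zero]
    · rw [ha.2.1 h, smul_zero]
    · exact (annB G).smul_mem c ha.2.2

/-- A subspace spanned by its vectors with coordinates in `F`. -/
def RatF (F : IntermediateField ℚ ℂ) {n : ℕ} {J : Type} (S : Submodule ℂ (Fin n → J → ℂ)) : Prop :=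
  S ≤ Submodule.span ℂ {s | s ∈ S ∧ ∀ i j, s i j ∈ F}

/-! ## Transcendence degree -/

/-- `E` has transcendence degree at most `e`. -/
def TrE (E : IntermediateField ℚ ℂ) (e : ℕ) : Prop := ¬ HasTrdeg E (e + 1)

/-- The transcendence degree of `E(a)` over `E`, as a rank. -/
noncomputable def rkD (E : IntermediateField ℚ ℂ) {J : Type} (a : J → ℂ) : ℕ :=
  Module.finrank ℂ ((DK E).map (fam fun l => dL (a l)))

/-- The additive functions `z`, `Z(β_l z)`, `l < m₃`, at the points `x_i`. -/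
noncomputable def AV (τ μ : ℂ) {n m₂ m₃ : ℕ} (h : m₃ ≤ m₂) (β : Fin m₂ → ℂ) (x : Fin n → ℂ) :
    Fin n → Option (Fin m₃) → ℂ := fun i o =>
  o.elim (x i) (fun l => ze τ μ (μ * (β (Fin.castLE h l) * x i)))

end Pool.Agent.Work.MP_8da9ea_nt.MX
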