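import Pool.Agent.Work.MP_8da9ea_nt.MX.StmtsG

/-!
# Mixed block, version with separate tuples `b` (toric, `m` numbers) and `b'` (elliptic, `m'` numbers): definitions
-/

set_option autoImplicit false

namespace Pool.Agent.Work.MP_8da9ea_nt.MX

open MvPolynomial Pool.Agent.Work.MP_327059_nt.GL Pool.Agent.Work.MP_8da9ea_nt.S
  Pool.Agent.Work.MP_8da9ea_nt.EB

/-- The index set of the forms at a point: `δ(y)`; `th(b_j y)`; `λ(μ b'_j y)`; `η̃(μ b'_j y)`. -/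
abbrev J4 (m m' : ℕ) : Type := Option (Fin m ⊕ (Fin m' ⊕ Fin m'))

/-- The forms at the point `y` (the last ones are replaced by `0` if `f = false`). -/
noncomputable def FO2 (f : Bool) (τ μ α : ℂ) {m m' : ℕ} (b : Fin m → ℂ) (b' : Fin m' → ℂ) (y : ℂ) :
    J4 m m' → Derivation ℚ ℂ ℂ →ₗ[ℂ] ℂ := fun o =>
  o.elim (dL y) (Sum.elim (fun j => thL (b j * y)) (Sum.elim (fun j => laL τ μ (μ * (b' j * y)))
    (fun j => if f then etL τ μ α (μ * (b' j * y)) else 0)))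

theorem FO2_none (f : Bool) (τ μ α : ℂ) {m m' : ℕ} (b : Fin m → ℂ) (b' : Fin m' → ℂ) (y : ℂ) :
    FO2 f τ μ α b b' y none = FO f τ μ α b y none := rfl

theorem FO2_inl (f : Bool) (τ μ α : ℂ) {m m' : ℕ} (b : Fin m → ℂ) (b' : Fin m' → ℂ) (y : ℂ)
    (j : Fin m) : FO2 f τ μ α b b' y (some (Sum.inl j)) = FO f τ μ α b y (some (Sum.inl j)) := rfl

theorem FO2_inr (f : Bool) (τ μ α : ℂ) {m m' : ℕ} (b : Fin m → ℂ) (b' : Fin m' → ℂ) (y : ℂ)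
    (q : Fin m' ⊕ Fin m') :
    FO2 f τ μ α b b' y (some (Sum.inr q)) = FO f τ μ α b' y (some (Sum.inr q)) := rfl

/-- additivity -/
theorem FO2_add (h : S_FOadd) (f : Bool) {τ μ : ℂ} (α : ℂ) (hN : Nrm τ μ) {m m' : ℕ} (b : Fin m → ℂ)
    (b' : Fin m' → ℂ) (o : J4 m m') (y y' : ℂ) :
    FO2 f τ μ α b b' (y + y') o = FO2 f τ μ α b b' y o + FO2 f τ μ α b b' y' o := by
  rcases o with _ | (j | q)
  · exact h f τ μ α hN m b none y y'
  · exact h f τ μ α hN m b (some (Sum.inl j)) y y'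
  · exact h f τ μ α hN m' b' (some (Sum.inr q)) y y'

/-- closedness -/
theorem FO2_closed (h : S_FOclosed) (f : Bool) {τ μ α : ℂ} (hN : Nrm τ μ) (hα : Alp τ μ α) {m m' : ℕ}
    (b : Fin m → ℂ) (b' : Fin m' → ℂ) (o : J4 m m') (y : ℂ) (D δ : Derivation ℚ ℂ ℂ) :
    D (FO2 f τ μ α b b' y o δ) - δ (FO2 f τ μ α b b' y o D) = FO2 f τ μ α b b' y o ⁅D, δ⁆ := by
  rcases o with _ | (j | q)
  · exact h f τ μ α hN hα m b none y D δ
  · exact h f τ μ α hN hα m b (some (Sum.inl j)) y D δ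
  · exact h f τ μ α hN hα m' b' (some (Sum.inr q)) y D δ

/-- The rank of the forms `∑ v_i FO2(x_i)` on the derivations killing `v`, `b` and `b'`. -/
noncomputable def rkM2 (f : Bool) (τ μ α : ℂ) {n m m' : ℕ} (b : Fin m → ℂ) (b' : Fin m' → ℂ)
    (x v : Fin n → ℂ) : ℕ :=
  Module.finrank ℂ ((TT v ⊓ TT (Fin.append b b')).map
    ((mvJ v).comp (LinearMap.pi fun i => fam (FO2 f τ μ α b b' (x i)))))

/-- The target for the ranks. -/
def tgt2 (f : Bool) (m m' : ℕ) : ℕ :=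
  if f then (if m' ≤ 1 then m + 2 * m' else m + 2 * m' - (m' + 1) / 2) else m + m'

/-- The values belonging to the relations `G₁` (toric) and `G₂` (elliptic). -/
noncomputable def GV2 (τ μ : ℂ) {n m m' : ℕ} (b : Fin m → ℂ) (b' : Fin m' → ℂ) (x : Fin n → ℂ)
    (G₁ : Submodule kQ (Fin n → Fin m → kQ)) (G₂ : Submodule (kf τ) (Fin n → Fin m' → kf τ)) :
    Set ℂ :=
  {y | ∃ ξ ∈ G₁, y = Complex.exp (ptG b x ξ)} ∪
  {y | ∃ ξ ∈ G₂, μ * ptG b' x ξ ∉ Lam τ ∧ y = xe τ μ (μ * ptG b' x ξ)}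

/-- The forms at the point `z`: `δ z`, `th(b_j z)`, `λ(μ b'_j z)`. -/
noncomputable def mixA2 (τ μ : ℂ) {m m' : ℕ} (b : Fin m → ℂ) (b' : Fin m' → ℂ) (z : ℂ) :
    Option (Fin m ⊕ Fin m') → Derivation ℚ ℂ ℂ →ₗ[ℂ] ℂ := fun o =>
  o.elim (dL z) (Sum.elim (fun j => thL (b j * z)) (fun j => laL τ μ (μ * (b' j * z))))

/-- The forms at the point `z`: `δ z`, `th(b_j z)`, `λ(μ b'_j z)`, `η(μ b'_j z)`. -/
noncomputable def mixB2 (τ μ : ℂ) {m m' : ℕ} (b : Fin m → ℂ) (b' : Fin m' → ℂ) (z : ℂ) :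
    J4 m m' → Derivation ℚ ℂ ℂ →ₗ[ℂ] ℂ := fun o =>
  o.elim (dL z) (Sum.elim (fun j => thL (b j * z)) (Sum.elim (fun j => laL τ μ (μ * (b' j * z)))
    (fun j => efL τ μ (μ * (b' j * z)))))

/-- The rank of `mixA2` on a space of derivations. -/
noncomputable def rA2 (τ μ : ℂ) {m m' : ℕ} (b : Fin m → ℂ) (b' : Fin m' → ℂ) (z : ℂ)
    (T : Submodule ℂ (Derivation ℚ ℂ ℂ)) : ℕ := Module.finrank ℂ (T.map (fam (mixA2 τ μ b b' z)))

/-- The rank of `mixB2` on a space of derivations. -/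
noncomputable def rB2 (τ μ : ℂ) {m m' : ℕ} (b : Fin m → ℂ) (b' : Fin m' → ℂ) (z : ℂ)
    (T : Submodule ℂ (Derivation ℚ ℂ ℂ)) : ℕ := Module.finrank ℂ (T.map (fam (mixB2 τ μ b b' z)))

/-- The rank of the forms `λ(μ b'_j z)` on a space of derivations. -/
noncomputable def rL2 (τ μ : ℂ) {m' : ℕ} (b' : Fin m' → ℂ) (z : ℂ)
    (T : Submodule ℂ (Derivation ℚ ℂ ℂ)) : ℕ :=
  Module.finrank ℂ (T.map (lamV τ μ fun j => μ * (b' j * z)))

/-- The elliptic point `μ (c·b') z`. -/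
noncomputable def ePt2 (μ : ℂ) {m' : ℕ} (b' : Fin m' → ℂ) (z : ℂ) (c : Fin m' → ℚ) : ℂ :=
  ∑ j, (c j : ℂ) * (μ * (b' j * z))

end Pool.Agent.Work.MP_8da9ea_nt.MX
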