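import Pool.Agent.Work.MP_8da9ea_nt.MX.Defs

/-!
# Mixed block, Part T: definitions
-/

set_option autoImplicit false

namespace Pool.Agent.Work.MP_8da9ea_nt.MX

open MvPolynomial Pool.Agent.Work.MP_327059_nt.GL Pool.Agent.Work.MP_8da9ea_nt.S
  Pool.Agent.Work.MP_8da9ea_nt.EB

section

variable {ι : Type} [Fintype ι]

/-- Finite transcendence type with exponent `Q`, arbitrary index type. -/
def FTI (Q : ℕ) (b : ι → ℂ) : Prop :=
  ∃ C : ℝ, 1 ≤ C ∧ ∀ (P : MvPolynomial ι ℤ) (t : ℝ), 1 ≤ t → (P.totalDegree : ℝ) ≤ t →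
    len P ≤ Real.exp t → aeval b P ≠ 0 → Real.exp (-(C * t ^ Q)) ≤ ‖aeval b P‖

open Classical in
/-- Echelon condition for the coefficients `c`: `i₀` is the (optional) additive function `z`, and the other
additive rows have pivots `π i`. -/
def EchC (ty : ι → Ty) (i₀ : Option ι) (π : ι → ι) (c : ι → ι → ℂ) : Prop :=
  (∀ i, i₀ = some i → ty i = Ty.add ∧ ∀ j, ty j = Ty.ell → c i j = 0) ∧
  ∀ i, ty i = Ty.add → i₀ ≠ some i →
    ty (π i) = Ty.ell ∧ ∀ i', ty i' = Ty.add → c i' (π i) = if i' = i then 1 else 0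

/-- The numbers entering the arithmetic conditions: `b_j` (multiplicative), `b_j / μ` (elliptic). -/
noncomputable def nb (μ : ℂ) (ty : ι → Ty) (b : ι → ℂ) : ι → ℂ := fun j =>
  match ty j with
  | Ty.add => 0
  | Ty.mul => b j
  | Ty.ell => b j / μ

/-- The admissible data: the functions are `b_i z + ∑ c_ij Z(b_j z)`, `e^{b_i z}`, `X(b_i z)`; note that
`X(μ β z) = ℘_Ω(β z)` for the lattice `Ω = μ⁻¹ (ℤ + ℤτ)` with algebraic invariants. -/
structure Adm (Q : ℕ) (τ μ : ℂ) (ty : ι → Ty) (i₀ : Option ι) (π : ι → ι) (b : ι → ℂ)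
    (c : ι → ι → ℂ) : Prop where
  ft : FTI Q (nb μ ty b)
  mul : ∀ w : ι → ℤ, (∀ j, ty j ≠ Ty.mul → w j = 0) → ∑ j, (w j : ℂ) * b j = 0 → w = 0
  ell : ∀ g : ι → ℂ, (∀ j, ty j ≠ Ty.ell → g j = 0) → (∀ j, IsE τ (g j)) →
    ∑ j, g j * b j = 0 → g = 0
  one : ∀ i, i₀ = some i → b i = 1
  ech : EchC ty i₀ π c

/-- No `b_j x_s` (`j` elliptic, `s ≠ 0`) is a lattice point. -/
def NTM (τ : ℂ) (ty : ι → Ty) (b : ι → ℂ) {n : ℕ} (x : Fin n → ℂ) : Prop :=
  ∀ s : Fin n → ℤ, s ≠ 0 → ∀ j, ty j = Ty.ell → b j * cmb s x ∉ Lam τ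

/-- The variables: `G2, G3`; the coefficients `c_ij` (and `b_i` at the place `(i,i)`, `i` additive); the
coordinates of the points `u_i` (`false`) and `Y` (`true`). -/
abbrev VM (n : ℕ) (ι : Type) : Type := Fin 2 ⊕ (ι × ι) ⊕ (Fin n × ι × Bool)

open Classical in
/-- The point of the variables `VM`. -/
noncomputable def ptM (τ μ : ℂ) {n : ℕ} (ty : ι → Ty) (b : ι → ℂ) (c : ι → ι → ℂ)
    (u : Fin n → ι → ℂ) : VM n ι → ℂ :=
  Sum.elim (fun q => if q = 0 then μ ^ 4 * gg2 τ else μ ^ 6 * gg3 τ)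
    (Sum.elim (fun q => if ty q.1 = Ty.add ∧ ty q.2 = Ty.ell then c q.1 q.2 else
        if q.1 = q.2 ∧ ty q.1 = Ty.add then b q.1 else 0)
      (fun p => if p.2.2 then (if ty p.2.1 = Ty.ell then ye τ μ (u p.1 p.2.1) else 0)
        else PN τ μ ty c (u p.1) p.2.1))

/-- Quadruples of integer polynomials: projective coordinates `(A, B, Z)` and the numerator `N` of the
correction term of `Z`. -/
structure Qua (n : ℕ) (ι : Type) where
  A : MvPolynomial (VM n ι) ℤ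
  B : MvPolynomial (VM n ι) ℤ
  Z : MvPolynomial (VM n ι) ℤ
  N : MvPolynomial (VM n ι) ℤ

/-- The `i`-th point. -/
noncomputable def baseQ {n : ℕ} (j : ι) (i : Fin n) : Qua n ι where
  A := X (Sum.inr (Sum.inr (i, j, false)))
  B := X (Sum.inr (Sum.inr (i, j, true)))
  Z := 1
  N := 0

/-- The opposite point. -/
noncomputable def negQ {n : ℕ} (V : Qua n ι) : Qua n ι where
  A := V.A
  B := -V.B
  Z := V.Z
  N := -V.N

/-- The generic addition formula. -/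
noncomputable def addQ {n : ℕ} (V W : Qua n ι) : Qua n ι where
  A := (V.A * W.Z - W.A * V.Z) * ((V.B * W.Z - W.B * V.Z) ^ 2 * V.Z * W.Z -
    4 * (V.A * W.Z - W.A * V.Z) ^ 2 * (V.A * W.Z + W.A * V.Z))
  B := (V.B * W.Z - W.B * V.Z) * (4 * (V.A * W.Z - W.A * V.Z) ^ 2 * (2 * V.A * W.Z + W.A * V.Z) -
    (V.B * W.Z - W.B * V.Z) ^ 2 * V.Z * W.Z) - 4 * (V.A * W.Z - W.A * V.Z) ^ 3 * V.B * W.Z
  Z := 4 * (V.A * W.Z - W.A * V.Z) ^ 3 * V.Z * W.Z
  N := 4 * (V.A * W.Z - W.A * V.Z) ^ 3 * (V.N * W.Z + W.N * V.Z) +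
    2 * (V.B * W.Z - W.B * V.Z) * (V.A * W.Z - W.A * V.Z) ^ 2 * V.Z * W.Z

/-- The quadruples for `u_{s,j}` obtained by the generic addition formula. -/
inductive VQ {n : ℕ} (j : ι) : (Fin n → ℤ) → Qua n ι → Prop
  | base (i : Fin n) : VQ j (Pi.single i 1) (baseQ j i)
  | neg (s : Fin n → ℤ) (V : Qua n ι) : VQ j s V → VQ j (-s) (negQ V)
  | add (s t : Fin n → ℤ) (V W : Qua n ι) : VQ j s V → VQ j t W → s + t ≠ 0 → s - t ≠ 0 →
      VQ j (s + t) (addQ V W)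

/-- `V` represents the point `z` and the correction `r` at `θ`. -/
structure ValQ (τ μ : ℂ) {n : ℕ} (θ : VM n ι → ℂ) (z r : ℂ) (V : Qua n ι) : Prop where
  nl : z ∉ Lam τ
  z0 : aeval θ V.Z ≠ 0
  a : aeval θ V.A = aeval θ V.Z * xe τ μ z
  b : aeval θ V.B = aeval θ V.Z * ye τ μ z
  n : aeval θ V.N = aeval θ V.Z * r

/-- Size of a quadruple. -/
structure SizQ {n : ℕ} (h : ℝ) (V : Qua n ι) : Prop where
  A : SizP h V.A
  B : SizP h V.B
  Z : SizP h V.Z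
  N : SizP h V.N

/-- The correction term `Z(u_{s,j}) - ∑ s_i Z(u_ij)`. -/
noncomputable def cor (τ μ : ℂ) {n : ℕ} (u : Fin n → ι → ℂ) (s : Fin n → ℤ) (j : ι) : ℂ :=
  ze τ μ (pcI u s j) - ∑ i, (s i : ℂ) * ze τ μ (u i j)

open Classical in
/-- The factor of the coordinate `i` in `PEM`. -/
noncomputable def facM {n : ℕ} (ty : ι → Ty) (W : ℕ) (s : Fin n → ℤ) (V : ι → Qua n ι)
    (x : ι → Fin W) (i : ι) : MvPolynomial (VM n ι) ℤ :=
  match ty i with
  | Ty.add => (∑ k, C (s k) * X (Sum.inr (Sum.inr (k, i, false))) *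
        ∏ j, (if ty j = Ty.ell then (V j).Z else 1) +
      ∑ j, (if ty j = Ty.ell then X (Sum.inr (Sum.inl (i, j))) * (V j).N *
        ∏ j', (if ty j' = Ty.ell ∧ j' ≠ j then (V j').Z else 1) else 0)) ^ (x i : ℕ) *
      ∏ j, (if ty j = Ty.ell then (V j).Z ^ (W - (x i : ℕ)) else 1)
  | Ty.mul => (∏ k, X (Sum.inr (Sum.inr (k, i, false))) ^ ((s k).toNat * (x i : ℕ))) *
      ∏ j, (if ty j = Ty.ell then (V j).Z ^ W else 1)
  | Ty.ell => (V i).A ^ (x i : ℕ) * (V i).Z ^ (W - (x i : ℕ)) *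
      ∏ j, (if ty j = Ty.ell ∧ j ≠ i then (V j).Z ^ W else 1)

open Classical in
/-- The integer polynomial of the auxiliary function. -/
noncomputable def PEM {n G W : ℕ} (ty : ι → Ty) (p : (Fin G → ι → Fin W) → ℤ)
    (s : Fin G → Fin n → ℤ) (V : Fin G → ι → Qua n ι) : MvPolynomial (VM n ι) ℤ :=
  ∑ x : Fin G → ι → Fin W, C (p x) * ∏ r, ∏ i, facM ty W (s r) (V r) (x r) i

open Classical in
/-- The auxiliary function. -/
noncomputable def AFM (τ μ : ℂ) {G W : ℕ} (ty : ι → Ty) (b : ι → ℂ) (c : ι → ι → ℂ)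
    (p : (Fin G → ι → Fin W) → ℤ) (z : Fin G → ℂ) : ℂ :=
  ∑ x : Fin G → ι → Fin W, (p x : ℂ) *
    ∏ r, ∏ i, PN τ μ ty c (fun j => b j * z r) i ^ (x r i : ℕ)

/-- The clearing factor at one point. -/
noncomputable def dd (τ : ℂ) (ty : ι → Ty) (b : ι → ℂ) (M : ℕ) (z : ℂ) : ℝ :=
  ∏ j, (if ty j = Ty.ell then d1 τ (b j * z) ^ M else 1)

/-- The index set of the full family `z; e^{b_j z}; X(b_j z), Z(b_j z)` belonging to `ty`. -/
abbrev fI (ty : ι → Ty) : Type :=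
  Unit ⊕ {j : ι // ty j = Ty.mul} ⊕ ({j : ι // ty j = Ty.ell} × Bool)

/-- Labels of the full family. -/
def fty (ty : ι → Ty) : fI ty → Ty :=
  Sum.elim (fun _ => Ty.add) (Sum.elim (fun _ => Ty.mul) (fun q => if q.2 then Ty.ell else Ty.add))

/-- The numbers `b` of the full family. -/
noncomputable def fb (ty : ι → Ty) (b : ι → ℂ) : fI ty → ℂ :=
  Sum.elim (fun _ => 1) (Sum.elim (fun j => b j) (fun q => if q.2 then b q.1 else 0))

open Classical in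
/-- The coefficients of the full family. -/
noncomputable def fc (ty : ι → Ty) : fI ty → fI ty → ℂ :=
  Sum.elim (fun _ _ => 0) (Sum.elim (fun _ _ => 0) (fun q =>
    Sum.elim (fun _ => 0) (Sum.elim (fun _ => 0) (fun q' =>
      if q.2 = false ∧ q'.2 = true ∧ q.1 = q'.1 then 1 else 0))))

/-- The pivots of the full family. -/
def fπ (ty : ι → Ty) : fI ty → fI ty :=
  Sum.elim (fun _ => Sum.inl ()) (Sum.elim (fun j => Sum.inr (Sum.inl j))
    (fun q => Sum.inr (Sum.inr (q.1, true))))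

end

end Pool.Agent.Work.MP_8da9ea_nt.MX
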