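import Pool.Agent.Work.MP_8da9ea_nt.MX.StmtsR
import Pool.Agent.Work.MP_8da9ea_nt.EB.Final

/-!
# Mixed block: the final theorem
-/

set_option autoImplicit false

namespace Pool.Agent.Work.MP_8da9ea_nt.MX

open MvPolynomial Pool.Agent.Work.MP_327059_nt.GL Pool.Agent.Work.MP_8da9ea_nt.S
  Pool.Agent.Work.MP_8da9ea_nt.EB EB.Final

open Pool.Agent.ED in
/-- the final theorem, from the items -/
theorem final_mx (hE : S_EllRank) (hA : S_RelAll) (hP : S_RelPol) (hT : S_TorRank)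
    (hN : S_Norm) (hM : S_MainS) (hR : S_MixRank) (hZ : S_FinalZM) (hB : S_AbsM) :
    ∀ Q m κ : ℕ, ∃ n₀ : ℕ, ∀ b : Fin m → ℂ, FT Q b →
      LinearIndependent ℚ b → TrLe κ b →
      ∀ n : ℕ, n₀ ≤ n → ∀ x : Fin n → ℂ, LinearIndependent ℚ x →
      ∃ P : MvPolynomial (Fin n) ℂ, P ≠ 0 ∧ P.totalDegree ≤ m ∧
      ∀ ω₁ ω₂ : ℂ, ∃ P₁ : MvPolynomial (Fin n) ℂ, P₁ ≠ 0 ∧ P₁.totalDegree ≤ 6 * m ∧
      ∀ w : Fin n → ℚ, MvPolynomial.eval (fun i => (w i : ℂ)) P ≠ 0 →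
      ∀ z : ℂ, z = ∑ i, (w i : ℂ) * x i →
        Sch b z ∧
        (LatOK ω₁ ω₂ b → MvPolynomial.eval (fun i => (w i : ℂ)) P₁ ≠ 0 →
          IsAlgebraic ℚ (60 * gk 4 ω₁ ω₂) → IsAlgebraic ℚ (140 * gk 6 ω₁ ω₂) →
          (∀ j, ∀ a c : ℤ, b j * z ≠ (a : ℂ) * ω₁ + (c : ℂ) * ω₂) ∧
          (∃ s : Fin (2 * m) → Fin m ⊕ Option (Fin m ⊕ Fin m), AlgebraicIndependent ℚ (fun i =>
            Sum.elim b (fun o => o.elim z (Sum.elim (fun j => Complex.exp (b j * z))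
              (fun j => wp ω₁ ω₂ (b j * z)))) (s i))) ∧
          (∃ s : Fin (if m = 1 then 3 else 5 * m / 2) →
              Fin m ⊕ Option (Fin m ⊕ (Fin m ⊕ Fin m)),
            AlgebraicIndependent ℚ (fun i =>
              Sum.elim b (fun o => o.elim z (Sum.elim (fun j => Complex.exp (b j * z))
                (Sum.elim (fun j => wp ω₁ ω₂ (b j * z)) (fun j => zt ω₁ ω₂ (b j * z))))) (s i)))) ∧
        ∀ r r' N : ℕ, (r + 2 * r' + N + κ + 1 ≤ m ∨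
            IsAlgebraic ℚ (60 * gk 4 ω₁ ω₂) ∧ IsAlgebraic ℚ (140 * gk 6 ω₁ ω₂) ∧
            r + N + κ + 1 ≤ m ∧ r + r' + N + κ + 1 ≤ 3 * m / 2 ∧
            (0 < r' → r' + N + κ + 2 ≤ m ∧ 2 * r' + N + κ + 1 ≤ 3 * m / 2)) →
          (0 < r' → LatOK ω₁ ω₂ b ∧ MvPolynomial.eval (fun i => (w i : ℂ)) P₁ ≠ 0) →
          ∀ (s k : ℕ) (t : Fin s → ℂ) (p : Fin k → ℂ), ¬ HasTrdeg (bigField ω₁ ω₂ t p) (N + 1) →
          ∃ P' : MvPolynomial (Fin r × Fin m ⊕ Fin r' × Fin m) ℂ, P' ≠ 0 ∧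
            P'.IsHomogeneous (r + 2 * r') ∧
          ∀ (c : Fin r → Fin m → ℚ) (c' : Fin r' → Fin m → ℚ),
            MvPolynomial.eval (Sum.elim (fun q => (c q.1 q.2 : ℂ))
              (fun q => (c' q.1 q.2 : ℂ))) P' ≠ 0 →
          ∀ (u : Fin r → ℂ) (v : Fin r' → ℂ), (∀ i, u i = (∑ j, (c i j : ℂ) * b j) * z) →
            (∀ i, v i = (∑ j, (c' i j : ℂ) * b j) * z) →
            (∀ i, ∀ a b : ℤ, v i ≠ (a : ℂ) * ω₁ + (b : ℂ) * ω₂) ∧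
            (∀ d, HasTrdeg (bigField ω₁ ω₂ t p) d →
              HasTrdeg (bigField ω₁ ω₂ (Fin.append t u) (Fin.append p v)) (d + r + 2 * r')) ∧
            (Q1 ω₁ ω₂ t p → Q1 ω₁ ω₂ (Fin.append t u) (Fin.append p v)) := by
  classical
  intro Q m κ
  obtain ⟨n₁, hn₁⟩ := hM Q m
  obtain ⟨n₂, hn₂⟩ := hE Q m
  obtain ⟨n₃, hn₃⟩ := hR Q m
  refine ⟨max n₁ (max n₂ n₃), fun b hFT hb hκ n hn x hx => ?_⟩
  have hnn₁ : n₁ ≤ n := (le_max_left _ _).trans hn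
  have hnn₂ : n₂ ≤ n := ((le_max_left _ _).trans (le_max_right _ _)).trans hn
  have hnn₃ : n₃ ≤ n := ((le_max_right _ _).trans (le_max_right _ _)).trans hn
  obtain ⟨κ₀, sb, hind, halg⟩ := Pool.Agent.Work.MP_327059_nt.GL.pr_TrBasis (Fin m) b
  have hκ₀ : κ₀ ≤ κ := by
    by_contra hc
    push Not at hc
    exact hκ (fun i => sb (Fin.castLE hc i))
      (hind.comp (Fin.castLE hc) (Fin.castLE_injective hc))
  have hTr : TrLe κ₀ b := by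
    intro s hs
    have h3 := Pool.Agent.Work.MP_327059_nt.GL.pr_TrCount (Fin (κ₀ + 1)) (Fin κ₀)
      (fun i => b (s i)) (fun i => b (sb i)) hs (fun i => halg (s i))
    rw [Fintype.card_fin, Fintype.card_fin] at h3
    omega
  obtain ⟨P, hP₁, hPd, hPw⟩ := hn₁ b hFT hb n hnn₁ x hx
  refine ⟨P, hP₁, hPd, fun ω₁ ω₂ => ?_⟩
  by_cases hOK : LatOK ω₁ ω₂ b
  swap
  · refine ⟨1, one_ne_zero, by simp, fun w hw z hz => ?_⟩
    have hSch : Sch b z := by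
      rw [hz]
      exact hPw w hw
    refine ⟨hSch, fun h => absurd h hOK, fun r r' N hm hr' s k t p hNN => ?_⟩
    have hr0 : r' = 0 := by
      by_contra h
      exact hOK (hr' (Nat.pos_of_ne_zero h)).1
    refine FinalZ2_pf hA hP m κ r r' N b z ω₁ ω₂ (by omega) hκ (hT m κ b z hSch hκ)
      (fun h => ?_) s k t p hNN
    omega
  have hOK' := hOK
  obtain ⟨him, hj, hK⟩ := hOK
  have h1 : ω₁ ≠ 0 := by
    rintro rfl
    simp at him
  obtain ⟨τ, hτ, hω⟩ : ∃ τ : ℂ, 0 < τ.im ∧ (ω₂ = ω₁ * τ ∨ ω₂ = -(ω₁ * τ)) := by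
    rcases lt_or_gt_of_ne him with hlt | hgt
    · exact ⟨-(ω₂ / ω₁), by simpa using hlt, Or.inr (by field_simp)⟩
    · exact ⟨ω₂ / ω₁, hgt, Or.inl (by field_simp)⟩
  have hj' : IsAlgebraic ℚ (jInv 1 τ) := by
    rcases hω with h | h
    · rwa [h, jInv_smul h1] at hj
    · rwa [h, jInv_neg, jInv_smul h1] at hj
  have hg4 : gk 4 1 τ = ω₁ ^ 4 * gk 4 ω₁ ω₂ := by
    rcases hω with h | h
    · rw [h, gk_norm h1]
    · rw [h, gk_N, gk_norm h1]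
  have hg6 : gk 6 1 τ = ω₁ ^ 6 * gk 6 ω₁ ω₂ := by
    rcases hω with h | h
    · rw [h, gk_norm h1]
    · rw [h, gk_N, gk_norm h1]
  have hKLI : KLI τ b := fun g hg h0 => hK g (fun j => isE_of hω (hg j)) h0
  have hnotL : ∀ y : ℂ, ω₁⁻¹ * y ∉ Lam τ → ∀ a c : ℤ, y ≠ (a : ℂ) * ω₁ + (c : ℂ) * ω₂ := by
    intro y hy a c hac
    apply hy
    rw [hac]
    rcases hω with h | h
    · refine mem_Lam.2 ⟨a, c, ?_⟩
      rw [h]
      field_simp
    · refine mem_Lam.2 ⟨a, -c, ?_⟩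
      rw [h]
      push_cast
      field_simp
  by_cases halg2 : IsAlgebraic ℚ (60 * gk 4 ω₁ ω₂) ∧ IsAlgebraic ℚ (140 * gk 6 ω₁ ω₂)
  · -- algebraic invariants
    have hμ : Nrm τ ω₁⁻¹ := by
      refine ⟨hτ, inv_ne_zero h1, ?_, ?_⟩
      · have h3 : ω₁⁻¹ ^ 4 * gg2 τ = 60 * gk 4 ω₁ ω₂ := by
          unfold gg2
          rw [hg4]
          field_simp
        rw [h3]
        exact halg2.1
      · have h3 : ω₁⁻¹ ^ 6 * gg3 τ = 140 * gk 6 ω₁ ω₂ := by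
          unfold gg3
          rw [hg6]
          field_simp
        rw [h3]
        exact halg2.2
    obtain ⟨P₂, hP₂, hP₂d, hP₂w⟩ := hn₃ τ ω₁⁻¹ b hμ hFT hKLI n hnn₃ x hx κ₀ hTr
    refine ⟨P₂, hP₂, hP₂d, fun w hw z hz => ?_⟩
    have hSch : Sch b z := by
      rw [hz]
      exact hPw w hw
    refine ⟨hSch, fun _ hw₂ _ _ => ?_, fun r r' N hm hr' s k t p hNN => ?_⟩
    · obtain ⟨h3, h4, h5⟩ := hP₂w w hw₂ z hz
      refine ⟨fun j => hnotL _ (h3 j), ?_⟩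
      exact hB m κ₀ b z ω₁ ω₂ τ ω₁⁻¹ sb hind halg hμ hω h1 rfl h3 h4 h5
    · rcases Nat.eq_zero_or_pos r' with hr0 | hr0
      · refine FinalZ2_pf hA hP m κ r r' N b z ω₁ ω₂ (by omega) hκ (hT m κ b z hSch hκ)
          (fun h => ?_) s k t p hNN
        omega
      · obtain ⟨h3, h4, h5⟩ := hP₂w w (hr' hr0).2 z hz
        exact hZ m κ r r' N b z ω₁ ω₂ τ ω₁⁻¹ (by omega) (by omega) (by omega) hκ hμ hω h1 rfl
          (by omega) (by omega) s k t p hNN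
  · -- algebraic `j` only
    obtain ⟨μ, hμ, -⟩ := hN τ hτ hj'
    have hx' : LinearIndependent ℚ (fun i => x i / ω₁) := by
      rw [Fintype.linearIndependent_iff] at hx ⊢
      intro q hq
      apply hx q
      have h3 : (∑ i, q i • x i) / ω₁ = ∑ i, q i • (x i / ω₁) := by
        rw [Finset.sum_div]
        refine Finset.sum_congr rfl fun i _ => ?_
        rw [Rat.smul_def, Rat.smul_def, mul_div_assoc]
      rw [← h3] at hq
      exact (div_eq_zero_iff.1 hq).resolve_right h1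
    obtain ⟨P₂, hP₂, hP₂d, hP₂w⟩ := hn₂ τ μ b hμ hFT hKLI n hnn₂ _ hx' κ₀ hTr
    refine ⟨P₂, hP₂, hP₂d.trans (by omega), fun w hw z hz => ?_⟩
    have hSch : Sch b z := by
      rw [hz]
      exact hPw w hw
    have hzω : ∑ i, (w i : ℂ) * (x i / ω₁) = z / ω₁ := by
      rw [hz, Finset.sum_div]
      exact Finset.sum_congr rfl fun i _ => by ring
    refine ⟨hSch, fun _ _ h4 h6 => absurd ⟨h4, h6⟩ halg2, fun r r' N hm hr' s k t p hNN => ?_⟩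
    have hm' : r + 2 * r' + N + κ + 1 ≤ m := by
      rcases hm with hm | hm
      · exact hm
      · exact absurd ⟨hm.1, hm.2.1⟩ halg2
    refine FinalZ2_pf hA hP m κ r r' N b z ω₁ ω₂ hm' hκ (hT m κ b z hSch hκ) (fun h => ?_)
      s k t p hNN
    have hrk := hP₂w w (hr' h).2
    rw [hzω] at hrk
    exact ⟨τ, μ, hμ, hω, h1, fun K h2 h3 => nrm_alg hμ K h2 h3, by omega⟩

end Pool.Agent.Work.MP_8da9ea_nt.MX
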