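import Pool.Agent.Work.MP_8da9ea_nt.MX.StmtsH
import Pool.Agent.Work.MP_8da9ea_nt.EB.Final
import Pool.Agent.Work.MP_8da9ea_nt.EB.I_FTpol

/-!
# Mixed block: the final theorem (separate tuples)
-/

set_option autoImplicit false

namespace Pool.Agent.Work.MP_8da9ea_nt.MX

open MvPolynomial Pool.Agent.Work.MP_327059_nt.GL Pool.Agent.Work.MP_8da9ea_nt.S
  Pool.Agent.Work.MP_8da9ea_nt.EB EB.Final

open Pool.Agent.ED in
/-- the final theorem, from the items -/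
theorem final_mh (hN : S_Norm) (hM : S_MainS) (hR : S_MixRank2) (hZ : S_FinalZH) (hB : S_AbsM2)
    (hT : S_TorRank2) (hK : S_KillMore) (hF : S_FTpol) :
    ∀ Q m m' κ : ℕ, ∃ n₀ : ℕ, ∀ (b : Fin m → ℂ) (b' : Fin m' → ℂ), FT Q (Fin.append b b') →
      LinearIndependent ℚ b → TrLe κ (Fin.append b b') →
      ∀ n : ℕ, n₀ ≤ n → ∀ x : Fin n → ℂ, LinearIndependent ℚ x →
      ∃ P : MvPolynomial (Fin n) ℂ, P ≠ 0 ∧ P.totalDegree ≤ m ∧
      ∀ ω₁ ω₂ : ℂ, ∃ P₁ : MvPolynomial (Fin n) ℂ, P₁ ≠ 0 ∧ P₁.totalDegree ≤ 2 * m + 4 * m' ∧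
      ∀ w : Fin n → ℚ, MvPolynomial.eval (fun i => (w i : ℂ)) P ≠ 0 →
      ∀ z : ℂ, z = ∑ i, (w i : ℂ) * x i →
        Sch b z ∧
        (LatOK ω₁ ω₂ b' → MvPolynomial.eval (fun i => (w i : ℂ)) P₁ ≠ 0 →
          IsAlgebraic ℚ (60 * gk 4 ω₁ ω₂) → IsAlgebraic ℚ (140 * gk 6 ω₁ ω₂) →
          (∀ j, ∀ a c : ℤ, b' j * z ≠ (a : ℂ) * ω₁ + (c : ℂ) * ω₂) ∧
          (∃ s : Fin (m + m') → Fin (m + m') ⊕ Option (Fin m ⊕ Fin m'),
            AlgebraicIndependent ℚ (fun i => Sum.elim (Fin.append b b') (fun o => o.elim z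
              (Sum.elim (fun j => Complex.exp (b j * z)) (fun j => wp ω₁ ω₂ (b' j * z)))) (s i))) ∧
          (∃ s : Fin (m + 2 * m' - (if m' ≤ 1 then 0 else (m' + 1) / 2)) →
              Fin (m + m') ⊕ Option (Fin m ⊕ (Fin m' ⊕ Fin m')),
            AlgebraicIndependent ℚ (fun i => Sum.elim (Fin.append b b') (fun o => o.elim z
              (Sum.elim (fun j => Complex.exp (b j * z)) (Sum.elim (fun j => wp ω₁ ω₂ (b' j * z))
                (fun j => zt ω₁ ω₂ (b' j * z))))) (s i)))) ∧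
        ∀ r r' N : ℕ, (0 < r → r + N + κ + 1 ≤ m) →
          (0 < r' → LatOK ω₁ ω₂ b' ∧ MvPolynomial.eval (fun i => (w i : ℂ)) P₁ ≠ 0 ∧
            r' + N + κ + 2 ≤ m' ∧ 2 * r' + N + κ + 1 ≤ 3 * m' / 2 ∧
            (0 < r → r + 2 * r' + N + κ + 1 ≤ m ∨ IsAlgebraic ℚ (60 * gk 4 ω₁ ω₂) ∧
              IsAlgebraic ℚ (140 * gk 6 ω₁ ω₂) ∧ r + r' + N + κ + 1 ≤ m + m' / 2)) →
          ∀ (s k : ℕ) (t : Fin s → ℂ) (p : Fin k → ℂ), ¬ HasTrdeg (bigField ω₁ ω₂ t p) (N + 1) →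
          ∃ P' : MvPolynomial (Fin r × Fin m ⊕ Fin r' × Fin m') ℂ, P' ≠ 0 ∧
            P'.IsHomogeneous (r + 2 * r') ∧
          ∀ (c : Fin r → Fin m → ℚ) (c' : Fin r' → Fin m' → ℚ),
            MvPolynomial.eval (Sum.elim (fun q => (c q.1 q.2 : ℂ))
              (fun q => (c' q.1 q.2 : ℂ))) P' ≠ 0 →
          ∀ (u : Fin r → ℂ) (v : Fin r' → ℂ), (∀ i, u i = (∑ j, (c i j : ℂ) * b j) * z) →
            (∀ i, v i = (∑ j, (c' i j : ℂ) * b' j) * z) →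
            (∀ i, ∀ a b : ℤ, v i ≠ (a : ℂ) * ω₁ + (b : ℂ) * ω₂) ∧
            (∀ d, HasTrdeg (bigField ω₁ ω₂ t p) d →
              HasTrdeg (bigField ω₁ ω₂ (Fin.append t u) (Fin.append p v)) (d + r + 2 * r')) ∧
            (Q1 ω₁ ω₂ t p → Q1 ω₁ ω₂ (Fin.append t u) (Fin.append p v)) := by
  classical
  intro Q m m' κ
  obtain ⟨n₁, hn₁⟩ := hM (Q + 1) m
  obtain ⟨n₂, hn₂⟩ := hR (Q + 1) 0 m'
  obtain ⟨n₃, hn₃⟩ := hR Q m m'
  refine ⟨max n₁ (max n₂ n₃), fun b b' hFT hb hκ n hn x hx => ?_⟩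
  have hnn₁ : n₁ ≤ n := (le_max_left _ _).trans hn
  have hnn₂ : n₂ ≤ n := ((le_max_left _ _).trans (le_max_right _ _)).trans hn
  have hnn₃ : n₃ ≤ n := ((le_max_right _ _).trans (le_max_right _ _)).trans hn
  have hFTb : FT (Q + 1) b := by
    have h := hF Q (m + m') m (Fin.append b b') (fun t => X (Fin.castAdd m' t)) hFT
    have e : (fun t : Fin m => aeval (Fin.append b b')
        ((X (Fin.castAdd m' t) : MvPolynomial (Fin (m + m')) ℚ))) = b := by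
      funext t
      rw [aeval_X, Fin.append_left]
    rwa [e] at h
  have hFTb' : FT (Q + 1) (Fin.append (fun i : Fin 0 => (i.elim0 : ℂ)) b') := by
    have h := hF Q (m + m') (0 + m') (Fin.append b b')
      (fun t => X (Fin.natAdd m (Fin.cast (Nat.zero_add m') t))) hFT
    have e : (fun t : Fin (0 + m') => aeval (Fin.append b b')
        ((X (Fin.natAdd m (Fin.cast (Nat.zero_add m') t)) : MvPolynomial (Fin (m + m')) ℚ))) =
        Fin.append (fun i : Fin 0 => (i.elim0 : ℂ)) b' := by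
      funext t
      rw [aeval_X, Fin.append_right]
      refine Fin.addCases (fun i => i.elim0) (fun i => ?_) t
      rw [Fin.append_right]
      congr 1
      ext
      simp
    rwa [e] at h
  obtain ⟨κ₀, sb, hind, halg⟩ := Pool.Agent.Work.MP_327059_nt.GL.pr_TrBasis (Fin (m + m'))
    (Fin.append b b')
  have hκ₀ : κ₀ ≤ κ := by
    by_contra hc
    push Not at hc
    exact hκ (fun i => sb (Fin.castLE hc i))
      (hind.comp (Fin.castLE hc) (Fin.castLE_injective hc))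
  have hTr : TrLe κ₀ (Fin.append b b') := by
    intro s hs
    have h3 := Pool.Agent.Work.MP_327059_nt.GL.pr_TrCount (Fin (κ₀ + 1)) (Fin κ₀)
      (fun i => Fin.append b b' (s i)) (fun i => Fin.append b b' (sb i)) hs (fun i => halg (s i))
    rw [Fintype.card_fin, Fintype.card_fin] at h3
    omega
  obtain ⟨P, hP₁, hPd, hPw⟩ := hn₁ b hFTb hb n hnn₁ x hx
  refine ⟨P, hP₁, hPd, fun ω₁ ω₂ => ?_⟩
  by_cases hOK : LatOK ω₁ ω₂ b'
  swap
  · refine ⟨1, one_ne_zero, by simp, fun w hw z hz => ?_⟩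
    have hSch : Sch b z := by
      rw [hz]
      exact hPw w hw
    refine ⟨hSch, fun h => absurd h hOK, fun r r' N hm hr' s k t p hNN => ?_⟩
    exact hZ m m' κ r r' N b b' z ω₁ ω₂ hκ (fun hr => ⟨hm hr, hT m m' κ b b' z hSch hκ⟩)
      (fun h => absurd (hr' h).1 hOK) s k t p hNN
  have hOK' := hOK
  obtain ⟨him, hj, hKI⟩ := hOK
  have h1 : ω₁ ≠ 0 := by
    rintro rfl
    simp at him
  obtain ⟨τ, hτ, hω⟩ : ∃ τ : ℂ, 0 < τ.im ∧ (ω₂ = ω₁ * τ ∨ ω₂ = -(ω₁ * τ)) := by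
    rcases lt_or_gt_of_ne him with hlt | hgt
    · exact ⟨-(ω₂ / ω₁), by simpa using hlt, Or.inr (by field_simp)⟩
    · exact ⟨ω₂ / ω₁, hgt, Or.inl (by field_simp)⟩
  have hj' : IsAlgebraic ℚ (jInv 1 τ) := by
    rcases hω with h | h
    · rwa [h, jInv_smul h1] at hj
    · rwa [h, jInv_neg, jInv_smul h1] at hj
  have hg4 : gk 4 1 τ = ω₁ ^ 4 * gk 4 ω₁ ω₂ := by
    rcases hω with h | h
    · rw [h, gk_norm h1]
    · rw [h, gk_N, gk_norm h1]
  have hg6 : gk 6 1 τ = ω₁ ^ 6 * gk 6 ω₁ ω₂ := by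
    rcases hω with h | h
    · rw [h, gk_norm h1]
    · rw [h, gk_N, gk_norm h1]
  have hKLI : KLI τ b' := fun g hg h0 => hKI g (fun j => isE_of hω (hg j)) h0
  have hnotL : ∀ y : ℂ, ω₁⁻¹ * y ∉ Lam τ → ∀ a c : ℤ, y ≠ (a : ℂ) * ω₁ + (c : ℂ) * ω₂ := by
    intro y hy a c hac
    apply hy
    rw [hac]
    rcases hω with h | h
    · refine mem_Lam.2 ⟨a, c, ?_⟩
      rw [h]
      field_simp
    · refine mem_Lam.2 ⟨a, -c, ?_⟩
      rw [h]
      push_cast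
      field_simp
  by_cases halg2 : IsAlgebraic ℚ (60 * gk 4 ω₁ ω₂) ∧ IsAlgebraic ℚ (140 * gk 6 ω₁ ω₂)
  · -- algebraic invariants
    have hμ : Nrm τ ω₁⁻¹ := by
      refine ⟨hτ, inv_ne_zero h1, ?_, ?_⟩
      · have h3 : ω₁⁻¹ ^ 4 * gg2 τ = 60 * gk 4 ω₁ ω₂ := by
          unfold gg2
          rw [hg4]
          field_simp
        rw [h3]
        exact halg2.1
      · have h3 : ω₁⁻¹ ^ 6 * gg3 τ = 140 * gk 6 ω₁ ω₂ := by
          unfold gg3
          rw [hg6]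
          field_simp
        rw [h3]
        exact halg2.2
    obtain ⟨P₂, hP₂, hP₂d, hP₂w⟩ := hn₃ τ ω₁⁻¹ b b' hμ hFT hb hKLI n hnn₃ x hx κ₀ hTr
    refine ⟨P₂, hP₂, hP₂d, fun w hw z hz => ?_⟩
    have hSch : Sch b z := by
      rw [hz]
      exact hPw w hw
    refine ⟨hSch, fun _ hw₂ _ _ => ?_, fun r r' N hm hr' s k t p hNN => ?_⟩
    · obtain ⟨h3, h4, h5⟩ := hP₂w w hw₂ z hz
      refine ⟨fun j => hnotL _ (h3 j), ?_⟩
      exact hB m m' κ₀ b b' z ω₁ ω₂ τ ω₁⁻¹ sb hind halg hμ hω h1 rfl h3 h4 h5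
    · refine hZ m m' κ r r' N b b' z ω₁ ω₂ hκ (fun hr => ⟨hm hr, hT m m' κ b b' z hSch hκ⟩)
        (fun h => ?_) s k t p hNN
      obtain ⟨-, h6, h7, h8, h9⟩ := hr' h
      obtain ⟨h3, h4, h5⟩ := hP₂w w h6 z hz
      refine ⟨τ, ω₁⁻¹, hμ, hω, h1, fun K h2 h3 => nrm_alg hμ K h2 h3, h7, h8,
        Or.inr ⟨rfl, by omega, by omega, fun hr => ?_⟩⟩
      rcases h9 hr with h10 | h10
      · omega
      · exact h10.2.2
  · -- algebraic `j` only
    obtain ⟨μ, hμ, -⟩ := hN τ hτ hj'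
    obtain ⟨κ', hκ', hkill⟩ := hK m m' b b' κ hκ
    have hc : ω₁ * μ ≠ 0 := mul_ne_zero h1 hμ.mu
    have hx' : LinearIndependent ℚ (fun i => x i / (ω₁ * μ)) := by
      rw [Fintype.linearIndependent_iff] at hx ⊢
      intro q hq
      apply hx q
      have h3 : (∑ i, q i • x i) / (ω₁ * μ) = ∑ i, q i • (x i / (ω₁ * μ)) := by
        rw [Finset.sum_div]
        refine Finset.sum_congr rfl fun i _ => ?_
        rw [Rat.smul_def, Rat.smul_def, mul_div_assoc]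
      rw [← h3] at hq
      exact (div_eq_zero_iff.1 hq).resolve_right hc
    have hb0 : LinearIndependent ℚ (fun i : Fin 0 => (i.elim0 : ℂ)) := linearIndependent_empty_type
    obtain ⟨P₂, hP₂, hP₂d, hP₂w⟩ := hn₂ τ μ (fun i : Fin 0 => i.elim0) b' hμ hFTb' hb0 hKLI n hnn₂
      _ hx' κ' hκ'
    refine ⟨P₂, hP₂, hP₂d.trans (by omega), fun w hw z hz => ?_⟩
    have hSch : Sch b z := by
      rw [hz]
      exact hPw w hw
    have hzω : z / (ω₁ * μ) = ∑ i, (w i : ℂ) * (x i / (ω₁ * μ)) := by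
      rw [hz, Finset.sum_div]
      exact Finset.sum_congr rfl fun i _ => by ring
    refine ⟨hSch, fun _ _ h4 h6 => absurd ⟨h4, h6⟩ halg2, fun r r' N hm hr' s k t p hNN => ?_⟩
    refine hZ m m' κ r r' N b b' z ω₁ ω₂ hκ (fun hr => ⟨hm hr, hT m m' κ b b' z hSch hκ⟩)
      (fun h => ?_) s k t p hNN
    obtain ⟨-, h6, h7, h8, h9⟩ := hr' h
    obtain ⟨-, h4, h5⟩ := hP₂w w h6 _ hzω
    refine ⟨τ, μ, hμ, hω, h1, fun K h2 h3 => nrm_alg hμ K h2 h3, h7, h8,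
      Or.inl ⟨?_, ?_, fun hr => ?_⟩⟩
    · refine hkill _ _ m' ?_
      unfold rA2 at h4
      omega
    · exact hkill _ _ _ h5
    · rcases h9 hr with h10 | h10
      · exact h10
      · exact absurd ⟨h10.1, h10.2.1⟩ halg2

end Pool.Agent.Work.MP_8da9ea_nt.MX
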