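import Pool.Agent.Work.MP_8da9ea_nt.MX.Ratio

/-!
# Mixed block: the final theorem, lossless version, in the form of the conjecture
-/

set_option autoImplicit false

namespace Pool.Agent.Work.MP_8da9ea_nt.MX

open MvPolynomial Pool.Agent.Work.MP_327059_nt.GL Pool.Agent.Work.MP_8da9ea_nt.S
  Pool.Agent.Work.MP_8da9ea_nt.EB EB.Final

open Pool.Agent.ED in
/-- the final theorem, from the items -/
theorem final_mf (hN : S_Norm) (hM : S_MainS) (hR : S_MixRankF) (hZ : S_FinalZF) (hB : S_AbsF)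
    (hT : S_TorRank2) (hK : S_KillMore) (hF : S_FTpol) :
    ∀ Q m m' κ : ℕ, ∃ n₀ : ℕ, ∀ (b : Fin m → ℂ) (b' : Fin m' → ℂ), FT Q (Fin.append b b') →
      LinearIndependent ℚ b → TrLe κ (Fin.append b b') →
      ∀ n : ℕ, n₀ ≤ n → ∀ x : Fin n → ℂ, LinearIndependent ℚ x →
      ∃ P : MvPolynomial (Fin n) ℂ, P ≠ 0 ∧ P.totalDegree ≤ m ∧
      ∀ ω₁ ω₂ : ℂ, ∃ P₁ : MvPolynomial (Fin n) ℂ, P₁ ≠ 0 ∧ P₁.totalDegree ≤ 2 * m + 4 * m' ∧
      ∀ w : Fin n → ℚ, MvPolynomial.eval (fun i => (w i : ℂ)) P ≠ 0 →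
      ∀ z : ℂ, z = ∑ i, (w i : ℂ) * x i →
        Sch b z ∧
        (LatOK ω₁ ω₂ b' → MvPolynomial.eval (fun i => (w i : ℂ)) P₁ ≠ 0 →
          IsAlgebraic ℚ (60 * gk 4 ω₁ ω₂) → IsAlgebraic ℚ (140 * gk 6 ω₁ ω₂) →
          (∀ j, ∀ a c : ℤ, b' j * z ≠ (a : ℂ) * ω₁ + (c : ℂ) * ω₂) ∧
          ∃ s : Fin (m + 2 * m') → (Fin m ⊕ Fin m) ⊕ (Fin m' ⊕ Fin m' ⊕ Fin m'),
            AlgebraicIndependent ℚ (fun i =>
              Sum.elim (Sum.elim (fun j => b j * z) (fun j => Complex.exp (b j * z)))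
                (Sum.elim (fun j => b' j * z) (Sum.elim (fun j => wp ω₁ ω₂ (b' j * z))
                  (fun j => zt ω₁ ω₂ (b' j * z)))) (s i))) ∧
        ∀ r r' N : ℕ, (0 < r → r + N + κ + 1 ≤ m) →
          (0 < r' → LatOK ω₁ ω₂ b' ∧ MvPolynomial.eval (fun i => (w i : ℂ)) P₁ ≠ 0 ∧
            r' + N + κ + 1 ≤ m' ∧
            (0 < r → r + 2 * r' + N + κ + 1 ≤ m ∨ IsAlgebraic ℚ (60 * gk 4 ω₁ ω₂) ∧
              IsAlgebraic ℚ (140 * gk 6 ω₁ ω₂))) →
          ∀ (s k : ℕ) (t : Fin s → ℂ) (p : Fin k → ℂ), ¬ HasTrdeg (bigField ω₁ ω₂ t p) (N + 1) →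
          ∃ P' : MvPolynomial (Fin r × Fin m ⊕ Fin r' × Fin m') ℂ, P' ≠ 0 ∧
            P'.IsHomogeneous (r + 2 * r') ∧
          ∀ (c : Fin r → Fin m → ℚ) (c' : Fin r' → Fin m' → ℚ),
            MvPolynomial.eval (Sum.elim (fun q => (c q.1 q.2 : ℂ))
              (fun q => (c' q.1 q.2 : ℂ))) P' ≠ 0 →
          ∀ (u : Fin r → ℂ) (v : Fin r' → ℂ), (∀ i, u i = (∑ j, (c i j : ℂ) * b j) * z) →
            (∀ i, v i = (∑ j, (c' i j : ℂ) * b' j) * z) →
            (∀ i, ∀ a b : ℤ, v i ≠ (a : ℂ) * ω₁ + (b : ℂ) * ω₂) ∧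
            (∀ d, HasTrdeg (bigField ω₁ ω₂ t p) d →
              HasTrdeg (bigField ω₁ ω₂ (Fin.append t u) (Fin.append p v)) (d + r + 2 * r')) ∧
            (Q1 ω₁ ω₂ t p → Q1 ω₁ ω₂ (Fin.append t u) (Fin.append p v)) := by
  classical
  intro Q m m' κ
  obtain ⟨n₀, hn₀⟩ := final_mf0 hN hM hR hZ hB hT hK hF (Q + 1) m m' κ
  refine ⟨n₀, fun b b' hFT hb hκ n hn x hx => ?_⟩
  by_cases hj : ∃ j₀, Fin.append b b' j₀ ≠ 0
  swap
  · -- all numbers are zero
    push Not at hj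
    obtain ⟨P, hP, hPd, hPw⟩ := hn₀ b b' (Ratio.ft_mono _ hFT) hb hκ n hn x hx
    refine ⟨P, hP, hPd, fun ω₁ ω₂ => ?_⟩
    obtain ⟨P₁, hP₁, hP₁d, hP₁w⟩ := hPw ω₁ ω₂
    refine ⟨P₁, hP₁, hP₁d, fun w hw z hz => ?_⟩
    obtain ⟨h1, h2, h3⟩ := hP₁w w hw z hz
    refine ⟨h1, fun hL h4 h5 h6 => ⟨(h2 hL h4 h5 h6).1, ?_⟩, h3⟩
    have hm : m = 0 := by
      by_contra hm
      have h7 := hj (Fin.castAdd m' ⟨0, by omega⟩)
      rw [Fin.append_left] at h7
      exact hb.ne_zero _ h7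
    have hm' : m' = 0 := by
      by_contra hm'
      have h7 : ∀ j, b' j = 0 := fun j => by
        have := hj (Fin.natAdd m j)
        rwa [Fin.append_right] at this
      have h8 := hL.2.2 (fun _ => 1) (fun j => ⟨1, 1, 0, 0, 1, one_ne_zero, by simp, by simp⟩)
        (by simp [h7])
      have h9 := congrFun h8 ⟨0, by omega⟩
      simp at h9
    subst hm
    subst hm'
    have : IsEmpty (Fin (0 + 2 * 0)) := ⟨fun i => i.elim0⟩
    exact ⟨fun i => i.elim0, algebraicIndependent_empty_type⟩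
  obtain ⟨j₀, hj₀⟩ := hj
  set a : ℂ := Fin.append b b' j₀ with ha
  set c : Fin m → ℂ := fun j => b j / a with hc
  set c' : Fin m' → ℂ := fun j => b' j / a with hc'
  have hap : Fin.append c c' = fun i => Fin.append b b' i / Fin.append b b' j₀ := by
    funext i
    refine Fin.addCases (fun j => ?_) (fun j => ?_) i
    · rw [Fin.append_left, Fin.append_left]
    · rw [Fin.append_right, Fin.append_right]
  have hFT' : FT (Q + 1) (Fin.append c c') := by
    rw [hap]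
    exact Ratio.ft_ratio _ j₀ hj₀ hFT
  have hκ' : TrLe κ (Fin.append c c') := by
    rw [hap]
    exact Ratio.tr_ratio _ j₀ hκ
  have hcb : LinearIndependent ℚ c := by
    rw [Fintype.linearIndependent_iff] at hb ⊢
    intro q hq
    apply hb q
    have h3 : (∑ i, q i • b i) / a = ∑ i, q i • c i := by
      rw [Finset.sum_div]
      refine Finset.sum_congr rfl fun i _ => ?_
      rw [Rat.smul_def, Rat.smul_def, mul_div_assoc]
    rw [← h3] at hq
    exact (div_eq_zero_iff.1 hq).resolve_right hj₀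
  have hxa : LinearIndependent ℚ (fun i => a * x i) := by
    rw [Fintype.linearIndependent_iff] at hx ⊢
    intro q hq
    apply hx q
    have h3 : a * (∑ i, q i • x i) = ∑ i, q i • (a * x i) := by
      rw [Finset.mul_sum]
      refine Finset.sum_congr rfl fun i _ => ?_
      rw [Rat.smul_def, Rat.smul_def]
      ring
    rw [← h3] at hq
    exact (mul_eq_zero.1 hq).resolve_left hj₀
  obtain ⟨P, hP, hPd, hPw⟩ := hn₀ c c' hFT' hcb hκ' n hn _ hxa
  refine ⟨P, hP, hPd, fun ω₁ ω₂ => ?_⟩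
  obtain ⟨P₁, hP₁, hP₁d, hP₁w⟩ := hPw ω₁ ω₂
  refine ⟨P₁, hP₁, hP₁d, fun w hw z hz => ?_⟩
  have hz' : a * z = ∑ i, (w i : ℂ) * (a * x i) := by
    rw [hz, Finset.mul_sum]
    exact Finset.sum_congr rfl fun i _ => by ring
  obtain ⟨h1, h2, h3⟩ := hP₁w w hw (a * z) hz'
  have e1 : ∀ j, c j * (a * z) = b j * z := fun j => by
    rw [hc]
    field_simp
  have e2 : ∀ j, c' j * (a * z) = b' j * z := fun j => by
    rw [hc']
    field_simp
  have hL : LatOK ω₁ ω₂ b' → LatOK ω₁ ω₂ c' := by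
    rintro ⟨i1, i2, i3⟩
    refine ⟨i1, i2, fun g hg h0 => i3 g hg ?_⟩
    have h4 : ∑ j, g j * b' j = a * ∑ j, g j * c' j := by
      rw [Finset.mul_sum]
      refine Finset.sum_congr rfl fun j _ => ?_
      rw [hc']
      field_simp
    rw [h4, h0, mul_zero]
  have hSch : Sch b z := by
    unfold Sch at h1 ⊢
    simp only [e1] at h1
    exact h1
  refine ⟨hSch, fun hL' h4 h5 h6 => ?_, fun r r' N hr hr' s k t p hNN => ?_⟩
  · obtain ⟨i1, s, hs⟩ := h2 (hL hL') h4 h5 h6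
    simp only [e1, e2] at i1 hs
    refine ⟨i1, ?_⟩
    have hz0 : z ≠ 0 := by
      intro h0
      revert ha
      refine Fin.addCases (fun j => ?_) (fun j => ?_) j₀
      · intro _
        obtain ⟨s', hs'⟩ := hSch
        have h8 := hs'.transcendental j
        rcases h9 : s' j with q | q
        · rw [h9] at h8
          apply h8
          simp only [Sum.elim_inl, h0, mul_zero]
          exact isAlgebraic_zero
        · rw [h9] at h8
          apply h8
          simp only [Sum.elim_inr, h0, mul_zero, Complex.exp_zero]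
          exact isAlgebraic_one
      · intro _
        exact i1 j 0 0 (by rw [h0]; simp)
    refine Ratio.transfer _ _ _ ?_ s hs
    set y : (Fin m ⊕ Fin m) ⊕ (Fin m' ⊕ Fin m' ⊕ Fin m') → ℂ :=
      Sum.elim (Sum.elim (fun j => b j * z) (fun j => Complex.exp (b j * z)))
        (Sum.elim (fun j => b' j * z) (Sum.elim (fun j => wp ω₁ ω₂ (b' j * z))
          (fun j => zt ω₁ ω₂ (b' j * z)))) with hy
    have g1 : ∀ j, b j * z ∈ IntermediateField.adjoin ℚ (Set.range y) := fun j =>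
      Ratio.mem_adj y (Sum.inl (Sum.inl j))
    have g2 : ∀ j, b' j * z ∈ IntermediateField.adjoin ℚ (Set.range y) := fun j =>
      Ratio.mem_adj y (Sum.inr (Sum.inl j))
    have g3 : ∀ i, Fin.append b b' i * z ∈ IntermediateField.adjoin ℚ (Set.range y) := by
      intro i
      refine Fin.addCases (fun j => ?_) (fun j => ?_) i
      · rw [Fin.append_left]
        exact g1 j
      · rw [Fin.append_right]
        exact g2 j
    rintro (i | _ | j | j | j)
    · have h8 : Fin.append c c' i = (Fin.append b b' i * z) / (Fin.append b b' j₀ * z) := by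
        rw [hap]
        field_simp
      simp only [Sum.elim_inl]
      rw [h8]
      exact div_mem (g3 i) (g3 j₀)
    · exact g3 j₀
    · exact Ratio.mem_adj y (Sum.inl (Sum.inr j))
    · exact Ratio.mem_adj y (Sum.inr (Sum.inr (Sum.inl j)))
    · exact Ratio.mem_adj y (Sum.inr (Sum.inr (Sum.inr j)))
  · obtain ⟨P', hP', hPh, hPc⟩ := h3 r r' N hr (fun h => by
      obtain ⟨j1, j2, j3, j4⟩ := hr' h
      exact ⟨hL j1, j2, j3, j4⟩) s k t p hNN
    refine ⟨P', hP', hPh, fun d d' hd u v hu hv => ?_⟩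
    refine hPc d d' hd u v (fun i => ?_) fun i => ?_
    · rw [hu i, Finset.sum_mul, Finset.sum_mul]
      refine Finset.sum_congr rfl fun j _ => ?_
      rw [mul_assoc, mul_assoc, e1]
    · rw [hv i, Finset.sum_mul, Finset.sum_mul]
      refine Finset.sum_congr rfl fun j _ => ?_
      rw [mul_assoc, mul_assoc, e2]

end Pool.Agent.Work.MP_8da9ea_nt.MX
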