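import Pool.Agent.Work.MP_8da9ea_nt.MX.StmtsH
import Pool.Agent.Work.MP_8da9ea_nt.MX.I_AbsM

/-!
# Mixed block, H9: the absolute statements at a point, separate tuples
-/

set_option autoImplicit false

namespace Pool.Agent.Work.MP_8da9ea_nt.MX

open MvPolynomial Pool.Agent.Work.MP_327059_nt.GL Pool.Agent.Work.MP_8da9ea_nt.S
  Pool.Agent.Work.MP_8da9ea_nt.EB

open I_AbsM in
theorem AbsM2_pf : S_AbsM2 := by
  classical
  intro m m' κ₀ b b' z ω₁ ω₂ τ μ sb hind _ _ hω h1 hμ hL hA hB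
  have hX : ∀ j, wp ω₁ ω₂ (b' j * z) = xe τ μ (μ * (b' j * z)) :=
    fun j => (xe_eq hω h1 hμ _).symm
  have hZ : ∀ j, zt ω₁ ω₂ (b' j * z) = ze τ μ (μ * (b' j * z)) :=
    fun j => (ze_eq hω h1 hμ _).symm
  constructor
  · let D : (Option (Fin m ⊕ Fin m') → ℂ) →ₗ[ℂ] (Option (Fin m ⊕ Fin m') → ℂ) :=
      LinearMap.pi fun o => o.elim (LinearMap.proj none) (Sum.elim
        (fun j => (Complex.exp (b j * z))⁻¹ • LinearMap.proj (some (Sum.inl j)))
        (fun j => (ye τ μ (μ * (b' j * z)))⁻¹ • LinearMap.proj (some (Sum.inr j))))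
    refine absGen (Fin.append b b') sb hind _ (fam (mixA2 τ μ b b' z)) D ?_ _ hA
    intro δ
    funext o
    rcases o with _ | j | j
    · rfl
    · change FR.th δ (b j * z) = (Complex.exp (b j * z))⁻¹ • δ (Complex.exp (b j * z))
      unfold FR.th
      rw [div_eq_mul_inv, mul_comm, smul_eq_mul]
    · change lam τ μ δ (μ * (b' j * z)) = (ye τ μ (μ * (b' j * z)))⁻¹ • δ (wp ω₁ ω₂ (b' j * z))
      rw [hX]
      unfold lam
      rw [if_neg (hL j), div_eq_mul_inv, mul_comm, smul_eq_mul]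
  · let D : (Option (Fin m ⊕ (Fin m' ⊕ Fin m')) → ℂ) →ₗ[ℂ]
        (Option (Fin m ⊕ (Fin m' ⊕ Fin m')) → ℂ) :=
      LinearMap.pi fun o => o.elim (LinearMap.proj none) (Sum.elim
        (fun j => (Complex.exp (b j * z))⁻¹ • LinearMap.proj (some (Sum.inl j)))
        (Sum.elim
          (fun j => (ye τ μ (μ * (b' j * z)))⁻¹ • LinearMap.proj (some (Sum.inr (Sum.inl j))))
          (fun j => LinearMap.proj (some (Sum.inr (Sum.inr j))) +
            (xe τ μ (μ * (b' j * z)) * (ye τ μ (μ * (b' j * z)))⁻¹) •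
              LinearMap.proj (some (Sum.inr (Sum.inl j))))))
    have h5 : m + 2 * m' - (if m' ≤ 1 then 0 else (m' + 1) / 2) ≤
        κ₀ + Module.finrank ℂ ((TT (Fin.append b b')).map (fam (mixB2 τ μ b b' z))) := by
      refine le_trans ?_ hB
      unfold tgt2
      rw [if_pos rfl]
      split_ifs
      · omega
      · exact le_refl _
    refine absGen (Fin.append b b') sb hind _ (fam (mixB2 τ μ b b' z)) D ?_ _ h5
    intro δ
    funext o
    rcases o with _ | j | j | j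
    · rfl
    · change FR.th δ (b j * z) = (Complex.exp (b j * z))⁻¹ • δ (Complex.exp (b j * z))
      unfold FR.th
      rw [div_eq_mul_inv, mul_comm, smul_eq_mul]
    · change lam τ μ δ (μ * (b' j * z)) = (ye τ μ (μ * (b' j * z)))⁻¹ • δ (wp ω₁ ω₂ (b' j * z))
      rw [hX]
      unfold lam
      rw [if_neg (hL j), div_eq_mul_inv, mul_comm, smul_eq_mul]
    · change etf τ μ δ (μ * (b' j * z)) = δ (zt ω₁ ω₂ (b' j * z)) +
        (xe τ μ (μ * (b' j * z)) * (ye τ μ (μ * (b' j * z)))⁻¹) • δ (wp ω₁ ω₂ (b' j * z))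
      rw [hX, hZ]
      unfold etf lam
      rw [if_neg (hL j), if_neg (hL j), smul_eq_mul]
      ring

end Pool.Agent.Work.MP_8da9ea_nt.MX
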