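import Pool.Agent.Work.MP_8da9ea_nt.MX.StmtsG
import Pool.Agent.Work.MP_8da9ea_nt.EB.I_EtaAdd
import Pool.Agent.Work.MP_8da9ea_nt.EB.I_LamAdd

/-!
# Mixed block, item EtaAddC: the corrected form of the second kind is additive
-/

set_option autoImplicit false

namespace Pool.Agent.Work.MP_8da9ea_nt.MX

open MvPolynomial Pool.Agent.Work.MP_327059_nt.GL Pool.Agent.Work.MP_8da9ea_nt.S
  Pool.Agent.Work.MP_8da9ea_nt.EB

namespace I_EtaAddC

variable {τ μ : ℂ}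

lemma qp_add (u v : ℂ) : qp τ (u + v) = qp τ u + qp τ v := by
  unfold qp
  rw [Complex.add_im, add_div]
  push_cast
  ring

lemma qp_neg (u : ℂ) : qp τ (-u) = -qp τ u := by
  unfold qp
  rw [Complex.neg_im, neg_div]
  push_cast
  ring

lemma qp_lat (hτ : 0 < τ.im) (m n : ℤ) :
    qp τ (m + n * τ) = m * et τ + n * (τ * et τ - kap) := by
  have h1 : ((m : ℂ) + n * τ).im / τ.im = n := by
    rw [Complex.add_im, Complex.mul_im, Complex.intCast_im, Complex.intCast_im,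
      Complex.intCast_re]
    field_simp
    ring
  unfold qp
  rw [h1]
  push_cast
  ring

lemma etC_of (δ : Derivation ℚ ℂ ℂ) {u : ℂ} (hu : u ∉ Lam τ) :
    etC τ μ δ u = etf τ μ δ u := by
  unfold etC
  rw [if_neg hu]

lemma etC_in (δ : Derivation ℚ ℂ ℂ) {u : ℂ} (hu : u ∈ Lam τ) :
    etC τ μ δ u = δ (μ * qp τ u) := by
  unfold etC
  rw [if_pos hu]

lemma per (h : Nrm τ μ) (δ : Derivation ℚ ℂ ℂ) (u : ℂ) {w : ℂ} (hw : w ∈ Lam τ) :
    etC τ μ δ (u + w) = etC τ μ δ u + etC τ μ δ w := by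
  rw [etC_in δ hw]
  obtain ⟨m, n, rfl⟩ := mem_Lam.1 hw
  by_cases hu : u ∈ Lam τ
  · rw [etC_in δ ((add_mem_Lam_iff m n).2 hu), etC_in δ hu, qp_add, mul_add, map_add]
  · have hu' : u + (m + n * τ) ∉ Lam τ := fun h' => hu ((add_mem_Lam_iff m n).1 h')
    rw [etC_of δ hu', etC_of δ hu, I_EtaAdd.etf_of δ hu', I_EtaAdd.etf_of δ hu,
      I_EtaAdd.lam_of δ hu', I_EtaAdd.lam_of δ hu, I_EtaAdd.xe_add h, I_EtaAdd.ye_add h,
      I_EtaAdd.ze_add h, qp_lat h.im]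
    have e1 : ze τ μ u + (m : ℂ) * (μ * et τ) + (n : ℂ) * (μ * (τ * et τ - kap)) =
        ze τ μ u + μ * (m * et τ + n * (τ * et τ - kap)) := by ring
    rw [e1, map_add]
    ring

lemma neg (h : Nrm τ μ) (δ : Derivation ℚ ℂ ℂ) (u : ℂ) : etC τ μ δ (-u) = -etC τ μ δ u := by
  by_cases hu : u ∈ Lam τ
  · rw [etC_in δ (neg_mem_Lam.2 hu), etC_in δ hu, qp_neg, mul_neg, map_neg]
  · have hu' : -u ∉ Lam τ := fun h' => hu (neg_mem_Lam.1 h')
    rw [etC_of δ hu', etC_of δ hu, I_EtaAdd.neg h δ u]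

end I_EtaAddC

open I_EtaAddC in
theorem EtaAddC_pf : S_EtaAddC := by
  intro τ μ h δ u v
  by_cases hu : u ∈ Lam τ
  · rw [add_comm u v, I_EtaAddC.per h δ v hu, add_comm]
  by_cases hv : v ∈ Lam τ
  · exact I_EtaAddC.per h δ u hv
  by_cases huv : u + v ∈ Lam τ
  · have e : v = -u + (u + v) := by ring
    conv_rhs => rw [e]
    rw [I_EtaAddC.per h δ (-u) huv, I_EtaAddC.neg h δ u]
    ring
  rw [etC_of δ hu, etC_of δ hv, etC_of δ huv]
  exact I_EtaAdd.gen LamAdd_pf h δ hu hv huv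

end Pool.Agent.Work.MP_8da9ea_nt.MX
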