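import Pool.Agent.Work.MP_8da9ea_nt.MX.StmtsR
import Pool.Agent.Work.MP_8da9ea_nt.EB.I_FinalZ

/-!
# Mixed block, item FinalZM (R3): the final theorem for one lattice and one point
-/

set_option autoImplicit false

namespace Pool.Agent.Work.MP_8da9ea_nt.MX

open MvPolynomial Pool.Agent.Work.MP_327059_nt.GL Pool.Agent.Work.MP_8da9ea_nt.S
  Pool.Agent.Work.MP_8da9ea_nt.EB

namespace I_FinalZM

open Pool.Agent.ED

/-- rank on a smaller space of derivations -/
lemma rank_DK {m N : ℕ} {J : Type} [Fintype J] (b : Fin m → ℂ) (θ : Fin N → ℂ)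
    (K : IntermediateField ℚ ℂ) (hK : ∀ δ ∈ TT b, (∀ i, δ (θ i) = 0) → δ ∈ DK K)
    (f : Derivation ℚ ℂ ℂ →ₗ[ℂ] (J → ℂ)) (R : ℕ)
    (h : R + N ≤ Module.finrank ℂ ((TT b).map f)) : R ≤ Module.finrank ℂ ((DK K).map f) := by
  obtain ⟨δ, hδ, hδi⟩ := TG.lin_ker (TT b) f (evDer (K := ℚ) (M := ℂ) θ) R (by
    rw [Module.finrank_fintype_fun_eq_card, Fintype.card_fin]
    exact h)
  have h1 : ∀ s, δ s ∈ DK K := fun s => hK _ (hδ s).1 fun i => congrFun (hδ s).2 i
  have h2 : LinearIndependent ℂ (fun s => (⟨f (δ s), Submodule.mem_map_of_mem (h1 s)⟩ :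
      (DK K).map f)) := by
    apply LinearIndependent.of_comp (Submodule.subtype _)
    exact hδi
  have h3 := h2.fintype_card_le_finrank
  rwa [Fintype.card_fin] at h3

end I_FinalZM

open I_FinalZM EB.I_FinalZ Pool.Agent.ED in
theorem FinalZM_pf (hA : S_RelAllM) (hP : S_RelPol) : S_FinalZM := by
  classical
  intro m κ r r' N b z ω₁ ω₂ τ μ hm1 hm2 hm3 _ hn hω h1 hμ hrA hrB s k t p hN
  have hB : ∀ (s k : ℕ) (t : Fin s → ℂ) (p : Fin k → ℂ),
      bigField ω₁ ω₂ t p = bigField ω₁ (ω₁ * τ) t p := by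
    intro s k t p
    rcases hω with h | h
    · rw [h]
    · rw [h, bigField_neg]
  have hg : ∀ (s k : ℕ) (t : Fin s → ℂ) (p : Fin k → ℂ), μ ∈ bigField ω₁ ω₂ t p := by
    intro s k t p
    rw [hμ]
    exact inv_mem (big_o1 _ _ _ _)
  set B := bigField ω₁ ω₂ t p with hBdef
  set K := IntermediateField.adjoin ℚ ((B : Set ℂ) ∪ Set.range b) with hK
  have hBK : B ≤ K := fun x hx => IntermediateField.subset_adjoin _ _ (Or.inl hx)
  have hμK : μ ∈ K := hBK (hg s k t p)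
  have hcK : Countable K := by
    refine countable_adjoin _ ?_
    exact (big_countable ω₁ ω₂ t p).union (Set.finite_range b).countable
  have hτK : τ ∈ K := hBK (by rw [hBdef, hB]; exact big_tau t p h1)
  have heK : et τ ∈ K := hBK (by rw [hBdef, hB]; exact big_et t p h1)
  have hkK : kap ∈ K := hBK (by rw [hBdef, hB]; exact big_pi t p h1 hn.im)
  obtain ⟨θ, hθ⟩ := TG.exists_theta _ N hN
  have hDK : ∀ δ ∈ TT b, (∀ i, δ (θ i) = 0) → δ ∈ DK K := by
    intro δ hδ hδθ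
    refine der_zero_adjoin _ δ ?_
    rintro x (hx | ⟨i, rfl⟩)
    · refine der_zero_alg (IntermediateField.adjoin ℚ (Set.range θ)) δ ?_ x (hθ x hx)
      refine der_zero_adjoin (Set.range θ) δ ?_
      rintro _ ⟨i, rfl⟩
      exact hδθ i
    · exact hδ i
  have hr1 : r + m + 1 ≤ rA τ μ b z (DK K) := I_FinalZM.rank_DK b θ K hDK _ _ (by omega)
  have htg : 2 * m - (m + 1) / 2 = 3 * m / 2 := by omega
  have htg2 : m + 3 * m / 2 ≤ tgt true m := by
    unfold tgt
    rw [if_pos rfl]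
    split_ifs with h
    · omega
    · omega
  have hr2 : r + r' + m + 1 ≤ rB τ μ b z (DK K) := I_FinalZM.rank_DK b θ K hDK _ _ (by omega)
  have hr3 : 0 < r' → r' + m + 2 ≤ rA τ μ b z (DK K) ∧ 2 * r' + m + 1 ≤ rB τ μ b z (DK K) := by
    intro hr'
    obtain ⟨e1, e2⟩ := hm3 hr'
    exact ⟨I_FinalZM.rank_DK b θ K hDK _ _ (by omega), I_FinalZM.rank_DK b θ K hDK _ _ (by omega)⟩
  obtain ⟨c₀, c₀', δ, hδ, hdet⟩ := hA τ μ hn K hcK hμK hτK heK hkK m r r' b z hr1 hr2 hr3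
  obtain ⟨P, hP0, hPh, hPc⟩ := hP τ μ hn K hμK hτK heK hkK m r r'
    (fun j => b j * z) (fun j => μ * (b j * z)) c₀ c₀' δ hδ hdet
  refine ⟨P, hP0, hPh, fun c c' hc u v hu hv => ?_⟩
  obtain ⟨hnl, hi⟩ := hPc c c' hc
  have hv' : ∀ i, ∑ j, (c' i j : ℂ) * (μ * (b j * z)) = v i / ω₁ := by
    intro i
    rw [hv i, hμ, Finset.sum_mul, Finset.sum_div]
    exact Finset.sum_congr rfl fun j _ => by ring
  refine ⟨?_, fin_step ω₁ ω₂ t p u v K hBK _ hi ?_ (by simp; omega)⟩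
  · intro i x y hxy
    have h2 := hnl i
    rw [hv' i] at h2
    apply h2
    rw [hxy]
    rcases hω with h | h
    · refine mem_Lam.2 ⟨x, y, ?_⟩
      rw [h]
      field_simp
    · refine mem_Lam.2 ⟨x, -y, ?_⟩
      rw [h]
      push_cast
      field_simp
  have hu' : ∀ i, ∑ j, (c i j : ℂ) * (b j * z) = u i := by
    intro i
    rw [hu i, Finset.sum_mul]
    exact Finset.sum_congr rfl fun j _ => by ring
  have hμL : μ ∈ CD.acl (bigField ω₁ ω₂ (Fin.append t u) (Fin.append p v)) :=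
    CD.le_acl _ (hg _ _ _ _)
  rintro (i | ⟨i, q⟩)
  · simp only [Sum.elim_inl]
    refine CD.le_acl _ ?_
    have h3 := big_exp ω₁ ω₂ (Fin.append t u) (Fin.append p v) (Fin.natAdd s i)
    rw [Fin.append_right] at h3
    rw [hu' i]
    exact h3
  · have h4 : wp 1 τ (v i / ω₁) ∈ CD.acl (bigField ω₁ ω₂ (Fin.append t u) (Fin.append p v)) := by
      refine CD.le_acl _ ?_
      have h3 := big_wp' (τ := τ) (Fin.append t u) (Fin.append p v) h1 (Fin.natAdd k i)
      rw [Fin.append_right] at h3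
      rw [hB]
      exact h3
    have h5 : zt 1 τ (v i / ω₁) ∈ CD.acl (bigField ω₁ ω₂ (Fin.append t u) (Fin.append p v)) := by
      refine CD.le_acl _ ?_
      have h3 := big_zt' (τ := τ) (Fin.append t u) (Fin.append p v) h1 (Fin.natAdd k i)
      rw [Fin.append_right] at h3
      rw [hB]
      exact h3
    simp only [Sum.elim_inr]
    rw [hv' i]
    cases q with
    | true =>
      rw [if_pos rfl]
      exact mul_mem hμL h5
    | false =>
      rw [if_neg (by simp)]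
      exact mul_mem (pow_mem hμL 2) h4

end Pool.Agent.Work.MP_8da9ea_nt.MX
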