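import Pool.Agent.Work.MP_8da9ea_nt.MX.StmtsR
import Pool.Agent.Work.MP_8da9ea_nt.EB.I_RelAll

/-!
# Mixed block: item RelAllM (R2, all points together)
-/

set_option autoImplicit false

namespace Pool.Agent.Work.MP_8da9ea_nt.MX

namespace I_RelAllM

open Pool.Agent.Work.MP_327059_nt.GL Pool.Agent.Work.MP_8da9ea_nt.S
  Pool.Agent.Work.MP_8da9ea_nt.EB Pool.Agent.Work.MP_8da9ea_nt.EB.I_RelAll

/-- the coordinates of `mixA` put together -/
noncomputable def gl {m : ℕ} (A B : Submodule ℂ (Fin m → ℂ)) :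
    (ℂ × (A × B)) →ₗ[ℂ] (Option (Fin m ⊕ Fin m) → ℂ) :=
  LinearMap.pi fun o => o.elim (LinearMap.fst ℂ ℂ (A × B))
    (Sum.elim
      (fun j => (LinearMap.proj j).comp (A.subtype.comp ((LinearMap.fst ℂ A B).comp
        (LinearMap.snd ℂ ℂ (A × B)))))
      (fun j => (LinearMap.proj j).comp (B.subtype.comp ((LinearMap.snd ℂ A B).comp
        (LinearMap.snd ℂ ℂ (A × B))))))

/-- the rank of `mixA` is at most the sum of the ranks of its three parts -/
theorem rA_le (τ μ : ℂ) {m : ℕ} (b : Fin m → ℂ) (z : ℂ)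
    (T : Submodule ℂ (Derivation ℚ ℂ ℂ)) :
    rA τ μ b z T ≤ 1 + (Module.finrank ℂ (T.map (lgV fun j => b j * z)) + rL τ μ b z T) := by
  unfold rA rL
  set A := T.map (lgV fun j => b j * z) with hA
  set B := T.map (lamV τ μ fun j => μ * (b j * z)) with hB
  have h1 : T.map (fam (mixA τ μ b z)) ≤ LinearMap.range (gl A B) := by
    rintro _ ⟨δ, hδ, rfl⟩
    refine ⟨(δ z, (⟨lgV (fun j => b j * z) δ, ⟨δ, hδ, rfl⟩⟩,
      ⟨lamV τ μ (fun j => μ * (b j * z)) δ, ⟨δ, hδ, rfl⟩⟩)), ?_⟩
    funext o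
    rcases o with _ | (j | j)
    · rfl
    · rfl
    · rfl
  have h2 := Submodule.finrank_mono h1
  have h3 := LinearMap.finrank_range_le (gl A B)
  rw [Module.finrank_prod, Module.finrank_prod, Module.finrank_self] at h3
  exact h2.trans h3

theorem rL_le (τ μ : ℂ) {m : ℕ} (b : Fin m → ℂ) (z : ℂ)
    (T : Submodule ℂ (Derivation ℚ ℂ ℂ)) : rL τ μ b z T ≤ m := by
  unfold rL
  refine (Submodule.finrank_le _).trans ?_
  rw [Module.finrank_fintype_fun_eq_card, Fintype.card_fin]

theorem lg_le {m : ℕ} (β : Fin m → ℂ) (T : Submodule ℂ (Derivation ℚ ℂ ℂ)) :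
    Module.finrank ℂ (T.map (lgV β)) ≤ m := by
  refine (Submodule.finrank_le _).trans ?_
  rw [Module.finrank_fintype_fun_eq_card, Fintype.card_fin]

/-- independence of a subfamily -/
theorem Idp.comp {V : Type} [AddCommGroup V] [Module ℂ V] {ι κ : Type} [Fintype ι] [Fintype κ]
    {S : Submodule ℂ V} {f : ι → (V →ₗ[ℂ] ℂ)} (h : Idp S f) (e : κ → ι)
    (he : Function.Injective e) : Idp S (fun k => f (e k)) := by
  classical
  intro a ha
  have h1 : Function.extend e a (fun _ => (0 : ℂ)) = 0 := by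
    apply h
    intro δ hδ
    refine Eq.trans ?_ (ha δ hδ)
    symm
    apply Fintype.sum_of_injective e he
    · intro i hi
      have h2 : Function.extend e a (fun _ => (0 : ℂ)) i = 0 :=
        Function.extend_apply' _ _ _ (fun ⟨k, hk⟩ => hi ⟨k, hk⟩)
      rw [h2, zero_mul]
    · intro k
      rw [he.extend_apply]
  funext k
  have h2 := congrFun h1 (e k)
  rw [he.extend_apply] at h2
  exact h2

/-- the reindexing -/
def ei (r r' : ℕ) : Fin r ⊕ Fin (r' + 1) × Bool → (Fin 1 × Bool) ⊕ (Fin r ⊕ Fin r' × Bool) :=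
  Sum.elim (fun i => Sum.inr (Sum.inl i))
    (fun q => Fin.cases (motive := fun _ => (Fin 1 × Bool) ⊕ (Fin r ⊕ Fin r' × Bool))
      (Sum.inl (0, q.2)) (fun l => Sum.inr (Sum.inr (l, q.2))) q.1)

theorem ei_inj (r r' : ℕ) : Function.Injective (ei r r') := by
  rintro (i | ⟨l, x⟩) (i' | ⟨l', x'⟩) h
  · simp only [ei, Sum.elim_inl, Sum.inr.injEq, Sum.inl.injEq] at h
    rw [h]
  · exfalso
    induction l' using Fin.cases with
    | zero => simp [ei] at h
    | succ l' => simp [ei] at h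
  · exfalso
    induction l using Fin.cases with
    | zero => simp [ei] at h
    | succ l => simp [ei] at h
  · induction l using Fin.cases with
    | zero =>
      induction l' using Fin.cases with
      | zero =>
        simp only [ei, Sum.elim_inr, Fin.cases_zero, Sum.inl.injEq, Prod.mk.injEq, true_and] at h
        rw [h]
      | succ l' => simp [ei] at h
    | succ l =>
      induction l' using Fin.cases with
      | zero => simp [ei] at h
      | succ l' =>
        simp only [ei, Sum.elim_inr, Fin.cases_succ, Sum.inr.injEq, Prod.mk.injEq] at h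
        rw [h.1, h.2]

/-- the forms of the determinant -/
noncomputable def GG (τ μ : ℂ) {m : ℕ} (b : Fin m → ℂ) (z : ℂ) {r r' : ℕ} (j : Fin r → Fin m)
    (c' : Fin r' → Fin m → ℚ) : Fin r ⊕ Fin r' × Bool → (Derivation ℚ ℂ ℂ →ₗ[ℂ] ℂ) :=
  Sum.elim (fun i => lgF (b (j i) * z)) (I_RelAll.FF τ μ (fun l => ePt μ b z (c' l)))

/-- the induction -/
theorem core (h : S_RelStepM) (τ μ : ℂ) (hN : Nrm τ μ) (m r : ℕ) (b : Fin m → ℂ) (z : ℂ)
    (r' : ℕ) : ∀ K : IntermediateField ℚ ℂ, Countable K → μ ∈ K → τ ∈ K → et τ ∈ K → kap ∈ K →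
    r + 1 + rL τ μ b z (DK K) ≤ rA τ μ b z (DK K) →
    r + r' + 1 + rL τ μ b z (DK K) ≤ rB τ μ b z (DK K) →
    (0 < r' → r' + 2 + m ≤ rA τ μ b z (DK K) ∧ m + 1 + 2 * r' ≤ rB τ μ b z (DK K)) →
      ∃ (j : Fin r → Fin m) (c' : Fin r' → Fin m → ℚ), Idp (DK K) (GG τ μ b z j c') := by
  induction r' with
  | zero =>
    intro K hKc hμ hτ he hk h1 h2 h3
    have h4 := rA_le τ μ b z (DK K)
    obtain ⟨j, hj⟩ := I_RelAll.select (DK K) (fun l => lgF (b l * z)) (lgV fun l => b l * z)
      (fun _ _ => rfl) r (by omega)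
    refine ⟨j, Fin.elim0, ?_⟩
    have h5 := Idp.comp hj (Sum.elim id (fun q : Fin 0 × Bool => q.1.elim0)) (by
      rintro (i | ⟨l, x⟩) (i' | ⟨l', x'⟩) h
      · exact congrArg Sum.inl h
      · exact l'.elim0
      · exact l.elim0
      · exact l.elim0)
    have h6 : GG τ μ b z j (Fin.elim0 : Fin 0 → Fin m → ℚ) =
        fun k => (fun i => lgF (b (j i) * z)) ((Sum.elim id (fun q : Fin 0 × Bool => q.1.elim0)) k) := by
      funext o
      rcases o with i | ⟨l, x⟩
      · rfl
      · exact l.elim0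
    rw [h6]
    exact h5
  | succ r' ih =>
    intro K hKc hμ hτ he hk h1 h2 h3
    obtain ⟨h31, h32⟩ := h3 (Nat.succ_pos _)
    have h4 := rA_le τ μ b z (DK K)
    have h4' := lg_le (fun j => b j * z) (DK K)
    obtain ⟨c, hc, hind, hT⟩ := h τ μ hN K hKc hμ hτ he hk m b z (by omega)
    set v : Fin 1 → ℂ := fun _ => ePt μ b z c with hv
    have hI : Idp (DK K) (I_RelAll.FF τ μ v) := by
      intro a ha
      have h5 := hind (a (0, false)) (a (0, true)) (by
        intro δ hδ
        have h6 := ha δ hδ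
        rw [Fintype.sum_prod_type, Fin.sum_univ_one, Fintype.sum_bool, I_RelAll.FF_true, I_RelAll.FF_false] at h6
        rw [← h6]
        simp only [hv]
        ring)
      funext q
      obtain ⟨l, x⟩ := q
      have hl : l = 0 := Subsingleton.elim _ _
      subst hl
      cases x with
      | true => exact h5.2
      | false => exact h5.1
    have hmem := mem_DK_KX τ μ K v hI
    obtain ⟨hA, hB, hL⟩ := hT (DK (KX τ μ K v)) (by
      intro δ
      rw [hmem]
      constructor
      · rintro ⟨h5, h6⟩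
        exact ⟨h5, h6 (0, false), h6 (0, true)⟩
      · rintro ⟨h5, h6, h7⟩
        refine ⟨h5, ?_⟩
        rintro ⟨l, x⟩
        cases x with
        | true => exact h7
        | false => exact h6)
    have hle := le_KX τ μ K v
    obtain ⟨j, c', hj⟩ := ih (KX τ μ K v) (countable_KX τ μ K hKc v) (hle hμ) (hle hτ) (hle he)
      (hle hk) (by omega) (by omega) (by omega)
    refine ⟨j, Fin.cons c c', ?_⟩
    have h5 := Idp.comp (Idp.extend (fun δ hδ => (hmem δ).1 hδ) hI hj) (ei r r') (ei_inj r r')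
    have h6 : GG τ μ b z j (Fin.cons c c' : Fin (r' + 1) → Fin m → ℚ) =
        fun k => (Sum.elim (I_RelAll.FF τ μ v) (GG τ μ b z j c')) (ei r r' k) := by
      funext o
      rcases o with i | ⟨l, x⟩
      · rfl
      · induction l using Fin.cases with
        | zero => cases x <;> rfl
        | succ l => cases x <;> rfl
    rw [h6]
    exact h5

end I_RelAllM

open Pool.Agent.Work.MP_327059_nt.GL Pool.Agent.Work.MP_8da9ea_nt.S
  Pool.Agent.Work.MP_8da9ea_nt.EB Pool.Agent.Work.MP_8da9ea_nt.EB.I_RelAll I_RelAllM in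
/-- **R2: all points together.** -/
theorem RelAllM_pf (h : S_RelStepM) : S_RelAllM := by
  classical
  intro τ μ hN K hKc hμ hτ he hk m r r' b z h1 h2 h3
  have h4 := rL_le τ μ b z (DK K)
  obtain ⟨j, c', hj⟩ := core h τ μ hN m r b z r' K hKc hμ hτ he hk (by omega) (by omega) (by omega)
  obtain ⟨δ, hδ, hdet⟩ := hj.det
  refine ⟨fun i => Pi.single (j i) 1, c', δ, hδ, ?_⟩
  have hu : (fun i : Fin r => ∑ l, (((Pi.single (j i) 1 : Fin m → ℚ) l : ℚ) : ℂ) * (b l * z)) =
      fun i => b (j i) * z := by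
    funext i
    rw [Finset.sum_eq_single (j i)]
    · simp
    · intro l _ hl
      rw [Pi.single_eq_of_ne hl]
      simp
    · intro h
      exact absurd (Finset.mem_univ _) h
  rw [hu]
  convert hdet using 2
  ext o o'
  rw [Matrix.of_apply, Matrix.of_apply]
  rcases o' with i | ⟨l, x⟩
  · rfl
  · cases x with
    | true => rfl
    | false => rfl

end Pool.Agent.Work.MP_8da9ea_nt.MX
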