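import Pool.Agent.Work.MP_8da9ea_nt.MX.StmtsH
import Pool.Agent.Work.MP_8da9ea_nt.EB.I_RelAll

/-!
# Mixed block: item RelAllM2 (H5, all points together, separate tuples)
-/

set_option autoImplicit false

namespace Pool.Agent.Work.MP_8da9ea_nt.MX

namespace I_RelAllM2

open Pool.Agent.Work.MP_327059_nt.GL Pool.Agent.Work.MP_8da9ea_nt.S
  Pool.Agent.Work.MP_8da9ea_nt.EB Pool.Agent.Work.MP_8da9ea_nt.EB.I_RelAll

/-- the dimension of a product of subspaces -/
theorem finrank_prod_le {V W : Type} [AddCommGroup V] [Module ℂ V] [AddCommGroup W] [Module ℂ W]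
    [FiniteDimensional ℂ V] [FiniteDimensional ℂ W] (p : Submodule ℂ V) (q : Submodule ℂ W) :
    Module.finrank ℂ (p.prod q) ≤ Module.finrank ℂ p + Module.finrank ℂ q := by
  rw [← Module.finrank_prod]
  let φ : (p.prod q) →ₗ[ℂ] (p × q) :=
    { toFun := fun x => (⟨x.1.1, x.2.1⟩, ⟨x.1.2, x.2.2⟩)
      map_add' := fun x y => rfl
      map_smul' := fun c x => rfl }
  apply LinearMap.finrank_le_finrank_of_injective (f := φ)
  intro x y hxy
  apply Subtype.ext
  have h1 : φ x = φ y := hxy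
  have h2 : (φ x).1 = (φ y).1 := congrArg Prod.fst h1
  have h3 : (φ x).2 = (φ y).2 := congrArg Prod.snd h1
  exact Prod.ext (congrArg Subtype.val h2) (congrArg Subtype.val h3)

/-- from the components to the family `mixA2` -/
def phi (m m' : ℕ) : (ℂ × ((Fin m → ℂ) × (Fin m' → ℂ))) →ₗ[ℂ] (Option (Fin m ⊕ Fin m') → ℂ) where
  toFun p := fun o => o.elim p.1 (Sum.elim p.2.1 p.2.2)
  map_add' x y := by
    funext o
    rcases o with _ | (j | j) <;> rfl
  map_smul' c x := by
    funext o
    rcases o with _ | (j | j) <;> rfl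

/-- the rank of `mixA2` is at most the sum of the ranks of its components -/
theorem rank_split (τ μ : ℂ) {m m' : ℕ} (b : Fin m → ℂ) (b' : Fin m' → ℂ) (z : ℂ)
    (T : Submodule ℂ (Derivation ℚ ℂ ℂ)) :
    rA2 τ μ b b' z T ≤ 1 + Module.finrank ℂ (T.map (lgV fun j => b j * z)) + rL2 τ μ b' z T := by
  unfold rA2 rL2
  set P : Derivation ℚ ℂ ℂ →ₗ[ℂ] (ℂ × ((Fin m → ℂ) × (Fin m' → ℂ))) :=
    (dL z).prod ((lgV fun j => b j * z).prod (lamV τ μ fun j => μ * (b' j * z))) with hP
  have h1 : fam (mixA2 τ μ b b' z) = (phi m m').comp P := by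
    apply LinearMap.ext
    intro δ
    funext o
    rcases o with _ | (j | j) <;> rfl
  rw [h1, Submodule.map_comp]
  refine (Submodule.finrank_map_le _ _).trans ?_
  have h2 : T.map P ≤ (⊤ : Submodule ℂ ℂ).prod
      ((T.map (lgV fun j => b j * z)).prod (T.map (lamV τ μ fun j => μ * (b' j * z)))) := by
    rintro x ⟨δ, hδ, rfl⟩
    exact ⟨trivial, ⟨δ, hδ, rfl⟩, ⟨δ, hδ, rfl⟩⟩
  have h3 := Submodule.finrank_mono h2
  have h4 := finrank_prod_le (⊤ : Submodule ℂ ℂ)
    ((T.map (lgV fun j => b j * z)).prod (T.map (lamV τ μ fun j => μ * (b' j * z))))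
  have h5 := finrank_prod_le (T.map (lgV fun j => b j * z))
    (T.map (lamV τ μ fun j => μ * (b' j * z)))
  have h6 : Module.finrank ℂ (⊤ : Submodule ℂ ℂ) = 1 := by
    rw [finrank_top, Module.finrank_self]
  omega

/-- the rank of the toric forms is at most their number -/
theorem rank_lg {m : ℕ} (β : Fin m → ℂ) (T : Submodule ℂ (Derivation ℚ ℂ ℂ)) :
    Module.finrank ℂ (T.map (lgV β)) ≤ m := by
  refine (Submodule.finrank_le _).trans ?_
  rw [Module.finrank_fintype_fun_eq_card, Fintype.card_fin]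

/-- the forms of the statement, toric points `b_j z` chosen among the coordinates -/
noncomputable def GG (τ μ : ℂ) {m m' r r' : ℕ} (b : Fin m → ℂ) (b' : Fin m' → ℂ) (z : ℂ)
    (j : Fin r → Fin m) (c' : Fin r' → Fin m' → ℚ) :
    Fin r ⊕ Fin r' × Bool → Derivation ℚ ℂ ℂ →ₗ[ℂ] ℂ :=
  Sum.elim (fun i => lgF (b (j i) * z)) (EB.I_RelAll.FF τ μ (fun i => ePt2 μ b' z (c' i)))

/-- the induction -/
theorem main (h : S_RelStepM2) (τ μ : ℂ) (hN : Nrm τ μ) (m m' r : ℕ) (b : Fin m → ℂ)
    (b' : Fin m' → ℂ) (z : ℂ) (r' : ℕ) : ∀ K : IntermediateField ℚ ℂ, Countable K →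
    μ ∈ K → τ ∈ K → et τ ∈ K → kap ∈ K →
    (0 < r → r + rL2 τ μ b' z (DK K) + 1 ≤ rA2 τ μ b b' z (DK K) ∧
      r + r' + rL2 τ μ b' z (DK K) + 1 ≤ rB2 τ μ b b' z (DK K)) →
    (0 < r' → r' + m + 2 ≤ rA2 τ μ b b' z (DK K) ∧ 2 * r' + m + 1 ≤ rB2 τ μ b b' z (DK K)) →
      ∃ (j : Fin r → Fin m) (c' : Fin r' → Fin m' → ℚ), Idp (DK K) (GG τ μ b b' z j c') := by
  induction r' with
  | zero =>
    intro K hKc hμ hτ he hk h1 _
    have h2 := rank_split τ μ b b' z (DK K)
    obtain ⟨j, hj⟩ := EB.I_RelAll.select (DK K) (fun l => lgF (b l * z)) (lgV fun j => b j * z)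
      (fun _ _ => rfl) r (by
        rcases Nat.eq_zero_or_pos r with h0 | h0
        · omega
        · have := (h1 h0).1
          omega)
    refine ⟨j, fun i => i.elim0, ?_⟩
    intro a ha
    have h3 : (fun i => a (Sum.inl i)) = 0 := by
      apply hj
      intro δ hδ
      have h4 := ha δ hδ
      rw [Fintype.sum_sum_type] at h4
      rw [← h4]
      have h5 : ∑ q : Fin 0 × Bool, a (Sum.inr q) *
          GG τ μ b b' z j (fun i : Fin 0 => (i.elim0 : Fin m' → ℚ)) (Sum.inr q) δ = 0 := by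
        apply Finset.sum_eq_zero
        rintro ⟨q, _⟩ _
        exact q.elim0
      rw [h5, add_zero]
      rfl
    funext o
    rcases o with i | ⟨q, _⟩
    · exact congrFun h3 i
    · exact q.elim0
  | succ r' ih =>
    intro K hKc hμ hτ he hk h1 h2
    obtain ⟨h2a, h2b⟩ := h2 (Nat.succ_pos _)
    have h3 := rank_split τ μ b b' z (DK K)
    have h4 := rank_lg (fun j => b j * z) (DK K)
    obtain ⟨c, hv, hind, hT⟩ := h τ μ hN K hKc hμ hτ he hk m m' b b' z (by omega)
    set v : ℂ := ePt2 μ b' z c with hvdef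
    have hidp : Idp (DK K) (EB.I_RelAll.FF τ μ (fun _ : Fin 1 => v)) := by
      intro a ha
      have h5 := hind (a (0, false)) (a (0, true)) (by
        intro δ hδ
        have h6 := ha δ hδ
        rw [Fintype.sum_prod_type, Fin.sum_univ_one, Fintype.sum_bool, FF_true, FF_false] at h6
        rw [← h6]
        ring)
      funext q
      obtain ⟨q, s⟩ := q
      have hq : q = 0 := Subsingleton.elim _ _
      subst hq
      cases s with
      | true => exact h5.2
      | false => exact h5.1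
    have hmem0 := mem_DK_KX τ μ K (fun _ : Fin 1 => v) hidp
    set K₁ : IntermediateField ℚ ℂ := KX τ μ K (fun _ : Fin 1 => v) with hK₁
    have hmem : ∀ δ, δ ∈ DK K₁ ↔ δ ∈ DK K ∧ lam τ μ δ v = 0 ∧ etf τ μ δ v = 0 := by
      intro δ
      rw [hmem0 δ]
      constructor
      · rintro ⟨h5, h6⟩
        exact ⟨h5, h6 (0, false), h6 (0, true)⟩
      · rintro ⟨h5, h6, h7⟩
        refine ⟨h5, ?_⟩
        rintro ⟨q, s⟩
        cases s with
        | true => exact h7
        | false => exact h6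
    obtain ⟨hA, hB, hL⟩ := hT (DK K₁) hmem
    have hle := le_KX τ μ K (fun _ : Fin 1 => v)
    obtain ⟨j, c', hc'⟩ := ih K₁ (countable_KX τ μ K hKc _) (hle hμ) (hle hτ) (hle he) (hle hk)
      (by
        intro h0
        obtain ⟨h5, h6⟩ := h1 h0
        constructor
        · omega
        · omega)
      (by
        intro h0
        constructor
        · omega
        · omega)
    refine ⟨j, Fin.cons c c', ?_⟩
    have hsplit : ∀ (a : Fin r ⊕ Fin (r' + 1) × Bool → ℂ) (ε : Derivation ℚ ℂ ℂ),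
        ∑ o, a o * GG τ μ b b' z j (Fin.cons c c' : Fin (r' + 1) → Fin m' → ℚ) o ε =
        (∑ o : Fin r ⊕ Fin r' × Bool, (Sum.elim (fun i => a (Sum.inl i))
          (fun q => a (Sum.inr (Fin.succ q.1, q.2))) : Fin r ⊕ Fin r' × Bool → ℂ) o *
            GG τ μ b b' z j c' o ε) +
          (a (Sum.inr (0, false)) * lam τ μ ε v + a (Sum.inr (0, true)) * etf τ μ ε v) := by
      intro a ε
      rw [Fintype.sum_sum_type, Fintype.sum_sum_type, Fintype.sum_prod_type, Fintype.sum_prod_type,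
        Fin.sum_univ_succ]
      have e1 : ∀ i : Fin r, GG τ μ b b' z j (Fin.cons c c' : Fin (r' + 1) → Fin m' → ℚ)
          (Sum.inl i) ε = GG τ μ b b' z j c' (Sum.inl i) ε := fun i => rfl
      have e2 : ∀ (l : Fin r') (s : Bool), GG τ μ b b' z j
          (Fin.cons c c' : Fin (r' + 1) → Fin m' → ℚ) (Sum.inr (Fin.succ l, s)) ε =
          GG τ μ b b' z j c' (Sum.inr (l, s)) ε := by
        intro l s
        cases s with
        | true =>
          show etf τ μ ε (ePt2 μ b' z ((Fin.cons c c' : Fin (r' + 1) → Fin m' → ℚ) l.succ)) =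
            etf τ μ ε (ePt2 μ b' z (c' l))
          rw [Fin.cons_succ]
        | false =>
          show lam τ μ ε (ePt2 μ b' z ((Fin.cons c c' : Fin (r' + 1) → Fin m' → ℚ) l.succ)) =
            lam τ μ ε (ePt2 μ b' z (c' l))
          rw [Fin.cons_succ]
      have e3 : GG τ μ b b' z j (Fin.cons c c' : Fin (r' + 1) → Fin m' → ℚ)
          (Sum.inr (0, true)) ε = etf τ μ ε v := by
        show etf τ μ ε (ePt2 μ b' z ((Fin.cons c c' : Fin (r' + 1) → Fin m' → ℚ) 0)) = _
        rw [Fin.cons_zero]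
      have e4 : GG τ μ b b' z j (Fin.cons c c' : Fin (r' + 1) → Fin m' → ℚ)
          (Sum.inr (0, false)) ε = lam τ μ ε v := by
        show lam τ μ ε (ePt2 μ b' z ((Fin.cons c c' : Fin (r' + 1) → Fin m' → ℚ) 0)) = _
        rw [Fin.cons_zero]
      simp only [Fintype.sum_bool, e1, e2, e3, e4, Sum.elim_inl, Sum.elim_inr]
      ring
    intro a ha
    have hrest := hc' _ (by
      intro ε hε
      obtain ⟨h5, h6, h7⟩ := (hmem ε).1 hε
      have h8 := ha ε h5
      rw [hsplit, h6, h7, mul_zero, mul_zero, add_zero, add_zero] at h8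
      exact h8)
    have hlast := hind (a (Sum.inr (0, false))) (a (Sum.inr (0, true))) (by
      intro ε hε
      have h8 := ha ε hε
      rw [hsplit, hrest] at h8
      simpa using h8)
    funext o
    rcases o with i | ⟨q, s⟩
    · exact congrFun hrest (Sum.inl i)
    · refine Fin.cases ?_ (fun q => ?_) q
      · cases s with
        | true => exact hlast.2
        | false => exact hlast.1
      · exact congrFun hrest (Sum.inr (q, s))

end I_RelAllM2

open Pool.Agent.Work.MP_327059_nt.GL Pool.Agent.Work.MP_8da9ea_nt.S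
  Pool.Agent.Work.MP_8da9ea_nt.EB Pool.Agent.Work.MP_8da9ea_nt.EB.I_RelAll I_RelAllM2 in
/-- **H5: all points together.** -/
theorem RelAllM2_pf (h : S_RelStepM2) : S_RelAllM2 := by
  classical
  intro τ μ hN K hKc hμ hτ he hk m m' r r' b b' z h1 h2
  have hL : rL2 τ μ b' z (DK K) ≤ m' := by
    unfold rL2
    refine (Submodule.finrank_le _).trans ?_
    rw [Module.finrank_fintype_fun_eq_card, Fintype.card_fin]
  obtain ⟨j, c', hc'⟩ := main h τ μ hN m m' r b b' z r' K hKc hμ hτ he hk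
    (by
      intro h0
      obtain ⟨h3, h4⟩ := h1 h0
      constructor
      · omega
      · omega) h2
  obtain ⟨δ, hδ, hdet⟩ := hc'.det
  refine ⟨fun i => Pi.single (j i) 1, c', δ, hδ, ?_⟩
  have hu : (fun i : Fin r => ∑ l, (((Pi.single (j i) 1 : Fin m → ℚ) l : ℚ) : ℂ) * (b l * z)) =
      fun i => b (j i) * z := by
    funext i
    rw [Finset.sum_eq_single (j i)]
    · simp
    · intro l _ hl
      rw [Pi.single_eq_of_ne hl]
      simp
    · intro h
      exact absurd (Finset.mem_univ _) h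
  rw [hu]
  convert hdet using 2
  ext o o'
  rw [Matrix.of_apply, Matrix.of_apply]
  rcases o' with i | ⟨l, b⟩
  · rfl
  · cases b with
    | true => rfl
    | false => rfl

end Pool.Agent.Work.MP_8da9ea_nt.MX
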