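import Pool.Agent.Work.MP_8da9ea_nt.MX.StmtsH
import Pool.Agent.Work.MP_8da9ea_nt.MX.I_RelStepM

/-!
# Mixed block, separate tuples, item H4: one elliptic point
-/

set_option autoImplicit false

namespace Pool.Agent.Work.MP_8da9ea_nt.MX

open MvPolynomial Pool.Agent.Work.MP_327059_nt.GL Pool.Agent.Work.MP_8da9ea_nt.S
  Pool.Agent.Work.MP_8da9ea_nt.EB

namespace I_RelStepM2

/-- the injection of the index sets -/
def inA2 (m m' : ℕ) : Option (Fin m ⊕ Fin m') → J4 m m' := fun o =>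
  o.elim none (Sum.elim (fun j => some (Sum.inl j)) (fun j => some (Sum.inr (Sum.inl j))))

lemma famA2_eq (τ μ : ℂ) {m m' : ℕ} (b : Fin m → ℂ) (b' : Fin m' → ℂ) (z : ℂ) :
    fam (mixA2 τ μ b b' z) =
      (LinearMap.funLeft ℂ ℂ (inA2 m m')).comp (fam (mixB2 τ μ b b' z)) := by
  ext δ o
  rcases o with _ | j | j <;> rfl

end I_RelStepM2

open I_RelStepM I_RelStepM2

theorem RelStepM2_pf (h : S_RelStepE) : S_RelStepM2 := by
  intro τ μ hN K hK hμ hτ het hkap m m' b b' z hrk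
  have hk1 : ∀ δ ∈ DK K, δ (μ * et τ) = 0 := fun δ hδ => hδ _ (K.mul_mem hμ het)
  have hk2 : ∀ δ ∈ DK K, δ (μ * (τ * et τ - kap)) = 0 := fun δ hδ =>
    hδ _ (K.mul_mem hμ (K.sub_mem (K.mul_mem hτ het) hkap))
  let β : Fin m' → ℂ := fun j => μ * (b' j * z)
  have hlam : ∀ (c : Fin m' → ℚ) (δ : Derivation ℚ ℂ ℂ),
      lam τ μ δ (∑ j, (c j : ℂ) * β j) = ∑ j, (c j : ℂ) * lam τ μ δ (β j) :=
    fun c δ => I_RelStepE.sum_rat (lam τ μ δ) (LamAdd_pf τ μ hN δ) c β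
  have heta : ∀ (c : Fin m' → ℚ) (δ : Derivation ℚ ℂ ℂ), δ ∈ DK K →
      etf τ μ δ (∑ j, (c j : ℂ) * β j) = ∑ j, (c j : ℂ) * etf τ μ δ (β j) :=
    fun c δ hδ => I_RelStepE.sum_rat (etf τ μ δ)
      (EtaAdd_pf LamAdd_pf τ μ hN δ (hk1 δ hδ) (hk2 δ hδ)) c β
  obtain ⟨c₀, δ₁, hδ₁, δ₂, hδ₂, hdet⟩ := h τ μ hN K hK hμ hτ het hkap m' β hrk
  rw [hlam, hlam, heta _ _ hδ₁, heta _ _ hδ₂] at hdet
  -- the spaces
  set V : Submodule ℂ (J4 m m' → ℂ) := (DK K).map (fam (mixB2 τ μ b b' z)) with hV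
  let p : (J4 m m' → ℂ) →ₗ[ℂ] (Option (Fin m ⊕ Fin m') → ℂ) := LinearMap.funLeft ℂ ℂ (inA2 m m')
  let eL : Fin m' → J4 m m' := fun j => some (Sum.inr (Sum.inl j))
  let eE : Fin m' → J4 m m' := fun j => some (Sum.inr (Sum.inr j))
  -- the choice of `c`
  have hch : ∃ c : Fin m' → ℚ,
      (∑ j, (c j : ℂ) * lam τ μ δ₁ (β j)) * (∑ j, (c j : ℂ) * etf τ μ δ₂ (β j)) ≠
        (∑ j, (c j : ℂ) * lam τ μ δ₂ (β j)) * (∑ j, (c j : ℂ) * etf τ μ δ₁ (β j)) ∧
      (V ⊓ LinearMap.ker p = ⊥ ∨ ∃ n ∈ V, p n = 0 ∧ fu c eE n ≠ 0) := by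
    by_cases hbot : V ⊓ LinearMap.ker p = ⊥
    · exact ⟨c₀, hdet, Or.inl hbot⟩
    · obtain ⟨n, hn, hn0⟩ := Submodule.exists_mem_ne_zero_of_ne_bot hbot
      have hpn : p n = 0 := hn.2
      have hj : ∃ j, n (eE j) ≠ 0 := by
        by_contra hcon
        push Not at hcon
        apply hn0
        funext o
        rcases o with _ | j | j | j
        · exact congrFun hpn none
        · exact congrFun hpn (some (Sum.inl j))
        · exact congrFun hpn (some (Sum.inr j))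
        · exact hcon j
      obtain ⟨j₀, hj₀⟩ := hj
      -- the line `c₀ + t e_{j₀}`
      have hline : ∀ (t : ℚ) (g : Fin m' → ℂ),
          ∑ j, (((c₀ + t • Pi.single j₀ (1 : ℚ) : Fin m' → ℚ) j : ℚ) : ℂ) * g j =
            ∑ j, (c₀ j : ℂ) * g j + g j₀ * (t : ℂ) := by
        intro t g
        have h1 : ∀ j, (((c₀ + t • Pi.single j₀ (1 : ℚ) : Fin m' → ℚ) j : ℚ) : ℂ) * g j =
            (c₀ j : ℂ) * g j + (if j = j₀ then (t : ℂ) * g j else 0) := by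
          intro j
          rw [Pi.add_apply, Pi.smul_apply, smul_eq_mul]
          by_cases hjj : j = j₀
          · subst hjj
            rw [Pi.single_eq_same, if_pos rfl]
            push_cast
            ring
          · rw [Pi.single_eq_of_ne hjj, if_neg hjj]
            push_cast
            ring
        rw [Finset.sum_congr rfl fun j _ => h1 j, Finset.sum_add_distrib,
          Finset.sum_ite_eq' Finset.univ j₀, if_pos (Finset.mem_univ _)]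
        ring
      set a1 := ∑ j, (c₀ j : ℂ) * lam τ μ δ₁ (β j)
      set a2 := ∑ j, (c₀ j : ℂ) * lam τ μ δ₂ (β j)
      set e1 := ∑ j, (c₀ j : ℂ) * etf τ μ δ₁ (β j)
      set e2 := ∑ j, (c₀ j : ℂ) * etf τ μ δ₂ (β j)
      obtain ⟨t, ht1, ht2⟩ := exists_rat (a1 * e2 - a2 * e1)
        (a1 * etf τ μ δ₂ (β j₀) + lam τ μ δ₁ (β j₀) * e2 - a2 * etf τ μ δ₁ (β j₀) -
          lam τ μ δ₂ (β j₀) * e1)
        (lam τ μ δ₁ (β j₀) * etf τ μ δ₂ (β j₀) - lam τ μ δ₂ (β j₀) * etf τ μ δ₁ (β j₀))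
        (∑ j, (c₀ j : ℂ) * n (eE j)) (n (eE j₀)) (sub_ne_zero.2 hdet) hj₀
      refine ⟨c₀ + t • Pi.single j₀ (1 : ℚ), ?_, Or.inr ⟨n, hn.1, hpn, ?_⟩⟩
      · rw [hline, hline, hline, hline]
        intro h2
        apply ht1
        linear_combination h2
      · rw [fu_apply, hline t (fun j => n (eE j))]
        exact ht2
  obtain ⟨c, hc1, hc2⟩ := hch
  have hP : ePt2 μ b' z c = ∑ j, (c j : ℂ) * β j := rfl
  have hL : ∀ δ, lam τ μ δ (ePt2 μ b' z c) = fu c eL (fam (mixB2 τ μ b b' z) δ) := by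
    intro δ
    rw [hP, hlam, fu_apply]
    rfl
  have hE : ∀ δ ∈ DK K, etf τ μ δ (ePt2 μ b' z c) = fu c eE (fam (mixB2 τ μ b b' z) δ) := by
    intro δ hδ
    rw [hP, heta c δ hδ, fu_apply]
    rfl
  -- independence
  have hind : ∀ a a' : ℂ, (∀ δ ∈ DK K, a * lam τ μ δ (ePt2 μ b' z c) +
      a' * etf τ μ δ (ePt2 μ b' z c) = 0) → a = 0 ∧ a' = 0 := by
    intro a a' h1
    have h2 := h1 δ₁ hδ₁
    have h3 := h1 δ₂ hδ₂
    rw [hP, hlam, heta c _ hδ₁] at h2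
    rw [hP, hlam, heta c _ hδ₂] at h3
    have h4 := sub_ne_zero.2 hc1
    constructor
    · apply (mul_eq_zero.1 (?_ : a * _ = 0)).resolve_right h4
      linear_combination (∑ j, (c j : ℂ) * etf τ μ δ₂ (β j)) * h2 -
        (∑ j, (c j : ℂ) * etf τ μ δ₁ (β j)) * h3
    · apply (mul_eq_zero.1 (?_ : a' * _ = 0)).resolve_right h4
      linear_combination (∑ j, (c j : ℂ) * lam τ μ δ₁ (β j)) * h3 -
        (∑ j, (c j : ℂ) * lam τ μ δ₂ (β j)) * h2
  have hex : ∃ δ ∈ DK K, lam τ μ δ (ePt2 μ b' z c) ≠ 0 := by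
    by_contra hcon
    push Not at hcon
    have h1 := hind 1 0 (fun δ hδ => by rw [hcon δ hδ]; ring)
    exact one_ne_zero h1.1
  obtain ⟨δ₃, hδ₃, hne₃⟩ := hex
  refine ⟨c, ?_, hind, ?_⟩
  · intro h1
    apply hne₃
    unfold lam
    rw [if_pos h1]
  · intro T₁ hT₁
    have hcore := core V p (fu c eL) (fu c eE) hc2
    have hmapB : T₁.map (fam (mixB2 τ μ b b' z)) =
        V ⊓ LinearMap.ker (fu c eL) ⊓ LinearMap.ker (fu c eE) := by
      ext w
      constructor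
      · rintro ⟨δ, hδ, rfl⟩
        obtain ⟨h1, h2, h3⟩ := (hT₁ δ).1 hδ
        refine ⟨⟨⟨δ, h1, rfl⟩, ?_⟩, ?_⟩
        · show fu c eL _ = 0
          rw [← hL]
          exact h2
        · show fu c eE _ = 0
          rw [← hE δ h1]
          exact h3
      · rintro ⟨⟨⟨δ, h1, rfl⟩, h2⟩, h3⟩
        rw [SetLike.mem_coe, LinearMap.mem_ker, ← hL] at h2
        rw [SetLike.mem_coe, LinearMap.mem_ker, ← hE δ h1] at h3
        exact ⟨δ, (hT₁ δ).2 ⟨h1, h2, h3⟩, rfl⟩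
    have hA : ∀ T : Submodule ℂ (Derivation ℚ ℂ ℂ), rA2 τ μ b b' z T =
        Module.finrank ℂ ((T.map (fam (mixB2 τ μ b b' z))).map p) := by
      intro T
      unfold rA2
      rw [famA2_eq, Submodule.map_comp]
    have hB : ∀ T : Submodule ℂ (Derivation ℚ ℂ ℂ), rB2 τ μ b b' z T =
        Module.finrank ℂ (T.map (fam (mixB2 τ μ b b' z))) := fun T => rfl
    refine ⟨?_, ?_, ?_⟩
    · rw [hA, hA, hB, hmapB]
      exact hcore.1
    · rw [hB, hB, hmapB]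
      exact hcore.2
    · unfold rL2
      let l : (Fin m' → ℂ) →ₗ[ℂ] ℂ := fu c id
      have hl : ∀ δ, lam τ μ δ (ePt2 μ b' z c) = l (lamV τ μ (fun j => μ * (b' j * z)) δ) := by
        intro δ
        rw [hP, hlam]
        show _ = fu c id _
        rw [fu_apply]
        rfl
      have h1 : T₁.map (lamV τ μ fun j => μ * (b' j * z)) ≤
          (DK K).map (lamV τ μ fun j => μ * (b' j * z)) ⊓ LinearMap.ker l := by
        rintro _ ⟨δ, hδ, rfl⟩
        obtain ⟨h1, h2, _⟩ := (hT₁ δ).1 hδ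
        refine ⟨⟨δ, h1, rfl⟩, ?_⟩
        rw [SetLike.mem_coe, LinearMap.mem_ker, ← hl]
        exact h2
      have h2 := Submodule.finrank_mono h1
      have h3 := fr_fun' ((DK K).map (lamV τ μ fun j => μ * (b' j * z))) l
        (lamV τ μ (fun j => μ * (b' j * z)) δ₃) ⟨δ₃, hδ₃, rfl⟩ (by rw [← hl]; exact hne₃)
      omega

end Pool.Agent.Work.MP_8da9ea_nt.MX
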