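import Pool.Agent.Work.MP_8da9ea_nt.MX.FinalF
import Pool.Agent.Work.MP_8da9ea_nt.MX.I_RelPtM

/-!
# Mixed block: quotients of numbers of finite type
-/

set_option autoImplicit false

namespace Pool.Agent.Work.MP_8da9ea_nt.MX

open MvPolynomial Pool.Agent.Work.MP_327059_nt.GL Pool.Agent.Work.MP_8da9ea_nt.S
  Pool.Agent.Work.MP_8da9ea_nt.EB

namespace Ratio

/-- homogenised polynomial -/
noncomputable def hom {m : ℕ} (j₀ : Fin m) (P : MvPolynomial (Fin m) ℤ) : MvPolynomial (Fin m) ℤ :=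
  ∑ u ∈ P.support, monomial (u + Finsupp.single j₀ (P.totalDegree - u.degree)) (P.coeff u)

theorem deg_le {m : ℕ} (P : MvPolynomial (Fin m) ℤ) (u : Fin m →₀ ℕ) (hu : u ∈ P.support) :
    u.degree ≤ P.totalDegree := by
  have := le_totalDegree hu
  simpa [Finsupp.sum, Finsupp.degree] using this

theorem hom_deg {m : ℕ} (j₀ : Fin m) (P : MvPolynomial (Fin m) ℤ) :
    (hom j₀ P).totalDegree ≤ P.totalDegree := by
  unfold hom
  refine totalDegree_finsetSum_le fun u hu => ?_
  refine (totalDegree_monomial_le _ _).trans ?_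
  have h1 := deg_le P u hu
  have h2 : (u + Finsupp.single j₀ (P.totalDegree - u.degree)).degree = P.totalDegree := by
    rw [map_add, Finsupp.degree_single]
    omega
  have h3 : ((u + Finsupp.single j₀ (P.totalDegree - u.degree)).sum fun _ e => e) =
      (u + Finsupp.single j₀ (P.totalDegree - u.degree)).degree := by
    simp [Finsupp.sum, Finsupp.degree]
  first
    | exact (h3.trans h2).le
    | exact h2.le

theorem hom_len {m : ℕ} (j₀ : Fin m) (P : MvPolynomial (Fin m) ℤ) :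
    len (hom j₀ P) ≤ len P := by
  unfold hom
  refine (Val_len_sum _ _).trans ?_
  unfold len
  exact Finset.sum_le_sum fun u _ => Val_len_monomial _ _

theorem hom_val {m : ℕ} (j₀ : Fin m) (P : MvPolynomial (Fin m) ℤ) (c : Fin m → ℂ) (h : c j₀ ≠ 0) :
    aeval c (hom j₀ P) = c j₀ ^ P.totalDegree * aeval (fun i => c i / c j₀) P := by
  have e : aeval (fun i => c i / c j₀) P =
      ∑ u ∈ P.support, aeval (fun i => c i / c j₀) (monomial u (P.coeff u)) := by
    conv_lhs => rw [P.as_sum, map_sum]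
  rw [e, Finset.mul_sum]
  unfold hom
  rw [map_sum]
  refine Finset.sum_congr rfl fun u hu => ?_
  have h1 := deg_le P u hu
  rw [aeval_monomial, aeval_monomial]
  have h2 : (u + Finsupp.single j₀ (P.totalDegree - u.degree)).prod (fun i k => c i ^ k) =
      u.prod (fun i k => c i ^ k) * c j₀ ^ (P.totalDegree - u.degree) := by
    rw [Finsupp.prod_add_index' (by simp) (by intro a b₁ b₂; rw [pow_add]),
      Finsupp.prod_single_index (by simp)]
  have h3 : u.prod (fun i k => (c i / c j₀) ^ k) * c j₀ ^ u.degree = u.prod (fun i k => c i ^ k) := by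
    have h4 : c j₀ ^ u.degree = u.prod (fun _ k => c j₀ ^ k) := by
      simp [Finsupp.prod, Finsupp.degree, Finset.prod_pow_eq_pow_sum]
    rw [h4, ← Finsupp.prod_mul]
    refine Finsupp.prod_congr fun i _ => ?_
    rw [div_pow, div_mul_cancel₀ _ (pow_ne_zero _ h)]
  rw [h2, ← h3]
  have h5 : c j₀ ^ P.totalDegree = c j₀ ^ u.degree * c j₀ ^ (P.totalDegree - u.degree) := by
    rw [← pow_add]
    congr 1
    omega
  rw [h5]
  ring

theorem ft_ratio {Q m : ℕ} (c : Fin m → ℂ) (j₀ : Fin m) (h0 : c j₀ ≠ 0) (h : FT Q c) :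
    FT (Q + 1) (fun i => c i / c j₀) := by
  obtain ⟨C, hC, h⟩ := h
  set M : ℝ := max 1 ‖c j₀‖ with hM
  have hM1 : 1 ≤ M := le_max_left _ _
  refine ⟨C + Real.log M, ?_, fun P t ht hd hl hne => ?_⟩
  · have := Real.log_nonneg hM1
    linarith
  have h1 : aeval c (hom j₀ P) ≠ 0 := by
    rw [hom_val j₀ P c h0]
    exact mul_ne_zero (pow_ne_zero _ h0) hne
  have h2 := h (hom j₀ P) t ht ((Nat.cast_le.2 (hom_deg j₀ P)).trans hd) ((hom_len j₀ P).trans hl) h1
  rw [hom_val j₀ P c h0, norm_mul, norm_pow] at h2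
  have h3 : ‖c j₀‖ ^ P.totalDegree ≤ Real.exp (Real.log M * t) := by
    calc ‖c j₀‖ ^ P.totalDegree ≤ M ^ P.totalDegree :=
          pow_le_pow_left₀ (norm_nonneg _) (le_max_right _ _) _
      _ = Real.exp (Real.log M * P.totalDegree) := by
          rw [Real.exp_mul, Real.exp_log (by linarith), Real.rpow_natCast]
      _ ≤ Real.exp (Real.log M * t) := by
          refine Real.exp_le_exp.2 (mul_le_mul_of_nonneg_left hd (Real.log_nonneg hM1))
  have h4 : Real.exp (-(C * t ^ Q)) ≤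
      Real.exp (Real.log M * t) * ‖aeval (fun i => c i / c j₀) P‖ :=
    h2.trans (mul_le_mul_of_nonneg_right h3 (norm_nonneg _))
  have h5 : Real.exp (-(C * t ^ Q) - Real.log M * t) ≤ ‖aeval (fun i => c i / c j₀) P‖ := by
    rw [Real.exp_sub, div_le_iff₀ (Real.exp_pos _)]
    exact h4.trans (le_of_eq (mul_comm _ _))
  refine le_trans (Real.exp_le_exp.2 ?_) h5
  have h6 : t ^ Q ≤ t ^ (Q + 1) := pow_le_pow_right₀ ht (by omega)
  have h7 : t ≤ t ^ (Q + 1) := by
    calc t = t ^ 1 := (pow_one t).symm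
      _ ≤ t ^ (Q + 1) := pow_le_pow_right₀ ht (by omega)
  have h8 := mul_le_mul_of_nonneg_left h6 (show 0 ≤ C by linarith)
  have h9 := mul_le_mul_of_nonneg_left h7 (Real.log_nonneg hM1)
  nlinarith

theorem ft_mono {Q m : ℕ} (c : Fin m → ℂ) (h : FT Q c) : FT (Q + 1) c := by
  obtain ⟨C, hC, h⟩ := h
  refine ⟨C, hC, fun P t ht hd hl hne => le_trans (Real.exp_le_exp.2 ?_) (h P t ht hd hl hne)⟩
  have h6 : t ^ Q ≤ t ^ (Q + 1) := pow_le_pow_right₀ ht (by omega)
  have := mul_le_mul_of_nonneg_left h6 (show 0 ≤ C by linarith)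
  linarith

theorem mem_adj {n : Type} (y : n → ℂ) (i : n) : y i ∈ IntermediateField.adjoin ℚ (Set.range y) :=
  IntermediateField.subset_adjoin ℚ _ ⟨i, rfl⟩

theorem alg_mem {n : Type} (y : n → ℂ) (a : ℂ) (h : a ∈ IntermediateField.adjoin ℚ (Set.range y)) :
    AlgOver y a := by
  unfold AlgOver
  exact isAlgebraic_algebraMap (⟨a, h⟩ : IntermediateField.adjoin ℚ (Set.range y))

/-- transfer of independent elements -/
theorem transfer {α β : Type} [Fintype α] [Fintype β] (x : α → ℂ) (y : β → ℂ) (d : ℕ)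
    (hxy : ∀ a, x a ∈ IntermediateField.adjoin ℚ (Set.range y)) (s : Fin d → α)
    (hs : AlgebraicIndependent ℚ fun i => x (s i)) :
    ∃ s' : Fin d → β, AlgebraicIndependent ℚ fun i => y (s' i) := by
  obtain ⟨r, sb, hind, halg⟩ := pr_TrBasis β y
  have h3 := pr_TrCount (Fin d) (Fin r) (fun i => x (s i)) (fun i => y (sb i)) hs
    (fun i => I_RelPtM.alg_trans y _ _ (alg_mem y _ (hxy (s i))) halg)
  rw [Fintype.card_fin, Fintype.card_fin] at h3
  exact ⟨fun i => sb (Fin.castLE h3 i), hind.comp (Fin.castLE h3) (Fin.castLE_injective h3)⟩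

theorem tr_ratio {m κ : ℕ} (c : Fin m → ℂ) (j₀ : Fin m) (h : TrLe κ c) :
    TrLe κ (fun i => c i / c j₀) := by
  intro s hs
  obtain ⟨s', hs'⟩ := transfer (fun i => c i / c j₀) c (κ + 1)
    (fun i => div_mem (mem_adj c i) (mem_adj c j₀)) s hs
  exact h s' hs'

end Ratio

end Pool.Agent.Work.MP_8da9ea_nt.MX
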