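import Pool.Agent.Work.MP_8da9ea_nt.MX.DefsG
import Pool.Agent.Work.MP_8da9ea_nt.MX.StmtsT

/-!
# Mixed block, Part G: statements

All proofs are in the docstrings; the paper proof is note 3916 on `MP_8da9ea_nt`.
-/

set_option autoImplicit false

namespace Pool.Agent.Work.MP_8da9ea_nt.MX

open MvPolynomial Pool.Agent.Work.MP_327059_nt.GL Pool.Agent.Work.MP_8da9ea_nt.S
  Pool.Agent.Work.MP_8da9ea_nt.EB

/-! ## The corrected form of the second kind -/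

/-- G1. PROOF: `EB/I_EtaAdd.lean` contains the generic case `gen` (`u, v, u + v ∉ Λ`, no condition on `δ`), `neg`, and
`xe_add, ye_add, ze_add` (`ze τ μ (u + w) = ze τ μ u + μ * qp τ w` for `w ∈ Λ`, as
`qp τ (m + nτ) = m et τ + n (τ et τ - kap)`), so `etC (u + w) = etC u + δ (μ qp τ w)` for `w ∈ Λ` and every `u`. `qp τ` is
additive (it is real linear). `LamAdd_pf : S_LamAdd` is landed (`EB/I_LamAdd.lean`). -/
def S_EtaAddC : Prop := ∀ (τ μ : ℂ), Nrm τ μ → ∀ (δ : Derivation ℚ ℂ ℂ) (u v : ℂ),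
  etC τ μ δ (u + v) = etC τ μ δ u + etC τ μ δ v

/-- G2. For an endomorphism `g` there is an algebraic number `s` with
`etC (g u) = ḡ etC u + s (λ(u) - δ(u/μ))` for ALL `δ` and `u`.
PROOF: adapt `FR/I_EtaMul.lean` (`end_case`). Let `g ≠ 0` be integral; `CD.prf_Sum` gives a finite set `W` of representatives of
`g⁻¹Λ/Λ` (torsion points; `|W| = g ḡ`, `FR.I_EtaMul.card_eq`) and constants with `g² ℘(gz) = ∑_w ℘(z + w) + c`,
`g ζ(gz) = ∑_w ζ(z + w) + c₁ z + c₀` whenever `g z ∉ Λ`. (i) `c₁ = -c` (differentiate; or: compare at `z + 1`, `z + τ` and use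
Legendre; differentiation is simplest: both sides are analytic near a `z` with `g z ∉ Λ`, `ζ' = -℘`).
(ii) `c₀ = -qp τ (∑_w w)`: replace `z` by `-z`; `ζ` is odd; `w ↦ -w` permutes `W` modulo `Λ`: `-w = w' - ω_w` with
`∑ ω_w = 2 ∑ w`, and `ζ(z + w' - ω_w) = ζ(z + w') - qp τ ω_w`.
(iii) `s₀ := μ² c` is algebraic: `μ² c = g² X(g z) - ∑ X(z + w)` for a torsion point `z` with `g z ∉ Λ`, and `X` of a torsion
point outside `Λ` is algebraic: `λ_δ` of it is `0` for all `δ` by additivity, so use `LamZero_pf : S_LamZero` with `E` = the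
field of algebraic numbers. (iv) For `w` torsion `etC τ μ δ w = δ (μ qp τ w)` (multiply by an integer `N` with `N w ∈ Λ`, G1),
so for `g u ∉ Λ`, applying `δ` to `g ze(gu) = ∑ ze(u + w) + μ c₁ u + μ c₀` and using `lam (u + w) = lam u`,
`etC (u + w) = etC u + δ (μ qp τ w)`: `g etC (g u) = (g ḡ) etC u + s₀ (λ(u) - δ(u/μ))` (`μ c₁ u = -s₀ (u/μ)`, `δ s₀ = 0`,
`δ g = 0`). If `g u ∈ Λ` write `u = (u - u') + u'` with `u'` a point with `g u' ∉ Λ`, `g (u - u') ∉ Λ`, and use additivity (G1,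
`LamAdd_pf`). `s = s₀ / g`. For general `g`: `N g` is integral, `etC (N u) = N etC u`. -/
def S_EtaMulC : Prop := ∀ (τ μ : ℂ), Nrm τ μ → ∀ g : ℂ, IsE τ g → ∃ s : ℂ, IsAlgebraic ℚ s ∧
  ∀ (δ : Derivation ℚ ℂ ℂ) (u : ℂ), etC τ μ δ (g * u) =
    (starRingEnd ℂ) g * etC τ μ δ u + s * (lam τ μ δ u - δ (u / μ))

/-- G3 (from G1, G2). PROOF. `etC`, `lam`, `δ(·/μ)` are additive in `u`, hence `ℚ`-linear. If every `g` with `IsE τ g` is real,
then it is rational (`N g ∈ Λ`, imaginary part `0`), and `α = 0` works. Otherwise let `g₀` be a non-real one, `s₀` from G2,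
`α = s₀ / (ḡ₀ - g₀)`. Then `etT (g₀ u) = ḡ₀ etT u` as `δ (g₀ u / μ) = g₀ δ(u/μ)` (`g₀` is algebraic, `S_Kf`),
`lam (g₀ u) = g₀ lam u` (`LamMul`). Every `g` with `IsE τ g` is `p + q g₀` with `p, q` rational (`kf_rank` in `EB/I_GCoreE.lean`:
`[kf τ : ℚ] ≤ 2`; or directly), and both sides are `ℚ`-linear in `g`. -/
def S_EtT : Prop := ∀ (τ μ : ℂ), Nrm τ μ → ∃ α : ℂ, Alp τ μ α

/-- G4. Additivity of all forms. PROOF: `LamAdd_pf`, G1 and `exp (a + b) = exp a exp b`. -/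
def S_FOadd : Prop := ∀ (f : Bool) (τ μ α : ℂ), Nrm τ μ → ∀ (m : ℕ) (b : Fin m → ℂ) (o : J3 m) (y y' : ℂ),
  FO f τ μ α b (y + y') o = FO f τ μ α b y o + FO f τ μ α b y' o

/-- G5. Closedness of all forms on the derivations killing `b` (and `α`). PROOF: `EB.Closed_pf` for `lam` and `etf`; for lattice
points `etC` is `δ ↦ δ (number)`; `th`: as in `FR/I_RelStab.lean`; `δ ↦ δ y` is clear. (`μ b_j y / μ = b_j y`, and
`D b_j = 0` is not even needed: `δ ↦ δ(number)` is closed.) `D α = 0` as `α` is algebraic. -/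
def S_FOclosed : Prop := ∀ (f : Bool) (τ μ α : ℂ), Nrm τ μ → Alp τ μ α → ∀ (m : ℕ) (b : Fin m → ℂ)
  (o : J3 m) (y : ℂ) (D δ : Derivation ℚ ℂ ℂ),
  D (FO f τ μ α b y o δ) - δ (FO f τ μ α b y o D) = FO f τ μ α b y o ⁅D, δ⁆

/-! ## Relations over a countable algebraically closed field -/

/-- G6 (**mixed theorem of Ax, span form**). PROOF. Toric part: let `S = {y : e^y ∈ E}`, a `ℚ`-subspace of `ℂ` (`E` is
algebraically closed). Choose a maximal subfamily `u_q` (`q ∈ Q₁ ⊆ P`) of the `u_p` which is `ℚ`-independent modulo `S`; then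
`u_p = ∑_q r_pq u_q + s_p`, `s_p ∈ S`, `r_pq ∈ ℚ` (for `p ∈ Q₁`: `r_pq = [p = q]`, `s_p = 0`). Elliptic part: the same over `kf τ`
with `S' = {y : y ∈ Λ ∨ X(y) ∈ E}`, a `kf τ`-subspace by `LamZero_pf`, `LamAdd_pf`, `LamMul`: `w_p = ∑_q g_pq w_q + s'_p`
(`q ∈ Q₂`). For `δ ∈ DK E`: `th δ` is `ℚ`-linear, `th δ (s_p) = 0`; `lam (s'_p) = 0`;
`etT (w_p) = ∑_q ḡ_pq etT (w_q) + etT (s'_p)`, and `etT (s'_p) = δ(number)` (if `s'_p ∉ Λ` it is `δ Z(s'_p) - α δ(s'_p/μ)`,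
if `s'_p ∈ Λ` it is `δ(μ qp τ s'_p) - α δ(s'_p/μ)`; `δ α = 0`). For `q ∈ Q₂`: `w_q ∉ Λ`, so
`etT (w_q) = etf (w_q) + α lam (w_q) - δ(α w_q/μ)`. So the relation becomes
`∑_{Q₁} A_q th(u_q) + ∑_{Q₂} (B_q + α C_q) lam(w_q) + ∑_{Q₂} C_q etf(w_q) = δ T'` with `A_q = ∑_p c1_p r_pq`,
`B_q = ∑_p c2_p g_pq`, `C_q = ∑_p c3_p ḡ_pq`, all in `E` (the coefficients `c3_p`, `α` are killed by `δ`, so products
`c3_p δ(number)` are `δ(number)`). `FR.MixAx_pf` (`FR/I_MixAx.lean`, landed) gives `A = B = C = 0`. Finally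
`c1 = ∑_p c1_p e_p = ∑_p c1_p (e_p - ∑_q r_pq e_q)`, and `e_p - ∑_q r_pq e_q` is in the first set (`∑ = u_p - ∑ r_pq u_q = s_p`);
in the same way for `c2` with `e_p - ∑_q g_pq e_q`, and for `c3` with the conjugates. -/
def S_AKM : Prop := ∀ (τ μ α : ℂ), Nrm τ μ → Alp τ μ α → ∀ E : IntermediateField ℚ ℂ, Countable E → ACl E →
  ∀ (P : Type) [Fintype P] (u w c1 c2 c3 : P → ℂ), (∀ p, c1 p ∈ E) → (∀ p, c2 p ∈ E) → (∀ p, c3 p ∈ E) →
  ∀ T : ℂ, (∀ δ ∈ DK E, ∑ p, c1 p * FR.th δ (u p) + ∑ p, c2 p * lam τ μ δ (w p) +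
      ∑ p, c3 p * etT τ μ α δ (w p) = δ T) →
    c1 ∈ Submodule.span ℂ {g : P → ℂ | (∀ p, g p ∈ kQ) ∧ Complex.exp (∑ p, g p * u p) ∈ E} ∧
    c2 ∈ Submodule.span ℂ {g : P → ℂ | (∀ p, g p ∈ kf τ) ∧
      (∑ p, g p * w p ∈ Lam τ ∨ xe τ μ (∑ p, g p * w p) ∈ E)} ∧
    c3 ∈ Submodule.span ℂ {g : P → ℂ | ∃ g' : P → ℂ, (∀ p, g p = (starRingEnd ℂ) (g' p)) ∧ (∀ p, g' p ∈ kf τ) ∧
      (∑ p, g' p * w p ∈ Lam τ ∨ xe τ μ (∑ p, g' p * w p) ∈ E)}

/-- G7 (**image of the derivations killing `E`**, abstract form). PROOF: `EB/I_AxImgE.lean` word by word. `L δ = (∑_i v_i ω_ij δ)_j`,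
`DS = {D ∈ T : L D = 0}`, `W = (L (DK E))^⊥ ⊆ ℂ^J` is stable under `DS` (closedness; `[D, δ] ∈ DK E`; `D v_i = 0`), so it is
spanned by vectors `a` with coordinates in `E` (`x_Stab : S_Stab`, transported along `J ≃ Fin (card J)`); for such `a ∈ W`,
`(v_i a_j)` is a relation with coefficients in `E` (`v_i ∈ E`), so `∑_j a_j (∑_i v_i β_ij) = 0`. Double orthogonal. -/
def S_ImgC : Prop := ∀ (n : ℕ) (J : Type) [Fintype J] (T : Submodule ℂ (Derivation ℚ ℂ ℂ)),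
  (∀ D ∈ T, ∀ δ ∈ T, ⁅D, δ⁆ ∈ T) → ∀ (ω : Fin n → J → Derivation ℚ ℂ ℂ →ₗ[ℂ] ℂ),
  (∀ i j, ∀ D ∈ T, ∀ δ ∈ T, D (ω i j δ) - δ (ω i j D) = ω i j ⁅D, δ⁆) →
  ∀ v : Fin n → ℂ, (∀ δ ∈ T, ∀ i, δ (v i) = 0) → ∀ E : IntermediateField ℚ ℂ, DK E ≤ T →
  (∀ c : ℂ, c ∈ E ↔ ∀ δ ∈ T, (∀ j, ∑ i, v i * ω i j δ = 0) → δ c = 0) →
  ∀ β : Fin n → J → ℂ,
    (∀ c : Fin n → J → ℂ, (∀ i j, c i j ∈ E) → (∀ δ ∈ DK E, ∑ i, ∑ j, c i j * ω i j δ = 0) →
      ∑ i, ∑ j, c i j * β i j = 0) →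
    ∃ δ ∈ DK E, ∀ j, ∑ i, v i * ω i j δ = ∑ i, v i * β i j

/-- G8 (**output of the argument of Ax type**). PROOF (compare `EB/I_AxOutE.lean`). `T = TT v ⊓ TT b`, `L` = the linear map in
`rkM`, `E = {c : δ c = 0 for all δ ∈ T with L δ = 0}`: an intermediate field, algebraically closed in `ℂ`, containing `v_i`, `b_j`,
countable (all forms vanish at the derivations killing `v, b, x_i, e^{b_j x_i}, μ, τ, et τ, kap, X, Y, Z(μ b_j x_i)`, so `E` is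
contained in the algebraic closure of a finitely generated field). `G₁ = {ξ : e^{pt ξ} ∈ E}`,
`G₂ = {ξ : μ pt ξ ∈ Λ ∨ X(μ pt ξ) ∈ E}` are subspaces (`LamZero_pf`, `LamAdd_pf`, `LamMul`). Let `E₀` be as in the statement;
`E₀ ≤ E`. `T₁ = DK E₀ ⊓ TT v ≤ T`, `DK E ≤ T₁`.
(a) `k + finrank L(T₁) ≤ finrank L(T)`: there are `δ_t ∈ T` with `δ_t f_s = [s = t]` (independence over `ℚ(v, b)`; as in
`I_AxOutE`); if `L δ = 0`, `δ ∈ T`, then `δ f_s = 0` (`f_s ∈ E`), so `L δ ↦ (δ f_s)_s` is well defined on `L(T)`, onto `ℂ^k`, and `0`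
on `L(T₁)`.
(b) `L(DK E)` contains `mvJ v β` for all `β = (0; β¹; β²; β³)`, `β¹ ∈ annK G₁`, `β² ∈ annK G₂`, `(0, β³) ∈ annF f G₂`: use G7 with
`ω i j = FO … (x i) j` (G5): let `c` be a relation on `DK E` with coefficients in `E`: if `f = true` it reads
`∑ c1 th + ∑ c2 lam + ∑ c3 etT = δ(-∑_i c_i x_i)`, and G6 (with `P = Fin n × Fin m`, `u = b_j x_i`, `w = μ b_j x_i`) shows that
`c1, c2, c3` are in the complex spans of `G₁`, `G₂`, `conj G₂`; so `∑ c β = 0`. If `f = false`, apply G6 with `c3 = 0`, and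
`β³ = 0`.
(c) Let `π` be the projection to the coordinates `none` and `η̃`. `π L(T₁)` is the image of `(DK E₀ ⊓ TT v)` under
`mvJ v ∘ (FA (x_i))_i`, and contains `mvJ v (annF f G₂)` by (b); so it is
`((…).map … ⊔ annF f G₂).map (mvJ v)`. The kernel of `π` on `L(T₁)` contains all `(0; mv v β¹; mv v β²; 0)`, of dimension
`ugK G₁ v + ugK G₂ v`. Add up (rank-nullity for `π` on `L(T₁)`). -/
def S_AxOutM : Prop := ∀ (f : Bool) (τ μ α : ℂ), Nrm τ μ → Alp τ μ α → ∀ (n m : ℕ) (b : Fin m → ℂ)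
  (x v : Fin n → ℂ), ∃ (G₁ : Submodule kQ (Fin n → Fin m → kQ)) (G₂ : Submodule (kf τ) (Fin n → Fin m → kf τ)),
    ∀ E₀ : IntermediateField ℚ ℂ, ACl E₀ → (∀ j, b j ∈ E₀) → GV τ μ b x G₁ G₂ ⊆ E₀ →
    (∀ c ∈ E₀, IsAlgebraic (IntermediateField.adjoin ℚ (Set.range v ∪ Set.range b ∪ GV τ μ b x G₁ G₂)) c) →
    ∀ (k : ℕ) (h : Fin k → ℂ), (∀ t, h t ∈ GV τ μ b x G₁ G₂) →
    AlgebraicIndependent (IntermediateField.adjoin ℚ (Set.range v ∪ Set.range b)) h →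
      k + ugK G₁ v + ugK G₂ v + Module.finrank ℂ
        ((((DK E₀ ⊓ TT v).map (LinearMap.pi fun i => fam (FA f τ μ α b (x i)))) ⊔ annF f G₂).map (mvJ v))
        ≤ rkM f τ μ α b x v

/-! ## Linear algebra -/

/-- G9. PROOF (compare `EB/I_LinAlgK.lean` and `GL/G_LinAlg.lean`, `G_GenRank`, `G_RankInc`, `G_AnnExt`). `annK G` is spanned over
`ℂ` by matrices with entries in `k`; let `A` be the `k`-space of these. For `w ∈ k^n` let `L_w = {w·a : a ∈ A} ⊆ k^m`. Let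
`v₀ ∈ ℚ^n` with `dim L_{v₀}` maximal among the rational points; then `dim L_{v₀} = ugK G v` for `v` algebraically independent
(minors are polynomials over `k`, whose elements are algebraic). `C = {c ∈ k^m : ∑ c_j d_j = 0 for all d ∈ L_{v₀}}`, so
`dim C + ugK G v = m`. Let `a_1, …, a_u ∈ A` with `v₀·a_l` a basis of `L_{v₀}`; `V = {w ∈ ℚ^n : w·a_l = 0 for all l}` has codimension
`≤ 2 m u ≤ 2 m²` (`[k : ℚ] ≤ 2`). If `a ∈ A`, `v₀·a = 0`, then `w·a ∈ L_{v₀}` for all `w ∈ ℚ^n` (otherwise `v₀ + t w` would have larger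
rank for some rational `t`; `RankInc`). Every `a ∈ A` is `∑ t_l a_l + a'` with `v₀·a' = 0`, so for `w ∈ V`: `w·a = w·a' ∈ L_{v₀}`,
hence `∑ w_i c_j a_ij = 0` for `c ∈ C`, and `(w_i c_j) ∈ G` by double annihilation over `k`. The same with the conjugate space
`Ḡ = {ξ̄}`: its `A` is `Ā`, `L̄_{v₀}` is the conjugate, of the same dimension, which is again the maximum over rational points. So
`dim (annB G).map (mv v) = dim L_{v₀}`. Last clause: `annB G` is spanned by `Ā`; for `w ∈ V` and `s ∈ ℂ`,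
`(v₀ + s w)·ā_l = v₀·ā_l`, so the image contains `L̄_{v₀}`, and it is contained in it as `w·ā ∈ L̄_{v₀}`; and the complex span of
`L̄_{v₀}` is the annihilator of the `c̄`, `c ∈ C`. -/
def S_LinAlgV : Prop := ∀ (k : IntermediateField ℚ ℂ), FiniteDimensional ℚ k → Module.finrank ℚ k ≤ 2 →
  (∀ g ∈ k, (starRingEnd ℂ) g ∈ k) →
  ∀ (n m : ℕ) (G : Submodule k (Fin n → Fin m → k)) (v : Fin n → ℂ), AlgebraicIndependent ℚ v →
    ∃ (C : Submodule k (Fin m → k)) (V : Submodule ℚ (Fin n → ℚ)) (v₀ : Fin n → ℚ),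
      Module.finrank k C + ugK G v = m ∧
      Module.finrank k C + Module.finrank ℂ ((annB G).map (mv v)) = m ∧
      n ≤ Module.finrank ℚ V + 2 * (m * m) ∧
      (∀ c ∈ C, ∀ w ∈ V, (fun i j => (algebraMap ℚ k (w i)) * c j) ∈ G) ∧
      ∀ w ∈ V, ∀ s : ℂ, ∀ d : Fin m → ℂ,
        (d ∈ (annB G).map (mv fun i => (v₀ i : ℂ) + s * (w i : ℂ)) ↔
          ∀ c ∈ C, ∑ j, (starRingEnd ℂ) (c j : ℂ) * d j = 0)

/-- G10 (**semicontinuity**). PROOF. Let `s_1, …, s_N` be vectors with coordinates in `F` spanning `S = S₀ ⊔ S₁`, chosen as a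
spanning set of `S₀` followed by one of `S₁`. (i) `dim S.map(mvJ v') ≤ dim S.map(mvJ v)` for every `v' ∈ ℂ^n`: a minor of the matrix
`(mvJ v' s_l)_l` not vanishing at `v'` is a non-zero polynomial with coefficients in `F` in the coordinates of `v'`, so it does not
vanish at `v`, which is algebraically independent over `F`. (ii) For `v' = v₀ + s w`: `S.map(mvJ v') = S₀.map(mvJ v') ⊔ D`.
(iii) For a suitable `s ∈ ℂ` (all but finitely many): `dim (S₀.map(mvJ w) ⊔ D) ≤ dim (S₀.map(mvJ (v₀ + s w)) ⊔ D)`: choose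
`σ_1, …, σ_p ∈ S₀` such that the `mvJ w σ_l` form a basis modulo `D`, and `d_1, …, d_q` a basis of `D`; the vectors
`mvJ (v₀ + s w) σ_l`, `d_l` (polynomials in `s` of degree 1) are independent for some `s`: otherwise all maximal minors of
`(mvJ (v₀ + s w) σ_l, d_l)` vanish identically in `s`, and so do their coefficients of `s^p`, the minors of
`(mvJ w σ_l, d_l)`. -/
def S_SC1 : Prop := ∀ (F : IntermediateField ℚ ℂ) (n : ℕ) (J : Type) [Fintype J]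
  (S₀ S₁ : Submodule ℂ (Fin n → J → ℂ)), RatF F S₀ → RatF F S₁ →
  ∀ v : Fin n → ℂ, AlgebraicIndependent F v → ∀ (v₀ w : Fin n → ℂ) (D : Submodule ℂ (J → ℂ)),
    (∀ s : ℂ, S₁.map (mvJ fun i => v₀ i + s * w i) = D) →
    Module.finrank ℂ ↥(S₀.map (mvJ w) ⊔ D) ≤ Module.finrank ℂ ((S₀ ⊔ S₁).map (mvJ v))

/-- G11 (**rationality**). PROOF. First equality: `≤` is clear; let `δ ∈ DK E₀`; as `v` is algebraically independent over `F` there is
`δ' ∈ Der ℂ` with `δ' = δ` on `F` and `δ' v_i = 0` (extend `δ|_F` to `F(v)` by `v_i ↦ 0`, then to `ℂ`; compare the tools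
`derL`, `Pool.Agent.ED`, `GL/G_DerPres.lean`, `Der.lean`; or: choose `δ_t ∈ DK F` with `δ_t v_s = [s = t]`, and take
`δ' = δ - ∑ (δ v_t) δ_t`), and all forms at `x_i` only depend on `δ|_F`. Second: `S₀^⊥ = {c : ∑ c_ij FA(x_i)_j δ = 0 for all δ ∈ DK E₀}` is
stable under `D ∈ DK F`: apply `D`; `D(FA δ) = FA [D, δ] + δ(FA D)` (G5; `FA` consists of some of the forms `FO`) and `FA D = 0`
for `D ∈ DK F`, `[D, δ] ∈ DK E₀` (`E₀ ≤ F`). By `x_Stab` (`Fin n × J ≃ Fin _`) `S₀^⊥` is spanned by its vectors with coordinates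
killed by `DK F`, i.e. in `F` (`F` is algebraically closed in `ℂ`). The double annihilator `S₀` of a space spanned by `F`-vectors is
spanned by `F`-vectors. -/
def S_Rat : Prop := ∀ (f : Bool) (τ μ α : ℂ), Nrm τ μ → Alp τ μ α → ∀ (n m : ℕ) (b : Fin m → ℂ)
  (x v : Fin n → ℂ) (E₀ F : IntermediateField ℚ ℂ), ACl F → E₀ ≤ F → AlgebraicIndependent F v →
  (∀ δ ∈ DK F, ∀ i o, FA f τ μ α b (x i) o δ = 0) →
  (DK E₀ ⊓ TT v).map (LinearMap.pi fun i => fam (FA f τ μ α b (x i))) =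
      (DK E₀).map (LinearMap.pi fun i => fam (FA f τ μ α b (x i))) ∧
    RatF F ((DK E₀).map (LinearMap.pi fun i => fam (FA f τ μ α b (x i))))

/-! ## The additive part -/

/-- G12 (**subspaces of small rank**). PROOF. Write `A_w = ∑ w_i A_i ∈ ℂ^κ`, `rk(w) = rkD E A_w = dim {δ A_w : δ ∈ DK E}`. Let
`w*` be a rational point with `r* = rk(w*)` maximal, `F` = the algebraic closure of `E(A_{w*})` in `ℂ`; it has transcendence degree
`r*` over `E` (so `TrE E e → TrE F (e + r*)`; `TrCount`/Jacobian: `r*` = number of algebraically independent coordinates), and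
`DK F = {δ ∈ DK E : δ A_{w*} = 0}`. Let `I* = {δ A_{w*} : δ ∈ DK E}`, of dimension `r*`.
(*) `δ A_w ∈ I*` for all `δ ∈ DK F`, `w ∈ ℚ^n`: as `RankInc`: otherwise `w* + t w` has larger rank for some rational `t ≠ 0`
(minors are polynomials in `t`).
(**) `R := (I*)^⊥ ⊆ ℂ^κ` is stable under `DK F` (`D ∈ DK F`, `c ∈ R`, `δ ∈ DK E`: apply `D` to `∑ c_l δ(A_{w*,l}) = 0`;
`D δ A = [D, δ] A + δ (D A)`, `D A_{w*} = 0`, `[D, δ] ∈ DK E`), so by `x_Stab` it is spanned by vectors in `F^κ`; there are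
`M - r*` linearly independent ones (`M = card κ`), and for these `⟨c, A_i⟩` is killed by `DK F` (by (*)), so it is in `F`.
Choices: (1) `F := E`, `d = a = 0`, if `psi M ≤ r`. (2) `F`, `d = r*`, `a = M - r*`: gives `psi M + d ≤ a + r` if
`psi M + 2 r* ≤ M + r`. As `r* ≤ r`: `r* = 0` is case (2); if `r* ≥ 2` then either `psi M ≤ r`, or `psi M > r ≥ r* ≥ 2`, so
`M ≥ 3`, `psi M = (M+1)/2`, `r + 1 ≤ (M+1)/2`, and `psi M + 2 r* ≤ (M+1)/2 + r + (M+1)/2 - 1 ≤ M + r`. (3) `r* = 1`. If all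
`A_i ∈ F^κ`: `F`, `d = 1`, `a = M`, unit vectors. Otherwise let `A_{w₁} ∉ F^κ`, so there is `δ₁ ∈ DK F` with
`0 ≠ δ₁ A_{w₁} ∈ I*`, a line. Let `w' = w* + w₁`; `δ₁ A_{w'} = δ₁ A_{w₁}`, and `rk(w') = 1` so `{δ A_{w'} : δ ∈ DK E} = I*`. With
`F'` = algebraic closure of `E(A_{w'})`, (**) for `w'` shows that `R` is spanned by vectors in `F'^κ`. Elements in both `F` and `F'`
are in `E`: if `y ∈ F ∩ F'`, `y ∉ E`, then (transcendence degree 1) `F` and `F'` are both the algebraic closure of `E(y)`, so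
`F = F'` contains `A_{w*}` and `A_{w'}`, hence `A_{w₁}`, a contradiction. A subspace of `ℂ^κ` spanned by `F`-vectors
and by `F'`-vectors is spanned by vectors over `F ∩ F' = E` (reduced echelon form, or: here `R` is a hyperplane, `I* = ℂ a`; normalise
one coordinate of `a` to be `1`: the others are in `F` and in `F'`). So `M - 1` independent vectors `c ∈ R ∩ E^κ`. Claim `⟨c, A_w⟩ ∈ E` for
all `w`: for `w*`, `w'` clear (`∑ c_l δ A_{w*,l} = 0` for `δ ∈ DK E`), hence also for `w₁ = w' - w*`; for any `w` with `A_w ∉ F^κ` the same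
argument with `w` in place of `w₁` gives the same `R`; if `A_w ∈ F^κ` then `A_{w + w₁} ∉ F^κ`, subtract. Take `F := E`, `d = 0`,
`a = M - 1`: `psi M ≤ M = a + 1 ≤ a + r`. -/
def S_Tan : Prop := ∀ (E : IntermediateField ℚ ℂ), ACl E → ∀ (n : ℕ) (κ : Type) [Fintype κ]
  (A : Fin n → κ → ℂ) (r : ℕ), (∀ w : Fin n → ℚ, rkD E (fun l => ∑ i, (w i : ℂ) * A i l) ≤ r) →
  ∃ (F : IntermediateField ℚ ℂ) (a d : ℕ) (c : Fin a → κ → ℂ), ACl F ∧ E ≤ F ∧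
    (∀ e : ℕ, TrE E e → TrE F (e + d)) ∧ (∀ l j, c l j ∈ F) ∧ LinearIndependent ℂ c ∧
    (∀ l i, ∑ j, c l j * A i j ∈ F) ∧ psi (Fintype.card κ) + d ≤ a + r

/-- G13 (**echelon form**). PROOF: linear algebra over the field `F`. Let `R ⊆ F^{Option (Fin m₃)}` be the span of the rows `c l`
(they are independent over `F`), `dim R = a`. Project to the coordinates `some j`. If `(1, 0, …, 0) ∈ R`, take it as row `i₀`, and
let the other rows be a reduced echelon basis of the projection, lifted to `R`; otherwise the projection is injective on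
`R`. In both cases the rows with non-zero projection have pivots `π i = some j` with `c' i' (some j) = [i' = i]` (for `i' = i₀` the entry
is `0`). The new rows are combinations `∑ t_il c_l` with `t_il ∈ F`. -/
def S_Ech : Prop := ∀ (F : IntermediateField ℚ ℂ) (m₃ a : ℕ) (c : Fin a → Option (Fin m₃) → ℂ),
  (∀ l j, c l j ∈ F) → LinearIndependent ℂ c →
  ∃ (t : Fin a → Fin a → ℂ) (c' : Fin a → Option (Fin m₃) → ℂ) (i₀ : Option (Fin a))
    (π : Fin a → Option (Fin m₃)), (∀ i l, t i l ∈ F) ∧ (∀ i j, c' i j = ∑ l, t i l * c l j) ∧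
    (∀ i, i₀ = some i → c' i none = 1 ∧ ∀ j, c' i (some j) = 0) ∧
    ∀ i, i₀ ≠ some i → ∃ j, π i = some j ∧ ∀ i', c' i' (some j) = if i' = i then 1 else 0

/-- G14 (**the transcendence input for the additive part**). PROOF. Let `F, a, d, c` be given by G12 for `E`, `A = AV`
(`κ = Option (Fin m₃)`, `card κ = m₃ + 1`), `c'` by G13; `⟨c'_l, A_i⟩ ∈ F`. If `m₁ + m₂ + a ≤ 1`, then
`m₁ + m₂ + psi (1 + m₃) ≤ m₁ + m₂ + a + r - d ≤ r + 1` and we are done. Otherwise apply `S_TIM` with `ι = Fin a ⊕ (Fin m₁ ⊕ Fin m₂)`,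
`ty = add, mul, ell`; `b = c' · none` on `Fin a`, `b₁` on `Fin m₁`, `μ b₂` on `Fin m₂`; `c (inl l) (inr (inr j)) = c' l (some j)` for
`j < m₃`, `0` otherwise; `i₀`, `π` from G13 (`π` of the row `i₀` arbitrary; if `m₃ = 0` all rows are `i₀`, `a ≤ 1`).
`Adm`: `nb` is `0` on `Fin a`, `b₁`, `b₂` (as `μ b₂ / μ`): `FTI Q` follows from the hypothesis (set variables equal to `0`); `mul`,
`ell` from the independence (`∑ g_j μ b₂_j = 0`). All coordinates of `ptM` are in `F`: `G2, G3` algebraic; `c'`; the additive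
functions at `x_i` are `c'_l none x_i + ∑ c'_l(some j) Z(μ b₂_j x_i) = ⟨c'_l, A_i⟩`; `e^{b₁ x_i}`, `X(μ b₂ x_i) ∈ E ≤ F`, `Y` is algebraic
over `X` (`μ b₂_j x_i ∉ Λ`). As `TrE F (e + d)`, `TrLe (e + d) (ptM …)`, and `S_TIM` gives
`m₁ + m₂ + a - 2 < e + d`. So `m₁ + m₂ + psi (1 + m₃) ≤ m₁ + m₂ + a + r - d ≤ e + r + 1`. `n₀` = the maximum of the `n₀` of `S_TIM`
over all `m₁, m₂ ≤ m`, `a ≤ m + 1` (`a ≤ m₃ + 1` by independence). -/
def S_Star : Prop := ∀ Q m : ℕ, ∃ n₀ : ℕ, ∀ (m₁ m₂ m₃ : ℕ), m₁ ≤ m → m₂ ≤ m → ∀ (h₃ : m₃ ≤ m₂)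
  (τ μ : ℂ) (b₁ : Fin m₁ → ℂ) (b₂ : Fin m₂ → ℂ), Nrm τ μ → FTI Q (Sum.elim b₁ b₂) →
  LinearIndependent ℚ b₁ → KLI τ b₂ → ∀ n : ℕ, n₀ ≤ n → ∀ x : Fin n → ℂ, LinearIndependent ℚ x →
  (∀ s : Fin n → ℤ, s ≠ 0 → ∀ j, μ * b₂ j * cmb s x ∉ Lam τ) →
  ∀ (E : IntermediateField ℚ ℂ) (e r : ℕ), ACl E → TrE E e → (∀ i j, Complex.exp (b₁ j * x i) ∈ E) →
    (∀ i j, xe τ μ (μ * (b₂ j * x i)) ∈ E) →
    (∀ w : Fin n → ℚ, rkD E (fun l => ∑ i, (w i : ℂ) * AV τ μ h₃ b₂ x i l) ≤ r) →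
      m₁ + m₂ + psi (1 + m₃) ≤ e + r + 1

/-! ## The rank -/

/-- G15 (**the ranks at a rational point of the additive part**). `C` a `kf τ`-space of vectors, `c` a basis of it, `y_k = w_k·x`
with `w_k ∈ ℚ^n`. PROOF. For `δ ∈ DK E₀` and `w = ∑ t_k w_k`, `y = ∑ t_k y_k`: the `ℚ`-linearity of the forms gives
`mvJ w (FA(x_i) δ)_i = FA(y) δ` (G4; `FA` are forms of `FO`). Let `f = true` (`m₃ = m₂`): the map
`cc : (Option (Fin m) → ℂ) → (Option (Fin m₂) → ℂ)`, `none ↦ none`, `some l ↦ ∑_j conj(c_lj) (·)_j` has kernel `D` (the condition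
`hD`; `c` is a basis of `C`) and is onto, so `dim (S₀.map(mvJ w) ⊔ D) = dim cc(S₀.map(mvJ w)) + dim D`, `dim D = m - m₂`. By
`Alp`, `∑_j conj(c_lj) etT(μ b_j y) = etT(μ β_l y)`, `β_l = ∑ c_lj b_j`, `= ∑_k t_k etT(μ β_l y_k)`, and
`etT(μ β_l y_k) = δ Z(μ β_l y_k) - α β_l δ(y_k)` (as `X(μ β_l y_k) ∈ E₀`, `μ β_l y_k ∉ Λ`, `lam = 0`, `δ β_l = 0`). So
`cc(…) = (δ y, (δ ∑_k t_k Z(μ β_l y_k) - α β_l δ y)_l)`, of the same rank as `δ(∑ t_k AV(y_k))`. If `f = false` (`m₃ = 0`): both sides are the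
rank of `δ y` (`D = ⊥`). -/
def S_RatPt : Prop := ∀ (f : Bool) (τ μ α : ℂ), Nrm τ μ → Alp τ μ α → ∀ (n m m₂ m₃ : ℕ) (b : Fin m → ℂ)
  (x : Fin n → ℂ) (E₀ : IntermediateField ℚ ℂ), ACl E₀ → (∀ j, b j ∈ E₀) →
  ∀ (c : Fin m₂ → Fin m → ℂ), (∀ l j, c l j ∈ kf τ) → LinearIndependent ℂ c →
  ∀ h₃ : m₃ ≤ m₂, (f = true → m₃ = m₂) → (f = false → m₃ = 0) →
  ∀ (D : Submodule ℂ (Option (Fin m) → ℂ)),
    (∀ d, d ∈ D ↔ (d none = 0 ∧ (f = false → d = 0) ∧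
      ∀ l, ∑ j, (starRingEnd ℂ) (c l j) * d (some j) = 0)) →
  ∀ (N : ℕ) (g : Fin N → Fin n → ℚ) (y : Fin N → ℂ), (∀ k, y k = ∑ i, (g k i : ℂ) * x i) →
    (∀ k l, μ * ((∑ j, c l j * b j) * y k) ∉ Lam τ ∧ xe τ μ (μ * ((∑ j, c l j * b j) * y k)) ∈ E₀) →
    ∀ (t : Fin N → ℚ),
      rkD E₀ (fun l => ∑ k, (t k : ℂ) * AV τ μ h₃ (fun l => ∑ j, c l j * b j) y k l) +
        Module.finrank ℂ D ≤ Module.finrank ℂ
          ↥(((DK E₀).map (LinearMap.pi fun i => fam (FA f τ μ α b (x i)))).map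
            (mvJ fun i => ∑ k, (t k : ℂ) * (g k i : ℂ)) ⊔ D)

/-- G16 (**the rank at a generic point**). PROOF. Let `F` be the algebraic closure of
`ℚ(b, x, e^{b_j x_i}, μ, τ, et τ, kap, X, Y, Z(μ b_j x_i), α)` in `ℂ` (countable), and `v ∈ ℂ^n` algebraically independent over `F`
(`x_DenseK` or cardinality, see `I_GCoreE0`). `G₁, G₂` from G8; `GV ⊆ F` (`e^{pt ξ}` and `X(μ pt ξ)` are killed by `DK F`, by
additivity of the forms and `LamZero_pf`). `E₀` = the algebraic closure of `ℚ(b)(GV)` in `ℂ`, `E₀ ≤ F`. Let `k₀` be the maximal number of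
elements of `GV` algebraically independent over `ℚ(v, b)`; then `TrE E₀ (κ + k₀)` (`pr_CntB` over `V = ℚ(v)`, independence over
`ℚ` of elements of `F` implies independence over `ℚ(v)`; `TrCount` for `E₀` algebraic over `ℚ(b, GV)`). G9 for `G₁` (`k = kQ`) and for `G₂`
(`k = kf τ`, closed under conjugation as it is `ℚ` or imaginary quadratic: `N g ∈ Λ, N g τ ∈ Λ`;
`kf_rank`): `C₁, V₁`, `C₂, V₂, v₀`; `m₁ = dim C₁ = m - ugK G₁ v`, `m₂ = dim C₂ = m - ugK G₂ v`; `V = V₁ ⊓ V₂` has codimension `≤ 4 m²`.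
Bases `c¹`, `c²` of `C₁`, `C₂`; `b₁ = ∑ c¹_lj b_j`, `b₂ = ∑ c²_lj b_j` are independent over `ℚ`, resp. `KLI τ` (as `KLI τ b`), and
`FTI (Q + 2) (Sum.elim b₁ b₂)` (`FText_pf`, `FTpol_pf`, reindexing). The numbers `w·x`, `w` in a basis of `V`, are `ℚ`-independent; by
`RedNT_pf` (with `μ b₂_l ≠ 0`) there are integer combinations `y_k`, `k < N`, `N ≥ dim V - 2m`, `ℚ`-independent, with
`μ b₂_l cmb s y ∉ Λ` for `s ≠ 0`; `y_k = g_k·x`, `g_k ∈ V`. For these `e^{b₁_l y_k} ∈ E₀` and `X(μ b₂_l y_k) ∈ E₀`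
(`(g_k,i c_l,j) ∈ G₁`, resp. `G₂`). `D` := the annihilator of the conjugates of `C₂` (at the places `some j`, `0` at `none`) if
`f = true`, `⊥` if `f = false`; `S₁ = annF f G₂`, `S₁.map(mvJ(v₀ + s w)) = D` for `w ∈ V` (G9). `RatF F S₁`: `annB G₂` is spanned by
matrices over `kf τ ≤ F` (elements of `kf τ` are algebraic). Let `ρ = finrank ((S₀ ⊔ S₁).map (mvJ v))` in G8 (G11 replaces
`DK E₀ ⊓ TT v` by `DK E₀`), `r = ρ - finrank D`. G10 and G15: `rkD E₀ (∑ t_k AV(y_k)) ≤ r` for all rational `t`. `S_Star` with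
`m₃ = m₂` (`f = true`), `m₃ = 0` (`f = false`): `m₁ + m₂ + psi (1 + m₃) ≤ κ + k₀ + r + 1`. G8 with `k = k₀`:
`k₀ + (m - m₁) + (m - m₂) + r + finrank D ≤ rkM`, `finrank D = m - m₂` (`f = true`), `0` (`f = false`). So for `f = false`:
`rkM ≥ 2m - m₁ - m₂ + (m₁ + m₂ + 1 - κ - 1) = 2m - κ`; for `f = true`: `rkM + κ ≥ 3m - m₂ + psi(1 + m₂) - 1 ≥ tgt true m`
(`m₂ ≤ 1`: `psi (1 + m₂) = 1 + m₂`; `m₂ ≥ 2`: `psi (1 + m₂) = (m₂ + 2)/2`, and `m₂ ≤ m`). -/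
def S_GCoreM : Prop := ∀ (f : Bool) (Q m : ℕ), ∃ n₀ : ℕ, ∀ (τ μ α : ℂ) (b : Fin m → ℂ), Nrm τ μ → Alp τ μ α →
  FT Q b → KLI τ b → ∀ n : ℕ, n₀ ≤ n → ∀ x : Fin n → ℂ, LinearIndependent ℚ x → ∀ κ : ℕ, TrLe κ b →
    ∃ v : Fin n → ℂ, tgt f m ≤ κ + rkM f τ μ α b x v

/-- G17 (**from the generic point to rational points**, abstract form). PROOF: `EB/I_GPE.lean`. Let `δ_1, …, δ_ρ ∈ T` and
`j_1, …, j_ρ ∈ J` be such that the minor `det (∑_i v_i ω_{i, j_q}(δ_p))` is not zero. `P(w) = det (∑_i w_i ω_{i, j_q}(δ_p))` is a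
form of degree `ρ`, not zero. -/
def S_GPM : Prop := ∀ (n ρ : ℕ) (J : Type) [Fintype J] (T : Submodule ℂ (Derivation ℚ ℂ ℂ))
  (ω : Fin n → J → Derivation ℚ ℂ ℂ →ₗ[ℂ] ℂ) (v : Fin n → ℂ),
  ρ ≤ Module.finrank ℂ (T.map ((mvJ v).comp (LinearMap.pi fun i => fam (ω i)))) →
    ∃ P : MvPolynomial (Fin n) ℂ, P ≠ 0 ∧ P.IsHomogeneous ρ ∧
      ∀ w : Fin n → ℂ, MvPolynomial.eval w P ≠ 0 →
        ρ ≤ Module.finrank ℂ (T.map ((mvJ w).comp (LinearMap.pi fun i => fam (ω i))))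

/-- The forms at the point `z`: `δ z`, `th(b_j z)`, `λ(μ b_j z)`. -/
noncomputable def mixA (τ μ : ℂ) {m : ℕ} (b : Fin m → ℂ) (z : ℂ) :
    Option (Fin m ⊕ Fin m) → Derivation ℚ ℂ ℂ →ₗ[ℂ] ℂ := fun o =>
  o.elim (dL z) (Sum.elim (fun j => thL (b j * z)) (fun j => laL τ μ (μ * (b j * z))))

/-- `η` as a linear map of the derivation. -/
noncomputable def efL (τ μ u : ℂ) : Derivation ℚ ℂ ℂ →ₗ[ℂ] ℂ where
  toFun δ := etf τ μ δ u
  map_add' a b := by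
    unfold etf lam
    split_ifs
    · ring
    · simp only [Derivation.add_apply]
      ring
  map_smul' c a := by
    unfold etf lam
    split_ifs
    · simp only [RingHom.id_apply, smul_eq_mul]
      ring
    · simp only [Derivation.smul_apply, smul_eq_mul, RingHom.id_apply]
      ring

/-- The forms at the point `z`: `δ z`, `th(b_j z)`, `λ(μ b_j z)`, `η(μ b_j z)`. -/
noncomputable def mixB (τ μ : ℂ) {m : ℕ} (b : Fin m → ℂ) (z : ℂ) :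
    J3 m → Derivation ℚ ℂ ℂ →ₗ[ℂ] ℂ := fun o =>
  o.elim (dL z) (Sum.elim (fun j => thL (b j * z)) (Sum.elim (fun j => laL τ μ (μ * (b j * z)))
    (fun j => efL τ μ (μ * (b j * z)))))

/-- G18 (**the ranks at rational points**). PROOF. `α` from G3. G16 for `f = false` and `f = true` gives `v, v'` (`TrLe κ b`), G17 with
`ω i o = FO f τ μ α b (x i) o` and `T = TT b` (`TT v ⊓ TT b ≤ TT b`; take `ρ = tgt f m - κ`) gives `P_f`, homogeneous of degree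
`≤ 2m`, resp. `≤ 3m`. For rational `w`: `mvJ w (FO(x_i) δ)_i = FO(z) δ`, `z = ∑ w_i x_i` (G4, `ℚ`-linearity), so the rank of `FO f (z)` on `TT b`
is `≥ tgt f m - κ`. For `f = false`: `FO false (z)` is `mixA` together with zeros. For `f = true` and `μ b_j z ∉ Λ` for all `j`:
`etT(μ b_j z) = etf + α λ(μ b_j z) - α δ(b_j z)`, `δ(b_j z) = b_j δ z` on `TT b`: so the rank of `mixB` is the same. To get
`μ b_j z ∉ Λ`: `b_j ≠ 0`; the `w ∈ ℚ^n` with `μ b_j (w·x) ∈ Λ ⊗ ℚ` form a `ℚ`-space of dimension `≤ 2 < n`, contained in the kernel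
of a rational linear form `ℓ_j ≠ 0`; multiply `P` by `∏ ℓ_j`. `P = P_false P_true ∏ ℓ_j`, of degree `≤ 6 m`. -/
def S_MixRank : Prop := ∀ (Q m : ℕ), ∃ n₀ : ℕ, ∀ (τ μ : ℂ) (b : Fin m → ℂ), Nrm τ μ → FT Q b → KLI τ b →
  ∀ n : ℕ, n₀ ≤ n → ∀ x : Fin n → ℂ, LinearIndependent ℚ x → ∀ κ : ℕ, TrLe κ b →
    ∃ P : MvPolynomial (Fin n) ℂ, P ≠ 0 ∧ P.totalDegree ≤ 6 * m ∧
      ∀ w : Fin n → ℚ, MvPolynomial.eval (fun i => (w i : ℂ)) P ≠ 0 →
      ∀ z : ℂ, z = ∑ i, (w i : ℂ) * x i →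
        (∀ j, μ * (b j * z) ∉ Lam τ) ∧
        2 * m ≤ κ + Module.finrank ℂ ((TT b).map (fam (mixA τ μ b z))) ∧
        tgt true m ≤ κ + Module.finrank ℂ ((TT b).map (fam (mixB τ μ b z)))

end Pool.Agent.Work.MP_8da9ea_nt.MX
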