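import Pool.Agent.Work.MP_8da9ea_nt.MX.StmtsG

/-!
# Mixed block, Part R (relative statements) and the end: statements
-/

set_option autoImplicit false

namespace Pool.Agent.Work.MP_8da9ea_nt.MX

open MvPolynomial Pool.Agent.Work.MP_327059_nt.GL Pool.Agent.Work.MP_8da9ea_nt.S
  Pool.Agent.Work.MP_8da9ea_nt.EB

/-- The rank of `mixA` on a space of derivations. -/
noncomputable def rA (τ μ : ℂ) {m : ℕ} (b : Fin m → ℂ) (z : ℂ) (T : Submodule ℂ (Derivation ℚ ℂ ℂ)) : ℕ :=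
  Module.finrank ℂ (T.map (fam (mixA τ μ b z)))

/-- The rank of `mixB` on a space of derivations. -/
noncomputable def rB (τ μ : ℂ) {m : ℕ} (b : Fin m → ℂ) (z : ℂ) (T : Submodule ℂ (Derivation ℚ ℂ ℂ)) : ℕ :=
  Module.finrank ℂ (T.map (fam (mixB τ μ b z)))

/-- The rank of the forms `λ(μ b_j z)` on a space of derivations. -/
noncomputable def rL (τ μ : ℂ) {m : ℕ} (b : Fin m → ℂ) (z : ℂ) (T : Submodule ℂ (Derivation ℚ ℂ ℂ)) : ℕ :=
  Module.finrank ℂ (T.map (lamV τ μ fun j => μ * (b j * z)))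

/-- The elliptic point `μ (c·b) z`. -/
noncomputable def ePt (μ : ℂ) {m : ℕ} (b : Fin m → ℂ) (z : ℂ) (c : Fin m → ℚ) : ℂ :=
  ∑ j, (c j : ℂ) * (μ * (b j * z))

/-- R1 (**one elliptic point**). Let `T = DK K`, `T₁` = the derivations of `T` with `lam(v) = etf(v) = 0`. PROOF. Write
`A_j = lam(μ b_j z)`, `B_j = etf(μ b_j z)` for the forms on `T`; `lam(v) = ∑ c_j A_j`, `etf(v) = ∑ c_j B_j` (`LamAdd_pf`, `EtaAdd_pf`;
`K` contains the periods). Let `⟨A⟩` be the span on `T` of the forms `mixA`, of dimension `ρ_A`, `⟨B⟩ ⊇ ⟨A⟩` that of `mixB`, of dimension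
`ρ_B`. By `RelStepE` (landed: `EB.RelStepE_pf`, see `EB/Asm.lean`) there is a rational `c` such that `lam(v)`, `etf(v)` are linearly
independent on `T`; this holds on a Zariski open set of `c` (a 2×2 determinant, quadratic in `c`). If `ρ_B > ρ_A`, some
`B_j ∉ ⟨A⟩`, so `∑ c_j B_j ∉ ⟨A⟩` on a non-empty Zariski open set of `c` (complement of a proper linear subspace; evaluate a linear
functional of `⟨B⟩` vanishing on `⟨A⟩`). Choose `c` rational with both properties (a product of non-zero polynomials has a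
non-zero rational value). `T₁` is the common kernel, so the span on `T₁` of a set `Φ ⊆ T^*` of forms has dimension
`dim ⟨Φ⟩ - dim (⟨Φ⟩ ∩ ⟨lam(v), etf(v)⟩)`: for `mixB`: `ρ_B - 2`; for `mixA`: `ρ_A - 1` if `etf(v) ∉ ⟨A⟩` (then
`⟨A⟩ ∩ ⟨lam(v), etf(v)⟩ = ⟨lam(v)⟩`), at least `ρ_A - 2 = ρ_B - 2` otherwise; for the `A_j`: at most `rL - 1`, as `lam(v) ≠ 0`
is in their span. -/
def S_RelStepM : Prop := ∀ (τ μ : ℂ), Nrm τ μ → ∀ K : IntermediateField ℚ ℂ, Countable K →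
  μ ∈ K → τ ∈ K → et τ ∈ K → kap ∈ K → ∀ (m : ℕ) (b : Fin m → ℂ) (z : ℂ),
    2 ≤ rL τ μ b z (DK K) →
      ∃ c : Fin m → ℚ, ePt μ b z c ∉ Lam τ ∧
        (∀ a a' : ℂ, (∀ δ ∈ DK K, a * lam τ μ δ (ePt μ b z c) + a' * etf τ μ δ (ePt μ b z c) = 0) →
          a = 0 ∧ a' = 0) ∧
        ∀ T₁ : Submodule ℂ (Derivation ℚ ℂ ℂ),
          (∀ δ, δ ∈ T₁ ↔ δ ∈ DK K ∧ lam τ μ δ (ePt μ b z c) = 0 ∧ etf τ μ δ (ePt μ b z c) = 0) →
            min (rA τ μ b z (DK K) - 1) (rB τ μ b z (DK K) - 2) ≤ rA τ μ b z T₁ ∧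
            rB τ μ b z (DK K) ≤ rB τ μ b z T₁ + 2 ∧
            rL τ μ b z T₁ + 1 ≤ rL τ μ b z (DK K)

/-- R2 (**all points together**). PROOF: induction on `r'` as in `EB/I_RelAll.lean` (lemmas `Idp.extend`, `Idp.det`, `cst`,
`countable_adjoin'`), for the stronger statement with hypotheses
`r + 1 + ℓ ≤ ρ_A`, `r + r' + 1 + ℓ ≤ ρ_B`, `r' > 0 → r' + 2 + m ≤ ρ_A ∧ m + 1 + 2 r' ≤ ρ_B`, where `ℓ = rL (DK K) ≤ m`.
Step: `rL (DK K) ≥ ρ_A - (1 + m) ≥ 2` if `r' ≥ 1` (`mixA` consists of `δ z`, `m` forms `th` and the `λ`-forms). R1 gives `c'_1`; `K₁` = the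
field generated by `K`, `X(v)`, `Z(v)` (and `Y(v)`); `DK K₁ = T₁` (`v ∉ Λ`; `δ X = lam · Y`, `δ Y = lam · (6X² - G2/2)`, `δ Z = etf - X lam`;
if `Y(v) = 0` then `X(v)` is algebraic). `ℓ' ≤ ℓ - 1`, `ρ_A' ≥ min (ρ_A - 1, ρ_B - 2)`, `ρ_B' ≥ ρ_B - 2`: the hypotheses hold for
`r' - 1` over `K₁` (`r' - 1 > 0` uses `m + 3 + r' ≤ m + 1 + 2 r' ≤ ρ_B`). Base `r' = 0`: the rank of the `m` forms `th(b_j z)` on
`DK K` is `≥ ρ_A - 1 - ℓ ≥ r`, so `r` generic rational combinations are independent (toric part of `I_RelAll`). `Idp.extend`, `Idp.det`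
give the determinant. -/
def S_RelAllM : Prop := ∀ (τ μ : ℂ), Nrm τ μ → ∀ K : IntermediateField ℚ ℂ, Countable K →
  μ ∈ K → τ ∈ K → et τ ∈ K → kap ∈ K → ∀ (m r r' : ℕ) (b : Fin m → ℂ) (z : ℂ),
    r + m + 1 ≤ rA τ μ b z (DK K) → r + r' + m + 1 ≤ rB τ μ b z (DK K) →
    (0 < r' → r' + m + 2 ≤ rA τ μ b z (DK K) ∧ 2 * r' + m + 1 ≤ rB τ μ b z (DK K)) →
      ∃ (c : Fin r → Fin m → ℚ) (c' : Fin r' → Fin m → ℚ)
        (δ : Fin r ⊕ Fin r' × Bool → Derivation ℚ ℂ ℂ), (∀ o, δ o ∈ DK K) ∧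
        (Matrix.of fun o o' => enE τ μ (fun i => ∑ j, (c i j : ℂ) * (b j * z))
          (fun i => ∑ j, (c' i j : ℂ) * (μ * (b j * z))) (δ o) o').det ≠ 0

/-- R3 (**the final theorem for one lattice with algebraic invariants and one point**). PROOF: `EB/I_FinalZ.lean`,
`FinalZ2_pf` (its lemmas `rank_DK`, `fin_tor`, `fin_step`, … are reusable), with `K` = the field generated by `B(t, p)`, `b`, `μ`. Ranks on
`DK K` (codimension at most `N` in `TT b`, `rank_DK`): `rA ≥ 2m - κ - N`, `rB ≥ (if m = 1 then 3 else 5m/2) - κ - N`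
(`tgt true m = if m = 1 then 3 else 5 * m / 2`), which give the three hypotheses of R2. `r' = 0`:
`m ≤ κ + 1 + rank (lgV)` as `mixA` consists of `δ z`, the forms of `lgV` and `m` forms `λ`. Then `RelPol` and `fin_step`. Note
`μ (b_j z) = b_j (z / ω₁)`. -/
def S_FinalZM : Prop := ∀ (m κ r r' N : ℕ) (b : Fin m → ℂ) (z ω₁ ω₂ τ μ : ℂ),
  r + N + κ + 1 ≤ m → r + r' + N + κ + 1 ≤ 3 * m / 2 →
  (0 < r' → r' + N + κ + 2 ≤ m ∧ 2 * r' + N + κ + 1 ≤ 3 * m / 2) → TrLe κ b →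
  Nrm τ μ → (ω₂ = ω₁ * τ ∨ ω₂ = -(ω₁ * τ)) → ω₁ ≠ 0 → μ = ω₁⁻¹ →
  2 * m ≤ κ + Module.finrank ℂ ((TT b).map (fam (mixA τ μ b z))) →
  tgt true m ≤ κ + Module.finrank ℂ ((TT b).map (fam (mixB τ μ b z))) →
  ∀ (s k : ℕ) (t : Fin s → ℂ) (p : Fin k → ℂ), ¬ HasTrdeg (bigField ω₁ ω₂ t p) (N + 1) →
    ∃ P : MvPolynomial (Fin r × Fin m ⊕ Fin r' × Fin m) ℂ, P ≠ 0 ∧ P.IsHomogeneous (r + 2 * r') ∧
      ∀ (c : Fin r → Fin m → ℚ) (c' : Fin r' → Fin m → ℚ),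
        MvPolynomial.eval (Sum.elim (fun q => (c q.1 q.2 : ℂ)) (fun q => (c' q.1 q.2 : ℂ))) P ≠ 0 →
        ∀ (u : Fin r → ℂ) (v : Fin r' → ℂ), (∀ i, u i = (∑ j, (c i j : ℂ) * b j) * z) →
          (∀ i, v i = (∑ j, (c' i j : ℂ) * b j) * z) →
          (∀ i, ∀ a b : ℤ, v i ≠ (a : ℂ) * ω₁ + (b : ℂ) * ω₂) ∧
          (∀ d, HasTrdeg (bigField ω₁ ω₂ t p) d →
            HasTrdeg (bigField ω₁ ω₂ (Fin.append t u) (Fin.append p v)) (d + r + 2 * r')) ∧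
          (Q1 ω₁ ω₂ t p → Q1 ω₁ ω₂ (Fin.append t u) (Fin.append p v))

/-- R4 (**the absolute statements at a point**). PROOF: `EB/Final.lean`, `abs_wp`. Let `K₀ = ℚ(b_{sb})`; `b` is algebraic over
`K₀` (`hal`), so `TT b ⊇` … `= DK K₀`-derivations: `TT b = {δ : δ b_{sb i} = 0}`. The rank of `mixA` on `TT b` is at most the
number of algebraically independent elements over `K₀` among `z, e^{b_j z}, X(μ b_j z)` (each form is a multiple of `δ` of one of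
these numbers; `exists_finset_rank`), so at least `2m - κ₀` of them are algebraically independent over `K₀`; together with the
`b_{sb i}` at least `2m` numbers. `X(μ b_j z) = ℘_Ω(b_j z)` (`wp_norm`, `wp_N`, as in `Final.lean`). For `mixB`:
`etf = δ Z + X lam` (`μ b_j z ∉ Λ`), so `mixB` on `TT b` has the same rank as `δz, th, lam, δ Z(μ b_j z)`; `Z(μ b_j z) = ζ_Ω(b_j z)`
(`zt` under scaling; compare `big_zt'`). -/
def S_AbsM : Prop := ∀ (m κ₀ : ℕ) (b : Fin m → ℂ) (z ω₁ ω₂ τ μ : ℂ) (sb : Fin κ₀ → Fin m),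
  AlgebraicIndependent ℚ (fun i => b (sb i)) →
  (∀ j, IsAlgebraic (IntermediateField.adjoin ℚ (Set.range fun i => b (sb i))) (b j)) →
  Nrm τ μ → (ω₂ = ω₁ * τ ∨ ω₂ = -(ω₁ * τ)) → ω₁ ≠ 0 → μ = ω₁⁻¹ → (∀ j, μ * (b j * z) ∉ Lam τ) →
  2 * m ≤ κ₀ + Module.finrank ℂ ((TT b).map (fam (mixA τ μ b z))) →
  tgt true m ≤ κ₀ + Module.finrank ℂ ((TT b).map (fam (mixB τ μ b z))) →
    (∃ s : Fin (2 * m) → Fin m ⊕ Option (Fin m ⊕ Fin m), AlgebraicIndependent ℚ (fun i =>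
      Sum.elim b (fun o => o.elim z (Sum.elim (fun j => Complex.exp (b j * z))
        (fun j => wp ω₁ ω₂ (b j * z)))) (s i))) ∧
    (∃ s : Fin (if m = 1 then 3 else 5 * m / 2) → Fin m ⊕ Option (Fin m ⊕ (Fin m ⊕ Fin m)),
      AlgebraicIndependent ℚ (fun i =>
        Sum.elim b (fun o => o.elim z (Sum.elim (fun j => Complex.exp (b j * z))
          (Sum.elim (fun j => wp ω₁ ω₂ (b j * z)) (fun j => zt ω₁ ω₂ (b j * z))))) (s i)))

end Pool.Agent.Work.MP_8da9ea_nt.MX
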